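import Pool.Agent.MldGeo.Stmts1

/-!
# The coefficients of a logarithmic differential in a frame
-/

namespace MldGeo

namespace COE

variable {n : ℕ} {K : Type} [Field K] [Algebra ℂ K]

lemma ord_one (v : DivVal n K) : v.ord 1 = 0 := by
  have := v.ord_const 1
  rwa [map_one] at this

lemma ord_inv (v : DivVal n K) {a : K} (ha : a ≠ 0) : v.ord a⁻¹ = - v.ord a := by
  have h := v.ord_mul a a⁻¹ ha (inv_ne_zero ha)
  rw [mul_inv_cancel₀ ha, ord_one] at h
  omega

lemma ord_zpow (v : DivVal n K) {t : K} (ht : t ≠ 0) (k : ℤ) : v.ord (t ^ k) = k * v.ord t := by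
  induction k using Int.induction_on with
  | zero => simp [ord_one]
  | succ i ih =>
    rw [zpow_add_one₀ ht, v.ord_mul _ _ (zpow_ne_zero _ ht) ht, ih]
    ring
  | pred i ih =>
    rw [zpow_sub_one₀ ht, v.ord_mul _ _ (zpow_ne_zero _ ht) (inv_ne_zero ht), ih, ord_inv v ht]
    ring

lemma ge_mul_inv (v : DivVal n K) {a b : K} {k l : ℤ} (ha : a ≠ 0) (h : v.Ge k b)
    (hl : k - v.ord a = l) : v.Ge l (b * a⁻¹) := by
  by_cases hb : b = 0
  · left
    rw [hb, zero_mul]
  · right
    rcases h with h | h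
    · exact absurd h hb
    · rw [v.ord_mul _ _ hb (inv_ne_zero ha), ord_inv v ha]
      omega

end COE

open COE in
theorem t_COE (hFRA : Stmt_FRA) (hLOGD : Stmt_LOGD) (hTBAS : Stmt_TBAS) : Stmt_COE := by
  intro m K _ _ htr v t u hF a ha
  obtain ⟨ht0, ht1, _⟩ := id hF
  have hai := (hFRA v).2 t u hF
  obtain ⟨hli, hsp⟩ := hTBAS htr _ hai
  set x : Fin (m + 1) → K := Fin.cons t u with hx
  have hx0 : x 0 = t := rfl
  have hxs : ∀ j : Fin m, x j.succ = u j := fun j => rfl
  let bs : Module.Basis (Fin (m + 1)) K (Ω[K⁄ℂ]) := Module.Basis.mk hli hsp.ge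
  have hbs : ∀ i, bs i = KaehlerDifferential.D ℂ K (x i) := fun i => Module.Basis.mk_apply hli hsp.ge i
  let E : Fin (m + 1) → Derivation ℂ K K := fun i =>
    (bs.coord i).compDer (KaehlerDifferential.D ℂ K)
  have hE : ∀ i b, E i b = bs.repr (KaehlerDifferential.D ℂ K b) i := fun i b => rfl
  have hEx : ∀ i j, E i (x j) = if j = i then 1 else 0 := by
    intro i j
    rw [hE, ← hbs, Module.Basis.repr_self, Finsupp.single_apply]
  have hD : ∀ b, KaehlerDifferential.D ℂ K b = ∑ i, E i b • KaehlerDifferential.D ℂ K (x i) := by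
    intro b
    conv_lhs => rw [← bs.sum_repr (KaehlerDifferential.D ℂ K b)]
    simp only [hbs, hE]
  -- the logarithmic derivation
  let D0 : Derivation ℂ K K := t • E 0
  have hD0 : ∀ b, D0 b = t * E 0 b := fun b => rfl
  have hD0t : D0 t = t := by
    rw [hD0, ← hx0, hEx]
    simp
  have hD0u : ∀ j, D0 (u j) = 0 := by
    intro j
    rw [hD0, ← hxs, hEx]
    simp
  have L0 := hLOGD htr v t u hF D0 (by rw [hD0t]; exact Or.inr ht1.ge)
    (fun j => by rw [hD0u]; exact Or.inl rfl)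
  have L0b := L0.2 (fun j => by rw [hD0u]; exact Or.inl rfl)
  have L1 : ∀ j : Fin m, ∀ (b : K) (k : ℤ), v.Ge k b → v.Ge k (E j.succ b) := by
    intro j
    refine (hLOGD htr v t u hF (E j.succ) ?_ ?_).1
    · left
      rw [← hx0, hEx, if_neg (Fin.succ_ne_zero j).symm]
    · intro i
      rw [← hxs, hEx]
      split_ifs
      · right
        rw [ord_one]
      · left; rfl
  refine ⟨Fin.cons (D0 a * a⁻¹) fun j => E j.succ a * a⁻¹, ?_, ?_, ?_⟩
  · intro i
    refine Fin.cases ?_ ?_ i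
    · exact ge_mul_inv v ha (L0.1 a (v.ord a) (Or.inr le_rfl)) (by omega)
    · intro j
      exact ge_mul_inv v ha (L1 j a (v.ord a) (Or.inr le_rfl)) (by omega)
  · change v.Ge 1 (D0 a * a⁻¹ - (v.ord a : K))
    set k := v.ord a with hk
    have htk : t ^ k ≠ 0 := zpow_ne_zero _ ht0
    obtain ⟨w, hw⟩ : ∃ w, w = a * (t ^ k)⁻¹ := ⟨_, rfl⟩
    have hw0 : w ≠ 0 := by rw [hw]; exact mul_ne_zero ha (inv_ne_zero htk)
    have hwo : v.ord w = 0 := by
      rw [hw, v.ord_mul _ _ ha (inv_ne_zero htk), ord_inv v htk, ord_zpow v ht0, ht1, ← hk]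
      ring
    have haw : a = t ^ k * w := by
      rw [hw]
      field_simp
    have e : D0 a * a⁻¹ - (k : K) = D0 w * w⁻¹ := by
      have e1 : D0 (t ^ k) = (k : K) * t ^ k := by
        rw [Derivation.leibniz_zpow, hD0t, smul_eq_mul, zsmul_eq_mul, zpow_sub_one₀ ht0]
        field_simp
      have e2 : D0 a = t ^ k * D0 w + w * ((k : K) * t ^ k) := by
        conv_lhs => rw [haw]
        rw [Derivation.leibniz, e1, smul_eq_mul, smul_eq_mul]
      rw [e2]
      conv_lhs => rw [haw]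
      field_simp
      ring
    rw [e]
    exact ge_mul_inv v hw0 (L0b w (Or.inr hwo.ge)) (by omega)
  · change dlog a = (D0 a * a⁻¹) • dlog t + ∑ j : Fin m, (E j.succ a * a⁻¹) •
      KaehlerDifferential.D ℂ K (u j)
    unfold dlog
    rw [hD a, Fin.sum_univ_succ, smul_add, Finset.smul_sum, hx0]
    congr 1
    · rw [smul_smul, smul_smul, hD0]
      congr 1
      field_simp
    · apply Finset.sum_congr rfl
      intro j _
      rw [smul_smul, hxs, mul_comm]

end MldGeo
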