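import Pool.Agent.MldGeo.Stmts1

/-!
# FRA: frames exist, and they are algebraically independent
-/

namespace MldGeo

open MvPolynomial

noncomputable section

namespace FRA

variable {n : ℕ} {K : Type} [Field K] [Algebra ℂ K]

theorem ord_neg (v : DivVal n K) {a : K} (ha : a ≠ 0) : v.ord (-a) = v.ord a := by
  have h1 : (-1 : K) = algebraMap ℂ K (-1) := by simp
  have h2 : v.ord (-1 : K) = 0 := by rw [h1]; exact v.ord_const _
  have h3 := v.ord_mul (-1) a (by simp) ha
  rw [h2, zero_add, neg_one_mul] at h3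
  exact h3

theorem ge_add (v : DivVal n K) {k : ℤ} {a b : K} (ha : v.Ge k a) (hb : v.Ge k b) :
    v.Ge k (a + b) := by
  rcases ha with rfl | ha
  · rwa [zero_add]
  rcases hb with rfl | hb
  · rw [add_zero]
    exact Or.inr ha
  by_cases h0 : a = 0
  · subst h0
    rw [zero_add]
    exact Or.inr hb
  by_cases h1 : b = 0
  · subst h1
    rw [add_zero]
    exact Or.inr ha
  by_cases h2 : a + b = 0
  · exact Or.inl h2
  · exact Or.inr ((le_min ha hb).trans (v.ord_add a b h0 h1 h2))

theorem ge_mul (v : DivVal n K) {k l : ℤ} {a b : K} (ha : v.Ge k a) (hb : v.Ge l b) :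
    v.Ge (k + l) (a * b) := by
  by_cases h0 : a = 0
  · subst h0
    rw [zero_mul]
    exact Or.inl rfl
  by_cases h1 : b = 0
  · subst h1
    rw [mul_zero]
    exact Or.inl rfl
  right
  rw [v.ord_mul a b h0 h1]
  exact add_le_add (ha.resolve_left h0) (hb.resolve_left h1)

/-- the sum of a unit and of an element of positive order is not zero -/
theorem add_ne_zero (v : DivVal n K) {a b : K} (ha : a ≠ 0) (ha0 : v.ord a = 0)
    (hb : v.Ge 1 b) : a + b ≠ 0 := by
  intro h
  have h1 : b = -a := by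
    rw [eq_neg_iff_add_eq_zero, add_comm]
    exact h
  have h2 : b ≠ 0 := by
    rw [h1]
    exact neg_ne_zero.2 ha
  have h3 := hb.resolve_left h2
  rw [h1, ord_neg v ha, ha0] at h3
  omega

/-- the evaluation of polynomials in one variable over the polynomials in `m` variables -/
def ev {m : ℕ} (t : K) (u : Fin m → K) : Polynomial (MvPolynomial (Fin m) ℂ) →+* K :=
  Polynomial.eval₂RingHom (aeval u : MvPolynomial (Fin m) ℂ →ₐ[ℂ] K).toRingHom t

theorem ev_C {m : ℕ} (t : K) (u : Fin m → K) (p : MvPolynomial (Fin m) ℂ) :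
    ev t u (Polynomial.C p) = aeval u p := by
  unfold ev
  rw [Polynomial.coe_eval₂RingHom, Polynomial.eval₂_C]
  rfl

theorem ev_X {m : ℕ} (t : K) (u : Fin m → K) : ev t u Polynomial.X = t := by
  unfold ev
  rw [Polynomial.coe_eval₂RingHom, Polynomial.eval₂_X]

theorem ev_fin {m : ℕ} (t : K) (u : Fin m → K) (p : MvPolynomial (Fin (m + 1)) ℂ) :
    ev t u (finSuccEquiv ℂ m p) = aeval (Fin.cons t u : Fin (m + 1) → K) p := by
  induction p using MvPolynomial.induction_on with
  | C a =>
    rw [finSuccEquiv_apply, eval₂Hom_C, RingHom.comp_apply, ev_C, aeval_C, aeval_C]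
  | add p q hp hq => rw [map_add, map_add, map_add, hp, hq]
  | mul_X p i hp =>
    have key : ev t u (finSuccEquiv ℂ m (X i)) = (Fin.cons t u : Fin (m + 1) → K) i := by
      refine Fin.cases ?_ (fun j => ?_) i
      · rw [finSuccEquiv_X_zero, ev_X, Fin.cons_zero]
      · rw [finSuccEquiv_X_succ, ev_C, aeval_X, Fin.cons_succ]
    rw [map_mul, map_mul, map_mul, hp, aeval_X, key]

theorem ev_ge {m : ℕ} (v : DivVal (m + 1) K) {t : K} {u : Fin m → K} (hf : Frame v t u)
    (q : Polynomial (MvPolynomial (Fin m) ℂ)) : v.Ge 0 (ev t u q) := by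
  induction q using Polynomial.induction_on with
  | C a =>
    rw [ev_C]
    by_cases ha : a = 0
    · subst ha
      rw [map_zero]
      exact Or.inl rfl
    · exact Or.inr (hf.2.2 a ha).2.ge
  | add p q hp hq =>
    rw [map_add]
    exact ge_add v hp hq
  | monomial i a h =>
    rw [pow_succ, ← mul_assoc, map_mul, ev_X]
    have h1 := ge_mul v h (show v.Ge 1 t from Or.inr hf.2.1.ge)
    rcases h1 with h1 | h1
    · exact Or.inl h1
    · exact Or.inr (by omega)

theorem ev_ne {m : ℕ} (v : DivVal (m + 1) K) {t : K} {u : Fin m → K} (hf : Frame v t u)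
    (q : Polynomial (MvPolynomial (Fin m) ℂ)) (hq : q.coeff 0 ≠ 0) : ev t u q ≠ 0 := by
  rw [← Polynomial.X_mul_divX_add q, map_add, map_mul, ev_X, ev_C, add_comm]
  obtain ⟨h1, h2⟩ := hf.2.2 _ hq
  refine add_ne_zero v h1 h2 ?_
  have h3 := ge_mul v (show v.Ge 1 t from Or.inr hf.2.1.ge) (ev_ge v hf q.divX)
  rwa [add_zero] at h3

theorem ev_ne' {m : ℕ} (v : DivVal (m + 1) K) {t : K} {u : Fin m → K} (hf : Frame v t u) :
    ∀ (N : ℕ) (q : Polynomial (MvPolynomial (Fin m) ℂ)), q.natDegree ≤ N → q ≠ 0 →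
      ev t u q ≠ 0 := by
  intro N
  induction N with
  | zero =>
    intro q hN hq
    refine ev_ne v hf q ?_
    intro h0
    apply hq
    rw [Polynomial.eq_C_of_natDegree_le_zero hN, h0, Polynomial.C_0]
  | succ N ih =>
    intro q hN hq
    by_cases h0 : q.coeff 0 = 0
    · have h1 : q = Polynomial.X * q.divX := by
        conv_lhs => rw [← Polynomial.X_mul_divX_add q]
        rw [h0, Polynomial.C_0, add_zero]
      have h2 : q.divX ≠ 0 := by
        intro h3
        rw [h3, mul_zero] at h1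
        exact hq h1
      rw [h1, map_mul, ev_X]
      refine mul_ne_zero hf.1 (ih _ ?_ h2)
      rw [Polynomial.natDegree_divX_eq_natDegree_tsub_one]
      omega
    · exact ev_ne v hf q h0

end FRA

theorem t_FRA : Stmt_FRA := by
  intro m K _ _ v
  refine ⟨?_, ?_⟩
  · obtain ⟨t, h0, h1⟩ := v.unif
    obtain ⟨u, hu⟩ := v.res
    exact ⟨t, u, h0, h1, hu⟩
  · intro t u hf
    rw [algebraicIndependent_iff]
    intro p hp
    by_contra hne
    have h1 : finSuccEquiv ℂ m p ≠ 0 := by
      intro h2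
      apply hne
      exact (finSuccEquiv ℂ m).injective (by rw [h2, map_zero])
    exact FRA.ev_ne' v hf _ _ le_rfl h1 (by rw [FRA.ev_fin, hp])

end

end MldGeo
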