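import Pool.Agent.MldGeo.Stmts1

/-!
# FRM: the order of a form in terms of a frame
-/

namespace MldGeo

open MvPolynomial

noncomputable section

namespace FRM

/-! ### exterior powers of top degree -/

section Top

variable {K : Type} [Field K] {V : Type} [AddCommGroup V] [Module K V] {n : ℕ}

theorem iota_eq (e : Module.Basis (Fin n) K V) (v : Fin n → V) :
    exteriorPower.ιMulti K n v = e.det v • exteriorPower.ιMulti K n (e : Fin n → V) := by
  have h : exteriorPower.ιMulti K n = (LinearMap.toSpanSingleton K (⋀[K]^n V)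
      (exteriorPower.ιMulti K n (e : Fin n → V))).compAlternatingMap e.det := by
    refine Module.Basis.ext_alternating e fun w hw => ?_
    have hb : Function.Bijective w := Finite.injective_iff_bijective.1 hw
    obtain ⟨σ, hσ⟩ : ∃ σ : Equiv.Perm (Fin n), w = σ := ⟨Equiv.ofBijective w hb, rfl⟩
    have h1 : (fun i => e (w i)) = (e : Fin n → V) ∘ σ := by
      rw [hσ]
      rfl
    rw [h1, AlternatingMap.map_perm, AlternatingMap.map_perm, LinearMap.compAlternatingMap_apply,
      e.det_self, LinearMap.toSpanSingleton_apply, one_smul]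
  have h2 := congrArg (fun f => f v) h
  simp only [LinearMap.compAlternatingMap_apply, LinearMap.toSpanSingleton_apply] at h2
  exact h2

theorem iota_ne (e : Module.Basis (Fin n) K V) :
    exteriorPower.ιMulti K n (e : Fin n → V) ≠ 0 := by
  intro h
  have h1 := exteriorPower.alternatingMapLinearEquiv_apply_ιMulti e.det (e : Fin n → V)
  rw [h, map_zero, e.det_self] at h1
  exact zero_ne_one h1

theorem exists_smul (e : Module.Basis (Fin n) K V) (ω : ⋀[K]^n V) :
    ∃ g : K, ω = g • exteriorPower.ιMulti K n (e : Fin n → V) := by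
  have h : ω ∈ Submodule.span K (Set.range (exteriorPower.ιMulti K n (M := V))) := by
    rw [exteriorPower.ιMulti_span]
    trivial
  induction h using Submodule.span_induction with
  | mem x hx =>
    obtain ⟨v, rfl⟩ := hx
    exact ⟨_, iota_eq e v⟩
  | zero => exact ⟨0, by rw [zero_smul]⟩
  | add x y _ _ hx hy =>
    obtain ⟨a, ha⟩ := hx
    obtain ⟨b, hb⟩ := hy
    exact ⟨a + b, by rw [ha, hb, add_smul]⟩
  | smul c x _ hx =>
    obtain ⟨a, ha⟩ := hx
    exact ⟨c * a, by rw [ha, mul_smul]⟩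

end Top

/-! ### orders -/

section Ord

variable {n : ℕ} {K : Type} [Field K] [Algebra ℂ K] (v : DivVal n K)

theorem ord_one : v.ord 1 = 0 := by
  have := v.ord_const 1
  rwa [map_one] at this

theorem ord_neg_one : v.ord (-1) = 0 := by
  have := v.ord_const (-1)
  rwa [map_neg, map_one] at this

theorem ge_add {k : ℤ} {a b : K} (ha : v.Ge k a) (hb : v.Ge k b) : v.Ge k (a + b) := by
  by_cases ha0 : a = 0
  · rwa [ha0, zero_add]
  by_cases hb0 : b = 0
  · rwa [hb0, add_zero]
  by_cases hab : a + b = 0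
  · exact Or.inl hab
  · right
    exact le_trans (le_min (ha.resolve_left ha0) (hb.resolve_left hb0)) (v.ord_add a b ha0 hb0 hab)

theorem ge_mul {k l : ℤ} {a b : K} (ha : v.Ge k a) (hb : v.Ge l b) : v.Ge (k + l) (a * b) := by
  by_cases ha0 : a = 0
  · left
    rw [ha0, zero_mul]
  by_cases hb0 : b = 0
  · left
    rw [hb0, mul_zero]
  · right
    rw [v.ord_mul a b ha0 hb0]
    exact add_le_add (ha.resolve_left ha0) (hb.resolve_left hb0)

/-- The valuation ring. -/
def ring : Subring K where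
  carrier := {a | v.Ge 0 a}
  mul_mem' := by
    intro a b ha hb
    have := ge_mul v ha hb
    rwa [add_zero] at this
  one_mem' := Or.inr (ord_one v).ge
  add_mem' := fun ha hb => ge_add v ha hb
  zero_mem' := Or.inl rfl
  neg_mem' := by
    intro a ha
    have h1 : v.Ge 0 (-1 : K) := Or.inr (ord_neg_one v).ge
    have := ge_mul v h1 ha
    rwa [add_zero, neg_one_mul] at this

theorem mem_ring {a : K} : a ∈ ring v ↔ v.Ge 0 a := Iff.rfl

theorem det_mem {m : ℕ} (M : Matrix (Fin m) (Fin m) K) (hM : ∀ i j, v.Ge 0 (M i j)) :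
    v.Ge 0 M.det := by
  rw [← mem_ring, Matrix.det_apply]
  refine Subring.sum_mem _ fun σ _ => ?_
  rw [Units.smul_def]
  exact Subring.zsmul_mem _ (Subring.prod_mem _ fun i _ => hM _ _) _

end Ord

end FRM

open FRM in
theorem t_FRM (hFRA : Stmt_FRA) (hTBAS : Stmt_TBAS) (hCOE : Stmt_COE) : Stmt_FRM := by
  intro m K _ _ htr v t u hF
  obtain ⟨ht, htv, hu⟩ := hF
  have hF : Frame v t u := ⟨ht, htv, hu⟩
  obtain ⟨hli, hsp⟩ := hTBAS htr (Fin.cons t u) ((hFRA v).2 t u hF)
  let e0 : Module.Basis (Fin (m + 1)) K (Ω[K⁄ℂ]) := Module.Basis.mk hli hsp.ge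
  let w0 : Fin (m + 1) → Kˣ := Fin.cons (Units.mk0 t⁻¹ (inv_ne_zero ht)) fun _ => 1
  let e : Module.Basis (Fin (m + 1)) K (Ω[K⁄ℂ]) := e0.unitsSMul w0
  have he0 : e 0 = dlog t := by
    simp only [e, e0, w0, Module.Basis.unitsSMul_apply, Module.Basis.mk_apply, Fin.cons_zero, dlog]
    rfl
  have hes : ∀ j : Fin m, e j.succ = KaehlerDifferential.D ℂ K (u j) := by
    intro j
    simp only [e, e0, w0, Module.Basis.unitsSMul_apply, Module.Basis.mk_apply, Fin.cons_succ,
      one_smul]
  have hefun : (e : Fin (m + 1) → Ω[K⁄ℂ]) =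
      Fin.cons (dlog t) fun j => KaehlerDifferential.D ℂ K (u j) := by
    funext i
    refine Fin.cases ?_ (fun j => ?_) i
    · rw [Fin.cons_zero, he0]
    · rw [Fin.cons_succ, hes]
  have hFe : frameForm t u = exteriorPower.ιMulti K (m + 1) (e : Fin (m + 1) → Ω[K⁄ℂ]) := by
    rw [hefun]
    rfl
  -- logarithmic forms
  have hdet : ∀ a : Fin (m + 1) → K, (∀ i, a i ≠ 0) → ∃ h : K, v.Ge 0 h ∧
      dlogs a = h • frameForm t u := by
    intro a ha
    refine ⟨e.det fun i => dlog (a i), ?_, ?_⟩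
    · rw [Module.Basis.det_apply]
      refine det_mem v _ fun i j => ?_
      obtain ⟨c, hc0, -, hc⟩ := hCOE htr v t u hF (a j) (ha j)
      have h1 : dlog (a j) = ∑ i, c i • e i := by
        rw [hc, Fin.sum_univ_succ, he0]
        simp only [hes]
      rw [Module.Basis.toMatrix_apply, h1, Module.Basis.repr_sum_self]
      exact hc0 i
    · rw [hFe]
      exact iota_eq e _
  have hu0 : ∀ j, u j ≠ 0 ∧ v.ord (u j) = 0 := by
    intro j
    have := hu (X j) (MvPolynomial.X_ne_zero j)
    rwa [aeval_X] at this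
  have hlog1 : ∀ g : K, v.Ge 0 g → g • frameForm t u ∈ v.logForms := by
    intro g hg
    by_cases hg0 : g = 0
    · rw [hg0, zero_smul]
      exact zero_mem _
    let w : Fin (m + 1) → K := Fin.cons 1 fun j => (u j)⁻¹
    have hw : ∀ i, w i ≠ 0 ∧ v.ord (w i) = 0 := by
      intro i
      refine Fin.cases ?_ (fun j => ?_) i
      · exact ⟨one_ne_zero, ord_one v⟩
      · refine ⟨inv_ne_zero (hu0 j).1, ?_⟩
        have h1 := v.ord_mul (u j) (u j)⁻¹ (hu0 j).1 (inv_ne_zero (hu0 j).1)
        rw [mul_inv_cancel₀ (hu0 j).1, ord_one, (hu0 j).2, zero_add] at h1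
        exact h1.symm
    have hprod : ∀ s : Finset (Fin (m + 1)), (∏ i ∈ s, w i) ≠ 0 ∧ v.ord (∏ i ∈ s, w i) = 0 := by
      intro s
      induction s using Finset.induction_on with
      | empty => exact ⟨by simp, by rw [Finset.prod_empty, ord_one]⟩
      | insert i s hi ih =>
        rw [Finset.prod_insert hi]
        exact ⟨mul_ne_zero (hw i).1 ih.1, by
          rw [v.ord_mul _ _ (hw i).1 ih.1, (hw i).2, ih.2, add_zero]⟩
    obtain ⟨hp0, hp⟩ := hprod Finset.univ
    have hlogs : dlogs (Fin.cons t u) = (∏ i, w i) • frameForm t u := by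
      have h1 := (exteriorPower.ιMulti K (m + 1)).toMultilinearMap.map_smul_univ w
        (e : Fin (m + 1) → Ω[K⁄ℂ])
      have h2 : (fun i => dlog ((Fin.cons t u : Fin (m + 1) → K) i)) = fun i => w i • e i := by
        funext i
        refine Fin.cases ?_ (fun j => ?_) i
        · simp only [Fin.cons_zero, w, one_smul, he0]
        · simp only [Fin.cons_succ, w, hes, dlog]
      rw [hFe]
      unfold dlogs
      rw [h2]
      exact h1
    have hpi : v.ord (∏ i, w i)⁻¹ = 0 := by
      have h1 := v.ord_mul _ _ hp0 (inv_ne_zero hp0)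
      rw [mul_inv_cancel₀ hp0, ord_one, hp, zero_add] at h1
      exact h1.symm
    refine AddSubgroup.subset_closure ⟨g * (∏ i, w i)⁻¹, Fin.cons t u, ?_, ?_, ?_⟩
    · rw [v.ord_mul _ _ hg0 (inv_ne_zero hp0), hpi, add_zero]
      exact hg.resolve_left hg0
    · intro i
      refine Fin.cases ?_ (fun j => ?_) i
      · exact ht
      · exact (hu0 j).1
    · rw [hlogs, smul_smul, mul_assoc, inv_mul_cancel₀ hp0, mul_one]
  have hlog2 : ∀ η ∈ v.logForms, ∃ g : K, v.Ge 0 g ∧ η = g • frameForm t u := by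
    intro η hη
    induction hη using AddSubgroup.closure_induction with
    | mem x hx =>
      obtain ⟨g, a, hg, ha, rfl⟩ := hx
      obtain ⟨h, hh, hd⟩ := hdet a ha
      refine ⟨g * h, ?_, by rw [hd, smul_smul]⟩
      have := ge_mul v (Or.inr hg : v.Ge 0 g) hh
      rwa [add_zero] at this
    | zero => exact ⟨0, Or.inl rfl, by rw [zero_smul]⟩
    | add x y _ _ hx hy =>
      obtain ⟨a, ha, rfl⟩ := hx
      obtain ⟨b, hb, rfl⟩ := hy
      exact ⟨a + b, ge_add v ha hb, by rw [add_smul]⟩
    | neg x _ hx =>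
      obtain ⟨a, ha, rfl⟩ := hx
      exact ⟨-a, (ring v).neg_mem ha, (neg_smul a (frameForm t u)).symm⟩
  have hne : frameForm t u ≠ 0 := by
    rw [hFe]
    exact iota_ne e
  refine ⟨hne, ?_, ?_⟩
  · intro ω
    rw [hFe]
    exact exists_smul e ω
  · intro g hg
    refine IsGreatest.csSup_eq ⟨⟨g, hg, rfl, frameForm t u, ?_, rfl⟩, ?_⟩
    · have := hlog1 1 (Or.inr (ord_one v).ge)
      rwa [one_smul] at this
    · rintro k ⟨g', hg', rfl, η, hη, hη'⟩
      obtain ⟨h, hh, rfl⟩ := hlog2 η hη
      have h1 : g = g' * h := by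
        have h2 : (g - g' * h) • frameForm t u = 0 :=
          (sub_smul g (g' * h) (frameForm t u)).trans (by rw [mul_smul, ← hη', sub_self])
        exact sub_eq_zero.1 ((smul_eq_zero.1 h2).resolve_right hne)
      have hh0 : h ≠ 0 := by
        rintro rfl
        rw [mul_zero] at h1
        exact hg h1
      rw [h1, v.ord_mul _ _ hg' hh0]
      linarith [hh.resolve_left hh0]

end

end MldGeo
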