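import Pool.Agent.MldGeo.Stmts1

/-!
# FSM: the logarithmic order of `g ω`
-/

namespace MldGeo

noncomputable section

theorem t_FSM (hFRA : Stmt_FRA) (hFRM : Stmt_FRM) : Stmt_FSM := by
  intro n K _ _ htr v g ω hn hg hω
  cases n with
  | zero => exact absurd hn (lt_irrefl 0)
  | succ m =>
    obtain ⟨⟨t, u, hfr⟩, -⟩ := hFRA v
    obtain ⟨-, hspan, hord⟩ := hFRM htr v t u hfr
    obtain ⟨h, rfl⟩ := hspan ω
    have hh : h ≠ 0 := by
      rintro rfl
      exact hω (zero_smul K _)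
    rw [smul_smul, hord (g * h) (mul_ne_zero hg hh), hord h hh, v.ord_mul g h hg hh]

end

end MldGeo
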