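import Pool.Agent.MldGeo.Stmts1

/-!
# LOGD: derivations which are logarithmic on a frame are logarithmic
-/

set_option autoImplicit false

namespace MldGeo

namespace LOGD

open Polynomial

/-! ### orders -/

section Ord

variable {n : ℕ} {K : Type} [Field K] [Algebra ℂ K] (v : DivVal n K)

theorem ord_one : v.ord 1 = 0 := by
  have := v.ord_const 1
  rwa [map_one] at this

theorem ord_inv {a : K} (ha : a ≠ 0) : v.ord a⁻¹ = -v.ord a := by
  have h := v.ord_mul a a⁻¹ ha (inv_ne_zero ha)
  rw [mul_inv_cancel₀ ha, ord_one v] at h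
  linarith

theorem ord_neg (a : K) : v.ord (-a) = v.ord a := by
  by_cases ha : a = 0
  · rw [ha, neg_zero]
  · have h1 : (algebraMap ℂ K (-1)) = (-1 : K) := by rw [map_neg, map_one]
    have h := v.ord_mul (algebraMap ℂ K (-1)) a (by rw [h1]; exact neg_ne_zero.2 one_ne_zero) ha
    rw [v.ord_const, h1, zero_add, neg_one_mul] at h
    exact h

theorem ge_zero (k : ℤ) : v.Ge k 0 := Or.inl rfl

theorem ge_of_ord {k : ℤ} {a : K} (h : k ≤ v.ord a) : v.Ge k a := Or.inr h

theorem ord_of_ge {k : ℤ} {a : K} (h : v.Ge k a) (ha : a ≠ 0) : k ≤ v.ord a := h.resolve_left ha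

theorem ge_mono {k l : ℤ} (h : k ≤ l) {a : K} (ha : v.Ge l a) : v.Ge k a :=
  ha.imp id fun h' => h.trans h'

theorem ge_neg {k : ℤ} {a : K} (ha : v.Ge k a) : v.Ge k (-a) := by
  rcases ha with h | h
  · left; rw [h, neg_zero]
  · right; rw [ord_neg]; exact h

theorem ge_add {k : ℤ} {a b : K} (ha : v.Ge k a) (hb : v.Ge k b) : v.Ge k (a + b) := by
  by_cases ha0 : a = 0
  · rw [ha0, zero_add]; exact hb
  by_cases hb0 : b = 0
  · rw [hb0, add_zero]; exact ha
  by_cases h0 : a + b = 0
  · exact Or.inl h0
  · exact Or.inr ((le_min (ord_of_ge v ha ha0) (ord_of_ge v hb hb0)).trans (v.ord_add a b ha0 hb0 h0))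

theorem ge_sub {k : ℤ} {a b : K} (ha : v.Ge k a) (hb : v.Ge k b) : v.Ge k (a - b) := by
  rw [sub_eq_add_neg]
  exact ge_add v ha (ge_neg v hb)

theorem ge_mul {k l : ℤ} {a b : K} (ha : v.Ge k a) (hb : v.Ge l b) : v.Ge (k + l) (a * b) := by
  by_cases ha0 : a = 0
  · rw [ha0, zero_mul]; exact ge_zero v _
  by_cases hb0 : b = 0
  · rw [hb0, mul_zero]; exact ge_zero v _
  · right
    rw [v.ord_mul a b ha0 hb0]
    exact add_le_add (ord_of_ge v ha ha0) (ord_of_ge v hb hb0)

theorem ge_mul_left {k : ℤ} {a b : K} (ha : v.Ge 0 a) (hb : v.Ge k b) : v.Ge k (a * b) := by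
  have := ge_mul v ha hb
  rwa [zero_add] at this

theorem ge_sum {ι : Type*} (s : Finset ι) (f : ι → K) {k : ℤ} (h : ∀ i ∈ s, v.Ge k (f i)) :
    v.Ge k (∑ i ∈ s, f i) := by
  classical
  induction s using Finset.induction_on with
  | empty => rw [Finset.sum_empty]; exact ge_zero v _
  | insert i s hi ih =>
      rw [Finset.sum_insert hi]
      exact ge_add v (h i (Finset.mem_insert_self i s))
        (ih fun j hj => h j (Finset.mem_insert_of_mem hj))

theorem ge_const (c : ℂ) : v.Ge 0 (algebraMap ℂ K c) := Or.inr (v.ord_const c).ge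

theorem ge_natCast (c : ℕ) : v.Ge 0 (c : K) := by
  have := ge_const v (c : ℂ)
  rwa [map_natCast] at this

theorem ge_intCast (c : ℤ) : v.Ge 0 (c : K) := by
  have := ge_const v (c : ℂ)
  rwa [map_intCast] at this

theorem ge_one : v.Ge 0 (1 : K) := Or.inr (ord_one v).ge

theorem ge_pow {a : K} (ha : v.Ge 0 a) (i : ℕ) : v.Ge 0 (a ^ i) := by
  induction i with
  | zero => rw [pow_zero]; exact ge_one v
  | succ i ih => rw [pow_succ]; exact ge_mul_left v ih ha

theorem not_ge {k : ℤ} {a : K} (h : ¬ v.Ge k a) : a ≠ 0 ∧ v.ord a < k := by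
  constructor
  · intro h0; exact h (Or.inl h0)
  · by_contra h1; exact h (Or.inr (not_lt.1 h1))

/-- division -/
theorem ge_of_mul {k l : ℤ} {a b : K} (ha : a ≠ 0) (hl : v.ord a ≤ l) (h : v.Ge (k + l) (a * b)) :
    v.Ge k b := by
  by_cases hb : b = 0
  · exact Or.inl hb
  · right
    have := ord_of_ge v h (mul_ne_zero ha hb)
    rw [v.ord_mul a b ha hb] at this
    linarith

theorem exists_ge (x : K) : ∃ N : ℕ, v.Ge (-(N : ℤ)) x := by
  refine ⟨(v.ord x).natAbs, Or.inr ?_⟩
  omega

theorem ord_pow {a : K} (ha : a ≠ 0) (i : ℕ) : v.ord (a ^ i) = i * v.ord a := by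
  induction i with
  | zero => rw [pow_zero, ord_one]; simp
  | succ i ih =>
      rw [pow_succ, v.ord_mul _ _ (pow_ne_zero i ha) ha, ih]
      push_cast
      ring

theorem ord_zpow {a : K} (ha : a ≠ 0) (i : ℤ) : v.ord (a ^ i) = i * v.ord a := by
  obtain ⟨j, rfl | rfl⟩ := i.eq_nat_or_neg
  · rw [zpow_natCast, ord_pow v ha]
  · rw [zpow_neg, zpow_natCast, ord_inv v (pow_ne_zero j ha), ord_pow v ha]
    ring

end Ord

/-! ### polynomials in the frame -/

section FramePoly

variable {m : ℕ} {K : Type} [Field K] [Algebra ℂ K] (v : DivVal (m + 1) K) (t : K) (u : Fin m → K)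
  (D : Derivation ℂ K K)

/-- the element and its derivative are regular; the derivative vanishes on the divisor if the
derivatives of the `u j` do. -/
def Gd (x : K) : Prop := v.Ge 0 x ∧ v.Ge 0 (D x) ∧ ((∀ j, v.Ge 1 (D (u j))) → v.Ge 1 (D x))

variable {v t u D}

theorem Gd.add {x y : K} (hx : Gd v u D x) (hy : Gd v u D y) : Gd v u D (x + y) := by
  refine ⟨ge_add v hx.1 hy.1, ?_, fun h => ?_⟩
  · rw [map_add]; exact ge_add v hx.2.1 hy.2.1
  · rw [map_add]; exact ge_add v (hx.2.2 h) (hy.2.2 h)

theorem Gd.mul {x y : K} (hx : Gd v u D x) (hy : Gd v u D y) : Gd v u D (x * y) := by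
  refine ⟨ge_mul_left v hx.1 hy.1, ?_, fun h => ?_⟩
  · rw [D.leibniz, smul_eq_mul, smul_eq_mul]
    exact ge_add v (ge_mul_left v hx.1 hy.2.1) (ge_mul_left v hy.1 hx.2.1)
  · rw [D.leibniz, smul_eq_mul, smul_eq_mul]
    exact ge_add v (ge_mul_left v hx.1 (hy.2.2 h)) (ge_mul_left v hy.1 (hx.2.2 h))

theorem Gd.const (c : ℂ) : Gd v u D (algebraMap ℂ K c) := by
  refine ⟨ge_const v c, ?_, fun _ => ?_⟩ <;> rw [D.map_algebraMap] <;> exact ge_zero v _

theorem gd_t (hF : Frame v t u) (hD : v.Ge 1 (D t)) : Gd v u D t :=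
  ⟨Or.inr (by rw [hF.2.1]; norm_num), ge_mono v (by norm_num) hD, fun _ => hD⟩

theorem gd_u (hF : Frame v t u) (hu : ∀ j, v.Ge 0 (D (u j))) (j : Fin m) : Gd v u D (u j) := by
  refine ⟨Or.inr ?_, hu j, fun h => h j⟩
  have := (hF.2.2 (MvPolynomial.X j) (MvPolynomial.X_ne_zero j)).2
  rw [MvPolynomial.aeval_X] at this
  exact this.ge

theorem gd_aeval (hF : Frame v t u) (hu : ∀ j, v.Ge 0 (D (u j))) (p : MvPolynomial (Fin m) ℂ) :
    Gd v u D (MvPolynomial.aeval u p) := by
  induction p using MvPolynomial.induction_on with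
  | C c => rw [MvPolynomial.aeval_C]; exact Gd.const c
  | add p q hp hq => rw [map_add]; exact hp.add hq
  | mul_X p j hp => rw [map_mul, MvPolynomial.aeval_X]; exact hp.mul (gd_u hF hu j)

/-- the value of a polynomial in `T` over `ℂ[U]` -/
noncomputable def val (t : K) (u : Fin m → K) : Polynomial (MvPolynomial (Fin m) ℂ) →+* K :=
  Polynomial.eval₂RingHom (MvPolynomial.aeval u : MvPolynomial (Fin m) ℂ →ₐ[ℂ] K).toRingHom t

theorem val_C (c : MvPolynomial (Fin m) ℂ) : val t u (C c) = MvPolynomial.aeval u c := by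
  simp [val]

theorem val_X : val t u X = t := by simp [val]

theorem gd_val (hF : Frame v t u) (hD : v.Ge 1 (D t)) (hu : ∀ j, v.Ge 0 (D (u j)))
    (q : Polynomial (MvPolynomial (Fin m) ℂ)) : Gd v u D (val t u q) := by
  induction q using Polynomial.induction_on with
  | C c => rw [val_C]; exact gd_aeval hF hu c
  | add p q hp hq => rw [map_add]; exact hp.add hq
  | monomial i c h =>
      rw [pow_succ, ← mul_assoc, map_mul, val_X]
      exact h.mul (gd_t hF hD)

theorem exists_val (p : MvPolynomial (Fin (m + 1)) ℂ) :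
    ∃ q, MvPolynomial.aeval (Fin.cons t u : Fin (m + 1) → K) p = val t u q := by
  induction p using MvPolynomial.induction_on with
  | C c => exact ⟨C (MvPolynomial.C c), by rw [val_C]; simp⟩
  | add p q hp hq =>
      obtain ⟨p', hp'⟩ := hp
      obtain ⟨q', hq'⟩ := hq
      exact ⟨p' + q', by rw [map_add, map_add, hp', hq']⟩
  | mul_X p j hp =>
      obtain ⟨p', hp'⟩ := hp
      rw [map_mul, hp', MvPolynomial.aeval_X]
      induction j using Fin.cases with
      | zero => exact ⟨p' * X, by rw [map_mul, val_X, Fin.cons_zero]⟩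
      | succ j => exact ⟨p' * C (MvPolynomial.X j), by
          rw [map_mul, val_C, MvPolynomial.aeval_X, Fin.cons_succ]⟩

/-- a nonzero value is a power of `t` times a value of order zero -/
theorem val_decomp (hF : Frame v t u) (hD : v.Ge 1 (D t)) (hu : ∀ j, v.Ge 0 (D (u j))) :
    ∀ (N : ℕ) (q : Polynomial (MvPolynomial (Fin m) ℂ)), q.natDegree ≤ N → q ≠ 0 →
      ∃ (k : ℕ) (y : K), val t u q = t ^ k * y ∧ y ≠ 0 ∧ v.ord y = 0 ∧ Gd v u D y := by
  intro N
  induction N with
  | zero =>
      intro q hq h0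
      obtain ⟨c, rfl⟩ := Polynomial.natDegree_eq_zero.1 (Nat.le_zero.1 hq)
      have hc : c ≠ 0 := by rintro rfl; exact h0 (map_zero _)
      refine ⟨0, MvPolynomial.aeval u c, ?_, (hF.2.2 c hc).1, (hF.2.2 c hc).2, gd_aeval hF hu c⟩
      rw [val_C, pow_zero, one_mul]
  | succ N ih =>
      intro q hq h0
      by_cases hc : q.coeff 0 = 0
      · have e : q = X * q.divX := by
          conv_lhs => rw [← Polynomial.X_mul_divX_add q]
          rw [hc, map_zero, add_zero]
        have h0' : q.divX ≠ 0 := by
          intro h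
          rw [h, mul_zero] at e
          exact h0 e
        have hdeg : q.divX.natDegree ≤ N := by
          rw [Polynomial.natDegree_divX_eq_natDegree_tsub_one]
          omega
        obtain ⟨k, y, h1, h2, h3, h4⟩ := ih q.divX hdeg h0'
        refine ⟨k + 1, y, ?_, h2, h3, h4⟩
        rw [e, map_mul, val_X, h1, pow_succ]
        ring
      · have e : val t u q = t * val t u q.divX + MvPolynomial.aeval u (q.coeff 0) := by
          conv_lhs => rw [← Polynomial.X_mul_divX_add q]
          rw [map_add, map_mul, val_X, val_C]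
        have h1 : v.Ge 1 (t * val t u q.divX) := by
          have := ge_mul v (k := 1) (l := 0) (a := t) (Or.inr hF.2.1.ge)
            (gd_val hF hD hu q.divX).1
          rwa [add_zero] at this
        have h2 := hF.2.2 _ hc
        have h3 : ¬ v.Ge 1 (val t u q) := by
          intro h
          have h4 := ge_sub v h h1
          rw [e, add_sub_cancel_left] at h4
          have h5 := ord_of_ge v h4 h2.1
          rw [h2.2] at h5
          norm_num at h5
        have h4 := gd_val hF hD hu q
        have h5 := not_ge v h3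
        refine ⟨0, val t u q, by rw [pow_zero, one_mul], h5.1, ?_, h4⟩
        have h6 := ord_of_ge v h4.1 h5.1
        omega

end FramePoly

/-! ### the subfield generated by the frame -/

section Sub

variable {m : ℕ} {K : Type} [Field K] [Algebra ℂ K] {v : DivVal (m + 1) K} {t : K} {u : Fin m → K}
  {D : Derivation ℂ K K}

theorem Gd.pow {x : K} (hx : Gd v u D x) (i : ℕ) : Gd v u D (x ^ i) := by
  induction i with
  | zero =>
      rw [pow_zero]
      have := Gd.const (v := v) (u := u) (D := D) 1
      rwa [map_one] at this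
  | succ i ih => rw [pow_succ]; exact ih.mul hx

theorem Gd.zero : Gd v u D 0 := by
  have := Gd.const (v := v) (u := u) (D := D) 0
  rwa [map_zero] at this

theorem Gd.div {y z : K} (hy : Gd v u D y) (hz : Gd v u D z) (hz0 : z ≠ 0) (hzo : v.ord z = 0) :
    Gd v u D (y / z) := by
  have e : z * (y / z) = y := mul_div_cancel₀ y hz0
  have e2 : z * D (y / z) = D y - (y / z) * D z := by
    conv_rhs => rw [← e, D.leibniz, smul_eq_mul, smul_eq_mul]
    rw [e]
    ring
  have h0 : v.Ge 0 (y / z) := by
    apply ge_of_mul v hz0 hzo.le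
    rw [e, add_zero]
    exact hy.1
  refine ⟨h0, ?_, fun h => ?_⟩
  · apply ge_of_mul v hz0 hzo.le
    rw [e2, add_zero]
    exact ge_sub v hy.2.1 (ge_mul_left v h0 hz.2.1)
  · apply ge_of_mul v hz0 hzo.le
    rw [e2, add_zero]
    exact ge_sub v (hy.2.2 h) (ge_mul_left v h0 (hz.2.2 h))

theorem gd_adjoin (hF : Frame v t u) (hD : v.Ge 1 (D t)) (hu : ∀ j, v.Ge 0 (D (u j))) {c : K}
    (hc : c ∈ IntermediateField.adjoin ℂ (Set.range (Fin.cons t u : Fin (m + 1) → K)))
    (h0 : v.Ge 0 c) : Gd v u D c := by
  obtain ⟨r, s, rfl⟩ := (IntermediateField.mem_adjoin_range_iff ℂ _ c).1 hc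
  obtain ⟨r', hr'⟩ := exists_val (t := t) (u := u) r
  obtain ⟨s', hs'⟩ := exists_val (t := t) (u := u) s
  rw [hr', hs'] at h0 ⊢
  by_cases hr0 : r' = 0
  · rw [hr0, map_zero, zero_div]
    exact Gd.zero
  by_cases hs0 : s' = 0
  · rw [hs0, map_zero, div_zero]
    exact Gd.zero
  obtain ⟨k, y, h1, h2, h3, h4⟩ := val_decomp hF hD hu _ r' le_rfl hr0
  obtain ⟨l, z, h5, h6, h7, h8⟩ := val_decomp hF hD hu _ s' le_rfl hs0
  have ht := hF.1
  have hto := hF.2.1
  rw [h1, h5] at h0 ⊢
  have hkl : l ≤ k := by
    have hx : t ^ k * y / (t ^ l * z) ≠ 0 :=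
      div_ne_zero (mul_ne_zero (pow_ne_zero k ht) h2) (mul_ne_zero (pow_ne_zero l ht) h6)
    have h9 := ord_of_ge v h0 hx
    rw [div_eq_mul_inv, v.ord_mul _ _ (mul_ne_zero (pow_ne_zero k ht) h2)
      (inv_ne_zero (mul_ne_zero (pow_ne_zero l ht) h6)),
      ord_inv v (mul_ne_zero (pow_ne_zero l ht) h6), v.ord_mul _ _ (pow_ne_zero k ht) h2,
      v.ord_mul _ _ (pow_ne_zero l ht) h6, ord_pow v ht, ord_pow v ht, h3, h7, hto] at h9
    omega
  obtain ⟨j, rfl⟩ := Nat.exists_eq_add_of_le hkl
  have e : t ^ (l + j) * y / (t ^ l * z) = t ^ j * (y / z) := by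
    rw [pow_add]
    field_simp
  rw [e]
  exact ((gd_t hF hD).pow j).mul (h4.div h8 h6 h7)

end Sub

/-! ### integral elements -/

section Abs

variable {n : ℕ} {K : Type} [Field K] [Algebra ℂ K] {v : DivVal n K} {D : Derivation ℂ K K}

theorem bdd_integral {R F L : Type} [CommRing R] [IsDomain R] [IsIntegrallyClosed R] [Field F]
    [Algebra R F] [IsFractionRing R F] [Field L] [Algebra F L] [Algebra R L] [IsScalarTower R F L]
    [Algebra.IsSeparable F L] (B : PowerBasis F L) (hint : IsIntegral R B.gen) (ι : L →+* K)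
    (hR : ∀ r : R, v.Ge 0 (ι (algebraMap R L r)) ∧ v.Ge 0 (D (ι (algebraMap R L r))))
    (hgen : v.Ge 0 (ι B.gen)) :
    ∃ N : ℕ, ∀ z : L, IsIntegral R z → v.Ge (-(N : ℤ)) (D (ι z)) := by
  have : FiniteDimensional F L := B.finite
  obtain ⟨N0, hN0⟩ := exists_ge v (D (ι B.gen))
  have hadj : ∀ w ∈ Algebra.adjoin R ({B.gen} : Set L), v.Ge 0 (ι w) ∧
      v.Ge (-(N0 : ℤ)) (D (ι w)) := by
    intro w hw
    induction hw using Algebra.adjoin_induction with
    | mem x hx =>
        rw [Set.mem_singleton_iff] at hx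
        subst hx
        exact ⟨hgen, hN0⟩
    | algebraMap r => exact ⟨(hR r).1, ge_mono v (by omega) (hR r).2⟩
    | add x y _ _ hx hy =>
        rw [map_add, map_add]
        exact ⟨ge_add v hx.1 hy.1, ge_add v hx.2 hy.2⟩
    | mul x y _ _ hx hy =>
        rw [map_mul, D.leibniz, smul_eq_mul, smul_eq_mul]
        exact ⟨ge_mul_left v hx.1 hy.1, ge_add v (ge_mul_left v hx.1 hy.2)
          (ge_mul_left v hy.1 hx.2)⟩
  set δ : F := Algebra.discr F B.basis with hδ
  have hδ0 : δ ≠ 0 := Algebra.discr_not_zero_of_basis F B.basis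
  set e : K := ι (algebraMap F L δ) with he
  have he0 : e ≠ 0 := by
    rw [he]
    exact (_root_.map_ne_zero ι).2 ((_root_.map_ne_zero (algebraMap F L)).2 hδ0)
  obtain ⟨N1, hN1⟩ := exists_ge v (D e)
  refine ⟨N0 + N1 + 2 * (v.ord e).natAbs, fun z hz => ?_⟩
  have h1 := hadj _ (Algebra.discr_mul_isIntegral_mem_adjoin F hint hz)
  rw [← hδ, Algebra.smul_def, map_mul, ← he] at h1
  have h2 : v.Ge (-v.ord e) (ι z) := by
    apply ge_of_mul v he0 le_rfl
    rw [neg_add_cancel]
    exact h1.1
  have h3 : e * D (ι z) = D (e * ι z) - ι z * D e := by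
    rw [D.leibniz, smul_eq_mul, smul_eq_mul]
    ring
  apply ge_of_mul v he0 le_rfl
  rw [h3]
  apply ge_sub v
  · apply ge_mono v _ h1.2
    omega
  · apply ge_mono v _ (ge_mul v h2 hN1)
    omega

theorem exists_frac {R L : Type} [CommRing R] [Field L] [Algebra R L] (ι : L →+* K) (a : L)
    (ha : v.Ge 0 (ι a)) : ∀ (N : ℕ) (f : (integralClosure R L)[X]), f.natDegree ≤ N →
    aeval a f = 0 → (∃ j, ¬ v.Ge 1 (ι (f.coeff j))) →
    ∃ s : L, IsIntegral R s ∧ IsIntegral R (s * a) ∧ ¬ v.Ge 1 (ι s) := by
  intro N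
  induction N with
  | zero =>
      intro f hf h0 hj
      exfalso
      obtain ⟨c, rfl⟩ := Polynomial.natDegree_eq_zero.1 (Nat.le_zero.1 hf)
      obtain ⟨j, hj⟩ := hj
      rw [aeval_C] at h0
      apply hj
      rw [coeff_C]
      split_ifs
      · left
        have : (c : L) = 0 := h0
        rw [this, map_zero]
      · left
        rw [ZeroMemClass.coe_zero, map_zero]
  | succ N ih =>
      intro f hf h0 hj
      by_cases hdeg : f.natDegree ≤ N
      · exact ih f hdeg h0 hj
      have hdeg' : f.natDegree = N + 1 := by omega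
      have hint : IsIntegral R ((f.leadingCoeff : L) * a) := by
        have h1 := isIntegral_leadingCoeff_smul f a h0
        have h2 : f.leadingCoeff • a = (f.leadingCoeff : L) * a := rfl
        rw [h2] at h1
        exact isIntegral_trans _ h1
      by_cases hlc : v.Ge 1 (ι (f.leadingCoeff : L))
      · -- absorb the leading coefficient
        set y : integralClosure R L := ⟨(f.leadingCoeff : L) * a, hint⟩ with hy
        have hyge : v.Ge 1 (ι (y : L)) := by
          have : (y : L) = (f.leadingCoeff : L) * a := rfl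
          rw [this, map_mul, mul_comm]
          exact ge_mul_left v ha hlc
        obtain ⟨j, hj⟩ := hj
        refine ih (f.eraseLead + C y * X ^ N) ?_ ?_ ⟨j, ?_⟩
        · have h1 : f.eraseLead.natDegree ≤ N := by
            have := Polynomial.eraseLead_natDegree_le f
            omega
          exact (Polynomial.natDegree_add_le _ _).trans (max_le h1 (natDegree_C_mul_X_pow_le _ _))
        · have h2 : aeval a f.eraseLead = -((f.leadingCoeff : L) * a ^ (N + 1)) := by
            have h3 := Polynomial.eraseLead_add_C_mul_X_pow f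
            have h4 := congrArg (aeval a) h3
            rw [h0, map_add, map_mul, aeval_C, map_pow, aeval_X, hdeg'] at h4
            rw [eq_neg_iff_add_eq_zero]
            exact h4
          rw [map_add, h2, map_mul, aeval_C, map_pow, aeval_X]
          have : algebraMap (integralClosure R L) L y = (f.leadingCoeff : L) * a := rfl
          rw [this, pow_succ]
          ring
        · intro h
          rw [coeff_add, coeff_C_mul, coeff_X_pow] at h
          have hjne : j ≠ f.natDegree := by
            rintro rfl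
            exact hj hlc
          rw [Polynomial.eraseLead_coeff_of_ne j hjne] at h
          apply hj
          split_ifs at h
          · rw [mul_one, AddMemClass.coe_add, map_add] at h
            have := ge_sub v h hyge
            rwa [add_sub_cancel_right] at this
          · rw [mul_zero, add_zero] at h
            exact h
      · exact ⟨f.leadingCoeff, f.leadingCoeff.2, hint, hlc⟩

/-- the derivative of a value of a polynomial -/
theorem D_eval (P : K[X]) (a : K) {l : ℤ} (ha : v.Ge 0 a) (h : ∀ i, v.Ge l (D (P.coeff i))) :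
    v.Ge l (D (P.eval a) - P.derivative.eval a * D a) := by
  have h1 : P.eval a = ∑ i ∈ Finset.range (P.natDegree + 1), P.coeff i * a ^ i :=
    Polynomial.eval_eq_sum_range a
  have h2 : P.derivative.eval a =
      ∑ i ∈ Finset.range (P.natDegree + 1), P.coeff i * i * a ^ (i - 1) := by
    rw [Polynomial.derivative_eval, Polynomial.sum_over_range]
    intro i
    simp
  have h3 : D (P.eval a) - P.derivative.eval a * D a =
      ∑ i ∈ Finset.range (P.natDegree + 1), a ^ i * D (P.coeff i) := by
    rw [h1, h2, map_sum, Finset.sum_mul, ← Finset.sum_sub_distrib]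
    apply Finset.sum_congr rfl
    intro i _
    rw [D.leibniz, D.leibniz_pow, smul_eq_mul, smul_eq_mul, smul_eq_mul, nsmul_eq_mul]
    ring
  rw [h3]
  exact ge_sum v _ _ fun i _ => ge_mul_left v (ge_pow v ha i) (h i)

/-- a polynomial with a simple zero at the residue of `a` -/
theorem exists_simple (S : IntermediateField ℂ K) (a : K) (ha : v.Ge 0 a) :
    ∀ (N : ℕ) (Q : K[X]), Q.natDegree ≤ N → (∀ i, Q.coeff i ∈ S ∧ v.Ge 0 (Q.coeff i)) →
    (∃ j, ¬ v.Ge 1 (Q.coeff j)) → v.Ge 1 (Q.eval a) →
    ∃ P : K[X], (∀ i, P.coeff i ∈ S ∧ v.Ge 0 (P.coeff i)) ∧ v.Ge 1 (P.eval a) ∧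
      ¬ v.Ge 1 (P.derivative.eval a) := by
  intro N
  induction N with
  | zero =>
      intro Q hQ _ hj he
      exfalso
      obtain ⟨c, rfl⟩ := Polynomial.natDegree_eq_zero.1 (Nat.le_zero.1 hQ)
      obtain ⟨j, hj⟩ := hj
      rw [eval_C] at he
      apply hj
      rw [coeff_C]
      split_ifs
      · exact he
      · exact ge_zero v _
  | succ N ih =>
      intro Q hQ hc hj he
      by_cases hdeg : Q.natDegree ≤ N
      · exact ih Q hdeg hc hj he
      have hdeg' : Q.natDegree = N + 1 := by omega
      by_cases hd : v.Ge 1 (Q.derivative.eval a)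
      · by_cases hlc : v.Ge 1 Q.leadingCoeff
        · obtain ⟨j, hj⟩ := hj
          have hjne : j ≠ Q.natDegree := by
            rintro rfl
            exact hj hlc
          refine ih Q.eraseLead ?_ ?_ ⟨j, ?_⟩ ?_
          · have := Polynomial.eraseLead_natDegree_le Q
            omega
          · intro i
            rw [Polynomial.eraseLead_coeff]
            split_ifs
            · exact ⟨zero_mem _, ge_zero v _⟩
            · exact hc i
          · rw [Polynomial.eraseLead_coeff_of_ne j hjne]
            exact hj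
          · have h3 := Polynomial.eraseLead_add_C_mul_X_pow Q
            have h4 := congrArg (Polynomial.eval a) h3
            rw [eval_add, eval_mul, eval_C, eval_pow, eval_X] at h4
            have h5 : Q.eraseLead.eval a = Q.eval a - Q.leadingCoeff * a ^ Q.natDegree :=
              eq_sub_of_add_eq h4
            rw [h5]
            apply ge_sub v he
            rw [mul_comm]
            exact ge_mul_left v (ge_pow v ha _) hlc
        · refine ih Q.derivative ?_ ?_ ⟨N, ?_⟩ hd
          · have := Polynomial.natDegree_derivative_le Q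
            omega
          · intro i
            rw [Polynomial.coeff_derivative]
            constructor
            · exact mul_mem (hc _).1 (add_mem (natCast_mem _ _) (one_mem _))
            · rw [mul_comm]
              exact ge_mul_left v (ge_add v (ge_natCast v i) (ge_one v)) (hc _).2
          · rw [Polynomial.coeff_derivative]
            intro h
            apply hlc
            rw [Polynomial.leadingCoeff, hdeg']
            have h0 : ((N : K) + 1) = algebraMap ℂ K ((N : ℂ) + 1) := by
              rw [map_add, map_natCast, map_one]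
            have h1 : ((N : K) + 1) ≠ 0 := by
              rw [h0]
              exact (_root_.map_ne_zero _).2 (Nat.cast_add_one_ne_zero N)
            have h2 : v.ord ((N : K) + 1) = 0 := by rw [h0, v.ord_const]
            apply ge_of_mul v h1 h2.le
            rw [add_zero, mul_comm]
            exact h
      · exact ⟨Q, hc, he, hd⟩

end Abs

/-! ### the main argument -/

section Key

variable {m : ℕ} {K : Type} [Field K] [Algebra ℂ K] {v : DivVal (m + 1) K} {t : K} {u : Fin m → K}
  {D : Derivation ℂ K K}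

theorem exists_prim {R F : Type} [CommRing R] [Field F] [Algebra R F] [Algebra F K] [Algebra R K]
    [IsScalarTower R F K] (hR : ∀ c : F, v.Ge 0 (algebraMap F K c) → ∃ r : R, algebraMap R F r = c)
    (hinj : Function.Injective (algebraMap R K)) (z : K) (hz : IsAlgebraic F z) :
    ∃ f : R[X], aeval z f = 0 ∧ ∃ j, f.coeff j = 1 := by
  set q := minpoly F z with hq
  have hq0 : q ≠ 0 := minpoly.ne_zero hz.isIntegral
  have hsupp : q.support.Nonempty := Polynomial.support_nonempty.2 hq0
  obtain ⟨j, hj, hmin⟩ := Finset.exists_min_image q.support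
    (fun i => v.ord (algebraMap F K (q.coeff i))) hsupp
  have hcj : q.coeff j ≠ 0 := Polynomial.mem_support_iff.1 hj
  have hcj' : algebraMap F K (q.coeff j) ≠ 0 := (_root_.map_ne_zero _).2 hcj
  set Q : F[X] := C (q.coeff j)⁻¹ * q with hQ
  have hQc : ∀ i, Q.coeff i ∈ Set.range (algebraMap R F) := by
    intro i
    apply hR (Q.coeff i)
    rw [hQ, coeff_C_mul, map_mul, map_inv₀]
    by_cases hi : q.coeff i = 0
    · rw [hi, map_zero, mul_zero]
      exact ge_zero v _
    · have hi' : algebraMap F K (q.coeff i) ≠ 0 := (_root_.map_ne_zero _).2 hi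
      right
      rw [v.ord_mul _ _ (inv_ne_zero hcj') hi', ord_inv v hcj']
      have := hmin i (Polynomial.mem_support_iff.2 hi)
      linarith
  obtain ⟨f, hf⟩ := (Polynomial.lifts_iff_coeff_lifts Q).2 hQc
  have hf' : f.map (algebraMap R F) = Q := hf
  refine ⟨f, ?_, j, ?_⟩
  · have h1 : aeval z (f.map (algebraMap R F)) = aeval z f := Polynomial.aeval_map_algebraMap F z f
    rw [← h1, hf', hQ, map_mul, hq, minpoly.aeval, mul_zero]
  · apply hinj
    rw [map_one, IsScalarTower.algebraMap_apply R F K, ← Polynomial.coeff_map, hf', hQ,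
      coeff_C_mul, inv_mul_cancel₀ hcj, map_one]

theorem key {R F : Type} [CommRing R] [IsDomain R] [IsIntegrallyClosed R] [Field F] [CharZero F]
    [Algebra R F] [IsFractionRing R F] [Algebra F K] [Algebra R K] [IsScalarTower R F K]
    (S : IntermediateField ℂ K) (hS : ∀ c : K, c ∈ S ↔ ∃ c' : F, algebraMap F K c' = c)
    (hR : ∀ c : F, v.Ge 0 (algebraMap F K c) → ∃ r : R, algebraMap R F r = c)
    (hRg : ∀ r : R, Gd v u D (algebraMap R K r)) (ht : t ≠ 0) (hto : v.ord t = 1)
    (hD : v.Ge 1 (D t)) (tR : R) (htR : algebraMap R K tR = t) (a : K) (ha : IsAlgebraic F a)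
    (ha0 : v.Ge 0 a) : Gd v u D a := by
  have hinj : Function.Injective (algebraMap R K) := by
    rw [IsScalarTower.algebraMap_eq R F K]
    exact (algebraMap F K).injective.comp (IsFractionRing.injective R F)
  have hSg : ∀ c ∈ S, v.Ge 0 c → Gd v u D c := by
    intro c hc hc0
    obtain ⟨c', rfl⟩ := (hS c).1 hc
    obtain ⟨r, rfl⟩ := hR c' hc0
    rw [← IsScalarTower.algebraMap_apply R F K]
    exact hRg r
  -- an integral regular generator
  have haR : IsAlgebraic R a := (IsFractionRing.isAlgebraic_iff R F K).2 ha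
  obtain ⟨y, hy0, hy⟩ := haR.exists_integral_multiple
  obtain ⟨M, hM⟩ := exists_ge v (y • a)
  set b : K := (tR ^ M) • (y • a) with hb
  have hbR : IsIntegral R b := IsIntegral.smul (tR ^ M) hy
  have hbF : IsIntegral F b := hbR.tower_top
  have hbge : v.Ge 0 b := by
    have h1 : b = t ^ M * (y • a) := by rw [hb, Algebra.smul_def, map_pow, htR]
    have h2 : v.Ge (M : ℤ) (t ^ M) := by
      right
      rw [ord_pow v ht, hto]
      simp
    have h3 := ge_mul v h2 hM
    rw [← h1] at h3
    apply ge_mono v _ h3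
    omega
  set L := IntermediateField.adjoin F ({b} : Set K) with hL
  set B : PowerBasis F L := IntermediateField.adjoin.powerBasis hbF with hB
  have hgen : algebraMap L K B.gen = b := rfl
  have htower : IsScalarTower R L K := IsScalarTower.of_algebraMap_eq fun _ => rfl
  have hfinL : FiniteDimensional F L := B.finite
  have hint : IsIntegral R B.gen := by
    rw [← isIntegral_algebraMap_iff (algebraMap L K).injective, hgen]
    exact hbR
  have hRL : ∀ r : R, algebraMap L K (algebraMap R L r) = algebraMap R K r := fun r =>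
    (IsScalarTower.algebraMap_apply R L K r).symm
  obtain ⟨N0, hN0⟩ := bdd_integral (v := v) (D := D) (R := R) (F := F) (L := L) B hint
    (algebraMap L K) (fun r => by rw [hRL]; exact ⟨(hRg r).1, (hRg r).2.1⟩)
    (by rw [hgen]; exact hbge)
  have halg : ∀ z : L, IsAlgebraic F (algebraMap L K z) := by
    intro z
    exact (Algebra.IsAlgebraic.isAlgebraic (R := F) z).algebraMap
  -- bounded
  have hbdd : ∀ z : L, v.Ge 0 (algebraMap L K z) → v.Ge (-(N0 : ℤ)) (D (algebraMap L K z)) := by
    intro z hz
    obtain ⟨f, hf0, j, hj⟩ := exists_prim (v := v) (R := R) hR hinj _ (halg z)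
    have hf1 : aeval z f = 0 := by
      apply (algebraMap L K).injective
      rw [← Polynomial.aeval_algebraMap_apply, hf0, map_zero]
    obtain ⟨s, hs1, hs2, hs3⟩ := exists_frac (v := v) (R := R) (algebraMap L K) z hz _
      (f.map (algebraMap R (integralClosure R L))) le_rfl
      (by rw [Polynomial.aeval_map_algebraMap]; exact hf1)
      ⟨j, by
        rw [Polynomial.coeff_map, hj, map_one, OneMemClass.coe_one, map_one]
        intro h
        have := ord_of_ge v h one_ne_zero
        rw [ord_one] at this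
        norm_num at this⟩
    have h1 := hN0 _ hs1
    have h2 := hN0 _ hs2
    have h3 := not_ge v hs3
    have h4 : algebraMap L K s * D (algebraMap L K z) =
        D (algebraMap L K (s * z)) - algebraMap L K z * D (algebraMap L K s) := by
      rw [map_mul, D.leibniz, smul_eq_mul, smul_eq_mul]
      ring
    apply ge_of_mul v h3.1 (l := 0) (by linarith [h3.2])
    rw [h4, add_zero]
    exact ge_sub v h2 (ge_mul_left v hz h1)
  -- the polynomials with simple zeros
  have hsimple : ∀ z : L, v.Ge 0 (algebraMap L K z) → ∃ (P : K[X]) (y : L),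
      (∀ i, Gd v u D (P.coeff i)) ∧ algebraMap L K y = P.eval (algebraMap L K z) ∧
      v.Ge 1 (algebraMap L K y) ∧ ¬ v.Ge 1 (P.derivative.eval (algebraMap L K z)) := by
    intro z hz
    obtain ⟨f, hf0, j, hj⟩ := exists_prim (v := v) (R := R) hR hinj _ (halg z)
    obtain ⟨P, hP1, hP2, hP3⟩ := exists_simple (v := v) S (algebraMap L K z) hz _
      (f.map (algebraMap R K)) le_rfl
      (fun i => by
        rw [Polynomial.coeff_map]
        refine ⟨?_, (hRg _).1⟩
        rw [hS]
        exact ⟨algebraMap R F (f.coeff i), (IsScalarTower.algebraMap_apply R F K _).symm⟩)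
      ⟨j, by
        rw [Polynomial.coeff_map, hj, map_one]
        intro h
        have := ord_of_ge v h one_ne_zero
        rw [ord_one] at this
        norm_num at this⟩
      (by
        rw [Polynomial.eval_map_algebraMap, hf0]
        exact ge_zero v _)
    have hlift : P ∈ Polynomial.lifts (algebraMap F K) := by
      rw [Polynomial.lifts_iff_coeff_lifts]
      intro i
      obtain ⟨c', hc'⟩ := (hS _).1 (hP1 i).1
      exact ⟨c', hc'⟩
    obtain ⟨P', hP'⟩ := hlift
    have hP'' : P'.map (algebraMap F K) = P := hP'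
    have hy : algebraMap L K (aeval z P') = P.eval (algebraMap L K z) := by
      rw [← Polynomial.aeval_algebraMap_apply, ← hP'', Polynomial.eval_map_algebraMap]
    exact ⟨P, aeval z P', fun i => hSg _ (hP1 i).1 (hP1 i).2, hy, by rw [hy]; exact hP2, hP3⟩
  -- division by `t`
  have hdivt : ∀ y : L, v.Ge 1 (algebraMap L K y) → ∃ y' : L, v.Ge 0 (algebraMap L K y') ∧
      algebraMap L K y = t * algebraMap L K y' := by
    intro y hy1
    have htL : algebraMap L K (algebraMap R L tR) = t := by rw [hRL, htR]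
    refine ⟨y / algebraMap R L tR, ?_, ?_⟩
    · rw [map_div₀, htL]
      apply ge_of_mul v ht (l := 1) hto.le
      rw [mul_div_cancel₀ _ ht, zero_add]
      exact hy1
    · rw [map_div₀, htL, mul_div_cancel₀ _ ht]
  -- descent
  have hdesc : ∀ N : ℕ, N ≤ N0 → ∀ z : L, v.Ge 0 (algebraMap L K z) →
      v.Ge (-((N0 - N : ℕ) : ℤ)) (D (algebraMap L K z)) := by
    intro N
    induction N with
    | zero =>
        intro _ z hz
        rw [Nat.sub_zero]
        exact hbdd z hz
    | succ N ih =>
        intro hN z hz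
        obtain ⟨P, y, h1, h2, h3, h4⟩ := hsimple z hz
        obtain ⟨y', h5, h6⟩ := hdivt y h3
        have h7 := ih (by omega) y' h5
        have h8 : v.Ge (-((N0 - (N + 1) : ℕ) : ℤ)) (D (algebraMap L K y)) := by
          rw [h6, D.leibniz, smul_eq_mul, smul_eq_mul]
          apply ge_add v
          · apply ge_mono v _ (ge_mul v (k := 1) (Or.inr hto.ge) h7)
            omega
          · apply ge_mono v _ (ge_mul v h5 hD)
            omega
        have h9 := D_eval (v := v) (D := D) P _ hz (l := 0) (fun i => (h1 i).2.1)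
        have h10 := not_ge v h4
        apply ge_of_mul v h10.1 (l := 0) (by linarith [h10.2])
        rw [← h2] at h9
        have h11 := ge_sub v h8 (ge_mono v (k := -((N0 - (N + 1) : ℕ) : ℤ)) (by omega) h9)
        rw [sub_sub_cancel] at h11
        rw [add_zero]
        exact h11
  have hfin : ∀ z : L, v.Ge 0 (algebraMap L K z) → v.Ge 0 (D (algebraMap L K z)) := by
    intro z hz
    have := hdesc N0 le_rfl z hz
    rwa [Nat.sub_self, Nat.cast_zero, neg_zero] at this
  have hfin' : (∀ j, v.Ge 1 (D (u j))) → ∀ z : L, v.Ge 0 (algebraMap L K z) →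
      v.Ge 1 (D (algebraMap L K z)) := by
    intro hu z hz
    obtain ⟨P, y, h1, h2, h3, h4⟩ := hsimple z hz
    obtain ⟨y', h5, h6⟩ := hdivt y h3
    have h8 : v.Ge 1 (D (algebraMap L K y)) := by
      rw [h6, D.leibniz, smul_eq_mul, smul_eq_mul]
      apply ge_add v
      · have := ge_mul v (k := 1) (a := t) (Or.inr hto.ge) (hfin y' h5)
        rwa [add_zero] at this
      · exact ge_mul_left v h5 hD
    have h9 := D_eval (v := v) (D := D) P _ hz (l := 1) (fun i => (h1 i).2.2 hu)
    have h10 := not_ge v h4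
    apply ge_of_mul v h10.1 (l := 0) (by linarith [h10.2])
    rw [← h2] at h9
    have h11 := ge_sub v h8 h9
    rw [sub_sub_cancel] at h11
    rw [add_zero]
    exact h11
  -- `a` belongs to `L`
  have haL : a ∈ L := by
    set c : F := algebraMap R F (tR ^ M * y) with hc
    have hc0 : algebraMap F K c ≠ 0 := by
      rw [hc, ← IsScalarTower.algebraMap_apply R F K, map_mul, map_pow, htR]
      refine mul_ne_zero (pow_ne_zero _ ht) ?_
      intro h
      exact hy0 (hinj (by rw [h, map_zero]))
    have h1 : b = algebraMap F K c * a := by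
      rw [hb, smul_smul, hc, ← IsScalarTower.algebraMap_apply R F K, Algebra.smul_def]
    have h2 : a = algebraMap F K c⁻¹ * b := by
      rw [h1, map_inv₀, inv_mul_cancel_left₀ hc0]
    rw [h2]
    exact mul_mem (L.algebraMap_mem _) (IntermediateField.mem_adjoin_simple_self F b)
  exact ⟨ha0, hfin ⟨a, haL⟩ ha0, fun h => hfin' h ⟨a, haL⟩ ha0⟩

end Key

/-! ### the valuation ring of a subfield -/

/-- the regular elements of a subfield -/
def O1 {n : ℕ} {K : Type} [Field K] [Algebra ℂ K] (v : DivVal n K) (F : IntermediateField ℂ K) :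
    ValuationSubring F where
  carrier := {a | v.Ge 0 (a : K)}
  mul_mem' := by
    intro a b ha hb
    exact ge_mul_left v ha hb
  one_mem' := ge_one v
  add_mem' := by
    intro a b ha hb
    exact ge_add v ha hb
  zero_mem' := ge_zero v 0
  neg_mem' := by
    intro a ha
    exact ge_neg v ha
  mem_or_inv_mem' := by
    intro a
    by_cases ha : (a : K) = 0
    · exact Or.inl (Or.inl ha)
    · rcases le_total 0 (v.ord (a : K)) with h | h
      · exact Or.inl (Or.inr h)
      · right
        have h1 : v.ord ((a : K)⁻¹) = -v.ord (a : K) := ord_inv v ha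
        have h2 : 0 ≤ v.ord ((a : K)⁻¹) := by rw [h1]; linarith
        exact Or.inr h2

end LOGD

open LOGD in
/-- LOGD -/
theorem t_LOGD (hFRA : Stmt_FRA) : Stmt_LOGD := by
  intro m K _ _ htr v t u hF D hD hu
  have hind : AlgebraicIndependent ℂ (Fin.cons t u : Fin (m + 1) → K) := (hFRA v).2 t u hF
  have hbas : IsTranscendenceBasis ℂ (Fin.cons t u : Fin (m + 1) → K) := by
    apply hind.isTranscendenceBasis_of_trdeg_le_of_finite
    rw [htr]
    simp
  set F : IntermediateField ℂ K :=
    IntermediateField.adjoin ℂ (Set.range (Fin.cons t u : Fin (m + 1) → K)) with hFdef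
  have halg : Algebra.IsAlgebraic F K := hbas.isAlgebraic_field
  have hmain : ∀ a : K, v.Ge 0 a → Gd v u D a := by
    let _ : Algebra (O1 v F) K := ((algebraMap F K).comp (algebraMap (O1 v F) F)).toAlgebra
    have : IsScalarTower (O1 v F) F K := IsScalarTower.of_algebraMap_eq fun _ => rfl
    have htF : t ∈ F := by
      rw [hFdef]
      exact IntermediateField.subset_adjoin _ _ ⟨0, rfl⟩
    have htO : (⟨t, htF⟩ : F) ∈ O1 v F := by
      change v.Ge 0 t
      right
      rw [hF.2.1]
      norm_num
    intro a ha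
    refine key (v := v) (t := t) (u := u) (D := D) (R := O1 v F) (F := F) F ?_ ?_ ?_ hF.1 hF.2.1 hD
      ⟨⟨t, htF⟩, htO⟩ rfl a (Algebra.IsAlgebraic.isAlgebraic a) ha
    · intro c
      exact ⟨fun hc => ⟨⟨c, hc⟩, rfl⟩, by rintro ⟨c', rfl⟩; exact c'.2⟩
    · intro c hc
      exact ⟨⟨c, hc⟩, rfl⟩
    · intro r
      exact gd_adjoin hF hD hu (r : F).2 r.2
  have ht := hF.1
  have hto := hF.2.1
  refine ⟨fun a k ha => ?_, fun h a ha => (hmain a ha).2.2 h⟩
  -- from order zero to all orders
  have htk : t ^ k ≠ 0 := zpow_ne_zero k ht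
  have hok : v.ord (t ^ k) = k := by rw [ord_zpow v ht, hto, mul_one]
  have e : t ^ k * (a / t ^ k) = a := mul_div_cancel₀ a htk
  have h0 : v.Ge 0 (a / t ^ k) := by
    apply ge_of_mul v htk hok.le
    rw [e, zero_add]
    exact ha
  have h1 := (hmain _ h0).2.1
  rw [← e, D.leibniz, smul_eq_mul, smul_eq_mul]
  apply ge_add v
  · have := ge_mul v (k := k) (a := t ^ k) (Or.inr hok.ge) h1
    rwa [add_zero] at this
  · apply ge_mul_left v h0
    rw [D.leibniz_zpow, smul_eq_mul, zsmul_eq_mul]
    apply ge_mul_left v (ge_intCast v k)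
    have h2 : v.Ge (k - 1) (t ^ (k - 1)) := by
      right
      rw [ord_zpow v ht, hto, mul_one]
    have h3 := ge_mul v h2 hD
    rwa [sub_add_cancel] at h3

end MldGeo
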