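import Pool.Agent.MldGeo.Stmts1

namespace MldGeo

namespace TBAS

open KaehlerDifferential

theorem main {n : ℕ} {K : Type} [Field K] [Algebra ℂ K] (htr : Algebra.trdeg ℂ K = (n : Cardinal))
    (x : Fin n → K) (hx : AlgebraicIndependent ℂ x) :
    ∃ b : Module.Basis (Fin n) K (Ω[K⁄ℂ]), ∀ i, b i = KaehlerDifferential.D ℂ K (x i) := by
  classical
  have hT : IsTranscendenceBasis ℂ x :=
    AlgebraicIndependent.isTranscendenceBasis_of_trdeg_le_of_finite hx (by simp [htr])
  have halg : Algebra.IsAlgebraic (Algebra.adjoin ℂ (Set.range x)) K := hT.isAlgebraic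
  let algS : Algebra (MvPolynomial (Fin n) ℂ) K := (MvPolynomial.aeval x).toRingHom.toAlgebra
  have hS : ∀ p : MvPolynomial (Fin n) ℂ, algebraMap (MvPolynomial (Fin n) ℂ) K p =
    MvPolynomial.aeval x p := fun p => rfl
  have tow : IsScalarTower ℂ (MvPolynomial (Fin n) ℂ) K := by
    refine IsScalarTower.of_algebraMap_eq fun c => ?_
    rw [hS, MvPolynomial.algebraMap_eq, MvPolynomial.aeval_C]
  have faith : FaithfulSMul (MvPolynomial (Fin n) ℂ) K := by
    rw [faithfulSMul_iff_algebraMap_injective]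
    exact hx
  have algSK : Algebra.IsAlgebraic (MvPolynomial (Fin n) ℂ) K := by
    constructor
    intro a
    obtain ⟨p, hp, hpa⟩ := halg.isAlgebraic a
    let e := hx.aevalEquiv
    refine ⟨p.map e.symm.toRingEquiv.toRingHom, ?_, ?_⟩
    · intro h
      apply hp
      have := (Polynomial.map_eq_zero_iff (f := e.symm.toRingEquiv.toRingHom)
        e.symm.injective).1 h
      exact this
    · rw [Polynomial.aeval_def, Polynomial.eval₂_map]
      rw [Polynomial.aeval_def] at hpa
      rw [← hpa]
      congr 1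
      ext y
      obtain ⟨q, rfl⟩ := e.surjective y
      simp [hS, e]
  let algF : Algebra (FractionRing (MvPolynomial (Fin n) ℂ)) K :=
    FractionRing.liftAlgebra (MvPolynomial (Fin n) ℂ) K
  have towF : IsScalarTower (MvPolynomial (Fin n) ℂ)
    (FractionRing (MvPolynomial (Fin n) ℂ)) K := FractionRing.isScalarTower_liftAlgebra _ _
  have algFK : Algebra.IsAlgebraic (FractionRing (MvPolynomial (Fin n) ℂ)) K :=
    Algebra.IsAlgebraic.extendScalars (R := MvPolynomial (Fin n) ℂ)
      (IsFractionRing.injective _ _)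
  have et2 : Algebra.FormallyEtale (FractionRing (MvPolynomial (Fin n) ℂ)) K :=
    Algebra.FormallyEtale.of_isSeparable _ K
  have et1 : Algebra.FormallyEtale (MvPolynomial (Fin n) ℂ)
      (FractionRing (MvPolynomial (Fin n) ℂ)) :=
    Algebra.FormallyEtale.of_isLocalization (nonZeroDivisors _)
  have et : Algebra.FormallyEtale (MvPolynomial (Fin n) ℂ) K :=
    Algebra.FormallyEtale.comp _ (FractionRing (MvPolynomial (Fin n) ℂ)) _
  refine ⟨((mvPolynomialBasis ℂ (Fin n)).baseChange K).map
    (tensorKaehlerEquivOfFormallyEtale ℂ (MvPolynomial (Fin n) ℂ) K), fun i => ?_⟩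
  have h1 : mvPolynomialBasis ℂ (Fin n) i =
      KaehlerDifferential.D ℂ (MvPolynomial (Fin n) ℂ) (MvPolynomial.X i) := by
    apply (mvPolynomialBasis ℂ (Fin n)).repr.injective
    rw [mvPolynomialBasis_repr_D_X, Module.Basis.repr_self]
  rw [Module.Basis.map_apply, Module.Basis.baseChange_apply, h1,
    ← tensorKaehlerEquivOfFormallyEtale_symm_D_algebraMap, LinearEquiv.apply_symm_apply, hS,
    MvPolynomial.aeval_X]

end TBAS

theorem t_TBAS : Stmt_TBAS := by
  intro n K _ _ htr x hx
  obtain ⟨b, hb⟩ := TBAS.main htr x hx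
  have h : (fun i => KaehlerDifferential.D ℂ K (x i)) = b := funext fun i => (hb i).symm
  rw [h]
  exact ⟨b.linearIndependent, b.span_eq⟩

end MldGeo
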