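import Pool.Agent.MldGeo.Stmts1

/-!
# The order of a form and its order with respect to logarithmic forms
-/

namespace MldGeo

namespace TXT

section Ord

variable {n : ℕ} {K : Type} [Field K] [Algebra ℂ K]

lemma ord_one (v : DivVal n K) : v.ord 1 = 0 := by
  have := v.ord_const 1
  rwa [map_one] at this

lemma ord_inv (v : DivVal n K) {a : K} (ha : a ≠ 0) : v.ord a⁻¹ = - v.ord a := by
  have h := v.ord_mul a a⁻¹ ha (inv_ne_zero ha)
  rw [mul_inv_cancel₀ ha, ord_one] at h
  omega

lemma ord_neg_one (v : DivVal n K) : v.ord (-1) = 0 := by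
  have := v.ord_const (-1)
  rwa [map_neg, map_one] at this

lemma ge_zero (v : DivVal n K) (k : ℤ) : v.Ge k 0 := Or.inl rfl

lemma ge_one (v : DivVal n K) : v.Ge 0 1 := Or.inr (ord_one v).ge

lemma ge_mul (v : DivVal n K) {a b : K} {k l : ℤ} (ha : v.Ge k a) (hb : v.Ge l b) :
    v.Ge (k + l) (a * b) := by
  by_cases ha0 : a = 0
  · left; rw [ha0, zero_mul]
  by_cases hb0 : b = 0
  · left; rw [hb0, mul_zero]
  · right
    rcases ha with h | h
    · exact absurd h ha0
    rcases hb with h' | h'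
    · exact absurd h' hb0
    rw [v.ord_mul _ _ ha0 hb0]
    omega

lemma ge_neg (v : DivVal n K) {a : K} {k : ℤ} (ha : v.Ge k a) : v.Ge k (-a) := by
  have h : v.Ge 0 (-1 : K) := Or.inr (ord_neg_one v).ge
  have h2 := ge_mul v ha h
  rw [add_zero, mul_neg_one] at h2
  exact h2

lemma ge_add (v : DivVal n K) {a b : K} {k : ℤ} (ha : v.Ge k a) (hb : v.Ge k b) :
    v.Ge k (a + b) := by
  by_cases ha0 : a = 0
  · rw [ha0, zero_add]; exact hb
  by_cases hb0 : b = 0
  · rw [hb0, add_zero]; exact ha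
  by_cases hab : a + b = 0
  · left; exact hab
  · right
    rcases ha with h | h
    · exact absurd h ha0
    rcases hb with h' | h'
    · exact absurd h' hb0
    exact (le_min h h').trans (v.ord_add a b ha0 hb0 hab)

/-- The elements of nonnegative order. -/
def O (v : DivVal n K) : Subring K where
  carrier := {a | v.Ge 0 a}
  mul_mem' := fun {a b} ha hb => by
    have := ge_mul v ha hb
    rwa [add_zero] at this
  one_mem' := ge_one v
  add_mem' := fun {a b} ha hb => ge_add v ha hb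
  zero_mem' := ge_zero v 0
  neg_mem' := fun {a} ha => ge_neg v ha

lemma mem_O (v : DivVal n K) {a : K} : a ∈ O v ↔ v.Ge 0 a := Iff.rfl

lemma det_mem {ι : Type} [Fintype ι] [DecidableEq ι] (v : DivVal n K) (M : Matrix ι ι K)
    (h : ∀ i j, M i j ∈ O v) : M.det ∈ O v := by
  rw [Matrix.det_apply']
  refine Subring.sum_mem _ fun σ _ => ?_
  refine Subring.mul_mem _ ?_ (Subring.prod_mem _ fun i _ => h _ _)
  exact intCast_mem _ _

end Ord

variable {m : ℕ} {K : Type} [Field K] [Algebra ℂ K]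

/-- The wedge of the differentials of regular functions. -/
lemma coeff (hFRA : Stmt_FRA) (hLOGD : Stmt_LOGD) (hTBAS : Stmt_TBAS)
    (htr : Algebra.trdeg ℂ K = ((m + 1 : ℕ) : Cardinal))
    (v : DivVal (m + 1) K) (t : K) (u : Fin m → K) (hF : Frame v t u) (a : Fin (m + 1) → K)
    (ha : ∀ i, 0 ≤ v.ord (a i)) :
    ∃ δ : K, v.Ge 0 δ ∧ dforms a = δ • dforms (Fin.cons t u) := by
  classical
  obtain ⟨ht0, ht1, _⟩ := id hF
  have hai := (hFRA v).2 t u hF
  obtain ⟨hli, hsp⟩ := hTBAS htr _ hai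
  set x : Fin (m + 1) → K := Fin.cons t u with hx
  have hx0 : x 0 = t := rfl
  have hxs : ∀ j : Fin m, x j.succ = u j := fun j => rfl
  let bs : Module.Basis (Fin (m + 1)) K (Ω[K⁄ℂ]) := Module.Basis.mk hli hsp.ge
  have hbs : ∀ i, bs i = KaehlerDifferential.D ℂ K (x i) := fun i => Module.Basis.mk_apply hli hsp.ge i
  let E : Fin (m + 1) → Derivation ℂ K K := fun i =>
    (bs.coord i).compDer (KaehlerDifferential.D ℂ K)
  have hE : ∀ i b, E i b = bs.repr (KaehlerDifferential.D ℂ K b) i := fun i b => rfl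
  have hEx : ∀ i j, E i (x j) = if j = i then 1 else 0 := by
    intro i j
    rw [hE, ← hbs, Module.Basis.repr_self, Finsupp.single_apply]
  let D0 : Derivation ℂ K K := t • E 0
  have hD0 : ∀ b, D0 b = t * E 0 b := fun b => rfl
  have hD0t : D0 t = t := by
    rw [hD0, ← hx0, hEx]
    simp
  have hD0u : ∀ j, D0 (u j) = 0 := by
    intro j
    rw [hD0, ← hxs, hEx]
    simp
  have L0 := (hLOGD htr v t u hF D0 (by rw [hD0t]; exact Or.inr ht1.ge)
    (fun j => by rw [hD0u]; exact Or.inl rfl)).2 (fun j => by rw [hD0u]; exact Or.inl rfl)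
  have L1 : ∀ j : Fin m, ∀ (b : K) (k : ℤ), v.Ge k b → v.Ge k (E j.succ b) := by
    intro j
    refine (hLOGD htr v t u hF (E j.succ) ?_ ?_).1
    · left
      rw [← hx0, hEx, if_neg (Fin.succ_ne_zero j).symm]
    · intro i
      rw [← hxs, hEx]
      split_ifs
      · exact ge_one v
      · exact ge_zero v 0
  have hEa : ∀ (i : Fin (m + 1)) (b : K), 0 ≤ v.ord b → v.Ge 0 (E i b) := by
    intro i b hb
    refine Fin.cases ?_ (fun j => L1 j b 0 (Or.inr hb)) i
    have h := L0 b (Or.inr hb)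
    rw [hD0] at h
    rcases h with h | h
    · left
      rcases mul_eq_zero.1 h with h | h
      · exact absurd h ht0
      · exact h
    · by_cases h0 : E 0 b = 0
      · left; exact h0
      · right
        rw [v.ord_mul _ _ ht0 h0, ht1] at h
        omega
  refine ⟨bs.det fun i => KaehlerDifferential.D ℂ K (a i), ?_, ?_⟩
  · rw [Module.Basis.det_apply]
    refine det_mem v _ fun i j => ?_
    rw [mem_O, Module.Basis.toMatrix_apply, ← hE]
    exact hEa i (a j) (ha j)
  · have key : exteriorPower.ιMulti K (m + 1) (M := Ω[K⁄ℂ]) =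
        (LinearMap.toSpanSingleton K (Forms (m + 1) K) (dforms x)).compAlternatingMap bs.det := by
      refine Module.Basis.ext_alternating bs fun w hw => ?_
      have hb : Function.Bijective w := Finite.injective_iff_bijective.1 hw
      let σ : Equiv.Perm (Fin (m + 1)) := Equiv.ofBijective w hb
      have e : (fun i => bs (w i)) = bs ∘ σ := rfl
      rw [e, AlternatingMap.map_perm, AlternatingMap.map_perm, LinearMap.compAlternatingMap_apply,
        Module.Basis.det_self, LinearMap.toSpanSingleton_apply, one_smul]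
      congr 1
      unfold dforms
      congr 1
      funext i
      exact hbs i
    change exteriorPower.ιMulti K (m + 1) (fun i => KaehlerDifferential.D ℂ K (a i)) = _
    rw [key]
    rfl

lemma dforms_frame (t : K) (ht : t ≠ 0) (u : Fin m → K) :
    dforms (Fin.cons t u) = t • frameForm t u := by
  unfold dforms frameForm dlog
  have e : (fun i => KaehlerDifferential.D ℂ K ((Fin.cons t u : Fin (m + 1) → K) i)) =
      Fin.cons (KaehlerDifferential.D ℂ K t) fun j => KaehlerDifferential.D ℂ K (u j) := by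
    funext i
    refine Fin.cases rfl (fun j => rfl) i
  rw [e]
  have h := MultilinearMap.cons_smul
    (exteriorPower.ιMulti K (m + 1) (M := Ω[K⁄ℂ])).toMultilinearMap
    (fun j => KaehlerDifferential.D ℂ K (u j)) t⁻¹ (KaehlerDifferential.D ℂ K t)
  have h' : exteriorPower.ιMulti K (m + 1) (M := Ω[K⁄ℂ])
      (Fin.cons (t⁻¹ • KaehlerDifferential.D ℂ K t) fun j => KaehlerDifferential.D ℂ K (u j)) =
      t⁻¹ • exteriorPower.ιMulti K (m + 1) (M := Ω[K⁄ℂ])
      (Fin.cons (KaehlerDifferential.D ℂ K t) fun j => KaehlerDifferential.D ℂ K (u j)) := h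
  rw [h', smul_smul, mul_inv_cancel₀ ht, one_smul]

lemma reg (hFRA : Stmt_FRA) (hLOGD : Stmt_LOGD) (hTBAS : Stmt_TBAS)
    (htr : Algebra.trdeg ℂ K = ((m + 1 : ℕ) : Cardinal))
    (v : DivVal (m + 1) K) (t : K) (u : Fin m → K) (hF : Frame v t u) (η : Forms (m + 1) K)
    (hη : η ∈ v.regForms) : ∃ h : K, v.Ge 1 h ∧ η = h • frameForm t u := by
  obtain ⟨ht0, ht1, _⟩ := id hF
  unfold DivVal.regForms at hη
  induction hη using AddSubgroup.closure_induction with
  | mem y hy =>
    obtain ⟨g, a, hg, ha, rfl⟩ := hy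
    obtain ⟨δ, hδ, e⟩ := coeff hFRA hLOGD hTBAS htr v t u hF a ha
    refine ⟨g * δ * t, ?_, ?_⟩
    · have h1 : v.Ge 0 (g * δ) := by
        have := ge_mul v (Or.inr hg : v.Ge 0 g) hδ
        rwa [add_zero] at this
      have h2 := ge_mul v h1 (Or.inr ht1.ge : v.Ge 1 t)
      rwa [zero_add] at h2
    · rw [e, dforms_frame t ht0 u, smul_smul, smul_smul, mul_assoc]
  | zero => exact ⟨0, ge_zero v 1, by rw [zero_smul]⟩
  | add y z _ _ hy hz =>
    obtain ⟨h, h1, rfl⟩ := hy
    obtain ⟨h', h1', rfl⟩ := hz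
    exact ⟨h + h', ge_add v h1 h1', by rw [add_smul]⟩
  | neg y _ hy =>
    obtain ⟨h, h1, rfl⟩ := hy
    exact ⟨-h, ge_neg v h1, (neg_smul h (frameForm t u)).symm⟩

lemma main (hFRA : Stmt_FRA) (hLOGD : Stmt_LOGD) (hTBAS : Stmt_TBAS)
    (htr : Algebra.trdeg ℂ K = ((m + 1 : ℕ) : Cardinal))
    (v : DivVal (m + 1) K) (t : K) (u : Fin m → K) (hF : Frame v t u)
    (hne : frameForm t u ≠ 0) (g : K) (hg : g ≠ 0) :
    v.formOrd (g • frameForm t u) = v.ord g - 1 := by
  obtain ⟨ht0, ht1, hu⟩ := id hF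
  have huj : ∀ j, v.ord (u j) = 0 := by
    intro j
    have := (hu (MvPolynomial.X j) (MvPolynomial.X_ne_zero j)).2
    rwa [MvPolynomial.aeval_X] at this
  unfold DivVal.formOrd
  refine IsGreatest.csSup_eq ⟨?_, ?_⟩
  · refine ⟨g * t⁻¹, mul_ne_zero hg (inv_ne_zero ht0), ?_, dforms (Fin.cons t u), ?_, ?_⟩
    · rw [v.ord_mul _ _ hg (inv_ne_zero ht0), ord_inv v ht0, ht1]
      ring
    · refine AddSubgroup.subset_closure ⟨1, Fin.cons t u, (ord_one v).ge, fun i => ?_, ?_⟩
      · refine Fin.cases ?_ (fun j => ?_) i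
        · change 0 ≤ v.ord t
          rw [ht1]
          exact zero_le_one
        · exact (huj j).ge
      · rw [one_smul]
    · rw [dforms_frame t ht0 u, smul_smul, mul_assoc, inv_mul_cancel₀ ht0, mul_one]
  · rintro k ⟨g', hg', rfl, η, hη, e⟩
    obtain ⟨h, h1, rfl⟩ := reg hFRA hLOGD hTBAS htr v t u hF η hη
    rw [smul_smul] at e
    have e2 : g = g' * h := smul_left_injective K hne e
    have h0 : h ≠ 0 := by
      rintro rfl
      exact hg (by rw [e2, mul_zero])
    rcases h1 with h1 | h1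
    · exact absurd h1 h0
    · rw [e2, v.ord_mul _ _ hg' h0]
      omega

end TXT

theorem t_TXT (hFRA : Stmt_FRA) (hLOGD : Stmt_LOGD) (hTBAS : Stmt_TBAS) (hFRM : Stmt_FRM) :
    Stmt_TXT := by
  intro n K _ _ htr v ω hn hω
  obtain ⟨m, rfl⟩ : ∃ m, n = m + 1 := ⟨n - 1, by omega⟩
  obtain ⟨t, u, hF⟩ := (hFRA v).1
  obtain ⟨hne, hex, hord⟩ := hFRM htr v t u hF
  obtain ⟨g, rfl⟩ := hex ω
  have hg : g ≠ 0 := by
    rintro rfl
    exact hω (by rw [zero_smul])
  rw [hord g hg]
  exact TXT.main hFRA hLOGD hTBAS htr v t u hF hne g hg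

end MldGeo
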