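import Pool.Agent.MldGeo.Stmts1

/-!
# MP_fa3f7f_ag: the order along a prime divisor is a divisorial valuation (module DIV)
-/

set_option autoImplicit false

namespace MldGeo

namespace DIV

open MvPolynomial IsLocalRing IsDedekindDomain

variable {n : ℕ} (X : Germ n)

instance noeth : IsNoetherianRing X.R := by
  have : Algebra.FiniteType ℂ X.R := (Subalgebra.fg_iff_finiteType _).1 X.fg
  exact Algebra.FiniteType.isNoetherianRing ℂ X.R

instance fracRing : IsFractionRing X.R X.K := by
  refine IsFractionRing.of_field X.R X.K fun a => ?_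
  obtain ⟨r, hr, s, hs, h0, h1⟩ := X.frac a
  refine ⟨⟨r, hr⟩, ⟨s, hs⟩, ?_⟩
  show a = r / s
  rw [eq_div_iff h0]
  exact h1

instance intClosed : IsIntegrallyClosed X.R := by
  rw [isIntegrallyClosed_iff X.K]
  intro x hx
  exact ⟨⟨x, X.normal x hx⟩, rfl⟩

/-- The local ring. -/
noncomputable abbrev O (P : Ideal X.R) [P.IsPrime] : Subalgebra X.R X.K :=
  Localization.subalgebra.ofField X.K P.primeCompl P.primeCompl_le_nonZeroDivisors

variable (P : Ideal X.R) [P.IsPrime]

instance locO : IsLocalization.AtPrime (O X P) P :=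
  Localization.subalgebra.isLocalization_ofField X.K P.primeCompl P.primeCompl_le_nonZeroDivisors

instance fracO : IsFractionRing (O X P) X.K :=
  Localization.subalgebra.isFractionRing_ofField X.K P.primeCompl P.primeCompl_le_nonZeroDivisors

instance localO : IsLocalRing (O X P) := IsLocalization.AtPrime.isLocalRing (O X P) P

instance noethO : IsNoetherianRing (O X P) :=
  IsLocalization.isNoetherianRing P.primeCompl (O X P) inferInstance

instance closedO : IsIntegrallyClosed (O X P) :=
  isIntegrallyClosed_of_isLocalization (O X P) P.primeCompl P.primeCompl_le_nonZeroDivisors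

theorem mem_max (a : X.R) : algebraMap X.R (O X P) a ∈ maximalIdeal (O X P) ↔ a ∈ P := by
  exact IsLocalization.AtPrime.to_map_mem_maximal_iff (O X P) P a

theorem height_max (hP : P.height = 1) : (maximalIdeal (O X P)).height = 1 := by
  rw [← IsLocalization.height_under P.primeCompl, ← hP]
  congr 1
  ext a
  exact mem_max X P a

theorem ded (hP : P.height = 1) : IsDedekindDomain (O X P) ∧ maximalIdeal (O X P) ≠ ⊥ := by
  have h1 := height_max X P hP
  have hne : maximalIdeal (O X P) ≠ ⊥ := by
    intro h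
    rw [h, Ideal.height_bot] at h1
    exact zero_ne_one h1
  refine ⟨?_, hne⟩
  have hT := tfae_of_isNoetherianRing_of_isLocalRing_of_isDomain (R := O X P)
  have h9 : IsDedekindDomain (O X P) ↔ (IsIntegrallyClosed (O X P) ∧
      ∀ Q : Ideal (O X P), Q ≠ ⊥ → Q.IsPrime → Q = maximalIdeal (O X P)) := hT.out 2 3
  refine h9.2 ⟨inferInstance, fun Q hQ hQ' => ?_⟩
  by_contra hcon
  have hle : Q ≤ maximalIdeal (O X P) := IsLocalRing.le_maximalIdeal hQ'.ne_top
  have hlt : Q < maximalIdeal (O X P) := lt_of_le_of_ne hle hcon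
  have h2 : (⊥ : Ideal (O X P)) < Q := bot_lt_iff_ne_bot.2 hQ
  have h3 := Ideal.height_add_one_le_of_lt_of_isPrime hlt
  have h4 := Ideal.height_add_one_le_of_lt_of_isPrime h2
  rw [h1] at h3
  rw [Ideal.height_bot, zero_add] at h4
  have h5 : (1 : ℕ∞) + 1 ≤ 1 := (add_le_add h4 le_rfl).trans h3
  exact absurd h5 (by decide)

/-- The prime of the local ring. -/
noncomputable def hs (hP : P.height = 1) : HeightOneSpectrum (O X P) :=
  ⟨maximalIdeal (O X P), inferInstance, (ded X P hP).2⟩

/-- The valuation. -/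
noncomputable def val (hP : P.height = 1) : Valuation X.K (WithZero (Multiplicative ℤ)) :=
  haveI := (ded X P hP).1
  (hs X P hP).valuation X.K

theorem val_le_one (hP : P.height = 1) (a : X.R) : val X P hP (a : X.K) ≤ 1 := by
  have := (ded X P hP).1
  exact (hs X P hP).valuation_le_one (K := X.K) (algebraMap X.R (O X P) a)

theorem val_lt_one (hP : P.height = 1) (a : X.R) : val X P hP (a : X.K) < 1 ↔ a ∈ P := by
  have := (ded X P hP).1
  rw [← mem_max X P a]
  exact (hs X P hP).valuation_lt_one_iff_mem (K := X.K) (algebraMap X.R (O X P) a)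

theorem val_regular (hP : P.height = 1) (a : X.K) (ha : val X P hP a ≤ 1) :
    ∃ r s : X.R, s ∉ P ∧ a * (s : X.K) = r := by
  have := (ded X P hP).1
  have h1 : a ∈ (algebraMap (O X P) X.K).range := by
    refine HeightOneSpectrum.mem_integers_of_valuation_le_one X.K a fun w => ?_
    have h2 : w = hs X P hP := by
      have h3 : w.asIdeal = maximalIdeal (O X P) :=
        IsLocalRing.eq_maximalIdeal (w.isPrime.isMaximal w.ne_bot)
      exact HeightOneSpectrum.ext h3
    rw [h2]
    exact ha
  obtain ⟨⟨b, hb⟩, rfl⟩ := h1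
  obtain ⟨r, s, hs, rfl⟩ := hb
  refine ⟨r, s, hs, ?_⟩
  have h0 : (s : X.K) ≠ 0 := by
    intro h
    apply hs
    have h2 : s = 0 := Subtype.ext h
    rw [h2]
    exact P.zero_mem
  show (r : X.K) * (s : X.K)⁻¹ * (s : X.K) = r
  rw [mul_assoc, inv_mul_cancel₀ h0, mul_one]

/-- `n - 1` functions which are independent modulo `P`. -/
theorem indep (hP : P.height = 1) : ∃ (m : ℕ) (_ : n = m + 1) (u : Fin m → X.R),
    ∀ p : MvPolynomial (Fin m) ℂ, p ≠ 0 → (aeval u p : X.R) ∉ P := by
  have hft : Algebra.FiniteType ℂ X.R := (Subalgebra.fg_iff_finiteType _).1 X.fg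
  obtain ⟨s, g, hg, hi⟩ := exists_integral_inj_algHom_of_fg ℂ X.R
  letI : Algebra (MvPolynomial (Fin s) ℂ) X.R := g.toRingHom.toAlgebra
  have hmap : ∀ a, algebraMap (MvPolynomial (Fin s) ℂ) X.R a = g a := fun a => rfl
  have hint : Algebra.IsIntegral (MvPolynomial (Fin s) ℂ) X.R := ⟨fun a => hi a⟩
  have hfs : FaithfulSMul (MvPolynomial (Fin s) ℂ) X.R :=
    (faithfulSMul_iff_algebraMap_injective _ _).2 hg
  have htow : IsScalarTower ℂ (MvPolynomial (Fin s) ℂ) X.R :=
    IsScalarTower.of_algebraMap_eq fun c => by rw [hmap]; exact (g.commutes c).symm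
  have hs : s = n := by
    have h1 : Algebra.trdeg ℂ (MvPolynomial (Fin s) ℂ) = s := by
      rw [MvPolynomial.trdeg_of_isDomain]
      simp
    have h2 : Algebra.trdeg (MvPolynomial (Fin s) ℂ) X.R = 0 := trdeg_eq_zero
    have h3 := trdeg_add_eq ℂ (MvPolynomial (Fin s) ℂ) (A := X.R)
    have h4 : Algebra.IsAlgebraic X.R X.K := IsLocalization.isAlgebraic X.K (nonZeroDivisors X.R)
    have h5 : Algebra.trdeg X.R X.K = 0 := trdeg_eq_zero
    have h6 := trdeg_add_eq ℂ X.R (A := X.K)
    rw [h5, add_zero, X.trdeg, ← h3, h1, h2, add_zero] at h6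
    exact_mod_cast h6
  subst hs
  set Q := P.under (MvPolynomial (Fin s) ℂ) with hQ
  have hP0 : P ≠ ⊥ := Ideal.ne_bot_of_height_eq_one hP
  have hQ0 : Q ≠ ⊥ := fun h => hP0 (Ideal.eq_bot_of_comap_eq_bot h)
  have hh := Ideal.height_eq_height_add_of_liesOver_of_hasGoingDown Q P
  have hQ1 : Q.height = 1 := by
    refine le_antisymm ?_ ?_
    · rw [← hP, hh]
      exact le_self_add
    · have h4 := Ideal.height_add_one_le_of_lt_of_isPrime (bot_lt_iff_ne_bot.2 hQ0)
      rwa [Ideal.height_bot, zero_add] at h4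
  obtain ⟨q, hqQ, hq⟩ := Ideal.IsPrime.exists_mem_prime_of_ne_bot (inferInstance : Q.IsPrime) hQ0
  have hQq := Q.eq_span_singleton_of_height_eq_one hQ1 hqQ hq
  have hv : q.vars ≠ ∅ := by
    intro h
    rw [vars_eq_empty_iff_eq_C] at h
    apply hq.not_isUnit
    rw [h]
    refine IsUnit.map C (isUnit_iff_ne_zero.2 fun h0 => hq.ne_zero ?_)
    rw [h, h0, C_0]
  obtain ⟨i, hi'⟩ := Finset.nonempty_iff_ne_empty.2 hv
  have hdeg := mem_vars_iff_degreeOf_ne_zero.1 hi'
  obtain ⟨m, rfl⟩ : ∃ m, s = m + 1 := ⟨s - 1, by have := i.pos; omega⟩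
  refine ⟨m, rfl, fun j => g (MvPolynomial.X (i.succAbove j)), fun p hp hmem => ?_⟩
  have h1 : (aeval (fun j => g (MvPolynomial.X (i.succAbove j))) p : X.R) =
      g (rename i.succAbove p) := by
    rw [← AlgHom.comp_apply]
    congr 1
    ext j
    simp
  rw [h1] at hmem
  have h2 : rename i.succAbove p ∈ Q := hmem
  rw [hQq, Ideal.mem_span_singleton] at h2
  obtain ⟨c, hc⟩ := h2
  have hp' : rename i.succAbove p ≠ 0 := by
    intro h
    exact hp (rename_injective _ (Fin.succAbove_right_injective) (by rw [h, map_zero]))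
  have hc0 : c ≠ 0 := by
    rintro rfl
    rw [mul_zero] at hc
    exact hp' hc
  have h3 : degreeOf i (rename i.succAbove p) = degreeOf i q + degreeOf i c := by
    rw [hc, degreeOf_mul_eq hq.ne_zero hc0]
  have h4 : i ∉ (rename i.succAbove p).vars := by
    intro h
    obtain ⟨j, -, hj⟩ := mem_vars_rename _ _ h
    exact Fin.succAbove_ne i j hj
  rw [mem_vars_iff_degreeOf_ne_zero, not_not, h3] at h4
  omega

theorem val_const (hP : P.height = 1) (c : ℂ) (hc : c ≠ 0) :
    val X P hP (algebraMap ℂ X.K c) = 1 := by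
  have h1 := val_le_one X P hP (algebraMap ℂ X.R c)
  have h2 := val_le_one X P hP (algebraMap ℂ X.R c⁻¹)
  have h3 : val X P hP (algebraMap ℂ X.K c) * val X P hP (algebraMap ℂ X.K c⁻¹) = 1 := by
    rw [← map_mul, ← map_mul, mul_inv_cancel₀ hc, map_one, map_one]
  have h4 : val X P hP (algebraMap ℂ X.K c) ≤ 1 := h1
  have h5 : val X P hP (algebraMap ℂ X.K c⁻¹) ≤ 1 := h2
  refine le_antisymm h4 ?_
  rw [← h3]
  exact mul_le_of_le_one_right' h5

/-- The divisorial valuation. -/
theorem main (hP : P.height = 1) : ∃ v : DivVal n X.K,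
    ∀ a : X.K, v.ord a = -(WithZero.log (val X P hP a)) := by
  have hded := (ded X P hP).1
  have hz : ∀ a : X.K, a ≠ 0 → val X P hP a ≠ 0 := fun a ha => (Valuation.ne_zero_iff _).2 ha
  obtain ⟨m, rfl, u, hu⟩ := indep X P hP
  refine ⟨⟨fun a => -(WithZero.log (val X P hP a)), ?_, ?_, ?_, ?_, ?_, ?_⟩, fun a => rfl⟩
  · simp
  · intro a b ha hb
    show -(WithZero.log (val X P hP (a * b))) = _
    rw [map_mul, WithZero.log_mul (hz a ha) (hz b hb)]
    ring
  · intro a b ha hb hab
    have h1 := (val X P hP).map_add a b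
    rcases le_max_iff.1 h1 with h2 | h2
    · have h3 := (WithZero.log_le_log (hz _ hab) (hz a ha)).2 h2
      exact (min_le_left _ _).trans (neg_le_neg h3)
    · have h3 := (WithZero.log_le_log (hz _ hab) (hz b hb)).2 h2
      exact (min_le_right _ _).trans (neg_le_neg h3)
  · intro c
    by_cases hc : c = 0
    · rw [hc, map_zero]
      simp
    · show -(WithZero.log (val X P hP (algebraMap ℂ X.K c))) = 0
      rw [val_const X P hP c hc]
      simp
  · obtain ⟨t, ht⟩ := (hs X P hP).valuation_exists_uniformizer X.K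
    have ht' : val X P hP t = WithZero.exp (-1 : ℤ) := ht
    refine ⟨t, ?_, ?_⟩
    · rintro rfl
      rw [map_zero] at ht'
      exact WithZero.exp_ne_zero ht'.symm
    · show -(WithZero.log (val X P hP t)) = 1
      rw [ht', WithZero.log_exp]
      rfl
  · refine ⟨fun j => (u j : X.K), fun p hp => ?_⟩
    have h1 : (aeval (fun j => (u j : X.K)) p : X.K) = ((aeval u p : X.R) : X.K) := by
      have h2 : (aeval (fun j => (u j : X.K)) : MvPolynomial (Fin m) ℂ →ₐ[ℂ] X.K) =
          X.R.val.comp (aeval u) := by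
        ext j
        simp
      show (aeval (fun j => (u j : X.K)) : MvPolynomial (Fin m) ℂ →ₐ[ℂ] X.K) p = _
      rw [h2]
      rfl
    have h3 := hu p hp
    have h4 : val X P hP ((aeval u p : X.R) : X.K) = 1 :=
      le_antisymm (val_le_one X P hP _) (not_lt.1 fun h => h3 ((val_lt_one X P hP _).1 h))
    have h5 : (aeval (fun j => (u j : X.K)) p : X.K) ≠ 0 := by
      rw [h1]
      intro h
      rw [h, map_zero] at h4
      exact zero_ne_one h4
    refine ⟨h5, ?_⟩
    show -(WithZero.log (val X P hP (aeval (fun j => (u j : X.K)) p : X.K))) = 0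
    rw [h1, h4]
    simp

end DIV

/-- DIV: the order along a prime divisor is a divisorial valuation. -/
theorem t_DIV : Stmt_DIV := by
  intro n X P hprime hP
  obtain ⟨v, hv⟩ := DIV.main X P hP
  have hz : ∀ a : X.K, a ≠ 0 → DIV.val X P hP a ≠ 0 := fun a ha => (Valuation.ne_zero_iff _).2 ha
  have hge : ∀ a : X.R, 0 ≤ v.ord a := by
    intro a
    rw [hv]
    by_cases ha : (a : X.K) = 0
    · rw [ha, map_zero]
      simp
    · have h1 := (WithZero.log_le_log (hz _ ha) one_ne_zero).2 (DIV.val_le_one X P hP a)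
      rw [WithZero.log_one] at h1
      omega
  refine ⟨v, ⟨hprime, hP, hge, fun a => ?_⟩, fun a ha => ?_⟩
  · by_cases ha : a = 0
    · simp [ha]
    · have ha' : (a : X.K) ≠ 0 := fun h => ha (Subtype.ext h)
      rw [← DIV.val_lt_one X P hP, hv]
      have h1 := WithZero.log_lt_log (hz _ ha') (one_ne_zero)
      rw [← h1, WithZero.log_one]
      constructor
      · intro h
        right
        omega
      · rintro (h | h)
        · exact absurd h ha
        · omega
  · refine DIV.val_regular X P hP a ?_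
    rcases ha with ha | ha
    · rw [ha, map_zero]
      exact zero_le_one
    · by_cases h0 : a = 0
      · rw [h0, map_zero]
        exact zero_le_one
      · rw [hv] at ha
        rw [← WithZero.log_le_log (hz _ h0) one_ne_zero, WithZero.log_one]
        omega

end MldGeo
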