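import Pool.Agent.MldGeo.Stmts1

/-!
# Basic rules for orders along a divisorial valuation
-/

namespace MldGeo

namespace DivVal

variable {n : ℕ} {K : Type} [Field K] [Algebra ℂ K]

section ord

variable (v : DivVal n K)

theorem ord_one : v.ord 1 = 0 := by
  simpa using v.ord_const 1

theorem ord_neg_one : v.ord (-1) = 0 := by
  simpa using v.ord_const (-1)

theorem ord_neg (a : K) : v.ord (-a) = v.ord a := by
  by_cases h : a = 0
  · simp [h]
  · rw [neg_eq_neg_one_mul, v.ord_mul _ _ (by simp) h, ord_neg_one, zero_add]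

theorem ord_inv (a : K) : v.ord a⁻¹ = - v.ord a := by
  by_cases h : a = 0
  · simp [h, v.ord_zero]
  · have h1 := v.ord_mul a a⁻¹ h (inv_ne_zero h)
    rw [mul_inv_cancel₀ h, ord_one] at h1
    omega

theorem ord_div {a b : K} (ha : a ≠ 0) (hb : b ≠ 0) : v.ord (a / b) = v.ord a - v.ord b := by
  rw [div_eq_mul_inv, v.ord_mul _ _ ha (inv_ne_zero hb), ord_inv, sub_eq_add_neg]

theorem ord_pow (a : K) (k : ℕ) : v.ord (a ^ k) = k * v.ord a := by
  by_cases h : a = 0
  · rcases Nat.eq_zero_or_pos k with rfl | hk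
    · simp [ord_one]
    · simp [h, zero_pow hk.ne', v.ord_zero]
  · induction k with
    | zero => simp [ord_one]
    | succ k ih =>
      rw [pow_succ, v.ord_mul _ _ (pow_ne_zero _ h) h, ih]
      push_cast
      ring

theorem ord_zpow (a : K) (k : ℤ) : v.ord (a ^ k) = k * v.ord a := by
  rcases k with k | k
  · simpa using ord_pow v a k
  · rw [zpow_negSucc, ord_inv, ord_pow, Int.negSucc_eq]
    push_cast
    ring

theorem ord_prod {ι : Type*} (s : Finset ι) (f : ι → K) (h : ∀ i ∈ s, f i ≠ 0) :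
    v.ord (∏ i ∈ s, f i) = ∑ i ∈ s, v.ord (f i) := by
  classical
  induction s using Finset.induction_on with
  | empty => simp [ord_one]
  | insert a s ha ih =>
    rw [Finset.prod_insert ha, Finset.sum_insert ha, v.ord_mul _ _
      (h a (Finset.mem_insert_self a s)) (Finset.prod_ne_zero_iff.2 fun i hi =>
        h i (Finset.mem_insert_of_mem hi)), ih fun i hi => h i (Finset.mem_insert_of_mem hi)]

theorem ord_natCast (k : ℕ) : v.ord (k : K) = 0 := by
  have := v.ord_const (k : ℂ)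
  rwa [map_natCast] at this

theorem ord_intCast (k : ℤ) : v.ord (k : K) = 0 := by
  have := v.ord_const (k : ℂ)
  rwa [map_intCast] at this

theorem ord_sub {a b : K} (ha : a ≠ 0) (hb : b ≠ 0) (hab : a - b ≠ 0) :
    min (v.ord a) (v.ord b) ≤ v.ord (a - b) := by
  rw [sub_eq_add_neg] at hab ⊢
  have := v.ord_add a (-b) ha (neg_ne_zero.2 hb) hab
  rwa [ord_neg] at this

theorem ord_const_mul {c : ℂ} (hc : c ≠ 0) (a : K) : v.ord (algebraMap ℂ K c * a) = v.ord a := by
  by_cases h : a = 0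
  · simp [h]
  · rw [v.ord_mul _ _ (by simpa using hc) h, v.ord_const, zero_add]

theorem ord_smul {c : ℂ} (hc : c ≠ 0) (a : K) : v.ord (c • a) = v.ord a := by
  rw [Algebra.smul_def, ord_const_mul v hc]

end ord

section Ge

variable {v : DivVal n K}

theorem ge_iff {a : K} (ha : a ≠ 0) {k : ℤ} : v.Ge k a ↔ k ≤ v.ord a :=
  ⟨fun h => h.resolve_left ha, Or.inr⟩

theorem Ge.le {k : ℤ} {a : K} (h : v.Ge k a) (ha : a ≠ 0) : k ≤ v.ord a := h.resolve_left ha

theorem Ge.zero (v : DivVal n K) (k : ℤ) : v.Ge k 0 := Or.inl rfl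

theorem Ge.self (v : DivVal n K) (a : K) : v.Ge (v.ord a) a := Or.inr le_rfl

theorem Ge.of_le {k : ℤ} {a : K} (h : k ≤ v.ord a) : v.Ge k a := Or.inr h

theorem Ge.mono {k l : ℤ} {a : K} (h : v.Ge k a) (hl : l ≤ k) : v.Ge l a :=
  h.imp_right fun h => hl.trans h

theorem Ge.const (v : DivVal n K) (c : ℂ) : v.Ge 0 (algebraMap ℂ K c) :=
  Or.inr (v.ord_const c).ge

theorem Ge.one (v : DivVal n K) : v.Ge 0 (1 : K) := Or.inr (ord_one v).ge

theorem Ge.natCast (v : DivVal n K) (k : ℕ) : v.Ge 0 (k : K) := Or.inr (ord_natCast v k).ge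

theorem Ge.intCast (v : DivVal n K) (k : ℤ) : v.Ge 0 (k : K) := Or.inr (ord_intCast v k).ge

theorem Ge.neg {k : ℤ} {a : K} (h : v.Ge k a) : v.Ge k (-a) := by
  rcases h with rfl | h
  · simpa using Ge.zero v k
  · exact Or.inr (by rwa [ord_neg])

theorem ge_neg_iff {k : ℤ} {a : K} : v.Ge k (-a) ↔ v.Ge k a :=
  ⟨fun h => by simpa using h.neg, Ge.neg⟩

theorem Ge.add {k : ℤ} {a b : K} (ha : v.Ge k a) (hb : v.Ge k b) : v.Ge k (a + b) := by
  by_cases h1 : a = 0
  · rwa [h1, zero_add]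
  by_cases h2 : b = 0
  · rwa [h2, add_zero]
  by_cases h3 : a + b = 0
  · exact Or.inl h3
  · exact Or.inr ((le_min (ha.le h1) (hb.le h2)).trans (v.ord_add a b h1 h2 h3))

theorem Ge.sub {k : ℤ} {a b : K} (ha : v.Ge k a) (hb : v.Ge k b) : v.Ge k (a - b) := by
  rw [sub_eq_add_neg]
  exact ha.add hb.neg

theorem Ge.sub_comm {k : ℤ} {a b : K} (h : v.Ge k (a - b)) : v.Ge k (b - a) := by
  rw [← neg_sub]
  exact h.neg

theorem Ge.mul {k l : ℤ} {a b : K} (ha : v.Ge k a) (hb : v.Ge l b) : v.Ge (k + l) (a * b) := by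
  by_cases h1 : a = 0
  · exact Or.inl (by rw [h1, zero_mul])
  by_cases h2 : b = 0
  · exact Or.inl (by rw [h2, mul_zero])
  · refine Or.inr ?_
    rw [v.ord_mul a b h1 h2]
    exact add_le_add (ha.le h1) (hb.le h2)

theorem Ge.mul_left {k : ℤ} {a b : K} (ha : v.Ge 0 a) (hb : v.Ge k b) : v.Ge k (a * b) := by
  have := ha.mul hb
  rwa [zero_add] at this

theorem Ge.mul_right {k : ℤ} {a b : K} (ha : v.Ge k a) (hb : v.Ge 0 b) : v.Ge k (a * b) := by
  have := ha.mul hb
  rwa [add_zero] at this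

theorem Ge.const_mul {k : ℤ} {a : K} (ha : v.Ge k a) (c : ℂ) : v.Ge k (algebraMap ℂ K c * a) :=
  (Ge.const v c).mul_left ha

theorem Ge.smul {k : ℤ} {a : K} (ha : v.Ge k a) (c : ℂ) : v.Ge k (c • a) := by
  rw [Algebra.smul_def]
  exact ha.const_mul c

theorem Ge.pow {k : ℤ} {a : K} (ha : v.Ge k a) (m : ℕ) : v.Ge (m * k) (a ^ m) := by
  induction m with
  | zero => simpa using Ge.one v
  | succ m ih =>
    have := ih.mul ha
    rw [pow_succ]
    refine this.mono (le_of_eq ?_)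
    push_cast
    ring

theorem Ge.pow0 {a : K} (ha : v.Ge 0 a) (m : ℕ) : v.Ge 0 (a ^ m) := by
  simpa using ha.pow m

theorem Ge.sum {ι : Type*} {k : ℤ} (s : Finset ι) (f : ι → K) (h : ∀ i ∈ s, v.Ge k (f i)) :
    v.Ge k (∑ i ∈ s, f i) := by
  classical
  induction s using Finset.induction_on with
  | empty => simpa using Ge.zero v k
  | insert a s ha ih =>
    rw [Finset.sum_insert ha]
    exact (h a (Finset.mem_insert_self a s)).add (ih fun i hi => h i (Finset.mem_insert_of_mem hi))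

theorem Ge.prod {ι : Type*} (s : Finset ι) (f : ι → K) (k : ι → ℤ)
    (h : ∀ i ∈ s, v.Ge (k i) (f i)) : v.Ge (∑ i ∈ s, k i) (∏ i ∈ s, f i) := by
  classical
  induction s using Finset.induction_on with
  | empty => simpa using Ge.one v
  | insert a s ha ih =>
    rw [Finset.prod_insert ha, Finset.sum_insert ha]
    exact (h a (Finset.mem_insert_self a s)).mul (ih fun i hi => h i (Finset.mem_insert_of_mem hi))

theorem Ge.prod0 {ι : Type*} (s : Finset ι) (f : ι → K) (h : ∀ i ∈ s, v.Ge 0 (f i)) :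
    v.Ge 0 (∏ i ∈ s, f i) := by
  simpa using Ge.prod s f (fun _ => 0) h

theorem Ge.inv {a : K} (ha : a ≠ 0) (h : v.ord a = 0) : v.Ge 0 a⁻¹ := by
  refine (ge_iff (inv_ne_zero ha)).2 ?_
  rw [ord_inv, h, neg_zero]

theorem Ge.inv' (v : DivVal n K) (a : K) : v.Ge (-v.ord a) a⁻¹ := Or.inr (ord_inv v a).ge

theorem Ge.div {k : ℤ} {a : K} (ha : v.Ge k a) (b : K) : v.Ge (k - v.ord b) (a / b) := by
  rw [div_eq_mul_inv, sub_eq_add_neg]
  exact ha.mul (Ge.inv' v b)

/-- the term of smaller order dominates -/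
theorem ord_add_eq_of_lt {a b : K} (ha : a ≠ 0) (hb : v.Ge (v.ord a + 1) b) :
    a + b ≠ 0 ∧ v.ord (a + b) = v.ord a := by
  by_cases h2 : b = 0
  · rw [h2, add_zero]
    exact ⟨ha, rfl⟩
  have h3 := hb.le h2
  have h4 : a + b ≠ 0 := by
    intro h
    have h5 : b = -a := by linear_combination h
    rw [h5, ord_neg] at h3
    omega
  refine ⟨h4, le_antisymm ?_ ?_⟩
  · have h5 := v.ord_add (a + b) (-b) h4 (neg_ne_zero.2 h2) (by simpa using ha)
    rw [ord_neg, add_neg_cancel_right] at h5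
    by_contra h6
    have h7 : v.ord a + 1 ≤ min (v.ord (a + b)) (v.ord b) := le_min (by omega) h3
    omega
  · have := v.ord_add a b ha h2 h4
    rwa [min_eq_left (by omega)] at this

theorem ord_add_eq_of_ord_lt {a b : K} (ha : a ≠ 0) (h : v.ord a < v.ord b) :
    a + b ≠ 0 ∧ v.ord (a + b) = v.ord a :=
  ord_add_eq_of_lt ha (Ge.of_le (by omega))

theorem ord_sub_eq_of_lt {a b : K} (ha : a ≠ 0) (hb : v.Ge (v.ord a + 1) b) :
    a - b ≠ 0 ∧ v.ord (a - b) = v.ord a := by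
  rw [sub_eq_add_neg]
  exact ord_add_eq_of_lt ha hb.neg

/-- congruent elements have the same order -/
theorem ord_eq_of_sub {a b : K} (ha : a ≠ 0) (h : v.Ge (v.ord a + 1) (a - b)) :
    b ≠ 0 ∧ v.ord b = v.ord a := by
  have := ord_sub_eq_of_lt ha h
  rwa [sub_sub_cancel] at this

/-- the order of a finite sum is at least the minimum of the orders -/
theorem ord_sum_le {ι : Type*} {k : ℤ} (s : Finset ι) (f : ι → K) (h : ∀ i ∈ s, k ≤ v.ord (f i))
    (h0 : ∑ i ∈ s, f i ≠ 0) : k ≤ v.ord (∑ i ∈ s, f i) :=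
  (Ge.sum s f fun i hi => Or.inr (h i hi)).le h0

/-- every element of order `k` is a unit times the power of a uniformizer -/
theorem exists_unit {t : K} (ht : t ≠ 0) (h1 : v.ord t = 1) {a : K} (ha : a ≠ 0) :
    ∃ u : K, u ≠ 0 ∧ v.ord u = 0 ∧ a = u * t ^ v.ord a := by
  refine ⟨a * t ^ (-v.ord a), mul_ne_zero ha (zpow_ne_zero _ ht), ?_, ?_⟩
  · rw [v.ord_mul _ _ ha (zpow_ne_zero _ ht), ord_zpow, h1]
    ring
  · rw [mul_assoc, ← zpow_add₀ ht, neg_add_cancel, zpow_zero, mul_one]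

/-- the orders exclude `Ge` for all `k` -/
theorem eq_zero_of_ge {a : K} (h : ∀ k : ℤ, v.Ge k a) : a = 0 := by
  by_contra ha
  have := (h (v.ord a + 1)).le ha
  omega

/-! ### matrices -/

section det

variable {ι : Type*} [Fintype ι] [DecidableEq ι]

theorem Ge.det {M : Matrix ι ι K} (h : ∀ i j, v.Ge 0 (M i j)) : v.Ge 0 M.det := by
  rw [Matrix.det_apply]
  refine Ge.sum _ _ fun σ _ => ?_
  have h1 : v.Ge 0 (∏ i, M (σ i) i) := Ge.prod0 _ _ fun i _ => h _ _
  rcases Int.units_eq_one_or (Equiv.Perm.sign σ) with h2 | h2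
  · rw [h2, one_smul]
    exact h1
  · rw [h2, Units.neg_smul, one_smul]
    exact h1.neg

theorem Ge.det_col {k : ℤ} {M : Matrix ι ι K} (h : ∀ i j, v.Ge 0 (M i j)) (j : ι)
    (hj : ∀ i, v.Ge k (M i j)) : v.Ge k M.det := by
  rw [Matrix.det_apply]
  refine Ge.sum _ _ fun σ _ => ?_
  have h1 : v.Ge k (∏ i, M (σ i) i) := by
    rw [← Finset.mul_prod_erase _ _ (Finset.mem_univ j)]
    exact (hj _).mul_right (Ge.prod0 _ _ fun i _ => h _ _)
  rcases Int.units_eq_one_or (Equiv.Perm.sign σ) with h2 | h2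
  · rw [h2, one_smul]
    exact h1
  · rw [h2, Units.neg_smul, one_smul]
    exact h1.neg

theorem Ge.det_row {k : ℤ} {M : Matrix ι ι K} (h : ∀ i j, v.Ge 0 (M i j)) (i : ι)
    (hi : ∀ j, v.Ge k (M i j)) : v.Ge k M.det := by
  rw [← Matrix.det_transpose]
  exact Ge.det_col (fun a b => h b a) i hi

/-- the general bound: column `j` has entries of order at least `k j` -/
theorem Ge.det_cols {M : Matrix ι ι K} (k : ι → ℤ) (h : ∀ i j, v.Ge (k j) (M i j)) :
    v.Ge (∑ j, k j) M.det := by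
  rw [Matrix.det_apply]
  refine Ge.sum _ _ fun σ _ => ?_
  have h1 : v.Ge (∑ j, k j) (∏ i, M (σ i) i) := Ge.prod _ _ _ fun i _ => h _ _
  rcases Int.units_eq_one_or (Equiv.Perm.sign σ) with h2 | h2
  · rw [h2, one_smul]
    exact h1
  · rw [h2, Units.neg_smul, one_smul]
    exact h1.neg

/-- determinants of congruent matrices are congruent -/
theorem Ge.det_sub {k : ℤ} {M N : Matrix ι ι K} (hM : ∀ i j, v.Ge 0 (M i j))
    (hN : ∀ i j, v.Ge 0 (N i j)) (h : ∀ i j, v.Ge k (M i j - N i j)) :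
    v.Ge k (M.det - N.det) := by
  classical
  have key : ∀ (s : Finset ι) (f g : ι → K), (∀ i, v.Ge 0 (f i)) → (∀ i, v.Ge 0 (g i)) →
      (∀ i, v.Ge k (f i - g i)) → v.Ge k (∏ i ∈ s, f i - ∏ i ∈ s, g i) := by
    intro s f g hf hg hfg
    induction s using Finset.induction_on with
    | empty => simpa using Ge.zero v k
    | insert a s ha ih =>
      rw [Finset.prod_insert ha, Finset.prod_insert ha]
      have : f a * ∏ i ∈ s, f i - g a * ∏ i ∈ s, g i =
          f a * (∏ i ∈ s, f i - ∏ i ∈ s, g i) + (f a - g a) * ∏ i ∈ s, g i := by ring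
      rw [this]
      exact ((hf a).mul_left ih).add ((hfg a).mul_right (Ge.prod0 _ _ fun i _ => hg i))
  rw [Matrix.det_apply, Matrix.det_apply, ← Finset.sum_sub_distrib]
  refine Ge.sum _ _ fun σ _ => ?_
  have h1 := key Finset.univ (fun i => M (σ i) i) (fun i => N (σ i) i) (fun _ => hM _ _)
    (fun _ => hN _ _) (fun _ => h _ _)
  rw [← smul_sub]
  rcases Int.units_eq_one_or (Equiv.Perm.sign σ) with h2 | h2
  · rw [h2, one_smul]
    exact h1
  · rw [h2, Units.neg_smul, one_smul]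
    exact h1.neg

end det

/-! ### polynomials -/

theorem Ge.aeval {σ : Type*} {u : σ → K} (h : ∀ i, v.Ge 0 (u i)) (p : MvPolynomial σ ℂ) :
    v.Ge 0 (MvPolynomial.aeval u p) := by
  induction p using MvPolynomial.induction_on with
  | C c => rw [MvPolynomial.aeval_C]; exact Ge.const v c
  | add p q hp hq => rw [map_add]; exact hp.add hq
  | mul_X p i hp => rw [map_mul, MvPolynomial.aeval_X]; exact hp.mul_left (h i)

theorem Ge.aeval1 {a : K} (h : v.Ge 0 a) (p : Polynomial ℂ) : v.Ge 0 (Polynomial.aeval a p) := by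
  induction p using Polynomial.induction_on' with
  | add p q hp hq => rw [map_add]; exact hp.add hq
  | monomial m c =>
    rw [Polynomial.aeval_monomial]
    exact (Ge.const v c).mul_left (h.pow0 m)

end Ge

/-! ### the valuation ring -/

section OV

variable (v : DivVal n K)

/-- the valuation ring -/
def OV : ValuationSubring K where
  carrier := {a | v.Ge 0 a}
  mul_mem' ha hb := Ge.mul_left ha hb
  one_mem' := Ge.one v
  add_mem' ha hb := Ge.add ha hb
  zero_mem' := Ge.zero v 0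
  neg_mem' ha := Ge.neg ha
  mem_or_inv_mem' a := by
    by_cases ha : a = 0
    · exact Or.inl (Or.inl ha)
    rcases le_total 0 (v.ord a) with h | h
    · exact Or.inl (Or.inr h)
    · exact Or.inr (Or.inr (by rw [ord_inv]; omega))

theorem mem_OV {a : K} : a ∈ v.OV ↔ v.Ge 0 a := Iff.rfl

theorem OV_isUnit_iff {a : v.OV} : IsUnit a ↔ (a : K) ≠ 0 ∧ v.ord a = 0 := by
  constructor
  · rintro ⟨u, rfl⟩
    have h1 : ((u : v.OV) : K) * ((u⁻¹ : v.OVˣ) : v.OV) = 1 := by
      exact congrArg (Subtype.val : v.OV → K) (Units.mul_inv u)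
    have h2 : ((u : v.OV) : K) ≠ 0 := left_ne_zero_of_mul_eq_one h1
    have h3 : (((u⁻¹ : v.OVˣ) : v.OV) : K) ≠ 0 := right_ne_zero_of_mul_eq_one h1
    refine ⟨h2, ?_⟩
    have h4 := v.ord_mul _ _ h2 h3
    rw [h1, ord_one] at h4
    have h5 : 0 ≤ v.ord (u : v.OV) := (((u : v.OV)).2 : v.Ge 0 _).le h2
    have h6 : 0 ≤ v.ord ((u⁻¹ : v.OVˣ) : v.OV) := ((((u⁻¹ : v.OVˣ) : v.OV)).2 : v.Ge 0 _).le h3
    omega
  · rintro ⟨h1, h2⟩
    refine IsUnit.of_mul_eq_one ⟨(a : K)⁻¹, Ge.inv h1 h2⟩ ?_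
    apply Subtype.ext
    exact mul_inv_cancel₀ h1

theorem mem_maximalIdeal_iff {a : v.OV} : a ∈ IsLocalRing.maximalIdeal v.OV ↔ v.Ge 1 (a : K) := by
  rw [IsLocalRing.mem_maximalIdeal, mem_nonunits_iff, OV_isUnit_iff]
  have h0 : v.Ge 0 (a : K) := a.2
  constructor
  · intro h
    by_cases ha : (a : K) = 0
    · exact Or.inl ha
    · refine Or.inr ?_
      have h1 := h0.le ha
      have h2 : v.ord (a : K) ≠ 0 := fun h3 => h ⟨ha, h3⟩
      omega
  · rintro h ⟨h1, h2⟩
    have := h.le h1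
    omega

/-- the uniformizers are the irreducible elements -/
theorem OV_irreducible {t : v.OV} (ht : (t : K) ≠ 0) (h1 : v.ord t = 1) : Irreducible t := by
  refine ⟨?_, ?_⟩
  · rw [OV_isUnit_iff]
    rintro ⟨-, h⟩
    omega
  · intro a b hab
    have h2 : (t : K) = (a : K) * (b : K) := congrArg (Subtype.val : v.OV → K) hab
    have ha : (a : K) ≠ 0 := by
      intro h
      rw [h, zero_mul] at h2
      exact ht h2
    have hb : (b : K) ≠ 0 := by
      intro h
      rw [h, mul_zero] at h2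
      exact ht h2
    have h3 := v.ord_mul _ _ ha hb
    rw [← h2, h1] at h3
    have h4 := (a.2 : v.Ge 0 _).le ha
    have h5 := (b.2 : v.Ge 0 _).le hb
    rw [OV_isUnit_iff, OV_isUnit_iff]
    by_cases h6 : v.ord (a : K) = 0
    · exact Or.inl ⟨ha, h6⟩
    · exact Or.inr ⟨hb, by omega⟩

instance OV_dvr : IsDiscreteValuationRing v.OV := by
  refine IsDiscreteValuationRing.ofHasUnitMulPowIrreducibleFactorization ?_
  obtain ⟨t, ht, h1⟩ := v.unif
  have htm : t ∈ v.OV := Or.inr (by omega)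
  refine ⟨⟨t, htm⟩, OV_irreducible v (t := ⟨t, htm⟩) ht h1, ?_⟩
  intro a ha
  have ha' : (a : K) ≠ 0 := fun h => ha (Subtype.ext h)
  have h0 := (a.2 : v.Ge 0 _).le ha'
  obtain ⟨k, hk⟩ := Int.eq_ofNat_of_zero_le h0
  obtain ⟨u, hu, hu0, hau⟩ := exists_unit (v := v) ht h1 ha'
  have hum : u ∈ v.OV := Or.inr hu0.ge
  refine ⟨k, ?_⟩
  have h2 : IsUnit (⟨u, hum⟩ : v.OV) := (OV_isUnit_iff v).2 ⟨hu, hu0⟩
  obtain ⟨w, hw⟩ := h2
  refine ⟨w, ?_⟩
  apply Subtype.ext
  rw [hw]
  change t ^ k * u = a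
  rw [hk] at hau
  rw [hau, mul_comm]
  simp

instance OV_frac : IsFractionRing v.OV K := inferInstance

/-- two valuations with the same elements of nonnegative order have the same orders -/
theorem ord_eq_of_OV {w : DivVal n K} (h : ∀ a, v.Ge 0 a → w.Ge 0 a) (a : K) : v.ord a = w.ord a := by
  by_cases ha : a = 0
  · rw [ha, v.ord_zero, w.ord_zero]
  obtain ⟨t, ht, h1⟩ := v.unif
  -- units go to units
  have hu : ∀ u : K, u ≠ 0 → v.ord u = 0 → w.ord u = 0 := by
    intro u hu hu0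
    have h2 := (h u (Or.inr hu0.ge)).le hu
    have h3 := (h u⁻¹ (Ge.inv hu hu0)).le (inv_ne_zero hu)
    rw [ord_inv] at h3
    omega
  have hw : ∀ b : K, b ≠ 0 → w.ord b = v.ord b * w.ord t := by
    intro b hb
    obtain ⟨u, hu1, hu2, hu3⟩ := exists_unit (v := v) ht h1 hb
    conv_lhs => rw [hu3]
    rw [w.ord_mul _ _ hu1 (zpow_ne_zero _ ht), hu u hu1 hu2, zero_add, ord_zpow]
  obtain ⟨s, hs, hs1⟩ := w.unif
  have h4 := hw s hs
  rw [hs1] at h4
  have h5 : 0 ≤ w.ord t := (h t (Or.inr (by omega))).le ht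
  have h6 : w.ord t = 1 := by
    have h7 : w.ord t ∣ 1 := ⟨v.ord s, by rw [h4]; ring⟩
    rcases Int.isUnit_iff.1 (isUnit_of_dvd_one h7) with h8 | h8
    · exact h8
    · omega
  rw [hw a ha, h6, mul_one]

end OV

end DivVal

end MldGeo
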