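import Pool.Agent.MldGeo.Stmts5
import Pool.Agent.MldGeo.Ord
import Pool.Agent.MldGeo.DIV

/-!
# MP_fa3f7f_ag: uniqueness of the order along a prime divisor, orders of ideals (modules OLC, UNI,
IDO)
-/

set_option autoImplicit false

namespace MldGeo

namespace OLC

open DivVal

variable {n : ℕ}

/-- a fraction with denominator outside `P` has nonnegative order along `P` -/
theorem ge_of_frac (X : Germ n) (P : Ideal X.R) (v : DivVal n X.K) (hv : X.IsOrdAlong v P)
    (a : X.K) (r s : X.R) (hs : s ∉ P) (h : a * (s : X.K) = r) : v.Ge 0 a := by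
  obtain ⟨-, -, h0, h1⟩ := hv
  have hs0 : s ≠ 0 := fun h => hs (h ▸ P.zero_mem)
  have hsK : (s : X.K) ≠ 0 := fun h => hs0 (Subtype.ext h)
  have hs1 : v.ord (s : X.K) = 0 := by
    by_contra hne
    exact hs ((h1 s).2 (Or.inr (lt_of_le_of_ne (h0 s) (Ne.symm hne))))
  by_cases ha : a = 0
  · exact Or.inl ha
  · refine Or.inr ?_
    have h3 := v.ord_mul a s ha hsK
    rw [h, hs1, add_zero] at h3
    rw [← h3]
    exact h0 r

/-- the regular functions of order at least `k` -/
def ideal {X : Germ n} (v : DivVal n X.K) (hv : ∀ a : X.R, 0 ≤ v.ord a) (k : ℤ) : Ideal X.R where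
  carrier := {a | v.Ge k (a : X.K)}
  add_mem' ha hb := Ge.add ha hb
  zero_mem' := Ge.zero v k
  smul_mem' c _ ha := Ge.mul_left (Or.inr (hv c)) ha

theorem ord_nonempty {X : Germ n} (v : DivVal n X.K) (I : Ideal X.R) (hI : I ≠ ⊥) :
    {k : ℤ | ∃ a ∈ I, a ≠ 0 ∧ v.ord a = k}.Nonempty := by
  obtain ⟨a, ha, h0⟩ := Submodule.exists_mem_ne_zero_of_ne_bot hI
  exact ⟨_, a, ha, h0, rfl⟩

theorem ord_bdd {X : Germ n} (v : DivVal n X.K) (hv : ∀ a : X.R, 0 ≤ v.ord a) (I : Ideal X.R) :
    BddBelow {k : ℤ | ∃ a ∈ I, a ≠ 0 ∧ v.ord a = k} := by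
  refine ⟨0, ?_⟩
  rintro k ⟨a, -, -, rfl⟩
  exact hv a

end OLC

/-- UNI: the order along a prime divisor is unique. -/
theorem t_UNI : Stmt_UNI := by
  intro n X P v w hv hw
  obtain ⟨v', -, h⟩ := t_DIV X P hv.1 hv.2.1
  have key : ∀ u : DivVal n X.K, X.IsOrdAlong u P → ∀ a, v'.ord a = u.ord a := by
    intro u hu
    refine DivVal.ord_eq_of_OV (v := v') (w := u) fun a ha => ?_
    obtain ⟨r, s, hs, hrs⟩ := h a ha
    exact OLC.ge_of_frac X P u hu a r s hs hrs
  funext a
  rw [← key v hv a, ← key w hw a]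

/-- OLC: a function which is regular along the prime divisor `P` is a fraction with denominator
outside `P`. -/
theorem t_OLC : Stmt_OLC := by
  intro n X P v hv a ha
  obtain ⟨v', hv', h⟩ := t_DIV X P hv.1 hv.2.1
  have h1 : v.ord = v'.ord := t_UNI X P v v' hv hv'
  refine h a ?_
  rcases ha with ha | ha
  · exact Or.inl ha
  · exact Or.inr (by rwa [← h1])

/-- IDO: the order of an ideal with generators is the least order of a generator. -/
theorem t_IDO : Stmt_IDO := by
  intro n X v hv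
  have hmem : ∀ I : Ideal X.R, I ≠ ⊥ → ∃ a ∈ I, a ≠ 0 ∧ v.ord a = idealOrd v I := fun I hI =>
    Int.csInf_mem (OLC.ord_nonempty v I hI) (OLC.ord_bdd v hv I)
  have hle : ∀ (I : Ideal X.R) (a : X.R), a ∈ I → a ≠ 0 → idealOrd v I ≤ v.ord a :=
    fun I a ha h0 => csInf_le (OLC.ord_bdd v hv I) ⟨a, ha, h0, rfl⟩
  refine ⟨fun I hI => ?_, hmem, hle, fun s hs => ?_⟩
  · obtain ⟨a, -, -, ha⟩ := hmem I hI
    rw [← ha]
    exact hv a
  · obtain ⟨b, hb, hb0, hbk⟩ := hmem _ hs
    have hbK : (b : X.K) ≠ 0 := fun h => hb0 (Subtype.ext h)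
    by_contra hcon
    push Not at hcon
    have h1 : Ideal.span s ≤ OLC.ideal v hv (idealOrd v (Ideal.span s) + 1) := by
      refine Ideal.span_le.2 fun a ha => ?_
      by_cases h0 : a = 0
      · rw [h0]
        exact Submodule.zero_mem _
      have h2 := hle _ a (Ideal.subset_span ha) h0
      by_cases h3 : v.ord (a : X.K) = idealOrd v (Ideal.span s)
      · obtain ⟨c, hc, hc0, hca⟩ := hcon a ha h0 h3
        have h4 := hle _ c (Ideal.subset_span hc) hc0
        omega
      · exact Or.inr (by omega)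
    have h2 : v.Ge (idealOrd v (Ideal.span s) + 1) (b : X.K) := h1 hb
    have h3 := h2.resolve_left hbK
    omega

end MldGeo
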