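import Pool.Agent.MldGeo.Stmts6

/-!
# PRF: the product formula for a function field of one variable
-/

namespace MldGeo

noncomputable section

namespace PRF

variable {F : Type} [Field F] [Algebra ℂ F]

theorem adjoin_inv (f : F) :
    IntermediateField.adjoin ℂ {f⁻¹} = IntermediateField.adjoin ℂ {f} := by
  apply le_antisymm
  · rw [IntermediateField.adjoin_simple_le_iff]
    exact inv_mem (IntermediateField.mem_adjoin_simple_self ℂ f)
  · rw [IntermediateField.adjoin_simple_le_iff]
    have := inv_mem (IntermediateField.mem_adjoin_simple_self ℂ f⁻¹)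
    rwa [inv_inv] at this

/-- algebraic elements are constants -/
theorem const_of_alg {f : F} (h : IsAlgebraic ℂ f) : ∃ c : ℂ, f = algebraMap ℂ F c := by
  have h1 : IsIntegral ℂ f := h.isIntegral
  have h2 : (minpoly ℂ f).degree = 1 :=
    IsAlgClosed.degree_eq_one_of_irreducible ℂ (minpoly.irreducible h1)
  obtain ⟨c, hc⟩ := minpoly.mem_range_of_degree_eq_one ℂ f h2
  exact ⟨c, hc.symm⟩

theorem trans_inv {f : F} (h : Transcendental ℂ f) : Transcendental ℂ f⁻¹ := by
  intro h1
  apply h
  have := h1.inv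
  rwa [inv_inv] at this

theorem trans_sub {f : F} (h : Transcendental ℂ f) (c : ℂ) :
    Transcendental ℂ (f - algebraMap ℂ F c) := by
  intro h1
  apply h
  have := h1.add (isAlgebraic_algebraMap (R := ℂ) (A := F) c)
  rwa [sub_add_cancel] at this

/-- a transcendental function has a zero -/
theorem exists_zero (hDEG : Stmt_DEG) (hF : IsCurve F) {s : F} (hs : Transcendental ℂ s) :
    ∃ y : DivVal 1 F, 0 < y.ord s := by
  obtain ⟨P, hP, hsum⟩ := hDEG hF s hs
  have := hF.2 s hs
  have h1 : 0 < Module.finrank (IntermediateField.adjoin ℂ {s}) F := Module.finrank_pos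
  by_contra hno
  push Not at hno
  have h2 : P = ∅ := by
    rw [Finset.eq_empty_iff_forall_notMem]
    intro y hy
    have := (hP y).1 hy
    have := hno y
    omega
  rw [h2, Finset.sum_empty] at hsum
  omega

theorem product (hDEG : Stmt_DEG) (hF : IsCurve F) {f : F} (hf : f ≠ 0) :
    ∃ E : DivVal 1 F →₀ ℤ, (∀ y, E y = y.ord f) ∧ deg E = 0 := by
  classical
  by_cases halg : IsAlgebraic ℂ f
  · obtain ⟨c, rfl⟩ := const_of_alg halg
    refine ⟨0, fun y => ?_, ?_⟩
    · rw [y.ord_const]
      rfl
    · simp [deg]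
  · have ht : Transcendental ℂ f := halg
    obtain ⟨P, hP, hPs⟩ := hDEG hF f ht
    obtain ⟨Q, hQ, hQs⟩ := hDEG hF f⁻¹ (trans_inv ht)
    rw [adjoin_inv] at hQs
    have hdisj : Disjoint P Q := by
      rw [Finset.disjoint_left]
      intro y hy hy'
      have h1 := (hP y).1 hy
      have h2 := (hQ y).1 hy'
      rw [DivVal.ord_inv] at h2
      omega
    have hsup : ∀ y : DivVal 1 F, y.ord f ≠ 0 → y ∈ P ∪ Q := by
      intro y hy
      rw [Finset.mem_union]
      by_cases h : 0 < y.ord f
      · exact Or.inl ((hP y).2 h)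
      · right
        rw [hQ, DivVal.ord_inv]
        omega
    refine ⟨Finsupp.onFinset (P ∪ Q) (fun y => y.ord f) hsup, fun y => rfl, ?_⟩
    have h3 : deg (Finsupp.onFinset (P ∪ Q) (fun y : DivVal 1 F => y.ord f) hsup) =
        ∑ y ∈ P ∪ Q, y.ord f := by
      unfold deg
      exact Finsupp.onFinset_sum _ fun _ => rfl
    rw [h3, Finset.sum_union hdisj, hPs]
    have h4 : ∑ y ∈ Q, y.ord f = - ∑ y ∈ Q, y.ord f⁻¹ := by
      rw [← Finset.sum_neg_distrib]
      refine Finset.sum_congr rfl fun y _ => ?_
      rw [DivVal.ord_inv, neg_neg]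
    rw [h4, hQs, add_neg_cancel]

theorem noPoles (hDEG : Stmt_DEG) (hF : IsCurve F) {f : F} (h : ∀ y : DivVal 1 F, y.Ge 0 f) :
    ∃ c : ℂ, f = algebraMap ℂ F c := by
  by_cases halg : IsAlgebraic ℂ f
  · exact const_of_alg halg
  · exfalso
    have ht : Transcendental ℂ f := halg
    obtain ⟨y, hy⟩ := exists_zero hDEG hF (trans_inv ht)
    rw [DivVal.ord_inv] at hy
    rcases h y with h1 | h1
    · exact ht (h1 ▸ isAlgebraic_zero)
    · omega

theorem infinite (hDEG : Stmt_DEG) (hF : IsCurve F) (P : Finset (DivVal 1 F)) : ∃ y, y ∉ P := by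
  classical
  by_contra hno
  push Not at hno
  obtain ⟨s, hs⟩ := hF.1
  have h1 : ∀ c : ℂ, ∃ y : DivVal 1 F, 0 < y.ord (s - algebraMap ℂ F c) := fun c =>
    exists_zero hDEG hF (trans_sub hs c)
  choose g hg using h1
  have hinj : Function.Injective g := by
    intro c c' hcc
    by_contra hne
    have h2 := hg c
    have h3 := hg c'
    rw [← hcc] at h3
    have h4 : (g c).Ge 1 (algebraMap ℂ F (c' - c)) := by
      have h5 : (g c).Ge 1 (s - algebraMap ℂ F c) := Or.inr (by omega)
      have h6 : (g c).Ge 1 (s - algebraMap ℂ F c') := Or.inr (by omega)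
      have h7 := h5.sub h6
      have h8 : s - algebraMap ℂ F c - (s - algebraMap ℂ F c') = algebraMap ℂ F (c' - c) := by
        rw [map_sub]
        ring
      rwa [h8] at h7
    rcases h4 with h5 | h5
    · rw [map_eq_zero] at h5
      exact hne (sub_eq_zero.1 h5).symm
    · rw [DivVal.ord_const] at h5
      omega
  have hfin : (Set.range g).Finite := P.finite_toSet.subset fun y _ => hno y
  exact Set.infinite_range_of_injective hinj hfin

end PRF

/-- PRF: the product formula; functions without poles are constant; there are infinitely many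
places. -/
theorem t_PRF (hDEG : Stmt_DEG) : Stmt_PRF := by
  intro F _ _ hF
  exact ⟨fun f hf => PRF.product hDEG hF hf, fun f h => PRF.noPoles hDEG hF h,
    fun P => PRF.infinite hDEG hF P⟩

end

end MldGeo
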