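import Pool.Agent.MldGeo.Stmts1

/-!
# HT1: a valuation with centre `P` such that the residue field of `P` has transcendence degree
`n - 1` is the order along a prime divisor
-/

namespace MldGeo

namespace HT1

open MvPolynomial

/-- The elements `y i` are algebraically independent modulo the ideal. -/
def IndMod {A ι : Type} [CommRing A] [Algebra ℂ A] (P : Ideal A) (y : ι → A) : Prop :=
  ∀ p : MvPolynomial ι ℂ, p ≠ 0 → aeval y p ∉ P

/-- A polynomial with coefficients which are not in `P` unless they are zero does not vanish at `a ∈ P`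
modulo `Q`. -/
theorem eval_notMem {A B : Type} [CommRing A] [CommRing B] (φ : B →+* A) (P Q : Ideal A)
    (hQ : Q.IsPrime) (hQP : Q ≤ P) (hφ : ∀ b : B, b ≠ 0 → φ b ∉ P) (a : A) (haP : a ∈ P)
    (haQ : a ∉ Q) :
    ∀ (k : ℕ) (f : Polynomial B), f.natDegree ≤ k → f ≠ 0 → Polynomial.eval₂ φ a f ∉ Q := by
  intro k
  induction k with
  | zero =>
    intro f hf hf0 hmem
    obtain ⟨c, rfl⟩ : ∃ c, f = Polynomial.C c := ⟨_, Polynomial.eq_C_of_natDegree_le_zero hf⟩
    rw [Polynomial.eval₂_C] at hmem
    exact hφ c (fun h => hf0 (by rw [h, Polynomial.C_0])) (hQP hmem)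
  | succ k ih =>
    intro f hf hf0 hmem
    have hdec : Polynomial.eval₂ φ a f = Polynomial.eval₂ φ a f.divX * a + φ (f.coeff 0) := by
      conv_lhs => rw [← Polynomial.divX_mul_X_add f]
      rw [Polynomial.eval₂_add, Polynomial.eval₂_mul_X, Polynomial.eval₂_C]
    by_cases hc : f.coeff 0 = 0
    · have hd : f.divX ≠ 0 := by
        intro h
        apply hf0
        rw [← Polynomial.divX_mul_X_add f, h, hc]
        simp
      have hdeg : f.divX.natDegree ≤ k := by
        rw [Polynomial.natDegree_divX_eq_natDegree_tsub_one]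
        omega
      have h1 := ih f.divX hdeg hd
      rw [hdec, hc, map_zero, add_zero] at hmem
      rcases hQ.mem_or_mem hmem with h | h
      · exact h1 h
      · exact haQ h
    · rw [hdec] at hmem
      have h2 : φ (f.coeff 0) ∈ P := by
        have h3 : Polynomial.eval₂ φ a f.divX * a ∈ P := Ideal.mul_mem_left _ _ haP
        have h4 := P.sub_mem (hQP hmem) h3
        simpa using h4
      exact hφ _ hc h2

theorem aeval_option {A ι : Type} [CommRing A] [Algebra ℂ A] (y : ι → A) (a : A)
    (p : MvPolynomial (Option ι) ℂ) :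
    aeval (fun o : Option ι => o.elim a y) p =
      Polynomial.eval₂ (aeval y : MvPolynomial ι ℂ →ₐ[ℂ] A).toRingHom a
        (optionEquivLeft ℂ ι p) := by
  induction p using MvPolynomial.induction_on with
  | C r =>
    rw [optionEquivLeft_C, Polynomial.eval₂_C, aeval_C]
    simp
  | add p q hp hq =>
    rw [map_add, map_add, Polynomial.eval₂_add, hp, hq]
  | mul_X p i hp =>
    rw [map_mul, map_mul, Polynomial.eval₂_mul, hp, aeval_X]
    congr 1
    cases i with
    | none => simp
    | some i => simp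

/-- Adding an element of `P` which is not in `Q`. -/
theorem indMod_option {A ι : Type} [CommRing A] [Algebra ℂ A] (P Q : Ideal A) (hQ : Q.IsPrime)
    (hQP : Q ≤ P) (y : ι → A) (hy : IndMod P y) (a : A) (haP : a ∈ P) (haQ : a ∉ Q) :
    IndMod Q (fun o : Option ι => o.elim a y) := by
  intro p hp hmem
  rw [aeval_option] at hmem
  refine eval_notMem (aeval y : MvPolynomial ι ℂ →ₐ[ℂ] A).toRingHom P Q hQ hQP ?_ a haP haQ _
    (optionEquivLeft ℂ ι p) le_rfl ?_ hmem
  · intro b hb
    exact hy b hb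
  · intro h
    exact hp ((map_eq_zero_iff _ (optionEquivLeft ℂ ι).injective).mp h)

/-- The centre of the valuation. -/
def centre {n : ℕ} (X : Germ n) (v : DivVal n X.K) (h0 : ∀ a : X.R, 0 ≤ v.ord a) : Ideal X.R where
  carrier := {a | a = 0 ∨ 0 < v.ord a}
  zero_mem' := Or.inl rfl
  add_mem' := by
    intro a b ha hb
    rcases ha with rfl | ha
    · simpa using hb
    rcases hb with rfl | hb
    · simpa using Or.inr ha
    by_cases hab : a + b = 0
    · exact Or.inl hab
    right
    have ha0 : (a : X.K) ≠ 0 := by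
      intro h
      rw [h, v.ord_zero] at ha
      exact lt_irrefl _ ha
    have hb0 : (b : X.K) ≠ 0 := by
      intro h
      rw [h, v.ord_zero] at hb
      exact lt_irrefl _ hb
    have h1 := v.ord_add a b ha0 hb0 (by exact_mod_cast hab)
    have h2 : 0 < min (v.ord (a : X.K)) (v.ord (b : X.K)) := lt_min ha hb
    have h3 : ((a + b : X.R) : X.K) = (a : X.K) + (b : X.K) := rfl
    rw [h3]
    exact lt_of_lt_of_le h2 h1
  smul_mem' := by
    intro c a ha
    rcases ha with rfl | ha
    · left; simp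
    by_cases hc : c = 0
    · left; simp [hc]
    right
    have ha0 : (a : X.K) ≠ 0 := by
      intro h
      rw [h, v.ord_zero] at ha
      exact lt_irrefl _ ha
    have hc0 : (c : X.K) ≠ 0 := by exact_mod_cast hc
    have h3 : ((c • a : X.R) : X.K) = (c : X.K) * (a : X.K) := rfl
    rw [h3, v.ord_mul _ _ hc0 ha0]
    have := h0 c
    omega

theorem mem_centre {n : ℕ} (X : Germ n) (v : DivVal n X.K) (h0 : ∀ a : X.R, 0 ≤ v.ord a)
    (a : X.R) : a ∈ centre X v h0 ↔ a = 0 ∨ 0 < v.ord a := Iff.rfl

theorem centre_prime {n : ℕ} (X : Germ n) (v : DivVal n X.K) (h0 : ∀ a : X.R, 0 ≤ v.ord a) :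
    (centre X v h0).IsPrime := by
  constructor
  · intro h
    have h1 : (1 : X.R) ∈ centre X v h0 := by rw [h]; trivial
    rcases h1 with h1 | h1
    · exact one_ne_zero h1
    · have h2 := v.ord_const 1
      rw [map_one] at h2
      have h3 : ((1 : X.R) : X.K) = 1 := rfl
      rw [h3, h2] at h1
      exact lt_irrefl _ h1
  · intro a b hab
    by_cases ha : a = 0
    · exact Or.inl (Or.inl ha)
    by_cases hb : b = 0
    · exact Or.inr (Or.inl hb)
    have ha0 : (a : X.K) ≠ 0 := by exact_mod_cast ha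
    have hb0 : (b : X.K) ≠ 0 := by exact_mod_cast hb
    rcases hab with h | h
    · exact absurd h (mul_ne_zero ha hb)
    have h3 : ((a * b : X.R) : X.K) = (a : X.K) * (b : X.K) := rfl
    rw [h3, v.ord_mul _ _ ha0 hb0] at h
    have h1 := h0 a
    have h2 := h0 b
    by_cases h4 : 0 < v.ord (a : X.K)
    · exact Or.inl (Or.inr h4)
    · exact Or.inr (Or.inr (by omega))

theorem centre_ne_bot {n : ℕ} (X : Germ n) (v : DivVal n X.K) (h0 : ∀ a : X.R, 0 ≤ v.ord a) :
    centre X v h0 ≠ ⊥ := by
  obtain ⟨t, ht0, ht⟩ := v.unif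
  obtain ⟨r, hr, s, hs, hs0, hrs⟩ := X.frac t
  intro h
  have hr0 : r ≠ 0 := by
    rw [← hrs]
    exact mul_ne_zero ht0 hs0
  have h1 : v.ord r = 1 + v.ord s := by
    rw [← hrs, v.ord_mul _ _ ht0 hs0, ht]
  have h2 := h0 ⟨s, hs⟩
  have h3 : (⟨r, hr⟩ : X.R) ∈ centre X v h0 := by
    right
    show 0 < v.ord r
    have h4 : 0 ≤ v.ord s := h2
    omega
  rw [h] at h3
  have h5 : (⟨r, hr⟩ : X.R) = 0 := h3
  exact hr0 (congrArg Subtype.val h5)

theorem card_le {n : ℕ} (X : Germ n) {ι : Type} (y : ι → X.R) (hy : IndMod (⊥ : Ideal X.R) y) :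
    Cardinal.mk ι ≤ (n : Cardinal) := by
  have h1 : AlgebraicIndependent ℂ (fun i => ((y i : X.R) : X.K)) := by
    rw [algebraicIndependent_iff]
    intro p hp
    by_contra hp0
    apply hy p hp0
    have h2 : aeval (fun i => ((y i : X.R) : X.K)) p = ((aeval y p : X.R) : X.K) := by
      exact (MvPolynomial.comp_aeval_apply y X.R.val p).symm
    rw [h2] at hp
    have h3 : aeval y p = 0 := by exact_mod_cast hp
    rw [h3]
    exact Ideal.zero_mem _
  have h2 := h1.cardinalMk_le_trdeg
  rwa [X.trdeg] at h2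

end HT1

theorem t_HT1 : Stmt_HT1 := by
  intro n X v hn h0 hu
  obtain ⟨u, hu⟩ := hu
  have hP := HT1.centre_prime X v h0
  refine ⟨HT1.centre X v h0, hP, ?_, h0, HT1.mem_centre X v h0⟩
  have hy : HT1.IndMod (HT1.centre X v h0) u := by
    intro p hp hmem
    obtain ⟨h1, h2⟩ := hu p hp
    rcases hmem with h | h
    · exact h1 h
    · omega
  apply le_antisymm
  · have h1 : (HT1.centre X v h0).height ≤ ((1 : ℕ) : ℕ∞) := by
      rw [Ideal.height_le_iff]
      intro Q hQ hQP
      have hQbot : Q = ⊥ := by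
        by_contra hQ0
        obtain ⟨a, haP, haQ⟩ := SetLike.exists_of_lt hQP
        obtain ⟨b, hbQ, hb0⟩ := Submodule.exists_mem_ne_zero_of_ne_bot hQ0
        have h2 := HT1.indMod_option _ Q hQ hQP.le u hy a haP haQ
        have h3 := HT1.indMod_option Q ⊥ (Ideal.isPrime_bot) bot_le _ h2 b hbQ
          (by simpa using hb0)
        have h4 := HT1.card_le X _ h3
        simp only [Cardinal.mk_option, Cardinal.mk_fin] at h4
        have h5 : ((n - 1 + 1 + 1 : ℕ) : Cardinal) ≤ (n : Cardinal) := by push_cast; exact h4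
        have h6 : n - 1 + 1 + 1 ≤ n := by exact_mod_cast h5
        omega
      rw [hQbot, Ideal.height_bot]
      exact_mod_cast Nat.one_pos
    simpa using h1
  · rw [Order.one_le_iff_ne_zero]
    intro h
    rw [Ideal.height_eq_zero_iff_eq_bot] at h
    exact HT1.centre_ne_bot X v h0 h

end MldGeo
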