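import Pool.Agent.MldGeo.Stmts6

/-!
# The number of zeros of a function on a curve
-/

namespace MldGeo

namespace DEG

open IsDedekindDomain (HeightOneSpectrum)

noncomputable section

/-! ### the place of a prime ideal -/

section place

variable {F : Type} [Field F] [Algebra ℂ F] {S : Type} [CommRing S] [IsDedekindDomain S]
  [Algebra ℂ S] [Algebra S F] [IsScalarTower ℂ S F] [IsFractionRing S F]

theorem val_const (v : HeightOneSpectrum S) {c : ℂ} (hc : c ≠ 0) :
    v.valuation F (algebraMap ℂ F c) = 1 := by
  have h : ∀ c : ℂ, v.valuation F (algebraMap ℂ F c) ≤ 1 := by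
    intro c
    rw [IsScalarTower.algebraMap_apply ℂ S F]
    exact v.valuation_le_one _
  have h1 : v.valuation F (algebraMap ℂ F c) * v.valuation F (algebraMap ℂ F c⁻¹) = 1 := by
    rw [← map_mul, ← map_mul, mul_inv_cancel₀ hc, map_one, map_one]
  refine le_antisymm (h c) ?_
  calc (1 : WithZero (Multiplicative ℤ))
      = v.valuation F (algebraMap ℂ F c) * v.valuation F (algebraMap ℂ F c⁻¹) := h1.symm
    _ ≤ v.valuation F (algebraMap ℂ F c) * 1 := by gcongr; exact h _
    _ = _ := mul_one _

/-- the place of a prime ideal -/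
def place (v : HeightOneSpectrum S) : DivVal 1 F where
  ord a := - WithZero.log (v.valuation F a)
  ord_zero := by simp
  ord_mul a b ha hb := by
    rw [map_mul, WithZero.log_mul (by simpa using ha) (by simpa using hb)]
    ring
  ord_add a b ha hb hab := by
    have ha' : v.valuation F a ≠ 0 := by simpa using ha
    have hb' : v.valuation F b ≠ 0 := by simpa using hb
    have hab' : v.valuation F (a + b) ≠ 0 := by simpa using hab
    rcases (v.valuation F).map_add' a b with h | h
    · have := (WithZero.log_le_log hab' ha').2 h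
      exact (min_le_left _ _).trans (neg_le_neg this)
    · have := (WithZero.log_le_log hab' hb').2 h
      exact (min_le_right _ _).trans (neg_le_neg this)
  ord_const c := by
    by_cases hc : c = 0
    · simp [hc]
    · rw [val_const v hc]
      simp
  unif := by
    obtain ⟨π, hπ⟩ := v.valuation_exists_uniformizer F
    refine ⟨π, ?_, ?_⟩
    · intro h
      rw [h, map_zero] at hπ
      exact WithZero.exp_ne_zero hπ.symm
    · rw [hπ]
      simp
  res := by
    refine ⟨Fin.elim0, fun p hp => ?_⟩
    have : IsEmpty (Fin (1 - 1)) := inferInstanceAs (IsEmpty (Fin 0))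
    obtain ⟨c, rfl⟩ := MvPolynomial.C_surjective (Fin (1 - 1)) p
    have hc : c ≠ 0 := fun h => hp (by rw [h, map_zero])
    rw [MvPolynomial.aeval_C]
    refine ⟨by simpa using hc, ?_⟩
    rw [val_const v hc]
    simp

theorem place_ord (v : HeightOneSpectrum S) (a : F) :
    (place v : DivVal 1 F).ord a = - WithZero.log (v.valuation F a) := rfl

theorem val_le_one_of_ge (v : HeightOneSpectrum S) {a : F} (h : (place v : DivVal 1 F).Ge 0 a) :
    v.valuation F a ≤ 1 := by
  rcases h with rfl | h
  · simp
  · by_cases ha : a = 0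
    · simp [ha]
    have ha' : v.valuation F a ≠ 0 := by simpa using ha
    rw [place_ord] at h
    rw [← WithZero.log_le_log ha' one_ne_zero, WithZero.log_one]
    omega

theorem ext {y y' : DivVal 1 F} (h : ∀ a, y.ord a = y'.ord a) : y = y' := by
  have : y.ord = y'.ord := funext h
  cases y
  cases y'
  cases this
  rfl

/-- the place with given centre -/
theorem place_eq (v : HeightOneSpectrum S) (y : DivVal 1 F)
    (h1 : ∀ r : S, y.Ge 0 (algebraMap S F r))
    (h2 : ∀ r : S, r ∉ v.asIdeal → y.ord (algebraMap S F r) = 0) : place v = y := by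
  refine ext fun a => DivVal.ord_eq_of_OV (place v) (w := y) ?_ a
  intro b hb
  obtain ⟨r, ⟨d, hd⟩, h⟩ := v.exists_primeCompl_mul_eq_of_integer (K := F) b (val_le_one_of_ge v hb)
  have hd' : d ∉ v.asIdeal := hd
  have hd0 : algebraMap S F d ≠ 0 := by
    intro h0
    apply hd'
    rw [(IsFractionRing.injective S F) (h0.trans (map_zero _).symm)]
    exact v.asIdeal.zero_mem
  have hb' : b = algebraMap S F r / algebraMap S F d := by
    rw [eq_div_iff hd0]
    exact h
  rw [hb']
  have := (h1 r).div (algebraMap S F d)
  rwa [h2 d hd', sub_zero] at this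

/-- the order at the place is the exponent of the prime -/
theorem ord_ge_iff (v : HeightOneSpectrum S) {r : S} (hr : r ≠ 0) (n : ℕ) :
    (n : ℤ) ≤ (place v : DivVal 1 F).ord (algebraMap S F r) ↔ r ∈ v.asIdeal ^ n := by
  rw [← v.intValuation_le_pow_iff_mem, place_ord, v.valuation_of_algebraMap,
    ← WithZero.log_le_iff_le_exp (v.intValuation_ne_zero r hr)]
  omega

theorem ge0 (v : HeightOneSpectrum S) (r : S) :
    (place v : DivVal 1 F).Ge 0 (algebraMap S F r) := by
  by_cases hr : r = 0
  · exact Or.inl (by rw [hr, map_zero])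
  · refine Or.inr ?_
    have := (ord_ge_iff (F := F) v hr 0).2 (by simp)
    exact_mod_cast this

end place

/-! ### the sum over the primes -/

section main

variable {A S E F : Type} [CommRing A] [CommRing S] [Field E] [Field F] [Algebra ℂ F]
  [Algebra ℂ A] [Algebra ℂ S] [Algebra A S] [Algebra A E] [Algebra A F] [Algebra S F] [Algebra E F]
  [IsScalarTower A S F] [IsScalarTower A E F] [IsScalarTower ℂ S F]
  [IsDedekindDomain A] [IsDedekindDomain S] [IsFractionRing A E] [IsFractionRing S F]
  [Module.Finite A S]

omit [Algebra ℂ S] [IsDedekindDomain A] [IsDedekindDomain S] in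
theorem inertia (p : Ideal A) [p.IsMaximal]
    (hres : Function.Surjective (algebraMap ℂ (A ⧸ p))) (P : Ideal S) [P.IsPrime] [P.LiesOver p] :
    p.inertiaDeg' P = 1 := by
  rw [Ideal.inertiaDeg'_algebraMap]
  let : Field (A ⧸ p) := Ideal.Quotient.field p
  have : IsAlgClosed (A ⧸ p) := by
    refine IsAlgClosed.of_ringEquiv ℂ (A ⧸ p) (RingEquiv.ofBijective (algebraMap ℂ (A ⧸ p)) ⟨?_, hres⟩)
    exact (algebraMap ℂ (A ⧸ p)).injective
  have hb := IsAlgClosed.algebraMap_bijective_of_isIntegral (k := A ⧸ p) (K := S ⧸ P)
  have := (AlgEquiv.ofBijective (Algebra.ofId (A ⧸ p) (S ⧸ P)) hb).toLinearEquiv.finrank_eq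
  rw [← this, Module.finrank_self]

end main

/-- valuation rings are integrally closed -/
theorem ge_of_integral {A F : Type} [CommRing A] [Field F] [Algebra ℂ F] [Algebra A F]
    (y : DivVal 1 F) (hA : ∀ b : A, y.Ge 0 (algebraMap A F b)) {x : F} (hx : IsIntegral A x) :
    y.Ge 0 x := by
  have h1 : IsIntegral y.OV x := by
    obtain ⟨p, hp, hpx⟩ := hx
    let f : A →+* y.OV := (algebraMap A F).codRestrict y.OV.toSubring fun b => hA b
    refine ⟨p.map f, hp.map f, ?_⟩
    rw [Polynomial.eval₂_map]
    exact hpx
  obtain ⟨z, hz⟩ := (IsIntegrallyClosed.isIntegral_iff (R := y.OV) (K := F)).1 h1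
  rw [← hz]
  exact z.2

theorem main {A E F : Type} (S : Type) [CommRing A] [CommRing S] [Field E] [Field F] [Algebra ℂ F]
    [Algebra ℂ A] [Algebra ℂ S] [Algebra A S] [Algebra A E] [Algebra A F] [Algebra S F]
    [Algebra E F] [IsScalarTower A S F] [IsScalarTower A E F] [IsScalarTower ℂ S F]
    [IsDedekindDomain A] [IsDedekindDomain S] [IsFractionRing A E] [IsFractionRing S F]
    [Module.Finite A S] (a : A) (ha : a ≠ 0) (hmax : (Ideal.span {a} : Ideal A).IsMaximal)
    (hres : Function.Surjective (algebraMap ℂ (A ⧸ (Ideal.span {a} : Ideal A))))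
    (hA : ∀ y : DivVal 1 F, 0 < y.ord (algebraMap A F a) → ∀ b : A, y.Ge 0 (algebraMap A F b)) :
    ∃ P : Finset (DivVal 1 F), (∀ y, y ∈ P ↔ 0 < y.ord (algebraMap A F a)) ∧
      ∑ y ∈ P, y.ord (algebraMap A F a) = (Module.finrank E F : ℤ) := by
  classical
  set p : Ideal A := Ideal.span {a} with hp
  have := hmax
  have hp0 : p ≠ ⊥ := by
    rw [hp, Ne, Ideal.span_singleton_eq_bot]
    exact ha
  have hinj : Function.Injective (algebraMap A F) := by
    rw [IsScalarTower.algebraMap_eq A E F]
    exact (algebraMap E F).injective.comp (IsFractionRing.injective A E)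
  have hinj' : Function.Injective (algebraMap A S) := by
    intro x y h
    apply hinj
    rw [IsScalarTower.algebraMap_apply A S F, IsScalarTower.algebraMap_apply A S F, h]
  have has : algebraMap A S a ≠ 0 := by
    rw [Ne, map_eq_zero_iff _ hinj']
    exact ha
  have hsum := Ideal.sum_ramification_inertia S E F (p := p) hp0
  have hmap : p.map (algebraMap A S) = Ideal.span {algebraMap A S a} := by
    rw [hp, Ideal.map_span, Set.image_singleton]
  have htf : Module.IsTorsionFree A S := Module.isTorsionFree_iff_algebraMap_injective.2 hinj'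
  -- the primes
  have hprime : ∀ P ∈ IsDedekindDomain.primesOverFinset p S, P.IsPrime ∧ P.LiesOver p := fun P hP =>
    (IsDedekindDomain.mem_primesOverFinset_iff hp0 _).1 hP
  have hmem : ∀ P ∈ IsDedekindDomain.primesOverFinset p S, algebraMap A S a ∈ P := by
    intro P hP
    have := (hprime P hP).1
    have := (hprime P hP).2
    have h1 : a ∈ p := Ideal.mem_span_singleton_self a
    rw [Ideal.over_def P p] at h1
    exact h1
  let V : {P // P ∈ IsDedekindDomain.primesOverFinset p S} → HeightOneSpectrum S := fun P =>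
    ⟨P.1, (hprime P.1 P.2).1, fun h => has (by
      have := hmem P.1 P.2
      rw [h] at this
      exact this)⟩
  have hV : ∀ P, (V P).asIdeal = P.1 := fun P => rfl
  have hram : ∀ P : {P // P ∈ IsDedekindDomain.primesOverFinset p S},
      (place (V P) : DivVal 1 F).ord (algebraMap A F a) = (p.ramificationIdx' P.1 : ℤ) := by
    intro P
    have h0 : 0 ≤ (place (V P) : DivVal 1 F).ord (algebraMap A F a) := by
      rw [IsScalarTower.algebraMap_apply A S F]
      exact (ge0 (V P) _).le (by
        rw [Ne, map_eq_zero_iff _ (IsFractionRing.injective S F)]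
        exact has)
    obtain ⟨n, hn⟩ := Int.eq_ofNat_of_zero_le h0
    rw [hn]
    congr 1
    symm
    have key : ∀ k : ℕ, (p.map (algebraMap A S) ≤ P.1 ^ k ↔ k ≤ n) := by
      intro k
      rw [hmap, Ideal.span_singleton_le_iff_mem, ← hV P,
        ← ord_ge_iff (F := F) (V P) has k, ← IsScalarTower.algebraMap_apply A S F, hn]
      exact Nat.cast_le
    refine Ideal.ramificationIdx'_spec ?_ ?_
    · exact (key n).2 le_rfl
    · rw [key (n + 1)]
      omega
  have hpos : ∀ P : {P // P ∈ IsDedekindDomain.primesOverFinset p S},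
      0 < (place (V P) : DivVal 1 F).ord (algebraMap A F a) := by
    intro P
    have h1 := (ord_ge_iff (F := F) (V P) has 1).2 (by
      rw [pow_one, hV]
      exact hmem P.1 P.2)
    rw [← IsScalarTower.algebraMap_apply A S F] at h1
    push_cast at h1
    omega
  have hVinj : ∀ P Q : {P // P ∈ IsDedekindDomain.primesOverFinset p S},
      (place (V P) : DivVal 1 F) = place (V Q) → P = Q := by
    intro P Q h
    apply Subtype.ext
    rw [← hV P, ← hV Q]
    ext r
    by_cases hr : r = 0
    · rw [hr]
      simp
    · have h1 := ord_ge_iff (F := F) (V P) hr 1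
      have h2 := ord_ge_iff (F := F) (V Q) hr 1
      rw [pow_one] at h1 h2
      rw [← h1, ← h2, h]
  refine ⟨Finset.univ.image fun P => place (V P), ?_, ?_⟩
  · intro y
    rw [Finset.mem_image]
    constructor
    · rintro ⟨P, -, rfl⟩
      exact hpos P
    · intro hy
      -- S is contained in the valuation ring
      have hS : ∀ r : S, y.Ge 0 (algebraMap S F r) := by
        intro r
        have hint : IsIntegral A (algebraMap S F r) :=
          (Algebra.IsIntegral.isIntegral (R := A) r).algebraMap
        exact ge_of_integral y (hA y hy) hint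
      let P : Ideal S :=
        { carrier := {r | y.Ge 1 (algebraMap S F r)}
          add_mem' := by
            intro b c hb hc
            change y.Ge 1 (algebraMap S F (b + c))
            rw [map_add]
            exact DivVal.Ge.add hb hc
          zero_mem' := by
            change y.Ge 1 (algebraMap S F 0)
            rw [map_zero]
            exact DivVal.Ge.zero y 1
          smul_mem' := by
            intro c b hb
            change y.Ge 1 (algebraMap S F (c * b))
            rw [map_mul]
            exact (hS c).mul_left hb }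
      have hPmem : ∀ r, r ∈ P ↔ y.Ge 1 (algebraMap S F r) := fun r => Iff.rfl
      have hPprime : P.IsPrime := by
        refine ⟨?_, ?_⟩
        · rw [Ne, Ideal.eq_top_iff_one, hPmem, map_one]
          intro h
          have := h.le one_ne_zero
          rw [DivVal.ord_one] at this
          omega
        · intro b c hbc
          rw [hPmem] at hbc ⊢
          rw [hPmem]
          by_cases hb : algebraMap S F b = 0
          · exact Or.inl (Or.inl hb)
          by_cases hc : algebraMap S F c = 0
          · exact Or.inr (Or.inl hc)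
          rw [map_mul] at hbc
          have h1 := hbc.le (mul_ne_zero hb hc)
          rw [y.ord_mul _ _ hb hc] at h1
          have h2 := (hS b).le hb
          have h3 := (hS c).le hc
          by_cases h4 : 1 ≤ y.ord (algebraMap S F b)
          · exact Or.inl (Or.inr h4)
          · exact Or.inr (Or.inr (by omega))
      have hover : P.LiesOver p := by
        refine ⟨?_⟩
        refine hmax.eq_of_le ?_ ?_
        · exact (Ideal.IsPrime.comap (algebraMap A S)).ne_top
        · rw [hp, Ideal.span_singleton_le_iff_mem]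
          change y.Ge 1 (algebraMap S F (algebraMap A S a))
          rw [← IsScalarTower.algebraMap_apply A S F]
          exact Or.inr (by omega)
      have hPin : P ∈ IsDedekindDomain.primesOverFinset p S := (IsDedekindDomain.mem_primesOverFinset_iff hp0 _).2 ⟨hPprime, hover⟩
      refine ⟨⟨P, hPin⟩, Finset.mem_univ _, ?_⟩
      refine place_eq (V ⟨P, hPin⟩) y hS ?_
      intro r hr
      have hr' : ¬ y.Ge 1 (algebraMap S F r) := hr
      have h0 : algebraMap S F r ≠ 0 := fun h => hr' (Or.inl h)
      have h1 := (hS r).le h0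
      have h2 : ¬ 1 ≤ y.ord (algebraMap S F r) := fun h => hr' (Or.inr h)
      omega
  · rw [Finset.sum_image (fun P _ Q _ h => hVinj P Q h)]
    rw [← hsum]
    push_cast
    rw [← Finset.sum_coe_sort (IsDedekindDomain.primesOverFinset p S)]
    refine Finset.sum_congr rfl fun P _ => ?_
    have := (hprime P.1 P.2).1
    have := (hprime P.1 P.2).2
    rw [hram P, inertia p hres P.1, Nat.cast_one, mul_one]

open Polynomial IntermediateField.algebraAdjoinAdjoin in
theorem deg_main {F : Type} [Field F] [Algebra ℂ F] (s : F) (hs : Transcendental ℂ s)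
    (hfin : FiniteDimensional (IntermediateField.adjoin ℂ {s}) F) :
    ∃ P : Finset (DivVal 1 F), (∀ y, y ∈ P ↔ 0 < y.ord s) ∧
      ∑ y ∈ P, y.ord s = (Module.finrank (IntermediateField.adjoin ℂ {s}) F : ℤ) := by
  let e : ℂ[X] ≃ₐ[ℂ] Algebra.adjoin ℂ {s} := Polynomial.algEquivOfTranscendental ℂ s hs
  have hA1 : IsPrincipalIdealRing (Algebra.adjoin ℂ {s}) :=
    IsPrincipalIdealRing.of_surjective (e : ℂ[X] →+* Algebra.adjoin ℂ {s}) e.surjective
  have hS1 : IsDedekindDomain (integralClosure (Algebra.adjoin ℂ {s}) F) :=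
    integralClosure.isDedekindDomain (Algebra.adjoin ℂ {s}) (IntermediateField.adjoin ℂ {s}) F
  have hS2 : IsFractionRing (integralClosure (Algebra.adjoin ℂ {s}) F) F :=
    integralClosure.isFractionRing_of_finite_extension (IntermediateField.adjoin ℂ {s}) F
  have hS3 : Module.Finite (Algebra.adjoin ℂ {s}) (integralClosure (Algebra.adjoin ℂ {s}) F) :=
    IsIntegralClosure.finite (Algebra.adjoin ℂ {s}) (IntermediateField.adjoin ℂ {s}) F _
  have he : e X = ⟨s, Algebra.self_mem_adjoin_singleton ℂ s⟩ := by
    exact Polynomial.algEquivOfTranscendental_apply_X ℂ s hs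
  have hirr : Irreducible (⟨s, Algebra.self_mem_adjoin_singleton ℂ s⟩ : Algebra.adjoin ℂ {s}) := by
    rw [← he]
    exact (MulEquiv.irreducible_iff e).2 Polynomial.irreducible_X
  have hs0 : (⟨s, Algebra.self_mem_adjoin_singleton ℂ s⟩ : Algebra.adjoin ℂ {s}) ≠ 0 :=
    hirr.ne_zero
  refine main (E := IntermediateField.adjoin ℂ {s}) (integralClosure (Algebra.adjoin ℂ {s}) F)
    (⟨s, Algebra.self_mem_adjoin_singleton ℂ s⟩ : Algebra.adjoin ℂ {s}) hs0
    (PrincipalIdealRing.isMaximal_of_irreducible hirr) ?_ ?_
  · intro q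
    obtain ⟨b, rfl⟩ := Ideal.Quotient.mk_surjective q
    obtain ⟨f, rfl⟩ := e.surjective b
    refine ⟨f.coeff 0, ?_⟩
    symm
    rw [IsScalarTower.algebraMap_apply ℂ (Algebra.adjoin ℂ {s})]
    rw [Ideal.Quotient.algebraMap_eq, Ideal.Quotient.eq, Ideal.mem_span_singleton, ← he]
    have h1 : algebraMap ℂ (Algebra.adjoin ℂ {s}) (f.coeff 0) = e (C (f.coeff 0)) := by
      rw [← Polynomial.algebraMap_eq, e.commutes]
    rw [h1, ← map_sub]
    refine map_dvd e ?_
    rw [Polynomial.X_dvd_iff]
    simp
  · intro y hy b
    obtain ⟨f, rfl⟩ := e.surjective b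
    have h1 : algebraMap (Algebra.adjoin ℂ {s}) F (e f) = Polynomial.aeval s f := by
      change ((Polynomial.algEquivOfTranscendental ℂ s hs f : Algebra.adjoin ℂ {s}) : F) = _
      rw [Polynomial.algEquivOfTranscendental_apply]
      have := Polynomial.aeval_algHom_apply (Algebra.adjoin ℂ {s}).val
        ⟨s, Algebra.self_mem_adjoin_singleton ℂ s⟩ f
      exact this.symm
    rw [h1]
    exact DivVal.Ge.aeval1 (Or.inr (le_of_lt hy)) f

end

end DEG

theorem t_DEG : Stmt_DEG := by
  intro F _ _ hF s hs
  exact DEG.deg_main s hs (hF.2 s hs)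

end MldGeo
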