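import Pool.Agent.MldGap.Quot

/-!
# Ages and log ages of free actions
-/

namespace MldGeo

open Matrix Pool.Agent.Mld MldGap

/-- An eigenvalue `1` gives a fixed vector. -/
theorem exists_fix_of_eig {n : ℕ} {g : GL (Fin n) ℂ} (h : (1 : ℂ) ∈ eig g) :
    ∃ v : Fin n → ℂ, v ≠ 0 ∧ (g : Matrix (Fin n) (Fin n) ℂ).mulVec v = v := by
  have h1 : (g : Matrix (Fin n) (Fin n) ℂ).charpoly.eval 1 = 0 := by
    have h2 := (Polynomial.mem_roots'.1 h).2
    exact h2
  rw [Matrix.eval_charpoly] at h1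
  obtain ⟨v, hv, hv0⟩ := Matrix.exists_mulVec_eq_zero_iff.2 h1
  refine ⟨v, hv, ?_⟩
  rw [Matrix.sub_mulVec, sub_eq_zero] at hv0
  rw [← hv0]
  simp

/-- For roots of unity `z ≠ 1`, `θ(z)` is the fractional part. -/
theorem th_eq_fr_of_ne {z : ℂ} (hz : ‖z‖ = 1) (h1 : z ≠ 1) : th z = fr z := by
  rw [th_eq_fr, if_neg]
  intro h
  have h2 : th z = 1 := by rw [th_eq_fr, if_pos h]
  have h3 := exp_th hz
  rw [h2, mul_one] at h3
  apply h1
  rw [← h3]
  push_cast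
  exact Complex.exp_two_pi_mul_I

theorem card_eig {n : ℕ} (g : GL (Fin n) ℂ) : Multiset.card (eig g) = n := by
  have h := IsAlgClosed.splits (g : Matrix (Fin n) (Fin n) ℂ).charpoly
  have h2 : (g : Matrix (Fin n) (Fin n) ℂ).charpoly.roots.card =
      (g : Matrix (Fin n) (Fin n) ℂ).charpoly.natDegree := by
    exact (Polynomial.splits_iff_card_roots.1 h)
  have h3 := Matrix.charpoly_natDegree_eq_dim (g : Matrix (Fin n) (Fin n) ℂ)
  rw [Fintype.card_fin] at h3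
  unfold eig
  rw [h2, h3]

theorem exists_pow {n : ℕ} {G : Subgroup (GL (Fin n) ℂ)} [Finite G] {g : GL (Fin n) ℂ}
    (hg : g ∈ G) : ∃ m, 0 < m ∧ g ^ m = 1 := by
  obtain ⟨m, hm, h⟩ := (isOfFinOrder_of_finite (⟨g, hg⟩ : G)).exists_pow_eq_one
  exact ⟨m, hm, by simpa using congrArg Subtype.val h⟩

theorem logAge_eq_age {n : ℕ} {G : Subgroup (GL (Fin n) ℂ)} [Finite G] (hF : Free G)
    {g : GL (Fin n) ℂ} (hg : g ∈ G) (h1 : g ≠ 1) : logAge g = age g := by
  obtain ⟨m, hm, hgm⟩ := exists_pow hg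
  rw [logAge_eq]
  unfold age
  congr 1
  refine Multiset.map_congr rfl fun z hz => ?_
  refine th_eq_fr_of_ne (norm_eig hm hgm hz) ?_
  rintro rfl
  obtain ⟨v, hv, hgv⟩ := exists_fix_of_eig hz
  exact hv (hF g hg h1 v hgv)

theorem age_nonneg {n : ℕ} (g : GL (Fin n) ℂ) : 0 ≤ age g := by
  unfold age
  refine Multiset.sum_nonneg fun a ha => ?_
  obtain ⟨z, _, rfl⟩ := Multiset.mem_map.1 ha
  exact Int.fract_nonneg _

theorem age_le {n : ℕ} (g : GL (Fin n) ℂ) : age g ≤ n := by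
  unfold age
  have h : ∀ x ∈ (eig g).map fr, x ≤ (1 : ℝ) := by
    intro x hx
    obtain ⟨z, _, rfl⟩ := Multiset.mem_map.1 hx
    exact (Int.fract_lt_one _).le
  have h2 := Multiset.sum_le_card_nsmul _ _ h
  rw [Multiset.card_map, card_eig, nsmul_eq_mul, mul_one] at h2
  exact h2

theorem logAge_one (n : ℕ) : logAge (1 : GL (Fin n) ℂ) = n := by
  rw [logAge_eq, eig_one', Multiset.map_replicate, th_one, Multiset.sum_replicate, nsmul_eq_mul,
    mul_one]

/-- The two descriptions of the minimal log discrepancy of an isolated quotient singularity. -/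
theorem mldQuot_eq_mld {n : ℕ} {G : Subgroup (GL (Fin n) ℂ)} (hG : IsoQuot G) :
    mldQuot G = mld G := by
  have hfin := hG.fin
  obtain ⟨g0, hg0, hg1⟩ : ∃ g ∈ G, g ≠ 1 := by
    by_contra hcon
    push Not at hcon
    exact hG.ne ((Subgroup.eq_bot_iff_forall _).2 hcon)
  have hne : {a : ℝ | ∃ g ∈ G, g ≠ 1 ∧ age g = a}.Nonempty := ⟨_, g0, hg0, hg1, rfl⟩
  have hbd : BddBelow {a : ℝ | ∃ g ∈ G, g ≠ 1 ∧ age g = a} := by
    refine ⟨0, ?_⟩
    rintro _ ⟨g, _, _, rfl⟩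
    exact age_nonneg g
  unfold mldQuot mld
  refine le_antisymm ?_ ?_
  · refine le_csInf hne ?_
    rintro _ ⟨g, hg, h1, rfl⟩
    refine csInf_le (quot_bddBelow G) ⟨g, hg, ?_⟩
    exact logAge_eq_age hG.free hg h1
  · refine le_csInf (quot_nonempty G) ?_
    rintro _ ⟨g, hg, rfl⟩
    by_cases h1 : g = 1
    · rw [h1, logAge_one]
      exact (csInf_le hbd ⟨g0, hg0, hg1, rfl⟩).trans (age_le g0)
    · rw [logAge_eq_age hG.free hg h1]
      exact csInf_le hbd ⟨g, hg, h1, rfl⟩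

end MldGeo
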