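import Pool.Agent.MldGeo.Stmts2

/-!
# Linear changes of coordinates
-/

namespace MldGeo

open MvPolynomial

noncomputable section

namespace CHG

theorem linSubst_X {n : ℕ} (g : GL (Fin n) ℂ) (i : Fin n) :
    linSubst g (X i) = ∑ j, C ((g : Matrix (Fin n) (Fin n) ℂ) i j) * X j := by
  simp [linSubst]

theorem linSubst_comp {n : ℕ} (g h : GL (Fin n) ℂ) (p : MvPolynomial (Fin n) ℂ) :
    linSubst g (linSubst h p) = linSubst (h * g) p := by
  have h1 : (linSubst g).comp (linSubst h) = linSubst (h * g) := by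
    apply MvPolynomial.algHom_ext
    intro i
    rw [AlgHom.comp_apply, linSubst_X, linSubst_X, map_sum]
    simp only [map_mul, linSubst_X]
    have h2 : ∀ j, linSubst g (C ((h : Matrix (Fin n) (Fin n) ℂ) i j)) =
        C ((h : Matrix (Fin n) (Fin n) ℂ) i j) := fun j => (linSubst g).commutes _
    simp only [h2, Finset.mul_sum, Units.val_mul, Matrix.mul_apply, map_sum, map_mul,
      Finset.sum_mul]
    rw [Finset.sum_comm]
    refine Finset.sum_congr rfl fun k _ => Finset.sum_congr rfl fun j _ => by ring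
  exact DFunLike.congr_fun h1 p

theorem linSubst_one {n : ℕ} (p : MvPolynomial (Fin n) ℂ) :
    linSubst (1 : GL (Fin n) ℂ) p = p := by
  have h1 : linSubst (1 : GL (Fin n) ℂ) = AlgHom.id ℂ _ := by
    apply MvPolynomial.algHom_ext
    intro i
    rw [linSubst_X, AlgHom.id_apply]
    simp [Matrix.one_apply]
  rw [h1, AlgHom.id_apply]

/-- The substitution as an automorphism of the polynomial ring. -/
def lequiv {n : ℕ} (P : GL (Fin n) ℂ) : MvPolynomial (Fin n) ℂ ≃ₐ[ℂ] MvPolynomial (Fin n) ℂ :=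
  AlgEquiv.ofAlgHom (linSubst P) (linSubst P⁻¹)
    (AlgHom.ext fun p => by
      rw [AlgHom.comp_apply, linSubst_comp, inv_mul_cancel, linSubst_one, AlgHom.id_apply])
    (AlgHom.ext fun p => by
      rw [AlgHom.comp_apply, linSubst_comp, mul_inv_cancel, linSubst_one, AlgHom.id_apply])

theorem exists_aut {n : ℕ} (P : GL (Fin n) ℂ) :
    ∃ σ : Rat n ≃ₐ[ℂ] Rat n, ∀ p, σ (pol p) = pol (linSubst P p) :=
  ⟨IsFractionRing.algEquivOfAlgEquiv (lequiv P), fun p =>
    IsFractionRing.algEquivOfAlgEquiv_algebraMap (lequiv P) p⟩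

theorem basis_X (n : ℕ) :
    IsTranscendenceBasis ℂ fun i : Fin n => pol (X i : MvPolynomial (Fin n) ℂ) := by
  have h : Algebra.IsAlgebraic (MvPolynomial (Fin n) ℂ) (Rat n) :=
    IsLocalization.isAlgebraic (Rat n) (nonZeroDivisors (MvPolynomial (Fin n) ℂ))
  exact (IsTranscendenceBasis.mvPolynomial (Fin n) ℂ).algebraMap_comp (A := Rat n)

theorem indep (n : ℕ) :
    AlgebraicIndependent ℂ fun i : Fin n => pol (X i : MvPolynomial (Fin n) ℂ) :=
  (basis_X n).1

theorem trd (n : ℕ) : Algebra.trdeg ℂ (Rat n) = (n : Cardinal) := by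
  rw [← (basis_X n).cardinalMk_eq_trdeg, Cardinal.mk_fin]

theorem const {n : ℕ} (P : GL (Fin n) ℂ) (p : MvPolynomial (Fin n) ℂ) :
    constantCoeff (linSubst P p) = constantCoeff p := by
  have h1 : (constantCoeff : MvPolynomial (Fin n) ℂ →+* ℂ).comp
      (linSubst P : MvPolynomial (Fin n) ℂ →+* MvPolynomial (Fin n) ℂ) = constantCoeff := by
    apply MvPolynomial.ringHom_ext
    · intro c
      have : linSubst P (C c) = C c := (linSubst P).commutes c
      simp [this]
    · intro i
      simp [linSubst_X]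
  exact DFunLike.congr_fun h1 p

theorem alt_eq {n : ℕ} {K M N : Type*} [Field K] [AddCommGroup M] [Module K M] [AddCommGroup N]
    [Module K N] (e : Module.Basis (Fin n) K M) (f : M [⋀^Fin n]→ₗ[K] N) (v : Fin n → M) :
    f v = e.det v • f e := by
  have h : f = (LinearMap.toSpanSingleton K N (f e)).compAlternatingMap e.det := by
    refine Module.Basis.ext_alternating e fun i hi => ?_
    let σ : Equiv.Perm (Fin n) := Equiv.ofBijective i (Finite.injective_iff_bijective.1 hi)
    change f (e ∘ σ) = (LinearMap.toSpanSingleton K N (f e)).compAlternatingMap e.det (e ∘ σ)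
    rw [AlternatingMap.map_perm, AlternatingMap.map_perm]
    simp [Module.Basis.det_self]
  calc f v = (LinearMap.toSpanSingleton K N (f e)).compAlternatingMap e.det v := by rw [← h]
    _ = e.det v • f e := by simp

theorem D_linSubst {n : ℕ} (P : GL (Fin n) ℂ) (i : Fin n) :
    KaehlerDifferential.D ℂ (Rat n) (pol (linSubst P (X i))) =
      ∑ j, algebraMap ℂ (Rat n) ((P : Matrix (Fin n) (Fin n) ℂ) i j) •
        KaehlerDifferential.D ℂ (Rat n) (pol (X j)) := by
  have h1 : pol (linSubst P (X i)) =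
      ∑ j, ((P : Matrix (Fin n) (Fin n) ℂ) i j) • pol (X j : MvPolynomial (Fin n) ℂ) := by
    rw [linSubst_X]
    unfold pol
    rw [map_sum]
    refine Finset.sum_congr rfl fun j _ => ?_
    rw [map_mul, Algebra.smul_def]
    rfl
  rw [h1, map_sum]
  refine Finset.sum_congr rfl fun j _ => ?_
  rw [Derivation.map_smul, algebraMap_smul]

end CHG

theorem t_CHG (h1 : Stmt_TBAS) : Stmt_CHG := by
  intro n P
  obtain ⟨σ, hσ⟩ := CHG.exists_aut P
  refine ⟨⟨σ, hσ⟩, ?_, CHG.const P, ?_⟩
  · have h2 : (fun i : Fin n => pol (linSubst P (X i))) =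
        (σ : Rat n →ₐ[ℂ] Rat n) ∘ fun i : Fin n => pol (X i : MvPolynomial (Fin n) ℂ) := by
      funext i
      exact (hσ (X i)).symm
    rw [h2]
    exact (CHG.indep n).map' σ.injective
  · obtain ⟨hli, hsp⟩ := h1 (CHG.trd n) _ (CHG.indep n)
    let b : Module.Basis (Fin n) (Rat n) (Ω[Rat n⁄ℂ]) := Module.Basis.mk hli hsp.ge
    have hb : ∀ i, b i = KaehlerDifferential.D ℂ (Rat n) (pol (X i)) := fun i => by
      simp [b, Module.Basis.mk_apply]
    have hb2 : (b : Fin n → Ω[Rat n⁄ℂ]) =
        fun i => KaehlerDifferential.D ℂ (Rat n) (pol (X i)) := funext hb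
    refine ⟨(P : Matrix (Fin n) (Fin n) ℂ).det, ?_, ?_⟩
    · exact ((Matrix.isUnit_iff_isUnit_det _).1 P.isUnit).ne_zero
    · unfold stdForm dforms
      rw [CHG.alt_eq b, hb2]
      congr 1
      rw [Module.Basis.det_apply]
      have h3 : b.toMatrix (fun i => KaehlerDifferential.D ℂ (Rat n) (pol (linSubst P (X i)))) =
          ((P : Matrix (Fin n) (Fin n) ℂ).map (algebraMap ℂ (Rat n))).transpose := by
        ext i j
        rw [Module.Basis.toMatrix_apply, CHG.D_linSubst]
        simp only [← hb]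
        rw [map_sum, Finsupp.finsetSum_apply]
        simp only [map_smul, Module.Basis.repr_self, Finsupp.smul_apply, Finsupp.single_apply,
          smul_eq_mul, mul_ite, mul_one, mul_zero, Finset.sum_ite_eq', Finset.mem_univ, if_true,
          Matrix.transpose_apply, Matrix.map_apply]
      rw [h3, Matrix.det_transpose, ← RingHom.mapMatrix_apply, ← RingHom.map_det]

end

end MldGeo
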