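import Pool.Agent.MldGeo.Stmts3

/-!
# CON: the rays of the dual cone of a monoid of characters
-/

namespace MldGeo

open MldGap MldAcc

noncomputable section

namespace CON

variable {n : ℕ}

/-! ### pairings -/

theorem form_apply (u : Fin n → ℤ) (x : Fin n → ℝ) : form u x = ∑ i, (u i : ℝ) * x i := by
  simp [form]

theorem form_toR (u y : Fin n → ℤ) : form u (toR y) = (pair u y : ℝ) := by
  rw [form_apply, pair]
  push_cast
  rfl

theorem form_add (u v : Fin n → ℤ) (x : Fin n → ℝ) : form (u + v) x = form u x + form v x := by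
  simp only [form_apply, Pi.add_apply, Int.cast_add, add_mul, Finset.sum_add_distrib]

theorem form_neg (u : Fin n → ℤ) (x : Fin n → ℝ) : form (-u) x = -form u x := by
  simp [form_apply]

theorem form_zero (x : Fin n → ℝ) : form 0 x = 0 := by
  simp [form_apply]

theorem form_single (i : Fin n) (x : Fin n → ℝ) : form (Pi.single i 1) x = x i := by
  rw [form_apply, Finset.sum_eq_single i]
  · simp
  · intro j _ hj
    simp [Pi.single_eq_of_ne hj]
  · intro h
    exact absurd (Finset.mem_univ i) h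

theorem pair_add (u v y : Fin n → ℤ) : pair (u + v) y = pair u y + pair v y := by
  simp only [pair, Pi.add_apply, add_mul, Finset.sum_add_distrib]

theorem pair_smul (k : ℤ) (u y : Fin n → ℤ) : pair (k • u) y = k * pair u y := by
  simp only [pair, Pi.smul_apply, smul_eq_mul, Finset.mul_sum, mul_assoc]

theorem pair_smul_right (k : ℤ) (u y : Fin n → ℤ) : pair u (k • y) = k * pair u y := by
  simp only [pair, Pi.smul_apply, smul_eq_mul, Finset.mul_sum]
  exact Finset.sum_congr rfl fun i _ => by ring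

theorem pair_neg_right (u y : Fin n → ℤ) : pair u (-y) = - pair u y := by
  simp [pair]

theorem pair_single (i : Fin n) (y : Fin n → ℤ) : pair (Pi.single i 1) y = y i := by
  rw [pair, Finset.sum_eq_single i]
  · simp
  · intro j _ hj
    simp [Pi.single_eq_of_ne hj]
  · intro h
    exact absurd (Finset.mem_univ i) h

/-- the rational form -/
def qf (v : Fin n → ℤ) : (Fin n → ℚ) →ₗ[ℚ] ℚ := ∑ i, (v i : ℚ) • LinearMap.proj i

theorem qf_apply (v : Fin n → ℤ) (x : Fin n → ℚ) : qf v x = ∑ i, (v i : ℚ) * x i := by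
  simp [qf]

theorem qf_single (v : Fin n → ℤ) (i : Fin n) : qf v (Pi.single i 1) = v i := by
  rw [qf_apply, Finset.sum_eq_single i]
  · simp
  · intro j _ hj
    simp [Pi.single_eq_of_ne hj]
  · intro h
    exact absurd (Finset.mem_univ i) h

/-- an integral vector as a rational vector -/
def castQ (n : ℕ) : (Fin n → ℤ) →ₗ[ℤ] (Fin n → ℚ) where
  toFun y i := (y i : ℚ)
  map_add' x y := by
    ext i
    simp
  map_smul' c x := by
    ext i
    simp

theorem castQ_apply (y : Fin n → ℤ) (i : Fin n) : castQ n y i = (y i : ℚ) := rfl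

theorem castQ_ker : LinearMap.ker (castQ n) = ⊥ := by
  rw [LinearMap.ker_eq_bot]
  intro x y h
  ext i
  have := congrFun h i
  rw [castQ_apply, castQ_apply] at this
  exact_mod_cast this

theorem qf_castQ (u y : Fin n → ℤ) : qf u (castQ n y) = (pair u y : ℚ) := by
  rw [qf_apply, pair]
  push_cast
  rfl

/-- Clearing denominators. -/
theorem clear_den (x : Fin n → ℚ) : ∃ (N : ℕ) (m : Fin n → ℤ), 0 < N ∧
    ∀ i, (m i : ℚ) = N * x i := by
  refine ⟨∏ i, (x i).den, fun i => (x i).num * ∏ j ∈ Finset.univ.erase i, ((x j).den : ℤ),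
    Finset.prod_pos fun i _ => (x i).pos, fun i => ?_⟩
  rw [← Finset.mul_prod_erase Finset.univ (fun i => (x i).den) (Finset.mem_univ i)]
  push_cast
  have h : (x i).den * x i = ((x i).num : ℚ) := by
    rw [mul_comm]
    exact Rat.mul_den_eq_num _
  calc ((x i).num : ℚ) * ∏ j ∈ Finset.univ.erase i, ((x j).den : ℚ)
      = ((x i).den * x i) * ∏ j ∈ Finset.univ.erase i, ((x j).den : ℚ) := by rw [h]
    _ = _ := by ring

/-- the real solutions of a rational system satisfy the rational consequences -/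
theorem transfer (A : Finset (Fin n → ℤ)) (φ : Fin n → ℤ)
    (h : ∀ z : Fin n → ℚ, (∀ u ∈ A, qf u z = 0) → qf φ z = 0) (x : Fin n → ℝ)
    (hx : ∀ u ∈ A, form u x = 0) : form φ x = 0 := by
  have h1 : qf φ ∈ Submodule.span ℚ (Set.range fun u : A => qf (u : Fin n → ℤ)) := by
    refine mem_span_of_iInf_ker_le_ker fun z hz => ?_
    rw [Submodule.mem_iInf] at hz
    rw [LinearMap.mem_ker]
    exact h z fun u hu => (LinearMap.mem_ker.1 (hz ⟨u, hu⟩))
  obtain ⟨c, hc⟩ := (Submodule.mem_span_range_iff_exists_fun ℚ).1 h1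
  have h2 : ∀ i, (φ i : ℝ) = ∑ u : A, (c u : ℝ) * ((u : Fin n → ℤ) i : ℝ) := by
    intro i
    have h3 := congrArg (fun f : (Fin n → ℚ) →ₗ[ℚ] ℚ => f (Pi.single i 1)) hc
    simp only [LinearMap.sum_apply, LinearMap.smul_apply, qf_single, smul_eq_mul] at h3
    have h4 : ((φ i : ℚ) : ℝ) = ((∑ u : A, c u * ((u : Fin n → ℤ) i : ℚ) : ℚ) : ℝ) := by rw [h3]
    push_cast at h4
    exact h4
  rw [form_apply]
  calc ∑ i, (φ i : ℝ) * x i = ∑ i, ∑ u : A, (c u : ℝ) * (((u : Fin n → ℤ) i : ℝ) * x i) := by
        refine Finset.sum_congr rfl fun i _ => ?_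
        rw [h2, Finset.sum_mul]
        exact Finset.sum_congr rfl fun u _ => by ring
    _ = ∑ u : A, (c u : ℝ) * form u x := by
        rw [Finset.sum_comm]
        refine Finset.sum_congr rfl fun u _ => ?_
        rw [form_apply, Finset.mul_sum]
    _ = 0 := Finset.sum_eq_zero fun u _ => by rw [hx u u.2, mul_zero]

/-! ### primitive vectors -/

/-- a nonzero integral vector is a multiple of a primitive one -/
theorem exists_prim (m : Fin n → ℤ) (hm : m ≠ 0) :
    ∃ (d : ℤ) (ρ : Fin n → ℤ), d ≠ 0 ∧ m = d • ρ ∧ ∃ u, pair u ρ = 1 := by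
  let I : Ideal ℤ :=
    { carrier := {k | ∃ u, pair u m = k}
      add_mem' := by
        rintro _ _ ⟨u, rfl⟩ ⟨v, rfl⟩
        exact ⟨u + v, pair_add u v m⟩
      zero_mem' := ⟨0, by simp [pair]⟩
      smul_mem' := by
        rintro c _ ⟨u, rfl⟩
        exact ⟨c • u, pair_smul c u m⟩ }
  obtain ⟨d, hd⟩ := (IsPrincipalIdealRing.principal I).principal
  have hmem : ∀ k, (∃ u, pair u m = k) ↔ d ∣ k := by
    intro k
    have h1 : k ∈ I ↔ k ∈ Ideal.span {d} := by
      rw [hd]
    rw [Ideal.mem_span_singleton] at h1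
    exact h1
  have h1 : ∀ i, d ∣ m i := fun i => (hmem _).1 ⟨Pi.single i 1, pair_single i m⟩
  choose ρ hρ using h1
  have hmd : m = d • ρ := by
    ext i
    rw [Pi.smul_apply, smul_eq_mul, hρ]
  have hd0 : d ≠ 0 := by
    rintro rfl
    exact hm (by rw [hmd, zero_smul])
  obtain ⟨u, hu⟩ := (hmem d).2 dvd_rfl
  refine ⟨d, ρ, hd0, hmd, u, ?_⟩
  rw [hmd, pair_smul_right] at hu
  exact mul_left_cancel₀ hd0 (by rw [hu, mul_one])

/-- `n - 1` independent integral conditions determine a primitive vector up to sign -/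
theorem uniq {w : Fin (n - 1) → Fin n → ℤ} (hw : LinearIndependent ℤ w) {ρ ρ' : Fin n → ℤ}
    (h1 : ∀ j, pair (w j) ρ = 0) (h2 : ∀ j, pair (w j) ρ' = 0) (p1 : ∃ u, pair u ρ = 1)
    (p2 : ∃ u, pair u ρ' = 1) : ρ' = ρ ∨ ρ' = -ρ := by
  obtain ⟨u, hu⟩ := p1
  obtain ⟨u', hu'⟩ := p2
  have hn : 0 < n := by
    rcases Nat.eq_zero_or_pos n with rfl | h
    · simp [pair] at hu
    · exact h
  have hwq : LinearIndependent ℚ (castQ n ∘ w) :=
    (LinearIndependent.iff_fractionRing ℤ ℚ).1 (hw.map' (castQ n) castQ_ker)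
  let M : Matrix (Fin (n - 1)) (Fin n) ℚ := Matrix.of (castQ n ∘ w)
  have hrk : M.rank = n - 1 := by
    have : M.rank = Fintype.card (Fin (n - 1)) := LinearIndependent.rank_matrix (M := M) hwq
    rw [this, Fintype.card_fin]
  have hdim := LinearMap.finrank_range_add_finrank_ker M.mulVecLin
  rw [Module.finrank_fin_fun] at hdim
  have hk : Module.finrank ℚ (LinearMap.ker M.mulVecLin) = 1 := by
    rw [Matrix.rank] at hrk
    omega
  have hker : ∀ z : Fin n → ℤ, (∀ j, pair (w j) z = 0) → castQ n z ∈ LinearMap.ker M.mulVecLin := by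
    intro z hz
    rw [LinearMap.mem_ker]
    ext j
    have : (M.mulVecLin (castQ n z)) j = qf (w j) (castQ n z) := by
      rw [qf_apply]
      rfl
    rw [this, qf_castQ, hz j]
    rfl
  have hne : (⟨castQ n ρ, hker ρ h1⟩ : LinearMap.ker M.mulVecLin) ≠ 0 := by
    intro h
    have h3 : castQ n ρ = 0 := congrArg Subtype.val h
    have h4 : ρ ∈ LinearMap.ker (castQ n) := h3
    rw [castQ_ker, Submodule.mem_bot] at h4
    rw [h4] at hu
    simp [pair] at hu
  obtain ⟨t, ht⟩ := (finrank_eq_one_iff_of_nonzero' _ hne).1 hk ⟨castQ n ρ', hker ρ' h2⟩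
  have ht' : t • castQ n ρ = castQ n ρ' := congrArg Subtype.val ht
  have h5 : ∀ a : Fin n → ℤ, t * (pair a ρ : ℚ) = (pair a ρ' : ℚ) := by
    intro a
    rw [← qf_castQ, ← qf_castQ, ← ht', map_smul, smul_eq_mul]
  have h6 := h5 u
  rw [hu] at h6
  have h7 := h5 u'
  rw [hu'] at h7
  have h8 : pair u ρ' * pair u' ρ = 1 := by
    have : ((pair u ρ' * pair u' ρ : ℤ) : ℚ) = 1 := by
      push_cast at h6 ⊢
      linear_combination h7 - (pair u' ρ : ℚ) * h6
    exact_mod_cast this
  have h9 : ∀ i, (ρ' i : ℚ) = (pair u ρ' : ℚ) * ρ i := by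
    intro i
    have := congrFun ht' i
    rw [Pi.smul_apply, smul_eq_mul, castQ_apply, castQ_apply] at this
    rw [← this, ← h6]
    push_cast
    ring
  rcases Int.isUnit_iff.1 (IsUnit.of_mul_eq_one _ h8) with h10 | h10
  · left
    ext i
    have := h9 i
    rw [h10] at this
    push_cast at this
    rw [one_mul] at this
    exact_mod_cast this
  · right
    ext i
    have := h9 i
    rw [h10] at this
    push_cast at this
    rw [Pi.neg_apply]
    have h11 : (ρ' i : ℚ) = ((-ρ i : ℤ) : ℚ) := by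
      rw [this]
      push_cast
      ring
    exact_mod_cast h11

/-! ### rays -/

/-- `ρ` is the primitive generator of a ray of the cone dual to `U` -/
structure IsRay (U : Finset (Fin n → ℤ)) (ρ : Fin n → ℤ) : Prop where
  prim : ∃ u, pair u ρ = 1
  nonneg : ∀ u ∈ U, 0 ≤ pair u ρ
  w : ∃ w : Fin (n - 1) → Fin n → ℤ, (∀ j, w j ∈ U) ∧ LinearIndependent ℤ w ∧
    ∀ j, pair (w j) ρ = 0

theorem ne_zero_of_prim {ρ : Fin n → ℤ} (h : ∃ u, pair u ρ = 1) : ρ ≠ 0 := by
  rintro rfl
  obtain ⟨u, hu⟩ := h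
  simp [pair] at hu

theorem toR_inj {x y : Fin n → ℤ} (h : toR x = toR y) : x = y := by
  ext i
  have := congrFun h i
  simp only [toR] at this
  exact_mod_cast this

theorem toR_neg (x : Fin n → ℤ) : toR (-x) = -toR x := by
  ext i
  simp [toR]

theorem toR_zero : toR (0 : Fin n → ℤ) = 0 := by
  ext i
  simp [toR]

section U

variable (U : Finset (Fin n → ℤ))

theorem uniq_ray (hspan : ∀ x : Fin n → ℝ, (∀ u ∈ U, form u x = 0) → x = 0)
    {w : Fin (n - 1) → Fin n → ℤ} (hw : LinearIndependent ℤ w) {ρ ρ' : Fin n → ℤ}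
    (h : IsRay U ρ) (h' : IsRay U ρ') (h1 : ∀ j, pair (w j) ρ = 0)
    (h2 : ∀ j, pair (w j) ρ' = 0) : ρ' = ρ := by
  rcases uniq hw h1 h2 h.prim h'.prim with h3 | h3
  · exact h3
  · exfalso
    have h4 : toR ρ = 0 := by
      refine hspan _ fun u hu => ?_
      rw [form_toR]
      have h5 := h.nonneg u hu
      have h6 := h'.nonneg u hu
      rw [h3, pair_neg_right] at h6
      have : pair u ρ = 0 := by omega
      rw [this, Int.cast_zero]
    rw [← toR_zero] at h4
    exact ne_zero_of_prim h.prim (toR_inj h4)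

theorem rays_finite (hspan : ∀ x : Fin n → ℝ, (∀ u ∈ U, form u x = 0) → x = 0) :
    {ρ | IsRay U ρ}.Finite := by
  classical
  choose w hwU hw hw0 using fun ρ : {ρ | IsRay U ρ} => (ρ.2 : IsRay U ρ).w
  refine Set.finite_coe_iff.1 (Finite.of_injective
    (fun ρ : {ρ | IsRay U ρ} => fun j => (⟨w ρ j, hwU ρ j⟩ : U)) ?_)
  intro ρ ρ' h
  have h1 : w ρ = w ρ' := by
    funext j
    exact congrArg Subtype.val (congrFun h j)
  apply Subtype.ext
  refine uniq_ray U hspan (hw ρ') ρ'.2 ρ.2 (hw0 ρ') ?_
  rw [← h1]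
  exact hw0 ρ

/-- if the solutions of the active conditions are the multiples of `x`, then `x` spans a ray -/
theorem line_case (x : Fin n → ℝ) (hx : ∀ u ∈ U, 0 ≤ form u x) (hx0 : x ≠ 0)
    (hline : ∀ z : Fin n → ℝ, (∀ u ∈ U, form u x = 0 → form u z = 0) → ∃ t : ℝ, z = t • x) :
    ∃ (ρ : Fin n → ℤ) (t : ℝ), IsRay U ρ ∧ 0 ≤ t ∧ x = t • toR ρ := by
  classical
  let A : Finset (Fin n → ℤ) := U.filter fun u => form u x = 0
  have hA : ∀ u, u ∈ A ↔ u ∈ U ∧ form u x = 0 := fun u => Finset.mem_filter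
  -- a rational solution
  have h1 : ∃ z : Fin n → ℚ, (∀ u ∈ A, qf u z = 0) ∧ z ≠ 0 := by
    by_contra hcon
    push Not at hcon
    apply hx0
    ext i
    have h2 := transfer A (Pi.single i 1) (fun z hz => by rw [hcon z hz, map_zero]) x
      fun u hu => ((hA u).1 hu).2
    rw [form_single] at h2
    exact h2
  obtain ⟨z, hz, hz0⟩ := h1
  obtain ⟨N, m, hN, hm⟩ := clear_den z
  have hm' : castQ n m = (N : ℚ) • z := by
    ext i
    rw [castQ_apply, hm, Pi.smul_apply, smul_eq_mul]
  have hm0 : m ≠ 0 := by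
    rintro rfl
    rw [map_zero] at hm'
    have hN' : (N : ℚ) ≠ 0 := by exact_mod_cast hN.ne'
    exact hz0 ((smul_eq_zero.1 hm'.symm).resolve_left hN')
  obtain ⟨d, ρ₀, hd, hmρ, hprim⟩ := exists_prim m hm0
  have hAm : ∀ u ∈ A, pair u ρ₀ = 0 := by
    intro u hu
    have h2 : qf u (castQ n m) = 0 := by rw [hm', map_smul, hz u hu, smul_zero]
    rw [qf_castQ] at h2
    have h3 : pair u m = 0 := by exact_mod_cast h2
    rw [hmρ, pair_smul_right] at h3
    exact (mul_eq_zero.1 h3).resolve_left hd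
  -- the multiple
  obtain ⟨t, ht⟩ := hline (toR ρ₀) fun u hu h => by
    rw [form_toR, hAm u ((hA u).2 ⟨hu, h⟩), Int.cast_zero]
  have ht0 : t ≠ 0 := by
    rintro rfl
    rw [zero_smul, ← toR_zero] at ht
    exact ne_zero_of_prim hprim (toR_inj ht)
  -- the sign
  have h2 : ∃ (ρ : Fin n → ℤ) (t : ℝ), (∃ u, pair u ρ = 1) ∧ (∀ u ∈ A, pair u ρ = 0) ∧ 0 < t ∧
      toR ρ = t • x := by
    rcases lt_or_gt_of_ne ht0 with h | h
    · obtain ⟨u, hu⟩ := hprim
      refine ⟨-ρ₀, -t, ⟨-u, ?_⟩, ?_, by linarith, ?_⟩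
      · rw [pair_neg_right, ← hu]
        simp [pair]
      · intro u hu
        rw [pair_neg_right, hAm u hu, neg_zero]
      · rw [toR_neg, ht, neg_smul]
    · exact ⟨ρ₀, t, hprim, hAm, h, ht⟩
  clear ht ht0 t hAm hprim hmρ ρ₀
  obtain ⟨ρ, t, hprim, hAρ, ht0, ht⟩ := h2
  have hρx : x = t⁻¹ • toR ρ := by
    rw [ht, smul_smul, inv_mul_cancel₀ ht0.ne', one_smul]
  refine ⟨ρ, t⁻¹, ⟨hprim, ?_, ?_⟩, (inv_pos.2 ht0).le, hρx⟩
  · intro u hu
    have h3 : (0 : ℝ) ≤ (pair u ρ : ℝ) := by
      rw [← form_toR, ht, map_smul, smul_eq_mul]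
      exact mul_nonneg ht0.le (hx u hu)
    exact_mod_cast h3
  · -- independent active conditions
    have hn : 0 < n := by
      obtain ⟨u, hu⟩ := hprim
      rcases Nat.eq_zero_or_pos n with rfl | h
      · simp [pair] at hu
      · exact h
    let v : A → Fin n → ℚ := fun u => castQ n u
    let M : Matrix A (Fin n) ℚ := Matrix.of v
    have hMv : ∀ (z : Fin n → ℚ) (u : A), (M.mulVecLin z) u = qf u z := by
      intro z u
      rw [qf_apply]
      rfl
    have hρk : castQ n ρ ∈ LinearMap.ker M.mulVecLin := by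
      rw [LinearMap.mem_ker]
      ext u
      rw [hMv, qf_castQ, hAρ u u.2, Int.cast_zero, Pi.zero_apply]
    have hρ0 : (⟨castQ n ρ, hρk⟩ : LinearMap.ker M.mulVecLin) ≠ 0 := by
      intro h
      have h3 : castQ n ρ = 0 := congrArg Subtype.val h
      have h4 : ρ ∈ LinearMap.ker (castQ n) := h3
      rw [castQ_ker, Submodule.mem_bot] at h4
      exact ne_zero_of_prim hprim h4
    have hk : Module.finrank ℚ (LinearMap.ker M.mulVecLin) = 1 := by
      refine (finrank_eq_one_iff_of_nonzero' _ hρ0).2 ?_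
      rintro ⟨y, hy⟩
      obtain ⟨s, hs⟩ := hline (fun i => (y i : ℝ)) (by
        intro u hu h
        have h3 : qf u y = 0 := by
          rw [← hMv y ⟨u, (hA u).2 ⟨hu, h⟩⟩, LinearMap.mem_ker.1 hy]
          rfl
        rw [qf_apply] at h3
        rw [form_apply]
        have h4 : ((∑ i, (u i : ℚ) * y i : ℚ) : ℝ) = ((0 : ℚ) : ℝ) := by rw [h3]
        push_cast at h4
        exact h4)
      have h5 : ∃ i, ρ i ≠ 0 := by
        by_contra hcon
        push Not at hcon
        exact ne_zero_of_prim hprim (funext hcon)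
      obtain ⟨i, hi⟩ := h5
      have hy1 : ∀ j, (y j : ℝ) = (s * t⁻¹) * (ρ j : ℝ) := by
        intro j
        have h6 := congrFun hs j
        rw [hρx] at h6
        simp only [Pi.smul_apply, smul_eq_mul, toR] at h6
        rw [h6]
        ring
      refine ⟨y i / (ρ i : ℚ), ?_⟩
      apply Subtype.ext
      ext j
      change y i / (ρ i : ℚ) * (ρ j : ℚ) = y j
      have hi' : (ρ i : ℝ) ≠ 0 := by exact_mod_cast hi
      have h7 : ((y i / (ρ i : ℚ) * (ρ j : ℚ) : ℚ) : ℝ) = ((y j : ℚ) : ℝ) := by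
        push_cast
        rw [hy1 i, hy1 j]
        field_simp
      exact_mod_cast h7
    have hdim := LinearMap.finrank_range_add_finrank_ker M.mulVecLin
    rw [Module.finrank_fin_fun] at hdim
    have hrow : Module.finrank ℚ (Submodule.span ℚ (Set.range v)) = n - 1 := by
      have h3 := M.rank_eq_finrank_span_row
      have h4 : M.row = v := rfl
      rw [h4] at h3
      rw [← h3, Matrix.rank]
      omega
    obtain ⟨κ, a, ha, hsp, hli⟩ := exists_linearIndependent' ℚ v
    have : Finite κ := Finite.of_injective a ha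
    let := Fintype.ofFinite κ
    have hcard : Fintype.card κ = n - 1 := by
      rw [← finrank_span_eq_card hli, hsp, hrow]
    have e : Fin (n - 1) ≃ κ := (Fintype.equivFinOfCardEq hcard).symm
    refine ⟨fun j => (a (e j) : Fin n → ℤ), fun j => ((hA _).1 (a (e j)).2).1, ?_, fun j =>
      hAρ _ (a (e j)).2⟩
    have h5 : LinearIndependent ℚ ((v ∘ a) ∘ e) := hli.comp e e.injective
    have h6 : LinearIndependent ℤ ((v ∘ a) ∘ e) := (LinearIndependent.iff_fractionRing ℤ ℚ).2 h5
    exact LinearIndependent.of_comp (castQ n) h6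

/-- moving to the boundary -/
theorem step (hspan : ∀ x : Fin n → ℝ, (∀ u ∈ U, form u x = 0) → x = 0) (x z : Fin n → ℝ)
    (hx : ∀ u ∈ U, 0 ≤ form u x) (hz : z ≠ 0) (hl : ∑ u ∈ U, form u z = 0)
    (hV : ∀ u ∈ U, form u x = 0 → form u z = 0) :
    ∃ t : ℝ, 0 < t ∧ (∀ u ∈ U, 0 ≤ form u (x + t • z)) ∧
      (U.filter fun u => form u (x + t • z) ≠ 0).card < (U.filter fun u => form u x ≠ 0).card := by
  classical
  have h1 : (U.filter fun u => form u z < 0).Nonempty := by
    by_contra hcon
    rw [Finset.not_nonempty_iff_eq_empty, Finset.filter_eq_empty_iff] at hcon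
    apply hz
    apply hspan
    have h2 : ∀ u ∈ U, 0 ≤ form u z := fun u hu => not_lt.1 (hcon hu)
    exact (Finset.sum_eq_zero_iff_of_nonneg h2).1 hl
  obtain ⟨u₀, hu₀, hmin⟩ := Finset.exists_min_image _ (fun u => form u x / (-form u z)) h1
  obtain ⟨hu₀U, hu₀z⟩ := Finset.mem_filter.1 hu₀
  have hx₀ : 0 < form u₀ x := by
    refine lt_of_le_of_ne (hx u₀ hu₀U) fun h => ?_
    rw [hV u₀ hu₀U h.symm] at hu₀z
    exact lt_irrefl _ hu₀z
  have hf : ∀ (t : ℝ) (u : Fin n → ℤ), form u (x + t • z) = form u x + t * form u z := by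
    intro t u
    rw [map_add, map_smul, smul_eq_mul]
  refine ⟨form u₀ x / (-form u₀ z), div_pos hx₀ (by linarith), ?_, ?_⟩
  · intro u hu
    rw [hf]
    by_cases h : form u z < 0
    · have h2 := hmin u (Finset.mem_filter.2 ⟨hu, h⟩)
      have h3 : form u₀ x / (-form u₀ z) * (-form u z) ≤ form u x := by
        rw [le_div_iff₀ (by linarith)] at h2
        exact h2
      linarith
    · have h3 : 0 < form u₀ x / (-form u₀ z) := div_pos hx₀ (by linarith)
      have := mul_nonneg h3.le (not_lt.1 h)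
      have := hx u hu
      linarith
  · refine Finset.card_lt_card ⟨?_, ?_⟩
    · intro u hu
      obtain ⟨h2, h3⟩ := Finset.mem_filter.1 hu
      refine Finset.mem_filter.2 ⟨h2, fun h => h3 ?_⟩
      rw [hf, h, hV u h2 h, mul_zero, add_zero]
    · intro h
      have h2 := h (Finset.mem_filter.2 ⟨hu₀U, hx₀.ne'⟩)
      refine (Finset.mem_filter.1 h2).2 ?_
      rw [hf, div_mul_eq_mul_div, div_neg, mul_div_assoc, div_self hu₀z.ne]
      ring

/-- Minkowski: the cone is generated by its rays -/
theorem mink (hspan : ∀ x : Fin n → ℝ, (∀ u ∈ U, form u x = 0) → x = 0)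
    (C : Set (Fin n → ℝ)) (h0 : (0 : Fin n → ℝ) ∈ C) (hadd : ∀ x ∈ C, ∀ y ∈ C, x + y ∈ C)
    (hsmul : ∀ t : ℝ, 0 ≤ t → ∀ x ∈ C, t • x ∈ C) (hray : ∀ ρ, IsRay U ρ → toR ρ ∈ C) :
    ∀ (k : ℕ) (x : Fin n → ℝ), (∀ u ∈ U, 0 ≤ form u x) →
      (U.filter fun u => form u x ≠ 0).card = k → x ∈ C := by
  classical
  intro k
  induction k using Nat.strong_induction_on with
  | _ k ih =>
    intro x hx hk
    by_cases hx0 : x = 0
    · rw [hx0]
      exact h0
    by_cases hline : ∀ z : Fin n → ℝ, (∀ u ∈ U, form u x = 0 → form u z = 0) → ∃ t : ℝ, z = t • x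
    · obtain ⟨ρ, t, hρ, ht, hxt⟩ := line_case U x hx hx0 hline
      rw [hxt]
      exact hsmul t ht _ (hray ρ hρ)
    · push Not at hline
      obtain ⟨z₀, hV, hz₀⟩ := hline
      have hlx : 0 < ∑ u ∈ U, form u x := by
        refine lt_of_le_of_ne (Finset.sum_nonneg hx) fun h => hx0 (hspan x ?_)
        exact (Finset.sum_eq_zero_iff_of_nonneg hx).1 h.symm
      set c : ℝ := (∑ u ∈ U, form u z₀) / ∑ u ∈ U, form u x with hc
      set z : Fin n → ℝ := z₀ - c • x with hz
      have hfz : ∀ u : Fin n → ℤ, form u z = form u z₀ - c * form u x := by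
        intro u
        rw [hz, map_sub, map_smul, smul_eq_mul]
      have hz0 : z ≠ 0 := fun h => hz₀ c (sub_eq_zero.1 h)
      have hlz : ∑ u ∈ U, form u z = 0 := by
        simp only [hfz, Finset.sum_sub_distrib, ← Finset.mul_sum]
        rw [hc, div_mul_cancel₀ _ hlx.ne', sub_self]
      have hVz : ∀ u ∈ U, form u x = 0 → form u z = 0 := by
        intro u hu h
        rw [hfz, hV u hu h, h, mul_zero, sub_zero]
      obtain ⟨t₁, ht₁, h1, h2⟩ := step U hspan x z hx hz0 hlz hVz
      obtain ⟨t₂, ht₂, h3, h4⟩ := step U hspan x (-z) hx (neg_ne_zero.2 hz0)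
        (by simp only [map_neg, Finset.sum_neg_distrib, hlz, neg_zero])
        (fun u hu h => by rw [map_neg, hVz u hu h, neg_zero])
      have h5 := ih _ (by rw [← hk]; exact h2) _ h1 rfl
      have h6 := ih _ (by rw [← hk]; exact h4) _ h3 rfl
      have h7 : x = (t₂ / (t₁ + t₂)) • (x + t₁ • z) + (t₁ / (t₁ + t₂)) • (x + t₂ • (-z)) := by
        ext i
        simp only [Pi.add_apply, Pi.smul_apply, smul_eq_mul, Pi.neg_apply]
        field_simp
        ring
      rw [h7]
      exact hadd _ (hsmul _ (by positivity) _ h5) _ (hsmul _ (by positivity) _ h6)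

end U

/-- Farkas lemma over an ordered field (Bartl's proof). -/
theorem farkas_field {k W ι : Type} [Field k] [LinearOrder k] [IsStrictOrderedRing k]
    [AddCommGroup W] [Module k W] (s : Finset ι) : ∀ (a : ι → W →ₗ[k] k) (c : W →ₗ[k] k),
      (∀ x, (∀ i ∈ s, a i x ≤ 0) → c x ≤ 0) →
      ∃ l : ι → k, (∀ i, 0 ≤ l i) ∧ c = ∑ i ∈ s, l i • a i := by
  classical
  induction s using Finset.induction_on with
  | empty =>
    intro a c h
    refine ⟨fun _ => 0, fun _ => le_rfl, ?_⟩
    ext x
    have h1 := h x (by simp)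
    have h2 := h (-x) (by simp)
    rw [map_neg] at h2
    simp only [Finset.sum_empty, LinearMap.zero_apply]
    linarith
  | insert j s hj ih =>
    intro a c h
    by_cases h0 : ∀ x, (∀ i ∈ s, a i x ≤ 0) → c x ≤ 0
    · obtain ⟨l, hl, hc⟩ := ih a c h0
      refine ⟨fun i => if i = j then 0 else l i, fun i => ?_, ?_⟩
      · dsimp only
        split_ifs
        · exact le_rfl
        · exact hl i
      · dsimp only
        rw [Finset.sum_insert hj, if_pos rfl, zero_smul, zero_add, hc]
        refine Finset.sum_congr rfl fun i hi => ?_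
        rw [if_neg (by rintro rfl; exact hj hi)]
    · push Not at h0
      obtain ⟨y, hy, hcy⟩ := h0
      have hb : 0 < a j y := by
        by_contra hb
        push Not at hb
        refine absurd (h y fun i hi => ?_) (not_le.mpr hcy)
        rcases Finset.mem_insert.mp hi with rfl | hi
        · exact hb
        · exact hy i hi
      obtain ⟨l, hl, hc⟩ := ih (fun i => a i - (a i y / a j y) • a j) (c - (c y / a j y) • a j) (by
        intro x hx
        have h1 := h (x - (a j x / a j y) • y) (by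
          intro i hi
          rcases Finset.mem_insert.mp hi with rfl | hi
          · rw [map_sub, map_smul, smul_eq_mul, div_mul_cancel₀ _ hb.ne', sub_self]
          · have h2 := hx i hi
            simp only [LinearMap.sub_apply, LinearMap.smul_apply, smul_eq_mul] at h2
            rw [map_sub, map_smul, smul_eq_mul]
            calc a i x - a j x / a j y * a i y = a i x - a i y / a j y * a j x := by ring
              _ ≤ 0 := h2)
        rw [map_sub, map_smul, smul_eq_mul] at h1
        simp only [LinearMap.sub_apply, LinearMap.smul_apply, smul_eq_mul]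
        calc c x - c y / a j y * a j x = c x - a j x / a j y * c y := by ring
          _ ≤ 0 := h1)
      refine ⟨fun i => if i = j then c y / a j y - ∑ i ∈ s, l i * (a i y / a j y) else l i,
        fun i => ?_, ?_⟩
      · dsimp only
        split_ifs
        · have h1 : ∑ i ∈ s, l i * (a i y / a j y) ≤ 0 :=
            Finset.sum_nonpos fun i hi => mul_nonpos_of_nonneg_of_nonpos (hl i)
              (div_nonpos_of_nonpos_of_nonneg (hy i hi) hb.le)
          have h2 : 0 < c y / a j y := div_pos hcy hb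
          linarith
        · exact hl i
      · dsimp only
        rw [Finset.sum_insert hj, if_pos rfl]
        have h1 : ∑ i ∈ s, (if i = j then c y / a j y - ∑ i ∈ s, l i * (a i y / a j y) else l i) • a i
            = ∑ i ∈ s, l i • a i := by
          refine Finset.sum_congr rfl fun i hi => ?_
          rw [if_neg (by rintro rfl; exact hj hi)]
        rw [h1]
        have h2 : c = ∑ i ∈ s, l i • (a i - (a i y / a j y) • a j) + (c y / a j y) • a j := by
          rw [← hc]
          abel
        conv_lhs => rw [h2]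
        have h3 : ∀ t : k, (c y / a j y - t) • a j = (c y / a j y) • a j - t • a j :=
          fun t => by
            ext w
            simp only [LinearMap.smul_apply, LinearMap.sub_apply, smul_eq_mul]
            ring
        rw [h3]
        simp only [smul_sub, Finset.sum_sub_distrib, smul_smul, ← Finset.sum_smul]
        abel


/-- a common denominator -/
theorem common_den (U : Finset (Fin n → ℤ)) (l : (Fin n → ℤ) → ℚ) (hl : ∀ u, 0 ≤ l u) :
    ∃ N : ℕ, 0 < N ∧ ∃ m : (Fin n → ℤ) → ℕ, ∀ u ∈ U, (N : ℚ) * l u = m u := by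
  classical
  induction U using Finset.induction_on with
  | empty => exact ⟨1, one_pos, fun _ => 0, by simp⟩
  | insert a U ha ih =>
    obtain ⟨N, hN, m, hm⟩ := ih
    refine ⟨N * (l a).den, Nat.mul_pos hN (l a).pos,
      fun u => if u = a then N * (l a).num.toNat else m u * (l a).den, ?_⟩
    intro u hu
    dsimp only
    rcases Finset.mem_insert.1 hu with h | h
    · have h1 : (0 : ℤ) ≤ (l a).num := Rat.num_nonneg.2 (hl a)
      have h2 : (((l a).num.toNat : ℕ) : ℚ) = ((l a).num : ℚ) := by
        have : (((l a).num.toNat : ℕ) : ℤ) = (l a).num := Int.toNat_of_nonneg h1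
        exact_mod_cast this
      rw [if_pos h, h]
      push_cast
      rw [h2, mul_assoc]
      congr 1
      rw [mul_comm]
      exact Rat.mul_den_eq_num _
    · have h1 : u ≠ a := by
        intro h3
        rw [h3] at h
        exact ha h
      rw [if_neg h1]
      push_cast
      rw [← hm u h]
      ring

/-- an integral vector in the interior of the dual cone -/
theorem exists_int (S : AddSubmonoid (Fin n → ℤ)) (U : Finset (Fin n → ℤ)) (hUS : ∀ u ∈ U, u ∈ S)
    (h0 : (0 : Fin n → ℤ) ∉ U) (hpt : ∀ u ∈ S, -u ∈ S → u = 0) :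
    ∃ y : Fin n → ℤ, ∀ u ∈ U, 0 < pair u y := by
  classical
  have key : ∀ u₀ ∈ U, ∃ z : Fin n → ℚ, (∀ u ∈ U, 0 ≤ qf u z) ∧ 0 < qf u₀ z := by
    intro u₀ hu₀
    by_contra hcon
    push Not at hcon
    obtain ⟨l, hl, hc⟩ := farkas_field U (fun u => -qf u) (qf u₀) (by
      intro z hz
      refine hcon z fun u hu => ?_
      have := hz u hu
      rw [LinearMap.neg_apply] at this
      linarith)
    obtain ⟨N, hN, m, hm⟩ := common_den U l hl
    have h1 : -(N • u₀) = ∑ u ∈ U, m u • u := by
      ext i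
      have h2 := congrArg (fun f : (Fin n → ℚ) →ₗ[ℚ] ℚ => f (Pi.single i 1)) hc
      simp only [LinearMap.sum_apply, LinearMap.smul_apply, LinearMap.neg_apply, qf_single,
        smul_eq_mul] at h2
      have e1 : ∀ (k : ℕ) (v : Fin n → ℤ), (k • v) i = (k : ℤ) * v i := fun k v => by
        rw [Pi.smul_apply, nsmul_eq_mul]
      have h3 : (((-(N • u₀)) i : ℤ) : ℚ) = (((∑ u ∈ U, m u • u) i : ℤ) : ℚ) := by
        rw [Finset.sum_apply]
        simp only [Pi.neg_apply, e1]
        push_cast
        rw [h2, Finset.mul_sum, ← Finset.sum_neg_distrib]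
        refine Finset.sum_congr rfl fun u hu => ?_
        rw [← hm u hu]
        ring
      exact_mod_cast h3
    have h2 : N • u₀ ∈ S := S.nsmul_mem (hUS u₀ hu₀) N
    have h3 : -(N • u₀) ∈ S := by
      rw [h1]
      exact S.sum_mem fun u hu => S.nsmul_mem (hUS u hu) _
    have h4 := hpt _ h2 h3
    have h5 : u₀ = 0 := by
      ext i
      have := congrFun h4 i
      simp only [Pi.smul_apply, nsmul_eq_mul, Pi.zero_apply, mul_eq_zero] at this
      rcases this with h | h
      · exact absurd (by exact_mod_cast h) hN.ne'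
      · exact h
    exact h0 (h5 ▸ hu₀)
  choose! z hz1 hz2 using key
  obtain ⟨N, m, hN, hm⟩ := clear_den (∑ u ∈ U, z u)
  refine ⟨m, fun u hu => ?_⟩
  have hm' : castQ n m = (N : ℚ) • ∑ u ∈ U, z u := by
    ext i
    rw [castQ_apply, hm, Pi.smul_apply, smul_eq_mul]
  have h1 : (0 : ℚ) < (pair u m : ℚ) := by
    rw [← qf_castQ, hm', map_smul, smul_eq_mul, map_sum]
    refine mul_pos (by exact_mod_cast hN) ?_
    exact Finset.sum_pos' (fun u' hu' => hz1 u' hu' u hu) ⟨u, hu, hz2 u hu⟩
  exact_mod_cast h1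

/-! ### cones -/

section cone

variable {ι : Type} [Fintype ι] (e : ι → Fin n → ℝ)

theorem cone_zero : (0 : Fin n → ℝ) ∈ coneOf e := ⟨fun _ => 0, fun _ => le_rfl, by simp⟩

theorem cone_add {x y : Fin n → ℝ} (hx : x ∈ coneOf e) (hy : y ∈ coneOf e) :
    x + y ∈ coneOf e := by
  obtain ⟨c, hc, rfl⟩ := hx
  obtain ⟨d, hd, rfl⟩ := hy
  refine ⟨fun i => c i + d i, fun i => add_nonneg (hc i) (hd i), ?_⟩
  rw [← Finset.sum_add_distrib]
  exact Finset.sum_congr rfl fun i _ => (add_smul _ _ _).symm

theorem cone_smul {x : Fin n → ℝ} (hx : x ∈ coneOf e) {t : ℝ} (ht : 0 ≤ t) : t • x ∈ coneOf e := by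
  obtain ⟨c, hc, rfl⟩ := hx
  refine ⟨fun i => t * c i, fun i => mul_nonneg ht (hc i), ?_⟩
  rw [Finset.smul_sum]
  exact Finset.sum_congr rfl fun i _ => smul_smul _ _ _

theorem cone_mem (i : ι) : e i ∈ coneOf e := by
  classical
  refine ⟨fun j => if j = i then 1 else 0, fun j => ?_, ?_⟩
  · dsimp only
    split_ifs <;> norm_num
  · simp

end cone

theorem pair_self_pos {u : Fin n → ℤ} (hu : u ≠ 0) : 0 < pair u u := by
  have h1 : ∃ i, u i ≠ 0 := by
    by_contra hcon
    push Not at hcon
    exact hu (funext hcon)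
  obtain ⟨i, hi⟩ := h1
  exact Finset.sum_pos' (fun j _ => mul_self_nonneg _) ⟨i, Finset.mem_univ i, mul_self_pos.2 hi⟩

end CON

open CON in
theorem t_CON : Stmt_CON := by
  classical
  intro n S hfg hgen hpt
  obtain ⟨T, hT⟩ := hfg
  set U : Finset (Fin n → ℤ) := T.erase 0 with hU
  have hTS : ∀ u ∈ T, u ∈ S := fun u hu => hT ▸ AddSubmonoid.subset_closure hu
  have hUS : ∀ u ∈ U, u ∈ S := fun u hu => hTS u (Finset.mem_of_mem_erase hu)
  have hU0 : (0 : Fin n → ℤ) ∉ U := Finset.notMem_erase 0 T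
  -- extension from the generators to `S`
  have hnn : ∀ x : Fin n → ℝ, (∀ u ∈ U, 0 ≤ form u x) → ∀ u ∈ S, 0 ≤ form u x := by
    intro x hx u hu
    rw [← hT] at hu
    induction hu using AddSubmonoid.closure_induction with
    | mem u hu =>
      by_cases h : u = 0
      · rw [h, form_zero]
      · exact hx u (Finset.mem_erase.2 ⟨h, hu⟩)
    | zero => rw [form_zero]
    | add u v _ _ h1 h2 =>
      rw [form_add]
      exact add_nonneg h1 h2
  have hpp : ∀ x : Fin n → ℝ, (∀ u ∈ U, 0 < form u x) → ∀ u ∈ S, u ≠ 0 → 0 < form u x := by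
    intro x hx u hu
    rw [← hT] at hu
    have key : u = 0 ∨ 0 < form u x := by
      induction hu using AddSubmonoid.closure_induction with
      | mem u hu =>
        by_cases h : u = 0
        · exact Or.inl h
        · exact Or.inr (hx u (Finset.mem_erase.2 ⟨h, hu⟩))
      | zero => exact Or.inl rfl
      | add u v _ _ h1 h2 =>
        rcases h1 with rfl | h1
        · rw [zero_add]
          exact h2
        · rcases h2 with rfl | h2
          · rw [add_zero]
            exact Or.inr h1
          · right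
            rw [form_add]
            exact add_pos h1 h2
    exact fun h => key.resolve_left h
  have hspan : ∀ x : Fin n → ℝ, (∀ u ∈ U, form u x = 0) → x = 0 := by
    intro x hx
    have h1 : ∀ u ∈ S, form u x = 0 := by
      intro u hu
      rw [← hT] at hu
      induction hu using AddSubmonoid.closure_induction with
      | mem u hu =>
        by_cases h : u = 0
        · rw [h, form_zero]
        · exact hx u (Finset.mem_erase.2 ⟨h, hu⟩)
      | zero => rw [form_zero]
      | add u v _ _ h1 h2 => rw [form_add, h1, h2, add_zero]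
    have h2 : ∀ u : Fin n → ℤ, form u x = 0 := by
      intro u
      have hu : u ∈ AddSubgroup.closure (S : Set (Fin n → ℤ)) := by
        rw [hgen]
        exact AddSubgroup.mem_top u
      induction hu using AddSubgroup.closure_induction with
      | mem u hu => exact h1 u hu
      | zero => exact form_zero x
      | add u v _ _ h1 h2 => rw [form_add, h1, h2, add_zero]
      | neg u _ h => rw [form_neg, h, neg_zero]
    ext i
    rw [← form_single i x, h2]
    rfl
  -- the rays
  have hfin := rays_finite U hspan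
  set R : Finset (Fin n → ℤ) := hfin.toFinset with hR
  have hRmem : ∀ ρ, ρ ∈ R ↔ IsRay U ρ := fun ρ => by rw [hR, Set.Finite.mem_toFinset]; rfl
  let ρ : Fin R.card → Fin n → ℤ := fun i => R.equivFin.symm i
  have hρ : ∀ i, IsRay U (ρ i) := fun i => (hRmem _).1 (R.equivFin.symm i).2
  have hρinj : Function.Injective ρ := fun i j h =>
    R.equivFin.symm.injective (Subtype.ext h)
  have hρsurj : ∀ σ, IsRay U σ → ∃ i, ρ i = σ := by
    intro σ hσ
    exact ⟨R.equivFin ⟨σ, (hRmem σ).2 hσ⟩, by simp [ρ]⟩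
  have hcone : coneOf (fun i => toR (ρ i)) = {y | ∀ u ∈ S, 0 ≤ form u y} := by
    apply Set.Subset.antisymm
    · rintro _ ⟨c, hc, rfl⟩
      refine hnn _ fun u hu => ?_
      rw [map_sum]
      refine Finset.sum_nonneg fun i _ => ?_
      rw [map_smul, smul_eq_mul, form_toR]
      refine mul_nonneg (hc i) ?_
      have := (hρ i).nonneg u hu
      exact_mod_cast this
    · intro x hx
      refine mink U hspan (coneOf fun i => toR (ρ i)) (cone_zero _)
        (fun x hx y hy => cone_add _ hx hy) (fun t ht x hx => cone_smul _ hx ht) ?_ _ x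
        (fun u hu => hx u (hUS u hu)) rfl
      intro σ hσ
      obtain ⟨i, rfl⟩ := hρsurj σ hσ
      exact cone_mem (fun i => toR (ρ i)) i
  refine ⟨R.card, ρ, fun i => (hρ i).prim, ?_, ?_, hcone, ?_, ?_, ?_⟩
  · intro i u hu
    have h1 := hnn (toR (ρ i)) (fun u hu => by
      rw [form_toR]
      have := (hρ i).nonneg u hu
      exact_mod_cast this) u hu
    rw [form_toR] at h1
    exact_mod_cast h1
  · intro i
    obtain ⟨w, h1, h2, h3⟩ := (hρ i).w
    exact ⟨w, fun j => hUS _ (h1 j), h2, h3⟩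
  · -- the interior
    apply Set.Subset.antisymm
    · intro y hy u hu hu0
      have hy1 : y ∈ coneOf fun i => toR (ρ i) := interior_subset hy
      rw [hcone] at hy1
      refine lt_of_le_of_ne (hy1 u hu) fun h => ?_
      have h1 : (coneOf fun i => toR (ρ i)) ∈ nhds y := mem_interior_iff_mem_nhds.1 hy
      have h2 : Filter.Tendsto (fun ε : ℝ => y - ε • toR u) (nhds 0) (nhds y) := by
        have h3 : Continuous fun ε : ℝ => y - ε • toR u := by fun_prop
        have h4 := h3.tendsto 0
        simpa using h4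
      have h3 := h2.eventually h1
      obtain ⟨ε, hε, h4⟩ := (h3.filter_mono nhdsWithin_le_nhds |>.and
        (self_mem_nhdsWithin : Set.Ioi (0 : ℝ) ∈ nhdsWithin 0 (Set.Ioi 0))).exists
      have h5 : y - ε • toR u ∈ coneOf fun i => toR (ρ i) := hε
      rw [hcone] at h5
      have h6 := h5 u hu
      rw [map_sub, map_smul, smul_eq_mul, form_toR, ← h] at h6
      have h7 : (0 : ℝ) < (pair u u : ℝ) := by exact_mod_cast pair_self_pos hu0
      have h8 : (0 : ℝ) < ε := h4
      have := mul_pos h8 h7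
      linarith
    · refine interior_maximal ?_ ?_
      · intro y hy
        rw [hcone]
        intro u hu
        by_cases h : u = 0
        · rw [h, form_zero]
        · exact (hy u hu h).le
      · have h1 : {y : Fin n → ℝ | ∀ u ∈ S, u ≠ 0 → 0 < form u y} =
            ⋂ u ∈ U, {y : Fin n → ℝ | 0 < form u y} := by
          ext y
          simp only [Set.mem_ofPred_eq, Set.mem_iInter]
          exact ⟨fun h u hu => h u (hUS u hu) (fun h0 => hU0 (h0 ▸ hu)), fun h => hpp y h⟩
        rw [h1]
        refine isOpen_biInter_finset fun u _ => ?_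
        exact isOpen_lt continuous_const (form u).continuous_of_finiteDimensional
  · -- the rays are extremal
    rintro i ⟨c, hc, hci, hi⟩
    obtain ⟨w, h1, h2, h3⟩ := (hρ i).w
    have h4 : ∀ k, c k = 0 := by
      intro k
      by_contra hk
      have h5 : ∀ j, pair (w j) (ρ k) = 0 := by
        intro j
        have h6 : form (w j) (toR (ρ i)) = 0 := by rw [form_toR, h3 j, Int.cast_zero]
        rw [hi, map_sum] at h6
        have h7 : ∀ l ∈ Finset.univ, 0 ≤ form (w j) (c l • toR (ρ l)) := by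
          intro l _
          rw [map_smul, smul_eq_mul, form_toR]
          refine mul_nonneg (hc l) ?_
          have := (hρ l).nonneg _ (h1 j)
          exact_mod_cast this
        have h8 := (Finset.sum_eq_zero_iff_of_nonneg h7).1 h6 k (Finset.mem_univ k)
        rw [map_smul, smul_eq_mul, form_toR] at h8
        have h9 := (mul_eq_zero.1 h8).resolve_left hk
        exact_mod_cast h9
      have h6 := uniq_ray U hspan h2 (hρ i) (hρ k) h3 h5
      have h7 : k = i := hρinj h6
      rw [h7] at hk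
      exact hk hci
    have h5 : toR (ρ i) = toR 0 := by
      rw [hi, toR_zero]
      exact Finset.sum_eq_zero fun j _ => by rw [h4 j, zero_smul]
    exact ne_zero_of_prim (hρ i).prim (toR_inj h5)
  · obtain ⟨y, hy⟩ := exists_int S U hUS hU0 hpt
    refine ⟨y, fun u hu hu0 => ?_⟩
    have h1 := hpp (toR y) (fun u hu => by
      rw [form_toR]
      exact_mod_cast hy u hu) u hu hu0
    rw [form_toR] at h1
    exact_mod_cast h1

end

end MldGeo
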