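import Pool.Agent.MldGeo.Stmts2

/-!
# Quotient singularities: a linear map of finite order is diagonalizable
-/

namespace MldGeo

namespace DIA

open MvPolynomial

noncomputable section

theorem linSubst_X {n : ℕ} (g : GL (Fin n) ℂ) (i : Fin n) :
    linSubst g (X i) = ∑ j, C ((g : Matrix (Fin n) (Fin n) ℂ) i j) * X j := by
  simp [linSubst]

theorem linSubst_linSubst_X {n : ℕ} (g P : GL (Fin n) ℂ) (i : Fin n) :
    linSubst g (linSubst P (X i)) =
      ∑ j, C (((P : Matrix (Fin n) (Fin n) ℂ) * (g : Matrix (Fin n) (Fin n) ℂ)) i j) * X j := by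
  rw [linSubst_X, map_sum]
  have h2 : ∀ j, linSubst g (C ((P : Matrix (Fin n) (Fin n) ℂ) i j)) =
      C ((P : Matrix (Fin n) (Fin n) ℂ) i j) := fun j => (linSubst g).commutes _
  simp only [map_mul, linSubst_X, h2, Finset.mul_sum]
  rw [Finset.sum_comm]
  refine Finset.sum_congr rfl fun j _ => ?_
  rw [Matrix.mul_apply, map_sum, Finset.sum_mul]
  refine Finset.sum_congr rfl fun k _ => ?_
  rw [map_mul, mul_assoc]

/-- A linear map of finite order has a basis of eigenvectors. -/
theorem exists_basis {n : ℕ} (f : Module.End ℂ (Fin n → ℂ)) (N : ℕ) (hN : 0 < N)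
    (hf : f ^ N = 1) :
    ∃ (b : Module.Basis (Fin n) ℂ (Fin n → ℂ)) (l : Fin n → ℂ), ∀ i, f (b i) = l i • b i := by
  have hss : f.IsSemisimple := by
    refine Module.End.isSemisimple_of_squarefree_aeval_eq_zero
      (p := (Polynomial.X ^ N - 1 : Polynomial ℂ)) ?_ ?_
    · refine Polynomial.Separable.squarefree ?_
      rw [Polynomial.X_pow_sub_one_separable_iff]
      exact_mod_cast hN.ne'
    · simp [hf]
  have htop := hss.iSup_eigenspace_eq_top
  set s : Set (Fin n → ℂ) := {v | ∃ μ : ℂ, f v = μ • v} with hs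
  have hspan : ⊤ ≤ Submodule.span ℂ s := by
    rw [← htop]
    refine iSup_le fun μ => ?_
    intro v hv
    refine Submodule.subset_span ⟨μ, ?_⟩
    exact Module.End.mem_eigenspace_iff.1 hv
  let b0 := Module.Basis.ofSpan hspan
  let b := b0.reindex (b0.indexEquiv (Pi.basisFun ℂ (Fin n)))
  have hb : ∀ i, b i ∈ s := by
    intro i
    refine Module.Basis.ofSpan_subset hspan ?_
    rw [Module.Basis.reindex_apply]
    exact Set.mem_range_self _
  choose l hl using hb
  exact ⟨b, l, hl⟩

/-- A matrix of finite order is diagonal in suitable coordinates. -/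
theorem exists_diag {n : ℕ} (M : Matrix (Fin n) (Fin n) ℂ) (N : ℕ) (hN : 0 < N)
    (hM : M ^ N = 1) :
    ∃ (P : GL (Fin n) ℂ) (l : Fin n → ℂ),
      (P : Matrix (Fin n) (Fin n) ℂ) * M = Matrix.diagonal l * (P : Matrix (Fin n) (Fin n) ℂ) := by
  have hf : (Matrix.toLin' M.transpose) ^ N = 1 := by
    rw [← Matrix.toLin'_pow, ← Matrix.transpose_pow, hM, Matrix.transpose_one, Matrix.toLin'_one]
    rfl
  obtain ⟨b, l, hb⟩ := exists_basis _ N hN hf
  let A : Matrix (Fin n) (Fin n) ℂ := Matrix.of fun i j => b i j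
  have hA : IsUnit A := by
    rw [← Matrix.linearIndependent_rows_iff_isUnit]
    exact b.linearIndependent
  refine ⟨hA.unit, l, ?_⟩
  rw [IsUnit.unit_spec]
  ext i j
  rw [Matrix.mul_apply, Matrix.diagonal_mul]
  have h1 := congrFun (hb i) j
  rw [Matrix.toLin'_apply, Matrix.mulVec, dotProduct] at h1
  simp only [Matrix.transpose_apply, Pi.smul_apply, smul_eq_mul] at h1
  rw [show A i j = b i j from rfl, ← h1]
  refine Finset.sum_congr rfl fun k _ => ?_
  rw [show A i k = b i k from rfl, mul_comm]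

end

end DIA

open MvPolynomial DIA in
theorem t_DIA : Stmt_DIA := by
  intro n g hg
  have hN : 0 < orderOf g := hg.orderOf_pos
  have hM : (g : Matrix (Fin n) (Fin n) ℂ) ^ orderOf g = 1 := by
    rw [← Units.val_pow_eq_pow_val, pow_orderOf_eq_one, Units.val_one]
  obtain ⟨P, l, hP⟩ := exists_diag _ _ hN hM
  refine ⟨P, l, ?_, ?_, ?_⟩
  · intro i
    rw [linSubst_linSubst_X, hP, linSubst_X, Finset.mul_sum]
    refine Finset.sum_congr rfl fun j _ => ?_
    rw [Matrix.diagonal_mul, map_mul, mul_assoc]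
  · have h1 : ∀ k : ℕ, (P : Matrix (Fin n) (Fin n) ℂ) * (g : Matrix (Fin n) (Fin n) ℂ) ^ k =
        Matrix.diagonal (l ^ k) * (P : Matrix (Fin n) (Fin n) ℂ) := by
      intro k
      induction k with
      | zero => simp
      | succ k ih =>
        rw [pow_succ, ← mul_assoc, ih, mul_assoc, hP, ← mul_assoc, Matrix.diagonal_mul_diagonal']
        rfl
    have h2 := h1 (orderOf g)
    rw [hM, mul_one] at h2
    have h3 : Matrix.diagonal (l ^ orderOf g) = (1 : Matrix (Fin n) (Fin n) ℂ) := by
      have h4 : Matrix.diagonal (l ^ orderOf g) * (P : Matrix (Fin n) (Fin n) ℂ) =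
          1 * (P : Matrix (Fin n) (Fin n) ℂ) := by rw [← h2, one_mul]
      exact P.isUnit.mul_right_cancel h4
    intro i
    have h5 := congrFun (congrFun h3 i) i
    rwa [Matrix.diagonal_apply_eq, Matrix.one_apply_eq, Pi.pow_apply] at h5
  · have h1 : (g : Matrix (Fin n) (Fin n) ℂ) =
        ((P⁻¹ : GL (Fin n) ℂ) : Matrix (Fin n) (Fin n) ℂ) * Matrix.diagonal l *
          (P : Matrix (Fin n) (Fin n) ℂ) := by
      rw [mul_assoc, ← hP, ← mul_assoc, Units.inv_mul, one_mul]
    rw [h1, Matrix.coe_units_inv, Matrix.charpoly_units_conj', Matrix.charpoly_diagonal]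
    have h2 : (∏ i, (Polynomial.X - Polynomial.C (l i))) =
        ((Multiset.map l Finset.univ.val).map fun a => Polynomial.X - Polynomial.C a).prod := by
      rw [Multiset.map_map]
      rfl
    rw [h2, Polynomial.roots_multiset_prod_X_sub_C]

end MldGeo
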