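import Pool.Agent.MldGeo.Stmts1

/-!
# The order along a prime divisor: uniqueness and the local ring
-/

namespace MldGeo

noncomputable section

/-- OLC: a function which is regular along the prime divisor `P` is a fraction with denominator
outside `P`. -/
def Stmt_OLC : Prop :=
  ∀ {n : ℕ} (X : Germ n) (P : Ideal X.R) (v : DivVal n X.K), X.IsOrdAlong v P →
    ∀ a : X.K, v.Ge 0 a → ∃ r s : X.R, s ∉ P ∧ a * (s : X.K) = r

/-- UNI: the order along a prime divisor is unique. -/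
def Stmt_UNI : Prop :=
  ∀ {n : ℕ} (X : Germ n) (P : Ideal X.R) (v w : DivVal n X.K), X.IsOrdAlong v P →
    X.IsOrdAlong w P → v.ord = w.ord

/-- IDO: the order of an ideal with generators is the least order of a generator, and it is
nonnegative along the valuations whose centre contains `x`. -/
def Stmt_IDO : Prop :=
  ∀ {n : ℕ} {X : Germ n} (v : DivVal n X.K), (∀ a : X.R, 0 ≤ v.ord a) →
    (∀ I : Ideal X.R, I ≠ ⊥ → 0 ≤ idealOrd v I) ∧
    (∀ I : Ideal X.R, I ≠ ⊥ → ∃ a ∈ I, a ≠ 0 ∧ v.ord a = idealOrd v I) ∧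
    (∀ (I : Ideal X.R) (a : X.R), a ∈ I → a ≠ 0 → idealOrd v I ≤ v.ord a) ∧
    ∀ s : Set X.R, Ideal.span s ≠ ⊥ →
      ∃ a ∈ s, a ≠ 0 ∧ v.ord a = idealOrd v (Ideal.span s) ∧
        ∀ b ∈ s, b ≠ 0 → v.ord a ≤ v.ord b

end

end MldGeo
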