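import Pool.Agent.MldGeo.Stmts2b
import Pool.Agent.MldGeo.Stmts5
import Pool.Agent.MldGeo.Ord
import Pool.Agent.MldGeo.TBAS
import Pool.Agent.MldGeo.FRM
import Pool.Agent.MldGeo.CHG

/-!
# Affine space with the boundary `∑ (1 - 1/mᵢ) Hᵢ`
-/

namespace MldGeo

open MvPolynomial

noncomputable section

namespace EXA

variable {n : ℕ}

/-! ### the germ -/

/-- the embedding of the polynomials -/
def emb (n : ℕ) : MvPolynomial (Fin n) ℂ →ₐ[ℂ] Rat n :=
  IsScalarTower.toAlgHom ℂ (MvPolynomial (Fin n) ℂ) (Rat n)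

theorem emb_inj (n : ℕ) : Function.Injective (emb n) :=
  IsFractionRing.injective (MvPolynomial (Fin n) ℂ) (Rat n)

theorem pol_ne {p : MvPolynomial (Fin n) ℂ} (h : p ≠ 0) : pol p ≠ 0 := by
  intro h'
  exact h (emb_inj n (h'.trans (map_zero (emb n)).symm))

/-- the isomorphism with the ring of regular functions -/
def iso (n : ℕ) : MvPolynomial (Fin n) ℂ ≃ₐ[ℂ] (emb n).range :=
  AlgEquiv.ofInjective (emb n) (emb_inj n)

theorem coe_iso (p : MvPolynomial (Fin n) ℂ) : ((iso n p : (emb n).range) : Rat n) = pol p := rfl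

theorem exists_iso (a : (emb n).range) : ∃ p, a = iso n p :=
  ⟨(iso n).symm a, ((iso n).apply_symm_apply a).symm⟩

/-- the constant term -/
def cc (n : ℕ) : (emb n).range →+* ℂ :=
  (constantCoeff (R := ℂ) (σ := Fin n)).comp
    ((iso n).symm : (emb n).range →+* MvPolynomial (Fin n) ℂ)

theorem cc_iso (p : MvPolynomial (Fin n) ℂ) : cc n (iso n p) = constantCoeff p := by
  change constantCoeff ((iso n).symm (iso n p)) = constantCoeff p
  rw [AlgEquiv.symm_apply_apply]

theorem cc_surj (n : ℕ) : Function.Surjective (cc n) := by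
  intro c
  exact ⟨iso n (C c), by rw [cc_iso, constantCoeff_C]⟩

theorem normal (a : Rat n) (ha : IsIntegral (emb n).range a) : a ∈ (emb n).range := by
  have h1 : IsIntegral (MvPolynomial (Fin n) ℂ) a := by
    refine IsIntegral.map_of_comp_eq
      ((iso n).symm : (emb n).range →+* MvPolynomial (Fin n) ℂ) (RingHom.id (Rat n)) ?_ ha
    refine RingHom.ext fun x => ?_
    obtain ⟨p, rfl⟩ := exists_iso x
    change algebraMap (MvPolynomial (Fin n) ℂ) (Rat n) ((iso n).symm (iso n p)) = pol p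
    rw [AlgEquiv.symm_apply_apply]
    rfl
  obtain ⟨p, hp⟩ := IsIntegrallyClosed.isIntegral_iff.1 h1
  exact ⟨p, hp⟩

/-- affine space at the origin -/
def germ (n : ℕ) (h : Algebra.trdeg ℂ (Rat n) = (n : Cardinal)) : Germ n where
  K := Rat n
  fieldK := inferInstance
  algK := inferInstance
  R := (emb n).range
  fg := by
    rw [← Algebra.map_top]
    exact (Algebra.FiniteType.out : (⊤ : Subalgebra ℂ (MvPolynomial (Fin n) ℂ)).FG).map _
  frac := by
    intro a
    obtain ⟨⟨x, y⟩, hxy⟩ := IsLocalization.surj (nonZeroDivisors (MvPolynomial (Fin n) ℂ)) a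
    refine ⟨emb n x, ⟨x, rfl⟩, emb n y, ⟨y, rfl⟩, ?_, hxy⟩
    intro h
    have h1 : (y : MvPolynomial (Fin n) ℂ) = 0 := emb_inj n (h.trans (map_zero (emb n)).symm)
    exact nonZeroDivisors.coe_ne_zero y h1
  normal := normal
  trdeg := h
  m := RingHom.ker (cc n)
  max := RingHom.ker_isMaximal_of_surjective (cc n) (cc_surj n)

/-! ### the torus action -/

/-- the weights of the variables -/
def w (n : ℕ) (i : Fin n) : Fin n → ℤ := Pi.single i 1

theorem weight_eq (d : Fin n →₀ ℕ) : Finsupp.weight (w n) d = fun j => (d j : ℤ) := by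
  rw [Finsupp.weight_apply, Finsupp.sum_fintype _ _ fun i => by rw [zero_smul]]
  funext j
  rw [Finset.sum_apply, Finset.sum_eq_single j]
  · simp [w]
  · intro i _ hij
    simp [w, hij.symm]
  · intro h
    exact absurd (Finset.mem_univ j) h

/-- the grading -/
def gr (n : ℕ) (u : Fin n → ℤ) : Submodule ℂ (emb n).range :=
  (weightedHomogeneousSubmodule ℂ (w n) u).map (iso n).toLinearMap

theorem mem_gr {u : Fin n → ℤ} {a : (emb n).range} :
    a ∈ gr n u ↔ ∃ p, IsWeightedHomogeneous (w n) p u ∧ a = iso n p := by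
  constructor
  · rintro ⟨p, hp, rfl⟩
    exact ⟨p, hp, rfl⟩
  · rintro ⟨p, hp, rfl⟩
    exact ⟨p, hp, rfl⟩

theorem gr_internal (n : ℕ) : DirectSum.IsInternal (gr n) := by
  have h0 : DirectSum.IsInternal (weightedHomogeneousSubmodule ℂ (w n)) := by
    let _ := weightedGradedAlgebra ℂ (w n)
    exact DirectSum.Decomposition.isInternal _
  have h1 : gr n = fun u => Submodule.orderIsoMapComap (iso n).toLinearEquiv
      (weightedHomogeneousSubmodule ℂ (w n) u) := rfl
  refine DirectSum.isInternal_submodule_of_iSupIndep_of_iSup_eq_top ?_ ?_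
  · rw [h1]
    exact h0.submodule_iSupIndep.map_orderIso _
  · rw [h1, ← OrderIso.map_iSup, h0.submodule_iSup_eq_top]
    exact OrderIso.map_top _

theorem gr_mono (n : ℕ) : SetLike.GradedMonoid (gr n) where
  one_mem := mem_gr.2 ⟨1, isWeightedHomogeneous_one ℂ _, (map_one _).symm⟩
  mul_mem := by
    intro u u' a b ha hb
    obtain ⟨p, hp, rfl⟩ := mem_gr.1 ha
    obtain ⟨q, hq, rfl⟩ := mem_gr.1 hb
    exact mem_gr.2 ⟨p * q, hp.mul hq, (map_mul _ _ _).symm⟩

theorem X_mem (i : Fin n) : iso n (X i) ∈ gr n (w n i) :=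
  mem_gr.2 ⟨X i, isWeightedHomogeneous_X ℂ _ i, rfl⟩

theorem iso_ne {p : MvPolynomial (Fin n) ℂ} (h : p ≠ 0) : iso n p ≠ 0 :=
  fun h' => h ((iso n).injective (h'.trans (map_zero _).symm))

/-- the torus action -/
def action (n : ℕ) (h : Algebra.trdeg ℂ (Rat n) = (n : Cardinal)) :
    TorusAction (germ n h) n where
  gr := gr n
  graded :=
    { toDecomposition := (gr_internal n).chooseDecomposition
      toGradedMonoid := gr_mono n }
  effective := by
    rw [eq_top_iff]
    intro u _
    have h1 : u = ∑ i, u i • w n i := by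
      funext j
      rw [Finset.sum_apply, Finset.sum_eq_single j]
      · simp [w]
      · intro i _ hij
        simp [w, hij.symm]
      · intro h
        exact absurd (Finset.mem_univ j) h
    rw [h1]
    refine sum_mem fun i _ => AddSubgroup.zsmul_mem _ (AddSubgroup.subset_closure ?_) _
    intro h2
    have h3 := X_mem (n := n) i
    have h4 : iso n (X i) ∈ (⊥ : Submodule ℂ (emb n).range) := by
      have h5 : gr n (w n i) = ⊥ := h2
      rwa [h5] at h3
    exact iso_ne (X_ne_zero i) ((Submodule.mem_bot ℂ).1 h4)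
  const := by
    intro a ha
    obtain ⟨p, hp, rfl⟩ := mem_gr.1 ha
    refine ⟨coeff 0 p, ?_⟩
    have h1 : p = C (coeff 0 p) := by
      ext d
      rw [coeff_C]
      split_ifs with h2
      · rw [h2]
      · by_contra h3
        have h4 := hp h3
        rw [weight_eq] at h4
        apply h2
        ext j
        have h5 := congrFun h4 j
        simp only [Pi.zero_apply] at h5
        simpa using (by exact_mod_cast h5.symm : (0 : ℕ) = d j)
    conv_lhs => rw [h1]
    exact (iso n).commutes _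
  vanish := by
    intro u hu a ha
    obtain ⟨p, hp, rfl⟩ := mem_gr.1 ha
    change cc n (iso n p) = 0
    rw [cc_iso]
    by_contra h1
    have h2 : coeff 0 p ≠ 0 := h1
    have h3 := hp h2
    rw [map_zero] at h3
    exact hu h3.symm

/-! ### the triple -/

theorem std_ne (n : ℕ) (h : Algebra.trdeg ℂ (Rat n) = (n : Cardinal))
    (h' : AlgebraicIndependent ℂ fun i : Fin n => pol (X i : MvPolynomial (Fin n) ℂ)) :
    stdForm n ≠ 0 := by
  obtain ⟨b, hb⟩ := TBAS.main h _ h'
  have h1 := FRM.iota_ne b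
  have h2 : (b : Fin n → Ω[Rat n⁄ℂ]) =
      fun i => KaehlerDifferential.D ℂ (Rat n) (pol (X i)) := funext hb
  rw [h2] at h1
  exact h1

/-- the triple -/
def triple (m : Fin n → ℕ) (h : Algebra.trdeg ℂ (Rat n) = (n : Cardinal))
    (h' : AlgebraicIndependent ℂ fun i : Fin n => pol (X i : MvPolynomial (Fin n) ℂ)) :
    Triple (germ n h) where
  ω := stdForm n
  ω_ne := std_ne n h h'
  I := Fin n
  finI := inferInstance
  f i := pol (X i)
  f_ne i := pol_ne (X_ne_zero i)
  c i := 1 / (m i : ℝ) - 1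
  J := Empty
  finJ := inferInstance
  a j := j.elim
  a_ne j := j.elim
  r j := j.elim
  r_nonneg j := j.elim

theorem disc_eq (m : Fin n → ℕ) (h : Algebra.trdeg ℂ (Rat n) = (n : Cardinal))
    (h' : AlgebraicIndependent ℂ fun i : Fin n => pol (X i : MvPolynomial (Fin n) ℂ))
    (v : DivVal n (Rat n)) : (triple m h h').disc v = (triple m h h').logDisc v := by
  unfold Triple.disc
  have h1 : ∑ j, (triple m h h').r j * idealOrd v ((triple m h h').a j) = 0 :=
    Finset.sum_eq_zero fun j _ => Empty.elim j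
  rw [h1, sub_zero]

theorem logDisc_eq (h6 : Stmt_TXT) (m : Fin n → ℕ) (hn : 0 < n)
    (h : Algebra.trdeg ℂ (Rat n) = (n : Cardinal))
    (h' : AlgebraicIndependent ℂ fun i : Fin n => pol (X i : MvPolynomial (Fin n) ℂ))
    (v : DivVal n (Rat n)) : (triple m h h').logDisc v =
      v.logOrd (stdForm n) + ∑ i, (1 / (m i : ℝ) - 1) * v.ord (pol (X i)) := by
  have h1 : (triple m h h').logDisc v =
      1 + (v.formOrd (stdForm n) : ℤ) + ∑ i : Fin n, (1 / (m i : ℝ) - 1) * v.ord (pol (X i)) := rfl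
  rw [h1, h6 h v _ hn (std_ne n h h')]
  push_cast
  ring

theorem ext_ord {K : Type} [Field K] [Algebra ℂ K] {v v' : DivVal n K} (h : v.ord = v'.ord) :
    v = v' := by
  cases v
  cases v'
  cases h
  rfl

theorem dforms_eq {K : Type} [Field K] [Algebra ℂ K] (x : Fin n → K) (hx : ∀ i, x i ≠ 0) :
    dforms x = (∏ i, x i) • dlogs x := by
  have h1 := (exteriorPower.ιMulti K n (M := Ω[K⁄ℂ])).toMultilinearMap.map_smul_univ
    (fun i => (x i)⁻¹) (fun i => KaehlerDifferential.D ℂ K (x i))
  have h2 : dlogs x = (∏ i, (x i)⁻¹) • dforms x := h1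
  rw [h2, smul_smul, ← Finset.prod_mul_distrib]
  rw [Finset.prod_eq_one fun i _ => mul_inv_cancel₀ (hx i), one_smul]

/-- prime ideals of height one -/
theorem prime_eq (P : Ideal (emb n).range) (hP : P.IsPrime) (hht : P.height = 1) :
    ∃ q, Prime q ∧ P = Ideal.span {iso n q} ∧ ∀ p, iso n p ∈ P ↔ q ∣ p := by
  have hPbot : P ≠ ⊥ := by
    rintro rfl
    rw [Ideal.height_bot] at hht
    exact zero_ne_one hht
  obtain ⟨a, haP, ha0⟩ := Submodule.exists_mem_ne_zero_of_ne_bot hPbot
  let ψ : MvPolynomial (Fin n) ℂ →+* (emb n).range :=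
    (iso n : MvPolynomial (Fin n) ℂ →+* (emb n).range)
  let P' : Ideal (MvPolynomial (Fin n) ℂ) := P.comap ψ
  have hP' : P'.IsPrime := Ideal.IsPrime.comap ψ
  have hP'bot : P' ≠ ⊥ := by
    obtain ⟨p, hp⟩ := exists_iso a
    intro h0
    have h1 : p ∈ P' := by
      have h2 : iso n p ∈ P := hp ▸ haP
      exact h2
    rw [h0, Ideal.mem_bot] at h1
    apply ha0
    rw [hp, h1, map_zero]
  obtain ⟨q, hqP, hq⟩ := Ideal.IsPrime.exists_mem_prime_of_ne_bot hP' hP'bot
  have hqP : iso n q ∈ P := hqP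
  have hqp : Prime (iso n q) := (MulEquiv.prime_iff (iso n)).2 hq
  have hPI : P = Ideal.span {iso n q} := by
    let I : Ideal (emb n).range := Ideal.span {iso n q}
    have hI : I.IsPrime := (Ideal.span_singleton_prime hqp.ne_zero).2 hqp
    have hIbot : I ≠ ⊥ := fun h => hqp.ne_zero (Ideal.span_singleton_eq_bot.1 h)
    have hIP : I ≤ P := (Ideal.span_singleton_le_iff_mem _).2 hqP
    by_contra hne
    have hlt : I < P := lt_of_le_of_ne hIP fun h => hne h.symm
    have h5 : I.height < P.height := by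
      have : P.FiniteHeight := ⟨Or.inr (by rw [hht]; exact ENat.one_ne_top)⟩
      have : I.FiniteHeight := Ideal.finiteHeight_of_le hIP hP.ne_top
      exact Ideal.height_strict_mono_of_isPrime hlt
    rw [hht, Order.lt_one_iff, Ideal.height_eq_zero_iff_eq_bot] at h5
    exact hIbot h5
  refine ⟨q, hq, hPI, fun p => ?_⟩
  rw [hPI, Ideal.mem_span_singleton]
  exact map_dvd_iff (iso n)

/-- the coefficients of the boundary -/
theorem key (h2 : Stmt_ORQ) (h6 : Stmt_TXT) (h7 : Stmt_UNI) (m : Fin n → ℕ) (hn : 0 < n)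
    (h : Algebra.trdeg ℂ (Rat n) = (n : Cardinal))
    (h' : AlgebraicIndependent ℂ fun i : Fin n => pol (X i : MvPolynomial (Fin n) ℂ))
    (P : Ideal (germ n h).R) (b : ℝ) (hc : (triple m h h').Coeff P b) :
    b = 0 ∨ ∃ i, b = 1 - 1 / (m i : ℝ) ∧ P = Ideal.span {iso n (X i)} := by
  obtain ⟨-, v, hv, hb⟩ := hc
  obtain ⟨hP, hht, hv0, hvP⟩ := id hv
  obtain ⟨q, hq, hPI, hPq⟩ : ∃ q, Prime q ∧ (P : Ideal (emb n).range) = Ideal.span {iso n q} ∧
      ∀ p, (iso n p ∈ (P : Ideal (emb n).range)) ↔ q ∣ p := prime_eq P hP hht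
  obtain ⟨w, hw, hstd⟩ := h2 q hq.irreducible
  have hwO : (germ n h).IsOrdAlong w P := by
    refine ⟨hP, hht, fun a => ?_, fun a => ?_⟩
    · obtain ⟨p, rfl⟩ := exists_iso a
      rw [coe_iso]
      by_cases hp : p = 0
      · rw [hp]
        have : pol (0 : MvPolynomial (Fin n) ℂ) = 0 := map_zero _
        rw [this]
        exact w.ord_zero.ge
      · rw [hw p hp]
        exact Int.natCast_nonneg _
    · obtain ⟨p, rfl⟩ := exists_iso a
      rw [coe_iso]
      refine (hPq p).trans ?_
      by_cases hp : p = 0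
      · refine ⟨fun _ => Or.inl ?_, fun _ => ?_⟩
        · rw [hp, map_zero]
          rfl
        · rw [hp]
          exact dvd_zero q
      · rw [hw p hp]
        constructor
        · intro h8
          right
          have h9 : multiplicity q p ≠ 0 := by
            rw [ne_eq, multiplicity_eq_zero, not_not]
            exact h8
          exact_mod_cast Nat.pos_of_ne_zero h9
        · rintro (h8 | h8)
          · exact absurd h8 (iso_ne hp)
          · have h9 : multiplicity q p ≠ 0 := by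
              intro h10
              rw [h10] at h8
              exact absurd h8 (by norm_num)
            rw [ne_eq, multiplicity_eq_zero, not_not] at h9
            exact h9
  have hvw : v = w := ext_ord (h7 (germ n h) P v w hv hwO)
  rw [hvw, logDisc_eq h6 m hn h h' w, hstd] at hb
  have hXi : ∀ i : Fin n, Irreducible (X i : MvPolynomial (Fin n) ℂ) := fun i =>
    (MvPolynomial.X_prime).irreducible
  by_cases hex : ∃ i : Fin n, q ∣ X i
  · obtain ⟨i, hi⟩ := hex
    have has : Associated q (X i) := hq.irreducible.associated_of_dvd (hXi i) hi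
    right
    refine ⟨i, ?_, ?_⟩
    · have h8 : ∀ j : Fin n, j ≠ i → w.ord (pol (X j)) = 0 := by
        intro j hj
        rw [hw _ (X_ne_zero j)]
        have h9 : multiplicity q (X j : MvPolynomial (Fin n) ℂ) = 0 := by
          rw [multiplicity_eq_zero]
          intro h10
          have h11 : (X i : MvPolynomial (Fin n) ℂ) ∣ X j := has.symm.dvd.trans h10
          exact hj (MvPolynomial.X_dvd_X.1 h11).symm
        rw [h9]
        rfl
      have h9 : w.ord (pol (X i)) = 1 := by
        rw [hw _ (X_ne_zero i), multiplicity_eq_of_associated_left has.symm, multiplicity_self]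
        rfl
      rw [Finset.sum_eq_single i (fun j _ hj => by rw [h8 j hj]; simp)
        (fun h => absurd (Finset.mem_univ i) h), h9] at hb
      push_cast at hb
      linarith
    · rw [hPI]
      exact Ideal.span_singleton_eq_span_singleton.2 (has.map (iso n))
  · left
    have h8 : ∀ j : Fin n, w.ord (pol (X j)) = 0 := by
      intro j
      rw [hw _ (X_ne_zero j)]
      have h9 : multiplicity q (X j : MvPolynomial (Fin n) ℂ) = 0 := by
        rw [multiplicity_eq_zero]
        exact fun h10 => hex ⟨j, h10⟩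
      rw [h9]
      rfl
    rw [Finset.sum_eq_zero (fun j _ => by rw [h8 j]; simp)] at hb
    push_cast at hb
    linarith

/-- the lower bound -/
theorem lower (h4 : Stmt_FSM) (h5 : Stmt_FDL) (m : Fin n → ℕ) (hn : 0 < n)
    (htr : Algebra.trdeg ℂ (Rat n) = (n : Cardinal))
    (hai : AlgebraicIndependent ℂ fun i : Fin n => pol (X i : MvPolynomial (Fin n) ℂ))
    (v : DivVal n (Rat n)) (hv : (germ n htr).At v) :
    ∑ i, 1 / (m i : ℝ) ≤
      v.logOrd (stdForm n) + ∑ i, (1 / (m i : ℝ) - 1) * v.ord (pol (X i)) := by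
  have hx0 : ∀ i : Fin n, pol (X i : MvPolynomial (Fin n) ℂ) ≠ 0 := fun i => pol_ne (X_ne_zero i)
  have h8 : ∀ i : Fin n, 1 ≤ v.ord (pol (X i)) := by
    intro i
    have h9 := hv.2 (iso n (X i)) (by
      change cc n (iso n (X i)) = 0
      rw [cc_iso, constantCoeff_X]) (iso_ne (X_ne_zero i))
    rw [coe_iso] at h9
    have h10 : 0 < v.ord (pol (X i)) := h9
    omega
  have h9 : stdForm n = (∏ i, pol (X i)) • dlogs fun i => pol (X i) := dforms_eq _ hx0
  have h10 : dlogs (fun i : Fin n => pol (X i)) ≠ 0 := by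
    intro h
    rw [h, smul_zero] at h9
    exact std_ne n htr hai h9
  have h11 : v.logOrd (stdForm n) = ∑ i, v.ord (pol (X i)) +
      v.logOrd (dlogs fun i => pol (X i)) := by
    rw [h9, h4 htr v _ _ hn (Finset.prod_ne_zero_iff.2 fun i _ => hx0 i) h10,
      DivVal.ord_prod v _ _ fun i _ => hx0 i]
  have h12 := h5 htr v _ hn hx0 h10
  rw [h11]
  push_cast
  have h13 : (0 : ℝ) ≤ v.logOrd (dlogs fun i => pol (X i)) := by exact_mod_cast h12
  have h14 : ∑ i, 1 / (m i : ℝ) ≤ ∑ i, (1 / (m i : ℝ)) * v.ord (pol (X i)) := by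
    refine Finset.sum_le_sum fun i _ => ?_
    have h15 : (1 : ℝ) ≤ v.ord (pol (X i)) := by exact_mod_cast h8 i
    exact le_mul_of_one_le_right (by positivity) h15
  have h16 : ∑ i, (1 / (m i : ℝ) - 1) * v.ord (pol (X i)) =
      ∑ i, (1 / (m i : ℝ)) * v.ord (pol (X i)) - ∑ i, (v.ord (pol (X i)) : ℝ) := by
    rw [← Finset.sum_sub_distrib]
    refine Finset.sum_congr rfl fun i _ => by ring
  rw [h16]
  linarith

end EXA

/-- EXA -/
theorem t_EXA (h1 : Stmt_TDR) (h2 : Stmt_ORQ) (h3 : Stmt_MON) (h4 : Stmt_FSM) (h5 : Stmt_FDL)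
    (h6 : Stmt_TXT) (h7 : Stmt_UNI) : Stmt_EXA := by
  intro n m hn hm
  obtain ⟨htr, hai⟩ := h1 n
  refine ⟨EXA.germ n htr, EXA.action n htr, EXA.triple m htr hai, inferInstanceAs (IsEmpty Empty),
    ⟨fun P b hc hb => ?_, fun j => j.elim⟩, fun P b hc => ?_, ?_⟩
  · rcases EXA.key h2 h6 h7 m hn htr hai P b hc with h | ⟨i, -, hP⟩
    · exact absurd h hb
    · refine ⟨{EXA.iso n (X i)}, ?_, hP⟩
      intro a ha
      obtain rfl : a = EXA.iso n (X i) := ha
      exact ⟨EXA.w n i, EXA.X_mem i⟩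
  · rcases EXA.key h2 h6 h7 m hn htr hai P b hc with h | ⟨i, hb, -⟩
    · exact ⟨1, 1, le_rfl, one_pos, by rw [h]; norm_num⟩
    · exact ⟨1, m i, le_rfl, hm i, by rw [hb]; norm_num⟩
  · refine IsLeast.csInf_eq ⟨?_, ?_⟩
    · obtain ⟨v, hv, hstd, hord⟩ := h3 (1 : GL (Fin n) ℂ) (fun _ => 1) hn (fun _ => one_pos)
        ⟨Pi.single ⟨0, hn⟩ 1, by simp [Pi.single_apply]⟩
      refine ⟨v, ⟨fun a => ?_, fun a ha ha0 => ?_⟩, ?_⟩
      · obtain ⟨p, rfl⟩ := EXA.exists_iso a
        rw [EXA.coe_iso]
        exact hv.1 p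
      · obtain ⟨p, rfl⟩ := EXA.exists_iso a
        rw [EXA.coe_iso]
        refine hv.2 p (fun h => ha0 (by rw [h, map_zero]; rfl)) ?_
        have h8 : EXA.cc n (EXA.iso n p) = 0 := ha
        rwa [EXA.cc_iso] at h8
      · rw [EXA.disc_eq, EXA.logDisc_eq h6 m hn htr hai v, hstd]
        have h8 : ∀ i : Fin n, v.ord (pol (X i)) = 1 := by
          intro i
          obtain ⟨d, hd, h9⟩ := hord (X i) (X_ne_zero i)
          rw [CHG.linSubst_one] at h9
          rw [MvPolynomial.support_X, Finset.mem_singleton] at hd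
          rw [h9, hd, Finset.sum_eq_single i]
          · simp
          · intro j _ hj
            simp [hj.symm]
          · intro h
            exact absurd (Finset.mem_univ i) h
        have h10 : ∑ i : Fin n, (1 / (m i : ℝ) - 1) * v.ord (pol (X i)) =
            ∑ i : Fin n, (1 / (m i : ℝ) - 1) := by
          refine Finset.sum_congr rfl fun i _ => ?_
          rw [h8 i, Int.cast_one, mul_one]
        rw [h10, Finset.sum_sub_distrib]
        simp
    · rintro c ⟨v, hv, rfl⟩
      rw [EXA.disc_eq, EXA.logDisc_eq h6 m hn htr hai v]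
      exact EXA.lower h4 h5 m hn htr hai v hv

end

end MldGeo
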