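import Pool.Agent.MldGeo.Stmts1
import Pool.Agent.MldGeo.Ord
import Pool.Agent.MldGeo.COE
import Pool.Agent.MldGeo.FRM

/-!
# EXF: logarithmic forms and finite extensions
-/

namespace MldGeo

noncomputable section

namespace EXF

/-- The basis attached to a system of algebraically independent elements. -/
theorem frameBasis (hTBAS : Stmt_TBAS) {m : ℕ} {K : Type} [Field K] [Algebra ℂ K]
    (htr : Algebra.trdeg ℂ K = ((m + 1 : ℕ) : Cardinal)) (t : K) (ht : t ≠ 0) (u : Fin m → K)
    (h : AlgebraicIndependent ℂ (Fin.cons t u : Fin (m + 1) → K)) :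
    ∃ e : Module.Basis (Fin (m + 1)) K (Ω[K⁄ℂ]),
      (e : Fin (m + 1) → Ω[K⁄ℂ]) = Fin.cons (dlog t) fun j => KaehlerDifferential.D ℂ K (u j) := by
  obtain ⟨hli, hsp⟩ := hTBAS htr (Fin.cons t u) h
  let e0 : Module.Basis (Fin (m + 1)) K (Ω[K⁄ℂ]) := Module.Basis.mk hli hsp.ge
  let w0 : Fin (m + 1) → Kˣ := Fin.cons (Units.mk0 t⁻¹ (inv_ne_zero ht)) fun _ => 1
  refine ⟨e0.unitsSMul w0, ?_⟩
  funext i
  refine Fin.cases ?_ (fun j => ?_) i
  · simp only [e0, w0, Module.Basis.unitsSMul_apply, Module.Basis.mk_apply, Fin.cons_zero, dlog]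
    rfl
  · simp only [e0, w0, Module.Basis.unitsSMul_apply, Module.Basis.mk_apply, Fin.cons_succ,
      one_smul]

/-- Only the first coefficient of the first factor matters. -/
theorem wedge_first {K V : Type} [Field K] [AddCommGroup V] [Module K V] {m : ℕ} (a : V)
    (b : Fin m → V) (c : Fin (m + 1) → K) :
    exteriorPower.ιMulti K (m + 1) (Fin.cons (c 0 • a + ∑ j : Fin m, c j.succ • b j) b) =
      c 0 • exteriorPower.ιMulti K (m + 1) (Fin.cons a b : Fin (m + 1) → V) := by
  have hg : ∀ x : V, (exteriorPower.ιMulti K (m + 1)).toMultilinearMap.toLinearMap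
      (Fin.cons a b : Fin (m + 1) → V) 0 x =
      exteriorPower.ιMulti K (m + 1) (Fin.cons x b : Fin (m + 1) → V) := by
    intro x
    rw [MultilinearMap.toLinearMap_apply, Fin.update_cons_zero]
    rfl
  rw [← hg, map_add, map_smul, map_sum, hg]
  refine add_eq_left.2 (Finset.sum_eq_zero fun j _ => ?_)
  rw [map_smul, hg, AlternatingMap.map_eq_zero_of_eq _ _ (i := 0) (j := j.succ) ?_
    (Fin.succ_ne_zero j).symm, smul_zero]
  rw [Fin.cons_zero, Fin.cons_succ]

section Ext

variable {K L : Type} [Field K] [Algebra ℂ K] [Field L] [Algebra ℂ L] [Algebra K L]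
    [IsScalarTower ℂ K L]

theorem map_dlog (a : K) :
    KaehlerDifferential.map ℂ ℂ K L (dlog a) = dlog (algebraMap K L a) := by
  unfold dlog
  rw [map_smul, KaehlerDifferential.map_D, ← map_inv₀, algebraMap_smul]

/-- Determinants with respect to corresponding bases correspond. -/
theorem det_map {n : ℕ} (e : Module.Basis (Fin n) K (Ω[K⁄ℂ]))
    (e' : Module.Basis (Fin n) L (Ω[L⁄ℂ]))
    (h : ∀ i, e' i = KaehlerDifferential.map ℂ ℂ K L (e i)) (x : Fin n → Ω[K⁄ℂ]) :
    e'.det (fun i => KaehlerDifferential.map ℂ ℂ K L (x i)) = algebraMap K L (e.det x) := by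
  rw [Module.Basis.det_apply, Module.Basis.det_apply, RingHom.map_det]
  congr 1
  ext i j
  rw [Module.Basis.toMatrix_apply, RingHom.mapMatrix_apply, Matrix.map_apply,
    Module.Basis.toMatrix_apply]
  have h1 : KaehlerDifferential.map ℂ ℂ K L (x j) =
      ∑ i, algebraMap K L (e.repr (x j) i) • e' i := by
    conv_lhs => rw [← e.sum_repr (x j), map_sum]
    refine Finset.sum_congr rfl fun i _ => ?_
    rw [map_smul, ← h, algebraMap_smul]
  rw [h1, Module.Basis.repr_sum_self]

theorem trdeg_eq [FiniteDimensional K L] : Algebra.trdeg ℂ L = Algebra.trdeg ℂ K := by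
  have h := trdeg_add_eq ℂ K (A := L)
  rw [trdeg_eq_zero (R := K) (A := L), add_zero] at h
  exact h.symm

end Ext

end EXF

theorem t_EXF (hFRA : Stmt_FRA) (hTBAS : Stmt_TBAS) (hLOGD : Stmt_LOGD) (hFRM : Stmt_FRM)
    (_hFSM : Stmt_FSM) : Stmt_EXF := by
  intro n K L _ _ _ _ _ _ _ v' v e htr hn hext g a hg ha hda
  cases n with
  | zero => exact absurd hn (lt_irrefl 0)
  | succ m =>
  obtain ⟨he, hord⟩ := hext
  have hinj : Function.Injective (algebraMap K L) := (algebraMap K L).injective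
  have hι : ∀ b : K, b ≠ 0 → algebraMap K L b ≠ 0 := fun b hb =>
    (map_ne_zero_iff _ hinj).2 hb
  have htrL : Algebra.trdeg ℂ L = ((m + 1 : ℕ) : Cardinal) := by rw [EXF.trdeg_eq (K := K), htr]
  obtain ⟨⟨t, u, hF⟩, -⟩ := hFRA v
  obtain ⟨ht0, ht1, hu⟩ := id hF
  obtain ⟨t', ht'0, ht'1⟩ := v'.unif
  -- the frame above
  have hF' : Frame v' t' fun j => algebraMap K L (u j) := by
    refine ⟨ht'0, ht'1, fun p hp => ?_⟩
    have h1 : MvPolynomial.aeval (fun j => algebraMap K L (u j)) p =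
        algebraMap K L (MvPolynomial.aeval u p) := by
      rw [← MvPolynomial.aeval_algebraMap_apply]
      rfl
    obtain ⟨h2, h3⟩ := hu p hp
    rw [h1]
    exact ⟨hι _ h2, by rw [hord, h3, mul_zero]⟩
  have hai := (hFRA v).2 t u hF
  have hai' : AlgebraicIndependent ℂ
      (Fin.cons (algebraMap K L t) fun j => algebraMap K L (u j) : Fin (m + 1) → L) := by
    have h1 := hai.map' (f := IsScalarTower.toAlgHom ℂ K L) hinj
    have h2 : (Fin.cons (algebraMap K L t) fun j => algebraMap K L (u j) : Fin (m + 1) → L) =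
        (IsScalarTower.toAlgHom ℂ K L) ∘ (Fin.cons t u : Fin (m + 1) → K) := by
      funext i
      refine Fin.cases ?_ (fun j => ?_) i
      · rfl
      · rfl
    rw [h2]
    exact h1
  obtain ⟨e1, he1⟩ := EXF.frameBasis hTBAS htr t ht0 u hai
  obtain ⟨e2, he2⟩ := EXF.frameBasis hTBAS htrL (algebraMap K L t) (hι t ht0)
    (fun j => algebraMap K L (u j)) hai'
  have h12 : ∀ i, e2 i = KaehlerDifferential.map ℂ ℂ K L (e1 i) := by
    intro i
    rw [he1, he2]
    refine Fin.cases ?_ (fun j => ?_) i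
    · rw [Fin.cons_zero, Fin.cons_zero, EXF.map_dlog]
    · rw [Fin.cons_succ, Fin.cons_succ, KaehlerDifferential.map_D]
  -- the form below
  obtain ⟨h, hh⟩ : ∃ h, h = e1.det fun i => dlog (a i) := ⟨_, rfl⟩
  have hK : dlogs a = h • frameForm t u := by
    have h1 := FRM.iota_eq e1 fun i => dlog (a i)
    rw [he1, ← hh] at h1
    exact h1
  have hh0 : h ≠ 0 := by
    rintro rfl
    rw [zero_smul] at hK
    exact hda hK
  -- the form above
  have hL : dlogs (fun i => algebraMap K L (a i)) =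
      algebraMap K L h • frameForm (algebraMap K L t) fun j => algebraMap K L (u j) := by
    have h1 := FRM.iota_eq e2 fun i => dlog (algebraMap K L (a i))
    have h2 : e2.det (fun i => dlog (algebraMap K L (a i))) = algebraMap K L h := by
      rw [hh, ← EXF.det_map e1 e2 h12]
      simp only [EXF.map_dlog]
    rw [h2, he2] at h1
    exact h1
  -- the uniformizer
  obtain ⟨c, -, hc1, hc⟩ := t_COE hFRA hLOGD hTBAS htrL v' t' _ hF' (algebraMap K L t) (hι t ht0)
  have hfr : frameForm (algebraMap K L t) (fun j => algebraMap K L (u j)) =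
      c 0 • frameForm t' fun j => algebraMap K L (u j) := by
    unfold frameForm
    rw [hc]
    exact EXF.wedge_first _ _ c
  have he0 : (e : L) ≠ 0 := by
    have h1 : ((e : ℕ) : L) = algebraMap ℂ L e := by rw [map_natCast]
    rw [h1]
    exact (map_ne_zero_iff _ (algebraMap ℂ L).injective).2 (Nat.cast_ne_zero.2 he.ne')
  have hc0 : c 0 ≠ 0 ∧ v'.ord (c 0) = 0 := by
    have h1 : (v'.ord (algebraMap K L t) : L) = (e : L) := by
      rw [hord, ht1, mul_one, Int.cast_natCast]
    rw [h1] at hc1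
    have h2 := DivVal.ord_eq_of_sub (v := v') (a := (e : L)) (b := c 0) he0
      (by rw [DivVal.ord_natCast, zero_add]; exact hc1.sub_comm)
    rwa [DivVal.ord_natCast] at h2
  obtain ⟨hne', -, hord'⟩ := hFRM htrL v' t' _ hF'
  obtain ⟨-, -, hordK⟩ := hFRM htr v t u hF
  constructor
  · rw [hL, hfr, smul_smul]
    exact smul_ne_zero (mul_ne_zero (hι h hh0) hc0.1) hne'
  · rw [hL, hfr, smul_smul, smul_smul, mul_assoc, hord' _ (mul_ne_zero (hι g hg)
      (mul_ne_zero (hι h hh0) hc0.1)), hK, smul_smul, hordK _ (mul_ne_zero hg hh0),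
      v'.ord_mul _ _ (hι g hg) (mul_ne_zero (hι h hh0) hc0.1), v'.ord_mul _ _ (hι h hh0) hc0.1,
      hc0.2, hord, hord, v.ord_mul _ _ hg hh0]
    ring

end

end MldGeo
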