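import Pool.Agent.MldGeo.Stmts1

/-!
# Restriction of divisorial valuations to a subfield of finite index
-/

namespace MldGeo

open MvPolynomial

noncomputable section

namespace EXR

section ord

variable {n : ℕ} {L : Type} [Field L] [Algebra ℂ L] (v : DivVal n L)

theorem ord_one : v.ord 1 = 0 := by
  have h := v.ord_const 1
  rwa [map_one] at h

theorem ord_neg {a : L} (ha : a ≠ 0) : v.ord (-a) = v.ord a := by
  have h1 : v.ord (-1) = 0 := by
    have h := v.ord_const (-1)
    rwa [map_neg, map_one] at h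
  have h2 := v.ord_mul (-1) a (neg_ne_zero.2 one_ne_zero) ha
  rw [neg_one_mul, h1, zero_add] at h2
  exact h2

theorem ord_inv {a : L} (ha : a ≠ 0) : v.ord a⁻¹ = - v.ord a := by
  have h := v.ord_mul a a⁻¹ ha (inv_ne_zero ha)
  rw [mul_inv_cancel₀ ha, ord_one] at h
  linarith

theorem ord_pow {a : L} (ha : a ≠ 0) (k : ℕ) : v.ord (a ^ k) = k * v.ord a := by
  induction k with
  | zero => simp [ord_one]
  | succ k ih =>
    rw [pow_succ, v.ord_mul _ _ (pow_ne_zero k ha) ha, ih]
    push_cast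
    ring

theorem ge_add {k : ℤ} {a b : L} (ha : v.Ge k a) (hb : v.Ge k b) : v.Ge k (a + b) := by
  by_cases ha0 : a = 0
  · rw [ha0, zero_add]
    exact hb
  by_cases hb0 : b = 0
  · rw [hb0, add_zero]
    exact ha
  by_cases h : a + b = 0
  · exact Or.inl h
  exact Or.inr (le_trans (le_min (ha.resolve_left ha0) (hb.resolve_left hb0))
    (v.ord_add a b ha0 hb0 h))

theorem ge_mul {j k : ℤ} {a b : L} (ha : v.Ge j a) (hb : v.Ge k b) : v.Ge (j + k) (a * b) := by
  by_cases ha0 : a = 0
  · exact Or.inl (by rw [ha0, zero_mul])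
  by_cases hb0 : b = 0
  · exact Or.inl (by rw [hb0, mul_zero])
  refine Or.inr ?_
  rw [v.ord_mul a b ha0 hb0]
  exact add_le_add (ha.resolve_left ha0) (hb.resolve_left hb0)

theorem ge_sum {ι : Type*} (s : Finset ι) (f : ι → L) {k : ℤ} (h : ∀ i ∈ s, v.Ge k (f i)) :
    v.Ge k (∑ i ∈ s, f i) := by
  classical
  induction s using Finset.induction_on with
  | empty => exact Or.inl (by simp)
  | insert i s hi ih =>
    rw [Finset.sum_insert hi]
    exact ge_add v (h i (Finset.mem_insert_self i s))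
      (ih fun j hj => h j (Finset.mem_insert_of_mem hj))

/-- The valuation ring. -/
def O : Subalgebra ℂ L where
  carrier := {a | v.Ge 0 a}
  mul_mem' := fun ha hb => by simpa using ge_mul v ha hb
  add_mem' := fun ha hb => ge_add v ha hb
  algebraMap_mem' := fun c => Or.inr (v.ord_const c).ge

/-- The maximal ideal. -/
def m : Ideal (O v) where
  carrier := {x | v.Ge 1 (x : L)}
  add_mem' := fun {a b} ha hb => by
    change v.Ge 1 (((a + b : O v)) : L)
    rw [Subalgebra.coe_add]
    exact ge_add v ha hb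
  zero_mem' := Or.inl rfl
  smul_mem' := fun c x hx => by
    change v.Ge 1 (((c * x : O v)) : L)
    rw [Subalgebra.coe_mul]
    have h := ge_mul v c.2 hx
    rwa [zero_add] at h

theorem mem_m {x : O v} : x ∈ m v ↔ v.Ge 1 (x : L) := Iff.rfl

theorem not_mem_m {x : O v} (h : x ∉ m v) : (x : L) ≠ 0 ∧ v.ord (x : L) = 0 := by
  have h1 : ¬ ((x : L) = 0 ∨ 1 ≤ v.ord (x : L)) := h
  rw [not_or] at h1
  have h2 : 0 ≤ v.ord (x : L) := (x.2 : v.Ge 0 (x : L)).resolve_left h1.1
  exact ⟨h1.1, by omega⟩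

instance m_prime : (m v).IsPrime := by
  refine ⟨?_, ?_⟩
  · intro h
    have h1 : (1 : O v) ∈ m v := by rw [h]; trivial
    rcases h1 with h1 | h1
    · exact one_ne_zero h1
    · have h2 : v.ord (1 : L) = 0 := ord_one v
      rw [show ((1 : O v) : L) = 1 from rfl, h2] at h1
      omega
  · intro x y hxy
    by_contra hcon
    rw [not_or] at hcon
    obtain ⟨hx0, hx⟩ := not_mem_m v hcon.1
    obtain ⟨hy0, hy⟩ := not_mem_m v hcon.2
    have h1 : v.Ge 1 ((x * y : O v) : L) := hxy
    rw [Subalgebra.coe_mul] at h1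
    rcases h1 with h1 | h1
    · exact mul_ne_zero hx0 hy0 h1
    · rw [v.ord_mul _ _ hx0 hy0, hx, hy] at h1
      omega

/-- The residue ring. -/
abbrev Res : Type := O v ⧸ m v

/-- The residues of the `u j` are algebraically independent iff the nonzero polynomials have
order `0`. -/
theorem algInd_iff {ι : Type} (u : ι → O v) :
    AlgebraicIndependent ℂ (fun i => Ideal.Quotient.mk (m v) (u i)) ↔
      ∀ p : MvPolynomial ι ℂ, p ≠ 0 →
        aeval (fun i => (u i : L)) p ≠ 0 ∧ v.ord (aeval (fun i => (u i : L)) p) = 0 := by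
  have key : ∀ p : MvPolynomial ι ℂ,
      aeval (fun i => Ideal.Quotient.mk (m v) (u i)) p = Ideal.Quotient.mk (m v) (aeval u p) := by
    intro p
    have h : (aeval fun i => Ideal.Quotient.mk (m v) (u i)) =
        (Ideal.Quotient.mkₐ ℂ (m v)).comp (aeval u) := by
      refine MvPolynomial.algHom_ext fun i => ?_
      simp
    rw [h]
    rfl
  have key2 : ∀ p : MvPolynomial ι ℂ, ((aeval u p : O v) : L) = aeval (fun i => (u i : L)) p := by
    intro p
    have h : (aeval fun i => (u i : L)) = (O v).val.comp (aeval u) := by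
      refine MvPolynomial.algHom_ext fun i => ?_
      simp
    rw [h]
    rfl
  rw [algebraicIndependent_iff]
  constructor
  · intro h p hp
    have h1 : aeval u p ∉ m v := by
      intro hcon
      apply hp
      apply h
      rw [key]
      exact Ideal.Quotient.eq_zero_iff_mem.2 hcon
    have h2 := not_mem_m v h1
    rwa [key2] at h2
  · intro h p hp
    by_contra hp0
    obtain ⟨h1, h2⟩ := h p hp0
    rw [key] at hp
    have h3 : v.Ge 1 ((aeval u p : O v) : L) := Ideal.Quotient.eq_zero_iff_mem.1 hp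
    rw [key2] at h3
    rcases h3 with h3 | h3
    · exact h1 h3
    · omega

end ord

section ext

variable {n : ℕ} {K L : Type} [Field K] [Algebra ℂ K] [Field L] [Algebra ℂ L] [Algebra K L]
  [IsScalarTower ℂ K L] [FiniteDimensional K L] (v : DivVal n L)

/-- The residues of the elements of `K`. -/
def S (K : Type) [Field K] [Algebra K L] : Set (Res v) :=
  {r | ∃ (x : O v) (a : K), algebraMap K L a = (x : L) ∧ Ideal.Quotient.mk (m v) x = r}

omit [Algebra ℂ K] [IsScalarTower ℂ K L] in
theorem residue_algebraic : Algebra.IsAlgebraic (Algebra.adjoin ℂ (S v K)) (Res v) := by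
  refine ⟨fun r => ?_⟩
  obtain ⟨b, rfl⟩ := Ideal.Quotient.mk_surjective r
  set P : Polynomial K := minpoly K (b : L) with hP
  have hPm : P.Monic := minpoly.monic (Algebra.IsIntegral.isIntegral (b : L))
  have hP0 : P ≠ 0 := hPm.ne_zero
  have hsup : P.support.Nonempty := Polynomial.nonempty_support_iff.2 hP0
  obtain ⟨i0, hi0, hmin⟩ := P.support.exists_min_image
    (fun i => v.ord (algebraMap K L (P.coeff i))) hsup
  have hc : P.coeff i0 ≠ 0 := Polynomial.mem_support_iff.1 hi0
  have hcL : algebraMap K L (P.coeff i0) ≠ 0 := by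
    rw [Ne, map_eq_zero]
    exact hc
  have hq : ∀ i, v.Ge 0 (algebraMap K L ((P.coeff i0)⁻¹ * P.coeff i)) := by
    intro i
    by_cases hi : P.coeff i = 0
    · exact Or.inl (by rw [hi, mul_zero, map_zero])
    · right
      have hiL : algebraMap K L (P.coeff i) ≠ 0 := by
        rw [Ne, map_eq_zero]
        exact hi
      have h1 := hmin i (Polynomial.mem_support_iff.2 hi)
      rw [map_mul, map_inv₀, v.ord_mul _ _ (inv_ne_zero hcL) hiL, ord_inv v hcL]
      linarith
  let s : ℕ → Algebra.adjoin ℂ (S v K) := fun i =>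
    ⟨Ideal.Quotient.mk (m v) ⟨algebraMap K L ((P.coeff i0)⁻¹ * P.coeff i), hq i⟩,
      Algebra.subset_adjoin ⟨_, _, rfl, rfl⟩⟩
  refine ⟨∑ i ∈ Finset.range (P.natDegree + 1), Polynomial.monomial i (s i), ?_, ?_⟩
  · intro h0
    have h1 := congrArg (fun Q => Polynomial.coeff Q i0) h0
    simp only [Polynomial.finsetSum_coeff, Polynomial.coeff_monomial, Polynomial.coeff_zero] at h1
    rw [Finset.sum_ite_eq' (Finset.range (P.natDegree + 1)) i0 s] at h1
    have hmem : i0 ∈ Finset.range (P.natDegree + 1) :=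
      Finset.mem_range.2 (Nat.lt_succ_of_le (Polynomial.le_natDegree_of_ne_zero hc))
    rw [if_pos hmem] at h1
    have h2 : (⟨algebraMap K L ((P.coeff i0)⁻¹ * P.coeff i0), hq i0⟩ : O v) = 1 := by
      apply Subtype.ext
      change algebraMap K L ((P.coeff i0)⁻¹ * P.coeff i0) = 1
      rw [inv_mul_cancel₀ hc, map_one]
    have h3 : ((s i0 : Algebra.adjoin ℂ (S v K)) : Res v) = 1 := by
      change Ideal.Quotient.mk (m v) ⟨algebraMap K L ((P.coeff i0)⁻¹ * P.coeff i0), hq i0⟩ = 1
      rw [h2, map_one]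
    rw [h1] at h3
    exact zero_ne_one h3
  · rw [map_sum]
    have h1 : ∀ i ∈ Finset.range (P.natDegree + 1),
        Polynomial.aeval (Ideal.Quotient.mk (m v) b) (Polynomial.monomial i (s i)) =
        Ideal.Quotient.mk (m v)
          (⟨algebraMap K L ((P.coeff i0)⁻¹ * P.coeff i), hq i⟩ * b ^ i) := by
      intro i _
      rw [Polynomial.aeval_monomial, map_mul, map_pow]
      rfl
    rw [Finset.sum_congr rfl h1, ← map_sum]
    have h2 : (∑ i ∈ Finset.range (P.natDegree + 1),
        (⟨algebraMap K L ((P.coeff i0)⁻¹ * P.coeff i), hq i⟩ * b ^ i) : O v) = 0 := by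
      apply Subtype.ext
      have h3 : ((∑ i ∈ Finset.range (P.natDegree + 1),
        (⟨algebraMap K L ((P.coeff i0)⁻¹ * P.coeff i), hq i⟩ * b ^ i) : O v) : L) =
          ∑ i ∈ Finset.range (P.natDegree + 1),
            algebraMap K L ((P.coeff i0)⁻¹ * P.coeff i) * (b : L) ^ i := by
        rw [← Subalgebra.coe_val (O v)]
        simp only [map_sum, map_mul, map_pow]
        rfl
      rw [h3]
      have h4 : Polynomial.aeval (b : L) P = 0 := minpoly.aeval K (b : L)
      rw [Polynomial.aeval_eq_sum_range] at h4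
      have h5 : ∑ i ∈ Finset.range (P.natDegree + 1),
          algebraMap K L ((P.coeff i0)⁻¹ * P.coeff i) * (b : L) ^ i =
          algebraMap K L (P.coeff i0)⁻¹ *
            ∑ i ∈ Finset.range (P.natDegree + 1), P.coeff i • (b : L) ^ i := by
        rw [Finset.mul_sum]
        refine Finset.sum_congr rfl fun i _ => ?_
        rw [Algebra.smul_def, map_mul]
        ring
      rw [h5, h4, mul_zero]
      rfl
    rw [h2, map_zero]

/-- The residue condition. -/
theorem res_exists : ∃ u : Fin (n - 1) → K, ∀ p : MvPolynomial (Fin (n - 1)) ℂ, p ≠ 0 →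
    aeval u p ≠ 0 ∧ v.ord (algebraMap K L (aeval u p)) = 0 := by
  obtain ⟨w, hw⟩ := v.res
  have hw0 : ∀ j, w j ∈ O v := fun j => by
    have h := hw (X j) (X_ne_zero j)
    rw [aeval_X] at h
    exact Or.inr h.2.ge
  have hind : AlgebraicIndependent ℂ (fun j => Ideal.Quotient.mk (m v) (⟨w j, hw0 j⟩ : O v)) :=
    (algInd_iff v _).2 hw
  have halg := residue_algebraic (K := K) v
  obtain ⟨t, hts, htb⟩ := exists_isTranscendenceBasis_subset (R := ℂ) (S v K)
  have h1 : Cardinal.mk (Fin (n - 1)) ≤ Cardinal.mk t := by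
    rw [htb.cardinalMk_eq_trdeg]
    exact hind.cardinalMk_le_trdeg
  obtain ⟨⟨g, hg⟩⟩ := h1
  have h2 : ∀ j, ∃ (x : O v) (a : K), algebraMap K L a = (x : L) ∧
      Ideal.Quotient.mk (m v) x = (g j : Res v) := fun j => hts (g j).2
  choose x a ha hx using h2
  have h3 : AlgebraicIndependent ℂ (fun j => Ideal.Quotient.mk (m v) (x j)) := by
    have h4 := htb.1.comp g hg
    convert h4 using 1
    ext j
    exact hx j
  refine ⟨a, fun p hp => ?_⟩
  obtain ⟨h5, h6⟩ := (algInd_iff v x).1 h3 p hp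
  have h7 : algebraMap K L (aeval a p) = aeval (fun j => (x j : L)) p := by
    have h8 : (fun j => (x j : L)) = algebraMap K L ∘ a := funext fun j => (ha j).symm
    rw [h8]
    exact (aeval_algebraMap_apply (B := L) a p).symm
  rw [h7]
  refine ⟨fun h0 => h5 ?_, h6⟩
  rw [← h7, h0, map_zero]

/-- The values of `v` on `K`. -/
def H (K : Type) [Field K] [Algebra K L] : AddSubgroup ℤ where
  carrier := {k | ∃ a : K, a ≠ 0 ∧ v.ord (algebraMap K L a) = k}
  zero_mem' := ⟨1, one_ne_zero, by rw [map_one, ord_one]⟩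
  add_mem' := by
    rintro _ _ ⟨a, ha, rfl⟩ ⟨b, hb, rfl⟩
    refine ⟨a * b, mul_ne_zero ha hb, ?_⟩
    rw [map_mul, v.ord_mul _ _ (fun h => ha ((map_eq_zero _).1 h)) fun h => hb ((map_eq_zero _).1 h)]
  neg_mem' := by
    rintro _ ⟨a, ha, rfl⟩
    refine ⟨a⁻¹, inv_ne_zero ha, ?_⟩
    rw [map_inv₀, ord_inv v fun h => ha ((map_eq_zero _).1 h)]

omit [Algebra ℂ K] [IsScalarTower ℂ K L] in
theorem H_ne_bot : H v K ≠ ⊥ := by
  intro hbot
  have htriv : ∀ a : K, v.Ge 0 (algebraMap K L a) := by
    intro a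
    by_cases ha : a = 0
    · exact Or.inl (by rw [ha, map_zero])
    · right
      have h1 : v.ord (algebraMap K L a) ∈ H v K := ⟨a, ha, rfl⟩
      rw [hbot, AddSubgroup.mem_bot] at h1
      exact h1.ge
  obtain ⟨t, ht0, ht⟩ := v.unif
  set s := t⁻¹ with hs
  have hs0 : s ≠ 0 := inv_ne_zero ht0
  have hso : v.ord s = -1 := by rw [hs, ord_inv v ht0, ht]
  set P : Polynomial K := minpoly K s with hP
  have hint : IsIntegral K s := Algebra.IsIntegral.isIntegral s
  have hPm : P.Monic := minpoly.monic hint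
  have hd : 0 < P.natDegree := minpoly.natDegree_pos hint
  have h0 : Polynomial.aeval s P = 0 := minpoly.aeval K s
  rw [Polynomial.aeval_eq_sum_range, Finset.sum_range_succ, hPm.coeff_natDegree, one_smul] at h0
  have h1 : s ^ P.natDegree = - ∑ i ∈ Finset.range P.natDegree, P.coeff i • s ^ i :=
    eq_neg_of_add_eq_zero_right h0
  have h2 : v.Ge (-(P.natDegree : ℤ) + 1) (∑ i ∈ Finset.range P.natDegree, P.coeff i • s ^ i) := by
    refine ge_sum v _ _ fun i hi => ?_
    rw [Algebra.smul_def]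
    have h3 : v.Ge (-(P.natDegree : ℤ) + 1) (s ^ i) := by
      right
      rw [ord_pow v hs0, hso]
      have := Finset.mem_range.1 hi
      omega
    have h4 := ge_mul v (htriv (P.coeff i)) h3
    rwa [zero_add] at h4
  have h5 : ∑ i ∈ Finset.range P.natDegree, P.coeff i • s ^ i ≠ 0 := by
    intro h
    rw [h, neg_zero] at h1
    exact pow_ne_zero _ hs0 h1
  have h6 := h2.resolve_left h5
  have h7 : v.ord (s ^ P.natDegree) = v.ord (∑ i ∈ Finset.range P.natDegree, P.coeff i • s ^ i) := by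
    rw [h1, ord_neg v h5]
  rw [ord_pow v hs0, hso] at h7
  omega

end ext

end EXR

/-- **EXR**: restriction of divisorial valuations to a subfield of finite index. -/
theorem t_EXR : Stmt_EXR := by
  intro n K L _ _ _ _ _ _ _ v hn
  obtain ⟨g, hg⟩ := Int.subgroup_cyclic (EXR.H v K)
  have hg0 : g ≠ 0 := by
    rintro rfl
    apply EXR.H_ne_bot (K := K) v
    rw [hg]
    simp
  have hmem : ∀ k : ℤ, k ∈ EXR.H v K ↔ (g.natAbs : ℤ) ∣ k := by
    intro k
    rw [hg, ← AddSubgroup.zmultiples_eq_closure, Int.mem_zmultiples_iff, Int.natAbs_dvd]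
  have he : 0 < g.natAbs := Int.natAbs_pos.2 hg0
  have heZ : (g.natAbs : ℤ) ≠ 0 := by exact_mod_cast he.ne'
  have hne : ∀ a : K, a ≠ 0 → algebraMap K L a ≠ 0 := fun a ha h => ha ((map_eq_zero _).1 h)
  have hdvd : ∀ a : K, (g.natAbs : ℤ) ∣ v.ord (algebraMap K L a) := by
    intro a
    by_cases ha : a = 0
    · rw [ha, map_zero, v.ord_zero]
      exact dvd_zero _
    · exact (hmem _).1 ⟨a, ha, rfl⟩
  have hdiv : ∀ a : K, (g.natAbs : ℤ) * (v.ord (algebraMap K L a) / g.natAbs) =
      v.ord (algebraMap K L a) := fun a => Int.mul_ediv_cancel' (hdvd a)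
  obtain ⟨t, ht0, ht⟩ := (hmem (g.natAbs : ℤ)).2 dvd_rfl
  obtain ⟨u, hu⟩ := EXR.res_exists (K := K) v
  refine ⟨{
    ord := fun a => v.ord (algebraMap K L a) / g.natAbs
    ord_zero := by rw [map_zero, v.ord_zero, Int.zero_ediv]
    ord_mul := fun a b ha hb => by
      rw [map_mul, v.ord_mul _ _ (hne a ha) (hne b hb), Int.add_ediv_of_dvd_left (hdvd a)]
    ord_add := fun a b ha hb hab => by
      have h1 := v.ord_add _ _ (hne a ha) (hne b hb) (by rw [← map_add]; exact hne _ hab)
      rw [← map_add] at h1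
      have hpos : (0 : ℤ) < g.natAbs := by exact_mod_cast he
      rcases min_le_iff.1 h1 with h2 | h2
      · exact (min_le_left _ _).trans (Int.ediv_le_ediv hpos h2)
      · exact (min_le_right _ _).trans (Int.ediv_le_ediv hpos h2)
    ord_const := fun c => by
      rw [← IsScalarTower.algebraMap_apply ℂ K L, v.ord_const, Int.zero_ediv]
    unif := ⟨t, ht0, by rw [ht, Int.ediv_self heZ]⟩
    res := ⟨u, fun p hp => ⟨(hu p hp).1, by rw [(hu p hp).2, Int.zero_ediv]⟩⟩ }, g.natAbs, he, ?_⟩
  intro a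
  exact (hdiv a).symm

end

end MldGeo
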