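import Pool.Agent.MldGeo.Stmts1

/-!
# Extension of divisorial valuations to finite extension fields
-/

namespace MldGeo

open MvPolynomial

noncomputable section

namespace EXT

section basic

variable {n : ℕ} {K : Type} [Field K] [Algebra ℂ K] (v : DivVal n K)

theorem ord_one : v.ord 1 = 0 := by
  have h := v.ord_mul 1 1 one_ne_zero one_ne_zero
  rw [mul_one] at h
  omega

theorem ord_inv {a : K} (ha : a ≠ 0) : v.ord a⁻¹ = - v.ord a := by
  have h := v.ord_mul a a⁻¹ ha (inv_ne_zero ha)
  rw [mul_inv_cancel₀ ha, ord_one] at h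
  omega

theorem ord_pow {a : K} (ha : a ≠ 0) (k : ℕ) : v.ord (a ^ k) = k * v.ord a := by
  induction k with
  | zero => simp [ord_one]
  | succ k ih =>
    rw [pow_succ, v.ord_mul _ _ (pow_ne_zero _ ha) ha, ih]
    push_cast
    ring

theorem ord_neg (a : K) : v.ord (-a) = v.ord a := by
  by_cases ha : a = 0
  · simp [ha]
  · have h : -a = algebraMap ℂ K (-1) * a := by simp
    rw [h, v.ord_mul _ _ (by simp) ha, v.ord_const]
    simp

/-- The valuation ring of `v`. -/
def vs : ValuationSubring K where
  carrier := {a | v.Ge 0 a}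
  mul_mem' := by
    rintro a b ha hb
    by_cases ha0 : a = 0
    · left; simp [ha0]
    by_cases hb0 : b = 0
    · left; simp [hb0]
    rcases ha with ha | ha
    · exact absurd ha ha0
    rcases hb with hb | hb
    · exact absurd hb hb0
    right
    rw [v.ord_mul a b ha0 hb0]
    omega
  one_mem' := by
    right
    rw [ord_one]
  add_mem' := by
    rintro a b ha hb
    by_cases ha0 : a = 0
    · simpa [ha0] using hb
    by_cases hb0 : b = 0
    · simpa [hb0] using ha
    by_cases hab : a + b = 0
    · left; exact hab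
    rcases ha with ha | ha
    · exact absurd ha ha0
    rcases hb with hb | hb
    · exact absurd hb hb0
    right
    exact le_trans (le_min ha hb) (v.ord_add a b ha0 hb0 hab)
  zero_mem' := by
    left; rfl
  neg_mem' := by
    rintro a ha
    rcases ha with ha | ha
    · left; simp [ha]
    · right
      rw [ord_neg]
      exact ha
  mem_or_inv_mem' := by
    intro a
    by_cases ha : a = 0
    · left; left; exact ha
    rcases le_total 0 (v.ord a) with h | h
    · left; right; exact h
    · right; right
      rw [ord_inv v ha]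
      omega

theorem mem_vs (a : K) : a ∈ vs v ↔ v.Ge 0 a := Iff.rfl

end basic

section ext

variable {n : ℕ} {K L : Type} [Field K] [Algebra ℂ K] [Field L] [Algebra K L]

/-- There is a valuation ring of `L` above the valuation ring of `v`. -/
theorem exists_over (v : DivVal n K) :
    ∃ A : ValuationSubring L, ∀ a : K, algebraMap K L a ∈ A ↔ v.Ge 0 a := by
  obtain ⟨A, hA, hloc⟩ := IsLocalRing.exists_factor_valuationRing
    ((algebraMap K L).comp (vs v).subtype)
  refine ⟨A, fun a => ⟨fun h => ?_, fun h => hA ⟨a, h⟩⟩⟩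
  by_contra hne
  have ha0 : a ≠ 0 := fun h0 => hne (Or.inl h0)
  have hneg : v.ord a < 0 := by
    by_contra hlt
    exact hne (Or.inr (by omega))
  have hinv : v.Ge 0 a⁻¹ := by
    right
    rw [ord_inv v ha0]
    omega
  have hu : IsUnit (((algebraMap K L).comp (vs v).subtype).codRestrict A.toSubring hA
      ⟨a⁻¹, hinv⟩) := by
    refine IsUnit.of_mul_eq_one ⟨algebraMap K L a, h⟩ ?_
    apply Subtype.ext
    change algebraMap K L a⁻¹ * algebraMap K L a = 1
    rw [← map_mul, inv_mul_cancel₀ ha0, map_one]
  have hu2 : IsUnit (⟨a⁻¹, hinv⟩ : vs v) := hloc.map_nonunit _ hu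
  obtain ⟨b, hb⟩ := hu2.exists_right_inv
  have hb' : a⁻¹ * (b : K) = 1 := congrArg Subtype.val hb
  have hba : (b : K) = a := by
    field_simp at hb'
    exact hb'
  apply hne
  rw [← hba]
  exact b.2

omit [Algebra ℂ K] in
theorem exists_pow [FiniteDimensional K L] (A : ValuationSubring L) (b : L) (hb : b ≠ 0) :
    ∃ k : ℕ, 0 < k ∧ k ≤ Module.finrank K L ∧ ∃ c : K, c ≠ 0 ∧
      A.valuation (b ^ k) = A.valuation (algebraMap K L c) := by
  have hint : IsIntegral K b := Algebra.IsIntegral.isIntegral b
  set p := minpoly K b with hp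
  have hp0 : p ≠ 0 := minpoly.ne_zero hint
  have hdeg : p.natDegree ≤ Module.finrank K L := minpoly.natDegree_le b
  have hsum : ∑ i ∈ p.support, algebraMap K L (p.coeff i) * b ^ i = 0 := by
    have h := minpoly.aeval K b
    rw [Polynomial.aeval_eq_sum_range, ← hp] at h
    rw [← h]
    have hsub : p.support ⊆ Finset.range (p.natDegree + 1) := Polynomial.supp_subset_range_natDegree_succ
    rw [Finset.sum_subset hsub]
    · refine Finset.sum_congr rfl fun i _ => ?_
      rw [Algebra.smul_def]
    · intro i _ hi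
      rw [Polynomial.notMem_support_iff.1 hi]
      simp
  have hne : p.support.Nonempty := Polynomial.support_nonempty.2 hp0
  obtain ⟨j, hj, hmax⟩ := Finset.exists_max_image p.support
    (fun i => A.valuation (algebraMap K L (p.coeff i) * b ^ i)) hne
  have hterm : ∀ i ∈ p.support, algebraMap K L (p.coeff i) * b ^ i ≠ 0 := by
    intro i hi
    refine mul_ne_zero ?_ (pow_ne_zero _ hb)
    rw [Ne, map_eq_zero_iff _ (algebraMap K L).injective]
    exact Polynomial.mem_support_iff.1 hi
  have hex : ∃ i ∈ p.support, i ≠ j ∧ A.valuation (algebraMap K L (p.coeff i) * b ^ i) =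
      A.valuation (algebraMap K L (p.coeff j) * b ^ j) := by
    by_contra hcon
    push Not at hcon
    have h1 := Valuation.map_sum_eq_of_lt A.valuation (s := p.support)
      (f := fun i => algebraMap K L (p.coeff i) * b ^ i) hj
      (by
        intro i hi
        rw [Finset.mem_sdiff, Finset.mem_singleton] at hi
        exact lt_of_le_of_ne (hmax i hi.1) (hcon i hi.1 hi.2))
    rw [hsum, map_zero] at h1
    exact hterm j hj ((Valuation.zero_iff _).1 h1.symm)
  obtain ⟨i, hi, hij, hval⟩ := hex
  have key : ∀ i ∈ p.support, ∀ j ∈ p.support, i < j →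
      A.valuation (algebraMap K L (p.coeff i) * b ^ i) =
        A.valuation (algebraMap K L (p.coeff j) * b ^ j) →
      ∃ k : ℕ, 0 < k ∧ k ≤ Module.finrank K L ∧ ∃ c : K, c ≠ 0 ∧
        A.valuation (b ^ k) = A.valuation (algebraMap K L c) := by
    intro i hi j hj hlt hv
    have hci : p.coeff i ≠ 0 := Polynomial.mem_support_iff.1 hi
    have hcj : p.coeff j ≠ 0 := Polynomial.mem_support_iff.1 hj
    refine ⟨j - i, by omega, ?_, p.coeff i / p.coeff j, div_ne_zero hci hcj, ?_⟩
    · have : j ≤ p.natDegree := Polynomial.le_natDegree_of_mem_supp j hj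
      omega
    · have hvj : A.valuation (algebraMap K L (p.coeff j)) ≠ 0 := by
        rw [Ne, Valuation.zero_iff, map_eq_zero_iff _ (algebraMap K L).injective]
        exact hcj
      have hvb : A.valuation (b ^ i) ≠ 0 := by
        rw [Ne, Valuation.zero_iff]
        exact pow_ne_zero _ hb
      have hbj : b ^ j = b ^ (j - i) * b ^ i := by
        rw [← pow_add]
        congr 1
        omega
      rw [hbj, map_mul, map_mul, map_mul, ← mul_assoc] at hv
      have hv2 := mul_right_cancel₀ hvb hv
      rw [map_div₀, map_div₀, hv2]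
      field_simp
  rcases lt_or_gt_of_ne hij with h | h
  · exact key i hi j hj h hval
  · exact key j hj i hi h hval.symm

/-- Data of the extension: the order of a power of `b`. -/
theorem exists_W [FiniteDimensional K L] (v : DivVal n K) (A : ValuationSubring L)
    (hA : ∀ a : K, algebraMap K L a ∈ A ↔ v.Ge 0 a) :
    ∃ (D : ℕ) (W : L → ℤ), 0 < D ∧ (∀ a b, a ≠ 0 → b ≠ 0 → W (a * b) = W a + W b) ∧
      (∀ b, b ≠ 0 → (0 ≤ W b ↔ b ∈ A)) ∧ ∀ a : K, a ≠ 0 → W (algebraMap K L a) = D * v.ord a := by
  classical
  have hinj := (algebraMap K L).injective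
  -- equal valuations give equal orders
  have huniq : ∀ c c' : K, c ≠ 0 → c' ≠ 0 →
      A.valuation (algebraMap K L c) = A.valuation (algebraMap K L c') → v.ord c = v.ord c' := by
    have hle : ∀ c c' : K, c ≠ 0 → c' ≠ 0 →
        A.valuation (algebraMap K L c) = A.valuation (algebraMap K L c') →
        v.ord c' ≤ v.ord c := by
      intro c c' hc hc' h
      have h1 : A.valuation (algebraMap K L (c / c')) ≤ 1 := by
        rw [map_div₀, map_div₀, h, div_self]
        rw [Ne, Valuation.zero_iff, map_eq_zero_iff _ hinj]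
        exact hc'
      rw [ValuationSubring.valuation_le_one_iff, hA] at h1
      rcases h1 with h1 | h1
      · exact absurd h1 (div_ne_zero hc hc')
      · rw [div_eq_mul_inv, v.ord_mul _ _ hc (inv_ne_zero hc'), ord_inv v hc'] at h1
        omega
    intro c c' hc hc' h
    exact le_antisymm (hle c' c hc' hc h.symm) (hle c c' hc hc' h)
  set D : ℕ := (Module.finrank K L).factorial with hD
  have hDpos : 0 < D := Nat.factorial_pos _
  have hpow : ∀ b : L, b ≠ 0 → ∃ c : K, c ≠ 0 ∧
      A.valuation (b ^ D) = A.valuation (algebraMap K L c) := by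
    intro b hb
    obtain ⟨k, hk0, hk, c, hc, hval⟩ := exists_pow A b hb (K := K)
    have hdvd : k ∣ D := Nat.dvd_factorial hk0 hk
    obtain ⟨q, hq⟩ := hdvd
    refine ⟨c ^ q, pow_ne_zero _ hc, ?_⟩
    rw [hq, pow_mul, map_pow A.valuation, hval, ← map_pow A.valuation, ← map_pow (algebraMap K L)]
  choose! C hC0 hC using hpow
  refine ⟨D, fun b => v.ord (C b), hDpos, ?_, ?_, ?_⟩
  · intro a b ha hb
    rw [← v.ord_mul _ _ (hC0 a ha) (hC0 b hb)]
    apply huniq _ _ (hC0 _ (mul_ne_zero ha hb)) (mul_ne_zero (hC0 a ha) (hC0 b hb))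
    rw [← hC _ (mul_ne_zero ha hb), mul_pow, map_mul, hC a ha, hC b hb, map_mul, map_mul]
  · intro b hb
    have h1 : (0 ≤ v.ord (C b)) ↔ algebraMap K L (C b) ∈ A := by
      rw [hA]
      constructor
      · intro h
        right
        exact h
      · rintro (h | h)
        · exact absurd h (hC0 b hb)
        · exact h
    rw [h1, ← ValuationSubring.valuation_le_one_iff, ← hC b hb, map_pow,
      ← ValuationSubring.valuation_le_one_iff]
    exact pow_le_one_iff (by omega)
  · intro a ha
    have ha' : algebraMap K L a ≠ 0 := by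
      rw [Ne, map_eq_zero_iff _ hinj]
      exact ha
    have h := huniq (C (algebraMap K L a)) (a ^ D) (hC0 _ ha') (pow_ne_zero _ ha) (by
      rw [← hC _ ha', map_pow (algebraMap K L)])
    simp only
    rw [h, ord_pow v ha]

end ext

end EXT

open EXT in
/-- EXT: extension of divisorial valuations to a finite extension field. -/
theorem t_EXT : Stmt_EXT := by
  intro n K L _ _ _ _ _ _ _ v hn
  classical
  have hinj := (algebraMap K L).injective
  obtain ⟨A, hA⟩ := exists_over (L := L) v
  obtain ⟨D, W, hD, hmul, hpos, hK⟩ := exists_W v A hA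
  have hW1 : W 1 = 0 := by
    have h := hmul 1 1 one_ne_zero one_ne_zero
    rw [mul_one] at h
    omega
  have hWinv : ∀ a, a ≠ 0 → W a⁻¹ = - W a := by
    intro a ha
    have h := hmul a a⁻¹ ha (inv_ne_zero ha)
    rw [mul_inv_cancel₀ ha, hW1] at h
    omega
  -- the value group
  let S : AddSubgroup ℤ :=
    { carrier := {k | ∃ b : L, b ≠ 0 ∧ W b = k}
      add_mem' := by
        rintro _ _ ⟨a, ha, rfl⟩ ⟨b, hb, rfl⟩
        exact ⟨a * b, mul_ne_zero ha hb, hmul a b ha hb⟩
      zero_mem' := ⟨1, one_ne_zero, hW1⟩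
      neg_mem' := by
        rintro _ ⟨a, ha, rfl⟩
        exact ⟨a⁻¹, inv_ne_zero ha, hWinv a ha⟩ }
  obtain ⟨g0, hg0⟩ := Int.subgroup_cyclic S
  have hS : ∀ b : L, b ≠ 0 → g0 ∣ W b := by
    intro b hb
    have h : W b ∈ S := ⟨b, hb, rfl⟩
    rw [hg0, AddSubgroup.mem_closure_singleton] at h
    obtain ⟨k, hk⟩ := h
    exact ⟨k, by rw [← hk, smul_eq_mul, mul_comm]⟩
  have hg0S : g0 ∈ S := by
    rw [hg0]
    exact AddSubgroup.subset_closure rfl
  obtain ⟨t, ht, hot⟩ := v.unif
  have ht' : algebraMap K L t ≠ 0 := by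
    rw [Ne, map_eq_zero_iff _ hinj]
    exact ht
  have hWt : W (algebraMap K L t) = D := by rw [hK t ht, hot, mul_one]
  have hg0ne : g0 ≠ 0 := by
    rintro rfl
    have h := hS _ ht'
    rw [hWt, zero_dvd_iff] at h
    omega
  obtain ⟨g, hg, hgpos, hgS⟩ : ∃ g : ℤ, (∀ b : L, b ≠ 0 → g ∣ W b) ∧ 0 < g ∧ g ∈ S := by
    refine ⟨|g0|, fun b hb => (abs_dvd _ _).2 (hS b hb), abs_pos.2 hg0ne, ?_⟩
    rcases abs_choice g0 with h | h
    · rw [h]; exact hg0S
    · rw [h]; exact S.neg_mem hg0S
  obtain ⟨b0, hb0, hWb0⟩ := hgS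
  have hdiv : ∀ b, b ≠ 0 → W b / g * g = W b := fun b hb => Int.ediv_mul_cancel (hg b hb)
  have hsign : ∀ b, b ≠ 0 → (0 ≤ W b / g ↔ 0 ≤ W b) := fun b _ =>
    Int.ediv_nonneg_iff_of_pos hgpos
  have hscal : algebraMap ℂ L = (algebraMap K L).comp (algebraMap ℂ K) :=
    IsScalarTower.algebraMap_eq ℂ K L
  obtain ⟨u, hu⟩ := v.res
  have hDg : g ∣ (D : ℤ) := by
    rw [← hWt]
    exact hg _ ht'
  have hordK : ∀ a : K, a ≠ 0 → W (algebraMap K L a) / g = (D / g) * v.ord a := by
    intro a ha
    rw [hK a ha]
    obtain ⟨q, hq⟩ := hDg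
    rw [hq, Int.mul_ediv_cancel_left _ hgpos.ne', mul_assoc, Int.mul_ediv_cancel_left _ hgpos.ne']
  let v' : DivVal n L :=
    { ord := fun b => if b = 0 then 0 else W b / g
      ord_zero := by simp
      ord_mul := by
        intro a b ha hb
        simp only [ha, hb, mul_ne_zero ha hb, if_false]
        have h1 := hdiv a ha
        have h2 := hdiv b hb
        have h3 := hdiv (a * b) (mul_ne_zero ha hb)
        rw [hmul a b ha hb] at h3 ⊢
        apply mul_right_cancel₀ hgpos.ne'
        rw [h3, add_mul, h1, h2]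
      ord_add := by
        intro a b ha hb hab
        simp only [ha, hb, hab, if_false]
        have key : ∀ a b : L, a ≠ 0 → b ≠ 0 → a + b ≠ 0 → W a ≤ W b → W a ≤ W (a + b) := by
          intro a b ha hb hab h
          have h1 : 0 ≤ W (b * a⁻¹) := by
            rw [hmul _ _ hb (inv_ne_zero ha), hWinv a ha]
            omega
          rw [hpos _ (mul_ne_zero hb (inv_ne_zero ha))] at h1
          have h2 : (a + b) * a⁻¹ ∈ A := by
            rw [add_mul, mul_inv_cancel₀ ha]
            exact A.add_mem _ _ A.one_mem h1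
          rw [← hpos _ (mul_ne_zero hab (inv_ne_zero ha)), hmul _ _ hab (inv_ne_zero ha),
            hWinv a ha] at h2
          omega
        rcases le_total (W a) (W b) with h | h
        · exact (min_le_left _ _).trans (Int.ediv_le_ediv hgpos (key a b ha hb hab h))
        · refine (min_le_right _ _).trans (Int.ediv_le_ediv hgpos ?_)
          rw [add_comm]
          exact key b a hb ha (by rwa [add_comm]) h
      ord_const := by
        intro c
        by_cases hc : algebraMap ℂ L c = 0
        · simp [hc]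
        · simp only [hc, if_false]
          have hc' : algebraMap ℂ K c ≠ 0 := by
            intro h
            apply hc
            rw [hscal, RingHom.comp_apply, h, map_zero]
          rw [hscal, RingHom.comp_apply, hK _ hc', v.ord_const]
          simp
      unif := ⟨b0, hb0, by simp [hb0, hWb0, hgpos.ne']⟩
      res := by
        refine ⟨fun j => algebraMap K L (u j), fun p hp => ?_⟩
        have h1 : aeval (fun j => algebraMap K L (u j)) p = algebraMap K L (aeval u p) := by
          exact MvPolynomial.aeval_algebraMap_apply L u p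
        obtain ⟨hne, ho⟩ := hu p hp
        have hne' : algebraMap K L (aeval u p) ≠ 0 := by
          rw [Ne, map_eq_zero_iff _ hinj]
          exact hne
        rw [h1]
        refine ⟨hne', ?_⟩
        simp only [hne', if_false]
        rw [hordK _ hne, ho, mul_zero] }
  refine ⟨v', (D / g).toNat, ?_, ?_⟩
  · obtain ⟨q, hq⟩ := hDg
    rw [hq, Int.mul_ediv_cancel_left _ hgpos.ne']
    have hqpos : 0 < q := by
      by_contra hcon
      have : g * q ≤ 0 := mul_nonpos_of_nonneg_of_nonpos hgpos.le (by omega)
      omega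
    omega
  · intro a
    have hDg0 : 0 ≤ (D : ℤ) / g := Int.ediv_nonneg (by omega) hgpos.le
    rw [Int.toNat_of_nonneg hDg0]
    by_cases ha : a = 0
    · simp [ha, v'.ord_zero, v.ord_zero]
    · have ha' : algebraMap K L a ≠ 0 := by
        rw [Ne, map_eq_zero_iff _ hinj]
        exact ha
      change (if algebraMap K L a = 0 then 0 else W (algebraMap K L a) / g) = _
      rw [if_neg ha', hordK a ha]


end

end MldGeo
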