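import Pool.Agent.MldGeo.Stmts1

/-!
# FDL: logarithmic forms have nonnegative order
-/

namespace MldGeo

noncomputable section

namespace FDL

theorem ord_one {n : ℕ} {K : Type} [Field K] [Algebra ℂ K] (v : DivVal n K) : v.ord 1 = 0 := by
  have h := v.ord_const 1
  rwa [map_one] at h

/-- If `ω` is a logarithmic form then its logarithmic order is nonnegative. -/
theorem logOrd_nonneg {n : ℕ} {K : Type} [Field K] [Algebra ℂ K] (v : DivVal n K)
    (ω : Forms n K) (hω : ω ∈ v.logForms) : 0 ≤ v.logOrd ω := by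
  unfold DivVal.logOrd
  have h0 : (0 : ℤ) ∈ {k : ℤ | ∃ g : K, g ≠ 0 ∧ v.ord g = k ∧ ∃ η ∈ v.logForms, ω = g • η} :=
    ⟨1, one_ne_zero, ord_one v, ω, hω, (one_smul K ω).symm⟩
  by_cases hb : BddAbove {k : ℤ | ∃ g : K, g ≠ 0 ∧ v.ord g = k ∧ ∃ η ∈ v.logForms, ω = g • η}
  · exact le_csSup hb h0
  · exact (csSup_of_not_bddAbove hb).symm ▸ (by simp)

end FDL

theorem t_FDL (_hFRA : Stmt_FRA) (_hFRM : Stmt_FRM) : Stmt_FDL := by
  intro n K _ _ _ v a _ ha _
  refine FDL.logOrd_nonneg v _ (AddSubgroup.subset_closure ⟨1, a, ?_, ha, ?_⟩)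
  · rw [FDL.ord_one v]
  · rw [one_smul]

end

end MldGeo
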