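import Pool.Agent.MldGeo.Stmts2

/-!
# Quotient singularities: for free actions the boundary of the log quotient is zero (FRE)
-/

namespace MldGeo

open MvPolynomial

noncomputable section

theorem t_FRE (h1 : Stmt_GAL) (h2 : Stmt_HTQ) (h3 : Stmt_LOQ) (h4 : Stmt_UNR) : Stmt_FRE := by
  intro n X G _ T hn hfree hX hJ
  constructor
  · intro hT
    obtain ⟨φ, hφ⟩ := hX
    obtain ⟨inst, hS⟩ := h1 X G φ hφ
    refine ⟨hJ, φ, hφ, ?_⟩
    intro q hq hq0 v e hv
    obtain ⟨he, P, hPm, hvP⟩ := h2 hS q hq hq0 v e hv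
    have he1 : e = 1 := h4 hS hn hfree q hq v e hv
    have hc : T.Coeff P (1 - T.logDisc v) := ⟨hPm, v, hvP, by ring⟩
    have h0 := hT P _ hc
    have h5 : T.logDisc v = 1 := by linarith
    rw [h5, he1]
    norm_num
  · rintro ⟨_, φ, hφ, hcr⟩ P b ⟨hPm, v, hvP, hb⟩
    obtain ⟨inst, hS⟩ := h1 X G φ hφ
    obtain ⟨q, e, hq, hq0, hv⟩ := h3 hS (by omega) P v hPm hvP
    have he1 : e = 1 := h4 hS hn hfree q hq v e hv
    have h5 := hcr q hq hq0 v e hv
    rw [he1] at h5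
    have h6 : T.logDisc v = 1 := by simpa using h5
    linarith

end

end MldGeo
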