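import Pool.Agent.MldGeo.Stmts2

/-!
# The function field of a quotient singularity
-/

namespace MldGeo

open MvPolynomial

noncomputable section

namespace GAL

variable {n : ℕ}

lemma linSubst_X (g : GL (Fin n) ℂ) (i : Fin n) :
    linSubst g (X i) = ∑ j, C ((g : Matrix (Fin n) (Fin n) ℂ) i j) * X j := by
  unfold linSubst
  rw [aeval_X]

lemma linSubst_C (g : GL (Fin n) ℂ) (c : ℂ) : linSubst g (C c) = C c :=
  (linSubst g).commutes c

lemma linSubst_comp (g h : GL (Fin n) ℂ) (p : MvPolynomial (Fin n) ℂ) :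
    linSubst g (linSubst h p) = linSubst (h * g) p := by
  have e : (linSubst g).comp (linSubst h) = linSubst (h * g) := by
    apply MvPolynomial.algHom_ext
    intro i
    rw [AlgHom.comp_apply, linSubst_X, linSubst_X, map_sum]
    simp only [map_mul, linSubst_C, linSubst_X, Finset.mul_sum, Units.val_mul, Matrix.mul_apply,
      map_sum, Finset.sum_mul]
    rw [Finset.sum_comm]
    refine Finset.sum_congr rfl fun k _ => Finset.sum_congr rfl fun j _ => ?_
    ring
  rw [← e, AlgHom.comp_apply]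

lemma linSubst_one (p : MvPolynomial (Fin n) ℂ) : linSubst 1 p = p := by
  have e : linSubst (1 : GL (Fin n) ℂ) = AlgHom.id ℂ _ := by
    apply MvPolynomial.algHom_ext
    intro i
    rw [linSubst_X, AlgHom.id_apply, Finset.sum_eq_single i]
    · simp
    · intro b _ hb
      simp [Matrix.one_apply_ne hb.symm]
    · intro h
      exact absurd (Finset.mem_univ i) h
  rw [e, AlgHom.id_apply]

/-- the substitution as an automorphism -/
def pe (g : GL (Fin n) ℂ) : MvPolynomial (Fin n) ℂ ≃ₐ[ℂ] MvPolynomial (Fin n) ℂ :=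
  AlgEquiv.ofAlgHom (linSubst g) (linSubst g⁻¹)
    (by apply AlgHom.ext; intro p; rw [AlgHom.comp_apply, linSubst_comp, inv_mul_cancel,
          linSubst_one, AlgHom.id_apply])
    (by apply AlgHom.ext; intro p; rw [AlgHom.comp_apply, linSubst_comp, mul_inv_cancel,
          linSubst_one, AlgHom.id_apply])

lemma pe_apply (g : GL (Fin n) ℂ) (p : MvPolynomial (Fin n) ℂ) : pe g p = linSubst g p := rfl

/-- the automorphism of the field -/
def sg (g : GL (Fin n) ℂ) : Rat n ≃ₐ[ℂ] Rat n := IsFractionRing.algEquivOfAlgEquiv (pe g)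

lemma sg_pol (g : GL (Fin n) ℂ) (p : MvPolynomial (Fin n) ℂ) : sg g (pol p) = pol (linSubst g p) :=
  IsFractionRing.algEquivOfAlgEquiv_algebraMap (pe g) p

lemma pol_inj : Function.Injective (pol (n := n)) :=
  IsFractionRing.injective (MvPolynomial (Fin n) ℂ) (Rat n)

lemma pol_surj (x : Rat n) : ∃ p q : MvPolynomial (Fin n) ℂ, q ≠ 0 ∧ x = pol p / pol q := by
  obtain ⟨p, q, hq, rfl⟩ := IsFractionRing.div_surjective (MvPolynomial (Fin n) ℂ) x
  exact ⟨p, q, nonZeroDivisors.ne_zero hq, rfl⟩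

lemma pol_mul (p q : MvPolynomial (Fin n) ℂ) : pol (p * q) = pol p * pol q := map_mul _ _ _

lemma pol_ne {q : MvPolynomial (Fin n) ℂ} (hq : q ≠ 0) : pol q ≠ 0 := by
  intro h
  apply hq
  apply pol_inj
  rw [h]
  unfold pol
  rw [map_zero]

lemma ext_pol {σ τ : Rat n ≃ₐ[ℂ] Rat n} (h : ∀ p, σ (pol p) = τ (pol p)) : σ = τ := by
  apply AlgEquiv.ext
  intro x
  obtain ⟨p, q, _, rfl⟩ := pol_surj x
  rw [map_div₀, map_div₀, h, h]

variable (G : Subgroup (GL (Fin n) ℂ))

/-- the action on the field -/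
def act : G →* (Rat n ≃ₐ[ℂ] Rat n) where
  toFun g := sg (g : GL (Fin n) ℂ)⁻¹
  map_one' := by
    apply ext_pol
    intro p
    rw [sg_pol]
    simp [linSubst_one]
  map_mul' g h := by
    apply ext_pol
    intro p
    rw [AlgEquiv.mul_apply, sg_pol, sg_pol, sg_pol, linSubst_comp]
    simp

/-- the group of automorphisms -/
def HH : Subgroup (Rat n ≃ₐ[ℂ] Rat n) := (act G).range

instance [Finite G] : Finite (HH G) :=
  Finite.of_surjective (act G).rangeRestrict (act G).rangeRestrict_surjective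

lemma sg_mem {g : GL (Fin n) ℂ} (hg : g ∈ G) : sg g ∈ HH G := by
  refine ⟨⟨g⁻¹, G.inv_mem hg⟩, ?_⟩
  change sg (g⁻¹)⁻¹ = sg g
  rw [inv_inv]

lemma mem_sg {h : Rat n ≃ₐ[ℂ] Rat n} (hh : h ∈ HH G) : ∃ g ∈ G, h = sg g := by
  obtain ⟨g, rfl⟩ := hh
  exact ⟨(g : GL (Fin n) ℂ)⁻¹, G.inv_mem g.2, rfl⟩

/-- an element fixed by the group is a quotient of invariant polynomials -/
lemma fixed [Finite G] {f : Rat n} (hf : ∀ g ∈ G, sg g f = f) :
    ∃ p q : invariants G, (q : MvPolynomial (Fin n) ℂ) ≠ 0 ∧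
      f = pol (p : MvPolynomial (Fin n) ℂ) / pol (q : MvPolynomial (Fin n) ℂ) := by
  classical
  have : Fintype G := Fintype.ofFinite G
  obtain ⟨p, q, hq, hfe⟩ := pol_surj f
  set N : MvPolynomial (Fin n) ℂ := ∏ g : G, linSubst (g : GL (Fin n) ℂ) q with hN
  have hinj : ∀ g : GL (Fin n) ℂ, Function.Injective (linSubst g) := fun g => (pe g).injective
  have hNinv : ∀ h ∈ G, linSubst h N = N := by
    intro h hh
    rw [hN, map_prod]
    have e : ∀ g : G, linSubst h (linSubst (g : GL (Fin n) ℂ) q) =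
        linSubst ((g * ⟨h, hh⟩ : G) : GL (Fin n) ℂ) q := by
      intro g
      rw [linSubst_comp]
      rfl
    simp only [e]
    exact Fintype.prod_equiv (Equiv.mulRight (⟨h, hh⟩ : G)) _ _ fun g => rfl
  have hN0 : N ≠ 0 := by
    rw [hN, Finset.prod_ne_zero_iff]
    intro g _ h0
    exact hq (hinj _ (by rw [h0, map_zero]))
  obtain ⟨q', hq'⟩ : ∃ q', N = q * q' := by
    refine ⟨∏ g ∈ Finset.univ.erase (1 : G), linSubst (g : GL (Fin n) ℂ) q, ?_⟩
    rw [hN, ← Finset.mul_prod_erase Finset.univ _ (Finset.mem_univ (1 : G))]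
    congr 1
    exact linSubst_one q
  have hfN : f * pol N = pol (p * q') := by
    rw [hfe, hq', pol_mul, pol_mul]
    field_simp [pol_ne hq]
  have hpinv : ∀ h ∈ G, linSubst h (p * q') = p * q' := by
    intro h hh
    apply pol_inj
    rw [← sg_pol, ← hfN, map_mul, hf h hh, sg_pol, hNinv h hh]
  refine ⟨⟨p * q', hpinv⟩, ⟨N, hNinv⟩, hN0, ?_⟩
  change f = pol (p * q') / pol N
  rw [← hfN, mul_div_assoc, div_self (pol_ne hN0), mul_one]

end GAL

open GAL in
theorem t_GAL : Stmt_GAL := by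
  intro n X G _ φ hφ
  have hfaith : FaithfulSMul X.R X.K :=
    (faithfulSMul_iff_algebraMap_injective _ _).2 Subtype.val_injective
  have hfr : IsFractionRing X.R X.K := by
    apply IsFractionRing.of_field
    intro z
    obtain ⟨r, hr, s, hs, hs0, e⟩ := X.frac z
    refine ⟨⟨r, hr⟩, ⟨s, hs⟩, ?_⟩
    change z = r / s
    rw [eq_div_iff hs0]
    exact e
  let ψ : X.R →ₐ[ℂ] Rat n :=
    (IsScalarTower.toAlgHom ℂ (MvPolynomial (Fin n) ℂ) (Rat n)).comp
      ((invariants G).val.comp φ.toAlgHom)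
  have hψ : ∀ a, ψ a = pol (φ a : MvPolynomial (Fin n) ℂ) := fun a => rfl
  have hinj : Function.Injective ψ := by
    intro a b h
    rw [hψ, hψ] at h
    exact φ.injective (Subtype.ext (pol_inj h))
  let j : X.K →ₐ[ℂ] Rat n := IsFractionRing.liftAlgHom hinj
  have hj : ∀ a : X.R, j (a : X.K) = pol (φ a : MvPolynomial (Fin n) ℂ) := by
    intro a
    exact IsFractionRing.lift_algebraMap (K := X.K) (g := (ψ : X.R →+* Rat n)) hinj a
  let alg : Algebra X.K (Rat n) := j.toRingHom.toAlgebra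
  have hmap : ∀ a : X.K, algebraMap X.K (Rat n) a = j a := fun a => rfl
  -- the elements of the group fix the image
  have hfix : ∀ g ∈ G, ∀ a : X.K, sg g (j a) = j a := by
    intro g hg a
    obtain ⟨r, hr, s, hs, hs0, e⟩ := X.frac a
    have hR : ∀ b : X.R, sg g (j (b : X.K)) = j (b : X.K) := by
      intro b
      rw [hj, sg_pol, (φ b).2 g hg]
    have ha : a = ((⟨r, hr⟩ : X.R) : X.K) / ((⟨s, hs⟩ : X.R) : X.K) := by
      rw [eq_div_iff hs0]
      exact e
    rw [ha, map_div₀, map_div₀, hR, hR]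
  have hG : IsGaloisGroup (HH G) X.K (Rat n) := by
    refine ⟨inferInstance, ⟨?_⟩, ⟨?_⟩⟩
    · intro h a f
      obtain ⟨g, hg, e⟩ := mem_sg G h.2
      have e' : ∀ x : Rat n, h • x = sg g x := by
        intro x
        change (h : Rat n ≃ₐ[ℂ] Rat n) x = _
        rw [e]
      rw [e', e', Algebra.smul_def, Algebra.smul_def, map_mul, hmap, hfix g hg]
    · intro f hf
      have hf' : ∀ g ∈ G, sg g f = f := fun g hg => hf ⟨sg g, sg_mem G hg⟩
      obtain ⟨p, q, hq, e⟩ := fixed G hf'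
      refine ⟨(φ.symm p : X.K) / (φ.symm q : X.K), ?_⟩
      rw [hmap, map_div₀, hj, hj, φ.apply_symm_apply, φ.apply_symm_apply, e]
  refine ⟨alg, ?_⟩
  refine ⟨hφ, ?_, hG.finiteDimensional, hG.isGalois, ?_, ?_, ?_⟩
  · exact IsScalarTower.of_algebraMap_eq fun c => (j.commutes c).symm
  · intro a
    rw [hmap, hj]
  · intro σ
    obtain ⟨h, rfl⟩ := (IsGaloisGroup.mulEquivAlgEquiv (HH G) X.K (Rat n)).surjective σ
    obtain ⟨g, hg, e⟩ := mem_sg G h.2
    refine ⟨g, hg, fun p => ?_⟩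
    change (h : Rat n ≃ₐ[ℂ] Rat n) (pol p) = _
    rw [e, sg_pol]
  · intro g hg
    refine ⟨IsGaloisGroup.mulEquivAlgEquiv (HH G) X.K (Rat n) ⟨sg g, sg_mem G hg⟩, fun p => ?_⟩
    change sg g (pol p) = _
    rw [sg_pol]

end

end MldGeo
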