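import Pool.Agent.MldGeo.Stmts1
import Pool.Agent.MldGeo.Ord
import Pool.Agent.MldGeo.FRM

/-!
# Monomial valuations of the field of fractions of a torus
-/

namespace MldGeo

namespace GAUT

open MvPolynomial

noncomputable section

variable {n : ℕ} {K : Type} [Field K] [Algebra ℂ K] {χ : (Fin n → ℤ) → K}

omit [Algebra ℂ K] in
theorem chi_neg (h0 : χ 0 = 1) (ha : ∀ u v, χ (u + v) = χ u * χ v) (u : Fin n → ℤ) :
    χ u ≠ 0 := by
  intro h
  have := ha u (-u)
  rw [add_neg_cancel, h0, h, zero_mul] at this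
  exact one_ne_zero this

/-- The homomorphism. -/
def mon (h0 : χ 0 = 1) (ha : ∀ u v, χ (u + v) = χ u * χ v) :
    Multiplicative (Fin n → ℤ) →* K where
  toFun u := χ u.toAdd
  map_one' := h0
  map_mul' _ _ := ha _ _

omit [Algebra ℂ K] in
theorem chi_nsmul (h0 : χ 0 = 1) (ha : ∀ u v, χ (u + v) = χ u * χ v) (u : Fin n → ℤ) (m : ℕ) :
    χ (m • u) = χ u ^ m := by
  induction m with
  | zero => rw [zero_smul, h0, pow_zero]
  | succ m ih => rw [succ_nsmul, ha, ih, pow_succ]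

omit [Algebra ℂ K] in
theorem chi_sum (h0 : χ 0 = 1) (ha : ∀ u v, χ (u + v) = χ u * χ v) {ι : Type} (s : Finset ι)
    (w : ι → Fin n → ℤ) : χ (∑ i ∈ s, w i) = ∏ i ∈ s, χ (w i) := by
  classical
  induction s using Finset.induction_on with
  | empty => rw [Finset.sum_empty, Finset.prod_empty, h0]
  | insert i s hi ih => rw [Finset.sum_insert hi, Finset.prod_insert hi, ha, ih]

/-- Values of polynomials at characters. -/
theorem aeval_chi (h0 : χ 0 = 1) (ha : ∀ u v, χ (u + v) = χ u * χ v) {ι : Type} [Fintype ι]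
    (w : ι → Fin n → ℤ) (p : MvPolynomial ι ℂ) :
    aeval (fun j => χ (w j)) p = ∑ m ∈ p.support, p.coeff m • χ (∑ j, m j • w j) := by
  rw [MvPolynomial.aeval_def, MvPolynomial.eval₂_eq']
  refine Finset.sum_congr rfl fun m _ => ?_
  rw [Algebra.smul_def, chi_sum h0 ha]
  congr 1
  refine Finset.prod_congr rfl fun j _ => ?_
  rw [chi_nsmul h0 ha]

theorem sum_single (m : Fin n → ℤ) : ∑ j, m j • (Pi.single j 1 : Fin n → ℤ) = m := by
  funext i
  rw [Finset.sum_apply]
  simp [Pi.single_apply]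

/-- The characters are linearly independent. -/
theorem linInd (h0 : χ 0 = 1) (ha : ∀ u v, χ (u + v) = χ u * χ v)
    (hai : AlgebraicIndependent ℂ fun i => χ (Pi.single i 1)) : LinearIndependent ℂ χ := by
  classical
  rw [linearIndependent_iff']
  intro s c hc u0 hu0
  -- a shift which makes all exponents nonnegative
  obtain ⟨N, hN⟩ : ∃ N : ℕ, ∀ u ∈ s, ∀ i, 0 ≤ u i + N := by
    refine ⟨∑ u ∈ s, ∑ i, (u i).natAbs, fun u hu i => ?_⟩
    have h1 : (u i).natAbs ≤ ∑ i, (u i).natAbs :=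
      Finset.single_le_sum (f := fun i => (u i).natAbs) (fun _ _ => Nat.zero_le _)
        (Finset.mem_univ i)
    have h2 : ∑ i, (u i).natAbs ≤ ∑ u ∈ s, ∑ i, (u i).natAbs :=
      Finset.single_le_sum (f := fun u : Fin n → ℤ => ∑ i, (u i).natAbs)
        (fun _ _ => Nat.zero_le _) hu
    omega
  let e : (Fin n → ℤ) → Fin n →₀ ℕ := fun u => Finsupp.equivFunOnFinite.symm fun i =>
    (u i + N).toNat
  have he : ∀ u ∈ s, χ (u + fun _ => (N : ℤ)) =
      aeval (fun i => χ (Pi.single i 1)) (monomial (e u) (1 : ℂ)) := by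
    intro u hu
    rw [aeval_chi h0 ha, MvPolynomial.support_monomial, if_neg one_ne_zero,
      Finset.sum_singleton, MvPolynomial.coeff_monomial, if_pos rfl, one_smul]
    congr 1
    rw [← sum_single (u + fun _ => (N : ℤ))]
    refine Finset.sum_congr rfl fun j _ => ?_
    have h3 : ((e u j : ℕ) : ℤ) = u j + N := Int.toNat_of_nonneg (hN u hu j)
    rw [← natCast_zsmul, h3]
    rfl
  have h4 : aeval (fun i => χ (Pi.single i 1)) (∑ u ∈ s, monomial (e u) (c u)) = 0 := by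
    have h5 : ∑ u ∈ s, c u • χ (u + fun _ => (N : ℤ)) = 0 := by
      have h6 : ∑ u ∈ s, c u • χ (u + fun _ => (N : ℤ)) = (∑ u ∈ s, c u • χ u) * χ fun _ => (N : ℤ) := by
        rw [Finset.sum_mul]
        refine Finset.sum_congr rfl fun u _ => ?_
        rw [ha, smul_mul_assoc]
      rw [h6, hc, zero_mul]
    rw [map_sum, ← h5]
    refine Finset.sum_congr rfl fun u hu => ?_
    rw [he u hu, ← map_smul, MvPolynomial.smul_monomial, smul_eq_mul, mul_one]
  have h7 := (algebraicIndependent_iff.1 hai) _ h4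
  have h8 := congrArg (MvPolynomial.coeff (e u0)) h7
  rw [MvPolynomial.coeff_sum, MvPolynomial.coeff_zero] at h8
  rw [← h8, Finset.sum_eq_single_of_mem u0 hu0, MvPolynomial.coeff_monomial, if_pos rfl]
  intro u hu hne
  rw [MvPolynomial.coeff_monomial, if_neg]
  intro h9
  apply hne
  funext i
  have h10 := DFunLike.congr_fun h9 i
  have h11 : ((e u i : ℕ) : ℤ) = u i + N := Int.toNat_of_nonneg (hN u hu i)
  have h12 : ((e u0 i : ℕ) : ℤ) = u0 i + N := Int.toNat_of_nonneg (hN u0 hu0 i)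
  rw [h10, h12] at h11
  linarith

/-- Polynomials in characters with linearly independent exponents. -/
theorem aeval_ne (h0 : χ 0 = 1) (ha : ∀ u v, χ (u + v) = χ u * χ v)
    (hai : AlgebraicIndependent ℂ fun i => χ (Pi.single i 1)) {ι : Type} [Fintype ι]
    {w : ι → Fin n → ℤ} (hw : LinearIndependent ℤ w) {p : MvPolynomial ι ℂ} (hp : p ≠ 0) :
    aeval (fun j => χ (w j)) p ≠ 0 := by
  classical
  intro h
  rw [aeval_chi h0 ha] at h
  have hinj : Function.Injective fun m : ι →₀ ℕ => ∑ j, m j • w j := by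
    intro m m' hm
    have h1 : ∑ j, ((m j : ℤ) - m' j) • w j = 0 := by
      have : ∑ j, m j • w j = ∑ j, m' j • w j := hm
      simp only [sub_smul, Finset.sum_sub_distrib, natCast_zsmul]
      rw [this, sub_self]
    ext j
    have h2 := (Fintype.linearIndependent_iff.1 hw) _ h1 j
    omega
  have hli := (linInd h0 ha hai).comp _ hinj
  rw [linearIndependent_iff'] at hli
  obtain ⟨m, hm⟩ := MvPolynomial.support_nonempty.2 hp
  exact (MvPolynomial.mem_support_iff.1 hm) (hli p.support (fun m => p.coeff m) h m hm)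

/-! ### the Laurent series map -/

/-- The group algebra. -/
abbrev A (n : ℕ) : Type := AddMonoidAlgebra ℂ (Fin n → ℤ)

/-- The map to `K`. -/
def psi (h0 : χ 0 = 1) (ha : ∀ u v, χ (u + v) = χ u * χ v) : A n →ₐ[ℂ] K :=
  AddMonoidAlgebra.lift ℂ K (Fin n → ℤ) (mon h0 ha)

theorem psi_apply (h0 : χ 0 = 1) (ha : ∀ u v, χ (u + v) = χ u * χ v) (f : A n) :
    psi h0 ha f = Finsupp.linearCombination ℂ χ f.coeff := by
  unfold psi
  rw [AddMonoidAlgebra.lift_apply]
  rfl

theorem psi_inj (h0 : χ 0 = 1) (ha : ∀ u v, χ (u + v) = χ u * χ v)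
    (hai : AlgebraicIndependent ℂ fun i => χ (Pi.single i 1)) :
    Function.Injective (psi h0 ha) := by
  intro f g h
  rw [psi_apply, psi_apply] at h
  exact AddMonoidAlgebra.coeff_injective ((linInd h0 ha hai) h)

/-- The pairing. -/
def pr (y u : Fin n → ℤ) : ℤ := ∑ i, u i * y i

theorem pr_add (y u v : Fin n → ℤ) : pr y (u + v) = pr y u + pr y v := by
  unfold pr
  rw [← Finset.sum_add_distrib]
  refine Finset.sum_congr rfl fun i _ => ?_
  rw [Pi.add_apply, add_mul]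

attribute [-instance] HahnSeries.powerSeriesAlgebra

/-- Laurent series. -/
abbrev E (K : Type) [Field K] : Type := HahnSeries ℤ K

/-- The character with the weight. -/
def chiT (χ : (Fin n → ℤ) → K) (y u : Fin n → ℤ) : E K := HahnSeries.single (pr y u) (χ u)

omit [Algebra ℂ K] in
theorem chiT_zero (h0 : χ 0 = 1) (y : Fin n → ℤ) : chiT χ y 0 = 1 := by
  unfold chiT
  have : pr y 0 = 0 := by simp [pr]
  rw [this, h0]
  rfl

omit [Algebra ℂ K] in
theorem chiT_add (ha : ∀ u v, χ (u + v) = χ u * χ v) (y u v : Fin n → ℤ) :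
    chiT χ y (u + v) = chiT χ y u * chiT χ y v := by
  unfold chiT
  rw [HahnSeries.single_mul_single, pr_add, ha]

/-- The homomorphism. -/
def monT (h0 : χ 0 = 1) (ha : ∀ u v, χ (u + v) = χ u * χ v) (y : Fin n → ℤ) :
    Multiplicative (Fin n → ℤ) →* E K where
  toFun u := chiT χ y u.toAdd
  map_one' := chiT_zero h0 y
  map_mul' _ _ := chiT_add ha y _ _

/-- The map of the group algebra to Laurent series. -/
def phi (h0 : χ 0 = 1) (ha : ∀ u v, χ (u + v) = χ u * χ v) (y : Fin n → ℤ) : A n →ₐ[ℂ] E K :=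
  AddMonoidAlgebra.lift ℂ (E K) (Fin n → ℤ) (monT h0 ha y)

theorem phi_apply (h0 : χ 0 = 1) (ha : ∀ u v, χ (u + v) = χ u * χ v) (y : Fin n → ℤ) (f : A n) :
    phi h0 ha y f = f.coeff.sum fun u c => c • chiT χ y u := by
  unfold phi
  rw [AddMonoidAlgebra.lift_apply]
  rfl

theorem phi_coeff (h0 : χ 0 = 1) (ha : ∀ u v, χ (u + v) = χ u * χ v) (y : Fin n → ℤ) (f : A n)
    (k : ℤ) : (phi h0 ha y f).coeff k =
      ∑ u ∈ f.coeff.support.filter fun u => pr y u = k, f.coeff u • χ u := by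
  classical
  rw [phi_apply, Finsupp.sum, Finset.sum_filter]
  rw [HahnSeries.coeff_sum]
  refine Finset.sum_congr rfl fun u _ => ?_
  rw [HahnSeries.coeff_smul]
  unfold chiT
  split_ifs with h
  · rw [← h, HahnSeries.coeff_single_same]
  · rw [HahnSeries.coeff_single_of_ne (Ne.symm h), smul_zero]

theorem coeff_ne (h0 : χ 0 = 1) (ha : ∀ u v, χ (u + v) = χ u * χ v)
    (hai : AlgebraicIndependent ℂ fun i => χ (Pi.single i 1)) (y : Fin n → ℤ) {f : A n}
    {u : Fin n → ℤ} (hu : f.coeff u ≠ 0) : (phi h0 ha y f).coeff (pr y u) ≠ 0 := by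
  classical
  intro h
  rw [phi_coeff] at h
  have hli := linearIndependent_iff'.1 (linInd h0 ha hai)
  exact hu (hli _ (fun u => f.coeff u) h u (Finset.mem_filter.2 ⟨Finsupp.mem_support_iff.2 hu, rfl⟩))

theorem phi_inj (h0 : χ 0 = 1) (ha : ∀ u v, χ (u + v) = χ u * χ v)
    (hai : AlgebraicIndependent ℂ fun i => χ (Pi.single i 1)) (y : Fin n → ℤ) :
    Function.Injective (phi h0 ha y) := by
  rw [injective_iff_map_eq_zero]
  intro f hf
  by_contra hne
  obtain ⟨u, hu⟩ := Finsupp.ne_iff.1 fun h => hne (AddMonoidAlgebra.coeff_injective h)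
  apply coeff_ne h0 ha hai y (f := f) hu
  rw [hf]
  rfl

theorem range_psi (h0 : χ 0 = 1) (ha : ∀ u v, χ (u + v) = χ u * χ v) {r : K}
    (hr : r ∈ Submodule.span ℂ (Set.range χ)) : ∃ f : A n, psi h0 ha f = r := by
  rw [Finsupp.mem_span_range_iff_exists_finsupp] at hr
  obtain ⟨c, hc⟩ := hr
  exact ⟨AddMonoidAlgebra.ofCoeff c, by rw [psi_apply]; exact hc⟩

/-- The extension to the field of fractions. -/
theorem exists_hom (h0 : χ 0 = 1) (ha : ∀ u v, χ (u + v) = χ u * χ v)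
    (hai : AlgebraicIndependent ℂ fun i => χ (Pi.single i 1))
    (hfr : ∀ a : K, ∃ r ∈ Submodule.span ℂ (Set.range χ),
      ∃ s ∈ Submodule.span ℂ (Set.range χ), s ≠ 0 ∧ a * s = r) (y : Fin n → ℤ) :
    ∃ Φ : K →+* E K, ∀ f, Φ (psi h0 ha f) = phi h0 ha y f := by
  let _ : Algebra (A n) K := (psi h0 ha).toRingHom.toAlgebra
  have _ : IsDomain (A n) := (psi_inj h0 ha hai).isDomain (psi h0 ha).toRingHom
  have _ : IsFractionRing (A n) K := by
    refine (isLocalization_iff _ _).2 ⟨fun s => ?_, fun a => ?_, fun {f g} h => ⟨1, ?_⟩⟩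
    · refine isUnit_iff_ne_zero.2 fun h => ?_
      exact nonZeroDivisors.coe_ne_zero s (psi_inj h0 ha hai (h.trans (map_zero _).symm))
    · obtain ⟨r, hr, s, hs, hs0, e⟩ := hfr a
      obtain ⟨f, rfl⟩ := range_psi h0 ha hr
      obtain ⟨g, rfl⟩ := range_psi h0 ha hs
      exact ⟨(f, ⟨g, mem_nonZeroDivisors_of_ne_zero fun h => hs0 (by rw [h, map_zero])⟩), e⟩
    · rw [psi_inj h0 ha hai h]
  refine ⟨IsFractionRing.lift (g := (phi h0 ha y).toRingHom) (phi_inj h0 ha hai y), fun f => ?_⟩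
  exact IsFractionRing.lift_algebraMap (phi_inj h0 ha hai y) f

theorem psi_single (h0 : χ 0 = 1) (ha : ∀ u v, χ (u + v) = χ u * χ v) (u : Fin n → ℤ) :
    psi h0 ha (AddMonoidAlgebra.single u 1) = χ u := by
  rw [psi_apply]
  exact (Finsupp.linearCombination_single ℂ 1 u).trans (one_smul _ _)

theorem phi_single (h0 : χ 0 = 1) (ha : ∀ u v, χ (u + v) = χ u * χ v) (y u : Fin n → ℤ) :
    phi h0 ha y (AddMonoidAlgebra.single u 1) = chiT χ y u := by
  rw [phi_apply]
  show (Finsupp.single u (1 : ℂ)).sum (fun u c => c • chiT χ y u) = _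
  rw [Finsupp.sum_single_index (zero_smul ℂ (chiT χ y u)), one_smul]

/-- Vectors orthogonal to `y`. -/
theorem exists_orth {m : ℕ} (y : Fin (m + 1) → ℤ) {i0 : Fin (m + 1)} (h : y i0 ≠ 0) :
    ∃ w : Fin m → Fin (m + 1) → ℤ, LinearIndependent ℤ w ∧ ∀ j, pr y (w j) = 0 := by
  classical
  refine ⟨fun j => Pi.single (i0.succAbove j) (y i0) - Pi.single i0 (y (i0.succAbove j)), ?_, ?_⟩
  · rw [Fintype.linearIndependent_iff]
    intro g hg j
    have h1 := congrFun hg (i0.succAbove j)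
    rw [Finset.sum_apply, Finset.sum_eq_single j] at h1
    · simpa [Pi.single_apply, h, Fin.succAbove_ne] using h1
    · intro k _ hk
      simp [Fin.succAbove_ne, (Fin.succAbove_right_injective (p := i0)).eq_iff, hk.symm]
    · intro hj
      exact absurd (Finset.mem_univ j) hj
  · intro j
    unfold pr
    simp only [Pi.sub_apply, sub_mul, Finset.sum_sub_distrib]
    simp [Pi.single_apply, mul_comm]

/-- The differential of a character. -/
theorem dlog_mul {a b : K} (ha : a ≠ 0) (hb : b ≠ 0) : dlog (a * b) = dlog a + dlog b := by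
  unfold dlog
  rw [Derivation.leibniz, smul_add, smul_smul, smul_smul, mul_inv]
  have h1 : a⁻¹ * b⁻¹ * a = b⁻¹ := by field_simp
  have h2 : a⁻¹ * b⁻¹ * b = a⁻¹ := by field_simp
  rw [h1, h2, add_comm]

theorem dlog_chi (h0 : χ 0 = 1) (ha : ∀ u v, χ (u + v) = χ u * χ v) (u : Fin n → ℤ) :
    dlog (χ u) = ∑ i, (u i : K) • dlog (χ (Pi.single i 1)) := by
  classical
  let F : (Fin n → ℤ) →+ Ω[K⁄ℂ] :=
    { toFun := fun u => dlog (χ u)
      map_zero' := by
        show dlog (χ 0) = 0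
        unfold dlog
        rw [h0, Derivation.map_one_eq_zero, smul_zero]
      map_add' := fun u v => by
        show dlog (χ (u + v)) = dlog (χ u) + dlog (χ v)
        rw [ha, dlog_mul (chi_neg h0 ha u) (chi_neg h0 ha v)] }
  have h1 : F u = ∑ i, (u i : K) • F (Pi.single i 1) := by
    have h2 : u = ∑ i, u i • (Pi.single i 1 : Fin n → ℤ) := by
      funext i
      rw [Finset.sum_apply]
      simp [Pi.single_apply]
    conv_lhs => rw [h2]
    rw [map_sum]
    refine Finset.sum_congr rfl fun i _ => ?_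
    rw [map_zsmul, Int.cast_smul_eq_zsmul]
  exact h1

end

end GAUT

open GAUT MvPolynomial in
/-- GAUT: monomial valuations of the field of fractions of a torus. -/
def Stmt_GAUT : Prop :=
  ∀ {n : ℕ} {K : Type} [Field K] [Algebra ℂ K] (χ : (Fin n → ℤ) → K),
    χ 0 = 1 → (∀ u v, χ (u + v) = χ u * χ v) →
    AlgebraicIndependent ℂ (fun i => χ (Pi.single i 1)) →
    (∀ a : K, ∃ r ∈ Submodule.span ℂ (Set.range χ),
      ∃ s ∈ Submodule.span ℂ (Set.range χ), s ≠ 0 ∧ a * s = r) →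
    Algebra.trdeg ℂ K = (n : Cardinal) →
    ∀ y : Fin n → ℤ, (∃ u : Fin n → ℤ, ∑ i, u i * y i = 1) →
    ∃ v : DivVal n K, (∀ u, v.ord (χ u) = ∑ i, u i * y i) ∧
      (∀ (F : Finset (Fin n → ℤ)) (c : (Fin n → ℤ) → ℂ), ∀ u0 ∈ F, c u0 ≠ 0 →
        v.ord (∑ u ∈ F, algebraMap ℂ K (c u) * χ u) ≤ ∑ i, u0 i * y i) ∧
      v.logOrd (dlogs fun i => χ (Pi.single i 1)) = 0 ∧
      ∀ w : Fin (n - 1) → Fin n → ℤ, LinearIndependent ℤ w → (∀ j, ∑ i, w j i * y i = 0) →
        ∀ p : MvPolynomial (Fin (n - 1)) ℂ, p ≠ 0 → aeval (fun j => χ (w j)) p ≠ 0 ∧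
          v.ord (aeval (fun j => χ (w j)) p) = 0

namespace GAUT

open MvPolynomial

noncomputable section

variable {n : ℕ} {K : Type} [Field K] [Algebra ℂ K] {χ : (Fin n → ℤ) → K}

attribute [-instance] HahnSeries.powerSeriesAlgebra in
/-- The valuation. -/
theorem exists_val (h0 : χ 0 = 1) (ha : ∀ u v, χ (u + v) = χ u * χ v)
    (hai : AlgebraicIndependent ℂ fun i => χ (Pi.single i 1))
    (hfr : ∀ a : K, ∃ r ∈ Submodule.span ℂ (Set.range χ),
      ∃ s ∈ Submodule.span ℂ (Set.range χ), s ≠ 0 ∧ a * s = r)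
    {y : Fin n → ℤ} (hy : ∃ u : Fin n → ℤ, ∑ i, u i * y i = 1) :
    ∃ v : DivVal n K, (∀ u, v.ord (χ u) = pr y u) ∧
      (∀ (F : Finset (Fin n → ℤ)) (c : (Fin n → ℤ) → ℂ), ∀ u0 ∈ F, c u0 ≠ 0 →
        v.ord (∑ u ∈ F, algebraMap ℂ K (c u) * χ u) ≤ pr y u0) ∧
      ∀ {ι : Type} [Fintype ι] (w : ι → Fin n → ℤ), LinearIndependent ℤ w →
        (∀ j, pr y (w j) = 0) → ∀ p : MvPolynomial ι ℂ, p ≠ 0 →
          aeval (fun j => χ (w j)) p ≠ 0 ∧ v.ord (aeval (fun j => χ (w j)) p) = 0 := by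
  classical
  obtain ⟨Φ, hΦ⟩ := exists_hom h0 ha hai hfr y
  have hΦχ : ∀ u, Φ (χ u) = chiT χ y u := by
    intro u
    rw [← psi_single h0 ha u, hΦ, phi_single]
  have hΦc : ∀ c : ℂ, Φ (algebraMap ℂ K c) = HahnSeries.C (algebraMap ℂ K c) := by
    intro c
    have h1 := hΦ (algebraMap ℂ (A n) c)
    rw [AlgHom.commutes, AlgHom.commutes] at h1
    rw [h1]
    rfl
  have hne : ∀ a, a ≠ 0 → Φ a ≠ 0 := fun a h => (map_ne_zero Φ).2 h
  have hpoly : ∀ {ι : Type} [Fintype ι] (w : ι → Fin n → ℤ), LinearIndependent ℤ w →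
      (∀ j, pr y (w j) = 0) → ∀ p : MvPolynomial ι ℂ, p ≠ 0 →
        aeval (fun j => χ (w j)) p ≠ 0 ∧ (Φ (aeval (fun j => χ (w j)) p)).order = 0 := by
    intro ι _ w hw hwy p hp
    have h2 : ∀ q : MvPolynomial ι ℂ, Φ (aeval (fun j => χ (w j)) q) =
        HahnSeries.C (aeval (fun j => χ (w j)) q) := by
      intro q
      induction q using MvPolynomial.induction_on with
      | C c => rw [MvPolynomial.algHom_C, hΦc]
      | add p q hp hq => rw [map_add, map_add, map_add, hp, hq]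
      | mul_X p i hp =>
        rw [map_mul, MvPolynomial.aeval_X, map_mul, map_mul, hp, hΦχ]
        unfold chiT
        rw [hwy i]
        rfl
    exact ⟨aeval_ne h0 ha hai hw hp, by rw [h2, HahnSeries.order_C]⟩
  obtain ⟨u1, hu1⟩ := hy
  refine ⟨⟨fun a => (Φ a).order, ?_, ?_, ?_, ?_, ?_, ?_⟩, ?_, ?_, hpoly⟩
  · rw [map_zero, HahnSeries.order_zero]
  · intro a b ha' hb'
    rw [map_mul, HahnSeries.order_mul (hne a ha') (hne b hb')]
  · intro a b ha' hb' hab
    rw [map_add]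
    exact HahnSeries.min_order_le_order_add (by rw [← map_add]; exact hne _ hab)
  · intro c
    show (Φ (algebraMap ℂ K c)).order = 0
    rw [hΦc, HahnSeries.order_C]
  · refine ⟨χ u1, chi_neg h0 ha u1, ?_⟩
    show (Φ (χ u1)).order = 1
    rw [hΦχ]
    unfold chiT
    rw [HahnSeries.order_single (chi_neg h0 ha u1)]
    exact hu1
  · obtain ⟨m, rfl⟩ : ∃ m, n = m + 1 := by
      rcases n with _ | m
      · simp at hu1
      · exact ⟨m, rfl⟩
    obtain ⟨i0, hi0⟩ : ∃ i0, y i0 ≠ 0 := by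
      by_contra hcon
      push Not at hcon
      simp [hcon] at hu1
    obtain ⟨w, hw, hwy⟩ := exists_orth y hi0
    exact ⟨fun j => χ (w j), hpoly w hw hwy⟩
  · intro u
    show (Φ (χ u)).order = pr y u
    rw [hΦχ]
    unfold chiT
    rw [HahnSeries.order_single (chi_neg h0 ha u)]
  · intro F c u0 hu0 hc
    show (Φ (∑ u ∈ F, algebraMap ℂ K (c u) * χ u)).order ≤ pr y u0
    apply HahnSeries.order_le_of_coeff_ne_zero
    intro h
    rw [map_sum, HahnSeries.coeff_sum] at h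
    have h1 : ∀ u ∈ F, (Φ (algebraMap ℂ K (c u) * χ u)).coeff (pr y u0) =
        if pr y u = pr y u0 then c u • χ u else 0 := by
      intro u _
      rw [map_mul, hΦc, hΦχ, HahnSeries.C_mul_eq_smul, HahnSeries.coeff_smul, smul_eq_mul,
        ← Algebra.smul_def]
      unfold chiT
      split_ifs with hk
      · rw [← hk, HahnSeries.coeff_single_same]
      · rw [HahnSeries.coeff_single_of_ne (Ne.symm hk), smul_zero]
    rw [Finset.sum_congr rfl h1, ← Finset.sum_filter] at h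
    have hli := linearIndependent_iff'.1 (linInd h0 ha hai)
    exact hc (hli _ c h u0 (Finset.mem_filter.2 ⟨hu0, rfl⟩))

/-- Differentials of monomials: the determinant. -/
theorem dlogs_chi (hTBAS : Stmt_TBAS) (h0 : χ 0 = 1) (ha : ∀ u v, χ (u + v) = χ u * χ v)
    (hai : AlgebraicIndependent ℂ fun i => χ (Pi.single i 1))
    (htr : Algebra.trdeg ℂ K = (n : Cardinal)) (W : Fin n → Fin n → ℤ) :
    dlogs (fun j => χ (W j)) = ((Matrix.of W).det : K) • dlogs fun i => χ (Pi.single i 1) := by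
  classical
  obtain ⟨hli, hsp⟩ := hTBAS htr _ hai
  let b0 : Module.Basis (Fin n) K (Ω[K⁄ℂ]) := Module.Basis.mk hli hsp.ge
  let b : Module.Basis (Fin n) K (Ω[K⁄ℂ]) := b0.isUnitSMul
    (w := fun i => (χ (Pi.single i 1))⁻¹) fun i =>
      isUnit_iff_ne_zero.2 (inv_ne_zero (chi_neg h0 ha _))
  have hb : (b : Fin n → Ω[K⁄ℂ]) = fun i => dlog (χ (Pi.single i 1)) := by
    funext i
    show b0.isUnitSMul _ i = _
    rw [Module.Basis.isUnitSMul_apply, Module.Basis.mk_apply]
    rfl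
  have h1 := FRM.iota_eq b fun j => dlog (χ (W j))
  have h2 : b.det (fun j => dlog (χ (W j))) = ((Matrix.of W).det : K) := by
    rw [Module.Basis.det_apply, ← Matrix.det_transpose, Int.cast_det]
    congr 1
    ext j i
    rw [Matrix.transpose_apply, Module.Basis.toMatrix_apply, dlog_chi h0 ha]
    have h3 : ∑ i, (W j i : K) • dlog (χ (Pi.single i 1)) = ∑ i, (W j i : K) • b i := by
      rw [hb]
    rw [h3, Module.Basis.repr_sum_self]
    rfl
  rw [h2, hb] at h1
  exact h1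

theorem dlog_smul {a : K} (ha : a ≠ 0) : KaehlerDifferential.D ℂ K a = a • dlog a := by
  unfold dlog
  rw [smul_smul, mul_inv_cancel₀ ha, one_smul]

end

end GAUT

open GAUT MvPolynomial in
theorem t_GAUT (hTBAS : Stmt_TBAS) (hFRM : Stmt_FRM) : Stmt_GAUT := by
  classical
  intro n K _ _ χ h0 ha hai hfr htr y hy
  obtain ⟨v, h1, h2, h3⟩ := exists_val h0 ha hai hfr hy
  refine ⟨v, h1, h2, ?_, fun w hw hwy => h3 w hw hwy⟩
  obtain ⟨m, rfl⟩ : ∃ m, n = m + 1 := by
    rcases n with _ | m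
    · obtain ⟨u, hu⟩ := hy
      simp at hu
    · exact ⟨m, rfl⟩
  obtain ⟨u1, hu1⟩ := hy
  obtain ⟨i0, hi0⟩ : ∃ i0, y i0 ≠ 0 := by
    by_contra hcon
    push Not at hcon
    simp [hcon] at hu1
  obtain ⟨w, hw, hwy⟩ := exists_orth y hi0
  have hfrm : Frame v (χ u1) fun j => χ (w j) := by
    refine ⟨chi_neg h0 ha u1, ?_, h3 w hw hwy⟩
    rw [h1]
    exact hu1
  obtain ⟨hF0, hFe, hFo⟩ := hFRM htr v _ _ hfrm
  -- the frame form in terms of the characters
  let W : Fin (m + 1) → Fin (m + 1) → ℤ := Fin.cons u1 w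
  have e1 : frameForm (χ u1) (fun j => χ (w j)) =
      (∏ j, χ (w j)) • dlogs fun j => χ (W j) := by
    unfold frameForm dlogs
    have e2 : (Fin.cons (dlog (χ u1)) fun j => KaehlerDifferential.D ℂ K (χ (w j)) :
        Fin (m + 1) → Ω[K⁄ℂ]) = fun j => (Fin.cons 1 (fun j => χ (w j)) : Fin (m + 1) → K) j •
          dlog (χ (W j)) := by
      funext j
      refine Fin.cases ?_ (fun j => ?_) j
      · rw [Fin.cons_zero, Fin.cons_zero, one_smul]
        rfl
      · rw [Fin.cons_succ, Fin.cons_succ]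
        exact dlog_smul (chi_neg h0 ha _)
    rw [e2, AlternatingMap.map_smul_univ, Fin.prod_univ_succ]
    simp only [Fin.cons_zero, Fin.cons_succ, one_mul]
  rw [dlogs_chi hTBAS h0 ha hai htr W, smul_smul] at e1
  have hd : ((Matrix.of W).det : K) ≠ 0 := by
    intro h
    rw [h, mul_zero, zero_smul] at e1
    exact hF0 e1
  have hp : ∏ j, χ (w j) ≠ 0 := Finset.prod_ne_zero_iff.2 fun j _ => chi_neg h0 ha _
  have e3 : dlogs (fun i => χ (Pi.single i 1)) =
      ((∏ j, χ (w j)) * ((Matrix.of W).det : K))⁻¹ • frameForm (χ u1) fun j => χ (w j) := by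
    rw [e1, smul_smul, inv_mul_cancel₀ (mul_ne_zero hp hd), one_smul]
  rw [e3, hFo _ (inv_ne_zero (mul_ne_zero hp hd)), DivVal.ord_inv, v.ord_mul _ _ hp hd,
    DivVal.ord_intCast, DivVal.ord_prod]
  · have h4 : ∑ j, v.ord (χ (w j)) = 0 := Finset.sum_eq_zero fun j _ => by rw [h1]; exact hwy j
    rw [h4, add_zero, neg_zero]
  · exact fun j _ => chi_neg h0 ha _

end MldGeo
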