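import Pool.Agent.MldGeo.Stmts3
import Pool.Agent.MldGeo.GAUT

/-!
# GAV: monomial valuations of the function field of a torus
-/

namespace MldGeo

theorem t_GAV (h : Stmt_GAUT) : Stmt_GAV := by
  intro n K _ _ χ hχ htr y hy
  obtain ⟨v, h1, h2, h3, h4⟩ := h χ hχ.zero hχ.add hχ.indep hχ.frac htr y hy
  exact ⟨v, ⟨h1, h2, h3, h4⟩⟩

end MldGeo
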