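import Pool.Agent.MldGeo.Stmts2

/-!
# MP_fa3f7f_ag: the quotient of affine space by a finite group of linear maps (module GEX)
-/

namespace MldGeo

open MvPolynomial

noncomputable section

namespace GEX

variable {n : ℕ}

theorem linSubst_X (g : GL (Fin n) ℂ) (i : Fin n) :
    linSubst g (X i) = ∑ j, C ((g : Matrix (Fin n) (Fin n) ℂ) i j) * X j := by
  unfold linSubst
  rw [aeval_X]

theorem linSubst_one (p : MvPolynomial (Fin n) ℂ) : linSubst (1 : GL (Fin n) ℂ) p = p := by
  have h : linSubst (1 : GL (Fin n) ℂ) = AlgHom.id ℂ _ := by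
    apply MvPolynomial.algHom_ext
    intro i
    rw [linSubst_X, AlgHom.id_apply, Finset.sum_eq_single i]
    · rw [Units.val_one, Matrix.one_apply_eq, C_1, one_mul]
    · intro j _ hj
      rw [Units.val_one, Matrix.one_apply_ne (Ne.symm hj), C_0, zero_mul]
    · intro hi
      exact absurd (Finset.mem_univ i) hi
  rw [h, AlgHom.id_apply]

theorem linSubst_comp (g h : GL (Fin n) ℂ) (p : MvPolynomial (Fin n) ℂ) :
    linSubst g (linSubst h p) = linSubst (h * g) p := by
  have e : (linSubst g).comp (linSubst h) = linSubst (h * g) := by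
    apply MvPolynomial.algHom_ext
    intro i
    rw [AlgHom.comp_apply, linSubst_X, map_sum, linSubst_X]
    have h1 : ∀ j, linSubst g (C ((h : Matrix (Fin n) (Fin n) ℂ) i j) * X j) =
        ∑ k, C ((h : Matrix (Fin n) (Fin n) ℂ) i j * (g : Matrix (Fin n) (Fin n) ℂ) j k) *
          X k := by
      intro j
      rw [map_mul, linSubst_X, MvPolynomial.algHom_C, Finset.mul_sum]
      refine Finset.sum_congr rfl fun k _ => ?_
      rw [C_mul, mul_assoc]
      rfl
    rw [Finset.sum_congr rfl fun j _ => h1 j, Finset.sum_comm]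
    refine Finset.sum_congr rfl fun k _ => ?_
    rw [← Finset.sum_mul, Units.val_mul, Matrix.mul_apply, map_sum]
  exact DFunLike.congr_fun e p

/-- the action of the group -/
@[instance_reducible]
def act (G : Subgroup (GL (Fin n) ℂ)) : MulSemiringAction G (MvPolynomial (Fin n) ℂ) where
  smul g p := linSubst ((g⁻¹ : G) : GL (Fin n) ℂ) p
  one_smul p := by
    show linSubst ((1⁻¹ : G) : GL (Fin n) ℂ) p = p
    rw [inv_one]
    exact linSubst_one p
  mul_smul g h p := by
    show linSubst (((g * h)⁻¹ : G) : GL (Fin n) ℂ) p =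
      linSubst ((g⁻¹ : G) : GL (Fin n) ℂ) (linSubst ((h⁻¹ : G) : GL (Fin n) ℂ) p)
    rw [linSubst_comp, mul_inv_rev]
    rfl
  smul_zero g := map_zero (linSubst ((g⁻¹ : G) : GL (Fin n) ℂ))
  smul_add g p q := map_add (linSubst ((g⁻¹ : G) : GL (Fin n) ℂ)) p q
  smul_one g := map_one (linSubst ((g⁻¹ : G) : GL (Fin n) ℂ))
  smul_mul g p q := map_mul (linSubst ((g⁻¹ : G) : GL (Fin n) ℂ)) p q

variable (G : Subgroup (GL (Fin n) ℂ))

theorem integral [Finite G] :
    Algebra.IsIntegral (invariants G) (MvPolynomial (Fin n) ℂ) := by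
  let _ := act G
  have : Algebra.IsInvariant (invariants G) (MvPolynomial (Fin n) ℂ) G := by
    refine ⟨fun b hb => ⟨⟨b, fun g hg => ?_⟩, rfl⟩⟩
    have h1 : linSubst (((⟨g⁻¹, inv_mem hg⟩ : G)⁻¹ : G) : GL (Fin n) ℂ) b = b :=
      hb ⟨g⁻¹, inv_mem hg⟩
    rwa [show (((⟨g⁻¹, inv_mem hg⟩ : G)⁻¹ : G) : GL (Fin n) ℂ) = g from inv_inv g] at h1
  exact Algebra.IsInvariant.isIntegral (invariants G) (MvPolynomial (Fin n) ℂ) G

theorem finiteType [Finite G] : (⊤ : Subalgebra ℂ (invariants G)).FG := by
  have := integral G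
  have : Algebra.FiniteType (invariants G) (MvPolynomial (Fin n) ℂ) :=
    Algebra.FiniteType.of_restrictScalars_finiteType ℂ _ _
  have : Module.Finite (invariants G) (MvPolynomial (Fin n) ℂ) := Algebra.IsIntegral.finite
  exact fg_of_fg_of_fg ℂ (invariants G) (MvPolynomial (Fin n) ℂ) Algebra.FiniteType.out
    Module.Finite.fg_top Subtype.val_injective

/-- the function field -/
abbrev KK : Type := FractionRing (invariants G)

local instance algB : Algebra (invariants G) (KK G) := inferInstance

local instance smulB : SMul (invariants G) (KK G) := Algebra.toSMul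

local instance algC : Algebra ℂ (KK G) := inferInstance

local instance smulC : SMul ℂ (KK G) := Algebra.toSMul

/-- the inclusion of the invariants -/
def emb : invariants G →ₐ[ℂ] KK G := IsScalarTower.toAlgHom ℂ (invariants G) (KK G)

theorem emb_inj : Function.Injective (emb G) := IsFractionRing.injective (invariants G) (KK G)

/-- the isomorphism -/
def iso : (emb G).range ≃ₐ[ℂ] invariants G :=
  (AlgEquiv.ofInjective (emb G) (emb_inj G)).symm

theorem emb_iso (a : (emb G).range) : emb G (iso G a) = (a : KK G) := by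
  have h := congrArg Subtype.val ((AlgEquiv.ofInjective (emb G) (emb_inj G)).apply_symm_apply a)
  exact h

/-- the constant term -/
def cc : (emb G).range →+* ℂ :=
  (constantCoeff (R := ℂ) (σ := Fin n)).comp
    (((invariants G).val.comp (iso G).toAlgHom : (emb G).range →ₐ[ℂ] MvPolynomial (Fin n) ℂ) :
      (emb G).range →+* MvPolynomial (Fin n) ℂ)

theorem cc_surj : Function.Surjective (cc G) := by
  intro c
  refine ⟨algebraMap ℂ (emb G).range c, ?_⟩
  show constantCoeff ((iso G (algebraMap ℂ (emb G).range c) : invariants G) :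
    MvPolynomial (Fin n) ℂ) = c
  rw [AlgEquiv.commutes]
  exact constantCoeff_C _ c

theorem trdeg_KK [Finite G] : Algebra.trdeg ℂ (KK G) = (n : Cardinal) := by
  have := integral G
  have : Algebra.IsAlgebraic (invariants G) (MvPolynomial (Fin n) ℂ) :=
    Algebra.IsIntegral.isAlgebraic
  have : Algebra.IsAlgebraic (invariants G) (KK G) :=
    (IsFractionRing.comap_isAlgebraic_iff (A := invariants G) (K := KK G) (C := KK G)).2
      inferInstance
  have : FaithfulSMul (invariants G) (MvPolynomial (Fin n) ℂ) :=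
    (faithfulSMul_iff_algebraMap_injective _ _).2 Subtype.val_injective
  have : FaithfulSMul ℂ (invariants G) :=
    (faithfulSMul_iff_algebraMap_injective _ _).2 (algebraMap ℂ (invariants G)).injective
  have : FaithfulSMul (invariants G) (KK G) :=
    (faithfulSMul_iff_algebraMap_injective _ _).2 (emb_inj G)
  have h1 := _root_.trdeg_add_eq ℂ (invariants G) (A := MvPolynomial (Fin n) ℂ)
  have h2 := _root_.trdeg_add_eq ℂ (invariants G) (A := KK G)
  rw [trdeg_eq_zero (R := invariants G), add_zero] at h1 h2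
  rw [← h2, h1, MvPolynomial.trdeg_of_isDomain]
  simp

/-- the inclusion of the invariants into the field of rational functions -/
def toRat : invariants G →+* Rat n :=
  (algebraMap (MvPolynomial (Fin n) ℂ) (Rat n)).comp (invariants G).val.toRingHom

theorem toRat_inj : Function.Injective (toRat G) := fun _ _ h =>
  Subtype.ext (IsFractionRing.injective (MvPolynomial (Fin n) ℂ) (Rat n) h)

theorem normal (a : KK G) (ha : IsIntegral (emb G).range a) : a ∈ (emb G).range := by
  have hl : ∀ b : invariants G, IsFractionRing.lift (K := KK G) (toRat_inj G) (emb G b) =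
      algebraMap (MvPolynomial (Fin n) ℂ) (Rat n) b := fun b =>
    IsFractionRing.lift_algebraMap (toRat_inj G) b
  have h1 : IsIntegral (MvPolynomial (Fin n) ℂ) (IsFractionRing.lift (K := KK G)
      (toRat_inj G) a) := by
    refine IsIntegral.map_of_comp_eq
      (((invariants G).val.comp (iso G).toAlgHom : (emb G).range →ₐ[ℂ] MvPolynomial (Fin n) ℂ) :
        (emb G).range →+* MvPolynomial (Fin n) ℂ) (IsFractionRing.lift (K := KK G)
      (toRat_inj G)) ?_ ha
    refine RingHom.ext fun x => ?_
    show algebraMap (MvPolynomial (Fin n) ℂ) (Rat n) (iso G x : invariants G) =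
      IsFractionRing.lift (K := KK G) (toRat_inj G) (x : KK G)
    rw [← hl, emb_iso]
  obtain ⟨p, hp⟩ := IsIntegrallyClosed.isIntegral_iff.1 h1
  obtain ⟨⟨b, c⟩, hbc⟩ := IsLocalization.surj (nonZeroDivisors (invariants G)) a
  have hbc' : a * emb G c = emb G b := hbc
  have hc : ((c : invariants G) : MvPolynomial (Fin n) ℂ) ≠ 0 := fun h =>
    nonZeroDivisors.coe_ne_zero c (Subtype.ext h)
  have h2 : p * ((c : invariants G) : MvPolynomial (Fin n) ℂ) = b := by
    apply IsFractionRing.injective (MvPolynomial (Fin n) ℂ) (Rat n)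
    rw [map_mul, hp, ← hl, ← hl, ← map_mul, hbc']
  have hpG : p ∈ invariants G := by
    intro g hg
    apply mul_right_cancel₀ hc
    have h3 := congrArg (linSubst g) h2
    rw [map_mul, (c : invariants G).2 g hg, b.2 g hg] at h3
    rw [h3, h2]
  refine ⟨⟨p, hpG⟩, ?_⟩
  have hc' : emb G c ≠ 0 := by
    intro h
    have h4 : (c : invariants G) = 0 := emb_inj G (h.trans (map_zero (emb G)).symm)
    exact nonZeroDivisors.coe_ne_zero c h4
  apply mul_right_cancel₀ hc'
  show emb G ⟨p, hpG⟩ * emb G c = a * emb G c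
  rw [hbc', ← map_mul]
  congr 1
  exact Subtype.ext h2

/-- the quotient -/
def germ [Finite G] : Germ n where
  K := KK G
  fieldK := inferInstance
  algK := inferInstance
  R := (emb G).range
  fg := by
    rw [← Algebra.map_top]
    exact (finiteType G).map _
  frac := by
    intro a
    obtain ⟨⟨x, y⟩, hxy⟩ := IsLocalization.surj (nonZeroDivisors (invariants G)) a
    refine ⟨emb G x, ⟨x, rfl⟩, emb G y, ⟨y, rfl⟩, ?_, hxy⟩
    intro h
    have h1 : (y : invariants G) = 0 := emb_inj G (h.trans (map_zero (emb G)).symm)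
    exact nonZeroDivisors.coe_ne_zero y h1
  normal := normal G
  trdeg := trdeg_KK G
  m := RingHom.ker (cc G)
  max := RingHom.ker_isMaximal_of_surjective (cc G) (cc_surj G)

end GEX

/-- the quotient exists -/
theorem t_GEX (_h1 : Stmt_TDR) : Stmt_GEX := by
  intro n G _
  exact ⟨GEX.germ G, GEX.iso G, fun a => Iff.rfl⟩

end

end MldGeo
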