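import Pool.Agent.MldGeo.Stmts4
import Pool.Agent.MldGeo.Stmts5
import Pool.Agent.MldGeo.Ord

/-!
# A function whose divisor near `x` is invariant
-/

namespace MldGeo

namespace GHO

open DirectSum DivVal

noncomputable section

variable {n m : ℕ} {X : Germ n} (A : TorusAction X m)

/-- The component of weight `u`. -/
def cp (u : Fin m → ℤ) (r : X.R) : X.R := (decompose A.gr r u : X.R)

theorem cp_mem (u : Fin m → ℤ) (r : X.R) : cp A u r ∈ A.gr u := (decompose A.gr r u).2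

theorem exists_sum (r : X.R) : ∃ s : Finset (Fin m → ℤ), r = ∑ u ∈ s, cp A u r := by
  classical
  exact ⟨_, (sum_support_decompose A.gr r).symm⟩

theorem cp_left {i : Fin m → ℤ} {a : X.R} (ha : a ∈ A.gr i) (b : X.R) (j : Fin m → ℤ) :
    cp A (i + j) (a * b) = a * cp A j b :=
  coe_decompose_mul_add_of_left_mem A.gr ha

theorem cp_right {j : Fin m → ℤ} {b : X.R} (hb : b ∈ A.gr j) (a : X.R) (i : Fin m → ℤ) :
    cp A (i + j) (a * b) = cp A i a * b :=
  coe_decompose_mul_add_of_right_mem A.gr hb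

theorem cp_ne_of_notMem {I : Ideal X.R} {r : X.R} (hr : r ∉ I) : ∃ u, cp A u r ∉ I := by
  by_contra h
  push Not at h
  apply hr
  obtain ⟨s, hs⟩ := exists_sum A r
  rw [hs]
  exact Ideal.sum_mem _ fun u _ => h u

theorem hom_of_inv {I : Ideal X.R} (h : A.Inv I) {r : X.R} (hr : r ∈ I) (u : Fin m → ℤ) :
    cp A u r ∈ I := by
  obtain ⟨s, hs, rfl⟩ := h
  exact Ideal.homogeneous_span A.gr s (fun x hx => hs x hx) u hr

theorem inv_of_hom {I : Ideal X.R} (h : ∀ (u : Fin m → ℤ) (r : X.R), r ∈ I → cp A u r ∈ I) :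
    A.Inv I := by
  refine ⟨{a | a ∈ I ∧ ∃ u, a ∈ A.gr u}, fun a ha => ha.2, le_antisymm ?_ ?_⟩
  · intro r hr
    obtain ⟨s, hs⟩ := exists_sum A r
    rw [hs]
    exact Ideal.sum_mem _ fun u _ => Ideal.subset_span ⟨h u r hr, u, cp_mem A u r⟩
  · exact Ideal.span_le.2 fun a ha => ha.1

/-- The weights with the lexicographic order. -/
def W (m : ℕ) : Type := Lex (Fin m → ℤ)

instance : AddCommGroup (W m) := inferInstanceAs (AddCommGroup (Lex (Fin m → ℤ)))

instance : LinearOrder (W m) := inferInstanceAs (LinearOrder (Lex (Fin m → ℤ)))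

instance : IsOrderedCancelAddMonoid (W m) :=
  inferInstanceAs (IsOrderedCancelAddMonoid (Lex (Fin m → ℤ)))

/-- The same grading, with the lexicographic order of the weights. -/
def lgr (u : W m) : Submodule ℂ X.R := A.gr (ofLex u)

/-- change of the decision procedure -/
@[instance_reducible] def lgradedDec (d1 d2 : DecidableEq (Fin m → ℤ))
    (h : @GradedRing (Fin m → ℤ) X.R (Submodule ℂ X.R) d1 _ _ _ _ A.gr) :
    @GradedRing (Fin m → ℤ) X.R (Submodule ℂ X.R) d2 _ _ _ _ A.gr := by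
  have h1 : d1 = d2 := Subsingleton.elim d1 d2
  subst h1
  exact h

/-- the grading for every choice of the decision procedure -/
@[instance_reducible] def lgradedAux (dec : DecidableEq (Fin m → ℤ)) :
    @GradedRing (Fin m → ℤ) X.R (Submodule ℂ X.R) dec _ _ _ _ A.gr :=
  lgradedDec A _ dec A.graded

instance : GradedRing (lgr A) := lgradedAux A _

/-- A prime of height one which contains a homogeneous element is homogeneous. -/
theorem inv_of_mem {P : Ideal X.R} (hP : P.IsPrime) (h1 : P.height = 1) {q : X.R}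
    {w : Fin m → ℤ} (hq : q ∈ A.gr w) (hq0 : q ≠ 0) (hqP : q ∈ P) : A.Inv P := by
  have hc : (P.homogeneousCore (lgr A)).toIdeal.IsPrime := hP.homogeneousCore
  have hle : (P.homogeneousCore (lgr A)).toIdeal ≤ P := P.toIdeal_homogeneousCore_le _
  have hqc : q ∈ (P.homogeneousCore (lgr A)).toIdeal :=
    Ideal.mem_homogeneousCore_of_homogeneous_of_mem ⟨(toLex w : Lex (Fin m → ℤ)), hq⟩ hqP
  have heq : (P.homogeneousCore (lgr A)).toIdeal = P := by
    by_contra hne
    have hlt := lt_of_le_of_ne hle hne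
    have h2 : (P.height : ℕ∞) ≤ ((1 : ℕ) : ℕ∞) := by rw [h1]; rfl
    rw [Ideal.height_le_iff] at h2
    have h3 := h2 _ hc hlt
    have h4 : (P.homogeneousCore (lgr A)).toIdeal.height = 0 := by
      have : (P.homogeneousCore (lgr A)).toIdeal.height < 1 := by exact_mod_cast h3
      exact Order.lt_one_iff.1 this
    rw [Ideal.height_eq_zero_iff_eq_bot] at h4
    rw [h4] at hqc
    exact hq0 hqc
  refine ⟨_, ?_, heq.symm⟩
  rintro a ⟨⟨b, hb⟩, _, rfl⟩
  obtain ⟨u, hu⟩ := hb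
  exact ⟨ofLex u, hu⟩

/-- Along an invariant prime the order of a function is the least order of its components. -/
theorem ge_cp (hOLC : Stmt_OLC) {P : Ideal X.R} {v : DivVal n X.K} (hv : X.IsOrdAlong v P)
    (hP : A.Inv P) {k : ℤ} {a : X.R} (ha : v.Ge k (a : X.K)) (u : Fin m → ℤ) :
    v.Ge k (cp A u a : X.K) := by
  classical
  obtain ⟨hPp, h1, h0, hmem⟩ := id hv
  by_contra hu
  obtain ⟨s, hs⟩ := exists_sum A a
  have hc0 : cp A u a ≠ 0 := by
    intro h
    apply hu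
    rw [h]
    exact Or.inl rfl
  let S : Finset (Fin m → ℤ) := (insert u s).filter fun u => cp A u a ≠ 0
  have huS : u ∈ S := Finset.mem_filter.2 ⟨Finset.mem_insert_self _ _, hc0⟩
  obtain ⟨u0, hu0, hmin⟩ := Finset.exists_min_image S (fun u => v.ord (cp A u a : X.K)) ⟨u, huS⟩
  have hb0 : cp A u0 a ≠ 0 := (Finset.mem_filter.1 hu0).2
  set b : X.R := cp A u0 a with hb
  have hbK : (b : X.K) ≠ 0 := TorusAction.coe_ne hb0
  -- the fractions
  have hfr : ∀ w, ∃ r t : X.R, t ∉ P ∧ (w ∈ s → cp A w a * t = b * r) := by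
    intro w
    by_cases hw : w ∈ s
    · by_cases hw0 : cp A w a = 0
      · exact ⟨0, 1, fun h => hPp.ne_top ((Ideal.eq_top_iff_one P).2 h), fun _ => by
          rw [hw0]; ring⟩
      · have hwS : w ∈ S := Finset.mem_filter.2 ⟨Finset.mem_insert_of_mem hw, hw0⟩
        have h2 := hmin w hwS
        have h3 : v.Ge 0 ((cp A w a : X.K) / b) := by
          have h4 := (Ge.self v (cp A w a : X.K)).div (b : X.K)
          exact h4.mono (by linarith)
        obtain ⟨r, t, ht, e⟩ := hOLC X P v hv _ h3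
        refine ⟨r, t, ht, fun _ => ?_⟩
        apply Subtype.ext
        push_cast
        rw [← e]
        field_simp
    · exact ⟨0, 1, fun h => hPp.ne_top ((Ideal.eq_top_iff_one P).2 h), fun h => absurd h hw⟩
  choose r t ht hrt using hfr
  have hT : ∏ w ∈ s, t w ∉ P := by
    intro h
    obtain ⟨w, _, h2⟩ := (hPp.prod_mem_iff).1 h
    exact ht w h2
  obtain ⟨z, hz⟩ := cp_ne_of_notMem A hT
  set d : X.R := cp A z (∏ w ∈ s, t w) with hd
  have hdm : d ∈ A.gr z := cp_mem A z _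
  have hcomp : ∀ w ∈ s, ∃ c : X.R, cp A w a * d = b * c := by
    intro w hw
    refine ⟨cp A (w + z - u0) (r w * ∏ x ∈ s.erase w, t x), ?_⟩
    have e1 : cp A w a * ∏ x ∈ s, t x = b * (r w * ∏ x ∈ s.erase w, t x) := by
      rw [← Finset.mul_prod_erase s t hw, ← mul_assoc, hrt w hw, mul_assoc]
    have e2 : cp A (w + z) (cp A w a * ∏ x ∈ s, t x) = cp A w a * d :=
      cp_left A (cp_mem A w a) _ z
    rw [← e2, e1]
    have e3 := cp_left A (cp_mem A u0 a) (r w * ∏ x ∈ s.erase w, t x) (w + z - u0)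
    rw [show u0 + (w + z - u0) = w + z by abel] at e3
    exact e3
  have hsum : ∃ c : X.R, a * d = b * c := by
    have : ∀ w, ∃ c : X.R, w ∈ s → cp A w a * d = b * c := by
      intro w
      by_cases hw : w ∈ s
      · obtain ⟨c, hc⟩ := hcomp w hw
        exact ⟨c, fun _ => hc⟩
      · exact ⟨0, fun h => absurd h hw⟩
    choose c hc using this
    refine ⟨∑ w ∈ s, c w, ?_⟩
    conv_lhs => rw [hs]
    rw [Finset.sum_mul, Finset.mul_sum]
    exact Finset.sum_congr rfl fun w hw => hc w hw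
  obtain ⟨c, hc⟩ := hsum
  have hcd : cp A z c = d := by
    have e1 := cp_right A hdm a u0
    have e2 := cp_left A (cp_mem A u0 a) c z
    rw [hc] at e1
    have e3 : b * cp A z c = b * d := by
      rw [← hb] at e1
      have e4 : cp A (u0 + z) (b * c) = b * cp A z c := e2
      rw [← e4, e1]
    exact mul_left_cancel₀ hb0 e3
  have hcP : c ∉ P := by
    intro h
    have := hom_of_inv A hP h z
    rw [hcd] at this
    exact hz this
  have hord0 : ∀ y : X.R, y ∉ P → (y : X.K) ≠ 0 ∧ v.ord (y : X.K) = 0 := by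
    intro y hy
    rw [hmem] at hy
    push Not at hy
    exact ⟨TorusAction.coe_ne hy.1, le_antisymm hy.2 (h0 y)⟩
  obtain ⟨hdK, hdo⟩ := hord0 d hz
  obtain ⟨hcK, hco⟩ := hord0 c hcP
  have hKeq : (a : X.K) * d = b * c := by exact_mod_cast congrArg Subtype.val hc
  have haK : (a : X.K) ≠ 0 := by
    intro h
    rw [h, zero_mul] at hKeq
    exact (mul_ne_zero hbK hcK) hKeq.symm
  have h5 := v.ord_mul _ _ haK hdK
  have h6 := v.ord_mul _ _ hbK hcK
  rw [hKeq, h6, hdo, hco] at h5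
  have h7 := ha.le haK
  have h8 := hmin u huS
  apply hu
  right
  have h9 : v.ord (b : X.K) ≤ v.ord (cp A u a : X.K) := h8
  omega

/-- The regular functions whose divisor is at least the divisor of `g`, near `x`. -/
def J (g : X.K) : Ideal X.R where
  carrier := {a | ∀ (P : Ideal X.R) (v : DivVal n X.K), P ≤ X.m → X.IsOrdAlong v P →
    v.Ge (v.ord g) (a : X.K)}
  zero_mem' := fun P v _ _ => Or.inl rfl
  add_mem' := fun {a b} ha hb P v hP hv => by
    have := (ha P v hP hv).add (hb P v hP hv)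
    simpa using this
  smul_mem' := fun c a ha P v hP hv => by
    have := Ge.mul_left (Ge.of_le (hv.2.2.1 c)) (ha P v hP hv)
    simpa using this

theorem mem_J {g : X.K} {a : X.R} : a ∈ J g ↔ ∀ (P : Ideal X.R) (v : DivVal n X.K), P ≤ X.m →
    X.IsOrdAlong v P → v.Ge (v.ord g) (a : X.K) := Iff.rfl

theorem J_hom (hOLC : Stmt_OLC) {g : X.K} (hg : ∀ (P : Ideal X.R) (v : DivVal n X.K),
    X.IsOrdAlong v P → P ≤ X.m → ¬ A.Inv P → v.ord g = 0) {a : X.R} (ha : a ∈ J g)
    (u : Fin m → ℤ) : cp A u a ∈ J g := by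
  intro P v hP hv
  by_cases h : A.Inv P
  · exact ge_cp A hOLC hv h (ha P v hP hv) u
  · rw [hg P v hv hP h]
    exact Or.inr (hv.2.2.1 _)

theorem notMem_of {P : Ideal X.R} (hP : P ≤ X.m) {v : DivVal n X.K} (hv : X.IsOrdAlong v P)
    {s : X.R} (hs : s ∉ X.m) : v.ord (s : X.K) = 0 := by
  have h1 : s ∉ P := fun h => hs (hP h)
  rw [hv.2.2.2] at h1
  push Not at h1
  exact le_antisymm h1.2 (hv.2.2.1 s)

theorem ne_of_notMem {s : X.R} (hs : s ∉ X.m) : (s : X.K) ≠ 0 := by
  intro h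
  apply hs
  have h2 : s = 0 := Subtype.ext h
  rw [h2]
  exact X.m.zero_mem

theorem main (hOLC : Stmt_OLC) (hLOC : Stmt_LOC) (h : X.K) (hh : h ≠ 0)
    (hinv : ∀ (P : Ideal X.R) (v : DivVal n X.K), X.IsOrdAlong v P → P ≤ X.m → ¬ A.Inv P →
      v.ord h = 0) :
    ∃ (u : Fin m → ℤ) (H : X.K), A.Hom u H ∧ H ≠ 0 ∧ ∀ v, X.Through v → v.ord h = v.ord H := by
  classical
  -- the homogeneous denominator `q`
  obtain ⟨r0, hr0, s0, hs0, hs00, e0⟩ := X.frac h
  have hsJ : (⟨s0, hs0⟩ : X.R) ∈ J (h⁻¹) := by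
    intro P v _ hv
    right
    have h1 := v.ord_mul h s0 hh hs00
    rw [e0] at h1
    have h2 : 0 ≤ v.ord r0 := hv.2.2.1 ⟨r0, hr0⟩
    rw [ord_inv]
    change - v.ord h ≤ v.ord s0
    omega
  have hs0ne : (⟨s0, hs0⟩ : X.R) ∉ (⊥ : Ideal X.R) := by
    intro h1
    exact hs00 (congrArg Subtype.val (show (⟨s0, hs0⟩ : X.R) = 0 from h1))
  obtain ⟨wq, hwq⟩ := cp_ne_of_notMem A hs0ne
  obtain ⟨q, hqdef⟩ : ∃ q, q = cp A wq ⟨s0, hs0⟩ := ⟨_, rfl⟩
  rw [← hqdef] at hwq
  have hq0 : q ≠ 0 := hwq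
  have hqK : (q : X.K) ≠ 0 := TorusAction.coe_ne hq0
  have hqm : q ∈ A.gr wq := by rw [hqdef]; exact cp_mem A wq _
  have hqJ : q ∈ J (h⁻¹) := by
    rw [hqdef]
    refine J_hom A hOLC (fun P v hv hP hn => ?_) hsJ wq
    rw [ord_inv, hinv P v hv hP hn, neg_zero]
  have hqinv : ∀ (P : Ideal X.R) (v : DivVal n X.K), X.IsOrdAlong v P → P ≤ X.m → ¬ A.Inv P →
      v.ord (q : X.K) = 0 := by
    intro P v hv hP hn
    have h1 : q ∉ P := fun h1 => hn (inv_of_mem A hv.1 hv.2.1 hqm hq0 h1)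
    rw [hv.2.2.2] at h1
    push Not at h1
    exact le_antisymm h1.2 (hv.2.2.1 q)
  -- the function `g = q h`
  obtain ⟨g, hgdef⟩ : ∃ g : X.K, g = q * h := ⟨_, rfl⟩
  have hg0 : g ≠ 0 := by rw [hgdef]; exact mul_ne_zero hqK hh
  have hgord : ∀ v : DivVal n X.K, v.ord g = v.ord (q : X.K) + v.ord h := by
    intro v
    rw [hgdef, v.ord_mul _ _ hqK hh]
  have hginv : ∀ (P : Ideal X.R) (v : DivVal n X.K), X.IsOrdAlong v P → P ≤ X.m → ¬ A.Inv P →
      v.ord g = 0 := by
    intro P v hv hP hn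
    rw [hgord, hqinv P v hv hP hn, hinv P v hv hP hn, zero_add]
  obtain ⟨r, s, hs, e⟩ := hLOC X g fun v P hP hv => by
    right
    rw [hgord]
    have h1 := (hqJ P v hP hv).le hqK
    rw [ord_inv] at h1
    omega
  have hsK := ne_of_notMem hs
  have hrJ : r ∈ J g := by
    intro P v hP hv
    right
    rw [← e, v.ord_mul _ _ hg0 hsK, notMem_of hP hv hs, add_zero]
  have hloc : ∀ a : X.R, a ∈ J g → ∃ y t : X.R, t ∉ X.m ∧ (a : X.K) * t = g * y := by
    intro a ha
    obtain ⟨y, t, ht, e1⟩ := hLOC X ((a : X.K) / g) fun v P hP hv => by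
      have := (ha P v hP hv).div g
      exact this.mono (by omega)
    refine ⟨y, t, ht, ?_⟩
    rw [← e1]
    field_simp
  -- the ideal of the elements of `𝔪 g` at `x`
  let N : Ideal X.R :=
    { carrier := {a | ∃ y t : X.R, t ∉ X.m ∧ y ∈ X.m ∧ (a : X.K) * t = g * y}
      zero_mem' := ⟨0, 1, fun h1 => X.max.ne_top ((Ideal.eq_top_iff_one _).2 h1),
        X.m.zero_mem, by simp⟩
      add_mem' := by
        rintro a b ⟨y, t, ht, hy, e1⟩ ⟨y', t', ht', hy', e1'⟩
        refine ⟨y * t' + y' * t, t * t', ?_, ?_, ?_⟩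
        · intro h1
          rcases X.max.isPrime.mem_or_mem h1 with h2 | h2
          · exact ht h2
          · exact ht' h2
        · exact X.m.add_mem (X.m.mul_mem_right _ hy) (X.m.mul_mem_right _ hy')
        · push_cast
          linear_combination (t' : X.K) * e1 + (t : X.K) * e1'
      smul_mem' := by
        rintro c a ⟨y, t, ht, hy, e1⟩
        refine ⟨c * y, t, ht, X.m.mul_mem_left _ hy, ?_⟩
        rw [smul_eq_mul]
        push_cast
        linear_combination (c : X.K) * e1 }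
  have hrN : r ∉ N := by
    rintro ⟨y, t, ht, hy, e1⟩
    rw [← e] at e1
    have e2 : s * t = y := by
      apply Subtype.ext
      push_cast
      have e3 : g * ((s : X.K) * t) = g * y := by rw [← e1]; ring
      exact mul_left_cancel₀ hg0 e3
    have h1 : s * t ∈ X.m := by rw [e2]; exact hy
    rcases X.max.isPrime.mem_or_mem h1 with h2 | h2
    · exact hs h2
    · exact ht h2
  obtain ⟨w, hw⟩ := cp_ne_of_notMem A hrN
  have hHJ : cp A w r ∈ J g := J_hom A hOLC hginv hrJ w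
  obtain ⟨y, t, ht, e1⟩ := hloc _ hHJ
  have hy : y ∉ X.m := fun hy => hw ⟨y, t, ht, hy, e1⟩
  have hH0 : cp A w r ≠ 0 := by
    intro h1
    apply hw
    rw [h1]
    exact N.zero_mem
  have hHK : (cp A w r : X.K) ≠ 0 := TorusAction.coe_ne hH0
  refine ⟨w + -wq, (cp A w r : X.K) * (q : X.K)⁻¹,
    (TorusAction.Hom.of_mem (cp_mem A w r)).mul ((TorusAction.Hom.of_mem hqm).inv hqK),
    mul_ne_zero hHK (inv_ne_zero hqK), fun v hv => ?_⟩
  have h1 := v.ord_mul _ _ hHK (ne_of_notMem ht)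
  rw [e1, v.ord_mul _ _ hg0 (ne_of_notMem hy), hv.2 y hy, hv.2 t ht, hgord] at h1
  rw [v.ord_mul _ _ hHK (inv_ne_zero hqK), ord_inv]
  omega

end

end GHO

theorem t_GHO (_hHFR : Stmt_HFR) (hOLC : Stmt_OLC) (_hDIV : Stmt_DIV) (hLOC : Stmt_LOC) :
    Stmt_GHO := by
  intro n m X A h hh hinv
  exact GHO.main A hOLC hLOC h hh hinv

end MldGeo
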