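import Pool.Agent.MldGeo.Stmts4

/-!
# HFK: rational functions in terms of a splitting
-/

namespace MldGeo

namespace HFK

variable {n m : ℕ} {X : Germ n} {A : TorusAction X m}

theorem chi_mul (S : Splitting A) (u : Fin m → ℤ) : S.χ u * S.χ (-u) = 1 := by
  rw [← S.add, add_neg_cancel, S.zero]

theorem chi_ne (S : Splitting A) (u : Fin m → ℤ) : S.χ u ≠ 0 := by
  intro h
  have h1 := chi_mul S u
  rw [h, zero_mul] at h1
  exact zero_ne_one h1

theorem exists_coeff (S : Splitting A) (u : Fin m → ℤ) (h : X.K) (H : A.Hom u h) :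
    ∃ b : A.K0, h = (b : X.K) * S.χ u := by
  have h1 : A.Hom 0 (h * S.χ (-u)) := by
    have h2 := H.mul (S.hom (-u))
    rwa [add_neg_cancel] at h2
  refine ⟨⟨h * S.χ (-u), h1⟩, ?_⟩
  show h = h * S.χ (-u) * S.χ u
  rw [mul_assoc, mul_comm (S.χ (-u)), chi_mul, mul_one]

theorem hom_term (S : Splitting A) (u : Fin m → ℤ) (b : A.K0) :
    A.Hom u ((b : X.K) * S.χ u) := by
  have h1 : A.Hom 0 (b : X.K) := b.2
  have h2 := h1.mul (S.hom u)
  rwa [zero_add] at h2

theorem coe_sum_R (s : Finset (Fin m → ℤ)) (h : (Fin m → ℤ) → X.R) :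
    ((∑ u ∈ s, h u : X.R) : X.K) = ∑ u ∈ s, (h u : X.K) := by
  exact map_sum X.R.val h s

/-- A regular function as a sum over a finite set, with coefficients zero outside. -/
theorem expand (hHFR : Stmt_HFR) (S : Splitting A) (r : X.R) :
    ∃ (s : Finset (Fin m → ℤ)) (b : (Fin m → ℤ) → A.K0), (∀ u, u ∉ s → b u = 0) ∧
      (r : X.K) = ∑ u ∈ s, (b u : X.K) * S.χ u := by
  obtain ⟨s, h, h1, h2, h3⟩ := hHFR A r
  choose b hb using fun u => exists_coeff S u (h u : X.K) (TorusAction.Hom.of_mem (h1 u))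
  refine ⟨s, b, ?_, ?_⟩
  · intro u hu
    have h4 := hb u
    rw [h2 u hu, ZeroMemClass.coe_zero] at h4
    have h5 := (mul_eq_zero.mp h4.symm).resolve_right (chi_ne S u)
    exact Subtype.ext h5
  · rw [h3, coe_sum_R]
    exact Finset.sum_congr rfl fun u _ => hb u

/-- Enlarging the finite set. -/
theorem enlarge (S : Splitting A) {s t : Finset (Fin m → ℤ)} (hst : s ⊆ t)
    (b : (Fin m → ℤ) → A.K0) (hb : ∀ u, u ∉ s → b u = 0) :
    ∑ u ∈ s, (b u : X.K) * S.χ u = ∑ u ∈ t, (b u : X.K) * S.χ u := by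
  refine Finset.sum_subset hst fun u _ hu => ?_
  rw [hb u hu, ZeroMemClass.coe_zero, zero_mul]

end HFK

/-- HFK: rational functions in terms of a splitting. -/
theorem t_HFK (hHLI : Stmt_HLI) (hHFR : Stmt_HFR) : Stmt_HFK := by
  classical
  intro n m X A S
  refine ⟨fun u h H => HFK.exists_coeff S u h H, ?_, ?_⟩
  · intro s b h0 u hu
    have h1 := hHLI A s (fun u => (b u : X.K) * S.χ u) (fun u _ => HFK.hom_term S u (b u)) h0 u hu
    have h2 := (mul_eq_zero.mp h1).resolve_right (HFK.chi_ne S u)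
    exact Subtype.ext h2
  · intro x
    obtain ⟨r, hr, s, hs, hs0, hx⟩ := X.frac x
    obtain ⟨s1, b, hb, hb'⟩ := HFK.expand hHFR S ⟨r, hr⟩
    obtain ⟨s2, c, hc, hc'⟩ := HFK.expand hHFR S ⟨s, hs⟩
    refine ⟨s1 ∪ s2, b, c, ?_, ?_⟩
    · rw [← HFK.enlarge S Finset.subset_union_right c hc, ← hc']
      exact hs0
    · rw [← HFK.enlarge S Finset.subset_union_right c hc,
        ← HFK.enlarge S Finset.subset_union_left b hb, ← hc', ← hb']
      exact hx

end MldGeo
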