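import Pool.Agent.MldGeo.Stmts4

/-!
# HFR: regular functions are sums of homogeneous regular functions
-/

namespace MldGeo

theorem t_HFR : Stmt_HFR := by
  classical
  intro n m X A r
  refine ⟨(DirectSum.decompose A.gr r).support,
    fun u => ((DirectSum.decompose A.gr r) u : X.R), ?_, ?_, ?_⟩
  · intro u
    exact ((DirectSum.decompose A.gr r) u).2
  · intro u hu
    show ((DirectSum.decompose A.gr r) u : X.R) = 0
    rw [DFinsupp.notMem_support_iff.1 hu]
    rfl
  · exact (DirectSum.sum_support_decompose A.gr r).symm

end MldGeo
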