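import Pool.Agent.MldGeo.Stmts2
import Pool.Agent.MldGeo.Ord

/-!
# HTQ: the image of a prime divisor through the origin in the quotient
-/

namespace MldGeo

namespace HTQ

open MvPolynomial

variable {n : ℕ}

/-! ### linear substitutions -/

theorem linSubst_X (g : GL (Fin n) ℂ) (i : Fin n) :
    linSubst g (X i) = ∑ j, C ((g : Matrix (Fin n) (Fin n) ℂ) i j) * X j := by
  simp [linSubst]

theorem linSubst_comp (g h : GL (Fin n) ℂ) (p : MvPolynomial (Fin n) ℂ) :
    linSubst g (linSubst h p) = linSubst (h * g) p := by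
  have key : (linSubst g).comp (linSubst h) = linSubst (h * g) := by
    apply MvPolynomial.algHom_ext
    intro i
    rw [AlgHom.comp_apply, linSubst_X, linSubst_X, map_sum]
    have h1 : ∀ j : Fin n, linSubst g (C ((h : Matrix (Fin n) (Fin n) ℂ) i j) * X j) =
        ∑ k, C ((h : Matrix (Fin n) (Fin n) ℂ) i j * (g : Matrix (Fin n) (Fin n) ℂ) j k) * X k := by
      intro j
      rw [map_mul, linSubst_X, Finset.mul_sum]
      refine Finset.sum_congr rfl fun k _ => ?_
      have h2 : linSubst g (C ((h : Matrix (Fin n) (Fin n) ℂ) i j)) =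
          C ((h : Matrix (Fin n) (Fin n) ℂ) i j) := (linSubst g).commutes _
      rw [h2, C_mul, mul_assoc]
    rw [Finset.sum_congr rfl fun j _ => h1 j, Finset.sum_comm]
    refine Finset.sum_congr rfl fun k _ => ?_
    rw [← Finset.sum_mul, ← map_sum]
    congr 2
  exact congrArg (fun f => f p) key

theorem linSubst_one (p : MvPolynomial (Fin n) ℂ) : linSubst 1 p = p := by
  have key : linSubst (1 : GL (Fin n) ℂ) = AlgHom.id ℂ (MvPolynomial (Fin n) ℂ) := by
    apply MvPolynomial.algHom_ext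
    intro i
    rw [linSubst_X, AlgHom.id_apply]
    rw [Finset.sum_eq_single i]
    · simp
    · intro j _ hj
      have : ((1 : GL (Fin n) ℂ) : Matrix (Fin n) (Fin n) ℂ) i j = 0 := by
        rw [Units.val_one, Matrix.one_apply_ne hj.symm]
      rw [this, C_0, zero_mul]
    · intro h
      exact absurd (Finset.mem_univ i) h
  rw [key, AlgHom.id_apply]

theorem linSubst_injective (g : GL (Fin n) ℂ) : Function.Injective (linSubst g) := by
  intro p q h
  have h1 := congrArg (linSubst g⁻¹) h
  rwa [linSubst_comp, linSubst_comp, mul_inv_cancel, linSubst_one, linSubst_one] at h1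

/-- The action of the group on the polynomials. -/
@[reducible] noncomputable def action (G : Subgroup (GL (Fin n) ℂ)) :
    MulSemiringAction G (MvPolynomial (Fin n) ℂ) where
  smul g p := linSubst (g : GL (Fin n) ℂ)⁻¹ p
  one_smul p := by
    change linSubst ((1 : G) : GL (Fin n) ℂ)⁻¹ p = p
    rw [Subgroup.coe_one, inv_one, linSubst_one]
  mul_smul g h p := by
    change linSubst ((g * h : G) : GL (Fin n) ℂ)⁻¹ p =
      linSubst (g : GL (Fin n) ℂ)⁻¹ (linSubst (h : GL (Fin n) ℂ)⁻¹ p)
    rw [linSubst_comp, Subgroup.coe_mul, mul_inv_rev]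
  smul_zero g := map_zero (linSubst (g : GL (Fin n) ℂ)⁻¹)
  smul_add g p q := map_add (linSubst (g : GL (Fin n) ℂ)⁻¹) p q
  smul_one g := map_one (linSubst (g : GL (Fin n) ℂ)⁻¹)
  smul_mul g p q := map_mul (linSubst (g : GL (Fin n) ℂ)⁻¹) p q

/-- Polynomials are integral over the invariants. -/
theorem isIntegral_invariants (G : Subgroup (GL (Fin n) ℂ)) [Finite G]
    (p : MvPolynomial (Fin n) ℂ) : IsIntegral (invariants G) p := by
  let _ := action G
  have : Algebra.IsInvariant (invariants G) (MvPolynomial (Fin n) ℂ) G := by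
    refine ⟨fun b hb => ⟨⟨b, fun g hg => ?_⟩, rfl⟩⟩
    have h1 := hb (⟨g, hg⟩⁻¹ : G)
    change linSubst ((⟨g, hg⟩⁻¹ : G) : GL (Fin n) ℂ)⁻¹ b = b at h1
    rw [Subgroup.coe_inv, inv_inv] at h1
    exact h1
  have h2 := Algebra.IsInvariant.isIntegral (invariants G) (MvPolynomial (Fin n) ℂ) G
  exact h2.isIntegral p

/-- The norm of a polynomial is an invariant multiple of it. -/
theorem exists_norm (G : Subgroup (GL (Fin n) ℂ)) [Finite G] (q : MvPolynomial (Fin n) ℂ)
    (hq : q ≠ 0) : ∃ a : invariants G, (a : MvPolynomial (Fin n) ℂ) ≠ 0 ∧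
      q ∣ (a : MvPolynomial (Fin n) ℂ) := by
  classical
  have := Fintype.ofFinite G
  refine ⟨⟨∏ g : G, linSubst (g : GL (Fin n) ℂ) q, fun h hh => ?_⟩, ?_, ?_⟩
  · rw [map_prod]
    have h1 : ∀ g : G, linSubst h (linSubst (g : GL (Fin n) ℂ) q) =
        linSubst ((g * ⟨h, hh⟩ : G) : GL (Fin n) ℂ) q := by
      intro g
      rw [linSubst_comp, Subgroup.coe_mul]
    rw [Finset.prod_congr rfl fun g _ => h1 g]
    exact Equiv.prod_comp (Equiv.mulRight (⟨h, hh⟩ : G)) fun g : G => linSubst (g : GL (Fin n) ℂ) q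
  · change ∏ g : G, linSubst (g : GL (Fin n) ℂ) q ≠ 0
    rw [Finset.prod_ne_zero_iff]
    intro g _ h
    exact hq (linSubst_injective _ (by rw [h, map_zero]))
  · change q ∣ ∏ g : G, linSubst (g : GL (Fin n) ℂ) q
    have h1 := Finset.dvd_prod_of_mem (fun g : G => linSubst (g : GL (Fin n) ℂ) q)
      (Finset.mem_univ (1 : G))
    simpa [linSubst_one] using h1

/-! ### algebraic independence modulo a prime -/

/-- A prime element involves some variable. -/
theorem exists_var (q : MvPolynomial (Fin n) ℂ) (hq : Irreducible q) :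
    ∃ k : Fin n, q.degreeOf k ≠ 0 := by
  by_contra hcon
  push Not at hcon
  have h1 : q.vars = ∅ := by
    ext i
    rw [mem_vars_iff_degreeOf_ne_zero, hcon i]
    simp
  rw [vars_eq_empty_iff_eq_C] at h1
  rcases eq_or_ne (q.coeff 0) 0 with h2 | h2
  · exact hq.ne_zero (by rw [h1, h2, C_0])
  · apply hq.not_isUnit
    rw [h1]
    exact (isUnit_iff_ne_zero.mpr h2).map C

/-- The other variables are algebraically independent modulo `q`. -/
theorem indep_vars (q : MvPolynomial (Fin n) ℂ) (k : Fin n) (hk : q.degreeOf k ≠ 0)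
    (p : MvPolynomial {i : Fin n // i ≠ k} ℂ) (hp : p ≠ 0) :
    ¬ q ∣ rename (Subtype.val : {i : Fin n // i ≠ k} → Fin n) p := by
  rintro ⟨r, hr⟩
  have hinj : rename (Subtype.val : {i : Fin n // i ≠ k} → Fin n) p ≠ 0 := by
    intro h
    exact hp (rename_injective _ Subtype.val_injective (by rw [h, map_zero]))
  have hq0 : q ≠ 0 := by
    intro h
    rw [h] at hk
    simp at hk
  have hr0 : r ≠ 0 := by
    intro h
    rw [h, mul_zero] at hr
    exact hinj hr
  have h1 : (rename (Subtype.val : {i : Fin n // i ≠ k} → Fin n) p).degreeOf k = 0 := by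
    by_contra h2
    rw [← ne_eq, ← mem_vars_iff_degreeOf_ne_zero] at h2
    classical
    have h3 := vars_rename (Subtype.val : {i : Fin n // i ≠ k} → Fin n) p h2
    rw [Finset.mem_image] at h3
    obtain ⟨i, _, hi⟩ := h3
    exact i.2 hi
  rw [hr, degreeOf_mul_eq hq0 hr0] at h1
  omega

/-- There are `n - 1` invariants which are algebraically independent modulo `q`. -/
theorem exists_indep (G : Subgroup (GL (Fin n) ℂ)) [Finite G] (q : MvPolynomial (Fin n) ℂ)
    (hq : Irreducible q) :
    ∃ w : Fin (n - 1) → invariants G, ∀ p : MvPolynomial (Fin (n - 1)) ℂ, p ≠ 0 →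
      ¬ q ∣ ((aeval w p : invariants G) : MvPolynomial (Fin n) ℂ) := by
  obtain ⟨k, hk⟩ := exists_var q hq
  have hprime : Prime q := hq.prime
  have hI : (Ideal.span {q} : Ideal (MvPolynomial (Fin n) ℂ)).IsPrime :=
    (Ideal.span_singleton_prime hq.ne_zero).mpr hprime
  have hdom : IsDomain (MvPolynomial (Fin n) ℂ ⧸ Ideal.span {q}) := Ideal.Quotient.isDomain _
  let π : MvPolynomial (Fin n) ℂ →ₐ[ℂ] MvPolynomial (Fin n) ℂ ⧸ Ideal.span {q} :=
    Ideal.Quotient.mkₐ ℂ _
  have hπ : ∀ p, π p = 0 ↔ q ∣ p := fun p => by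
    change Ideal.Quotient.mk _ p = 0 ↔ _
    rw [Ideal.Quotient.eq_zero_iff_mem, Ideal.mem_span_singleton]
  let s : Set (MvPolynomial (Fin n) ℂ ⧸ Ideal.span {q}) :=
    Set.range fun a : invariants G => π (a : MvPolynomial (Fin n) ℂ)
  have hfaith : FaithfulSMul ℂ (MvPolynomial (Fin n) ℂ ⧸ Ideal.span {q}) :=
    (faithfulSMul_iff_algebraMap_injective _ _).mpr
      (algebraMap ℂ (MvPolynomial (Fin n) ℂ ⧸ Ideal.span {q})).injective
  have halg : Algebra.IsAlgebraic (Algebra.adjoin ℂ s)
      (MvPolynomial (Fin n) ℂ ⧸ Ideal.span {q}) := by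
    refine ⟨fun a => ?_⟩
    obtain ⟨p, rfl⟩ := Ideal.Quotient.mk_surjective a
    let f : invariants G →+* Algebra.adjoin ℂ s :=
      RingHom.codRestrict (π.toRingHom.comp (invariants G).val.toRingHom) (Algebra.adjoin ℂ s)
        (fun a => Algebra.subset_adjoin ⟨a, rfl⟩)
    have h := IsIntegral.map_of_comp_eq f π.toRingHom rfl (isIntegral_invariants G p)
    exact h.isAlgebraic
  obtain ⟨t, ht, htb⟩ := exists_isTranscendenceBasis_subset (R := ℂ) s
  have h1 : AlgebraicIndependent ℂ (fun i : {i : Fin n // i ≠ k} => π (X (i : Fin n))) := by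
    rw [algebraicIndependent_iff]
    intro p hp
    by_contra hp0
    apply indep_vars q k hk p hp0
    rw [← hπ, ← hp]
    have h2 : π.comp (rename (Subtype.val : {i : Fin n // i ≠ k} → Fin n)) =
        aeval (fun i : {i : Fin n // i ≠ k} => π (X (i : Fin n))) := by
      apply MvPolynomial.algHom_ext
      intro i
      rw [AlgHom.comp_apply, rename_X, aeval_X]
    exact congrArg (fun f => f p) h2
  have h2 := h1.cardinalMk_le_trdeg
  rw [← htb.cardinalMk_eq_trdeg, Cardinal.le_def] at h2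
  obtain ⟨e0⟩ := h2
  have hcard : Fintype.card {i : Fin n // i ≠ k} = n - 1 := by
    simp
  let e : Fin (n - 1) ↪ t := (Fintype.equivFinOfCardEq hcard).symm.toEmbedding.trans e0
  have h3 : AlgebraicIndependent ℂ
      ((Subtype.val : t → MvPolynomial (Fin n) ℂ ⧸ Ideal.span {q}) ∘ e) :=
    htb.1.comp e e.injective
  have h4 : ∀ i, ∃ a : invariants G, π (a : MvPolynomial (Fin n) ℂ) = (e i : _) :=
    fun i => ht (e i).2
  choose w hw using h4
  refine ⟨w, fun p hp hdvd => hp ?_⟩
  rw [← hπ] at hdvd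
  have h5 := comp_aeval_apply (f := w) (π.comp (invariants G).val) p
  change π ((aeval w p : invariants G) : MvPolynomial (Fin n) ℂ) =
    aeval (fun i => π (w i : MvPolynomial (Fin n) ℂ)) p at h5
  rw [hdvd] at h5
  rw [algebraicIndependent_iff] at h3
  apply h3 p
  have h6 : (Subtype.val : t → MvPolynomial (Fin n) ℂ ⧸ Ideal.span {q}) ∘ e =
      fun i => π (w i : MvPolynomial (Fin n) ℂ) := by
    funext i
    exact (hw i).symm
  rw [h6, ← h5]

end HTQ

open MvPolynomial in
/-- HTQ: the image of a prime divisor through the origin. -/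
theorem t_HTQ (h1 : Stmt_HT1) : Stmt_HTQ := by
  intro n X G _ φ _ hQ q hq hq0 v e he
  have hmul : ∀ a : X.R, a ≠ 0 → (multiplicity q (φ a : MvPolynomial (Fin n) ℂ) = 0 ↔
      ¬ q ∣ (φ a : MvPolynomial (Fin n) ℂ)) := fun a _ => multiplicity_eq_zero
  have hepos : 0 < e := by
    obtain ⟨a, ha0, hqa⟩ := HTQ.exists_norm G q hq.ne_zero
    have hr : φ.symm a ≠ 0 := by
      intro h
      apply ha0
      have h2 := congrArg φ h
      rw [AlgEquiv.apply_symm_apply, map_zero] at h2
      rw [h2]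
      rfl
    have h2 := he (φ.symm a) hr
    rw [AlgEquiv.apply_symm_apply] at h2
    rcases Nat.eq_zero_or_pos e with h3 | h3
    · exfalso
      rw [h3, Nat.cast_zero, zero_mul] at h2
      have h4 : multiplicity q (a : MvPolynomial (Fin n) ℂ) = 0 := by exact_mod_cast h2
      rw [multiplicity_eq_zero] at h4
      exact h4 hqa
    · exact h3
  refine ⟨hepos, ?_⟩
  have hn : 0 < n := by
    obtain ⟨k, _⟩ := HTQ.exists_var q hq
    exact lt_of_le_of_lt (Nat.zero_le _) k.2
  have he' : (0 : ℤ) < e := by exact_mod_cast hepos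
  have hnn : ∀ a : X.R, 0 ≤ v.ord a := by
    intro a
    rcases eq_or_ne a 0 with rfl | ha
    · exact v.ord_zero.ge
    · have h2 := he a ha
      by_contra h3
      push Not at h3
      have h4 : (e : ℤ) * v.ord a < 0 := mul_neg_of_pos_of_neg he' h3
      omega
  obtain ⟨w, hw⟩ := HTQ.exists_indep G q hq
  obtain ⟨P, hP⟩ := h1 X v hn hnn ⟨fun i => φ.symm (w i), fun p hp => by
    have h2 := hw p hp
    have h3 : (aeval (fun i => φ.symm (w i)) p : X.R) = φ.symm (aeval w p) := by
      have h4 := comp_aeval_apply (f := w) (φ.symm : invariants G →ₐ[ℂ] X.R) p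
      exact h4.symm
    rw [h3]
    have h5 : φ.symm (aeval w p) ≠ 0 := by
      intro h
      apply h2
      have h6 := congrArg φ h
      rw [AlgEquiv.apply_symm_apply, map_zero] at h6
      rw [h6]
      exact dvd_zero _
    refine ⟨h5, ?_⟩
    have h6 := he _ h5
    rw [AlgEquiv.apply_symm_apply, multiplicity_eq_zero.mpr h2, Nat.cast_zero] at h6
    rcases mul_eq_zero.mp h6.symm with h7 | h7
    · omega
    · exact h7⟩
  refine ⟨P, fun a ha => ?_, hP⟩
  rcases (hP.2.2.2 a).mp ha with rfl | h2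
  · exact X.m.zero_mem
  · have ha0 : a ≠ 0 := by
      rintro rfl
      rw [show ((0 : X.R) : X.K) = 0 from rfl, v.ord_zero] at h2
      exact lt_irrefl _ h2
    rw [hQ.iso a]
    have h3 := he a ha0
    have h4 : (0 : ℤ) < e * v.ord a := mul_pos he' h2
    have h5 : multiplicity q (φ a : MvPolynomial (Fin n) ℂ) ≠ 0 := by
      intro h
      rw [h] at h3
      omega
    rw [ne_eq, multiplicity_eq_zero, not_not] at h5
    obtain ⟨r, hr⟩ := h5
    rw [hr, map_mul, hq0, zero_mul]

end MldGeo
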