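import Pool.Agent.MldGeo.Stmts1

/-!
# Tame inertia
-/

namespace MldGeo

open scoped Classical

noncomputable section

namespace INE

section basic

variable {n : ℕ} {L : Type} [Field L] [Algebra ℂ L] (v : DivVal n L)

theorem ord_one : v.ord 1 = 0 := by
  have h := v.ord_const 1
  rwa [map_one] at h

theorem ord_neg (a : L) : v.ord (-a) = v.ord a := by
  by_cases ha : a = 0
  · simp [ha]
  · have h : -a = algebraMap ℂ L (-1) * a := by simp
    rw [h, v.ord_mul _ _ (by simp) ha, v.ord_const]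
    simp

theorem ord_inv {a : L} (ha : a ≠ 0) : v.ord a⁻¹ = - v.ord a := by
  have h := v.ord_mul a a⁻¹ ha (inv_ne_zero ha)
  rw [mul_inv_cancel₀ ha, ord_one] at h
  linarith

theorem ord_div {a b : L} (ha : a ≠ 0) (hb : b ≠ 0) : v.ord (a / b) = v.ord a - v.ord b := by
  rw [div_eq_mul_inv, v.ord_mul _ _ ha (inv_ne_zero hb), ord_inv v hb]
  ring

theorem ord_pow {a : L} (ha : a ≠ 0) (k : ℕ) : v.ord (a ^ k) = k * v.ord a := by
  induction k with
  | zero => simp [ord_one]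
  | succ k ih =>
    rw [pow_succ, v.ord_mul _ _ (pow_ne_zero k ha) ha, ih]
    push_cast
    ring

theorem ord_zpow {a : L} (ha : a ≠ 0) (k : ℤ) : v.ord (a ^ k) = k * v.ord a := by
  obtain ⟨m, rfl | rfl⟩ := k.eq_nat_or_neg
  · rw [zpow_natCast, ord_pow v ha]
  · rw [zpow_neg, zpow_natCast, ord_inv v (pow_ne_zero m ha), ord_pow v ha]
    ring

theorem ge_add {k : ℤ} {a b : L} (ha : v.Ge k a) (hb : v.Ge k b) : v.Ge k (a + b) := by
  by_cases ha0 : a = 0
  · rw [ha0, zero_add]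
    exact hb
  by_cases hb0 : b = 0
  · rw [hb0, add_zero]
    exact ha
  by_cases h : a + b = 0
  · exact Or.inl h
  exact Or.inr (le_trans (le_min (ha.resolve_left ha0) (hb.resolve_left hb0))
    (v.ord_add a b ha0 hb0 h))

theorem ge_neg {k : ℤ} {a : L} (ha : v.Ge k a) : v.Ge k (-a) := by
  rcases ha with h | h
  · exact Or.inl (by rw [h, neg_zero])
  · exact Or.inr (by rw [ord_neg]; exact h)

theorem ge_sub {k : ℤ} {a b : L} (ha : v.Ge k a) (hb : v.Ge k b) : v.Ge k (a - b) := by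
  rw [sub_eq_add_neg]
  exact ge_add v ha (ge_neg v hb)

theorem ge_mul {j k : ℤ} {a b : L} (ha : v.Ge j a) (hb : v.Ge k b) : v.Ge (j + k) (a * b) := by
  by_cases ha0 : a = 0
  · exact Or.inl (by rw [ha0, zero_mul])
  by_cases hb0 : b = 0
  · exact Or.inl (by rw [hb0, mul_zero])
  refine Or.inr ?_
  rw [v.ord_mul a b ha0 hb0]
  exact add_le_add (ha.resolve_left ha0) (hb.resolve_left hb0)

theorem ge_mul0 {a b : L} (ha : v.Ge 0 a) (hb : v.Ge 0 b) : v.Ge 0 (a * b) := by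
  simpa using ge_mul v ha hb

theorem ge_mul1 {a b : L} (ha : v.Ge 1 a) (hb : v.Ge 0 b) : v.Ge 1 (a * b) := by
  simpa using ge_mul v ha hb

theorem ge_mul1' {a b : L} (ha : v.Ge 0 a) (hb : v.Ge 1 b) : v.Ge 1 (a * b) := by
  simpa using ge_mul v ha hb

theorem ge_mono {j k : ℤ} (h : j ≤ k) {a : L} (ha : v.Ge k a) : v.Ge j a := by
  rcases ha with ha | ha
  · exact Or.inl ha
  · exact Or.inr (h.trans ha)

theorem ge_sum {ι : Type*} (s : Finset ι) (f : ι → L) {k : ℤ} (h : ∀ i ∈ s, v.Ge k (f i)) :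
    v.Ge k (∑ i ∈ s, f i) := by
  induction s using Finset.induction_on with
  | empty => exact Or.inl (by simp)
  | insert i s hi ih =>
    rw [Finset.sum_insert hi]
    exact ge_add v (h i (Finset.mem_insert_self i s))
      (ih fun j hj => h j (Finset.mem_insert_of_mem hj))

theorem ge_one_el : v.Ge 0 (1 : L) := Or.inr (ord_one v).ge

theorem ge_const (c : ℂ) : v.Ge 0 (algebraMap ℂ L c) := Or.inr (v.ord_const c).ge

theorem not_ge_one {a : L} (h : ¬ v.Ge 1 a) : a ≠ 0 ∧ v.ord a ≤ 0 := by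
  have h1 : ¬ (a = 0 ∨ 1 ≤ v.ord a) := h
  rw [not_or] at h1
  exact ⟨h1.1, by omega⟩

theorem const_not_ge_one {c : ℂ} (hc : c ≠ 0) : ¬ v.Ge 1 (algebraMap ℂ L c) := by
  rintro (h | h)
  · rw [map_eq_zero] at h
    exact hc h
  · rw [v.ord_const] at h
    omega

/-- The valuation ring of `v`. -/
def vs : ValuationSubring L where
  carrier := {a | v.Ge 0 a}
  mul_mem' := fun ha hb => ge_mul0 v ha hb
  one_mem' := ge_one_el v
  add_mem' := fun ha hb => ge_add v ha hb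
  zero_mem' := Or.inl rfl
  neg_mem' := fun ha => ge_neg v ha
  mem_or_inv_mem' := by
    intro a
    by_cases ha : a = 0
    · left; left; exact ha
    rcases le_total 0 (v.ord a) with h | h
    · left; right; exact h
    · right; right
      rw [ord_inv v ha]
      omega

/-- The residue field. -/
abbrev Rk : Type := IsLocalRing.ResidueField (vs v)

theorem residue_zero (a : vs v) : IsLocalRing.residue (vs v) a = 0 ↔ v.Ge 1 (a : L) := by
  rw [IsLocalRing.residue_eq_zero_iff, IsLocalRing.mem_maximalIdeal, mem_nonunits_iff]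
  constructor
  · intro h
    by_contra hcon
    apply h
    obtain ⟨h0, h1⟩ := not_ge_one v hcon
    have hinv : v.Ge 0 ((a : L)⁻¹) := by
      right
      rw [ord_inv v h0]
      omega
    refine IsUnit.of_mul_eq_one ⟨(a : L)⁻¹, hinv⟩ ?_
    apply Subtype.ext
    exact mul_inv_cancel₀ h0
  · intro h hu
    obtain ⟨b, hb⟩ := hu.exists_right_inv
    have hb' : (a : L) * (b : L) = 1 := congrArg Subtype.val hb
    have h2 : v.Ge 1 (1 : L) := by
      rw [← hb']
      exact ge_mul1 v h b.2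
    rcases h2 with h2 | h2
    · exact one_ne_zero h2
    · rw [ord_one] at h2
      omega

/-- The residue of an element (zero if it is not regular). -/
def rs (x : L) : Rk v := if h : v.Ge 0 x then IsLocalRing.residue (vs v) ⟨x, h⟩ else 0

theorem rs_of {x : L} (h : v.Ge 0 x) : rs v x = IsLocalRing.residue (vs v) ⟨x, h⟩ := dif_pos h

theorem rs_zero_iff {x : L} (h : v.Ge 0 x) : rs v x = 0 ↔ v.Ge 1 x := by
  rw [rs_of v h, residue_zero]

theorem rs_add {x y : L} (hx : v.Ge 0 x) (hy : v.Ge 0 y) : rs v (x + y) = rs v x + rs v y := by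
  rw [rs_of v hx, rs_of v hy, rs_of v (ge_add v hx hy), ← map_add]
  rfl

theorem rs_mul {x y : L} (hx : v.Ge 0 x) (hy : v.Ge 0 y) : rs v (x * y) = rs v x * rs v y := by
  rw [rs_of v hx, rs_of v hy, rs_of v (ge_mul0 v hx hy), ← map_mul]
  rfl

theorem rs_sub {x y : L} (hx : v.Ge 0 x) (hy : v.Ge 0 y) : rs v (x - y) = rs v x - rs v y := by
  rw [rs_of v hx, rs_of v hy, rs_of v (ge_sub v hx hy), ← map_sub]
  rfl

theorem rs_one : rs v (1 : L) = 1 := by
  rw [rs_of v (ge_one_el v), ← map_one (IsLocalRing.residue (vs v))]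
  rfl

theorem rs_eq_iff {x y : L} (hx : v.Ge 0 x) (hy : v.Ge 0 y) :
    rs v x = rs v y ↔ v.Ge 1 (x - y) := by
  rw [← rs_zero_iff v (ge_sub v hx hy), rs_sub v hx hy, sub_eq_zero]

theorem ge_pow {x : L} (hx : v.Ge 0 x) (k : ℕ) : v.Ge 0 (x ^ k) := by
  induction k with
  | zero => rw [pow_zero]; exact ge_one_el v
  | succ k ih => rw [pow_succ]; exact ge_mul0 v ih hx

theorem rs_pow {x : L} (hx : v.Ge 0 x) (k : ℕ) : rs v (x ^ k) = rs v x ^ k := by
  induction k with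
  | zero => rw [pow_zero, pow_zero, rs_one]
  | succ k ih => rw [pow_succ, pow_succ, rs_mul v (ge_pow v hx k) hx, ih]

theorem rs_sum {ι : Type*} (s : Finset ι) (f : ι → L) (h : ∀ i ∈ s, v.Ge 0 (f i)) :
    rs v (∑ i ∈ s, f i) = ∑ i ∈ s, rs v (f i) := by
  induction s using Finset.induction_on with
  | empty =>
    rw [Finset.sum_empty, Finset.sum_empty, rs_zero_iff v (Or.inl rfl)]
    exact Or.inl rfl
  | insert i s hi ih =>
    rw [Finset.sum_insert hi, Finset.sum_insert hi, rs_add v (h i (Finset.mem_insert_self i s))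
      (ge_sum v s f fun j hj => h j (Finset.mem_insert_of_mem hj)),
      ih fun j hj => h j (Finset.mem_insert_of_mem hj)]

instance : CharZero (Rk v) := by
  have h : ∀ m : ℕ, v.Ge 0 ((m : ℕ) : L) := by
    intro m
    have := ge_const v (m : ℂ)
    rwa [map_natCast] at this
  have h2 : ∀ m : ℕ, rs v ((m : ℕ) : L) = (m : Rk v) := by
    intro m
    rw [rs_of v (h m), ← map_natCast (IsLocalRing.residue (vs v)) m]
    rfl
  refine charZero_of_inj_zero fun m hm => ?_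
  rw [← h2, rs_zero_iff v (h m)] at hm
  by_contra hne
  have := const_not_ge_one v (c := (m : ℂ)) (by exact_mod_cast hne)
  rw [map_natCast] at this
  exact this hm

end basic

section group

variable {n : ℕ} {K L : Type} [Field K] [Algebra ℂ K] [Field L] [Algebra ℂ L] [Algebra K L]
  [IsScalarTower ℂ K L] (v : DivVal n L)

omit [Algebra ℂ K] [Algebra ℂ L] [IsScalarTower ℂ K L] in
theorem map_ne {σ : L ≃ₐ[K] L} {a : L} (h : a ≠ 0) : σ a ≠ 0 := by
  rwa [Ne, map_eq_zero_iff σ σ.injective]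

theorem map_const (σ : L ≃ₐ[K] L) (c : ℂ) : σ (algebraMap ℂ L c) = algebraMap ℂ L c := by
  rw [IsScalarTower.algebraMap_apply ℂ K L, AlgEquiv.commutes]

/-- The elements all conjugates of which are regular. -/
def B (K : Type) {L : Type} [Field K] [Algebra ℂ K] [Field L] [Algebra ℂ L] [Algebra K L]
    (v : DivVal n L) : Subring L where
  carrier := {a | ∀ σ : L ≃ₐ[K] L, v.Ge 0 (σ a)}
  mul_mem' := fun ha hb σ => by rw [map_mul]; exact ge_mul0 v (ha σ) (hb σ)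
  one_mem' := fun σ => by rw [map_one]; exact ge_one_el v
  add_mem' := fun ha hb σ => by rw [map_add]; exact ge_add v (ha σ) (hb σ)
  zero_mem' := fun σ => by rw [map_zero]; exact Or.inl rfl
  neg_mem' := fun ha σ => by rw [map_neg]; exact ge_neg v (ha σ)

theorem mem_B {a : L} : a ∈ B K v ↔ ∀ σ : L ≃ₐ[K] L, v.Ge 0 (σ a) := Iff.rfl

theorem B_ge {a : L} (h : a ∈ B K v) : v.Ge 0 a := h 1

/-- Regular elements are fractions of elements of `B`, with a denominator of order zero. -/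
theorem exists_denom [FiniteDimensional K L] {a : L} (ha : v.Ge 0 a) :
    ∃ s ∈ B K v, s ≠ 0 ∧ v.ord s = 0 ∧ a * s ∈ B K v := by
  have hbad : ∀ σ : L ≃ₐ[K] L, {c : ℂ | v.Ge 1 (σ a - algebraMap ℂ L c)}.Subsingleton := by
    intro σ c hc c' hc'
    by_contra hne
    refine const_not_ge_one v (c := c' - c) (sub_ne_zero.2 (Ne.symm hne)) ?_
    have h := ge_sub v hc hc'
    have e : σ a - algebraMap ℂ L c - (σ a - algebraMap ℂ L c') = algebraMap ℂ L (c' - c) := by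
      rw [map_sub]
      ring
    rwa [e] at h
  have hfin : (⋃ σ : L ≃ₐ[K] L, {c : ℂ | v.Ge 1 (σ a - algebraMap ℂ L c)}).Finite :=
    Set.finite_iUnion fun σ => (hbad σ).finite
  obtain ⟨c, hc⟩ := hfin.infinite_compl.nonempty
  have hc' : ∀ σ : L ≃ₐ[K] L, σ a - algebraMap ℂ L c ≠ 0 ∧
      v.ord (σ a - algebraMap ℂ L c) ≤ 0 := by
    intro σ
    refine not_ge_one v fun h => hc ?_
    exact Set.mem_iUnion.2 ⟨σ, h⟩
  have h1 := hc' 1
  have h1' : a - algebraMap ℂ L c ≠ 0 := h1.1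
  have hs : (a - algebraMap ℂ L c)⁻¹ ∈ B K v := by
    intro σ
    rw [map_inv₀, map_sub, map_const]
    right
    rw [ord_inv v (hc' σ).1]
    have := (hc' σ).2
    omega
  refine ⟨(a - algebraMap ℂ L c)⁻¹, hs, inv_ne_zero h1', ?_, ?_⟩
  · rw [ord_inv v h1']
    have h2 : v.ord (a - algebraMap ℂ L c) ≤ 0 := h1.2
    have h3 : 0 ≤ v.ord (a - algebraMap ℂ L c) :=
      (ge_sub v ha (ge_const v c)).resolve_left h1'
    omega
  · have e : a * (a - algebraMap ℂ L c)⁻¹ = 1 + algebraMap ℂ L c * (a - algebraMap ℂ L c)⁻¹ := by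
      field_simp
      ring
    rw [e]
    refine add_mem (one_mem _) (mul_mem ?_ hs)
    intro σ
    rw [map_const]
    exact ge_const v c

/-- `σ` preserves the order. -/
def Dec (v : DivVal n L) (σ : L ≃ₐ[K] L) : Prop := ∀ a, v.ord (σ a) = v.ord a

omit [Algebra ℂ K] [IsScalarTower ℂ K L] in
theorem dec_of [FiniteDimensional K L] {σ : L ≃ₐ[K] L} (h : ∀ a, v.Ge 0 a → v.Ge 0 (σ a)) :
    Dec v σ := by
  have hk : 0 < orderOf σ := orderOf_pos σ
  have hit : ∀ (j : ℕ) (a : L), v.Ge 0 a → v.Ge 0 ((σ ^ j) a) := by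
    intro j
    induction j with
    | zero => intro a ha; rw [pow_zero]; exact ha
    | succ j ih =>
      intro a ha
      rw [pow_succ']
      exact h _ (ih a ha)
  have hrev : ∀ a, v.Ge 0 (σ a) → v.Ge 0 a := by
    intro a ha
    have h1 := hit (orderOf σ - 1) (σ a) ha
    have e : (σ ^ (orderOf σ - 1)) (σ a) = (σ ^ (orderOf σ)) a := by
      conv_rhs => rw [show orderOf σ = orderOf σ - 1 + 1 by omega, pow_succ]
      rfl
    rw [e, pow_orderOf_eq_one] at h1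
    exact h1
  have hunit : ∀ a, a ≠ 0 → v.ord a = 0 → v.ord (σ a) = 0 := by
    intro a ha ha0
    have h1 : v.Ge 0 (σ a) := h a (Or.inr ha0.ge)
    have h2 : v.Ge 0 (σ a⁻¹) := h a⁻¹ (Or.inr (by rw [ord_inv v ha, ha0]; simp))
    have h3 := h1.resolve_left (map_ne ha)
    have h4 := h2.resolve_left (map_ne (inv_ne_zero ha))
    rw [map_inv₀, ord_inv v (map_ne ha)] at h4
    omega
  obtain ⟨t, ht0, ht⟩ := v.unif
  have hlin : ∀ a, a ≠ 0 → v.ord (σ a) = v.ord (σ t) * v.ord a := by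
    intro a ha
    have h1 := hunit (a / t ^ v.ord a) (div_ne_zero ha (zpow_ne_zero _ ht0)) (by
      rw [ord_div v ha (zpow_ne_zero _ ht0), ord_zpow v ht0, ht]
      ring)
    rw [map_div₀, map_zpow₀, ord_div v (map_ne ha) (zpow_ne_zero _ (map_ne ht0)),
      ord_zpow v (map_ne ht0)] at h1
    linarith
  have hpow : ∀ j : ℕ, v.ord ((σ ^ j) t) = v.ord (σ t) ^ j := by
    intro j
    induction j with
    | zero => rw [pow_zero, pow_zero]; exact ht
    | succ j ih =>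
      rw [pow_succ', pow_succ', ← ih]
      exact hlin _ (map_ne ht0)
  have hc : v.ord (σ t) = 1 := by
    have h1 := hpow (orderOf σ)
    rw [pow_orderOf_eq_one] at h1
    have h2 : v.ord ((1 : L ≃ₐ[K] L) t) = 1 := ht
    rw [h2] at h1
    have h3 : 0 ≤ v.ord (σ t) := (h t (Or.inr (by omega))).resolve_left (map_ne ht0)
    exact (pow_eq_one_iff_of_nonneg h3 hk.ne').1 h1.symm
  intro a
  by_cases ha : a = 0
  · rw [ha, map_zero]
  · rw [hlin a ha, hc, one_mul]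

theorem exists_sep [FiniteDimensional K L] {σ : L ≃ₐ[K] L} (h : ¬ Dec v σ) :
    ∃ b ∈ B K v, b ≠ 0 ∧ v.ord b = 0 ∧ v.Ge 1 (σ b) := by
  have h1 : ¬ ∀ a, v.Ge 0 a → v.Ge 0 (σ a) := fun h' => h (dec_of v h')
  push Not at h1
  obtain ⟨a, ha, hσ⟩ := h1
  obtain ⟨s, hs, hs0, hs1, has⟩ := exists_denom (K := K) v ha
  refine ⟨s, hs, hs0, hs1, ?_⟩
  have h2 : ¬ (σ a = 0 ∨ 0 ≤ v.ord (σ a)) := hσ
  rw [not_or] at h2
  have h3 := (has σ).resolve_left (by
    rw [map_mul]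
    exact mul_ne_zero h2.1 (map_ne hs0))
  rw [map_mul, v.ord_mul _ _ h2.1 (map_ne hs0)] at h3
  right
  omega

theorem exists_u [FiniteDimensional K L] :
    ∃ u ∈ B K v, u ≠ 0 ∧ v.ord u = 0 ∧ ∀ σ : L ≃ₐ[K] L, ¬ Dec v σ → v.Ge 1 (σ u) := by
  have h : ∀ σ : L ≃ₐ[K] L, ∃ b ∈ B K v, b ≠ 0 ∧ v.ord b = 0 ∧ (¬ Dec v σ → v.Ge 1 (σ b)) := by
    intro σ
    by_cases hσ : Dec v σ
    · exact ⟨1, one_mem _, one_ne_zero, ord_one v, fun h' => absurd hσ h'⟩
    · obtain ⟨b, h1, h2, h3, h4⟩ := exists_sep v hσ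
      exact ⟨b, h1, h2, h3, fun _ => h4⟩
  choose b h1 h2 h3 h4 using h
  have hfin : Fintype (L ≃ₐ[K] L) := Fintype.ofFinite _
  have key : ∀ s : Finset (L ≃ₐ[K] L), (∏ σ ∈ s, b σ) ∈ B K v ∧ (∏ σ ∈ s, b σ) ≠ 0 ∧
      v.ord (∏ σ ∈ s, b σ) = 0 ∧ ∀ σ ∈ s, ¬ Dec v σ → v.Ge 1 (σ (∏ τ ∈ s, b τ)) := by
    intro s
    induction s using Finset.induction_on with
    | empty =>
      refine ⟨by simp, by simp, by simp [ord_one], ?_⟩
      intro σ hσ
      exact absurd hσ (Finset.notMem_empty σ)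
    | insert τ s hτ ih =>
      obtain ⟨i1, i2, i3, i4⟩ := ih
      rw [Finset.prod_insert hτ]
      refine ⟨mul_mem (h1 τ) i1, mul_ne_zero (h2 τ) i2, ?_, ?_⟩
      · rw [v.ord_mul _ _ (h2 τ) i2, h3, i3, add_zero]
      · intro σ hσ hD
        rw [map_mul]
        rcases Finset.mem_insert.1 hσ with hσ | hσ
        · subst hσ
          exact ge_mul1 v (h4 σ hD) (i1 σ)
        · exact ge_mul1' v (h1 τ σ) (i4 σ hσ hD)
  obtain ⟨k1, k2, k3, k4⟩ := key Finset.univ
  exact ⟨_, k1, k2, k3, fun σ => k4 σ (Finset.mem_univ σ)⟩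

/-- The inertia group. -/
def In (K : Type) {L : Type} [Field K] [Field L] [Algebra ℂ L] [Algebra K L]
    (v : DivVal n L) : Subgroup (L ≃ₐ[K] L) where
  carrier := {σ | Dec v σ ∧ ∀ a, v.Ge 0 a → v.Ge 1 (σ a - a)}
  mul_mem' := by
    rintro σ τ ⟨h1, h2⟩ ⟨h3, h4⟩
    refine ⟨fun a => ?_, fun a ha => ?_⟩
    · rw [AlgEquiv.mul_apply, h1, h3]
    · rw [AlgEquiv.mul_apply]
      have e : σ (τ a) - a = (σ (τ a) - τ a) + (τ a - a) := by ring
      rw [e]
      refine ge_add v (h2 _ ?_) (h4 a ha)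
      rcases ha with ha | ha
      · exact Or.inl (by rw [ha, map_zero])
      · exact Or.inr (by rw [h3]; exact ha)
  one_mem' := by
    refine ⟨fun a => rfl, fun a _ => Or.inl ?_⟩
    rw [AlgEquiv.one_apply, sub_self]
  inv_mem' := by
    rintro σ ⟨h1, h2⟩
    have h3 : ∀ a, v.ord (σ⁻¹ a) = v.ord a := by
      intro a
      have := h1 (σ⁻¹ a)
      rw [← AlgEquiv.mul_apply, mul_inv_cancel, AlgEquiv.one_apply] at this
      exact this.symm
    refine ⟨h3, fun a ha => ?_⟩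
    have h4 : v.Ge 0 (σ⁻¹ a) := by
      rcases ha with ha | ha
      · exact Or.inl (by rw [ha, map_zero])
      · exact Or.inr (by rw [h3]; exact ha)
    have h5 := ge_neg v (h2 _ h4)
    rw [← AlgEquiv.mul_apply, mul_inv_cancel, AlgEquiv.one_apply, neg_sub] at h5
    exact h5

omit [Algebra ℂ K] [IsScalarTower ℂ K L] in
theorem dec_ge {σ : L ≃ₐ[K] L} (h : Dec v σ) {k : ℤ} {a : L} (ha : v.Ge k a) : v.Ge k (σ a) := by
  rcases ha with ha | ha
  · exact Or.inl (by rw [ha, map_zero])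
  · exact Or.inr (by rw [h]; exact ha)

omit [Algebra ℂ K] [IsScalarTower ℂ K L] in
theorem quot_ord {σ : L ≃ₐ[K] L} (h : Dec v σ) {a : L} (ha : a ≠ 0) :
    v.ord (σ a / a) = 0 := by
  rw [ord_div v (map_ne ha) ha, h, sub_self]

omit [Algebra ℂ K] [IsScalarTower ℂ K L] in
theorem quot_ge {σ : L ≃ₐ[K] L} (h : Dec v σ) {a : L} (ha : a ≠ 0) : v.Ge 0 (σ a / a) :=
  Or.inr (quot_ord v h ha).ge

omit [Algebra ℂ K] [IsScalarTower ℂ K L] in
/-- The inertia group acts trivially on the leading terms of order zero. -/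
theorem quot_unit {σ : L ≃ₐ[K] L} (h : σ ∈ In K v) {w : L} (hw : w ≠ 0) (hw0 : v.ord w = 0) :
    rs v (σ w / w) = 1 := by
  rw [← rs_one v, rs_eq_iff v (quot_ge v h.1 hw) (ge_one_el v)]
  have e : σ w / w - 1 = (σ w - w) * w⁻¹ := by field_simp
  rw [e]
  refine ge_mul1 v (h.2 w (Or.inr hw0.ge)) (Or.inr ?_)
  rw [ord_inv v hw, hw0]
  simp

/-- an automorphism in the decomposition group which acts trivially on the residues of `B` is in
the inertia group -/
theorem mem_In_of [FiniteDimensional K L] {σ : L ≃ₐ[K] L} (h : Dec v σ)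
    (hB : ∀ b ∈ B K v, rs v (σ b) = rs v b) : σ ∈ In K v := by
  refine ⟨h, fun a ha => ?_⟩
  obtain ⟨s, hs, hs0, hs1, has⟩ := exists_denom (K := K) v ha
  have h1 : v.Ge 1 (σ (a * s) - a * s) := (rs_eq_iff v (has σ) (B_ge v has)).1 (hB _ has)
  have h2 : v.Ge 1 (σ s - s) := (rs_eq_iff v (hs σ) (B_ge v hs)).1 (hB _ hs)
  have e : σ a - a = ((σ (a * s) - a * s) - a * (σ s - s)) * (σ s)⁻¹ := by
    have h3 := map_ne (σ := σ) hs0
    rw [map_mul]
    field_simp
    ring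
  rw [e]
  refine ge_mul1 v (ge_sub v h1 (ge_mul1' v ha h2)) (Or.inr ?_)
  rw [ord_inv v (map_ne hs0), h, hs1]
  simp

/-- The character of the inertia group. -/
def th (K : Type) {L : Type} [Field K] [Field L] [Algebra ℂ L] [Algebra K L]
    (v : DivVal n L) (t : L) (ht : t ≠ 0) : In K v →* Rk v where
  toFun σ := rs v (σ.1 t / t)
  map_one' := by
    change rs v (t / t) = 1
    rw [div_self ht, rs_one]
  map_mul' := by
    intro σ τ
    change rs v (σ.1 (τ.1 t) / t) = rs v (σ.1 t / t) * rs v (τ.1 t / t)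
    have h1 : v.Ge 0 (σ.1 t / t) := quot_ge v σ.2.1 ht
    have h2 : v.Ge 0 (τ.1 t / t) := quot_ge v τ.2.1 ht
    have h3 : v.Ge 0 (σ.1 (τ.1 t / t)) := dec_ge v σ.2.1 h2
    have e : σ.1 (τ.1 t) / t = σ.1 t / t * σ.1 (τ.1 t / t) := by
      have h4 := map_ne (σ := σ.1) ht
      rw [map_div₀]
      field_simp
    rw [e, rs_mul v h1 h3]
    congr 1
    rw [rs_eq_iff v h3 h2]
    exact σ.2.2 _ h2

/-- the reduction of a conjugate of an element of `B` -/
def ch (K : Type) {L : Type} [Field K] [Algebra ℂ K] [Field L] [Algebra ℂ L] [Algebra K L]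
    (v : DivVal n L) (σ : L ≃ₐ[K] L) : B K v →* Rk v where
  toFun b := rs v (σ b)
  map_one' := by
    rw [OneMemClass.coe_one, map_one, rs_one]
  map_mul' := by
    intro a b
    rw [MulMemClass.coe_mul, map_mul, rs_mul v (a.2 σ) (b.2 σ)]

/-- the main computation: there is an element of `K` of order `m`, if the `m`-th power of the
character of the inertia group is trivial -/
theorem exists_trace [FiniteDimensional K L] [IsGalois K L] (t : L) (ht : t ≠ 0)
    (ht1 : v.ord t = 1) (m : ℕ) (hm : ∀ σ : In K v, th K v t ht σ ^ m = 1) :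
    ∃ x : K, algebraMap K L x ≠ 0 ∧ v.ord (algebraMap K L x) = m := by
  obtain ⟨u, hu, hu0, hu1, hu2⟩ := exists_u (K := K) v
  let N : ℕ := m + 1 + m * ∑ σ : L ≃ₐ[K] L, (v.ord (σ t)).natAbs
  have ha0 : t ^ m * u ^ N ≠ 0 := mul_ne_zero (pow_ne_zero _ ht) (pow_ne_zero _ hu0)
  obtain ⟨a, ha⟩ : ∃ a, a = t ^ m * u ^ N := ⟨_, rfl⟩
  rw [← ha] at ha0
  have haord : v.ord a = m := by
    rw [ha, v.ord_mul _ _ (pow_ne_zero _ ht) (pow_ne_zero _ hu0), ord_pow v ht, ord_pow v hu0, ht1,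
      hu1]
    ring
  have hout : ∀ σ : L ≃ₐ[K] L, ¬ Dec v σ → v.Ge (m + 1) (σ a) := by
    intro σ hσ
    right
    have h1 : 1 ≤ v.ord (σ u) := (hu2 σ hσ).resolve_left (map_ne hu0)
    rw [ha, map_mul, map_pow, map_pow, v.ord_mul _ _ (pow_ne_zero _ (map_ne ht))
      (pow_ne_zero _ (map_ne hu0)), ord_pow v (map_ne ht), ord_pow v (map_ne hu0)]
    have h2 : (v.ord (σ t)).natAbs ≤ ∑ σ : L ≃ₐ[K] L, (v.ord (σ t)).natAbs :=
      Finset.single_le_sum (f := fun σ : L ≃ₐ[K] L => (v.ord (σ t)).natAbs)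
        (fun _ _ => Nat.zero_le _) (Finset.mem_univ σ)
    have h3 : -(v.ord (σ t)) ≤ ((∑ σ : L ≃ₐ[K] L, (v.ord (σ t)).natAbs : ℕ) : ℤ) := by omega
    have h4 : (m : ℤ) * -(v.ord (σ t)) ≤
        (m : ℤ) * ((∑ σ : L ≃ₐ[K] L, (v.ord (σ t)).natAbs : ℕ) : ℤ) :=
      mul_le_mul_of_nonneg_left h3 (by positivity)
    have h5 : (N : ℤ) ≤ (N : ℤ) * v.ord (σ u) := by
      have : (N : ℤ) * 1 ≤ (N : ℤ) * v.ord (σ u) := mul_le_mul_of_nonneg_left h1 (by positivity)
      linarith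
    have h6 : (N : ℤ) = m + 1 + m * ((∑ σ : L ≃ₐ[K] L, (v.ord (σ t)).natAbs : ℕ) : ℤ) := by
      simp only [N]
      push_cast
      ring
    linarith
  let D : Finset (L ≃ₐ[K] L) := Finset.univ.filter (fun σ => Dec v σ)
  have hex : ∃ c : B K v, ∑ σ ∈ D, rs v (σ a / a) * ch K v σ c ≠ 0 := by
    by_contra hcon
    push Not at hcon
    have hLI := linearIndependent_monoidHom (B K v) (Rk v)
    rw [linearIndependent_iff'] at hLI
    have h1 := hLI (D.image (ch K v))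
      (fun χ => ∑ σ ∈ D.filter (fun σ => ch K v σ = χ), rs v (σ a / a)) (by
        funext c
        rw [Finset.sum_apply]
        rw [Pi.zero_apply, ← hcon c]
        rw [← Finset.sum_fiberwise_of_maps_to (s := D) (t := D.image (ch K v)) (g := ch K v)
          (fun σ hσ => Finset.mem_image_of_mem _ hσ)]
        refine Finset.sum_congr rfl fun χ _ => ?_
        rw [Pi.smul_apply, smul_eq_mul, Finset.sum_mul]
        refine Finset.sum_congr rfl fun σ hσ => ?_
        rw [(Finset.mem_filter.1 hσ).2])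
      (ch K v 1) (Finset.mem_image_of_mem _ (Finset.mem_filter.2 ⟨Finset.mem_univ _, fun _ => rfl⟩))
    have h2 : ∀ σ ∈ D.filter (fun σ => ch K v σ = ch K v 1), rs v (σ a / a) = 1 := by
      intro σ hσ
      rw [Finset.mem_filter, Finset.mem_filter] at hσ
      have hI : σ ∈ In K v := mem_In_of v hσ.1.2 fun b hb => by
        have := DFunLike.congr_fun hσ.2 (⟨b, hb⟩ : B K v)
        exact this
      have e : σ a / a = (σ t / t) ^ m * (σ u / u) ^ N := by
        rw [ha, map_mul, map_pow, map_pow, div_pow, div_pow, div_mul_div_comm]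
      rw [e, rs_mul v (ge_pow v (quot_ge v hI.1 ht) m) (ge_pow v (quot_ge v hI.1 hu0) N),
        rs_pow v (quot_ge v hI.1 ht), rs_pow v (quot_ge v hI.1 hu0), quot_unit v hI hu0 hu1,
        one_pow, mul_one]
      exact hm ⟨σ, hI⟩
    rw [Finset.sum_congr rfl h2, Finset.sum_const, nsmul_eq_mul, mul_one, Nat.cast_eq_zero,
      Finset.card_eq_zero] at h1
    have h3 : (1 : L ≃ₐ[K] L) ∈ D.filter (fun σ => ch K v σ = ch K v 1) :=
      Finset.mem_filter.2 ⟨Finset.mem_filter.2 ⟨Finset.mem_univ _, fun _ => rfl⟩, rfl⟩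
    rw [h1] at h3
    exact Finset.notMem_empty _ h3
  obtain ⟨c, hc⟩ := hex
  refine ⟨Algebra.trace K L ((c : L) * a), ?_⟩
  rw [trace_eq_sum_automorphisms]
  have hD : ∀ σ ∈ D, v.Ge 0 (σ c * (σ a / a)) := fun σ hσ =>
    ge_mul0 v (c.2 σ) (quot_ge v (Finset.mem_filter.1 hσ).2 ha0)
  have h1 : (∑ σ : L ≃ₐ[K] L, σ ((c : L) * a)) / a =
      ∑ σ ∈ D, σ c * (σ a / a) +
        ∑ σ ∈ Finset.univ.filter (fun σ : L ≃ₐ[K] L => ¬ Dec v σ), σ ((c : L) * a) / a := by
    rw [Finset.sum_div, ← Finset.sum_filter_add_sum_filter_not Finset.univ (fun σ => Dec v σ)]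
    congr 1
    refine Finset.sum_congr rfl fun σ _ => ?_
    rw [map_mul, mul_div_assoc]
  have h2 : v.Ge 1 (∑ σ ∈ Finset.univ.filter (fun σ : L ≃ₐ[K] L => ¬ Dec v σ), σ ((c : L) * a) / a) := by
    refine ge_sum v _ _ fun σ hσ => ?_
    have h3 := hout σ (Finset.mem_filter.1 hσ).2
    have h4 := ge_mul v (c.2 σ) h3
    rw [← map_mul] at h4
    rcases h4 with h4 | h4
    · exact Or.inl (by rw [h4, zero_div])
    · by_cases h0 : σ ((c : L) * a) = 0
      · exact Or.inl (by rw [h0, zero_div])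
      right
      rw [ord_div v h0 ha0, haord]
      omega
  have h3 : v.Ge 0 (∑ σ ∈ D, σ c * (σ a / a)) := ge_sum v _ _ hD
  have h4 : rs v ((∑ σ : L ≃ₐ[K] L, σ ((c : L) * a)) / a) ≠ 0 := by
    rw [h1, rs_add v h3 (ge_mono v (by norm_num) h2),
      (rs_zero_iff v (ge_mono v (by norm_num) h2)).2 h2, add_zero, rs_sum v _ _ hD]
    intro h5
    apply hc
    rw [← h5]
    refine Finset.sum_congr rfl fun σ hσ => ?_
    rw [rs_mul v (c.2 σ) (quot_ge v (Finset.mem_filter.1 hσ).2 ha0), mul_comm]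
    rfl
  have h5 : v.Ge 0 ((∑ σ : L ≃ₐ[K] L, σ ((c : L) * a)) / a) := by
    rw [h1]
    exact ge_add v h3 (ge_mono v (by norm_num) h2)
  rw [Ne, rs_zero_iff v h5] at h4
  obtain ⟨h6, h7⟩ := not_ge_one v h4
  have h8 : (∑ σ : L ≃ₐ[K] L, σ ((c : L) * a)) ≠ 0 := by
    intro h
    rw [h, zero_div] at h6
    exact h6 rfl
  have h9 := h5.resolve_left h6
  rw [ord_div v h8 ha0, haord] at h7 h9
  exact ⟨h8, by omega⟩

end group

end INE

theorem t_INE : Stmt_INE := by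
  intro n K L _ _ _ _ _ _ _ _ v' v e he
  obtain ⟨t, ht, ht1⟩ := v'.unif
  have he0 : 0 < e := he.1
  let θ : INE.In K v' →* (INE.Rk v')ˣ := (INE.th K v' t ht).toHomUnits
  have hθ : ∀ σ, ((θ σ : (INE.Rk v')ˣ) : INE.Rk v') = INE.th K v' t ht σ := fun σ => rfl
  have hfin : Finite θ.range := inferInstance
  let m : ℕ := Nat.card θ.range
  have hm0 : 0 < m := Nat.card_pos
  have hm : ∀ σ : INE.In K v', INE.th K v' t ht σ ^ m = 1 := by
    intro σ
    have h1 : (⟨θ σ, σ, rfl⟩ : θ.range) ^ m = 1 := pow_card_eq_one'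
    have h2 : (θ σ) ^ m = 1 := congrArg Subtype.val h1
    have h3 := congrArg Units.val h2
    rw [Units.val_pow_eq_pow_val, hθ] at h3
    exact h3
  obtain ⟨x, hx0, hx⟩ := INE.exists_trace v' t ht ht1 m hm
  rw [he.2] at hx
  have hdvd : e ∣ m := by
    have : (e : ℤ) ∣ (m : ℤ) := ⟨_, hx.symm⟩
    exact_mod_cast this
  obtain ⟨g, hg⟩ := IsCyclic.exists_generator (α := θ.range)
  have hgord : orderOf g = m := orderOf_eq_card_of_forall_mem_zpowers hg
  obtain ⟨f, hf⟩ := hdvd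
  have hf0 : f ≠ 0 := by
    rintro rfl
    rw [mul_zero] at hf
    omega
  have hh : orderOf (g ^ f) = e := by
    rw [orderOf_pow_of_dvd hf0 (by rw [hgord, hf]; exact Dvd.intro_left e rfl), hgord, hf]
    exact Nat.mul_div_cancel _ (Nat.pos_of_ne_zero hf0)
  obtain ⟨τ, hτ⟩ := (g ^ f).2
  have hprim : IsPrimitiveRoot ((θ τ : (INE.Rk v')ˣ) : INE.Rk v') e := by
    rw [IsPrimitiveRoot.coe_units_iff]
    have h1 : orderOf (θ τ) = e := by
      rw [hτ, ← hh]
      exact (Subgroup.orderOf_coe _)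
    rw [← h1]
    exact IsPrimitiveRoot.orderOf _
  obtain ⟨ζ, hζ⟩ : ∃ ζ : ℂ, ζ = Complex.exp (2 * Real.pi * Complex.I / e) := ⟨_, rfl⟩
  have hζe : ζ ^ e = 1 := by
    rw [hζ, ← Complex.exp_nat_mul, mul_div_cancel₀ _ (by exact_mod_cast he0.ne')]
    exact Complex.exp_two_pi_mul_I
  have hζ0 : ζ ≠ 0 := by rw [hζ]; exact Complex.exp_ne_zero _
  have hz : INE.rs v' (algebraMap ℂ L ζ) ^ e = 1 := by
    rw [← INE.rs_pow v' (INE.ge_const v' ζ), ← map_pow, hζe, map_one, INE.rs_one]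
  have : NeZero e := ⟨he0.ne'⟩
  obtain ⟨i, -, hi⟩ := hprim.eq_pow_of_pow_eq_one hz
  rw [hθ, ← map_pow] at hi
  obtain ⟨σ, hσ⟩ : ∃ σ, σ = τ ^ i := ⟨_, rfl⟩
  rw [← hσ] at hi
  have hi' : INE.rs v' (σ.1 t / t) = INE.rs v' (algebraMap ℂ L ζ) := hi
  refine ⟨σ.1, σ.2.1, ?_⟩
  intro a ha
  have hk : ∀ k : ℤ, INE.rs v' ((σ.1 t / t) ^ k) = INE.rs v' (algebraMap ℂ L (ζ ^ k)) ∧
      v'.Ge 0 ((σ.1 t / t) ^ k) := by
    have hq := INE.quot_ord v' σ.2.1 ht
    have hq0 : σ.1 t / t ≠ 0 := div_ne_zero (INE.map_ne ht) ht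
    have hge : ∀ k : ℤ, v'.Ge 0 ((σ.1 t / t) ^ k) := fun k => by
      right
      rw [INE.ord_zpow v' hq0, hq]
      simp
    intro k
    refine ⟨?_, hge k⟩
    obtain ⟨j, rfl | rfl⟩ := k.eq_nat_or_neg
    · rw [zpow_natCast, zpow_natCast, INE.rs_pow v' (INE.quot_ge v' σ.2.1 ht), hi',
        ← INE.rs_pow v' (INE.ge_const v' ζ), ← map_pow]
    · have h1 : INE.rs v' ((σ.1 t / t) ^ (-(j : ℤ))) * INE.rs v' ((σ.1 t / t) ^ (j : ℤ)) = 1 := by
        rw [← INE.rs_mul v' (hge _) (hge _), ← zpow_add₀ hq0]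
        simp [INE.rs_one]
      have h2 : INE.rs v' (algebraMap ℂ L (ζ ^ (-(j : ℤ)))) *
          INE.rs v' (algebraMap ℂ L (ζ ^ (j : ℤ))) = 1 := by
        rw [← INE.rs_mul v' (INE.ge_const v' _) (INE.ge_const v' _), ← map_mul,
          ← zpow_add₀ hζ0]
        simp [INE.rs_one]
      have h3 : INE.rs v' ((σ.1 t / t) ^ (j : ℤ)) = INE.rs v' (algebraMap ℂ L (ζ ^ (j : ℤ))) := by
        rw [zpow_natCast, zpow_natCast, INE.rs_pow v' (INE.quot_ge v' σ.2.1 ht), hi',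
          ← INE.rs_pow v' (INE.ge_const v' ζ), ← map_pow]
      rw [h3] at h1
      have h4 : INE.rs v' (algebraMap ℂ L (ζ ^ (j : ℤ))) ≠ 0 := right_ne_zero_of_mul_eq_one h2
      exact mul_right_cancel₀ h4 (h1.trans h2.symm)
  have hexp : Complex.exp (2 * Real.pi * Complex.I * v'.ord a / e) = ζ ^ (v'.ord a) := by
    rw [hζ, ← Complex.exp_int_mul]
    congr 1
    ring
  rw [hexp]
  have hw0 : a / t ^ v'.ord a ≠ 0 := div_ne_zero ha (zpow_ne_zero _ ht)
  have hw1 : v'.ord (a / t ^ v'.ord a) = 0 := by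
    rw [INE.ord_div v' ha (zpow_ne_zero _ ht), INE.ord_zpow v' ht, ht1]
    ring
  have e1 : σ.1 a / a = (σ.1 t / t) ^ (v'.ord a) *
      (σ.1 (a / t ^ v'.ord a) / (a / t ^ v'.ord a)) := by
    have h1 : σ.1 a ≠ 0 := INE.map_ne ha
    have h2 : (σ.1 t) ^ (v'.ord a) ≠ 0 := zpow_ne_zero _ (INE.map_ne ht)
    have h3 : t ^ (v'.ord a) ≠ 0 := zpow_ne_zero _ ht
    rw [map_div₀, map_zpow₀, div_zpow]
    field_simp
  have h1 : INE.rs v' (σ.1 a / a) = INE.rs v' (algebraMap ℂ L (ζ ^ (v'.ord a))) := by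
    rw [e1, INE.rs_mul v' (hk _).2 (INE.quot_ge v' σ.2.1 hw0), INE.quot_unit v' σ.2 hw0 hw1,
      mul_one, (hk _).1]
  rw [INE.rs_eq_iff v' (INE.quot_ge v' σ.2.1 ha) (INE.ge_const v' _)] at h1
  have e2 : σ.1 a - algebraMap ℂ L (ζ ^ (v'.ord a)) * a =
      a * (σ.1 a / a - algebraMap ℂ L (ζ ^ (v'.ord a))) := by
    field_simp
  rw [e2]
  exact INE.ge_mul v' (Or.inr le_rfl) h1

end

end MldGeo
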