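import Pool.Agent.MldGeo.Stmts3

/-!
# For a torus of full dimension the invariant rational functions are constant
-/

namespace MldGeo

noncomputable section

theorem t_KCO (hTRD : Stmt_TRD) : Stmt_KCO := by
  intro n X A h hh
  have h1 : Algebra.trdeg ℂ A.K0 + (n : Cardinal) = (n : Cardinal) := hTRD A
  have h2 : Algebra.trdeg ℂ A.K0 = 0 := by
    have h3 : Algebra.trdeg ℂ A.K0 < Cardinal.aleph0 := by
      refine lt_of_le_of_lt ?_ (Cardinal.natCast_lt_aleph0 (n := n))
      calc Algebra.trdeg ℂ A.K0 ≤ Algebra.trdeg ℂ A.K0 + (n : Cardinal) := self_le_add_right _ _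
        _ = n := h1
    obtain ⟨k, hk⟩ := Cardinal.lt_aleph0.1 h3
    rw [hk] at h1 ⊢
    have h4 : k + n = n := by exact_mod_cast h1
    have h5 : k = 0 := by omega
    rw [h5, Nat.cast_zero]
  have h3 : Algebra.IsAlgebraic ℂ A.K0 := by
    exact _root_.trdeg_eq_zero_iff.1 h2
  have h4 : Function.Surjective (algebraMap ℂ A.K0) :=
    (IsAlgClosed.algebraMap_bijective_of_isIntegral (k := ℂ) (K := A.K0)).2
  obtain ⟨c, hc⟩ := h4 ⟨h, hh⟩
  exact ⟨c, (congrArg Subtype.val hc).symm⟩

end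

end MldGeo
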