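import Pool.Agent.MldGeo.Stmts2
import Pool.Agent.MldGeo.Stmts5
import Pool.Agent.MldGeo.DIV
import Pool.Agent.MldGeo.Ord

/-!
# LOQ: prime divisors of the quotient come from prime divisors of the affine space
-/

set_option autoImplicit false

namespace MldGeo

namespace LOQ

open MvPolynomial

variable {n : ℕ}

/-! ### integrality over the invariants -/

theorem linSubst_mul (g h : GL (Fin n) ℂ) (p : MvPolynomial (Fin n) ℂ) :
    linSubst g (linSubst h p) = linSubst (h * g) p := by
  have : (linSubst g).comp (linSubst h) = linSubst (h * g) := by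
    apply MvPolynomial.algHom_ext
    intro i
    rw [AlgHom.comp_apply]
    unfold linSubst
    rw [aeval_X, aeval_X, map_sum]
    simp only [map_mul, aeval_X, MvPolynomial.algHom_C, MvPolynomial.algebraMap_eq,
      Units.val_mul, Matrix.mul_apply, map_sum, Finset.sum_mul, Finset.mul_sum]
    rw [Finset.sum_comm]
    refine Finset.sum_congr rfl fun j _ => Finset.sum_congr rfl fun k _ => ?_
    ring
  exact DFunLike.congr_fun this p

theorem linSubst_one (p : MvPolynomial (Fin n) ℂ) : linSubst (1 : GL (Fin n) ℂ) p = p := by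
  have : linSubst (1 : GL (Fin n) ℂ) = AlgHom.id ℂ (MvPolynomial (Fin n) ℂ) := by
    apply MvPolynomial.algHom_ext
    intro i
    unfold linSubst
    rw [aeval_X]
    simp [Matrix.one_apply, Finset.sum_ite_eq]
  exact DFunLike.congr_fun this p

open Classical in
/-- Polynomials are integral over the invariants. -/
theorem integral_invariants (G : Subgroup (GL (Fin n) ℂ)) [Finite G]
    (p : MvPolynomial (Fin n) ℂ) : IsIntegral (invariants G) p := by
  have := Fintype.ofFinite G
  let F : Polynomial (MvPolynomial (Fin n) ℂ) :=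
    ∏ g : G, (Polynomial.X - Polynomial.C (linSubst (g : GL (Fin n) ℂ) p))
  have hF : F.Monic := Polynomial.monic_prod_of_monic _ _ fun g _ => Polynomial.monic_X_sub_C _
  have hinv : ∀ h ∈ G, F.map (linSubst h : MvPolynomial (Fin n) ℂ →ₐ[ℂ] _).toRingHom = F := by
    intro h hh
    unfold F
    rw [Polynomial.map_prod]
    refine Fintype.prod_equiv (Equiv.mulRight (⟨h, hh⟩ : G)) _ _ fun g => ?_
    rw [Polynomial.map_sub, Polynomial.map_X, Polynomial.map_C]
    have h2 : (((Equiv.mulRight (⟨h, hh⟩ : G)) g : G) : GL (Fin n) ℂ) = (g : GL (Fin n) ℂ) * h := by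
      rw [Equiv.coe_mulRight, Subgroup.coe_mul]
    rw [h2, ← linSubst_mul h g p]
    rfl
  have hcoeff : ∀ i, F.coeff i ∈ invariants G := by
    intro i h hh
    have h1 := congrArg (fun P => Polynomial.coeff P i) (hinv h hh)
    simp only [Polynomial.coeff_map] at h1
    exact h1
  have hlift : F ∈ Polynomial.lifts (algebraMap (invariants G) (MvPolynomial (Fin n) ℂ)) := by
    rw [Polynomial.lifts_iff_coeff_lifts]
    intro i
    exact ⟨⟨F.coeff i, hcoeff i⟩, rfl⟩
  obtain ⟨Q, hQ1, hQ2, hQ3⟩ := Polynomial.lifts_and_natDegree_eq_and_monic hlift hF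
  refine ⟨Q, hQ3, ?_⟩
  have h1 : Polynomial.eval₂ (algebraMap (invariants G) (MvPolynomial (Fin n) ℂ)) p Q =
      Polynomial.eval p F := by
    rw [← hQ1, Polynomial.eval_map]
  rw [h1]
  unfold F
  rw [Polynomial.eval_prod]
  refine Finset.prod_eq_zero (Finset.mem_univ (1 : G)) ?_
  rw [Polynomial.eval_sub, Polynomial.eval_X, Polynomial.eval_C]
  change p - linSubst (1 : GL (Fin n) ℂ) p = 0
  rw [linSubst_one, sub_self]

end LOQ

open LOQ MvPolynomial in
/-- LOQ -/
theorem t_LOQ (h1 : Stmt_ORQ) (h2 : Stmt_EXR) (h3 : Stmt_UNI) : Stmt_LOQ := by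
  intro n X G _ φ _ hS hn P v hPm hv
  obtain ⟨hP, hht, hv0, hvP⟩ := hv
  have hdom : IsDomain X.R := inferInstance
  let ψ : X.R →+* MvPolynomial (Fin n) ℂ :=
    (algebraMap (invariants G) (MvPolynomial (Fin n) ℂ)).comp (φ : X.R →+* invariants G)
  have hψ : ∀ a, ψ a = (φ a : MvPolynomial (Fin n) ℂ) := fun _ => rfl
  have hinj : Function.Injective ψ := by
    intro a b hab
    exact φ.injective (Subtype.ext hab)
  let i1 : Algebra X.R (MvPolynomial (Fin n) ℂ) := ψ.toAlgebra
  have hal : ∀ a : X.R, algebraMap X.R (MvPolynomial (Fin n) ℂ) a = φ a := fun _ => rfl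
  have hint : Algebra.IsIntegral X.R (MvPolynomial (Fin n) ℂ) := by
    refine ⟨fun p => ?_⟩
    obtain ⟨Q, hQ1, hQ2⟩ := integral_invariants G p
    refine ⟨Q.map (φ.symm : invariants G →+* X.R), hQ1.map _, ?_⟩
    rw [Polynomial.eval₂_map]
    have h5 : (algebraMap X.R (MvPolynomial (Fin n) ℂ)).comp (φ.symm : invariants G →+* X.R) =
        algebraMap (invariants G) (MvPolynomial (Fin n) ℂ) := by
      refine RingHom.ext fun b => ?_
      change ((φ (φ.symm b) : invariants G) : MvPolynomial (Fin n) ℂ) = b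
      rw [AlgEquiv.apply_symm_apply]
    rw [h5]
    exact hQ2
  have hfaith : FaithfulSMul X.R (MvPolynomial (Fin n) ℂ) := by
    rw [faithfulSMul_iff_algebraMap_injective]
    exact hinj
  have hgd : Algebra.HasGoingDown X.R (MvPolynomial (Fin n) ℂ) := inferInstance
  -- the maximal ideal of the origin
  let M0 : Ideal (MvPolynomial (Fin n) ℂ) := RingHom.ker (constantCoeff (R := ℂ) (σ := Fin n))
  have hM0 : M0.IsPrime := RingHom.ker_isPrime _
  have hover : M0.LiesOver X.m := by
    constructor
    ext a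
    rw [hS.iso a]
    rfl
  have hmp : X.m.IsPrime := X.max.isPrime
  obtain ⟨Q, hQM, hQ, hQP⟩ := Ideal.exists_ideal_le_liesOver_of_le (p := P) (q := X.m) M0 hPm
  have hPbot : P ≠ ⊥ := by
    rintro rfl
    rw [Ideal.height_bot] at hht
    exact zero_ne_one hht
  have hQbot : Q ≠ ⊥ := by
    rintro rfl
    apply hPbot
    rw [hQP.over]
    ext a
    change algebraMap X.R (MvPolynomial (Fin n) ℂ) a = 0 ↔ a = 0
    exact map_eq_zero_iff _ hinj
  obtain ⟨q, hqQ, hq⟩ := Ideal.IsPrime.exists_mem_prime_of_ne_bot hQ hQbot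
  have hqi : Irreducible q := hq.irreducible
  have hq0 : constantCoeff q = 0 := hQM hqQ
  -- `P` is the ideal of the functions divisible by `q`
  have hPq : ∀ a : X.R, a ∈ P ↔ q ∣ (φ a : MvPolynomial (Fin n) ℂ) := by
    let I : Ideal (MvPolynomial (Fin n) ℂ) := Ideal.span {q}
    have hI : I.IsPrime := (Ideal.span_singleton_prime hq.ne_zero).2 hq
    have hIbot : I ≠ ⊥ := fun h => hq.ne_zero (Ideal.span_singleton_eq_bot.1 h)
    have hIQ : I ≤ Q := (Ideal.span_singleton_le_iff_mem _).2 hqQ
    let P' : Ideal X.R := I.comap (algebraMap X.R (MvPolynomial (Fin n) ℂ))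
    have hP'p : P'.IsPrime := Ideal.IsPrime.comap _
    have hP'bot : P' ≠ ⊥ := Ideal.IsIntegral.comap_ne_bot X.R hIbot
    have hP'P : P' ≤ P := by
      rw [hQP.over]
      exact Ideal.comap_mono hIQ
    have heq : P' = P := by
      by_contra hne
      have hlt : P' < P := lt_of_le_of_ne hP'P hne
      have h5 : P'.height < P.height := by
        have : P.FiniteHeight := ⟨Or.inr (by rw [hht]; exact ENat.one_ne_top)⟩
        exact Ideal.height_strict_mono_of_isPrime hlt
      rw [hht, Order.lt_one_iff, Ideal.height_eq_zero_iff_eq_bot] at h5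
      exact hP'bot h5
    intro a
    rw [← heq]
    change algebraMap X.R (MvPolynomial (Fin n) ℂ) a ∈ I ↔ _
    rw [Ideal.mem_span_singleton]
    rfl
  obtain ⟨w, hw, -⟩ := h1 q hqi
  have htow := hS.tower
  have hfin := hS.fin
  obtain ⟨v2, e, he, hext⟩ := h2 (K := X.K) w hn
  have hkey : ∀ a : X.R, a ≠ 0 →
      (multiplicity q (φ a : MvPolynomial (Fin n) ℂ) : ℤ) = e * v2.ord a := by
    intro a ha
    have h5 : (φ a : MvPolynomial (Fin n) ℂ) ≠ 0 := fun h => ha (hinj (h.trans (map_zero ψ).symm))
    rw [← hext, hS.map, hw _ h5]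
  have he' : (0 : ℤ) < e := by exact_mod_cast he
  have hv2 : X.IsOrdAlong v2 P := by
    refine ⟨hP, hht, fun a => ?_, fun a => ?_⟩
    · by_cases ha : a = 0
      · rw [ha]
        exact (v2.ord_zero).ge
      · have h5 := hkey a ha
        have h6 : 0 ≤ (e : ℤ) * v2.ord a := by
          rw [← h5]
          exact Int.natCast_nonneg _
        exact nonneg_of_mul_nonneg_right h6 he'
    · by_cases ha : a = 0
      · rw [ha]
        simp
      · rw [hPq]
        have h5 := hkey a ha
        have h6 : q ∣ (φ a : MvPolynomial (Fin n) ℂ) ↔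
            multiplicity q (φ a : MvPolynomial (Fin n) ℂ) ≠ 0 := by
          rw [ne_eq, multiplicity_eq_zero, not_not]
        rw [h6]
        constructor
        · intro h7
          right
          have h8 : 0 < (e : ℤ) * v2.ord a := by
            rw [← h5]
            exact_mod_cast Nat.pos_of_ne_zero h7
          exact (mul_pos_iff_of_pos_left he').1 h8
        · rintro (h7 | h7) h8
          · exact ha h7
          · rw [h8] at h5
            have := mul_pos he' h7
            rw [← h5] at this
            exact absurd this (by norm_num)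
  have hord : v2.ord = v.ord := h3 X P v2 v hv2 ⟨hP, hht, hv0, hvP⟩
  refine ⟨q, e, hqi, hq0, fun a ha => ?_⟩
  rw [hkey a ha, hord]

end MldGeo
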