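import Pool.Agent.MldGeo.Stmts2
import Pool.Agent.MldGeo.Ord
import Pool.Agent.MldGeo.TBAS
import Pool.Agent.MldGeo.FRM
import Pool.Agent.MldGap.Quot

/-!
# LOW: the lower bound for log discrepancies of quotient singularities
-/

namespace MldGeo

open MvPolynomial

noncomputable section

namespace LOW

theorem trdeg_rat (n : ℕ) : Algebra.trdeg ℂ (Rat n) = (n : Cardinal) := by
  have : Algebra.IsAlgebraic (MvPolynomial (Fin n) ℂ) (Rat n) :=
    IsLocalization.isAlgebraic _ (nonZeroDivisors (MvPolynomial (Fin n) ℂ))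
  have h := _root_.trdeg_add_eq ℂ (MvPolynomial (Fin n) ℂ) (A := Rat n)
  rw [trdeg_eq_zero (R := MvPolynomial (Fin n) ℂ) (A := Rat n), add_zero,
    MvPolynomial.trdeg_of_isDomain] at h
  rw [← h]
  simp

theorem dforms_eq {n : ℕ} {K : Type} [Field K] [Algebra ℂ K] (a : Fin n → K)
    (ha : ∀ i, a i ≠ 0) : dforms a = (∏ i, a i) • dlogs a := by
  unfold dforms dlogs dlog
  rw [← AlternatingMap.map_smul_univ]
  congr 1
  funext i
  rw [smul_smul, mul_inv_cancel₀ (ha i), one_smul]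

theorem dforms_ne {n : ℕ} {K : Type} [Field K] [Algebra ℂ K]
    (htr : Algebra.trdeg ℂ K = (n : Cardinal)) (a : Fin n → K) (ha : AlgebraicIndependent ℂ a) :
    dforms a ≠ 0 := by
  obtain ⟨hl, hs⟩ := t_TBAS htr a ha
  let e : Module.Basis (Fin n) K (Ω[K⁄ℂ]) := Module.Basis.mk hl hs.ge
  have he : (e : Fin n → Ω[K⁄ℂ]) = fun i => KaehlerDifferential.D ℂ K (a i) :=
    Module.Basis.coe_mk hl hs.ge
  have h := FRM.iota_ne e
  rw [he] at h
  exact h

end LOW

theorem t_LOW (h1 : Stmt_EXT) (h2 : Stmt_INE) (h3 : Stmt_POS) (h4 : Stmt_DIA) (h5 : Stmt_CHG)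
    (h6 : Stmt_TRF) (h7 : Stmt_FSM) (h8 : Stmt_FDL) : Stmt_LOW := by
  intro n X G _ φ _ S hn T hT v hv
  have := S.tower
  have := S.fin
  have := S.gal
  obtain ⟨v', e, hext⟩ := h1 (L := Rat n) v hn
  have hcen : Centred v' := (h3 S v' v e hext).1 hv
  obtain ⟨σ, hσ, hin⟩ := h2 v' v e hext
  obtain ⟨g, hg, hgp⟩ := S.act σ
  have hfo : IsOfFinOrder g := by
    have h := isOfFinOrder_of_finite (⟨g, hg⟩ : G)
    exact (Submonoid.isOfFinOrder_coe (H := G.toSubmonoid) (x := ⟨g, hg⟩)).2 h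
  obtain ⟨P, l, hP, hlo, hroots⟩ := h4 g hfo
  obtain ⟨-, hai, hcc, c, hc, hforms⟩ := h5 P
  obtain ⟨y, hy⟩ : ∃ y : Fin n → Rat n, y = fun i => pol (linSubst P (MvPolynomial.X i)) :=
    ⟨_, rfl⟩
  have hyi : ∀ i, y i = pol (linSubst P (MvPolynomial.X i)) := fun i => by rw [hy]
  rw [← hy] at hai hforms
  have hy0 : ∀ i, y i ≠ 0 := fun i => hai.ne_zero i
  have hpos : ∀ i, 0 < v'.ord (y i) := by
    intro i
    rw [hyi]
    refine hcen.2 _ ?_ ?_
    · intro h
      apply hy0 i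
      rw [hyi, h]
      exact map_zero _
    · rw [hcc]
      exact constantCoeff_X (R := ℂ) _
  have he : 0 < e := hext.1
  have heR : (0 : ℝ) < e := by exact_mod_cast he
  have hl : ∀ i, l i = Complex.exp (2 * Real.pi * Complex.I * v'.ord (y i) / e) := by
    intro i
    have h9 := hin (y i) (hy0 i)
    have h10 : σ (y i) = algebraMap ℂ (Rat n) (l i) * y i := by
      rw [hyi, hgp, hP]
      unfold pol
      rw [map_mul]
      congr 1
    rw [h10, ← sub_mul, ← map_sub] at h9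
    by_contra hne
    have h11 : l i - Complex.exp (2 * Real.pi * Complex.I * v'.ord (y i) / e) ≠ 0 :=
      sub_ne_zero.mpr hne
    rcases h9 with h9 | h9
    · rw [mul_eq_zero, map_eq_zero] at h9
      rcases h9 with h9 | h9
      · exact h11 h9
      · exact hy0 i h9
    · rw [DivVal.ord_const_mul v' h11] at h9
      exact absurd h9 (by simp)
  have hth : ∀ i, MldGap.th (l i) ≤ (v'.ord (y i) : ℝ) / e := by
    intro i
    have ht : (0 : ℝ) < (v'.ord (y i) : ℝ) / e := by
      refine div_pos ?_ heR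
      exact_mod_cast hpos i
    have h9 := MldGap.th_exp_le ht
    rw [hl i]
    convert h9 using 3
    push_cast
    ring
  have hage : MldGap.logAge g = ∑ i, MldGap.th (l i) := by
    unfold MldGap.logAge
    rw [hroots, Multiset.map_map]
    rfl
  have htr := LOW.trdeg_rat n
  have hstd0 : stdForm n ≠ 0 := by
    intro h
    rw [h, smul_zero] at hforms
    exact LOW.dforms_ne htr y hai hforms
  have hcK : algebraMap ℂ (Rat n) c ≠ 0 := by
    rw [Ne, map_eq_zero]
    exact hc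
  have hprod : (∏ i, y i) ≠ 0 := Finset.prod_ne_zero_iff.mpr fun i _ => hy0 i
  have hdf : dforms y = (∏ i, y i) • dlogs y := LOW.dforms_eq y hy0
  have hdl : dlogs y ≠ 0 := by
    intro h
    rw [h, smul_zero] at hdf
    exact LOW.dforms_ne htr y hai hdf
  have hk : ∑ i, v'.ord (y i) ≤ v'.logOrd (stdForm n) := by
    have e1 := h7 htr v' _ _ hn hcK hstd0
    have e2 := h7 htr v' _ _ hn hprod hdl
    have e3 := h8 htr v' y hn hy0 hdl
    rw [v'.ord_const, zero_add] at e1
    have hforms' : dforms y = algebraMap ℂ (Rat n) c • stdForm n := hforms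
    rw [← hforms', hdf, e2, DivVal.ord_prod v' _ _ fun i _ => hy0 i] at e1
    have e4 : ∀ a b d : ℤ, a + b = d → 0 ≤ b → a ≤ d := fun a b d h h' => by omega
    exact e4 _ _ _ e1 e3
  have htrf := h6 S hn T hT v' v e hext hcen
  refine ⟨g, hg, ?_⟩
  have hfin : (∑ i, (v'.ord (y i) : ℝ)) ≤ T.logDisc v * e := by
    rw [htrf]
    exact_mod_cast hk
  calc MldGap.logAge g = ∑ i, MldGap.th (l i) := hage
    _ ≤ ∑ i, (v'.ord (y i) : ℝ) / e := Finset.sum_le_sum fun i _ => hth i
    _ = (∑ i, (v'.ord (y i) : ℝ)) / e := (Finset.sum_div _ _ _).symm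
    _ ≤ T.logDisc v := by
      rw [div_le_iff₀ heR]
      exact hfin

end

end MldGeo
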