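import Pool.Agent.MldGeo.Stmts3

/-!
# Invariant ideals are generated by characters
-/

namespace MldGeo

theorem t_MOI : Stmt_MOI := by
  intro n X A χ S hT hG I hI
  obtain ⟨s, hs, rfl⟩ := hI
  refine ⟨{u | u ∈ S ∧ ∃ a ∈ s, a ∈ A.gr u ∧ a ≠ 0}, fun u hu => hu.1, ?_⟩
  have key : ∀ (u : Fin n → ℤ) (a : X.R), a ∈ A.gr u → a ≠ 0 →
      u ∈ S ∧ ∃ c : ℂ, c ≠ 0 ∧ (a : X.K) = algebraMap ℂ X.K c * χ u := by
    intro u a ha ha0
    obtain ⟨c, hc, h⟩ := (hG u a).1 ha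
    have hc0 : c ≠ 0 := by
      rintro rfl
      rw [map_zero, zero_mul] at h
      exact ha0 (Subtype.ext h)
    exact ⟨hc hc0, c, hc0, h⟩
  refine le_antisymm (Ideal.span_le.2 fun a ha => ?_) (Ideal.span_le.2 ?_)
  · show a ∈ monIdeal X χ _
    by_cases ha0 : a = 0
    · rw [ha0]
      exact Ideal.zero_mem _
    obtain ⟨u, hu⟩ := hs a ha
    obtain ⟨huS, c, hc0, h⟩ := key u a hu ha0
    have hR : χ u ∈ X.R := (hT.mem_R u).1 huS
    have h1 : a = algebraMap ℂ X.R c * ⟨χ u, hR⟩ := by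
      apply Subtype.ext
      rw [h]
      rfl
    rw [h1]
    exact Ideal.mul_mem_left _ _ (Ideal.subset_span ⟨u, ⟨huS, a, ha, hu, ha0⟩, rfl⟩)
  · rintro b ⟨u, ⟨-, a, ha, hu, ha0⟩, hb⟩
    obtain ⟨-, c, hc0, h⟩ := key u a hu ha0
    have h1 : b = algebraMap ℂ X.R c⁻¹ * a := by
      apply Subtype.ext
      have h2 : ((algebraMap ℂ X.R c⁻¹ * a : X.R) : X.K) = algebraMap ℂ X.K c⁻¹ * (a : X.K) := rfl
      rw [h2, h, hb, ← mul_assoc, ← map_mul, inv_mul_cancel₀ hc0, map_one, one_mul]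
    rw [h1]
    exact Ideal.mul_mem_left _ _ (Ideal.subset_span ha)

end MldGeo
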