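import Pool.Agent.MldGeo.CHG
import Pool.Agent.MldGeo.TBAS
import Pool.Agent.MldGeo.GAUT

/-!
# Monomial valuations of the field of rational functions
-/

namespace MldGeo

open MvPolynomial

noncomputable section

namespace MON

variable {n : ℕ}

theorem pol_inj {p q : MvPolynomial (Fin n) ℂ} (h : pol p = pol q) : p = q :=
  IsFractionRing.injective (MvPolynomial (Fin n) ℂ) (Rat n) h

theorem pol_ne {p : MvPolynomial (Fin n) ℂ} (h : p ≠ 0) : pol p ≠ 0 := fun h' =>
  h (pol_inj (h'.trans (map_zero _).symm))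

/-- The coordinate `yᵢ`. -/
def y (P : GL (Fin n) ℂ) (i : Fin n) : Rat n := pol (linSubst P (X i))

theorem y_ind (P : GL (Fin n) ℂ) : AlgebraicIndependent ℂ (y P) := (t_CHG t_TBAS P).2.1

theorem y_ne (P : GL (Fin n) ℂ) (i : Fin n) : y P i ≠ 0 := (y_ind P).ne_zero i

/-- The monomial with exponents `u`. -/
def chi (P : GL (Fin n) ℂ) (u : Fin n → ℤ) : Rat n := ∏ i, y P i ^ u i

theorem chi_zero (P : GL (Fin n) ℂ) : chi P 0 = 1 := by simp [chi]

theorem chi_add (P : GL (Fin n) ℂ) (u v : Fin n → ℤ) : chi P (u + v) = chi P u * chi P v := by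
  unfold chi
  rw [← Finset.prod_mul_distrib]
  exact Finset.prod_congr rfl fun i _ => zpow_add₀ (y_ne P i) _ _

theorem chi_single (P : GL (Fin n) ℂ) (i : Fin n) : chi P (Pi.single i 1) = y P i := by
  classical
  unfold chi
  rw [Finset.prod_eq_single i]
  · simp
  · intro j _ hj
    rw [Pi.single_eq_of_ne hj, zpow_zero]
  · intro h
    exact absurd (Finset.mem_univ i) h

/-- The exponents as integers. -/
def emb : (Fin n →₀ ℕ) ↪ (Fin n → ℤ) where
  toFun d i := (d i : ℤ)
  inj' d e h := by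
    ext i
    have h1 : (d i : ℤ) = (e i : ℤ) := congrFun h i
    exact_mod_cast h1

theorem emb_toNat (d : Fin n →₀ ℕ) :
    (Finsupp.equivFunOnFinite.symm fun i => (emb d i).toNat) = d := by
  ext i
  exact Int.toNat_natCast (d i)

theorem pol_sum (P : GL (Fin n) ℂ) (p : MvPolynomial (Fin n) ℂ) :
    pol (linSubst P p) = ∑ d ∈ p.support, algebraMap ℂ (Rat n) (coeff d p) * chi P (emb d) := by
  have h1 : ((Algebra.algHom ℂ (MvPolynomial (Fin n) ℂ) (Rat n)).comp (linSubst P)) =
      aeval (y P) := by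
    apply MvPolynomial.algHom_ext
    intro i
    rw [aeval_X]
    rfl
  have h2 : pol (linSubst P p) = aeval (y P) p := by
    rw [← h1]
    rfl
  rw [h2, aeval_def, eval₂_eq']
  refine Finset.sum_congr rfl fun d _ => ?_
  congr 1

theorem pol_sum' (P : GL (Fin n) ℂ) (p : MvPolynomial (Fin n) ℂ) :
    pol (linSubst P p) = ∑ u ∈ p.support.map emb, algebraMap ℂ (Rat n)
      (coeff (Finsupp.equivFunOnFinite.symm fun i => (u i).toNat) p) * chi P u := by
  rw [pol_sum, Finset.sum_map]
  refine Finset.sum_congr rfl fun d _ => ?_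
  rw [emb_toNat]

theorem mem_span (P : GL (Fin n) ℂ) (p : MvPolynomial (Fin n) ℂ) :
    pol p ∈ Submodule.span ℂ (Set.range (chi P)) := by
  have h : pol p = pol (linSubst P (linSubst P⁻¹ p)) := by
    rw [CHG.linSubst_comp, inv_mul_cancel, CHG.linSubst_one]
  rw [h, pol_sum]
  refine Submodule.sum_mem _ fun d _ => ?_
  rw [← Algebra.smul_def]
  exact Submodule.smul_mem _ _ (Submodule.subset_span ⟨_, rfl⟩)

theorem frac (P : GL (Fin n) ℂ) (a : Rat n) : ∃ r ∈ Submodule.span ℂ (Set.range (chi P)),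
    ∃ s ∈ Submodule.span ℂ (Set.range (chi P)), s ≠ 0 ∧ a * s = r := by
  obtain ⟨p, q, hq, rfl⟩ := IsFractionRing.div_surjective (A := MvPolynomial (Fin n) ℂ) a
  have hq0 : q ≠ 0 := nonZeroDivisors.ne_zero hq
  exact ⟨pol p, mem_span P p, pol q, mem_span P q, pol_ne hq0, div_mul_cancel₀ _ (pol_ne hq0)⟩

end MON

open MON in
theorem t_MON (_h1 : Stmt_FRA) (h2 : Stmt_FRM) (h3 : Stmt_FSM) (h4 : Stmt_CHG) (h5 : Stmt_TDR) :
    Stmt_MON := by
  classical
  intro n P a hn ha hc
  obtain ⟨c, hc⟩ := hc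
  have htr := (h5 n).1
  have hai : AlgebraicIndependent ℂ fun i => chi P (Pi.single i 1) := by
    have : (fun i => chi P (Pi.single i 1)) = y P := funext fun i => chi_single P i
    rw [this]
    exact y_ind P
  obtain ⟨v, v1, v2, v3, -⟩ := t_GAUT t_TBAS h2 (chi P) (chi_zero P) (chi_add P) hai (frac P) htr
    (fun i => (a i : ℤ)) ⟨c, hc⟩
  -- the value of a polynomial
  have key : ∀ p : MvPolynomial (Fin n) ℂ, p ≠ 0 → ∃ m ∈ p.support,
      v.ord (pol (linSubst P p)) = ∑ i, (a i : ℤ) * (m i : ℤ) := by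
    intro p hp
    obtain ⟨m, hm, hmin⟩ := p.support.exists_min_image (fun m => ∑ i, (a i : ℤ) * (m i : ℤ))
      (support_nonempty.2 hp)
    refine ⟨m, hm, le_antisymm ?_ ?_⟩
    · rw [pol_sum']
      refine (v2 _ _ (emb m) (Finset.mem_map_of_mem _ hm) ?_).trans (le_of_eq ?_)
      · rw [emb_toNat]
        exact mem_support_iff.1 hm
      · exact Finset.sum_congr rfl fun i _ => mul_comm _ _
    · have hne : pol (linSubst P p) ≠ 0 := by
        apply pol_ne
        intro h
        apply hp
        have h' := congrArg (linSubst P⁻¹) h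
        rwa [CHG.linSubst_comp, mul_inv_cancel, CHG.linSubst_one, map_zero] at h'
      refine DivVal.Ge.le ?_ hne
      rw [pol_sum]
      refine DivVal.Ge.sum _ _ fun d hd => ?_
      refine DivVal.Ge.const_mul (DivVal.Ge.of_le ?_) _
      rw [v1]
      refine (hmin d hd).trans (le_of_eq ?_)
      exact Finset.sum_congr rfl fun i _ => mul_comm _ _
  refine ⟨v, ⟨?_, ?_⟩, ?_, key⟩
  · intro p
    by_cases hp : p = 0
    · rw [hp]
      unfold pol
      rw [map_zero, v.ord_zero]
    · have h : p = linSubst P (linSubst P⁻¹ p) := by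
        rw [CHG.linSubst_comp, inv_mul_cancel, CHG.linSubst_one]
      have hp' : linSubst P⁻¹ p ≠ 0 := by
        intro h'
        rw [h', map_zero] at h
        exact hp h
      obtain ⟨m, -, hm⟩ := key _ hp'
      rw [← h] at hm
      rw [hm]
      positivity
  · intro p hp h0
    have h : p = linSubst P (linSubst P⁻¹ p) := by
      rw [CHG.linSubst_comp, inv_mul_cancel, CHG.linSubst_one]
    have hp' : linSubst P⁻¹ p ≠ 0 := by
      intro h'
      rw [h', map_zero] at h
      exact hp h
    obtain ⟨m, hm1, hm⟩ := key _ hp'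
    rw [← h] at hm
    rw [hm]
    have hm0 : m ≠ 0 := by
      rintro rfl
      rw [mem_support_iff] at hm1
      apply hm1
      have h6 := (h4 P⁻¹).2.2.1 p
      rw [h0, constantCoeff_eq] at h6
      exact h6
    obtain ⟨i, hi⟩ := Finsupp.ne_iff.1 hm0
    refine Finset.sum_pos' (fun j _ => by positivity) ⟨i, Finset.mem_univ i, ?_⟩
    have h7 : 0 < m i := Nat.pos_of_ne_zero hi
    have h8 := ha i
    positivity
  · obtain ⟨c0, hc0, hd⟩ := (h4 P).2.2.2
    have hy : (fun i => chi P (Pi.single i 1)) = y P := funext fun i => chi_single P i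
    rw [hy] at v3
    have e1 : dforms (y P) = (∏ i, y P i) • dlogs (y P) := by
      unfold dforms dlogs
      rw [← AlternatingMap.map_smul_univ]
      congr 1
      funext i
      unfold dlog
      rw [smul_smul, mul_inv_cancel₀ (y_ne P i), one_smul]
    have e2 : dforms (y P) = algebraMap ℂ (Rat n) c0 • stdForm n := hd
    have hc0' : algebraMap ℂ (Rat n) c0 ≠ 0 := (map_ne_zero _).2 hc0
    have hprod : ∏ i, y P i ≠ 0 := Finset.prod_ne_zero_iff.2 fun i _ => y_ne P i
    have e3 : stdForm n = ((algebraMap ℂ (Rat n) c0)⁻¹ * ∏ i, y P i) • dlogs (y P) := by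
      rw [mul_smul, ← e1, e2, smul_smul, inv_mul_cancel₀ hc0', one_smul]
    have hne : dlogs (y P) ≠ 0 := by
      obtain ⟨hli, hsp⟩ := t_TBAS htr _ (y_ind P)
      let b : Module.Basis (Fin n) (Rat n) (Ω[Rat n⁄ℂ]) :=
        (Module.Basis.mk hli hsp.ge).unitsSMul
          (fun i => Units.mk0 (y P i)⁻¹ (inv_ne_zero (y_ne P i)))
      have hb : ∀ i, b i = dlog (y P i) := fun i => by
        simp only [b]
        rw [Module.Basis.unitsSMul_apply, Module.Basis.mk_apply]
        rfl
      intro h0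
      have h9 : (fun i => dlog (y P i)) = b := (funext hb).symm
      unfold dlogs at h0
      rw [h9] at h0
      have h10 := exteriorPower.alternatingMapLinearEquiv_apply_ιMulti b.det b
      rw [h0, map_zero, Module.Basis.det_self] at h10
      exact zero_ne_one h10
    rw [e3, h3 htr v _ _ hn (mul_ne_zero (inv_ne_zero hc0') hprod) hne, v3, add_zero,
      v.ord_mul _ _ (inv_ne_zero hc0') hprod, DivVal.ord_inv, v.ord_const, neg_zero, zero_add,
      DivVal.ord_prod v _ _ fun i _ => y_ne P i]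
    refine Finset.sum_congr rfl fun i _ => ?_
    rw [← chi_single P i, v1]
    rw [Finset.sum_eq_single i]
    · simp
    · intro j _ hj
      rw [Pi.single_eq_of_ne hj, zero_mul]
    · intro h
      exact absurd (Finset.mem_univ i) h

end

end MldGeo
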