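import Pool.Agent.MldGeo.Stmts2
import Pool.Agent.MldGeo.Ord

/-!
# ORQ: the order along the prime divisor `q = 0` of `ℂⁿ`
-/

set_option autoImplicit false

namespace MldGeo

open MvPolynomial

namespace ORQ

variable {n : ℕ} {q : MvPolynomial (Fin n) ℂ}

theorem fm (hq : Irreducible q) {p : MvPolynomial (Fin n) ℂ} (hp : p ≠ 0) :
    FiniteMultiplicity q p :=
  FiniteMultiplicity.of_not_isUnit hq.not_isUnit hp

theorem mult_mul (hq : Irreducible q) {a b : MvPolynomial (Fin n) ℂ} (ha : a ≠ 0) (hb : b ≠ 0) :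
    multiplicity q (a * b) = multiplicity q a + multiplicity q b :=
  multiplicity_mul hq.prime (fm hq (mul_ne_zero ha hb))

theorem mult_add (hq : Irreducible q) {a b : MvPolynomial (Fin n) ℂ} (ha : a ≠ 0) (hb : b ≠ 0)
    (hab : a + b ≠ 0) : min (multiplicity q a) (multiplicity q b) ≤ multiplicity q (a + b) := by
  rw [← (fm hq hab).pow_dvd_iff_le_multiplicity]
  exact dvd_add ((fm hq ha).pow_dvd_iff_le_multiplicity.2 (min_le_left _ _))
    ((fm hq hb).pow_dvd_iff_le_multiplicity.2 (min_le_right _ _))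

theorem pol_inj {a b : MvPolynomial (Fin n) ℂ} (h : pol a = pol b) : a = b :=
  IsFractionRing.injective (MvPolynomial (Fin n) ℂ) (Rat n) h

theorem pol_mul (a b : MvPolynomial (Fin n) ℂ) : pol (a * b) = pol a * pol b := map_mul _ _ _

theorem pol_add (a b : MvPolynomial (Fin n) ℂ) : pol (a + b) = pol a + pol b := map_add _ _ _

theorem pol_zero : pol (0 : MvPolynomial (Fin n) ℂ) = 0 := map_zero _

theorem pol_one : pol (1 : MvPolynomial (Fin n) ℂ) = 1 := map_one _

theorem pol_ne {a : MvPolynomial (Fin n) ℂ} (h : a ≠ 0) : pol a ≠ 0 := by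
  intro h'
  exact h (pol_inj (h'.trans pol_zero.symm))

/-- the order -/
noncomputable def o (q : MvPolynomial (Fin n) ℂ) (x : Rat n) : ℤ :=
  haveI := Classical.propDecidable (x = 0)
  if x = 0 then 0 else (multiplicity q (IsFractionRing.num (MvPolynomial (Fin n) ℂ) x) : ℤ) -
    multiplicity q (IsFractionRing.den (MvPolynomial (Fin n) ℂ) x : MvPolynomial (Fin n) ℂ)

theorem rep (x : Rat n) : x * pol (IsFractionRing.den (MvPolynomial (Fin n) ℂ) x :
    MvPolynomial (Fin n) ℂ) = pol (IsFractionRing.num (MvPolynomial (Fin n) ℂ) x) := by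
  have h := IsFractionRing.mk'_num_den' (A := MvPolynomial (Fin n) ℂ) x
  have hd : pol (IsFractionRing.den (MvPolynomial (Fin n) ℂ) x : MvPolynomial (Fin n) ℂ) ≠ 0 :=
    pol_ne (nonZeroDivisors.coe_ne_zero _)
  exact ((div_eq_iff hd).1 h).symm

theorem o_eq (hq : Irreducible q) {x : Rat n} {a b : MvPolynomial (Fin n) ℂ} (ha : a ≠ 0)
    (hb : b ≠ 0) (h : x * pol b = pol a) : o q x = multiplicity q a - multiplicity q b := by
  have hx : x ≠ 0 := by
    rintro rfl
    rw [zero_mul] at h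
    exact pol_ne ha h.symm
  set r := IsFractionRing.num (MvPolynomial (Fin n) ℂ) x with hr
  set s : MvPolynomial (Fin n) ℂ := (IsFractionRing.den (MvPolynomial (Fin n) ℂ) x :
    MvPolynomial (Fin n) ℂ) with hs
  have hs0 : s ≠ 0 := nonZeroDivisors.coe_ne_zero _
  have h1 : x * pol s = pol r := rep x
  have hr0 : r ≠ 0 := by
    intro h0
    rw [h0, pol_zero] at h1
    exact (mul_ne_zero hx (pol_ne hs0)) h1
  have h2 : r * b = a * s := by
    apply pol_inj
    rw [pol_mul, pol_mul, ← h1, ← h]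
    ring
  have h3 := congrArg (multiplicity q) h2
  rw [mult_mul hq hr0 hb, mult_mul hq ha hs0] at h3
  rw [o, if_neg hx]
  change (multiplicity q r : ℤ) - multiplicity q s = _
  omega

theorem exists_rep {x : Rat n} (hx : x ≠ 0) : ∃ a b : MvPolynomial (Fin n) ℂ, a ≠ 0 ∧ b ≠ 0 ∧
    x * pol b = pol a := by
  refine ⟨_, _, ?_, nonZeroDivisors.coe_ne_zero _, rep x⟩
  intro h0
  have h1 := rep x
  rw [h0, pol_zero] at h1
  exact (mul_ne_zero hx (pol_ne (nonZeroDivisors.coe_ne_zero _))) h1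

/-- the valuation -/
noncomputable def w (hq : Irreducible q) (hres : ∃ u : Fin (n - 1) → Rat n,
    ∀ p : MvPolynomial (Fin (n - 1)) ℂ, p ≠ 0 → aeval u p ≠ 0 ∧ o q (aeval u p) = 0) :
    DivVal n (Rat n) where
  ord := o q
  ord_zero := by simp [o]
  ord_mul := by
    intro x y hx hy
    obtain ⟨a, b, ha, hb, h1⟩ := exists_rep hx
    obtain ⟨c, e, hc, he, h2⟩ := exists_rep hy
    rw [o_eq hq ha hb h1, o_eq hq hc he h2, o_eq hq (x := x * y) (mul_ne_zero ha hc)
      (mul_ne_zero hb he) (by rw [pol_mul, pol_mul, ← h1, ← h2]; ring), mult_mul hq ha hc,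
      mult_mul hq hb he]
    push_cast
    ring
  ord_add := by
    intro x y hx hy hxy
    obtain ⟨a, b, ha, hb, h1⟩ := exists_rep hx
    obtain ⟨c, e, hc, he, h2⟩ := exists_rep hy
    have h3 : (x + y) * pol (b * e) = pol (a * e + c * b) := by
      rw [pol_add, pol_mul, pol_mul, pol_mul, ← h1, ← h2]
      ring
    have h4 : a * e + c * b ≠ 0 := by
      intro h0
      rw [h0, pol_zero] at h3
      exact (mul_ne_zero hxy (pol_ne (mul_ne_zero hb he))) h3
    have h5 := mult_add hq (mul_ne_zero ha he) (mul_ne_zero hc hb) h4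
    rw [mult_mul hq ha he, mult_mul hq hc hb] at h5
    rw [o_eq hq ha hb h1, o_eq hq hc he h2, o_eq hq h4 (mul_ne_zero hb he) h3,
      mult_mul hq hb he]
    omega
  ord_const := by
    intro c
    by_cases hc : c = 0
    · rw [hc, map_zero]
      simp [o]
    · have h1 : (C c : MvPolynomial (Fin n) ℂ) ≠ 0 := C_ne_zero.2 hc
      have h2 : algebraMap ℂ (Rat n) c * pol (1 : MvPolynomial (Fin n) ℂ) = pol (C c) := by
        rw [pol_one, mul_one, IsScalarTower.algebraMap_apply ℂ (MvPolynomial (Fin n) ℂ) (Rat n)]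
        rfl
      have h3 : multiplicity q (C c : MvPolynomial (Fin n) ℂ) = 0 := by
        rw [multiplicity_eq_zero]
        intro h
        exact hq.not_isUnit (isUnit_of_dvd_unit h ((isUnit_iff_ne_zero.2 hc).map C))
      have h4 : multiplicity q (1 : MvPolynomial (Fin n) ℂ) = 0 := by
        rw [multiplicity_eq_zero]
        intro h
        exact hq.not_isUnit (isUnit_of_dvd_one h)
      rw [o_eq hq h1 one_ne_zero h2, h3, h4]
      simp
  unif := by
    refine ⟨pol q, pol_ne hq.ne_zero, ?_⟩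
    have h4 : multiplicity q (1 : MvPolynomial (Fin n) ℂ) = 0 := by
      rw [multiplicity_eq_zero]
      intro h
      exact hq.not_isUnit (isUnit_of_dvd_one h)
    rw [o_eq hq hq.ne_zero one_ne_zero (by rw [pol_one, mul_one]), h4, multiplicity_self]
    simp
  res := hres

theorem o_pol (hq : Irreducible q) {p : MvPolynomial (Fin n) ℂ} (hp : p ≠ 0) :
    o q (pol p) = multiplicity q p := by
  have h4 : multiplicity q (1 : MvPolynomial (Fin n) ℂ) = 0 := by
    rw [multiplicity_eq_zero]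
    intro h
    exact hq.not_isUnit (isUnit_of_dvd_one h)
  rw [o_eq hq hp one_ne_zero (by rw [pol_one, mul_one]), h4]
  simp

/-- a variable which occurs in `q` -/
theorem exists_var (hq : Irreducible q) : ∃ k, degreeOf k q ≠ 0 := by
  by_contra hcon
  push Not at hcon
  have h1 : q.totalDegree = 0 := by
    rw [totalDegree_eq_zero_iff]
    intro m hm i
    have := (degreeOf_le_iff (n := i) (f := q) (d := 0)).1 (hcon i).le m hm
    omega
  have h2 := totalDegree_eq_zero_iff_eq_C.1 h1
  have h3 : coeff 0 q ≠ 0 := by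
    intro h0
    rw [h0, map_zero] at h2
    exact hq.ne_zero h2
  apply hq.not_isUnit
  rw [h2]
  exact (isUnit_iff_ne_zero.2 h3).map C

theorem hres (hq : Irreducible q) : ∃ u : Fin (n - 1) → Rat n,
    ∀ p : MvPolynomial (Fin (n - 1)) ℂ, p ≠ 0 → aeval u p ≠ 0 ∧ o q (aeval u p) = 0 := by
  obtain ⟨k, hk⟩ := exists_var hq
  obtain ⟨m, rfl⟩ : ∃ m, n = m + 1 := ⟨n - 1, by have := k.pos; omega⟩
  have hinj : Function.Injective (k.succAbove : Fin m → Fin (m + 1)) := Fin.succAbove_right_injective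
  refine ⟨fun j : Fin m => pol (X (k.succAbove j)), fun p hp => ?_⟩
  change MvPolynomial (Fin m) ℂ at p
  have e : aeval (fun j : Fin m => pol (X (k.succAbove j))) p = pol (rename k.succAbove p) := by
    have h1 : (aeval (fun j : Fin m => pol (X (k.succAbove j))) :
        MvPolynomial (Fin m) ℂ →ₐ[ℂ] Rat (m + 1)) =
        (IsScalarTower.toAlgHom ℂ (MvPolynomial (Fin (m + 1)) ℂ) (Rat (m + 1))).comp
          (rename k.succAbove) := by
      apply algHom_ext
      intro j
      rw [aeval_X, AlgHom.comp_apply, rename_X]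
      rfl
    rw [h1]
    rfl
  have h0 : rename k.succAbove p ≠ 0 := by
    intro h
    exact hp (rename_injective _ hinj (by rw [h, map_zero]))
  rw [e, o_pol hq h0]
  refine ⟨pol_ne h0, ?_⟩
  have hdeg : degreeOf k (rename k.succAbove p) = 0 := by
    rw [← Nat.le_zero, degreeOf_le_iff]
    intro mm hmm
    obtain ⟨d, rfl, _⟩ := coeff_rename_ne_zero _ _ _ (mem_support_iff.1 hmm)
    rw [Finsupp.mapDomain_of_notMem_range]
    rintro ⟨j, hj⟩
    exact Fin.succAbove_ne k j hj
  have h2 : multiplicity q (rename k.succAbove p) = 0 := by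
    rw [multiplicity_eq_zero]
    rintro ⟨r, hr⟩
    have hr0 : r ≠ 0 := by
      rintro rfl
      rw [mul_zero] at hr
      exact h0 hr
    rw [hr, degreeOf_mul_eq hq.ne_zero hr0] at hdeg
    omega
  rw [h2]
  rfl

/-! ### derivations -/

theorem der_pol {w : DivVal n (Rat n)} (hw : ∀ p : MvPolynomial (Fin n) ℂ, w.Ge 0 (pol p))
    (D : Derivation ℂ (Rat n) (Rat n)) (hD : ∀ i, w.Ge 0 (D (pol (X i)))) (p : MvPolynomial (Fin n) ℂ) :
    w.Ge 0 (D (pol p)) := by
  induction p using MvPolynomial.induction_on with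
  | C c =>
      have h2 : pol (C c) = algebraMap ℂ (Rat n) c := by
        rw [IsScalarTower.algebraMap_apply ℂ (MvPolynomial (Fin n) ℂ) (Rat n)]
        rfl
      rw [h2, D.map_algebraMap]
      exact DivVal.Ge.zero w 0
  | add p q hp hq => rw [pol_add, map_add]; exact hp.add hq
  | mul_X p j hp =>
      rw [pol_mul, D.leibniz, smul_eq_mul, smul_eq_mul]
      exact ((hw p).mul_left (hD j)).add ((hw (X j)).mul_left hp)

theorem der_all (hq : Irreducible q) {w : DivVal n (Rat n)}
    (hwo : ∀ p, p ≠ 0 → w.ord (pol p) = (multiplicity q p : ℤ))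
    (D : Derivation ℂ (Rat n) (Rat n)) (hD : ∀ i, w.Ge 0 (D (pol (X i)))) (b : Rat n)
    (hb : w.Ge 0 b) : w.Ge 0 (D b) := by
  have hw : ∀ p : MvPolynomial (Fin n) ℂ, w.Ge 0 (pol p) := by
    intro p
    by_cases hp : p = 0
    · rw [hp, pol_zero]; exact DivVal.Ge.zero w 0
    · right
      rw [hwo p hp]
      exact Int.natCast_nonneg _
  by_cases hb0 : b = 0
  · rw [hb0, map_zero]; exact DivVal.Ge.zero w 0
  set r := IsFractionRing.num (MvPolynomial (Fin n) ℂ) b with hr
  set s : MvPolynomial (Fin n) ℂ := (IsFractionRing.den (MvPolynomial (Fin n) ℂ) b :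
    MvPolynomial (Fin n) ℂ) with hs
  have hs0 : s ≠ 0 := nonZeroDivisors.coe_ne_zero _
  have h1 : b * pol s = pol r := rep b
  have hr0 : r ≠ 0 := by
    intro h0
    rw [h0, pol_zero] at h1
    exact (mul_ne_zero hb0 (pol_ne hs0)) h1
  have hcop : IsRelPrime r s := IsFractionRing.num_den_reduced (MvPolynomial (Fin n) ℂ) b
  have h2 : w.ord b + multiplicity q s = multiplicity q r := by
    rw [← hwo s hs0, ← hwo r hr0, ← h1, w.ord_mul b _ hb0 (pol_ne hs0)]
  have h3 := hb.le hb0
  have h4 : multiplicity q s = 0 := by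
    rw [multiplicity_eq_zero]
    intro hqs
    have h5 : 1 ≤ multiplicity q s := by
      rw [← (fm hq hs0).pow_dvd_iff_le_multiplicity, pow_one]
      exact hqs
    have h6 : q ∣ r := by
      have : q ^ 1 ∣ r := (fm hq hr0).pow_dvd_iff_le_multiplicity.2 (by omega)
      rwa [pow_one] at this
    exact hq.not_isUnit (hcop h6 hqs)
  have h5 : w.ord (pol s) = 0 := by rw [hwo s hs0, h4]; rfl
  have h6 : pol s * D b = D (pol r) - b * D (pol s) := by
    rw [← h1, D.leibniz, smul_eq_mul, smul_eq_mul]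
    ring
  have h7 : w.Ge 0 (pol s * D b) := by
    rw [h6]
    exact (der_pol hw D hD r).sub (hb.mul_left (der_pol hw D hD s))
  have h8 : D b = (pol s)⁻¹ * (pol s * D b) := by rw [inv_mul_cancel_left₀ (pol_ne hs0)]
  rw [h8]
  exact (DivVal.Ge.inv (pol_ne hs0) h5).mul_left h7

end ORQ

open ORQ in
/-- ORQ -/
theorem t_ORQ (h1 : Stmt_REG) (h2 : Stmt_TDR) : Stmt_ORQ := by
  intro n q hq
  have hn : 0 < n := by
    obtain ⟨k, _⟩ := exists_var hq
    exact k.pos
  have hwo : ∀ p, p ≠ 0 → (w hq (hres hq)).ord (pol p) = (multiplicity q p : ℤ) :=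
    fun p hp => o_pol hq hp
  refine ⟨w hq (hres hq), hwo, ?_⟩
  have hge : ∀ p : MvPolynomial (Fin n) ℂ, (w hq (hres hq)).Ge 0 (pol p) := by
    intro p
    by_cases hp : p = 0
    · rw [hp, pol_zero]; exact DivVal.Ge.zero _ 0
    · right
      rw [hwo p hp]
      exact Int.natCast_nonneg _
  exact (h1 (h2 n).1 (w hq (hres hq)) (fun i => pol (X i)) hn (fun i => hge _) (h2 n).2).2
    fun D hD b hb => der_all hq hwo D hD b hb

end MldGeo
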