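import Pool.Agent.MldGeo.Stmts2
import Pool.Agent.MldGeo.Ord
import Pool.Agent.MldGeo.CHG

/-!
# POS: centres of extended and of restricted valuations
-/

set_option autoImplicit false

namespace MldGeo

open MvPolynomial

namespace POS

variable {n : ℕ}

theorem pol_ne {p : MvPolynomial (Fin n) ℂ} (hp : p ≠ 0) : pol p ≠ 0 := by
  intro h
  apply hp
  exact IsFractionRing.injective (MvPolynomial (Fin n) ℂ) (Rat n)
    (h.trans (map_zero (algebraMap (MvPolynomial (Fin n) ℂ) (Rat n))).symm)

/-- The orbit polynomial: a monic polynomial with invariant coefficients which vanishes at `p`;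
its lower coefficients vanish at the origin if `p` does. -/
theorem exists_orbit (G : Subgroup (GL (Fin n) ℂ)) [Finite G] (p : MvPolynomial (Fin n) ℂ) :
    ∃ F : Polynomial (MvPolynomial (Fin n) ℂ), F.Monic ∧ (∀ i, F.coeff i ∈ invariants G) ∧
      F.eval p = 0 ∧ 0 < F.natDegree ∧
      (constantCoeff p = 0 → ∀ i < F.natDegree, constantCoeff (F.coeff i) = 0) := by
  classical
  have := Fintype.ofFinite G
  let F : Polynomial (MvPolynomial (Fin n) ℂ) :=
    ∏ g : G, (Polynomial.X - Polynomial.C (linSubst (g : GL (Fin n) ℂ) p))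
  have hF : F.Monic := Polynomial.monic_prod_of_monic _ _ fun g _ => Polynomial.monic_X_sub_C _
  have hinv : ∀ h ∈ G, F.map (linSubst h : MvPolynomial (Fin n) ℂ →ₐ[ℂ] _).toRingHom = F := by
    intro h hh
    unfold F
    rw [Polynomial.map_prod]
    refine Fintype.prod_equiv (Equiv.mulRight (⟨h, hh⟩ : G)) _ _ fun g => ?_
    rw [Polynomial.map_sub, Polynomial.map_X, Polynomial.map_C]
    have h5 : (linSubst h : MvPolynomial (Fin n) ℂ →ₐ[ℂ] _).toRingHom
        (linSubst (g : GL (Fin n) ℂ) p) = linSubst ((g : GL (Fin n) ℂ) * h) p :=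
      CHG.linSubst_comp h g p
    rw [h5]
    rfl
  have hcoeff : ∀ i, F.coeff i ∈ invariants G := by
    intro i h hh
    have h1 := congrArg (fun P => Polynomial.coeff P i) (hinv h hh)
    simp only [Polynomial.coeff_map] at h1
    exact h1
  have hdeg : F.natDegree = Fintype.card G := by
    unfold F
    rw [Polynomial.natDegree_prod_of_monic _ _ fun g _ => Polynomial.monic_X_sub_C _]
    simp
  refine ⟨F, hF, hcoeff, ?_, ?_, ?_⟩
  · unfold F
    rw [Polynomial.eval_prod]
    refine Finset.prod_eq_zero (Finset.mem_univ (1 : G)) ?_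
    rw [Polynomial.eval_sub, Polynomial.eval_X, Polynomial.eval_C]
    change p - linSubst (1 : GL (Fin n) ℂ) p = 0
    rw [CHG.linSubst_one, sub_self]
  · rw [hdeg]
    exact Fintype.card_pos
  · intro hp i hi
    have h1 : F.map (constantCoeff : MvPolynomial (Fin n) ℂ →+* ℂ) =
        Polynomial.X ^ Fintype.card G := by
      unfold F
      rw [Polynomial.map_prod]
      have h2 : ∀ g : G, Polynomial.map (constantCoeff : MvPolynomial (Fin n) ℂ →+* ℂ)
          (Polynomial.X - Polynomial.C (linSubst (g : GL (Fin n) ℂ) p)) = Polynomial.X := by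
        intro g
        rw [Polynomial.map_sub, Polynomial.map_X, Polynomial.map_C, CHG.const, hp]
        simp
      rw [Finset.prod_congr rfl fun g _ => h2 g]
      simp
    have h2 := congrArg (fun P => Polynomial.coeff P i) h1
    simp only [Polynomial.coeff_map, Polynomial.coeff_X_pow] at h2
    rw [hdeg] at hi
    rw [h2, if_neg hi.ne]

/-- the equation of integral dependence along a valuation -/
theorem root_sum {F : Polynomial (MvPolynomial (Fin n) ℂ)} {p : MvPolynomial (Fin n) ℂ}
    (hF : F.Monic) (h0 : F.eval p = 0) :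
    pol p ^ F.natDegree = -∑ i ∈ Finset.range F.natDegree, pol (F.coeff i) * pol p ^ i := by
  have h1 : p ^ F.natDegree + ∑ i ∈ Finset.range F.natDegree, F.coeff i * p ^ i = 0 := by
    rw [Polynomial.eval_eq_sum_range, Finset.sum_range_succ, hF.coeff_natDegree, one_mul] at h0
    rw [add_comm]
    exact h0
  have h2 := congrArg (algebraMap (MvPolynomial (Fin n) ℂ) (Rat n)) h1
  rw [map_add, map_pow, map_sum, map_zero] at h2
  have h3 := eq_neg_of_add_eq_zero_left h2
  simp only [map_mul, map_pow] at h3
  exact h3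

end POS

open POS in
/-- POS -/
theorem t_POS : Stmt_POS := by
  intro n X G _ φ _ hS v' v e hext
  obtain ⟨he, hord⟩ := hext
  -- orders of invariant polynomials
  have hinv : ∀ c ∈ invariants G, ∃ a : X.R, (φ a : MvPolynomial (Fin n) ℂ) = c ∧
      v'.ord (pol c) = e * v.ord a := by
    intro c hc
    refine ⟨φ.symm ⟨c, hc⟩, ?_, ?_⟩
    · rw [AlgEquiv.apply_symm_apply]
    · rw [← hord, hS.map, AlgEquiv.apply_symm_apply]
  constructor
  · rintro ⟨hA, hB⟩
    have hc0 : ∀ c ∈ invariants G, v'.Ge 0 (pol c) := by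
      intro c hc
      obtain ⟨a, -, ha⟩ := hinv c hc
      refine Or.inr ?_
      rw [ha]
      exact mul_nonneg (by positivity) (hA a)
    have hc1 : ∀ c ∈ invariants G, constantCoeff c = 0 → v'.Ge 1 (pol c) := by
      intro c hc hcc
      obtain ⟨a, hac, ha⟩ := hinv c hc
      by_cases ha0 : a = 0
      · left
        rw [ha0, map_zero] at hac
        rw [← hac]
        exact map_zero _
      · refine Or.inr ?_
        have ham : a ∈ X.m := by rw [hS.iso a, hac, hcc]
        have h1 := hB a ham ha0
        rw [ha]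
        have h2 : (0 : ℤ) < e := by exact_mod_cast he
        have := mul_pos h2 h1
        omega
    have hnn : ∀ p, 0 ≤ v'.ord (pol p) := by
      intro p
      by_cases hp : pol p = 0
      · rw [hp, v'.ord_zero]
      by_contra hneg
      obtain ⟨F, hF, hFc, hF0, hFd, -⟩ := exists_orbit G p
      have h1 := root_sum hF hF0
      have h2 : v'.Ge (((F.natDegree : ℤ) - 1) * v'.ord (pol p)) (pol p ^ F.natDegree) := by
        rw [h1]
        refine DivVal.Ge.neg (DivVal.Ge.sum _ _ fun i hi => ?_)
        have hi' := Finset.mem_range.1 hi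
        have h3 : v'.Ge ((i : ℤ) * v'.ord (pol p)) (pol p ^ i) := (DivVal.Ge.self v' (pol p)).pow i
        refine ((hc0 _ (hFc i)).mul_left h3).mono ?_
        have h4 : (i : ℤ) ≤ (F.natDegree : ℤ) - 1 := by omega
        exact mul_le_mul_of_nonpos_right h4 (by omega)
      have h3 := h2.le (pow_ne_zero _ hp)
      rw [DivVal.ord_pow] at h3
      nlinarith
    refine ⟨hnn, ?_⟩
    intro p hp hpc
    by_contra hneg
    have hp' := pol_ne hp
    have h0 : v'.ord (pol p) = 0 := by have := hnn p; omega
    obtain ⟨F, hF, hFc, hF0, hFd, hFl⟩ := exists_orbit G p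
    have h1 := root_sum hF hF0
    have h2 : v'.Ge 1 (pol p ^ F.natDegree) := by
      rw [h1]
      refine DivVal.Ge.neg (DivVal.Ge.sum _ _ fun i hi => ?_)
      have hi' := Finset.mem_range.1 hi
      exact (hc1 _ (hFc i) (hFl hpc i hi')).mul_right (DivVal.Ge.pow0 (Or.inr (hnn p)) i)
    have h3 := h2.le (pow_ne_zero _ hp')
    rw [DivVal.ord_pow, h0] at h3
    omega
  · rintro ⟨hA, hB⟩
    have h2 : (0 : ℤ) < e := by exact_mod_cast he
    have hkey : ∀ a : X.R, v'.ord (pol (φ a : MvPolynomial (Fin n) ℂ)) = e * v.ord a := by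
      intro a
      rw [← hS.map, hord]
    refine ⟨fun a => ?_, fun a ha ha0 => ?_⟩
    · have h1 := hA (φ a)
      rw [hkey] at h1
      exact nonneg_of_mul_nonneg_right h1 h2
    · have h1 : (φ a : MvPolynomial (Fin n) ℂ) ≠ 0 := by
        intro h
        apply ha0
        apply φ.injective
        rw [map_zero]
        exact Subtype.ext h
      have h3 := hB _ h1 ((hS.iso a).1 ha)
      rw [hkey] at h3
      exact pos_of_mul_pos_right h3 h2.le

end MldGeo
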