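import Pool.Agent.MldGeo.Stmts3
import Pool.Agent.MldGeo.Ord

/-!
# PSI: the log discrepancies of an invariant triple on a toric variety
-/

namespace MldGeo

namespace PSI

open MldGap MldAcc

variable {n : ℕ}

theorem chi_ne {K : Type} [Field K] {χ : (Fin n → ℤ) → K} (h0 : χ 0 = 1)
    (hadd : ∀ u w, χ (u + w) = χ u * χ w) (u : Fin n → ℤ) : χ u ≠ 0 := by
  intro h
  have h1 := hadd u (-u)
  rw [add_neg_cancel, h0, h, zero_mul] at h1
  exact one_ne_zero h1

theorem chi_neg {K : Type} [Field K] {χ : (Fin n → ℤ) → K} (h0 : χ 0 = 1)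
    (hadd : ∀ u w, χ (u + w) = χ u * χ w) (u : Fin n → ℤ) : χ (-u) = (χ u)⁻¹ := by
  have h1 := hadd u (-u)
  rw [add_neg_cancel, h0] at h1
  exact eq_inv_of_mul_eq_one_right h1.symm

theorem hom_chi {X : Germ n} (A : TorusAction X n) (χ : (Fin n → ℤ) → X.K)
    (S : AddSubmonoid (Fin n → ℤ)) (hT : ToricCoord X χ S) (hG : GradedBy A χ S)
    (u : Fin n → ℤ) : A.Hom u (χ u) := by
  have hu : u ∈ AddSubgroup.closure (S : Set (Fin n → ℤ)) := by
    rw [hT.gen]
    trivial
  induction hu using AddSubgroup.closure_induction with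
  | mem u hu =>
    have h1 : χ u ∈ X.R := (hT.mem_R u).mp hu
    have h2 : (⟨χ u, h1⟩ : X.R) ∈ A.gr u := by
      rw [hG u ⟨χ u, h1⟩]
      exact ⟨1, fun _ => hu, by rw [map_one, one_mul]⟩
    exact TorusAction.Hom.of_mem h2
  | zero =>
    rw [hT.zero]
    exact TorusAction.Hom.one
  | add u w _ _ hu hw =>
    rw [hT.add]
    exact hu.mul hw
  | neg u _ hu =>
    rw [chi_neg hT.zero hT.add]
    exact hu.inv (chi_ne hT.zero hT.add u)

theorem ord_chi {K : Type} [Field K] [Algebra ℂ K] (χ : (Fin n → ℤ) → K) (h0 : χ 0 = 1)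
    (hadd : ∀ u w, χ (u + w) = χ u * χ w) (v : DivVal n K) (u : Fin n → ℤ) :
    v.ord (χ u) = pair u (ordVec χ v) := by
  let φ : (Fin n → ℤ) →+ ℤ :=
    { toFun := fun u => v.ord (χ u)
      map_zero' := by
        change v.ord (χ 0) = 0
        rw [h0]
        exact DivVal.ord_one v
      map_add' := fun u w => by
        change v.ord (χ (u + w)) = v.ord (χ u) + v.ord (χ w)
        rw [hadd, v.ord_mul _ _ (chi_ne h0 hadd u) (chi_ne h0 hadd w)] }
  have h1 : u = ∑ i, u i • (Pi.single i (1 : ℤ) : Fin n → ℤ) := by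
    ext j
    simp [Finset.sum_apply, Pi.single_apply]
  have h2 : φ u = ∑ i, u i • φ (Pi.single i (1 : ℤ)) := by
    conv_lhs => rw [h1]
    rw [map_sum]
    refine Finset.sum_congr rfl fun i _ => ?_
    rw [map_zsmul]
  change φ u = _
  rw [h2]
  unfold pair ordVec
  refine Finset.sum_congr rfl fun i _ => ?_
  rw [smul_eq_mul]
  rfl

end PSI

/-- PSI: the log discrepancies of an invariant triple on a toric variety. -/
theorem t_PSI (hKCO : Stmt_KCO) (hRED : Stmt_RED) : Stmt_PSI := by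
  intro n X A χ S hn hT hG T hinv
  let Sp : Splitting A :=
    { χ := χ
      zero := hT.zero
      add := hT.add
      hom := PSI.hom_chi A χ S hT hG }
  let s : Fin 0 → A.K0 := Fin.elim0
  have hs : AlgebraicIndependent ℂ s := by
    rw [algebraicIndependent_empty_type_iff]
    exact (algebraMap ℂ A.K0).injective
  obtain ⟨-, q, l, u, H, hH, hD⟩ := hRED A Sp s (fun i => χ (Pi.single i 1))
    (Equiv.emptySum (Fin 0) (Fin n)).symm hn hs (fun i => by simp [Sp]) T hinv
  refine ⟨∑ k, l k • form (u k), fun v hv => ?_⟩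
  rw [hD v hv]
  have hord : ∀ k, v.ord (H k) = pair (u k) (ordVec χ v) := by
    intro k
    have h1 : A.Hom 0 (H k * (χ (u k))⁻¹) := by
      have h2 := (hH k).1.mul
        ((PSI.hom_chi A χ S hT hG (u k)).inv (PSI.chi_ne hT.zero hT.add (u k)))
      rwa [add_neg_cancel] at h2
    obtain ⟨c, hc⟩ := hKCO A _ h1
    have hne := PSI.chi_ne hT.zero hT.add (u k)
    have h3 : H k = algebraMap ℂ X.K c * χ (u k) := by
      rw [← hc, mul_assoc, inv_mul_cancel₀ hne, mul_one]
    have hc0 : c ≠ 0 := by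
      rintro rfl
      rw [map_zero, zero_mul] at h3
      exact (hH k).2 h3
    rw [h3, DivVal.ord_const_mul v hc0, PSI.ord_chi χ hT.zero hT.add v]
  unfold torForm
  congr 1
  rw [LinearMap.sum_apply]
  refine Finset.sum_congr rfl fun k _ => ?_
  rw [LinearMap.smul_apply, smul_eq_mul, hord k]
  congr 1
  unfold pair form toR
  rw [LinearMap.sum_apply]
  push_cast
  refine Finset.sum_congr rfl fun i _ => ?_
  rw [LinearMap.smul_apply, LinearMap.proj_apply, smul_eq_mul]

end MldGeo
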