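import Pool.Agent.MldGeo.Stmts2
import Pool.Agent.MldGeo.FRM

/-! # PUL: a form on the quotient as a form on affine space -/

namespace MldGeo

open MvPolynomial

noncomputable section

namespace PUL

variable {n : ℕ} {K : Type} [Field K] [Algebra ℂ K]

/-- a transcendence basis indexed by `Fin n` -/
theorem exists_basis (htr : Algebra.trdeg ℂ K = (n : Cardinal)) :
    ∃ a : Fin n → K, AlgebraicIndependent ℂ a ∧ ∀ i, a i ≠ 0 := by
  obtain ⟨s, hs⟩ := exists_isTranscendenceBasis ℂ K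
  have h1 : Cardinal.mk s = (n : Cardinal) := by
    rw [← htr]
    exact hs.cardinalMk_eq_trdeg
  obtain ⟨e⟩ : Nonempty (Fin n ≃ s) := by
    rw [← Cardinal.eq, h1, Cardinal.mk_fin]
  have h2 : AlgebraicIndependent ℂ (fun i : Fin n => ((e i : s) : K)) :=
    hs.1.comp e e.injective
  exact ⟨fun i => (e i : K), h2, fun i => h2.ne_zero i⟩

/-- the basis of differentials -/
def bas (h3 : Stmt_TBAS) (htr : Algebra.trdeg ℂ K = (n : Cardinal)) (a : Fin n → K)
    (ha : AlgebraicIndependent ℂ a) : Module.Basis (Fin n) K (Ω[K⁄ℂ]) :=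
  Module.Basis.mk (h3 htr a ha).1 (h3 htr a ha).2.ge

theorem bas_coe (h3 : Stmt_TBAS) (htr : Algebra.trdeg ℂ K = (n : Cardinal)) (a : Fin n → K)
    (ha : AlgebraicIndependent ℂ a) :
    (bas h3 htr a ha : Fin n → Ω[K⁄ℂ]) = fun i => KaehlerDifferential.D ℂ K (a i) := by
  funext i
  unfold bas
  rw [Module.Basis.mk_apply]

theorem dforms_ne (h3 : Stmt_TBAS) (htr : Algebra.trdeg ℂ K = (n : Cardinal)) (a : Fin n → K)
    (ha : AlgebraicIndependent ℂ a) : dforms a ≠ 0 := by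
  have h := FRM.iota_ne (bas h3 htr a ha)
  rwa [bas_coe] at h

theorem exists_dforms (h3 : Stmt_TBAS) (htr : Algebra.trdeg ℂ K = (n : Cardinal)) (a : Fin n → K)
    (ha : AlgebraicIndependent ℂ a) (ω : Forms n K) : ∃ g : K, ω = g • dforms a := by
  obtain ⟨g, hg⟩ := FRM.exists_smul (bas h3 htr a ha) ω
  rw [bas_coe] at hg
  exact ⟨g, hg⟩

theorem dlogs_eq (a : Fin n → K) : dlogs a = (∏ i, (a i)⁻¹) • dforms a := by
  have h1 := (exteriorPower.ιMulti K n).toMultilinearMap.map_smul_univ (fun i => (a i)⁻¹)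
    (fun i => KaehlerDifferential.D ℂ K (a i))
  exact h1

theorem exists_dlogs (h3 : Stmt_TBAS) (htr : Algebra.trdeg ℂ K = (n : Cardinal)) (ω : Forms n K)
    (hω : ω ≠ 0) : ∃ (g : K) (a : Fin n → K), g ≠ 0 ∧ (∀ i, a i ≠ 0) ∧ dlogs a ≠ 0 ∧
      ω = g • dlogs a := by
  obtain ⟨a, ha, ha0⟩ := exists_basis htr
  obtain ⟨g, hg⟩ := exists_dforms h3 htr a ha ω
  have hp : ∏ i, a i ≠ 0 := Finset.prod_ne_zero_iff.2 fun i _ => ha0 i
  have hp' : ∏ i, (a i)⁻¹ ≠ 0 := Finset.prod_ne_zero_iff.2 fun i _ => inv_ne_zero (ha0 i)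
  have hg0 : g ≠ 0 := by
    rintro rfl
    exact hω (by rw [hg, zero_smul])
  refine ⟨g * ∏ i, a i, a, mul_ne_zero hg0 hp, ha0, ?_, ?_⟩
  · rw [dlogs_eq]
    exact smul_ne_zero hp' (dforms_ne h3 htr a ha)
  · rw [dlogs_eq, smul_smul, mul_assoc, ← Finset.prod_mul_distrib]
    have h1 : ∀ i ∈ (Finset.univ : Finset (Fin n)), a i * (a i)⁻¹ = 1 := fun i _ =>
      mul_inv_cancel₀ (ha0 i)
    rw [Finset.prod_congr rfl h1, Finset.prod_const_one, mul_one]
    exact hg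

end PUL

theorem t_PUL (h1 : Stmt_EXF) (h2 : Stmt_FSM) (h3 : Stmt_TBAS) (h4 : Stmt_TDR) : Stmt_PUL := by
  intro n X G φ _ S hn ω hω
  have := S.tower
  have := S.fin
  obtain ⟨g, a, hg, ha, hda, hω'⟩ := PUL.exists_dlogs h3 X.trdeg ω hω
  have hst : stdForm n ≠ 0 := PUL.dforms_ne h3 (h4 n).1 _ (h4 n).2
  obtain ⟨h, hh⟩ := PUL.exists_dforms h3 (h4 n).1 _ (h4 n).2
    (algebraMap X.K (Rat n) g • dlogs fun i => algebraMap X.K (Rat n) (a i))
  change _ = h • stdForm n at hh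
  by_cases h0 : h = 0
  · refine ⟨1, one_ne_zero, fun v' v e he => ?_⟩
    exfalso
    have h5 := (h1 v' v e X.trdeg hn he g a hg ha hda).1
    rw [h0, zero_smul] at hh
    refine smul_ne_zero ?_ h5 hh
    exact (map_ne_zero _).2 hg
  · refine ⟨h, h0, fun v' v e he => ?_⟩
    have h5 := (h1 v' v e X.trdeg hn he g a hg ha hda).2
    rw [hω', ← h5, hh]
    exact h2 (h4 n).1 v' h (stdForm n) hn h0 hst

end

end MldGeo
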