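import Pool.Agent.MldGeo.Stmts1

/-!
# The order of a wedge of differentials of regular functions
-/

namespace MldGeo

namespace REG

section ord

variable {n : ℕ} {K : Type} [Field K] [Algebra ℂ K] (v : DivVal n K)

lemma ord_one : v.ord 1 = 0 := by
  have := v.ord_const 1
  rwa [map_one] at this

lemma ord_inv {a : K} (ha : a ≠ 0) : v.ord a⁻¹ = - v.ord a := by
  have h := v.ord_mul a a⁻¹ ha (inv_ne_zero ha)
  rw [mul_inv_cancel₀ ha, ord_one] at h
  omega

lemma ord_neg {a : K} (ha : a ≠ 0) : v.ord (-a) = v.ord a := by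
  have h1 : v.ord (-1) = 0 := by
    have := v.ord_const (-1)
    rwa [map_neg, map_one] at this
  rw [← neg_one_mul, v.ord_mul _ _ (neg_ne_zero.2 one_ne_zero) ha, h1, zero_add]

variable {v}

lemma ge_zero (k : ℤ) : v.Ge k 0 := Or.inl rfl

lemma ge_one : v.Ge 0 1 := Or.inr (ord_one v).ge

lemma ge_mul {k l : ℤ} {a b : K} (ha : v.Ge k a) (hb : v.Ge l b) : v.Ge (k + l) (a * b) := by
  by_cases ha0 : a = 0
  · left; rw [ha0, zero_mul]
  by_cases hb0 : b = 0
  · left; rw [hb0, mul_zero]
  right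
  rw [v.ord_mul a b ha0 hb0]
  have h1 := ha.resolve_left ha0
  have h2 := hb.resolve_left hb0
  omega

lemma ge_add {k : ℤ} {a b : K} (ha : v.Ge k a) (hb : v.Ge k b) : v.Ge k (a + b) := by
  by_cases ha0 : a = 0
  · rw [ha0, zero_add]; exact hb
  by_cases hb0 : b = 0
  · rw [hb0, add_zero]; exact ha
  by_cases h0 : a + b = 0
  · exact Or.inl h0
  right
  have h1 := ha.resolve_left ha0
  have h2 := hb.resolve_left hb0
  exact (le_min h1 h2).trans (v.ord_add a b ha0 hb0 h0)

lemma ge_neg {k : ℤ} {a : K} (ha : v.Ge k a) : v.Ge k (-a) := by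
  rcases ha with h | h
  · left; rw [h, neg_zero]
  · by_cases h0 : a = 0
    · left; rw [h0, neg_zero]
    · right; rwa [ord_neg v h0]

lemma ge_sum {ι : Type*} (s : Finset ι) (f : ι → K) {k : ℤ} (h : ∀ i ∈ s, v.Ge k (f i)) :
    v.Ge k (∑ i ∈ s, f i) := by
  classical
  induction s using Finset.induction_on with
  | empty => rw [Finset.sum_empty]; exact ge_zero k
  | insert a s ha ih =>
    rw [Finset.sum_insert ha]
    exact ge_add (h a (Finset.mem_insert_self a s))
      (ih fun i hi => h i (Finset.mem_insert_of_mem hi))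

lemma ge_prod {ι : Type*} (s : Finset ι) (f : ι → K) (h : ∀ i ∈ s, v.Ge 0 (f i)) :
    v.Ge 0 (∏ i ∈ s, f i) := by
  classical
  induction s using Finset.induction_on with
  | empty => rw [Finset.prod_empty]; exact ge_one
  | insert a s ha ih =>
    rw [Finset.prod_insert ha]
    have := ge_mul (h a (Finset.mem_insert_self a s))
      (ih fun i hi => h i (Finset.mem_insert_of_mem hi))
    rwa [add_zero] at this

lemma ge_sign {k : ℤ} {ι : Type*} [Fintype ι] [DecidableEq ι] (σ : Equiv.Perm ι) {a : K}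
    (ha : v.Ge k a) : v.Ge k (Equiv.Perm.sign σ • a) := by
  rcases Int.units_eq_one_or (Equiv.Perm.sign σ) with h | h
  · rw [h, one_smul]; exact ha
  · rw [h, Units.neg_smul, one_smul]; exact ge_neg ha

lemma ge_det {ι : Type*} [Fintype ι] [DecidableEq ι] (M : Matrix ι ι K)
    (h : ∀ i j, v.Ge 0 (M i j)) : v.Ge 0 M.det := by
  rw [Matrix.det_apply]
  exact ge_sum _ _ fun σ _ => ge_sign σ (ge_prod _ _ fun i _ => h _ _)

lemma ge_mul_det {ι : Type*} [Fintype ι] [DecidableEq ι] (M : Matrix ι ι K) (i₀ : ι) (t : K)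
    (h : ∀ i j, i ≠ i₀ → v.Ge 0 (M i j)) (h0 : ∀ j, v.Ge 1 (t * M i₀ j)) :
    v.Ge 1 (t * M.det) := by
  rw [Matrix.det_apply, Finset.mul_sum]
  refine ge_sum _ _ fun σ _ => ?_
  rw [mul_smul_comm]
  refine ge_sign σ ?_
  rw [← Finset.mul_prod_erase Finset.univ (fun i => M (σ i) i) (Finset.mem_univ (σ.symm i₀)),
    ← mul_assoc, Equiv.apply_symm_apply]
  have h1 := ge_mul (h0 (σ.symm i₀)) (ge_prod (v := v) (Finset.univ.erase (σ.symm i₀))
    (fun i => M (σ i) i) (fun i hi => h _ _ (by
      intro e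
      apply (Finset.mem_erase.1 hi).1
      rw [← e, Equiv.symm_apply_apply])))
  rwa [add_zero] at h1

end ord

/-- An alternating map is given by its value on a basis. -/
lemma alt_eq {K V N : Type*} [Field K] [AddCommGroup V] [Module K V] [AddCommGroup N] [Module K N]
    {ι : Type*} [Fintype ι] [DecidableEq ι] (e : Module.Basis ι K V) (f : V [⋀^ι]→ₗ[K] N)
    (w : ι → V) : f w = e.det w • f e := by
  have h : f = (LinearMap.toSpanSingleton K N (f e)).compAlternatingMap e.det := by
    refine Module.Basis.ext_alternating e fun i hi => ?_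
    let σ : Equiv.Perm ι := Equiv.ofBijective i (Finite.injective_iff_bijective.1 hi)
    change f (e ∘ σ) = e.det (e ∘ σ) • f e
    rw [AlternatingMap.map_perm, AlternatingMap.map_perm, Module.Basis.det_self]
    rcases Int.units_eq_one_or (Equiv.Perm.sign σ) with h | h
    · rw [h, one_smul, one_smul, one_smul]
    · rw [h, Units.neg_smul, one_smul, Units.neg_smul, one_smul, neg_smul, one_smul]
  conv_lhs => rw [h]
  rfl

end REG

open REG in
theorem t_REG (hFRA : Stmt_FRA) (hLOGD : Stmt_LOGD) (hTBAS : Stmt_TBAS) (hFRM : Stmt_FRM) :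
    Stmt_REG := by
  intro n K _ _ htr v a hn hge hai
  obtain ⟨m, rfl⟩ : ∃ m, n = m + 1 := ⟨n - 1, by omega⟩
  obtain ⟨t, u, hF⟩ := (hFRA v).1
  obtain ⟨ht0, ht1, -⟩ := id hF
  obtain ⟨hF0, -, hFo⟩ := hFRM htr v t u hF
  obtain ⟨hli, hsp⟩ := hTBAS htr _ ((hFRA v).2 t u hF)
  obtain ⟨hli', hsp'⟩ := hTBAS htr _ hai
  set x : Fin (m + 1) → K := Fin.cons t u with hx
  have hx0 : x 0 = t := rfl
  have hxs : ∀ j : Fin m, x j.succ = u j := fun j => rfl
  have hxge : ∀ j, v.Ge 0 (x j) := by
    intro j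
    refine Fin.cases ?_ ?_ j
    · right; rw [hx0, ht1]; norm_num
    · intro i
      right
      have h1 := (hF.2.2 (MvPolynomial.X i) (MvPolynomial.X_ne_zero i)).2
      rw [MvPolynomial.aeval_X] at h1
      rw [hxs, h1]
  let bs : Module.Basis (Fin (m + 1)) K (Ω[K⁄ℂ]) := Module.Basis.mk hli hsp.ge
  have hbs : ∀ i, bs i = KaehlerDifferential.D ℂ K (x i) := fun i => Module.Basis.mk_apply hli hsp.ge i
  let ba : Module.Basis (Fin (m + 1)) K (Ω[K⁄ℂ]) := Module.Basis.mk hli' hsp'.ge
  have hba : ∀ i, ba i = KaehlerDifferential.D ℂ K (a i) := fun i =>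
    Module.Basis.mk_apply hli' hsp'.ge i
  have hbsf : (bs : Fin (m + 1) → Ω[K⁄ℂ]) = fun i => KaehlerDifferential.D ℂ K (x i) := funext hbs
  have hbaf : (ba : Fin (m + 1) → Ω[K⁄ℂ]) = fun i => KaehlerDifferential.D ℂ K (a i) := funext hba
  let E : Fin (m + 1) → Derivation ℂ K K := fun i =>
    (bs.coord i).compDer (KaehlerDifferential.D ℂ K)
  have hE : ∀ i b, E i b = bs.repr (KaehlerDifferential.D ℂ K b) i := fun i b => rfl
  have hEx : ∀ i j, E i (x j) = if j = i then 1 else 0 := by
    intro i j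
    rw [hE, ← hbs, Module.Basis.repr_self, Finsupp.single_apply]
  let A : Fin (m + 1) → Derivation ℂ K K := fun i =>
    (ba.coord i).compDer (KaehlerDifferential.D ℂ K)
  have hA : ∀ i b, A i b = ba.repr (KaehlerDifferential.D ℂ K b) i := fun i b => rfl
  have hAa : ∀ i j, A i (a j) = if j = i then 1 else 0 := by
    intro i j
    rw [hA, ← hba, Module.Basis.repr_self, Finsupp.single_apply]
  -- the form of the frame
  have hFr : frameForm t u = t⁻¹ • exteriorPower.ιMulti K (m + 1) bs := by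
    unfold frameForm dlog
    have e1 : (Fin.cons (t⁻¹ • KaehlerDifferential.D ℂ K t) fun j => KaehlerDifferential.D ℂ K (u j) :
        Fin (m + 1) → Ω[K⁄ℂ]) =
        Function.update (fun i => KaehlerDifferential.D ℂ K (x i)) 0
          (t⁻¹ • KaehlerDifferential.D ℂ K t) := by
      funext i
      refine Fin.cases ?_ ?_ i
      · simp
      · intro j
        simp [hxs]
    have e2 : Function.update (fun i => KaehlerDifferential.D ℂ K (x i)) 0
        (KaehlerDifferential.D ℂ K t) = fun i => KaehlerDifferential.D ℂ K (x i) := by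
      rw [← hx0]
      exact Function.update_eq_self 0 _
    rw [e1, AlternatingMap.map_update_smul, e2, hbsf]
  have hbF : exteriorPower.ιMulti K (m + 1) bs = t • frameForm t u := by
    rw [hFr, smul_smul, mul_inv_cancel₀ ht0, one_smul]
  -- the logarithmic derivation
  let D0 : Derivation ℂ K K := t • E 0
  have hD0 : ∀ b, D0 b = t * E 0 b := fun b => rfl
  have hD0t : D0 t = t := by
    rw [hD0, ← hx0, hEx]
    simp
  have hD0u : ∀ j, D0 (u j) = 0 := by
    intro j
    rw [hD0, ← hxs, hEx]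
    simp
  have L0 := hLOGD htr v t u hF D0 (by rw [hD0t]; exact Or.inr ht1.ge)
    (fun j => by rw [hD0u]; exact Or.inl rfl)
  have L0b := L0.2 (fun j => by rw [hD0u]; exact Or.inl rfl)
  have L1 : ∀ j : Fin m, ∀ (b : K) (k : ℤ), v.Ge k b → v.Ge k (E j.succ b) := by
    intro j
    refine (hLOGD htr v t u hF (E j.succ) ?_ ?_).1
    · left
      rw [← hx0, hEx, if_neg (Fin.succ_ne_zero j).symm]
    · intro i
      rw [← hxs, hEx]
      split_ifs
      · exact ge_one
      · left; rfl
  -- the first part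
  have hda : dforms a = (t * bs.det ba) • frameForm t u := by
    unfold dforms
    rw [alt_eq bs (exteriorPower.ιMulti K (m + 1)) (fun i => KaehlerDifferential.D ℂ K (a i)), hbF,
      smul_smul, hbaf, mul_comm]
  have hdet0 : bs.det ba ≠ 0 := (bs.isUnit_det ba).ne_zero
  have hge1 : v.Ge 1 (t * bs.det ba) := by
    rw [Module.Basis.det_apply]
    refine ge_mul_det _ 0 t ?_ ?_
    · intro i j hi
      obtain ⟨k, rfl⟩ := Fin.exists_succ_eq.2 hi
      rw [Module.Basis.toMatrix_apply, hba]
      exact L1 k (a j) 0 (hge j)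
    · intro j
      rw [Module.Basis.toMatrix_apply, hba]
      exact L0b (a j) (hge j)
  have h1 : 1 ≤ v.logOrd (dforms a) := by
    rw [hda, hFo _ (mul_ne_zero ht0 hdet0)]
    exact hge1.resolve_left (mul_ne_zero ht0 hdet0)
  refine ⟨h1, fun hreg => le_antisymm ?_ h1⟩
  -- the second part
  have hAreg : ∀ i b, v.Ge 0 b → v.Ge 0 (A i b) := by
    intro i
    refine hreg (A i) ?_
    intro j
    rw [hAa]
    split_ifs
    · exact ge_one
    · left; rfl
  have hN0 : ba.det bs ≠ 0 := (ba.isUnit_det bs).ne_zero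
  have hNge : v.Ge 0 (ba.det bs) := by
    rw [Module.Basis.det_apply]
    refine ge_det _ ?_
    intro i j
    rw [Module.Basis.toMatrix_apply, hbs]
    exact hAreg i (x j) (hxge j)
  have hN : dforms a = ((ba.det bs)⁻¹ * t) • frameForm t u := by
    have e1 := alt_eq ba (exteriorPower.ιMulti K (m + 1)) bs
    have e2 : exteriorPower.ιMulti K (m + 1) ba = dforms a := by rw [hbaf]; rfl
    rw [e2, hbF] at e1
    rw [← smul_smul, e1, smul_smul, inv_mul_cancel₀ hN0, one_smul]
  rw [hN, hFo _ (mul_ne_zero (inv_ne_zero hN0) ht0), v.ord_mul _ _ (inv_ne_zero hN0) ht0, ht1,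
    ord_inv v hN0]
  have := hNge.resolve_left hN0
  omega

end MldGeo
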