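import Pool.Agent.MldGeo.Stmts4

/-!
# Homogeneous splittings exist
-/

namespace MldGeo

noncomputable section

open TorusAction

namespace SPL

/-- Every weight is the weight of a nonzero homogeneous rational function. -/
theorem exists_hom {n m : ℕ} {X : Germ n} (A : TorusAction X m) (u : Fin m → ℤ) :
    ∃ h : X.K, h ≠ 0 ∧ A.Hom u h := by
  let W : AddSubgroup (Fin m → ℤ) :=
    { carrier := {u | ∃ h : X.K, h ≠ 0 ∧ A.Hom u h}
      add_mem' := by
        rintro a b ⟨h, h0, hh⟩ ⟨k, k0, hk⟩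
        exact ⟨h * k, mul_ne_zero h0 k0, hh.mul hk⟩
      zero_mem' := ⟨1, one_ne_zero, Hom.one⟩
      neg_mem' := by
        rintro a ⟨h, h0, hh⟩
        exact ⟨h⁻¹, inv_ne_zero h0, hh.inv h0⟩ }
  have h1 : AddSubgroup.closure {u | A.gr u ≠ ⊥} ≤ W := by
    rw [AddSubgroup.closure_le]
    intro u hu
    obtain ⟨r, hr, hr0⟩ := (Submodule.ne_bot_iff _).1 hu
    exact ⟨(r : X.K), coe_ne hr0, Hom.of_mem hr⟩
  rw [A.effective] at h1
  exact h1 (AddSubgroup.mem_top u)

/-- The function attached to a family of nonzero functions. -/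
def chi {m : ℕ} {K : Type} [Field K] (f : Fin m → K) (u : Fin m → ℤ) : K := ∏ i, f i ^ u i

theorem chi_hom {n m : ℕ} {X : Germ n} (A : TorusAction X m) (f : Fin m → X.K)
    (hf : ∀ i, f i ≠ 0) (hh : ∀ i, A.Hom (Pi.single i 1) (f i)) (u : Fin m → ℤ) :
    A.Hom u (chi f u) := by
  have h1 : ∀ s : Finset (Fin m),
      A.Hom (∑ i ∈ s, u i • (Pi.single i (1 : ℤ) : Fin m → ℤ)) (∏ i ∈ s, f i ^ u i) := by
    intro s
    classical
    induction s using Finset.induction_on with
    | empty => simpa using (Hom.one (A := A))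
    | insert a s ha ih =>
      rw [Finset.sum_insert ha, Finset.prod_insert ha]
      exact ((hh a).zpow (hf a) (u a)).mul ih
  have h2 : (∑ i, u i • (Pi.single i (1 : ℤ) : Fin m → ℤ)) = u := by
    ext j
    simp [Finset.sum_apply, Pi.single_apply]
  have h3 := h1 Finset.univ
  rw [h2] at h3
  exact h3

end SPL

theorem t_SPL : Stmt_SPL := by
  intro n m X A
  choose f f0 fh using fun i : Fin m => SPL.exists_hom A (Pi.single i 1)
  exact ⟨{
    χ := SPL.chi f
    zero := by simp [SPL.chi]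
    add := fun u w => by
      unfold SPL.chi
      rw [← Finset.prod_mul_distrib]
      exact Finset.prod_congr rfl fun i _ => by rw [Pi.add_apply, zpow_add₀ (f0 i)]
    hom := SPL.chi_hom A f f0 fh }⟩

end

end MldGeo
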