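import Pool.Agent.MldGeo.Stmts3
import Pool.Agent.MldGeo.Ord
import Pool.Agent.MldGeo.FRM
import Pool.Agent.MldGeo.RED

/-!
# TDC: the toric dictionary
-/

namespace MldGeo

open MldGap MldAcc

noncomputable section

namespace TDC

/-! ### integral vectors -/

section Lin

variable {n : ℕ}

theorem form_apply (u : Fin n → ℤ) (y : Fin n → ℝ) : form u y = ∑ i, (u i : ℝ) * y i := by
  unfold form
  rw [LinearMap.sum_apply]
  exact Finset.sum_congr rfl fun i _ => by simp

theorem form_toR (u z : Fin n → ℤ) : form u (toR z) = (pair u z : ℝ) := by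
  rw [form_apply]
  unfold toR pair
  push_cast
  rfl

theorem toR_zero : toR (0 : Fin n → ℤ) = 0 := by
  funext i
  simp [toR]

theorem toR_add (y z : Fin n → ℤ) : toR (y + z) = toR y + toR z := by
  funext i
  simp [toR]

theorem toR_neg (y : Fin n → ℤ) : toR (-y) = -toR y := by
  funext i
  simp [toR]

theorem toR_smul (k : ℤ) (y : Fin n → ℤ) : toR (k • y) = (k : ℝ) • toR y := by
  funext i
  simp [toR]

theorem toR_inj {y z : Fin n → ℤ} (h : toR y = toR z) : y = z := by
  funext i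
  have := congrFun h i
  simpa [toR] using this

theorem pair_smul (u y : Fin n → ℤ) (k : ℤ) : pair u (k • y) = k * pair u y := by
  unfold pair
  rw [Finset.mul_sum]
  exact Finset.sum_congr rfl fun i _ => by simp; ring

theorem pair_add_left (u w y : Fin n → ℤ) : pair (u + w) y = pair u y + pair w y := by
  unfold pair
  rw [← Finset.sum_add_distrib]
  exact Finset.sum_congr rfl fun i _ => by simp; ring

theorem pair_neg_left (u y : Fin n → ℤ) : pair (-u) y = -pair u y := by
  unfold pair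
  rw [← Finset.sum_neg_distrib]
  exact Finset.sum_congr rfl fun i _ => by simp

theorem pair_zero_left (y : Fin n → ℤ) : pair 0 y = 0 := by
  simp [pair]

theorem pair_single (y : Fin n → ℤ) (i : Fin n) : pair (Pi.single i 1) y = y i := by
  classical
  unfold pair
  rw [Finset.sum_eq_single i (fun j _ hj => by simp [Pi.single_eq_of_ne hj])
    (fun h => absurd (Finset.mem_univ i) h)]
  simp

/-- The lattice of integral vectors. -/
def lat (n : ℕ) : AddSubgroup (Fin n → ℝ) where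
  carrier := {y | ∃ z : Fin n → ℤ, y = toR z}
  zero_mem' := ⟨0, toR_zero.symm⟩
  add_mem' := by
    rintro _ _ ⟨y, rfl⟩ ⟨z, rfl⟩
    exact ⟨y + z, (toR_add y z).symm⟩
  neg_mem' := by
    rintro _ ⟨y, rfl⟩
    exact ⟨-y, (toR_neg y).symm⟩

theorem mem_lat {y : Fin n → ℝ} : y ∈ lat n ↔ ∃ z : Fin n → ℤ, y = toR z := Iff.rfl

theorem discrete_lat (n : ℕ) : DiscreteTopology (lat n) := by
  rw [discreteTopology_iff_isOpen_singleton_zero]
  have h1 : IsOpen ((fun y : lat n => (y : Fin n → ℝ)) ⁻¹' Metric.ball 0 1) :=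
    Metric.isOpen_ball.preimage continuous_subtype_val
  convert h1 using 1
  ext ⟨y, z, rfl⟩
  simp only [Set.mem_singleton_iff, Set.mem_preimage, Metric.mem_ball, dist_zero_right]
  constructor
  · intro h
    have h2 : toR z = 0 := congrArg Subtype.val h
    rw [h2, norm_zero]
    exact zero_lt_one
  · intro h
    apply Subtype.ext
    show toR z = 0
    funext i
    have h2 := (norm_le_pi_norm (toR z) i).trans_lt h
    have h3 : |(z i : ℝ)| < 1 := h2
    have h4 : |z i| < 1 := by exact_mod_cast h3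
    have h5 : z i = 0 := Int.abs_lt_one_iff.1 h4
    simp [toR, h5]

/-- Every nonzero integral vector is a multiple of a primitive one. -/
theorem exists_primitive (z : Fin n → ℤ) (hz : z ≠ 0) :
    ∃ (k : ℤ) (z0 : Fin n → ℤ), 1 ≤ k ∧ z = k • z0 ∧ ∃ u, pair u z0 = 1 := by
  classical
  let k : ℤ := Finset.univ.gcd z
  have hk0 : k ≠ 0 := by
    intro h
    apply hz
    funext i
    exact Finset.gcd_eq_zero_iff.1 h i (Finset.mem_univ i)
  have hkn : 0 ≤ k := by
    have h1 : normalize k = k := Finset.normalize_gcd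
    rw [← h1, ← Int.abs_eq_normalize]
    exact abs_nonneg k
  obtain ⟨z0, h1, h2⟩ := Finset.extract_gcd z (s := Finset.univ)
    (by
      by_contra hne
      apply hz
      funext i
      exact absurd ⟨i, Finset.mem_univ i⟩ hne)
  refine ⟨k, z0, by omega, ?_, ?_⟩
  · funext i
    have := h1 i (Finset.mem_univ i)
    rw [Pi.smul_apply, smul_eq_mul]
    exact this
  · have h3 : ∃ u : Fin n → ℤ, ∑ i, z0 i * u i = Finset.univ.gcd z0 := by
      have h4 := (Finset.gcd_eq_sum_mul Finset.univ z0 : ∃ g : Fin n → ℤ, _)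
      obtain ⟨g, hg⟩ := h4
      exact ⟨g, by rw [hg]⟩
    obtain ⟨u, hu⟩ := h3
    refine ⟨u, ?_⟩
    unfold pair
    rw [← h2, ← hu]
    exact Finset.sum_congr rfl fun i _ => mul_comm _ _

end Lin


/-! ### characters -/

section Chi

variable {n : ℕ} {K : Type} [Field K] [Algebra ℂ K] {χ : (Fin n → ℤ) → K}

theorem chi_ne (hχ : TorusField χ) (u : Fin n → ℤ) : χ u ≠ 0 := by
  intro h
  have h1 := hχ.add u (-u)
  rw [add_neg_cancel, hχ.zero, h, zero_mul] at h1
  exact one_ne_zero h1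

theorem ord_chi (hχ : TorusField χ) (v : DivVal n K) (u : Fin n → ℤ) :
    v.ord (χ u) = pair u (ordVec χ v) := by
  classical
  let φ : (Fin n → ℤ) →+ ℤ := AddMonoidHom.mk' (fun u => v.ord (χ u)) fun a b => by
    show v.ord (χ (a + b)) = v.ord (χ a) + v.ord (χ b)
    rw [hχ.add, v.ord_mul _ _ (chi_ne hχ a) (chi_ne hχ b)]
  have h1 : u = ∑ i, u i • (Pi.single i 1 : Fin n → ℤ) := by
    funext j
    rw [Finset.sum_apply]
    simp [Pi.single_apply]
  have h2 : φ u = ∑ i, u i • φ (Pi.single i 1) := by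
    conv_lhs => rw [h1]
    rw [map_sum]
    exact Finset.sum_congr rfl fun i _ => map_zsmul φ _ _
  have h3 : φ u = v.ord (χ u) := rfl
  rw [← h3, h2]
  rfl

theorem torForm_ne (hTBAS : Stmt_TBAS) (hχ : TorusField χ)
    (htr : Algebra.trdeg ℂ K = (n : Cardinal)) : torForm χ ≠ 0 := by
  obtain ⟨e, he⟩ := RED.dlog_basis hTBAS htr _ hχ.indep
  have h1 : torForm χ = exteriorPower.ιMulti K n (e : Fin n → Ω[K⁄ℂ]) := by
    unfold torForm dlogs
    congr 1
    funext i
    exact (he i).symm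
  rw [h1]
  exact FRM.iota_ne e

theorem ordVec_gauss {y : Fin n → ℤ} {v : DivVal n K} (h : Gauss χ y v) : ordVec χ v = y := by
  funext i
  show v.ord (χ (Pi.single i 1)) = y i
  rw [h.chi, pair_single]

end Chi

/-! ### valuations -/

section Val

variable {n : ℕ} {X : Germ n}

theorem at_through {v : DivVal n X.K} (h : X.At v) : X.Through v := by
  refine ⟨h.1, fun a ha => ?_⟩
  by_contra hne
  have h0 : 0 < v.ord (a : X.K) := lt_of_le_of_ne (h.1 a) (Ne.symm hne)
  obtain ⟨y, i, hi, hyi⟩ := X.max.exists_inv ha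
  have h1 : v.Ge 1 ((y : X.K) * a) := by
    have := DivVal.Ge.mul (DivVal.Ge.of_le (h.1 y)) (DivVal.Ge.of_le (v := v) (k := 1) (a := (a : X.K)) h0)
    simpa using this
  have h2 : v.Ge 1 (i : X.K) := by
    by_cases hi0 : i = 0
    · exact Or.inl (by rw [hi0]; rfl)
    · exact Or.inr (h.2 i hi hi0)
  have h3 := h1.add h2
  have h4 : (y : X.K) * a + i = 1 := by exact_mod_cast congrArg Subtype.val hyi
  rw [h4] at h3
  have h5 := h3.le one_ne_zero
  rw [DivVal.ord_one] at h5
  omega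

end Val

/-- The exponents of the characters in an ideal. -/
def expo {n : ℕ} (X : Germ n) (χ : (Fin n → ℤ) → X.K) (I : Ideal X.R) :
    Set ((Fin n → ℝ) →ₗ[ℝ] ℝ) :=
  {m | ∃ u : Fin n → ℤ, ∃ h : χ u ∈ X.R, (⟨χ u, h⟩ : X.R) ∈ I ∧ m = form u}

theorem ord_expo {n : ℕ} {X : Germ n} {χ : (Fin n → ℤ) → X.K} (hIDO : Stmt_IDO)
    (hχ : TorusField χ) {B : Set (Fin n → ℤ)} {I : Ideal X.R} (hI : I ≠ ⊥)
    (hB : I = monIdeal X χ B) (v : DivVal n X.K) (hv : ∀ a : X.R, 0 ≤ v.ord a) :
    ord (expo X χ I) (toR (ordVec χ v)) = (idealOrd v I : ℝ) := by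
  obtain ⟨_, _, h3, h4⟩ := hIDO v hv
  have hspan : Ideal.span {a : X.R | ∃ u ∈ B, (a : X.K) = χ u} ≠ ⊥ := by
    intro h
    exact hI (hB.trans h)
  obtain ⟨a, ⟨u, hu, hau⟩, _, ha, _⟩ := h4 _ hspan
  have hau' : χ u ∈ X.R := hau ▸ a.2
  have haI : (⟨χ u, hau'⟩ : X.R) ∈ I := by
    rw [hB]
    exact Ideal.subset_span ⟨u, hu, rfl⟩
  have ha2 : v.ord (χ u) = idealOrd v I := by
    rw [← hau, ha]
    congr 1
    exact hB.symm
  unfold MldAcc.ord
  apply IsLeast.csInf_eq
  constructor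
  · refine ⟨form u, ⟨u, hau', haI, rfl⟩, ?_⟩
    show form u (toR (ordVec χ v)) = _
    rw [form_toR, ← ord_chi hχ, ha2]
  · rintro _ ⟨_, ⟨w, hw, hwI, rfl⟩, rfl⟩
    show (idealOrd v I : ℝ) ≤ form w (toR (ordVec χ v))
    rw [form_toR, ← ord_chi hχ]
    have h5 := h3 I ⟨χ w, hw⟩ hwI (fun h => chi_ne hχ w (congrArg Subtype.val h))
    exact_mod_cast h5

/-- Scaling of the order of a monomial ideal. -/
theorem ord_scale {n : ℕ} (A : Set ((Fin n → ℝ) →ₗ[ℝ] ℝ)) (k : ℝ) (hk : 0 ≤ k)
    (y : Fin n → ℝ) : ord A (k • y) = k * ord A y := by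
  unfold MldAcc.ord
  rw [← smul_eq_mul, ← Real.sInf_smul_of_nonneg hk]
  congr 1
  ext x
  constructor
  · rintro ⟨m, hm, rfl⟩
    exact ⟨m y, ⟨m, hm, rfl⟩, by simp⟩
  · rintro ⟨_, ⟨m, hm, rfl⟩, rfl⟩
    exact ⟨m, hm, by simp⟩

theorem disc_scale {n : ℕ} (T : ToricTriple n) (k : ℝ) (hk : 0 ≤ k) (y : Fin n → ℝ) :
    T.disc (k • y) = k * T.disc y := by
  unfold ToricTriple.disc
  rw [map_smul, smul_eq_mul, mul_sub, Finset.mul_sum]
  congr 1
  refine Finset.sum_congr rfl fun j _ => ?_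
  rw [ord_scale _ k hk]
  ring

/-- A form which is positive on nonzero integral vectors where the monoid is nonnegative. -/
theorem exists_pos {n : ℕ} {S : AddSubmonoid (Fin n → ℤ)} (hfg : S.FG)
    (hgen : AddSubgroup.closure (S : Set (Fin n → ℤ)) = ⊤) :
    ∃ u ∈ S, ∀ y : Fin n → ℤ, y ≠ 0 → (∀ w ∈ S, 0 ≤ pair w y) → 0 < pair u y := by
  classical
  obtain ⟨G, hG⟩ := hfg
  have hGS : ∀ g ∈ G, g ∈ S := fun g hg => hG ▸ AddSubmonoid.subset_closure hg
  refine ⟨∑ g ∈ G, g, S.sum_mem hGS, fun y hy hS => ?_⟩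
  have h1 : pair (∑ g ∈ G, g) y = ∑ g ∈ G, pair g y := by
    unfold pair
    rw [Finset.sum_comm]
    refine Finset.sum_congr rfl fun i _ => ?_
    rw [Finset.sum_apply, Finset.sum_mul]
  rw [h1]
  by_contra hle
  have h2 : ∀ g ∈ G, pair g y = 0 := by
    have h3 : ∑ g ∈ G, pair g y = 0 :=
      le_antisymm (not_lt.1 hle) (Finset.sum_nonneg fun g hg => hS g (hGS g hg))
    exact fun g hg => (Finset.sum_eq_zero_iff_of_nonneg fun g hg => hS g (hGS g hg)).1 h3 g hg
  have h4 : ∀ w ∈ S, pair w y = 0 := by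
    intro w hw
    rw [← hG] at hw
    induction hw using AddSubmonoid.closure_induction with
    | mem x hx => exact h2 x hx
    | zero => exact pair_zero_left y
    | add a b _ _ ha hb => rw [pair_add_left, ha, hb, add_zero]
  have h5 : ∀ w : Fin n → ℤ, pair w y = 0 := by
    intro w
    have hw : w ∈ AddSubgroup.closure (S : Set (Fin n → ℤ)) := by rw [hgen]; trivial
    induction hw using AddSubgroup.closure_induction with
    | mem x hx => exact h4 x hx
    | zero => exact pair_zero_left y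
    | add a b _ _ ha hb => rw [pair_add_left, ha, hb, add_zero]
    | neg a _ ha => rw [pair_neg_left, ha, neg_zero]
  apply hy
  funext i
  rw [← pair_single y i]
  exact h5 _

end TDC

open TDC in
theorem t_TDC (hMOI : Stmt_MOI) (hCON : Stmt_CON) (hTRAY : Stmt_TRAY) (hPSI : Stmt_PSI)
    (hGAV : Stmt_GAV) (hIDO : Stmt_IDO) (hFDL : Stmt_FDL) (hTBAS : Stmt_TBAS) : Stmt_TDC := by
  classical
  intro n X A χ S hn hT hG T D hInv hLC hEff hD
  have hχ : TorusField χ := hT.toTorusField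
  have htf := torForm_ne hTBAS hχ X.trdeg
  -- the monoid is pointed
  have hpt : ∀ u ∈ S, -u ∈ S → u = 0 := by
    intro u hu hnu
    by_contra hne
    have h1 := hT.pos u hu hne ((hT.mem_R u).1 hu)
    have h2 : (⟨χ (-u), (hT.mem_R _).1 hnu⟩ : X.R) * ⟨χ u, (hT.mem_R u).1 hu⟩ = 1 := by
      apply Subtype.ext
      show χ (-u) * χ u = 1
      rw [← hχ.add, neg_add_cancel, hχ.zero]
    have h3 : (1 : X.R) ∈ X.m := h2 ▸ X.m.mul_mem_left _ h1
    exact X.max.ne_top ((Ideal.eq_top_iff_one _).2 h3)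
  obtain ⟨r, ρ, hprim, hnonneg, hface, hcone, hint, hextr, y0, hy0⟩ := hCON S hT.fg hT.gen hpt
  obtain ⟨ψ, hψ⟩ := hPSI X A χ S hn hT hG T hInv
  -- the valuations of the rays
  choose vr hvr using fun i => hGAV χ hχ X.trdeg (ρ i) (hprim i)
  have htray := fun i => hTRAY X χ S hn hT (ρ i) (vr i) (hvr i) (hnonneg i)
  have hψρ : ∀ i, ψ (toR (ρ i)) = T.logDisc (vr i) := by
    intro i
    rw [hψ _ (htray i).1, ordVec_gauss (hvr i), (hvr i).form]
    simp
  have hcoef : ∀ i, ∃ P, T.Coeff P (1 - ψ (toR (ρ i))) := by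
    intro i
    obtain ⟨P, hP, hord⟩ := (htray i).2.2 (hface i)
    exact ⟨P, hP, vr i, hord, by rw [hψρ]; ring⟩
  have hlog : ∀ v : DivVal n X.K, X.Through v → 0 ≤ T.logDisc v := by
    intro v hv
    have h1 := hLC v hv
    unfold Triple.disc at h1
    have h2 : 0 ≤ ∑ j, T.r j * (idealOrd v (T.a j) : ℝ) := by
      refine Finset.sum_nonneg fun j _ => mul_nonneg (T.r_nonneg j) ?_
      exact_mod_cast (hIDO v hv.1).1 _ (T.a_ne j)
    linarith
  have hS0 : ∃ u ∈ S, ∀ y : Fin n → ℤ, y ≠ 0 → (∀ w ∈ S, 0 ≤ pair w y) → 0 < pair u y :=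
    exists_pos hT.fg hT.gen
  choose B hBS hB using fun j => hMOI X A χ S hT hG (T.a j) (hInv.2 j)
  have hρne : ∀ i, ρ i ≠ 0 := by
    intro i h
    obtain ⟨u, hu⟩ := hprim i
    rw [h] at hu
    simp [pair] at hu
  let T' : ToricTriple n :=
    { N := lat n
      discrete := discrete_lat n
      ι := Fin r
      fin := inferInstance
      ray := fun i => toR (ρ i)
      ray_mem := fun i => ⟨ρ i, rfl⟩
      ray_primitive := by
        rintro i t ht ⟨z, hz⟩
        obtain ⟨u, hu⟩ := hprim i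
        have h1 : form u (t • toR (ρ i)) = (pair u z : ℝ) := by rw [hz, form_toR]
        rw [map_smul, form_toR, hu, smul_eq_mul] at h1
        have h2 : t = (pair u z : ℝ) := by rw [← h1]; simp
        rw [h2] at ht ⊢
        have h3 : 0 < pair u z := by exact_mod_cast ht
        exact_mod_cast h3
      ray_extremal := hextr
      full := by
        rw [hint]
        refine ⟨toR y0, fun u hu hne => ?_⟩
        rw [form_toR]
        exact_mod_cast hy0 u hu hne
      pointed := by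
        obtain ⟨u, _, hu⟩ := hS0
        refine ⟨form u, fun i => ?_⟩
        rw [form_toR]
        exact_mod_cast hu _ (hρne i) (hnonneg i)
      b := fun i => 1 - ψ (toR (ρ i))
      b_nonneg := fun i => by
        obtain ⟨P, hP⟩ := hcoef i
        exact hEff P _ hP
      b_le_one := fun i => by
        have h1 := hlog _ (htray i).1
        rw [← hψρ] at h1
        linarith
      ψ := ψ
      ψ_ray := fun i => by ring
      J := T.J
      finJ := T.finJ
      r := T.r
      r_nonneg := T.r_nonneg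
      A := fun j => expo X χ (T.a j)
      A_nonempty := fun j => by
        by_contra hne
        apply T.a_ne j
        rw [hB j]
        unfold monIdeal
        rw [Ideal.span_eq_bot]
        rintro a ⟨u, hu, hau⟩
        exfalso
        apply hne
        refine ⟨form u, u, hau ▸ a.2, ?_, rfl⟩
        rw [hB j]
        exact Ideal.subset_span ⟨u, hu, rfl⟩
      A_ray := by
        rintro j _ ⟨u, hu, _, rfl⟩ i
        have h1 := hnonneg i u ((hT.mem_R u).2 hu)
        refine ⟨(pair u (ρ i)).toNat, ?_⟩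
        rw [form_toR]
        have h2 : ((pair u (ρ i)).toNat : ℤ) = pair u (ρ i) := Int.toNat_of_nonneg h1
        exact_mod_cast h2.symm }
  -- the discrepancies
  have hord : ∀ (v : DivVal n X.K), X.Through v → ∀ j,
      ord (T'.A j) (toR (ordVec χ v)) = (idealOrd v (T.a j) : ℝ) := fun v hv j =>
    ord_expo hIDO hχ (T.a_ne j) (hB j) v hv.1
  have hdisc : ∀ v : DivVal n X.K, X.Through v →
      T.disc v = v.logOrd (torForm χ) + T'.disc (toR (ordVec χ v)) := by
    intro v hv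
    have h1 : ∑ j, T.r j * (idealOrd v (T.a j) : ℝ) = ∑ j, T'.r j * ord (T'.A j) (toR (ordVec χ v)) :=
      Finset.sum_congr rfl fun j _ => by rw [hord v hv j]
    unfold Triple.disc ToricTriple.disc
    rw [h1, hψ v hv]
    ring
  -- the lattice points in the interior
  have hval : ∀ y ∈ T'.val, ∃ (k : ℤ) (z0 : Fin n → ℤ) (v : DivVal n X.K), 1 ≤ k ∧ X.At v ∧
      y = (k : ℝ) • toR z0 ∧ T.disc v = T'.disc (toR z0) := by
    rintro y ⟨⟨z, rfl⟩, hy⟩
    have hy' : toR z ∈ interior (coneOf fun i => toR (ρ i)) := hy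
    rw [hint] at hy'
    have hz : z ≠ 0 := by
      rintro rfl
      obtain ⟨w, hwS, hw⟩ : ∃ w ∈ S, w ≠ 0 := by
        by_contra hcon
        push Not at hcon
        have h1 : AddSubgroup.closure (S : Set (Fin n → ℤ)) ≤ ⊥ := by
          rw [AddSubgroup.closure_le]
          intro w hw
          exact hcon w hw
        rw [hT.gen] at h1
        have h2 : (Pi.single ⟨0, hn⟩ 1 : Fin n → ℤ) ∈ (⊥ : AddSubgroup (Fin n → ℤ)) :=
          h1 (AddSubgroup.mem_top _)
        have h3 := congrFun (AddSubgroup.mem_bot.1 h2) ⟨0, hn⟩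
        simp at h3
      have h1 := hy' w hwS hw
      rw [form_toR] at h1
      simp [pair] at h1
    obtain ⟨k, z0, hk, hz0, hu⟩ := exists_primitive z hz
    obtain ⟨v, hv⟩ := hGAV χ hχ X.trdeg z0 hu
    have hkR : (0 : ℝ) < k := by exact_mod_cast (by omega : 0 < k)
    have hpos : ∀ u ∈ S, u ≠ 0 → 0 < pair u z0 := by
      intro u hu hne
      have h1 := hy' u hu hne
      rw [form_toR, hz0, pair_smul] at h1
      push_cast at h1
      have h2 := (mul_pos_iff_of_pos_left hkR).1 h1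
      exact_mod_cast h2
    have hnn : ∀ u ∈ S, 0 ≤ pair u z0 := by
      intro u hu
      by_cases hne : u = 0
      · rw [hne, pair_zero_left]
      · exact (hpos u hu hne).le
    obtain ⟨h1, h2, _⟩ := hTRAY X χ S hn hT z0 v hv hnn
    refine ⟨k, z0, v, hk, h2 hpos, by rw [hz0, toR_smul], ?_⟩
    rw [hdisc v h1, ordVec_gauss hv, hv.form]
    simp
  have hlc : T'.LC := by
    intro y hy
    obtain ⟨k, z0, v, hk, hv, rfl, hd⟩ := hval y hy
    have hkR : (0 : ℝ) ≤ k := by exact_mod_cast (by omega : 0 ≤ k)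
    rw [disc_scale T' _ hkR, ← hd]
    exact mul_nonneg hkR (hLC v (at_through hv))
  have hval2 : ∀ v : DivVal n X.K, X.At v → toR (ordVec χ v) ∈ T'.val := by
    intro v hv
    refine ⟨⟨_, rfl⟩, ?_⟩
    show toR (ordVec χ v) ∈ interior (coneOf fun i => toR (ρ i))
    rw [hint]
    intro u hu hne
    rw [form_toR, ← ord_chi hχ]
    have h1 := hv.2 _ (hT.pos u hu hne ((hT.mem_R u).1 hu))
      (fun h => chi_ne hχ u (congrArg Subtype.val h))
    exact_mod_cast h1
  have hmld : T'.mld = T.mld := by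
    have hb1 : BddBelow (T'.disc '' T'.val) := by
      refine ⟨0, ?_⟩
      rintro _ ⟨y, hy, rfl⟩
      exact hlc y hy
    have hb2 : BddBelow {a : ℝ | ∃ v, X.At v ∧ T.disc v = a} := by
      refine ⟨0, ?_⟩
      rintro _ ⟨v, hv, rfl⟩
      exact hLC v (at_through hv)
    have hne1 : (T'.disc '' T'.val).Nonempty := by
      refine ⟨_, toR y0, ⟨⟨y0, rfl⟩, ?_⟩, rfl⟩
      show toR y0 ∈ interior (coneOf fun i => toR (ρ i))
      rw [hint]
      intro u hu hne
      rw [form_toR]
      exact_mod_cast hy0 u hu hne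
    have hne2 : {a : ℝ | ∃ v, X.At v ∧ T.disc v = a}.Nonempty := by
      obtain ⟨_, y, hy, rfl⟩ := hne1
      obtain ⟨k, z0, v, hk, hv, rfl, hd⟩ := hval y hy
      exact ⟨_, v, hv, rfl⟩
    apply le_antisymm
    · refine le_csInf hne2 ?_
      rintro _ ⟨v, hv, rfl⟩
      have h1 : T'.mld ≤ T'.disc (toR (ordVec χ v)) := csInf_le hb1 ⟨_, hval2 v hv, rfl⟩
      have h2 : 0 ≤ v.logOrd (torForm χ) := hFDL X.trdeg v _ hn (fun i => chi_ne hχ _) htf
      have h3 : (0 : ℝ) ≤ v.logOrd (torForm χ) := by exact_mod_cast h2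
      rw [hdisc v (at_through hv)]
      linarith
    · refine le_csInf hne1 ?_
      rintro _ ⟨y, hy, rfl⟩
      obtain ⟨k, z0, v, hk, hv, rfl, hd⟩ := hval y hy
      have hkR : (1 : ℝ) ≤ k := by exact_mod_cast hk
      have h1 : T.mld ≤ T.disc v := csInf_le hb2 ⟨v, hv, rfl⟩
      have h2 := hLC v (at_through hv)
      rw [disc_scale T' _ (by linarith), ← hd]
      nlinarith
  refine ⟨T', ⟨fun y => Iff.rfl, hcone, hint, hcoef, hψ, ⟨Equiv.refl _, fun j => ⟨rfl, fun m => Iff.rfl⟩⟩,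
    hdisc, hlc, hmld⟩, ?_, ?_⟩
  · intro i
    obtain ⟨P, hP⟩ := hcoef i
    by_cases h : 1 - ψ (toR (ρ i)) = 0
    · exact Or.inl h
    · exact Or.inr (hD.1 P _ hP h)
  · intro j
    by_cases h : T.r j = 0
    · exact Or.inl h
    · exact Or.inr (hD.2 j h)

end

end MldGeo
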