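import Pool.Agent.MldGeo.Stmts2b
import Pool.Agent.MldGap.Fam

/-!
# Sharp gaps for geometric minimal log discrepancies: assembly
-/

namespace MldGeo

open MldGap

noncomputable section

/-- TDG: toric germs. -/
def Stmt_TDG : Prop :=
  ∀ {n : ℕ} (X : Germ n) (A : TorusAction X n) (T : Triple X), 0 < n → IsEmpty T.J →
    A.InvTriple T → (∀ P b, T.Coeff P b → 0 ≤ b ∧ b ≤ 1) →
    ∃ G : ToricGerm n, G.mld = T.mld ∧ ∀ i, ∃ P, T.Coeff P (G.b i)

theorem lt_level {n l : ℕ} :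
    (l : ℝ) - 1 / ((sylvester (n - l + 1) : ℝ) - 1) < l := by
  have h2 := sylvester_real (n - l + 1)
  have h3 : 0 < 1 / ((sylvester (n - l + 1) : ℝ) - 1) := div_pos one_pos (by linarith)
  linarith

theorem toric_part (h : Stmt_TDG) {n p q : ℕ} (hn : 0 < n) (hp : 0 < p) (hq : 0 < q) {X : Germ n}
    (A : TorusAction X n) (T : Triple X) (hJ : IsEmpty T.J) (hA : A.InvTriple T)
    (hT : T.Hyperstandard q) (hlt : T.mld < (p : ℝ) / q) : T.mld ≤ levelBound n p q := by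
  obtain ⟨G, hG, hb⟩ := h X A T hn hJ hA (by
    intro P b hPb
    obtain ⟨c, m, hc, hm, rfl⟩ := hT P b hPb
    have hq' : (0 : ℝ) < q := by exact_mod_cast hq
    have hm' : (1 : ℝ) ≤ m := by exact_mod_cast hm
    have hc' : (c : ℝ) ≤ q := by exact_mod_cast hc
    have h1 : 0 ≤ (c : ℝ) / q / m := by positivity
    have h2 : (c : ℝ) / q ≤ 1 := by rw [div_le_one hq']; exact hc'
    have h3 : (c : ℝ) / q / m ≤ 1 := by
      rw [div_le_one (by linarith)]; linarith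
    constructor <;> linarith)
  have hG' : G.Hyperstandard q := by
    intro i
    obtain ⟨P, hP⟩ := hb i
    exact hT P _ hP
  rw [← hG] at hlt ⊢
  exact toric_bound hp hq G hG' hlt

theorem toric_part2 (h : Stmt_TDG) (hE : Stmt_EXA) {n l : ℕ} (hl : 1 ≤ l) (hln : l ≤ n) :
    IsGreatest {μ : ℝ | ∃ (X : Germ n) (A : TorusAction X n) (T : Triple X), IsEmpty T.J ∧
        A.InvTriple T ∧ T.Hyperstandard 1 ∧ T.mld = μ ∧ μ < l}
      ((l : ℝ) - 1 / ((sylvester (n - l + 1) : ℝ) - 1)) := by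
  constructor
  · obtain ⟨X, A, T, hJ, hA, hT, hm⟩ := hE (fun i : Fin n => den l i) (by omega)
      (fun i => den_pos l i)
    exact ⟨X, A, T, hJ, hA, hT, hm.trans (sum_inv_den n l hl hln), lt_level⟩
  · rintro _ ⟨X, A, T, hJ, hA, hT, rfl, hlt⟩
    have := toric_part h (p := l) (q := 1) (by omega) (by omega) one_pos A T hJ hA hT
      (by simpa using hlt)
    rwa [levelBound_int n l hl hln] at this

theorem quot_part (h1 : Stmt_MLQ) (h2 : Stmt_GEX) (h3 : Stmt_TEX) {n l : ℕ} (hl : 1 ≤ l)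
    (hln : l ≤ n) :
    IsGreatest {μ : ℝ | ∃ (G : Subgroup (GL (Fin n) ℂ)) (X : Germ n) (T : Triple X), Finite G ∧
        T.IsLogQuotient G ∧ T.mld = μ ∧ μ < l}
      ((l : ℝ) - 1 / ((sylvester (n - l + 1) : ℝ) - 1)) := by
  have hn : 0 < n := by omega
  constructor
  · obtain ⟨G, hG, hm⟩ := quot_attained n l hl hln
    obtain ⟨X, hX⟩ := h2 G
    obtain ⟨T, hT⟩ := h3 G X hn hX
    exact ⟨G, X, T, hG, hT, (h1 G T hn hT).trans hm, lt_level⟩
  · rintro _ ⟨G, X, T, hG, hT, rfl, hlt⟩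
    rw [h1 G T hn hT] at hlt ⊢
    have := quot_bound hl G hG hlt
    rwa [levelBound_int n l hl hln] at this

theorem free_part (h1 : Stmt_MLQ) (h2 : Stmt_GEX) (h3 : Stmt_TEX) (h4 : Stmt_FRE) {n : ℕ}
    (hn : 2 ≤ n) :
    ∃ (G : Subgroup (GL (Fin n) ℂ)) (X : Germ n) (T : Triple X), Finite G ∧ ActsFreely G ∧
      X.IsQuotient G ∧ IsEmpty T.J ∧ T.NoBoundary ∧
      T.mld = 1 - 4 / ((sylvester (n - 1) : ℝ) ^ 2 + 3) := by
  obtain ⟨N, rfl⟩ : ∃ N, n = N + 2 := ⟨n - 2, by omega⟩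
  obtain ⟨G, hG, hf, hm⟩ := fam_exists N
  obtain ⟨X, hX⟩ := h2 G
  obtain ⟨T, hT⟩ := h3 G X (by omega) hX
  exact ⟨G, X, T, hG, hf, hX, hT.1, (h4 G T hn hf hX hT.1).2 hT,
    (h1 G T (by omega) hT).trans hm⟩

theorem level_lt {n p q : ℕ} (hp : 0 < p) (hq : 0 < q) : levelBound n p q < (p : ℝ) / q := by
  have h := (gapSeq_pos (q := (q : ℝ)) (a := (p : ℝ) / q) (by exact_mod_cast hq)
      (by
        have h1 : (0 : ℝ) < p := by exact_mod_cast hp
        have h2 : (0 : ℝ) < q := by exact_mod_cast hq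
        positivity) n).1
  unfold levelBound
  linarith

end

end MldGeo
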