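import Pool.Agent.MldGeo.TDC
import Pool.Agent.MldGeo.AsmQ

/-!
# TDG: toric pairs with coefficients at most one
-/

namespace MldGeo

open MldGap MldAcc

namespace TDG

open TDC

/-- Toric pairs with coefficients at most one are log canonical. -/
theorem lc (hCON : Stmt_CON) (hTRAY : Stmt_TRAY) (hPSI : Stmt_PSI)
    (hGAV : Stmt_GAV) (hFDL : Stmt_FDL) (hTBAS : Stmt_TBAS) {n : ℕ} (X : Germ n)
    (A : TorusAction X n) (χ : (Fin n → ℤ) → X.K)
    (S : AddSubmonoid (Fin n → ℤ)) (hn : 0 < n) (hT : ToricCoord X χ S) (hG : GradedBy A χ S)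
    (T : Triple X) (hJ : IsEmpty T.J) (hInv : A.InvTriple T) (hb : ∀ P b, T.Coeff P b → b ≤ 1) :
    T.LC := by
  classical
  have hχ : TorusField χ := hT.toTorusField
  have htf := torForm_ne hTBAS hχ X.trdeg
  have hpt : ∀ u ∈ S, -u ∈ S → u = 0 := by
    intro u hu hnu
    by_contra hne
    have h1 := hT.pos u hu hne ((hT.mem_R u).1 hu)
    have h2 : (⟨χ (-u), (hT.mem_R _).1 hnu⟩ : X.R) * ⟨χ u, (hT.mem_R u).1 hu⟩ = 1 := by
      apply Subtype.ext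
      show χ (-u) * χ u = 1
      rw [← hχ.add, neg_add_cancel, hχ.zero]
    have h3 : (1 : X.R) ∈ X.m := h2 ▸ X.m.mul_mem_left _ h1
    exact X.max.ne_top ((Ideal.eq_top_iff_one _).2 h3)
  obtain ⟨r, ρ, hprim, hnonneg, hface, hcone, hint, hextr, y0, hy0⟩ := hCON S hT.fg hT.gen hpt
  obtain ⟨ψ, hψ⟩ := hPSI X A χ S hn hT hG T hInv
  choose vr hvr using fun i => hGAV χ hχ X.trdeg (ρ i) (hprim i)
  have htray := fun i => hTRAY X χ S hn hT (ρ i) (vr i) (hvr i) (hnonneg i)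
  have hψρ : ∀ i, 0 ≤ ψ (toR (ρ i)) := by
    intro i
    obtain ⟨P, hP, hord⟩ := (htray i).2.2 (hface i)
    have h1 : T.Coeff P (1 - T.logDisc (vr i)) := ⟨hP, vr i, hord, by ring⟩
    have h2 := hb P _ h1
    have h3 := hψ _ (htray i).1
    rw [ordVec_gauss (hvr i), (hvr i).form] at h3
    simp only [Int.cast_zero, zero_add] at h3
    rw [← h3]
    linarith
  intro v hv
  have h1 : T.disc v = T.logDisc v := by
    unfold Triple.disc
    rw [Finset.univ_eq_empty (α := T.J), Finset.sum_empty, sub_zero]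
  rw [h1, hψ v hv]
  have h2 : (0 : ℝ) ≤ (v.logOrd (torForm χ) : ℝ) := by
    exact_mod_cast hFDL X.trdeg v _ hn (fun i => chi_ne hχ _) htf
  have h3 : toR (ordVec χ v) ∈ coneOf (fun i => toR (ρ i)) := by
    rw [hcone]
    intro u hu
    rw [form_toR, ← ord_chi hχ v u]
    exact_mod_cast hv.1 ⟨χ u, (hT.mem_R u).1 hu⟩
  obtain ⟨c, hc, he⟩ := h3
  have h4 : 0 ≤ ψ (toR (ordVec χ v)) := by
    rw [he, map_sum]
    refine Finset.sum_nonneg fun i _ => ?_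
    rw [map_smul, smul_eq_mul]
    exact mul_nonneg (hc i) (hψρ i)
  linarith

end TDG

theorem t_TDG (hTOR : Stmt_TOR) (hCON : Stmt_CON) (hTRAY : Stmt_TRAY) (hPSI : Stmt_PSI)
    (hGAV : Stmt_GAV) (hFDL : Stmt_FDL) (hTBAS : Stmt_TBAS) (hTDC : Stmt_TDC) : Stmt_TDG := by
  intro n X A T hn hJ hInv hb
  obtain ⟨χ, S, hc, hg⟩ := hTOR X A
  have hLC : T.LC := TDG.lc hCON hTRAY hPSI hGAV hFDL hTBAS X A χ S hn hc hg T hJ hInv
    fun P b h => (hb P b h).2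
  obtain ⟨T', hM, -⟩ := hTDC X A χ S hn hc hg T Set.univ hInv hLC (fun P b h => (hb P b h).1)
    ⟨fun _ _ _ _ => Set.mem_univ _, fun _ _ => Set.mem_univ _⟩
  refine ⟨T'.toToricGerm, ?_, hM.coeff⟩
  rw [← hM.mld]
  obtain ⟨e, -⟩ := hM.ideals
  have hJ' : IsEmpty T'.J := ⟨fun j => hJ.false (e j)⟩
  unfold ToricGerm.mld ToricTriple.mld
  congr 1
  ext a
  simp only [Set.mem_setOf_eq, Set.mem_image, ToricTriple.val, ToricTriple.disc]
  constructor
  · rintro ⟨v, h1, h2, h3⟩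
    refine ⟨v, ⟨h1, h2⟩, ?_⟩
    rw [Finset.univ_eq_empty (α := T'.J), Finset.sum_empty, sub_zero, h3]
  · rintro ⟨v, ⟨h1, h2⟩, h3⟩
    rw [Finset.univ_eq_empty (α := T'.J), Finset.sum_empty, sub_zero] at h3
    exact ⟨v, h1, h2, h3⟩

end MldGeo
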