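import Pool.Agent.MldGeo.Stmts2

/-! Transcendence degree of the field of rational functions (module MLD_TDR). -/

namespace MldGeo

open MvPolynomial

noncomputable section

theorem TDR.indep (n : ℕ) :
    AlgebraicIndependent ℂ fun i : Fin n => pol (X i : MvPolynomial (Fin n) ℂ) := by
  have h := (algebraicIndependent_X (Fin n) ℂ).map'
    (f := IsScalarTower.toAlgHom ℂ (MvPolynomial (Fin n) ℂ) (Rat n))
    (IsFractionRing.injective (MvPolynomial (Fin n) ℂ) (Rat n))
  exact h

theorem t_TDR : Stmt_TDR := by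
  intro n
  refine ⟨?_, TDR.indep n⟩
  have h := trdeg_add_eq ℂ (MvPolynomial (Fin n) ℂ) (A := Rat n)
  have h0 : Algebra.IsAlgebraic (MvPolynomial (Fin n) ℂ) (Rat n) :=
    IsLocalization.isAlgebraic (R := MvPolynomial (Fin n) ℂ) (S := Rat n)
      (nonZeroDivisors (MvPolynomial (Fin n) ℂ))
  rw [trdeg_eq_zero (R := MvPolynomial (Fin n) ℂ) (A := Rat n), add_zero,
    MvPolynomial.trdeg_of_isDomain] at h
  rw [← h]
  simp

end

end MldGeo
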