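import Pool.Agent.MldGeo.Stmts2
import Pool.Agent.MldGeo.Ord

/-!
# TRF: log discrepancies of a log quotient
-/

set_option autoImplicit false

namespace MldGeo

open MvPolynomial

namespace TRF

/-- A valuation of the field of rational functions is determined by its values on polynomials. -/
theorem ord_eq {n : ℕ} (w w' : DivVal n (Rat n))
    (h : ∀ p : MvPolynomial (Fin n) ℂ, p ≠ 0 → w.ord (pol p) = w'.ord (pol p)) (a : Rat n) :
    w.ord a = w'.ord a := by
  obtain ⟨x, y, hy, rfl⟩ := IsFractionRing.div_surjective (A := MvPolynomial (Fin n) ℂ) a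
  have hy0 : y ≠ 0 := nonZeroDivisors.ne_zero hy
  by_cases hx : x = 0
  · subst hx
    simp [w.ord_zero, w'.ord_zero]
  · have hx' : algebraMap (MvPolynomial (Fin n) ℂ) (Rat n) x ≠ 0 := by
      simpa using hx
    have hy' : algebraMap (MvPolynomial (Fin n) ℂ) (Rat n) y ≠ 0 := by
      simpa using hy0
    rw [DivVal.ord_div w hx' hy', DivVal.ord_div w' hx' hy']
    have h1 := h x hx
    have h2 := h y hy0
    unfold pol at h1 h2
    rw [h1, h2]

/-- The log discrepancy upstairs. -/
theorem key (h2 : Stmt_PUL) (h5 : Stmt_TXT) {n : ℕ} {X : Germ n} {G : Subgroup (GL (Fin n) ℂ)}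
    {φ : X.R ≃ₐ[ℂ] invariants G} [Algebra X.K (Rat n)] (hS : QSetup X G φ) (hn : 0 < n)
    (T : Triple X) : ∃ h : Rat n, h ≠ 0 ∧ ∀ (v' : DivVal n (Rat n)) (v : DivVal n X.K) (e : ℕ),
      IsExt v' v e → T.logDisc v * e = v'.ord h + v'.logOrd (stdForm n) +
        ∑ i, T.c i * v'.ord (algebraMap X.K (Rat n) (T.f i)) := by
  obtain ⟨h, hh, H⟩ := h2 hS hn T.ω T.ω_ne
  refine ⟨h, hh, fun v' v e hE => ?_⟩
  have e1 := H v' v e hE
  have e2 := h5 X.trdeg v T.ω hn T.ω_ne
  have e3 : (e : ℝ) * (v.logOrd T.ω : ℝ) = (v'.ord h : ℝ) + (v'.logOrd (stdForm n) : ℝ) := by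
    exact_mod_cast e1
  unfold Triple.logDisc
  rw [e2, ← e3]
  have e4 : ∑ i, T.c i * (v'.ord (algebraMap X.K (Rat n) (T.f i)) : ℝ) =
      (∑ i, T.c i * (v.ord (T.f i) : ℝ)) * e := by
    rw [Finset.sum_mul]
    refine Finset.sum_congr rfl fun i _ => ?_
    rw [hE.2]
    push_cast
    ring
  rw [e4]
  push_cast
  ring

end TRF

theorem t_TRF (h1 : Stmt_EXR) (h2 : Stmt_PUL) (h3 : Stmt_UFQ) (h4 : Stmt_ORQ) (h5 : Stmt_TXT) :
    Stmt_TRF := by
  intro n X G _ φ _ hS hn T hC v' v e hE hcen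
  have := hS.tower
  have := hS.fin
  obtain ⟨h, hh, H⟩ := TRF.key h2 h5 hS hn T
  have hinj : Function.Injective (algebraMap X.K (Rat n)) := (algebraMap X.K (Rat n)).injective
  have hz := h3 (ι := Option T.I) (fun i => i.elim h fun i => algebraMap X.K (Rat n) (T.f i))
    (fun i => i.elim 1 T.c) (by
      rintro (_ | i)
      · exact hh
      · exact (map_ne_zero_iff _ hinj).2 (T.f_ne i)) (by
      intro q w hq hq0 hw
      obtain ⟨w0, hw0, hs⟩ := h4 q hq
      have hww : ∀ a, w.ord a = w0.ord a := TRF.ord_eq w w0 fun p hp => by rw [hw p hp, hw0 p hp]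
      obtain ⟨vq, eq, hEq⟩ := h1 (K := X.K) w0 hn
      have hc := hC q hq hq0 vq eq (by
        intro a ha
        rw [← hEq.2, hS.map a, hw0]
        intro h0
        apply ha
        have h6 : φ a = 0 := Subtype.ext h0
        exact (map_eq_zero_iff φ φ.injective).1 h6)
      have hk := H w0 vq eq hEq
      rw [hc, hs] at hk
      rw [Fintype.sum_option]
      simp only [Option.elim, hww]
      push_cast at hk
      linarith) v' hcen
  have hk := H v' v e hE
  rw [Fintype.sum_option] at hz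
  simp only [Option.elim] at hz
  rw [hk]
  linarith

end MldGeo
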