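import Pool.Agent.MldGeo.Stmts2
import Pool.Agent.MldGeo.Ord
import Pool.Agent.MldGeo.LOW
import Pool.Agent.MldGeo.TRF
import Pool.Agent.MldGeo.CHG
import Pool.Agent.MldGeo.HTQ

/-!
# TEX: the log quotient exists
-/

namespace MldGeo

open MvPolynomial

noncomputable section

namespace TEX

variable {n : ℕ}

theorem pol_inj {p q : MvPolynomial (Fin n) ℂ} (h : pol p = pol q) : p = q :=
  IsFractionRing.injective (MvPolynomial (Fin n) ℂ) (Rat n) h

theorem pol_ne {p : MvPolynomial (Fin n) ℂ} (h : p ≠ 0) : pol p ≠ 0 := by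
  intro h0
  apply h
  apply pol_inj
  rw [h0]
  exact (map_zero (algebraMap (MvPolynomial (Fin n) ℂ) (Rat n))).symm

/-- Two valuations with the same orders agree. -/
theorem ext {K : Type} [Field K] [Algebra ℂ K] (v w : DivVal n K) (h : ∀ a, v.ord a = w.ord a) :
    v = w := by
  have h' : v.ord = w.ord := funext h
  cases v
  cases w
  simp only [DivVal.mk.injEq]
  exact h'

/-- The composition of a valuation with an automorphism. -/
def comp {K : Type} [Field K] [Algebra ℂ K] (w : DivVal n K) (σ : K ≃ₐ[ℂ] K) : DivVal n K where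
  ord a := w.ord (σ a)
  ord_zero := by rw [map_zero, w.ord_zero]
  ord_mul a b ha hb := by
    rw [map_mul]
    exact w.ord_mul _ _ ((map_ne_zero_iff _ σ.injective).2 ha)
      ((map_ne_zero_iff _ σ.injective).2 hb)
  ord_add a b ha hb hab := by
    rw [map_add]
    refine w.ord_add _ _ ((map_ne_zero_iff _ σ.injective).2 ha)
      ((map_ne_zero_iff _ σ.injective).2 hb) ?_
    rw [← map_add]
    exact (map_ne_zero_iff _ σ.injective).2 hab
  ord_const c := by rw [σ.commutes, w.ord_const]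
  unif := by
    obtain ⟨t, ht, h1⟩ := w.unif
    exact ⟨σ.symm t, (map_ne_zero_iff _ σ.symm.injective).2 ht, by rw [σ.apply_symm_apply, h1]⟩
  res := by
    obtain ⟨u, hu⟩ := w.res
    refine ⟨fun i => σ.symm (u i), fun p hp => ?_⟩
    have h1 : aeval (fun i => σ.symm (u i)) p = σ.symm (aeval u p) := by
      have h2 := MvPolynomial.comp_aeval_apply (f := u) (σ.symm : K →ₐ[ℂ] K) p
      exact h2.symm
    rw [h1, σ.apply_symm_apply]
    exact ⟨(map_ne_zero_iff _ σ.symm.injective).2 (hu p hp).1, (hu p hp).2⟩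

/-- The norm of a prime element is a multiple of it. -/
theorem e_pos (G : Subgroup (GL (Fin n) ℂ)) [Finite G] {X : Germ n} (φ : X.R ≃ₐ[ℂ] invariants G)
    (q : MvPolynomial (Fin n) ℂ) (hq : Irreducible q) (v : DivVal n X.K) (e : ℕ)
    (h : ∀ a : X.R, a ≠ 0 → (multiplicity q (φ a : MvPolynomial (Fin n) ℂ) : ℤ) = e * v.ord a) :
    0 < e := by
  obtain ⟨a, ha, hd⟩ := HTQ.exists_norm G q hq.ne_zero
  rcases Nat.eq_zero_or_pos e with he | he
  · exfalso
    have h1 := h (φ.symm a) (by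
      intro h0
      apply ha
      have h2 : a = 0 := by
        have := congrArg φ h0
        rwa [φ.apply_symm_apply, map_zero] at this
      rw [h2]
      rfl)
    rw [φ.apply_symm_apply, he] at h1
    simp only [Nat.cast_zero, zero_mul, Nat.cast_eq_zero] at h1
    exact multiplicity_eq_zero.1 h1 hd
  · exact he

/-- Extension of valuations from the ring of invariants to its field of fractions. -/
theorem isExt {G : Subgroup (GL (Fin n) ℂ)} [Finite G] {X : Germ n} {φ : X.R ≃ₐ[ℂ] invariants G}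
    [Algebra X.K (Rat n)] (hS : QSetup X G φ) (q : MvPolynomial (Fin n) ℂ) (hq : Irreducible q)
    (v : DivVal n X.K) (e : ℕ)
    (h : ∀ a : X.R, a ≠ 0 → (multiplicity q (φ a : MvPolynomial (Fin n) ℂ) : ℤ) = e * v.ord a)
    (w : DivVal n (Rat n))
    (hw : ∀ p : MvPolynomial (Fin n) ℂ, p ≠ 0 → w.ord (pol p) = (multiplicity q p : ℤ)) :
    IsExt w v e := by
  refine ⟨e_pos G φ q hq v e h, fun a => ?_⟩
  have hR : ∀ r : X.R, w.ord (algebraMap X.K (Rat n) r) = e * v.ord r := by
    intro r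
    by_cases hr : r = 0
    · subst hr
      simp [w.ord_zero, v.ord_zero]
    · rw [hS.map, hw, h r hr]
      intro h0
      apply hr
      have h6 : φ r = 0 := Subtype.ext h0
      exact (map_eq_zero_iff φ φ.injective).1 h6
  obtain ⟨r, hr, s, hs, hs0, hrs⟩ := X.frac a
  by_cases ha : a = 0
  · subst ha
    simp [w.ord_zero, v.ord_zero]
  have h1 := hR ⟨r, hr⟩
  have h2 := hR ⟨s, hs⟩
  simp only at h1 h2
  rw [← hrs, map_mul, w.ord_mul _ _ (by simpa using ha) (by simpa using hs0), h2,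
    v.ord_mul _ _ ha hs0] at h1
  linarith

/-- The order of a form along a conjugate of a prime divisor. -/
theorem conj (h3 : Stmt_ORQ) {G : Subgroup (GL (Fin n) ℂ)} {X : Germ n}
    {φ : X.R ≃ₐ[ℂ] invariants G} [Algebra X.K (Rat n)] (hS : QSetup X G φ)
    [IsScalarTower ℂ X.K (Rat n)] (q : MvPolynomial (Fin n) ℂ) (hq : Irreducible q)
    (w : DivVal n (Rat n))
    (hw : ∀ p : MvPolynomial (Fin n) ℂ, p ≠ 0 → w.ord (pol p) = (multiplicity q p : ℤ))
    (σ : Rat n ≃ₐ[X.K] Rat n) :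
    (comp w (σ.restrictScalars ℂ)).logOrd (stdForm n) = 1 := by
  obtain ⟨g, -, hg⟩ := hS.act σ
  obtain ⟨g', -, hg'⟩ := hS.act σ.symm
  have hgg : ∀ p, linSubst g' (linSubst g p) = p := by
    intro p
    apply pol_inj
    rw [← hg', ← hg, σ.symm_apply_apply]
  have hmul : ∀ p, multiplicity q (linSubst g p) = multiplicity (linSubst g' q) p := by
    intro p
    have h4 := multiplicity_map_eq (CHG.lequiv g') (a := q) (b := linSubst g p)
    have h5 : ∀ x, CHG.lequiv g' x = linSubst g' x := fun x => rfl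
    rw [h5, h5, hgg] at h4
    exact h4.symm
  have hirr : Irreducible (linSubst g' q) := by
    have h5 : CHG.lequiv g' q = linSubst g' q := rfl
    rw [← h5]
    exact (MulEquiv.irreducible_iff (CHG.lequiv g')).2 hq
  obtain ⟨w', hw', hs⟩ := h3 (linSubst g' q) hirr
  have he : comp w (σ.restrictScalars ℂ) = w' := by
    apply ext
    apply TRF.ord_eq
    intro p hp
    change w.ord (σ (pol p)) = _
    rw [hg, hw' p hp, ← hmul, hw]
    intro h0
    apply hp
    rw [← hgg p, h0, map_zero]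
  rw [he, hs]

end TEX

theorem t_TEX (h1 : Stmt_GAL) (h2 : Stmt_PUL) (h3 : Stmt_ORQ) (h4 : Stmt_TXT) (_h5 : Stmt_TBAS) :
    Stmt_TEX := by
  intro n G _ X hn hX
  obtain ⟨φ, hφ⟩ := hX
  obtain ⟨alg, hS⟩ := h1 X G φ hφ
  have := hS.tower
  have := hS.fin
  have := hS.gal
  obtain ⟨ω, hω⟩ : ∃ ω : Forms n X.K, ω ≠ 0 := by
    obtain ⟨s, hs⟩ := exists_isTranscendenceBasis ℂ X.K
    have hc := hs.cardinalMk_eq_trdeg
    rw [X.trdeg, ← Cardinal.mk_fin, Cardinal.eq] at hc
    obtain ⟨f⟩ := hc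
    refine ⟨dforms fun i => ((f.symm i : s) : X.K), LOW.dforms_ne X.trdeg _ ?_⟩
    exact hs.1.comp f.symm f.symm.injective
  obtain ⟨h, hh, H⟩ := h2 hS hn ω hω
  have hN0 : Algebra.norm X.K h ≠ 0 := Algebra.norm_ne_zero_iff.2 hh
  refine ⟨{ ω := ω, ω_ne := hω, I := Unit, finI := inferInstance,
            f := fun _ => Algebra.norm X.K h, f_ne := fun _ => hN0,
            c := fun _ => -1 / (Fintype.card (Rat n ≃ₐ[X.K] Rat n) : ℝ),
            J := Empty, finJ := inferInstance, a := fun j => j.elim, a_ne := fun j => j.elim,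
            r := fun j => j.elim, r_nonneg := fun j => j.elim }, (inferInstance : IsEmpty Empty),
          φ, hφ, ?_⟩
  intro q hq hq0 v e hve
  obtain ⟨w, hw, hs⟩ := h3 q hq
  have hE : IsExt w v e := TEX.isExt hS q hq v e hve w hw
  have e1 := H w v e hE
  rw [hs] at e1
  have e2 : ∀ σ : Rat n ≃ₐ[X.K] Rat n, w.ord (σ h) = w.ord h := by
    intro σ
    have hEσ : IsExt (TEX.comp w (σ.restrictScalars ℂ)) v e := by
      refine ⟨hE.1, fun a => ?_⟩
      change w.ord (σ (algebraMap X.K (Rat n) a)) = _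
      rw [σ.commutes, hE.2]
    have e3 := H _ v e hEσ
    rw [TEX.conj h3 hS q hq w hw σ] at e3
    have e4 : (TEX.comp w (σ.restrictScalars ℂ)).ord h = w.ord (σ h) := rfl
    rw [e4] at e3
    linarith
  have e5 : (e : ℤ) * v.ord (Algebra.norm X.K h) =
      (Fintype.card (Rat n ≃ₐ[X.K] Rat n) : ℤ) * w.ord h := by
    rw [← hE.2, Algebra.norm_eq_prod_automorphisms, DivVal.ord_prod]
    · rw [Finset.sum_congr rfl fun σ _ => e2 σ, Finset.sum_const, Finset.card_univ, nsmul_eq_mul]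
    · intro σ _
      exact (map_ne_zero_iff _ σ.injective).2 hh
  have hcard : (0 : ℝ) < (Fintype.card (Rat n ≃ₐ[X.K] Rat n) : ℝ) := by
    exact_mod_cast Fintype.card_pos
  unfold Triple.logDisc
  simp only [Finset.univ_unique, Finset.sum_const, Finset.card_singleton, one_smul]
  rw [h4 X.trdeg v ω hn hω]
  have e6 : (e : ℝ) * (v.logOrd ω : ℝ) = (w.ord h : ℝ) + 1 := by exact_mod_cast e1
  have e7 : (e : ℝ) * (v.ord (Algebra.norm X.K h) : ℝ) =
      (Fintype.card (Rat n ≃ₐ[X.K] Rat n) : ℝ) * (w.ord h : ℝ) := by exact_mod_cast e5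
  push_cast
  have e8 : (1 + ((v.logOrd ω : ℝ) - 1) + -1 / (Fintype.card (Rat n ≃ₐ[X.K] Rat n) : ℝ) *
      (v.ord (Algebra.norm X.K h) : ℝ)) * (e : ℝ) = (e : ℝ) * (v.logOrd ω : ℝ) -
      (1 / (Fintype.card (Rat n ≃ₐ[X.K] Rat n) : ℝ)) *
        ((e : ℝ) * (v.ord (Algebra.norm X.K h) : ℝ)) := by ring
  rw [e8, e6, e7]
  field_simp
  ring

end

end MldGeo
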