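import Pool.Agent.MldGeo.Stmts3

/-!
# The structure of a variety with an action of a torus of the same dimension
-/

namespace MldGeo

open MldGap MldAcc TorusAction

noncomputable section

namespace TOR

section
variable {n : ℕ} {X : Germ n} {A : TorusAction X n} (Sp : Splitting A)

theorem chi_ne (u : Fin n → ℤ) : Sp.χ u ≠ 0 := by
  intro h
  have h1 := Sp.add u (-u)
  rw [add_neg_cancel, Sp.zero, h, zero_mul] at h1
  exact one_ne_zero h1

theorem chi_nsmul (u : Fin n → ℤ) (k : ℕ) : Sp.χ (k • u) = Sp.χ u ^ k := by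
  induction k with
  | zero => rw [zero_nsmul, Sp.zero, pow_zero]
  | succ k ih => rw [succ_nsmul, Sp.add, ih, pow_succ]

/-- The monoid of the regular characters. -/
def mon : AddSubmonoid (Fin n → ℤ) where
  carrier := {u | Sp.χ u ∈ X.R}
  zero_mem' := by
    show Sp.χ 0 ∈ X.R
    rw [Sp.zero]
    exact X.R.one_mem
  add_mem' := by
    intro u w hu hw
    show Sp.χ (u + w) ∈ X.R
    rw [Sp.add]
    exact X.R.mul_mem hu hw

theorem mem_mon (u : Fin n → ℤ) : u ∈ mon Sp ↔ Sp.χ u ∈ X.R := Iff.rfl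

/-- A homogeneous rational function is a multiple of a character. -/
theorem hom_eq (hKCO : Stmt_KCO) (hHFK : Stmt_HFK) (u : Fin n → ℤ) (h : X.K) (hh : A.Hom u h) :
    ∃ c : ℂ, h = algebraMap ℂ X.K c * Sp.χ u := by
  obtain ⟨b, hb⟩ := (hHFK A Sp).1 u h hh
  obtain ⟨c, hc⟩ := hKCO A (b : X.K) b.2
  exact ⟨c, by rw [hb, hc]⟩

/-- A regular function of weight `u` is a multiple of a character. -/
theorem gr_eq (hKCO : Stmt_KCO) (hHFK : Stmt_HFK) (u : Fin n → ℤ) (a : X.R) (ha : a ∈ A.gr u) :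
    ∃ c : ℂ, (c ≠ 0 → u ∈ mon Sp) ∧ (a : X.K) = algebraMap ℂ X.K c * Sp.χ u := by
  obtain ⟨c, hc⟩ := hom_eq Sp hKCO hHFK u a (Hom.of_mem ha)
  refine ⟨c, fun h0 => ?_, hc⟩
  rw [mem_mon]
  have h1 : Sp.χ u = algebraMap ℂ X.K c⁻¹ * (a : X.K) := by
    rw [hc, ← mul_assoc, ← map_mul, inv_mul_cancel₀ h0, map_one, one_mul]
  rw [h1]
  exact X.R.mul_mem (X.R.algebraMap_mem _) a.2

/-- The regular characters are homogeneous. -/
theorem mem_gr (hHLI : Stmt_HLI) (hHFR : Stmt_HFR) (u : Fin n → ℤ) (hu : Sp.χ u ∈ X.R) :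
    (⟨Sp.χ u, hu⟩ : X.R) ∈ A.gr u := by
  classical
  obtain ⟨s, h, hg, hs, hsum⟩ := hHFR A (⟨Sp.χ u, hu⟩ : X.R)
  have h1 : Sp.χ u = ∑ w ∈ s, ((h w : X.R) : X.K) := by
    have := congrArg (Subtype.val : X.R → X.K) hsum
    rwa [AddSubmonoidClass.coe_finsetSum] at this
  have h2 : ∑ w ∈ insert u s, ((h w : X.R) : X.K) = Sp.χ u := by
    rw [h1]
    symm
    refine Finset.sum_subset (Finset.subset_insert u s) ?_
    intro w _ hw
    rw [hs w hw]
    rfl
  have h3 : ∑ w ∈ insert u s, (((h w : X.R) : X.K) - if w = u then Sp.χ u else 0) = 0 := by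
    rw [Finset.sum_sub_distrib, h2, Finset.sum_ite_eq' (insert u s) u,
      if_pos (Finset.mem_insert_self u s), sub_self]
  have h4 := hHLI A (insert u s) (fun w => ((h w : X.R) : X.K) - if w = u then Sp.χ u else 0)
    (by
      intro w _
      refine Hom.sub (Hom.of_mem (hg w)) ?_
      split_ifs with hw
      · rw [hw]
        exact Sp.hom u
      · exact Hom.zero w) h3 u (Finset.mem_insert_self u s)
  simp only [if_true] at h4
  have h5 : (⟨Sp.χ u, hu⟩ : X.R) = h u := Subtype.ext (sub_eq_zero.1 h4).symm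
  rw [h5]
  exact hg u

theorem gradedBy (hKCO : Stmt_KCO) (hHFK : Stmt_HFK) (hHLI : Stmt_HLI) (hHFR : Stmt_HFR) :
    GradedBy A Sp.χ (mon Sp) := by
  intro u a
  constructor
  · exact gr_eq Sp hKCO hHFK u a
  · rintro ⟨c, hc, ha⟩
    by_cases h0 : c = 0
    · rw [h0, map_zero, zero_mul] at ha
      have : a = 0 := Subtype.ext ha
      rw [this]
      exact (A.gr u).zero_mem
    · have hu : Sp.χ u ∈ X.R := hc h0
      have h1 : a = c • (⟨Sp.χ u, hu⟩ : X.R) := by
        apply Subtype.ext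
        rw [ha, Algebra.smul_def]
        rfl
      rw [h1]
      exact (A.gr u).smul_mem c (mem_gr Sp hHLI hHFR u hu)

/-- The regular functions are combinations of characters. -/
theorem span_R (hKCO : Stmt_KCO) (hHFK : Stmt_HFK) (hHFR : Stmt_HFR) (a : X.K) (ha : a ∈ X.R) :
    ∃ (F : Finset (Fin n → ℤ)) (c : (Fin n → ℤ) → ℂ), (∀ u ∈ F, u ∈ mon Sp) ∧
      a = ∑ u ∈ F, algebraMap ℂ X.K (c u) * Sp.χ u := by
  classical
  obtain ⟨s, h, hg, hs, hsum⟩ := hHFR A (⟨a, ha⟩ : X.R)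
  choose c hc hcu using fun u => gr_eq Sp hKCO hHFK u (h u) (hg u)
  refine ⟨s.filter fun u => c u ≠ 0, c, ?_, ?_⟩
  · intro u hu
    exact hc u (Finset.mem_filter.1 hu).2
  · have h1 : a = ∑ w ∈ s, ((h w : X.R) : X.K) := by
      have := congrArg (Subtype.val : X.R → X.K) hsum
      rwa [AddSubmonoidClass.coe_finsetSum] at this
    rw [h1]
    rw [Finset.sum_filter_of_ne]
    · exact Finset.sum_congr rfl fun u _ => hcu u
    · intro u _ hne h0
      exact hne (by rw [h0, map_zero, zero_mul])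

/-- The characters are linearly independent. -/
theorem linInd (hHLI : Stmt_HLI) : LinearIndependent ℂ Sp.χ := by
  rw [linearIndependent_iff']
  intro s g hsum u hu
  have h1 := hHLI A s (fun w => algebraMap ℂ X.K (g w) * Sp.χ w)
    (by
      intro w _
      have := (Hom.const (A := A) (g w)).mul (Sp.hom w)
      rwa [zero_add] at this)
    (by
      rw [← hsum]
      exact Finset.sum_congr rfl fun w _ => (Algebra.smul_def _ _).symm) u hu
  have h2 := (mul_eq_zero.1 h1).resolve_right (chi_ne Sp u)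
  exact (map_eq_zero _).1 h2

/-- The monoid of the regular characters is finitely generated. -/
theorem mon_fg (hKCO : Stmt_KCO) (hHFK : Stmt_HFK) (hHLI : Stmt_HLI) (hHFR : Stmt_HFR) :
    (mon Sp).FG := by
  classical
  obtain ⟨t, ht⟩ := X.fg
  have htR : ∀ g ∈ t, g ∈ X.R := by
    intro g hg
    rw [← ht]
    exact Algebra.subset_adjoin (Finset.mem_coe.2 hg)
  -- the characters in the generators
  choose F c hF hg using fun g : {g // g ∈ t} => span_R Sp hKCO hHFK hHFR g.1 (htR g.1 g.2)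
  let B : Finset (Fin n → ℤ) := t.attach.biUnion F
  refine ⟨B, le_antisymm ?_ ?_⟩
  · rw [AddSubmonoid.closure_le]
    intro u hu
    obtain ⟨g, _, hgu⟩ := Finset.mem_biUnion.1 (Finset.mem_coe.1 hu)
    exact hF g u hgu
  · intro u hu
    set M : AddSubmonoid (Fin n → ℤ) := AddSubmonoid.closure (B : Set (Fin n → ℤ)) with hM
    let N : Submonoid X.K :=
      { carrier := Sp.χ '' M
        one_mem' := ⟨0, M.zero_mem, Sp.zero⟩
        mul_mem' := by
          rintro _ _ ⟨a, ha, rfl⟩ ⟨b, hb, rfl⟩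
          exact ⟨a + b, M.add_mem ha hb, Sp.add a b⟩ }
    have h1 : X.R ≤ Algebra.adjoin ℂ (N : Set X.K) := by
      rw [← ht]
      refine Algebra.adjoin_le ?_
      intro g hgt
      have h2 := hg ⟨g, Finset.mem_coe.1 hgt⟩
      rw [SetLike.mem_coe]
      rw [show g = ((⟨g, Finset.mem_coe.1 hgt⟩ : {g // g ∈ t}) : X.K) from rfl, h2]
      refine Subalgebra.sum_mem _ fun w hw => Subalgebra.mul_mem _
        (Subalgebra.algebraMap_mem _ _) (Algebra.subset_adjoin ⟨w, ?_, rfl⟩)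
      exact AddSubmonoid.subset_closure (Finset.mem_coe.2
        (Finset.mem_biUnion.2 ⟨_, Finset.mem_attach _ _, hw⟩))
    have h3 : Sp.χ u ∈ Submodule.span ℂ (Sp.χ '' (M : Set (Fin n → ℤ))) := by
      have h4 : Sp.χ u ∈ Subalgebra.toSubmodule (Algebra.adjoin ℂ (N : Set X.K)) := h1 hu
      rw [Algebra.adjoin_eq_span, Submonoid.closure_eq] at h4
      exact h4
    by_contra hu'
    exact (linInd Sp hHLI).notMem_span_image hu' h3

end

end TOR

/-- TOR. -/
theorem t_TOR (hKCO : Stmt_KCO) (hSPL : Stmt_SPL) (hHLI : Stmt_HLI) (hHFR : Stmt_HFR)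
    (hHFK : Stmt_HFK) (hTRB : Stmt_TRB) : Stmt_TOR := by
  classical
  intro n X A
  obtain ⟨Sp⟩ := hSPL A
  have hG := TOR.gradedBy Sp hKCO hHFK hHLI hHFR
  have hK0 : ∀ b : A.K0, ∃ c : ℂ, (b : X.K) = algebraMap ℂ X.K c := fun b => hKCO A (b : X.K) b.2
  have hspan : ∀ (s : Finset (Fin n → ℤ)) (b : (Fin n → ℤ) → A.K0),
      ∑ u ∈ s, (b u : X.K) * Sp.χ u ∈ Submodule.span ℂ (Set.range Sp.χ) := by
    intro s b
    refine Submodule.sum_mem _ fun u _ => ?_
    obtain ⟨c, hc⟩ := hK0 (b u)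
    rw [hc, ← Algebra.smul_def]
    exact Submodule.smul_mem _ _ (Submodule.subset_span ⟨u, rfl⟩)
  refine ⟨Sp.χ, TOR.mon Sp, ?_, hG⟩
  exact {
    zero := Sp.zero
    add := Sp.add
    indep := by
      have h := hTRB A Sp (fun j : Fin 0 => j.elim0) algebraicIndependent_empty_type
      exact h.comp Sum.inr Sum.inr_injective
    frac := by
      intro a
      obtain ⟨s, b, b', hne, h⟩ := (hHFK A Sp).2.2 a
      exact ⟨_, hspan s b, _, hspan s b', hne, h⟩
    mem_R := fun u => Iff.rfl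
    span_R := TOR.span_R Sp hKCO hHFK hHFR
    fg := TOR.mon_fg Sp hKCO hHFK hHLI hHFR
    gen := by
      rw [eq_top_iff, ← A.effective, AddSubgroup.closure_le]
      intro u hu
      obtain ⟨a, ha, h0⟩ := (Submodule.ne_bot_iff _).1 hu
      obtain ⟨c, hc, hcu⟩ := (hG u a).1 ha
      refine AddSubgroup.subset_closure (hc ?_)
      intro h1
      rw [h1, map_zero, zero_mul] at hcu
      exact h0 (Subtype.ext hcu)
    sat := by
      intro u k hk hu
      have h1 : Sp.χ u ^ k ∈ X.R := by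
        rw [← TOR.chi_nsmul]
        exact hu
      refine X.normal _ (IsIntegral.of_pow hk ?_)
      have h2 := isIntegral_algebraMap (R := X.R) (A := X.K) (x := ⟨Sp.χ u ^ k, h1⟩)
      exact h2
    pos := by
      intro u hu h0 h
      exact A.vanish u h0 _ (TOR.mem_gr Sp hHLI hHFR u h) }

end

end MldGeo
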