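import Pool.Agent.MldGeo.Stmts3
import Pool.Agent.MldGeo.Ord

/-!
# TRAY: monomial valuations on a toric variety and their centres
-/

namespace MldGeo

namespace TRAY

open MvPolynomial

variable {n : ℕ} {X : Germ n} {χ : (Fin n → ℤ) → X.K} {S : AddSubmonoid (Fin n → ℤ)}

/-- a sum of terms in an ideal -/
theorem term_mem (hT : ToricCoord X χ S) (u : Fin n → ℤ) (hu : u ∈ S) (c : ℂ)
    (h : u ≠ 0 ∨ c = 0) :
    ∃ b : X.R, b ∈ X.m ∧ (b : X.K) = algebraMap ℂ X.K c * χ u := by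
  rcases h with h | h
  · refine ⟨algebraMap ℂ X.R c * ⟨χ u, (hT.mem_R u).1 hu⟩,
      Ideal.mul_mem_left _ _ (hT.pos u hu h _), rfl⟩
  · exact ⟨0, Ideal.zero_mem _, by rw [h, map_zero, zero_mul]; rfl⟩

/-- a sum of terms in an ideal -/
theorem sum_mem (hT : ToricCoord X χ S) (F : Finset (Fin n → ℤ)) (hF : ∀ u ∈ F, u ∈ S)
    (c : (Fin n → ℤ) → ℂ) (h : ∀ u ∈ F, u ≠ 0 ∨ c u = 0) :
    ∃ b : X.R, b ∈ X.m ∧ (b : X.K) = ∑ u ∈ F, algebraMap ℂ X.K (c u) * χ u := by
  classical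
  induction F using Finset.induction_on with
  | empty => exact ⟨0, Ideal.zero_mem _, by simp⟩
  | insert a s ha ih =>
    obtain ⟨b, hb, hb'⟩ := ih (fun u hu => hF u (Finset.mem_insert_of_mem hu))
      (fun u hu => h u (Finset.mem_insert_of_mem hu))
    obtain ⟨b1, hb1, hb1'⟩ := term_mem hT a (hF a (Finset.mem_insert_self a s)) (c a)
      (h a (Finset.mem_insert_self a s))
    refine ⟨b1 + b, Ideal.add_mem _ hb1 hb, ?_⟩
    rw [Finset.sum_insert ha, ← hb', ← hb1']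
    rfl

variable {y : Fin n → ℤ} {v : DivVal n X.K}

theorem nonneg (hT : ToricCoord X χ S) (hG : Gauss χ y v) (hS : ∀ u ∈ S, 0 ≤ pair u y)
    (a : X.R) : 0 ≤ v.ord a := by
  obtain ⟨F, c, hF, ha⟩ := hT.span_R a a.2
  have h : v.Ge 0 (a : X.K) := by
    rw [ha]
    refine DivVal.Ge.sum _ _ fun u hu => DivVal.Ge.const_mul ?_ _
    exact DivVal.Ge.of_le (by rw [hG.chi]; exact hS u (hF u hu))
  rcases h with h | h
  · rw [h, v.ord_zero]
  · exact h

theorem through (hT : ToricCoord X χ S) (hG : Gauss χ y v) (hS : ∀ u ∈ S, 0 ≤ pair u y) :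
    X.Through v := by
  refine ⟨nonneg hT hG hS, fun a ha => le_antisymm ?_ (nonneg hT hG hS a)⟩
  obtain ⟨F, c, hF, hac⟩ := hT.span_R a a.2
  have h : ∃ u ∈ F, u = 0 ∧ c u ≠ 0 := by
    by_contra hcon
    push Not at hcon
    obtain ⟨b, hb, hb'⟩ := sum_mem hT F hF c (fun u hu => by
      by_cases h0 : u = 0
      · exact Or.inr (hcon u hu h0)
      · exact Or.inl h0)
    rw [← hac] at hb'
    exact ha (Subtype.ext hb' ▸ hb)
  obtain ⟨u, hu, hu0, hcu⟩ := h
  have := hG.le F c u hu hcu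
  rw [← hac, hu0] at this
  refine this.trans (le_of_eq ?_)
  simp [pair]

theorem at_ (hT : ToricCoord X χ S) (hG : Gauss χ y v) (hS : ∀ u ∈ S, 0 ≤ pair u y)
    (hpos : ∀ u ∈ S, u ≠ 0 → 0 < pair u y) : X.At v := by
  classical
  refine ⟨nonneg hT hG hS, fun a ha ha0 => ?_⟩
  obtain ⟨F, c, hF, hac⟩ := hT.span_R a a.2
  have h : ∀ u ∈ F, u ≠ 0 ∨ c u = 0 := by
    intro u hu
    by_cases h0 : u = 0
    · refine Or.inr ?_
      by_contra hc
      obtain ⟨b, hb, hb'⟩ := sum_mem hT (F.erase u) (fun w hw => hF w (Finset.mem_of_mem_erase hw)) c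
        (fun w hw => Or.inl (by rw [← h0]; exact Finset.ne_of_mem_erase hw))
      have h1 : a = algebraMap ℂ X.R (c u) + b := by
        apply Subtype.ext
        have e1 : ((algebraMap ℂ X.R (c u) + b : X.R) : X.K) = algebraMap ℂ X.K (c u) + (b : X.K) := rfl
        rw [e1, hb', hac, ← Finset.add_sum_erase _ _ hu]
        congr 1
        rw [h0, hT.zero, mul_one]
      have h2 : algebraMap ℂ X.R (c u) ∈ X.m := by
        have : algebraMap ℂ X.R (c u) = a - b := by rw [h1]; ring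
        rw [this]
        exact Ideal.sub_mem _ ha hb
      have h3 : IsUnit (algebraMap ℂ X.R (c u)) := (IsUnit.mk0 _ hc).map _
      exact X.max.ne_top (Ideal.eq_top_of_isUnit_mem _ h2 h3)
    · exact Or.inl h0
  have h4 : v.Ge 1 (a : X.K) := by
    rw [hac]
    refine DivVal.Ge.sum _ _ fun u hu => ?_
    rcases h u hu with h5 | h5
    · refine DivVal.Ge.const_mul ?_ _
      refine DivVal.Ge.of_le ?_
      rw [hG.chi]
      exact hpos u (hF u hu) h5
    · rw [h5, map_zero, zero_mul]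
      exact DivVal.Ge.zero v 1
  have h6 : (a : X.K) ≠ 0 := fun h7 => ha0 (Subtype.ext h7)
  have := h4.le h6
  omega

end TRAY

open TRAY MvPolynomial in
theorem t_TRAY (hHT1 : Stmt_HT1) : Stmt_TRAY := by
  intro n X χ S hn hT y v hG hS
  have hthr := through hT hG hS
  refine ⟨hthr, at_ hT hG hS, ?_⟩
  rintro ⟨w, hwS, hwi, hwy⟩
  obtain ⟨P, hP⟩ := hHT1 X v hn (nonneg hT hG hS)
    ⟨fun j => ⟨χ (w j), (hT.mem_R _).1 (hwS j)⟩, fun p hp => by
      have h1 := hG.res w hwi hwy p hp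
      have h2 : ((aeval (fun j => (⟨χ (w j), (hT.mem_R _).1 (hwS j)⟩ : X.R)) p : X.R) : X.K) =
          aeval (fun j => χ (w j)) p := by
        have := MvPolynomial.aeval_algebraMap_apply X.K
          (fun j => (⟨χ (w j), (hT.mem_R _).1 (hwS j)⟩ : X.R)) p
        exact this.symm
      refine ⟨fun h3 => h1.1 ?_, ?_⟩
      · rw [← h2, h3]; rfl
      · rw [h2]; exact h1.2⟩
  refine ⟨P, fun a ha => ?_, hP⟩
  rcases (hP.2.2.2 a).1 ha with h | h
  · rw [h]; exact Ideal.zero_mem _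
  · by_contra h3
    have := hthr.2 a h3
    omega

end MldGeo
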