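import Pool.Agent.MldGeo.Stmts4

/-!
# A transcendence basis of the function field of a variety with torus action
-/

namespace MldGeo

open MvPolynomial

noncomputable section

namespace TRB

variable {n m : ℕ} {X : Germ n} {A : TorusAction X m} (S : Splitting A)

lemma chi_ne (u : Fin m → ℤ) : S.χ u ≠ 0 := by
  intro h
  have h1 := S.add u (-u)
  rw [h, zero_mul, add_neg_cancel, S.zero] at h1
  exact one_ne_zero h1

lemma chi_nsmul (u : Fin m → ℤ) (k : ℕ) : S.χ (k • u) = S.χ u ^ k := by
  induction k with
  | zero => rw [zero_smul, S.zero, pow_zero]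
  | succ k ih => rw [succ_nsmul, S.add, ih, pow_succ]

lemma chi_sum {ι : Type} (t : Finset ι) (f : ι → (Fin m → ℤ)) :
    S.χ (∑ i ∈ t, f i) = ∏ i ∈ t, S.χ (f i) := by
  classical
  induction t using Finset.induction_on with
  | empty => rw [Finset.sum_empty, Finset.prod_empty, S.zero]
  | insert a t ha ih => rw [Finset.sum_insert ha, Finset.prod_insert ha, S.add, ih]

/-- the weight of a monomial -/
def wt (u : Fin m →₀ ℕ) : Fin m → ℤ := fun i => (u i : ℤ)

lemma wt_inj : Function.Injective (wt (m := m)) := by
  intro u w h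
  ext i
  have := congrFun h i
  unfold wt at this
  exact_mod_cast this

lemma chi_wt (u : Fin m →₀ ℕ) : S.χ (wt u) = ∏ i, S.χ (Pi.single i 1) ^ u i := by
  have e : wt u = ∑ i, u i • (Pi.single i 1 : Fin m → ℤ) := by
    funext j
    rw [Finset.sum_apply]
    simp only [Pi.smul_apply, nsmul_eq_mul]
    rw [Finset.sum_eq_single j]
    · rw [Pi.single_eq_same, mul_one]; rfl
    · intro b _ hb
      rw [Pi.single_eq_of_ne hb.symm, mul_zero]
    · intro h
      exact absurd (Finset.mem_univ j) h
  rw [e, chi_sum]
  exact Finset.prod_congr rfl fun i _ => chi_nsmul S _ _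

/-- the characters are algebraically independent over the field of invariants -/
lemma indep (hHFK : Stmt_HFK) :
    AlgebraicIndependent A.K0 (fun i : Fin m => S.χ (Pi.single i 1)) := by
  classical
  rw [algebraicIndependent_iff]
  intro p hp
  -- the inverse of the weight
  let g : (Fin m → ℤ) → (Fin m →₀ ℕ) := fun w => Finsupp.equivFunOnFinite.symm fun i => (w i).toNat
  have hg : ∀ u : Fin m →₀ ℕ, g (wt u) = u := by
    intro u
    ext i
    simp [g, wt]
  have hsum : ∑ w ∈ p.support.image wt, ((p.coeff (g w) : A.K0) : X.K) * S.χ w = 0 := by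
    rw [Finset.sum_image (fun x _ y _ h => wt_inj h)]
    rw [aeval_def, eval₂_eq'] at hp
    rw [← hp]
    refine Finset.sum_congr rfl fun u _ => ?_
    rw [hg, chi_wt]
    rfl
  have h := (hHFK A S).2.1 _ (fun w => p.coeff (g w)) hsum
  ext u
  by_cases hu : u ∈ p.support
  · have := h (wt u) (Finset.mem_image_of_mem _ hu)
    simp only [hg] at this
    rw [this, coeff_zero]
  · rw [notMem_support_iff.1 hu, coeff_zero]

end TRB

theorem t_TRB (hHFK : Stmt_HFK) : Stmt_TRB := by
  intro n m c X A S s hs
  have h := hs.sumElim_comp (TRB.indep S hHFK)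
  have h2 := h.comp Sum.swap Sum.swap_leftInverse.injective
  convert h2 using 1
  funext x
  rcases x with j | i <;> rfl

end

end MldGeo
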