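import Pool.Agent.MldGeo.ORQ

/-!
# UFQ: a principal divisor which is zero near the origin
-/

set_option autoImplicit false

namespace MldGeo

open MvPolynomial

namespace UFQ

variable {n : ℕ}

theorem pol_C (c : ℂ) : pol (C c : MvPolynomial (Fin n) ℂ) = algebraMap ℂ (Rat n) c := by
  rw [IsScalarTower.algebraMap_apply ℂ (MvPolynomial (Fin n) ℂ) (Rat n)]
  rfl

/-- units have order `0` -/
theorem ord_unit (v : DivVal n (Rat n)) {a : MvPolynomial (Fin n) ℂ} (ha : IsUnit a) :
    v.ord (pol a) = 0 := by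
  obtain ⟨c, hc⟩ := MvPolynomial.isUnit_iff_eq_C_of_isReduced.1 ha
  rw [hc.2, pol_C, v.ord_const]

/-- associated polynomials have the same order -/
theorem ord_assoc (v : DivVal n (Rat n)) {a b : MvPolynomial (Fin n) ℂ} (h : Associated a b)
    (ha : a ≠ 0) : v.ord (pol b) = v.ord (pol a) := by
  obtain ⟨u, rfl⟩ := h
  rw [ORQ.pol_mul, v.ord_mul _ _ (ORQ.pol_ne ha) (ORQ.pol_ne u.ne_zero), ord_unit v u.isUnit,
    add_zero]

/-- a polynomial which does not vanish at the origin has order `0` -/
theorem ord_zero_of {v : DivVal n (Rat n)} (hv : Centred v) {q : MvPolynomial (Fin n) ℂ}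
    (hq : constantCoeff q ≠ 0) : v.ord (pol q) = 0 := by
  set c := constantCoeff q with hc
  have h0 := hv.1 q
  by_cases hr : q - C c = 0
  · rw [sub_eq_zero] at hr
    rw [hr, pol_C, v.ord_const]
  · have h1 := hv.2 (q - C c) hr (by rw [map_sub, constantCoeff_C, hc, sub_self])
    by_contra hne
    have h2 : 0 < v.ord (pol q) := lt_of_le_of_ne h0 (Ne.symm hne)
    have hq0 : q ≠ 0 := by
      rintro rfl
      exact hq (by rw [hc, map_zero])
    have h3 : pol q - pol (q - C c) = pol (C c) := by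
      have : pol q = pol (q - C c) + pol (C c) := by rw [← ORQ.pol_add, sub_add_cancel]
      rw [this, add_sub_cancel_left]
    have h4 : pol q - pol (q - C c) ≠ 0 := by
      rw [h3]
      exact ORQ.pol_ne (C_ne_zero.2 hq)
    have h5 := DivVal.ord_sub v (ORQ.pol_ne hq0) (ORQ.pol_ne hr) h4
    rw [h3, pol_C, v.ord_const] at h5
    have h6 := lt_min h2 h1
    omega

/-- the order of a polynomial in terms of its irreducible factors -/
theorem ord_pol (v : DivVal n (Rat n)) (Q : Finset (MvPolynomial (Fin n) ℂ))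
    (hQ : ∀ q ∈ Q, Irreducible q) (hQ' : ∀ q ∈ Q, ∀ r ∈ Q, Associated q r → q = r)
    (p : MvPolynomial (Fin n) ℂ) : p ≠ 0 → (∀ π, Prime π → π ∣ p → ∃ q ∈ Q, Associated π q) →
    v.ord (pol p) = ∑ q ∈ Q, (multiplicity q p : ℤ) * v.ord (pol q) := by
  classical
  induction p using UniqueFactorizationMonoid.induction_on_prime with
  | h₁ => intro h; exact absurd rfl h
  | h₂ x hx =>
    intro _ _
    rw [ord_unit v hx, Finset.sum_eq_zero]
    intro q hq
    have : multiplicity q x = 0 := by
      rw [multiplicity_eq_zero]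
      intro h
      exact (hQ q hq).not_isUnit (isUnit_of_dvd_unit h hx)
    rw [this]
    simp
  | h₃ a π ha hπ ih =>
    intro hp hpi
    obtain ⟨q0, hq0, has⟩ := hpi π hπ (dvd_mul_right π a)
    have h1 := ih ha fun ρ hρ hρa => hpi ρ hρ (dvd_mul_of_dvd_right hρa π)
    have h2 : v.ord (pol π) = v.ord (pol q0) := (ord_assoc v has hπ.ne_zero).symm
    have h3 : ∀ q ∈ Q, (multiplicity q (π * a) : ℤ) * v.ord (pol q) =
        (if q = q0 then v.ord (pol q0) else 0) + (multiplicity q a : ℤ) * v.ord (pol q) := by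
      intro q hq
      have h4 : multiplicity q π = if q = q0 then 1 else 0 := by
        split_ifs with h
        · subst h
          have h5 := (ORQ.fm (hQ q hq) hπ.ne_zero)
          have h6 : multiplicity q π = multiplicity q q := by
            obtain ⟨u, hu⟩ := has.symm
            rw [← hu, ORQ.mult_mul (hQ q hq) (hQ q hq).ne_zero u.ne_zero]
            have : multiplicity q (u : MvPolynomial (Fin n) ℂ) = 0 := by
              rw [multiplicity_eq_zero]
              intro h
              exact (hQ q hq).not_isUnit (isUnit_of_dvd_unit h u.isUnit)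
            rw [this, add_zero]
          rw [h6, multiplicity_self]
        · rw [multiplicity_eq_zero]
          intro hd
          apply h
          apply hQ' q hq q0 hq0
          exact ((hQ q hq).associated_of_dvd hπ.irreducible hd).trans has
      rw [ORQ.mult_mul (hQ q hq) hπ.ne_zero ha, h4]
      split_ifs with h
      · rw [h]; push_cast; ring
      · push_cast; ring
    rw [Finset.sum_congr rfl h3, Finset.sum_add_distrib, Finset.sum_ite_eq' Q q0, if_pos hq0, ← h1,
      ORQ.pol_mul, v.ord_mul _ _ (ORQ.pol_ne hπ.ne_zero) (ORQ.pol_ne ha), h2]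

/-- representatives of the irreducible factors -/
theorem reps (P : MvPolynomial (Fin n) ℂ) (hP : P ≠ 0) : ∃ Q : Finset (MvPolynomial (Fin n) ℂ),
    (∀ q ∈ Q, Irreducible q) ∧ (∀ q ∈ Q, ∀ r ∈ Q, Associated q r → q = r) ∧
    ∀ π, Prime π → π ∣ P → ∃ q ∈ Q, Associated π q := by
  classical
  have hout : ∀ q : MvPolynomial (Fin n) ℂ, Associated (Quotient.out (Associates.mk q)) q := by
    intro q
    exact Associates.mk_eq_mk_iff_associated.1 (Quotient.out_eq (Associates.mk q))
  refine ⟨((UniqueFactorizationMonoid.factors P).map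
    fun q => Quotient.out (Associates.mk q)).toFinset, ?_, ?_, ?_⟩
  · intro q hq
    rw [Multiset.mem_toFinset, Multiset.mem_map] at hq
    obtain ⟨a, ha, rfl⟩ := hq
    exact (hout a).symm.irreducible (UniqueFactorizationMonoid.irreducible_of_factor a ha)
  · intro q hq r hr h
    rw [Multiset.mem_toFinset, Multiset.mem_map] at hq hr
    obtain ⟨a, ha, rfl⟩ := hq
    obtain ⟨b, hb, rfl⟩ := hr
    have h1 : Associated a b := (hout a).symm.trans (h.trans (hout b))
    rw [Associates.mk_eq_mk_iff_associated.2 h1]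
  · intro π hπ hd
    obtain ⟨q, hq, hq'⟩ := UniqueFactorizationMonoid.exists_mem_factors_of_dvd hP
      hπ.irreducible hd
    refine ⟨Quotient.out (Associates.mk q), ?_, hq'.trans (hout q).symm⟩
    rw [Multiset.mem_toFinset, Multiset.mem_map]
    exact ⟨q, hq, rfl⟩

end UFQ

open UFQ in
/-- UFQ -/
theorem t_UFQ (h1 : Stmt_ORQ) : Stmt_UFQ := by
  classical
  intro n ι _ f c hf H v' hv
  choose a b ha hb hab using fun i => ORQ.exists_rep (hf i)
  obtain ⟨Q, hQ, hQ', hQf⟩ := reps (∏ i, a i * b i)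
    (Finset.prod_ne_zero_iff.2 fun i _ => mul_ne_zero (ha i) (hb i))
  have hda : ∀ i, a i ∣ ∏ i, a i * b i := fun i =>
    (dvd_mul_right _ _).trans (Finset.dvd_prod_of_mem _ (Finset.mem_univ i))
  have hdb : ∀ i, b i ∣ ∏ i, a i * b i := fun i =>
    (dvd_mul_left _ _).trans (Finset.dvd_prod_of_mem _ (Finset.mem_univ i))
  have hord : ∀ (v : DivVal n (Rat n)) i, v.ord (f i) = v.ord (pol (a i)) - v.ord (pol (b i)) := by
    intro v i
    rw [← hab i, v.ord_mul _ _ (hf i) (ORQ.pol_ne (hb i)), add_sub_cancel_right]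
  have hv1 : ∀ i, v'.ord (f i) =
      ∑ q ∈ Q, ((multiplicity q (a i) : ℤ) - multiplicity q (b i)) * v'.ord (pol q) := by
    intro i
    rw [hord, ord_pol v' Q hQ hQ' (a i) (ha i) fun π hπ hd => hQf π hπ (hd.trans (hda i)),
      ord_pol v' Q hQ hQ' (b i) (hb i) fun π hπ hd => hQf π hπ (hd.trans (hdb i)),
      ← Finset.sum_sub_distrib]
    exact Finset.sum_congr rfl fun q _ => by ring
  have hv2 : ∑ i, c i * (v'.ord (f i) : ℝ) = ∑ q ∈ Q, (v'.ord (pol q) : ℝ) *
      ∑ i, c i * (((multiplicity q (a i) : ℤ) - (multiplicity q (b i) : ℤ) : ℤ) : ℝ) := by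
    simp_rw [hv1, Finset.mul_sum]
    push_cast
    simp_rw [Finset.mul_sum]
    rw [Finset.sum_comm]
    exact Finset.sum_congr rfl fun q _ => Finset.sum_congr rfl fun i _ => by ring
  rw [hv2]
  refine Finset.sum_eq_zero fun q hq => ?_
  by_cases hc : constantCoeff q = 0
  · obtain ⟨w, hw, _⟩ := h1 q (hQ q hq)
    have h2 := H q w (hQ q hq) hc hw
    have h3 : ∀ i, w.ord (f i) = (multiplicity q (a i) : ℤ) - (multiplicity q (b i) : ℤ) := by
      intro i
      rw [hord, hw _ (ha i), hw _ (hb i)]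
    simp_rw [h3] at h2
    rw [h2, mul_zero]
  · rw [ord_zero_of hv hc]
    simp

end MldGeo
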