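import Pool.Agent.MldGeo.HTQ

/-!
# UNR: the quotient by a group which acts freely outside the origin is unramified in codimension one
-/

namespace MldGeo

namespace UNR

open MvPolynomial

variable {n : ℕ}

/-! ### linear forms -/

/-- The linear form with the given coefficients. -/
noncomputable def lf (d : Fin n → ℂ) : MvPolynomial (Fin n) ℂ := ∑ j, C (d j) * X j

theorem coeff_lf (d : Fin n → ℂ) (j : Fin n) : (lf d).coeff (Finsupp.single j 1) = d j := by
  classical
  rw [lf, coeff_sum, Finset.sum_eq_single j]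
  · rw [coeff_C_mul, coeff_X, if_pos rfl, mul_one]
  · intro i _ hi
    rw [coeff_C_mul, coeff_X, if_neg, mul_zero]
    intro h
    exact hi (Finsupp.single_left_injective one_ne_zero h)
  · intro h
    exact absurd (Finset.mem_univ j) h

theorem totalDegree_lf (d : Fin n → ℂ) : (lf d).totalDegree ≤ 1 := by
  refine totalDegree_finsetSum_le fun j _ => ?_
  refine (totalDegree_mul _ _).trans ?_
  rw [totalDegree_C, zero_add, totalDegree_X]

theorem lf_ne_zero {d : Fin n → ℂ} (hd : d ≠ 0) : lf d ≠ 0 := by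
  intro h
  apply hd
  funext j
  have := coeff_lf d j
  rw [h, coeff_zero] at this
  rw [← this]
  rfl

theorem one_le_totalDegree {q : MvPolynomial (Fin n) ℂ} (hq : Irreducible q) :
    1 ≤ q.totalDegree := by
  by_contra h
  have h1 : q.totalDegree = 0 := by omega
  rw [totalDegree_eq_zero_iff_eq_C] at h1
  rcases eq_or_ne (q.coeff 0) 0 with h2 | h2
  · exact hq.ne_zero (by rw [h1, h2, C_0])
  · apply hq.not_isUnit
    rw [h1]
    exact (isUnit_iff_ne_zero.mpr h2).map C

theorem cofactor {q : MvPolynomial (Fin n) ℂ} (hq : Irreducible q) (d : Fin n → ℂ)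
    (h : q ∣ lf d) : ∃ a : ℂ, lf d = q * C a := by
  obtain ⟨r, hr⟩ := h
  rcases eq_or_ne r 0 with h0 | h0
  · exact ⟨0, by rw [hr, h0, C_0]⟩
  · have h1 := totalDegree_mul_of_isDomain hq.ne_zero h0
    have h2 := totalDegree_lf d
    rw [hr, h1] at h2
    have h3 := one_le_totalDegree hq
    have h4 : r.totalDegree = 0 := by omega
    rw [totalDegree_eq_zero_iff_eq_C] at h4
    exact ⟨r.coeff 0, by rw [← h4, hr]⟩

theorem proportional {q : MvPolynomial (Fin n) ℂ} (hq : Irreducible q) {d : Fin n → ℂ}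
    (hd : d ≠ 0) (h : q ∣ lf d) (d' : Fin n → ℂ) (h' : q ∣ lf d') : ∃ c : ℂ, ∀ j, d' j = c * d j := by
  obtain ⟨a, ha⟩ := cofactor hq d h
  obtain ⟨a', ha'⟩ := cofactor hq d' h'
  have ha0 : a ≠ 0 := by
    rintro rfl
    rw [C_0, mul_zero] at ha
    exact lf_ne_zero hd ha
  refine ⟨a' / a, fun j => ?_⟩
  rw [← coeff_lf d' j, ← coeff_lf d j, ha, ha', mul_comm q, mul_comm q, coeff_C_mul, coeff_C_mul]
  field_simp

theorem linSubst_sub (g : GL (Fin n) ℂ) (i : Fin n) :
    linSubst g (X i) - X i = lf (((g : Matrix (Fin n) (Fin n) ℂ) - 1) i) := by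
  have h1 : (X i : MvPolynomial (Fin n) ℂ) =
      ∑ j, C ((1 : Matrix (Fin n) (Fin n) ℂ) i j) * X j := by
    rw [Finset.sum_eq_single i]
    · rw [Matrix.one_apply_eq, C_1, one_mul]
    · intro j _ hj
      rw [Matrix.one_apply_ne hj.symm, C_0, zero_mul]
    · intro h
      exact absurd (Finset.mem_univ i) h
  calc linSubst g (X i) - X i = ∑ j, C ((g : Matrix (Fin n) (Fin n) ℂ) i j) * X j -
        ∑ j, C ((1 : Matrix (Fin n) (Fin n) ℂ) i j) * X j := by rw [← h1, HTQ.linSubst_X]
    _ = ∑ j, C (((g : Matrix (Fin n) (Fin n) ℂ) - 1) i j) * X j := by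
      rw [← Finset.sum_sub_distrib]
      refine Finset.sum_congr rfl fun j _ => ?_
      rw [Matrix.sub_apply, C_sub, sub_mul]
    _ = _ := rfl

/-- A linear form in at least two variables has a nontrivial zero. -/
theorem exists_zero (hn : 2 ≤ n) (d : Fin n → ℂ) : ∃ u : Fin n → ℂ, u ≠ 0 ∧ ∑ j, d j * u j = 0 := by
  classical
  let a : Fin n := ⟨0, by omega⟩
  let b : Fin n := ⟨1, by omega⟩
  have hab : a ≠ b := by
    intro h
    have := congrArg Fin.val h
    simp [a, b] at this
  by_cases ha : d a = 0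
  · refine ⟨Pi.single a 1, ?_, ?_⟩
    · intro h
      have := congrFun h a
      simp at this
    · rw [Finset.sum_eq_single a]
      · rw [ha, zero_mul]
      · intro j _ hj
        rw [Pi.single_eq_of_ne hj, mul_zero]
      · intro h
        exact absurd (Finset.mem_univ a) h
  · refine ⟨Pi.single b (d a) - Pi.single a (d b), ?_, ?_⟩
    · intro h
      have := congrFun h b
      rw [Pi.sub_apply, Pi.single_eq_same, Pi.single_eq_of_ne hab.symm, sub_zero] at this
      exact ha this
    · simp only [Pi.sub_apply, mul_sub, Finset.sum_sub_distrib]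
      rw [Finset.sum_eq_single b, Finset.sum_eq_single a]
      · rw [Pi.single_eq_same, Pi.single_eq_same]
        ring
      · intro j _ hj
        rw [Pi.single_eq_of_ne hj, mul_zero]
      · intro h
        exact absurd (Finset.mem_univ a) h
      · intro j _ hj
        rw [Pi.single_eq_of_ne hj, mul_zero]
      · intro h
        exact absurd (Finset.mem_univ b) h

/-- A nontrivial linear map which acts trivially modulo `q` has a nontrivial fixed vector. -/
theorem exists_fixed (hn : 2 ≤ n) (g : GL (Fin n) ℂ) (hg : g ≠ 1) {q : MvPolynomial (Fin n) ℂ}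
    (hq : Irreducible q) (h : ∀ i, q ∣ linSubst g (X i) - X i) :
    ∃ u : Fin n → ℂ, u ≠ 0 ∧ (g : Matrix (Fin n) (Fin n) ℂ).mulVec u = u := by
  have h1 : ∃ i, ((g : Matrix (Fin n) (Fin n) ℂ) - 1) i ≠ 0 := by
    by_contra hcon
    push Not at hcon
    apply hg
    apply Units.ext
    rw [Units.val_one, ← sub_eq_zero]
    funext i
    exact hcon i
  obtain ⟨i0, hi0⟩ := h1
  simp only [linSubst_sub] at h
  have h2 := fun i => proportional hq hi0 (h i0) _ (h i)
  choose c hc using h2
  obtain ⟨u, hu, hu'⟩ := exists_zero hn (((g : Matrix (Fin n) (Fin n) ℂ) - 1) i0)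
  refine ⟨u, hu, ?_⟩
  have h3 : ((g : Matrix (Fin n) (Fin n) ℂ) - 1).mulVec u = 0 := by
    funext i
    change ∑ j, ((g : Matrix (Fin n) (Fin n) ℂ) - 1) i j * u j = 0
    calc _ = ∑ j, c i * (((g : Matrix (Fin n) (Fin n) ℂ) - 1) i0 j * u j) :=
          Finset.sum_congr rfl fun j _ => by rw [hc i j, mul_assoc]
      _ = 0 := by rw [← Finset.mul_sum, hu', mul_zero]
  rw [Matrix.sub_mulVec, Matrix.one_mulVec, sub_eq_zero] at h3
  exact h3

theorem pol_ne_zero {p : MvPolynomial (Fin n) ℂ} (hp : p ≠ 0) : pol p ≠ 0 := by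
  intro h
  exact hp ((IsFractionRing.injective (MvPolynomial (Fin n) ℂ) (Rat n)) (by
    rw [map_zero]; exact h))

theorem dvd_of_ge {q : MvPolynomial (Fin n) ℂ} (w : DivVal n (Rat n))
    (hw : ∀ p, p ≠ 0 → w.ord (pol p) = (multiplicity q p : ℤ)) {k : ℤ} (hk : 1 ≤ k)
    {p : MvPolynomial (Fin n) ℂ} (h : w.Ge k (pol p)) : q ∣ p := by
  rcases eq_or_ne p 0 with rfl | hp
  · exact dvd_zero _
  · have h1 := h.le (pol_ne_zero hp)
    rw [hw p hp] at h1
    by_contra h2
    rw [← multiplicity_eq_zero] at h2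
    rw [h2] at h1
    omega

end UNR

open MvPolynomial in
/-- UNR: free actions are unramified in codimension one. -/
theorem t_UNR (h1 : Stmt_ORQ) (h2 : Stmt_INE) : Stmt_UNR := by
  intro n X G _ φ _ hQ hn hfree q hq v e he
  obtain ⟨w, hw, -⟩ := h1 q hq
  -- the ramification index is positive
  have hepos : 0 < e := by
    obtain ⟨a, ha0, hqa⟩ := HTQ.exists_norm G q hq.ne_zero
    have hr : φ.symm a ≠ 0 := by
      intro h
      apply ha0
      have h2 := congrArg φ h
      rw [AlgEquiv.apply_symm_apply, map_zero] at h2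
      rw [h2]
      rfl
    have h2 := he (φ.symm a) hr
    rw [AlgEquiv.apply_symm_apply] at h2
    rcases Nat.eq_zero_or_pos e with h3 | h3
    · exfalso
      rw [h3, Nat.cast_zero, zero_mul] at h2
      have h4 : multiplicity q (a : MvPolynomial (Fin n) ℂ) = 0 := by exact_mod_cast h2
      rw [multiplicity_eq_zero] at h4
      exact h4 hqa
    · exact h3
  -- `w` extends `v`
  have hR : ∀ a : X.R, w.ord (algebraMap X.K (Rat n) a) = e * v.ord a := by
    intro a
    rcases eq_or_ne a 0 with rfl | ha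
    · rw [show ((0 : X.R) : X.K) = 0 from rfl, map_zero, w.ord_zero, v.ord_zero, mul_zero]
    · rw [hQ.map a, ← he a ha]
      apply hw
      intro h
      apply ha
      have h3 : φ a = 0 := Subtype.ext h
      rw [← φ.symm_apply_apply a, h3, map_zero]
  have hext : IsExt w v e := by
    refine ⟨hepos, fun a => ?_⟩
    rcases eq_or_ne a 0 with rfl | ha
    · rw [map_zero, w.ord_zero, v.ord_zero, mul_zero]
    · obtain ⟨r, hr, s, hs, hs0, hrs⟩ := X.frac a
      have hinj : Function.Injective (algebraMap X.K (Rat n)) := (algebraMap X.K (Rat n)).injective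
      have h3 : w.ord (algebraMap X.K (Rat n) r) = e * v.ord r := hR ⟨r, hr⟩
      have h4 : w.ord (algebraMap X.K (Rat n) s) = e * v.ord s := hR ⟨s, hs⟩
      rw [← hrs, map_mul, w.ord_mul _ _ ((map_ne_zero_iff _ hinj).mpr ha)
        ((map_ne_zero_iff _ hinj).mpr hs0), v.ord_mul _ _ ha hs0, h4, mul_add] at h3
      omega
  have := hQ.tower
  have := hQ.fin
  have := hQ.gal
  obtain ⟨σ, hσ1, hσ2⟩ := h2 w v e hext
  obtain ⟨g, hgG, hg⟩ := hQ.act σ
  by_contra hne
  have he2 : 1 < e := by omega
  -- `g` acts trivially modulo `q`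
  have htriv : ∀ p : MvPolynomial (Fin n) ℂ, q ∣ linSubst g p - p := by
    intro p
    rcases eq_or_ne p 0 with rfl | hp
    · rw [map_zero, sub_zero]; exact dvd_zero _
    by_cases hqp : q ∣ p
    · refine dvd_sub ?_ hqp
      have hp' : linSubst g p ≠ 0 := fun h => hp (HTQ.linSubst_injective g (by rw [h, map_zero]))
      have h3 := hσ1 (pol p)
      rw [hg, hw _ hp', hw _ hp] at h3
      have h4 : multiplicity q p ≠ 0 := by rwa [ne_eq, multiplicity_eq_zero, not_not]
      have h5 : multiplicity q (linSubst g p) ≠ 0 := by omega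
      rwa [ne_eq, multiplicity_eq_zero, not_not] at h5
    · have h3 := hσ2 (pol p) (UNR.pol_ne_zero hp)
      have h4 : w.ord (pol p) = 0 := by
        rw [hw p hp, multiplicity_eq_zero.mpr hqp, Nat.cast_zero]
      rw [h4, zero_add, hg, Int.cast_zero, mul_zero, zero_div, Complex.exp_zero, map_one,
        one_mul] at h3
      refine UNR.dvd_of_ge w hw le_rfl (k := 1) ?_
      have h5 : pol (linSubst g p - p) = pol (linSubst g p) - pol p := map_sub _ _ _
      rw [h5]
      exact h3
  -- `g` is not the identity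
  have hg1 : g ≠ 1 := by
    rintro rfl
    have hqq : w.ord (pol q) = 1 := by
      rw [hw q hq.ne_zero, multiplicity_self, Nat.cast_one]
    have h3 := hσ2 (pol q) (UNR.pol_ne_zero hq.ne_zero)
    rw [hg, HTQ.linSubst_one, hqq, Int.cast_one, mul_one] at h3
    have hζ : Complex.exp (2 * Real.pi * Complex.I / e) ≠ 1 :=
      (Complex.isPrimitiveRoot_exp e hepos.ne').ne_one he2
    have h4 : pol q - algebraMap ℂ (Rat n) (Complex.exp (2 * Real.pi * Complex.I / e)) * pol q =
        algebraMap ℂ (Rat n) (1 - Complex.exp (2 * Real.pi * Complex.I / e)) * pol q := by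
      rw [map_sub, map_one, sub_mul, one_mul]
    rw [h4] at h3
    have h5 : (1 - Complex.exp (2 * Real.pi * Complex.I / e)) ≠ 0 :=
      sub_ne_zero.mpr hζ.symm
    have h6 := h3.le (mul_ne_zero
      ((map_ne_zero_iff _ (algebraMap ℂ (Rat n)).injective).mpr h5) (UNR.pol_ne_zero hq.ne_zero))
    rw [DivVal.ord_const_mul w h5, hqq] at h6
    omega
  obtain ⟨u, hu, hu'⟩ := UNR.exists_fixed hn g hg1 hq fun i => htriv (MvPolynomial.X i)
  exact hu (hfree g hgG hg1 u hu')

end MldGeo
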