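import Pool.Agent.MldGeo.Stmts2
import Pool.Agent.MldGeo.Ord
import Pool.Agent.MldGap.Quot

/-!
# The upper bound for log discrepancies of quotient singularities
-/

namespace MldGeo

open MvPolynomial

noncomputable section

namespace UPP

variable {n : ℕ}

theorem linSubst_comp (g h : GL (Fin n) ℂ) (p : MvPolynomial (Fin n) ℂ) :
    linSubst g (linSubst h p) = linSubst (h * g) p := by
  have h1 : (linSubst g).comp (linSubst h) = linSubst (h * g) := by
    refine MvPolynomial.algHom_ext fun i => ?_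
    rw [AlgHom.comp_apply]
    simp only [linSubst, aeval_X, map_sum, map_mul]
    rw [Units.val_mul]
    have : ∀ k, (C (((h : Matrix (Fin n) (Fin n) ℂ) * (g : Matrix (Fin n) (Fin n) ℂ)) i k) :
        MvPolynomial (Fin n) ℂ) = ∑ j, C ((h : Matrix (Fin n) (Fin n) ℂ) i j) *
          C ((g : Matrix (Fin n) (Fin n) ℂ) j k) := by
      intro k
      rw [Matrix.mul_apply, map_sum]
      simp only [map_mul]
    simp only [this, Finset.sum_mul, Finset.mul_sum]
    rw [Finset.sum_comm]
    refine Finset.sum_congr rfl fun k _ => Finset.sum_congr rfl fun j _ => ?_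
    rw [← algebraMap_eq, AlgHom.commutes]
    ring
  exact DFunLike.congr_fun h1 p

theorem linSubst_one (p : MvPolynomial (Fin n) ℂ) : linSubst (1 : GL (Fin n) ℂ) p = p := by
  have h1 : linSubst (1 : GL (Fin n) ℂ) = AlgHom.id ℂ _ := by
    refine MvPolynomial.algHom_ext fun i => ?_
    simp only [linSubst, aeval_X, Units.val_one, AlgHom.id_apply]
    rw [Finset.sum_eq_single i]
    · simp
    · intro j _ hj
      simp [Matrix.one_apply_ne' hj]
    · intro h
      exact absurd (Finset.mem_univ i) h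
  exact DFunLike.congr_fun h1 p

/-- The diagonal substitution. -/
def dia (l : Fin n → ℂ) : MvPolynomial (Fin n) ℂ →ₐ[ℂ] MvPolynomial (Fin n) ℂ :=
  aeval fun i => C (l i) * X i

theorem coeff_dia (l : Fin n → ℂ) (p : MvPolynomial (Fin n) ℂ) (m : Fin n →₀ ℕ) :
    coeff m (dia l p) = (∏ i, l i ^ m i) * coeff m p := by
  induction p using MvPolynomial.induction_on' with
  | monomial u c =>
    have h1 : dia l (monomial u c) = monomial u (c * ∏ i, l i ^ u i) := by
      rw [dia, aeval_monomial, algebraMap_eq, Finsupp.prod_fintype _ _ (by simp)]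
      simp only [mul_pow, Finset.prod_mul_distrib]
      rw [monomial_eq, C_mul, Finsupp.prod_fintype _ _ (by simp), map_prod]
      simp only [map_pow]
      ring
    rw [h1, coeff_monomial, coeff_monomial]
    split_ifs with h
    · rw [h]
      ring
    · rw [mul_zero]
  | add p q hp hq => rw [map_add, coeff_add, coeff_add, hp, hq, mul_add]

/-- invariant monomials -/
theorem inv_mono {g P : GL (Fin n) ℂ} {l : Fin n → ℂ}
    (hl : ∀ i, linSubst g (linSubst P (X i)) = C (l i) * linSubst P (X i))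
    {p : MvPolynomial (Fin n) ℂ} (hp : linSubst g (linSubst P p) = linSubst P p)
    {m : Fin n →₀ ℕ} (hm : m ∈ p.support) : ∏ i, l i ^ m i = 1 := by
  have h1 : (linSubst g).comp (linSubst P) = (linSubst P).comp (dia l) := by
    refine MvPolynomial.algHom_ext fun i => ?_
    rw [AlgHom.comp_apply, AlgHom.comp_apply, hl, dia, aeval_X, map_mul]
    congr 1
    rw [← algebraMap_eq, AlgHom.commutes]
  have h2 : linSubst P (dia l p) = linSubst P p := by
    rw [← hp]
    exact (DFunLike.congr_fun h1 p).symm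
  have h3 : dia l p = p := by
    have := congrArg (linSubst P⁻¹) h2
    rwa [linSubst_comp, linSubst_comp, mul_inv_cancel, linSubst_one, linSubst_one] at this
  have h4 := coeff_dia l p m
  rw [h3] at h4
  have h5 : coeff m p ≠ 0 := mem_support_iff.1 hm
  have h6 : (∏ i, l i ^ m i) * coeff m p = 1 * coeff m p := by rw [one_mul]; exact h4.symm
  exact mul_right_cancel₀ h5 h6

theorem root_exp {z : ℂ} {N : ℕ} (hN : 0 < N) (hz : z ^ N = 1) :
    ∃ a : ℕ, 0 < a ∧ (a : ℝ) = N * MldGap.th z ∧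
      z = Complex.exp (2 * Real.pi * Complex.I * (a / N)) := by
  have hN' : (0 : ℝ) < N := by exact_mod_cast hN
  have hnorm : ‖z‖ = 1 := Complex.norm_eq_one_of_pow_eq_one hz hN.ne'
  have h1 := MldGap.exp_th hnorm
  have hz' := hz
  rw [← h1, ← Complex.exp_nat_mul, Complex.exp_eq_one_iff] at hz'
  obtain ⟨k, hk⟩ := hz'
  have hpi : (2 * Real.pi * Complex.I : ℂ) ≠ 0 := Complex.two_pi_I_ne_zero
  have h2 : ((N * MldGap.th z : ℝ) : ℂ) = ((k : ℝ) : ℂ) := by
    have h3 : ((N * MldGap.th z : ℝ) : ℂ) * (2 * Real.pi * Complex.I) =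
        ((k : ℝ) : ℂ) * (2 * Real.pi * Complex.I) := by
      have h4 : (((k : ℝ) : ℂ)) = (k : ℂ) := by push_cast; rfl
      rw [h4, ← hk]
      push_cast
      ring
    exact mul_right_cancel₀ hpi h3
  have h3 : N * MldGap.th z = (k : ℝ) := by exact_mod_cast h2
  have hk0 : (0 : ℝ) < (k : ℝ) := by
    rw [← h3]
    exact mul_pos hN' (MldGap.th_pos z)
  have hk1 : 0 < k := by exact_mod_cast hk0
  obtain ⟨a, rfl⟩ := Int.eq_ofNat_of_zero_le hk1.le
  refine ⟨a, by exact_mod_cast hk1, by rw [h3]; push_cast; rfl, ?_⟩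
  have h5 : MldGap.th z = (a : ℝ) / N := by
    rw [eq_div_iff hN'.ne', mul_comm, h3]
    push_cast
    rfl
  conv_lhs => rw [← h1, h5]
  congr 1
  push_cast
  ring

theorem bezout (b : Fin n → ℕ) (hb : Finset.univ.gcd b = 1) :
    ∃ c : Fin n → ℤ, ∑ i, c i * (b i : ℤ) = 1 := by
  let J : Ideal ℤ := Ideal.span (Set.range fun i => (b i : ℤ))
  obtain ⟨x, hx⟩ := (IsPrincipalIdealRing.principal J).principal
  have hdvd : ∀ i, x.natAbs ∣ b i := by
    intro i
    have h1 : (b i : ℤ) ∈ J := Ideal.subset_span ⟨i, rfl⟩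
    rw [hx] at h1
    have h2 : x ∣ (b i : ℤ) := Ideal.mem_span_singleton.1 h1
    exact Int.natAbs_dvd_natAbs.2 h2
  have h1 : x.natAbs ∣ 1 := by
    rw [← hb]
    exact Finset.dvd_gcd fun i _ => hdvd i
  have h2 : (1 : ℤ) ∈ J := by
    rw [hx]
    refine Ideal.mem_span_singleton.2 ?_
    exact Int.natAbs_dvd_natAbs.1 (by simpa using h1)
  exact (Ideal.mem_span_range_iff_exists_fun).1 h2

end UPP

theorem t_UPP (h1 : Stmt_EXR) (h2 : Stmt_POS) (h3 : Stmt_DIA) (h4 : Stmt_MON) (h5 : Stmt_TRF) :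
    Stmt_UPP := by
  intro n X G _ φ _ hQ hn T hC g hg
  have := hQ.tower
  have := hQ.fin
  have hfin : IsOfFinOrder g := by
    have := isOfFinOrder_of_finite (⟨g, hg⟩ : G)
    obtain ⟨m, hm, hm1⟩ := this.exists_pow_eq_one
    exact isOfFinOrder_iff_pow_eq_one.2 ⟨m, hm, by simpa using congrArg Subtype.val hm1⟩
  obtain ⟨N, hN⟩ : ∃ N, N = orderOf g := ⟨_, rfl⟩
  have hN0 : 0 < N := by rw [hN]; exact hfin.orderOf_pos
  obtain ⟨P, l, hl, hl1, hroots⟩ := h3 g hfin
  rw [← hN] at hl1
  choose a ha0 ha1 ha2 using fun i => UPP.root_exp hN0 (hl1 i)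
  have hage : MldGap.logAge g = ∑ i, MldGap.th (l i) := by
    unfold MldGap.logAge
    rw [hroots, Multiset.map_map]
    rfl
  have hne : (Finset.univ : Finset (Fin n)).Nonempty := ⟨⟨0, hn⟩, Finset.mem_univ _⟩
  obtain ⟨b, hb, hb1⟩ := Finset.extract_gcd a hne
  obtain ⟨d, hd⟩ : ∃ d, d = Finset.univ.gcd a := ⟨_, rfl⟩
  rw [← hd] at hb
  have hd0 : 0 < d := by
    rcases Nat.eq_zero_or_pos d with h | h
    · have := hb ⟨0, hn⟩ (Finset.mem_univ _)
      rw [h, zero_mul] at this
      have := ha0 ⟨0, hn⟩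
      omega
    · exact h
  have hb0 : ∀ i, 0 < b i := by
    intro i
    rcases Nat.eq_zero_or_pos (b i) with h | h
    · have := hb i (Finset.mem_univ _)
      rw [h, mul_zero] at this
      have := ha0 i
      omega
    · exact h
  obtain ⟨v', hcen, hlog, hmon⟩ := h4 P b hn hb0 (UPP.bezout b hb1)
  obtain ⟨v, e, hext⟩ := h1 (K := X.K) v' hn
  refine ⟨v, (h2 hQ v' v e hext).2 hcen, ?_⟩
  have htrf := h5 hQ hn T hC v' v e hext hcen
  rw [hlog] at htrf
  have he0 : 0 < e := hext.1
  -- the order of a regular function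
  have key : ∀ r : X.R, (r : X.K) ≠ 0 → (N : ℤ) ∣ d * e * v.ord (r : X.K) := by
    intro r hr
    have hr' : r ≠ 0 := fun h => hr (by rw [h]; rfl)
    have hφ : (φ r : MvPolynomial (Fin n) ℂ) ≠ 0 := by
      intro h
      apply hr'
      have : φ r = 0 := Subtype.ext h
      exact (map_eq_zero_iff φ φ.injective).1 this
    obtain ⟨p, hp⟩ : ∃ p, p = linSubst P⁻¹ (φ r : MvPolynomial (Fin n) ℂ) := ⟨_, rfl⟩
    have hp1 : linSubst P p = (φ r : MvPolynomial (Fin n) ℂ) := by
      rw [hp, UPP.linSubst_comp, inv_mul_cancel, UPP.linSubst_one]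
    have hp0 : p ≠ 0 := by
      intro h
      rw [h, map_zero] at hp1
      exact hφ hp1.symm
    obtain ⟨m, hm, hord⟩ := hmon p hp0
    have hinv : linSubst g (linSubst P p) = linSubst P p := by
      rw [hp1]
      exact (φ r).2 g hg
    have hm1 := UPP.inv_mono hl hinv hm
    have hord2 : v'.ord (pol (linSubst P p)) = e * v.ord (r : X.K) := by
      rw [hp1, ← hQ.map r]
      exact hext.2 _
    rw [hord2] at hord
    have hexp : Complex.exp (2 * Real.pi * Complex.I * ((∑ i, (a i * m i : ℕ) : ℕ) / N)) = 1 := by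
      rw [← hm1]
      rw [show (2 * Real.pi * Complex.I * (((∑ i, (a i * m i : ℕ) : ℕ) : ℂ) / N) : ℂ) =
        ∑ i, (m i : ℂ) * (2 * Real.pi * Complex.I * (a i / N)) by
          push_cast
          rw [Finset.sum_div, Finset.mul_sum]
          refine Finset.sum_congr rfl fun i _ => ?_
          ring, Complex.exp_sum]
      refine Finset.prod_congr rfl fun i _ => ?_
      rw [Complex.exp_nat_mul, ← ha2 i]
    rw [Complex.exp_eq_one_iff] at hexp
    obtain ⟨k, hk⟩ := hexp
    have hpi : (2 * Real.pi * Complex.I : ℂ) ≠ 0 := Complex.two_pi_I_ne_zero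
    have hNC : (N : ℂ) ≠ 0 := by exact_mod_cast hN0.ne'
    have hk1 : ((∑ i, (a i * m i : ℕ) : ℕ) : ℂ) = N * k := by
      have h6 : (((∑ i, (a i * m i : ℕ) : ℕ) : ℂ) / N) * (2 * Real.pi * Complex.I) =
          k * (2 * Real.pi * Complex.I) := by
        rw [← hk]
        ring
      have h7 := mul_right_cancel₀ hpi h6
      rw [div_eq_iff hNC] at h7
      rw [h7]
      ring
    have hk2 : ((∑ i, (a i * m i : ℕ) : ℕ) : ℤ) = N * k := by exact_mod_cast hk1
    have hk3 : ((∑ i, (a i * m i : ℕ) : ℕ) : ℤ) = d * e * v.ord (r : X.K) := by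
      rw [mul_assoc, hord, Finset.mul_sum]
      push_cast
      refine Finset.sum_congr rfl fun i _ => ?_
      rw [hb i (Finset.mem_univ _)]
      push_cast
      ring
    exact ⟨k, by rw [← hk3, hk2]⟩
  have hdvd : (N : ℤ) ∣ d * e := by
    obtain ⟨t, ht0, ht1⟩ := v.unif
    obtain ⟨r, hr, s, hs, hs0, hrs⟩ := X.frac t
    have hr0 : r ≠ 0 := by rw [← hrs]; exact mul_ne_zero ht0 hs0
    have h6 := key ⟨r, hr⟩ hr0
    have h7 := key ⟨s, hs⟩ hs0
    have h8 : v.ord r = 1 + v.ord s := by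
      rw [← hrs, v.ord_mul t s ht0 hs0, ht1]
    have h9 : (d : ℤ) * e = d * e * v.ord r - d * e * v.ord s := by
      rw [h8]
      ring
    rw [h9]
    exact dvd_sub h6 h7
  have hle : N ≤ d * e := Nat.le_of_dvd (Nat.mul_pos hd0 he0) (by exact_mod_cast hdvd)
  have hNR : (0 : ℝ) < N := by exact_mod_cast hN0
  have hdR : (0 : ℝ) < d := by exact_mod_cast hd0
  have heR : (0 : ℝ) < e := by exact_mod_cast he0
  have hleR : (N : ℝ) ≤ d * e := by exact_mod_cast hle
  have hsum : (d : ℝ) * ((∑ i, (b i : ℤ) : ℤ) : ℝ) = N * MldGap.logAge g := by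
    rw [hage, Finset.mul_sum]
    push_cast
    rw [Finset.mul_sum]
    refine Finset.sum_congr rfl fun i _ => ?_
    rw [← ha1 i, hb i (Finset.mem_univ _)]
    push_cast
    ring
  have hage0 : 0 ≤ MldGap.logAge g := MldGap.logAge_nonneg g
  have h10 : T.logDisc v * (d * e) = N * MldGap.logAge g := by
    rw [← hsum, ← htrf]
    ring
  have hde : (0 : ℝ) < d * e := mul_pos hdR heR
  rw [← mul_le_mul_iff_left₀ hde, h10, mul_comm (MldGap.logAge g)]
  exact mul_le_mul_of_nonneg_right hleR hage0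

end

end MldGeo
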