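import Pool.Agent.MldGeo.AsmQ
import Pool.Agent.MldGeo.FRA
import Pool.Agent.MldGeo.TBAS
import Pool.Agent.MldGeo.LOGD
import Pool.Agent.MldGeo.COE
import Pool.Agent.MldGeo.FRM
import Pool.Agent.MldGeo.FSM
import Pool.Agent.MldGeo.FDL
import Pool.Agent.MldGeo.REG
import Pool.Agent.MldGeo.TXT
import Pool.Agent.MldGeo.EXR
import Pool.Agent.MldGeo.EXT
import Pool.Agent.MldGeo.EXF
import Pool.Agent.MldGeo.INE
import Pool.Agent.MldGeo.DIV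
import Pool.Agent.MldGeo.HT1
import Pool.Agent.MldGeo.LOC
import Pool.Agent.MldGeo.OLC
import Pool.Agent.MldGeo.GAL
import Pool.Agent.MldGeo.TDR
import Pool.Agent.MldGeo.POS
import Pool.Agent.MldGeo.DIA
import Pool.Agent.MldGeo.CHG
import Pool.Agent.MldGeo.ORQ
import Pool.Agent.MldGeo.MON
import Pool.Agent.MldGeo.PUL
import Pool.Agent.MldGeo.TRF
import Pool.Agent.MldGeo.LOW
import Pool.Agent.MldGeo.UPP
import Pool.Agent.MldGeo.MLQ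
import Pool.Agent.MldGeo.GEX
import Pool.Agent.MldGeo.TEX
import Pool.Agent.MldGeo.HTQ
import Pool.Agent.MldGeo.LOQ
import Pool.Agent.MldGeo.UNR
import Pool.Agent.MldGeo.EXA
import Pool.Agent.MldGeo.SPL
import Pool.Agent.MldGeo.HLI
import Pool.Agent.MldGeo.HFR
import Pool.Agent.MldGeo.HFK
import Pool.Agent.MldGeo.TRD
import Pool.Agent.MldGeo.TRB
import Pool.Agent.MldGeo.NHP
import Pool.Agent.MldGeo.GHO
import Pool.Agent.MldGeo.RED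
import Pool.Agent.MldGeo.GAV
import Pool.Agent.MldGeo.TOR
import Pool.Agent.MldGeo.MOI
import Pool.Agent.MldGeo.CONE
import Pool.Agent.MldGeo.TRAY
import Pool.Agent.MldGeo.PSI
import Pool.Agent.MldGeo.TDC
import Pool.Agent.MldGeo.TDG
import Pool.Agent.MldGeo.KCO
import Pool.Agent.MldGeo.FRE
import Pool.Agent.MldGeo.UFQ

/-!
# The statements of the project without hypotheses
-/

namespace MldGeo

theorem c_COE : Stmt_COE := t_COE t_FRA (t_LOGD t_FRA) t_TBAS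
theorem c_FRM : Stmt_FRM := t_FRM t_FRA t_TBAS c_COE
theorem c_FSM : Stmt_FSM := t_FSM t_FRA c_FRM
theorem c_FDL : Stmt_FDL := t_FDL t_FRA c_FRM
theorem c_REG : Stmt_REG := t_REG t_FRA (t_LOGD t_FRA) t_TBAS c_FRM
theorem c_TXT : Stmt_TXT := t_TXT t_FRA (t_LOGD t_FRA) t_TBAS c_FRM
theorem c_EXF : Stmt_EXF := t_EXF t_FRA t_TBAS (t_LOGD t_FRA) c_FRM c_FSM
theorem c_LOC : Stmt_LOC := t_LOC t_DIV
theorem c_CHG : Stmt_CHG := t_CHG t_TBAS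
theorem c_ORQ : Stmt_ORQ := t_ORQ c_REG t_TDR
theorem c_MON : Stmt_MON := t_MON t_FRA c_FRM c_FSM c_CHG t_TDR
theorem c_PUL : Stmt_PUL := t_PUL c_EXF c_FSM t_TBAS t_TDR
theorem c_UFQ : Stmt_UFQ := t_UFQ c_ORQ
theorem c_TRF : Stmt_TRF := t_TRF t_EXR c_PUL c_UFQ c_ORQ c_TXT
theorem c_LOW : Stmt_LOW := t_LOW t_EXT t_INE t_POS t_DIA c_CHG c_TRF c_FSM c_FDL
theorem c_UPP : Stmt_UPP := t_UPP t_EXR t_POS t_DIA c_MON c_TRF
theorem c_MLQ : Stmt_MLQ := t_MLQ t_GAL c_LOW c_UPP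
theorem c_GEX : Stmt_GEX := t_GEX t_TDR
theorem c_TEX : Stmt_TEX := t_TEX t_GAL c_PUL c_ORQ c_TXT t_TBAS
theorem c_HTQ : Stmt_HTQ := t_HTQ t_HT1
theorem c_LOQ : Stmt_LOQ := t_LOQ c_ORQ t_EXR t_UNI
theorem c_UNR : Stmt_UNR := t_UNR c_ORQ t_INE
theorem c_EXA : Stmt_EXA := t_EXA t_TDR c_ORQ c_MON c_FSM c_FDL c_TXT t_UNI
theorem c_HFK : Stmt_HFK := t_HFK t_HLI t_HFR
theorem c_TRD : Stmt_TRD := t_TRD t_SPL c_HFK
theorem c_TRB : Stmt_TRB := t_TRB c_HFK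
theorem c_NHP : Stmt_NHP := t_NHP t_HFR c_HFK c_TRD c_TRB t_TBAS c_REG c_FSM t_OLC
theorem c_GHO : Stmt_GHO := t_GHO t_HFR t_OLC t_DIV c_LOC
theorem c_RED : Stmt_RED := t_RED c_NHP c_GHO c_TRB t_TBAS c_FSM c_TXT t_DIV
theorem c_GAV : Stmt_GAV := t_GAV (t_GAUT t_TBAS c_FRM)
theorem c_TRAY : Stmt_TRAY := t_TRAY t_HT1
theorem c_KCO : Stmt_KCO := t_KCO c_TRD
theorem c_TOR : Stmt_TOR := t_TOR c_KCO t_SPL t_HLI t_HFR c_HFK c_TRB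
theorem c_PSI : Stmt_PSI := t_PSI c_KCO c_RED
theorem c_TDC : Stmt_TDC := t_TDC t_MOI t_CON c_TRAY c_PSI c_GAV t_IDO c_FDL t_TBAS
theorem c_TDG : Stmt_TDG := t_TDG c_TOR t_CON c_TRAY c_PSI c_GAV c_FDL t_TBAS c_TDC
theorem c_FRE : Stmt_FRE := t_FRE t_GAL c_HTQ c_LOQ c_UNR

end MldGeo
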