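import Pool.Agent.MldGeo.Defs

/-!
# Divisorial valuations: statements of the basic facts
-/

namespace MldGeo

open MvPolynomial

noncomputable section

/-! ## orders -/

/-- `ord a ≥ k` or `a = 0`. -/
def DivVal.Ge {n : ℕ} {K : Type} [Field K] [Algebra ℂ K] (v : DivVal n K) (k : ℤ) (a : K) : Prop :=
  a = 0 ∨ k ≤ v.ord a

section Log

variable {n : ℕ} {K : Type} [Field K] [Algebra ℂ K]

/-- The logarithmic differential `da / a`. -/
def dlog (a : K) : Ω[K⁄ℂ] := a⁻¹ • KaehlerDifferential.D ℂ K a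

/-- The form `dlog a₁ ∧ … ∧ dlog aₙ`. -/
def dlogs (a : Fin n → K) : Forms n K := exteriorPower.ιMulti K n fun i => dlog (a i)

/-- The forms with at most logarithmic poles along the divisor: the sums of forms
`g dlog a₁ ∧ … ∧ dlog aₙ`, `g` regular along the divisor, `a₁, …, aₙ` nonzero. -/
def DivVal.logForms (v : DivVal n K) : AddSubgroup (Forms n K) :=
  AddSubgroup.closure {η | ∃ (g : K) (a : Fin n → K), 0 ≤ v.ord g ∧ (∀ i, a i ≠ 0) ∧
    η = g • dlogs a}

/-- The order of a form along the divisor with respect to logarithmic forms. -/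
def DivVal.logOrd (v : DivVal n K) (ω : Forms n K) : ℤ :=
  sSup {k : ℤ | ∃ g : K, g ≠ 0 ∧ v.ord g = k ∧ ∃ η ∈ v.logForms, ω = g • η}

end Log

/-- `t` is a uniformizer and the `u j` are algebraically independent modulo the maximal ideal. -/
def Frame {m : ℕ} {K : Type} [Field K] [Algebra ℂ K] (v : DivVal (m + 1) K) (t : K)
    (u : Fin m → K) : Prop :=
  t ≠ 0 ∧ v.ord t = 1 ∧ ∀ p : MvPolynomial (Fin m) ℂ, p ≠ 0 → aeval u p ≠ 0 ∧ v.ord (aeval u p) = 0

/-- The form `dlog t ∧ du₁ ∧ … ∧ du_m`. -/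
def frameForm {m : ℕ} {K : Type} [Field K] [Algebra ℂ K] (t : K) (u : Fin m → K) :
    Forms (m + 1) K :=
  exteriorPower.ιMulti K (m + 1) (Fin.cons (dlog t) fun j => KaehlerDifferential.D ℂ K (u j))

/-- FRA: frames exist, and they are algebraically independent. -/
def Stmt_FRA : Prop :=
  ∀ {m : ℕ} {K : Type} [Field K] [Algebra ℂ K] (v : DivVal (m + 1) K),
    (∃ (t : K) (u : Fin m → K), Frame v t u) ∧
    ∀ (t : K) (u : Fin m → K), Frame v t u → AlgebraicIndependent ℂ (Fin.cons t u : Fin (m + 1) → K)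

/-- LOGD: derivations which are logarithmic on a frame are logarithmic; if they kill the residues of
the frame then they kill all residues. -/
def Stmt_LOGD : Prop :=
  ∀ {m : ℕ} {K : Type} [Field K] [Algebra ℂ K], Algebra.trdeg ℂ K = ((m + 1 : ℕ) : Cardinal) →
    ∀ (v : DivVal (m + 1) K) (t : K) (u : Fin m → K), Frame v t u →
    ∀ D : Derivation ℂ K K, v.Ge 1 (D t) → (∀ j, v.Ge 0 (D (u j))) →
      (∀ (a : K) (k : ℤ), v.Ge k a → v.Ge k (D a)) ∧
      ((∀ j, v.Ge 1 (D (u j))) → ∀ a : K, v.Ge 0 a → v.Ge 1 (D a))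

/-- TBAS: the differentials of a transcendence basis are a basis. -/
def Stmt_TBAS : Prop :=
  ∀ {n : ℕ} {K : Type} [Field K] [Algebra ℂ K], Algebra.trdeg ℂ K = (n : Cardinal) →
    ∀ x : Fin n → K, AlgebraicIndependent ℂ x →
      LinearIndependent K (fun i => KaehlerDifferential.D ℂ K (x i)) ∧
      Submodule.span K (Set.range fun i => KaehlerDifferential.D ℂ K (x i)) = ⊤

/-- COE: the coefficients of `dlog a` in a frame. -/
def Stmt_COE : Prop :=
  ∀ {m : ℕ} {K : Type} [Field K] [Algebra ℂ K], Algebra.trdeg ℂ K = ((m + 1 : ℕ) : Cardinal) →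
    ∀ (v : DivVal (m + 1) K) (t : K) (u : Fin m → K), Frame v t u → ∀ a : K, a ≠ 0 →
      ∃ c : Fin (m + 1) → K, (∀ i, v.Ge 0 (c i)) ∧ v.Ge 1 (c 0 - (v.ord a : K)) ∧
        dlog a = c 0 • dlog t + ∑ j : Fin m, c j.succ • KaehlerDifferential.D ℂ K (u j)

/-- FRM: the order of a form in terms of a frame. -/
def Stmt_FRM : Prop :=
  ∀ {m : ℕ} {K : Type} [Field K] [Algebra ℂ K], Algebra.trdeg ℂ K = ((m + 1 : ℕ) : Cardinal) →
    ∀ (v : DivVal (m + 1) K) (t : K) (u : Fin m → K), Frame v t u →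
      frameForm t u ≠ 0 ∧ (∀ ω : Forms (m + 1) K, ∃ g : K, ω = g • frameForm t u) ∧
      ∀ g : K, g ≠ 0 → v.logOrd (g • frameForm t u) = v.ord g

/-- FSM: the order of `g ω`. -/
def Stmt_FSM : Prop :=
  ∀ {n : ℕ} {K : Type} [Field K] [Algebra ℂ K], Algebra.trdeg ℂ K = (n : Cardinal) →
    ∀ (v : DivVal n K) (g : K) (ω : Forms n K), 0 < n → g ≠ 0 → ω ≠ 0 →
      v.logOrd (g • ω) = v.ord g + v.logOrd ω

/-- FDL: logarithmic forms have nonnegative order. -/
def Stmt_FDL : Prop :=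
  ∀ {n : ℕ} {K : Type} [Field K] [Algebra ℂ K], Algebra.trdeg ℂ K = (n : Cardinal) →
    ∀ (v : DivVal n K) (a : Fin n → K), 0 < n → (∀ i, a i ≠ 0) → dlogs a ≠ 0 →
      0 ≤ v.logOrd (dlogs a)

/-- REG: a form which is a wedge of differentials of regular functions has order at least `1`, and
exactly `1` if the dual derivations preserve the regular functions. -/
def Stmt_REG : Prop :=
  ∀ {n : ℕ} {K : Type} [Field K] [Algebra ℂ K], Algebra.trdeg ℂ K = (n : Cardinal) →
    ∀ (v : DivVal n K) (a : Fin n → K), 0 < n → (∀ i, v.Ge 0 (a i)) → AlgebraicIndependent ℂ a →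
      1 ≤ v.logOrd (dforms a) ∧
      ((∀ D : Derivation ℂ K K, (∀ i, v.Ge 0 (D (a i))) → ∀ b : K, v.Ge 0 b → v.Ge 0 (D b)) →
        v.logOrd (dforms a) = 1)

/-- TXT: the order of a form is one less than its order with respect to logarithmic forms. -/
def Stmt_TXT : Prop :=
  ∀ {n : ℕ} {K : Type} [Field K] [Algebra ℂ K], Algebra.trdeg ℂ K = (n : Cardinal) →
    ∀ (v : DivVal n K) (ω : Forms n K), 0 < n → ω ≠ 0 → v.formOrd ω = v.logOrd ω - 1

/-! ## finite extensions -/

/-- `v'` extends `v` with ramification index `e`. -/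
def IsExt {n : ℕ} {K L : Type} [Field K] [Algebra ℂ K] [Field L] [Algebra ℂ L] [Algebra K L]
    (v' : DivVal n L) (v : DivVal n K) (e : ℕ) : Prop :=
  0 < e ∧ ∀ a : K, v'.ord (algebraMap K L a) = e * v.ord a

/-- EXR: restriction of divisorial valuations to a subfield of finite index. -/
def Stmt_EXR : Prop :=
  ∀ {n : ℕ} {K L : Type} [Field K] [Algebra ℂ K] [Field L] [Algebra ℂ L] [Algebra K L]
    [IsScalarTower ℂ K L] [FiniteDimensional K L] (v' : DivVal n L), 0 < n →
    ∃ (v : DivVal n K) (e : ℕ), IsExt v' v e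

/-- EXT: extension of divisorial valuations to a finite extension field. -/
def Stmt_EXT : Prop :=
  ∀ {n : ℕ} {K L : Type} [Field K] [Algebra ℂ K] [Field L] [Algebra ℂ L] [Algebra K L]
    [IsScalarTower ℂ K L] [FiniteDimensional K L] (v : DivVal n K), 0 < n →
    ∃ (v' : DivVal n L) (e : ℕ), IsExt v' v e

/-- EXF: logarithmic forms and finite extensions. -/
def Stmt_EXF : Prop :=
  ∀ {n : ℕ} {K L : Type} [Field K] [Algebra ℂ K] [Field L] [Algebra ℂ L] [Algebra K L]
    [IsScalarTower ℂ K L] [FiniteDimensional K L] (v' : DivVal n L) (v : DivVal n K) (e : ℕ),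
    Algebra.trdeg ℂ K = (n : Cardinal) → 0 < n → IsExt v' v e →
    ∀ (g : K) (a : Fin n → K), g ≠ 0 → (∀ i, a i ≠ 0) → dlogs a ≠ 0 →
      dlogs (fun i => algebraMap K L (a i)) ≠ 0 ∧
      v'.logOrd (algebraMap K L g • dlogs fun i => algebraMap K L (a i)) =
        e * v.logOrd (g • dlogs a)

/-- INE: the inertia group acts on the graded pieces through the roots of unity of order `e`. -/
def Stmt_INE : Prop :=
  ∀ {n : ℕ} {K L : Type} [Field K] [Algebra ℂ K] [Field L] [Algebra ℂ L] [Algebra K L]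
    [IsScalarTower ℂ K L] [FiniteDimensional K L] [IsGalois K L] (v' : DivVal n L)
    (v : DivVal n K) (e : ℕ), IsExt v' v e →
    ∃ σ : L ≃ₐ[K] L, (∀ a, v'.ord (σ a) = v'.ord a) ∧ ∀ a : L, a ≠ 0 →
      v'.Ge (v'.ord a + 1)
        (σ a - algebraMap ℂ L (Complex.exp (2 * Real.pi * Complex.I * v'.ord a / e)) * a)

/-! ## valuations on a normal affine variety -/

/-- DIV: the order along a prime divisor is a divisorial valuation. -/
def Stmt_DIV : Prop :=
  ∀ {n : ℕ} (X : Germ n) (P : Ideal X.R), P.IsPrime → P.height = 1 →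
    ∃ v : DivVal n X.K, X.IsOrdAlong v P ∧
      ∀ a : X.K, v.Ge 0 a → ∃ r s : X.R, s ∉ P ∧ a * (s : X.K) = r

/-- HT1: a valuation with centre `P` such that the residue field of `P` has transcendence degree
`n - 1` is the order along a prime divisor. -/
def Stmt_HT1 : Prop :=
  ∀ {n : ℕ} (X : Germ n) (v : DivVal n X.K), 0 < n → (∀ a : X.R, 0 ≤ v.ord a) →
    (∃ u : Fin (n - 1) → X.R, ∀ p : MvPolynomial (Fin (n - 1)) ℂ, p ≠ 0 →
      (aeval u p : X.R) ≠ 0 ∧ v.ord (aeval u p : X.R) = 0) →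
    ∃ P : Ideal X.R, X.IsOrdAlong v P

/-- LOC: a function which is regular along all prime divisors through `x` is regular at `x`. -/
def Stmt_LOC : Prop :=
  ∀ {n : ℕ} (X : Germ n) (a : X.K),
    (∀ (v : DivVal n X.K) (P : Ideal X.R), P ≤ X.m → X.IsOrdAlong v P → v.Ge 0 a) →
    ∃ r s : X.R, s ∉ X.m ∧ a * (s : X.K) = r

/-- UNQ: an `ℝ`-divisor `∑ c_i div(f_i)` which is zero near `x` has order zero along all divisors
over `X` whose centre contains `x`. -/
def Stmt_UNQ : Prop :=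
  ∀ {n : ℕ} (X : Germ n) {ι : Type} [Fintype ι] (f : ι → X.K) (c : ι → ℝ), (∀ i, f i ≠ 0) →
    (∀ (v : DivVal n X.K) (P : Ideal X.R), P ≤ X.m → X.IsOrdAlong v P →
      ∑ i, c i * v.ord (f i) = 0) →
    ∀ v : DivVal n X.K, X.Through v → ∑ i, c i * v.ord (f i) = 0

end

end MldGeo
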