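import Pool.Agent.MldGeo.Quot
import Pool.Agent.MldGeo.Stmts1
import Pool.Agent.MldGap.Defs

/-!
# Quotient singularities: statements
-/

namespace MldGeo

open MvPolynomial

noncomputable section

/-- The field of rational functions of `ℂⁿ`. -/
abbrev Rat (n : ℕ) : Type := FractionRing (MvPolynomial (Fin n) ℂ)

/-- A polynomial as a rational function. -/
def pol {n : ℕ} (p : MvPolynomial (Fin n) ℂ) : Rat n := algebraMap (MvPolynomial (Fin n) ℂ) (Rat n) p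

/-- The form `dx₁ ∧ … ∧ dxₙ`. -/
def stdForm (n : ℕ) : Forms n (Rat n) := dforms fun i => pol (X i)

/-- The centre of the valuation is the origin. -/
def Centred {n : ℕ} (v' : DivVal n (Rat n)) : Prop :=
  (∀ p, 0 ≤ v'.ord (pol p)) ∧ ∀ p, p ≠ 0 → constantCoeff p = 0 → 0 < v'.ord (pol p)

/-- `φ` identifies `X` with the quotient `ℂⁿ / G` at the image of the origin. -/
def QIso {n : ℕ} (X : Germ n) (G : Subgroup (GL (Fin n) ℂ)) (φ : X.R ≃ₐ[ℂ] invariants G) : Prop :=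
  ∀ a : X.R, a ∈ X.m ↔ constantCoeff (φ a : MvPolynomial (Fin n) ℂ) = 0

/-- The function field of the quotient as a subfield of the field of rational functions of `ℂⁿ`. -/
structure QSetup {n : ℕ} (X : Germ n) (G : Subgroup (GL (Fin n) ℂ)) (φ : X.R ≃ₐ[ℂ] invariants G)
    [Algebra X.K (Rat n)] : Prop where
  iso : QIso X G φ
  tower : IsScalarTower ℂ X.K (Rat n)
  fin : FiniteDimensional X.K (Rat n)
  gal : IsGalois X.K (Rat n)
  map : ∀ a : X.R, algebraMap X.K (Rat n) a = pol (φ a : MvPolynomial (Fin n) ℂ)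
  /-- the automorphisms come from `G` -/
  act : ∀ σ : Rat n ≃ₐ[X.K] Rat n, ∃ g ∈ G, ∀ p, σ (pol p) = pol (linSubst g p)
  /-- the elements of `G` are automorphisms -/
  act' : ∀ g ∈ G, ∃ σ : Rat n ≃ₐ[X.K] Rat n, ∀ p, σ (pol p) = pol (linSubst g p)

/-- The divisorial condition in the definition of a log quotient. -/
def CrepantAt {n : ℕ} {X : Germ n} {G : Subgroup (GL (Fin n) ℂ)} (T : Triple X)
    (φ : X.R ≃ₐ[ℂ] invariants G) : Prop :=
  ∀ q : MvPolynomial (Fin n) ℂ, Irreducible q → constantCoeff q = 0 →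
    ∀ (v : DivVal n X.K) (e : ℕ),
      (∀ a : X.R, a ≠ 0 → (multiplicity q (φ a : MvPolynomial (Fin n) ℂ) : ℤ) = e * v.ord a) →
      T.logDisc v * e = 1

/-- GAL: the function field of `ℂⁿ / G`. -/
def Stmt_GAL : Prop :=
  ∀ {n : ℕ} (X : Germ n) (G : Subgroup (GL (Fin n) ℂ)) [Finite G] (φ : X.R ≃ₐ[ℂ] invariants G),
    QIso X G φ → ∃ _ : Algebra X.K (Rat n), QSetup X G φ

/-- TDR: the transcendence degree of the field of rational functions. -/
def Stmt_TDR : Prop :=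
  ∀ n : ℕ, Algebra.trdeg ℂ (Rat n) = (n : Cardinal) ∧
    AlgebraicIndependent ℂ fun i : Fin n => pol (X i : MvPolynomial (Fin n) ℂ)

/-- POS: centres of extended and of restricted valuations. -/
def Stmt_POS : Prop :=
  ∀ {n : ℕ} {X : Germ n} {G : Subgroup (GL (Fin n) ℂ)} [Finite G] {φ : X.R ≃ₐ[ℂ] invariants G}
    [Algebra X.K (Rat n)], QSetup X G φ → ∀ (v' : DivVal n (Rat n)) (v : DivVal n X.K) (e : ℕ),
    IsExt v' v e → (X.At v ↔ Centred v')

/-- DIA: a linear map of finite order is diagonal in suitable coordinates `y = P x`. -/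
def Stmt_DIA : Prop :=
  ∀ {n : ℕ} (g : GL (Fin n) ℂ), IsOfFinOrder g →
    ∃ (P : GL (Fin n) ℂ) (l : Fin n → ℂ),
      (∀ i, linSubst g (linSubst P (X i)) = C (l i) * linSubst P (X i)) ∧
      (∀ i, l i ^ orderOf g = 1) ∧
      (g : Matrix (Fin n) (Fin n) ℂ).charpoly.roots = Multiset.map l Finset.univ.val

/-- CHG: linear changes of coordinates. -/
def Stmt_CHG : Prop :=
  ∀ {n : ℕ} (P : GL (Fin n) ℂ),
    (∃ σ : Rat n ≃ₐ[ℂ] Rat n, ∀ p, σ (pol p) = pol (linSubst P p)) ∧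
    (AlgebraicIndependent ℂ fun i : Fin n => pol (linSubst P (X i))) ∧
    (∀ p, constantCoeff (linSubst P p) = constantCoeff p) ∧
    ∃ c : ℂ, c ≠ 0 ∧ dforms (fun i => pol (linSubst P (X i))) = algebraMap ℂ (Rat n) c • stdForm n

/-- ORQ: the order along the prime divisor `q = 0` of `ℂⁿ`. -/
def Stmt_ORQ : Prop :=
  ∀ {n : ℕ} (q : MvPolynomial (Fin n) ℂ), Irreducible q →
    ∃ w : DivVal n (Rat n), (∀ p, p ≠ 0 → w.ord (pol p) = (multiplicity q p : ℤ)) ∧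
      w.logOrd (stdForm n) = 1

/-- UFQ: a principal divisor which is zero near the origin. -/
def Stmt_UFQ : Prop :=
  ∀ {n : ℕ} {ι : Type} [Fintype ι] (f : ι → Rat n) (c : ι → ℝ), (∀ i, f i ≠ 0) →
    (∀ (q : MvPolynomial (Fin n) ℂ) (w : DivVal n (Rat n)), Irreducible q → constantCoeff q = 0 →
      (∀ p, p ≠ 0 → w.ord (pol p) = (multiplicity q p : ℤ)) → ∑ i, c i * w.ord (f i) = 0) →
    ∀ v' : DivVal n (Rat n), Centred v' → ∑ i, c i * v'.ord (f i) = 0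

/-- MON: monomial valuations in the coordinates `y = P x`. -/
def Stmt_MON : Prop :=
  ∀ {n : ℕ} (P : GL (Fin n) ℂ) (a : Fin n → ℕ), 0 < n → (∀ i, 0 < a i) →
    (∃ c : Fin n → ℤ, ∑ i, c i * (a i : ℤ) = 1) →
    ∃ v' : DivVal n (Rat n), Centred v' ∧ v'.logOrd (stdForm n) = ∑ i, (a i : ℤ) ∧
      ∀ p : MvPolynomial (Fin n) ℂ, p ≠ 0 → ∃ m ∈ p.support,
        v'.ord (pol (linSubst P p)) = ∑ i, (a i : ℤ) * (m i : ℤ)

/-- PUL: a form on the quotient as a form on `ℂⁿ`. -/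
def Stmt_PUL : Prop :=
  ∀ {n : ℕ} {X : Germ n} {G : Subgroup (GL (Fin n) ℂ)} {φ : X.R ≃ₐ[ℂ] invariants G}
    [Algebra X.K (Rat n)], QSetup X G φ → 0 < n → ∀ ω : Forms n X.K, ω ≠ 0 →
    ∃ h : Rat n, h ≠ 0 ∧ ∀ (v' : DivVal n (Rat n)) (v : DivVal n X.K) (e : ℕ), IsExt v' v e →
      (e : ℤ) * v.logOrd ω = v'.ord h + v'.logOrd (stdForm n)

/-- TRF: log discrepancies of a log quotient. -/
def Stmt_TRF : Prop :=
  ∀ {n : ℕ} {X : Germ n} {G : Subgroup (GL (Fin n) ℂ)} [Finite G] {φ : X.R ≃ₐ[ℂ] invariants G}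
    [Algebra X.K (Rat n)], QSetup X G φ → 0 < n → ∀ T : Triple X, CrepantAt T φ →
    ∀ (v' : DivVal n (Rat n)) (v : DivVal n X.K) (e : ℕ), IsExt v' v e → Centred v' →
      T.logDisc v * e = v'.logOrd (stdForm n)

/-- LOW: the lower bound for log discrepancies. -/
def Stmt_LOW : Prop :=
  ∀ {n : ℕ} {X : Germ n} {G : Subgroup (GL (Fin n) ℂ)} [Finite G] {φ : X.R ≃ₐ[ℂ] invariants G}
    [Algebra X.K (Rat n)], QSetup X G φ → 0 < n → ∀ T : Triple X, CrepantAt T φ →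
    ∀ v : DivVal n X.K, X.At v → ∃ g ∈ G, MldGap.logAge g ≤ T.logDisc v

/-- UPP: the upper bound for log discrepancies. -/
def Stmt_UPP : Prop :=
  ∀ {n : ℕ} {X : Germ n} {G : Subgroup (GL (Fin n) ℂ)} [Finite G] {φ : X.R ≃ₐ[ℂ] invariants G}
    [Algebra X.K (Rat n)], QSetup X G φ → 0 < n → ∀ T : Triple X, CrepantAt T φ →
    ∀ g ∈ G, ∃ v : DivVal n X.K, X.At v ∧ T.logDisc v ≤ MldGap.logAge g

/-- MLQ: the minimal log discrepancy of a log quotient. -/
def Stmt_MLQ : Prop :=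
  ∀ {n : ℕ} {X : Germ n} (G : Subgroup (GL (Fin n) ℂ)) [Finite G] (T : Triple X), 0 < n →
    T.IsLogQuotient G → T.mld = MldGap.mldQuot G

/-- GEX: the quotient exists. -/
def Stmt_GEX : Prop :=
  ∀ {n : ℕ} (G : Subgroup (GL (Fin n) ℂ)) [Finite G], ∃ X : Germ n, X.IsQuotient G

/-- TEX: the log quotient exists. -/
def Stmt_TEX : Prop :=
  ∀ {n : ℕ} (G : Subgroup (GL (Fin n) ℂ)) [Finite G] (X : Germ n), 0 < n → X.IsQuotient G →
    ∃ T : Triple X, T.IsLogQuotient G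

/-- HTQ: the image of a prime divisor through the origin. -/
def Stmt_HTQ : Prop :=
  ∀ {n : ℕ} {X : Germ n} {G : Subgroup (GL (Fin n) ℂ)} [Finite G] {φ : X.R ≃ₐ[ℂ] invariants G}
    [Algebra X.K (Rat n)], QSetup X G φ → ∀ q : MvPolynomial (Fin n) ℂ, Irreducible q →
    constantCoeff q = 0 → ∀ (v : DivVal n X.K) (e : ℕ),
      (∀ a : X.R, a ≠ 0 → (multiplicity q (φ a : MvPolynomial (Fin n) ℂ) : ℤ) = e * v.ord a) →
      0 < e ∧ ∃ P : Ideal X.R, P ≤ X.m ∧ X.IsOrdAlong v P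

/-- LOQ: a prime divisor of the quotient through `x` is the image of a prime divisor through the
origin. -/
def Stmt_LOQ : Prop :=
  ∀ {n : ℕ} {X : Germ n} {G : Subgroup (GL (Fin n) ℂ)} [Finite G] {φ : X.R ≃ₐ[ℂ] invariants G}
    [Algebra X.K (Rat n)], QSetup X G φ → 0 < n → ∀ (P : Ideal X.R) (v : DivVal n X.K), P ≤ X.m →
    X.IsOrdAlong v P → ∃ (q : MvPolynomial (Fin n) ℂ) (e : ℕ), Irreducible q ∧
      constantCoeff q = 0 ∧
      ∀ a : X.R, a ≠ 0 → (multiplicity q (φ a : MvPolynomial (Fin n) ℂ) : ℤ) = e * v.ord a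

/-- UNR: the quotient by a group which acts freely outside the origin is unramified in
codimension one. -/
def Stmt_UNR : Prop :=
  ∀ {n : ℕ} {X : Germ n} {G : Subgroup (GL (Fin n) ℂ)} [Finite G] {φ : X.R ≃ₐ[ℂ] invariants G}
    [Algebra X.K (Rat n)], QSetup X G φ → 2 ≤ n → MldGap.ActsFreely G →
    ∀ q : MvPolynomial (Fin n) ℂ, Irreducible q → ∀ (v : DivVal n X.K) (e : ℕ),
      (∀ a : X.R, a ≠ 0 → (multiplicity q (φ a : MvPolynomial (Fin n) ℂ) : ℤ) = e * v.ord a) →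
      e = 1

/-- FRE: for free actions the boundary of the log quotient is zero. -/
def Stmt_FRE : Prop :=
  ∀ {n : ℕ} {X : Germ n} (G : Subgroup (GL (Fin n) ℂ)) [Finite G] (T : Triple X), 2 ≤ n →
    MldGap.ActsFreely G → X.IsQuotient G → IsEmpty T.J → (T.NoBoundary ↔ T.IsLogQuotient G)

end

end MldGeo
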