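import Pool.Agent.MldGeo.Stmts9
import Pool.Agent.MldTv.Final

/-!
# TAC: the ascending chain condition for torus actions of complexity at most one
-/

namespace MldGeo

noncomputable section

namespace TAC

/-- There are no divisorial valuations in dimension zero. -/
theorem no_val {X : Germ 0} (v : DivVal 0 X.K) : False := by
  have h0 : Algebra.trdeg ℂ X.K = 0 := by
    have := X.trdeg
    simpa using this
  have h1 : Algebra.IsAlgebraic ℂ X.K := trdeg_eq_zero_iff.1 h0
  obtain ⟨t, -, ht⟩ := v.unif
  obtain ⟨c, hc⟩ := (IsAlgClosed.algebraMap_bijective_of_isIntegral (k := ℂ) (K := X.K)).2 t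
  rw [← hc, v.ord_const] at ht
  exact zero_ne_one ht

theorem mld_zero {X : Germ 0} (T : Triple X) : T.mld = 0 := by
  unfold Triple.mld
  have h : {a : ℝ | ∃ v, X.At v ∧ T.disc v = a} = ∅ := by
    rw [Set.eq_empty_iff_forall_notMem]
    rintro a ⟨v, -⟩
    exact no_val v
  rw [h, Real.sInf_empty]

end TAC

theorem t_TAC (_hSPL : Stmt_SPL) (hTRD : Stmt_TRD) (hCRS : Stmt_CRS) (hDAT : Stmt_DAT)
    (hCMB : Stmt_CMB) (hDM1 : Stmt_DM1) : Stmt_TAC := by
  intro n S hS X T m A hm hinv heff hlc hco
  rcases n with _ | _ | n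
  · intro h
    have h1 := h (show (0 : ℕ) < 1 by norm_num)
    simp only [TAC.mld_zero] at h1
    exact lt_irrefl _ h1
  · exact hDM1 S hS X T heff hlc hco
  · refine MldTv.acc (n := n + 1 + 1) hS _ fun k => ?_
    obtain ⟨A', hA'⟩ : ∃ A' : TorusAction (X k) (n + 1), A'.InvTriple (T k) := by
      have h1 : m k ≤ n + 1 + 1 := by
        have h2 := hTRD (A k)
        have h3 : ((m k : ℕ) : Cardinal) ≤ ((n + 1 + 1 : ℕ) : Cardinal) := by
          rw [← h2]
          exact le_add_self
        exact_mod_cast h3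
      have h4 := hm k
      have h5 : m k = n + 1 ∨ m k = n + 1 + 1 := by omega
      have hI := hinv k
      revert hI
      generalize A k = B
      revert B
      rcases h5 with h5 | h5
      · rw [h5]
        intro B hB
        exact ⟨B, hB⟩
      · rw [h5]
        intro B hB
        obtain ⟨B', hB'⟩ := hCRS (Nat.succ_pos n) B
        exact ⟨B', fun P b hP hb => hB' P (hB.1 P b hP hb), fun j => hB' _ (hB.2 j)⟩
    obtain ⟨d⟩ := hDAT A' (T k) hA'
    exact hCMB d (heff k) (hlc k) S (hco k)

end

end MldGeo
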