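import Pool.Agent.MldGeo.Stmts6

/-!
# AFF: affine models of function fields of one variable
-/

namespace MldGeo

noncomputable section

namespace AFF

open Polynomial

/-- in a Dedekind domain, localisations at primes are valuation rings -/
theorem ded {S F : Type} [CommRing S] [IsDedekindDomain S] [Field F] [Algebra S F]
    [IsFractionRing S F] (P : Ideal S) (hP : P ≠ ⊤) (x : F) (hx : x ≠ 0) :
    ∃ r q : S, q ∉ P ∧ (x * algebraMap S F q = algebraMap S F r ∨
      x⁻¹ * algebraMap S F q = algebraMap S F r) := by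
  classical
  obtain ⟨n, d, hd, rfl⟩ := IsFractionRing.div_surjective (A := S) x
  have hinj := IsFractionRing.injective S F
  have hd0 : algebraMap S F d ≠ 0 := by
    have := nonZeroDivisors.ne_zero hd
    exact fun h => this (hinj (by rw [h, map_zero]))
  have hn0 : algebraMap S F n ≠ 0 := by
    intro h
    rw [h, zero_div] at hx
    exact hx rfl
  set J : FractionalIdeal (nonZeroDivisors S) F :=
    ((Ideal.span {n, d} : Ideal S) : FractionalIdeal (nonZeroDivisors S) F) with hJ
  have hnJ : algebraMap S F n ∈ J := by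
    rw [hJ, FractionalIdeal.mem_coeIdeal]
    exact ⟨n, Ideal.subset_span (by simp), rfl⟩
  have hdJ : algebraMap S F d ∈ J := by
    rw [hJ, FractionalIdeal.mem_coeIdeal]
    exact ⟨d, Ideal.subset_span (by simp), rfl⟩
  have hJ0 : J ≠ 0 := by
    intro h
    rw [h] at hdJ
    exact hd0 (by simpa using hdJ)
  have hmul : J * J⁻¹ = 1 := mul_inv_cancel₀ hJ0
  -- products with elements of the inverse are integral
  have hint : ∀ j ∈ J⁻¹, ∀ a ∈ J, ∃ r : S, algebraMap S F r = a * j := by
    intro j hj a ha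
    have h1 : a * j ∈ J * J⁻¹ := FractionalIdeal.mul_mem_mul ha hj
    rw [hmul] at h1
    exact (FractionalIdeal.mem_one_iff _).1 h1
  -- some product is not in `P`
  have hex : ∃ j ∈ J⁻¹, ∃ r : S, r ∉ P ∧ (algebraMap S F r = algebraMap S F n * j ∨
      algebraMap S F r = algebraMap S F d * j) := by
    by_contra hcon
    push Not at hcon
    have h1 : J * J⁻¹ ≤ (P : FractionalIdeal (nonZeroDivisors S) F) := by
      rw [FractionalIdeal.mul_le]
      intro a ha j hj
      obtain ⟨b, hb, rfl⟩ := (FractionalIdeal.mem_coeIdeal _).1 ha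
      obtain ⟨u, v, rfl⟩ := Ideal.mem_span_pair.1 hb
      obtain ⟨r, hr⟩ := hint j hj _ hnJ
      obtain ⟨q, hq⟩ := hint j hj _ hdJ
      have hrP : r ∈ P := by
        by_contra h
        exact (hcon j hj r h).1 hr
      have hqP : q ∈ P := by
        by_contra h
        exact (hcon j hj q h).2 hq
      rw [FractionalIdeal.mem_coeIdeal]
      refine ⟨u * r + v * q, P.add_mem (P.mul_mem_left _ hrP) (P.mul_mem_left _ hqP), ?_⟩
      rw [map_add, map_mul, map_mul, map_add, map_mul, map_mul, hr, hq]
      ring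
    rw [hmul, ← FractionalIdeal.coeIdeal_top, FractionalIdeal.coeIdeal_le_coeIdeal] at h1
    exact hP (top_le_iff.1 h1)
  obtain ⟨j, hj, q, hqP, h1 | h1⟩ := hex
  · obtain ⟨r, hr⟩ := hint j hj _ hdJ
    refine ⟨r, q, hqP, Or.inr ?_⟩
    rw [inv_div, h1, hr]
    field_simp
  · obtain ⟨r, hr⟩ := hint j hj _ hnJ
    refine ⟨r, q, hqP, Or.inl ?_⟩
    rw [h1, hr]
    field_simp

theorem fg_rs {F : Type} [Field F] [Algebra ℂ F] (A : Subalgebra ℂ F) (B : Subalgebra A F)
    (hA : A.FG) (hB : Module.Finite A B) : (B.restrictScalars ℂ).FG := by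
  classical
  obtain ⟨u, rfl⟩ := hA
  obtain ⟨t, ht⟩ := (Subalgebra.fg_iff_finiteType B).2 inferInstance
  refine ⟨u ∪ t, ?_⟩
  rw [Finset.coe_union, Algebra.adjoin_union_eq_adjoin_adjoin, ht]

end AFF

open AFF IntermediateField.algebraAdjoinAdjoin in
theorem t_AFF : Stmt_AFF := by
  intro F _ _ hF s hs
  have hfd : FiniteDimensional (IntermediateField.adjoin ℂ {s}) F := hF.2 s hs
  let A : Subalgebra ℂ F := Algebra.adjoin ℂ {s}
  let L : IntermediateField ℂ F := IntermediateField.adjoin ℂ {s}
  let e : Polynomial ℂ ≃ₐ[ℂ] A := Polynomial.algEquivOfTranscendental ℂ s hs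
  have hA1 : IsPrincipalIdealRing A := IsPrincipalIdealRing.of_surjective e.toRingEquiv.toRingHom
    e.surjective
  have : IsDedekindDomain A := inferInstance
  have : IsFractionRing A L := inferInstanceAs
    (IsFractionRing (Algebra.adjoin ℂ {s}) (IntermediateField.adjoin ℂ {s}))
  have : IsScalarTower A L F := inferInstanceAs
    (IsScalarTower (Algebra.adjoin ℂ {s}) (IntermediateField.adjoin ℂ {s}) F)
  have : Algebra.IsSeparable L F := inferInstance
  have hD : IsDedekindDomain (integralClosure A F) := integralClosure.isDedekindDomain A L F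
  have hFr : IsFractionRing (integralClosure A F) F :=
    integralClosure.isFractionRing_of_finite_extension L F
  have hfin : Module.Finite A (integralClosure A F) :=
    IsIntegralClosure.finite A L F (integralClosure A F)
  let S : Subalgebra ℂ F := (integralClosure A F).restrictScalars ℂ
  have hmem : ∀ a : F, a ∈ S ↔ IsIntegral A a := fun a => Iff.rfl
  have hint : ∀ y : DivVal 1 F, y.Ge 0 s → ∀ a ∈ S, y.Ge 0 a := by
    intro y hy a ha
    have hAO : ∀ b ∈ A, b ∈ y.OV := by
      intro b hb
      induction hb using Algebra.adjoin_induction with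
      | mem x hx =>
        rw [Set.mem_singleton_iff] at hx
        rw [hx]
        exact hy
      | algebraMap c => exact DivVal.Ge.const y c
      | add x y' _ _ hx hy' => exact hx.add hy'
      | mul x y' _ _ hx hy' => exact hx.mul_left hy'
    let ι : A →+* y.OV := (A.toSubring.subtype.codRestrict y.OV.toSubring fun b => hAO b b.2)
    obtain ⟨p, hp1, hp2⟩ := (hmem a).1 ha
    have h1 : IsIntegral y.OV a := by
      refine ⟨p.map ι, hp1.map ι, ?_⟩
      rw [Polynomial.eval₂_map]
      exact hp2
    obtain ⟨b, rfl⟩ := (IsIntegrallyClosed.isIntegral_iff (R := y.OV) (K := F)).1 h1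
    exact b.2
  refine ⟨S, ?_, ?_, hint, ?_⟩
  · exact fg_rs A _ ⟨{s}, by simp [A]⟩ hfin
  · rw [hmem]
    exact isIntegral_algebraMap (R := A) (A := F)
      (x := ⟨s, Algebra.self_mem_adjoin_singleton ℂ s⟩)
  · intro y hy a ha
    by_cases ha0 : a = 0
    · exact ⟨0, S.zero_mem, 1, S.one_mem, one_ne_zero, DivVal.ord_one y, by rw [ha0, zero_mul]⟩
    let P : Ideal (integralClosure A F) :=
      { carrier := {b | y.Ge 1 (b : F)}
        add_mem' := fun h1 h2 => h1.add h2
        zero_mem' := DivVal.Ge.zero y 1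
        smul_mem' := fun c b hb => (hint y hy c c.2).mul_left hb }
    have hPt : P ≠ ⊤ := by
      rw [Ideal.ne_top_iff_one]
      intro h
      have h1 : y.Ge 1 (1 : F) := h
      have h2 := h1.le one_ne_zero
      rw [DivVal.ord_one] at h2
      omega
    have hq : ∀ q : integralClosure A F, q ∉ P → (q : F) ≠ 0 ∧ y.ord (q : F) = 0 := by
      intro q hq
      have h1 : ¬ y.Ge 1 (q : F) := hq
      have h2 : y.Ge 0 (q : F) := hint y hy q q.2
      have h3 : (q : F) ≠ 0 := fun h => h1 (Or.inl h)
      refine ⟨h3, ?_⟩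
      have h4 := h2.le h3
      have h5 : ¬ 1 ≤ y.ord (q : F) := fun h => h1 (Or.inr h)
      omega
    obtain ⟨r, q, hqP, h | h⟩ := ded P hPt a ha0
    · obtain ⟨h3, h4⟩ := hq q hqP
      exact ⟨r, r.2, q, q.2, h3, h4, h⟩
    · -- then `a` is a unit at `y`
      obtain ⟨h3, h4⟩ := hq q hqP
      have h5 : a⁻¹ * (q : F) = (r : F) := h
      have hr0 : (r : F) ≠ 0 := by
        rw [← h5]
        exact mul_ne_zero (inv_ne_zero ha0) h3
      have h6 : y.ord (r : F) = - y.ord a := by
        rw [← h5, y.ord_mul _ _ (inv_ne_zero ha0) h3, DivVal.ord_inv, h4, add_zero]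
      have h7 := (hint y hy r r.2).le hr0
      have h8 := ha.le ha0
      refine ⟨q, q.2, r, r.2, hr0, by omega, ?_⟩
      rw [← h5]
      field_simp

end

end MldGeo
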