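import Pool.Agent.MldGeo.Stmts9

/-!
# The polyhedral divisor and the boundary (module MLD_BDR)
-/

namespace MldGeo

open MldGap MldTv

noncomputable section

namespace BDR

variable {m : ℕ}

theorem pr_add (v w : Fin m → ℝ) (u : Fin m → ℤ) : pr (v + w) u = pr v u + pr w u := by
  simp [pr, add_mul, Finset.sum_add_distrib]

theorem pr_smul (a : ℝ) (w : Fin m → ℝ) (u : Fin m → ℤ) : pr (a • w) u = a * pr w u := by
  simp [pr, Finset.mul_sum, mul_assoc]

/-- The pairing as a linear form. -/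
def prL (u : Fin m → ℤ) : (Fin m → ℝ) →ₗ[ℝ] ℝ where
  toFun w := pr w u
  map_add' v w := pr_add v w u
  map_smul' a w := pr_smul a w u

theorem pr_sum {κ : Type} (s : Finset κ) (g : κ → Fin m → ℝ) (u : Fin m → ℤ) :
    pr (∑ j ∈ s, g j) u = ∑ j ∈ s, pr (g j) u := map_sum (prL u) g s

theorem pr_comb {κ : Type} (s : Finset κ) (a : κ → ℝ) (g : κ → Fin m → ℝ) (u : Fin m → ℤ) :
    pr (∑ j ∈ s, a j • g j) u = ∑ j ∈ s, a j * pr (g j) u := by
  rw [pr_sum]
  exact Finset.sum_congr rfl fun j _ => pr_smul _ _ _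

theorem pr_toR (w u : Fin m → ℤ) : pr (toR w) u = (ip w u : ℤ) := by
  simp [pr, toR, ip]

theorem pr_zsmul (M : ℤ) (w : Fin m → ℝ) (u : Fin m → ℤ) : pr w (M • u) = M * pr w u := by
  simp only [pr, Pi.smul_apply, smul_eq_mul, Int.cast_mul, Finset.mul_sum]
  exact Finset.sum_congr rfl fun j _ => by ring

/-- The linear form with given coefficients. -/
def lin (ψ : Fin m → ℝ) : (Fin m → ℝ) →ₗ[ℝ] ℝ where
  toFun w := ∑ i, ψ i * w i
  map_add' v w := by simp [mul_add, Finset.sum_add_distrib]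
  map_smul' a w := by
    simp only [Pi.smul_apply, smul_eq_mul, Finset.mul_sum, RingHom.id_apply]
    exact Finset.sum_congr rfl fun j _ => by ring

theorem lin_apply (ψ w : Fin m → ℝ) : lin ψ w = ∑ i, ψ i * w i := rfl

/-- Primitivity from the divisors. -/
theorem primv_of {w : Fin m → ℤ} {l : ℤ}
    (h : ∀ g : ℤ, g ∣ l → (∀ j, g ∣ w j) → IsUnit g) : Primv w l := by
  let v : Option (Fin m) → ℤ := fun x => x.elim l w
  let J : Ideal ℤ := Ideal.span (Set.range v)
  have hd : ∀ x, Submodule.IsPrincipal.generator J ∣ v x := fun x => by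
    rw [← Submodule.IsPrincipal.mem_iff_generator_dvd]
    exact Ideal.subset_span ⟨x, rfl⟩
  have hu : IsUnit (Submodule.IsPrincipal.generator J) := h _ (hd none) fun j => hd (some j)
  have hm : Submodule.IsPrincipal.generator J ∈ J := Submodule.IsPrincipal.generator_mem J
  have h1 : (1 : ℤ) ∈ J := by
    have := Ideal.eq_top_of_isUnit_mem J hm hu
    rw [this]
    exact Submodule.mem_top
  obtain ⟨c, hc⟩ := Ideal.mem_span_range_iff_exists_fun.1 h1
  rw [Fintype.sum_option] at hc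
  refine ⟨c none, fun j => c (some j), ?_⟩
  rw [← hc]
  simp only [v, Option.elim, ip]
  rw [mul_comm l]
  congr 1
  exact Finset.sum_congr rfl fun j _ => mul_comm _ _

section TV

variable {c : ℕ} (X : TVar m c)

theorem mu_pos (y : X.Y) (i : X.I y) : 0 < X.mu y i := (X.mu_least y i).1.1

theorem ray_ne (j : X.R) : X.ray j ≠ 0 := by
  obtain ⟨u, hu⟩ := X.pointed
  intro h
  have := hu j
  rw [h, map_zero] at this
  exact lt_irrefl _ this

/-- A common multiple of all multiplicities. -/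
theorem exists_mult : ∃ M : ℕ, 0 < M ∧ ∀ (y : X.Y) (i : X.I y), X.mu y i ∣ M := by
  classical
  refine ⟨∏ x : (Σ y, X.I y), X.mu x.1 x.2, Finset.prod_pos fun x _ => mu_pos X _ _,
    fun y i => ?_⟩
  exact Finset.dvd_prod_of_mem (fun x : (Σ y, X.I y) => X.mu x.1 x.2) (Finset.mem_univ ⟨y, i⟩)

/-- The value of a multiple of a character at the vertices is integral. -/
theorem pr_vert_int (hN : ∀ w : Fin m → ℝ, w ∈ X.N ↔ ∃ z : Fin m → ℤ, w = toR z) {M : ℕ}
    (hM : ∀ (y : X.Y) (i : X.I y), X.mu y i ∣ M) (u : Fin m → ℤ) (y : X.Y) (i : X.I y) :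
    ∃ a : ℤ, pr (X.vert y i) ((M : ℤ) • u) = a := by
  obtain ⟨z, hz⟩ := (hN _).1 (X.mu_least y i).1.2
  obtain ⟨q, hq⟩ := hM y i
  refine ⟨q * ip z u, ?_⟩
  rw [pr_zsmul, hq]
  have h1 := pr_smul (X.mu y i : ℝ) (X.vert y i) u
  rw [hz, pr_toR] at h1
  push_cast
  rw [h1]
  ring

/-- The minima of a character on the polyhedra. -/
theorem exists_E (hN : ∀ w : Fin m → ℝ, w ∈ X.N ↔ ∃ z : Fin m → ℤ, w = toR z) {M : ℕ}
    (hM : ∀ (y : X.Y) (i : X.I y), X.mu y i ∣ M) (u : Fin m → ℤ) :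
    ∃ (p : ∀ y, X.I y) (E : X.Y → ℤ), (∀ y, (E y : ℝ) = pr (X.vert y (p y)) ((M : ℤ) • u)) ∧
      ∀ y i, (E y : ℝ) ≤ pr (X.vert y i) ((M : ℤ) • u) := by
  classical
  have h1 : ∀ y, ∃ i : X.I y, ∀ i', pr (X.vert y i) ((M : ℤ) • u) ≤
      pr (X.vert y i') ((M : ℤ) • u) := fun y => by
    obtain ⟨i, -, hi⟩ := Finset.exists_min_image (Finset.univ : Finset (X.I y))
      (fun i => pr (X.vert y i) ((M : ℤ) • u)) Finset.univ_nonempty
    exact ⟨i, fun i' => hi i' (Finset.mem_univ _)⟩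
  choose p hp using h1
  choose E hE using fun y => pr_vert_int X hN hM u y (p y)
  exact ⟨p, E, fun y => (hE y).symm, fun y i => (hE y).symm.le.trans (hp y i)⟩

/-- A lower bound for a character on the polyhedra. -/
theorem pr_ge {l : X.Y → ℝ} {w : Fin m → ℝ} (hw : w ∈ X.poly l) (u : Fin m → ℤ) (E : X.Y → ℝ)
    (hu : ∀ j, 0 ≤ pr (X.ray j) u) (hE : ∀ y i, E y ≤ pr (X.vert y i) u) :
    ∑ y, l y * E y ≤ pr w u := by
  obtain ⟨a, d, ha, hd, hal, rfl⟩ := hw
  rw [pr_add, pr_comb, pr_sum]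
  have h1 : ∑ y, l y * E y ≤ ∑ y, pr (∑ i, a y i • X.vert y i) u := by
    refine Finset.sum_le_sum fun y _ => ?_
    rw [pr_comb, ← hal y, Finset.sum_mul]
    exact Finset.sum_le_sum fun i _ => mul_le_mul_of_nonneg_left (hE y i) (ha y i)
  have h2 : 0 ≤ ∑ j, d j * pr (X.ray j) u :=
    Finset.sum_nonneg fun j _ => mul_nonneg (hd j) (hu j)
  linarith

theorem sum_ite_symm {Y : Type} [DecidableEq Y] (φ : X.Y ≃ Y) (y : Y) (k : ℝ) (E : X.Y → ℝ) :
    ∑ y', (if φ y' = y then k else 0) * E y' = k * E (φ.symm y) := by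
  classical
  rw [Finset.sum_eq_single (φ.symm y)]
  · simp
  · intro b _ hb
    have : φ b ≠ y := fun h => hb (by rw [← h]; simp)
    simp [this]
  · intro h
    exact absurd (Finset.mem_univ _) h

theorem vert_mem {Y : Type} [DecidableEq Y] (φ : X.Y ≃ Y) (y : X.Y) (i : X.I y) (k : ℝ)
    (hk : 0 ≤ k) : k • X.vert y i ∈ X.poly (fun y' => if φ y' = φ y then k else 0) := by
  classical
  refine ⟨Function.update (fun _ _ => 0) y (Pi.single i k), fun _ => 0, ?_, fun _ => le_rfl, ?_, ?_⟩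
  · intro y' i'
    by_cases h : y' = y
    · subst h
      rw [Function.update_self]
      by_cases h' : i' = i
      · subst h'
        rw [Pi.single_eq_same]
        exact hk
      · rw [Pi.single_eq_of_ne h']
    · rw [Function.update_of_ne h]
  · intro y'
    by_cases h : y' = y
    · subst h
      rw [Function.update_self]
      simp
    · rw [Function.update_of_ne h]
      simp [h]
  · simp only [zero_smul, Finset.sum_const_zero, add_zero]
    rw [Finset.sum_eq_single y]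
    · rw [Function.update_self, Finset.sum_eq_single i]
      · rw [Pi.single_eq_same]
      · intro b _ hb
        rw [Pi.single_eq_of_ne hb, zero_smul]
      · intro h
        exact absurd (Finset.mem_univ _) h
    · intro b _ hb
      rw [Function.update_of_ne hb]
      simp
    · intro h
      exact absurd (Finset.mem_univ _) h

theorem ray_mem_poly (j : X.R) (l : X.Y → ℝ) (hl : ∀ y, l y = 0) : X.ray j ∈ X.poly l := by
  classical
  refine ⟨fun _ _ => 0, Pi.single j 1, fun _ _ => le_rfl, ?_, ?_, ?_⟩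
  · intro j'
    by_cases h' : j' = j
    · subst h'
      rw [Pi.single_eq_same]
      exact zero_le_one
    · rw [Pi.single_eq_of_ne h']
  · intro y
    simp [hl y]
  · simp only [zero_smul, Finset.sum_const_zero, zero_add]
    rw [Finset.sum_eq_single j]
    · rw [Pi.single_eq_same, one_smul]
    · intro b _ hb
      rw [Pi.single_eq_of_ne hb, zero_smul]
    · intro h
      exact absurd (Finset.mem_univ _) h

/-- The pair of a vertex is primitive. -/
theorem primv_vert (hN : ∀ w : Fin m → ℝ, w ∈ X.N ↔ ∃ z : Fin m → ℤ, w = toR z) (y : X.Y)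
    (i : X.I y) {z : Fin m → ℤ} (hz : (X.mu y i : ℝ) • X.vert y i = toR z) :
    Primv z (X.mu y i : ℤ) := by
  apply primv_of
  intro g hg1 hg2
  have hmu := mu_pos X y i
  have hg0 : g ≠ 0 := by
    rintro rfl
    have := zero_dvd_iff.1 hg1
    have : X.mu y i = 0 := by exact_mod_cast this
    omega
  have hgp : 0 < g.natAbs := Int.natAbs_pos.2 hg0
  obtain ⟨q, hq⟩ : g.natAbs ∣ X.mu y i := Int.natCast_dvd_natCast.1 (Int.natAbs_dvd.2 hg1)
  have hd2 : ∀ j, ∃ t, z j = (g.natAbs : ℤ) * t := fun j => Int.natAbs_dvd.2 (hg2 j)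
  choose t ht using hd2
  have hq0 : 0 < q := by
    rcases Nat.eq_zero_or_pos q with h | h
    · rw [h] at hq
      omega
    · exact h
  have hmem : (q : ℝ) • X.vert y i ∈ X.N := by
    rw [hN]
    refine ⟨t, ?_⟩
    have h1 : (g.natAbs : ℝ) • ((q : ℝ) • X.vert y i) = (g.natAbs : ℝ) • toR t := by
      rw [smul_smul, ← Nat.cast_mul, ← hq, hz]
      funext j
      simp only [toR, Pi.smul_apply, smul_eq_mul]
      rw [ht j, Int.cast_mul, Int.cast_natCast]
    have h2 : (g.natAbs : ℝ) ≠ 0 := by exact_mod_cast hgp.ne'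
    exact smul_right_injective _ h2 h1
  have hle := (X.mu_least y i).2 ⟨hq0, hmem⟩
  have h3 : g.natAbs = 1 := by
    rw [hq] at hle
    have : g.natAbs * q ≤ 1 * q := by omega
    have := Nat.le_of_mul_le_mul_right this hq0
    omega
  exact Int.isUnit_iff_natAbs_eq.2 h3

/-- The vector of a ray is primitive. -/
theorem primv_ray (hN : ∀ w : Fin m → ℝ, w ∈ X.N ↔ ∃ z : Fin m → ℤ, w = toR z) (j : X.R)
    {z : Fin m → ℤ} (hz : X.ray j = toR z) : Primv z 0 := by
  apply primv_of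
  intro g _ hg2
  have hg0 : g ≠ 0 := by
    rintro rfl
    apply ray_ne X j
    rw [hz]
    funext j
    have := zero_dvd_iff.1 (hg2 j)
    simp [toR, this]
  have hgp : 0 < g.natAbs := Int.natAbs_pos.2 hg0
  have hd2 : ∀ j, ∃ t, z j = (g.natAbs : ℤ) * t := fun j => Int.natAbs_dvd.2 (hg2 j)
  choose t ht using hd2
  have h2 : (0 : ℝ) < (g.natAbs : ℝ) := by exact_mod_cast hgp
  have hmem : (g.natAbs : ℝ)⁻¹ • X.ray j ∈ X.N := by
    rw [hN]
    refine ⟨t, ?_⟩
    rw [hz]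
    funext j
    simp only [toR, Pi.smul_apply, smul_eq_mul]
    rw [ht j, Int.cast_mul, Int.cast_natCast, inv_mul_cancel_left₀ h2.ne']
  have hle := X.ray_primitive j _ (inv_pos.2 h2) hmem
  have h3 : (g.natAbs : ℝ) ≤ 1 := by
    rw [← one_div, le_div_iff₀ h2] at hle
    linarith
  have h4 : g.natAbs ≤ 1 := by exact_mod_cast h3
  exact Int.isUnit_iff_natAbs_eq.2 (by omega)

theorem li_smul {κ : Type} {M : ℕ} (hM : 0 < M) (u : κ → (Fin m → ℤ))
    (hu : LinearIndependent ℤ u) : LinearIndependent ℤ fun k => (M : ℤ) • u k := by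
  rw [linearIndependent_iff'] at hu ⊢
  intro s g hg i hi
  have h1 : (M : ℤ) • ∑ i ∈ s, g i • u i = 0 := by
    rw [Finset.smul_sum, ← hg]
    exact Finset.sum_congr rfl fun k _ => smul_comm _ _ _
  have h2 : ∑ i ∈ s, g i • u i = 0 := by
    have h3 : (M : ℤ) ≠ 0 := by exact_mod_cast hM.ne'
    exact (smul_eq_zero.1 h1).resolve_left h3
  exact hu s g h2 i hi

end TV

section Main

variable {X : Germ (m + 1)} {T : Triple X} (d : Dat T) (X' : TVar m 1) (φ : X'.Y ≃ d.Y)

/-- The numerical data: the minima of the multiple of a character on the polyhedra. -/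
theorem bound (hpoly : ∀ (y : d.Y) (k : ℝ), 0 ≤ k → ∀ w : Fin m → ℝ,
        w ∈ X'.poly (fun y' => if φ y' = y then k else 0) ↔
          ∀ i, 0 ≤ pr w (d.u i) + k * d.e i y)
    (u : Fin m → ℤ) (hu : ∀ j, 0 ≤ pr (X'.ray j) u) {M : ℕ} (E : X'.Y → ℤ)
    (hE : ∀ y i, (E y : ℝ) ≤ pr (X'.vert y i) ((M : ℤ) • u)) (w' : Fin m → ℤ) (l' : ℤ) (y' : d.Y)
    (hl : 0 ≤ l') (hw : ∀ i, 0 ≤ l' * d.e i y' + ip w' (d.u i)) :
    l' * E (φ.symm y') ≤ ip w' ((M : ℤ) • u) := by
  have hl2 : (0 : ℝ) ≤ (l' : ℝ) := by exact_mod_cast hl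
  have h1 : toR w' ∈ X'.poly (fun y'' => if φ y'' = y' then (l' : ℝ) else 0) := by
    rw [hpoly y' l' hl2]
    intro i
    rw [pr_toR]
    have := hw i
    have h2 : (0 : ℝ) ≤ ((l' * d.e i y' + ip w' (d.u i) : ℤ) : ℝ) := by exact_mod_cast this
    push_cast at h2
    linarith
  have h2 := pr_ge X' h1 ((M : ℤ) • u) (fun y => (E y : ℝ)) (fun j => by
    rw [pr_zsmul]
    exact mul_nonneg (by positivity) (hu j)) hE
  rw [sum_ite_symm, pr_toR] at h2
  exact_mod_cast h2

/-- The sum of the minima. -/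
theorem sum_E (hdeg : ∀ y, X'.deg y = 1) (u : Fin m → ℤ) {M : ℕ} (p : ∀ y, X'.I y)
    (E : X'.Y → ℤ) (hE : ∀ y, (E y : ℝ) = pr (X'.vert y (p y)) ((M : ℤ) • u)) :
    (∃ a : X'.R → ℝ, (∀ j, 0 ≤ a j) ∧ ∑ y, X'.vert y (p y) = ∑ j, a j • X'.ray j ∧
      ∑ j, a j • X'.ray j ≠ 0 ∧
      ((∑ y, E (φ.symm y) : ℤ) : ℝ) = M * ∑ j, a j * pr (X'.ray j) u) := by
  obtain ⟨h1, h2⟩ := X'.proper p
  have h3 : ∑ y, (X'.deg y : ℝ) • X'.vert y (p y) = ∑ y, X'.vert y (p y) := by
    refine Finset.sum_congr rfl fun y _ => ?_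
    rw [hdeg y, Nat.cast_one, one_smul]
  rw [h3] at h1 h2
  obtain ⟨a, ha, ha2⟩ := h1
  refine ⟨a, ha, ha2, by rwa [← ha2], ?_⟩
  rw [Equiv.sum_comp φ.symm E, Int.cast_sum, Finset.sum_congr rfl fun y _ => hE y, ← pr_sum,
    pr_zsmul, ha2, pr_comb]
  push_cast
  rfl

/-- The coefficient of a vertical prime divisor. -/
theorem vertCoeff (hNRV : Stmt_NRV) (hdeg : ∀ y, X'.deg y = 1)
    (hN : ∀ w : Fin m → ℝ, w ∈ X'.N ↔ ∃ z : Fin m → ℤ, w = toR z)
    (hpoly : ∀ (y : d.Y) (k : ℝ), 0 ≤ k → ∀ w : Fin m → ℝ,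
        w ∈ X'.poly (fun y' => if φ y' = y then k else 0) ↔
          ∀ i, 0 ≤ pr w (d.u i) + k * d.e i y) (y : X'.Y) (i : X'.I y) :
    ∃ P : Ideal X.R, T.Coeff P
      (1 - (lin d.ψ ((X'.mu y i : ℝ) • X'.vert y i) + d.α (φ y) * X'.mu y i)) := by
  obtain ⟨z, hz⟩ := (hN _).1 (X'.mu_least y i).1.2
  obtain ⟨M, hM0, hM⟩ := exists_mult X'
  obtain ⟨u, hu, hu2⟩ := hNRV X' hN y i
  have hmu := mu_pos X' y i
  choose p E hE1 hE2 using fun k => exists_E X' hN hM (u k)
  have hMR : (0 : ℝ) < (M : ℝ) := by exact_mod_cast hM0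
  -- the minimum at `y` is attained at the vertex
  have hp : ∀ k, p k y = i := by
    intro k
    by_contra hne
    have h1 := (hu2 k).2 _ hne
    have h2 := hE2 k y i
    rw [hE1 k y, pr_zsmul, pr_zsmul] at h2
    push_cast at h2
    have h3 := le_of_mul_le_mul_left h2 hMR
    linarith
  have hnn : ∀ i', 0 ≤ (X'.mu y i : ℤ) * d.e i' (φ y) + ip z (d.u i') := by
    intro i'
    have h1 := (hpoly (φ y) (X'.mu y i) (by positivity) _).1
      (vert_mem X' φ y i (X'.mu y i) (by positivity)) i'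
    rw [hz, pr_toR] at h1
    have h2 : (0 : ℝ) ≤ (((X'.mu y i : ℤ) * d.e i' (φ y) + ip z (d.u i') : ℤ) : ℝ) := by
      push_cast
      linarith
    exact_mod_cast h2
  have key := d.vert z (X'.mu y i) (φ y) (by exact_mod_cast hmu)
    (primv_vert X' hN y i hz) hnn (fun k => (M : ℤ) • u k) (fun k y' => E k (φ.symm y'))
    (li_smul hM0 u hu) ?_ ?_ ?_
  · obtain ⟨P, hP⟩ := key
    refine ⟨P, ?_⟩
    convert hP using 2
    rw [hz, lin_apply]
    simp only [toR]
    push_cast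
    ring
  · intro k
    obtain ⟨a, ha, -, hne, hs⟩ := sum_E d X' φ hdeg (u k) (p k) (E k) (hE1 k)
    have hpos : (0 : ℝ) < ∑ j, a j * pr (X'.ray j) (u k) := by
      have hnn' : ∀ j ∈ Finset.univ, 0 ≤ a j * pr (X'.ray j) (u k) := fun j _ =>
        mul_nonneg (ha j) ((hu2 k).1 j).le
      rcases (Finset.sum_nonneg hnn').lt_or_eq with h | h
      · exact h
      · exfalso
        rw [eq_comm, Finset.sum_eq_zero_iff_of_nonneg hnn'] at h
        apply hne
        refine Finset.sum_eq_zero fun j hj => ?_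
        have h1 := (mul_eq_zero.1 (h j hj)).resolve_right ((hu2 k).1 j).ne'
        rw [h1, zero_smul]
    have h2 : (0 : ℝ) < ((∑ y', E k (φ.symm y') : ℤ) : ℝ) := by
      rw [hs]
      exact mul_pos hMR hpos
    exact_mod_cast h2
  · intro k w' l' y' hl hw
    exact bound d X' φ hpoly (u k) (fun j => ((hu2 k).1 j).le) (E k) (hE2 k) w' l' y' hl hw
  · intro k
    have h1 := hE1 k y
    rw [hp k] at h1
    have h2 : (((X'.mu y i : ℤ) * E k (φ.symm (φ y)) : ℤ) : ℝ) = (ip z ((M : ℤ) • u k) : ℤ) := by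
      rw [← pr_toR, ← hz, pr_smul, Equiv.symm_apply_apply, Int.cast_mul, h1]
      simp
    exact_mod_cast h2

/-- In dimension at most one every ray is contracted. -/
theorem two_le (j : X'.R) (hj : ¬ X'.Contracted j) : 2 ≤ m := by
  classical
  by_contra hm
  have hm1 : m ≤ 1 := by omega
  let p : ∀ y, X'.I y := fun y => Classical.choice (X'.neI y)
  obtain ⟨h1, h2⟩ := X'.proper p
  obtain ⟨a, ha, ha2⟩ := h1
  obtain ⟨f, hf⟩ := X'.pointed
  have hne := ray_ne X' j
  obtain ⟨i0, hi0⟩ : ∃ i, X'.ray j i ≠ 0 := by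
    by_contra h
    push Not at h
    exact hne (funext h)
  have hall : ∀ i : Fin m, i = i0 := fun i => by
    apply Fin.ext
    omega
  set s := ∑ y, (X'.deg y : ℝ) • X'.vert y (p y) with hs
  have hst : s = (s i0 / X'.ray j i0) • X'.ray j := by
    funext i
    rw [hall i, Pi.smul_apply, smul_eq_mul, div_mul_cancel₀ _ hi0]
  have hfs : 0 < f s := by
    rw [ha2, map_sum]
    have hnn : ∀ k ∈ Finset.univ, 0 ≤ f (a k • X'.ray k) := fun k _ => by
      rw [map_smul, smul_eq_mul]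
      exact mul_nonneg (ha k) (hf k).le
    rcases (Finset.sum_nonneg hnn).lt_or_eq with h | h
    · exact h
    · exfalso
      rw [eq_comm, Finset.sum_eq_zero_iff_of_nonneg hnn] at h
      apply h2
      rw [ha2]
      refine Finset.sum_eq_zero fun k hk => ?_
      have h3 := h k hk
      rw [map_smul, smul_eq_mul] at h3
      rw [(mul_eq_zero.1 h3).resolve_right (hf k).ne', zero_smul]
  refine hj ⟨p, s i0 / X'.ray j i0, ?_, hst⟩
  rw [hst, map_smul, smul_eq_mul] at hfs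
  exact pos_of_mul_pos_left hfs (hf j).le

/-- The vector of a ray is nonnegative. -/
theorem ray_nonneg (hpoly : ∀ (y : d.Y) (k : ℝ), 0 ≤ k → ∀ w : Fin m → ℝ,
        w ∈ X'.poly (fun y' => if φ y' = y then k else 0) ↔
          ∀ i, 0 ≤ pr w (d.u i) + k * d.e i y) (y : d.Y) (j : X'.R) {z : Fin m → ℤ}
    (hz : X'.ray j = toR z) (i : Fin d.N) : 0 ≤ ip z (d.u i) := by
  have h1 := (hpoly y 0 le_rfl _).1 (ray_mem_poly X' j _ fun y' => by simp) i
  rw [hz, pr_toR] at h1
  have h2 : (0 : ℝ) ≤ ((ip z (d.u i) : ℤ) : ℝ) := by linarith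
  exact_mod_cast h2

/-- The coefficient of a horizontal prime divisor. -/
theorem horiCoeff (hNRR : Stmt_NRR) (hdeg : ∀ y, X'.deg y = 1)
    (hN : ∀ w : Fin m → ℝ, w ∈ X'.N ↔ ∃ z : Fin m → ℤ, w = toR z)
    (hpoly : ∀ (y : d.Y) (k : ℝ), 0 ≤ k → ∀ w : Fin m → ℝ,
        w ∈ X'.poly (fun y' => if φ y' = y then k else 0) ↔
          ∀ i, 0 ≤ pr w (d.u i) + k * d.e i y) (y0 : d.Y) (j : X'.R)
    (hj : ¬ X'.Contracted j) : ∃ P : Ideal X.R, T.Coeff P (1 - lin d.ψ (X'.ray j)) := by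
  obtain ⟨z, hz⟩ := (hN _).1 (X'.ray_mem j)
  obtain ⟨M, hM0, hM⟩ := exists_mult X'
  obtain ⟨u, hu, hu2⟩ := hNRR X' hN j
  have hMR : (0 : ℝ) < (M : ℝ) := by exact_mod_cast hM0
  choose p E hE1 hE2 using fun k => exists_E X' hN hM (u k)
  have hge : ∀ k j', 0 ≤ pr (X'.ray j') (u k) := fun k j' => by
    by_cases h : j' = j
    · rw [h, (hu2 k).1]
    · exact ((hu2 k).2 j' h).le
  have key := d.hori z (two_le X' j hj) (primv_ray X' hN j hz)
    (ray_nonneg d X' φ hpoly y0 j hz) (fun k => (M : ℤ) • u k) (fun k y' => E k (φ.symm y'))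
    (li_smul hM0 u hu) ?_ ?_ ?_
  · obtain ⟨P, hP⟩ := key
    refine ⟨P, ?_⟩
    convert hP using 2
    rw [hz, lin_apply]
    rfl
  · intro k
    obtain ⟨a, ha, hv, hne, hs⟩ := sum_E d X' φ hdeg (u k) (p k) (E k) (hE1 k)
    have hpos : (0 : ℝ) < ∑ j, a j * pr (X'.ray j) (u k) := by
      have hnn' : ∀ j ∈ Finset.univ, 0 ≤ a j * pr (X'.ray j) (u k) := fun j _ =>
        mul_nonneg (ha j) (hge k j)
      rcases (Finset.sum_nonneg hnn').lt_or_eq with h | h
      · exact h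
      · exfalso
        rw [eq_comm, Finset.sum_eq_zero_iff_of_nonneg hnn'] at h
        have h1 : ∀ j', j' ≠ j → a j' = 0 := fun j' hj' =>
          (mul_eq_zero.1 (h j' (Finset.mem_univ _))).resolve_right ((hu2 k).2 j' hj').ne'
        have h2 : ∑ j', a j' • X'.ray j' = a j • X'.ray j := by
          refine Finset.sum_eq_single j (fun b _ hb => ?_) (fun h => absurd (Finset.mem_univ _) h)
          rw [h1 b hb, zero_smul]
        refine hj ⟨p k, a j, ?_, ?_⟩
        · refine (ha j).lt_of_ne' fun h3 => hne ?_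
          rw [h2, h3, zero_smul]
        · rw [← h2, ← hv]
          refine Finset.sum_congr rfl fun y _ => ?_
          rw [hdeg y, Nat.cast_one, one_smul]
    have h2 : (0 : ℝ) < ((∑ y', E k (φ.symm y') : ℤ) : ℝ) := by
      rw [hs]
      exact mul_pos hMR hpos
    exact_mod_cast h2
  · intro k w' l' y' hl hw
    exact bound d X' φ hpoly (u k) (hge k) (E k) (hE2 k) w' l' y' hl hw
  · intro k
    have h2 : ((ip z ((M : ℤ) • u k) : ℤ) : ℝ) = 0 := by
      rw [← pr_toR, ← hz, pr_zsmul, (hu2 k).1, mul_zero]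
    exact_mod_cast h2

/-- The linear form is nonnegative on the rays. -/
theorem psi_ray (hL : T.LC)
    (hN : ∀ w : Fin m → ℝ, w ∈ X'.N ↔ ∃ z : Fin m → ℤ, w = toR z)
    (hpoly : ∀ (y : d.Y) (k : ℝ), 0 ≤ k → ∀ w : Fin m → ℝ,
        w ∈ X'.poly (fun y' => if φ y' = y then k else 0) ↔
          ∀ i, 0 ≤ pr w (d.u i) + k * d.e i y) (y0 : d.Y) (j : X'.R) :
    0 ≤ lin d.ψ (X'.ray j) := by
  obtain ⟨z, hz⟩ := (hN _).1 (X'.ray_mem j)
  have hnn : ∀ i, 0 ≤ 0 * d.e i y0 + ip z (d.u i) := fun i => by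
    rw [zero_mul, zero_add]
    exact ray_nonneg d X' φ hpoly y0 j hz i
  obtain ⟨v, hv, hd, -⟩ := d.tor z 0 y0 le_rfl (primv_ray X' hN j hz) hnn
  have h1 := hL v hv
  rw [hd] at h1
  have h2 : 0 ≤ ∑ j, T.r j * minv (d.z j) (fun k => d.c j k y0) z 0 := by
    refine Finset.sum_nonneg fun j _ => mul_nonneg (T.r_nonneg j) ?_
    apply Real.sInf_nonneg
    rintro x ⟨k, rfl⟩
    have h3 := d.reg j k z 0 y0 le_rfl hnn
    exact Int.cast_nonneg h3
  rw [hz, lin_apply]
  simp only [toR]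
  push_cast at h1
  linarith

end Main

end BDR

/-- BDR: the polyhedral divisor and the boundary. -/
theorem t_BDR (hTVC : Stmt_TVC) (hNRV : Stmt_NRV) (hNRR : Stmt_NRR) : Stmt_BDR := by
  classical
  intro m X T d hE hL S hS
  have hK := d.K_ge
  obtain ⟨X', φ, hidx, hdeg, hN, hpoly⟩ := hTVC d.u d.e d.two d.span
    (by
      obtain ⟨w, hw⟩ := d.int
      refine ⟨toR w, fun i => ?_⟩
      rw [BDR.pr_toR]
      exact_mod_cast hw i) d.sum_e d.nz (-d.K).toNat (by omega)
  have y0 : d.Y := by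
    have : 0 < Fintype.card d.Y := by have := d.two; omega
    exact Classical.choice (Fintype.card_pos_iff.1 this)
  have hV := BDR.vertCoeff d X' φ hNRV hdeg hN hpoly
  have hH := BDR.horiCoeff d X' φ hNRR hdeg hN hpoly y0
  have hψ := BDR.psi_ray d X' φ hL hN hpoly y0
  -- the degree of the canonical divisor is nonpositive
  have hsum : 0 ≤ ∑ y, (1 - d.α y) := by
    let p : ∀ y, X'.I y := fun y => Classical.choice (X'.neI y)
    obtain ⟨h1, -⟩ := X'.proper p
    obtain ⟨a, ha, ha2⟩ := h1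
    have h3 : ∑ y, (X'.deg y : ℝ) • X'.vert y (p y) = ∑ y, X'.vert y (p y) := by
      refine Finset.sum_congr rfl fun y _ => ?_
      rw [hdeg y, Nat.cast_one, one_smul]
    rw [h3] at ha2
    have h4 : 0 ≤ BDR.lin d.ψ (∑ y, X'.vert y (p y)) := by
      rw [ha2, map_sum]
      refine Finset.sum_nonneg fun j _ => ?_
      rw [map_smul, smul_eq_mul]
      exact mul_nonneg (ha j) (hψ j)
    rw [map_sum] at h4
    refine h4.trans ?_
    rw [← Equiv.sum_comp φ]
    refine Finset.sum_le_sum fun y _ => ?_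
    obtain ⟨P, hP⟩ := hV y (p y)
    have h5 := hE P _ hP
    rw [map_smul, smul_eq_mul] at h5
    have hmu : (1 : ℝ) ≤ X'.mu y (p y) := by exact_mod_cast BDR.mu_pos X' y (p y)
    by_contra h6
    push Not at h6
    have h7 : 1 < BDR.lin d.ψ (X'.vert y (p y)) + d.α (φ y) := by linarith
    nlinarith
  have hidx2 : ((-d.K).toNat : ℝ) = -(d.K : ℝ) := by
    have h1 : (0 : ℝ) ≤ -(d.K : ℝ) := by
      rw [← d.sum_α]
      exact hsum
    have h2 : 0 ≤ -d.K := by exact_mod_cast h1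
    have h3 : (((-d.K).toNat : ℤ) : ℝ) = ((-d.K : ℤ) : ℝ) := by rw [Int.toNat_of_nonneg h2]
    push_cast at h3 ⊢
    simpa using h3
  let B : Bdry X' :=
    { bH := fun j => if X'.Contracted j then 0 else 1 - BDR.lin d.ψ (X'.ray j)
      bV := fun y i => 1 - (BDR.lin d.ψ ((X'.mu y i : ℝ) • X'.vert y i) + d.α (φ y) * X'.mu y i)
      bH_nonneg := fun j => by
        by_cases h : X'.Contracted j
        · simp [h]
        · simp only [h, if_false]
          obtain ⟨P, hP⟩ := hH j h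
          exact hE P _ hP
      bV_nonneg := fun y i => by
        obtain ⟨P, hP⟩ := hV y i
        exact hE P _ hP
      ψ := BDR.lin d.ψ
      α := fun y => d.α (φ y)
      sum_α := by
        rw [hidx, hidx2, ← d.sum_α, ← Equiv.sum_comp φ]
        refine Finset.sum_congr rfl fun y _ => ?_
        rw [hdeg y, Nat.cast_one, one_mul]
      ψ_vert := fun y i => by ring
      ψ_ray := fun j hj => by simp [hj] }
  refine ⟨X', φ, B, hdeg, hN, hpoly, fun w => rfl, fun y => rfl, fun j hj hb => ?_,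
    fun y i hb => ?_⟩
  · obtain ⟨P, hP⟩ := hH j hj
    have h1 : B.bH j = 1 - BDR.lin d.ψ (X'.ray j) := by
      show (if X'.Contracted j then (0 : ℝ) else _) = _
      rw [if_neg hj]
    rw [h1] at hb ⊢
    exact hS.1 P _ hP hb
  · obtain ⟨P, hP⟩ := hV y i
    exact hS.1 P _ hP hb

end

end MldGeo
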