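import Pool.Agent.MldGeo.Stmts9

/-!
# The minimal log discrepancy is the one of the combinatorial data
-/

namespace MldGeo

open MldTv MldGap

namespace CMB

noncomputable section

open scoped Pointwise

/-! ### arithmetic -/

theorem pr_toR {m : ℕ} (w u : Fin m → ℤ) : pr (toR w) u = (ip w u : ℝ) := by
  unfold pr toR ip
  push_cast
  rfl

theorem ip_smul {m : ℕ} (g : ℤ) (w u : Fin m → ℤ) : ip (fun i => g * w i) u = g * ip w u := by
  unfold ip
  rw [Finset.mul_sum]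
  exact Finset.sum_congr rfl fun i _ => by ring

theorem exists_primv {m : ℕ} (w : Fin m → ℤ) (l : ℤ) (hl : 0 ≤ l) (h : ¬ (w = 0 ∧ l = 0)) :
    ∃ (g : ℕ) (w' : Fin m → ℤ) (l' : ℤ), 0 < g ∧ w = (fun i => (g : ℤ) * w' i) ∧ l = g * l' ∧
      0 ≤ l' ∧ Primv w' l' := by
  obtain ⟨v, hv⟩ : ∃ v : Fin (m + 1) → ℤ, v = Fin.cons l w := ⟨_, rfl⟩
  obtain ⟨I, hI⟩ : ∃ I : Ideal ℤ, I = Ideal.span (Set.range v) := ⟨_, rfl⟩
  obtain ⟨g₀, hg⟩ : ∃ g₀ : ℤ, I = Ideal.span {g₀} :=
    ⟨_, (Ideal.span_singleton_generator I).symm⟩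
  have h1 : g₀ ∈ Ideal.span (Set.range v) := by
    rw [← hI, hg]
    exact Ideal.mem_span_singleton_self g₀
  obtain ⟨c, hc⟩ := Ideal.mem_span_range_iff_exists_fun.1 h1
  have h2 : ∀ i, (g₀.natAbs : ℤ) ∣ v i := by
    intro i
    rw [Int.natAbs_dvd]
    have h3 : v i ∈ I := by
      rw [hI]
      exact Ideal.subset_span ⟨i, rfl⟩
    rwa [hg, Ideal.mem_span_singleton] at h3
  choose b hb using h2
  have hg0 : g₀ ≠ 0 := by
    rintro rfl
    apply h
    have h3 : ∀ i, v i = 0 := by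
      intro i
      rw [hb i]
      simp
    refine ⟨funext fun i => ?_, ?_⟩
    · have h4 := h3 i.succ
      rw [hv, Fin.cons_succ] at h4
      exact h4
    · have h4 := h3 0
      rw [hv, Fin.cons_zero] at h4
      exact h4
  have hpos : 0 < g₀.natAbs := Int.natAbs_pos.2 hg0
  have hgb : (g₀.natAbs : ℤ) * ∑ i, c i * b i = g₀ := by
    rw [← hc, Finset.mul_sum]
    refine Finset.sum_congr rfl fun i _ => ?_
    rw [hb i, hc]
    ring
  have hl' : l = g₀.natAbs * b 0 := by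
    rw [← hb 0, hv, Fin.cons_zero]
  have hw' : w = fun i => (g₀.natAbs : ℤ) * b (Fin.succ i) := by
    funext i
    rw [← hb i.succ, hv, Fin.cons_succ]
  refine ⟨g₀.natAbs, fun i => b (Fin.succ i), b 0, hpos, hw', hl', ?_, ?_⟩
  · by_contra h5
    rw [not_le] at h5
    have h6 : (0 : ℤ) < g₀.natAbs := by exact_mod_cast hpos
    have h7 := mul_neg_of_pos_of_neg h6 h5
    omega
  · have h5 : ∀ c : Fin (m + 1) → ℤ, ∑ i, c i * b i =
        b 0 * c 0 + ip (fun i => b (Fin.succ i)) fun i => c (Fin.succ i) := by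
      intro c
      rw [Fin.sum_univ_succ, ip, mul_comm (c 0)]
      congr 1
      exact Finset.sum_congr rfl fun i _ => mul_comm _ _
    rcases Int.natAbs_eq g₀ with h6 | h6
    · refine ⟨c 0, fun i => c (Fin.succ i), ?_⟩
      rw [← h5]
      have h7 : (g₀.natAbs : ℤ) ≠ 0 := by exact_mod_cast hpos.ne'
      apply mul_left_cancel₀ h7
      rw [hgb, mul_one]
      exact h6
    · refine ⟨-c 0, fun i => -c (Fin.succ i), ?_⟩
      rw [← h5 fun i => -c i]
      have h7 : (g₀.natAbs : ℤ) ≠ 0 := by exact_mod_cast hpos.ne'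
      apply mul_left_cancel₀ h7
      have h8 : ∑ i, -c i * b i = -∑ i, c i * b i := by
        rw [← Finset.sum_neg_distrib]
        exact Finset.sum_congr rfl fun i _ => by ring
      rw [h8, mul_neg, hgb, mul_one]
      omega

theorem minv_smul {m N : ℕ} (z : Fin N → Fin m → ℤ) (c : Fin N → ℤ) (w : Fin m → ℤ) (l : ℤ)
    (g : ℕ) : minv z c (fun i => (g : ℤ) * w i) (g * l) = g * minv z c w l := by
  unfold minv
  have h : (Set.range fun k => (((g * l) * c k + ip (fun i => (g : ℤ) * w i) (z k) : ℤ) : ℝ)) =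
      (g : ℝ) • Set.range fun k => ((l * c k + ip w (z k) : ℤ) : ℝ) := by
    rw [Set.smul_set_range]
    congr 1
    funext k
    rw [ip_smul, smul_eq_mul]
    push_cast
    ring
  rw [h, Real.sInf_smul_of_nonneg (Nat.cast_nonneg g), smul_eq_mul]

/-! ### the function of log discrepancies -/

variable {m : ℕ} {X : Germ (m + 1)} {T : Triple X} (d : Dat T)

/-- the combinatorial log discrepancy -/
def DD (w : Fin m → ℤ) (l : ℤ) (y : d.Y) : ℝ :=
  ∑ i, d.ψ i * w i + l * d.α y - ∑ j, T.r j * minv (d.z j) (fun k => d.c j k y) w l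

theorem DD_smul (w : Fin m → ℤ) (l : ℤ) (y : d.Y) (g : ℕ) :
    DD d (fun i => (g : ℤ) * w i) (g * l) y = g * DD d w l y := by
  unfold DD
  rw [mul_sub, mul_add, Finset.mul_sum, Finset.mul_sum]
  congr 1
  · congr 1
    · refine Finset.sum_congr rfl fun i _ => ?_
      push_cast
      ring
    · push_cast
      ring
  · refine Finset.sum_congr rfl fun j _ => ?_
    rw [minv_smul]
    ring

theorem DD_zero (y : d.Y) : DD d 0 0 y = 0 := by
  have h := DD_smul d 0 0 y 0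
  rw [Nat.cast_zero, zero_mul, Nat.cast_zero, zero_mul] at h
  rw [← h]
  congr 1

/-- the reduction to primitive vectors -/
theorem exists_val (hLC : T.LC) (w : Fin m → ℤ) (l : ℤ) (y : d.Y) (hl : 0 ≤ l)
    (h : ∀ i, 0 ≤ l * d.e i y + ip w (d.u i)) (h0 : ¬ (w = 0 ∧ l = 0)) :
    ∃ v, X.Through v ∧ T.disc v ≤ DD d w l y ∧
      ((∀ i, 0 < l * d.e i y + ip w (d.u i)) → X.At v) := by
  obtain ⟨g, w', l', hg, hw, hl', hl0, hP⟩ := exists_primv w l hl h0
  have hg' : (0 : ℤ) < g := by exact_mod_cast hg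
  have hi : ∀ i, l * d.e i y + ip w (d.u i) = g * (l' * d.e i y + ip w' (d.u i)) := by
    intro i
    rw [hw, ip_smul, hl']
    ring
  obtain ⟨v, hv1, hv2, hv3⟩ := d.tor w' l' y hl0 hP (fun i => by
    have h1 := h i
    rw [hi i] at h1
    by_contra h2
    rw [not_le] at h2
    have h3 := mul_neg_of_pos_of_neg hg' h2
    omega)
  refine ⟨v, hv1, ?_, fun hpos => hv3 fun i => ?_⟩
  · have h1 := hLC v hv1
    have h2 : DD d w l y = g * DD d w' l' y := by
      rw [hw, hl', DD_smul]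
    have h3 : T.disc v = DD d w' l' y := hv2
    rw [h2, ← h3]
    have h4 : (1 : ℝ) ≤ g := by exact_mod_cast hg
    nlinarith
  · have h1 := hpos i
    rw [hi i] at h1
    exact (mul_pos_iff_of_pos_left hg').1 h1

theorem DD_nonneg (hLC : T.LC) (w : Fin m → ℤ) (l : ℤ) (y : d.Y) (hl : 0 ≤ l)
    (h : ∀ i, 0 ≤ l * d.e i y + ip w (d.u i)) : 0 ≤ DD d w l y := by
  by_cases h0 : w = 0 ∧ l = 0
  · rw [h0.1, h0.2, DD_zero]
  · obtain ⟨v, hv1, hv2, -⟩ := exists_val d hLC w l y hl h h0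
    exact (hLC v hv1).trans hv2

theorem N_pos : Nonempty (Fin d.N) := by
  by_contra h
  rw [not_nonempty_iff] at h
  exact d.nz (fun _ => 0) (fun _ i => h.elim i) (by simp)

theorem u_ne (i : Fin d.N) : d.u i ≠ 0 := by
  intro h
  obtain ⟨w, hw⟩ := d.int
  have h1 := hw i
  rw [h] at h1
  simp [ip] at h1

theorem Y_ne : Nonempty d.Y := by
  rw [← Fintype.card_pos_iff]
  have := d.two
  omega

/-! ### the triple -/

/-- the linear form of a character -/
def lin {m : ℕ} (z : Fin m → ℤ) : (Fin m → ℝ) →ₗ[ℝ] ℝ := ∑ i, (z i : ℝ) • LinearMap.proj i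

theorem lin_apply {m : ℕ} (z : Fin m → ℤ) (w : Fin m → ℝ) : lin z w = pr w z := by
  unfold lin pr
  rw [LinearMap.sum_apply]
  refine Finset.sum_congr rfl fun i _ => ?_
  rw [LinearMap.smul_apply, LinearMap.proj_apply, smul_eq_mul, mul_comm]

variable {X' : TVar m 1} (φ : X'.Y ≃ d.Y) (B : Bdry X')

/-- the combinatorial triple -/
def tri (hmon : ∀ j k, X'.IsMon (lin (d.z j k), fun y => (d.c j k (φ y) : ℝ))) :
    MldTv.Triple X' where
  toBdry := B
  J := T.J
  finJ := T.finJ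
  r := T.r
  r_nonneg := T.r_nonneg
  A j := Set.range fun k => (lin (d.z j k), fun y => (d.c j k (φ y) : ℝ))
  A_nonempty j := ⟨_, ⟨⟨0, d.M_pos j⟩, rfl⟩⟩
  A_mon j f := by
    rintro ⟨k, rfl⟩
    exact hmon j k

/-- a function with one nonzero value -/
def sg (k : ℕ) (y : d.Y) : X'.Y → ℕ := fun y' => if φ y' = y then k else 0

theorem sum_sg (f : X'.Y → ℝ) (k : ℕ) (y : d.Y) :
    ∑ y', f y' * (sg d φ k y y' : ℝ) = f (φ.symm y) * k := by
  rw [Finset.sum_eq_single (φ.symm y)]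
  · unfold sg
    rw [Equiv.apply_symm_apply, if_pos rfl]
  · intro b _ hb
    unfold sg
    rw [if_neg, Nat.cast_zero, mul_zero]
    rintro rfl
    exact hb (φ.symm_apply_apply b).symm
  · intro h
    exact absurd (Finset.mem_univ _) h

theorem sg_cast (k : ℕ) (y : d.Y) :
    (fun y' => ((sg d φ k y y' : ℕ) : ℝ)) = fun y' => if φ y' = y then (k : ℝ) else 0 := by
  funext y'
  unfold sg
  split_ifs
  · rfl
  · exact Nat.cast_zero

theorem card_sg (k : ℕ) (y : d.Y) :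
    (Finset.univ.filter fun y' => sg d φ k y y' ≠ 0).card ≤ 1 := by
  rw [Finset.card_le_one]
  intro a ha b hb
  rw [Finset.mem_filter] at ha hb
  have h1 : ∀ a, sg d φ k y a ≠ 0 → φ a = y := by
    intro a ha
    by_contra h
    exact ha (if_neg h)
  exact φ.injective ((h1 a ha.2).trans (h1 b hb.2).symm)

theorem exists_sg (l : X'.Y → ℕ) (h : (Finset.univ.filter fun y => l y ≠ 0).card ≤ 1) :
    ∃ (k : ℕ) (y : d.Y), l = sg d φ k y := by
  by_cases h0 : ∃ y₀, l y₀ ≠ 0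
  · obtain ⟨y₀, hy⟩ := h0
    refine ⟨l y₀, φ y₀, funext fun y => ?_⟩
    unfold sg
    split_ifs with h1
    · rw [φ.injective h1]
    · by_contra h2
      rw [Finset.card_le_one] at h
      exact h1 (congrArg φ (h y (Finset.mem_filter.2 ⟨Finset.mem_univ _, h2⟩) y₀
        (Finset.mem_filter.2 ⟨Finset.mem_univ _, hy⟩)))
  · push Not at h0
    obtain ⟨y⟩ := Y_ne d
    refine ⟨0, y, funext fun y' => ?_⟩
    unfold sg
    rw [h0, ite_self]

theorem ldisc_sg (hψ : ∀ w, B.ψ w = ∑ i, d.ψ i * w i) (hα : ∀ y, B.α y = d.α (φ y))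
    (hmon : ∀ j k, X'.IsMon (lin (d.z j k), fun y => (d.c j k (φ y) : ℝ)))
    (w : Fin m → ℤ) (k : ℕ) (y : d.Y) :
    (tri d φ B hmon).ldisc (toR w) (sg d φ k y) = DD d w k y := by
  unfold MldTv.Triple.ldisc DD Bdry.disc
  have h1 : (tri d φ B hmon).ψ = B.ψ := rfl
  have h2 : (tri d φ B hmon).α = B.α := rfl
  rw [h1, h2, hψ, sum_sg, hα, Equiv.apply_symm_apply]
  have h3 : ∀ j : T.J, X'.ord ((tri d φ B hmon).A j) (toR w) (sg d φ k y) =
      minv (d.z j) (fun k => d.c j k y) w k := by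
    intro j
    unfold TVar.ord minv
    have h4 : (tri d φ B hmon).A j =
      Set.range fun k => (lin (d.z j k), fun y => (d.c j k (φ y) : ℝ)) := rfl
    rw [h4, ← Set.range_comp]
    congr 2
    funext k'
    show X'.ev (lin (d.z j k'), fun y => (d.c j k' (φ y) : ℝ)) (toR w) (sg d φ k y) = _
    unfold TVar.ev
    rw [lin_apply, pr_toR]
    show _ + ∑ y', (d.c j k' (φ y') : ℝ) * (sg d φ k y y' : ℝ) = _
    rw [sum_sg d φ (fun y' => (d.c j k' (φ y') : ℝ)), Equiv.apply_symm_apply]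
    push_cast
    ring
  have h5 : ∑ j, (tri d φ B hmon).r j * X'.ord ((tri d φ B hmon).A j) (toR w) (sg d φ k y) =
      ∑ j, T.r j * minv (d.z j) (fun k => d.c j k y) w k :=
    Finset.sum_congr rfl fun j _ => by
      rw [h3 j]
      rfl
  rw [h5]
  congr 1
  rw [mul_comm (d.α y)]
  rfl

section poly

variable (hpoly : ∀ (y : d.Y) (k : ℝ), 0 ≤ k → ∀ w : Fin m → ℝ,
  w ∈ X'.poly (fun y' => if φ y' = y then k else 0) ↔ ∀ i, 0 ≤ pr w (d.u i) + k * d.e i y)

include hpoly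

theorem mem_poly (w : Fin m → ℝ) (k : ℕ) (y : d.Y) :
    w ∈ X'.poly (fun y' => ((sg d φ k y y' : ℕ) : ℝ)) ↔ ∀ i, 0 ≤ pr w (d.u i) + k * d.e i y := by
  rw [sg_cast]
  exact hpoly y k (Nat.cast_nonneg k) w

theorem mem_int (hINT : Stmt_INT) (w : Fin m → ℝ) (k : ℕ) (y : d.Y) :
    w ∈ interior (X'.poly (fun y' => ((sg d φ k y y' : ℕ) : ℝ))) ↔
      ∀ i, 0 < pr w (d.u i) + k * d.e i y := by
  have h : X'.poly (fun y' => ((sg d φ k y y' : ℕ) : ℝ)) =
      {w | ∀ i, 0 ≤ pr w (d.u i) + k * d.e i y} :=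
    Set.ext fun w => mem_poly d φ hpoly w k y
  rw [h, hINT d.u (fun i => (k : ℝ) * d.e i y) (u_ne d)]
  rfl

end poly

theorem cast_nonneg (w : Fin m → ℤ) (k : ℕ) (y : d.Y) (i : Fin d.N) :
    0 ≤ pr (toR w) (d.u i) + k * d.e i y ↔ 0 ≤ (k : ℤ) * d.e i y + ip w (d.u i) := by
  rw [pr_toR, ← Int.cast_nonneg_iff (R := ℝ)]
  push_cast
  rw [add_comm]

theorem cast_pos (w : Fin m → ℤ) (k : ℕ) (y : d.Y) (i : Fin d.N) :
    0 < pr (toR w) (d.u i) + k * d.e i y ↔ 0 < (k : ℤ) * d.e i y + ip w (d.u i) := by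
  rw [pr_toR, ← Int.cast_pos (R := ℝ)]
  push_cast
  rw [add_comm]

theorem vert_mem (y : X'.Y) (i : X'.I y) :
    X'.vert y i ∈ X'.poly (fun y' => if φ y' = φ y then 1 else 0) := by
  classical
  refine ⟨Pi.single y (Pi.single i 1), 0, ?_, fun _ => le_rfl, ?_, ?_⟩
  · intro y' i'
    by_cases h : y' = y
    · subst h
      rw [Pi.single_eq_same]
      by_cases h' : i' = i
      · subst h'
        rw [Pi.single_eq_same]
        exact zero_le_one
      · rw [Pi.single_eq_of_ne h']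
    · rw [Pi.single_eq_of_ne h]
      exact le_rfl
  · intro y'
    by_cases h : y' = y
    · subst h
      show _ = if φ y' = φ y' then (1 : ℝ) else 0
      rw [if_pos rfl, Pi.single_eq_same]
      exact Finset.sum_pi_single' i (1 : ℝ) Finset.univ |>.trans (if_pos (Finset.mem_univ i))
    · show _ = if φ y' = φ y then (1 : ℝ) else 0
      rw [if_neg (fun h' => h (φ.injective h')), Pi.single_eq_of_ne h]
      simp
  · rw [Finset.sum_eq_single y, Finset.sum_eq_single i]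
    · rw [Pi.single_eq_same, Pi.single_eq_same, one_smul]
      simp
    · intro i' _ hi'
      rw [Pi.single_eq_same, Pi.single_eq_of_ne hi', zero_smul]
    · intro h
      exact absurd (Finset.mem_univ _) h
    · intro y' _ hy'
      rw [Pi.single_eq_of_ne hy']
      simp
    · intro h
      exact absurd (Finset.mem_univ _) h

theorem ray_mem (j : X'.R) (y : d.Y) :
    X'.ray j ∈ X'.poly (fun y' => if φ y' = y then 0 else 0) := by
  classical
  refine ⟨0, Pi.single j 1, fun _ _ => le_rfl, ?_, ?_, ?_⟩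
  · intro j'
    by_cases h' : j' = j
    · subst h'
      rw [Pi.single_eq_same]
      exact zero_le_one
    · rw [Pi.single_eq_of_ne h']
  · intro y'
    simp
  · rw [Finset.sum_eq_single j]
    · rw [Pi.single_eq_same, one_smul]
      simp
    · intro i' _ hi'
      rw [Pi.single_eq_of_ne hi', zero_smul]
    · intro h
      exact absurd (Finset.mem_univ _) h

end

end CMB

open CMB in
theorem t_CMB (hBDR : Stmt_BDR) (hINT : Stmt_INT) : Stmt_CMB := by
  classical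
  intro m X T d hEff hLC S hS
  obtain ⟨X', φ, B, hdeg, hN, hpoly, hψ, hα, hbH, hbV⟩ := hBDR d hEff hLC S hS
  have hmon : ∀ j k, X'.IsMon (lin (d.z j k), fun y => (d.c j k (φ y) : ℝ)) := by
    intro j k
    refine ⟨?_, fun y i => ?_, fun j' _ => ?_⟩
    · have h1 : ∑ y, (X'.deg y : ℝ) * (d.c j k (φ y) : ℝ) = ∑ y, (d.c j k y : ℝ) := by
        rw [← Equiv.sum_comp φ fun y => (d.c j k y : ℝ)]
        exact Finset.sum_congr rfl fun y _ => by rw [hdeg, Nat.cast_one, one_mul]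
      refine h1.trans ?_
      exact_mod_cast d.sum_c j k
    · obtain ⟨hmu0, hmu⟩ := (X'.mu_least y i).1
      obtain ⟨w, hw⟩ := (hN _).1 hmu
      have h1 := (hpoly (φ y) 1 zero_le_one _).1 (vert_mem d φ y i)
      have h2 : ∀ i', 0 ≤ (X'.mu y i : ℤ) * d.e i' (φ y) + ip w (d.u i') := by
        intro i'
        rw [← cast_nonneg, ← hw]
        have h3 : pr ((X'.mu y i : ℝ) • X'.vert y i) (d.u i') =
            X'.mu y i * pr (X'.vert y i) (d.u i') := by
          unfold pr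
          rw [Finset.mul_sum]
          refine Finset.sum_congr rfl fun j _ => ?_
          rw [Pi.smul_apply, smul_eq_mul]
          ring
        rw [h3]
        have h4 := mul_nonneg (Nat.cast_nonneg (α := ℝ) (X'.mu y i)) (h1 i')
        linarith
      have h3 := d.reg j k w (X'.mu y i) (φ y) (Int.natCast_nonneg _) h2
      obtain ⟨a, ha⟩ := Int.eq_ofNat_of_zero_le h3
      refine ⟨a, ?_⟩
      show lin (d.z j k) ((X'.mu y i : ℝ) • X'.vert y i) + (d.c j k (φ y) : ℝ) * X'.mu y i = a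
      rw [hw, lin_apply, pr_toR]
      have h5 : (((X'.mu y i : ℤ) * d.c j k (φ y) + ip w (d.z j k) : ℤ) : ℝ) = ((a : ℤ) : ℝ) := by
        rw [ha]
      push_cast at h5
      rw [← h5]
      ring
    · obtain ⟨w, hw⟩ := (hN _).1 (X'.ray_mem j')
      obtain ⟨y⟩ := Y_ne d
      have h1 := (hpoly y 0 le_rfl _).1 (ray_mem d φ j' y)
      have h2 : ∀ i', 0 ≤ (0 : ℤ) * d.e i' y + ip w (d.u i') := by
        intro i'
        have h3 := cast_nonneg d w 0 y i'
        push_cast at h3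
        rw [← h3, ← hw]
        exact h1 i'
      have h3 := d.reg j k w 0 y le_rfl h2
      obtain ⟨a, ha⟩ := Int.eq_ofNat_of_zero_le h3
      refine ⟨a, ?_⟩
      show lin (d.z j k) (X'.ray j') = a
      rw [hw, lin_apply, pr_toR]
      rw [zero_mul, zero_add] at ha
      have h5 : ((ip w (d.z j k) : ℤ) : ℝ) = ((a : ℤ) : ℝ) := by
        rw [ha]
      exact_mod_cast h5
  -- valuations
  have hval : ∀ v l, v ∈ X'.N → (Finset.univ.filter fun y => l y ≠ 0).card ≤ 1 →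
      ∃ (w : Fin m → ℤ) (k : ℕ) (y : d.Y), v = toR w ∧ l = sg d φ k y := by
    intro v l hv hl
    obtain ⟨w, hw⟩ := (hN v).1 hv
    obtain ⟨k, y, hk⟩ := exists_sg d φ l hl
    exact ⟨w, k, y, hw, hk⟩
  have hLC' : (tri d φ B hmon).LC := by
    intro v l ⟨hv, hl, hvl⟩
    obtain ⟨w, k, y, rfl, rfl⟩ := hval v l hv hl
    rw [ldisc_sg d φ B hψ hα hmon]
    refine DD_nonneg d hLC w k y (Int.natCast_nonneg k) fun i => ?_
    rw [← cast_nonneg]
    exact (mem_poly d φ hpoly _ k y).1 hvl i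
  have hmld : (tri d φ B hmon).mld = T.mld := by
    unfold MldTv.Triple.mld Triple.mld
    obtain ⟨C, hC⟩ : ∃ C : Set ℝ, C = {a : ℝ | ∃ v l, X'.Central v l ∧
      (tri d φ B hmon).ldisc v l = a} := ⟨_, rfl⟩
    obtain ⟨G, hG⟩ : ∃ G : Set ℝ, G = {a : ℝ | ∃ v, X.At v ∧ T.disc v = a} := ⟨_, rfl⟩
    rw [← hC, ← hG]
    have hC0 : ∀ a ∈ C, 0 ≤ a := by
      rw [hC]
      rintro a ⟨v, l, ⟨h1, h2, h3⟩, rfl⟩
      exact hLC' v l ⟨h1, h2, interior_subset h3⟩
    have hG0 : ∀ a ∈ G, 0 ≤ a := by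
      rw [hG]
      rintro a ⟨v, h1, rfl⟩
      exact hLC v (d.ath v h1)
    have hCG : ∀ a ∈ C, ∃ b ∈ G, b ≤ a := by
      rw [hC]
      rintro a ⟨v, l, ⟨h1, h2, h3⟩, rfl⟩
      obtain ⟨w, k, y, rfl, rfl⟩ := hval v l h1 h2
      have h4 : ∀ i, 0 < (k : ℤ) * d.e i y + ip w (d.u i) := by
        intro i
        rw [← cast_pos]
        exact (mem_int d φ hpoly hINT _ k y).1 h3 i
      have h5 : ¬ (w = 0 ∧ (k : ℤ) = 0) := by
        rintro ⟨rfl, h6⟩
        obtain ⟨i⟩ := N_pos d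
        have h7 := h4 i
        rw [h6] at h7
        simp [ip] at h7
      obtain ⟨v, hv1, hv2, hv3⟩ := exists_val d hLC w k y (Int.natCast_nonneg k)
        (fun i => (h4 i).le) h5
      rw [ldisc_sg d φ B hψ hα hmon, hG]
      exact ⟨_, ⟨v, hv3 h4, rfl⟩, hv2⟩
    have hGC : ∀ a ∈ G, ∃ b ∈ C, b ≤ a := by
      rw [hG]
      rintro a ⟨v, h1, rfl⟩
      obtain ⟨w, l, y, hl, h2, h3, h4⟩ := d.low v (d.ath v h1)
      obtain ⟨k, rfl⟩ := Int.eq_ofNat_of_zero_le hl
      rw [hC]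
      refine ⟨_, ⟨toR w, sg d φ k y, ⟨(hN _).2 ⟨w, rfl⟩, card_sg d φ k y, ?_⟩, rfl⟩, ?_⟩
      · refine (mem_int d φ hpoly hINT _ k y).2 fun i => ?_
        rw [cast_pos]
        exact h3 h1 i
      · rw [ldisc_sg d φ B hψ hα hmon]
        exact h4
    have hCne : C.Nonempty := by
      obtain ⟨w, hw⟩ := d.int
      obtain ⟨y⟩ := Y_ne d
      rw [hC]
      refine ⟨_, toR w, sg d φ 0 y, ⟨(hN _).2 ⟨w, rfl⟩, card_sg d φ 0 y, ?_⟩, rfl⟩
      refine (mem_int d φ hpoly hINT _ 0 y).2 fun i => ?_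
      rw [cast_pos, Nat.cast_zero, zero_mul, zero_add]
      exact hw i
    obtain ⟨a₀, ha₀⟩ := hCne
    obtain ⟨b₀, hb₀, -⟩ := hCG a₀ ha₀
    apply le_antisymm
    · refine le_csInf ⟨b₀, hb₀⟩ fun a ha => ?_
      obtain ⟨b, hb, hba⟩ := hGC a ha
      exact (csInf_le ⟨0, fun x hx => hC0 x hx⟩ hb).trans hba
    · refine le_csInf ⟨a₀, ha₀⟩ fun a ha => ?_
      obtain ⟨b, hb, hba⟩ := hCG a ha
      exact (csInf_le ⟨0, fun x hx => hG0 x hx⟩ hb).trans hba
  refine ⟨m, 1, 0, X', tri d φ B hmon, by omega, hLC', ⟨hbH, hbV, hS.2⟩, ?_⟩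
  rw [hmld]
  simp

end MldGeo
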