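import Pool.Agent.MldGeo.Stmts7

/-!
# The interior of a polyhedron
-/

namespace MldGeo

namespace INT

theorem pr_sub_smul {m : ℕ} (w : Fin m → ℝ) (u : Fin m → ℤ) (ε : ℝ) :
    pr (w - ε • toR u) u = pr w u - ε * ∑ j, (u j : ℝ) ^ 2 := by
  unfold pr toR
  rw [Finset.mul_sum, ← Finset.sum_sub_distrib]
  refine Finset.sum_congr rfl fun j _ => ?_
  simp only [Pi.sub_apply, Pi.smul_apply, smul_eq_mul]
  ring

theorem sq_pos' {m : ℕ} {u : Fin m → ℤ} (hu : u ≠ 0) : 0 < ∑ j, (u j : ℝ) ^ 2 := by
  obtain ⟨j, hj⟩ := Function.ne_iff.1 hu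
  refine Finset.sum_pos' (fun i _ => sq_nonneg _) ⟨j, Finset.mem_univ j, ?_⟩
  have h : (u j : ℝ) ≠ 0 := by
    have h2 : u j ≠ 0 := hj
    exact_mod_cast h2
  positivity

theorem continuous_pr {m : ℕ} (u : Fin m → ℤ) : Continuous fun w : Fin m → ℝ => pr w u := by
  unfold pr
  fun_prop

end INT

theorem t_INT : Stmt_INT := by
  intro m ι _ u b hu
  apply Set.Subset.antisymm
  · intro w hw
    have hmem : ∀ i, 0 ≤ pr w (u i) + b i := interior_subset hw
    intro i
    by_contra hcon
    have h0 : pr w (u i) + b i ≤ 0 := not_lt.1 hcon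
    have hc : Continuous fun ε : ℝ => w - ε • toR (u i) := by fun_prop
    have hev : ∀ᶠ ε : ℝ in nhds 0, w - ε • toR (u i) ∈
        interior {w : Fin m → ℝ | ∀ i, 0 ≤ pr w (u i) + b i} := by
      apply hc.continuousAt.eventually_mem
      rw [zero_smul, sub_zero]
      exact isOpen_interior.mem_nhds hw
    obtain ⟨δ, hδ, hball⟩ := Metric.eventually_nhds_iff.1 hev
    have h1 := hball (y := δ / 2) (by
      rw [Real.dist_eq, sub_zero, abs_of_pos (by linarith)]
      linarith)
    have h2 : 0 ≤ pr (w - (δ / 2) • toR (u i)) (u i) + b i := interior_subset h1 i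
    rw [INT.pr_sub_smul] at h2
    have h3 := INT.sq_pos' (hu i)
    have h4 : 0 < δ / 2 * ∑ j, (u i j : ℝ) ^ 2 := by positivity
    linarith
  · apply interior_maximal
    · intro w hw i
      exact (hw i).le
    · have h : {w : Fin m → ℝ | ∀ i, 0 < pr w (u i) + b i} =
          ⋂ i, {w : Fin m → ℝ | 0 < pr w (u i) + b i} := by
        ext w
        simp
      rw [h]
      exact isOpen_iInter_of_finite fun i =>
        isOpen_lt continuous_const ((INT.continuous_pr (u i)).add continuous_const)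

end MldGeo
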