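import Pool.Agent.MldGeo.Stmts7

/-!
# MNR: primitive and minimal systems of generators of strongly convex rational cones
-/

namespace MldGeo

open MldGap

namespace MNR

theorem smul_mem {n : ℕ} {ι : Type} [Fintype ι] {e : ι → (Fin n → ℝ)} {x : Fin n → ℝ}
    (hx : x ∈ coneOf e) {s : ℝ} (hs : 0 ≤ s) : s • x ∈ coneOf e := by
  obtain ⟨c, hc, rfl⟩ := hx
  refine ⟨fun i => s * c i, fun i => mul_nonneg hs (hc i), ?_⟩
  rw [Finset.smul_sum]
  exact Finset.sum_congr rfl fun i _ => smul_smul _ _ _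

theorem zero_mem {n : ℕ} {ι : Type} [Fintype ι] {e : ι → (Fin n → ℝ)} :
    (0 : Fin n → ℝ) ∈ coneOf e := by
  refine ⟨fun _ => 0, fun _ => le_rfl, ?_⟩
  simp

theorem gen_mem {n : ℕ} {ι : Type} [Fintype ι] (e : ι → (Fin n → ℝ)) (i : ι) :
    e i ∈ coneOf e := by
  classical
  refine ⟨fun j => if j = i then 1 else 0, fun j => ?_, ?_⟩
  · show (0 : ℝ) ≤ if j = i then 1 else 0
    split_ifs
    · exact zero_le_one
    · exact le_rfl
  · simp

theorem cone_sub {n : ℕ} {ι κ : Type} [Fintype ι] [Fintype κ] {e : ι → (Fin n → ℝ)}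
    {e' : κ → (Fin n → ℝ)} (h : ∀ i, e i ∈ coneOf e') : coneOf e ⊆ coneOf e' := by
  choose c hc hc' using h
  rintro x ⟨a, ha, rfl⟩
  refine ⟨fun j => ∑ i, a i * c i j, fun j => Finset.sum_nonneg fun i _ =>
    mul_nonneg (ha i) (hc i j), ?_⟩
  simp only [Finset.sum_smul]
  rw [Finset.sum_comm]
  refine Finset.sum_congr rfl fun i _ => ?_
  conv_lhs => rw [hc' i]
  rw [Finset.smul_sum]
  exact Finset.sum_congr rfl fun j _ => smul_smul _ _ _

theorem cone_eq {n : ℕ} {ι κ : Type} [Fintype ι] [Fintype κ] {e : ι → (Fin n → ℝ)}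
    {e' : κ → (Fin n → ℝ)} (h : ∀ i, e i ∈ coneOf e') (h' : ∀ i, e' i ∈ coneOf e) :
    coneOf e = coneOf e' := Set.Subset.antisymm (cone_sub h) (cone_sub h')

/-- The primitive vector of a nonzero integral vector. -/
theorem exists_prim {m : ℕ} (v : Fin m → ℤ) (hv : v ≠ 0) :
    ∃ (g : ℝ) (p : Fin m → ℤ), 0 < g ∧ toR v = g • toR p ∧
      ∀ t : ℝ, 0 < t → (∃ z : Fin m → ℤ, t • toR p = toR z) → 1 ≤ t := by
  classical
  obtain ⟨j, hj⟩ := Function.ne_iff.1 hv
  obtain ⟨p, hp1, hp2⟩ := Finset.extract_gcd v (s := Finset.univ) ⟨j, Finset.mem_univ j⟩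
  have hg0 : Finset.univ.gcd v ≠ 0 := by
    intro h0
    have h1 := hp1 j (Finset.mem_univ j)
    rw [h0, zero_mul] at h1
    exact hj h1
  have hg1 : 0 ≤ Finset.univ.gcd v := Int.nonneg_of_normalize_eq_self Finset.normalize_gcd
  refine ⟨((Finset.univ.gcd v : ℤ) : ℝ), p, ?_, ?_, ?_⟩
  · exact_mod_cast lt_of_le_of_ne hg1 (Ne.symm hg0)
  · funext i
    show ((v i : ℤ) : ℝ) = ((Finset.univ.gcd v : ℤ) : ℝ) * ((p i : ℤ) : ℝ)
    rw [hp1 i (Finset.mem_univ i)]
    push_cast
    ring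
  · rintro t ht ⟨z, hz⟩
    have h1 : (1 : ℤ) ∈ Ideal.span (Set.range p) := by
      obtain ⟨d, hd⟩ := (IsPrincipalIdealRing.principal (Ideal.span (Set.range p))).principal
      have h2 : ∀ i, d ∣ p i := by
        intro i
        have h3 : p i ∈ Ideal.span (Set.range p) := Ideal.subset_span ⟨i, rfl⟩
        rw [hd] at h3
        exact Ideal.mem_span_singleton.1 h3
      have h3 : d ∣ 1 := by
        rw [← hp2]
        exact Finset.dvd_gcd fun i _ => h2 i
      rw [hd]
      exact Ideal.mem_span_singleton.2 h3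
    rw [Ideal.mem_span_range_iff_exists_fun] at h1
    obtain ⟨c, hc⟩ := h1
    have h2 : t = ((∑ i, c i * z i : ℤ) : ℝ) := by
      have h3 : ((∑ i, c i * p i : ℤ) : ℝ) = 1 := by rw [hc]; norm_num
      have h4 : t * ((∑ i, c i * p i : ℤ) : ℝ) = ((∑ i, c i * z i : ℤ) : ℝ) := by
        push_cast
        rw [Finset.mul_sum]
        refine Finset.sum_congr rfl fun i _ => ?_
        have h5 : t * (p i : ℝ) = (z i : ℝ) := congrFun hz i
        rw [← h5]
        ring
      rw [h3, mul_one] at h4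
      exact h4
    rw [h2] at ht ⊢
    have h3 : (0 : ℤ) < ∑ i, c i * z i := by exact_mod_cast ht
    exact_mod_cast h3

end MNR

theorem t_MNR : Stmt_MNR := by
  classical
  intro m l q f hf
  -- the systems of generators
  obtain ⟨P, hP⟩ : ∃ P : ℕ → Prop, ∀ k, P k ↔ ∃ r : Fin k → Fin m → ℤ,
      (∀ j (t : ℝ), 0 < t → (∃ z : Fin m → ℤ, t • toR (r j) = toR z) → 1 ≤ t) ∧
      (∀ j, 0 < f (toR (r j))) ∧
      coneOf (fun j => toR (r j)) = coneOf (fun j => toR (q j)) := ⟨_, fun _ => Iff.rfl⟩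
  have hex : ∃ k, P k := by
    refine ⟨Fintype.card {j : Fin l // q j ≠ 0}, ?_⟩
    rw [hP]
    have h1 : ∀ j : {j : Fin l // q j ≠ 0}, ∃ (g : ℝ) (p : Fin m → ℤ), 0 < g ∧
        toR (q j) = g • toR p ∧
        ∀ t : ℝ, 0 < t → (∃ z : Fin m → ℤ, t • toR p = toR z) → 1 ≤ t :=
      fun j => MNR.exists_prim (q j) j.2
    choose g p hg hp hp' using h1
    have hpp : ∀ j, toR (p j) = (g j)⁻¹ • toR (q j) := by
      intro j
      rw [hp j, smul_smul, inv_mul_cancel₀ (hg j).ne', one_smul]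
    refine ⟨fun i => p ((Fintype.equivFin _).symm i), fun j => hp' _, ?_, ?_⟩
    · intro j
      rw [hpp, map_smul, smul_eq_mul]
      exact mul_pos (inv_pos.2 (hg _)) (hf _ ((Fintype.equivFin _).symm j).2)
    · apply MNR.cone_eq
      · intro i
        show toR (p ((Fintype.equivFin _).symm i)) ∈ _
        rw [hpp]
        exact MNR.smul_mem (MNR.gen_mem (fun j => toR (q j)) _) (inv_nonneg.2 (hg _).le)
      · intro i
        by_cases hi : q i = 0
        · have h2 : toR (q i) = 0 := by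
            funext a
            show ((q i a : ℤ) : ℝ) = 0
            rw [hi]
            norm_num
          show toR (q i) ∈ _
          rw [h2]
          exact MNR.zero_mem
        · show toR (q i) ∈ _
          rw [hp ⟨i, hi⟩]
          apply MNR.smul_mem _ (hg _).le
          have h2 := MNR.gen_mem (fun i => toR (p ((Fintype.equivFin _).symm i)))
            (Fintype.equivFin _ ⟨i, hi⟩)
          simpa using h2
  obtain ⟨r, hr1, hr2, hr3⟩ := (hP _).1 (Nat.find_spec hex)
  refine ⟨Nat.find hex, r, hr1, hr2, ?_, hr3⟩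
  rintro j ⟨a, ha, haj, har⟩
  obtain ⟨k, hk⟩ : ∃ k, Nat.find hex = k + 1 := by
    have h1 := j.2
    exact ⟨Nat.find hex - 1, by omega⟩
  revert r j a
  rw [hk]
  intro r hr1 hr2 hr3 j a ha haj har
  have hPk : P k := by
    rw [hP]
    refine ⟨fun i => r (j.succAbove i), fun i => hr1 _, fun i => hr2 _, ?_⟩
    rw [← hr3]
    apply MNR.cone_eq
    · intro i
      exact MNR.gen_mem (fun i => toR (r i)) (j.succAbove i)
    · intro i
      rcases eq_or_ne i j with rfl | hij
      · refine ⟨fun b => a (i.succAbove b), fun b => ha _, ?_⟩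
        show toR (r i) = _
        conv_lhs => rw [har]
        rw [Fin.sum_univ_succAbove _ i, haj, zero_smul, zero_add]
      · obtain ⟨b, rfl⟩ := Fin.exists_succAbove_eq hij
        exact MNR.gen_mem (fun i => toR (r (j.succAbove i))) b
  have h1 := Nat.find_min' hex hPk
  omega

end MldGeo
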