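import Pool.Agent.MldGeo.Stmts7

/-!
# Double description of rational cones
-/

namespace MldGeo

open MldGap MldTv

noncomputable section

namespace MWC

theorem pr_sum {m : ℕ} {κ : Type} [Fintype κ] (d : κ → ℝ) (v : κ → Fin m → ℝ) (a : Fin m → ℤ) :
    pr (∑ j, d j • v j) a = ∑ j, d j * pr (v j) a := by
  unfold pr
  simp only [Finset.sum_apply, Pi.smul_apply, smul_eq_mul, Finset.sum_mul, Finset.mul_sum]
  rw [Finset.sum_comm]
  exact Finset.sum_congr rfl fun j _ => Finset.sum_congr rfl fun k _ => by ring

theorem pr_toR {m : ℕ} (q a : Fin m → ℤ) : pr (toR q) a = ((∑ k, q k * a k : ℤ) : ℝ) := by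
  unfold pr toR
  push_cast
  rfl

theorem toR_zero {m : ℕ} : toR (0 : Fin m → ℤ) = 0 := by
  funext j
  simp [toR]

/-- One more inequality: the generators. -/
def step {m : ℕ} {κ : Type} (q : κ → Fin m → ℤ) (A : κ → ℤ) : κ ⊕ κ × κ → Fin m → ℤ
  | Sum.inl j => if 0 ≤ A j then q j else 0
  | Sum.inr x => if 0 < A x.1 ∧ A x.2 < 0 then A x.1 • q x.2 - A x.2 • q x.1 else 0

theorem base {m : ℕ} (w : Fin m → ℝ) :
    ∃ d : Fin m ⊕ Fin m → ℝ, (∀ j, 0 ≤ d j) ∧
      w = ∑ j, d j • toR (Sum.elim (fun j => (Pi.single j 1 : Fin m → ℤ))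
        (fun j => (-Pi.single j 1 : Fin m → ℤ)) j) := by
  refine ⟨Sum.elim (fun j => max (w j) 0) (fun j => max (-w j) 0), ?_, ?_⟩
  · rintro (j | j) <;> simp
  · funext k
    rw [Fintype.sum_sum_type]
    simp only [Sum.elim_inl, Sum.elim_inr, Pi.add_apply, Finset.sum_apply, Pi.smul_apply, toR,
      smul_eq_mul, Pi.neg_apply, Pi.single_apply]
    have h1 : ∀ j : Fin m, max (w j) 0 * (((if k = j then 1 else 0 : ℤ)) : ℝ) =
        if k = j then max (w j) 0 else 0 := fun j => by split_ifs <;> simp
    have h2 : ∀ j : Fin m, max (-w j) 0 * (((-(if k = j then 1 else 0) : ℤ)) : ℝ) =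
        if k = j then -max (-w j) 0 else 0 := fun j => by split_ifs <;> simp
    simp only [h1, h2, Finset.sum_ite_eq, Finset.mem_univ, if_true]
    rcases le_total 0 (w k) with h | h
    · rw [max_eq_left h, max_eq_right (by linarith)]
      ring
    · rw [max_eq_right h, max_eq_left (by linarith)]
      ring

theorem split {κ : Type} [Fintype κ] (d A v : κ → ℝ) (hd : ∀ j, 0 ≤ d j)
    (hA : 0 ≤ ∑ j, d j * A j) (p n z : κ → ℝ) (hp : p = fun j => if 0 < A j then d j else 0)
    (hn : n = fun j => if A j < 0 then d j else 0) (hz : z = fun j => if A j = 0 then d j else 0)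
    (P N : ℝ) (hP : P = ∑ j, p j * A j) (hN : N = ∑ j, n j * (-A j)) :
    0 ≤ P ∧ N ≤ P ∧
    ∑ j, d j * v j = ∑ j, ((1 - N / P) * p j + z j) * v j +
      ∑ i, ∑ j, (p i * n j / P) * (A i * v j - A j * v i) := by
  have hp0 : ∀ j, 0 ≤ p j * A j := fun j => by
    rw [hp]
    dsimp only
    split_ifs with h
    · exact mul_nonneg (hd j) h.le
    · simp
  have hn0 : ∀ j, 0 ≤ n j * (-A j) := fun j => by
    rw [hn]
    dsimp only
    split_ifs with h
    · exact mul_nonneg (hd j) (by linarith)
    · simp
  have hsp : ∀ j, d j = p j + n j + z j := fun j => by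
    rw [hp, hn, hz]
    dsimp only
    rcases lt_trichotomy (A j) 0 with h | h | h
    · rw [if_neg (by linarith), if_pos h, if_neg h.ne]
      ring
    · rw [if_neg (by linarith), if_neg (by linarith), if_pos h]
      ring
    · rw [if_pos h, if_neg (by linarith), if_neg h.ne']
      ring
  have hzA : ∀ j, z j * A j = 0 := fun j => by
    rw [hz]
    dsimp only
    split_ifs with h
    · rw [h, mul_zero]
    · rw [zero_mul]
  have hP0 : 0 ≤ P := hP ▸ Finset.sum_nonneg fun j _ => hp0 j
  have hNP : N ≤ P := by
    have h1 : ∑ j, d j * A j = P - N := by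
      rw [hP, hN, ← Finset.sum_sub_distrib]
      refine Finset.sum_congr rfl fun j _ => ?_
      rw [hsp j]
      linear_combination hzA j
    linarith
  refine ⟨hP0, hNP, ?_⟩
  have hPP : P / P * ∑ j, n j * v j = ∑ j, n j * v j := by
    by_cases h : P = 0
    · have hN0 : N = 0 := le_antisymm (h ▸ hNP) (hN ▸ Finset.sum_nonneg fun j _ => hn0 j)
      have h1 : ∀ j, n j = 0 := by
        intro j
        have h2 := (Finset.sum_eq_zero_iff_of_nonneg fun j _ => hn0 j).1 (hN.symm.trans hN0) j
          (Finset.mem_univ j)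
        rcases mul_eq_zero.1 h2 with h3 | h3
        · exact h3
        · rw [hn]
          dsimp only
          rw [if_neg]
          linarith
      simp [h1]
    · rw [div_self h, one_mul]
  have hdouble : ∑ i, ∑ j, (p i * n j / P) * (A i * v j - A j * v i) =
      P / P * (∑ j, n j * v j) + N / P * ∑ i, p i * v i := by
    have h1 : ∀ i j, (p i * n j / P) * (A i * v j - A j * v i) =
        P⁻¹ * ((p i * A i) * (n j * v j)) + P⁻¹ * ((p i * v i) * (n j * (-A j))) := fun i j => by
      rw [div_eq_mul_inv]
      ring
    simp only [h1, Finset.sum_add_distrib, ← Finset.mul_sum, ← Finset.sum_mul]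
    rw [← hP, ← hN]
    rw [div_eq_mul_inv, div_eq_mul_inv]
    ring
  rw [hdouble, hPP]
  have h1 : ∑ j, d j * v j = ∑ j, p j * v j + ∑ j, n j * v j + ∑ j, z j * v j := by
    rw [← Finset.sum_add_distrib, ← Finset.sum_add_distrib]
    refine Finset.sum_congr rfl fun j _ => ?_
    rw [hsp j]
    ring
  have h2 : ∑ j, ((1 - N / P) * p j + z j) * v j =
      (1 - N / P) * ∑ j, p j * v j + ∑ j, z j * v j := by
    rw [Finset.mul_sum, ← Finset.sum_add_distrib]
    refine Finset.sum_congr rfl fun j _ => ?_
    ring
  rw [h1, h2]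
  ring

theorem main {m : ℕ} {ι : Type} (u : ι → Fin m → ℤ) (s : Finset ι) :
    ∃ (κ : Type) (_ : Fintype κ) (q : κ → Fin m → ℤ), ∀ w : Fin m → ℝ,
      (∀ i ∈ s, 0 ≤ pr w (u i)) ↔ ∃ d : κ → ℝ, (∀ j, 0 ≤ d j) ∧ w = ∑ j, d j • toR (q j) := by
  classical
  induction s using Finset.induction_on with
  | empty =>
    refine ⟨Fin m ⊕ Fin m, inferInstance, _, fun w => ⟨fun _ => base w, fun _ i hi => ?_⟩⟩
    simp at hi
  | insert a s ha ih =>
    obtain ⟨κ, hκ, q, hq⟩ := ih
    let A : κ → ℤ := fun j => ∑ k, q j k * u a k
    have hA : ∀ j, pr (toR (q j)) (u a) = (A j : ℝ) := fun j => pr_toR _ _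
    have hqs : ∀ j, ∀ i ∈ s, 0 ≤ pr (toR (q j)) (u i) := by
      intro j
      rw [hq]
      refine ⟨Pi.single j 1, fun i => ?_, ?_⟩
      · rw [Pi.single_apply]
        split_ifs <;> norm_num
      · rw [Finset.sum_eq_single j]
        · simp
        · intro b _ hb
          rw [Pi.single_eq_of_ne hb, zero_smul]
        · intro h
          exact absurd (Finset.mem_univ j) h
    have hstep : ∀ x, toR (step q A x) = Sum.elim
        (fun j => if 0 ≤ A j then toR (q j) else 0)
        (fun x : κ × κ => if 0 < A x.1 ∧ A x.2 < 0 then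
          (A x.1 : ℝ) • toR (q x.2) - (A x.2 : ℝ) • toR (q x.1) else 0) x := by
      rintro (j | x)
      · simp only [step, Sum.elim_inl]
        split_ifs
        · rfl
        · exact toR_zero
      · simp only [step, Sum.elim_inr]
        split_ifs
        · funext k
          simp [toR]
        · exact toR_zero
    refine ⟨κ ⊕ κ × κ, inferInstance, step q A, fun w => ⟨fun hw => ?_, ?_⟩⟩
    · obtain ⟨d, hd, hdw⟩ := (hq w).1 fun i hi => hw i (Finset.mem_insert_of_mem hi)
      have hwa : 0 ≤ ∑ j, d j * (A j : ℝ) := by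
        have h1 := hw a (Finset.mem_insert_self a s)
        rw [hdw, pr_sum] at h1
        simpa only [hA] using h1
      let p : κ → ℝ := fun j => if 0 < (A j : ℝ) then d j else 0
      let n : κ → ℝ := fun j => if (A j : ℝ) < 0 then d j else 0
      let z : κ → ℝ := fun j => if (A j : ℝ) = 0 then d j else 0
      let P : ℝ := ∑ j, p j * (A j : ℝ)
      let N : ℝ := ∑ j, n j * (-(A j : ℝ))
      have hp0 : ∀ j, 0 ≤ p j := fun j => by
        simp only [p]
        split_ifs
        exacts [hd j, le_rfl]
      have hn0 : ∀ j, 0 ≤ n j := fun j => by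
        simp only [n]
        split_ifs
        exacts [hd j, le_rfl]
      have hz0 : ∀ j, 0 ≤ z j := fun j => by
        simp only [z]
        split_ifs
        exacts [hd j, le_rfl]
      have hmain := fun v : κ → ℝ => split d (fun j => (A j : ℝ)) v hd hwa p n z rfl rfl rfl P N
        rfl rfl
      have hP0 : 0 ≤ P := (hmain 0).1
      have hNP : N ≤ P := (hmain 0).2.1
      have hNP1 : 0 ≤ 1 - N / P := by
        have := div_le_one_of_le₀ hNP hP0
        linarith
      refine ⟨Sum.elim (fun j => (1 - N / P) * p j + z j) (fun x => p x.1 * n x.2 / P), ?_, ?_⟩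
      · rintro (j | x)
        · exact add_nonneg (mul_nonneg hNP1 (hp0 j)) (hz0 j)
        · exact div_nonneg (mul_nonneg (hp0 _) (hn0 _)) hP0
      · rw [hdw]
        funext k
        have h1 := (hmain fun j => toR (q j) k).2.2
        rw [Fintype.sum_sum_type, Fintype.sum_prod_type]
        simp only [Sum.elim_inl, Sum.elim_inr, hstep, Pi.add_apply, Finset.sum_apply,
          Pi.smul_apply, smul_eq_mul]
        rw [h1]
        congr 1
        · refine Finset.sum_congr rfl fun j _ => ?_
          split_ifs with h
          · rfl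
          · have h2 : (A j : ℝ) < 0 := by
              rw [not_le] at h
              exact_mod_cast h
            have h3 : p j = 0 := if_neg (by linarith)
            have h4 : z j = 0 := if_neg h2.ne
            rw [h3, h4]
            simp
        · refine Finset.sum_congr rfl fun i _ => Finset.sum_congr rfl fun j _ => ?_
          split_ifs with h
          · simp
          · have h3 : p i * n j = 0 := by
              by_contra hne
              apply h
              refine ⟨?_, ?_⟩
              · by_contra h4
                apply hne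
                have h5 : ¬ 0 < (A i : ℝ) := by exact_mod_cast h4
                have h6 : p i = 0 := if_neg h5
                rw [h6, zero_mul]
              · by_contra h4
                apply hne
                have h5 : ¬ (A j : ℝ) < 0 := by exact_mod_cast h4
                have h6 : n j = 0 := if_neg h5
                rw [h6, mul_zero]
            rw [h3]
            simp
    · rintro ⟨d, hd, hdw⟩ i hi
      rw [hdw, pr_sum]
      refine Finset.sum_nonneg fun x _ => mul_nonneg (hd x) ?_
      have hlin : ∀ (a b : ℝ) (v v' : Fin m → ℝ) (c : Fin m → ℤ),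
          pr (a • v - b • v') c = a * pr v c - b * pr v' c := by
        intro a b v v' c
        unfold pr
        rw [Finset.mul_sum, Finset.mul_sum, ← Finset.sum_sub_distrib]
        refine Finset.sum_congr rfl fun k _ => ?_
        simp only [Pi.sub_apply, Pi.smul_apply, smul_eq_mul]
        ring
      have hzero : ∀ c : Fin m → ℤ, pr (0 : Fin m → ℝ) c = 0 := by
        intro c
        simp [pr]
      rw [hstep]
      rcases x with j | x
      · simp only [Sum.elim_inl]
        split_ifs with h
        · rcases Finset.mem_insert.1 hi with rfl | hi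
          · rw [hA]
            exact_mod_cast h
          · exact hqs j i hi
        · rw [hzero]
      · simp only [Sum.elim_inr]
        split_ifs with h
        · rw [hlin]
          have h1 : 0 < (A x.1 : ℝ) := by exact_mod_cast h.1
          have h2 : (A x.2 : ℝ) < 0 := by exact_mod_cast h.2
          rcases Finset.mem_insert.1 hi with rfl | hi
          · rw [hA, hA]
            exact le_of_eq (by ring)
          · have h3 := mul_nonneg h1.le (hqs x.2 i hi)
            have h4 := mul_nonneg (neg_nonneg.2 h2.le) (hqs x.1 i hi)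
            linarith
        · rw [hzero]

end MWC

theorem t_MWC : Stmt_MWC := by
  intro m ι _ u
  obtain ⟨κ, hκ, q, hq⟩ := MWC.main u Finset.univ
  let e := Fintype.equivFin κ
  refine ⟨Fintype.card κ, fun j => q (e.symm j), fun w => ?_⟩
  constructor
  · intro hw
    obtain ⟨d, hd, hdw⟩ := (hq w).1 fun i _ => hw i
    refine ⟨fun j => d (e.symm j), fun j => hd _, ?_⟩
    rw [hdw]
    exact (Equiv.sum_comp e.symm fun j => d j • toR (q j)).symm
  · rintro ⟨d, hd, hdw⟩ i
    refine (hq w).2 ⟨fun j => d (e j), fun j => hd _, ?_⟩ i (Finset.mem_univ i)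
    rw [hdw, ← Equiv.sum_comp e]
    simp

end

end MldGeo
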