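import Pool.Agent.MldGeo.Stmts7

/-!
# Construction of the combinatorial datum (module MLD_TVC)
-/

namespace MldGeo

open MldGap MldTv

noncomputable section

namespace TVC

variable {m : ℕ}

theorem pr_add (v w : Fin m → ℝ) (u : Fin m → ℤ) : pr (v + w) u = pr v u + pr w u := by
  simp [pr, add_mul, Finset.sum_add_distrib]

theorem pr_smul (a : ℝ) (w : Fin m → ℝ) (u : Fin m → ℤ) : pr (a • w) u = a * pr w u := by
  simp [pr, Finset.mul_sum, mul_assoc]

/-- The pairing as a linear form. -/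
def prL (u : Fin m → ℤ) : (Fin m → ℝ) →ₗ[ℝ] ℝ where
  toFun w := pr w u
  map_add' v w := pr_add v w u
  map_smul' a w := pr_smul a w u

theorem prL_apply (u : Fin m → ℤ) (w : Fin m → ℝ) : prL u w = pr w u := rfl

theorem pr_sum {κ : Type} (s : Finset κ) (g : κ → Fin m → ℝ) (u : Fin m → ℤ) :
    pr (∑ j ∈ s, g j) u = ∑ j ∈ s, pr (g j) u := map_sum (prL u) g s

theorem pr_comb {κ : Type} (s : Finset κ) (a : κ → ℝ) (g : κ → Fin m → ℝ) (u : Fin m → ℤ) :
    pr (∑ j ∈ s, a j • g j) u = ∑ j ∈ s, a j * pr (g j) u := by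
  rw [pr_sum]
  exact Finset.sum_congr rfl fun j _ => pr_smul _ _ _

/-- The vertices of a polyhedron with given tail cone. -/
theorem ydata (hMWP : Stmt_MWP) (hMNV : Stmt_MNV) {ι : Type} [Fintype ι] (u : ι → Fin m → ℤ)
    {k : ℕ} (ray : Fin k → Fin m → ℝ)
    (hσ : ∀ w : Fin m → ℝ, (∀ i, 0 ≤ pr w (u i)) ↔ w ∈ coneOf ray)
    (hint : ∃ w : Fin m → ℝ, ∀ i, 0 < pr w (u i)) (b : ι → ℤ) :
    ∃ (K : ℕ) (v : Fin K → Fin m → ℚ), 0 < K ∧
      (∀ i, ¬ ∃ (a : Fin K → ℝ) (d : Fin k → ℝ), (∀ j, 0 ≤ a j) ∧ (∀ j, 0 ≤ d j) ∧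
        ∑ j, a j = 1 ∧ a i = 0 ∧
        (fun i' => ((v i i' : ℚ) : ℝ)) = ∑ j, a j • (fun i' => ((v j i' : ℚ) : ℝ)) +
          ∑ j, d j • ray j) ∧
      ∀ w : Fin m → ℝ, (∀ i, 0 ≤ pr w (u i) + b i) ↔
        (∃ (a : Fin K → ℝ) (d : Fin k → ℝ), (∀ j, 0 ≤ a j) ∧ (∀ j, 0 ≤ d j) ∧ ∑ j, a j = 1 ∧
          w = ∑ j, a j • (fun i' => ((v j i' : ℚ) : ℝ)) + ∑ j, d j • ray j) := by
  classical
  obtain ⟨K, l, p, q, hp⟩ := hMWP u b
  -- the polyhedron is not empty
  obtain ⟨w0, hw0⟩ := hint
  have hne : ∃ w : Fin m → ℝ, ∀ i, 0 ≤ pr w (u i) + b i := by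
    refine ⟨(∑ i, |(b i : ℝ)| / pr w0 (u i)) • w0, fun i => ?_⟩
    rw [pr_smul]
    have h1 : |(b i : ℝ)| / pr w0 (u i) ≤ ∑ i, |(b i : ℝ)| / pr w0 (u i) :=
      Finset.single_le_sum (f := fun i => |(b i : ℝ)| / pr w0 (u i))
        (fun j _ => div_nonneg (abs_nonneg _) (hw0 j).le) (Finset.mem_univ i)
    have h2 : |(b i : ℝ)| ≤ (∑ i, |(b i : ℝ)| / pr w0 (u i)) * pr w0 (u i) := by
      rwa [div_le_iff₀ (hw0 i)] at h1
    have h3 := neg_abs_le (b i : ℝ)
    linarith
  have hK : 0 < K := by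
    obtain ⟨w, hw⟩ := hne
    obtain ⟨a, -, -, -, ha, -⟩ := (hp w).mp hw
    rcases Nat.eq_zero_or_pos K with rfl | h
    · simp at ha
    · exact h
  -- the recession cone
  have hq : ∀ j i, 0 ≤ pr (toR (q j)) (u i) := by
    intro j i
    by_contra hneg
    push Not at hneg
    set j0 : Fin K := ⟨0, hK⟩
    set x : Fin m → ℝ := fun i' => ((p j0 i' : ℚ) : ℝ) with hx
    have hmem : ∀ t : ℝ, 0 ≤ t → 0 ≤ pr (x + t • toR (q j)) (u i) + b i := by
      intro t ht
      refine (hp _).mpr ⟨Pi.single j0 1, Pi.single j t, fun j' => ?_, fun j' => ?_, ?_, ?_⟩ i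
      · rw [Pi.single_apply]
        split_ifs <;> norm_num
      · rw [Pi.single_apply]
        split_ifs
        · exact ht
        · exact le_rfl
      · simp
      · congr 1
        · rw [Finset.sum_eq_single j0]
          · simp [hx]
          · intro j' _ hj'
            simp [hj']
          · simp
        · rw [Finset.sum_eq_single j]
          · simp
          · intro j' _ hj'
            simp [hj']
          · simp
    have h1 := hmem ((|pr x (u i) + b i| + 1) / (-pr (toR (q j)) (u i)))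
      (div_nonneg (by positivity) (by linarith))
    rw [pr_add, pr_smul] at h1
    have h2 : (|pr x (u i) + b i| + 1) / (-pr (toR (q j)) (u i)) * pr (toR (q j)) (u i) =
        -(|pr x (u i) + b i| + 1) := by
      rw [div_mul_eq_mul_div, div_neg, mul_div_cancel_right₀ _ hneg.ne]
    rw [h2] at h1
    have h3 := le_abs_self (pr x (u i) + b i)
    linarith
  obtain ⟨K', f, hK', hext, heq⟩ := hMNV (fun j i' => ((p j i' : ℚ) : ℝ)) ray hK
  refine ⟨K', fun j => p (f j), hK', hext, fun w => ?_⟩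
  refine Iff.trans ?_ (heq w)
  constructor
  · intro hw
    obtain ⟨a, d, ha, hd, ha1, hwe⟩ := (hp w).mp hw
    obtain ⟨d', hd', hde⟩ := (hσ (∑ j, d j • toR (q j))).mp fun i => by
      rw [pr_comb]
      exact Finset.sum_nonneg fun j _ => mul_nonneg (hd j) (hq j i)
    exact ⟨a, d', ha, hd', ha1, by rw [hwe, hde]⟩
  · rintro ⟨a, d, ha, hd, ha1, rfl⟩ i
    have h1 := (hp (∑ j, a j • (fun i' => ((p j i' : ℚ) : ℝ)))).mpr
      ⟨a, 0, ha, fun _ => le_rfl, ha1, by simp⟩ i
    have h2 := (hσ (∑ j, d j • ray j)).mpr ⟨d, hd, rfl⟩ i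
    rw [pr_add]
    linarith

/-- The standard lattice. -/
def lat (m : ℕ) : AddSubgroup (Fin m → ℝ) :=
  (Submodule.span ℤ (Set.range (Pi.basisFun ℝ (Fin m)))).toAddSubgroup

theorem mem_lat (w : Fin m → ℝ) : w ∈ lat m ↔ ∃ z : Fin m → ℤ, w = toR z := by
  have h : w ∈ lat m ↔ ∀ i, (Pi.basisFun ℝ (Fin m)).repr w i ∈ Set.range (algebraMap ℤ ℝ) := by
    rw [← Module.Basis.mem_span_iff_repr_mem]
    exact Iff.rfl
  rw [h]
  constructor
  · intro h1
    choose z hz using h1
    refine ⟨z, ?_⟩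
    funext i
    have := hz i
    simp only [Pi.basisFun_repr, eq_intCast] at this
    simp [toR, this]
  · rintro ⟨z, rfl⟩ i
    exact ⟨z i, by simp [toR]⟩

theorem discrete_lat : DiscreteTopology (lat m) := by
  unfold lat
  infer_instance

theorem exists_mult (v : Fin m → ℚ) :
    ∃ k : ℕ, 0 < k ∧ (k : ℝ) • (fun i => ((v i : ℚ) : ℝ)) ∈ lat m := by
  refine ⟨∏ i, (v i).den, Finset.prod_pos fun i _ => (v i).pos, ?_⟩
  rw [mem_lat]
  refine ⟨fun i => (v i).num * ∏ j ∈ Finset.univ.erase i, ((v j).den : ℤ), ?_⟩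
  funext i
  have h : ((∏ i, (v i).den : ℕ) : ℚ) * v i =
      (v i).num * ∏ j ∈ Finset.univ.erase i, ((v j).den : ℚ) := by
    rw [← Finset.mul_prod_erase Finset.univ (fun i => (v i).den) (Finset.mem_univ i)]
    push_cast
    have h1 : (v i).den * v i = ((v i).num : ℚ) := by
      rw [mul_comm]
      exact Rat.mul_den_eq_num _
    calc ((v i).den : ℚ) * (∏ j ∈ Finset.univ.erase i, ((v j).den : ℚ)) * v i
        = ((v i).den * v i) * ∏ j ∈ Finset.univ.erase i, ((v j).den : ℚ) := by ring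
      _ = _ := by rw [h1]
  have h2 := congrArg (fun x : ℚ => (x : ℝ)) h
  simp only [Pi.smul_apply, smul_eq_mul, toR]
  push_cast at h2 ⊢
  exact h2

end TVC

open TVC in
theorem t_TVC (hMWC : Stmt_MWC) (hMWP : Stmt_MWP) (hMNR : Stmt_MNR) (hMNV : Stmt_MNV) :
    Stmt_TVC := by
  classical
  intro m ι Y _ _ _ u e hcard hinj hint hsum hprop idx hidx
  -- the tail cone
  obtain ⟨k0, q, hq⟩ := hMWC u
  set f : (Fin m → ℝ) →ₗ[ℝ] ℝ := ∑ i, prL (u i) with hf
  have hfa : ∀ w, f w = ∑ i, pr w (u i) := fun w => by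
    simp [hf, LinearMap.sum_apply, prL_apply]
  have hqσ : ∀ j i, 0 ≤ pr (toR (q j)) (u i) := fun j => (hq _).mpr
    ⟨Pi.single j 1, fun j' => by
      rw [Pi.single_apply]
      split_ifs <;> norm_num, by
      rw [Finset.sum_eq_single j]
      · simp
      · intro j' _ hj'
        simp [hj']
      · simp⟩
  have hfpos : ∀ j, q j ≠ 0 → 0 < f (toR (q j)) := by
    intro j hj
    rw [hfa]
    refine lt_of_le_of_ne (Finset.sum_nonneg fun i _ => hqσ j i) fun h0 => hj ?_
    have h1 := (Finset.sum_eq_zero_iff_of_nonneg fun i _ => hqσ j i).mp h0.symm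
    have h2 := hinj _ fun i => h1 i (Finset.mem_univ i)
    funext i
    have h3 := congrFun h2 i
    simpa [toR] using h3
  obtain ⟨k, r, hprim, hrpos, hrext, hreq⟩ := hMNR q f hfpos
  set ray : Fin k → Fin m → ℝ := fun j => toR (r j) with hray
  have hσ : ∀ w : Fin m → ℝ, (∀ i, 0 ≤ pr w (u i)) ↔ w ∈ coneOf ray := by
    intro w
    rw [hreq]
    exact hq w
  have hD := fun y => ydata hMWP hMNV u ray hσ hint (fun i => e i y)
  choose K v hK hvext hv using hD
  set vert : ∀ y, Fin (K y) → (Fin m → ℝ) := fun y i => fun i' => ((v y i i' : ℚ) : ℝ) with hvert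
  have hvD : ∀ y i i', 0 ≤ pr (vert y i) (u i') + e i' y := by
    intro y i
    refine (hv y _).mpr ⟨Pi.single i 1, 0, fun j' => ?_, fun _ => le_rfl, by simp, ?_⟩
    · rw [Pi.single_apply]
      split_ifs <;> norm_num
    · rw [Finset.sum_eq_single i]
      · simp [hvert]
      · intro j' _ hj'
        simp [hj']
      · simp
  obtain ⟨w0, hw0⟩ := hint
  have hfull : (interior (coneOf ray)).Nonempty := by
    refine ⟨w0, mem_interior.mpr ⟨{w | ∀ i, 0 < pr w (u i)}, ?_, ?_, hw0⟩⟩
    · intro w hw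
      exact (hσ w).mp fun i => (hw i).le
    · rw [Set.ofPred_forall]
      refine isOpen_iInter_of_finite fun i => ?_
      refine isOpen_lt continuous_const ?_
      unfold pr
      fun_prop
  let X : TVar m 1 :=
    { c_pos := one_pos
      N := lat m
      discrete := discrete_lat
      R := Fin k
      finR := inferInstance
      ray := ray
      ray_mem := fun j => (mem_lat _).mpr ⟨r j, rfl⟩
      ray_primitive := fun j t ht h => hprim j t ht ((mem_lat _).mp h)
      ray_extremal := hrext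
      full := hfull
      pointed := ⟨f, hrpos⟩
      Y := Y
      finY := inferInstance
      card_Y := hcard
      deg := fun _ => 1
      deg_pos := fun _ => one_pos
      idx := idx
      idx_le := hidx
      I := fun y => Fin (K y)
      finI := fun _ => inferInstance
      neI := fun y => ⟨⟨0, hK y⟩⟩
      vert := vert
      vert_extremal := fun y i => hvext y i
      mu := fun y i => sInf {k : ℕ | 0 < k ∧ (k : ℝ) • vert y i ∈ lat m}
      mu_least := fun y i => ⟨Nat.sInf_mem (exists_mult (v y i)), fun k hk => Nat.sInf_le hk⟩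
      proper := by
        intro p
        have h0 : ∑ y, ((1 : ℕ) : ℝ) • vert y (p y) = ∑ y, vert y (p y) := by simp
        rw [h0]
        refine ⟨(hσ _).mp fun i => ?_, hprop _ fun y i => hvD y (p y) i⟩
        rw [pr_sum]
        have h1 : ∑ y, (-(e i y : ℝ)) ≤ ∑ y, pr (vert y (p y)) (u i) :=
          Finset.sum_le_sum fun y _ => by linarith [hvD y (p y) i]
        have h2 : ∑ y, (-(e i y : ℝ)) = 0 := by
          rw [Finset.sum_neg_distrib, ← Int.cast_sum, hsum i]
          simp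
        rwa [h2] at h1 }
  refine ⟨X, Equiv.refl Y, rfl, fun _ => rfl, mem_lat, ?_⟩
  intro y t ht w
  constructor
  · rintro ⟨a, d, ha, hd, hsa, rfl⟩ i
    have ha0 : ∀ y' : Y, y' ≠ y → ∀ j, a y' j = 0 := by
      intro y' hy' j
      have h1 : ∑ i, a y' i = 0 := by
        rw [hsa y']
        exact if_neg hy'
      exact (Finset.sum_eq_zero_iff_of_nonneg fun j _ => ha y' j).mp h1 j (Finset.mem_univ j)
    have hy : ∑ i, a y i = t := by
      rw [hsa y]
      exact if_pos rfl
    have h1 : ∑ y' : Y, ∑ j, a y' j • vert y' j = ∑ j, a y j • vert y j := by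
      refine Finset.sum_eq_single y (fun y' _ hy' => ?_) (by simp)
      exact Finset.sum_eq_zero fun j _ => by rw [ha0 y' hy' j, zero_smul]
    have h2 : 0 ≤ pr (∑ j, d j • ray j) (u i) := (hσ _).mpr ⟨d, hd, rfl⟩ i
    have h3 : pr (∑ j, a y j • vert y j) (u i) + t * e i y =
        ∑ j, a y j * (pr (vert y j) (u i) + e i y) := by
      rw [pr_comb]
      simp only [mul_add, Finset.sum_add_distrib, ← Finset.sum_mul]
      rw [← hy]
    have h4 : 0 ≤ ∑ j, a y j * (pr (vert y j) (u i) + e i y) :=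
      Finset.sum_nonneg fun j _ => mul_nonneg (ha y j) (hvD y j i)
    change 0 ≤ pr (∑ y' : Y, ∑ j, a y' j • vert y' j + ∑ j, d j • ray j) (u i) + t * e i y
    rw [h1, pr_add]
    linarith
  · intro hw
    rcases ht.eq_or_lt with rfl | ht0
    · obtain ⟨d, hd, hwe⟩ := (hσ w).mp fun i => by simpa using hw i
      refine ⟨fun _ _ => 0, d, fun _ _ => le_rfl, hd, fun y' => ?_, ?_⟩
      · simp
      · rw [hwe]
        simp only [zero_smul, Finset.sum_const_zero, zero_add]
        rfl
    · obtain ⟨a, d, ha, hd, ha1, hwe⟩ := (hv y (t⁻¹ • w)).mp fun i => by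
        rw [pr_smul]
        have h1 := mul_nonneg (inv_nonneg.mpr ht) (hw i)
        rw [mul_add, ← mul_assoc, inv_mul_cancel₀ ht0.ne', one_mul] at h1
        exact h1
      refine ⟨fun y' j => if h : y' = y then t * a (h ▸ j) else 0, fun j => t * d j,
        fun y' j => ?_, fun j => mul_nonneg ht (hd j), fun y' => ?_, ?_⟩
      · dsimp only
        split_ifs with h
        · exact mul_nonneg ht (ha _)
        · exact le_rfl
      · by_cases h : y' = y
        · subst h
          have h1 : (Equiv.refl Y) y' = y' := rfl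
          simp only [dif_pos, ← Finset.mul_sum]
          rw [if_pos h1, ha1, mul_one]
        · have h1 : ¬ (Equiv.refl Y) y' = y := h
          refine Eq.trans (Finset.sum_eq_zero fun j _ => ?_) (if_neg h1).symm
          exact dif_neg h
      · have h1 : ∑ y' : Y, ∑ j : Fin (K y'), (if h : y' = y then t * a (h ▸ j) else 0) • vert y' j
            = ∑ j, (t * a j) • vert y j := by
          rw [Finset.sum_eq_single y]
          · simp
          · intro y' _ hy'
            exact Finset.sum_eq_zero fun j _ => by rw [dif_neg hy', zero_smul]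
          · simp
        change w = ∑ y' : Y, ∑ j : Fin (K y'), (if h : y' = y then t * a (h ▸ j) else 0) • vert y' j
          + ∑ j, (t * d j) • ray j
        rw [h1]
        have h2 : w = t • (t⁻¹ • w) := by rw [smul_smul, mul_inv_cancel₀ ht0.ne', one_smul]
        rw [h2, hwe, smul_add, Finset.smul_sum, Finset.smul_sum]
        simp only [smul_smul]
        rfl

end

end MldGeo
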