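import Pool.Agent.MldGeo.Stmts8
import Pool.Agent.MldGeo.Ord
import Pool.Agent.MldGeo.FRM

/-!
# MNL: the order of a logarithmic form in monomial coordinates
-/

namespace MldGeo

namespace MNL

open MvPolynomial

noncomputable section

variable {n : ℕ} {K : Type} [Field K] [Algebra ℂ K]

section Chi

variable {χ : (Fin n → ℤ) → K}

omit [Algebra ℂ K] in
theorem chi_neg (h0 : χ 0 = 1) (ha : ∀ u v, χ (u + v) = χ u * χ v) (u : Fin n → ℤ) :
    χ u ≠ 0 := by
  intro h
  have := ha u (-u)
  rw [add_neg_cancel, h0, h, zero_mul] at this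
  exact one_ne_zero this

omit [Algebra ℂ K] in
theorem chi_nsmul (h0 : χ 0 = 1) (ha : ∀ u v, χ (u + v) = χ u * χ v) (u : Fin n → ℤ) (m : ℕ) :
    χ (m • u) = χ u ^ m := by
  induction m with
  | zero => rw [zero_smul, h0, pow_zero]
  | succ m ih => rw [succ_nsmul, ha, ih, pow_succ]

omit [Algebra ℂ K] in
theorem chi_sum (h0 : χ 0 = 1) (ha : ∀ u v, χ (u + v) = χ u * χ v) {ι : Type} (s : Finset ι)
    (w : ι → Fin n → ℤ) : χ (∑ i ∈ s, w i) = ∏ i ∈ s, χ (w i) := by
  classical
  induction s using Finset.induction_on with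
  | empty => rw [Finset.sum_empty, Finset.prod_empty, h0]
  | insert i s hi ih => rw [Finset.sum_insert hi, Finset.prod_insert hi, ha, ih]

/-- Values of polynomials at characters. -/
theorem aeval_chi (h0 : χ 0 = 1) (ha : ∀ u v, χ (u + v) = χ u * χ v) {ι : Type} [Fintype ι]
    (w : ι → Fin n → ℤ) (p : MvPolynomial ι ℂ) :
    aeval (fun j => χ (w j)) p = ∑ m ∈ p.support, p.coeff m • χ (∑ j, m j • w j) := by
  rw [MvPolynomial.aeval_def, MvPolynomial.eval₂_eq']
  refine Finset.sum_congr rfl fun m _ => ?_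
  rw [Algebra.smul_def, chi_sum h0 ha]
  congr 1
  refine Finset.prod_congr rfl fun j _ => ?_
  rw [chi_nsmul h0 ha]

/-- The pairing. -/
def pr (y u : Fin n → ℤ) : ℤ := ∑ i, u i * y i

/-- Vectors orthogonal to `y`. -/
theorem exists_orth {m : ℕ} (y : Fin (m + 1) → ℤ) {i0 : Fin (m + 1)} (h : y i0 ≠ 0) :
    ∃ w : Fin m → Fin (m + 1) → ℤ, LinearIndependent ℤ w ∧ ∀ j, pr y (w j) = 0 := by
  classical
  refine ⟨fun j => Pi.single (i0.succAbove j) (y i0) - Pi.single i0 (y (i0.succAbove j)), ?_, ?_⟩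
  · rw [Fintype.linearIndependent_iff]
    intro g hg j
    have h1 := congrFun hg (i0.succAbove j)
    rw [Finset.sum_apply, Finset.sum_eq_single j] at h1
    · simpa [Pi.single_apply, h, Fin.succAbove_ne] using h1
    · intro k _ hk
      simp [Fin.succAbove_ne, (Fin.succAbove_right_injective (p := i0)).eq_iff, hk.symm]
    · intro hj
      exact absurd (Finset.mem_univ j) hj
  · intro j
    unfold pr
    simp only [Pi.sub_apply, sub_mul, Finset.sum_sub_distrib]
    simp [Pi.single_apply, mul_comm]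

/-- The differential of a character. -/
theorem dlog_mul {a b : K} (ha : a ≠ 0) (hb : b ≠ 0) : dlog (a * b) = dlog a + dlog b := by
  unfold dlog
  rw [Derivation.leibniz, smul_add, smul_smul, smul_smul, mul_inv]
  have h1 : a⁻¹ * b⁻¹ * a = b⁻¹ := by field_simp
  have h2 : a⁻¹ * b⁻¹ * b = a⁻¹ := by field_simp
  rw [h1, h2, add_comm]

theorem dlog_chi (h0 : χ 0 = 1) (ha : ∀ u v, χ (u + v) = χ u * χ v) (u : Fin n → ℤ) :
    dlog (χ u) = ∑ i, (u i : K) • dlog (χ (Pi.single i 1)) := by
  classical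
  let F : (Fin n → ℤ) →+ Ω[K⁄ℂ] :=
    { toFun := fun u => dlog (χ u)
      map_zero' := by
        show dlog (χ 0) = 0
        unfold dlog
        rw [h0, Derivation.map_one_eq_zero, smul_zero]
      map_add' := fun u v => by
        show dlog (χ (u + v)) = dlog (χ u) + dlog (χ v)
        rw [ha, dlog_mul (chi_neg h0 ha u) (chi_neg h0 ha v)] }
  have h1 : F u = ∑ i, (u i : K) • F (Pi.single i 1) := by
    have h2 : u = ∑ i, u i • (Pi.single i 1 : Fin n → ℤ) := by
      funext i
      rw [Finset.sum_apply]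
      simp [Pi.single_apply]
    conv_lhs => rw [h2]
    rw [map_sum]
    refine Finset.sum_congr rfl fun i _ => ?_
    rw [map_zsmul, Int.cast_smul_eq_zsmul]
  exact h1

theorem dlog_smul {a : K} (ha : a ≠ 0) : KaehlerDifferential.D ℂ K a = a • dlog a := by
  unfold dlog
  rw [smul_smul, mul_inv_cancel₀ ha, one_smul]

end Chi

/-- Differentials of monomials: the determinant. -/
theorem dlogs_det {χ : (Fin n → ℤ) → K} (h0 : χ 0 = 1) (ha : ∀ u v, χ (u + v) = χ u * χ v)
    (W : Fin n → Fin n → ℤ) :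
    dlogs (fun j => χ (W j)) = ((Matrix.of W).det : K) • dlogs fun i => χ (Pi.single i 1) := by
  classical
  let L : (Fin n → K) →ₗ[K] Ω[K⁄ℂ] :=
    Fintype.linearCombination K fun i => dlog (χ (Pi.single i 1))
  have hL : ∀ a : Fin n → K, L a = ∑ i, a i • dlog (χ (Pi.single i 1)) := fun a =>
    Fintype.linearCombination_apply K _ a
  have h1 := FRM.iota_eq (Pi.basisFun K (Fin n)) fun j i => (W j i : K)
  have h2 := congrArg (exteriorPower.map n L) h1
  rw [map_smul, exteriorPower.map_apply_ιMulti, exteriorPower.map_apply_ιMulti] at h2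
  have h3 : (L ∘ fun j i => (W j i : K)) = fun j => dlog (χ (W j)) := by
    funext j
    rw [Function.comp_apply, hL, dlog_chi h0 ha]
  have h4 : (L ∘ (Pi.basisFun K (Fin n) : Fin n → Fin n → K)) =
      fun i => dlog (χ (Pi.single i 1)) := by
    funext i
    rw [Function.comp_apply, hL, Pi.basisFun_apply, Finset.sum_eq_single i]
    · rw [Pi.single_eq_same, one_smul]
    · intro k _ hk
      rw [Pi.single_eq_of_ne hk, zero_smul]
    · intro h
      exact absurd (Finset.mem_univ i) h
  have h5 : (Pi.basisFun K (Fin n)).det (fun j i => (W j i : K)) = ((Matrix.of W).det : K) := by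
    rw [Pi.basisFun_det_apply, Int.cast_det]
    rfl
  rw [h3, h4, h5] at h2
  exact h2

/-- The monomials. -/
def mo (x : Fin n → K) (u : Fin n → ℤ) : K := ∏ i, x i ^ u i

omit [Algebra ℂ K] in
theorem mo_zero (x : Fin n → K) : mo x 0 = 1 := by
  unfold mo
  simp

omit [Algebra ℂ K] in
theorem mo_add (x : Fin n → K) (hx : ∀ i, x i ≠ 0) (u w : Fin n → ℤ) :
    mo x (u + w) = mo x u * mo x w := by
  unfold mo
  rw [← Finset.prod_mul_distrib]
  refine Finset.prod_congr rfl fun i _ => ?_
  rw [Pi.add_apply, zpow_add₀ (hx i)]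

omit [Algebra ℂ K] in
theorem mo_single (x : Fin n → K) (i : Fin n) : mo x (Pi.single i 1) = x i := by
  classical
  unfold mo
  rw [Finset.prod_eq_single i]
  · rw [Pi.single_eq_same, zpow_one]
  · intro k _ hk
    rw [Pi.single_eq_of_ne hk, zpow_zero]
  · intro h
    exact absurd (Finset.mem_univ i) h

theorem ord_mo (v : DivVal n K) (x : Fin n → K) (hx : ∀ i, x i ≠ 0) (u : Fin n → ℤ) :
    v.ord (mo x u) = ∑ i, u i * v.ord (x i) := by
  unfold mo
  rw [DivVal.ord_prod v _ _ fun i _ => zpow_ne_zero _ (hx i)]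
  refine Finset.sum_congr rfl fun i _ => ?_
  rw [DivVal.ord_zpow]

end

end MNL

open MvPolynomial MNL in
/-- MNL: the order of a logarithmic form in monomial coordinates. -/
theorem t_MNL (hFRM : Stmt_FRM) : Stmt_MNL := by
  classical
  intro m K _ _ htr v x hx hy hH
  have h0 := mo_zero x
  have ha := mo_add x hx
  obtain ⟨u1, hu1⟩ := hy
  obtain ⟨i0, hi0⟩ : ∃ i0, v.ord (x i0) ≠ 0 := by
    by_contra hcon
    push Not at hcon
    simp [hcon] at hu1
  obtain ⟨w, hw, hwy⟩ := exists_orth (fun i => v.ord (x i)) hi0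
  have hinj : Function.Injective fun d : Fin m →₀ ℕ => ∑ j, d j • w j := by
    intro d d' hd
    have h1 : ∑ j, ((d j : ℤ) - d' j) • w j = 0 := by
      have : ∑ j, d j • w j = ∑ j, d' j • w j := hd
      simp only [sub_smul, Finset.sum_sub_distrib, natCast_zsmul]
      rw [this, sub_self]
    ext j
    have h2 := (Fintype.linearIndependent_iff.1 hw) _ h1 j
    omega
  have hpoly : ∀ p : MvPolynomial (Fin m) ℂ, p ≠ 0 →
      aeval (fun j => mo x (w j)) p ≠ 0 ∧ v.ord (aeval (fun j => mo x (w j)) p) = 0 := by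
    intro p hp
    let E : (Fin m →₀ ℕ) → Fin (m + 1) → ℤ := fun d => ∑ j, d j • w j
    let c : (Fin (m + 1) → ℤ) → ℂ := Function.extend E (fun d => p.coeff d) 0
    have hc : ∀ d, c (E d) = p.coeff d := fun d => hinj.extend_apply _ _ d
    have h1 : aeval (fun j => mo x (w j)) p =
        ∑ e ∈ p.support.image E, algebraMap ℂ K (c e) * ∏ i, x i ^ (e i) := by
      rw [Finset.sum_image fun a _ b _ h => hinj h, aeval_chi h0 ha]
      refine Finset.sum_congr rfl fun d _ => ?_
      rw [hc, Algebra.smul_def]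
      rfl
    rw [h1]
    apply hH
    · obtain ⟨d, hd⟩ := MvPolynomial.support_nonempty.2 hp
      refine ⟨E d, Finset.mem_image_of_mem _ hd, ?_⟩
      rw [hc]
      exact MvPolynomial.mem_support_iff.1 hd
    · intro e he
      rw [Finset.mem_image] at he
      obtain ⟨d, _, rfl⟩ := he
      have h2 : ∀ j, ∑ i, w j i * v.ord (x i) = 0 := hwy
      have h3 : ∀ i, E d i = ∑ j, (d j : ℤ) * w j i := by
        intro i
        change (∑ j, d j • w j) i = _
        rw [Finset.sum_apply]
        refine Finset.sum_congr rfl fun j _ => ?_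
        rw [Pi.smul_apply, nsmul_eq_mul]
      calc ∑ i, E d i * v.ord (x i) = ∑ i, ∑ j, (d j : ℤ) * (w j i * v.ord (x i)) := by
            refine Finset.sum_congr rfl fun i _ => ?_
            rw [h3, Finset.sum_mul]
            refine Finset.sum_congr rfl fun j _ => ?_
            ring
        _ = ∑ j, (d j : ℤ) * ∑ i, w j i * v.ord (x i) := by
            rw [Finset.sum_comm]
            refine Finset.sum_congr rfl fun j _ => ?_
            rw [Finset.mul_sum]
        _ = 0 := by
            refine Finset.sum_eq_zero fun j _ => ?_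
            rw [h2, mul_zero]
  have hfrm : Frame v (mo x u1) fun j => mo x (w j) := by
    refine ⟨chi_neg h0 ha u1, ?_, hpoly⟩
    rw [ord_mo v x hx]
    exact hu1
  obtain ⟨hF0, hFe, hFo⟩ := hFRM htr v _ _ hfrm
  let W : Fin (m + 1) → Fin (m + 1) → ℤ := Fin.cons u1 w
  have e1 : frameForm (mo x u1) (fun j => mo x (w j)) =
      (∏ j, mo x (w j)) • dlogs fun j => mo x (W j) := by
    unfold frameForm dlogs
    have e2 : (Fin.cons (dlog (mo x u1)) fun j => KaehlerDifferential.D ℂ K (mo x (w j)) :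
        Fin (m + 1) → Ω[K⁄ℂ]) = fun j => (Fin.cons 1 (fun j => mo x (w j)) : Fin (m + 1) → K) j •
          dlog (mo x (W j)) := by
      funext j
      refine Fin.cases ?_ (fun j => ?_) j
      · rw [Fin.cons_zero, Fin.cons_zero, one_smul]
        rfl
      · rw [Fin.cons_succ, Fin.cons_succ]
        exact dlog_smul (chi_neg h0 ha _)
    rw [e2, AlternatingMap.map_smul_univ, Fin.prod_univ_succ]
    simp only [Fin.cons_zero, Fin.cons_succ, one_mul]
  have hsingle : (fun i => mo x (Pi.single i 1)) = x := funext fun i => mo_single x i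
  rw [dlogs_det h0 ha W, smul_smul, hsingle] at e1
  have hd : ((Matrix.of W).det : K) ≠ 0 := by
    intro h
    rw [h, mul_zero, zero_smul] at e1
    exact hF0 e1
  have hp : ∏ j, mo x (w j) ≠ 0 := Finset.prod_ne_zero_iff.2 fun j _ => chi_neg h0 ha _
  have e3 : dlogs x =
      ((∏ j, mo x (w j)) * ((Matrix.of W).det : K))⁻¹ • frameForm (mo x u1)
        fun j => mo x (w j) := by
    rw [e1, smul_smul, inv_mul_cancel₀ (mul_ne_zero hp hd), one_smul]
  rw [e3, hFo _ (inv_ne_zero (mul_ne_zero hp hd)), DivVal.ord_inv, v.ord_mul _ _ hp hd,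
    DivVal.ord_intCast, DivVal.ord_prod]
  · have h4 : ∑ j, v.ord (mo x (w j)) = 0 := Finset.sum_eq_zero fun j _ => by
      rw [ord_mo v x hx]
      exact hwy j
    rw [h4, add_zero, neg_zero]
  · exact fun j _ => chi_neg h0 ha _

end MldGeo
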