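import Pool.Agent.MldGeo.Stmts6

/-!
# The canonical divisor of a function field of one variable
-/

namespace MldGeo

noncomputable section

namespace CAN

variable {F : Type} [Field F] [Algebra ℂ F]

/-- a function has order zero outside a finite set of places -/
theorem exists_supp (hPRF : Stmt_PRF) (hF : IsCurve F) (f : F) :
    ∃ P : Finset (DivVal 1 F), ∀ y, y ∉ P → y.ord f = 0 := by
  by_cases hf : f = 0
  · exact ⟨∅, fun y _ => by rw [hf, y.ord_zero]⟩
  · obtain ⟨E, hE, -⟩ := (hPRF hF).1 f hf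
    refine ⟨E.support, fun y hy => ?_⟩
    rw [← hE y]
    exact Finsupp.notMem_support_iff.1 hy

/-- finitely many functions have order zero outside a finite set of places -/
theorem exists_supp_finset (hPRF : Stmt_PRF) (hF : IsCurve F) (B : Finset F) :
    ∃ P : Finset (DivVal 1 F), ∀ y, y ∉ P → ∀ f ∈ B, y.ord f = 0 := by
  classical
  choose P hP using exists_supp hPRF hF
  refine ⟨B.biUnion P, fun y hy f hf => hP f y fun h => hy ?_⟩
  exact Finset.mem_biUnion.2 ⟨f, hf, h⟩

theorem ge_of_ord {y : DivVal 1 F} {a : F} (h : y.ord a = 0) : y.Ge 0 a := Or.inr h.ge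

/-- the derivation preserves the regular functions if it does so for generators -/
theorem ge_adjoin (D : Derivation ℂ F F) (y : DivVal 1 F) (B : Set F)
    (h1 : ∀ a ∈ Algebra.adjoin ℂ B, y.Ge 0 a) (h2 : ∀ b ∈ B, y.Ge 0 (D b)) :
    ∀ a ∈ Algebra.adjoin ℂ B, y.Ge 0 (D a) := by
  intro a ha
  induction ha using Algebra.adjoin_induction with
  | mem x hx => exact h2 x hx
  | algebraMap r => rw [Derivation.map_algebraMap]; exact DivVal.Ge.zero y 0
  | add x y' hx hy ihx ihy => rw [map_add]; exact ihx.add ihy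
  | mul x y' hx hy ihx ihy =>
    rw [Derivation.leibniz, smul_eq_mul, smul_eq_mul]
    exact ((h1 x hx).mul_left ihy).add ((h1 y' hy).mul_left ihx)

/-- the order of `D t` is zero for almost all places -/
theorem exists_good (hRS1 : Stmt_RS1) (hPRF : Stmt_PRF) (hAFF : Stmt_AFF) (hDLO : Stmt_DLO)
    (hF : IsCurve F) (D : Derivation ℂ F F) (hD : D ≠ 0) :
    ∃ P : Finset (DivVal 1 F), ∀ y, y ∉ P → ∀ t, y.ord t = 1 → y.ord (D t) = 0 := by
  classical
  obtain ⟨s, hs⟩ := hF.1
  have hconst : ∀ c : ℂ, s ≠ algebraMap ℂ F c := by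
    intro c hc
    exact hs (hc ▸ isAlgebraic_algebraMap c)
  have hDs : D s ≠ 0 := by
    intro h
    obtain ⟨c, hc⟩ := (hDLO hF D hD).1 s h
    exact hconst c hc
  obtain ⟨S, ⟨B, hB⟩, hsS, hS1, hS2⟩ := hAFF hF s hs
  obtain ⟨P, hP⟩ := exists_supp_finset hPRF hF (insert s (insert (D s) (B.image D)))
  refine ⟨P, fun y hy t ht => ?_⟩
  have hys : y.ord s = 0 := hP y hy s (by simp)
  have hyDs : y.ord (D s) = 0 := hP y hy (D s) (by simp)
  have hyB : ∀ b ∈ (B : Set F), y.Ge 0 (D b) := by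
    intro b hb
    refine ge_of_ord (hP y hy (D b) ?_)
    refine Finset.mem_insert_of_mem (Finset.mem_insert_of_mem ?_)
    exact Finset.mem_image_of_mem D hb
  have hreg := hS1 y (ge_of_ord hys)
  have hDS : ∀ a ∈ S, y.Ge 0 (D a) := by
    have := ge_adjoin D y (B : Set F) (by rw [hB]; exact hreg) hyB
    rwa [hB] at this
  have hDreg : ∀ a : F, y.Ge 0 a → y.Ge 0 (D a) := by
    intro a ha
    obtain ⟨r, hr, q, hq, hq0, hyq, haq⟩ := hS2 y (ge_of_ord hys) a ha
    have h1 : D r = a * D q + q * D a := by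
      rw [← haq, Derivation.leibniz, smul_eq_mul, smul_eq_mul]
    have h2 : D a = (D r - a * D q) * q⁻¹ := by
      rw [h1]
      field_simp
      ring
    rw [h2]
    exact ((hDS r hr).sub (ha.mul_left (hDS q hq))).mul_left (DivVal.Ge.inv hq0 hyq)
  have ht0 : t ≠ 0 := by
    rintro rfl
    rw [y.ord_zero] at ht
    omega
  have hDt0 : D t ≠ 0 := ((hDLO hF D hD).2.1 y t ht).1
  have hDt : 0 ≤ y.ord (D t) := (hDreg t (Or.inr (by omega))).le hDt0
  by_contra hne
  have hDt1 : y.Ge 1 (D t) := Or.inr (by omega)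
  obtain ⟨c, hc⟩ := hRS1 hF y s (ge_of_ord hys)
  have ha0 : s - algebraMap ℂ F c ≠ 0 := sub_ne_zero.2 (hconst c)
  set a := s - algebraMap ℂ F c with ha
  have hg : y.Ge 0 (a / t) := by
    have := hc.div t
    rwa [ht, sub_self] at this
  have hDa : D a = D s := by rw [ha, map_sub, Derivation.map_algebraMap, sub_zero]
  have hat : a = t * (a / t) := by field_simp
  have h3 : D s = t * D (a / t) + (a / t) * D t := by
    rw [← hDa]
    conv_lhs => rw [hat]
    rw [Derivation.leibniz, smul_eq_mul, smul_eq_mul]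
  have h4 : y.Ge 1 (D s) := by
    rw [h3]
    refine DivVal.Ge.add ?_ (hg.mul_left hDt1)
    have h5 : y.Ge 1 t := Or.inr ht.ge
    exact h5.mul_right (hDreg _ hg)
  have := h4.le hDs
  omega

end CAN

/-- CAN: the canonical divisor. -/
theorem t_CAN (hRS1 : Stmt_RS1) (hPRF : Stmt_PRF) (hAFF : Stmt_AFF) (hDLO : Stmt_DLO) :
    Stmt_CAN := by
  intro F _ _ hF D hD
  obtain ⟨P, hP⟩ := CAN.exists_good hRS1 hPRF hAFF hDLO hF D hD
  choose t ht0 ht using fun y : DivVal 1 F => y.unif
  refine ⟨Finsupp.onFinset P (fun y => - y.ord (D (t y))) ?_, ?_⟩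
  · intro y hy
    by_contra h
    exact hy (by rw [hP y h (t y) (ht y), neg_zero])
  · intro y t' ht'
    rw [Finsupp.onFinset_apply, neg_neg]
    exact (hDLO hF D hD).2.2 y t' (t y) ht' (ht y)

end

end MldGeo
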