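import Pool.Agent.MldGeo.Stmts8

/-!
# Log discrepancies of toroidal valuations
-/

namespace MldGeo

namespace RD1

open Finset

noncomputable section

/-- The bijection which splits off the first index. -/
def eqv (m : ℕ) : Fin (m + 1) ≃ Fin 1 ⊕ Fin m where
  toFun := Fin.cases (Sum.inl 0) Sum.inr
  invFun := Sum.elim (fun _ => 0) Fin.succ
  left_inv := by
    intro i
    refine Fin.cases ?_ (fun j => ?_) i
    · simp
    · simp
  right_inv := by
    rintro (i | i)
    · simp only [Sum.elim_inl, Fin.cases_zero]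
      exact congrArg Sum.inl (Subsingleton.elim _ _)
    · simp

theorem along_of_isTor {n m : ℕ} {X : Germ n} {A : TorusAction X m} (S : Splitting A)
    (v : DivVal n X.K) (w : Fin m → ℤ) (l : ℤ) (y : DivVal 1 A.K0) (h : IsTor S v w l y) :
    Along S v w l y := by
  intro b u hb
  have h1 := (h {u} (fun _ => b) ⟨u, Finset.mem_singleton_self u, hb⟩).1
  obtain ⟨u', hu', _, h2⟩ := h1
  rw [Finset.mem_singleton] at hu'
  subst hu'
  simpa using h2

theorem deg_eq {F : Type} [Field F] [Algebra ℂ F] (E : DivVal 1 F →₀ ℤ)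
    (P : Finset (DivVal 1 F)) (h : E.support ⊆ P) : deg E = ∑ y ∈ P, E y := by
  unfold deg
  rw [Finsupp.sum]
  exact Finset.sum_subset h fun y _ hy => by simpa using hy

theorem ip_cast {m q : ℕ} (w : Fin m → ℤ) (L : Fin q → ℝ) (u : Fin q → Fin m → ℤ) :
    ∑ k, L k * ((ip w (u k) : ℤ) : ℝ) = ∑ i, (∑ k, L k * (u k i : ℝ)) * (w i : ℝ) := by
  simp only [ip, Int.cast_sum, Int.cast_mul, Finset.mul_sum, Finset.sum_mul]
  rw [Finset.sum_comm]
  refine Finset.sum_congr rfl fun i _ => Finset.sum_congr rfl fun k _ => ?_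
  ring

end

end RD1

open RD1

theorem t_RD1 (hRED : Stmt_RED) (hHFK : Stmt_HFK) (hK0C : Stmt_K0C) (hPRF : Stmt_PRF)
    (hLGO : Stmt_LGO) : Stmt_RD1 := by
  classical
  intro m X A S s hs D hD κ hκ T hT
  obtain ⟨hf0, hl1, hl2⟩ := hLGO S s hs D hD (fun y => κ y) hκ
  have hai : AlgebraicIndependent ℂ (fun _ : Fin 1 => s) :=
    (algebraicIndependent_unique_type_iff (R := ℂ) (x := fun _ : Fin 1 => s)).2 hs
  obtain ⟨_, q, L, u, H, hH, hlog⟩ := hRED A S (fun _ : Fin 1 => s)
    (Fin.cons (s : X.K) fun i => S.χ (Pi.single i 1)) (eqv m) (Nat.succ_pos m) hai (by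
      intro i
      refine Fin.cases ?_ (fun j => ?_) i
      · simp [eqv]
      · simp [eqv]) T hT
  have hb : ∀ k, ∃ b : A.K0, H k = (b : X.K) * S.χ (u k) := fun k =>
    (hHFK A S).1 (u k) (H k) (hH k).1
  choose b hb using hb
  have hb0 : ∀ k, b k ≠ 0 := by
    intro k h
    apply (hH k).2
    rw [hb k, h]
    simp
  obtain ⟨hprod, _, _⟩ := hPRF (hK0C A)
  have hs0 : s ≠ 0 := by
    rintro rfl
    exact hs isAlgebraic_zero
  obtain ⟨Es, hEs, hEsd⟩ := hprod s hs0
  have hEk : ∀ k, ∃ E : DivVal 1 A.K0 →₀ ℤ, (∀ y, E y = y.ord (b k)) ∧ deg E = 0 := fun k =>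
    hprod (b k) (hb0 k)
  choose E hE hEd using hEk
  have hkey : ∀ (v : DivVal (m + 1) X.K) (w : Fin m → ℤ) (l : ℤ) (y : DivVal 1 A.K0),
      Along S v w l y → X.Through v →
      T.logDisc v = v.logOrd (form0 S s) + ((∑ i, (∑ k, L k * (u k i : ℝ)) * (w i : ℝ)) +
        (l : ℝ) * ∑ k, L k * (y.ord (b k) : ℝ)) := by
    intro v w l y hal hth
    rw [hlog v hth, ← ip_cast, Finset.mul_sum, ← Finset.sum_add_distrib]
    refine congrArg₂ (· + ·) rfl (Finset.sum_congr rfl fun k _ => ?_)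
    rw [hb k, hal (b k) (u k) (hb0 k)]
    push_cast
    ring
  set P : Finset (DivVal 1 A.K0) := κ.support ∪ Es.support ∪
    Finset.univ.biUnion fun k => (E k).support with hP
  refine ⟨fun i => ∑ k, L k * (u k i : ℝ),
    fun y => 1 - (y.ord s : ℝ) + (κ y : ℝ) + ∑ k, L k * (y.ord (b k) : ℝ), P, ?_, ?_, ?_, ?_⟩
  · intro y hy
    have h1 : κ y = 0 := by
      by_contra h
      exact hy (by simp [hP, h])
    have h2 : y.ord s = 0 := by
      by_contra h
      rw [← hEs] at h
      exact hy (by simp [hP, h])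
    have h3 : ∀ k, y.ord (b k) = 0 := by
      intro k
      by_contra h
      rw [← hE] at h
      exact hy (by
        simp only [hP, Finset.mem_union, Finset.mem_biUnion, Finset.mem_univ, true_and]
        exact Or.inr ⟨k, by simpa using h⟩)
    simp [h1, h2, h3]
  · have d1 : ∑ y ∈ P, κ y = deg κ := (deg_eq κ P (by
      intro y hy
      simp only [hP, Finset.mem_union]
      exact Or.inl (Or.inl hy))).symm
    have d2 : ∑ y ∈ P, Es y = 0 := by
      rw [← hEsd]
      exact (deg_eq Es P (by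
        intro y hy
        simp only [hP, Finset.mem_union]
        exact Or.inl (Or.inr hy))).symm
    have d3 : ∀ k, ∑ y ∈ P, E k y = 0 := by
      intro k
      rw [← hEd k]
      exact (deg_eq (E k) P (by
        intro y hy
        simp only [hP, Finset.mem_union, Finset.mem_biUnion, Finset.mem_univ, true_and]
        exact Or.inr ⟨k, hy⟩)).symm
    have e1 : ∑ y ∈ P, (κ y : ℝ) = (deg κ : ℝ) := by exact_mod_cast congrArg (Int.cast : ℤ → ℝ) d1
    have e2 : ∑ y ∈ P, (y.ord s : ℝ) = 0 := by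
      have := congrArg (Int.cast : ℤ → ℝ) d2
      push_cast at this
      simpa only [hEs] using this
    have e3 : ∑ y ∈ P, ∑ k, L k * (y.ord (b k) : ℝ) = 0 := by
      rw [Finset.sum_comm]
      refine Finset.sum_eq_zero fun k _ => ?_
      rw [← Finset.mul_sum]
      have := congrArg (Int.cast : ℤ → ℝ) (d3 k)
      push_cast at this
      simp only [hE] at this
      rw [this, mul_zero]
    have e4 : ∑ y ∈ P, (1 - (1 - (y.ord s : ℝ) + (κ y : ℝ) + ∑ k, L k * (y.ord (b k) : ℝ))) =
        ∑ y ∈ P, (y.ord s : ℝ) - ∑ y ∈ P, (κ y : ℝ) - ∑ y ∈ P, ∑ k, L k * (y.ord (b k) : ℝ) := by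
      rw [← Finset.sum_sub_distrib, ← Finset.sum_sub_distrib]
      refine Finset.sum_congr rfl fun y _ => ?_
      ring
    rw [e4, e1, e2, e3]
    ring
  · intro v w l y hl htor hth
    rw [hkey v w l y (along_of_isTor S v w l y htor) hth, hl1 v w l y hl htor]
    push_cast
    ring
  · intro v w l y hl hal hth
    rw [hkey v w l y hal hth]
    have h1 : ((l * (1 - y.ord s + κ y) : ℤ) : ℝ) ≤ (v.logOrd (form0 S s) : ℝ) := by
      exact_mod_cast hl2 v w l y hl hal
    push_cast at h1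
    linarith

end MldGeo
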