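import Pool.Agent.MldGeo.Stmts9
import Pool.Agent.MldGeo.HT1

/-!
# Minimal log discrepancies in dimension one
-/

namespace MldGeo

namespace DM1

theorem ext_ord {n : ℕ} {K : Type} [Field K] [Algebra ℂ K] {v w : DivVal n K}
    (h : v.ord = w.ord) : v = w := by
  cases v
  cases w
  simp only at h
  subst h
  rfl

/-- A valuation with centre `x` is the order along `x`. -/
theorem along {X : Germ 1} {v : DivVal 1 X.K} (hv : X.At v) : X.IsOrdAlong v X.m := by
  obtain ⟨P, hP⟩ := t_HT1 X v one_pos hv.1 ⟨fun j => (Nat.not_lt_zero _ j.2).elim, fun p hp => by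
    have hem : IsEmpty (Fin (1 - 1)) := inferInstanceAs (IsEmpty (Fin 0))
    have e : p = MvPolynomial.C (MvPolynomial.coeff 0 p) :=
      MvPolynomial.eq_C_of_isEmpty p
    have hc : MvPolynomial.coeff 0 p ≠ 0 := by
      intro h
      apply hp
      rw [e, h, map_zero]
    rw [e, MvPolynomial.aeval_C]
    refine ⟨?_, v.ord_const _⟩
    intro h
    apply hc
    have h2 : algebraMap ℂ X.K (MvPolynomial.coeff 0 p) = 0 := congrArg Subtype.val h
    rwa [map_eq_zero] at h2⟩
  have hle : X.m ≤ P := by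
    intro a ha
    rw [hP.2.2.2]
    by_cases h0 : a = 0
    · exact Or.inl h0
    · exact Or.inr (hv.2 a ha h0)
  have heq : X.m = P := X.max.eq_of_le hP.1.ne_top hle
  rwa [← heq] at hP

/-- The values `1 - mld`. -/
def V (S : Set ℝ) : Set ℝ := (AddSubmonoid.closure (S ∩ Set.Ici 0) : Set ℝ) ∪ {1}

theorem V_isPWO {S : Set ℝ} (hS : S.IsWF) : (V S).IsPWO := by
  refine Set.IsPWO.union ?_ (Set.isPWO_singleton 1)
  refine Set.IsPWO.addSubmonoid_closure (fun x hx => hx.2) ?_
  exact (hS.isPWO).mono Set.inter_subset_left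

theorem mem_V (hUNI : Stmt_UNI) (hIDO : Stmt_IDO) {S : Set ℝ} {X : Germ 1} (T : Triple X)
    (hE : T.Effective) (hC : T.CoeffIn S) : 1 - T.mld ∈ V S := by
  by_cases hex : ∃ v, X.At v
  · obtain ⟨v, hv⟩ := hex
    have hal := along hv
    have hset : {a : ℝ | ∃ v, X.At v ∧ T.disc v = a} = {T.disc v} := by
      ext a
      constructor
      · rintro ⟨w, hw, rfl⟩
        have : w = v := ext_ord (hUNI X X.m w v (along hw) hal)
        rw [this]
        rfl
      · rintro rfl
        exact ⟨v, hv, rfl⟩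
    have hmld : T.mld = T.disc v := by
      unfold Triple.mld
      rw [hset, csInf_singleton]
    left
    have hco : T.Coeff X.m (1 - T.logDisc v) := ⟨le_rfl, v, hal, by ring⟩
    have hb0 := hE _ _ hco
    have hbS := hC.1 _ _ hco
    have hid := (hIDO v hv.1).1
    choose k hk using fun j => Int.eq_ofNat_of_zero_le (hid (T.a j) (T.a_ne j))
    have e : 1 - T.mld = (1 - T.logDisc v) + ∑ j, k j • T.r j := by
      rw [hmld]
      unfold Triple.disc
      have : ∑ j, T.r j * (idealOrd v (T.a j) : ℝ) = ∑ j, k j • T.r j := by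
        refine Finset.sum_congr rfl fun j _ => ?_
        rw [hk j, nsmul_eq_mul]
        push_cast
        ring
      rw [this]
      ring
    rw [e]
    refine AddSubmonoid.add_mem _ ?_ (AddSubmonoid.sum_mem _ fun j _ => ?_)
    · by_cases h0 : 1 - T.logDisc v = 0
      · rw [h0]
        exact AddSubmonoid.zero_mem _
      · exact AddSubmonoid.subset_closure ⟨hbS h0, hb0⟩
    · refine AddSubmonoid.nsmul_mem _ ?_ _
      by_cases h0 : T.r j = 0
      · rw [h0]
        exact AddSubmonoid.zero_mem _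
      · exact AddSubmonoid.subset_closure ⟨hC.2 j h0, T.r_nonneg j⟩
  · right
    have hset : {a : ℝ | ∃ v, X.At v ∧ T.disc v = a} = ∅ := by
      ext a
      constructor
      · rintro ⟨w, hw, -⟩
        exact (hex ⟨w, hw⟩).elim
      · intro h
        exact h.elim
    have hmld : T.mld = 0 := by
      unfold Triple.mld
      rw [hset, Real.sInf_empty]
    rw [hmld]
    simp

end DM1

theorem t_DM1 (_hDIV : Stmt_DIV) (hUNI : Stmt_UNI) (hIDO : Stmt_IDO) : Stmt_DM1 := by
  intro S hS X T hE _ hC hmono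
  obtain ⟨i, j, hij, hle⟩ := (DM1.V_isPWO hS).exists_monotone_subseq
    (f := fun k => 1 - (T k).mld) (fun k => DM1.mem_V hUNI hIDO (T k) (hE k) (hC k))
    |>.elim fun g hg => (⟨g 0, g 1, g.strictMono Nat.zero_lt_one, hg (Nat.zero_le 1)⟩ :
      ∃ i j, i < j ∧ 1 - (T i).mld ≤ 1 - (T j).mld)
  have := hmono hij
  simp only at this
  linarith

end MldGeo
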