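import Pool.Agent.MldGeo.Stmts8

/-!
# Complexity one: the combinatorial data of a triple
-/

namespace MldGeo

open MldTv

noncomputable section

/-- The value of a finite family of linear functions. -/
def minv {m N : ℕ} (z : Fin N → Fin m → ℤ) (c : Fin N → ℤ) (w : Fin m → ℤ) (l : ℤ) : ℝ :=
  sInf (Set.range fun k => ((l * c k + ip w (z k) : ℤ) : ℝ))

/-- The combinatorial data of a triple with torus action of complexity one. -/
structure Dat {m : ℕ} {X : Germ (m + 1)} (T : Triple X) where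
  /-- the number of generators -/
  N : ℕ
  /-- their weights -/
  u : Fin N → Fin m → ℤ
  /-- finitely many points of the curve -/
  Y : Type
  finY : Fintype Y
  decY : DecidableEq Y
  two : 2 ≤ Fintype.card Y
  /-- the orders of the coefficients of the generators -/
  e : Fin N → Y → ℤ
  span : ∀ w : Fin m → ℝ, (∀ i, pr w (u i) = 0) → w = 0
  int : ∃ w : Fin m → ℤ, ∀ i, 0 < ip w (u i)
  sum_e : ∀ i, ∑ y, e i y = 0
  nz : ∀ p : Y → Fin m → ℝ, (∀ y i, 0 ≤ pr (p y) (u i) + e i y) → ∑ y, p y ≠ 0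
  /-- the log discrepancies -/
  ψ : Fin m → ℝ
  α : Y → ℝ
  K : ℤ
  K_ge : -2 ≤ K
  sum_α : ∑ y, (1 - α y) = - (K : ℝ)
  /-- the generators of the ideals -/
  M : T.J → ℕ
  M_pos : ∀ j, 0 < M j
  z : ∀ j, Fin (M j) → Fin m → ℤ
  c : ∀ j, Fin (M j) → Y → ℤ
  sum_c : ∀ j k, ∑ y, c j k y = 0
  reg : ∀ j k (w : Fin m → ℤ) (l : ℤ) (y : Y), 0 ≤ l → (∀ i, 0 ≤ l * e i y + ip w (u i)) →
    0 ≤ l * c j k y + ip w (z j k)
  /-- every valuation is at least a toroidal one -/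
  low : ∀ v, X.Through v → ∃ (w : Fin m → ℤ) (l : ℤ) (y : Y), 0 ≤ l ∧
    (∀ i, 0 ≤ l * e i y + ip w (u i)) ∧ (X.At v → ∀ i, 0 < l * e i y + ip w (u i)) ∧
    ∑ i, ψ i * w i + l * α y - ∑ j, T.r j * minv (z j) (fun k => c j k y) w l ≤ T.disc v
  /-- toroidal valuations exist -/
  tor : ∀ (w : Fin m → ℤ) (l : ℤ) (y : Y), 0 ≤ l → Primv w l →
    (∀ i, 0 ≤ l * e i y + ip w (u i)) → ∃ v, X.Through v ∧
      T.disc v = ∑ i, ψ i * w i + l * α y - ∑ j, T.r j * minv (z j) (fun k => c j k y) w l ∧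
      ((∀ i, 0 < l * e i y + ip w (u i)) → X.At v)
  ath : ∀ v, X.At v → X.Through v
  /-- vertical prime divisors -/
  vert : ∀ (w : Fin m → ℤ) (l : ℤ) (y : Y), 0 < l → Primv w l →
    (∀ i, 0 ≤ l * e i y + ip w (u i)) → ∀ (u' : Fin m → (Fin m → ℤ)) (E : Fin m → Y → ℤ),
    LinearIndependent ℤ u' → (∀ k, 0 < ∑ y, E k y) →
    (∀ k w' l' y', 0 ≤ l' → (∀ i, 0 ≤ l' * e i y' + ip w' (u i)) → l' * E k y' ≤ ip w' (u' k)) →
    (∀ k, l * E k y = ip w (u' k)) →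
    ∃ P : Ideal X.R, T.Coeff P (1 - (∑ i, ψ i * w i + l * α y))
  /-- horizontal prime divisors -/
  hori : ∀ w : Fin m → ℤ, 2 ≤ m → Primv w 0 → (∀ i, 0 ≤ ip w (u i)) →
    ∀ (u' : Fin (m - 1) → (Fin m → ℤ)) (E : Fin (m - 1) → Y → ℤ),
    LinearIndependent ℤ u' → (∀ k, 0 < ∑ y, E k y) →
    (∀ k w' l' y', 0 ≤ l' → (∀ i, 0 ≤ l' * e i y' + ip w' (u i)) → l' * E k y' ≤ ip w' (u' k)) →
    (∀ k, ip w (u' k) = 0) →
    ∃ P : Ideal X.R, T.Coeff P (1 - ∑ i, ψ i * w i)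

attribute [instance] Dat.finY Dat.decY

/-- DAT: the combinatorial data exist. -/
def Stmt_DAT : Prop :=
  ∀ {m : ℕ} {X : Germ (m + 1)} (A : TorusAction X m) (T : Triple X), A.InvTriple T →
    Nonempty (Dat T)

/-- BDR: the polyhedral divisor and the boundary. -/
def Stmt_BDR : Prop :=
  ∀ {m : ℕ} {X : Germ (m + 1)} {T : Triple X} (d : Dat T), T.Effective → T.LC →
    ∀ S : Set ℝ, T.CoeffIn S →
    ∃ (X' : TVar m 1) (φ : X'.Y ≃ d.Y) (B : Bdry X'), (∀ y, X'.deg y = 1) ∧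
      (∀ w : Fin m → ℝ, w ∈ X'.N ↔ ∃ z : Fin m → ℤ, w = toR z) ∧
      (∀ (y : d.Y) (k : ℝ), 0 ≤ k → ∀ w : Fin m → ℝ,
        w ∈ X'.poly (fun y' => if φ y' = y then k else 0) ↔
          ∀ i, 0 ≤ pr w (d.u i) + k * d.e i y) ∧
      (∀ w, B.ψ w = ∑ i, d.ψ i * w i) ∧ (∀ y, B.α y = d.α (φ y)) ∧
      (∀ j, ¬ X'.Contracted j → B.bH j ≠ 0 → B.bH j ∈ S) ∧
      (∀ y i, B.bV y i ≠ 0 → B.bV y i ∈ S)

/-- CMB: the minimal log discrepancy is the one of the combinatorial data. -/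
def Stmt_CMB : Prop :=
  ∀ {m : ℕ} {X : Germ (m + 1)} {T : Triple X} (_d : Dat T), T.Effective → T.LC →
    ∀ S : Set ℝ, T.CoeffIn S → T.mld ∈ mldSet (m + 1) S

/-- DM1: dimension one. -/
def Stmt_DM1 : Prop :=
  ∀ (S : Set ℝ), S.IsWF → ∀ (X : ℕ → Germ 1) (T : ∀ k, Triple (X k)),
    (∀ k, (T k).Effective) → (∀ k, (T k).LC) → (∀ k, (T k).CoeffIn S) →
    ¬ StrictMono fun k => (T k).mld

/-- TAC: the ascending chain condition for varieties with torus action of complexity at most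
one. -/
def Stmt_TAC : Prop :=
  ∀ (n : ℕ) (S : Set ℝ), S.IsWF → ∀ (X : ℕ → Germ n) (T : ∀ k, Triple (X k)) (m : ℕ → ℕ)
    (A : ∀ k, TorusAction (X k) (m k)), (∀ k, n ≤ m k + 1) → (∀ k, (A k).InvTriple (T k)) →
    (∀ k, (T k).Effective) → (∀ k, (T k).LC) → (∀ k, (T k).CoeffIn S) →
    ¬ StrictMono fun k => (T k).mld

end

end MldGeo
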