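import Pool.Agent.MldGeo.StmtsQ
import Pool.Agent.MldGeo.FRM

/-! # PULQ: log discrepancies and crepant pullbacks -/

namespace MldGeo

open MvPolynomial

noncomputable section

namespace PULQ

variable {n : ℕ} {K : Type} [Field K] [Algebra ℂ K]

/-- a transcendence basis indexed by `Fin n` -/
theorem exists_basis (htr : Algebra.trdeg ℂ K = (n : Cardinal)) :
    ∃ a : Fin n → K, AlgebraicIndependent ℂ a := by
  obtain ⟨s, hs⟩ := exists_isTranscendenceBasis ℂ K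
  have h1 : Cardinal.mk s = (n : Cardinal) := by
    rw [← htr]
    exact hs.cardinalMk_eq_trdeg
  obtain ⟨e⟩ : Nonempty (Fin n ≃ s) := by
    rw [← Cardinal.eq, h1, Cardinal.mk_fin]
  have h2 : AlgebraicIndependent ℂ (fun i : Fin n => ((e i : s) : K)) :=
    hs.1.comp e e.injective
  exact ⟨fun i => (e i : K), h2⟩

/-- the basis of differentials -/
def bas (h3 : Stmt_TBAS) (htr : Algebra.trdeg ℂ K = (n : Cardinal)) (a : Fin n → K)
    (ha : AlgebraicIndependent ℂ a) : Module.Basis (Fin n) K (Ω[K⁄ℂ]) :=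
  Module.Basis.mk (h3 htr a ha).1 (h3 htr a ha).2.ge

theorem bas_coe (h3 : Stmt_TBAS) (htr : Algebra.trdeg ℂ K = (n : Cardinal)) (a : Fin n → K)
    (ha : AlgebraicIndependent ℂ a) :
    (bas h3 htr a ha : Fin n → Ω[K⁄ℂ]) = fun i => KaehlerDifferential.D ℂ K (a i) := by
  funext i
  unfold bas
  rw [Module.Basis.mk_apply]

theorem dforms_ne (h3 : Stmt_TBAS) (htr : Algebra.trdeg ℂ K = (n : Cardinal)) (a : Fin n → K)
    (ha : AlgebraicIndependent ℂ a) : dforms a ≠ 0 := by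
  have h := FRM.iota_ne (bas h3 htr a ha)
  rwa [bas_coe] at h

theorem exists_dforms (h3 : Stmt_TBAS) (htr : Algebra.trdeg ℂ K = (n : Cardinal)) (a : Fin n → K)
    (ha : AlgebraicIndependent ℂ a) (ω : Forms n K) : ∃ g : K, ω = g • dforms a := by
  obtain ⟨g, hg⟩ := FRM.exists_smul (bas h3 htr a ha) ω
  rw [bas_coe] at hg
  exact ⟨g, hg⟩

theorem dlogs_eq (a : Fin n → K) : dlogs a = (∏ i, (a i)⁻¹) • dforms a := by
  have h1 := (exteriorPower.ιMulti K n).toMultilinearMap.map_smul_univ (fun i => (a i)⁻¹)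
    (fun i => KaehlerDifferential.D ℂ K (a i))
  exact h1

theorem dlogs_ne (h3 : Stmt_TBAS) (htr : Algebra.trdeg ℂ K = (n : Cardinal)) (a : Fin n → K)
    (ha : AlgebraicIndependent ℂ a) : dlogs a ≠ 0 := by
  have hp' : ∏ i, (a i)⁻¹ ≠ 0 :=
    Finset.prod_ne_zero_iff.2 fun i _ => inv_ne_zero (ha.ne_zero i)
  rw [dlogs_eq]
  exact smul_ne_zero hp' (dforms_ne h3 htr a ha)

theorem exists_dlogs (h3 : Stmt_TBAS) (htr : Algebra.trdeg ℂ K = (n : Cardinal)) (a : Fin n → K)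
    (ha : AlgebraicIndependent ℂ a) (ω : Forms n K) (hω : ω ≠ 0) :
    ∃ g : K, g ≠ 0 ∧ ω = g • dlogs a := by
  obtain ⟨g, hg⟩ := exists_dforms h3 htr a ha ω
  have ha0 : ∀ i, a i ≠ 0 := fun i => ha.ne_zero i
  have hp : ∏ i, a i ≠ 0 := Finset.prod_ne_zero_iff.2 fun i _ => ha0 i
  have hg0 : g ≠ 0 := by
    rintro rfl
    exact hω (by rw [hg, zero_smul])
  refine ⟨g * ∏ i, a i, mul_ne_zero hg0 hp, ?_⟩
  rw [dlogs_eq, smul_smul, mul_assoc, ← Finset.prod_mul_distrib]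
  have h1 : ∀ i ∈ (Finset.univ : Finset (Fin n)), a i * (a i)⁻¹ = 1 := fun i _ =>
    mul_inv_cancel₀ (ha0 i)
  rw [Finset.prod_congr rfl h1, Finset.prod_const_one, mul_one]
  exact hg

/-- The log discrepancy in terms of the logarithmic order. -/
theorem logDisc_eq (h3 : Stmt_TXT) {X : Germ n} (hn : 0 < n) (T : Triple X) (w : DivVal n X.K) :
    T.logDisc w = w.logOrd T.ω + ∑ i, T.c i * w.ord (T.f i) := by
  unfold Triple.logDisc
  rw [h3 X.trdeg w T.ω hn T.ω_ne]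
  push_cast
  ring

/-- the functions of the difference -/
def F {X Y : Germ n} (π : Y.K →ₐ[ℂ] X.K) (T : Triple X) (T' : Triple Y) (g : X.K) (g' : Y.K) :
    Bool ⊕ (T.I ⊕ T'.I) → X.K
  | Sum.inl true => g
  | Sum.inl false => π g'
  | Sum.inr (Sum.inl i) => T.f i
  | Sum.inr (Sum.inr i) => π (T'.f i)

/-- the coefficients of the difference -/
def C {X Y : Germ n} (T : Triple X) (T' : Triple Y) : Bool ⊕ (T.I ⊕ T'.I) → ℝ
  | Sum.inl true => 1
  | Sum.inl false => -1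
  | Sum.inr (Sum.inl i) => T.c i
  | Sum.inr (Sum.inr i) => -T'.c i

end PULQ

theorem t_PULQ (hQGAL : Stmt_QGAL) (hUNQ : Stmt_UNQ) (hTXT : Stmt_TXT) (hFSM : Stmt_FSM)
    (hTBAS : Stmt_TBAS) : Stmt_QPUL := by
  intro n X Y G π T T' hn hQ hcr
  obtain ⟨hG1, -, -, hG4⟩ := hQGAL X Y G π hn hQ
  obtain ⟨a, ha⟩ := PULQ.exists_basis Y.trdeg
  have hπ : AlgebraicIndependent ℂ (fun i => π (a i)) := ha.map' (f := π) π.injective
  obtain ⟨g', hg', hω'⟩ := PULQ.exists_dlogs hTBAS Y.trdeg a ha T'.ω T'.ω_ne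
  obtain ⟨g, hg, hω⟩ := PULQ.exists_dlogs hTBAS X.trdeg (fun i => π (a i)) hπ T.ω T.ω_ne
  have hD : dlogs (fun i => π (a i)) ≠ 0 := PULQ.dlogs_ne hTBAS X.trdeg _ hπ
  have hD' : dlogs a ≠ 0 := PULQ.dlogs_ne hTBAS Y.trdeg _ ha
  have hπg : π g' ≠ 0 := (map_ne_zero π).2 hg'
  -- the difference of the log discrepancies
  have key : ∀ (w : DivVal n X.K) (v : DivVal n Y.K) (e : ℕ), Over π w v e →
      T.logDisc w - e * T'.logDisc v =
        ∑ k, PULQ.C T T' k * w.ord (PULQ.F π T T' g g' k) := by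
    intro w v e hov
    have h1 := (hG4 w v e hov g' a hg' (fun i => ha.ne_zero i) hD').2
    rw [← hω', hFSM X.trdeg w (π g') _ hn hπg hD] at h1
    have h2 : w.logOrd T.ω = w.ord g + w.logOrd (dlogs fun i => π (a i)) := by
      rw [hω]
      exact hFSM X.trdeg w g _ hn hg hD
    rw [PULQ.logDisc_eq hTXT hn, PULQ.logDisc_eq hTXT hn, h2, Fintype.sum_sum_type,
      Fintype.sum_sum_type, Fintype.sum_bool]
    have h3 : (e : ℝ) * v.logOrd T'.ω =
        w.ord (π g') + w.logOrd (dlogs fun i => π (a i)) := by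
      exact_mod_cast h1.symm
    have h4 : ∑ i, T'.c i * (w.ord (π (T'.f i)) : ℝ) = e * ∑ i, T'.c i * (v.ord (T'.f i) : ℝ) := by
      rw [Finset.mul_sum]
      refine Finset.sum_congr rfl fun i _ => ?_
      rw [hov.2]
      push_cast
      ring
    have h5 : ∑ i, PULQ.C T T' (Sum.inr (Sum.inr i)) *
        (w.ord (PULQ.F π T T' g g' (Sum.inr (Sum.inr i))) : ℝ) =
          -∑ i, T'.c i * (w.ord (π (T'.f i)) : ℝ) := by
      rw [← Finset.sum_neg_distrib]
      refine Finset.sum_congr rfl fun i _ => ?_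
      show -T'.c i * (w.ord (π (T'.f i)) : ℝ) = _
      ring
    have h6 : ∑ i, PULQ.C T T' (Sum.inr (Sum.inl i)) *
        (w.ord (PULQ.F π T T' g g' (Sum.inr (Sum.inl i))) : ℝ) =
          ∑ i, T.c i * (w.ord (T.f i) : ℝ) := rfl
    rw [h5, h6, h4]
    show ((w.ord g + w.logOrd (dlogs fun i => π (a i)) : ℤ) : ℝ) + _ - _ =
      1 * (w.ord g : ℝ) + -1 * (w.ord (π g') : ℝ) + _
    rw [mul_add, h3]
    push_cast
    ring
  intro w v e hw hov
  have h0 : ∑ k, PULQ.C T T' k * (w.ord (PULQ.F π T T' g g' k) : ℝ) = 0 := by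
    refine hUNQ X (PULQ.F π T T' g g') (PULQ.C T T') ?_ ?_ w hw
    · rintro ((_ | _) | (i | i))
      · exact hπg
      · exact hg
      · exact T.f_ne i
      · exact (map_ne_zero π).2 (T'.f_ne i)
    · intro w' Q hQm hal
      obtain ⟨v', e', hov'⟩ := hG1 w'
      rw [← key w' v' e' hov', hcr.div w' v' e' Q hQm hal hov', sub_self]
  rw [← key w v e hov] at h0
  exact sub_eq_zero.1 h0

end

end MldGeo
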