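import Pool.Agent.MldGeo.StmtsQ

/-!
# The centres of a divisor over `X` and of its image over `X / G`
-/

namespace MldGeo

open Polynomial

noncomputable section

namespace QAT

variable {n : ℕ} (X : Germ n) (G : Subgroup (X.K ≃ₐ[ℂ] X.K)) [Fintype G]

/-- The characteristic polynomial of `a`. -/
def chp (hR : ∀ g ∈ G, ∀ a ∈ X.R, g a ∈ X.R) (a : X.R) : Polynomial X.R :=
  ∏ g : G, (Polynomial.X - C (⟨(g : X.K ≃ₐ[ℂ] X.K) a, hR g g.2 a a.2⟩ : X.R))

variable (hR : ∀ g ∈ G, ∀ a ∈ X.R, g a ∈ X.R)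

theorem chp_map (a : X.R) : (chp X G hR a).map (algebraMap X.R X.K) =
    ∏ g : G, (Polynomial.X - C ((g : X.K ≃ₐ[ℂ] X.K) (a : X.K))) := by
  unfold chp
  rw [Polynomial.map_prod]
  refine Finset.prod_congr rfl fun g _ => ?_
  rw [Polynomial.map_sub, Polynomial.map_X, Polynomial.map_C]
  rfl

theorem chp_monic (a : X.R) : (chp X G hR a).Monic :=
  monic_prod_of_monic _ _ fun _ _ => monic_X_sub_C _

theorem chp_natDegree (a : X.R) : (chp X G hR a).natDegree = Fintype.card G := by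
  unfold chp
  rw [natDegree_prod_of_monic _ _ fun _ _ => monic_X_sub_C _]
  simp

theorem chp_coeff_fixed (a : X.R) (k : ℕ) (h : X.K ≃ₐ[ℂ] X.K) (hG : h ∈ G) :
    h ((chp X G hR a).coeff k : X.K) = ((chp X G hR a).coeff k : X.K) := by
  have h1 : ((chp X G hR a).coeff k : X.K) =
      ((chp X G hR a).map (algebraMap X.R X.K)).coeff k := by
    rw [coeff_map]
    rfl
  rw [h1]
  have h2 : h (((chp X G hR a).map (algebraMap X.R X.K)).coeff k) =
      (((chp X G hR a).map (algebraMap X.R X.K)).map (h : X.K →+* X.K)).coeff k :=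
    (coeff_map (h : X.K →+* X.K) k).symm
  rw [h2, chp_map, Polynomial.map_prod]
  congr 1
  refine Fintype.prod_equiv (Equiv.mulLeft (⟨h, hG⟩ : G)) _ _ fun g => ?_
  rw [Polynomial.map_sub, Polynomial.map_X, Polynomial.map_C]
  rfl

theorem chp_root (a : X.R) : (a : X.K) ^ Fintype.card G =
    -∑ k ∈ Finset.range (Fintype.card G), ((chp X G hR a).coeff k : X.K) * (a : X.K) ^ k := by
  have h1 : eval (a : X.K) ((chp X G hR a).map (algebraMap X.R X.K)) = 0 := by
    rw [chp_map, eval_prod]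
    refine Finset.prod_eq_zero (Finset.mem_univ (1 : G)) ?_
    simp
  rw [eval_eq_sum_range, (chp_monic X G hR a).natDegree_map, chp_natDegree,
    Finset.sum_range_succ] at h1
  have h2 : ((chp X G hR a).map (algebraMap X.R X.K)).coeff (Fintype.card G) = 1 := by
    rw [coeff_map, ← chp_natDegree X G hR a, (chp_monic X G hR a).coeff_natDegree, map_one]
  rw [h2, one_mul] at h1
  rw [eq_neg_iff_add_eq_zero, add_comm, ← h1]
  congr 1
  refine Finset.sum_congr rfl fun k _ => ?_
  rw [coeff_map]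
  rfl

theorem chp_mem (hm : ∀ g ∈ G, ∀ a b : X.R, (b : X.K) = g a → a ∈ X.m → b ∈ X.m) (a : X.R)
    (ha : a ∈ X.m) (k : ℕ) (hk : k < Fintype.card G) : (chp X G hR a).coeff k ∈ X.m := by
  have h1 : (chp X G hR a).map (Ideal.Quotient.mk X.m) = Polynomial.X ^ Fintype.card G := by
    unfold chp
    rw [Polynomial.map_prod]
    have h2 : ∀ g ∈ (Finset.univ : Finset G),
        Polynomial.map (Ideal.Quotient.mk X.m)
          (Polynomial.X - C (⟨(g : X.K ≃ₐ[ℂ] X.K) a, hR g g.2 a a.2⟩ : X.R)) =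
          Polynomial.X := by
      intro g _
      rw [Polynomial.map_sub, Polynomial.map_X, Polynomial.map_C,
        Ideal.Quotient.eq_zero_iff_mem.2 (hm g g.2 a _ rfl ha), C_0, sub_zero]
    rw [Finset.prod_congr rfl h2, Finset.prod_const, Finset.card_univ]
  have h3 : Ideal.Quotient.mk X.m ((chp X G hR a).coeff k) = 0 := by
    rw [← coeff_map, h1, coeff_X_pow, if_neg hk.ne]
  exact Ideal.Quotient.eq_zero_iff_mem.1 h3

theorem bound {K : Type} [Field K] [Algebra ℂ K] (w : DivVal n K) {a : K} (ha : a ≠ 0) {N : ℕ}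
    (c : ℕ → K) (h : a ^ N = -∑ k ∈ Finset.range N, c k * a ^ k)
    (hc : ∀ k < N, w.Ge 0 (c k)) : 0 ≤ w.ord a := by
  by_contra hneg
  push Not at hneg
  have h1 : w.Ge (((N : ℤ) - 1) * w.ord a) (a ^ N) := by
    rw [h]
    refine DivVal.Ge.neg (DivVal.Ge.sum _ _ fun k hk => ?_)
    have hk' := Finset.mem_range.1 hk
    refine ((hc k hk').mul_left ((DivVal.Ge.self w a).pow k)).mono ?_
    have : (k : ℤ) ≤ (N : ℤ) - 1 := by omega
    nlinarith
  have h2 := h1.le (pow_ne_zero _ ha)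
  rw [DivVal.ord_pow] at h2
  nlinarith

theorem bound_pos {K : Type} [Field K] [Algebra ℂ K] (w : DivVal n K) {a : K} (ha : a ≠ 0)
    {N : ℕ} (c : ℕ → K) (h : a ^ N = -∑ k ∈ Finset.range N, c k * a ^ k)
    (hc : ∀ k < N, w.Ge 1 (c k)) : 0 < w.ord a := by
  have h0 : 0 ≤ w.ord a := bound w ha c h fun k hk => (hc k hk).mono (by norm_num)
  have h1 : w.Ge 1 (a ^ N) := by
    rw [h]
    refine DivVal.Ge.neg (DivVal.Ge.sum _ _ fun k hk => ?_)
    exact (hc k (Finset.mem_range.1 hk)).mul_right ((DivVal.Ge.of_le h0).pow0 k)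
  have h2 := h1.le (pow_ne_zero _ ha)
  rw [DivVal.ord_pow] at h2
  by_contra h3
  have h4 : w.ord a = 0 := by omega
  rw [h4] at h2
  omega

end QAT

open QAT

theorem t_QAT : Stmt_QAT := by
  intro n X Y G π hq w v e hO
  obtain ⟨he, hO⟩ := hO
  have hfin := hq.finite
  have hft : Fintype G := Fintype.ofFinite G
  have he' : (0 : ℤ) < e := by exact_mod_cast he
  constructor
  · rintro ⟨h1, h2⟩
    refine ⟨fun b => ?_, fun b hb hb0 => ?_⟩
    · have h3 := h1 ⟨π b, (hq.mem_R b).1 b.2⟩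
      change 0 ≤ w.ord (π b) at h3
      rw [hO] at h3
      exact nonneg_of_mul_nonneg_right h3 he'
    · have h3 := h2 ⟨π b, (hq.mem_R b).1 b.2⟩ ((hq.mem_m b _ rfl).1 hb) (by
        intro h
        have h4 : π (b : Y.K) = 0 := congrArg Subtype.val h
        rw [map_eq_zero] at h4
        exact hb0 (Subtype.ext h4))
      change 0 < w.ord (π b) at h3
      rw [hO] at h3
      by_contra h5
      push Not at h5
      nlinarith
  · rintro ⟨h1, h2⟩
    have key : ∀ (a : X.R) (k : ℕ), ∃ b : Y.R,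
        (((chp X G hq.map_R a).coeff k : X.R) : X.K) = π b := by
      intro a k
      obtain ⟨b, hb⟩ := (hq.inv _).2 fun g hg => chp_coeff_fixed X G hq.map_R a k g hg
      refine ⟨⟨b, (hq.mem_R b).2 ?_⟩, hb.symm⟩
      rw [hb]
      exact ((chp X G hq.map_R a).coeff k).2
    have hnn : ∀ a : X.R, 0 ≤ w.ord a := by
      intro a
      by_cases ha : (a : X.K) = 0
      · rw [ha, w.ord_zero]
      refine bound w ha (fun k => ((chp X G hq.map_R a).coeff k : X.K))
        (chp_root X G hq.map_R a) fun k _ => ?_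
      obtain ⟨b, hb⟩ := key a k
      rw [hb]
      refine DivVal.Ge.of_le ?_
      rw [hO]
      exact mul_nonneg he'.le (h1 b)
    refine ⟨hnn, fun a ha ha0 => ?_⟩
    have ha0' : (a : X.K) ≠ 0 := fun h => ha0 (Subtype.ext h)
    refine bound_pos w ha0' (fun k => ((chp X G hq.map_R a).coeff k : X.K))
      (chp_root X G hq.map_R a) fun k hk => ?_
    obtain ⟨b, hb⟩ := key a k
    have hbm : b ∈ Y.m := (hq.mem_m b _ hb).2 (chp_mem X G hq.map_R hq.map_m a ha k hk)
    change w.Ge 1 ((chp X G hq.map_R a).coeff k : X.K)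
    rw [hb]
    by_cases hb0 : b = 0
    · rw [hb0]
      refine Or.inl ?_
      exact map_zero π
    refine DivVal.Ge.of_le ?_
    rw [hO]
    have h5 := h2 b hbm hb0
    nlinarith

end

end MldGeo
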