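import Pool.Agent.MldGeo.Stmts6

/-!
# The residue field of a place of a function field of one variable
-/

namespace MldGeo

namespace RS1

open DivVal Polynomial

variable {F : Type} [Field F] [Algebra ℂ F]

/-- Nonzero polynomials in `a` have order zero. -/
theorem aeval_ord {y : DivVal 1 F} {a : F}
    (h0 : ∀ c : ℂ, a - algebraMap ℂ F c ≠ 0 ∧ y.ord (a - algebraMap ℂ F c) = 0)
    (p : Polynomial ℂ) (hp : p ≠ 0) : aeval a p ≠ 0 ∧ y.ord (aeval a p) = 0 := by
  classical
  have hs := IsAlgClosed.splits p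
  have e := hs.eq_prod_roots
  have hm : ∀ M : Multiset ℂ, aeval a (M.map fun c => X - C c).prod ≠ 0 ∧
      y.ord (aeval a (M.map fun c => X - C c).prod) = 0 := by
    intro M
    induction M using Multiset.induction_on with
    | empty => simp [ord_one]
    | cons c M ih =>
      rw [Multiset.map_cons, Multiset.prod_cons, map_mul]
      have e1 : aeval a (X - C c) = a - algebraMap ℂ F c := by simp
      rw [e1]
      refine ⟨mul_ne_zero (h0 c).1 ih.1, ?_⟩
      rw [y.ord_mul _ _ (h0 c).1 ih.1, (h0 c).2, ih.2, zero_add]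
  have hl : (algebraMap ℂ F p.leadingCoeff) ≠ 0 := by
    rw [Ne, map_eq_zero]
    exact leadingCoeff_ne_zero.2 hp
  rw [e, map_mul, aeval_C]
  refine ⟨mul_ne_zero hl (hm _).1, ?_⟩
  rw [y.ord_mul _ _ hl (hm _).1, (hm _).2, y.ord_const, zero_add]

theorem main (hF : IsCurve F) (y : DivVal 1 F) (a : F) (ha : y.Ge 0 a) :
    ∃ c : ℂ, y.Ge 1 (a - algebraMap ℂ F c) := by
  by_contra hcon
  push Not at hcon
  have h0 : ∀ c : ℂ, a - algebraMap ℂ F c ≠ 0 ∧ y.ord (a - algebraMap ℂ F c) = 0 := by
    intro c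
    have h1 := hcon c
    have h2 : a - algebraMap ℂ F c ≠ 0 := fun h => h1 (Or.inl h)
    refine ⟨h2, ?_⟩
    have h3 : y.Ge 0 (a - algebraMap ℂ F c) := ha.sub (Ge.const y c)
    have h4 := h3.le h2
    have h5 : ¬ (1 ≤ y.ord (a - algebraMap ℂ F c)) := fun h => h1 (Or.inr h)
    omega
  have htr : Transcendental ℂ a := by
    rintro ⟨p, hp, hpa⟩
    exact (aeval_ord h0 p hp).1 hpa
  have hfd := hF.2 a htr
  obtain ⟨t, ht, ht1⟩ := y.unif
  have hK : ∀ z : IntermediateField.adjoin ℂ {a}, y.Ge 0 (z : F) ∧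
      ((z : F) ≠ 0 → y.ord (z : F) = 0) := by
    intro z
    obtain ⟨r, s, e⟩ := (IntermediateField.mem_adjoin_simple_iff ℂ (z : F)).1 z.2
    have key : (z : F) ≠ 0 → y.ord (z : F) = 0 := by
      intro hz
      have hr : r ≠ 0 := by
        rintro rfl
        rw [map_zero, zero_div] at e
        exact hz e
      have hs : s ≠ 0 := by
        rintro rfl
        rw [map_zero, div_zero] at e
        exact hz e
      rw [e, ord_div y (aeval_ord h0 r hr).1 (aeval_ord h0 s hs).1, (aeval_ord h0 r hr).2,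
        (aeval_ord h0 s hs).2, sub_zero]
    refine ⟨?_, key⟩
    by_cases hz : (z : F) = 0
    · exact Or.inl hz
    · exact Or.inr (key hz).ge
  have hint : IsIntegral (IntermediateField.adjoin ℂ {a}) t := IsIntegral.of_finite _ t
  have hge : ∀ p : Polynomial (IntermediateField.adjoin ℂ {a}), y.Ge 0 (aeval t p) := by
    intro p
    induction p using Polynomial.induction_on' with
    | add p q hp hq => rw [map_add]; exact hp.add hq
    | monomial k c =>
      rw [aeval_monomial]
      exact (hK c).1.mul_left ((Ge.of_le (by omega) : y.Ge 0 t).pow0 k)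
  have hc0 := minpoly.coeff_zero_ne_zero hint ht
  have hroot := minpoly.aeval (IntermediateField.adjoin ℂ {a}) t
  obtain ⟨q, hq⟩ : ∃ q, q = minpoly (IntermediateField.adjoin ℂ {a}) t := ⟨_, rfl⟩
  rw [← hq] at hc0 hroot
  rw [← divX_mul_X_add q, map_add, map_mul, aeval_X, aeval_C] at hroot
  have hcF : ((q.coeff 0 : IntermediateField.adjoin ℂ {a}) : F) ≠ 0 := fun h => hc0 (Subtype.ext h)
  have h1 : ((q.coeff 0 : IntermediateField.adjoin ℂ {a}) : F) = -(aeval t q.divX * t) := by
    have h2 : algebraMap (IntermediateField.adjoin ℂ {a}) F (q.coeff 0) =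
      ((q.coeff 0 : IntermediateField.adjoin ℂ {a}) : F) := rfl
    rw [h2] at hroot
    linear_combination hroot
  have h2 : y.Ge 1 ((q.coeff 0 : IntermediateField.adjoin ℂ {a}) : F) := by
    rw [h1]
    exact ((hge _).mul_left (Ge.of_le ht1.ge)).neg
  have h3 := h2.le hcF
  rw [(hK _).2 hcF] at h3
  omega

end RS1

theorem t_RS1 : Stmt_RS1 := by
  intro F _ _ hF y a ha
  exact RS1.main hF y a ha

end MldGeo
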