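import Pool.Agent.MldGeo.Stmts7
import Pool.Agent.TD.Y.Cone

/-!
# Attractive gradings
-/

namespace MldGeo

namespace ATT

/-- clearing denominators -/
lemma clear {κ : Type} [Fintype κ] (f : κ → ℚ) :
    ∃ (N : ℕ) (g : κ → ℤ), 0 < N ∧ ∀ k, (g k : ℚ) = f k * N := by
  classical
  have hd : ∀ k, ∃ c : ℕ, ∏ k, (f k).den = (f k).den * c := fun k =>
    Finset.dvd_prod_of_mem _ (Finset.mem_univ k)
  choose c hc using hd
  refine ⟨∏ k, (f k).den, fun k => (f k).num * c k, Finset.prod_pos fun k _ => (f k).pos, ?_⟩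
  intro k
  rw [hc k]
  push_cast
  rw [← mul_assoc, Rat.mul_den_eq_num]

/-- the functional -/
def fl {m : ℕ} (u : Fin m → ℤ) : ((Fin m → ℚ) × ℚ) →ₗ[ℚ] ℚ where
  toFun x := x.2 - ∑ j, x.1 j * u j
  map_add' x y := by
    simp only [Prod.snd_add, Prod.fst_add, Pi.add_apply, add_mul, Finset.sum_add_distrib]
    ring
  map_smul' c x := by
    simp only [Prod.smul_snd, Prod.smul_fst, Pi.smul_apply, smul_eq_mul, RingHom.id_apply,
      mul_sub, Finset.mul_sum, mul_assoc]

lemma fl_apply {m : ℕ} (u : Fin m → ℤ) (x : (Fin m → ℚ) × ℚ) :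
    fl u x = x.2 - ∑ j, x.1 j * u j := rfl

end ATT

open ATT in
theorem t_ATT : Stmt_ATT := by
  classical
  intro m ι _ u hu
  by_cases h : ∀ x : (Fin m → ℚ) × ℚ, (∀ i ∈ (Finset.univ : Finset ι), fl (u i) x ≤ 0) →
      LinearMap.snd ℚ (Fin m → ℚ) ℚ x ≤ 0
  · exfalso
    obtain ⟨l, hl, hc⟩ := Pool.Agent.TD.farkas_field Finset.univ (fun i => fl (u i)) _ h
    have h1 : ∑ i, l i = 1 := by
      have := LinearMap.congr_fun hc ((0 : Fin m → ℚ), (1 : ℚ))
      simp only [LinearMap.snd_apply, LinearMap.sum_apply, LinearMap.smul_apply, fl_apply,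
        Pi.zero_apply, zero_mul, Finset.sum_const_zero, sub_zero, smul_eq_mul, mul_one] at this
      exact this.symm
    have h2 : ∀ j, ∑ i, l i * u i j = 0 := by
      intro j
      have := LinearMap.congr_fun hc ((Pi.single j 1 : Fin m → ℚ), (0 : ℚ))
      simp only [LinearMap.snd_apply, LinearMap.sum_apply, LinearMap.smul_apply, fl_apply,
        smul_eq_mul, zero_sub] at this
      have e : ∀ i, ∑ j', (Pi.single j (1 : ℚ) : Fin m → ℚ) j' * (u i j' : ℚ) = u i j := by
        intro i
        rw [Finset.sum_eq_single j]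
        · rw [Pi.single_eq_same, one_mul]
        · intro b _ hb
          rw [Pi.single_eq_of_ne hb, zero_mul]
        · intro h'
          exact absurd (Finset.mem_univ j) h'
      simp only [e, mul_neg, Finset.sum_neg_distrib] at this
      linarith
    obtain ⟨N, g, hN, hg⟩ := clear l
    have hN0 : (0 : ℚ) < N := by exact_mod_cast hN
    have hg0 : ∀ i, 0 ≤ g i := by
      intro i
      have : (0 : ℚ) ≤ g i := by
        rw [hg]
        exact mul_nonneg (hl i) hN0.le
      exact_mod_cast this
    have hz : (fun i => (g i).toNat) = (0 : ι → ℕ) := by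
      apply hu
      funext j
      rw [Finset.sum_apply, Pi.zero_apply]
      have e : ∀ i, (((g i).toNat : ℤ) • u i) j = g i * u i j := by
        intro i
        rw [Pi.smul_apply, smul_eq_mul, Int.toNat_of_nonneg (hg0 i)]
      simp only [e]
      have e2 : ((∑ i, g i * u i j : ℤ) : ℚ) = 0 := by
        push_cast
        have e3 : ∀ i, (g i : ℚ) * (u i j : ℚ) = N * (l i * u i j) := by
          intro i
          rw [hg]
          ring
        simp only [e3]
        rw [← Finset.mul_sum, h2 j, mul_zero]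
      exact_mod_cast e2
    have hl0 : ∀ i, l i = 0 := by
      intro i
      have e1 := congrFun hz i
      simp only [Pi.zero_apply] at e1
      have e2 := hg0 i
      have e3 : g i = 0 := by omega
      have e4 := hg i
      rw [e3, Int.cast_zero] at e4
      rcases mul_eq_zero.1 e4.symm with h' | h'
      · exact h'
      · exact absurd h' hN0.ne'
    simp only [hl0, Finset.sum_const_zero] at h1
    exact zero_ne_one h1
  · push Not at h
    obtain ⟨x, hx, hx2⟩ := h
    obtain ⟨N, g, hN, hg⟩ := clear x.1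
    have hN0 : (0 : ℚ) < N := by exact_mod_cast hN
    refine ⟨g, fun i => ?_⟩
    have h1 := hx i (Finset.mem_univ i)
    rw [fl_apply] at h1
    rw [LinearMap.snd_apply] at hx2
    have h2 : 0 < ∑ j, x.1 j * (u i j : ℚ) := by linarith
    have e : ((∑ j, g j * u i j : ℤ) : ℚ) = N * ∑ j, x.1 j * (u i j : ℚ) := by
      push_cast
      rw [Finset.mul_sum]
      refine Finset.sum_congr rfl fun j _ => ?_
      rw [hg]
      ring
    have : (0 : ℚ) < ((∑ j, g j * u i j : ℤ) : ℚ) := by
      rw [e]
      exact mul_pos hN0 h2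
    exact_mod_cast this

end MldGeo
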