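import Pool.Agent.MldGeo.Stmts8
import Pool.Agent.MldGeo.Ord

/-!
# Toroidal valuations which are orders along vertical prime divisors
-/

namespace MldGeo

open MvPolynomial

noncomputable section

namespace HTV

theorem ip_add {m : ℕ} (w u u' : Fin m → ℤ) : ip w (u + u') = ip w u + ip w u' := by
  unfold ip
  rw [← Finset.sum_add_distrib]
  refine Finset.sum_congr rfl fun j _ => ?_
  rw [Pi.add_apply]
  ring

theorem ip_zero {m : ℕ} (w : Fin m → ℤ) : ip w 0 = 0 := by
  unfold ip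
  simp

theorem ip_nsmul {m : ℕ} (w u : Fin m → ℤ) (k : ℕ) : ip w (k • u) = k * ip w u := by
  induction k with
  | zero => rw [zero_smul, ip_zero]; simp
  | succ k ih =>
    rw [succ_nsmul, ip_add, ih]
    push_cast
    ring

theorem ip_sum {m : ℕ} {ι : Type} (s : Finset ι) (w : Fin m → ℤ) (u : ι → Fin m → ℤ) :
    ip w (∑ i ∈ s, u i) = ∑ i ∈ s, ip w (u i) := by
  classical
  induction s using Finset.induction_on with
  | empty => rw [Finset.sum_empty, Finset.sum_empty, ip_zero]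
  | insert i s hi ih => rw [Finset.sum_insert hi, Finset.sum_insert hi, ip_add, ih]

theorem chi_nsmul {n m : ℕ} {X : Germ n} {A : TorusAction X m} (S : Splitting A)
    (u : Fin m → ℤ) (k : ℕ) : S.χ (k • u) = S.χ u ^ k := by
  induction k with
  | zero => rw [zero_smul, S.zero, pow_zero]
  | succ k ih => rw [succ_nsmul, S.add, ih, pow_succ]

theorem chi_sum {n m : ℕ} {X : Germ n} {A : TorusAction X m} (S : Splitting A) {ι : Type}
    (s : Finset ι) (u : ι → Fin m → ℤ) : S.χ (∑ i ∈ s, u i) = ∏ i ∈ s, S.χ (u i) := by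
  classical
  induction s using Finset.induction_on with
  | empty => rw [Finset.sum_empty, Finset.prod_empty, S.zero]
  | insert i s hi ih => rw [Finset.sum_insert hi, Finset.prod_insert hi, S.add, ih]

theorem deg_smul {F : Type} [Field F] [Algebra ℂ F] (E : DivVal 1 F →₀ ℤ) (K : ℤ) :
    deg (K • E) = K * deg E := by
  unfold deg
  rw [Finsupp.sum_smul_index' fun _ => rfl]
  unfold Finsupp.sum
  rw [Finset.mul_sum]
  refine Finset.sum_congr rfl fun _ _ => ?_
  exact smul_eq_mul _ _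

/-- A toroidal valuation is the order along a prime divisor if there are enough homogeneous regular
functions of order zero with independent weights. -/
theorem residue {n m : ℕ} {X : Germ n} {A : TorusAction X m} (hHFK : Stmt_HFK) (S : Splitting A)
    (v : DivVal n X.K) (w : Fin m → ℤ) (l : ℤ) (y : DivVal 1 A.K0) (hv : IsTor S v w l y)
    {r : ℕ} (U : Fin r → (Fin m → ℤ)) (h : Fin r → A.K0) (hh : ∀ k, h k ≠ 0)
    (hU : LinearIndependent ℤ U) (h0 : ∀ k, l * y.ord (h k) + ip w (U k) = 0)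
    (hR : ∀ k, (h k : X.K) * S.χ (U k) ∈ X.R) (p : MvPolynomial (Fin r) ℂ) (hp : p ≠ 0) :
    (aeval (fun k => (⟨(h k : X.K) * S.χ (U k), hR k⟩ : X.R)) p : X.R) ≠ 0 ∧
      v.ord (aeval (fun k => (⟨(h k : X.K) * S.χ (U k), hR k⟩ : X.R)) p : X.R) = 0 := by
  classical
  obtain ⟨φ, hφ⟩ : ∃ φ : (Fin r →₀ ℕ) → (Fin m → ℤ), ∀ d, φ d = ∑ k, d k • U k :=
    ⟨fun d => ∑ k, d k • U k, fun _ => rfl⟩
  have hinj : ∀ d d', φ d = φ d' → d = d' := by
    intro d d' hd
    rw [hφ, hφ] at hd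
    have h1 : ∑ k, ((d k : ℤ) - d' k) • U k = 0 := by
      simp only [sub_smul, Finset.sum_sub_distrib]
      rw [sub_eq_zero]
      simp only [natCast_zsmul]
      exact hd
    have h2 := Fintype.linearIndependent_iff.1 hU _ h1
    ext k
    have h3 := h2 k
    omega
  obtain ⟨val, hval⟩ : ∃ val : (Fin r →₀ ℕ) → A.K0,
      ∀ d, val d = algebraMap ℂ A.K0 (coeff d p) * ∏ k, h k ^ d k :=
    ⟨fun d => algebraMap ℂ A.K0 (coeff d p) * ∏ k, h k ^ d k, fun _ => rfl⟩
  have hval0 : ∀ d ∈ p.support, val d ≠ 0 := by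
    intro d hd
    rw [hval]
    refine mul_ne_zero ?_ (Finset.prod_ne_zero_iff.2 fun k _ => pow_ne_zero _ (hh k))
    rw [Ne, map_eq_zero]
    exact mem_support_iff.1 hd
  have hvord : ∀ d ∈ p.support, l * y.ord (val d) + ip w (φ d) = 0 := by
    intro d hd
    have h1 : y.ord (val d) = ∑ k, (d k : ℤ) * y.ord (h k) := by
      rw [hval, DivVal.ord_const_mul y (mem_support_iff.1 hd),
        DivVal.ord_prod y _ _ fun k _ => pow_ne_zero _ (hh k)]
      refine Finset.sum_congr rfl fun k _ => ?_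
      rw [DivVal.ord_pow]
    rw [h1, hφ, ip_sum, Finset.mul_sum, ← Finset.sum_add_distrib]
    refine Finset.sum_eq_zero fun k _ => ?_
    rw [ip_nsmul]
    have h2 := h0 k
    linear_combination (d k : ℤ) * h2
  obtain ⟨b, hb⟩ : ∃ b : (Fin m → ℤ) → A.K0,
      ∀ z, b z = ∑ d ∈ p.support with φ d = z, val d :=
    ⟨fun z => ∑ d ∈ p.support with φ d = z, val d, fun _ => rfl⟩
  have hbφ : ∀ d ∈ p.support, b (φ d) = val d := by
    intro d hd
    rw [hb]
    have h1 : (p.support.filter fun d' => φ d' = φ d) = {d} := by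
      ext d'
      rw [Finset.mem_filter, Finset.mem_singleton]
      constructor
      · rintro ⟨-, h2⟩
        exact hinj _ _ h2
      · rintro rfl
        exact ⟨hd, rfl⟩
    rw [h1, Finset.sum_singleton]
  have hsum : ((aeval (fun k => (⟨(h k : X.K) * S.χ (U k), hR k⟩ : X.R)) p : X.R) : X.K) =
      ∑ z ∈ p.support.image φ, (b z : X.K) * S.χ z := by
    have h1 : ((aeval (fun k => (⟨(h k : X.K) * S.χ (U k), hR k⟩ : X.R)) p : X.R) : X.K) =
        aeval (fun k => (h k : X.K) * S.χ (U k)) p := by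
      have h2 := comp_aeval_apply (fun k => (⟨(h k : X.K) * S.χ (U k), hR k⟩ : X.R)) X.R.val p
      exact h2
    rw [h1, aeval_def, eval₂_eq']
    have h3 : ∀ d ∈ p.support, algebraMap ℂ X.K (coeff d p) *
        ∏ k, ((h k : X.K) * S.χ (U k)) ^ d k = (val d : X.K) * S.χ (φ d) := by
      intro d _
      rw [hval, hφ, chi_sum]
      simp only [chi_nsmul, mul_pow, Finset.prod_mul_distrib]
      push_cast
      rw [mul_assoc]
    rw [Finset.sum_congr rfl h3, ← Finset.sum_fiberwise_of_maps_to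
      (s := p.support) (t := p.support.image φ) (g := φ)
      fun d hd => Finset.mem_image_of_mem φ hd]
    refine Finset.sum_congr rfl fun z _ => ?_
    rw [hb]
    push_cast
    rw [Finset.sum_mul]
    refine Finset.sum_congr rfl fun d hd => ?_
    rw [(Finset.mem_filter.1 hd).2]
  obtain ⟨d₀, hd₀⟩ : p.support.Nonempty := support_nonempty.2 hp
  have hne : ∑ z ∈ p.support.image φ, (b z : X.K) * S.χ z ≠ 0 := by
    intro h1
    have h2 := (hHFK A S).2.1 _ b h1 (φ d₀) (Finset.mem_image_of_mem φ hd₀)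
    rw [hbφ d₀ hd₀] at h2
    exact hval0 d₀ hd₀ h2
  constructor
  · intro h1
    rw [h1, ZeroMemClass.coe_zero] at hsum
    exact hne hsum.symm
  · rw [hsum]
    have h1 := hv (p.support.image φ) b ⟨φ d₀, Finset.mem_image_of_mem φ hd₀, by
      rw [hbφ d₀ hd₀]
      exact hval0 d₀ hd₀⟩
    obtain ⟨z, hz, -, hz2⟩ := h1.1
    obtain ⟨d, hd, rfl⟩ := Finset.mem_image.1 hz
    rw [hbφ d hd, hvord d hd] at hz2
    exact hz2

end HTV

theorem t_HTV (hK0C : Stmt_K0C) (hSEC : Stmt_SEC) (hNOR : Stmt_NOR) (hTHR : Stmt_THR)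
    (hHT1 : Stmt_HT1) (hHFK : Stmt_HFK) : Stmt_HTV := by
  intro m X A S v w l y hl hv hnn u E hu hE hbd hval
  obtain ⟨γ, hγ⟩ := hSEC (hK0C A)
  obtain ⟨K, hK⟩ : ∃ K : ℕ, K = γ.toNat + 1 := ⟨_, rfl⟩
  have hK0 : 0 < K := by omega
  have hKγ : γ ≤ K := by omega
  have hex : ∀ k, ∃ f : A.K0, f ≠ 0 ∧ y.ord f = - (K * E k y) ∧
      ∀ y' : DivVal 1 A.K0, - (K * E k y') ≤ y'.ord f := by
    intro k
    have h1 : γ ≤ deg ((K : ℤ) • E k) := by
      rw [HTV.deg_smul]
      have := hE k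
      nlinarith
    obtain ⟨f, hf, hf1, hf2⟩ := hγ _ h1 y
    exact ⟨f, hf, hf1, hf2⟩
  choose h hh hord hge using hex
  have hR : ∀ k, (h k : X.K) * S.χ (K • u k) ∈ X.R := by
    intro k
    refine hNOR S (h k) (K • u k) (hh k) fun w' l' y' hl' hn => ?_
    rw [HTV.ip_nsmul]
    have h1 := hbd k w' l' y' hl' hn
    have h2 := mul_le_mul_of_nonneg_left (hge k y') hl'
    have h3 : (K : ℤ) * (l' * E k y') ≤ K * ip w' (u k) :=
      mul_le_mul_of_nonneg_left h1 (by positivity)
    nlinarith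
  have hU : LinearIndependent ℤ fun k => K • u k := by
    rw [Fintype.linearIndependent_iff] at hu ⊢
    intro g hg k
    refine hu g ?_ k
    have h1 : (K : ℤ) • ∑ k, g k • u k = 0 := by
      rw [Finset.smul_sum, ← hg]
      refine Finset.sum_congr rfl fun k _ => ?_
      rw [natCast_zsmul, smul_comm]
    exact (smul_eq_zero.1 h1).resolve_left (by exact_mod_cast hK0.ne')
  have h0 : ∀ k, l * y.ord (h k) + ip w (K • u k) = 0 := by
    intro k
    rw [HTV.ip_nsmul, hord, ← hval k]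
    ring
  have hthr := ((hTHR S v w l y).1 hv hnn).1
  refine hHT1 X v (Nat.succ_pos m) hthr.1 ⟨fun k => ⟨(h k : X.K) * S.χ (K • u k), hR k⟩, ?_⟩
  intro p hp
  exact HTV.residue hHFK S v w l y hv (fun k => K • u k) h hh hU h0 hR p hp

end

end MldGeo
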