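import Pool.Agent.MldGeo.Stmts7

/-!
# Rational polyhedra are sums of polytopes and of cones

Homogenization of the statement for cones.
-/

namespace MldGeo

open MldGap MldTv

noncomputable section

namespace MWP

/-- The pairing of vectors with an additional coordinate. -/
theorem pr_cons {m : ℕ} (t : ℝ) (w : Fin m → ℝ) (b : ℤ) (u : Fin m → ℤ) :
    pr (Fin.cons t w : Fin (m + 1) → ℝ) (Fin.cons b u : Fin (m + 1) → ℤ) = t * b + pr w u := by
  unfold pr
  rw [Fin.sum_univ_succ]
  simp

theorem pr_zero {m : ℕ} (w : Fin m → ℝ) : pr w 0 = 0 := by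
  unfold pr
  simp

theorem pr_add {m : ℕ} (w w' : Fin m → ℝ) (u : Fin m → ℤ) : pr (w + w') u = pr w u + pr w' u := by
  unfold pr
  rw [← Finset.sum_add_distrib]
  exact Finset.sum_congr rfl fun j _ => by rw [Pi.add_apply, add_mul]

theorem pr_sum {m : ℕ} {κ : Type} [Fintype κ] (a : κ → ℝ) (w : κ → Fin m → ℝ) (u : Fin m → ℤ) :
    pr (∑ j, a j • w j) u = ∑ j, a j * pr (w j) u := by
  unfold pr
  simp only [Finset.sum_apply, Pi.smul_apply, smul_eq_mul, Finset.sum_mul, Finset.mul_sum]
  rw [Finset.sum_comm]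
  exact Finset.sum_congr rfl fun j _ => Finset.sum_congr rfl fun i _ => by ring

/-- A sum as the sum of two sums over a subtype and its complement. -/
theorem sum_split {k : ℕ} (P : Fin k → Prop) [DecidablePred P] (f : Fin k → ℝ) :
    ∑ j, f j = ∑ x : Fin (Fintype.card {j // P j}),
      f ((Fintype.equivFin {j // P j}).symm x) + ∑ x : Fin (Fintype.card {j // ¬ P j}),
      f ((Fintype.equivFin {j // ¬ P j}).symm x) := by
  rw [← Fintype.sum_subtype_add_sum_subtype P f,
    ← Equiv.sum_comp (Fintype.equivFin {j // P j}).symm (fun x => f x),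
    ← Equiv.sum_comp (Fintype.equivFin {j // ¬ P j}).symm (fun x => f x)]

end MWP

/-- MWP. -/
theorem t_MWP (hMWC : Stmt_MWC) : Stmt_MWP := by
  classical
  intro m ι _ u b
  -- homogenization
  let u' : Option ι → Fin (m + 1) → ℤ := fun o =>
    Option.elim o (Fin.cons 1 0) fun i => Fin.cons (b i) (u i)
  obtain ⟨k, q, hq⟩ := hMWC u'
  have hsome : ∀ (t : ℝ) (w : Fin m → ℝ) (i : ι),
      pr (Fin.cons t w : Fin (m + 1) → ℝ) (u' (some i)) = t * b i + pr w (u i) := fun t w i =>
    MWP.pr_cons t w (b i) (u i)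
  have hnone : ∀ (t : ℝ) (w : Fin m → ℝ),
      pr (Fin.cons t w : Fin (m + 1) → ℝ) (u' none) = t := by
    intro t w
    have h := MWP.pr_cons t w 1 0
    rw [MWP.pr_zero, Int.cast_one, mul_one, add_zero] at h
    exact h
  -- the generators satisfy the inequalities
  have hgen : ∀ j o, 0 ≤ pr (toR (q j)) (u' o) := by
    intro j
    refine (hq (toR (q j))).2 ⟨Pi.single j 1, ?_, ?_⟩
    · intro i
      rw [Pi.single_apply]
      split_ifs <;> norm_num
    · rw [Finset.sum_eq_single j]
      · rw [Pi.single_eq_same, one_smul]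
      · intro i _ hi
        rw [Pi.single_eq_of_ne hi, zero_smul]
      · intro h
        exact absurd (Finset.mem_univ j) h
  have hcons : ∀ j, toR (q j) = Fin.cons (q j 0 : ℝ) (toR (fun i => q j i.succ)) := by
    intro j
    funext i
    refine Fin.cases ?_ (fun i => ?_) i
    · rfl
    · rfl
  have hq0 : ∀ j, 0 ≤ q j 0 := by
    intro j
    have h := hgen j none
    rw [hcons, hnone] at h
    exact_mod_cast h
  have hqi : ∀ j i, 0 ≤ (q j 0 : ℝ) * b i + pr (toR (fun i => q j i.succ)) (u i) := by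
    intro j i
    have h := hgen j (some i)
    rwa [hcons, hsome] at h
  let P : Fin k → Prop := fun j => 0 < q j 0
  let eP := Fintype.equivFin {j // P j}
  let eQ := Fintype.equivFin {j // ¬ P j}
  refine ⟨Fintype.card {j // P j}, Fintype.card {j // ¬ P j},
    fun x i => (q (eP.symm x) i.succ : ℚ) / (q (eP.symm x) 0 : ℚ),
    fun x i => q (eQ.symm x) i.succ, fun w => ⟨fun hw => ?_, ?_⟩⟩
  · -- a point of the polyhedron
    have h1 : ∀ o, 0 ≤ pr (Fin.cons 1 w : Fin (m + 1) → ℝ) (u' o) := by
      intro o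
      cases o with
      | none =>
        rw [hnone]
        exact zero_le_one
      | some i =>
        rw [hsome, one_mul, add_comm]
        exact hw i
    obtain ⟨d, hd, hwd⟩ := (hq _).1 h1
    have h2 : (1 : ℝ) = ∑ j, d j * (q j 0 : ℝ) := by
      have h := congrFun hwd 0
      rw [Fin.cons_zero, Finset.sum_apply] at h
      exact h
    have h3 : ∀ i : Fin m, w i = ∑ j, d j * (q j i.succ : ℝ) := by
      intro i
      have h := congrFun hwd i.succ
      rw [Fin.cons_succ, Finset.sum_apply] at h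
      exact h
    refine ⟨fun x => d (eP.symm x) * (q (eP.symm x) 0 : ℝ), fun x => d (eQ.symm x), ?_,
      fun x => hd _, ?_, ?_⟩
    · intro x
      exact mul_nonneg (hd _) (by exact_mod_cast hq0 _)
    · rw [h2, MWP.sum_split P fun j => d j * (q j 0 : ℝ)]
      have h4 : ∑ x : Fin (Fintype.card {j // ¬ P j}),
          d (eQ.symm x) * (q (eQ.symm x) 0 : ℝ) = 0 := by
        refine Finset.sum_eq_zero fun x _ => ?_
        have h5 : ¬ 0 < q (eQ.symm x) 0 := (eQ.symm x).2
        have h6 : q (eQ.symm x) 0 = 0 := le_antisymm (not_lt.1 h5) (hq0 _)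
        rw [h6, Int.cast_zero, mul_zero]
      exact (add_eq_left.2 h4).symm
    · funext i
      rw [h3 i, MWP.sum_split P fun j => d j * (q j i.succ : ℝ), Pi.add_apply, Finset.sum_apply,
        Finset.sum_apply]
      congr 1
      refine Finset.sum_congr rfl fun x _ => ?_
      have h5 : 0 < q (eP.symm x) 0 := (eP.symm x).2
      have h6 : (q (eP.symm x) 0 : ℝ) ≠ 0 := by exact_mod_cast h5.ne'
      rw [Pi.smul_apply, smul_eq_mul]
      push_cast
      show d (eP.symm x) * (q (eP.symm x) i.succ : ℝ) = d (eP.symm x) * (q (eP.symm x) 0 : ℝ) *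
        ((q (eP.symm x) i.succ : ℝ) / (q (eP.symm x) 0 : ℝ))
      field_simp
  · rintro ⟨a, d, ha, hd, hsum, hw⟩ i
    rw [hw, MWP.pr_add, MWP.pr_sum, MWP.pr_sum]
    have h1 : (b i : ℝ) = ∑ x, a x * (b i : ℝ) := by
      rw [← Finset.sum_mul, hsum, one_mul]
    rw [h1, add_right_comm, ← Finset.sum_add_distrib]
    refine add_nonneg (Finset.sum_nonneg fun x _ => ?_) (Finset.sum_nonneg fun x _ => ?_)
    · rw [← mul_add]
      refine mul_nonneg (ha x) ?_
      have h5 : 0 < q (eP.symm x) 0 := (eP.symm x).2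
      have h6 : (0 : ℝ) < (q (eP.symm x) 0 : ℝ) := by exact_mod_cast h5
      have h7 := hqi (eP.symm x) i
      have h8 : pr (fun i => (((q (eP.symm x) i.succ : ℚ) / (q (eP.symm x) 0 : ℚ) : ℚ) : ℝ)) (u i)
          = (1 / (q (eP.symm x) 0 : ℝ)) * pr (toR (fun i => q (eP.symm x) i.succ)) (u i) := by
        unfold pr toR
        rw [Finset.mul_sum]
        refine Finset.sum_congr rfl fun l _ => ?_
        push_cast
        ring
      rw [h8]
      have h9 : (1 / (q (eP.symm x) 0 : ℝ)) * pr (toR (fun i => q (eP.symm x) i.succ)) (u i) + b i =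
          (1 / (q (eP.symm x) 0 : ℝ)) * ((q (eP.symm x) 0 : ℝ) * b i +
            pr (toR (fun i => q (eP.symm x) i.succ)) (u i)) := by
        field_simp
        ring
      rw [h9]
      positivity
    · refine mul_nonneg (hd x) ?_
      have h5 : ¬ 0 < q (eQ.symm x) 0 := (eQ.symm x).2
      have h6 : q (eQ.symm x) 0 = 0 := le_antisymm (not_lt.1 h5) (hq0 _)
      have h7 := hqi (eQ.symm x) i
      rw [h6, Int.cast_zero, zero_mul, zero_add] at h7
      exact h7

end

end MldGeo
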