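import Pool.Agent.MldGeo.Ord

/-!
# Function fields of one variable: statements

`F` is a function field of one variable over `ℂ`; its places are the terms of `DivVal 1 F`.
-/

namespace MldGeo

noncomputable section

/-- `F` is a function field of one variable. -/
def IsCurve (F : Type) [Field F] [Algebra ℂ F] : Prop :=
  (∃ s : F, Transcendental ℂ s) ∧
    ∀ s : F, Transcendental ℂ s → FiniteDimensional (IntermediateField.adjoin ℂ {s}) F

/-- The degree of a divisor. -/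
def deg {F : Type} [Field F] [Algebra ℂ F] (E : DivVal 1 F →₀ ℤ) : ℤ := E.sum fun _ k => k

/-- RS1: the residue field of a place is `ℂ`. -/
def Stmt_RS1 : Prop :=
  ∀ {F : Type} [Field F] [Algebra ℂ F], IsCurve F → ∀ (y : DivVal 1 F) (a : F), y.Ge 0 a →
    ∃ c : ℂ, y.Ge 1 (a - algebraMap ℂ F c)

/-- DEG: the number of zeros of `s` is the degree of `F` over `ℂ(s)`. -/
def Stmt_DEG : Prop :=
  ∀ {F : Type} [Field F] [Algebra ℂ F], IsCurve F → ∀ s : F, Transcendental ℂ s →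
    ∃ P : Finset (DivVal 1 F), (∀ y, y ∈ P ↔ 0 < y.ord s) ∧
      ∑ y ∈ P, y.ord s = (Module.finrank (IntermediateField.adjoin ℂ {s}) F : ℤ)

/-- PRF: the product formula; functions without poles are constant; there are infinitely many
places. -/
def Stmt_PRF : Prop :=
  ∀ {F : Type} [Field F] [Algebra ℂ F], IsCurve F →
    (∀ f : F, f ≠ 0 → ∃ E : DivVal 1 F →₀ ℤ, (∀ y, E y = y.ord f) ∧ deg E = 0) ∧
    (∀ f : F, (∀ y : DivVal 1 F, y.Ge 0 f) → ∃ c : ℂ, f = algebraMap ℂ F c) ∧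
    ∀ P : Finset (DivVal 1 F), ∃ y, y ∉ P

/-- AFF: affine models. `S` is the ring of the functions which are regular wherever `s` is
regular. -/
def Stmt_AFF : Prop :=
  ∀ {F : Type} [Field F] [Algebra ℂ F], IsCurve F → ∀ s : F, Transcendental ℂ s →
    ∃ S : Subalgebra ℂ F, S.FG ∧ s ∈ S ∧
      (∀ y : DivVal 1 F, y.Ge 0 s → ∀ a ∈ S, y.Ge 0 a) ∧
      ∀ y : DivVal 1 F, y.Ge 0 s → ∀ a : F, y.Ge 0 a → ∃ r ∈ S, ∃ q ∈ S, q ≠ 0 ∧ y.ord q = 0 ∧
        a * q = r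

/-- RIE: Riemann's inequality. There are at least `deg E - γ` linearly independent functions `f`
with `div f + E ≥ 0`. -/
def Stmt_RIE : Prop :=
  ∀ {F : Type} [Field F] [Algebra ℂ F], IsCurve F →
    ∃ γ : ℤ, ∀ (E : DivVal 1 F →₀ ℤ) (k : ℕ), (k : ℤ) + γ ≤ deg E →
      ∃ f : Fin k → F, LinearIndependent ℂ f ∧ ∀ i (y : DivVal 1 F), y.Ge (-E y) (f i)

/-- SEC: divisors of large degree have no base points. -/
def Stmt_SEC : Prop :=
  ∀ {F : Type} [Field F] [Algebra ℂ F], IsCurve F →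
    ∃ γ : ℤ, ∀ E : DivVal 1 F →₀ ℤ, γ ≤ deg E → ∀ y : DivVal 1 F,
      ∃ f : F, f ≠ 0 ∧ y.ord f = - E y ∧ ∀ y' : DivVal 1 F, - E y' ≤ y'.ord f

/-- DLO: derivations and places. If `D ≠ 0` and `t` is a uniformizer at `y`, then `D t ≠ 0`, the
derivation `D / D t` preserves the functions which are regular at `y`, and the order of `D t` does
not depend on `t`. The constants of `D` are the elements of `ℂ`. -/
def Stmt_DLO : Prop :=
  ∀ {F : Type} [Field F] [Algebra ℂ F], IsCurve F → ∀ D : Derivation ℂ F F, D ≠ 0 →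
    (∀ a : F, D a = 0 → ∃ c : ℂ, a = algebraMap ℂ F c) ∧
    (∀ (y : DivVal 1 F) (t : F), y.ord t = 1 → D t ≠ 0 ∧ ∀ a : F, y.Ge 0 a → y.Ge 0 (D a / D t)) ∧
    ∀ (y : DivVal 1 F) (t t' : F), y.ord t = 1 → y.ord t' = 1 → y.ord (D t) = y.ord (D t')

/-- CAN: the canonical divisor. -/
def Stmt_CAN : Prop :=
  ∀ {F : Type} [Field F] [Algebra ℂ F], IsCurve F → ∀ D : Derivation ℂ F F, D ≠ 0 →
    ∃ κ : DivVal 1 F →₀ ℤ, ∀ (y : DivVal 1 F) (t : F), y.ord t = 1 → y.ord (D t) = - κ y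

/-- WRO: the Wronskian. -/
def Stmt_WRO : Prop :=
  ∀ {F : Type} [Field F] [Algebra ℂ F] (D : Derivation ℂ F F),
    (∀ a : F, D a = 0 → ∃ c : ℂ, a = algebraMap ℂ F c) → ∀ (k : ℕ) (f : Fin k → F),
    LinearIndependent ℂ f →
      (Matrix.of fun i j : Fin k => (D : F → F)^[(i : ℕ)] (f j)).det ≠ 0

/-- WRB: the order of the Wronskian at a place. -/
def Stmt_WRB : Prop :=
  ∀ {F : Type} [Field F] [Algebra ℂ F] (D : Derivation ℂ F F) (y : DivVal 1 F) (t : F),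
    y.ord t = 1 → D t ≠ 0 → (∀ a : F, y.Ge 0 a → y.Ge 0 (D a / D t)) →
    ∀ (r : ℕ) (f : Fin (r + 1) → F) (e : ℤ), (∀ j, y.Ge e (f j)) →
      y.Ge ((r + 1) * e + (∑ i ∈ Finset.range (r + 1), (i : ℤ)) * y.ord (D t))
        (Matrix.of fun i j : Fin (r + 1) => (D : F → F)^[(i : ℕ)] (f j)).det

/-- DGK: the degree of the canonical divisor is at least `-2`. -/
def Stmt_DGK : Prop :=
  ∀ {F : Type} [Field F] [Algebra ℂ F], IsCurve F → ∀ D : Derivation ℂ F F, D ≠ 0 →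
    ∀ κ : DivVal 1 F →₀ ℤ, (∀ (y : DivVal 1 F) (t : F), y.ord t = 1 → y.ord (D t) = - κ y) →
      -2 ≤ deg κ

end

end MldGeo
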