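import Pool.Agent.MldGeo.Stmts2

/-!
# Affine space with a boundary supported on the coordinate hyperplanes
-/

namespace MldGeo

noncomputable section

/-- The coefficients of `B` at the prime divisors through `x` are hyperstandard with respect to
`(1/q)ℤ ∩ [0,1]`: of the form `1 - (c/q)/m` with `0 ≤ c ≤ q` and `m ≥ 1`. For `q = 1` these are the
standard coefficients `1 - 1/m`, `m ∈ {1, 2, …, ∞}`. -/
def Triple.Hyperstandard {n : ℕ} {X : Germ n} (T : Triple X) (q : ℕ) : Prop :=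
  ∀ P b, T.Coeff P b → ∃ c m : ℕ, c ≤ q ∧ 0 < m ∧ b = 1 - (c : ℝ) / q / m

/-- EXA: affine space with the boundary `∑ (1 - 1/mᵢ) Hᵢ`, `Hᵢ` the coordinate hyperplanes. -/
def Stmt_EXA : Prop :=
  ∀ {n : ℕ} (m : Fin n → ℕ), 0 < n → (∀ i, 0 < m i) →
    ∃ (X : Germ n) (A : TorusAction X n) (T : Triple X), IsEmpty T.J ∧ A.InvTriple T ∧
      T.Hyperstandard 1 ∧ T.mld = ∑ i, 1 / (m i : ℝ)

end

end MldGeo
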