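import Pool.Agent.MldTv.Defs

/-!
# Rational polyhedra: statements

Double description of rational cones and polyhedra, minimal systems of generators, normal cones, and
the construction of `MldTv.TVar` from the weights of generators of the ring.
-/

namespace MldGeo

open MldGap MldTv

noncomputable section

/-- The pairing of a real vector and of a character. -/
def pr {m : ℕ} (w : Fin m → ℝ) (u : Fin m → ℤ) : ℝ := ∑ j, w j * u j

/-- The integral vector as a real vector. -/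
def toR {m : ℕ} (w : Fin m → ℤ) : Fin m → ℝ := fun j => (w j : ℝ)

/-- MWC: a rational cone given by inequalities is generated by finitely many integral vectors. -/
def Stmt_MWC : Prop :=
  ∀ {m : ℕ} {ι : Type} [Fintype ι] (u : ι → Fin m → ℤ),
    ∃ (k : ℕ) (q : Fin k → Fin m → ℤ), ∀ w : Fin m → ℝ,
      (∀ i, 0 ≤ pr w (u i)) ↔ ∃ d : Fin k → ℝ, (∀ j, 0 ≤ d j) ∧ w = ∑ j, d j • toR (q j)

/-- MWP: a rational polyhedron given by inequalities is the sum of the convex hull of finitely many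
rational points and of a cone generated by finitely many integral vectors. -/
def Stmt_MWP : Prop :=
  ∀ {m : ℕ} {ι : Type} [Fintype ι] (u : ι → Fin m → ℤ) (b : ι → ℤ),
    ∃ (k l : ℕ) (p : Fin k → Fin m → ℚ) (q : Fin l → Fin m → ℤ), ∀ w : Fin m → ℝ,
      (∀ i, 0 ≤ pr w (u i) + b i) ↔ ∃ (a : Fin k → ℝ) (d : Fin l → ℝ), (∀ j, 0 ≤ a j) ∧
        (∀ j, 0 ≤ d j) ∧ ∑ j, a j = 1 ∧
        w = ∑ j, a j • (fun i => ((p j i : ℚ) : ℝ)) + ∑ j, d j • toR (q j)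

/-- MNR: primitive and minimal systems of generators of strongly convex rational cones. -/
def Stmt_MNR : Prop :=
  ∀ {m l : ℕ} (q : Fin l → Fin m → ℤ) (f : (Fin m → ℝ) →ₗ[ℝ] ℝ), (∀ j, q j ≠ 0 → 0 < f (toR (q j))) →
    ∃ (k : ℕ) (r : Fin k → Fin m → ℤ),
      (∀ j (t : ℝ), 0 < t → (∃ z : Fin m → ℤ, t • toR (r j) = toR z) → 1 ≤ t) ∧
      (∀ j, 0 < f (toR (r j))) ∧
      (∀ j, ¬ ∃ a : Fin k → ℝ, (∀ i, 0 ≤ a i) ∧ a j = 0 ∧ toR (r j) = ∑ i, a i • toR (r i)) ∧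
      coneOf (fun j => toR (r j)) = coneOf (fun j => toR (q j))

/-- MNV: minimal systems of points. -/
def Stmt_MNV : Prop :=
  ∀ {m l : ℕ} {R : Type} [Fintype R] (p : Fin l → Fin m → ℝ) (ray : R → Fin m → ℝ), 0 < l →
    ∃ (k : ℕ) (f : Fin k → Fin l), 0 < k ∧
      (∀ i, ¬ ∃ (a : Fin k → ℝ) (d : R → ℝ), (∀ j, 0 ≤ a j) ∧ (∀ j, 0 ≤ d j) ∧
        ∑ j, a j = 1 ∧ a i = 0 ∧ p (f i) = ∑ j, a j • p (f j) + ∑ j, d j • ray j) ∧
      ∀ w : Fin m → ℝ,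
        (∃ (a : Fin l → ℝ) (d : R → ℝ), (∀ j, 0 ≤ a j) ∧ (∀ j, 0 ≤ d j) ∧ ∑ j, a j = 1 ∧
          w = ∑ j, a j • p j + ∑ j, d j • ray j) ↔
        (∃ (a : Fin k → ℝ) (d : R → ℝ), (∀ j, 0 ≤ a j) ∧ (∀ j, 0 ≤ d j) ∧ ∑ j, a j = 1 ∧
          w = ∑ j, a j • p (f j) + ∑ j, d j • ray j)

/-- TVC: construction of the combinatorial datum. `u i` is the weight of the generator `i` of the
ring, `e i y` the order of its coefficient at the point `y` of the curve. -/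
def Stmt_TVC : Prop :=
  ∀ {m : ℕ} {ι Y : Type} [Fintype ι] [Fintype Y] [DecidableEq Y] (u : ι → Fin m → ℤ)
    (e : ι → Y → ℤ), 2 ≤ Fintype.card Y →
    (∀ w : Fin m → ℝ, (∀ i, pr w (u i) = 0) → w = 0) → (∃ w : Fin m → ℝ, ∀ i, 0 < pr w (u i)) →
    (∀ i, ∑ y, e i y = 0) →
    (∀ p : Y → Fin m → ℝ, (∀ y i, 0 ≤ pr (p y) (u i) + e i y) → ∑ y, p y ≠ 0) →
    ∀ idx : ℕ, idx ≤ 2 →
    ∃ (X : TVar m 1) (φ : X.Y ≃ Y), X.idx = idx ∧ (∀ y, X.deg y = 1) ∧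
      (∀ w : Fin m → ℝ, w ∈ X.N ↔ ∃ z : Fin m → ℤ, w = toR z) ∧
      ∀ (y : Y) (k : ℝ), 0 ≤ k → ∀ w : Fin m → ℝ,
        w ∈ X.poly (fun y' => if φ y' = y then k else 0) ↔ ∀ i, 0 ≤ pr w (u i) + k * e i y

/-- INT: the interior. -/
def Stmt_INT : Prop :=
  ∀ {m : ℕ} {ι : Type} [Fintype ι] (u : ι → Fin m → ℤ) (b : ι → ℝ), (∀ i, u i ≠ 0) →
    interior {w : Fin m → ℝ | ∀ i, 0 ≤ pr w (u i) + b i} = {w | ∀ i, 0 < pr w (u i) + b i}

/-- NRV: the normal cones of the vertices are full dimensional. -/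
def Stmt_NRV : Prop :=
  ∀ {m c : ℕ} (X : TVar m c), (∀ w : Fin m → ℝ, w ∈ X.N ↔ ∃ z : Fin m → ℤ, w = toR z) →
    ∀ (y : X.Y) (i : X.I y), ∃ u : Fin m → (Fin m → ℤ), LinearIndependent ℤ u ∧
      ∀ k, (∀ j, 0 < pr (X.ray j) (u k)) ∧
        ∀ i', i' ≠ i → pr (X.vert y i) (u k) < pr (X.vert y i') (u k)

/-- NRR: the facets dual to the rays. -/
def Stmt_NRR : Prop :=
  ∀ {m c : ℕ} (X : TVar m c), (∀ w : Fin m → ℝ, w ∈ X.N ↔ ∃ z : Fin m → ℤ, w = toR z) →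
    ∀ j : X.R, ∃ u : Fin (m - 1) → (Fin m → ℤ), LinearIndependent ℤ u ∧
      ∀ k, pr (X.ray j) (u k) = 0 ∧ ∀ j', j' ≠ j → 0 < pr (X.ray j') (u k)

/-- ATT: an attractive grading. If no nonzero integral combination with nonnegative coefficients of
the `u i` is zero, then there is a vector on which all are positive. -/
def Stmt_ATT : Prop :=
  ∀ {m : ℕ} {ι : Type} [Fintype ι] (u : ι → Fin m → ℤ),
    (∀ a : ι → ℕ, ∑ i, (a i : ℤ) • u i = 0 → a = 0) → ∃ w : Fin m → ℤ, ∀ i, 0 < ∑ j, w j * u i j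

end

end MldGeo
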