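import Pool.Agent.MldGeo.Stmts4
import Pool.Agent.MldGeo.Stmts5
import Pool.Agent.MldGeo.Stmts6
import Pool.Agent.MldGeo.Stmts7

/-!
# Varieties with torus action of complexity one: statements about valuations
-/

namespace MldGeo

open MvPolynomial

noncomputable section

/-- The integral pairing. -/
def ip {m : ℕ} (w u : Fin m → ℤ) : ℤ := ∑ j, w j * u j

section

variable {n m : ℕ} {X : Germ n} {A : TorusAction X m} (S : Splitting A) (v : DivVal n X.K)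
  (w : Fin m → ℤ) (l : ℤ) (y : DivVal 1 A.K0)

/-- On homogeneous functions `v` is given by `(w, l, y)`. -/
def Along : Prop :=
  ∀ (b : A.K0) (u : Fin m → ℤ), b ≠ 0 → v.ord ((b : X.K) * S.χ u) = l * y.ord b + ip w u

/-- `v` is the toroidal valuation `(w, l, y)`: the order of a sum of homogeneous functions of
different weights is the least order. -/
def IsTor : Prop :=
  ∀ (s : Finset (Fin m → ℤ)) (b : (Fin m → ℤ) → A.K0), (∃ u ∈ s, b u ≠ 0) →
    IsLeast {k : ℤ | ∃ u ∈ s, b u ≠ 0 ∧ k = l * y.ord (b u) + ip w u}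
      (v.ord (∑ u ∈ s, (b u : X.K) * S.χ u))

/-- `(w, l, y)` is nonnegative on the regular functions. -/
def NonnegR : Prop :=
  ∀ (b : A.K0) (u : Fin m → ℤ), b ≠ 0 → (b : X.K) * S.χ u ∈ X.R → 0 ≤ l * y.ord b + ip w u

/-- `(w, l, y)` is positive on the regular functions of nonzero weight. -/
def PosR : Prop :=
  ∀ (b : A.K0) (u : Fin m → ℤ), b ≠ 0 → u ≠ 0 → (b : X.K) * S.χ u ∈ X.R →
    0 < l * y.ord b + ip w u

/-- `(w, l)` is primitive. -/
def Primv : Prop := ∃ (a : ℤ) (u : Fin m → ℤ), l * a + ip w u = 1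

end

/-- The invariant form `dlog s ∧ dlog χ₁ ∧ … ∧ dlog χ_m`. -/
def form0 {m : ℕ} {X : Germ (m + 1)} {A : TorusAction X m} (S : Splitting A) (s : A.K0) :
    Forms (m + 1) X.K :=
  dlogs (Fin.cons (s : X.K) fun i => S.χ (Pi.single i 1))

/-- K0C: the field of invariants is a function field of one variable. -/
def Stmt_K0C : Prop := ∀ {m : ℕ} {X : Germ (m + 1)} (A : TorusAction X m), IsCurve A.K0

/-- DER: derivations of a function field of one variable. -/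
def Stmt_DER : Prop :=
  ∀ {F : Type} [Field F] [Algebra ℂ F], IsCurve F → ∀ s : F, Transcendental ℂ s →
    ∃ D : Derivation ℂ F F, D s = 1 ∧ ∀ t : F,
      KaehlerDifferential.D ℂ F t = D t • KaehlerDifferential.D ℂ F s

/-- RSV: the restriction of a valuation to the homogeneous functions. -/
def Stmt_RSV : Prop :=
  ∀ {m : ℕ} {X : Germ (m + 1)} {A : TorusAction X m} (S : Splitting A) (v : DivVal (m + 1) X.K),
    ∃ (w : Fin m → ℤ) (l : ℤ) (y : DivVal 1 A.K0), 0 ≤ l ∧ Along S v w l y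

/-- TOX: toroidal valuations exist. -/
def Stmt_TOX : Prop :=
  ∀ {m : ℕ} {X : Germ (m + 1)} {A : TorusAction X m} (S : Splitting A) (w : Fin m → ℤ) (l : ℤ)
    (y : DivVal 1 A.K0), 0 ≤ l → Primv w l → ∃ v : DivVal (m + 1) X.K, IsTor S v w l y

/-- MNL: the order of a logarithmic form in monomial coordinates. -/
def Stmt_MNL : Prop :=
  ∀ {m : ℕ} {K : Type} [Field K] [Algebra ℂ K], Algebra.trdeg ℂ K = ((m + 1 : ℕ) : Cardinal) →
    ∀ (v : DivVal (m + 1) K) (x : Fin (m + 1) → K), (∀ i, x i ≠ 0) →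
    (∃ e : Fin (m + 1) → ℤ, ∑ i, e i * v.ord (x i) = 1) →
    (∀ (s : Finset (Fin (m + 1) → ℤ)) (c : (Fin (m + 1) → ℤ) → ℂ), (∃ e ∈ s, c e ≠ 0) →
      (∀ e ∈ s, ∑ i, e i * v.ord (x i) = 0) →
      ∑ e ∈ s, algebraMap ℂ K (c e) * ∏ i, x i ^ (e i) ≠ 0 ∧
      v.ord (∑ e ∈ s, algebraMap ℂ K (c e) * ∏ i, x i ^ (e i)) = 0) →
    v.logOrd (dlogs x) = 0

/-- LGO: the order of the invariant form. -/
def Stmt_LGO : Prop :=
  ∀ {m : ℕ} {X : Germ (m + 1)} {A : TorusAction X m} (S : Splitting A) (s : A.K0),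
    Transcendental ℂ s → ∀ D : Derivation ℂ A.K0 A.K0,
    (D s = 1 ∧ ∀ t : A.K0, KaehlerDifferential.D ℂ A.K0 t = D t • KaehlerDifferential.D ℂ A.K0 s) →
    ∀ κ : DivVal 1 A.K0 → ℤ, (∀ (y : DivVal 1 A.K0) (t : A.K0), y.ord t = 1 →
      y.ord (D t) = - κ y) →
    form0 S s ≠ 0 ∧
    (∀ v w l y, 0 ≤ l → IsTor S v w l y → v.logOrd (form0 S s) = l * (1 - y.ord s + κ y)) ∧
    ∀ v w l y, 0 ≤ l → Along S v w l y → l * (1 - y.ord s + κ y) ≤ v.logOrd (form0 S s)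

/-- RD1: the log discrepancies of the toroidal valuations, and a lower bound for the others. -/
def Stmt_RD1 : Prop :=
  ∀ {m : ℕ} {X : Germ (m + 1)} {A : TorusAction X m} (S : Splitting A) (s : A.K0),
    Transcendental ℂ s → ∀ D : Derivation ℂ A.K0 A.K0,
    (D s = 1 ∧ ∀ t : A.K0, KaehlerDifferential.D ℂ A.K0 t = D t • KaehlerDifferential.D ℂ A.K0 s) →
    ∀ κ : DivVal 1 A.K0 →₀ ℤ, (∀ (y : DivVal 1 A.K0) (t : A.K0), y.ord t = 1 →
      y.ord (D t) = - κ y) →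
    ∀ T : Triple X, A.InvTriple T →
    ∃ (ψ : Fin m → ℝ) (α : DivVal 1 A.K0 → ℝ) (P : Finset (DivVal 1 A.K0)),
      (∀ y, y ∉ P → α y = 1) ∧ ∑ y ∈ P, (1 - α y) = - (deg κ : ℝ) ∧
      (∀ v w l y, 0 ≤ l → IsTor S v w l y → X.Through v →
        T.logDisc v = ∑ i, ψ i * w i + l * α y) ∧
      ∀ v w l y, 0 ≤ l → Along S v w l y → X.Through v →
        ∑ i, ψ i * w i + l * α y ≤ T.logDisc v

/-- GEN: homogeneous generators of the ring of regular functions; the weights span and they are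
positive on a one-parameter subgroup. -/
def Stmt_GEN : Prop :=
  ∀ {n m : ℕ} {X : Germ n} {A : TorusAction X m} (S : Splitting A),
    ∃ (N : ℕ) (u : Fin N → Fin m → ℤ) (b : Fin N → A.K0),
      (∀ i, b i ≠ 0) ∧ (∀ i, (b i : X.K) * S.χ (u i) ∈ X.R) ∧
      (∀ a ∈ X.R, a ∈ Algebra.adjoin ℂ (Set.range fun i => (b i : X.K) * S.χ (u i))) ∧
      (∀ w : Fin m → ℝ, (∀ i, pr w (u i) = 0) → w = 0) ∧ ∃ w : Fin m → ℤ, ∀ i, 0 < ip w (u i)

/-- NNG: it is enough to test the generators. -/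
def Stmt_NNG : Prop :=
  ∀ {n m : ℕ} {X : Germ n} {A : TorusAction X m} (S : Splitting A) (N : ℕ)
    (u : Fin N → Fin m → ℤ) (b : Fin N → A.K0), (∀ i, b i ≠ 0) →
    (∀ i, (b i : X.K) * S.χ (u i) ∈ X.R) →
    (∀ a ∈ X.R, a ∈ Algebra.adjoin ℂ (Set.range fun i => (b i : X.K) * S.χ (u i))) →
    ∀ (w : Fin m → ℤ) (l : ℤ) (y : DivVal 1 A.K0), 0 ≤ l →
      ((∀ i, 0 ≤ l * y.ord (b i) + ip w (u i)) → NonnegR S w l y) ∧
      ((∀ i, 0 < l * y.ord (b i) + ip w (u i)) → PosR S w l y)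

/-- THR: the centre of a toroidal valuation. -/
def Stmt_THR : Prop :=
  ∀ {n m : ℕ} {X : Germ n} {A : TorusAction X m} (S : Splitting A) (v : DivVal n X.K)
    (w : Fin m → ℤ) (l : ℤ) (y : DivVal 1 A.K0),
    (IsTor S v w l y → NonnegR S w l y → X.Through v ∧ (PosR S w l y → X.At v)) ∧
    (Along S v w l y → (∀ a : X.R, 0 ≤ v.ord a) → NonnegR S w l y ∧ (X.At v → PosR S w l y)) ∧
    (X.At v → X.Through v)

/-- NOR: a homogeneous function which is nonnegative along all `(w, l, y)` which are nonnegative on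
the regular functions is regular. -/
def Stmt_NOR : Prop :=
  ∀ {m : ℕ} {X : Germ (m + 1)} {A : TorusAction X m} (S : Splitting A) (b : A.K0)
    (u : Fin m → ℤ), b ≠ 0 →
    (∀ (w : Fin m → ℤ) (l : ℤ) (y : DivVal 1 A.K0), 0 ≤ l → NonnegR S w l y →
      0 ≤ l * y.ord b + ip w u) → (b : X.K) * S.χ u ∈ X.R

/-- PRO: the polyhedral divisor is proper. -/
def Stmt_PRO : Prop :=
  ∀ {m : ℕ} {X : Germ (m + 1)} {A : TorusAction X m} (S : Splitting A) (N : ℕ)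
    (u : Fin N → Fin m → ℤ) (b : Fin N → A.K0), (∀ i, b i ≠ 0) →
    (∀ i, (b i : X.K) * S.χ (u i) ∈ X.R) →
    (∀ a ∈ X.R, a ∈ Algebra.adjoin ℂ (Set.range fun i => (b i : X.K) * S.χ (u i))) →
    ∀ (P : Finset (DivVal 1 A.K0)), (∀ y, y ∉ P → ∀ i, y.ord (b i) = 0) →
    ∀ p : DivVal 1 A.K0 → Fin m → ℝ, (∀ y ∈ P, ∀ i, 0 ≤ pr (p y) (u i) + y.ord (b i)) →
      ∑ y ∈ P, p y ≠ 0

/-- IDL: the order of an invariant ideal. -/
def Stmt_IDL : Prop :=
  ∀ {n m : ℕ} {X : Germ n} {A : TorusAction X m} (S : Splitting A) (I : Ideal X.R), I ≠ ⊥ →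
    A.Inv I → ∃ (N : ℕ) (z : Fin N → Fin m → ℤ) (c : Fin N → A.K0), 0 < N ∧ (∀ j, c j ≠ 0) ∧
      (∀ j, (c j : X.K) * S.χ (z j) ∈ X.R) ∧
      ∀ v w l y, (∀ a : X.R, 0 ≤ v.ord a) → Along S v w l y →
        IsLeast {k : ℤ | ∃ j, k = l * y.ord (c j) + ip w (z j)} (idealOrd v I)

/-- HTV: toroidal valuations which are orders along vertical prime divisors. -/
def Stmt_HTV : Prop :=
  ∀ {m : ℕ} {X : Germ (m + 1)} {A : TorusAction X m} (S : Splitting A)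
    (v : DivVal (m + 1) X.K) (w : Fin m → ℤ) (l : ℤ) (y : DivVal 1 A.K0), 0 < l →
    IsTor S v w l y → NonnegR S w l y → ∀ (u : Fin m → (Fin m → ℤ))
    (E : Fin m → (DivVal 1 A.K0 →₀ ℤ)), LinearIndependent ℤ u → (∀ k, 0 < deg (E k)) →
    (∀ k w' l' y', 0 ≤ l' → NonnegR S w' l' y' → l' * E k y' ≤ ip w' (u k)) →
    (∀ k, l * E k y = ip w (u k)) → ∃ P : Ideal X.R, X.IsOrdAlong v P

/-- HTR: toroidal valuations which are orders along horizontal prime divisors. -/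
def Stmt_HTR : Prop :=
  ∀ {m : ℕ} {X : Germ (m + 1)} {A : TorusAction X m} (S : Splitting A)
    (v : DivVal (m + 1) X.K) (w : Fin m → ℤ) (y : DivVal 1 A.K0), 2 ≤ m →
    IsTor S v w 0 y → NonnegR S w 0 y → ∀ (u : Fin (m - 1) → (Fin m → ℤ))
    (E : Fin (m - 1) → (DivVal 1 A.K0 →₀ ℤ)), LinearIndependent ℤ u → (∀ k, 0 < deg (E k)) →
    (∀ k w' l' y', 0 ≤ l' → NonnegR S w' l' y' → l' * E k y' ≤ ip w' (u k)) →
    (∀ k, ip w (u k) = 0) → ∃ P : Ideal X.R, X.IsOrdAlong v P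

/-- CRS: restriction of the action to a subtorus of codimension one. -/
def Stmt_CRS : Prop :=
  ∀ {m : ℕ} {X : Germ (m + 1)}, 0 < m → ∀ A : TorusAction X (m + 1),
    ∃ A' : TorusAction X m, ∀ I : Ideal X.R, A.Inv I → A'.Inv I

end

end MldGeo
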