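import Pool.Agent.MldGeo.StmtsQ

/-!
# Basic properties of the images of the characters in the field of Laurent series
-/

namespace MldGeo

open MldGap MldAcc MldQ

noncomputable section

namespace CH1

/-! ### logarithmic derivatives -/

section LD

variable {K : Type*} [Field K] [Algebra ℂ K]

/-- `c` is the logarithmic derivative of `y`. -/
def LD (D : Derivation ℂ K K) (y c : K) : Prop := D y = c * y

variable {D : Derivation ℂ K K}

theorem LD.mul {y z c c' : K} (h : LD D y c) (h' : LD D z c') : LD D (y * z) (c + c') := by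
  unfold LD at *
  rw [Derivation.leibniz, h, h', smul_eq_mul, smul_eq_mul]
  ring

theorem LD.const (c : ℂ) : LD D (algebraMap ℂ K c) 0 := by
  unfold LD
  rw [Derivation.map_algebraMap, zero_mul]

theorem LD.one : LD D 1 0 := by
  unfold LD
  rw [Derivation.map_one_eq_zero, zero_mul]

theorem LD.pow {y c : K} (h : LD D y c) (k : ℕ) : LD D (y ^ k) (k * c) := by
  induction k with
  | zero =>
    rw [pow_zero, Nat.cast_zero, zero_mul]
    exact LD.one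
  | succ k ih =>
    have h1 := ih.mul h
    rw [pow_succ]
    have h2 : (((k + 1 : ℕ) : K)) * c = k * c + c := by
      push_cast
      ring
    rw [h2]
    exact h1

theorem LD.inv {y c : K} (h : LD D y c) : LD D y⁻¹ (-c) := by
  unfold LD at *
  rw [Derivation.leibniz_inv, h, smul_eq_mul]
  by_cases hy : y = 0
  · rw [hy]
    simp
  · field_simp

theorem LD.zpow {y c : K} (h : LD D y c) (k : ℤ) : LD D (y ^ k) (k * c) := by
  rcases k with k | k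
  · have h1 := h.pow k
    rw [Int.ofNat_eq_natCast, zpow_natCast, Int.cast_natCast]
    exact h1
  · have h1 := (h.pow (k + 1)).inv
    rw [zpow_negSucc, Int.cast_negSucc, neg_mul]
    exact h1

theorem LD.prod {ι : Type*} (s : Finset ι) (y c : ι → K) (h : ∀ i ∈ s, LD D (y i) (c i)) :
    LD D (∏ i ∈ s, y i) (∑ i ∈ s, c i) := by
  classical
  induction s using Finset.induction_on with
  | empty =>
    rw [Finset.prod_empty, Finset.sum_empty]
    exact LD.one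
  | insert a s ha ih =>
    rw [Finset.prod_insert ha, Finset.sum_insert ha]
    exact (h a (Finset.mem_insert_self a s)).mul (ih fun i hi => h i (Finset.mem_insert_of_mem hi))

end LD

variable {n : ℕ} (Q : Setup n)

theorem cpair_zero (y : Fin n → ℂ) : cpair 0 y = 0 := by
  simp [cpair]

theorem cpair_add (m m' : Fin n → ℤ) (y : Fin n → ℂ) :
    cpair (m + m') y = cpair m y + cpair m' y := by
  unfold cpair
  rw [← Finset.sum_add_distrib]
  refine Finset.sum_congr rfl fun i _ => ?_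
  rw [Pi.add_apply]
  push_cast
  ring

theorem Z_zero : Q.Z 0 = 0 := by
  unfold Setup.Z
  refine Finset.sum_eq_zero fun i _ => ?_
  rw [cpair_zero, map_zero, zero_mul]

theorem Z_add (m m' : Fin n → ℤ) : Q.Z (m + m') = Q.Z m + Q.Z m' := by
  unfold Setup.Z
  rw [← Finset.sum_add_distrib]
  refine Finset.sum_congr rfl fun i _ => ?_
  rw [cpair_add, map_add, add_mul]

theorem x_ne (i : Fin Q.p ⊕ Fin Q.q) : Q.x i ≠ 0 := Q.x_ind.ne_zero i

theorem ge_emb (a : Q.F) : Q.Λ.Ge 0 (Q.Λ.emb a) := by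
  by_cases h : a = 0
  · rw [h, map_zero]
    exact Or.inl rfl
  · exact Or.inr (Q.Λ.ord_emb a h).ge

theorem ge_pow (k : ℕ) (hk : 0 < k) : Q.Λ.Ge 1 (Q.Λ.s ^ k) := by
  have h1 : Q.Λ.Ge 1 Q.Λ.s := Or.inr Q.Λ.ord_s.ge
  refine (DivVal.Ge.pow h1 k).mono ?_
  rw [mul_one]
  exact_mod_cast hk

theorem ge_Z (m : Fin n → ℤ) : Q.Λ.Ge 1 (Q.Z m) :=
  DivVal.Ge.sum _ _ fun i _ => DivVal.Ge.const_mul
    (DivVal.Ge.mul_left (ge_emb Q _) (ge_pow Q _ (Q.a_pos i))) _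

theorem ex_spec (m : Fin n → ℤ) : Q.ex.ex (Q.Z m) ≠ 0 ∧ Q.Λ.ord (Q.ex.ex (Q.Z m)) = 0 := by
  have h1 := Q.ex.trunc (Q.Z m) (ge_Z Q m) 1
  rw [Finset.sum_range_one, pow_zero, mul_one, Nat.factorial_zero, Nat.cast_one, Nat.cast_one,
    inv_one, map_one] at h1
  have h2 : Q.Λ.val.ord (1 : Q.Λ.L) = 0 := DivVal.ord_one _
  have h3 := DivVal.ord_eq_of_sub (v := Q.Λ.val) (one_ne_zero) (b := Q.ex.ex (Q.Z m)) (by
    rw [h2, zero_add]
    exact h1.sub_comm)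
  rw [h2] at h3
  exact h3

theorem b_zero : Q.b 0 = 1 := by
  have h1 := Q.b_mul 0 0
  rw [add_zero] at h1
  exact (mul_eq_left₀ (Q.b_ne 0)).1 h1.symm

/-- the middle factor -/
def C (m : Fin n → ℤ) : Q.F :=
  algebraMap ℂ Q.F (Q.b m) * ∏ j, Q.x (Sum.inl j) ^ pair m (Q.ν j)

theorem E_eq (m : Fin n → ℤ) :
    Q.E m = Q.Λ.s ^ pair m Q.U * Q.Λ.emb (C Q m) * Q.ex.ex (Q.Z m) := rfl

theorem C_ne (m : Fin n → ℤ) : C Q m ≠ 0 := by
  refine mul_ne_zero ?_ (Finset.prod_ne_zero_iff.2 fun j _ => zpow_ne_zero _ (x_ne Q _))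
  rw [Ne, map_eq_zero]
  exact Q.b_ne m

theorem emb_ne {a : Q.F} (h : a ≠ 0) : Q.Λ.emb a ≠ 0 := by
  rw [Ne, map_eq_zero]
  exact h

theorem C_zero : C Q 0 = 1 := by
  unfold C
  rw [b_zero, map_one, one_mul]
  refine Finset.prod_eq_one fun j _ => ?_
  rw [TDC.pair_zero_left, zpow_zero]

theorem C_add (m m' : Fin n → ℤ) : C Q (m + m') = C Q m * C Q m' := by
  unfold C
  have h1 : ∏ j, Q.x (Sum.inl j) ^ pair (m + m') (Q.ν j) =
      (∏ j, Q.x (Sum.inl j) ^ pair m (Q.ν j)) * ∏ j, Q.x (Sum.inl j) ^ pair m' (Q.ν j) := by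
    rw [← Finset.prod_mul_distrib]
    refine Finset.prod_congr rfl fun j _ => ?_
    rw [TDC.pair_add_left, zpow_add₀ (x_ne Q _)]
  rw [h1, Q.b_mul, map_mul]
  ring

theorem LD_C (i : Fin Q.p ⊕ Fin Q.q) (m : Fin n → ℤ) :
    LD (Q.d i) (C Q m) (∑ j, (pair m (Q.ν j) : Q.F) *
      (if i = Sum.inl j then (Q.x (Sum.inl j))⁻¹ else 0)) := by
  have h1 : ∀ j : Fin Q.p, LD (Q.d i) (Q.x (Sum.inl j))
      (if i = Sum.inl j then (Q.x (Sum.inl j))⁻¹ else 0) := by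
    intro j
    unfold LD
    rw [Q.d_x]
    split_ifs
    · rw [inv_mul_cancel₀ (x_ne Q _)]
    · rw [zero_mul]
  have h2 := (LD.const (D := Q.d i) (Q.b m)).mul
    (LD.prod Finset.univ (fun j => Q.x (Sum.inl j) ^ pair m (Q.ν j)) _
      fun j _ => (h1 j).zpow (pair m (Q.ν j)))
  rw [zero_add] at h2
  exact h2

theorem D_Z (i : Fin Q.p ⊕ Fin Q.q) (m : Fin n → ℤ) :
    Q.Λ.D (Q.d i) (Q.Z m) = ∑ k, algebraMap ℂ Q.Λ.L (cpair m (Q.ε k)) *
      (Q.Λ.emb (if i = Sum.inr k then 1 else 0) * Q.Λ.s ^ Q.a k) := by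
  unfold Setup.Z
  rw [map_sum]
  refine Finset.sum_congr rfl fun k _ => ?_
  have h1 : LD (Q.Λ.D (Q.d i)) Q.Λ.s 0 := by
    unfold LD
    rw [Q.Λ.D_s, zero_mul]
  have h2 : Q.Λ.D (Q.d i) (Q.Λ.s ^ Q.a k) = 0 := by
    have h3 := h1.pow (Q.a k)
    unfold LD at h3
    rw [h3, mul_zero, zero_mul]
  rw [← Algebra.smul_def, ← Algebra.smul_def, Derivation.map_smul, Derivation.leibniz, h2,
    smul_zero, zero_add, Q.Λ.D_emb, Q.d_x, smul_eq_mul, mul_comm (Q.Λ.s ^ Q.a k)]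

theorem LD_E (i : Fin Q.p ⊕ Fin Q.q) (m : Fin n → ℤ) :
    LD (Q.Λ.D (Q.d i)) (Q.E m) (Q.Λ.emb (∑ j, (pair m (Q.ν j) : Q.F) *
      (if i = Sum.inl j then (Q.x (Sum.inl j))⁻¹ else 0)) + Q.Λ.D (Q.d i) (Q.Z m)) := by
  have h1 : LD (Q.Λ.D (Q.d i)) Q.Λ.s 0 := by
    unfold LD
    rw [Q.Λ.D_s, zero_mul]
  have h2 : LD (Q.Λ.D (Q.d i)) (Q.Λ.emb (C Q m)) (Q.Λ.emb (∑ j, (pair m (Q.ν j) : Q.F) *
      (if i = Sum.inl j then (Q.x (Sum.inl j))⁻¹ else 0))) := by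
    have h3 := LD_C Q i m
    unfold LD at h3 ⊢
    rw [Q.Λ.D_emb, h3, map_mul]
  have h3 : LD (Q.Λ.D (Q.d i)) (Q.ex.ex (Q.Z m)) (Q.Λ.D (Q.d i) (Q.Z m)) :=
    Q.ex.D (Q.d i) (Q.Z m) (ge_Z Q m)
  have h4 := ((h1.zpow (pair m Q.U)).mul h2).mul h3
  rw [mul_zero, zero_add] at h4
  exact h4

end CH1

open CH1 in
theorem t_CH1 : Stmt_CH1 := by
  intro n Q
  refine ⟨?_, fun m m' => ?_, fun m => ?_, fun m => ?_, fun m => ?_, fun j m => ?_,
    fun i m => ?_⟩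
  · rw [E_eq, TDC.pair_zero_left, zpow_zero, C_zero, map_one, Z_zero, Q.ex.zero, mul_one, mul_one]
  · rw [E_eq, E_eq, E_eq, TDC.pair_add_left, zpow_add₀ Q.Λ.s_ne, C_add, map_mul, Z_add,
      Q.ex.add _ _ (ge_Z Q m) (ge_Z Q m')]
    ring
  · rw [E_eq]
    exact mul_ne_zero (mul_ne_zero (zpow_ne_zero _ Q.Λ.s_ne) (emb_ne Q (C_ne Q m)))
      (ex_spec Q m).1
  · have h1 : Q.Λ.s ^ pair m Q.U ≠ 0 := zpow_ne_zero _ Q.Λ.s_ne
    have h2 := emb_ne Q (C_ne Q m)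
    have h3 : Q.Λ.ord (Q.Λ.s ^ pair m Q.U) = pair m Q.U := by
      have h4 := DivVal.ord_zpow Q.Λ.val Q.Λ.s (pair m Q.U)
      have h5 : Q.Λ.val.ord Q.Λ.s = 1 := Q.Λ.ord_s
      rw [h5, mul_one] at h4
      exact h4
    rw [E_eq, Q.Λ.ord_mul _ _ (mul_ne_zero h1 h2) (ex_spec Q m).1, Q.Λ.ord_mul _ _ h1 h2, h3,
      Q.Λ.ord_emb _ (C_ne Q m), (ex_spec Q m).2, add_zero, add_zero]
  · have h1 : LD Q.Λ.θ Q.Λ.s 1 := by
      unfold LD
      rw [Q.Λ.θ_s, one_mul]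
    have h2 : LD Q.Λ.θ (Q.Λ.emb (C Q m)) 0 := by
      unfold LD
      rw [Q.Λ.θ_emb, zero_mul]
    have h3 : LD Q.Λ.θ (Q.ex.ex (Q.Z m)) (Q.Λ.θ (Q.Z m)) := Q.ex.θ (Q.Z m) (ge_Z Q m)
    have h4 := ((h1.zpow (pair m Q.U)).mul h2).mul h3
    rw [mul_one, add_zero] at h4
    have h5 : Q.Λ.θ (Q.Z m) = ∑ i, (Q.a i : Q.Λ.L) *
      (algebraMap ℂ Q.Λ.L (cpair m (Q.ε i)) * (Q.Λ.emb (Q.x (Sum.inr i)) * Q.Λ.s ^ Q.a i)) := by
      unfold Setup.Z
      rw [map_sum]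
      refine Finset.sum_congr rfl fun k _ => ?_
      have h6 : Q.Λ.θ (Q.Λ.s ^ Q.a k) = Q.a k * Q.Λ.s ^ Q.a k := by
        have h7 := h1.pow (Q.a k)
        rw [mul_one] at h7
        exact h7
      rw [← Algebra.smul_def, Derivation.map_smul, Derivation.leibniz, Q.Λ.θ_emb, smul_zero,
        add_zero, h6, smul_eq_mul, Algebra.smul_def, Algebra.smul_def]
      ring
    rw [h5] at h4
    exact h4
  · have h1 := LD_E Q (Sum.inl j) m
    have h2 : Q.Λ.D (Q.d (Sum.inl j)) (Q.Z m) = 0 := by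
      rw [D_Z]
      refine Finset.sum_eq_zero fun k _ => ?_
      rw [if_neg Sum.inl_ne_inr, map_zero, zero_mul, mul_zero]
    have h3 : (∑ j', (pair m (Q.ν j') : Q.F) *
        (if (Sum.inl j : Fin Q.p ⊕ Fin Q.q) = Sum.inl j' then (Q.x (Sum.inl j'))⁻¹ else 0)) =
        (pair m (Q.ν j) : Q.F) * (Q.x (Sum.inl j))⁻¹ := by
      rw [Finset.sum_eq_single j]
      · rw [if_pos rfl]
      · intro j' _ hj'
        rw [if_neg fun h => hj' (Sum.inl_injective h).symm, mul_zero]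
      · intro h
        exact absurd (Finset.mem_univ _) h
    rw [h2, h3, add_zero, map_mul, map_intCast] at h1
    exact h1
  · have h1 := LD_E Q (Sum.inr i) m
    have h2 : Q.Λ.D (Q.d (Sum.inr i)) (Q.Z m) =
        algebraMap ℂ Q.Λ.L (cpair m (Q.ε i)) * Q.Λ.s ^ Q.a i := by
      rw [D_Z, Finset.sum_eq_single i]
      · rw [if_pos rfl, map_one, one_mul]
      · intro j' _ hj'
        rw [if_neg fun h => hj' (Sum.inr_injective h).symm, map_zero, zero_mul, mul_zero]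
      · intro h
        exact absurd (Finset.mem_univ _) h
    have h3 : (∑ j', (pair m (Q.ν j') : Q.F) *
        (if (Sum.inr i : Fin Q.p ⊕ Fin Q.q) = Sum.inl j' then (Q.x (Sum.inl j'))⁻¹ else 0)) =
        0 := by
      refine Finset.sum_eq_zero fun k _ => ?_
      rw [if_neg Sum.inr_ne_inl, mul_zero]
    rw [h2, h3, map_zero, zero_add] at h1
    exact h1

end

end MldGeo
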