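import Pool.Agent.MldGeo.StmtsQ

/-!
# CH2: the images of the characters are linearly independent
-/

namespace MldGeo

open MldGap MldAcc MldQ

noncomputable section

namespace CH2

variable {n : ℕ}

theorem cpair_toC (m y : Fin n → ℤ) : cpair m (toC y) = ((pair m y : ℤ) : ℂ) := by
  unfold cpair toC pair
  rw [Int.cast_sum]
  exact Finset.sum_congr rfl fun i _ => by rw [Int.cast_mul]

theorem eq_of_pair (Q : Setup n) (m m' : Fin n → ℤ) (hU : pair m Q.U = pair m' Q.U)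
    (hν : ∀ j, pair m (Q.ν j) = pair m' (Q.ν j))
    (hε : ∀ i, cpair m (Q.ε i) = cpair m' (Q.ε i)) : m = m' := by
  obtain ⟨f, hf⟩ : ∃ f : (Fin n → ℂ) →ₗ[ℂ] ℂ, ∀ y, f y = cpair m y - cpair m' y := by
    refine ⟨∑ i, ((m i : ℂ) - (m' i : ℂ)) • LinearMap.proj i, fun y => ?_⟩
    unfold cpair
    rw [LinearMap.sum_apply, ← Finset.sum_sub_distrib]
    apply Finset.sum_congr rfl
    intro i _
    rw [LinearMap.smul_apply, LinearMap.proj_apply, smul_eq_mul, sub_mul]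
  have hne : Nonempty ((Unit ⊕ Fin Q.p) ⊕ Fin Q.q) := ⟨Sum.inl (Sum.inl ())⟩
  have hspan := Q.indep.span_eq_top_of_card_eq_finrank (by
    rw [Module.finrank_fintype_fun_eq_card]
    simp only [Fintype.card_sum, Fintype.card_unit, Fintype.card_fin]
    have := Q.dim
    omega)
  have hf0 : f = 0 := by
    apply LinearMap.ext_on hspan
    rintro _ ⟨a, rfl⟩
    rw [LinearMap.zero_apply, hf]
    rcases a with (a | j) | i
    · show cpair m (toC Q.U) - cpair m' (toC Q.U) = 0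
      rw [cpair_toC, cpair_toC, hU, sub_self]
    · show cpair m (toC (Q.ν j)) - cpair m' (toC (Q.ν j)) = 0
      rw [cpair_toC, cpair_toC, hν, sub_self]
    · show cpair m (Q.ε i) - cpair m' (Q.ε i) = 0
      rw [hε, sub_self]
  funext i
  have h1 : f (toC (Pi.single i 1)) = 0 := by rw [hf0, LinearMap.zero_apply]
  rw [hf, cpair_toC, cpair_toC] at h1
  have h2 : ∀ u : Fin n → ℤ, pair u (Pi.single i 1) = u i := by
    intro u
    unfold pair
    rw [Finset.sum_eq_single i (fun j _ hj => by rw [Pi.single_eq_of_ne hj, mul_zero])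
      (fun h => absurd (Finset.mem_univ i) h), Pi.single_eq_same, mul_one]
  rw [h2, h2, ← Int.cast_sub, Int.cast_eq_zero] at h1
  omega

theorem ops (hCH1 : Stmt_CH1) (Q : Setup n) :
    ∃ (T : Fin Q.p ⊕ Fin Q.q → (Q.Λ.L →ₗ[ℂ] Q.Λ.L)) (l : Fin Q.p ⊕ Fin Q.q → (Fin n → ℤ) → ℂ),
      (∀ j m, l (Sum.inl j) m = ((pair m (Q.ν j) : ℤ) : ℂ)) ∧
      (∀ i m, l (Sum.inr i) m = cpair m (Q.ε i)) ∧ ∀ a m, T a (Q.E m) = l a m • Q.E m := by
  obtain ⟨-, -, -, -, -, h6, h7⟩ := hCH1 Q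
  refine ⟨Sum.elim (fun j => LinearMap.mulLeft ℂ (Q.Λ.emb (Q.x (Sum.inl j))) ∘ₗ
      (Q.Λ.D (Q.d (Sum.inl j))).toLinearMap)
    (fun i => LinearMap.mulLeft ℂ ((Q.Λ.s ^ Q.a i)⁻¹) ∘ₗ
      (Q.Λ.D (Q.d (Sum.inr i))).toLinearMap),
    Sum.elim (fun j m => ((pair m (Q.ν j) : ℤ) : ℂ)) (fun i m => cpair m (Q.ε i)),
    fun _ _ => rfl, fun _ _ => rfl, ?_⟩
  rintro (j | i) m
  · show Q.Λ.emb (Q.x (Sum.inl j)) * (Q.Λ.D (Q.d (Sum.inl j))) (Q.E m) = _
    rw [h6, map_inv₀]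
    have hx : Q.Λ.emb (Q.x (Sum.inl j)) ≠ 0 := by
      intro h
      have h1 := (map_eq_zero Q.Λ.emb).1 h
      exact Q.x_ind.ne_zero (Sum.inl j) h1
    show _ = ((pair m (Q.ν j) : ℤ) : ℂ) • Q.E m
    rw [Int.cast_smul_eq_zsmul, zsmul_eq_mul]
    field_simp
  · show (Q.Λ.s ^ Q.a i)⁻¹ * (Q.Λ.D (Q.d (Sum.inr i))) (Q.E m) = _
    rw [h7]
    have hs : Q.Λ.s ^ Q.a i ≠ 0 := pow_ne_zero _ Q.Λ.s_ne
    show _ = cpair m (Q.ε i) • Q.E m
    rw [Algebra.smul_def]
    field_simp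

theorem indep_s (Q : Setup n) : LinearIndependent ℂ (fun u : ℤ => Q.Λ.s ^ u) := by
  refine Module.End.eigenvectors_linearIndependent' (Q.Λ.θ.toLinearMap : Module.End ℂ Q.Λ.L)
    (fun u : ℤ => (u : ℂ)) (fun a b h => Int.cast_injective h) _ ?_
  intro u
  constructor
  · rw [Module.End.mem_eigenspace_iff]
    show Q.Λ.θ (Q.Λ.s ^ u) = (u : ℂ) • Q.Λ.s ^ u
    rw [Derivation.leibniz_zpow, Q.Λ.θ_s, Int.cast_smul_eq_zsmul, smul_eq_mul,
      zpow_sub_one₀ Q.Λ.s_ne, mul_assoc, inv_mul_cancel₀ Q.Λ.s_ne, mul_one]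
  · exact zpow_ne_zero _ Q.Λ.s_ne

theorem key (hCH1 : Stmt_CH1) (Q : Setup n) : ∀ (N : ℕ) (F : Finset (Fin n → ℤ))
    (β : (Fin n → ℤ) → ℂ), F.card = N → ∑ m ∈ F, β m • Q.E m = 0 → ∀ m ∈ F, β m = 0 := by
  obtain ⟨T, l, hl1, hl2, hT⟩ := ops hCH1 Q
  obtain ⟨-, -, hE0, -, -, -, -⟩ := hCH1 Q
  intro N
  induction N using Nat.strong_induction_on with
  | _ N ih =>
  intro F β hF hsum
  by_cases h0 : ∃ m0 ∈ F, β m0 = 0
  · obtain ⟨m0, hm0, hb⟩ := h0
    have h1 := ih (F.erase m0).card (by rw [← hF]; exact Finset.card_erase_lt_of_mem hm0)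
      (F.erase m0) β rfl (by
        rw [← Finset.add_sum_erase F _ hm0, hb, zero_smul, zero_add] at hsum
        exact hsum)
    intro m hm
    by_cases h2 : m = m0
    · rw [h2, hb]
    · exact h1 m (Finset.mem_erase.mpr ⟨h2, hm⟩)
  by_cases h3 : ∃ a, ∃ m1 ∈ F, ∃ m2 ∈ F, l a m2 ≠ l a m1
  · obtain ⟨a, m1, hm1, m2, hm2, hne⟩ := h3
    exfalso
    have e1 : ∑ m ∈ F, (β m * (l a m - l a m1)) • Q.E m = 0 := by
      have e2 := congrArg (T a) hsum
      rw [map_sum, map_zero] at e2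
      have e3 : ∀ m ∈ F, (β m * (l a m - l a m1)) • Q.E m =
          T a (β m • Q.E m) - l a m1 • (β m • Q.E m) := by
        intro m _
        rw [map_smul, hT, smul_smul, smul_smul, ← sub_smul]
        congr 1
        ring
      rw [Finset.sum_congr rfl e3, Finset.sum_sub_distrib, e2, ← Finset.smul_sum, hsum,
        smul_zero, sub_zero]
    have h1 := ih (F.erase m1).card (by rw [← hF]; exact Finset.card_erase_lt_of_mem hm1)
      (F.erase m1) (fun m => β m * (l a m - l a m1)) rfl (by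
        rw [← Finset.add_sum_erase F _ hm1, sub_self, mul_zero, zero_smul, zero_add] at e1
        exact e1)
    have h2 : m2 ≠ m1 := fun h => hne (by rw [h])
    have h4 := h1 m2 (Finset.mem_erase.mpr ⟨h2, hm2⟩)
    rcases mul_eq_zero.mp h4 with h5 | h5
    · exact h0 ⟨m2, hm2, h5⟩
    · exact hne (sub_eq_zero.mp h5)
  · push Not at h3
    intro m1 hm1
    exfalso
    have hν : ∀ m ∈ F, ∀ j, pair m (Q.ν j) = pair m1 (Q.ν j) := by
      intro m hm j
      have := h3 (Sum.inl j) m1 hm1 m hm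
      rw [hl1, hl1] at this
      exact_mod_cast this
    have hε : ∀ m ∈ F, ∀ i, cpair m (Q.ε i) = cpair m1 (Q.ε i) := by
      intro m hm i
      have := h3 (Sum.inr i) m1 hm1 m hm
      rwa [hl2, hl2] at this
    have hEm : ∀ m ∈ F, Q.E m * (Q.Λ.s ^ pair m1 Q.U * algebraMap ℂ Q.Λ.L (Q.b m1)) =
        (Q.b m • Q.Λ.s ^ pair m Q.U) * Q.E m1 := by
      intro m hm
      unfold Setup.E
      have hZ : Q.Z m = Q.Z m1 := by
        unfold Setup.Z
        exact Finset.sum_congr rfl fun i _ => by rw [hε m hm i]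
      have hP : ∏ j, Q.x (Sum.inl j) ^ pair m (Q.ν j) =
          ∏ j, Q.x (Sum.inl j) ^ pair m1 (Q.ν j) :=
        Finset.prod_congr rfl fun j _ => by rw [hν m hm j]
      have hA : ∀ c : ℂ, Q.Λ.emb (algebraMap ℂ Q.F c) = algebraMap ℂ Q.Λ.L c := fun c =>
        Q.Λ.emb.commutes c
      rw [hZ, hP, map_mul, map_mul, hA, hA, Algebra.smul_def]
      ring
    have hrel : ∑ m ∈ F, (β m * Q.b m) • Q.Λ.s ^ pair m Q.U = 0 := by
      have e1 : (∑ m ∈ F, (β m * Q.b m) • Q.Λ.s ^ pair m Q.U) * Q.E m1 =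
          (∑ m ∈ F, β m • Q.E m) * (Q.Λ.s ^ pair m1 Q.U * algebraMap ℂ Q.Λ.L (Q.b m1)) := by
        rw [Finset.sum_mul, Finset.sum_mul]
        apply Finset.sum_congr rfl
        intro m hm
        rw [smul_mul_assoc (β m) (Q.E m), hEm m hm, smul_mul_assoc, smul_mul_assoc, mul_smul]
      rw [hsum, zero_mul] at e1
      exact (mul_eq_zero.mp e1).resolve_right (hE0 m1)
    have hinj : Function.Injective (fun m : F => pair (m : Fin n → ℤ) Q.U) := by
      intro m m' h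
      apply Subtype.ext
      exact eq_of_pair Q m m' h (fun j => by rw [hν m m.2, hν m' m'.2])
        (fun i => by rw [hε m m.2, hε m' m'.2])
    have h5 := linearIndependent_iff'.mp ((indep_s Q).comp _ hinj) Finset.univ
      (fun m : F => β m * Q.b m) (by
        rw [← Finset.sum_coe_sort F] at hrel
        exact hrel) ⟨m1, hm1⟩ (Finset.mem_univ _)
    rcases mul_eq_zero.mp h5 with h6 | h6
    · exact h0 ⟨m1, hm1, h6⟩
    · exact Q.b_ne m1 h6

end CH2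

theorem t_CH2 (hCH1 : Stmt_CH1) : Stmt_CH2 := by
  intro n Q
  rw [linearIndependent_iff']
  intro F β hsum m hm
  exact CH2.key hCH1 Q F.card F β rfl hsum m hm

end

end MldGeo
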