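import Pool.Agent.MldGeo.StmtsQ

/-!
# COC: a homomorphism which is trivial on the fixed vectors is a coboundary
-/

set_option autoImplicit false

namespace MldGeo

namespace COC

/-- Extension of homomorphisms to the multiplicative group of the complex numbers. -/
theorem ext {n : ℕ} (N : Submodule ℤ (Fin n → ℤ)) (lam : N →+ Additive ℂˣ) :
    ∃ L : (Fin n → ℤ) →+ Additive ℂˣ, ∀ y : N, L y = lam y := by
  have hsurj : ∀ k : ℤ, k ≠ 0 → Function.Surjective (fun a : Additive ℂˣ => k • a) := by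
    intro k hk a
    obtain ⟨z, hz⟩ := IsAlgClosed.exists_pow_nat_eq ((Additive.toMul a : ℂˣ) : ℂ)
      (Int.natAbs_pos.2 hk)
    have hz0 : z ≠ 0 := by
      intro h
      rw [h, zero_pow (Int.natAbs_ne_zero.2 hk)] at hz
      exact (Additive.toMul a).ne_zero hz.symm
    have hu : (Units.mk0 z hz0) ^ k.natAbs = Additive.toMul a := by
      apply Units.ext
      rw [Units.val_pow_eq_pow_val, Units.val_mk0]
      exact hz
    rcases Int.natAbs_eq k with h | h
    · refine ⟨Additive.ofMul (Units.mk0 z hz0), ?_⟩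
      show k • Additive.ofMul (Units.mk0 z hz0) = a
      rw [h, natCast_zsmul, ← ofMul_pow, hu]
      rfl
    · refine ⟨-Additive.ofMul (Units.mk0 z hz0), ?_⟩
      show k • (-Additive.ofMul (Units.mk0 z hz0)) = a
      rw [h, neg_smul, smul_neg, neg_neg, natCast_zsmul, ← ofMul_pow, hu]
      rfl
  let _ : DivisibleBy (Additive ℂˣ) ℤ := divisibleByOfSMulRightSurj (Additive ℂˣ) ℤ
    (fun {k} hk => hsurj k hk)
  obtain ⟨L, hL⟩ := (Module.Baer.of_divisible (Additive ℂˣ)).extension_property_addMonoidHom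
    N.subtype.toAddMonoidHom Subtype.val_injective lam
  refine ⟨L, fun y => ?_⟩
  exact DFunLike.congr_fun hL y

end COC

/-- COC. -/
theorem t_COC : Stmt_COC := by
  intro n φ κ h0 hm hf
  have hk0 : κ 0 = 1 := hf 0 (map_zero φ)
  let κ' : (Fin n → ℤ) →+ Additive ℂˣ :=
    { toFun := fun u => Additive.ofMul (Units.mk0 (κ u) (h0 u))
      map_zero' := by
        apply Additive.toMul.injective
        apply Units.ext
        exact hk0
      map_add' := by
        intro u w
        apply Additive.toMul.injective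
        apply Units.ext
        exact hm u w }
  obtain ⟨ψ, hψ⟩ : ∃ ψ : (Fin n → ℤ) →ₗ[ℤ] (Fin n → ℤ), ψ = φ - LinearMap.id := ⟨_, rfl⟩
  have hψm : ∀ m, ψ m = φ m - m := by
    intro m
    rw [hψ]
    rfl
  obtain ⟨s, hs⟩ := Module.projective_lifting_property ψ.rangeRestrict
    (LinearMap.id : LinearMap.range ψ →ₗ[ℤ] LinearMap.range ψ) ψ.surjective_rangeRestrict
  obtain ⟨L, hL⟩ := COC.ext (LinearMap.range ψ) (κ'.comp s.toAddMonoidHom)
  have hLψ : ∀ m, L (ψ m) = κ' m := by
    intro m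
    have h1 := hL ⟨ψ m, m, rfl⟩
    have h2 : L (ψ m) = κ' (s ⟨ψ m, m, rfl⟩) := h1
    rw [h2]
    have h3 : ψ (s ⟨ψ m, m, rfl⟩) = ψ m := by
      have h4 := LinearMap.congr_fun hs ⟨ψ m, m, rfl⟩
      exact congrArg Subtype.val h4
    have h5 : κ (s ⟨ψ m, m, rfl⟩ - m) = 1 := by
      apply hf
      rw [← sub_eq_zero, ← hψm, map_sub, h3, sub_self]
    have h6 : κ' (s ⟨ψ m, m, rfl⟩ - m) = 0 := by
      apply Additive.toMul.injective
      apply Units.ext
      exact h5
    rw [map_sub, sub_eq_zero] at h6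
    exact h6
  refine ⟨fun u => ((Additive.toMul (L u) : ℂˣ) : ℂ), fun u => Units.ne_zero _, ?_, ?_⟩
  · intro u w
    show ((Additive.toMul (L (u + w)) : ℂˣ) : ℂ) = _
    rw [map_add, toMul_add, Units.val_mul]
  · intro m
    have h1 : φ m = ψ m + m := by rw [hψm, sub_add_cancel]
    show ((Additive.toMul (L (φ m)) : ℂˣ) : ℂ) = _
    rw [h1, map_add, toMul_add, Units.val_mul, hLψ]
    rfl

end MldGeo
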