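import Pool.Agent.MldGeo.Stmts8

/-!
# CRS: restriction of the action to a subtorus of codimension one
-/

namespace MldGeo

namespace CRS

/-- A projection of the lattice along a vector on which `w` vanishes. -/
theorem exists_pi (k : ℕ) (w : Fin (k + 2) → ℤ) :
    ∃ π : (Fin (k + 2) → ℤ) →+ (Fin (k + 1) → ℤ), Function.Surjective π ∧
      ∀ u, π u = 0 → ip w u = 0 := by
  obtain ⟨g, p, q, x, y, hp, hq, hxy⟩ : ∃ g p q x y : ℤ, w 0 = g * p ∧ w 1 = g * q ∧
      p * x + q * y = 1 := by
    by_cases h : Int.gcd (w 0) (w 1) = 0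
    · rw [Int.gcd_eq_zero_iff] at h
      exact ⟨0, 1, 0, 1, 0, by rw [h.1]; ring, by rw [h.2]; ring, by ring⟩
    · obtain ⟨p, q, h1, h2, h3⟩ := Int.exists_gcd_one (Nat.pos_of_ne_zero h)
      refine ⟨Int.gcd (w 0) (w 1), p, q, Int.gcdA p q, Int.gcdB p q, ?_, ?_, ?_⟩
      · rw [mul_comm]
        exact h2
      · rw [mul_comm]
        exact h3
      · rw [← Int.gcd_eq_gcd_ab, h1]
        rfl
  let π : (Fin (k + 2) → ℤ) →+ (Fin (k + 1) → ℤ) :=
    { toFun := fun u => Fin.cons (p * u 0 + q * u 1) fun j => u j.succ.succ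
      map_zero' := by
        funext j
        refine Fin.cases ?_ (fun j => ?_) j
        · simp
        · simp
      map_add' := by
        intro u v
        funext j
        refine Fin.cases ?_ (fun j => ?_) j
        · simp only [Fin.cons_zero, Pi.add_apply]
          ring
        · simp only [Fin.cons_succ, Pi.add_apply] }
  have hπ : ∀ u, π u = Fin.cons (p * u 0 + q * u 1) fun j => u j.succ.succ := fun _ => rfl
  refine ⟨π, ?_, ?_⟩
  · intro v
    refine ⟨Fin.cons (x * v 0) (Fin.cons (y * v 0) fun j => v j.succ), ?_⟩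
    rw [hπ]
    funext j
    refine Fin.cases ?_ (fun j => ?_) j
    · rw [Fin.cons_zero, Fin.cons_zero]
      have h1 : (Fin.cons (x * v 0) (Fin.cons (y * v 0) fun j => v j.succ) :
          Fin (k + 2) → ℤ) 1 = y * v 0 := rfl
      rw [h1]
      linear_combination v 0 * hxy
    · rfl
  · intro u hu
    have h0 : p * u 0 + q * u 1 = 0 := congrFun hu 0
    have h1 : ∀ j : Fin k, u j.succ.succ = 0 := fun j => congrFun hu j.succ
    unfold ip
    rw [Fin.sum_univ_succ, Fin.sum_univ_succ]
    have h2 : ∑ i : Fin k, w i.succ.succ * u i.succ.succ = 0 := by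
      refine Finset.sum_eq_zero fun j _ => ?_
      rw [h1, mul_zero]
    have h3 : (0 : Fin (k + 1)).succ = 1 := rfl
    rw [h2, h3, hp, hq]
    linear_combination g * h0

section gs

variable {n m : ℕ} {X : Germ n} (A : TorusAction X m)

/-- The sums of functions with weights in a set. -/
def GS (S : Set (Fin m → ℤ)) : Submodule ℂ X.R := ⨆ u ∈ S, A.gr u

theorem le_GS {S : Set (Fin m → ℤ)} {u : Fin m → ℤ} (hu : u ∈ S) : A.gr u ≤ GS A S :=
  le_iSup₂_of_le (f := fun u (_ : u ∈ S) => A.gr u) u hu le_rfl

theorem mul_mem_GS {S T U : Set (Fin m → ℤ)} (h : ∀ u ∈ S, ∀ v ∈ T, u + v ∈ U) {x y : X.R}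
    (hx : x ∈ GS A S) (hy : y ∈ GS A T) : x * y ∈ GS A U := by
  have h1 : GS A S ≤ (GS A U).comap (LinearMap.mulRight ℂ y) := by
    refine iSup₂_le fun u hu x hx => ?_
    have h2 : GS A T ≤ (GS A U).comap (LinearMap.mulLeft ℂ x) := by
      refine iSup₂_le fun v hv y hy => ?_
      exact le_GS A (h u hu v hv) (SetLike.GradedMul.mul_mem hx hy)
    exact h2 hy
  exact h1 hx

/-- A regular function which is homogeneous as a rational function. -/
theorem mem_of_hom {u : Fin m → ℤ} {r : X.R} (h : A.Hom u (r : X.K)) : r ∈ A.gr u := by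
  classical
  obtain ⟨a, b, p, s, hp, hs, hs0, hab, e⟩ := h
  have e' : r * s = p := Subtype.ext e
  have h1 : ∀ v, v ≠ u → ((DirectSum.decompose A.gr r v : A.gr v) : X.R) = 0 := by
    intro v hv
    have h2 := DirectSum.coe_decompose_mul_add_of_right_mem A.gr (a := r) (i := v) hs
    rw [e', DirectSum.decompose_of_mem_ne A.gr hp (by
      rw [hab]
      intro h3
      exact hv (add_right_cancel h3).symm)] at h2
    rcases mul_eq_zero.1 h2.symm with h3 | h3
    · exact h3
    · exact absurd h3 hs0
  rw [← DirectSum.sum_support_decompose A.gr r]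
  refine Submodule.sum_mem _ fun v _ => ?_
  by_cases hv : v = u
  · subst hv
    exact (DirectSum.decompose A.gr r v).2
  · rw [h1 v hv]
    exact Submodule.zero_mem _

theorem indep : iSupIndep A.gr :=
  (DirectSum.Decomposition.isInternal A.gr).submodule_iSupIndep

theorem top : iSup A.gr = ⊤ :=
  (DirectSum.Decomposition.isInternal A.gr).submodule_iSup_eq_top

/-- There is a vector on which the nonzero weights are positive. -/
theorem exists_pos (hGEN : Stmt_GEN) (hSPL : Stmt_SPL) :
    ∃ w : Fin m → ℤ, ∀ u, A.gr u ≠ ⊥ → u ≠ 0 → 0 < ip w u := by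
  classical
  obtain ⟨S⟩ := hSPL A
  obtain ⟨N, u, b, -, hb, hgen, -, w, hw⟩ := hGEN S
  refine ⟨w, ?_⟩
  have ip0 : ip w 0 = 0 := by
    unfold ip
    exact Finset.sum_eq_zero fun j _ => by rw [Pi.zero_apply, mul_zero]
  have ipa : ∀ a b, ip w (a + b) = ip w a + ip w b := by
    intro a b
    unfold ip
    rw [← Finset.sum_add_distrib]
    exact Finset.sum_congr rfl fun j _ => by rw [Pi.add_apply, mul_add]
  obtain ⟨G, hG⟩ : ∃ G : Set (Fin m → ℤ), G = {u | u = 0 ∨ 0 < ip w u} := ⟨_, rfl⟩
  have hG0 : (0 : Fin m → ℤ) ∈ G := by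
    rw [hG]
    exact Or.inl rfl
  have hGa : ∀ a ∈ G, ∀ b ∈ G, a + b ∈ G := by
    rw [hG]
    rintro a (rfl | ha) b (rfl | hb)
    · exact Or.inl (add_zero _)
    · right
      rw [zero_add]
      exact hb
    · right
      rw [add_zero]
      exact ha
    · right
      rw [ipa]
      exact add_pos ha hb
  have h1 : ∀ x ∈ Algebra.adjoin ℂ (Set.range fun i => (b i : X.K) * S.χ (u i)),
      ∃ r ∈ GS A G, (r : X.K) = x := by
    intro x hx
    induction hx using Algebra.adjoin_induction with
    | mem x hx =>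
      obtain ⟨i, rfl⟩ := hx
      refine ⟨⟨_, hb i⟩, ?_, rfl⟩
      have h2 : u i ∈ G := by
        rw [hG]
        exact Or.inr (hw i)
      refine le_GS A h2 (mem_of_hom A ?_)
      have h3 := TorusAction.Hom.mul ((TorusAction.mem_K0 A).1 (b i).2) (S.hom (u i))
      rw [zero_add] at h3
      exact h3
    | algebraMap c =>
      exact ⟨algebraMap ℂ X.R c, le_GS A hG0 (SetLike.algebraMap_mem_graded A.gr c), rfl⟩
    | add x y _ _ hx hy =>
      obtain ⟨r, hr, rfl⟩ := hx
      obtain ⟨s, hs, rfl⟩ := hy
      exact ⟨r + s, add_mem hr hs, rfl⟩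
    | mul x y _ _ hx hy =>
      obtain ⟨r, hr, rfl⟩ := hx
      obtain ⟨s, hs, rfl⟩ := hy
      exact ⟨r * s, mul_mem_GS A hGa hr hs, rfl⟩
  have h2 : ⨆ u ∈ G, A.gr u = ⊤ := by
    rw [eq_top_iff]
    intro r _
    obtain ⟨s, hs, e⟩ := h1 r (hgen r r.2)
    have h3 : s = r := Subtype.ext e
    rw [← h3]
    exact hs
  intro v hv hv0
  have h3 := (indep A).mem_of_biSup_eq_top h2 hv
  rw [hG] at h3
  rcases h3 with h4 | h4
  · exact absurd h4 hv0
  · exact h4

/-- The coarser grading. -/
theorem internal {m' : ℕ} (π : (Fin m → ℤ) →+ (Fin m' → ℤ)) :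
    DirectSum.IsInternal fun v => GS A {u | π u = v} := by
  rw [DirectSum.isInternal_submodule_iff_iSupIndep_and_iSup_eq_top]
  constructor
  · intro v
    refine Disjoint.mono_right (c := ⨆ u ∈ {u | π u ≠ v}, A.gr u) ?_ ?_
    · refine iSup₂_le fun w hw => ?_
      refine iSup₂_le fun u hu => ?_
      refine le_iSup₂_of_le (f := fun u (_ : u ∈ {u | π u ≠ v}) => A.gr u) u ?_ le_rfl
      intro h
      exact hw (hu.symm.trans h)
    · refine (indep A).disjoint_biSup_biSup ?_
      rw [Set.disjoint_left]
      intro u h1 h2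
      exact h2 h1
  · rw [eq_top_iff, ← top A]
    refine iSup_le fun u => ?_
    exact le_iSup_of_le (f := fun v => GS A {u | π u = v}) (π u) (le_GS A rfl)

end gs

end CRS

open CRS in
theorem t_CRS (_hHFR : Stmt_HFR) (_hATT : Stmt_ATT) (hGEN : Stmt_GEN) (hSPL : Stmt_SPL) :
    Stmt_CRS := by
  classical
  intro m X hm A
  obtain ⟨k, rfl⟩ : ∃ k, m = k + 1 := ⟨m - 1, by omega⟩
  obtain ⟨w, hw⟩ := exists_pos A hGEN hSPL
  obtain ⟨π, hπ, hker⟩ := exists_pi k w
  have hle : ∀ u, A.gr u ≤ GS A {u' | π u' = π u} := fun u => le_GS A rfl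
  let A' : TorusAction X (k + 1) :=
    { gr := fun v => GS A {u | π u = v}
      graded :=
        { toDecomposition := (internal A π).chooseDecomposition
          toGradedMonoid :=
            { one_mem := le_GS A (map_zero π) SetLike.GradedOne.one_mem
              mul_mem := by
                intro v v' x y hx hy
                refine mul_mem_GS A ?_ hx hy
                rintro u rfl u' rfl
                exact map_add π u u' } }
      effective := by
        rw [eq_top_iff]
        intro v _
        obtain ⟨u, rfl⟩ := hπ v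
        have h1 : u ∈ AddSubgroup.closure {u | A.gr u ≠ ⊥} := by
          rw [A.effective]
          trivial
        have h2 : AddSubgroup.closure {u | A.gr u ≠ ⊥} ≤
            (AddSubgroup.closure {v | GS A {u | π u = v} ≠ ⊥}).comap π := by
          rw [AddSubgroup.closure_le]
          intro u hu
          refine AddSubgroup.subset_closure ?_
          intro h
          apply hu
          rw [eq_bot_iff, ← h]
          exact hle u
        exact h2 h1
      const := by
        intro a ha
        apply A.const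
        have h1 : GS A {u | π u = 0} ≤ A.gr 0 := by
          refine iSup₂_le fun u hu => ?_
          by_cases h2 : A.gr u = ⊥
          · rw [h2]
            exact bot_le
          · by_cases h3 : u = 0
            · rw [h3]
            · exact absurd (hker u hu) (hw u h2 h3).ne'
        exact h1 ha
      vanish := by
        intro v hv a ha
        have h1 : GS A {u | π u = v} ≤ X.m.restrictScalars ℂ := by
          refine iSup₂_le fun u hu => ?_
          intro x hx
          refine A.vanish u ?_ x hx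
          rintro rfl
          apply hv
          rw [← hu]
          exact map_zero π
        exact h1 ha }
  refine ⟨A', ?_⟩
  rintro I ⟨s, hs, rfl⟩
  refine ⟨s, ?_, rfl⟩
  intro a ha
  obtain ⟨u, hu⟩ := hs a ha
  exact ⟨π u, hle u hu⟩

end MldGeo
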