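import Pool.Agent.MldGeo.StmtsQ
import Pool.Agent.MldGeo.EXF

/-!
# DDER: the derivations dual to a frame
-/

namespace MldGeo

noncomputable section

namespace DDER

/-- A derivation with values in an extension field factors through the differentials. -/
theorem lift {K : Type} [Field K] [Algebra ℂ K] {L : Type} [Field L] [Algebra ℂ L]
    (ι : K →ₐ[ℂ] L) (δ : K → L) (hadd : ∀ a b, δ (a + b) = δ a + δ b)
    (hmul : ∀ a b, δ (a * b) = ι a * δ b + ι b * δ a)
    (hc : ∀ c : ℂ, δ (algebraMap ℂ K c) = 0) :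
    ∃ lin : Ω[K⁄ℂ] →+ L, (∀ (a : K) (ω : Ω[K⁄ℂ]), lin (a • ω) = ι a * lin ω) ∧
      ∀ a, lin (KaehlerDifferential.D ℂ K a) = δ a := by
  let algKL : Algebra K L := ι.toRingHom.toAlgebra
  have hsm : ∀ (a : K) (y : L), a • y = ι a * y := fun a y => rfl
  have htow : IsScalarTower ℂ K L := by
    refine ⟨fun c a y => ?_⟩
    rw [hsm, hsm, map_smul, Algebra.smul_mul_assoc]
  let δl : K →ₗ[ℂ] L :=
    { toFun := δ
      map_add' := hadd
      map_smul' := fun c a => by
        rw [Algebra.smul_def, hmul, hc, mul_zero, add_zero, ι.commutes, RingHom.id_apply,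
          Algebra.smul_def] }
  let δd : Derivation ℂ K L := Derivation.mk' δl fun a b => by
    rw [hsm, hsm]
    exact hmul a b
  refine ⟨δd.liftKaehlerDifferential.toAddMonoidHom, fun a ω => ?_, fun a => ?_⟩
  · have h1 := δd.liftKaehlerDifferential.map_smul a ω
    rw [hsm] at h1
    exact h1
  · exact δd.liftKaehlerDifferential_comp_D a

end DDER

theorem t_DDER (hFRA : Stmt_FRA) (hTBAS : Stmt_TBAS) (hLOGD : Stmt_LOGD) (hFRM : Stmt_FRM) :
    Stmt_DDER := by
  intro m K _ _ htr v t u hF
  obtain ⟨ht0, ht1, hu⟩ := id hF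
  have hai := (hFRA v).2 t u hF
  obtain ⟨f, hf⟩ := EXF.frameBasis hTBAS htr t ht0 u hai
  have hf0 : f 0 = dlog t := by rw [hf, Fin.cons_zero]
  have hfs : ∀ j : Fin m, f j.succ = KaehlerDifferential.D ℂ K (u j) := fun j => by
    rw [hf, Fin.cons_succ]
  let Δ : Fin (m + 1) → Derivation ℂ K K := fun l => (f.coord l).compDer (KaehlerDifferential.D ℂ K)
  have hΔ : ∀ l a, Δ l a = f.repr (KaehlerDifferential.D ℂ K a) l := fun l a => rfl
  have hDt : KaehlerDifferential.D ℂ K t = t • f 0 := by
    rw [hf0, dlog, smul_smul, mul_inv_cancel₀ ht0, one_smul]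
  have h1 : ∀ l, Δ l t = if l = 0 then t else 0 := by
    intro l
    rw [hΔ, hDt, map_smul, f.repr_self, Finsupp.smul_apply, Finsupp.single_apply, smul_eq_mul]
    by_cases hl : l = 0
    · rw [if_pos hl, if_pos hl.symm, mul_one]
    · rw [if_neg hl, if_neg (Ne.symm hl), mul_zero]
  have h2 : ∀ l j, Δ l (u j) = if l = j.succ then 1 else 0 := by
    intro l j
    rw [hΔ, ← hfs, f.repr_self, Finsupp.single_apply]
    by_cases hl : l = j.succ
    · rw [if_pos hl, if_pos hl.symm]
    · rw [if_neg hl, if_neg (Ne.symm hl)]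
  have hsum : ∀ a, KaehlerDifferential.D ℂ K a = ∑ l, Δ l a • f l := fun a =>
    (f.sum_repr _).symm
  refine ⟨Δ, h1, h2, ?_, ?_, ?_⟩
  · intro l k a ha
    refine (hLOGD htr v t u hF (Δ l) ?_ fun j => ?_).1 a k ha
    · rw [h1]
      by_cases hl : l = 0
      · rw [if_pos hl]
        exact Or.inr ht1.ge
      · rw [if_neg hl]
        exact Or.inl rfl
    · rw [h2]
      by_cases hl : l = j.succ
      · rw [if_pos hl]
        exact DivVal.Ge.one v
      · rw [if_neg hl]
        exact Or.inl rfl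
  · intro L _ _ ι δ hadd hmul hc a
    obtain ⟨lin, hlin, hD⟩ := DDER.lift ι δ hadd hmul hc
    rw [← hD a, hsum a, map_sum]
    refine Finset.sum_congr rfl fun l _ => ?_
    rw [hlin]
    congr 1
    refine Fin.cases ?_ (fun j => ?_) l
    · rw [hf0, dlog, hlin, hD, Fin.cons_zero, map_inv₀, div_eq_inv_mul]
    · rw [hfs, hD, Fin.cons_succ]
  · intro x hx hdx
    have hdet : (Matrix.of fun i l => Δ l (x i) / x i).det = f.det fun i => dlog (x i) := by
      rw [Module.Basis.det_apply, ← Matrix.det_transpose]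
      congr 1
      ext l i
      rw [Matrix.transpose_apply, Matrix.of_apply, Module.Basis.toMatrix_apply, dlog, map_smul,
        Finsupp.smul_apply, smul_eq_mul, ← hΔ, div_eq_inv_mul]
    have hiota : dlogs x = (f.det fun i => dlog (x i)) • frameForm t u := by
      have h3 := FRM.iota_eq f fun i => dlog (x i)
      rw [hf] at h3
      exact h3
    have hne : f.det (fun i => dlog (x i)) ≠ 0 := by
      intro h0
      rw [h0, zero_smul] at hiota
      exact hdx hiota
    rw [hdet]
    refine ⟨hne, ?_⟩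
    rw [hiota]
    exact (hFRM htr v t u hF).2.2 _ hne

end

end MldGeo
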