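import Pool.Agent.MldGeo.Stmts6

/-!
# Derivations and places of function fields of one variable
-/

namespace MldGeo

noncomputable section

namespace DLO

variable {F : Type} [Field F] [Algebra ℂ F]

/-- The constants of a derivation. -/
def consts (D : Derivation ℂ F F) : IntermediateField ℂ F where
  carrier := {a | D a = 0}
  mul_mem' := by
    intro a b (ha : D a = 0) (hb : D b = 0)
    change D (a * b) = 0
    rw [Derivation.leibniz, ha, hb, smul_zero, smul_zero, add_zero]
  one_mem' := D.map_one_eq_zero
  add_mem' := by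
    intro a b (ha : D a = 0) (hb : D b = 0)
    change D (a + b) = 0
    rw [map_add, ha, hb, add_zero]
  zero_mem' := map_zero D
  algebraMap_mem' := fun c => D.map_algebraMap c
  inv_mem' := by
    intro a (ha : D a = 0)
    change D a⁻¹ = 0
    rw [Derivation.leibniz_inv, ha, smul_zero]

theorem mem_consts (D : Derivation ℂ F F) (a : F) : a ∈ consts D ↔ D a = 0 := Iff.rfl

/-- A constant of a nonzero derivation belongs to `ℂ`. -/
theorem const_of_eq_zero (hF : IsCurve F) (D : Derivation ℂ F F) (hD : D ≠ 0) (a : F)
    (ha : D a = 0) : ∃ c : ℂ, a = algebraMap ℂ F c := by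
  by_cases htr : Transcendental ℂ a
  · exfalso
    apply hD
    set E := IntermediateField.adjoin ℂ {a} with hE
    have : FiniteDimensional E F := hF.2 a htr
    have hkill : ∀ e : E, D (e : F) = 0 := by
      have h1 : E ≤ consts D := by
        rw [hE, IntermediateField.adjoin_simple_le_iff]
        exact ha
      exact fun e => h1 e.2
    let D' : Derivation E F F := Derivation.mk'
      { toFun := fun x => D x
        map_add' := fun x y => map_add D x y
        map_smul' := fun e x => by
          change D ((e : F) * x) = (e : F) * D x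
          rw [Derivation.leibniz, hkill e, smul_zero, add_zero, smul_eq_mul] }
      (fun x y => D.leibniz x y)
    ext b
    change D b = 0
    have hint : IsIntegral E b := Algebra.IsIntegral.isIntegral b
    have hsep : (minpoly E b).Separable := (minpoly.irreducible hint).separable
    have h2 : D' (Polynomial.aeval b (minpoly E b)) =
        Polynomial.aeval b (Polynomial.derivative (minpoly E b)) • D' b :=
      Derivation.map_aeval D' (minpoly E b) b
    rw [minpoly.aeval, map_zero] at h2
    have h3 : Polynomial.aeval b (Polynomial.derivative (minpoly E b)) ≠ 0 :=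
      hsep.aeval_derivative_ne_zero (minpoly.aeval E b)
    have h4 : D' b = 0 := (smul_eq_zero.1 h2.symm).resolve_left h3
    exact h4
  · have halg : IsAlgebraic ℂ a := by
      by_contra h
      exact htr h
    have h1 := IsAlgClosed.degree_eq_one_of_irreducible ℂ (minpoly.irreducible halg.isIntegral)
    obtain ⟨c, hc⟩ := minpoly.mem_range_of_degree_eq_one ℂ a h1
    exact ⟨c, hc.symm⟩

open scoped IntermediateField.algebraAdjoinAdjoin in
theorem trdeg_eq_one (hF : IsCurve F) : Algebra.trdeg ℂ F = 1 := by
  obtain ⟨s, hs⟩ := hF.1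
  have : FiniteDimensional (IntermediateField.adjoin ℂ {s}) F := hF.2 s hs
  have hind : AlgebraicIndependent ℂ (fun _ : Unit => s) := by
    rw [algebraicIndependent_unique_type_iff]
    exact hs
  have hbas : IsTranscendenceBasis ℂ (fun _ : Unit => s) := by
    rw [isTranscendenceBasis_iff_algebraicIndependent_isAlgebraic]
    refine ⟨hind, ?_⟩
    rw [Set.range_const]
    exact (IsFractionRing.comap_isAlgebraic_iff (A := Algebra.adjoin ℂ ({s} : Set F))
      (K := IntermediateField.adjoin ℂ ({s} : Set F)) (C := F)).2 inferInstance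
  have h := hbas.cardinalMk_eq_trdeg
  rw [← h]
  simp

end DLO

open DLO DivVal in
/-- DLO: derivations and places. -/
theorem t_DLO (hRS1 : Stmt_RS1) (hLOGD : Stmt_LOGD) : Stmt_DLO := by
  intro F _ _ hF D hD
  have hconst : ∀ a : F, D a = 0 → ∃ c : ℂ, a = algebraMap ℂ F c := const_of_eq_zero hF D hD
  have htr : Algebra.trdeg ℂ F = ((0 + 1 : ℕ) : Cardinal) := by
    rw [trdeg_eq_one hF]
    simp
  have hmain : ∀ (y : DivVal 1 F) (t : F), y.ord t = 1 → D t ≠ 0 ∧
      ∀ a : F, y.Ge 0 a → y.Ge 0 (D a / D t) := by
    intro y t ht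
    have ht0 : t ≠ 0 := by
      rintro rfl
      rw [y.ord_zero] at ht
      omega
    have hDt : D t ≠ 0 := by
      intro h
      obtain ⟨c, rfl⟩ := hconst t h
      rw [y.ord_const] at ht
      omega
    refine ⟨hDt, fun a ha => ?_⟩
    set D' : Derivation ℂ F F := (t / D t) • D with hD'
    have hD't : D' t = t := by
      rw [hD', Derivation.smul_apply, smul_eq_mul]
      field_simp
    have hframe : Frame (m := 0) y t (Fin.elim0 : Fin 0 → F) := by
      refine ⟨ht0, ht, fun p hp => ?_⟩
      obtain ⟨c, rfl⟩ := MvPolynomial.C_surjective (Fin 0) p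
      have hc : c ≠ 0 := by
        rintro rfl
        simp at hp
      rw [MvPolynomial.aeval_C]
      exact ⟨by simpa using hc, y.ord_const c⟩
    have h1 := (hLOGD htr y t (Fin.elim0 : Fin 0 → F) hframe D'
      (by rw [hD't]; exact Ge.of_le ht.ge) (fun j => j.elim0)).1
    obtain ⟨c, hc⟩ := hRS1 hF y a ha
    have h2 : y.Ge 1 (D' (a - algebraMap ℂ F c)) := h1 _ 1 hc
    have h3 : D a / D t = D' (a - algebraMap ℂ F c) / t := by
      rw [hD', Derivation.smul_apply, smul_eq_mul, map_sub, D.map_algebraMap, sub_zero]
      field_simp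
    rw [h3]
    have h4 := h2.div t
    rw [ht] at h4
    exact h4
  refine ⟨hconst, hmain, fun y t t' ht ht' => ?_⟩
  have key : ∀ t t' : F, y.ord t = 1 → y.ord t' = 1 → y.ord (D t) ≤ y.ord (D t') := by
    intro t t' ht ht'
    have h1 := (hmain y t ht).1
    have h2 := (hmain y t' ht').1
    have h3 := ((hmain y t ht).2 t' (Ge.of_le (by omega))).le (div_ne_zero h2 h1)
    rw [ord_div y h2 h1] at h3
    omega
  exact le_antisymm (key t t' ht ht') (key t' t ht' ht)

end

end MldGeo
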