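import Pool.Agent.MldGeo.Stmts8
import Pool.Agent.MldGeo.DLO

/-!
# Derivations of a function field of one variable
-/

namespace MldGeo

noncomputable section

namespace DER

variable {F : Type} [Field F] [Algebra ℂ F]

/-- a transcendental function is a transcendence basis -/
theorem indep {s : F} (hs : Transcendental ℂ s) :
    AlgebraicIndependent ℂ (fun _ : Fin 1 => s) := by
  rw [algebraicIndependent_unique_type_iff]
  exact hs

end DER

theorem t_DER (hTBAS : Stmt_TBAS) : Stmt_DER := by
  intro F _ _ hF s hs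
  have htr : Algebra.trdeg ℂ F = ((1 : ℕ) : Cardinal) := by
    rw [DLO.trdeg_eq_one hF, Nat.cast_one]
  obtain ⟨hli, hsp⟩ := hTBAS htr (fun _ : Fin 1 => s) (DER.indep hs)
  let b : Module.Basis (Fin 1) F (Ω[F⁄ℂ]) := Module.Basis.mk hli hsp.ge
  have hb : ∀ i, b i = KaehlerDifferential.D ℂ F s := fun i => by
    rw [Module.Basis.mk_apply]
  let D : Derivation ℂ F F := (b.coord 0).compDer (KaehlerDifferential.D ℂ F)
  have hD : ∀ t, D t = b.repr (KaehlerDifferential.D ℂ F t) 0 := fun t => rfl
  refine ⟨D, ?_, fun t => ?_⟩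
  · rw [hD, ← hb 0, Module.Basis.repr_self, Finsupp.single_eq_same]
  · rw [hD]
    conv_lhs => rw [← b.sum_repr (KaehlerDifferential.D ℂ F t)]
    rw [Fin.sum_univ_one, hb]

end

end MldGeo
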