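import Pool.Agent.MldGeo.Stmts6

/-!
# The degree of the canonical divisor of a function field of one variable is at least `-2`
-/

namespace MldGeo

namespace DGK

variable {F : Type} [Field F] [Algebra ℂ F]

theorem deg_eq (E : DivVal 1 F →₀ ℤ) (P : Finset (DivVal 1 F)) (h : E.support ⊆ P) :
    deg E = ∑ y ∈ P, E y :=
  Finsupp.sum_of_support_subset E h _ fun _ _ => rfl

theorem two_mul_sum (r : ℕ) : 2 * (∑ i ∈ Finset.range (r + 1), (i : ℤ)) = r * (r + 1) := by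
  induction r with
  | zero => simp
  | succ r ih =>
    rw [Finset.sum_range_succ, mul_add, ih]
    push_cast
    ring

end DGK

theorem t_DGK (hPRF : Stmt_PRF) (hRIE : Stmt_RIE) (hDLO : Stmt_DLO) (hWRO : Stmt_WRO)
    (hWRB : Stmt_WRB) : Stmt_DGK := by
  classical
  intro F _ _ hF D hD κ hκ
  obtain ⟨hp1, -, hp3⟩ := hPRF hF
  obtain ⟨hc, hd, -⟩ := hDLO hF D hD
  obtain ⟨γ0, hγ⟩ := hRIE hF
  obtain ⟨y0, -⟩ := hp3 ∅
  obtain ⟨g, hg⟩ : ∃ g : ℕ, γ0 ≤ g := ⟨γ0.toNat, Int.self_le_toNat γ0⟩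
  -- the divisor
  let E : DivVal 1 F →₀ ℤ := Finsupp.single y0 ((3 * g + 4 : ℕ) : ℤ)
  have hE : deg E = ((3 * g + 4 : ℕ) : ℤ) := Finsupp.sum_single_index rfl
  obtain ⟨r, hr⟩ : ∃ r : ℕ, r = 2 * g + 3 := ⟨_, rfl⟩
  obtain ⟨f, hf, hfE⟩ := hγ E (r + 1) (by rw [hE, hr]; push_cast; omega)
  have hW := hWRO D hc (r + 1) f hf
  set W := (Matrix.of fun i j : Fin (r + 1) => (D : F → F)^[(i : ℕ)] (f j)).det with hWd
  set S : ℤ := ∑ i ∈ Finset.range (r + 1), (i : ℤ) with hS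
  have hord : ∀ y : DivVal 1 F, ((r : ℤ) + 1) * (-E y) + S * (-κ y) ≤ y.ord W := by
    intro y
    obtain ⟨t, ht, h1⟩ := y.unif
    obtain ⟨d1, d2⟩ := hd y t h1
    have h2 := hWRB D y t h1 d1 d2 r f (-E y) (fun j => hfE j y)
    rw [hκ y t h1] at h2
    exact h2.le hW
  obtain ⟨EW, hEW, hdeg⟩ := hp1 W hW
  set P : Finset (DivVal 1 F) := EW.support ∪ E.support ∪ κ.support with hP
  have e1 : deg EW = ∑ y ∈ P, EW y := DGK.deg_eq EW P fun y hy => by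
    rw [hP, Finset.mem_union, Finset.mem_union]; exact Or.inl (Or.inl hy)
  have e2 : deg E = ∑ y ∈ P, E y := DGK.deg_eq E P fun y hy => by
    rw [hP, Finset.mem_union, Finset.mem_union]; exact Or.inl (Or.inr hy)
  have e3 : deg κ = ∑ y ∈ P, κ y := DGK.deg_eq κ P fun y hy => by
    rw [hP, Finset.mem_union, Finset.mem_union]; exact Or.inr hy
  have h3 : ∑ y ∈ P, (((r : ℤ) + 1) * (-E y) + S * (-κ y)) ≤ ∑ y ∈ P, EW y :=
    Finset.sum_le_sum fun y _ => by rw [hEW y]; exact hord y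
  rw [Finset.sum_add_distrib, ← Finset.mul_sum, ← Finset.mul_sum, Finset.sum_neg_distrib,
    Finset.sum_neg_distrib, ← e1, ← e2, ← e3, hdeg, hE] at h3
  have h4 : 2 * S = r * (r + 1) := DGK.two_mul_sum r
  by_contra hcon
  have h5 : deg κ ≤ -3 := by omega
  have hr0 : (0 : ℤ) ≤ (r : ℤ) * (r + 1) := by positivity
  have h6 : (r : ℤ) * (r + 1) * 3 ≤ 2 * (((r : ℤ) + 1) * ((3 * g + 4 : ℕ) : ℤ)) := by
    have h7 : (r : ℤ) * (r + 1) * 3 ≤ (r : ℤ) * (r + 1) * (-deg κ) :=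
      mul_le_mul_of_nonneg_left (by omega) hr0
    have h8 : (r : ℤ) * (r + 1) * (-deg κ) = 2 * (S * (-deg κ)) := by
      rw [← h4]; ring
    rw [h8] at h7
    linarith
  have h9 : ((r : ℤ) + 1) * (3 * r) ≤ ((r : ℤ) + 1) * (2 * ((3 * g + 4 : ℕ) : ℤ)) := by
    linarith
  have h10 : (3 * (r : ℤ)) ≤ 2 * ((3 * g + 4 : ℕ) : ℤ) :=
    le_of_mul_le_mul_left h9 (by positivity)
  rw [hr] at h10
  push_cast at h10
  omega

end MldGeo
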