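import Pool.Agent.Mld.MainA
import Pool.Agent.MldGeo.FreeAge
import Pool.Agent.MldGeo.Stmts2

/-!
# The dimension-free ascending chain condition for isolated quotient singularities
-/

namespace MldGeo

/-- The numbers `dim X / 2 - mld_x(X)`, where `(X, x)` runs over the isolated quotient singularities
`(ℂⁿ / G, 0)` of all dimensions `n ≥ 2`: `G` is a nontrivial finite group of linear maps which acts
freely on `ℂⁿ ∖ 0`. (`T` is the triple without boundary and without ideals.) -/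
def defects : Set ℝ :=
  {d : ℝ | ∃ (n : ℕ) (G : Subgroup (GL (Fin n) ℂ)) (X : Germ n) (T : Triple X),
    2 ≤ n ∧ Finite G ∧ G ≠ ⊥ ∧ MldGap.ActsFreely G ∧ X.IsQuotient G ∧ T.NoBoundary ∧
    IsEmpty T.J ∧ d = (n : ℝ) / 2 - T.mld}

theorem defects_isWF (hMLQ : Stmt_MLQ) (hFRE : Stmt_FRE) : defects.IsWF := by
  refine (Pool.Agent.Mld.acc_holds : Pool.Agent.Mld.defects.IsWF).mono ?_
  rintro d ⟨n, G, X, T, hn, hfin, hne, hfree, hX, hB, hJ, rfl⟩
  have hG : Pool.Agent.Mld.IsoQuot G := ⟨hn, hfin, hne, hfree⟩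
  refine ⟨n, G, hG, ?_⟩
  rw [← mldQuot_eq_mld hG, hMLQ G T (by omega) ((hFRE G T hn hfree hX hJ).1 hB)]

end MldGeo
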