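import Pool.Agent.MldGeo.StmtsQ

/-!
# EIG: a basis of eigenvectors of the dual of `φ`
-/

set_option autoImplicit false

namespace MldGeo

noncomputable section

namespace EIG

/-! ### the projections on the eigenspaces of an endomorphism of finite order -/

section Gen

variable {K V : Type*} [Field K] [CharZero K] [AddCommGroup V] [Module K V]

/-- The projection on an eigenspace of an endomorphism of finite order. -/
def prj (f : Module.End K V) (e : ℕ) (ζ : K) : Module.End K V :=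
  (e : K)⁻¹ • ∑ j ∈ Finset.range e, ζ⁻¹ ^ j • f ^ j

theorem prj_apply (f : Module.End K V) (e : ℕ) (ζ : K) (x : V) :
    prj f e ζ x = (e : K)⁻¹ • ∑ j ∈ Finset.range e, ζ⁻¹ ^ j • (f ^ j) x := by
  unfold prj
  rw [LinearMap.smul_apply, LinearMap.sum_apply]
  rfl

theorem prj_mem {f : Module.End K V} {e : ℕ} {ζ : K} (he : 0 < e) (hf : f ^ e = 1)
    (hζ : ζ ^ e = 1) (x : V) : f (prj f e ζ x) = ζ • prj f e ζ x := by
  have hζ0 : ζ ≠ 0 := by
    rintro rfl
    rw [zero_pow he.ne'] at hζ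
    exact zero_ne_one hζ
  obtain ⟨F, hF⟩ : ∃ F : ℕ → V, F = fun j => ζ⁻¹ ^ j • (f ^ j) x := ⟨_, rfl⟩
  have h0 : F e = F 0 := by
    rw [hF]
    simp [inv_pow, hζ, hf]
  have h1 : ∀ j, f (F j) = ζ • F (j + 1) := by
    intro j
    rw [hF]
    simp only
    rw [map_smul, smul_smul, pow_succ, ← mul_assoc, mul_comm ζ, mul_assoc, mul_inv_cancel₀ hζ0,
      mul_one, pow_succ', Module.End.mul_apply]
  have h2 : ∑ j ∈ Finset.range e, F (j + 1) = ∑ j ∈ Finset.range e, F j := by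
    have h3 := Finset.sum_range_succ F e
    have h4 := Finset.sum_range_succ' F e
    rw [h3, h0] at h4
    exact (add_right_cancel h4).symm
  have h3 : prj f e ζ x = (e : K)⁻¹ • ∑ j ∈ Finset.range e, F j := by
    rw [prj_apply, hF]
  rw [h3, map_smul, map_sum, Finset.sum_congr rfl fun j _ => h1 j, ← Finset.smul_sum, h2,
    smul_comm]

theorem prj_of_mem {f : Module.End K V} {e : ℕ} {ζ : K} (he : 0 < e)
    (hζ : ζ ^ e = 1) {x : V} (hx : f x = ζ • x) : prj f e ζ x = x := by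
  have hζ0 : ζ ≠ 0 := by
    rintro rfl
    rw [zero_pow he.ne'] at hζ
    exact zero_ne_one hζ
  have h1 : ∀ j : ℕ, (f ^ j) x = ζ ^ j • x := by
    intro j
    induction j with
    | zero => simp
    | succ j ih => rw [pow_succ', Module.End.mul_apply, ih, map_smul, hx, smul_smul, pow_succ]
  have h2 : ∀ j : ℕ, ζ⁻¹ ^ j • (f ^ j) x = x := by
    intro j
    rw [h1, smul_smul, ← mul_pow, inv_mul_cancel₀ hζ0, one_pow, one_smul]
  have he' : (e : K) ≠ 0 := Nat.cast_ne_zero.2 he.ne'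
  rw [prj_apply, Finset.sum_congr rfl fun j _ => h2 j, Finset.sum_const, Finset.card_range,
    ← Nat.cast_smul_eq_nsmul K, smul_smul, inv_mul_cancel₀ he', one_smul]

theorem isProj {f : Module.End K V} {e : ℕ} {ζ : K} (he : 0 < e) (hf : f ^ e = 1)
    (hζ : ζ ^ e = 1) : LinearMap.IsProj (f.eigenspace ζ) (prj f e ζ) where
  map_mem x := Module.End.mem_eigenspace_iff.2 (prj_mem he hf hζ x)
  map_id x hx := prj_of_mem he hζ (Module.End.mem_eigenspace_iff.1 hx)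

theorem finrank_eig [FiniteDimensional K V] {f : Module.End K V} {e : ℕ} {ζ : K} (he : 0 < e)
    (hf : f ^ e = 1) (hζ : ζ ^ e = 1) : (Module.finrank K (f.eigenspace ζ) : K) =
      (e : K)⁻¹ * ∑ j ∈ Finset.range e, ζ⁻¹ ^ j * LinearMap.trace K V (f ^ j) := by
  rw [← (isProj he hf hζ).trace]
  unfold prj
  rw [map_smul, map_sum, smul_eq_mul]
  congr 1
  refine Finset.sum_congr rfl fun j _ => ?_
  rw [map_smul, smul_eq_mul]

end Gen

/-! ### the matrix of the dual -/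

section Mat

variable {n : ℕ}

/-- The matrix of the dual of `φ`. -/
def mt (φ : (Fin n → ℤ) →ₗ[ℤ] (Fin n → ℤ)) : Matrix (Fin n) (Fin n) ℤ :=
  (LinearMap.toMatrix' φ).transpose

/-- The dual of `φ` over a ring. -/
def du (R : Type) [CommRing R] (φ : (Fin n → ℤ) →ₗ[ℤ] (Fin n → ℤ)) :
    Module.End R (Fin n → R) := Matrix.toLin' ((mt φ).map (Int.castRingHom R))

theorem du_apply (R : Type) [CommRing R] (φ : (Fin n → ℤ) →ₗ[ℤ] (Fin n → ℤ)) (y : Fin n → R)
    (i : Fin n) : du R φ y i = ∑ j, ((φ (Pi.single i 1) j : ℤ) : R) * y j := by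
  unfold du mt
  rw [Matrix.toLin'_apply, Matrix.mulVec, dotProduct]
  refine Finset.sum_congr rfl fun j _ => ?_
  rw [Matrix.map_apply, Matrix.transpose_apply, LinearMap.toMatrix'_apply]
  simp [Pi.single_apply]

theorem mt_pow {φ : (Fin n → ℤ) →ₗ[ℤ] (Fin n → ℤ)} {e : ℕ} (h : φ ^ e = 1) : mt φ ^ e = 1 := by
  unfold mt
  rw [← Matrix.transpose_pow]
  have h1 : LinearMap.toMatrix' φ ^ e = LinearMap.toMatrix' (φ ^ e) := by
    have := map_pow (LinearMap.toMatrixAlgEquiv' (R := ℤ) (n := Fin n)) φ e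
    exact this.symm
  rw [h1, h]
  have h2 : LinearMap.toMatrix' (1 : (Fin n → ℤ) →ₗ[ℤ] (Fin n → ℤ)) = 1 :=
    LinearMap.toMatrix'_id
  rw [h2, Matrix.transpose_one]

theorem du_pow (R : Type) [CommRing R] (φ : (Fin n → ℤ) →ₗ[ℤ] (Fin n → ℤ)) (j : ℕ) :
    du R φ ^ j = Matrix.toLin' ((mt φ ^ j).map (Int.castRingHom R)) := by
  unfold du
  rw [← Matrix.toLin'_pow]
  congr 1
  exact (map_pow (Int.castRingHom R).mapMatrix (mt φ) j).symm

theorem du_pow_one (R : Type) [CommRing R] {φ : (Fin n → ℤ) →ₗ[ℤ] (Fin n → ℤ)} {e : ℕ}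
    (h : φ ^ e = 1) : du R φ ^ e = 1 := by
  rw [du_pow, mt_pow h]
  have h1 : (1 : Matrix (Fin n) (Fin n) ℤ).map (Int.castRingHom R) = 1 :=
    map_one (Int.castRingHom R).mapMatrix
  rw [h1, Matrix.toLin'_one]
  rfl

theorem trace_du (R : Type) [CommRing R] (φ : (Fin n → ℤ) →ₗ[ℤ] (Fin n → ℤ)) (j : ℕ) :
    LinearMap.trace R (Fin n → R) (du R φ ^ j) = (((mt φ ^ j).trace : ℤ) : R) := by
  rw [du_pow, Matrix.trace_toLin'_eq, Matrix.trace, Matrix.trace, Int.cast_sum]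
  rfl

theorem dual_eq (φ : (Fin n → ℤ) →ₗ[ℤ] (Fin n → ℤ)) : dual φ = du ℝ φ := by
  refine LinearMap.ext fun y => funext fun i => ?_
  rw [du_apply]
  unfold dual
  rw [LinearMap.pi_apply, TDC.form_apply]

theorem expand (φ : (Fin n → ℤ) →ₗ[ℤ] (Fin n → ℤ)) (m : Fin n → ℤ) (j : Fin n) :
    φ m j = ∑ i, m i * φ (Pi.single i 1) j := by
  have h1 : m = ∑ i, m i • (Pi.single i 1 : Fin n → ℤ) := by
    funext k
    rw [Finset.sum_apply]
    simp [Pi.single_apply]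
  conv_lhs => rw [h1]
  rw [map_sum, Finset.sum_apply]
  refine Finset.sum_congr rfl fun i _ => ?_
  rw [map_smul, Pi.smul_apply, smul_eq_mul]

theorem pairing (R : Type) [CommRing R] (φ : (Fin n → ℤ) →ₗ[ℤ] (Fin n → ℤ)) (m : Fin n → ℤ)
    (y : Fin n → R) : ∑ j, ((φ m j : ℤ) : R) * y j = ∑ i, ((m i : ℤ) : R) * du R φ y i := by
  have h1 : ∀ j, ((φ m j : ℤ) : R) * y j =
      ∑ i, ((m i : ℤ) : R) * (((φ (Pi.single i 1) j : ℤ) : R) * y j) := by
    intro j
    rw [expand φ m j, Int.cast_sum, Finset.sum_mul]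
    refine Finset.sum_congr rfl fun i _ => ?_
    rw [Int.cast_mul, mul_assoc]
  rw [Finset.sum_congr rfl fun j _ => h1 j, Finset.sum_comm]
  refine Finset.sum_congr rfl fun i _ => ?_
  rw [du_apply, Finset.mul_sum]

theorem cpair_phi (φ : (Fin n → ℤ) →ₗ[ℤ] (Fin n → ℤ)) (m : Fin n → ℤ) (y : Fin n → ℂ) :
    cpair (φ m) y = cpair m (du ℂ φ y) := pairing ℂ φ m y

theorem pair_phi (φ : (Fin n → ℤ) →ₗ[ℤ] (Fin n → ℤ)) (m y : Fin n → ℤ) :
    pair (φ m) y = pair m (du ℤ φ y) := by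
  have := pairing ℤ φ m y
  simpa [pair] using this

theorem toC_du (φ : (Fin n → ℤ) →ₗ[ℤ] (Fin n → ℤ)) (y : Fin n → ℤ) :
    toC (du ℤ φ y) = du ℂ φ (toC y) := by
  funext i
  unfold toC
  rw [du_apply, du_apply, Int.cast_sum]
  refine Finset.sum_congr rfl fun j _ => ?_
  rw [Int.cast_mul]
  simp

theorem toC_du_pow (φ : (Fin n → ℤ) →ₗ[ℤ] (Fin n → ℤ)) (y : Fin n → ℤ) (j : ℕ) :
    toC ((du ℤ φ ^ j) y) = (du ℂ φ ^ j) (toC y) := by
  induction j with
  | zero => rfl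
  | succ j ih =>
    rw [pow_succ', Module.End.mul_apply, toC_du, ih, pow_succ', Module.End.mul_apply]

theorem toC_sum {α : Type} (s : Finset α) (g : α → Fin n → ℤ) :
    toC (∑ i ∈ s, g i) = ∑ i ∈ s, toC (g i) := by
  funext k
  unfold toC
  rw [Finset.sum_apply, Finset.sum_apply, Int.cast_sum]

theorem fix_iff (φ : (Fin n → ℤ) →ₗ[ℤ] (Fin n → ℤ)) (y : Fin n → ℤ) :
    (∀ m, pair (φ m) y = pair m y) ↔ du ℤ φ y = y := by
  constructor
  · intro h
    funext i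
    have h1 := h (Pi.single i 1)
    rw [pair_phi] at h1
    simpa [pair, Pi.single_apply] using h1
  · intro h m
    rw [pair_phi, h]

theorem fix_sum (φ : (Fin n → ℤ) →ₗ[ℤ] (Fin n → ℤ)) {e : ℕ} (hφ : φ ^ e = 1)
    (y : Fin n → ℤ) : du ℤ φ (∑ j ∈ Finset.range e, (du ℤ φ ^ j) y) =
      ∑ j ∈ Finset.range e, (du ℤ φ ^ j) y := by
  have h3 := Finset.sum_range_succ (fun j => (du ℤ φ ^ j) y) e
  have h4 := Finset.sum_range_succ' (fun j => (du ℤ φ ^ j) y) e
  rw [h3, du_pow_one ℤ hφ, pow_zero] at h4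
  have h5 := add_right_cancel h4
  rw [map_sum]
  conv_rhs => rw [h5]
  refine Finset.sum_congr rfl fun j _ => ?_
  rw [pow_succ', Module.End.mul_apply]

theorem eig_span (φ : (Fin n → ℤ) →ₗ[ℤ] (Fin n → ℤ)) {e : ℕ} (he : 0 < e) (hφ : φ ^ e = 1) :
    Submodule.span ℂ (toC '' {y | du ℤ φ y = y}) = (du ℂ φ).eigenspace 1 := by
  apply le_antisymm
  · rw [Submodule.span_le]
    rintro _ ⟨y, hy, rfl⟩
    rw [SetLike.mem_coe, Module.End.mem_eigenspace_iff, one_smul, ← toC_du]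
    rw [show du ℤ φ y = y from hy]
  · intro x hx
    rw [Module.End.mem_eigenspace_iff] at hx
    rw [← prj_of_mem he (one_pow e) hx, prj_apply]
    apply Submodule.smul_mem
    have h1 : x = ∑ i, x i • toC (Pi.single i 1 : Fin n → ℤ) := by
      funext k
      rw [Finset.sum_apply]
      simp [toC, Pi.single_apply]
    have h2 : ∑ j ∈ Finset.range e, (1 : ℂ)⁻¹ ^ j • (du ℂ φ ^ j) x =
        ∑ i, x i • toC (∑ j ∈ Finset.range e, (du ℤ φ ^ j) (Pi.single i 1)) := by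
      have h3 : ∀ j, (1 : ℂ)⁻¹ ^ j • (du ℂ φ ^ j) x =
          ∑ i, x i • toC ((du ℤ φ ^ j) (Pi.single i 1)) := by
        intro j
        rw [inv_one, one_pow, one_smul]
        conv_lhs => rw [h1]
        rw [map_sum]
        refine Finset.sum_congr rfl fun i _ => ?_
        rw [map_smul, toC_du_pow]
      rw [Finset.sum_congr rfl fun j _ => h3 j, Finset.sum_comm]
      refine Finset.sum_congr rfl fun i _ => ?_
      rw [← Finset.smul_sum, toC_sum]
    rw [h2]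
    refine Submodule.sum_mem _ fun i _ => Submodule.smul_mem _ _ (Submodule.subset_span ?_)
    exact ⟨_, fix_sum φ hφ _, rfl⟩

theorem finrank_real (φ : (Fin n → ℤ) →ₗ[ℤ] (Fin n → ℤ)) {e : ℕ} (he : 0 < e) (hφ : φ ^ e = 1) :
    cod φ + Module.finrank ℂ ((du ℂ φ).eigenspace 1) = n := by
  have h1 : LinearMap.ker (dual φ - 1) = (du ℝ φ).eigenspace 1 := by
    ext x
    rw [LinearMap.mem_ker, Module.End.mem_eigenspace_iff, dual_eq, LinearMap.sub_apply,
      one_smul, sub_eq_zero]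
    rfl
  have h2 := LinearMap.finrank_range_add_finrank_ker (dual φ - 1)
  rw [h1, Module.finrank_fin_fun] at h2
  have h3 := finrank_eig he (du_pow_one ℝ hφ) (one_pow e)
  have h4 := finrank_eig he (du_pow_one ℂ hφ) (one_pow e)
  have h5 : Module.finrank ℝ ((du ℝ φ).eigenspace 1) =
      Module.finrank ℂ ((du ℂ φ).eigenspace 1) := by
    have h6 : ((Module.finrank ℝ ((du ℝ φ).eigenspace 1) : ℝ) : ℂ) =
        (Module.finrank ℂ ((du ℂ φ).eigenspace 1) : ℂ) := by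
      rw [h3, h4]
      push_cast
      congr 1
      refine Finset.sum_congr rfl fun j _ => ?_
      rw [trace_du, trace_du]
      simp
    exact_mod_cast h6
  rw [← h5]
  exact h2

/-- The dimensions of the eigenspaces. -/
def dm (φ : (Fin n → ℤ) →ₗ[ℤ] (Fin n → ℤ)) (ω : ℂ) (a : ℕ) : ℕ :=
  Module.finrank ℂ ((du ℂ φ).eigenspace (ω ^ a))

theorem dm_symm (φ : (Fin n → ℤ) →ₗ[ℤ] (Fin n → ℤ)) {e : ℕ} (he : 0 < e) (hφ : φ ^ e = 1)
    {ω : ℂ} (hω : ω ^ e = 1) {a b : ℕ} (hab : a + b = e) : dm φ ω a = dm φ ω b := by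
  have hω' : ∀ a : ℕ, (ω ^ a) ^ e = 1 := by
    intro a
    rw [← pow_mul, mul_comm, pow_mul, hω, one_pow]
  have hc : (starRingEnd ℂ) ω = ω⁻¹ := by
    have h1 : ‖ω‖ = 1 := Complex.norm_eq_one_of_pow_eq_one hω he.ne'
    rw [Complex.inv_def, Complex.normSq_eq_norm_sq, h1]
    simp
  have hb : ω ^ b = (ω ^ a)⁻¹ := by
    have h1 : ω ^ a * ω ^ b = 1 := by rw [← pow_add, hab, hω]
    exact (inv_eq_of_mul_eq_one_right h1).symm
  have h1 := finrank_eig he (du_pow_one ℂ hφ) (hω' a)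
  have h2 := finrank_eig he (du_pow_one ℂ hφ) (hω' b)
  have h3 : (starRingEnd ℂ) ((dm φ ω a : ℕ) : ℂ) = ((dm φ ω b : ℕ) : ℂ) := by
    unfold dm
    rw [h1, h2, map_mul, map_inv₀, map_natCast, map_sum]
    congr 1
    refine Finset.sum_congr rfl fun j _ => ?_
    rw [map_mul, trace_du, map_intCast, map_pow, map_inv₀, map_pow, hc, hb, inv_inv, inv_pow,
      inv_pow, inv_pow, inv_inv]
  rw [map_natCast] at h3
  exact_mod_cast h3

theorem sum_top (φ : (Fin n → ℤ) →ₗ[ℤ] (Fin n → ℤ)) {e : ℕ} (he : 0 < e) (hφ : φ ^ e = 1)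
    {ω : ℂ} (hω : IsPrimitiveRoot ω e) :
    ⨆ a : Fin e, (du ℂ φ).eigenspace (ω ^ (a : ℕ)) = ⊤ := by
  have hω' : ∀ a : ℕ, (ω ^ a) ^ e = 1 := by
    intro a
    rw [← pow_mul, mul_comm, pow_mul, hω.pow_eq_one, one_pow]
  have he' : (e : ℂ) ≠ 0 := Nat.cast_ne_zero.2 he.ne'
  rw [eq_top_iff]
  intro x _
  have h1 : x = ∑ a : Fin e, prj (du ℂ φ) e (ω ^ (a : ℕ)) x := by
    have h2 : ∀ j ∈ Finset.range e, ∑ a ∈ Finset.range e, ((ω ^ a)⁻¹) ^ j =
        if j = 0 then (e : ℂ) else 0 := by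
      intro j hj
      rw [Finset.mem_range] at hj
      have h3 : ∀ a : ℕ, ((ω ^ a)⁻¹) ^ j = ((ω⁻¹) ^ j) ^ a := by
        intro a
        rw [← inv_pow, ← pow_mul, ← pow_mul, mul_comm]
      rw [Finset.sum_congr rfl fun a _ => h3 a]
      by_cases hj0 : j = 0
      · rw [if_pos hj0, hj0, pow_zero]
        simp
      · rw [if_neg hj0]
        have h4 : (ω⁻¹) ^ j ≠ 1 := hω.inv.pow_ne_one_of_pos_of_lt hj0 hj
        rw [geom_sum_eq h4, ← pow_mul, mul_comm, pow_mul, inv_pow, hω.pow_eq_one, inv_one,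
          one_pow, sub_self, zero_div]
    rw [Fin.sum_univ_eq_sum_range (fun a => prj (du ℂ φ) e (ω ^ a) x) e,
      Finset.sum_congr rfl fun a _ => prj_apply _ _ _ _, ← Finset.smul_sum, Finset.sum_comm]
    rw [Finset.sum_congr rfl fun j hj => by rw [← Finset.sum_smul, h2 j hj]]
    rw [Finset.sum_eq_single_of_mem 0 (Finset.mem_range.2 he)]
    · rw [if_pos rfl, pow_zero, smul_smul, inv_mul_cancel₀ he', one_smul]
      rfl
    · intro j _ hj
      rw [if_neg hj, zero_smul]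
  rw [h1]
  refine Submodule.sum_mem _ fun a _ => ?_
  exact Submodule.mem_iSup_of_mem a (Module.End.mem_eigenspace_iff.2
    (prj_mem he (du_pow_one ℂ hφ) (hω' a) x))

theorem internal (φ : (Fin n → ℤ) →ₗ[ℤ] (Fin n → ℤ)) {e : ℕ} (he : 0 < e) (hφ : φ ^ e = 1)
    {ω : ℂ} (hω : IsPrimitiveRoot ω e) :
    DirectSum.IsInternal fun a : Fin e => (du ℂ φ).eigenspace (ω ^ (a : ℕ)) := by
  refine DirectSum.isInternal_submodule_of_iSupIndep_of_iSup_eq_top ?_ (sum_top φ he hφ hω)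
  refine (Module.End.eigenspaces_iSupIndep (du ℂ φ)).comp ?_
  intro a b hab
  exact Fin.ext (hω.pow_inj a.2 b.2 hab)

theorem sum_dm (φ : (Fin n → ℤ) →ₗ[ℤ] (Fin n → ℤ)) {e : ℕ} (he : 0 < e) (hφ : φ ^ e = 1)
    {ω : ℂ} (hω : IsPrimitiveRoot ω e) : ∑ a ∈ Finset.range e, dm φ ω a = n := by
  have h1 := Module.finrank_eq_card_basis ((internal φ he hφ hω).collectedBasis
    fun a => Module.finBasis ℂ ((du ℂ φ).eigenspace (ω ^ (a : ℕ))))
  rw [Module.finrank_fin_fun, Fintype.card_sigma] at h1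
  rw [← Fin.sum_univ_eq_sum_range (fun a => dm φ ω a) e]
  conv_rhs => rw [h1]
  refine Finset.sum_congr rfl fun a _ => ?_
  rw [Fintype.card_fin]
  rfl

theorem sum_a (d : ℕ → ℕ) (e : ℕ) (h : ∀ a b, 0 < a → 0 < b → a + b = e + 1 → d a = d b) :
    2 * ∑ a ∈ Finset.range (e + 1), a * d a = (e + 1) * ∑ a ∈ Finset.range e, d (a + 1) := by
  rw [Finset.sum_range_succ' (fun a => a * d a) e, zero_mul, add_zero, two_mul]
  have h1 : ∑ a ∈ Finset.range e, (a + 1) * d (a + 1) =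
      ∑ a ∈ Finset.range e, (e - a) * d (a + 1) := by
    rw [← Finset.sum_range_reflect (fun a => (a + 1) * d (a + 1)) e]
    refine Finset.sum_congr rfl fun a ha => ?_
    rw [Finset.mem_range] at ha
    have h2 : e - 1 - a + 1 = e - a := by omega
    rw [h2, h (e - a) (a + 1) (by omega) (by omega) (by omega)]
  have h3 : ∑ a ∈ Finset.range e, (a + 1) * d (a + 1) +
      ∑ a ∈ Finset.range e, (e - a) * d (a + 1) = (e + 1) * ∑ a ∈ Finset.range e, d (a + 1) := by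
    rw [← Finset.sum_add_distrib, Finset.mul_sum]
    refine Finset.sum_congr rfl fun a ha => ?_
    rw [Finset.mem_range] at ha
    rw [← add_mul]
    congr 1
    omega
  rw [← h3, ← h1]

theorem eig_vec (φ : (Fin n → ℤ) →ₗ[ℤ] (Fin n → ℤ)) {e : ℕ} (he : 0 < e) (hφ : φ ^ e = 1)
    {ω : ℂ} (hω : IsPrimitiveRoot ω e) :
    ∃ (q : ℕ) (ε : Fin q → Fin n → ℂ) (a : Fin q → ℕ), (∀ i, 0 < a i ∧ a i < e) ∧
      (∀ i, du ℂ φ (ε i) = ω ^ a i • ε i) ∧ LinearIndependent ℂ ε ∧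
      (∀ F : ℕ → ℕ, F 0 = 0 → ∑ i, F (a i) = ∑ j ∈ Finset.range e, dm φ ω j * F j) ∧
      Disjoint ((du ℂ φ).eigenspace 1) (Submodule.span ℂ (Set.range ε)) := by
  classical
  obtain ⟨B⟩ : Nonempty (∀ a : Fin e, Module.Basis (Fin (dm φ ω a)) ℂ
      ((du ℂ φ).eigenspace (ω ^ (a : ℕ)))) :=
    ⟨fun a => Module.finBasis ℂ _⟩
  obtain ⟨q, hq⟩ : ∃ q, q = Fintype.card {x : Σ a : Fin e, Fin (dm φ ω a) // (x.1 : ℕ) ≠ 0} :=
    ⟨_, rfl⟩
  obtain ⟨e₂⟩ : Nonempty (Fin q ≃ {x : Σ a : Fin e, Fin (dm φ ω a) // (x.1 : ℕ) ≠ 0}) := by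
    rw [hq]
    exact ⟨(Fintype.equivFin _).symm⟩
  have hint := internal φ he hφ hω
  have hval : ∀ x : Σ a : Fin e, Fin (dm φ ω a), hint.collectedBasis B x = (B x.1 x.2 : Fin n → ℂ) :=
    fun x => congrFun (DirectSum.IsInternal.collectedBasis_coe hint B) x
  have hmem : ∀ x : Σ a : Fin e, Fin (dm φ ω a),
      du ℂ φ (hint.collectedBasis B x) = ω ^ (x.1 : ℕ) • hint.collectedBasis B x := by
    intro x
    rw [hval]
    exact Module.End.mem_eigenspace_iff.1 (B x.1 x.2).2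
  refine ⟨q, fun i => hint.collectedBasis B (e₂ i).1, fun i => ((e₂ i).1.1 : ℕ), ?_, ?_, ?_, ?_, ?_⟩
  · intro i
    exact ⟨Nat.pos_of_ne_zero (e₂ i).2, (e₂ i).1.1.2⟩
  · intro i
    exact hmem _
  · refine (hint.collectedBasis B).linearIndependent.comp (fun i => (e₂ i).1) ?_
    exact Subtype.val_injective.comp e₂.injective
  · intro F hF
    rw [Equiv.sum_comp e₂ (fun x => F (x.1.1 : ℕ)),
      ← Finset.sum_subtype (Finset.univ.filter fun x : Σ a : Fin e, Fin (dm φ ω a) =>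
        (x.1 : ℕ) ≠ 0) (fun x => by simp) (fun x => F (x.1 : ℕ)), Finset.sum_filter]
    have h1 : ∀ x : Σ a : Fin e, Fin (dm φ ω a), (if (x.1 : ℕ) ≠ 0 then F (x.1 : ℕ) else 0) =
        F (x.1 : ℕ) := by
      intro x
      by_cases hx : (x.1 : ℕ) = 0
      · rw [if_neg (not_not.2 hx), hx, hF]
      · rw [if_pos hx]
    rw [Finset.sum_congr rfl fun x _ => h1 x, Fintype.sum_sigma,
      ← Fin.sum_univ_eq_sum_range (fun j => dm φ ω j * F j) e]
    refine Finset.sum_congr rfl fun a _ => ?_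
    change ∑ _y : Fin (dm φ ω a), F (a : ℕ) = _
    rw [Finset.sum_const, Finset.card_univ, Fintype.card_fin, smul_eq_mul]
  · have hind := hint.submodule_iSupIndep
    have h1 := hind ⟨0, he⟩
    have h2 : (du ℂ φ).eigenspace 1 = (du ℂ φ).eigenspace (ω ^ ((⟨0, he⟩ : Fin e) : ℕ)) := by
      rw [pow_zero]
    rw [h2]
    refine h1.mono_right ?_
    rw [Submodule.span_le]
    rintro _ ⟨i, rfl⟩
    have h3 : (e₂ i).1.1 ≠ ⟨0, he⟩ := by
      intro h
      exact (e₂ i).2 (congrArg Fin.val h)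
    exact Submodule.mem_iSup_of_mem (e₂ i).1.1 (Submodule.mem_iSup_of_mem h3
      (Module.End.mem_eigenspace_iff.2 (hmem _)))

theorem eig_int (φ : (Fin n → ℤ) →ₗ[ℤ] (Fin n → ℤ)) {e : ℕ} (he : 0 < e) (hφ : φ ^ e = 1)
    {U : Fin n → ℤ} (hU : U ≠ 0) (hUfix : du ℤ φ U = U) :
    ∃ (p : ℕ) (ν : Fin p → Fin n → ℤ), p + 1 = Module.finrank ℂ ((du ℂ φ).eigenspace 1) ∧
      (∀ j, du ℤ φ (ν j) = ν j) ∧
      LinearIndependent ℂ (Sum.elim (fun _ : Unit => toC U) fun j => toC (ν j)) := by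
  classical
  have hUC : toC U ≠ 0 := by
    intro h
    apply hU
    funext i
    have h1 := congrFun h i
    have h2 : ((U i : ℤ) : ℂ) = 0 := h1
    exact_mod_cast h2
  have hs : LinearIndepOn ℂ (toC : (Fin n → ℤ) → Fin n → ℂ) {U} :=
    LinearIndepOn.singleton hUC
  obtain ⟨b, hbt, hUb, hspan, hli⟩ := exists_linearIndepOn_extension hs
    (t := {y | du ℤ φ y = y}) (by
      intro y hy
      rw [Set.mem_singleton_iff] at hy
      subst hy
      exact hUfix)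
  have hUb' : U ∈ b := hUb (Set.mem_singleton U)
  have hspan' : Submodule.span ℂ (toC '' b) = (du ℂ φ).eigenspace 1 := by
    rw [← eig_span φ he hφ]
    apply le_antisymm
    · exact Submodule.span_mono (Set.image_mono hbt)
    · exact Submodule.span_le.2 hspan
  have hfin : Finite b := hli.finite
  have hcard : Nat.card b = Module.finrank ℂ ((du ℂ φ).eigenspace 1) := by
    have hft : Fintype b := Fintype.ofFinite b
    rw [← hspan', Nat.card_eq_fintype_card, Set.image_eq_range]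
    exact (finrank_span_eq_card hli).symm
  have hpos : 0 < Nat.card b := by
    have : Nonempty b := ⟨⟨U, hUb'⟩⟩
    exact Nat.card_pos
  obtain ⟨p, hp⟩ : ∃ p, Nat.card b = p + 1 := ⟨Nat.card b - 1, by omega⟩
  obtain ⟨e₁⟩ : Nonempty (Fin (p + 1) ≃ b) := by
    rw [← hp]
    exact ⟨(Finite.equivFin b).symm⟩
  obtain ⟨e₀, he₀⟩ : ∃ e₀ : Fin (p + 1) ≃ b, e₀ 0 = ⟨U, hUb'⟩ :=
    ⟨(Equiv.swap 0 (e₁.symm ⟨U, hUb'⟩)).trans e₁, by simp⟩
  refine ⟨p, fun j => (e₀ j.succ : Fin n → ℤ), by rw [← hp, hcard],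
    fun j => hbt (e₀ j.succ).2, ?_⟩
  have h1 : LinearIndependent ℂ (fun x : b => toC (x : Fin n → ℤ)) := hli
  have h2 := h1.comp (fun x : Unit ⊕ Fin p => e₀ (Sum.elim (fun _ => 0) Fin.succ x)) (by
    refine e₀.injective.comp ?_
    rintro (x | x) (y | y) h
    · rfl
    · exact absurd h (Fin.succ_ne_zero y).symm
    · exact absurd h (Fin.succ_ne_zero x)
    · exact congrArg Sum.inr (Fin.succ_injective p h))
  have h3 : (Sum.elim (fun _ : Unit => toC U) fun j => toC (e₀ j.succ : Fin n → ℤ)) =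
      (fun x : b => toC (x : Fin n → ℤ)) ∘
        fun x : Unit ⊕ Fin p => e₀ (Sum.elim (fun _ => 0) Fin.succ x) := by
    funext x
    rcases x with x | x
    · change toC U = toC (e₀ 0 : Fin n → ℤ)
      rw [he₀]
    · rfl
  rw [h3]
  exact h2

end Mat

end EIG

open EIG in
theorem t_EIG : Stmt_EIG := by
  classical
  intro n e φ U he hφ hU hfix
  obtain ⟨ω, hωd⟩ : ∃ ω : ℂ, ω = Complex.exp (2 * Real.pi * Complex.I / e) := ⟨_, rfl⟩
  have hω : IsPrimitiveRoot ω e := by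
    rw [hωd]
    exact Complex.isPrimitiveRoot_exp e he.ne'
  have hωa : ∀ a : ℕ, ω ^ a = Complex.exp (2 * Real.pi * Complex.I * a / e) := by
    intro a
    rw [hωd, ← Complex.exp_nat_mul]
    congr 1
    ring
  obtain ⟨p, ν, hp, hν, hli1⟩ := eig_int φ he hφ hU ((fix_iff φ U).1 hfix)
  obtain ⟨q, ε, a, ha, hε, hli2, hcount, hdisj⟩ := eig_vec φ he hφ hω
  obtain ⟨e', rfl⟩ : ∃ e', e = e' + 1 := ⟨e - 1, by omega⟩
  have hp' : p + 1 = dm φ ω 0 := by
    unfold dm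
    rw [pow_zero]
    exact hp
  have hsum := sum_dm φ he hφ hω
  rw [Finset.sum_range_succ'] at hsum
  have hq : q = ∑ j ∈ Finset.range e', dm φ ω (j + 1) := by
    have h1 := hcount (fun j => if j = 0 then 0 else 1) (if_pos rfl)
    rw [Finset.sum_congr rfl fun i _ => if_neg (ha i).1.ne', Finset.sum_range_succ'] at h1
    simpa using h1
  have hqn : p + q + 1 = n := by
    rw [← hsum, ← hp', hq]
    ring
  have hcod := finrank_real φ he hφ
  rw [← hp] at hcod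
  refine ⟨p, q, ν, ε, a, hqn, by omega, fun j => (fix_iff φ _).2 (hν j), ha, ?_, ?_, ?_⟩
  · have h1 := hcount (fun j => j) rfl
    have h2 := sum_a (fun j => dm φ ω j) e' (fun i j _ _ hij =>
      dm_symm φ he hφ hω.pow_eq_one hij)
    rw [h1, hq, ← h2]
    congr 1
    exact Finset.sum_congr rfl fun j _ => mul_comm _ _
  · intro i m
    rw [cpair_phi, hε, hωa]
    unfold cpair
    rw [Finset.mul_sum]
    refine Finset.sum_congr rfl fun j _ => ?_
    rw [Pi.smul_apply, smul_eq_mul]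
    ring
  · refine LinearIndependent.sum_type hli1 hli2 (hdisj.mono_left ?_)
    rw [Submodule.span_le]
    rintro _ ⟨x | x, rfl⟩
    · change toC U ∈ (du ℂ φ).eigenspace 1
      rw [Module.End.mem_eigenspace_iff, one_smul, ← toC_du, (fix_iff φ U).1 hfix]
    · change toC (ν x) ∈ (du ℂ φ).eigenspace 1
      rw [Module.End.mem_eigenspace_iff, one_smul, ← toC_du, hν]

end

end MldGeo
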