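import Pool.Agent.MldGeo.StmtsQ
import Pool.Agent.MldGeo.GAUT

/-!
# EMBK: homomorphisms of the function field of a torus
-/

namespace MldGeo

namespace EMBK

open GAUT

noncomputable section

variable {n : ℕ} {K L : Type} [Field K] [Algebra ℂ K] [Field L] [Algebra ℂ L]
  {χ : (Fin n → ℤ) → K} {E : (Fin n → ℤ) → L}

theorem inj_of_linInd (h0 : E 0 = 1) (ha : ∀ u v, E (u + v) = E u * E v)
    (hli : LinearIndependent ℂ E) : Function.Injective (psi h0 ha) := by
  intro f g h
  rw [psi_apply, psi_apply] at h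
  exact AddMonoidAlgebra.coeff_injective (hli h)

theorem exists_ring (hχ : TorusField χ) (h0 : E 0 = 1) (ha : ∀ u v, E (u + v) = E u * E v)
    (hli : LinearIndependent ℂ E) :
    ∃ Φ : K →+* L, ∀ f, Φ (psi hχ.zero hχ.add f) = psi h0 ha f := by
  have hinj := psi_inj hχ.zero hχ.add hχ.indep
  let _ : Algebra (A n) K := (psi hχ.zero hχ.add).toRingHom.toAlgebra
  have _ : IsDomain (A n) := hinj.isDomain (psi hχ.zero hχ.add).toRingHom
  have _ : IsFractionRing (A n) K := by
    refine (isLocalization_iff _ _).2 ⟨fun s => ?_, fun a => ?_, fun {f g} h => ⟨1, ?_⟩⟩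
    · refine isUnit_iff_ne_zero.2 fun h => ?_
      exact nonZeroDivisors.coe_ne_zero s (hinj (h.trans (map_zero _).symm))
    · obtain ⟨r, hr, s, hs, hs0, e⟩ := hχ.frac a
      obtain ⟨f, rfl⟩ := range_psi hχ.zero hχ.add hr
      obtain ⟨g, rfl⟩ := range_psi hχ.zero hχ.add hs
      exact ⟨(f, ⟨g, mem_nonZeroDivisors_of_ne_zero fun h => hs0 (by rw [h, map_zero])⟩), e⟩
    · rw [hinj h]
  refine ⟨IsFractionRing.lift (g := (psi h0 ha).toRingHom) (inj_of_linInd h0 ha hli),
    fun f => ?_⟩
  exact IsFractionRing.lift_algebraMap (inj_of_linInd h0 ha hli) f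

end

end EMBK

open GAUT EMBK in
/-- EMBK. -/
theorem t_EMBK : Stmt_EMBK := by
  intro n K L _ _ _ _ χ hχ E h0 ha hli
  constructor
  · obtain ⟨Φ, hΦ⟩ := exists_ring hχ h0 ha hli
    refine ⟨{ Φ with commutes' := fun c => ?_ }, fun m => ?_⟩
    · have h1 := hΦ (algebraMap ℂ (A n) c)
      rw [AlgHom.commutes, AlgHom.commutes] at h1
      exact h1
    · have h1 := hΦ (AddMonoidAlgebra.single m 1)
      rw [psi_single, psi_single] at h1
      exact h1
  · intro ι ι' h
    have hspan : ∀ r ∈ Submodule.span ℂ (Set.range χ), ι r = ι' r := by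
      intro r hr
      induction hr using Submodule.span_induction with
      | mem x hx =>
        obtain ⟨m, rfl⟩ := hx
        exact h m
      | zero => rw [map_zero, map_zero]
      | add x y _ _ hx hy => rw [map_add, map_add, hx, hy]
      | smul c x _ hx => rw [map_smul, map_smul, hx]
    apply AlgHom.ext
    intro a
    obtain ⟨r, hr, s, hs, hs0, e⟩ := hχ.frac a
    have h1 : ι a * ι s = ι r := by rw [← map_mul, e]
    have h2 : ι' a * ι' s = ι' r := by rw [← map_mul, e]
    have h3 : ι s ≠ 0 := fun h4 => hs0 ((map_eq_zero_iff ι ι.injective).1 h4)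
    rw [← hspan r hr, ← hspan s hs, ← h1] at h2
    exact (mul_right_cancel₀ h3 h2).symm

end MldGeo
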