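import Pool.Agent.MldGeo.StmtsQ

/-!
# The exponential function on Laurent series of positive order (module EXPL, by helper38)
-/

namespace MldGeo

namespace EXPL

open DivVal

variable {L : Type} [Field L] [Algebra ℂ L] {n : ℕ} {v : DivVal n L}

/-- the truncated exponential series -/
noncomputable def X (x : L) (K : ℕ) : L :=
  ∑ k ∈ Finset.range K, algebraMap ℂ L ((k.factorial : ℂ)⁻¹) * x ^ k

theorem X_succ (x : L) (K : ℕ) :
    X x (K + 1) = X x K + algebraMap ℂ L ((K.factorial : ℂ)⁻¹) * x ^ K :=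
  Finset.sum_range_succ _ _

theorem X_zero (x : L) : X x 0 = 0 := Finset.sum_range_zero _

theorem ge_pow {x : L} (hx : v.Ge 1 x) (k : ℕ) : v.Ge k (x ^ k) := by
  have := hx.pow k
  rwa [mul_one] at this

theorem ge_term {x : L} (hx : v.Ge 1 x) (c : ℂ) (k : ℕ) : v.Ge k (algebraMap ℂ L c * x ^ k) :=
  (ge_pow hx k).const_mul c

theorem ge_X {x : L} (hx : v.Ge 1 x) (K : ℕ) : v.Ge 0 (X x K) :=
  Ge.sum _ _ fun k _ => (ge_term hx _ k).mono (by omega)

theorem eq_of_ge {y y' : L} (h : ∀ K : ℕ, v.Ge K (y - y')) : y = y' := by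
  have h1 : y - y' = 0 := by
    apply eq_zero_of_ge (v := v)
    intro k
    exact (h k.toNat).mono (by omega)
  exact sub_eq_zero.mp h1

theorem lim_unique {x y y' : L} (h : ∀ K : ℕ, v.Ge K (y - X x K))
    (h' : ∀ K : ℕ, v.Ge K (y' - X x K)) : y = y' := by
  apply eq_of_ge (v := v)
  intro K
  have h1 := (h K).sub (h' K)
  have h2 : y - X x K - (y' - X x K) = y - y' := by ring
  rwa [h2] at h1

theorem X_add (x y : L) (K : ℕ) : X (x + y) K = ∑ m ∈ Finset.range K,
    ∑ k ∈ Finset.range (K - m), (algebraMap ℂ L ((m.factorial : ℂ)⁻¹) * x ^ m) *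
      (algebraMap ℂ L ((k.factorial : ℂ)⁻¹) * y ^ k) := by
  rw [← Finset.sum_range_diag_flip K (fun m k => (algebraMap ℂ L ((m.factorial : ℂ)⁻¹) * x ^ m) *
      (algebraMap ℂ L ((k.factorial : ℂ)⁻¹) * y ^ k))]
  unfold X
  refine Finset.sum_congr rfl fun m _ => ?_
  rw [add_pow, Finset.mul_sum]
  refine Finset.sum_congr rfl fun k hk => ?_
  have hkm : k ≤ m := Nat.lt_succ_iff.mp (Finset.mem_range.mp hk)
  have h1 : (m.choose k : L) = algebraMap ℂ L (m.choose k : ℂ) := by rw [map_natCast]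
  have h2 : (m.choose k : ℂ) = (m.factorial : ℂ) * ((k.factorial : ℂ)⁻¹ *
      ((m - k).factorial : ℂ)⁻¹) := by
    rw [Nat.cast_choose ℂ hkm, div_eq_mul_inv, mul_inv]
  have h3 : (m.factorial : ℂ) ≠ 0 := by exact_mod_cast m.factorial_ne_zero
  have h4 : (algebraMap ℂ L ((m.factorial : ℂ)⁻¹)) * algebraMap ℂ L (m.factorial : ℂ) = 1 := by
    rw [← map_mul, inv_mul_cancel₀ h3, map_one]
  rw [h1, h2, map_mul, map_mul]
  linear_combination (x ^ k * y ^ (m - k) * algebraMap ℂ L ((k.factorial : ℂ)⁻¹) *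
    algebraMap ℂ L (((m - k).factorial : ℂ)⁻¹)) * h4

theorem ge_X_mul {x y : L} (hx : v.Ge 1 x) (hy : v.Ge 1 y) (K : ℕ) :
    v.Ge K (X x K * X y K - X (x + y) K) := by
  have h1 : X x K * X y K = ∑ m ∈ Finset.range K, ∑ k ∈ Finset.range K,
      (algebraMap ℂ L ((m.factorial : ℂ)⁻¹) * x ^ m) *
      (algebraMap ℂ L ((k.factorial : ℂ)⁻¹) * y ^ k) := by
    unfold X
    rw [Finset.sum_mul_sum]
  rw [h1, X_add, ← Finset.sum_sub_distrib]
  refine Ge.sum _ _ fun m hm => ?_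
  have hm' := Finset.mem_range.mp hm
  rw [← Finset.sum_range_add_sum_Ico _ (Nat.sub_le K m), add_sub_cancel_left]
  refine Ge.sum _ _ fun k hk => ?_
  have hk' := Finset.mem_Ico.mp hk
  refine ((ge_term hx _ m).mul (ge_term hy _ k)).mono ?_
  have : K ≤ m + k := by omega
  exact_mod_cast this

theorem der_pow (δ : Derivation ℂ L L) (x : L) (k : ℕ) :
    δ (algebraMap ℂ L (((k + 1).factorial : ℂ)⁻¹) * x ^ (k + 1)) =
      δ x * (algebraMap ℂ L ((k.factorial : ℂ)⁻¹) * x ^ k) := by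
  have h1 : algebraMap ℂ L (((k + 1).factorial : ℂ)⁻¹) * x ^ (k + 1) =
      (((k + 1).factorial : ℂ)⁻¹) • x ^ (k + 1) := (Algebra.smul_def _ _).symm
  rw [h1, Derivation.map_smul, Derivation.leibniz_pow, Nat.add_sub_cancel]
  have h2 : ((k + 1 : ℕ) : ℂ) ≠ 0 := by exact_mod_cast Nat.succ_ne_zero k
  have h3 : ((k.factorial : ℂ)⁻¹) = ((k + 1).factorial : ℂ)⁻¹ * ((k + 1 : ℕ) : ℂ) := by
    rw [Nat.factorial_succ]
    push_cast at h2 ⊢
    field_simp
  rw [h3, map_mul, map_natCast, Algebra.smul_def, nsmul_eq_mul, smul_eq_mul]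
  ring

theorem der_X (δ : Derivation ℂ L L) (x : L) (K : ℕ) : δ (X x (K + 1)) = δ x * X x K := by
  induction K with
  | zero =>
    rw [X_succ, X_zero]
    simp
  | succ K ih => rw [X_succ, map_add, ih, der_pow, X_succ x K, mul_add]

theorem ge_der {δ : Derivation ℂ L L} (hδ : ∀ x, δ x = 0 ∨ v.ord x ≤ v.ord (δ x)) {k : ℤ} {a : L}
    (ha : v.Ge k a) : v.Ge k (δ a) := by
  rcases hδ a with h | h
  · exact Or.inl h
  · rcases ha with h1 | h1
    · rw [h1, map_zero]
      exact Ge.zero v k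
    · exact Or.inr (h1.trans h)

theorem der_ex {δ : Derivation ℂ L L} (hδ : ∀ x, δ x = 0 ∨ v.ord x ≤ v.ord (δ x)) {x y : L}
    (hx : v.Ge 1 x) (h : ∀ K : ℕ, v.Ge K (y - X x K)) : δ y = δ x * y := by
  apply eq_of_ge (v := v)
  intro K
  have h1 : δ y - δ x * y = δ (y - X x (K + 1)) + δ x * (X x K - y) := by
    rw [map_sub, der_X]
    ring
  rw [h1]
  refine Ge.add ((ge_der hδ (h (K + 1))).mono (by push_cast; omega)) ?_
  exact Ge.mul_left ((ge_der hδ hx).mono (by omega)) (h K).sub_comm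

end EXPL

open EXPL DivVal in
/-- EXPL: the exponential function exists. -/
theorem t_EXPL : Stmt_EXPL := by
  intro F _ _ Λ
  classical
  have hex : ∀ x : Λ.L, Λ.Ge 1 x → ∃ y : Λ.L, ∀ K : ℕ, Λ.Ge K (y - X x K) := by
    intro x hx
    refine Λ.complete (X x) fun k => ?_
    have h1 : X x (k + 1) - X x k = algebraMap ℂ Λ.L ((k.factorial : ℂ)⁻¹) * x ^ k := by
      rw [X_succ]
      ring
    rw [h1]
    exact ge_term (v := Λ.val) hx _ k
  choose! ex hexs using hex
  have hge : ∀ x, Λ.Ge 1 x → Λ.Ge 0 (ex x) := by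
    intro x hx
    have h1 := hexs x hx 0
    rw [X_zero, sub_zero] at h1
    exact h1
  refine ⟨⟨ex, ?_, ?_, hexs, ?_, ?_, ?_⟩⟩
  · refine lim_unique (v := Λ.val) (hexs 0 (Ge.zero Λ.val 1)) fun K => ?_
    rcases Nat.eq_zero_or_pos K with rfl | hK
    · rw [X_zero, sub_zero]
      exact Ge.one Λ.val
    · obtain ⟨k, rfl⟩ : ∃ k, K = k + 1 := ⟨K - 1, by omega⟩
      have h1 : X (0 : Λ.L) (k + 1) = 1 := by
        unfold X
        rw [Finset.sum_range_succ']
        simp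
      rw [h1, sub_self]
      exact Ge.zero _ _
  · intro x y hx hy
    refine lim_unique (v := Λ.val) (hexs (x + y) (hx.add hy)) fun K => ?_
    have h1 : ex x * ex y - X (x + y) K = (ex x - X x K) * ex y + X x K * (ex y - X y K) +
        (X x K * X y K - X (x + y) K) := by ring
    rw [h1]
    exact (((hexs x hx K).mul_right (hge y hy)).add ((ge_X hx K).mul_left (hexs y hy K))).add
      (ge_X_mul hx hy K)
  · intro ζ x hx
    have hrot : ∀ (k : ℤ) (a : Λ.L), Λ.Ge k a → Λ.Ge k (Λ.rot ζ a) := by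
      intro k a ha
      rcases ha with h1 | h1
      · rw [h1, map_zero]
        exact Ge.zero _ _
      · refine Or.inr ?_
        have h2 : Λ.val.ord (Λ.rot ζ a) = Λ.val.ord a := Λ.rot_ord ζ a
        rw [h2]
        exact h1
    refine lim_unique (v := Λ.val) (fun K => ?_) (hexs (Λ.rot ζ x) (hrot 1 x hx))
    have h1 : Λ.rot ζ (X x K) = X (Λ.rot ζ x) K := by
      unfold X
      rw [map_sum]
      refine Finset.sum_congr rfl fun k _ => ?_
      rw [map_mul, map_pow, AlgHom.commutes]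
    rw [← h1, ← map_sub]
    exact hrot _ _ (hexs x hx K)
  · intro x hx
    exact der_ex (v := Λ.val) Λ.θ_ord hx (hexs x hx)
  · intro d x hx
    exact der_ex (v := Λ.val) (Λ.D_ord d) hx (hexs x hx)

end MldGeo
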