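import Pool.Agent.MldGeo.StmtsQ
import Pool.Agent.MldGeo.Ord

/-!
# Functions with prescribed leading terms
-/

namespace MldGeo

open MldGap MldAcc MldQ

noncomputable section

namespace FNC

theorem pair_nsmul {n : ℕ} (j : ℕ) (u y : Fin n → ℤ) : pair (j • u) y = j * pair u y := by
  unfold pair
  rw [Finset.mul_sum]
  exact Finset.sum_congr rfl fun i _ => by
    rw [Pi.smul_apply, nsmul_eq_mul]
    ring

theorem cpair_nsmul {n : ℕ} (j : ℕ) (u : Fin n → ℤ) (y : Fin n → ℂ) :
    cpair (j • u) y = j * cpair u y := by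
  unfold cpair
  rw [Finset.mul_sum]
  exact Finset.sum_congr rfl fun i _ => by
    rw [Pi.smul_apply, nsmul_eq_mul]
    push_cast
    ring

/-- A complex vector is a combination of integral vectors which satisfy all integral linear
equations it satisfies. -/
theorem expand {n : ℕ} (y : Fin n → ℂ) : ∃ (r : ℕ) (m : Fin r → Fin n → ℤ) (g : Fin r → ℂ),
    (∀ i, y i = ∑ l, g l * (m l i : ℂ)) ∧
    ∀ w : Fin n → ℤ, ∑ i, y i * (w i : ℂ) = 0 → ∀ l, pair (m l) w = 0 := by
  classical
  let b := Module.Basis.ofVectorSpace ℚ ℂ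
  let S : Finset (Module.Basis.ofVectorSpaceIndex ℚ ℂ) :=
    Finset.univ.biUnion fun i => (b.repr (y i)).support
  -- the rational coordinates
  have h1 : ∀ i, y i = ∑ k ∈ S, ((b.repr (y i) k : ℚ) : ℂ) * b k := by
    intro i
    have h2 := b.linearCombination_repr (y i)
    rw [Finsupp.linearCombination_apply, Finsupp.sum] at h2
    conv_lhs => rw [← h2]
    have h3 : (b.repr (y i)).support ⊆ S :=
      Finset.subset_biUnion_of_mem (fun i => (b.repr (y i)).support) (Finset.mem_univ i)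
    rw [Finset.sum_subset h3]
    · refine Finset.sum_congr rfl fun k _ => ?_
      rw [Rat.smul_def]
    · intro k _ hk
      rw [Finsupp.notMem_support_iff.mp hk, zero_smul]
  -- common denominators
  have h4 : ∀ k, ∃ (N : ℤ) (m : Fin n → ℤ), N ≠ 0 ∧ ∀ i, (m i : ℚ) = N * b.repr (y i) k := by
    intro k
    refine ⟨∏ i, ((b.repr (y i) k).den : ℤ),
      fun i => (∏ i' ∈ Finset.univ.erase i, ((b.repr (y i') k).den : ℤ)) *
        (b.repr (y i) k).num, ?_, ?_⟩
    · exact Finset.prod_ne_zero_iff.mpr fun i _ => by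
        exact_mod_cast (b.repr (y i) k).den_nz
    · intro i
      rw [← Finset.mul_prod_erase _ _ (Finset.mem_univ i)]
      push_cast
      have h5 : ((b.repr (y i) k).den : ℚ) * b.repr (y i) k = (b.repr (y i) k).num :=
        Rat.den_mul_eq_num _
      rw [← h5]
      ring
  choose N m hN hm using h4
  have hw : ∀ w : Fin n → ℤ, ∑ i, y i * (w i : ℂ) = 0 → ∀ k, pair (m k) w = 0 := by
    intro w hw k
    have h5 : b.repr (∑ i, y i * (w i : ℂ)) k = ∑ i, (w i : ℚ) * b.repr (y i) k := by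
      rw [map_sum, Finsupp.finsetSum_apply]
      refine Finset.sum_congr rfl fun i _ => ?_
      have h6 : y i * (w i : ℂ) = (w i : ℚ) • y i := by
        rw [Rat.smul_def]
        push_cast
        ring
      rw [h6, map_smul, Finsupp.smul_apply, smul_eq_mul]
    rw [hw, map_zero, Finsupp.zero_apply] at h5
    have h6 : ((pair (m k) w : ℤ) : ℚ) = 0 := by
      unfold pair
      push_cast
      simp only [hm]
      have h7 : ∑ i, (N k : ℚ) * b.repr (y i) k * (w i : ℚ) =
          N k * ∑ i, (w i : ℚ) * b.repr (y i) k := by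
        rw [Finset.mul_sum]
        exact Finset.sum_congr rfl fun i _ => by ring
      rw [h7, ← h5, mul_zero]
    exact_mod_cast h6
  let e := S.equivFin
  refine ⟨S.card, fun l => m (e.symm l).1, fun l => b (e.symm l).1 / N (e.symm l).1, ?_, ?_⟩
  · intro i
    rw [h1 i, ← Finset.sum_coe_sort S]
    refine (Fintype.sum_equiv e.symm _ _ fun l => ?_).symm
    have h5 : ((m (e.symm l).1 i : ℤ) : ℂ) =
        (N (e.symm l).1 : ℂ) * ((b.repr (y i) (e.symm l).1 : ℚ) : ℂ) := by
      have h6 := congrArg (fun q : ℚ => (q : ℂ)) (hm (e.symm l).1 i)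
      push_cast at h6
      exact h6
    have h7 : (N (e.symm l).1 : ℂ) ≠ 0 := by exact_mod_cast hN _
    rw [h5]
    field_simp
  · intro w hw' l
    exact hw w hw' _

end FNC

open FNC in
theorem t_FNC (_hCH1 : Stmt_CH1) (hVDM : Stmt_VDM) : Stmt_FNC := by
  classical
  intro n Q i
  -- the dual vector
  have hcard : Fintype.card ((Unit ⊕ Fin Q.p) ⊕ Fin Q.q) = Module.finrank ℂ (Fin n → ℂ) := by
    rw [Module.finrank_fin_fun]
    simp only [Fintype.card_sum, Fintype.card_unit, Fintype.card_fin]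
    have := Q.dim
    omega
  have hne : Nonempty ((Unit ⊕ Fin Q.p) ⊕ Fin Q.q) := ⟨Sum.inr i⟩
  let B := basisOfLinearIndependentOfCardEqFinrank Q.indep hcard
  have hB : ∀ k, B k = Sum.elim (Sum.elim (fun _ : Unit => toC Q.U) fun j => toC (Q.ν j)) Q.ε k :=
    fun k => by rw [coe_basisOfLinearIndependentOfCardEqFinrank]
  let y : Fin n → ℂ := fun j => B.coord (Sum.inr i) (Pi.single j 1)
  have hy : ∀ w : Fin n → ℂ, B.coord (Sum.inr i) w = ∑ j, y j * w j := by
    intro w
    have h1 : w = ∑ j, w j • (Pi.single j (1 : ℂ) : Fin n → ℂ) := by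
      rw [← pi_eq_sum_univ']
    conv_lhs => rw [h1]
    rw [map_sum]
    refine Finset.sum_congr rfl fun j _ => ?_
    rw [map_smul, smul_eq_mul, mul_comm]
  have hyB : ∀ k, ∑ j, y j * B k j = if k = Sum.inr i then 1 else 0 := by
    intro k
    rw [← hy, Module.Basis.coord_apply, B.repr_self, Finsupp.single_apply]
  obtain ⟨r, m, g, hg, hm⟩ := expand y
  have hmU : ∀ l, pair (m l) Q.U = 0 := by
    refine hm Q.U ?_
    have h1 := hyB (Sum.inl (Sum.inl ()))
    rw [hB, if_neg (by simp)] at h1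
    exact h1
  have hmν : ∀ j l, pair (m l) (Q.ν j) = 0 := by
    intro j
    refine hm (Q.ν j) ?_
    have h1 := hyB (Sum.inl (Sum.inr j))
    rw [hB, if_neg (by simp)] at h1
    exact h1
  have hmε : ∀ i', ∑ l, g l * cpair (m l) (Q.ε i') = if i' = i then 1 else 0 := by
    intro i'
    have h1 := hyB (Sum.inr i')
    rw [hB, Sum.elim_inr] at h1
    have h2 : (if (Sum.inr i' : (Unit ⊕ Fin Q.p) ⊕ Fin Q.q) = Sum.inr i then (1 : ℂ) else 0) =
        if i' = i then 1 else 0 := if_congr Sum.inr_injective.eq_iff rfl rfl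
    rw [← h2, ← h1]
    unfold cpair
    simp only [hg, Finset.sum_mul, Finset.mul_sum]
    rw [Finset.sum_comm]
    refine Finset.sum_congr rfl fun j _ => Finset.sum_congr rfl fun l _ => by ring
  -- the exponents
  have hZ1 : ∀ m, Q.Λ.Ge 1 (Q.Z m) := by
    intro m
    refine DivVal.Ge.sum _ _ fun k _ => DivVal.Ge.const_mul ?_ _
    have h1 : Q.Λ.val.Ge 0 (Q.Λ.emb (Q.x (Sum.inr k))) := by
      by_cases h : Q.x (Sum.inr k) = 0
      · rw [h, map_zero]
        exact DivVal.Ge.zero _ _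
      · exact Or.inr (Q.Λ.ord_emb _ h).ge
    have h2 : Q.Λ.val.Ge 1 (Q.Λ.s ^ Q.a k) := by
      refine Or.inr ?_
      rw [DivVal.ord_pow]
      have h3 : Q.Λ.val.ord Q.Λ.s = 1 := Q.Λ.ord_s
      have h4 := Q.a_pos k
      rw [h3]
      omega
    exact h1.mul_left h2
  have hZn : ∀ (j : ℕ) (u : Fin n → ℤ), Q.Z (j • u) = (j : Q.Λ.L) * Q.Z u := by
    intro j u
    rw [Setup.Z, Setup.Z, Finset.mul_sum]
    refine Finset.sum_congr rfl fun k _ => ?_
    rw [cpair_nsmul, map_mul, map_natCast, mul_assoc]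
  -- the values
  have hE : ∀ (j : ℕ) l, algebraMap ℂ Q.Λ.L (Q.b (j • m l))⁻¹ * Q.E (j • m l) =
      Q.ex.ex ((j : Q.Λ.L) * Q.Z (m l)) := by
    intro j l
    have h1 : ∏ k, Q.x (Sum.inl k) ^ pair (j • m l) (Q.ν k) = 1 := by
      refine Finset.prod_eq_one fun k _ => ?_
      rw [pair_nsmul, hmν, mul_zero, zpow_zero]
    rw [Setup.E, h1, pair_nsmul, hmU, mul_zero, zpow_zero, one_mul, mul_one, hZn,
      AlgHom.commutes, ← mul_assoc, ← map_mul, inv_mul_cancel₀ (Q.b_ne _), map_one, one_mul]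
  obtain ⟨β, hβ⟩ := hVDM (Q.a i) (Q.a_pos i)
  refine ⟨∑ l, g l • ∑ j ∈ Finset.range (Q.a i + 1), β j • ((Q.b (j • m l))⁻¹ • Q.E (j • m l)),
    ?_, ?_⟩
  · refine Submodule.sum_mem _ fun l _ => Submodule.smul_mem _ _ (Submodule.sum_mem _ fun j _ =>
      Submodule.smul_mem _ _ (Submodule.smul_mem _ _ (Submodule.subset_span ⟨_, rfl⟩)))
  · have hlin : Q.Λ.emb (Q.x (Sum.inr i)) * Q.Λ.s ^ Q.a i = ∑ l, g l • Q.Z (m l) := by
      simp only [Setup.Z, Algebra.smul_def, Finset.mul_sum]
      rw [Finset.sum_comm]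
      have h1 : ∀ k, ∑ l, algebraMap ℂ Q.Λ.L (g l) * (algebraMap ℂ Q.Λ.L (cpair (m l) (Q.ε k)) *
          (Q.Λ.emb (Q.x (Sum.inr k)) * Q.Λ.s ^ Q.a k)) =
          algebraMap ℂ Q.Λ.L (if k = i then 1 else 0) *
            (Q.Λ.emb (Q.x (Sum.inr k)) * Q.Λ.s ^ Q.a k) := by
        intro k
        rw [← hmε k, map_sum, Finset.sum_mul]
        exact Finset.sum_congr rfl fun l _ => by rw [map_mul]; ring
      simp only [h1]
      rw [Finset.sum_eq_single i]
      · rw [if_pos rfl, map_one, one_mul]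
      · intro k _ hk
        rw [if_neg hk, map_zero, zero_mul]
      · intro h
        exact absurd (Finset.mem_univ _) h
    rw [hlin, ← Finset.sum_sub_distrib]
    refine DivVal.Ge.sum _ _ fun l _ => ?_
    rw [← smul_sub]
    refine DivVal.Ge.smul ?_ _
    have h2 : ∑ j ∈ Finset.range (Q.a i + 1), β j • ((Q.b (j • m l))⁻¹ • Q.E (j • m l)) -
        Q.Z (m l) = ∑ j ∈ Finset.range (Q.a i + 1), β j •
          (Q.ex.ex ((j : Q.Λ.L) * Q.Z (m l)) - ∑ k ∈ Finset.range (Q.a i + 1),
            algebraMap ℂ Q.Λ.L ((k.factorial : ℂ)⁻¹) * ((j : Q.Λ.L) * Q.Z (m l)) ^ k) := by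
      have h3 : ∑ j ∈ Finset.range (Q.a i + 1), β j • ∑ k ∈ Finset.range (Q.a i + 1),
          algebraMap ℂ Q.Λ.L ((k.factorial : ℂ)⁻¹) * ((j : Q.Λ.L) * Q.Z (m l)) ^ k =
          Q.Z (m l) := by
        simp only [Algebra.smul_def, Finset.mul_sum]
        rw [Finset.sum_comm]
        have h4 : ∀ k ∈ Finset.range (Q.a i + 1), ∑ j ∈ Finset.range (Q.a i + 1),
            algebraMap ℂ Q.Λ.L (β j) * (algebraMap ℂ Q.Λ.L ((k.factorial : ℂ)⁻¹) *
              ((j : Q.Λ.L) * Q.Z (m l)) ^ k) =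
            algebraMap ℂ Q.Λ.L (if k = 1 then 1 else 0) *
              (algebraMap ℂ Q.Λ.L ((k.factorial : ℂ)⁻¹) * Q.Z (m l) ^ k) := by
          intro k hk
          rw [Finset.mem_range] at hk
          rw [← hβ k (by omega), map_sum, Finset.sum_mul]
          refine Finset.sum_congr rfl fun j _ => ?_
          rw [map_mul, map_pow, map_natCast, mul_pow]
          ring
        rw [Finset.sum_congr rfl h4, Finset.sum_eq_single 1]
        · rw [if_pos rfl, map_one, one_mul, Nat.factorial_one, Nat.cast_one, inv_one, map_one,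
            one_mul, pow_one]
        · intro k _ hk
          rw [if_neg hk, map_zero, zero_mul]
        · intro h
          exfalso
          apply h
          rw [Finset.mem_range]
          have := Q.a_pos i
          omega
      simp only [smul_sub, Finset.sum_sub_distrib]
      rw [h3]
      congr 1
      refine Finset.sum_congr rfl fun j _ => ?_
      rw [← hE j l, Algebra.smul_def (Q.b (j • m l))⁻¹]
    rw [h2]
    refine DivVal.Ge.sum _ _ fun j _ => DivVal.Ge.smul ?_ _
    have h5 : Q.Λ.Ge 1 ((j : Q.Λ.L) * Q.Z (m l)) := (DivVal.Ge.natCast _ j).mul_left (hZ1 (m l))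
    have h6 := Q.ex.trunc _ h5 (Q.a i + 1)
    refine DivVal.Ge.mono h6 ?_
    push_cast
    rfl

end

end MldGeo
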