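import Pool.Agent.MldGeo.Stmts4

/-!
# Valuations of Gauss type
-/

namespace MldGeo

open MvPolynomial

noncomputable section

namespace GAU

section Gen

variable {F : Type} [Field F]

/-- `x = 0` or `c ≤ ν x`. -/
def P (ν : F → ℤ) (c : ℤ) (x : F) : Prop := x = 0 ∨ c ≤ ν x

variable {ν : F → ℤ}

theorem nu_one (hm : ∀ a b, a ≠ 0 → b ≠ 0 → ν (a * b) = ν a + ν b) : ν 1 = 0 := by
  have h := hm 1 1 one_ne_zero one_ne_zero
  rw [one_mul] at h
  omega

theorem nu_neg_one (hm : ∀ a b, a ≠ 0 → b ≠ 0 → ν (a * b) = ν a + ν b) : ν (-1) = 0 := by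
  have h := hm (-1) (-1) (by simp) (by simp)
  rw [neg_mul_neg, one_mul, nu_one hm] at h
  omega

theorem nu_neg (hm : ∀ a b, a ≠ 0 → b ≠ 0 → ν (a * b) = ν a + ν b) {x : F} (hx : x ≠ 0) :
    ν (-x) = ν x := by
  rw [neg_eq_neg_one_mul, hm _ _ (by simp) hx, nu_neg_one hm, zero_add]

theorem P.add (ha : ∀ a b, a ≠ 0 → b ≠ 0 → a + b ≠ 0 → min (ν a) (ν b) ≤ ν (a + b)) {c : ℤ}
    {x y : F} (hx : P ν c x) (hy : P ν c y) : P ν c (x + y) := by
  rcases hx with rfl | hx
  · rwa [zero_add]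
  · rcases hy with rfl | hy
    · rw [add_zero]
      exact Or.inr hx
    · by_cases h0 : x = 0
      · rw [h0, zero_add]
        exact Or.inr hy
      · by_cases h1 : y = 0
        · rw [h1, add_zero]
          exact Or.inr hx
        · by_cases h2 : x + y = 0
          · exact Or.inl h2
          · exact Or.inr (le_trans (le_min hx hy) (ha x y h0 h1 h2))

theorem P.neg (hm : ∀ a b, a ≠ 0 → b ≠ 0 → ν (a * b) = ν a + ν b) {c : ℤ} {x : F}
    (hx : P ν c x) : P ν c (-x) := by
  by_cases h0 : x = 0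
  · rw [h0, neg_zero]
    exact Or.inl rfl
  · rcases hx with h | h
    · exact absurd h h0
    · right
      rw [nu_neg hm h0]
      exact h

theorem P.sum (ha : ∀ a b, a ≠ 0 → b ≠ 0 → a + b ≠ 0 → min (ν a) (ν b) ≤ ν (a + b)) {c : ℤ}
    {ι : Type} (s : Finset ι) (f : ι → F) (h : ∀ i ∈ s, P ν c (f i)) : P ν c (∑ i ∈ s, f i) := by
  classical
  induction s using Finset.induction_on with
  | empty => exact Or.inl (by simp)
  | insert i s hi ih =>
    rw [Finset.sum_insert hi]
    exact (h i (Finset.mem_insert_self i s)).add ha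
      (ih fun j hj => h j (Finset.mem_insert_of_mem hj))

variable {G : Type} [AddCommGroup G]

/-- the value of an element of the group ring -/
def IsVal (ν : F → ℤ) (w : G →+ ℤ) (f : AddMonoidAlgebra F G) (k : ℤ) : Prop :=
  IsLeast {j : ℤ | ∃ u, f.coeff u ≠ 0 ∧ j = ν (f.coeff u) + w u} k

variable {w : G →+ ℤ}

theorem exists_isVal {f : AddMonoidAlgebra F G} (hf : f ≠ 0) : ∃ k, IsVal ν w f k := by
  have hs : f.coeff.support.Nonempty := by
    rw [Finset.nonempty_iff_ne_empty, Ne, Finsupp.support_eq_empty, AddMonoidAlgebra.coeff_eq_zero]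
    exact hf
  obtain ⟨u, hu, hmin⟩ := Finset.exists_min_image f.coeff.support
    (fun u => ν (f.coeff u) + w u) hs
  refine ⟨ν (f.coeff u) + w u, ⟨u, Finsupp.mem_support_iff.mp hu, rfl⟩, ?_⟩
  rintro j ⟨u', hu', rfl⟩
  exact hmin u' (Finsupp.mem_support_iff.mpr hu')

theorem IsVal.ne_zero {f : AddMonoidAlgebra F G} {k : ℤ} (h : IsVal ν w f k) : f ≠ 0 := by
  rintro rfl
  obtain ⟨⟨u, hu, -⟩, -⟩ := h
  exact hu (by simp)

theorem IsVal.le {f : AddMonoidAlgebra F G} {k : ℤ} (h : IsVal ν w f k) (u : G) :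
    P ν (k - w u) (f.coeff u) := by
  by_cases h0 : f.coeff u = 0
  · exact Or.inl h0
  · right
    have := h.2 ⟨u, h0, rfl⟩
    omega

theorem IsVal.eq {f : AddMonoidAlgebra F G} {k l : ℤ} (h : IsVal ν w f k) (h' : IsVal ν w f l) :
    k = l := h.unique h'

theorem IsVal.add_le (ha : ∀ a b, a ≠ 0 → b ≠ 0 → a + b ≠ 0 → min (ν a) (ν b) ≤ ν (a + b))
    {f g : AddMonoidAlgebra F G} {k l j c : ℤ} (hf : IsVal ν w f k) (hg : IsVal ν w g l)
    (hfg : IsVal ν w (f + g) j) (hck : c ≤ k) (hcl : c ≤ l) : c ≤ j := by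
  obtain ⟨u, hu, rfl⟩ := hfg.1
  have h1 : P ν (c - w u) (f.coeff u) := by
    rcases hf.le u with h | h
    · exact Or.inl h
    · exact Or.inr (by omega)
  have h2 : P ν (c - w u) (g.coeff u) := by
    rcases hg.le u with h | h
    · exact Or.inl h
    · exact Or.inr (by omega)
  have h3 : P ν (c - w u) ((f + g).coeff u) := by
    have := h1.add ha h2
    simpa using this
  rcases h3 with h | h
  · exact absurd h hu
  · omega

theorem coeff_mul_prod [DecidableEq G] (f g : AddMonoidAlgebra F G) (m : G) :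
    (f * g).coeff m = ∑ p ∈ f.coeff.support ×ˢ g.coeff.support,
      if p.1 + p.2 = m then f.coeff p.1 * g.coeff p.2 else 0 := by
  rw [AddMonoidAlgebra.coeff_mul, Finset.sum_product]
  rfl

variable {Γ : Type} [AddCommGroup Γ] [LinearOrder Γ] [IsOrderedAddMonoid Γ]

theorem IsVal.mul (L : G →+ Γ) (hL : Function.Injective L)
    (hm : ∀ a b, a ≠ 0 → b ≠ 0 → ν (a * b) = ν a + ν b)
    (ha : ∀ a b, a ≠ 0 → b ≠ 0 → a + b ≠ 0 → min (ν a) (ν b) ≤ ν (a + b))
    {f g : AddMonoidAlgebra F G} {k l : ℤ} (hf : IsVal ν w f k) (hg : IsVal ν w g l) :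
    IsVal ν w (f * g) (k + l) := by
  classical
  -- the lower bound
  have hlow : ∀ m, P ν (k + l - w m) ((f * g).coeff m) := by
    intro m
    rw [coeff_mul_prod]
    refine P.sum ha _ _ ?_
    rintro ⟨p, q⟩ hpq
    rw [Finset.mem_product, Finsupp.mem_support_iff, Finsupp.mem_support_iff] at hpq
    dsimp only at hpq ⊢
    split_ifs with h
    · right
      rw [hm _ _ hpq.1 hpq.2, ← h, map_add]
      have h1 := hf.2 ⟨p, hpq.1, rfl⟩
      have h2 := hg.2 ⟨q, hpq.2, rfl⟩
      omega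
    · exact Or.inl rfl
  -- the extremal terms
  have ex : ∀ {f : AddMonoidAlgebra F G} {k : ℤ}, IsVal ν w f k →
      ∃ u, f.coeff u ≠ 0 ∧ ν (f.coeff u) + w u = k ∧
        ∀ u', f.coeff u' ≠ 0 → ν (f.coeff u') + w u' = k → L u' ≤ L u := by
    intro f k hf
    obtain ⟨u, hu, he⟩ := hf.1
    have hne : (f.coeff.support.filter fun u => ν (f.coeff u) + w u = k).Nonempty :=
      ⟨u, Finset.mem_filter.mpr ⟨Finsupp.mem_support_iff.mpr hu, he.symm⟩⟩
    obtain ⟨v, hv, hmax⟩ := Finset.exists_max_image _ (fun u => L u) hne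
    rw [Finset.mem_filter, Finsupp.mem_support_iff] at hv
    refine ⟨v, hv.1, hv.2, fun u' h1 h2 => hmax u' ?_⟩
    exact Finset.mem_filter.mpr ⟨Finsupp.mem_support_iff.mpr h1, h2⟩
  obtain ⟨u, hu, hku, hmu⟩ := ex hf
  obtain ⟨u', hu', hku', hmu'⟩ := ex hg
  set c : ℤ := k + l - w (u + u') with hc
  have hmem : (u, u') ∈ f.coeff.support ×ˢ g.coeff.support := by
    rw [Finset.mem_product, Finsupp.mem_support_iff, Finsupp.mem_support_iff]
    exact ⟨hu, hu'⟩
  have hsplit := Finset.add_sum_erase (f.coeff.support ×ˢ g.coeff.support)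
    (fun p : G × G => if p.1 + p.2 = u + u' then f.coeff p.1 * g.coeff p.2 else 0) hmem
  rw [← coeff_mul_prod, if_pos rfl] at hsplit
  dsimp only at hsplit
  set r := ∑ p ∈ (f.coeff.support ×ˢ g.coeff.support).erase (u, u'),
    (if p.1 + p.2 = u + u' then f.coeff p.1 * g.coeff p.2 else 0) with hr
  have hPr : P ν (c + 1) r := by
    rw [hr]
    refine P.sum ha _ _ ?_
    rintro ⟨p, q⟩ hpq
    rw [Finset.mem_erase, Finset.mem_product, Finsupp.mem_support_iff,
      Finsupp.mem_support_iff] at hpq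
    obtain ⟨hne, hp, hq⟩ := hpq
    dsimp only at hp hq ⊢
    split_ifs with h
    · right
      rw [hm _ _ hp hq, hc, ← h, map_add]
      have h1 := hf.2 ⟨p, hp, rfl⟩
      have h2 := hg.2 ⟨q, hq, rfl⟩
      have h3 : ¬ (ν (f.coeff p) + w p = k ∧ ν (g.coeff q) + w q = l) := by
        rintro ⟨e1, e2⟩
        have l1 := hmu p hp e1
        have l2 := hmu' q hq e2
        have l3 : L p + L q = L u + L u' := by rw [← map_add, ← map_add, h]
        have l4 : L p = L u := by
          refine le_antisymm l1 ?_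
          by_contra hlt
          rw [not_le] at hlt
          have := add_lt_add_of_lt_of_le hlt l2
          rw [l3] at this
          exact lt_irrefl _ this
        have l5 : p = u := hL l4
        have l6 : q = u' := by
          rw [l5] at h
          exact add_left_cancel h
        exact hne (by rw [l5, l6])
      omega
    · exact Or.inl rfl
  have ha0 : f.coeff u * g.coeff u' ≠ 0 := mul_ne_zero hu hu'
  have hac : ν (f.coeff u * g.coeff u') = c := by
    rw [hm _ _ hu hu', hc, map_add]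
    omega
  have hxr : f.coeff u * g.coeff u' = (f * g).coeff (u + u') + -r := by
    rw [← hsplit]
    ring
  have hx0 : (f * g).coeff (u + u') ≠ 0 := by
    intro h
    rw [h, zero_add] at hxr
    have h1 := hPr.neg hm
    rw [← hxr] at h1
    rcases h1 with h1 | h1
    · exact ha0 h1
    · omega
  have hxc : ν ((f * g).coeff (u + u')) = c := by
    refine le_antisymm ?_ ?_
    · by_contra hlt
      rw [not_le] at hlt
      have h1 : P ν (c + 1) ((f * g).coeff (u + u')) := Or.inr (by omega)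
      have h2 := h1.add ha (hPr.neg hm)
      rw [← hxr] at h2
      rcases h2 with h2 | h2
      · exact ha0 h2
      · omega
    · rcases hlow (u + u') with h | h
      · exact absurd h hx0
      · exact h
  refine ⟨⟨u + u', hx0, by rw [hxc, hc]; ring⟩, ?_⟩
  rintro j ⟨m, hm0, rfl⟩
  rcases hlow m with h | h
  · exact absurd h hm0
  · omega

end Gen

section Fld

variable {K : Type} [Field K] [Algebra ℂ K] (F : IntermediateField ℂ K) {G : Type}
  [AddCommGroup G] (χ : G → K)

/-- the homomorphism from the group ring -/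
def phi (h0 : χ 0 = 1) (ha : ∀ u w, χ (u + w) = χ u * χ w) : AddMonoidAlgebra F G →ₐ[F] K :=
  AddMonoidAlgebra.lift F K G
    { toFun := fun u => χ u.toAdd
      map_one' := h0
      map_mul' := fun u w => ha u.toAdd w.toAdd }

variable {F χ}

theorem phi_apply (h0 : χ 0 = 1) (ha : ∀ u w, χ (u + w) = χ u * χ w)
    (f : AddMonoidAlgebra F G) :
    phi F χ h0 ha f = ∑ u ∈ f.coeff.support, (f.coeff u : K) * χ u := by
  rw [phi, AddMonoidAlgebra.lift_apply, Finsupp.sum]
  exact Finset.sum_congr rfl fun u _ => by rw [Algebra.smul_def]; rfl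

theorem phi_single (h0 : χ 0 = 1) (ha : ∀ u w, χ (u + w) = χ u * χ w) (u : G) (a : F) :
    phi F χ h0 ha (AddMonoidAlgebra.single u a) = (a : K) * χ u := by
  rw [phi, AddMonoidAlgebra.lift_single, Algebra.smul_def]
  rfl

theorem phi_inj (h0 : χ 0 = 1) (ha : ∀ u w, χ (u + w) = χ u * χ w)
    (hli : ∀ (s : Finset G) (b : G → F), ∑ u ∈ s, (b u : K) * χ u = 0 → ∀ u ∈ s, b u = 0)
    {f : AddMonoidAlgebra F G} (hf : phi F χ h0 ha f = 0) : f = 0 := by
  rw [phi_apply] at hf
  have h := hli _ (fun u => f.coeff u) hf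
  rw [← AddMonoidAlgebra.coeff_eq_zero]
  ext u
  by_cases hu : u ∈ f.coeff.support
  · rw [h u hu]
    simp
  · rw [Finsupp.notMem_support_iff.mp hu]
    simp

open Classical in
/-- the element of the group ring with given coefficients -/
def mk (s : Finset G) (b : G → F) : AddMonoidAlgebra F G :=
  ∑ u ∈ s, AddMonoidAlgebra.single u (b u)

theorem phi_mk (h0 : χ 0 = 1) (ha : ∀ u w, χ (u + w) = χ u * χ w) (s : Finset G) (b : G → F) :
    phi F χ h0 ha (mk s b) = ∑ u ∈ s, (b u : K) * χ u := by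
  rw [mk, map_sum]
  exact Finset.sum_congr rfl fun u _ => phi_single h0 ha u (b u)

open Classical in
theorem mk_coeff (s : Finset G) (b : G → F) (u : G) :
    (mk s b).coeff u = if u ∈ s then b u else 0 := by
  rw [mk, AddMonoidAlgebra.coeff_sum, Finsupp.finset_sum_apply]
  simp only [AddMonoidAlgebra.coeff_single, Finsupp.single_apply]
  rw [Finset.sum_ite_eq']

end Fld

end GAU

theorem t_GAU : Stmt_GAU := by
  classical
  intro n m K _ _ F χ h0 hadd hli hfr ν w hm ha hc hun hres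
  set φ := GAU.phi F χ h0 hadd with hφ
  have hinj : ∀ f : AddMonoidAlgebra F (Fin m → ℤ), φ f = 0 → f = 0 := fun f hf =>
    GAU.phi_inj h0 hadd hli hf
  have hne : ∀ f : AddMonoidAlgebra F (Fin m → ℤ), f ≠ 0 → φ f ≠ 0 := fun f hf h =>
    hf (hinj f h)
  -- multiplicativity
  let L : (Fin m → ℤ) →+ Lex (Fin m → ℤ) :=
    { toFun := toLex
      map_zero' := rfl
      map_add' := fun _ _ => rfl }
  have hL : Function.Injective L := fun a b h => h
  have hmul : ∀ {f g : AddMonoidAlgebra F (Fin m → ℤ)} {k l : ℤ}, GAU.IsVal ν w f k →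
      GAU.IsVal ν w g l → GAU.IsVal ν w (f * g) (k + l) := fun hf hg =>
    GAU.IsVal.mul L hL hm ha hf hg
  -- fractions
  have hex : ∀ x : K, ∃ f g : AddMonoidAlgebra F (Fin m → ℤ), g ≠ 0 ∧ x * φ g = φ f := by
    intro x
    obtain ⟨s, b, b', h1, h2⟩ := hfr x
    refine ⟨GAU.mk s b, GAU.mk s b', ?_, ?_⟩
    · intro h
      rw [← GAU.phi_mk h0 hadd, h, map_zero] at h1
      exact h1 rfl
    · rw [hφ, GAU.phi_mk, GAU.phi_mk]
      exact h2
  have hkey : ∀ x : K, x ≠ 0 → ∃ d : ℤ, ∀ (f g : AddMonoidAlgebra F (Fin m → ℤ)) (k l : ℤ),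
      g ≠ 0 → x * φ g = φ f → GAU.IsVal ν w f k → GAU.IsVal ν w g l → d = k - l := by
    intro x hx
    obtain ⟨f, g, hg, he⟩ := hex x
    have hf : f ≠ 0 := by
      rintro rfl
      rw [map_zero] at he
      exact mul_ne_zero hx (hne g hg) he
    obtain ⟨k, hk⟩ := GAU.exists_isVal (ν := ν) (w := w) hf
    obtain ⟨l, hl⟩ := GAU.exists_isVal (ν := ν) (w := w) hg
    refine ⟨k - l, ?_⟩
    intro f' g' k' l' hg' he' hk' hl'
    have h1 : f * g' = f' * g := by
      have h2 : φ (f * g' - f' * g) = 0 := by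
        rw [map_sub, map_mul, map_mul, ← he, ← he']
        ring
      exact sub_eq_zero.mp (hinj _ h2)
    have h3 := (hmul hk hl').eq (l := k' + l) (by rw [h1]; exact hmul hk' hl)
    omega
  choose D hD using hkey
  let ord : K → ℤ := fun x => if h : x = 0 then 0 else D x h
  have hord : ∀ (x : K), x ≠ 0 → ∀ (f g : AddMonoidAlgebra F (Fin m → ℤ)) (k l : ℤ),
      g ≠ 0 → x * φ g = φ f → GAU.IsVal ν w f k → GAU.IsVal ν w g l → ord x = k - l := by
    intro x hx f g k l h1 h2 h3 h4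
    simp only [ord, dif_neg hx]
    exact hD x hx f g k l h1 h2 h3 h4
  have hrep : ∀ x : K, x ≠ 0 → ∃ (f g : AddMonoidAlgebra F (Fin m → ℤ)) (k l : ℤ),
      g ≠ 0 ∧ x * φ g = φ f ∧ GAU.IsVal ν w f k ∧ GAU.IsVal ν w g l := by
    intro x hx
    obtain ⟨f, g, hg, he⟩ := hex x
    have hf : f ≠ 0 := by
      rintro rfl
      rw [map_zero] at he
      exact mul_ne_zero hx (hne g hg) he
    obtain ⟨k, hk⟩ := GAU.exists_isVal (ν := ν) (w := w) hf
    obtain ⟨l, hl⟩ := GAU.exists_isVal (ν := ν) (w := w) hg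
    exact ⟨f, g, k, l, hg, he, hk, hl⟩
  have hone : GAU.IsVal ν w (1 : AddMonoidAlgebra F (Fin m → ℤ)) 0 := by
    obtain ⟨k, hk⟩ := GAU.exists_isVal (ν := ν) (w := w)
      (one_ne_zero : (1 : AddMonoidAlgebra F (Fin m → ℤ)) ≠ 0)
    have h1 := hmul hk hk
    rw [one_mul] at h1
    have h2 := h1.eq hk
    have h3 : k = 0 := by omega
    rwa [h3] at hk
  have hreg : ∀ (f : AddMonoidAlgebra F (Fin m → ℤ)) (k : ℤ), GAU.IsVal ν w f k →
      ord (φ f) = k := by
    intro f k hk
    have := hord (φ f) (hne f hk.ne_zero) f 1 k 0 one_ne_zero (by rw [map_one, mul_one]) hk hone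
    rw [this, sub_zero]
  have hsum : ∀ (s : Finset (Fin m → ℤ)) (b : (Fin m → ℤ) → F), (∃ u ∈ s, b u ≠ 0) →
      IsLeast {k : ℤ | ∃ u ∈ s, b u ≠ 0 ∧ k = ν (b u) + w u}
        (ord (∑ u ∈ s, (b u : K) * χ u)) := by
    intro s b hb
    have hmk : GAU.mk s b ≠ 0 := by
      obtain ⟨u, hu, hbu⟩ := hb
      intro h
      have h1 := GAU.mk_coeff s b u
      rw [h, if_pos hu] at h1
      exact hbu (by rw [← h1]; simp)
    obtain ⟨k, hk⟩ := GAU.exists_isVal (ν := ν) (w := w) hmk
    have h1 := hreg _ _ hk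
    rw [hφ, GAU.phi_mk] at h1
    rw [h1]
    have h2 : {j : ℤ | ∃ u, (GAU.mk s b).coeff u ≠ 0 ∧ j = ν ((GAU.mk s b).coeff u) + w u} =
        {k : ℤ | ∃ u ∈ s, b u ≠ 0 ∧ k = ν (b u) + w u} := by
      ext j
      constructor
      · rintro ⟨u, h3, h4⟩
        rw [GAU.mk_coeff] at h3 h4
        by_cases hu : u ∈ s
        · rw [if_pos hu] at h3 h4
          exact ⟨u, hu, h3, h4⟩
        · rw [if_neg hu] at h3
          exact absurd rfl h3
      · rintro ⟨u, hu, h3, h4⟩
        refine ⟨u, ?_, ?_⟩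
        · rw [GAU.mk_coeff, if_pos hu]
          exact h3
        · rw [GAU.mk_coeff, if_pos hu]
          exact h4
    rw [← h2]
    exact hk
  refine ⟨{ ord := ord
            ord_zero := by simp [ord]
            ord_mul := ?_
            ord_add := ?_
            ord_const := ?_
            unif := ?_
            res := ?_ }, hsum⟩
  · intro x y hx hy
    obtain ⟨f, g, k, l, hg, he, hk, hl⟩ := hrep x hx
    obtain ⟨f', g', k', l', hg', he', hk', hl'⟩ := hrep y hy
    rw [hord x hx f g k l hg he hk hl, hord y hy f' g' k' l' hg' he' hk' hl',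
      hord (x * y) (mul_ne_zero hx hy) (f * f') (g * g') (k + k') (l + l')
        ((hmul hl hl').ne_zero) (by rw [map_mul, map_mul, ← he, ← he']; ring)
        (hmul hk hk') (hmul hl hl')]
    ring
  · intro x y hx hy hxy
    obtain ⟨f, g, k, l, hg, he, hk, hl⟩ := hrep x hx
    obtain ⟨f', g', k', l', hg', he', hk', hl'⟩ := hrep y hy
    have h1 := hmul hk hl'
    have h2 := hmul hk' hl
    have h3 := hmul hl hl'
    have h4 : (x + y) * φ (g * g') = φ (f * g' + f' * g) := by
      rw [map_add, map_mul, map_mul, map_mul, ← he, ← he']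
      ring
    have h5 : f * g' + f' * g ≠ 0 := by
      intro h
      rw [h, map_zero] at h4
      exact mul_ne_zero hxy (hne _ h3.ne_zero) h4
    obtain ⟨j, hj⟩ := GAU.exists_isVal (ν := ν) (w := w) h5
    have h6 := GAU.IsVal.add_le ha h1 h2 hj (min_le_left _ _) (min_le_right _ _)
    rw [hord x hx f g k l hg he hk hl, hord y hy f' g' k' l' hg' he' hk' hl',
      hord (x + y) hxy _ _ _ _ h3.ne_zero h4 hj h3]
    omega
  · intro c
    by_cases hc0 : c = 0
    · rw [hc0, map_zero]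
      simp [ord]
    · have h1 : (algebraMap ℂ F c) ≠ 0 := by
        rw [Ne, map_eq_zero]
        exact hc0
      have h2 := (hsum {0} (fun _ => algebraMap ℂ F c) ⟨0, by simp, h1⟩).1
      obtain ⟨u, hu, -, h3⟩ := h2
      rw [Finset.sum_singleton, h0, mul_one] at h3
      rw [Finset.mem_singleton] at hu
      rw [hu, map_zero, add_zero, hc c hc0] at h3
      exact h3
  · obtain ⟨a, u, ha0, hau⟩ := hun
    have h2 := (hsum {u} (fun _ => a) ⟨u, by simp, ha0⟩).1
    obtain ⟨u', hu', -, h3⟩ := h2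
    rw [Finset.sum_singleton] at h3
    rw [Finset.mem_singleton] at hu'
    rw [hu', hau] at h3
    refine ⟨_, ?_, h3⟩
    have h4 : (a : K) * χ u = φ (AddMonoidAlgebra.single u a) :=
      (GAU.phi_single h0 hadd u a).symm
    rw [h4]
    exact hne _ (AddMonoidAlgebra.single_ne_zero.mpr ha0)
  · obtain ⟨y, hy⟩ := hres
    refine ⟨y, fun p hp => ?_⟩
    obtain ⟨s, b, h1, h2, u, hu, hbu, h3⟩ := hy p hp
    have h4 := hsum s b ⟨u, hu, hbu⟩
    rw [← h1] at h4
    have h5 : IsLeast {k : ℤ | ∃ u ∈ s, b u ≠ 0 ∧ k = ν (b u) + w u} 0 := by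
      refine ⟨⟨u, hu, hbu, h3.symm⟩, ?_⟩
      rintro j ⟨u', hu', hb', rfl⟩
      exact h2 u' hu' hb'
    refine ⟨?_, h4.unique h5⟩
    rw [h1]
    intro h
    exact hbu (hli s b h u hu)

end

end MldGeo
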