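import Pool.Agent.MldGeo.Stmts8

/-!
# GEN: homogeneous generators of the ring of regular functions
-/

namespace MldGeo

namespace GEN

variable {n m : ℕ} {X : Germ n} {A : TorusAction X m}

/-- A regular function is a polynomial in finitely many homogeneous functions of nonzero
weights. -/
theorem exists_one (hHFR : Stmt_HFR) (A : TorusAction X m) (r : X.R) :
    ∃ G : Finset (X.R × (Fin m → ℤ)), (∀ p ∈ G, p.1 ∈ A.gr p.2 ∧ p.1 ≠ 0 ∧ p.2 ≠ 0) ∧
      (r : X.K) ∈ Algebra.adjoin ℂ ((fun p : X.R × (Fin m → ℤ) => (p.1 : X.K)) '' G) := by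
  classical
  obtain ⟨s, h, h1, -, h3⟩ := hHFR A r
  refine ⟨(s.filter fun u => h u ≠ 0 ∧ u ≠ 0).image fun u => (h u, u), ?_, ?_⟩
  · intro p hp
    obtain ⟨u, hu, rfl⟩ := Finset.mem_image.1 hp
    exact ⟨h1 u, (Finset.mem_filter.1 hu).2.1, (Finset.mem_filter.1 hu).2.2⟩
  · have e : (r : X.K) = ∑ u ∈ s, (h u : X.K) := by
      rw [h3]
      exact map_sum X.R.val h s
    rw [e]
    refine Subalgebra.sum_mem _ fun u hu => ?_
    by_cases h0 : h u = 0
    · rw [h0, ZeroMemClass.coe_zero]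
      exact Subalgebra.zero_mem _
    by_cases hu0 : u = 0
    · obtain ⟨c, hc⟩ := A.const (h u) (by rw [← hu0]; exact h1 u)
      rw [hc]
      exact Subalgebra.algebraMap_mem _ c
    · refine Algebra.subset_adjoin ⟨(h u, u), ?_, rfl⟩
      exact Finset.mem_coe.2 (Finset.mem_image.2
        ⟨u, Finset.mem_filter.2 ⟨hu, h0, hu0⟩, rfl⟩)

/-- Finitely many homogeneous functions of nonzero weights generate the ring. -/
theorem exists_all (hHFR : Stmt_HFR) (A : TorusAction X m) :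
    ∃ G : Finset (X.R × (Fin m → ℤ)), (∀ p ∈ G, p.1 ∈ A.gr p.2 ∧ p.1 ≠ 0 ∧ p.2 ≠ 0) ∧
      ∀ a ∈ X.R, a ∈ Algebra.adjoin ℂ ((fun p : X.R × (Fin m → ℤ) => (p.1 : X.K)) '' G) := by
  classical
  obtain ⟨t, ht⟩ := X.fg
  have htR : ∀ g ∈ t, g ∈ X.R := fun g hg => by
    rw [← ht]
    exact Algebra.subset_adjoin hg
  choose G hG1 hG2 using fun r : X.R => exists_one hHFR A r
  refine ⟨t.attach.biUnion fun g => G ⟨g.1, htR g.1 g.2⟩, ?_, ?_⟩
  · intro p hp
    obtain ⟨g, -, hg⟩ := Finset.mem_biUnion.1 hp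
    exact hG1 _ p hg
  · intro a ha
    rw [← ht] at ha
    refine (Algebra.adjoin_le ?_ : Algebra.adjoin ℂ (t : Set X.K) ≤ _) ha
    intro g hg
    refine Algebra.adjoin_mono ?_ (hG2 ⟨g, htR g hg⟩)
    refine Set.image_mono fun p hp => ?_
    exact Finset.mem_coe.2 (Finset.mem_biUnion.2 ⟨⟨g, hg⟩, Finset.mem_attach _ _, hp⟩)

/-- The sums of homogeneous functions whose weights are orthogonal to `w`. -/
def Sub (A : TorusAction X m) (w : Fin m → ℝ) : AddSubmonoid X.R :=
  AddSubmonoid.closure {x | ∃ u, pr w u = 0 ∧ x ∈ A.gr u}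

theorem pr_add (w : Fin m → ℝ) (u v : Fin m → ℤ) : pr w (u + v) = pr w u + pr w v := by
  simp only [pr, Pi.add_apply, Int.cast_add, mul_add, Finset.sum_add_distrib]

theorem pr_zero (w : Fin m → ℝ) : pr w 0 = 0 := by
  simp [pr]

theorem pr_neg (w : Fin m → ℝ) (u : Fin m → ℤ) : pr w (-u) = - pr w u := by
  simp [pr, Finset.sum_neg_distrib]

theorem sub_mul (w : Fin m → ℝ) {x y : X.R} (hx : x ∈ Sub A w) (hy : y ∈ Sub A w) :
    x * y ∈ Sub A w := by
  induction hx using AddSubmonoid.closure_induction with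
  | mem x hx =>
    obtain ⟨u, hu, hxu⟩ := hx
    induction hy using AddSubmonoid.closure_induction with
    | mem y hy =>
      obtain ⟨v, hv, hyv⟩ := hy
      refine AddSubmonoid.subset_closure ⟨u + v, ?_, SetLike.GradedMul.mul_mem hxu hyv⟩
      rw [pr_add, hu, hv, add_zero]
    | zero => rw [mul_zero]; exact zero_mem _
    | add y z _ _ h1 h2 => rw [mul_add]; exact add_mem h1 h2
  | zero => rw [zero_mul]; exact zero_mem _
  | add x z _ _ h1 h2 => rw [add_mul]; exact add_mem h1 h2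

theorem sub_comp (w : Fin m → ℝ) {x : X.R} (hx : x ∈ Sub A w) (v : Fin m → ℤ)
    (hv : pr w v ≠ 0) : ((DirectSum.decompose A.gr x) v : X.R) = 0 := by
  classical
  induction hx using AddSubmonoid.closure_induction with
  | mem x hx =>
    obtain ⟨u, hu, hxu⟩ := hx
    refine DirectSum.decompose_of_mem_ne A.gr hxu ?_
    rintro rfl
    exact hv hu
  | zero => rw [DirectSum.decompose_zero]; rfl
  | add x z _ _ h1 h2 =>
    rw [DirectSum.decompose_add, DirectSum.add_apply, Submodule.coe_add, h1, h2, add_zero]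

theorem mem_sub (w : Fin m → ℝ) (s : Set X.K)
    (hs : ∀ x ∈ s, ∃ (y : X.R) (u : Fin m → ℤ), (y : X.K) = x ∧ y ∈ A.gr u ∧ pr w u = 0)
    (x : X.K) (hx : x ∈ Algebra.adjoin ℂ s) : ∃ y : X.R, (y : X.K) = x ∧ y ∈ Sub A w := by
  induction hx using Algebra.adjoin_induction with
  | mem x hx =>
    obtain ⟨y, u, hy, hyu, hu⟩ := hs x hx
    exact ⟨y, hy, AddSubmonoid.subset_closure ⟨u, hu, hyu⟩⟩
  | algebraMap c =>
    refine ⟨algebraMap ℂ X.R c, rfl, AddSubmonoid.subset_closure ⟨0, pr_zero w, ?_⟩⟩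
    exact SetLike.algebraMap_mem_graded A.gr c
  | add x z _ _ h1 h2 =>
    obtain ⟨y1, e1, m1⟩ := h1
    obtain ⟨y2, e2, m2⟩ := h2
    exact ⟨y1 + y2, by push_cast; rw [e1, e2], add_mem m1 m2⟩
  | mul x z _ _ h1 h2 =>
    obtain ⟨y1, e1, m1⟩ := h1
    obtain ⟨y2, e2, m2⟩ := h2
    exact ⟨y1 * y2, by push_cast; rw [e1, e2], sub_mul w m1 m2⟩

end GEN

open GEN in
/-- GEN -/
theorem t_GEN (hHFR : Stmt_HFR) (hHFK : Stmt_HFK) (hATT : Stmt_ATT) : Stmt_GEN := by
  classical
  intro n m X A S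
  obtain ⟨G, hG, hgen⟩ := exists_all hHFR A
  set e := G.equivFin with he
  have hmem : ∀ i : Fin G.card, (e.symm i).1.1 ∈ A.gr (e.symm i).1.2 := fun i =>
    (hG _ (e.symm i).2).1
  have hb : ∀ i : Fin G.card, ∃ b : A.K0, ((e.symm i).1.1 : X.K) =
      (b : X.K) * S.χ (e.symm i).1.2 := fun i =>
    (hHFK A S).1 _ _ (TorusAction.Hom.of_mem (hmem i))
  choose b hb using hb
  have hrange : (fun p : X.R × (Fin m → ℤ) => (p.1 : X.K)) '' G =
      Set.range fun i => (b i : X.K) * S.χ (e.symm i).1.2 := by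
    ext x
    constructor
    · rintro ⟨p, hp, rfl⟩
      refine ⟨e ⟨p, hp⟩, ?_⟩
      show (b (e ⟨p, hp⟩) : X.K) * S.χ (e.symm (e ⟨p, hp⟩)).1.2 = (p.1 : X.K)
      rw [← hb, Equiv.symm_apply_apply]
    · rintro ⟨i, rfl⟩
      refine ⟨(e.symm i).1, (e.symm i).2, ?_⟩
      exact hb i
  refine ⟨G.card, fun i => (e.symm i).1.2, b, ?_, ?_, ?_, ?_, ?_⟩
  · intro i h0
    have h1 := hb i
    rw [h0, ZeroMemClass.coe_zero, zero_mul] at h1
    exact (hG _ (e.symm i).2).2.1 (Subtype.ext h1)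
  · intro i
    show (b i : X.K) * S.χ (e.symm i).1.2 ∈ X.R
    rw [← hb]
    exact (e.symm i).1.1.2
  · intro a ha
    show a ∈ Algebra.adjoin ℂ (Set.range fun i => (b i : X.K) * S.χ (e.symm i).1.2)
    rw [← hrange]
    exact hgen a ha
  · intro w hw
    have hall : ∀ v : Fin m → ℤ, pr w v = 0 := by
      intro v
      have hv : v ∈ AddSubgroup.closure {u | A.gr u ≠ ⊥} := by
        rw [A.effective]
        exact AddSubgroup.mem_top v
      induction hv using AddSubgroup.closure_induction with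
      | mem v hv =>
        by_contra hne
        obtain ⟨r, hr, hr0⟩ := Submodule.exists_mem_ne_zero_of_ne_bot hv
        obtain ⟨y, hy, hys⟩ := mem_sub (A := A) w
          ((fun p : X.R × (Fin m → ℤ) => (p.1 : X.K)) '' G) (by
            rintro x ⟨p, hp, rfl⟩
            refine ⟨p.1, p.2, rfl, (hG p hp).1, ?_⟩
            have h1 := hw (e ⟨p, hp⟩)
            simp only [Equiv.symm_apply_apply] at h1
            exact h1) (r : X.K) (hgen r r.2)
        have hyr : y = r := Subtype.ext hy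
        rw [hyr] at hys
        have h1 := sub_comp w hys v hne
        rw [DirectSum.decompose_of_mem_same A.gr hr] at h1
        exact hr0 h1
      | zero => exact pr_zero w
      | add u v _ _ h1 h2 => rw [pr_add, h1, h2, add_zero]
      | neg u _ h1 => rw [pr_neg, h1, neg_zero]
    funext j
    have h1 := hall (Pi.single j 1)
    rw [pr, Finset.sum_eq_single j] at h1
    · simpa using h1
    · intro k _ hk
      rw [Pi.single_eq_of_ne hk, Int.cast_zero, mul_zero]
    · intro h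
      exact absurd (Finset.mem_univ j) h
  · obtain ⟨w, hw⟩ := hATT (fun i : Fin G.card => (e.symm i).1.2) (by
      intro a ha
      by_contra hne
      obtain ⟨j, hj⟩ := Function.ne_iff.1 hne
      have hj' : a j ≠ 0 := hj
      set P : X.R := ∏ i, ((e.symm i).1.1) ^ (a i) with hP
      have hP0 : P ≠ 0 := Finset.prod_ne_zero_iff.2 fun i _ =>
        pow_ne_zero _ (hG _ (e.symm i).2).2.1
      have hPm : P ∈ A.gr 0 := by
        have h1 : P ∈ A.gr (∑ i, (a i) • (e.symm i).1.2) :=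
          SetLike.prod_mem_graded _ _ _ fun i _ => SetLike.pow_mem_graded _ (hmem i)
        have h2 : ∑ i, (a i) • (e.symm i).1.2 = 0 := by
          rw [← ha]
          exact Finset.sum_congr rfl fun i _ => (natCast_zsmul _ _).symm
        rwa [h2] at h1
      obtain ⟨c, hc⟩ := A.const P hPm
      have hc0 : c ≠ 0 := by
        rintro rfl
        rw [map_zero] at hc
        exact hP0 hc
      have hPX : P ∈ X.m := by
        rw [hP, ← Finset.mul_prod_erase _ _ (Finset.mem_univ j)]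
        refine Ideal.mul_mem_right _ _ ?_
        refine Ideal.pow_mem_of_mem _ (A.vanish _ (hG _ (e.symm j).2).2.2 _ (hmem j)) _ ?_
        exact Nat.pos_of_ne_zero hj'
      refine X.max.ne_top (Ideal.eq_top_of_isUnit_mem _ hPX ?_)
      rw [hc]
      exact (IsUnit.mk0 c hc0).map (algebraMap ℂ X.R))
    exact ⟨w, hw⟩

end MldGeo
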