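import Pool.Agent.MldGeo.Stmts8
import Pool.Agent.MldGeo.PRF

/-!
# HTR: toroidal valuations which are orders along horizontal prime divisors
-/

namespace MldGeo

open MvPolynomial

noncomputable section

namespace HTR

section General

variable {n m : ℕ} {X : Germ n} {A : TorusAction X m} (S : Splitting A)

theorem chi_nsmul (u : Fin m → ℤ) (k : ℕ) : S.χ (k • u) = S.χ u ^ k := by
  induction k with
  | zero => rw [zero_smul, pow_zero, S.zero]
  | succ k ih => rw [succ_nsmul, S.add, ih, pow_succ]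

theorem chi_sum {ι : Type} (s : Finset ι) (x : ι → Fin m → ℤ) :
    S.χ (∑ i ∈ s, x i) = ∏ i ∈ s, S.χ (x i) := by
  classical
  induction s using Finset.induction_on with
  | empty => rw [Finset.sum_empty, Finset.prod_empty, S.zero]
  | insert a s ha ih => rw [Finset.sum_insert ha, Finset.prod_insert ha, S.add, ih]

/-- The pairing as a homomorphism. -/
def ipHom (w : Fin m → ℤ) : (Fin m → ℤ) →+ ℤ :=
  AddMonoidHom.mk' (ip w) fun a b => by
    unfold ip
    rw [← Finset.sum_add_distrib]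
    refine Finset.sum_congr rfl fun j _ => ?_
    rw [Pi.add_apply, mul_add]

theorem ip_nsmul (w u : Fin m → ℤ) (k : ℕ) : ip w (k • u) = k * ip w u := by
  have := map_nsmul (ipHom w) k u
  rw [nsmul_eq_mul] at this
  exact this

theorem ip_sum {ι : Type} (w : Fin m → ℤ) (s : Finset ι) (x : ι → Fin m → ℤ) :
    ip w (∑ i ∈ s, x i) = ∑ i ∈ s, ip w (x i) := map_sum (ipHom w) x s

/-- The weight of a monomial. -/
def wt {r : ℕ} (U : Fin r → Fin m → ℤ) (β : Fin r → ℕ) : Fin m → ℤ := ∑ k, β k • U k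

theorem wt_inj {r : ℕ} {U : Fin r → Fin m → ℤ} (hU : LinearIndependent ℤ U) {β β' : Fin r → ℕ}
    (h : wt U β = wt U β') : β = β' := by
  have h1 : ∑ k, ((β k : ℤ) - β' k) • U k = 0 := by
    have h2 : ∑ k, ((β k : ℤ) - β' k) • U k = wt U β - wt U β' := by
      unfold wt
      rw [← Finset.sum_sub_distrib]
      refine Finset.sum_congr rfl fun k _ => ?_
      rw [sub_smul, natCast_zsmul, natCast_zsmul]
    rw [h2, h, sub_self]
  funext k
  have h3 := Fintype.linearIndependent_iff.1 hU _ h1 k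
  omega

theorem smul_indep {r : ℕ} {U : Fin r → Fin m → ℤ} (hU : LinearIndependent ℤ U) {K : ℕ}
    (hK : 0 < K) : LinearIndependent ℤ fun k => K • U k := by
  rw [Fintype.linearIndependent_iff] at hU ⊢
  intro g hg i
  have h1 : ∑ k, (g k * K) • U k = 0 := by
    rw [← hg]
    refine Finset.sum_congr rfl fun k _ => ?_
    rw [mul_smul, natCast_zsmul]
  have h2 := hU _ h1 i
  rcases mul_eq_zero.1 h2 with h3 | h3
  · exact h3
  · exfalso
    have : (K : ℤ) ≠ 0 := by exact_mod_cast hK.ne'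
    exact this h3

/-- The exponents of the monomial in the functions `h k`. -/
def bt {r : ℕ} (k0 : Fin r) (α : Fin (r + 1) →₀ ℕ) (k : Fin r) : ℕ :=
  α k.succ + if k = k0 then α 0 else 0

theorem bt_inj {r : ℕ} {k0 : Fin r} {α α' : Fin (r + 1) →₀ ℕ} (h : bt k0 α = bt k0 α')
    (h0 : α 0 = α' 0) : α = α' := by
  ext i
  refine Fin.cases h0 (fun k => ?_) i
  have h1 := congrFun h k
  unfold bt at h1
  rw [h0] at h1
  omega

theorem prod_bt {M : Type} [CommMonoid M] {r : ℕ} (k0 : Fin r) (G : Fin r → M) (t : M)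
    (α : Fin (r + 1) →₀ ℕ) :
    ∏ i, (Fin.cons (t * G k0) G : Fin (r + 1) → M) i ^ α i = t ^ α 0 * ∏ k, G k ^ bt k0 α k := by
  have h1 : ∏ k, G k ^ bt k0 α k = (∏ k, G k ^ α k.succ) * G k0 ^ α 0 := by
    unfold bt
    simp only [pow_add]
    rw [Finset.prod_mul_distrib]
    congr 1
    rw [Finset.prod_eq_single k0]
    · rw [if_pos rfl]
    · intro b _ hb
      rw [if_neg hb, pow_zero]
    · intro h
      exact absurd (Finset.mem_univ _) h
  rw [Fin.prod_univ_succ, h1]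
  simp only [Fin.cons_zero, Fin.cons_succ]
  rw [mul_pow, mul_assoc, mul_comm (G k0 ^ α 0)]

/-- The terms of a polynomial in homogeneous functions. -/
theorem term_eq {r : ℕ} (k0 : Fin r) (τ : A.K0) (h : Fin r → A.K0) (U : Fin r → Fin m → ℤ)
    (α : Fin (r + 1) →₀ ℕ) :
    ∏ i, (Fin.cons ((τ : X.K) * ((h k0 : X.K) * S.χ (U k0)))
      (fun k => (h k : X.K) * S.χ (U k)) : Fin (r + 1) → X.K) i ^ α i =
      ((τ ^ α 0 * ∏ k, h k ^ bt k0 α k : A.K0) : X.K) * S.χ (wt U (bt k0 α)) := by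
  rw [prod_bt k0 (fun k => (h k : X.K) * S.χ (U k)) (τ : X.K) α]
  unfold wt
  rw [chi_sum]
  simp only [chi_nsmul, mul_pow]
  rw [Finset.prod_mul_distrib]
  push_cast
  ring

/-- The coefficients are not all zero. -/
theorem coef_ne {F : Type} [Field F] [Algebra ℂ F] {r : ℕ} (k0 : Fin r) {τ : F}
    (hτ : Transcendental ℂ τ) (h : Fin r → F) (hh : ∀ k, h k ≠ 0)
    (p : MvPolynomial (Fin (r + 1)) ℂ) {α₀ : Fin (r + 1) →₀ ℕ} (hα : α₀ ∈ p.support) :
    ∑ α ∈ p.support with bt k0 α = bt k0 α₀,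
      algebraMap ℂ F (p.coeff α) * (τ ^ α 0 * ∏ k, h k ^ bt k0 α k) ≠ 0 := by
  have h1 : ∑ α ∈ p.support with bt k0 α = bt k0 α₀,
      algebraMap ℂ F (p.coeff α) * (τ ^ α 0 * ∏ k, h k ^ bt k0 α k) =
      Polynomial.aeval τ (∑ α ∈ p.support with bt k0 α = bt k0 α₀,
        Polynomial.monomial (α 0) (p.coeff α)) * ∏ k, h k ^ bt k0 α₀ k := by
    rw [map_sum, Finset.sum_mul]
    refine Finset.sum_congr rfl fun α hα' => ?_
    rw [Finset.mem_filter] at hα'
    rw [Polynomial.aeval_monomial, hα'.2, mul_assoc]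
  rw [h1]
  refine mul_ne_zero ?_ (Finset.prod_ne_zero_iff.2 fun k _ => pow_ne_zero _ (hh k))
  intro h2
  have h3 := transcendental_iff.1 hτ _ h2
  have h4 := congrArg (fun q => Polynomial.coeff q (α₀ 0)) h3
  simp only [Polynomial.finsetSum_coeff, Polynomial.coeff_monomial, Polynomial.coeff_zero] at h4
  rw [Finset.sum_eq_single α₀] at h4
  · rw [if_pos rfl] at h4
    exact (MvPolynomial.mem_support_iff.1 hα) h4
  · intro α hα' hne
    rw [Finset.mem_filter] at hα'
    rw [if_neg]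
    intro h5
    exact hne (bt_inj hα'.2 h5)
  · intro h5
    have h6 : α₀ ∈ p.support.filter fun α => bt k0 α = bt k0 α₀ :=
      Finset.mem_filter.2 ⟨hα, rfl⟩
    exact absurd h6 h5

/-- A polynomial in homogeneous functions of value zero has order zero. -/
theorem ord_zero' (hHFK : Stmt_HFK) {v : DivVal n X.K} {w : Fin m → ℤ} {y : DivVal 1 A.K0}
    (hT : IsTor S v w 0 y) {r : ℕ} (k0 : Fin r) {τ : A.K0} (hτ : Transcendental ℂ τ)
    (h : Fin r → A.K0) (hh : ∀ k, h k ≠ 0) {U : Fin r → Fin m → ℤ} (hU : LinearIndependent ℤ U)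
    (hw : ∀ k, ip w (U k) = 0) (p : MvPolynomial (Fin (r + 1)) ℂ) (hp : p ≠ 0) :
    aeval (Fin.cons ((τ : X.K) * ((h k0 : X.K) * S.χ (U k0)))
      (fun k => (h k : X.K) * S.χ (U k)) : Fin (r + 1) → X.K) p ≠ 0 ∧
    v.ord (aeval (Fin.cons ((τ : X.K) * ((h k0 : X.K) * S.χ (U k0)))
      (fun k => (h k : X.K) * S.χ (U k)) : Fin (r + 1) → X.K) p) = 0 := by
  classical
  obtain ⟨α₀, hα₀⟩ := MvPolynomial.support_nonempty.2 hp
  set s : Finset (Fin m → ℤ) := p.support.image fun α => wt U (bt k0 α) with hs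
  set b : (Fin m → ℤ) → A.K0 := fun u => ∑ α ∈ p.support with wt U (bt k0 α) = u,
    algebraMap ℂ A.K0 (p.coeff α) * (τ ^ α 0 * ∏ k, h k ^ bt k0 α k) with hb
  have hsum : aeval (Fin.cons ((τ : X.K) * ((h k0 : X.K) * S.χ (U k0)))
      (fun k => (h k : X.K) * S.χ (U k)) : Fin (r + 1) → X.K) p =
      ∑ u ∈ s, (b u : X.K) * S.χ u := by
    rw [aeval_def, eval₂_eq']
    rw [← Finset.sum_fiberwise_of_maps_to (s := p.support) (t := s)
      (g := fun α => wt U (bt k0 α)) (fun α hα => Finset.mem_image_of_mem _ hα)]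
    refine Finset.sum_congr rfl fun u _ => ?_
    rw [hb]
    simp only
    rw [show ((∑ α ∈ p.support with wt U (bt k0 α) = u,
      algebraMap ℂ A.K0 (p.coeff α) * (τ ^ α 0 * ∏ k, h k ^ bt k0 α k) : A.K0) : X.K) =
      ∑ α ∈ p.support with wt U (bt k0 α) = u,
        algebraMap ℂ X.K (p.coeff α) * ((τ ^ α 0 * ∏ k, h k ^ bt k0 α k : A.K0) : X.K) by
          push_cast
          rfl, Finset.sum_mul]
    refine Finset.sum_congr rfl fun α hα => ?_
    rw [Finset.mem_filter] at hα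
    rw [term_eq S k0 τ h U α, hα.2, mul_assoc]
  have hne : b (wt U (bt k0 α₀)) ≠ 0 := by
    have h1 := coef_ne k0 hτ h hh p hα₀
    have h2 : (p.support.filter fun α => wt U (bt k0 α) = wt U (bt k0 α₀)) =
        p.support.filter fun α => bt k0 α = bt k0 α₀ := by
      refine Finset.filter_congr fun α _ => ?_
      constructor
      · intro h3
        exact wt_inj hU h3
      · intro h3
        rw [h3]
    rw [hb]
    simp only
    rw [h2]
    exact h1
  have hmem : wt U (bt k0 α₀) ∈ s := Finset.mem_image_of_mem _ hα₀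
  rw [hsum]
  constructor
  · intro h0
    exact hne ((hHFK A S).2.1 s b h0 _ hmem)
  · obtain ⟨u, hu, -, hk⟩ := (hT s b ⟨_, hmem, hne⟩).1
    rw [hk, zero_mul, zero_add]
    rw [hs, Finset.mem_image] at hu
    obtain ⟨α, -, rfl⟩ := hu
    unfold wt
    rw [ip_sum]
    refine Finset.sum_eq_zero fun k _ => ?_
    rw [ip_nsmul, hw, mul_zero]

end General

theorem deg_nsmul {F : Type} [Field F] [Algebra ℂ F] (K : ℕ) (E : DivVal 1 F →₀ ℤ) :
    deg (K • E) = K * deg E := by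
  unfold deg
  rw [Finsupp.sum_smul_index' (fun _ => rfl), Finsupp.sum, Finsupp.sum, Finset.mul_sum]
  refine Finset.sum_congr rfl fun y _ => ?_
  rw [nsmul_eq_mul]

/-- The quotient of two linearly independent functions is transcendental. -/
theorem quot_trans {F : Type} [Field F] [Algebra ℂ F] {f : Fin 2 → F}
    (hf : LinearIndependent ℂ f) : Transcendental ℂ (f 1 / f 0) := by
  intro halg
  obtain ⟨c, hc⟩ := PRF.const_of_alg halg
  have h0 : f 0 ≠ 0 := hf.ne_zero 0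
  have h1 : f 1 = c • f 0 := by
    rw [Algebra.smul_def, ← hc, div_mul_cancel₀ _ h0]
  have h2 := Fintype.linearIndependent_iff.1 hf ![-c, 1] (by
    rw [Fin.sum_univ_two]
    simp [h1]) 1
  simp at h2

end HTR

/-- HTR: toroidal valuations which are orders along horizontal prime divisors. -/
theorem t_HTR (hK0C : Stmt_K0C) (_hSEC : Stmt_SEC) (hRIE : Stmt_RIE) (hNOR : Stmt_NOR)
    (hTHR : Stmt_THR) (hHT1 : Stmt_HT1) (hHFK : Stmt_HFK) : Stmt_HTR := by
  intro m X A S v w y hm hT hN u E hu hE hreg hw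
  obtain ⟨r, rfl⟩ : ∃ r, m = r + 1 := ⟨m - 1, by omega⟩
  change Fin r → (Fin (r + 1) → ℤ) at u
  change Fin r → (DivVal 1 A.K0 →₀ ℤ) at E
  obtain ⟨γ, hγ⟩ := hRIE (hK0C A)
  set K : ℕ := (γ + 2).toNat + 1 with hK
  have hK1 : γ + 2 ≤ K := by omega
  have hK2 : 0 < K := by omega
  have hf : ∀ k : Fin r, ∃ f : Fin 2 → A.K0, LinearIndependent ℂ f ∧
      ∀ i (y : DivVal 1 A.K0), y.Ge (-(K • E k) y) (f i) := by
    intro k
    apply hγ (K • E k) 2
    rw [HTR.deg_nsmul]
    have h1 : 1 ≤ deg (E k) := hE k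
    have h2 : (K : ℤ) * 1 ≤ K * deg (E k) := mul_le_mul_of_nonneg_left h1 (by positivity)
    push_cast
    omega
  choose f hf1 hf2 using hf
  have hf0 : ∀ k i, f k i ≠ 0 := fun k i => (hf1 k).ne_zero i
  have hR : ∀ (k : Fin r) (i : Fin 2), (f k i : X.K) * S.χ (K • u k) ∈ X.R := by
    intro k i
    refine hNOR S (f k i) (K • u k) (hf0 k i) ?_
    intro w' l' y' hl' hN'
    have h1 := hreg k w' l' y' hl' hN'
    have h2 : -(K • E k) y' ≤ y'.ord (f k i) := (hf2 k i y').le (hf0 k i)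
    have h3 : (K • E k) y' = (K : ℤ) * E k y' := by
      rw [Finsupp.smul_apply, nsmul_eq_mul]
    rw [h3] at h2
    rw [HTR.ip_nsmul]
    have h4 : l' * -(K * E k y') ≤ l' * y'.ord (f k i) := mul_le_mul_of_nonneg_left h2 hl'
    have h5 : (K : ℤ) * (l' * E k y') ≤ K * ip w' (u k) :=
      mul_le_mul_of_nonneg_left h1 (by positivity)
    nlinarith
  obtain ⟨k0⟩ : Nonempty (Fin r) := ⟨⟨0, by omega⟩⟩
  set τ : A.K0 := f k0 1 / f k0 0 with hτ
  have hτt : Transcendental ℂ τ := HTR.quot_trans (hf1 k0)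
  have hτe : (τ : X.K) * ((f k0 0 : X.K) * S.χ (K • u k0)) = (f k0 1 : X.K) * S.χ (K • u k0) := by
    have h1 : τ * f k0 0 = f k0 1 := by rw [hτ, div_mul_cancel₀ _ (hf0 k0 0)]
    rw [← mul_assoc, ← h1]
    push_cast
    rfl
  refine hHT1 X v (Nat.succ_pos _) ((hTHR S v w 0 y).1 hT hN).1.1 ?_
  refine ⟨(Fin.cons ⟨(f k0 1 : X.K) * S.χ (K • u k0), hR k0 1⟩
    (fun k => ⟨(f k 0 : X.K) * S.χ (K • u k), hR k 0⟩) : Fin (r + 1) → X.R), ?_⟩
  intro p hp
  have key := HTR.ord_zero' S hHFK hT k0 hτt (fun k => f k 0) (fun k => hf0 k 0)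
    (HTR.smul_indep hu hK2) (fun k => by rw [HTR.ip_nsmul, hw k, mul_zero]) p hp
  have hcoe : ((aeval (Fin.cons ⟨(f k0 1 : X.K) * S.χ (K • u k0), hR k0 1⟩
      (fun k => ⟨(f k 0 : X.K) * S.χ (K • u k), hR k 0⟩) : Fin (r + 1) → X.R) p : X.R) : X.K) =
      aeval (Fin.cons ((τ : X.K) * ((f k0 0 : X.K) * S.χ (K • u k0)))
        (fun k => (f k 0 : X.K) * S.χ (K • u k)) : Fin (r + 1) → X.K) p := by
    have h1 := MvPolynomial.comp_aeval_apply (f := (Fin.cons ⟨(f k0 1 : X.K) * S.χ (K • u k0),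
      hR k0 1⟩ (fun k => ⟨(f k 0 : X.K) * S.χ (K • u k), hR k 0⟩) : Fin (r + 1) → X.R))
      X.R.val p
    change X.R.val _ = _
    rw [h1]
    congr 2
    funext i
    refine Fin.cases ?_ (fun k => ?_) i
    · simp only [Fin.cons_zero]
      exact hτe.symm
    · simp only [Fin.cons_succ]
      rfl
  constructor
  · intro h0
    apply key.1
    rw [← hcoe]
    exact congrArg Subtype.val h0
  · rw [hcoe]
    exact key.2

end

end MldGeo
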