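import Pool.Agent.MldGeo.Stmts8
import Pool.Agent.MldGeo.TRB
import Pool.Agent.MldGeo.DIV

/-!
# The field of invariants is a function field of one variable
-/

namespace MldGeo

open MvPolynomial

noncomputable section

namespace K0C

/-- Linear independence over `k` of elements of `E` persists over the ring `k[x]` when `x` is
algebraically independent over `E`. -/
theorem li_adjoin {k E L : Type} [Field k] [Field E] [Field L] [Algebra k E] [Algebra E L]
    [Algebra k L] [IsScalarTower k E L] {σ : Type} (x : σ → L) (hx : AlgebraicIndependent E x)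
    {ι : Type} (b : ι → E) (hb : LinearIndependent k b) :
    LinearIndependent (Algebra.adjoin k (Set.range x)) (fun i => algebraMap E L (b i)) := by
  classical
  rw [linearIndependent_iff']
  intro t g hg i hi
  have hp : ∀ i, ∃ p : MvPolynomial σ k, MvPolynomial.aeval x p = (g i : L) := by
    intro i
    have h1 : ∀ y : L, y ∈ Algebra.adjoin k (Set.range x) →
        ∃ p : MvPolynomial σ k, MvPolynomial.aeval x p = y := by
      intro y hy
      rw [Algebra.adjoin_range_eq_range_aeval] at hy
      exact hy
    exact h1 _ (g i).2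
  choose p hp using hp
  have h2 : MvPolynomial.aeval x (∑ i ∈ t, MvPolynomial.map (algebraMap k E) (p i) *
      MvPolynomial.C (b i)) = 0 := by
    rw [map_sum, ← hg]
    refine Finset.sum_congr rfl fun i _ => ?_
    rw [map_mul, MvPolynomial.aeval_C, MvPolynomial.aeval_map_algebraMap, hp]
    rfl
  have h3 := (algebraicIndependent_iff.1 hx) _ h2
  have h4 : p i = 0 := by
    ext u
    have h5 := congrArg (MvPolynomial.coeff u) h3
    rw [MvPolynomial.coeff_sum, MvPolynomial.coeff_zero] at h5
    have h6 : ∑ i ∈ t, (MvPolynomial.coeff u (p i)) • b i = 0 := by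
      rw [← h5]
      refine Finset.sum_congr rfl fun i _ => ?_
      rw [mul_comm, MvPolynomial.coeff_C_mul, MvPolynomial.coeff_map, Algebra.smul_def, mul_comm]
    rw [MvPolynomial.coeff_zero]
    exact (linearIndependent_iff'.1 hb) t _ h6 i hi
  apply Subtype.ext
  rw [← hp i, h4, map_zero]
  rfl

open scoped IntermediateField.algebraAdjoinAdjoin in
/-- The same over the field `k(x)`. -/
theorem li_field {k E L : Type} [Field k] [Field E] [Field L] [Algebra k E] [Algebra E L]
    [Algebra k L] [IsScalarTower k E L] {σ : Type} (x : σ → L) (hx : AlgebraicIndependent E x)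
    {ι : Type} (b : ι → E) (hb : LinearIndependent k b) :
    LinearIndependent (IntermediateField.adjoin k (Set.range x))
      (fun i => algebraMap E L (b i)) := by
  have h := li_adjoin x hx b hb
  exact (LinearIndependent.iff_fractionRing (Algebra.adjoin k (Set.range x))
    (IntermediateField.adjoin k (Set.range x))).1 h

/-- A finitely generated algebraic extension is finite. -/
theorem fin_of_alg {M L : Type} [Field M] [Field L] [Algebra M L] [Algebra.EssFiniteType M L]
    [Algebra.IsAlgebraic M L] : FiniteDimensional M L := by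
  obtain ⟨S, hS⟩ := (IntermediateField.fg_top (F := M) (E := L))
  have h1 : FiniteDimensional M (IntermediateField.adjoin M (S : Set L)) :=
    IntermediateField.finiteDimensional_adjoin fun x _ => Algebra.IsIntegral.isIntegral x
  rw [hS] at h1
  exact Module.Finite.equiv (IntermediateField.topEquiv (F := M) (E := L)).toLinearEquiv

/-- the function field is finitely generated -/
theorem ess {n : ℕ} (X : Germ n) : Algebra.EssFiniteType ℂ X.K := by
  have h1 : Algebra.FiniteType ℂ X.R := X.R.fg_iff_finiteType.1 X.fg
  have h2 : IsFractionRing X.R X.K := DIV.fracRing X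
  have h3 : Algebra.EssFiniteType X.R X.K :=
    Algebra.EssFiniteType.of_isLocalization X.K (nonZeroDivisors X.R)
  exact Algebra.EssFiniteType.comp ℂ X.R X.K

variable {m : ℕ} {X : Germ (m + 1)} (A : TorusAction X m)

/-- there is a transcendental function in the field of invariants -/
theorem exists_tr (hTRD : Stmt_TRD) : ∃ s : A.K0, Transcendental ℂ s := by
  have h1 := hTRD A
  have h3 : Algebra.trdeg ℂ A.K0 ≠ 0 := by
    intro h0
    rw [h0, zero_add] at h1
    have h2 : m = m + 1 := by exact_mod_cast h1
    omega
  exact (trdeg_ne_zero_iff.1 h3).transcendental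

/-- the function field is a finite extension of `ℂ(s, χ)` -/
theorem fin_big (S : Splitting A) (hHFK : Stmt_HFK) (s : A.K0) (hs : Transcendental ℂ s) :
    FiniteDimensional (IntermediateField.adjoin (IntermediateField.adjoin ℂ {s})
      (Set.range fun i : Fin m => S.χ (Pi.single i 1))) X.K := by
  have hess := ess X
  have hx := TRB.indep S hHFK
  have hx' : AlgebraicIndependent (IntermediateField.adjoin ℂ {s})
      (fun i : Fin m => S.χ (Pi.single i 1)) :=
    hx.restrictScalars (algebraMap (IntermediateField.adjoin ℂ {s}) A.K0).injective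
  -- the transcendence degree
  have h1 : AlgebraicIndependent ℂ (fun _ : Unit => (⟨s,
      IntermediateField.mem_adjoin_simple_self ℂ s⟩ : IntermediateField.adjoin ℂ {s})) := by
    rw [algebraicIndependent_unique_type_iff]
    intro halg
    exact hs (halg.algHom (IntermediateField.adjoin ℂ {s}).val)
  have h2 := h1.cardinalMk_le_trdeg
  rw [Cardinal.mk_fintype, Fintype.card_unit, Nat.cast_one] at h2
  have h3 := trdeg_add_eq ℂ (IntermediateField.adjoin ℂ {s}) (A := X.K)
  rw [X.trdeg] at h3
  have hfin : Algebra.trdeg (IntermediateField.adjoin ℂ {s}) X.K < Cardinal.aleph0 := by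
    refine lt_of_le_of_lt ?_ (Cardinal.natCast_lt_aleph0 (n := m + 1))
    rw [← h3]
    exact self_le_add_left _ _
  obtain ⟨t, ht⟩ := Cardinal.lt_aleph0.1 hfin
  rw [ht] at h3
  have h4 : t ≤ m := by
    have h5 : (1 : Cardinal) + (t : Cardinal) ≤ ((m + 1 : ℕ) : Cardinal) := by
      rw [← h3]
      gcongr
    have h6 : 1 + t ≤ m + 1 := by exact_mod_cast h5
    omega
  have h7 := hx'.isTranscendenceBasis_of_trdeg_le_of_finite (by
    rw [ht, Cardinal.mk_fintype, Fintype.card_fin]
    exact_mod_cast h4)
  have h8 := h7.isAlgebraic_field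
  have h10 : Algebra.EssFiniteType (IntermediateField.adjoin ℂ {s}) X.K :=
    Algebra.EssFiniteType.of_comp ℂ _ _
  have h9 : Algebra.EssFiniteType (IntermediateField.adjoin (IntermediateField.adjoin ℂ {s})
      (Set.range fun i : Fin m => S.χ (Pi.single i 1))) X.K :=
    Algebra.EssFiniteType.of_comp (IntermediateField.adjoin ℂ {s}) _ _
  exact fin_of_alg

end K0C

theorem t_K0C (hSPL : Stmt_SPL) (hHFK : Stmt_HFK) (hTRD : Stmt_TRD) : Stmt_K0C := by
  intro m X A
  obtain ⟨S⟩ := hSPL A
  refine ⟨K0C.exists_tr A hTRD, fun s hs => ?_⟩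
  have hfin := K0C.fin_big A S hHFK s hs
  let b := Module.Basis.ofVectorSpace (IntermediateField.adjoin ℂ {s}) A.K0
  have hli := K0C.li_field (L := X.K) (fun i : Fin m => S.χ (Pi.single i 1)) (TRB.indep S hHFK)
    b b.linearIndependent
  have hf : Finite (Module.Basis.ofVectorSpaceIndex (IntermediateField.adjoin ℂ {s}) A.K0) :=
    hli.finite
  exact Module.Finite.of_basis b

end

end MldGeo
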