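import Pool.Agent.MldGeo.Stmts7

/-!
# Minimal systems of points of a polyhedron
-/

namespace MldGeo

noncomputable section

namespace MNV

variable {m l : ℕ} {R : Type} [Fintype R] (p : Fin l → Fin m → ℝ) (ray : R → Fin m → ℝ)

/-- the polyhedron of a family of points -/
def In {k : ℕ} (f : Fin k → Fin l) (w : Fin m → ℝ) : Prop :=
  ∃ (a : Fin k → ℝ) (d : R → ℝ), (∀ j, 0 ≤ a j) ∧ (∀ j, 0 ≤ d j) ∧ ∑ j, a j = 1 ∧
    w = ∑ j, a j • p (f j) + ∑ j, d j • ray j

theorem drop {k : ℕ} (f : Fin (k + 1) → Fin l) (i : Fin (k + 1))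
    (h : ∃ (a : Fin (k + 1) → ℝ) (d : R → ℝ), (∀ j, 0 ≤ a j) ∧ (∀ j, 0 ≤ d j) ∧
        ∑ j, a j = 1 ∧ a i = 0 ∧ p (f i) = ∑ j, a j • p (f j) + ∑ j, d j • ray j)
    (w : Fin m → ℝ) : In p ray f w ↔ In p ray (fun j => f (i.succAbove j)) w := by
  obtain ⟨a, d, ha, hd, ha1, hai, hp⟩ := h
  rw [Fin.sum_univ_succAbove _ i, hai, zero_add] at ha1
  rw [Fin.sum_univ_succAbove _ i, hai, zero_smul, zero_add] at hp
  constructor
  · rintro ⟨b, e, hb, he, hb1, hw⟩
    rw [Fin.sum_univ_succAbove _ i] at hb1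
    refine ⟨fun j => b (i.succAbove j) + b i * a (i.succAbove j), fun j => e j + b i * d j,
      fun j => add_nonneg (hb _) (mul_nonneg (hb _) (ha _)),
      fun j => add_nonneg (he _) (mul_nonneg (hb _) (hd _)), ?_, ?_⟩
    · rw [Finset.sum_add_distrib, ← Finset.mul_sum, ha1, mul_one, add_comm]
      exact hb1
    · rw [hw, Fin.sum_univ_succAbove _ i, hp]
      simp only [add_smul, mul_smul, Finset.sum_add_distrib, ← Finset.smul_sum, smul_add]
      abel
  · rintro ⟨b, e, hb, he, hb1, hw⟩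
    refine ⟨i.insertNth (0 : ℝ) b, e, ?_, he, ?_, ?_⟩
    · intro j
      refine Fin.succAboveCases i ?_ ?_ j
      · simp
      · intro j
        simpa using hb j
    · rw [Fin.sum_univ_succAbove _ i]
      simpa using hb1
    · rw [Fin.sum_univ_succAbove _ i]
      simpa using hw

end MNV

theorem t_MNV : Stmt_MNV := by
  classical
  intro m l R _ p ray hl
  have hex : ∃ k, ∃ f : Fin k → Fin l, ∀ w, MNV.In p ray (fun j : Fin l => j) w ↔
      MNV.In p ray f w := ⟨l, fun j => j, fun w => Iff.rfl⟩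
  obtain ⟨f, hf⟩ := Nat.find_spec hex
  have hmin : ∀ k' < Nat.find hex, ¬ ∃ f : Fin k' → Fin l, ∀ w,
      MNV.In p ray (fun j : Fin l => j) w ↔ MNV.In p ray f w := fun k' hk' => Nat.find_min hex hk'
  generalize Nat.find hex = k at f hf hmin
  refine ⟨k, f, ?_, ?_, fun w => hf w⟩
  · rcases Nat.eq_zero_or_pos k with rfl | h
    · exfalso
      have h1 : MNV.In p ray (fun j : Fin l => j) (p ⟨0, hl⟩) := by
        refine ⟨Pi.single ⟨0, hl⟩ 1, 0, ?_, fun j => le_rfl, ?_, ?_⟩
        · intro j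
          by_cases h : j = ⟨0, hl⟩
          · rw [h, Pi.single_eq_same]
            exact zero_le_one
          · rw [Pi.single_eq_of_ne h]
        · simp
        · rw [Finset.sum_eq_single (⟨0, hl⟩ : Fin l)]
          · simp
          · intro j _ hj
            rw [Pi.single_eq_of_ne hj, zero_smul]
          · intro h
            exact absurd (Finset.mem_univ _) h
      obtain ⟨a, d, -, -, h2, -⟩ := (hf _).1 h1
      simp at h2
    · exact h
  · intro i h
    obtain ⟨k, rfl⟩ : ∃ k', k = k' + 1 := ⟨k - 1, by have := i.pos; omega⟩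
    refine hmin k (Nat.lt_succ_self k) ⟨fun j => f (i.succAbove j), fun w => ?_⟩
    rw [hf w]
    exact MNV.drop p ray f i h w

end

end MldGeo
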