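import Pool.Agent.MldGeo.Stmts8

/-!
# NNG: it is enough to test the generators
-/

namespace MldGeo

namespace NNG

variable {n m : ℕ} {X : Germ n} {A : TorusAction X m}

/-- The condition on a coefficient `b` of weight `u`. -/
def Good (y : DivVal 1 A.K0) (w : Fin m → ℤ) (l : ℤ) (st : Prop) (u : Fin m → ℤ) (b : A.K0) :
    Prop :=
  b = 0 ∨ (0 ≤ l * y.ord b + ip w u ∧ (st → u ≠ 0 → 0 < l * y.ord b + ip w u))

theorem ip_add (w u u' : Fin m → ℤ) : ip w (u + u') = ip w u + ip w u' := by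
  simp [ip, mul_add, Finset.sum_add_distrib]

theorem ip_zero (w : Fin m → ℤ) : ip w 0 = 0 := by simp [ip]

theorem Good.add {y : DivVal 1 A.K0} {w : Fin m → ℤ} {l : ℤ} (hl : 0 ≤ l) {st : Prop}
    {u : Fin m → ℤ} {a b : A.K0} (ha : Good y w l st u a) (hb : Good y w l st u b) :
    Good y w l st u (a + b) := by
  by_cases ha0 : a = 0
  · rwa [ha0, zero_add]
  by_cases hb0 : b = 0
  · rwa [hb0, add_zero]
  by_cases hab : a + b = 0
  · exact Or.inl hab
  have h1 := ha.resolve_left ha0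
  have h2 := hb.resolve_left hb0
  have h3 := y.ord_add a b ha0 hb0 hab
  refine Or.inr ?_
  rcases min_le_iff.1 h3 with h4 | h4
  · have h5 := mul_le_mul_of_nonneg_left h4 hl
    exact ⟨by linarith [h1.1], fun hs hu => by linarith [h1.2 hs hu]⟩
  · have h5 := mul_le_mul_of_nonneg_left h4 hl
    exact ⟨by linarith [h2.1], fun hs hu => by linarith [h2.2 hs hu]⟩

theorem Good.mul {y : DivVal 1 A.K0} {w : Fin m → ℤ} {l : ℤ} {st : Prop}
    {u u' : Fin m → ℤ} {a b : A.K0} (ha : Good y w l st u a) (hb : Good y w l st u' b) :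
    Good y w l st (u + u') (a * b) := by
  by_cases ha0 : a = 0
  · exact Or.inl (by rw [ha0, zero_mul])
  by_cases hb0 : b = 0
  · exact Or.inl (by rw [hb0, mul_zero])
  have h1 := ha.resolve_left ha0
  have h2 := hb.resolve_left hb0
  refine Or.inr ?_
  rw [y.ord_mul a b ha0 hb0, ip_add, mul_add]
  refine ⟨by linarith [h1.1, h2.1], fun hs hu => ?_⟩
  by_cases hu0 : u = 0
  · have hu' : u' ≠ 0 := fun h => hu (by rw [hu0, h, add_zero])
    linarith [h1.1, h2.2 hs hu']
  · linarith [h1.2 hs hu0, h2.1]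

theorem Good.sum {ι : Type*} {y : DivVal 1 A.K0} {w : Fin m → ℤ} {l : ℤ} (hl : 0 ≤ l) {st : Prop}
    {u : Fin m → ℤ} (s : Finset ι) (f : ι → A.K0) (h : ∀ i ∈ s, Good y w l st u (f i)) :
    Good y w l st u (∑ i ∈ s, f i) := by
  classical
  induction s using Finset.induction_on with
  | empty => exact Or.inl (by simp)
  | insert a s ha ih =>
    rw [Finset.sum_insert ha]
    exact (h a (Finset.mem_insert_self a s)).add hl (ih fun i hi => h i (Finset.mem_insert_of_mem hi))

/-- The elements with a good expansion. -/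
def GoodK (S : Splitting A) (y : DivVal 1 A.K0) (w : Fin m → ℤ) (l : ℤ) (st : Prop) (a : X.K) :
    Prop :=
  ∃ (s : Finset (Fin m → ℤ)) (b : (Fin m → ℤ) → A.K0), (∀ u, u ∉ s → b u = 0) ∧
    (∀ u, Good y w l st u (b u)) ∧ a = ∑ u ∈ s, (b u : X.K) * S.χ u

theorem GoodK.single (S : Splitting A) {y : DivVal 1 A.K0} {w : Fin m → ℤ} {l : ℤ} {st : Prop}
    {u : Fin m → ℤ} {b : A.K0} (h : Good y w l st u b) :
    GoodK S y w l st ((b : X.K) * S.χ u) := by
  classical
  refine ⟨{u}, fun u' => if u' = u then b else 0, fun u' hu' => ?_, fun u' => ?_, by simp⟩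
  · rw [Finset.mem_singleton] at hu'
    simp [hu']
  · by_cases hu' : u' = u
    · subst hu'; simpa using h
    · exact Or.inl (by simp [hu'])

theorem GoodK.add {S : Splitting A} {y : DivVal 1 A.K0} {w : Fin m → ℤ} {l : ℤ} (hl : 0 ≤ l)
    {st : Prop} {a a' : X.K} (h : GoodK S y w l st a) (h' : GoodK S y w l st a') :
    GoodK S y w l st (a + a') := by
  classical
  obtain ⟨s, b, h1, h2, rfl⟩ := h
  obtain ⟨s', b', h1', h2', rfl⟩ := h'
  refine ⟨s ∪ s', fun u => b u + b' u, fun u hu => ?_, fun u => (h2 u).add hl (h2' u), ?_⟩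
  · rw [Finset.mem_union, not_or] at hu
    show b u + b' u = 0
    rw [h1 u hu.1, h1' u hu.2, add_zero]
  · have e1 : ∑ u ∈ s, (b u : X.K) * S.χ u = ∑ u ∈ s ∪ s', (b u : X.K) * S.χ u :=
      Finset.sum_subset Finset.subset_union_left fun u _ hu => by simp [h1 u hu]
    have e2 : ∑ u ∈ s', (b' u : X.K) * S.χ u = ∑ u ∈ s ∪ s', (b' u : X.K) * S.χ u :=
      Finset.sum_subset Finset.subset_union_right fun u _ hu => by simp [h1' u hu]
    rw [e1, e2, ← Finset.sum_add_distrib]
    refine Finset.sum_congr rfl fun u _ => ?_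
    push_cast
    ring

theorem GoodK.zero (S : Splitting A) (y : DivVal 1 A.K0) (w : Fin m → ℤ) (l : ℤ) (st : Prop) :
    GoodK S y w l st 0 :=
  ⟨∅, fun _ => 0, fun _ _ => rfl, fun _ => Or.inl rfl, by simp⟩

theorem GoodK.sum {ι : Type*} {S : Splitting A} {y : DivVal 1 A.K0} {w : Fin m → ℤ} {l : ℤ}
    (hl : 0 ≤ l) {st : Prop} (s : Finset ι) (f : ι → X.K) (h : ∀ i ∈ s, GoodK S y w l st (f i)) :
    GoodK S y w l st (∑ i ∈ s, f i) := by
  classical
  induction s using Finset.induction_on with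
  | empty => simpa using GoodK.zero S y w l st
  | insert a s ha ih =>
    rw [Finset.sum_insert ha]
    exact (h a (Finset.mem_insert_self a s)).add hl (ih fun i hi => h i (Finset.mem_insert_of_mem hi))

theorem GoodK.mul {S : Splitting A} {y : DivVal 1 A.K0} {w : Fin m → ℤ} {l : ℤ} (hl : 0 ≤ l)
    {st : Prop} {a a' : X.K} (h : GoodK S y w l st a) (h' : GoodK S y w l st a') :
    GoodK S y w l st (a * a') := by
  classical
  obtain ⟨s, b, h1, h2, rfl⟩ := h
  obtain ⟨s', b', h1', h2', rfl⟩ := h'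
  rw [Finset.sum_mul_sum]
  refine GoodK.sum hl _ _ fun u _ => GoodK.sum hl _ _ fun u' _ => ?_
  have e : (b u : X.K) * S.χ u * ((b' u' : X.K) * S.χ u') =
      ((b u * b' u' : A.K0) : X.K) * S.χ (u + u') := by
    rw [S.add]; push_cast; ring
  rw [e]
  exact GoodK.single S ((h2 u).mul (h2' u'))

theorem main (hHFK : Stmt_HFK) (S : Splitting A) (N : ℕ)
    (u : Fin N → Fin m → ℤ) (b : Fin N → A.K0)
    (hgen : ∀ a ∈ X.R, a ∈ Algebra.adjoin ℂ (Set.range fun i => (b i : X.K) * S.χ (u i)))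
    (w : Fin m → ℤ) (l : ℤ) (y : DivVal 1 A.K0) (hl : 0 ≤ l) (st : Prop)
    (hb : ∀ i, Good y w l st (u i) (b i)) (c : A.K0) (z : Fin m → ℤ) (hc : c ≠ 0)
    (hcR : (c : X.K) * S.χ z ∈ X.R) :
    0 ≤ l * y.ord c + ip w z ∧ (st → z ≠ 0 → 0 < l * y.ord c + ip w z) := by
  classical
  have h1 : GoodK S y w l st ((c : X.K) * S.χ z) := by
    have h2 := hgen _ hcR
    refine Algebra.adjoin_induction (p := fun a _ => GoodK S y w l st a) ?_ ?_ ?_ ?_ h2
    · rintro _ ⟨i, rfl⟩
      exact GoodK.single S (hb i)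
    · intro r
      have h3 : Good y w l st 0 (algebraMap ℂ A.K0 r) := by
        refine Or.inr ?_
        rw [y.ord_const, ip_zero]
        exact ⟨by simp, fun _ h => absurd rfl h⟩
      have h4 := GoodK.single S h3
      rw [S.zero, mul_one] at h4
      exact h4
    · intro a a' _ _ h h'
      exact h.add hl h'
    · intro a a' _ _ h h'
      exact h.mul hl h'
  obtain ⟨s, f, hf1, hf2, hf3⟩ := h1
  have h4 : ∑ v ∈ insert z s, ((f v - (if v = z then c else 0) : A.K0) : X.K) * S.χ v = 0 := by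
    have e1 : ∑ v ∈ s, (f v : X.K) * S.χ v = ∑ v ∈ insert z s, (f v : X.K) * S.χ v :=
      Finset.sum_subset (Finset.subset_insert _ _) fun v _ hv => by simp [hf1 v hv]
    have e2 : ∑ v ∈ insert z s, ((if v = z then c else 0 : A.K0) : X.K) * S.χ v =
        (c : X.K) * S.χ z := by
      rw [Finset.sum_eq_single z]
      · simp
      · intro v _ hv; simp [hv]
      · intro h; exact absurd (Finset.mem_insert_self z s) h
    have e3 : ∀ v ∈ insert z s, ((f v - (if v = z then c else 0) : A.K0) : X.K) * S.χ v =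
        (f v : X.K) * S.χ v - ((if v = z then c else 0 : A.K0) : X.K) * S.χ v := by
      intro v _
      push_cast
      ring
    rw [Finset.sum_congr rfl e3, Finset.sum_sub_distrib, e2, ← e1, ← hf3, sub_self]
  have h5 := (hHFK A S).2.1 (insert z s) _ h4 z (Finset.mem_insert_self z s)
  rw [if_pos rfl, sub_eq_zero] at h5
  have h6 := hf2 z
  rw [h5] at h6
  exact h6.resolve_left hc

end NNG

theorem t_NNG (hHFK : Stmt_HFK) : Stmt_NNG := by
  intro n m X A S N u b hb hR hgen w l y hl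
  refine ⟨fun h c z hc hcR => ?_, fun h c z hc hz hcR => ?_⟩
  · exact (NNG.main hHFK S N u b hgen w l y hl False
      (fun i => Or.inr ⟨h i, fun h => h.elim⟩) c z hc hcR).1
  · exact (NNG.main hHFK S N u b hgen w l y hl True
      (fun i => Or.inr ⟨(h i).le, fun _ _ => h i⟩) c z hc hcR).2 trivial hz

end MldGeo
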