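import Pool.Agent.MldGeo.Stmts8
import Pool.Agent.MldGeo.HLI

/-! # NOR: regularity of homogeneous functions -/

namespace MldGeo

open MvPolynomial

noncomputable section

namespace NOR

variable {m : ℕ} {X : Germ (m + 1)} {A : TorusAction X m}

/-- the function is regular along the prime divisors through the point -/
theorem loc (hLOC : Stmt_LOC) (hRSV : Stmt_RSV) (S : Splitting A) (b : A.K0) (u : Fin m → ℤ)
    (hb : b ≠ 0) (H : ∀ (w : Fin m → ℤ) (l : ℤ) (y : DivVal 1 A.K0), 0 ≤ l → NonnegR S w l y →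
      0 ≤ l * y.ord b + ip w u) :
    ∃ r s : X.R, s ∉ X.m ∧ (b : X.K) * S.χ u * (s : X.K) = r := by
  refine hLOC X _ fun v P _ hv => Or.inr ?_
  obtain ⟨w, l, y, hl, hy⟩ := hRSV S v
  rw [hy b u hb]
  refine H w l y hl fun b' u' hb' hmem => ?_
  rw [← hy b' u' hb']
  exact hv.2.2.1 ⟨_, hmem⟩

/-- the component of weight zero of a function which does not vanish at the point -/
theorem comp_zero (s : X.R) (hs : s ∉ X.m) (t : Finset (Fin m → ℤ)) (h : (Fin m → ℤ) → X.R)
    (hh : ∀ u, h u ∈ A.gr u) (ht : ∀ u, u ∉ t → h u = 0) (e : s = ∑ u ∈ t, h u) :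
    ∃ c : ℂ, c ≠ 0 ∧ h 0 = algebraMap ℂ X.R c := by
  obtain ⟨c, hc⟩ := A.const (h 0) (hh 0)
  refine ⟨c, ?_, hc⟩
  rintro rfl
  rw [map_zero] at hc
  apply hs
  rw [e]
  refine Ideal.sum_mem _ fun u _ => ?_
  by_cases hu : u = 0
  · rw [hu, hc]
    exact zero_mem _
  · exact A.vanish u hu _ (hh u)

end NOR

theorem t_NOR (hLOC : Stmt_LOC) (hRSV : Stmt_RSV) (hHFR : Stmt_HFR) (_hHFK : Stmt_HFK) :
    Stmt_NOR := by
  intro m X A S b u hb H
  obtain ⟨r, s, hs, e⟩ := NOR.loc hLOC hRSV S b u hb H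
  obtain ⟨t, h, hh, ht, es⟩ := hHFR A s
  obtain ⟨t', h', hh', ht', er⟩ := hHFR A r
  obtain ⟨c, hc, h0⟩ := NOR.comp_zero s hs t h hh ht es
  set a : X.K := (b : X.K) * S.χ u with ha
  have haH : A.Hom u a := by
    have h1 := (show A.Hom 0 (b : X.K) from b.2).mul (S.hom u)
    rwa [zero_add] at h1
  let T : Finset (Fin m → ℤ) := t.image (fun w => u + w) ∪ t' ∪ {u}
  have hsum1 : ∑ w ∈ T, a * (h (w - u) : X.K) = a * s := by
    have h1 : ∑ w ∈ t.image (fun w => u + w), a * (h (w - u) : X.K) =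
        ∑ w ∈ T, a * (h (w - u) : X.K) := by
      refine Finset.sum_subset ?_ ?_
      · intro w hw
        exact Finset.mem_union_left _ (Finset.mem_union_left _ hw)
      · intro w _ hw
        have h2 : w - u ∉ t := by
          intro h3
          exact hw (Finset.mem_image.2 ⟨w - u, h3, by abel⟩)
        rw [ht _ h2]
        simp
    rw [← h1, Finset.sum_image (fun x _ y _ hxy => add_left_cancel hxy), es]
    push_cast
    rw [Finset.mul_sum]
    refine Finset.sum_congr rfl fun w _ => ?_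
    rw [add_sub_cancel_left]
  have hsum2 : ∑ w ∈ T, (h' w : X.K) = r := by
    have h1 : ∑ w ∈ t', (h' w : X.K) = ∑ w ∈ T, (h' w : X.K) := by
      refine Finset.sum_subset ?_ ?_
      · intro w hw
        exact Finset.mem_union_left _ (Finset.mem_union_right _ hw)
      · intro w _ hw
        rw [ht' _ hw]
        simp
    rw [← h1, er]
    push_cast
    rfl
  have hT : ∑ w ∈ T, (a * (h (w - u) : X.K) - (h' w : X.K)) = 0 := by
    rw [Finset.sum_sub_distrib, hsum1, hsum2, e, sub_self]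
  have hhom : ∀ w ∈ T, A.Hom w (a * (h (w - u) : X.K) - (h' w : X.K)) := by
    intro w _
    refine TorusAction.Hom.sub ?_ (TorusAction.Hom.of_mem (hh' w))
    have h1 := haH.mul (TorusAction.Hom.of_mem (hh (w - u)))
    rwa [add_sub_cancel] at h1
  have hu : u ∈ T := Finset.mem_union_right _ (Finset.mem_singleton_self u)
  have h1 := t_HLI A T (fun w => a * (h (w - u) : X.K) - (h' w : X.K)) hhom hT u hu
  simp only [sub_self] at h1
  rw [h0] at h1
  have h2 : a * algebraMap ℂ X.K c = (h' u : X.K) := sub_eq_zero.1 h1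
  have hc' : algebraMap ℂ X.K c ≠ 0 := (map_ne_zero _).2 hc
  have h3 : a = c⁻¹ • (h' u : X.K) := by
    rw [← h2, Algebra.smul_def, map_inv₀]
    field_simp
  rw [h3]
  exact X.R.smul_mem (h' u).2 c⁻¹

end

end MldGeo
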