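import Pool.Agent.MldGeo.Stmts7

/-!
# NRV: the normal cones of the vertices are full dimensional
-/

namespace MldGeo

open MldGap MldTv

namespace NRV

/-- Farkas lemma over an ordered field (Bartl's proof). -/
theorem farkas_field {k W ι : Type} [Field k] [LinearOrder k] [IsStrictOrderedRing k]
    [AddCommGroup W] [Module k W] (s : Finset ι) : ∀ (a : ι → W →ₗ[k] k) (c : W →ₗ[k] k),
      (∀ x, (∀ i ∈ s, a i x ≤ 0) → c x ≤ 0) →
      ∃ l : ι → k, (∀ i, 0 ≤ l i) ∧ c = ∑ i ∈ s, l i • a i := by
  classical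
  induction s using Finset.induction_on with
  | empty =>
    intro a c h
    refine ⟨fun _ => 0, fun _ => le_rfl, ?_⟩
    ext x
    have h1 := h x (by simp)
    have h2 := h (-x) (by simp)
    rw [map_neg] at h2
    simp only [Finset.sum_empty, LinearMap.zero_apply]
    linarith
  | insert j s hj ih =>
    intro a c h
    by_cases h0 : ∀ x, (∀ i ∈ s, a i x ≤ 0) → c x ≤ 0
    · obtain ⟨l, hl, hc⟩ := ih a c h0
      refine ⟨fun i => if i = j then 0 else l i, fun i => ?_, ?_⟩
      · dsimp only
        split_ifs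
        · exact le_rfl
        · exact hl i
      · dsimp only
        rw [Finset.sum_insert hj, if_pos rfl, zero_smul, zero_add, hc]
        refine Finset.sum_congr rfl fun i hi => ?_
        rw [if_neg (by rintro rfl; exact hj hi)]
    · push Not at h0
      obtain ⟨y, hy, hcy⟩ := h0
      have hb : 0 < a j y := by
        by_contra hb
        push Not at hb
        refine absurd (h y fun i hi => ?_) (not_le.mpr hcy)
        rcases Finset.mem_insert.mp hi with rfl | hi
        · exact hb
        · exact hy i hi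
      obtain ⟨l, hl, hc⟩ := ih (fun i => a i - (a i y / a j y) • a j) (c - (c y / a j y) • a j) (by
        intro x hx
        have h1 := h (x - (a j x / a j y) • y) (by
          intro i hi
          rcases Finset.mem_insert.mp hi with rfl | hi
          · rw [map_sub, map_smul, smul_eq_mul, div_mul_cancel₀ _ hb.ne', sub_self]
          · have h2 := hx i hi
            simp only [LinearMap.sub_apply, LinearMap.smul_apply, smul_eq_mul] at h2
            rw [map_sub, map_smul, smul_eq_mul]
            calc a i x - a j x / a j y * a i y = a i x - a i y / a j y * a j x := by ring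
              _ ≤ 0 := h2)
        rw [map_sub, map_smul, smul_eq_mul] at h1
        simp only [LinearMap.sub_apply, LinearMap.smul_apply, smul_eq_mul]
        calc c x - c y / a j y * a j x = c x - a j x / a j y * c y := by ring
          _ ≤ 0 := h1)
      refine ⟨fun i => if i = j then c y / a j y - ∑ i ∈ s, l i * (a i y / a j y) else l i,
        fun i => ?_, ?_⟩
      · dsimp only
        split_ifs
        · have h1 : ∑ i ∈ s, l i * (a i y / a j y) ≤ 0 :=
            Finset.sum_nonpos fun i hi => mul_nonpos_of_nonneg_of_nonpos (hl i)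
              (div_nonpos_of_nonpos_of_nonneg (hy i hi) hb.le)
          have h2 : 0 < c y / a j y := div_pos hcy hb
          linarith
        · exact hl i
      · dsimp only
        rw [Finset.sum_insert hj, if_pos rfl]
        have h1 : ∑ i ∈ s, (if i = j then c y / a j y - ∑ i ∈ s, l i * (a i y / a j y) else l i) • a i
            = ∑ i ∈ s, l i • a i := by
          refine Finset.sum_congr rfl fun i hi => ?_
          rw [if_neg (by rintro rfl; exact hj hi)]
        rw [h1]
        have h2 : c = ∑ i ∈ s, l i • (a i - (a i y / a j y) • a j) + (c y / a j y) • a j := by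
          rw [← hc]
          abel
        conv_lhs => rw [h2]
        have h3 : ∀ t : k, (c y / a j y - t) • a j = (c y / a j y) • a j - t • a j :=
          fun t => by
            ext w
            simp only [LinearMap.smul_apply, LinearMap.sub_apply, smul_eq_mul]
            ring
        rw [h3]
        simp only [smul_sub, Finset.sum_sub_distrib, smul_smul, ← Finset.sum_smul]
        abel

/-- a linear form on `ℝ^m × ℝ` -/
noncomputable def pf {m : ℕ} (w : Fin m → ℝ) (t : ℝ) : ((Fin m → ℝ) × ℝ) →ₗ[ℝ] ℝ where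
  toFun x := ∑ k, w k * x.1 k + t * x.2
  map_add' x y := by
    simp only [Prod.fst_add, Prod.snd_add, Pi.add_apply, mul_add, Finset.sum_add_distrib]
    ring
  map_smul' c x := by
    simp only [Prod.smul_fst, Prod.smul_snd, Pi.smul_apply, smul_eq_mul, RingHom.id_apply, mul_add,
      Finset.mul_sum]
    congr 1
    · exact Finset.sum_congr rfl fun i _ => by ring
    · ring

theorem pf_apply {m : ℕ} (w : Fin m → ℝ) (t : ℝ) (x : (Fin m → ℝ) × ℝ) :
    pf w t x = ∑ k, w k * x.1 k + t * x.2 := rfl

theorem exists_sep {m : ℕ} {I R : Type} [Fintype I] [Fintype R] (ray : R → Fin m → ℝ)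
    (v : I → Fin m → ℝ) (i : I)
    (h : ¬ ∃ (a : I → ℝ) (d : R → ℝ), (∀ k, 0 ≤ a k) ∧ (∀ j, 0 ≤ d j) ∧
      ∑ k, a k = 1 ∧ a i = 0 ∧ v i = ∑ k, a k • v k + ∑ j, d j • ray j) :
    ∃ g : Fin m → ℝ, (∀ j, 0 ≤ ∑ k, ray j k * g k) ∧
      ∀ i', i' ≠ i → ∑ k, v i k * g k < ∑ k, v i' k * g k := by
  classical
  by_cases h0 : ∀ x : (Fin m → ℝ) × ℝ,
      (∀ e ∈ (Finset.univ : Finset (R ⊕ I)), (Sum.elim (fun j => -pf (ray j) 0)
        (fun i' => if i' = i then 0 else -pf (v i') 1) e : ((Fin m → ℝ) × ℝ) →ₗ[ℝ] ℝ) x ≤ 0) →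
      (-pf (v i) 1) x ≤ 0
  · exfalso
    obtain ⟨l, hl, hc⟩ := farkas_field Finset.univ _ _ h0
    apply h
    refine ⟨fun k => if k = i then 0 else l (Sum.inr k), fun j => l (Sum.inl j), fun k => ?_,
      fun j => hl _, ?_, by simp, ?_⟩
    · dsimp only
      split_ifs
      · exact le_rfl
      · exact hl _
    · have h1 := congrArg (fun f : ((Fin m → ℝ) × ℝ) →ₗ[ℝ] ℝ => f (0, 1)) hc
      simp only [Fintype.sum_sum_type, Sum.elim_inl, Sum.elim_inr, LinearMap.add_apply,
        LinearMap.sum_apply, LinearMap.smul_apply, LinearMap.neg_apply, smul_eq_mul] at h1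
      have h2 : ∀ k, l (Sum.inr k) * ((if k = i then (0 : ((Fin m → ℝ) × ℝ) →ₗ[ℝ] ℝ) else
          -pf (v k) 1) (0, 1)) = - (if k = i then 0 else l (Sum.inr k)) := by
        intro k
        split_ifs
        · simp
        · simp [pf_apply]
      simp only [h2] at h1
      simp only [pf_apply, Pi.zero_apply, mul_zero, Finset.sum_const_zero, zero_add, mul_one,
        neg_zero, add_zero, Finset.sum_neg_distrib] at h1
      linarith
    · funext q
      have h1 := congrArg (fun f : ((Fin m → ℝ) × ℝ) →ₗ[ℝ] ℝ => f (Pi.single q 1, 0)) hc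
      simp only [Fintype.sum_sum_type, Sum.elim_inl, Sum.elim_inr, LinearMap.add_apply,
        LinearMap.sum_apply, LinearMap.smul_apply, LinearMap.neg_apply, smul_eq_mul] at h1
      have h3 : ∀ (w : Fin m → ℝ) (t : ℝ), pf w t (Pi.single q 1, 0) = w q := by
        intro w t
        rw [pf_apply]
        simp [Pi.single_apply]
      have h2 : ∀ k, l (Sum.inr k) * ((if k = i then (0 : ((Fin m → ℝ) × ℝ) →ₗ[ℝ] ℝ) else
          -pf (v k) 1) (Pi.single q 1, 0)) = - ((if k = i then 0 else l (Sum.inr k)) * v k q) := by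
        intro k
        split_ifs
        · simp
        · rw [LinearMap.neg_apply, h3]
          ring
      simp only [h2, h3, mul_neg, Finset.sum_neg_distrib] at h1
      simp only [Pi.add_apply, Finset.sum_apply, Pi.smul_apply, smul_eq_mul]
      linarith
  · push Not at h0
    obtain ⟨x, hx, hx0⟩ := h0
    refine ⟨x.1, fun j => ?_, fun i' hi' => ?_⟩
    · have h1 := hx (Sum.inl j) (Finset.mem_univ _)
      rw [Sum.elim_inl, LinearMap.neg_apply, pf_apply] at h1
      linarith
    · have h1 := hx (Sum.inr i') (Finset.mem_univ _)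
      rw [Sum.elim_inr, if_neg hi', LinearMap.neg_apply, pf_apply] at h1
      rw [LinearMap.neg_apply, pf_apply] at hx0
      linarith

theorem lin_eq {m : ℕ} (f : (Fin m → ℝ) →ₗ[ℝ] ℝ) (w : Fin m → ℝ) :
    f w = ∑ k, w k * f (Pi.single k 1) := by
  conv_lhs => rw [← (Pi.basisFun ℝ (Fin m)).sum_repr w]
  simp [map_sum]

/-- integral points in an open cone -/
theorem exists_int {m : ℕ} (U : Set (Fin m → ℝ)) (hU : IsOpen U) (hne : U.Nonempty)
    (hc : ∀ (t : ℝ) (g : Fin m → ℝ), 0 < t → t • g ∈ U → g ∈ U) :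
    ∃ u : Fin m → (Fin m → ℤ), LinearIndependent ℤ u ∧ ∀ k, (fun j => (u k j : ℝ)) ∈ U := by
  obtain ⟨g, hg⟩ := hne
  obtain ⟨δ, hδ, hball⟩ := Metric.isOpen_iff.1 hU g hg
  obtain ⟨N, hN⟩ := exists_nat_gt (3 / δ)
  have hNpos : (0 : ℝ) < N := lt_trans (by positivity) hN
  let z : Fin m → ℤ := fun j => round ((N : ℝ) * g j)
  have hz : ∀ j, |(z j : ℝ) - N * g j| ≤ 1 / 2 := by
    intro j
    rw [abs_sub_comm]
    exact abs_sub_round _
  -- a suitable constant
  obtain ⟨c, hc1, hc2, hc3⟩ : ∃ c : ℤ, (1 ≤ c ∧ c ≤ 2) ∧ c ≠ 0 ∧ c + ∑ j, z j ≠ 0 := by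
    by_cases h : 1 + ∑ j, z j = 0
    · exact ⟨2, ⟨by norm_num, le_rfl⟩, by norm_num, by omega⟩
    · exact ⟨1, ⟨le_rfl, by norm_num⟩, by norm_num, h⟩
  refine ⟨fun k => z + Pi.single k c, ?_, ?_⟩
  · rw [Fintype.linearIndependent_iff]
    intro a ha
    have h1 : ∀ j, (∑ k, a k) * z j + a j * c = 0 := by
      intro j
      have := congrFun ha j
      simp only [Finset.sum_apply, Pi.smul_apply, Pi.add_apply, smul_eq_mul, mul_add,
        Finset.sum_add_distrib, Pi.zero_apply] at this
      rw [← Finset.sum_mul] at this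
      have h2 : ∑ k, a k * (Pi.single k c : Fin m → ℤ) j = a j * c := by
        rw [Finset.sum_eq_single j]
        · simp
        · intro b _ hb
          rw [Pi.single_eq_of_ne (Ne.symm hb), mul_zero]
        · simp
      rw [h2] at this
      exact this
    have h2 : (∑ k, a k) * (c + ∑ j, z j) = 0 := by
      have h3 : ∑ j, ((∑ k, a k) * z j + a j * c) = 0 := Finset.sum_eq_zero fun j _ => h1 j
      rw [Finset.sum_add_distrib, ← Finset.mul_sum, ← Finset.sum_mul] at h3
      linear_combination h3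
    have h3 : ∑ k, a k = 0 := (mul_eq_zero.1 h2).resolve_right hc3
    intro k
    have h4 := h1 k
    rw [h3, zero_mul, zero_add] at h4
    exact (mul_eq_zero.1 h4).resolve_right hc2
  · intro k
    refine hc (1 / (N : ℝ)) _ (by positivity) (hball ?_)
    rw [Metric.mem_ball, dist_pi_lt_iff hδ]
    intro j
    have h5 : |((z j + (Pi.single k c : Fin m → ℤ) j : ℤ) : ℝ) - N * g j| < 3 := by
      have h6 : |((Pi.single k c : Fin m → ℤ) j : ℝ)| ≤ 2 := by
        by_cases hjk : j = k
        · rw [hjk, Pi.single_eq_same, abs_le]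
          have h7 : (1 : ℝ) ≤ (c : ℝ) := by exact_mod_cast hc1.1
          have h8 : (c : ℝ) ≤ 2 := by exact_mod_cast hc1.2
          constructor <;> linarith
        · rw [Pi.single_eq_of_ne hjk]
          norm_num
      have h7 := hz j
      push_cast
      calc |(z j : ℝ) + ((Pi.single k c : Fin m → ℤ) j : ℝ) - N * g j|
          = |((z j : ℝ) - N * g j) + ((Pi.single k c : Fin m → ℤ) j : ℝ)| := by ring_nf
        _ ≤ |(z j : ℝ) - N * g j| + |((Pi.single k c : Fin m → ℤ) j : ℝ)| := abs_add_le _ _
        _ ≤ 1 / 2 + 2 := add_le_add h7 h6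
        _ < 3 := by norm_num
    rw [Real.dist_eq]
    simp only [Pi.smul_apply, smul_eq_mul, Pi.add_apply]
    have h8 : 1 / (N : ℝ) * ((z j + (Pi.single k c : Fin m → ℤ) j : ℤ) : ℝ) - g j =
        (((z j + (Pi.single k c : Fin m → ℤ) j : ℤ) : ℝ) - N * g j) / N := by
      field_simp
    rw [h8, abs_div, abs_of_pos hNpos, div_lt_iff₀ hNpos]
    have h9 : 3 < δ * N := by
      rw [div_lt_iff₀ hδ] at hN
      linarith
    linarith

end NRV

open NRV in
theorem t_NRV : Stmt_NRV := by
  intro m c X hX y i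
  obtain ⟨g, hg1, hg2⟩ := exists_sep X.ray (X.vert y) i (X.vert_extremal y i)
  obtain ⟨f, hf⟩ := X.pointed
  let U : Set (Fin m → ℝ) := {g | (∀ j, 0 < ∑ k, X.ray j k * g k) ∧
    ∀ i', i' ≠ i → ∑ k, X.vert y i k * g k < ∑ k, X.vert y i' k * g k}
  have hU : IsOpen U := by
    have h1 : U = (⋂ j, {g : Fin m → ℝ | 0 < ∑ k, X.ray j k * g k}) ∩
        ⋂ i', {g : Fin m → ℝ | i' ≠ i → ∑ k, X.vert y i k * g k < ∑ k, X.vert y i' k * g k} := by
      ext g
      simp [U]
    rw [h1]
    refine IsOpen.inter (isOpen_iInter_of_finite fun j => ?_)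
      (isOpen_iInter_of_finite fun i' => ?_)
    · exact isOpen_lt continuous_const (by fun_prop)
    · by_cases h : i' = i
      · simp [h]
      · simp only [ne_eq, h, not_false_eq_true, forall_const]
        exact isOpen_lt (by fun_prop) (by fun_prop)
  have hne : U.Nonempty := by
    have h1 : ∀ᶠ ε : ℝ in nhdsWithin 0 (Set.Ioi 0), ∀ i', i' ≠ i →
        ∑ k, X.vert y i k * (g k + ε * f (Pi.single k 1)) <
          ∑ k, X.vert y i' k * (g k + ε * f (Pi.single k 1)) := by
      rw [Filter.eventually_all]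
      intro i'
      by_cases h : i' = i
      · simp [h]
      · simp only [ne_eq, h, not_false_eq_true, forall_const]
        apply Filter.Eventually.filter_mono nhdsWithin_le_nhds
        have h2 : IsOpen {ε : ℝ | ∑ k, X.vert y i k * (g k + ε * f (Pi.single k 1)) <
          ∑ k, X.vert y i' k * (g k + ε * f (Pi.single k 1))} :=
          isOpen_lt (by fun_prop) (by fun_prop)
        refine h2.mem_nhds ?_
        simpa using hg2 i' h
    obtain ⟨ε, hε, hεpos⟩ := (h1.and self_mem_nhdsWithin).exists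
    refine ⟨fun k => g k + ε * f (Pi.single k 1), fun j => ?_, hε⟩
    have h3 : ∑ k, X.ray j k * (g k + ε * f (Pi.single k 1)) =
        ∑ k, X.ray j k * g k + ε * f (X.ray j) := by
      rw [lin_eq f (X.ray j), Finset.mul_sum, ← Finset.sum_add_distrib]
      exact Finset.sum_congr rfl fun k _ => by ring
    rw [h3]
    have h4 : 0 < ε * f (X.ray j) := mul_pos hεpos (hf j)
    linarith [hg1 j]
  have hcone : ∀ (t : ℝ) (g : Fin m → ℝ), 0 < t → t • g ∈ U → g ∈ U := by
    intro t g ht h
    have h5 : ∀ w : Fin m → ℝ, ∑ k, w k * (t • g) k = t * ∑ k, w k * g k := by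
      intro w
      rw [Finset.mul_sum]
      exact Finset.sum_congr rfl fun k _ => by
        rw [Pi.smul_apply, smul_eq_mul]
        ring
    refine ⟨fun j => ?_, fun i' hi' => ?_⟩
    · have := h.1 j
      rw [h5] at this
      exact (mul_pos_iff_of_pos_left ht).1 this
    · have := h.2 i' hi'
      rw [h5, h5] at this
      exact lt_of_mul_lt_mul_left this ht.le
  obtain ⟨u, hu1, hu2⟩ := exists_int U hU hne hcone
  exact ⟨u, hu1, fun k => ⟨fun j => (hu2 k).1 j, fun i' hi' => (hu2 k).2 i' hi'⟩⟩

end MldGeo
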