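import Pool.Agent.MldGeo.Stmts8

/-!
# PRO: the polyhedral divisor of a variety with torus action of complexity one is proper
-/

namespace MldGeo

open MvPolynomial

namespace PRO

noncomputable section

variable {n m N : ℕ} {X : Germ n} {A : TorusAction X m}

theorem chi_mul (S : Splitting A) (u : Fin m → ℤ) : S.χ u * S.χ (-u) = 1 := by
  rw [← S.add, add_neg_cancel, S.zero]

theorem chi_ne (S : Splitting A) (u : Fin m → ℤ) : S.χ u ≠ 0 := by
  intro h
  have h1 := chi_mul S u
  rw [h, zero_mul] at h1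
  exact zero_ne_one h1

theorem chi_pow (S : Splitting A) (u : Fin m → ℤ) (k : ℕ) : S.χ u ^ k = S.χ (k • u) := by
  induction k with
  | zero => rw [pow_zero, zero_nsmul, S.zero]
  | succ k ih => rw [pow_succ, ih, succ_nsmul, S.add]

theorem chi_prod (S : Splitting A) {ι : Type*} (s : Finset ι) (w : ι → Fin m → ℤ) :
    ∏ i ∈ s, S.χ (w i) = S.χ (∑ i ∈ s, w i) := by
  classical
  induction s using Finset.induction_on with
  | empty => rw [Finset.prod_empty, Finset.sum_empty, S.zero]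
  | insert a s ha ih => rw [Finset.prod_insert ha, Finset.sum_insert ha, S.add, ih]

/-- The monomials in the coefficients. -/
def Mo (b : Fin N → A.K0) (α : Fin N →₀ ℕ) : A.K0 := ∏ i, b i ^ α i

/-- The weights of the monomials. -/
def Wt (u : Fin N → Fin m → ℤ) (α : Fin N →₀ ℕ) : Fin m → ℤ := ∑ i, α i • u i

theorem coe_Mo (b : Fin N → A.K0) (α : Fin N →₀ ℕ) :
    ((Mo b α : A.K0) : X.K) = ∏ i, (b i : X.K) ^ α i := by
  unfold Mo
  push_cast
  rfl

theorem Mo_ne {b : Fin N → A.K0} (hb : ∀ i, b i ≠ 0) (α : Fin N →₀ ℕ) : Mo b α ≠ 0 :=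
  Finset.prod_ne_zero_iff.2 fun i _ => pow_ne_zero _ (hb i)

theorem Mo_add (b : Fin N → A.K0) (α β : Fin N →₀ ℕ) : Mo b (α + β) = Mo b α * Mo b β := by
  unfold Mo
  rw [← Finset.prod_mul_distrib]
  refine Finset.prod_congr rfl fun i _ => ?_
  rw [Finsupp.add_apply, pow_add]

theorem mono_eq (S : Splitting A) (u : Fin N → Fin m → ℤ) (b : Fin N → A.K0)
    (α : Fin N →₀ ℕ) :
    ∏ i, ((b i : X.K) * S.χ (u i)) ^ α i = (Mo b α : X.K) * S.χ (Wt u α) := by
  rw [coe_Mo]
  unfold Wt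
  rw [← chi_prod, ← Finset.prod_mul_distrib]
  refine Finset.prod_congr rfl fun i _ => ?_
  rw [mul_pow, chi_pow]

/-- The multiples of the monomials of weight `w`. -/
def H0 (u : Fin N → Fin m → ℤ) (b : Fin N → A.K0) (w : Fin m → ℤ) (z : A.K0) : Prop :=
  z = 0 ∨ ∃ α, Wt u α = w ∧ ∃ c : ℂ, z = algebraMap ℂ A.K0 c * Mo b α

/-- All monomials of the same weight are proportional. -/
def Prop0 (u : Fin N → Fin m → ℤ) (b : Fin N → A.K0) : Prop :=
  ∀ α β, Wt u α = Wt u β → ∃ c : ℂ, Mo b α = algebraMap ℂ A.K0 c * Mo b β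

theorem H0.add {u : Fin N → Fin m → ℤ} {b : Fin N → A.K0} (hp : Prop0 u b) {w : Fin m → ℤ}
    {z z' : A.K0} (h : H0 u b w z) (h' : H0 u b w z') : H0 u b w (z + z') := by
  rcases h with rfl | ⟨α, hα, c, rfl⟩
  · rwa [zero_add]
  rcases h' with rfl | ⟨β, hβ, d, rfl⟩
  · rw [add_zero]
    exact Or.inr ⟨α, hα, c, rfl⟩
  obtain ⟨e, he⟩ := hp β α (hβ.trans hα.symm)
  refine Or.inr ⟨α, hα, c + d * e, ?_⟩
  rw [he, map_add, map_mul]
  ring

theorem H0.sum {u : Fin N → Fin m → ℤ} {b : Fin N → A.K0} (hp : Prop0 u b) {w : Fin m → ℤ}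
    {ι : Type*} (s : Finset ι) (z : ι → A.K0) (h : ∀ i ∈ s, H0 u b w (z i)) :
    H0 u b w (∑ i ∈ s, z i) := by
  classical
  induction s using Finset.induction_on with
  | empty => exact Or.inl Finset.sum_empty
  | insert a s ha ih =>
    rw [Finset.sum_insert ha]
    exact (h a (Finset.mem_insert_self a s)).add hp (ih fun i hi => h i (Finset.mem_insert_of_mem hi))

/-- The elements of the algebra as sums of multiples of monomials. -/
theorem expand (S : Splitting A) (u : Fin N → Fin m → ℤ) (b : Fin N → A.K0) (hp : Prop0 u b)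
    (a : X.K) (ha : a ∈ Algebra.adjoin ℂ (Set.range fun i => (b i : X.K) * S.χ (u i))) :
    ∃ (s : Finset (Fin m → ℤ)) (c : (Fin m → ℤ) → A.K0), (∀ w, H0 u b w (c w)) ∧
      a = ∑ w ∈ s, (c w : X.K) * S.χ w := by
  classical
  rw [Algebra.adjoin_range_eq_range_aeval] at ha
  obtain ⟨p, rfl⟩ := ha
  refine ⟨p.support.image (Wt u), fun w => ∑ d ∈ p.support with Wt u d = w,
    algebraMap ℂ A.K0 (p.coeff d) * Mo b d, ?_, ?_⟩
  · intro w
    refine H0.sum hp _ _ fun d hd => ?_
    exact Or.inr ⟨d, (Finset.mem_filter.1 hd).2, p.coeff d, rfl⟩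
  · have h1 : (aeval fun i => (b i : X.K) * S.χ (u i)) p =
        ∑ d ∈ p.support, algebraMap ℂ X.K (p.coeff d) * ((Mo b d : X.K) * S.χ (Wt u d)) := by
      rw [aeval_def, eval₂_eq']
      refine Finset.sum_congr rfl fun d _ => ?_
      rw [mono_eq]
    show (aeval fun i => (b i : X.K) * S.χ (u i)) p = _
    rw [h1, ← Finset.sum_fiberwise_of_maps_to (g := Wt u) (t := p.support.image (Wt u))
      fun d hd => Finset.mem_image_of_mem _ hd]
    refine Finset.sum_congr rfl fun w _ => ?_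
    push_cast
    rw [Finset.sum_mul]
    refine Finset.sum_congr rfl fun d hd => ?_
    rw [(Finset.mem_filter.1 hd).2, mul_assoc]

/-- The homogeneous regular functions are multiples of monomials. -/
theorem hom_mem (hHFK : Stmt_HFK) (S : Splitting A) (u : Fin N → Fin m → ℤ)
    (b : Fin N → A.K0) (hp : Prop0 u b)
    (hgen : ∀ a ∈ X.R, a ∈ Algebra.adjoin ℂ (Set.range fun i => (b i : X.K) * S.χ (u i)))
    (w : Fin m → ℤ) (r : X.R) (hr : r ∈ A.gr w) :
    ∃ z : A.K0, (r : X.K) = (z : X.K) * S.χ w ∧ H0 u b w z := by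
  classical
  obtain ⟨k1, k2, -⟩ := hHFK A S
  obtain ⟨z, hz⟩ := k1 w r (TorusAction.Hom.of_mem hr)
  refine ⟨z, hz, ?_⟩
  obtain ⟨s, c, hc, hsum⟩ := expand S u b hp (r : X.K) (hgen _ r.2)
  set c' : (Fin m → ℤ) → A.K0 := fun w' => (if w' ∈ s then c w' else 0) -
    (if w' = w then z else 0) with hc'
  have h0 : ∑ w' ∈ insert w s, (c' w' : X.K) * S.χ w' = 0 := by
    have e1 : ∀ w' : Fin m → ℤ, ((c' w' : A.K0) : X.K) * S.χ w' =
        (if w' ∈ s then (c w' : X.K) * S.χ w' else 0) -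
        (if w' = w then (z : X.K) * S.χ w' else 0) := by
      intro w'
      rw [hc']
      push_cast
      rw [sub_mul]
      congr 1
      · split_ifs <;> simp
      · split_ifs <;> simp
    have e2 : ∑ w' ∈ insert w s, (if w' ∈ s then (c w' : X.K) * S.χ w' else 0) = (r : X.K) := by
      rw [hsum, ← Finset.sum_filter]
      refine Finset.sum_congr ?_ fun _ _ => rfl
      ext w'
      simp only [Finset.mem_filter, Finset.mem_insert]
      constructor
      · exact fun h => h.2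
      · exact fun h => ⟨Or.inr h, h⟩
    have e3 : ∑ w' ∈ insert w s, (if w' = w then (z : X.K) * S.χ w' else 0) = (r : X.K) := by
      rw [Finset.sum_ite_eq', if_pos (Finset.mem_insert_self w s), hz]
    rw [Finset.sum_congr rfl fun w' _ => e1 w', Finset.sum_sub_distrib, e2, e3, sub_self]
  have h1 := k2 (insert w s) c' h0 w (Finset.mem_insert_self w s)
  rw [hc'] at h1
  simp only [if_true] at h1
  have h2 : z = if w ∈ s then c w else 0 := (sub_eq_zero.1 h1).symm
  rw [h2]
  split_ifs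
  · exact hc w
  · exact Or.inl rfl

theorem pr_sum (P : Finset (DivVal 1 A.K0)) (p : DivVal 1 A.K0 → Fin m → ℝ)
    (u : Fin m → ℤ) : pr (∑ y ∈ P, p y) u = ∑ y ∈ P, pr (p y) u := by
  unfold pr
  rw [Finset.sum_comm]
  refine Finset.sum_congr rfl fun j _ => ?_
  rw [Finset.sum_apply, Finset.sum_mul]

theorem pr_Wt (w : Fin m → ℝ) (u : Fin N → Fin m → ℤ) (α : Fin N →₀ ℕ) :
    pr w (Wt u α) = ∑ i, (α i : ℝ) * pr w (u i) := by
  unfold pr Wt
  simp only [Finset.mul_sum]
  rw [Finset.sum_comm]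
  refine Finset.sum_congr rfl fun j _ => ?_
  rw [Finset.sum_apply]
  push_cast
  rw [Finset.mul_sum]
  refine Finset.sum_congr rfl fun i _ => ?_
  simp only [Pi.smul_apply, nsmul_eq_mul]
  push_cast
  ring

theorem ord_Mo (y : DivVal 1 A.K0) {b : Fin N → A.K0} (hb : ∀ i, b i ≠ 0) (α : Fin N →₀ ℕ) :
    y.ord (Mo b α) = ∑ i, (α i : ℤ) * y.ord (b i) := by
  unfold Mo
  rw [y.ord_prod _ _ fun i _ => pow_ne_zero _ (hb i)]
  exact Finset.sum_congr rfl fun i _ => y.ord_pow _ _

end

end PRO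

/-- PRO: the polyhedral divisor is proper. -/
theorem t_PRO (hK0C : Stmt_K0C) (hPRF : Stmt_PRF) (hHFK : Stmt_HFK) : Stmt_PRO := by
  classical
  intro m X A S N u b hb0 hreg hgen P hP p hp hsum
  have hcur := hK0C A
  obtain ⟨p1, p2, -⟩ := hPRF hcur
  -- the orders on `P`
  have hord : ∀ y ∈ P, ∀ i, (y.ord (b i) : ℝ) = - pr (p y) (u i) := by
    intro y hy i
    obtain ⟨E, hE, hdeg⟩ := p1 (b i) (hb0 i)
    have h1 : ∑ y ∈ P, y.ord (b i) = 0 := by
      have h2 : deg E = ∑ y ∈ P, E y := by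
        unfold deg
        refine Finsupp.sum_of_support_subset E ?_ _ fun _ _ => rfl
        intro z hz
        by_contra hzP
        have h3 := Finsupp.mem_support_iff.1 hz
        rw [hE, hP z hzP i] at h3
        exact h3 rfl
      rw [hdeg] at h2
      rw [h2]
      exact Finset.sum_congr rfl fun z _ => (hE z).symm
    have h2 : ∑ y ∈ P, (pr (p y) (u i) + (y.ord (b i) : ℝ)) = 0 := by
      rw [Finset.sum_add_distrib, ← PRO.pr_sum, hsum]
      have h3 : ∑ y ∈ P, (y.ord (b i) : ℝ) = 0 := by exact_mod_cast h1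
      rw [h3, add_zero]
      unfold pr
      simp
    have h3 := (Finset.sum_eq_zero_iff_of_nonneg fun z hz => hp z hz i).1 h2 y hy
    linarith
  -- the monomials of the same weight are proportional
  have hprop : PRO.Prop0 u b := by
    intro α β hαβ
    have hne := PRO.Mo_ne hb0 α
    have hne' := PRO.Mo_ne hb0 β
    have h1 : ∀ y : DivVal 1 A.K0, y.ord (PRO.Mo b α) = y.ord (PRO.Mo b β) := by
      intro y
      by_cases hy : y ∈ P
      · have h2 : ∀ γ : Fin N →₀ ℕ, (y.ord (PRO.Mo b γ) : ℝ) = - pr (p y) (PRO.Wt u γ) := by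
          intro γ
          rw [PRO.ord_Mo y hb0, PRO.pr_Wt]
          push_cast
          rw [← Finset.sum_neg_distrib]
          refine Finset.sum_congr rfl fun i _ => ?_
          rw [hord y hy i]
          ring
        have h3 : (y.ord (PRO.Mo b α) : ℝ) = y.ord (PRO.Mo b β) := by
          rw [h2, h2, hαβ]
        exact_mod_cast h3
      · rw [PRO.ord_Mo y hb0, PRO.ord_Mo y hb0]
        refine Finset.sum_congr rfl fun i _ => ?_
        rw [hP y hy i, mul_zero, mul_zero]
    obtain ⟨c, hc⟩ := p2 (PRO.Mo b α / PRO.Mo b β) fun y =>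
      DivVal.Ge.of_le (by rw [y.ord_div hne hne', h1 y, sub_self])
    refine ⟨c, ?_⟩
    rw [← hc, div_mul_cancel₀ _ hne']
  -- the invariant functions are constant
  obtain ⟨t, ht⟩ := hcur.1
  have hconst : ∃ c : ℂ, t = algebraMap ℂ A.K0 c := by
    obtain ⟨a, a', r, s, hr, hs, hs0, haa, hmul⟩ := t.2
    rw [zero_add] at haa
    subst haa
    obtain ⟨z, hz, hz'⟩ := PRO.hom_mem hHFK S u b hprop hgen a r hr
    obtain ⟨w, hw, hw'⟩ := PRO.hom_mem hHFK S u b hprop hgen a s hs
    have hw0 : w ≠ 0 := by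
      rintro rfl
      rw [ZeroMemClass.coe_zero, zero_mul] at hw
      exact hs0 (Subtype.ext hw)
    have h1 : t * w = z := by
      apply Subtype.ext
      have h2 := PRO.chi_ne S a
      have h3 : ((t : X.K) * (w : X.K)) * S.χ a = (z : X.K) * S.χ a := by
        rw [← hz, ← hmul, hw, mul_assoc]
      exact mul_right_cancel₀ h2 h3
    rcases hz' with rfl | ⟨α, hα, c, rfl⟩
    · exact ⟨0, by rw [map_zero]; exact (mul_eq_zero.1 h1).resolve_right hw0⟩
    · rcases hw' with rfl | ⟨β, hβ, d, rfl⟩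
      · exact absurd rfl hw0
      · obtain ⟨e, he⟩ := hprop α β (hα.trans hβ.symm)
        have hd : algebraMap ℂ A.K0 d ≠ 0 := left_ne_zero_of_mul hw0
        have hM := PRO.Mo_ne hb0 β
        refine ⟨c * e / d, ?_⟩
        rw [map_div₀, map_mul, eq_div_iff hd]
        rw [he] at h1
        apply mul_right_cancel₀ hM
        rw [mul_assoc, h1]
        ring
  obtain ⟨c, hc⟩ := hconst
  exact ht (hc ▸ isAlgebraic_algebraMap c)

end MldGeo
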