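import Pool.Agent.MldGeo.Stmts6

/-!
# Riemann's inequality
-/

namespace MldGeo

namespace RIE

noncomputable section

open IntermediateField

variable {F : Type} [Field F] [Algebra ℂ F]

/-! ### degrees -/

theorem deg_add (A B : DivVal 1 F →₀ ℤ) : deg (A + B) = deg A + deg B :=
  Finsupp.sum_add_index' (fun _ => rfl) fun _ _ _ => rfl

theorem deg_single (y : DivVal 1 F) (k : ℤ) : deg (Finsupp.single y k) = k :=
  Finsupp.sum_single_index rfl

theorem deg_sub (A B : DivVal 1 F →₀ ℤ) : deg (A - B) = deg A - deg B := by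
  have h := deg_add (A - B) B
  rw [sub_add_cancel] at h
  linarith

theorem deg_smul (k : ℕ) (A : DivVal 1 F →₀ ℤ) : deg (k • A) = k * deg A := by
  induction k with
  | zero =>
    have h := deg_add (0 : DivVal 1 F →₀ ℤ) 0
    rw [add_zero] at h
    rw [zero_smul]
    push_cast
    linarith
  | succ k ih =>
    rw [succ_nsmul, deg_add, ih]
    push_cast
    ring

theorem deg_nonneg {A : DivVal 1 F →₀ ℤ} (h : ∀ y, 0 ≤ A y) : 0 ≤ deg A :=
  Finset.sum_nonneg fun y _ => h y

theorem eq_zero_of_deg {A : DivVal 1 F →₀ ℤ} (h : ∀ y, 0 ≤ A y) (h0 : deg A = 0) : A = 0 := by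
  ext y
  by_contra hy
  have hy' : A y ≠ 0 := hy
  exact hy' ((Finset.sum_eq_zero_iff_of_nonneg fun y _ => h y).1 h0 y
    (Finsupp.mem_support_iff.2 hy'))

/-! ### the spaces of functions -/

/-- the space of the functions `f` with `div f + E ≥ 0` -/
def L (E : DivVal 1 F →₀ ℤ) : Submodule ℂ F where
  carrier := {f | ∀ y, y.Ge (-E y) f}
  add_mem' ha hb y := (ha y).add (hb y)
  zero_mem' y := DivVal.Ge.zero y _
  smul_mem' c _ ha y := (ha y).smul c

theorem mem_L {E : DivVal 1 F →₀ ℤ} {f : F} : f ∈ L E ↔ ∀ y : DivVal 1 F, y.Ge (-E y) f := Iff.rfl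

theorem rank_step (hRS1 : Stmt_RS1) (hF : IsCurve F) (E : DivVal 1 F →₀ ℤ) (y₀ : DivVal 1 F) :
    Module.rank ℂ (L (E + Finsupp.single y₀ 1)) ≤ Module.rank ℂ (L E) + 1 := by
  classical
  have key : ∃ f₀ : F, L (E + Finsupp.single y₀ 1) ≤ L E ⊔ Submodule.span ℂ {f₀} := by
    by_cases h : ∃ f₀ ∈ L (E + Finsupp.single y₀ 1), f₀ ≠ 0 ∧ y₀.ord f₀ = -(E y₀ + 1)
    · obtain ⟨f₀, hf, hf0, hf1⟩ := h
      refine ⟨f₀, fun g hg => ?_⟩
      have h1 : y₀.Ge 0 (g / f₀) := by
        refine ((hg y₀).div f₀).mono ?_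
        rw [hf1]
        simp
      obtain ⟨c, hc⟩ := hRS1 hF y₀ _ h1
      have h2 : g - c • f₀ = (g / f₀ - algebraMap ℂ F c) * f₀ := by
        rw [sub_mul, div_mul_cancel₀ _ hf0, Algebra.smul_def]
      have h3 : g - c • f₀ ∈ L E := by
        intro y
        by_cases hy : y = y₀
        · subst hy
          rw [h2]
          refine (hc.mul (DivVal.Ge.self y f₀)).mono ?_
          rw [hf1]
          linarith
        · have h4 := (hg y).sub ((hf y).smul c)
          refine h4.mono ?_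
          rw [Finsupp.add_apply, Finsupp.single_apply, if_neg (Ne.symm hy), add_zero]
      refine Submodule.mem_sup.2 ⟨_, h3, c • f₀, Submodule.smul_mem _ _
        (Submodule.mem_span_singleton_self f₀), sub_add_cancel _ _⟩
    · push Not at h
      refine ⟨0, fun g hg => Submodule.mem_sup_left fun y => ?_⟩
      by_cases hy : y = y₀
      · subst hy
        by_cases hg0 : g = 0
        · exact Or.inl hg0
        · have h1 := h g hg hg0
          have h2 := (hg y).le hg0
          rw [Finsupp.add_apply, Finsupp.single_eq_same] at h2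
          exact Or.inr (by omega)
      · refine (hg y).mono ?_
        rw [Finsupp.add_apply, Finsupp.single_apply, if_neg (Ne.symm hy), add_zero]
  obtain ⟨f₀, hf⟩ := key
  refine (Submodule.rank_mono hf).trans ((Submodule.rank_add_le_rank_add_rank _ _).trans ?_)
  gcongr
  refine (rank_span_le _).trans ?_
  simp

theorem rank_le (hRS1 : Stmt_RS1) (hF : IsCurve F) (n : ℕ) : ∀ E E' : DivVal 1 F →₀ ℤ,
    (∀ y, E y ≤ E' y) → deg (E' - E) = n →
    Module.rank ℂ (L E') ≤ Module.rank ℂ (L E) + n := by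
  classical
  induction n with
  | zero =>
    intro E E' h h1
    have h2 : E' - E = 0 := eq_zero_of_deg (fun y => by
      rw [Finsupp.sub_apply]; linarith [h y]) (by simpa using h1)
    rw [sub_eq_zero.1 h2]
    simp
  | succ n ih =>
    intro E E' h h1
    obtain ⟨y₀, hy⟩ : ∃ y₀, E y₀ < E' y₀ := by
      by_contra h2
      push Not at h2
      have h3 : E' - E = 0 := by
        ext y
        rw [Finsupp.sub_apply, Finsupp.zero_apply]
        linarith [h y, h2 y]
      rw [h3] at h1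
      have h4 : deg (0 : DivVal 1 F →₀ ℤ) = 0 := rfl
      rw [h4] at h1
      push_cast at h1
      omega
    have h2 : E' = (E' - Finsupp.single y₀ 1) + Finsupp.single y₀ 1 := (sub_add_cancel _ _).symm
    have h3 := ih E (E' - Finsupp.single y₀ 1) (fun y => by
      rw [Finsupp.sub_apply, Finsupp.single_apply]
      split_ifs with h4
      · subst h4
        linarith
      · linarith [h y]) (by
      rw [deg_sub, deg_sub, deg_single]
      rw [deg_sub] at h1
      push_cast at h1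
      linarith)
    rw [h2]
    refine (rank_step hRS1 hF _ y₀).trans ?_
    push_cast
    rw [← add_assoc]
    gcongr

/-! ### linear independence -/

theorem pow_indep {s : F} (hs : Transcendental ℂ s) (m : ℕ) :
    LinearIndependent ℂ fun j : Fin m => (AdjoinSimple.gen ℂ s) ^ (j : ℕ) := by
  have h1 : LinearIndependent ℂ fun j : ℕ => s ^ j := by
    have h2 := (Polynomial.basisMonomials ℂ).linearIndependent.map'
      (Polynomial.aeval s : Polynomial ℂ →ₐ[ℂ] F).toLinearMap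
      (LinearMap.ker_eq_bot.2 (transcendental_iff_injective.1 hs))
    have h3 : (fun j : ℕ => s ^ j) = (Polynomial.aeval s : Polynomial ℂ →ₐ[ℂ] F).toLinearMap ∘
        (Polynomial.basisMonomials ℂ) := by
      funext j
      simp [Polynomial.aeval_monomial]
    rw [h3]
    exact h2
  have h2 : LinearIndependent ℂ fun j : Fin m => s ^ (j : ℕ) :=
    h1.comp (fun j : Fin m => (j : ℕ)) Fin.val_injective
  refine LinearIndependent.of_comp (IntermediateField.val (adjoin ℂ {s})).toLinearMap ?_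
  have h3 : (IntermediateField.val (adjoin ℂ {s})).toLinearMap ∘
      (fun j : Fin m => (AdjoinSimple.gen ℂ s) ^ (j : ℕ)) = fun j : Fin m => s ^ (j : ℕ) := by
    funext j
    simp
  rw [h3]
  exact h2

omit [Algebra ℂ F] in
theorem mul_indep {K : Type*} [Field K] [Algebra K F] {ι : Type*} {b : ι → F}
    (hb : LinearIndependent K b) {q : F} (hq : q ≠ 0) : LinearIndependent K fun i => b i * q :=
  hb.map' (LinearMap.mulRight K q)
    (LinearMap.ker_eq_bot.2 fun _ _ h => mul_left_injective₀ hq h)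

/-- a basis of regular functions -/
theorem exists_basis (hDEG : Stmt_DEG) (hAFF : Stmt_AFF) (hF : IsCurve F) (s : F)
    (hs : Transcendental ℂ s) :
    ∃ b : Fin (Module.finrank (adjoin ℂ {s}) F) → F, LinearIndependent (adjoin ℂ {s}) b ∧
      ∀ i (y : DivVal 1 F), y.Ge 0 s → y.Ge 0 (b i) := by
  classical
  have hfd := hF.2 s hs
  obtain ⟨S, -, -, hS1, hS2⟩ := hAFF hF s hs
  obtain ⟨P, hP, hdeg⟩ := hDEG hF s hs
  have hpos : 0 < Module.finrank (adjoin ℂ {s}) F := Module.finrank_pos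
  obtain ⟨y₁, hy₁⟩ : P.Nonempty := by
    rw [Finset.nonempty_iff_ne_empty]
    rintro rfl
    rw [Finset.sum_empty] at hdeg
    omega
  have hy : y₁.Ge 0 s := Or.inr ((hP y₁).1 hy₁).le
  have hfrac : ∀ a : F, ∃ q ∈ S, q ≠ 0 ∧ a * q ∈ S := by
    intro a
    by_cases ha : y₁.Ge 0 a
    · obtain ⟨r, hr, q, hq, hq0, -, h⟩ := hS2 y₁ hy a ha
      exact ⟨q, hq, hq0, h ▸ hr⟩
    · have ha0 : a ≠ 0 := fun h => ha (Or.inl h)
      have h1 : y₁.Ge 0 a⁻¹ := by
        refine Or.inr ?_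
        rw [DivVal.ord_inv]
        by_contra h2
        exact ha (Or.inr (by omega))
      obtain ⟨r, hr, q, hq, hq0, -, h⟩ := hS2 y₁ hy _ h1
      refine ⟨r, hr, ?_, ?_⟩
      · rw [← h]
        exact mul_ne_zero (inv_ne_zero ha0) hq0
      · rw [← h, mul_inv_cancel_left₀ ha0]
        exact hq
  obtain ⟨b₀, hb₀⟩ : ∃ b₀ : Fin (Module.finrank (adjoin ℂ {s}) F) → F,
      LinearIndependent (adjoin ℂ {s}) b₀ :=
    ⟨_, (Module.finBasis (adjoin ℂ {s}) F).linearIndependent⟩
  choose q hq hq0 hqb using fun i => hfrac (b₀ i)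
  refine ⟨fun i => b₀ i * ∏ j, q j, mul_indep hb₀ (Finset.prod_ne_zero_iff.2 fun i _ => hq0 i),
    fun i y hy => hS1 y hy _ ?_⟩
  show b₀ i * ∏ j, q j ∈ S
  rw [← Finset.mul_prod_erase _ _ (Finset.mem_univ i), ← mul_assoc]
  exact S.mul_mem (hqb i) (S.prod_mem fun j _ => hq j)

theorem transcendental_inv {s : F} (hs : Transcendental ℂ s) : Transcendental ℂ s⁻¹ :=
  fun h => hs (IsAlgebraic.inv_iff.1 h)

theorem adjoin_inv (s : F) : adjoin ℂ {s⁻¹} = adjoin ℂ {s} := by
  refine le_antisymm ?_ ?_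
  · rw [adjoin_simple_le_iff]
    exact inv_mem (mem_adjoin_simple_self ℂ s)
  · rw [adjoin_simple_le_iff]
    have h := inv_mem (mem_adjoin_simple_self ℂ s⁻¹)
    rwa [inv_inv] at h

theorem finrank_inv (s : F) :
    Module.finrank (adjoin ℂ {s⁻¹}) F = Module.finrank (adjoin ℂ {s}) F := by
  rw [adjoin_inv]

/-- the divisor of poles -/
theorem exists_poles (hDEG : Stmt_DEG) (hF : IsCurve F) (s : F) (hs : Transcendental ℂ s) :
    ∃ B : DivVal 1 F →₀ ℤ, (∀ y, 0 ≤ B y) ∧ (∀ y, y ∉ B.support → y.Ge 0 s) ∧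
      (∀ y : DivVal 1 F, y.Ge (-B y) s) ∧ deg B = Module.finrank (adjoin ℂ {s}) F := by
  classical
  have hs0 : s ≠ 0 := by
    rintro rfl
    exact hs isAlgebraic_zero
  obtain ⟨P, hP, hdeg⟩ := hDEG hF s⁻¹ (transcendental_inv hs)
  refine ⟨Finsupp.onFinset P (fun y => max 0 (y.ord s⁻¹)) ?_, fun y => ?_, fun y hy => ?_,
    fun y => ?_, ?_⟩
  · intro y hy
    rw [hP]
    by_contra h
    exact hy (max_eq_left (not_lt.1 h))
  · rw [Finsupp.onFinset_apply]
    exact le_max_left _ _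
  · rw [Finsupp.mem_support_iff, Finsupp.onFinset_apply, not_not] at hy
    have h1 : y.ord s⁻¹ ≤ 0 := hy ▸ le_max_right _ _
    rw [DivVal.ord_inv] at h1
    exact Or.inr (by omega)
  · rw [Finsupp.onFinset_apply]
    refine Or.inr ?_
    have h1 : y.ord s⁻¹ ≤ max 0 (y.ord s⁻¹) := le_max_right _ _
    rw [DivVal.ord_inv] at h1 ⊢
    omega
  · rw [← finrank_inv, ← hdeg]
    unfold deg
    rw [Finsupp.onFinset_sum _ (fun _ => rfl)]
    refine Finset.sum_congr rfl fun y hy => ?_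
    exact max_eq_right ((hP y).1 hy).le

theorem exists_bound {ι α : Type*} [Fintype ι] (P : Finset α) (g : ι → α → ℤ) :
    ∃ K : ℕ, ∀ i, ∀ y ∈ P, g i y ≤ K := by
  refine ⟨∑ i, ∑ y ∈ P, (g i y).natAbs, fun i y hy => ?_⟩
  have h1 : (g i y).natAbs ≤ ∑ y ∈ P, (g i y).natAbs :=
    Finset.single_le_sum (f := fun y => (g i y).natAbs) (fun _ _ => Nat.zero_le _) hy
  have h2 : ∑ y ∈ P, (g i y).natAbs ≤ ∑ i, ∑ y ∈ P, (g i y).natAbs :=
    Finset.single_le_sum (f := fun i => ∑ y ∈ P, (g i y).natAbs) (fun _ _ => Nat.zero_le _)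
      (Finset.mem_univ i)
  omega

/-- the lower bound for the multiples of the divisor of poles -/
theorem rank_poles {s : F} (hs : Transcendental ℂ s) {B : DivVal 1 F →₀ ℤ}
    (hB0 : ∀ y, 0 ≤ B y) (hBs : ∀ y : DivVal 1 F, y.Ge (-B y) s)
    {d : ℕ} {b : Fin d → F} (hb : LinearIndependent (adjoin ℂ {s}) b) {K : ℕ}
    (hK : ∀ i (y : DivVal 1 F), y.Ge (-(K * B y)) (b i)) {q : F} (hq : q ≠ 0)
    {D : DivVal 1 F →₀ ℤ} (hD : ∀ y, D y = y.ord q) (m : ℕ) :
    (((m + 1) * d : ℕ) : Cardinal) ≤ Module.rank ℂ (L ((m + K) • B + D)) := by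
  have h1 := linearIndependent_smul (pow_indep hs (m + 1)) (mul_indep hb (inv_ne_zero hq))
  have h2 : ∀ p : Fin (m + 1) × Fin d,
      (AdjoinSimple.gen ℂ s ^ (p.1 : ℕ)) • (b p.2 * q⁻¹) ∈ L ((m + K) • B + D) := by
    intro p y
    have h3 : (AdjoinSimple.gen ℂ s ^ (p.1 : ℕ)) • (b p.2 * q⁻¹) = s ^ (p.1 : ℕ) * (b p.2 * q⁻¹) :=
      rfl
    rw [h3]
    refine (((hBs y).pow p.1).mul ((hK p.2 y).mul (DivVal.Ge.inv' y q))).mono ?_
    rw [Finsupp.add_apply, Finsupp.smul_apply, hD]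
    have h4 : ((p.1 : ℕ) : ℤ) ≤ m := by
      have := p.1.2
      omega
    have h5 := mul_le_mul_of_nonneg_right h4 (hB0 y)
    rw [nsmul_eq_mul]
    push_cast
    nlinarith
  have h3 : LinearIndependent ℂ fun p : Fin (m + 1) × Fin d =>
      (⟨_, h2 p⟩ : L ((m + K) • B + D)) :=
    LinearIndependent.of_comp (L ((m + K) • B + D)).subtype h1
  have h4 := h3.cardinal_le_rank
  simpa using h4

end

end RIE

open RIE in
theorem t_RIE (hRS1 : Stmt_RS1) (hDEG : Stmt_DEG) (hPRF : Stmt_PRF) (hAFF : Stmt_AFF) :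
    Stmt_RIE := by
  classical
  intro F _ _ hF
  obtain ⟨s, hs⟩ := hF.1
  obtain ⟨B, hB0, hB1, hBs, hBd⟩ := exists_poles hDEG hF s hs
  obtain ⟨b, hb, hbr⟩ := exists_basis hDEG hAFF hF s hs
  have hB2 : ∀ y ∈ B.support, 1 ≤ B y := by
    intro y hy
    have h1 := hB0 y
    have h2 := Finsupp.mem_support_iff.1 hy
    omega
  obtain ⟨K, hK⟩ := exists_bound B.support fun i y => -y.ord (b i)
  have hKb : ∀ i (y : DivVal 1 F), y.Ge (-(K * B y)) (b i) := by
    intro i y
    by_cases hy : y ∈ B.support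
    · refine Or.inr ?_
      have h1 := hK i y hy
      have h2 := mul_le_mul_of_nonneg_left (hB2 y hy) (Int.natCast_nonneg K)
      linarith
    · refine (hbr i y (hB1 y hy)).mono ?_
      rw [Finsupp.notMem_support_iff.1 hy]
      simp
  set d := Module.finrank (IntermediateField.adjoin ℂ {s}) F with hd
  refine ⟨K * d, fun E k hk => ?_⟩
  -- the function `q`
  have hc : ∀ y : DivVal 1 F, ∃ c : ℂ, y.Ge 0 s → y.Ge 1 (s - algebraMap ℂ F c) := by
    intro y
    by_cases h : y.Ge 0 s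
    · obtain ⟨c, hc⟩ := hRS1 hF y s h
      exact ⟨c, fun _ => hc⟩
    · exact ⟨0, fun h' => absurd h' h⟩
  choose c hc using hc
  have hne : ∀ a : ℂ, s - algebraMap ℂ F a ≠ 0 := by
    intro a h
    rw [sub_eq_zero] at h
    exact hs (h ▸ isAlgebraic_algebraMap a)
  obtain ⟨q, hq0, hq⟩ : ∃ q : F, q ≠ 0 ∧ ∀ y : DivVal 1 F, y.Ge 0 s → y.Ge (E y) q := by
    refine ⟨∏ y ∈ E.support, (s - algebraMap ℂ F (c y)) ^ (E y).natAbs,
      Finset.prod_ne_zero_iff.2 fun y _ => pow_ne_zero _ (hne _), fun y hy => ?_⟩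
    by_cases hyE : y ∈ E.support
    · rw [← Finset.mul_prod_erase _ _ hyE]
      refine DivVal.Ge.mul_right ?_ (DivVal.Ge.prod0 _ _ fun y' _ =>
        (hy.sub (DivVal.Ge.const y _)).pow0 _)
      refine ((hc y hy).pow _).mono ?_
      rw [mul_one]
      exact Int.le_natAbs
    · rw [Finsupp.notMem_support_iff.1 hyE]
      exact DivVal.Ge.prod0 _ _ fun y' _ => (hy.sub (DivVal.Ge.const y _)).pow0 _
  obtain ⟨D, hD, hDd⟩ := (hPRF hF).1 q hq0
  obtain ⟨m, hm⟩ := exists_bound (ι := Unit) B.support fun _ y => E y - y.ord q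
  have hm := hm ()
  have hle : ∀ y, E y ≤ ((m + K) • B + D) y := by
    intro y
    rw [Finsupp.add_apply, Finsupp.smul_apply, nsmul_eq_mul, hD]
    by_cases hy : y ∈ B.support
    · have h1 := hm y hy
      have h2 := mul_le_mul_of_nonneg_left (hB2 y hy) (Int.natCast_nonneg m)
      have h3 := mul_nonneg (Int.natCast_nonneg K) (hB0 y)
      push_cast
      nlinarith
    · rw [Finsupp.notMem_support_iff.1 hy, mul_zero, zero_add]
      exact (hq y (hB1 y hy)).le hq0
  have hdeg : deg ((m + K) • B + D - E) = (m + K) * d - deg E := by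
    rw [deg_sub, deg_add, hDd, deg_smul, hBd]
    push_cast
    ring
  have hnn : 0 ≤ deg ((m + K) • B + D - E) := deg_nonneg fun y => by
    rw [Finsupp.sub_apply]
    linarith [hle y]
  obtain ⟨n, hn⟩ := Int.eq_ofNat_of_zero_le hnn
  have h1 := rank_le hRS1 hF n E _ hle hn
  have h2 := rank_poles hs hB0 hBs hb hKb hq0 hD m
  have h3 : (k : Cardinal) ≤ Module.rank ℂ (L E) := by
    by_contra h4
    rw [not_le] at h4
    obtain ⟨r, hr⟩ := Cardinal.lt_aleph0.1 (h4.trans (Cardinal.natCast_lt_aleph0 (n := k)))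
    rw [hr] at h4 h1
    have h5 : r < k := by exact_mod_cast h4
    have h6 : (m + 1) * d ≤ r + n := by exact_mod_cast h2.trans h1
    have h7 : ((m : ℤ) + 1) * d ≤ r + n := by exact_mod_cast h6
    rw [hn] at hdeg
    have h8 : (n : ℤ) = (m + K) * d - deg E := hdeg
    have h9 : (0 : ℤ) ≤ d := Int.natCast_nonneg d
    nlinarith
  obtain ⟨f, hf⟩ := Module.le_rank_iff.1 h3
  refine ⟨fun i => (f i : F), ?_, fun i y => (f i).2 y⟩
  exact hf.map' (L E).subtype (Submodule.ker_subtype _)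

end MldGeo
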