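import Pool.Agent.MldGeo.Stmts6

/-!
# Divisors of large degree have no base points
-/

namespace MldGeo

namespace SEC

open DivVal Module

variable {F : Type} [Field F] [Algebra ℂ F]

/-- The functions `f` with `div f + E ≥ 0`. -/
def LL (E : DivVal 1 F →₀ ℤ) : Submodule ℂ F where
  carrier := {f | ∀ y : DivVal 1 F, y.Ge (-E y) f}
  add_mem' ha hb y := (ha y).add (hb y)
  zero_mem' y := Ge.zero y _
  smul_mem' c _ ha y := (ha y).smul c

theorem mem_LL {E : DivVal 1 F →₀ ℤ} {f : F} : f ∈ LL E ↔ ∀ y : DivVal 1 F, y.Ge (-E y) f :=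
  Iff.rfl

theorem LL_mono {E E' : DivVal 1 F →₀ ℤ} (h : E ≤ E') : LL E ≤ LL E' := by
  intro f hf y
  exact (hf y).mono (neg_le_neg (h y))

theorem deg_add (E E' : DivVal 1 F →₀ ℤ) : deg (E + E') = deg E + deg E' := by
  unfold deg
  exact Finsupp.sum_add_index' (fun _ => rfl) (fun _ _ _ => rfl)

theorem deg_single (y : DivVal 1 F) (k : ℤ) : deg (Finsupp.single y k) = k := by
  unfold deg
  exact Finsupp.sum_single_index rfl

theorem deg_sub (E E' : DivVal 1 F →₀ ℤ) : deg (E - E') = deg E - deg E' := by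
  have h := deg_add (E - E') E'
  rw [sub_add_cancel] at h
  omega

theorem deg_nonneg {E : DivVal 1 F →₀ ℤ} (h : 0 ≤ E) : 0 ≤ deg E :=
  Finset.sum_nonneg fun y _ => h y

theorem deg_mono {E E' : DivVal 1 F →₀ ℤ} (h : E ≤ E') : deg E ≤ deg E' := by
  have h1 := deg_nonneg (E := E' - E) (sub_nonneg.2 h)
  rw [deg_sub] at h1
  omega

/-- Passing from `E` to `E + y` adds at most one dimension. -/
theorem step (hRS1 : ∀ (y : DivVal 1 F) (a : F), y.Ge 0 a → ∃ c : ℂ, y.Ge 1 (a - algebraMap ℂ F c))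
    (E : DivVal 1 F →₀ ℤ) (y : DivVal 1 F) :
    ∃ g : F, LL (E + Finsupp.single y 1) ≤ LL E ⊔ Submodule.span ℂ {g} := by
  classical
  by_cases h : LL (E + Finsupp.single y 1) ≤ LL E
  · exact ⟨0, h.trans le_sup_left⟩
  obtain ⟨g, hg, hgE⟩ := SetLike.not_le_iff_exists.1 h
  have hne : ∀ z : DivVal 1 F, z ≠ y → (E + Finsupp.single y 1 : DivVal 1 F →₀ ℤ) z = E z := by
    intro z hz
    rw [Finsupp.add_apply, Finsupp.single_eq_of_ne hz, add_zero]
  have heq : (E + Finsupp.single y 1 : DivVal 1 F →₀ ℤ) y = E y + 1 := by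
    rw [Finsupp.add_apply, Finsupp.single_eq_same]
  have hg0 : g ≠ 0 := by
    rintro rfl
    exact hgE (zero_mem _)
  have hgy : y.ord g = -(E y + 1) := by
    have h1 := (hg y).le hg0
    rw [heq] at h1
    by_contra h2
    apply hgE
    intro z
    by_cases hz : z = y
    · subst hz
      exact Or.inr (by omega)
    · have := hg z
      rwa [hne z hz] at this
  refine ⟨g, ?_⟩
  intro f hf
  have h1 : y.Ge 0 (f / g) := by
    have h2 := (hf y).div g
    rw [heq, hgy] at h2
    simpa using h2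
  obtain ⟨c, hc⟩ := hRS1 y _ h1
  have h3 : f - c • g ∈ LL E := by
    intro z
    by_cases hz : z = y
    · subst hz
      have h4 : f - c • g = (f / g - algebraMap ℂ F c) * g := by
        rw [Algebra.smul_def, sub_mul, div_mul_cancel₀ _ hg0]
      rw [h4]
      have h5 := hc.mul (Ge.self z g)
      refine h5.mono ?_
      rw [hgy]
      omega
    · have h4 : z.Ge (-(E + Finsupp.single y 1 : DivVal 1 F →₀ ℤ) z) (f - c • g) :=
        (hf z).sub ((hg z).smul c)
      rwa [hne z hz] at h4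
  have h4 : f = (f - c • g) + c • g := by ring
  rw [h4]
  exact Submodule.add_mem_sup h3 (Submodule.smul_mem _ _ (Submodule.mem_span_singleton_self g))

theorem step_fin
    (hRS1 : ∀ (y : DivVal 1 F) (a : F), y.Ge 0 a → ∃ c : ℂ, y.Ge 1 (a - algebraMap ℂ F c))
    (E : DivVal 1 F →₀ ℤ) (y : DivVal 1 F) (hE : FiniteDimensional ℂ (LL E)) :
    FiniteDimensional ℂ (LL (E + Finsupp.single y 1)) ∧
      finrank ℂ (LL (E + Finsupp.single y 1)) ≤ finrank ℂ (LL E) + 1 := by
  obtain ⟨g, hg⟩ := step hRS1 E y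
  have h1 : finrank ℂ (Submodule.span ℂ {g}) ≤ 1 := by
    have := finrank_span_le_card (R := ℂ) ({g} : Set F)
    simpa using this
  have h2 := Submodule.finrank_add_le_finrank_add_finrank (LL E) (Submodule.span ℂ {g})
  refine ⟨Submodule.finiteDimensional_of_le hg, ?_⟩
  exact (Submodule.finrank_mono hg).trans (h2.trans (by omega))

theorem mono_fin
    (hRS1 : ∀ (y : DivVal 1 F) (a : F), y.Ge 0 a → ∃ c : ℂ, y.Ge 1 (a - algebraMap ℂ F c))
    (k : ℕ) : ∀ (E E' : DivVal 1 F →₀ ℤ), E ≤ E' → deg E' = deg E + k →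
    FiniteDimensional ℂ (LL E) → FiniteDimensional ℂ (LL E') ∧
      finrank ℂ (LL E') ≤ finrank ℂ (LL E) + k := by
  classical
  induction k with
  | zero =>
    intro E E' h hd hE
    have h1 : E = E' := by
      ext y
      refine le_antisymm (h y) ?_
      by_contra h2
      have h3 : E + Finsupp.single y 1 ≤ E' := by
        intro z
        by_cases hz : z = y
        · subst hz
          rw [Finsupp.add_apply, Finsupp.single_eq_same]
          omega
        · rw [Finsupp.add_apply, Finsupp.single_eq_of_ne hz, add_zero]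
          exact h z
      have h4 := deg_mono h3
      rw [deg_add, deg_single, hd] at h4
      omega
    subst h1
    exact ⟨hE, le_rfl⟩
  | succ k ih =>
    intro E E' h hd hE
    have h1 : ∃ y, E y < E' y := by
      by_contra h2
      push Not at h2
      have h3 := deg_mono (E := E') (E' := E) h2
      rw [hd] at h3
      push_cast at h3
      omega
    obtain ⟨y, hy⟩ := h1
    have h3 : E + Finsupp.single y 1 ≤ E' := by
      intro z
      by_cases hz : z = y
      · subst hz
        rw [Finsupp.add_apply, Finsupp.single_eq_same]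
        omega
      · rw [Finsupp.add_apply, Finsupp.single_eq_of_ne hz, add_zero]
        exact h z
    obtain ⟨h4, h5⟩ := step_fin hRS1 E y hE
    obtain ⟨h6, h7⟩ := ih _ E' h3 (by rw [deg_add, deg_single, hd]; push_cast; ring) h4
    exact ⟨h6, by omega⟩

theorem main (hF : IsCurve F) (hRS1 : Stmt_RS1) (hPRF : Stmt_PRF) (hRIE : Stmt_RIE) :
    ∃ γ : ℤ, ∀ E : DivVal 1 F →₀ ℤ, γ ≤ deg E → ∀ y : DivVal 1 F,
      ∃ f : F, f ≠ 0 ∧ y.ord f = - E y ∧ ∀ y' : DivVal 1 F, - E y' ≤ y'.ord f := by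
  classical
  have hR := hRS1 hF
  obtain ⟨hP1, hP2, -⟩ := hPRF hF
  obtain ⟨γ, hγ⟩ := hRIE hF
  have hmono : ∀ E E' : DivVal 1 F →₀ ℤ, E ≤ E' → FiniteDimensional ℂ (LL E) →
      FiniteDimensional ℂ (LL E') ∧ (finrank ℂ (LL E') : ℤ) ≤ finrank ℂ (LL E) + (deg E' - deg E) := by
    intro E E' h hE
    obtain ⟨k, hk⟩ := Int.eq_ofNat_of_zero_le (sub_nonneg.2 (deg_mono h))
    obtain ⟨h1, h2⟩ := mono_fin hR k E E' h (by omega) hE
    exact ⟨h1, by rw [hk]; exact_mod_cast h2⟩
  -- all spaces are finite dimensional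
  have h0 : FiniteDimensional ℂ (LL (0 : DivVal 1 F →₀ ℤ)) := by
    have h1 : LL (0 : DivVal 1 F →₀ ℤ) ≤ Submodule.span ℂ {(1 : F)} := by
      intro f hf
      obtain ⟨c, hc⟩ := hP2 f fun y => by simpa using hf y
      rw [hc, Algebra.algebraMap_eq_smul_one]
      exact Submodule.smul_mem _ _ (Submodule.mem_span_singleton_self _)
    exact Submodule.finiteDimensional_of_le h1
  have hfin : ∀ E : DivVal 1 F →₀ ℤ, FiniteDimensional ℂ (LL E) := by
    intro E
    have h1 : FiniteDimensional ℂ (LL (E ⊔ 0)) := (hmono 0 (E ⊔ 0) le_sup_right h0).1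
    exact Submodule.finiteDimensional_of_le (LL_mono (le_sup_left : E ≤ E ⊔ 0))
  -- Riemann's inequality
  have hrie : ∀ E : DivVal 1 F →₀ ℤ, deg E - γ ≤ (finrank ℂ (LL E) : ℤ) := by
    intro E
    by_cases h : deg E - γ ≤ 0
    · exact h.trans (by positivity)
    obtain ⟨k, hk⟩ := Int.eq_ofNat_of_zero_le (by omega : 0 ≤ deg E - γ)
    obtain ⟨f, hf, hfE⟩ := hγ E k (by omega)
    have h1 : LinearIndependent ℂ (fun i => (⟨f i, hfE i⟩ : LL E)) := by
      apply LinearIndependent.of_comp (LL E).subtype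
      exact hf
    have := hfin E
    have h2 := h1.fintype_card_le_finrank
    rw [Fintype.card_fin] at h2
    rw [hk]
    exact_mod_cast h2
  -- multiplication by a function
  have hmul : ∀ (E : DivVal 1 F →₀ ℤ) (f : F), f ≠ 0 → ∃ E' : DivVal 1 F →₀ ℤ,
      (∀ y, E' y = E y + y.ord f) ∧ deg E' = deg E ∧ finrank ℂ (LL E') = finrank ℂ (LL E) := by
    intro E f hf
    obtain ⟨G, hG, hG0⟩ := hP1 f hf
    refine ⟨E + G, fun y => by rw [Finsupp.add_apply, hG], by rw [deg_add, hG0, add_zero], ?_⟩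
    have hmap : LL E = (LL (E + G)).map (LinearMap.mulLeft ℂ f) := by
      ext h
      rw [Submodule.mem_map]
      constructor
      · intro hh
        refine ⟨h / f, ?_, by rw [LinearMap.mulLeft_apply]; field_simp⟩
        intro y
        have := (hh y).div f
        rw [Finsupp.add_apply, hG]
        refine this.mono (by omega)
      · rintro ⟨g, hg, rfl⟩ y
        have := (Ge.self y f).mul (hg y)
        rw [Finsupp.add_apply, hG] at this
        exact this.mono (by omega)
    rw [hmap]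
    have hinj : Function.Injective (LinearMap.mulLeft ℂ f) := by
      intro a b hab
      exact mul_left_cancel₀ hf hab
    exact (LinearEquiv.finrank_eq (Submodule.equivMapOfInjective _ hinj _))
  -- the defect
  have hex : ∃ E0 : DivVal 1 F →₀ ℤ, ∀ E : DivVal 1 F →₀ ℤ,
      deg E - finrank ℂ (LL E) ≤ deg E0 - finrank ℂ (LL E0) := by
    obtain ⟨m, ⟨E0, hE0⟩, hm⟩ := Int.exists_greatest_of_bdd
      (P := fun m => ∃ E : DivVal 1 F →₀ ℤ, deg E - finrank ℂ (LL E) = m)
      ⟨γ, by rintro m ⟨E, rfl⟩; have := hrie E; omega⟩ ⟨_, 0, rfl⟩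
    exact ⟨E0, fun E => by rw [hE0]; exact hm _ ⟨E, rfl⟩⟩
  obtain ⟨E0, hE0⟩ := hex
  have hge : ∀ E : DivVal 1 F →₀ ℤ, E0 ≤ E →
      deg E - finrank ℂ (LL E) = deg E0 - finrank ℂ (LL E0) := by
    intro E h
    refine le_antisymm (hE0 E) ?_
    have := (hmono E0 E h (hfin E0)).2
    omega
  have hbig : ∀ E : DivVal 1 F →₀ ℤ, γ + 1 + deg E0 ≤ deg E →
      deg E - finrank ℂ (LL E) = deg E0 - finrank ℂ (LL E0) := by
    intro E h
    obtain ⟨f, hf, hfE⟩ := hγ (E - E0) 1 (by rw [deg_sub]; push_cast; omega)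
    have hf0 : f 0 ≠ 0 := hf.ne_zero 0
    obtain ⟨E', h1, h2, h3⟩ := hmul E (f 0) hf0
    have h4 : E0 ≤ E' := by
      intro y
      have := (hfE 0 y).le hf0
      rw [Finsupp.sub_apply] at this
      rw [h1]
      omega
    have h5 := hge E' h4
    rw [h2, h3] at h5
    exact h5
  refine ⟨γ + 2 + deg E0, fun E hE y => ?_⟩
  set E' : DivVal 1 F →₀ ℤ := E - Finsupp.single y 1 with hE'
  have h1 := hbig E (by omega)
  have hd : deg E' = deg E - 1 := by rw [hE', deg_sub, deg_single]
  have h2 := hbig E' (by omega)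
  have h3 : ¬ LL E ≤ LL E' := by
    intro h
    have := hfin E'
    have := Submodule.finrank_mono h
    omega
  obtain ⟨f, hf, hfE⟩ := SetLike.not_le_iff_exists.1 h3
  have hf0 : f ≠ 0 := by
    rintro rfl
    exact hfE (zero_mem _)
  refine ⟨f, hf0, ?_, fun y' => (hf y').le hf0⟩
  have h4 := (hf y).le hf0
  by_contra h5
  apply hfE
  intro z
  by_cases hz : z = y
  · subst hz
    refine Or.inr ?_
    rw [hE', Finsupp.sub_apply, Finsupp.single_eq_same]
    omega
  · have := hf z
    rw [hE', Finsupp.sub_apply, Finsupp.single_eq_of_ne hz, sub_zero]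
    exact this

end SEC

theorem t_SEC (hRS1 : Stmt_RS1) (hPRF : Stmt_PRF) (hRIE : Stmt_RIE) : Stmt_SEC := by
  intro F _ _ hF
  exact SEC.main hF hRS1 hPRF hRIE

end MldGeo
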