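import Pool.Agent.MldGeo.Stmts8
import Pool.Agent.MldGeo.Ord
import Pool.Agent.MldGeo.HFK

/-!
# THR: the centre of a toroidal valuation
-/

namespace MldGeo

noncomputable section

namespace THR

variable {n m : ℕ} {X : Germ n} {A : TorusAction X m}

/-- A regular function as a sum of homogeneous regular functions. -/
theorem split (hHFR : Stmt_HFR) (S : Splitting A) (r : X.R) :
    ∃ (s : Finset (Fin m → ℤ)) (h : (Fin m → ℤ) → X.R) (b : (Fin m → ℤ) → A.K0),
      (∀ u, h u ∈ A.gr u) ∧ (∀ u, (h u : X.K) = (b u : X.K) * S.χ u) ∧ (∀ u, u ∉ s → h u = 0) ∧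
      r = ∑ u ∈ s, h u ∧ (r : X.K) = ∑ u ∈ s, (b u : X.K) * S.χ u := by
  obtain ⟨s, h, h1, h2, h3⟩ := hHFR A r
  choose b hb using fun u => HFK.exists_coeff S u (h u : X.K) (TorusAction.Hom.of_mem (h1 u))
  refine ⟨s, h, b, h1, hb, h2, h3, ?_⟩
  rw [h3, HFK.coe_sum_R]
  exact Finset.sum_congr rfl fun u _ => hb u

/-- A homogeneous rational function which is regular is in the weight space. -/
theorem mem_gr (hHFR : Stmt_HFR) (hHFK : Stmt_HFK) (S : Splitting A) (b : A.K0) (u : Fin m → ℤ)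
    (h : (b : X.K) * S.χ u ∈ X.R) : (⟨(b : X.K) * S.χ u, h⟩ : X.R) ∈ A.gr u := by
  classical
  obtain ⟨s, g, c, hg, hgc, hs, -, hr⟩ := split hHFR S (⟨(b : X.K) * S.χ u, h⟩ : X.R)
  have hc0 : ∀ x, x ∉ s → c x = 0 := by
    intro x hx
    have h4 := hgc x
    rw [hs x hx, ZeroMemClass.coe_zero] at h4
    have h5 := (mul_eq_zero.mp h4.symm).resolve_right (HFK.chi_ne S x)
    exact Subtype.ext h5
  have hbs : (b : X.K) * S.χ u = ∑ x ∈ insert u s, (c x : X.K) * S.χ x := by
    rw [← HFK.enlarge S (Finset.subset_insert u s) c hc0]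
    exact hr
  have hz := (hHFK A S).2.1 (insert u s) (fun x => c x - if x = u then b else 0) (by
    have e1 : ∀ x ∈ insert u s, ((c x - if x = u then b else 0 : A.K0) : X.K) * S.χ x =
        (c x : X.K) * S.χ x - if x = u then (b : X.K) * S.χ u else 0 := by
      intro x _
      by_cases hx : x = u
      · subst hx
        simp [sub_mul]
      · simp [hx]
    rw [Finset.sum_congr rfl e1, Finset.sum_sub_distrib, ← hbs]
    simp)
  have hu := hz u (Finset.mem_insert_self u s)
  simp only [if_true] at hu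
  have hcu : c u = b := sub_eq_zero.1 hu
  have : (⟨(b : X.K) * S.χ u, h⟩ : X.R) = g u := by
    apply Subtype.ext
    rw [hgc u, hcu]
  rw [this]
  exact hg u

/-- The component of weight zero of a function which does not vanish at the point. -/
theorem zero_comp {s : Finset (Fin m → ℤ)} {h : (Fin m → ℤ) → X.R} (h1 : ∀ u, h u ∈ A.gr u)
    (h2 : ∀ u, u ∉ s → h u = 0) :
    ∃ (c : ℂ) (r : X.R), r ∈ X.m ∧ h 0 = algebraMap ℂ X.R c ∧
      ∑ u ∈ s, h u = algebraMap ℂ X.R c + r := by
  classical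
  obtain ⟨c, hc⟩ := A.const (h 0) (h1 0)
  refine ⟨c, ∑ u ∈ s.erase 0, h u, ?_, hc, ?_⟩
  · refine Ideal.sum_mem _ fun u hu => ?_
    exact A.vanish u (Finset.ne_of_mem_erase hu) _ (h1 u)
  · by_cases h0 : (0 : Fin m → ℤ) ∈ s
    · rw [← hc, Finset.add_sum_erase _ _ h0]
    · rw [← hc, h2 0 h0, zero_add, Finset.erase_eq_of_notMem h0]

theorem const_notMem {c : ℂ} (hc : c ≠ 0) : algebraMap ℂ X.R c ∉ X.m := by
  intro h
  apply X.max.ne_top
  rw [Ideal.eq_top_iff_one]
  have h1 := X.m.mul_mem_left (algebraMap ℂ X.R c⁻¹) h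
  rwa [← map_mul, inv_mul_cancel₀ hc, map_one] at h1

theorem through_of_at (hHFR : Stmt_HFR) (A : TorusAction X m) (v : DivVal n X.K)
    (h : X.At v) : X.Through v := by
  refine ⟨h.1, fun a ha => ?_⟩
  obtain ⟨s, g, h1, h2, h3⟩ := hHFR A a
  obtain ⟨c, r, hr, -, hcr⟩ := zero_comp h1 h2
  rw [hcr] at h3
  have hc : c ≠ 0 := by
    rintro rfl
    apply ha
    rw [h3, map_zero, zero_add]
    exact hr
  have h0 := h.1 a
  by_contra hne
  have hpos : 0 < v.ord a := lt_of_le_of_ne h0 (Ne.symm hne)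
  have ha0 : (a : X.K) ≠ 0 := by
    intro h4
    rw [h4, v.ord_zero] at hpos
    exact lt_irrefl _ hpos
  have hsum : v.Ge 1 ((a : X.K) - r) := by
    refine DivVal.Ge.sub (DivVal.Ge.of_le (by omega)) ?_
    by_cases hr0 : r = 0
    · exact Or.inl (by rw [hr0]; rfl)
    · exact DivVal.Ge.of_le (by have := h.2 r hr hr0; omega)
  have e : (a : X.K) - r = algebraMap ℂ X.K c := by
    rw [h3]
    push_cast
    rw [add_sub_cancel_right]
  rw [e] at hsum
  have hc' : algebraMap ℂ X.K c ≠ 0 := by simpa using hc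
  have := hsum.le hc'
  rw [v.ord_const] at this
  omega

end THR

theorem t_THR (hHFR : Stmt_HFR) (hHFK : Stmt_HFK) : Stmt_THR := by
  intro n m X A S v w l y
  refine ⟨fun hT hN => ?_, fun hA hR => ?_, THR.through_of_at hHFR A v⟩
  · -- toroidal valuations
    have key : ∀ a : X.R, a ≠ 0 → ∃ (s : Finset (Fin m → ℤ)) (h : (Fin m → ℤ) → X.R)
        (b : (Fin m → ℤ) → A.K0), (∀ u, h u ∈ A.gr u) ∧
        (∀ u, (h u : X.K) = (b u : X.K) * S.χ u) ∧ (∀ u, u ∉ s → h u = 0) ∧
        a = ∑ u ∈ s, h u ∧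
        IsLeast {k : ℤ | ∃ u ∈ s, b u ≠ 0 ∧ k = l * y.ord (b u) + ip w u} (v.ord a) := by
      intro a ha
      obtain ⟨s, h, b, h1, h2, h3, h4, h5⟩ := THR.split hHFR S a
      refine ⟨s, h, b, h1, h2, h3, h4, ?_⟩
      rw [h5]
      refine hT s b ?_
      by_contra hcon
      push Not at hcon
      apply ha
      apply Subtype.ext
      rw [h5, ZeroMemClass.coe_zero]
      refine Finset.sum_eq_zero fun u hu => ?_
      rw [hcon u hu, ZeroMemClass.coe_zero, zero_mul]
    have hnn : ∀ a : X.R, 0 ≤ v.ord a := by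
      intro a
      by_cases ha : a = 0
      · rw [ha, ZeroMemClass.coe_zero, v.ord_zero]
      · obtain ⟨s, h, b, -, h2, -, -, h5⟩ := key a ha
        obtain ⟨u, -, hb, e⟩ := h5.1
        rw [e]
        exact hN (b u) u hb (by rw [← h2 u]; exact (h u).2)
    refine ⟨⟨hnn, fun a ha => ?_⟩, fun hP => ⟨hnn, fun a ha ha0 => ?_⟩⟩
    · have ha0 : a ≠ 0 := by
        rintro rfl
        exact ha X.m.zero_mem
      obtain ⟨s, h, b, h1, h2, h3, h4, h5⟩ := key a ha0
      obtain ⟨c, r, hr, hc0, hcr⟩ := THR.zero_comp h1 h3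
      rw [hcr] at h4
      have hc : c ≠ 0 := by
        rintro rfl
        apply ha
        rw [h4, map_zero, zero_add]
        exact hr
      have h0s : (0 : Fin m → ℤ) ∈ s := by
        by_contra h0
        have h6 := h3 0 h0
        rw [hc0] at h6
        exact THR.const_notMem (X := X) hc (by rw [h6]; exact X.m.zero_mem)
      have hb0 : (b 0 : X.K) = algebraMap ℂ X.K c := by
        have h6 := h2 0
        rw [hc0, S.zero, mul_one] at h6
        exact h6.symm
      have hb0' : b 0 = algebraMap ℂ A.K0 c := Subtype.ext hb0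
      have hbne : b 0 ≠ 0 := by
        rw [hb0']
        simpa using hc
      have h7 := h5.2 ⟨0, h0s, hbne, rfl⟩
      rw [hb0', y.ord_const] at h7
      have h8 : ip w (0 : Fin m → ℤ) = 0 := by simp [ip]
      rw [h8] at h7
      have := hnn a
      omega
    · obtain ⟨s, h, b, h1, h2, h3, h4, h5⟩ := key a ha0
      obtain ⟨u, hu, hb, e⟩ := h5.1
      rw [e]
      refine hP (b u) u hb ?_ (by rw [← h2 u]; exact (h u).2)
      rintro rfl
      obtain ⟨c, r, hr, hc0, hcr⟩ := THR.zero_comp h1 h3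
      rw [hcr] at h4
      have hc : c ≠ 0 := by
        rintro rfl
        apply hb
        apply Subtype.ext
        have h6 := h2 0
        rw [hc0, S.zero, mul_one, map_zero, ZeroMemClass.coe_zero] at h6
        exact h6.symm
      apply THR.const_notMem (X := X) hc
      have h6 := X.m.sub_mem ha hr
      rwa [h4, add_sub_cancel_right] at h6
  · -- general valuations
    have hpos : NonnegR S w l y := by
      intro b u hb hbu
      rw [← hA b u hb]
      exact hR ⟨_, hbu⟩
    refine ⟨hpos, fun hAt b u hb hu hbu => ?_⟩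
    rw [← hA b u hb]
    refine hAt.2 ⟨_, hbu⟩ (A.vanish u hu _ (THR.mem_gr hHFR hHFK S b u hbu)) ?_
    intro h0
    have h1 : (b : X.K) * S.χ u = 0 := congrArg Subtype.val h0
    rcases mul_eq_zero.1 h1 with h2 | h2
    · exact hb (Subtype.ext h2)
    · exact HFK.chi_ne S u h2

end

end MldGeo
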