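import Pool.Agent.MldGeo.Stmts8
import Pool.Agent.MldGeo.Ord

/-!
# Toroidal valuations exist (module MLD_TOX)
-/

set_option autoImplicit false

namespace MldGeo

namespace TOX

open MvPolynomial

noncomputable section

variable {n m k : ℕ} {X : Germ n} {A : TorusAction X m}

/-- The weight of a monomial. -/
def U (u : Fin k → Fin m → ℤ) (α : Fin k →₀ ℕ) : Fin m → ℤ := ∑ j, α j • u j

/-- The characters as a homomorphism. -/
def chiHom (S : Splitting A) : Multiplicative (Fin m → ℤ) →* X.K where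
  toFun u := S.χ u.toAdd
  map_one' := S.zero
  map_mul' _ _ := S.add _ _

theorem chi_U (S : Splitting A) (u : Fin k → Fin m → ℤ) (α : Fin k →₀ ℕ) :
    S.χ (U u α) = ∏ j, S.χ (u j) ^ α j := by
  have h : chiHom S (∏ j, Multiplicative.ofAdd (u j) ^ α j) = ∏ j, S.χ (u j) ^ α j := by
    rw [map_prod]
    refine Finset.prod_congr rfl fun j _ => ?_
    rw [map_pow]
    rfl
  rw [← h]
  change _ = S.χ (Multiplicative.toAdd (∏ j, Multiplicative.ofAdd (u j) ^ α j))
  congr 1

open Classical in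
/-- The coefficients. -/
def cf (τ : Fin k → A.K0) (u : Fin k → Fin m → ℤ) (p : MvPolynomial (Fin k) ℂ)
    (v : Fin m → ℤ) : A.K0 :=
  ∑ α ∈ p.support with U u α = v, algebraMap ℂ A.K0 (p.coeff α) * ∏ j, τ j ^ α j

open Classical in
theorem aeval_expand (S : Splitting A) (τ : Fin k → A.K0) (u : Fin k → Fin m → ℤ)
    (p : MvPolynomial (Fin k) ℂ) :
    aeval (fun j => (τ j : X.K) * S.χ (u j)) p =
      ∑ v ∈ p.support.image (U u), (cf τ u p v : X.K) * S.χ v := by
  have h1 : ∀ v, (cf τ u p v : X.K) * S.χ v = ∑ α ∈ p.support with U u α = v,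
      ((algebraMap ℂ A.K0 (p.coeff α) * ∏ j, τ j ^ α j : A.K0) : X.K) * S.χ (U u α) := by
    intro v
    have h2 : (cf τ u p v : X.K) = ∑ α ∈ p.support with U u α = v,
        ((algebraMap ℂ A.K0 (p.coeff α) * ∏ j, τ j ^ α j : A.K0) : X.K) := by
      have h3 := map_sum A.K0.val (fun α => algebraMap ℂ A.K0 (p.coeff α) * ∏ j, τ j ^ α j)
        (p.support.filter fun α => U u α = v)
      exact h3
    rw [h2, Finset.sum_mul]
    refine Finset.sum_congr rfl fun α hα => ?_
    rw [(Finset.mem_filter.1 hα).2]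
  rw [Finset.sum_congr rfl fun v _ => h1 v,
    Finset.sum_fiberwise_of_maps_to fun α hα => Finset.mem_image_of_mem (U u) hα,
    MvPolynomial.aeval_def, MvPolynomial.eval₂_eq']
  refine Finset.sum_congr rfl fun α _ => ?_
  have h4 : ((algebraMap ℂ A.K0 (p.coeff α) * ∏ j, τ j ^ α j : A.K0) : X.K) =
      algebraMap ℂ X.K (p.coeff α) * ∏ j, (τ j : X.K) ^ α j := by
    have h5 := map_mul A.K0.val (algebraMap ℂ A.K0 (p.coeff α)) (∏ j, τ j ^ α j)
    rw [map_prod] at h5
    rw [Finset.prod_congr rfl fun j _ => map_pow A.K0.val (τ j) (α j)] at h5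
    exact h5
  rw [h4, chi_U, mul_assoc, ← Finset.prod_mul_distrib]
  congr 1
  exact Finset.prod_congr rfl fun j _ => mul_pow _ _ _

theorem ip_U (w : Fin m → ℤ) (u : Fin k → Fin m → ℤ) (α : Fin k →₀ ℕ) :
    ip w (U u α) = ∑ j, (α j : ℤ) * ip w (u j) := by
  have h1 : ∀ i, w i * U u α i = ∑ j, w i * ((α j : ℤ) * u j i) := by
    intro i
    unfold U
    rw [Finset.sum_apply, Finset.mul_sum]
    refine Finset.sum_congr rfl fun j _ => ?_
    rw [Pi.smul_apply, nsmul_eq_mul]
  unfold ip
  rw [Finset.sum_congr rfl fun i _ => h1 i, Finset.sum_comm]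
  refine Finset.sum_congr rfl fun j _ => ?_
  rw [Finset.mul_sum]
  refine Finset.sum_congr rfl fun i _ => ?_
  ring

theorem ip_add (w u v : Fin m → ℤ) : ip w (u + v) = ip w u + ip w v := by
  unfold ip
  rw [← Finset.sum_add_distrib]
  exact Finset.sum_congr rfl fun i _ => mul_add _ _ _

/-- Residue elements in the case `l > 0`. -/
theorem res_pos (S : Splitting A) (w : Fin m → ℤ) {l : ℤ} (hl : 0 < l) (y : DivVal 1 A.K0) :
    ∃ g : Fin m → X.K, ∀ p : MvPolynomial (Fin m) ℂ, p ≠ 0 →
      ∃ (s : Finset (Fin m → ℤ)) (b : (Fin m → ℤ) → A.K0),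
        aeval g p = ∑ u ∈ s, (b u : X.K) * S.χ u ∧
        (∀ u ∈ s, b u ≠ 0 → 0 ≤ l * y.ord (b u) + ip w u) ∧
        ∃ u ∈ s, b u ≠ 0 ∧ l * y.ord (b u) + ip w u = 0 := by
  classical
  obtain ⟨t, ht0, ht1⟩ := y.unif
  let τ : Fin m → A.K0 := fun j => t ^ (-w j)
  let u : Fin m → Fin m → ℤ := fun j => l • Pi.single j 1
  have hτ0 : ∀ j, τ j ≠ 0 := fun j => zpow_ne_zero _ ht0
  have hτ : ∀ j, y.ord (τ j) = -w j := fun j => by
    change y.ord (t ^ (-w j)) = _
    rw [DivVal.ord_zpow, ht1, mul_one]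
  have hip : ∀ j, ip w (u j) = l * w j := by
    intro j
    change ∑ i, w i * (l • (Pi.single j 1 : Fin m → ℤ)) i = l * w j
    rw [Finset.sum_eq_single j]
    · simp [mul_comm]
    · intro i _ hi
      simp [hi]
    · intro h
      exact absurd (Finset.mem_univ j) h
  have hU : ∀ α i, U u α i = l * α i := by
    intro α i
    change (∑ j, α j • (l • (Pi.single j 1 : Fin m → ℤ))) i = _
    rw [Finset.sum_apply, Finset.sum_eq_single i]
    · simp [mul_comm]
    · intro j _ hj
      simp [Ne.symm hj]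
    · intro h
      exact absurd (Finset.mem_univ i) h
  have hinj : Function.Injective (U (m := m) u) := by
    intro α β h
    ext i
    have h1 := congrFun h i
    rw [hU, hU] at h1
    exact_mod_cast mul_left_cancel₀ hl.ne' h1
  refine ⟨fun j => (τ j : X.K) * S.χ (u j), fun p hp => ?_⟩
  have hcf : ∀ α ∈ p.support, cf τ u p (U u α) =
      algebraMap ℂ A.K0 (p.coeff α) * ∏ j, τ j ^ α j := by
    intro α hα
    unfold cf
    rw [Finset.sum_eq_single α]
    · intro β hβ hne
      exact absurd (hinj (Finset.mem_filter.1 hβ).2) hne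
    · intro h
      exact absurd (Finset.mem_filter.2 ⟨hα, (rfl : U u α = U u α)⟩) h
  have hval : ∀ α ∈ p.support, cf τ u p (U u α) ≠ 0 ∧
      l * y.ord (cf τ u p (U u α)) + ip w (U u α) = 0 := by
    intro α hα
    have hc : algebraMap ℂ A.K0 (p.coeff α) ≠ 0 :=
      (map_ne_zero _).2 (MvPolynomial.mem_support_iff.1 hα)
    have hpr : ∏ j, τ j ^ α j ≠ 0 := Finset.prod_ne_zero_iff.2 fun j _ => pow_ne_zero _ (hτ0 j)
    rw [hcf α hα]
    refine ⟨mul_ne_zero hc hpr, ?_⟩
    rw [y.ord_mul _ _ hc hpr, y.ord_const, DivVal.ord_prod _ _ _ fun j _ => pow_ne_zero _ (hτ0 j),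
      ip_U, zero_add, Finset.mul_sum, ← Finset.sum_add_distrib]
    refine Finset.sum_eq_zero fun j _ => ?_
    rw [DivVal.ord_pow, hτ, hip]
    ring
  refine ⟨p.support.image (U u), cf τ u p, aeval_expand S τ u p, ?_, ?_⟩
  · intro v hv _
    obtain ⟨α, hα, rfl⟩ := Finset.mem_image.1 hv
    exact (hval α hα).2.ge
  · obtain ⟨α, hα⟩ := MvPolynomial.support_nonempty.2 hp
    exact ⟨U u α, Finset.mem_image_of_mem _ hα, hval α hα⟩

/-- Residue elements in the case `l = 0`. -/
theorem res_zero (S : Splitting A) (w : Fin m → ℤ) {i0 : Fin m} (hw : w i0 ≠ 0)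
    {z : A.K0} (hz : Transcendental ℂ z) :
    ∃ g : Fin m → X.K, ∀ p : MvPolynomial (Fin m) ℂ, p ≠ 0 →
      ∃ (s : Finset (Fin m → ℤ)) (b : (Fin m → ℤ) → A.K0),
        aeval g p = ∑ u ∈ s, (b u : X.K) * S.χ u ∧
        (∀ u ∈ s, ip w u = 0) ∧ ∃ u ∈ s, b u ≠ 0 := by
  classical
  let τ : Fin m → A.K0 := fun j => if j = i0 then z else 1
  let u : Fin m → Fin m → ℤ := fun j => w i0 • Pi.single j 1 - w j • Pi.single i0 1
  have hip : ∀ j, ip w (u j) = 0 := by
    intro j
    change ∑ i, w i * (w i0 • (Pi.single j 1 : Fin m → ℤ) - w j • Pi.single i0 1 : Fin m → ℤ) i = 0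
    have h1 : ∀ i, w i * (w i0 • (Pi.single j 1 : Fin m → ℤ) - w j • Pi.single i0 1 :
        Fin m → ℤ) i = w i0 * (w i * (Pi.single j 1 : Fin m → ℤ) i) -
          w j * (w i * (Pi.single i0 1 : Fin m → ℤ) i) := by
      intro i
      simp only [Pi.sub_apply, Pi.smul_apply, smul_eq_mul]
      ring
    rw [Finset.sum_congr rfl fun i _ => h1 i, Finset.sum_sub_distrib, ← Finset.mul_sum,
      ← Finset.mul_sum]
    simp only [Pi.single_apply, mul_ite, mul_one, mul_zero, Finset.sum_ite_eq', Finset.mem_univ,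
      if_true]
    ring
  have hU : ∀ α i, i ≠ i0 → U u α i = w i0 * α i := by
    intro α i hi
    change (∑ j, α j • (w i0 • (Pi.single j 1 : Fin m → ℤ) - w j • Pi.single i0 1) :
      Fin m → ℤ) i = _
    rw [Finset.sum_apply, Finset.sum_eq_single i]
    · simp [mul_comm, hi]
    · intro j _ hj
      simp [Ne.symm hj, hi]
    · intro h
      exact absurd (Finset.mem_univ i) h
  refine ⟨fun j => (τ j : X.K) * S.χ (u j), fun p hp => ?_⟩
  refine ⟨p.support.image (U u), cf τ u p, aeval_expand S τ u p, ?_, ?_⟩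
  · intro v hv
    obtain ⟨α, -, rfl⟩ := Finset.mem_image.1 hv
    rw [ip_U]
    exact Finset.sum_eq_zero fun j _ => by rw [hip, mul_zero]
  · obtain ⟨β, hβ⟩ := MvPolynomial.support_nonempty.2 hp
    refine ⟨U u β, Finset.mem_image_of_mem _ hβ, fun h0 => ?_⟩
    let q : Polynomial ℂ := ∑ α ∈ p.support with U u α = U u β,
      Polynomial.monomial (α i0) (p.coeff α)
    have hq : Polynomial.aeval z q = cf τ u p (U u β) := by
      unfold cf
      change Polynomial.aeval z (∑ α ∈ p.support with U u α = U u β,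
        Polynomial.monomial (α i0) (p.coeff α)) = _
      rw [map_sum]
      refine Finset.sum_congr rfl fun α _ => ?_
      rw [Polynomial.aeval_monomial, Finset.prod_eq_single i0]
      · change _ = _ * (if i0 = i0 then z else 1) ^ α i0
        rw [if_pos rfl]
      · intro j _ hj
        change (if j = i0 then z else 1) ^ α j = 1
        rw [if_neg hj, one_pow]
      · intro h
        exact absurd (Finset.mem_univ i0) h
    have hq0 : q.coeff (β i0) = p.coeff β := by
      change (∑ α ∈ p.support with U u α = U u β,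
        Polynomial.monomial (α i0) (p.coeff α)).coeff (β i0) = _
      rw [Polynomial.finsetSum_coeff, Finset.sum_eq_single β]
      · rw [Polynomial.coeff_monomial, if_pos rfl]
      · intro α hα hne
        rw [Polynomial.coeff_monomial, if_neg]
        intro he
        apply hne
        ext i
        by_cases hi : i = i0
        · rw [hi]
          exact he
        · have h1 := congrFun (Finset.mem_filter.1 hα).2 i
          rw [hU _ _ hi, hU _ _ hi] at h1
          exact_mod_cast mul_left_cancel₀ hw h1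
      · intro h
        exact absurd (Finset.mem_filter.2 ⟨hβ, (rfl : U u β = U u β)⟩) h
    have h1 := (transcendental_iff.1 hz) q (by rw [hq, h0])
    rw [h1, Polynomial.coeff_zero] at hq0
    exact MvPolynomial.mem_support_iff.1 hβ hq0.symm

end

end TOX

/-- TOX: toroidal valuations exist. -/
theorem t_TOX (hHFK : Stmt_HFK) (hK0C : Stmt_K0C) (hGAU : Stmt_GAU) : Stmt_TOX := by
  intro m X A S w l y hl hprim
  obtain ⟨a, u, hau⟩ := hprim
  obtain ⟨t, ht0, ht1⟩ := y.unif
  refine hGAU A.K0 S.χ S.zero S.add (hHFK A S).2.1 (hHFK A S).2.2 (fun b => l * y.ord b)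
    ⟨⟨fun u => ip w u, by simp [ip]⟩, TOX.ip_add w⟩ ?_ ?_ ?_ ?_ ?_
  · intro b c hb hc
    rw [y.ord_mul b c hb hc, mul_add]
  · intro b c hb hc hbc
    have h1 := y.ord_add b c hb hc hbc
    rcases min_le_iff.1 h1 with h | h
    · exact (min_le_left _ _).trans (mul_le_mul_of_nonneg_left h hl)
    · exact (min_le_right _ _).trans (mul_le_mul_of_nonneg_left h hl)
  · intro c _
    change l * y.ord (algebraMap ℂ A.K0 c) = 0
    rw [y.ord_const, mul_zero]
  · refine ⟨t ^ a, u, zpow_ne_zero _ ht0, ?_⟩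
    change l * y.ord (t ^ a) + ip w u = 1
    rw [DivVal.ord_zpow, ht1, mul_one, hau]
  · rcases hl.lt_or_eq with hl | hl
    · exact TOX.res_pos S w hl y
    · subst hl
      have hw : ∃ i, w i ≠ 0 := by
        by_contra hcon
        push Not at hcon
        have h1 : ip w u = 0 := Finset.sum_eq_zero fun i _ => by rw [hcon i, zero_mul]
        rw [h1] at hau
        simp at hau
      obtain ⟨i0, hi0⟩ := hw
      obtain ⟨z, hz⟩ := (hK0C A).1
      obtain ⟨g, hg⟩ := TOX.res_zero S w hi0 hz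
      refine ⟨g, fun p hp => ?_⟩
      obtain ⟨s, b, h1, h2, v, hv, hbv⟩ := hg p hp
      refine ⟨s, b, h1, fun u hu _ => ?_, v, hv, hbv, ?_⟩
      · change 0 ≤ 0 * y.ord (b u) + ip w u
        rw [h2 u hu]
        simp
      · change 0 * y.ord (b v) + ip w v = 0
        rw [h2 v hv]
        simp

end MldGeo
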