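import Pool.Agent.MldGeo.Stmts6

/-!
# The order of the Wronskian at a place (module WRB)
-/

namespace MldGeo

namespace WRB

open DivVal

variable {F : Type} [Field F] [Algebra ℂ F]

/-- the derivation `D / D t` as a function -/
noncomputable def par (D : Derivation ℂ F F) (t : F) (a : F) : F := D a / D t

/-- coefficients of the iterated derivative of `u g` -/
noncomputable def co (D : Derivation ℂ F F) (t u : F) : ℕ → ℕ → F
  | 0, l => if l = 0 then u else 0
  | i + 1, l => D (co D t u i l) + (if l = 0 then 0 else co D t u i (l - 1) * D t)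

theorem co_zero (D : Derivation ℂ F F) (t u : F) : ∀ i l, i < l → co D t u i l = 0 := by
  intro i
  induction i with
  | zero =>
    intro l hl
    rw [co, if_neg (by omega)]
  | succ i ih =>
    intro l hl
    rw [co, ih l (by omega), map_zero, if_neg (by omega), ih (l - 1) (by omega), zero_mul,
      add_zero]

theorem co_diag (D : Derivation ℂ F F) (t u : F) : ∀ i, co D t u i i = u * D t ^ i := by
  intro i
  induction i with
  | zero => rw [co, if_pos rfl, pow_zero, mul_one]
  | succ i ih =>
    rw [co, co_zero D t u i (i + 1) (by omega), map_zero, if_neg (by omega), Nat.add_sub_cancel,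
      ih, pow_succ, zero_add, mul_assoc]

theorem iter (D : Derivation ℂ F F) (t u : F) (ht : D t ≠ 0) (g : F) : ∀ i : ℕ,
    (D : F → F)^[i] (u * g) = ∑ l ∈ Finset.range (i + 1), co D t u i l * (par D t)^[l] g := by
  intro i
  induction i with
  | zero => simp [co]
  | succ i ih =>
    rw [Function.iterate_succ_apply', ih, map_sum]
    have h1 : ∀ l ∈ Finset.range (i + 1), D (co D t u i l * (par D t)^[l] g) =
        D (co D t u i l) * (par D t)^[l] g + co D t u i l * D t * (par D t)^[l + 1] g := by
      intro l _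
      rw [Derivation.leibniz, smul_eq_mul, smul_eq_mul, Function.iterate_succ_apply', par]
      field_simp
      ring
    rw [Finset.sum_congr rfl h1, Finset.sum_add_distrib]
    have h2 : ∑ l ∈ Finset.range (i + 1 + 1), co D t u (i + 1) l * (par D t)^[l] g =
        ∑ l ∈ Finset.range (i + 1 + 1), D (co D t u i l) * (par D t)^[l] g +
        ∑ l ∈ Finset.range (i + 1 + 1), (if l = 0 then 0 else co D t u i (l - 1) * D t) *
          (par D t)^[l] g := by
      rw [← Finset.sum_add_distrib]
      refine Finset.sum_congr rfl fun l _ => ?_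
      rw [co, add_mul]
    rw [h2]
    congr 1
    · rw [Finset.sum_range_succ _ (i + 1), co_zero D t u i (i + 1) (by omega), map_zero, zero_mul,
        add_zero]
    · rw [Finset.sum_range_succ' _ (i + 1), if_pos rfl, zero_mul, add_zero]
      refine Finset.sum_congr rfl fun l _ => ?_
      rw [if_neg (by omega), Nat.add_sub_cancel]

theorem par_ge {y : DivVal 1 F} (D : Derivation ℂ F F) (t : F)
    (h : ∀ a : F, y.Ge 0 a → y.Ge 0 (D a / D t)) (g : F) (hg : y.Ge 0 g) :
    ∀ l : ℕ, y.Ge 0 ((par D t)^[l] g) := by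
  intro l
  induction l with
  | zero => exact hg
  | succ l ih =>
    rw [Function.iterate_succ_apply']
    exact h _ ih

end WRB

open WRB DivVal in
theorem t_WRB : Stmt_WRB := by
  intro F _ _ D y t ht1 hDt hpar r f e hf
  have ht : t ≠ 0 := by
    rintro rfl
    rw [y.ord_zero] at ht1
    omega
  have hte : t ^ e ≠ 0 := zpow_ne_zero _ ht
  have hg : ∀ j, f j = t ^ e * (f j * t ^ (-e)) := by
    intro j
    rw [mul_comm (t ^ e), mul_assoc, ← zpow_add₀ ht, neg_add_cancel, zpow_zero, mul_one]
  have hge : ∀ j, y.Ge 0 (f j * t ^ (-e)) := by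
    intro j
    have h1 : y.Ge (-e) (t ^ (-e)) := Ge.of_le (by rw [ord_zpow, ht1, mul_one])
    have h2 := (hf j).mul h1
    rwa [add_neg_cancel] at h2
  have hM : (Matrix.of fun i j : Fin (r + 1) => (D : F → F)^[(i : ℕ)] (f j)) =
      (Matrix.of fun i l : Fin (r + 1) => co D t (t ^ e) i l) *
      (Matrix.of fun l j : Fin (r + 1) => (par D t)^[(l : ℕ)] (f j * t ^ (-e))) := by
    ext i j
    rw [Matrix.mul_apply]
    simp only [Matrix.of_apply]
    conv_lhs => rw [hg j]
    rw [iter D t (t ^ e) hDt]
    rw [Fin.sum_univ_eq_sum_range (fun l => co D t (t ^ e) i l *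
      (par D t)^[l] (f j * t ^ (-e))) (r + 1)]
    refine Finset.sum_subset ?_ ?_
    · intro l hl
      rw [Finset.mem_range] at hl ⊢
      have := i.2
      omega
    · intro l _ hl
      rw [Finset.mem_range, not_lt] at hl
      rw [co_zero D t (t ^ e) i l (by omega), zero_mul]
  rw [hM, Matrix.det_mul]
  have hL : (Matrix.of fun i l : Fin (r + 1) => co D t (t ^ e) i l).det =
      ∏ i : Fin (r + 1), (t ^ e * D t ^ (i : ℕ)) := by
    rw [Matrix.det_of_lowerTriangular]
    · refine Finset.prod_congr rfl fun i _ => ?_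
      rw [Matrix.of_apply, co_diag]
    · intro i l hil
      have h1 : (i : ℕ) < l := hil
      rw [Matrix.of_apply, co_zero D t (t ^ e) i l h1]
  rw [hL]
  have h1 : y.Ge 0 (Matrix.of fun l j : Fin (r + 1) =>
      (par D t)^[(l : ℕ)] (f j * t ^ (-e))).det :=
    Ge.det fun l j => par_ge D t hpar _ (hge j) l
  have h2 : y.Ge (∑ i : Fin (r + 1), (e + (i : ℕ) * y.ord (D t)))
      (∏ i : Fin (r + 1), (t ^ e * D t ^ (i : ℕ))) := by
    refine Ge.prod _ _ _ fun i _ => ?_
    have h3 : y.Ge e (t ^ e) := Ge.of_le (by rw [ord_zpow, ht1, mul_one])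
    exact h3.mul ((Ge.self y (D t)).pow i)
  have h3 := h2.mul_right h1
  refine h3.mono (le_of_eq ?_)
  rw [Finset.sum_add_distrib, Finset.sum_const, Finset.card_univ, Fintype.card_fin,
    ← Finset.sum_mul, Fin.sum_univ_eq_sum_range (fun i => ((i : ℕ) : ℤ)) (r + 1), nsmul_eq_mul]
  push_cast
  ring

end MldGeo
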