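import Pool.Agent.MldGeo.FRA
import Pool.Agent.MldGeo.LOGD
import Pool.Agent.MldGeo.TBAS
import Pool.Agent.MldGeo.COE
import Pool.Agent.MldGeo.FRM
import Pool.Agent.MldGeo.FSM
import Pool.Agent.MldGeo.FDL
import Pool.Agent.MldGeo.REG
import Pool.Agent.MldGeo.TXT
import Pool.Agent.MldGeo.DIV
import Pool.Agent.MldGeo.HT1
import Pool.Agent.MldGeo.LOC
import Pool.Agent.MldGeo.OLC
import Pool.Agent.MldGeo.SPL
import Pool.Agent.MldGeo.HLI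
import Pool.Agent.MldGeo.HFR
import Pool.Agent.MldGeo.HFK
import Pool.Agent.MldGeo.TRD
import Pool.Agent.MldGeo.TRB
import Pool.Agent.MldGeo.NHP
import Pool.Agent.MldGeo.GHO
import Pool.Agent.MldGeo.RED
import Pool.Agent.MldGeo.GAU
import Pool.Agent.MldGeo.RS1
import Pool.Agent.MldGeo.PRF
import Pool.Agent.MldGeo.AFF
import Pool.Agent.MldGeo.RIE
import Pool.Agent.MldGeo.SEC
import Pool.Agent.MldGeo.DLO
import Pool.Agent.MldGeo.CAN
import Pool.Agent.MldGeo.WRO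
import Pool.Agent.MldGeo.WRB
import Pool.Agent.MldGeo.DGK
import Pool.Agent.MldGeo.MWC
import Pool.Agent.MldGeo.MWP
import Pool.Agent.MldGeo.MNV
import Pool.Agent.MldGeo.TVC
import Pool.Agent.MldGeo.INT
import Pool.Agent.MldGeo.NRV
import Pool.Agent.MldGeo.NRR
import Pool.Agent.MldGeo.ATT
import Pool.Agent.MldGeo.K0C
import Pool.Agent.MldGeo.DER
import Pool.Agent.MldGeo.RSV
import Pool.Agent.MldGeo.TOX
import Pool.Agent.MldGeo.MNL
import Pool.Agent.MldGeo.LGO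
import Pool.Agent.MldGeo.RD1
import Pool.Agent.MldGeo.GEN
import Pool.Agent.MldGeo.NNG
import Pool.Agent.MldGeo.THR
import Pool.Agent.MldGeo.NOR
import Pool.Agent.MldGeo.PRO
import Pool.Agent.MldGeo.IDL
import Pool.Agent.MldGeo.HTV
import Pool.Agent.MldGeo.HTR
import Pool.Agent.MldGeo.CRS
import Pool.Agent.MldGeo.DAT
import Pool.Agent.MldGeo.BDR
import Pool.Agent.MldGeo.CMB
import Pool.Agent.MldGeo.DM1
import Pool.Agent.MldGeo.TAC

/-!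
# Assembly: the ascending chain condition for varieties with torus action of complexity one
-/

namespace MldGeo

theorem dat_of (hDEG : Stmt_DEG) : Stmt_DAT := by
  have hTBAS : Stmt_TBAS := t_TBAS
  have hFRA : Stmt_FRA := t_FRA
  have hLOGD : Stmt_LOGD := t_LOGD hFRA
  have hCOE : Stmt_COE := t_COE hFRA hLOGD hTBAS
  have hFRM : Stmt_FRM := t_FRM hFRA hTBAS hCOE
  have hFSM : Stmt_FSM := t_FSM hFRA hFRM
  have hFDL : Stmt_FDL := t_FDL hFRA hFRM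
  have hREG : Stmt_REG := t_REG hFRA hLOGD hTBAS hFRM
  have hTXT : Stmt_TXT := t_TXT hFRA hLOGD hTBAS hFRM
  have hDIV : Stmt_DIV := t_DIV
  have hHT1 : Stmt_HT1 := t_HT1
  have hLOC : Stmt_LOC := t_LOC hDIV
  have hOLC : Stmt_OLC := t_OLC
  have hSPL : Stmt_SPL := t_SPL
  have hHLI : Stmt_HLI := t_HLI
  have hHFR : Stmt_HFR := t_HFR
  have hHFK : Stmt_HFK := t_HFK hHLI hHFR
  have hTRD : Stmt_TRD := t_TRD hSPL hHFK
  have hTRB : Stmt_TRB := t_TRB hHFK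
  have hNHP : Stmt_NHP := t_NHP hHFR hHFK hTRD hTRB hTBAS hREG hFSM hOLC
  have hGHO : Stmt_GHO := t_GHO hHFR hOLC hDIV hLOC
  have hRED : Stmt_RED := t_RED hNHP hGHO hTRB hTBAS hFSM hTXT hDIV
  have hGAU : Stmt_GAU := t_GAU
  have hRS1 : Stmt_RS1 := t_RS1
  have hPRF : Stmt_PRF := t_PRF hDEG
  have hAFF : Stmt_AFF := t_AFF
  have hRIE : Stmt_RIE := t_RIE hRS1 hDEG hPRF hAFF
  have hSEC : Stmt_SEC := t_SEC hRS1 hPRF hRIE
  have hDLO : Stmt_DLO := t_DLO hRS1 hLOGD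
  have hCAN : Stmt_CAN := t_CAN hRS1 hPRF hAFF hDLO
  have hDGK : Stmt_DGK := t_DGK hPRF hRIE hDLO t_WRO t_WRB
  have hK0C : Stmt_K0C := t_K0C hSPL hHFK hTRD
  have hDER : Stmt_DER := t_DER hTBAS
  have hRSV : Stmt_RSV := t_RSV hK0C hPRF
  have hTOX : Stmt_TOX := t_TOX hHFK hK0C hGAU
  have hMNL : Stmt_MNL := t_MNL hFRM
  have hLGO : Stmt_LGO := t_LGO hMNL hTRB hTBAS hFSM hFDL hHFK
  have hRD1 : Stmt_RD1 := t_RD1 hRED hHFK hK0C hPRF hLGO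
  have hGEN : Stmt_GEN := t_GEN hHFR hHFK t_ATT
  have hNNG : Stmt_NNG := t_NNG hHFK
  have hTHR : Stmt_THR := t_THR hHFR hHFK
  have hNOR : Stmt_NOR := t_NOR hLOC hRSV hHFR hHFK
  have hPRO : Stmt_PRO := t_PRO hK0C hPRF hHFK
  have hIDL : Stmt_IDL := t_IDL hHFK
  have hHTV : Stmt_HTV := t_HTV hK0C hSEC hNOR hTHR hHT1 hHFK
  have hHTR : Stmt_HTR := t_HTR hK0C hSEC hRIE hNOR hTHR hHT1 hHFK
  intro m X
  exact t_DAT hSPL hK0C hDER hCAN hDGK hRD1 hGEN hIDL hPRF hPRO hNNG hTHR hRSV hTOX hHTV hHTR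

theorem cmb_of (hMNR : Stmt_MNR) : Stmt_CMB :=
  t_CMB (t_BDR (t_TVC t_MWC (t_MWP t_MWC) hMNR t_MNV) t_NRV t_NRR) t_INT

theorem tac_of (hDEG : Stmt_DEG) (hMNR : Stmt_MNR) : Stmt_TAC := by
  have hHFK : Stmt_HFK := t_HFK t_HLI t_HFR
  have hGEN : Stmt_GEN := t_GEN t_HFR hHFK t_ATT
  exact t_TAC t_SPL (t_TRD t_SPL hHFK) (t_CRS t_HFR t_ATT hGEN t_SPL) (dat_of hDEG)
    (cmb_of hMNR) (t_DM1 t_DIV t_UNI t_IDO)

end MldGeo
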