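import Pool.Agent.MldGeo.StmtsQ

/-!
# INVP: the log discrepancy function of the model is invariant
-/

namespace MldGeo

open MldGap MldAcc MldQ

noncomputable section

namespace INVP

/-! ### the dual map -/

section Dual

variable {n : ℕ} (φ : (Fin n → ℤ) →ₗ[ℤ] (Fin n → ℤ))

theorem dual_apply (y : Fin n → ℝ) (i : Fin n) : dual φ y i = form (φ (Pi.single i 1)) y := rfl

theorem form_add (u w : Fin n → ℤ) (y : Fin n → ℝ) : form (u + w) y = form u y + form w y := by
  simp only [TDC.form_apply, Pi.add_apply, Int.cast_add, add_mul, Finset.sum_add_distrib]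

theorem form_smul (k : ℤ) (u : Fin n → ℤ) (y : Fin n → ℝ) : form (k • u) y = k * form u y := by
  simp only [TDC.form_apply, Pi.smul_apply, smul_eq_mul, Int.cast_mul, Finset.mul_sum, mul_assoc]

theorem form_zero (y : Fin n → ℝ) : form (0 : Fin n → ℤ) y = 0 := by
  simp [TDC.form_apply]

theorem form_sum {ι : Type} (s : Finset ι) (f : ι → Fin n → ℤ) (y : Fin n → ℝ) :
    form (∑ i ∈ s, f i) y = ∑ i ∈ s, form (f i) y := by
  classical
  induction s using Finset.induction_on with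
  | empty => rw [Finset.sum_empty, Finset.sum_empty, form_zero]
  | insert a s ha ih => rw [Finset.sum_insert ha, Finset.sum_insert ha, form_add, ih]

theorem form_single (i : Fin n) (y : Fin n → ℝ) : form (Pi.single i 1) y = y i := by
  classical
  rw [TDC.form_apply, Finset.sum_eq_single i]
  · simp
  · intro j _ hj; simp [Pi.single_eq_of_ne hj]
  · intro h; exact absurd (Finset.mem_univ i) h

/-- `form u (dual φ y) = form (φ u) y` -/
theorem form_dual (u : Fin n → ℤ) (y : Fin n → ℝ) : form u (dual φ y) = form (φ u) y := by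
  classical
  have h1 : u = ∑ i, u i • (Pi.single i 1 : Fin n → ℤ) := by
    funext j
    rw [Finset.sum_apply]
    simp [Pi.single_apply]
  have h2 : φ u = ∑ i, u i • φ (Pi.single i 1) := by
    conv_lhs => rw [h1]
    rw [map_sum]
    exact Finset.sum_congr rfl fun i _ => map_zsmul φ _ _
  rw [h2, form_sum, TDC.form_apply]
  exact Finset.sum_congr rfl fun i _ => by rw [form_smul, dual_apply]

theorem form_dual_iter (j : ℕ) (u : Fin n → ℤ) (y : Fin n → ℝ) :
    form u ((dual φ)^[j] y) = form ((φ ^ j) u) y := by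
  induction j generalizing u y with
  | zero => rfl
  | succ j ih =>
    rw [Function.iterate_succ_apply, ih, form_dual, pow_succ']
    rfl

theorem dual_iter_eq {k : ℕ} (h : φ ^ k = 1) (y : Fin n → ℝ) : (dual φ)^[k] y = y := by
  funext i
  rw [← form_single i ((dual φ)^[k] y), form_dual_iter, h]
  exact form_single i y

theorem dual_toR (z : Fin n → ℤ) :
    dual φ (toR z) = toR (fun i => pair (φ (Pi.single i 1)) z) := by
  funext i
  rw [dual_apply, TDC.form_toR]
  rfl

end Dual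

/-! ### integral points of open cones -/

theorem exists_int {n : ℕ} {I : Set (Fin n → ℝ)} (hI : IsOpen I) (hne : I.Nonempty)
    (hs : ∀ (t : ℝ) (y : Fin n → ℝ), 0 < t → y ∈ I → t • y ∈ I) :
    ∃ z : Fin n → ℤ, toR z ∈ I ∧ ∀ i, toR (z + Pi.single i 1) ∈ I := by
  obtain ⟨y0, hy0⟩ := hne
  obtain ⟨ε, hε, hb⟩ := Metric.isOpen_iff.1 hI y0 hy0
  obtain ⟨N, hN⟩ := exists_nat_gt (2 / ε)
  have hN0 : (0 : ℝ) < N := lt_trans (div_pos two_pos hε) hN
  have hNe : 2 < N * ε := by rwa [div_lt_iff₀ hε] at hN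
  have key : ∀ w : Fin n → ℝ, (∀ j, |w j - N * y0 j| ≤ 2) → w ∈ I := by
    intro w hw
    have h1 : (N : ℝ)⁻¹ • w ∈ Metric.ball y0 ε := by
      rw [Metric.mem_ball, dist_pi_lt_iff hε]
      intro j
      rw [Real.dist_eq, Pi.smul_apply, smul_eq_mul]
      have h2 : (N : ℝ)⁻¹ * w j - y0 j = (N : ℝ)⁻¹ * (w j - N * y0 j) := by
        field_simp
      rw [h2, abs_mul, abs_of_pos (inv_pos.2 hN0), inv_mul_lt_iff₀ hN0]
      exact (hw j).trans_lt hNe
    have h3 := hs N _ hN0 (hb h1)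
    rwa [smul_smul, mul_inv_cancel₀ hN0.ne', one_smul] at h3
  refine ⟨fun j => ⌊(N : ℝ) * y0 j⌋, key _ fun j => ?_, fun i => key _ fun j => ?_⟩
  · change |((⌊(N : ℝ) * y0 j⌋ : ℤ) : ℝ) - N * y0 j| ≤ 2
    have h1 := Int.floor_le ((N : ℝ) * y0 j)
    have h2 := Int.lt_floor_add_one ((N : ℝ) * y0 j)
    rw [abs_le]; constructor <;> linarith
  · have h1 := Int.floor_le ((N : ℝ) * y0 j)
    have h2 := Int.lt_floor_add_one ((N : ℝ) * y0 j)
    have h3 : toR ((fun j => ⌊(N : ℝ) * y0 j⌋) + Pi.single i 1) j =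
        ((⌊(N : ℝ) * y0 j⌋ : ℤ) : ℝ) + (((Pi.single i 1 : Fin n → ℤ) j : ℤ) : ℝ) := by
      simp [toR]
    have h4 : (0 : ℝ) ≤ (((Pi.single i 1 : Fin n → ℤ) j : ℤ) : ℝ) ∧
        (((Pi.single i 1 : Fin n → ℤ) j : ℤ) : ℝ) ≤ 1 := by
      by_cases h : j = i
      · subst h; simp
      · rw [Pi.single_eq_of_ne h]; simp
    rw [h3, abs_le]
    constructor
    · linarith [h4.1]
    · linarith [h4.2]

/-- a linear function which vanishes on the integral points of an open cone vanishes -/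
theorem lin_zero {n : ℕ} {I : Set (Fin n → ℝ)} (hI : IsOpen I) (hne : I.Nonempty)
    (hs : ∀ (t : ℝ) (y : Fin n → ℝ), 0 < t → y ∈ I → t • y ∈ I) (D : (Fin n → ℝ) →ₗ[ℝ] ℝ)
    (hD : ∀ z : Fin n → ℤ, toR z ∈ I → D (toR z) = 0) (y : Fin n → ℝ) : D y = 0 := by
  classical
  obtain ⟨z, h1, h2⟩ := exists_int hI hne hs
  have h3 : ∀ i, D (Pi.single i 1) = 0 := by
    intro i
    have h4 := hD _ (h2 i)
    have h5 : toR (Pi.single i 1 : Fin n → ℤ) = (Pi.single i 1 : Fin n → ℝ) := by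
      funext j
      by_cases h : j = i
      · subst h; simp [toR]
      · simp [toR, Pi.single_eq_of_ne h]
    rw [TDC.toR_add, map_add, hD z h1, zero_add, h5] at h4
    exact h4
  have h4 : D = 0 := by
    apply LinearMap.pi_ext'
    intro i
    apply LinearMap.ext_ring
    simpa using h3 i
  rw [h4]; rfl

/-! ### conjugate valuations -/

/-- `v ∘ σ` -/
def comp {n : ℕ} {K : Type} [Field K] [Algebra ℂ K] (v : DivVal n K) (σ : K ≃ₐ[ℂ] K) :
    DivVal n K where
  ord a := v.ord (σ a)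
  ord_zero := by rw [map_zero]; exact v.ord_zero
  ord_mul a b ha hb := by
    rw [map_mul]
    exact v.ord_mul _ _ (by simpa using ha) (by simpa using hb)
  ord_add a b ha hb hab := by
    rw [map_add]
    exact v.ord_add _ _ (by simpa using ha) (by simpa using hb) (fun h => hab
      ((map_eq_zero_iff σ σ.injective).1 (by rw [map_add]; exact h)))
  ord_const c := by rw [AlgEquiv.commutes]; exact v.ord_const c
  unif := by
    obtain ⟨t, ht, h1⟩ := v.unif
    exact ⟨σ.symm t, by simpa using ht, by rw [AlgEquiv.apply_symm_apply]; exact h1⟩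
  res := by
    obtain ⟨u, hu⟩ := v.res
    refine ⟨fun j => σ.symm (u j), fun p hp => ?_⟩
    obtain ⟨h1, h2⟩ := hu p hp
    have h3 : σ (MvPolynomial.aeval (fun j => σ.symm (u j)) p) = MvPolynomial.aeval u p := by
      have h5 : (σ : K ≃ₐ[ℂ] K) (MvPolynomial.aeval (fun j => σ.symm (u j)) p) =
          MvPolynomial.aeval (fun j => σ (σ.symm (u j))) p := by
        have := (MvPolynomial.comp_aeval_apply (fun j => σ.symm (u j)) (σ : K →ₐ[ℂ] K) p)
        exact this
      rw [h5]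
      simp only [AlgEquiv.apply_symm_apply]
    refine ⟨fun h => h1 ?_, ?_⟩
    · rw [← h3, h, map_zero]
    · rw [h3]; exact h2

theorem comp_ord {n : ℕ} {K : Type} [Field K] [Algebra ℂ K] (v : DivVal n K) (σ : K ≃ₐ[ℂ] K)
    (a : K) : (comp v σ).ord a = v.ord (σ a) := rfl

theorem through_comp {n : ℕ} {X Y : Germ n} {G : Subgroup (X.K ≃ₐ[ℂ] X.K)} {π : Y.K →ₐ[ℂ] X.K}
    (hQ : IsQuot X Y G π) {σ : X.K ≃ₐ[ℂ] X.K} (hσ : σ ∈ G) {v : DivVal n X.K}
    (hv : X.Through v) : X.Through (comp v σ) := by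
  refine ⟨fun a => hv.1 ⟨σ a, hQ.map_R σ hσ a a.2⟩, fun a ha => ?_⟩
  refine hv.2 ⟨σ a, hQ.map_R σ hσ a a.2⟩ fun h => ha ?_
  refine hQ.map_m σ⁻¹ (G.inv_mem hσ) ⟨σ a, hQ.map_R σ hσ a a.2⟩ a ?_ h
  change (a : X.K) = σ.symm (σ a)
  rw [AlgEquiv.symm_apply_apply]

theorem over_comp {n : ℕ} {X Y : Germ n} {G : Subgroup (X.K ≃ₐ[ℂ] X.K)} {π : Y.K →ₐ[ℂ] X.K}
    (hQ : IsQuot X Y G π) {σ : X.K ≃ₐ[ℂ] X.K} (hσ : σ ∈ G) {v : DivVal n X.K}
    {v0 : DivVal n Y.K} {e : ℕ} (h : Over π v v0 e) : Over π (comp v σ) v0 e := by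
  refine ⟨h.1, fun b => ?_⟩
  rw [comp_ord, (hQ.inv (π b)).1 ⟨b, rfl⟩ σ hσ]
  exact h.2 b

end INVP

open INVP in
/-- INVP -/
theorem t_INVP (hQGAL : Stmt_QGAL) (hPUL : Stmt_QPUL) (hGAV : Stmt_GAV) (hTRAY : Stmt_TRAY)
    (hFDL : Stmt_FDL) (hTBAS : Stmt_TBAS) : Stmt_INVP := by
  intro n X Y G π T T' hn hQ hC χ S hTC σ hσ φ c k hM hS M hMod
  have hχ : TorusField χ := hTC.toTorusField
  -- the open cone
  let I : Set (Fin n → ℝ) := {y | ∀ u ∈ S, u ≠ 0 → 0 < form u y}
  have hI : interior (coneOf M.ray) = I := hMod.int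
  have hIo : IsOpen I := by rw [← hI]; exact isOpen_interior
  have hIn : I.Nonempty := by rw [← hI]; exact M.full
  have hIs : ∀ (t : ℝ) (y : Fin n → ℝ), 0 < t → y ∈ I → t • y ∈ I := by
    intro t y ht hy u hu hu0
    rw [map_smul, smul_eq_mul]
    exact mul_pos ht (hy u hu hu0)
  -- `φ` is injective
  have hφ0 : ∀ u, φ u = 0 → u = 0 := by
    intro u hu
    obtain ⟨l, hl⟩ : ∃ l, k = l + 1 := ⟨k - 1, by have := hM.pos; omega⟩
    have h1 : (φ ^ k) u = u := by rw [hM.iter]; rfl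
    rw [hl, pow_succ] at h1
    rw [← h1]
    change (φ ^ l) (φ u) = 0
    rw [hu, map_zero]
  have hIφ : ∀ y ∈ I, dual φ y ∈ I := by
    intro y hy u hu hu0
    rw [form_dual]
    exact hy _ ((hS u).1 hu) fun h => hu0 (hφ0 u h)
  -- the inequality for primitive vectors
  have prim : ∀ z : Fin n → ℤ, (∃ u, pair u z = 1) → toR z ∈ I →
      M.ψ (dual φ (toR z)) ≤ M.ψ (toR z) := by
    intro z hz hzI
    obtain ⟨v, hv⟩ := hGAV χ hχ X.trdeg z hz
    have hS0 : ∀ u ∈ S, 0 ≤ pair u z := by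
      intro u hu
      by_cases hu0 : u = 0
      · rw [hu0, TDC.pair_zero_left]
      · have := hzI u hu hu0
        rw [TDC.form_toR] at this
        exact_mod_cast this.le
    have hT := (hTRAY X χ S hn hTC z v hv hS0).1
    have hT' := through_comp hQ hσ hT
    obtain ⟨v0, e, ho⟩ := (hQGAL X Y G π hn hQ).1 v
    have ho' := over_comp hQ hσ ho
    have l1 := hPUL X Y G π T T' hn hQ hC v v0 e hT ho
    have l2 := hPUL X Y G π T T' hn hQ hC _ v0 e hT' ho'
    have p1 := hMod.psi v hT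
    have p2 := hMod.psi _ hT'
    rw [hv.form, TDC.ordVec_gauss hv, Int.cast_zero, zero_add] at p1
    have hne : torForm χ ≠ 0 := TDC.torForm_ne hTBAS hχ X.trdeg
    have hF : 0 ≤ (comp v σ).logOrd (torForm χ) :=
      hFDL X.trdeg (comp v σ) _ hn (fun i => TDC.chi_ne hχ _) hne
    have hO : toR (ordVec χ (comp v σ)) = dual φ (toR z) := by
      rw [dual_toR]
      congr 1
      funext i
      change v.ord (σ (χ (Pi.single i 1))) = _
      rw [hM.eq, DivVal.ord_const_mul _ (hM.ne _), hv.chi]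
    rw [hO] at p2
    have hF' : (0 : ℝ) ≤ ((comp v σ).logOrd (torForm χ) : ℝ) := by exact_mod_cast hF
    linarith
  -- the inequality for all integral vectors
  have ineq : ∀ z : Fin n → ℤ, toR z ∈ I → M.ψ (dual φ (toR z)) ≤ M.ψ (toR z) := by
    intro z hzI
    by_cases hz : z = 0
    · subst hz
      rw [TDC.toR_zero, map_zero, map_zero]
    · obtain ⟨l, z0, hl, rfl, hu⟩ := TDC.exists_primitive z hz
      have hl0 : (0 : ℝ) < l := by exact_mod_cast (by omega : (0 : ℤ) < l)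
      have h0 : toR z0 ∈ I := by
        have h1 := hIs (l : ℝ)⁻¹ _ (inv_pos.2 hl0) hzI
        rwa [TDC.toR_smul, smul_smul, inv_mul_cancel₀ hl0.ne', one_smul] at h1
      have h1 := prim z0 hu h0
      rw [TDC.toR_smul, map_smul, map_smul, map_smul, smul_eq_mul, smul_eq_mul]
      exact mul_le_mul_of_nonneg_left h1 hl0.le
  -- equality
  have eq : ∀ z : Fin n → ℤ, toR z ∈ I → M.ψ (dual φ (toR z)) = M.ψ (toR z) := by
    intro z hzI
    have it : ∀ j : ℕ, ∃ w : Fin n → ℤ, (dual φ)^[j] (toR z) = toR w ∧ toR w ∈ I := by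
      intro j
      induction j with
      | zero => exact ⟨z, rfl, hzI⟩
      | succ j ih =>
        obtain ⟨w, h1, h2⟩ := ih
        refine ⟨fun i => pair (φ (Pi.single i 1)) w, ?_, ?_⟩
        · rw [Function.iterate_succ_apply', h1, dual_toR]
        · rw [← dual_toR]; exact hIφ _ h2
    have mono : ∀ j : ℕ, M.ψ ((dual φ)^[j + 1] (toR z)) ≤ M.ψ (dual φ (toR z)) := by
      intro j
      induction j with
      | zero => exact le_rfl
      | succ j ih =>
        refine le_trans ?_ ih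
        obtain ⟨w, h1, h2⟩ := it (j + 1)
        rw [Function.iterate_succ_apply', h1]
        exact ineq w h2
    obtain ⟨l, hl⟩ : ∃ l, k = l + 1 := ⟨k - 1, by have := hM.pos; omega⟩
    have h1 := mono l
    rw [← hl, dual_iter_eq φ hM.iter] at h1
    exact le_antisymm (ineq z hzI) h1
  intro y
  have h := lin_zero hIo hIn hIs (M.ψ ∘ₗ dual φ - M.ψ) (fun z hz => by
    rw [LinearMap.sub_apply, LinearMap.comp_apply, eq z hz, sub_self]) y
  rw [LinearMap.sub_apply, LinearMap.comp_apply] at h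
  linarith

end

end MldGeo
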