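import Pool.Agent.MldGeo.StmtsQ

/-!
# Module LAU: Laurent series
-/

namespace MldGeo

namespace LAU

noncomputable section

open HahnSeries

attribute [-instance] HahnSeries.powerSeriesAlgebra

variable {F : Type} [Field F] [Algebra ℂ F]

section Basic

omit [Algebra ℂ F]

/-- Apply functions to the coefficients. -/
def cf (f : ℤ → F → F) (hf : ∀ k, f k 0 = 0) (x : HahnSeries ℤ F) : HahnSeries ℤ F where
  coeff k := f k (x.coeff k)
  isPWO_support' := x.isPWO_support.mono (by
    intro k hk h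
    apply hk
    change f k (x.coeff k) = 0
    rw [h, hf])

theorem coeff_cf (f : ℤ → F → F) (hf : ∀ k, f k 0 = 0) (x : HahnSeries ℤ F) (k : ℤ) :
    (cf f hf x).coeff k = f k (x.coeff k) := rfl

theorem cf_supp (f : ℤ → F → F) (hf : ∀ k, f k 0 = 0) (x : HahnSeries ℤ F) :
    (cf f hf x).support ⊆ x.support := by
  intro k hk h
  apply hk
  change f k (x.coeff k) = 0
  rw [h, hf]

theorem cf_ord (f : ℤ → F → F) (hf : ∀ k, f k 0 = 0) (x : HahnSeries ℤ F) :
    cf f hf x = 0 ∨ x.order ≤ (cf f hf x).order := by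
  by_cases h : cf f hf x = 0
  · exact Or.inl h
  · right
    have h1 : (cf f hf x).coeff (cf f hf x).order ≠ 0 := fun h2 => h (coeff_order_eq_zero.1 h2)
    exact order_le_of_coeff_ne_zero (cf_supp f hf x h1)

theorem cf_single (f : ℤ → F → F) (hf : ∀ k, f k 0 = 0) (k : ℤ) (a : F) :
    cf f hf (single k a) = single k (f k a) := by
  ext j
  rw [coeff_cf, coeff_single, coeff_single]
  by_cases h : j = k
  · rw [if_pos h, if_pos h, h]
  · rw [if_neg h, if_neg h, hf]

theorem coeff_mul2 {x y : HahnSeries ℤ F} {s t : Set ℤ} (hs : s.IsPWO) (ht : t.IsPWO)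
    (hx : x.support ⊆ s) (hy : y.support ⊆ t) (k : ℤ) :
    (x * y).coeff k = ∑ ij ∈ Finset.antidiagonal hs ht k, x.coeff ij.1 * y.coeff ij.2 := by
  rw [coeff_mul]
  apply Finset.sum_subset
  · intro ij hij
    rw [Finset.mem_antidiagonal] at hij ⊢
    exact ⟨hx hij.1, hy hij.2.1, hij.2.2⟩
  · intro ij hij hn
    rw [Finset.mem_antidiagonal] at hij hn
    by_cases h1 : x.coeff ij.1 = 0
    · rw [h1, zero_mul]
    · by_cases h2 : y.coeff ij.2 = 0
      · rw [h2, mul_zero]
      · exact absurd ⟨h1, h2, hij.2.2⟩ hn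

theorem single_zpow (k : ℤ) : (single 1 (1 : F) : HahnSeries ℤ F) ^ k = single k 1 := by
  obtain ⟨n, rfl | rfl⟩ := k.eq_nat_or_neg
  · rw [zpow_natCast, single_pow, one_pow]
    congr 1
    simp
  · rw [zpow_neg, zpow_natCast, single_pow, one_pow, inv_single, inv_one]
    congr 2
    simp

theorem ge_of_coeff {x : HahnSeries ℤ F} {k : ℤ} (h : ∀ j < k, x.coeff j = 0) :
    x = 0 ∨ k ≤ x.order := by
  by_cases hx : x = 0
  · exact Or.inl hx
  · right
    by_contra hlt
    exact hx (coeff_order_eq_zero.1 (h _ (not_le.1 hlt)))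

theorem coeff_of_ge {x : HahnSeries ℤ F} {k : ℤ} (h : x = 0 ∨ k ≤ x.order) {j : ℤ} (hj : j < k) :
    x.coeff j = 0 := by
  rcases h with rfl | h
  · rfl
  · exact coeff_eq_zero_of_lt_order (lt_of_lt_of_le hj h)

theorem complete (x : ℕ → HahnSeries ℤ F)
    (hx : ∀ k, x (k + 1) - x k = 0 ∨ (k : ℤ) ≤ (x (k + 1) - x k).order) :
    ∃ y : HahnSeries ℤ F, ∀ k, y - x k = 0 ∨ (k : ℤ) ≤ (y - x k).order := by
  have h1 : ∀ (j : ℤ) (k m : ℕ), j < k → (x (k + m)).coeff j = (x k).coeff j := by
    intro j k m hj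
    induction m with
    | zero => rfl
    | succ m ih =>
      have h2 := coeff_of_ge (hx (k + m)) (j := j) (by push_cast; omega)
      rw [coeff_sub, sub_eq_zero] at h2
      rw [← ih, ← h2]
      rfl
  obtain ⟨f, hf⟩ : ∃ f : ℤ → F, ∀ j, f j = (x (j + 1).toNat).coeff j := ⟨_, fun _ => rfl⟩
  have hb : BddBelow (Function.support f) := by
    refine ⟨min 0 (x 0).order, ?_⟩
    intro j hj
    rcases le_or_gt 0 j with h | h
    · exact (min_le_left _ _).trans h
    · apply (min_le_right _ _).trans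
      apply order_le_of_coeff_ne_zero
      rw [Function.mem_support, hf, Int.toNat_of_nonpos (by omega)] at hj
      exact hj
  refine ⟨ofSuppBddBelow f hb, fun k => ge_of_coeff fun j hj => ?_⟩
  rw [coeff_sub, coeff_ofSuppBddBelow, sub_eq_zero, hf]
  obtain ⟨m, hm⟩ : ∃ m, k = (j + 1).toNat + m := ⟨k - (j + 1).toNat, by omega⟩
  rw [hm, h1 j _ m (by omega)]

theorem lead (x : HahnSeries ℤ F) (hx : x ≠ 0) : ∃ a : F, a ≠ 0 ∧
    (x - C a * (single 1 (1 : F) : HahnSeries ℤ F) ^ x.order = 0 ∨
      x.order < (x - C a * (single 1 (1 : F) : HahnSeries ℤ F) ^ x.order).order) := by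
  refine ⟨x.coeff x.order, fun h => hx (coeff_order_eq_zero.1 h), ?_⟩
  rw [single_zpow, C_apply, single_mul_single, zero_add, mul_one]
  have h1 := ge_of_coeff (x := x - single x.order (x.coeff x.order)) (k := x.order + 1) (by
    intro j hj
    rw [coeff_sub, coeff_single]
    split_ifs with h
    · rw [h, sub_self]
    · rw [sub_zero]
      exact coeff_eq_zero_of_lt_order (by omega))
  rcases h1 with h1 | h1
  · exact Or.inl h1
  · right
    omega

end Basic

/-- The automorphism `s ↦ ζ s`. -/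
def rot (ζ : ℂˣ) : HahnSeries ℤ F →ₐ[ℂ] HahnSeries ℤ F where
  toFun := cf (fun k a => algebraMap ℂ F ((ζ ^ k : ℂˣ) : ℂ) * a) (fun k => mul_zero _)
  map_one' := by
    rw [← single_zero_one, cf_single, zpow_zero, Units.val_one, map_one, mul_one]
  map_mul' x y := by
    ext k
    rw [coeff_cf, coeff_mul, coeff_mul2 x.isPWO_support y.isPWO_support (cf_supp _ _ x)
      (cf_supp _ _ y), Finset.mul_sum]
    refine Finset.sum_congr rfl fun ij hij => ?_
    rw [Finset.mem_antidiagonal] at hij
    rw [coeff_cf, coeff_cf, ← hij.2.2, zpow_add, Units.val_mul, map_mul]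
    ring
  map_zero' := by
    ext k
    rw [coeff_cf, coeff_zero, mul_zero]
  map_add' x y := by
    ext k
    rw [coeff_cf, coeff_add, coeff_add, coeff_cf, coeff_cf, mul_add]
  commutes' c := by
    rw [HahnSeries.algebraMap_apply, C_apply]
    rw [cf_single, zpow_zero, Units.val_one, map_one, one_mul]

theorem rot_apply (ζ : ℂˣ) (x : HahnSeries ℤ F) :
    rot ζ x = cf (fun k a => algebraMap ℂ F ((ζ ^ k : ℂˣ) : ℂ) * a) (fun k => mul_zero _) x := rfl

theorem rot_ord (ζ : ℂˣ) (x : HahnSeries ℤ F) : (rot ζ x).order = x.order := by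
  by_cases hx : x = 0
  · rw [hx, map_zero]
  · have h1 : (rot ζ x).coeff x.order ≠ 0 := by
      rw [rot_apply, coeff_cf]
      apply mul_ne_zero
      · rw [Ne, map_eq_zero]
        exact (ζ ^ x.order : ℂˣ).ne_zero
      · exact fun h => hx (coeff_order_eq_zero.1 h)
    apply le_antisymm
    · exact order_le_of_coeff_ne_zero h1
    · rcases cf_ord (fun k a => algebraMap ℂ F ((ζ ^ k : ℂˣ) : ℂ) * a)
        (fun k => mul_zero _) x with h2 | h2
      · rw [rot_apply, h2] at h1
        exact absurd rfl h1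
      · exact h2

theorem rot_single (ζ : ℂˣ) (k : ℤ) (a : F) :
    rot ζ (single k a) = single k (algebraMap ℂ F ((ζ ^ k : ℂˣ) : ℂ) * a) :=
  cf_single (fun k a => algebraMap ℂ F ((ζ ^ k : ℂˣ) : ℂ) * a) (fun k => mul_zero _) _ _

theorem der_mul (f : ℤ → F →ₗ[ℂ] F)
    (hf : ∀ i j a b, f (i + j) (a * b) = a * f j b + b * f i a) (x y : HahnSeries ℤ F) :
    cf (fun k => f k) (fun k => map_zero (f k)) (x * y) =
      x • cf (fun k => f k) (fun k => map_zero (f k)) y +
        y • cf (fun k => f k) (fun k => map_zero (f k)) x := by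
  ext k
  rw [smul_eq_mul, smul_eq_mul, mul_comm y, coeff_add, coeff_cf, coeff_mul,
    coeff_mul2 x.isPWO_support y.isPWO_support (subset_refl _)
    (cf_supp _ _ y), coeff_mul2 x.isPWO_support y.isPWO_support (cf_supp _ _ x)
    (subset_refl _), map_sum, ← Finset.sum_add_distrib]
  refine Finset.sum_congr rfl fun ij hij => ?_
  rw [Finset.mem_antidiagonal] at hij
  rw [coeff_cf, coeff_cf, ← hij.2.2, hf, mul_comm (y.coeff ij.2)]

/-- Derivations which act on the coefficients. -/
def der (f : ℤ → F →ₗ[ℂ] F) (hf : ∀ i j a b, f (i + j) (a * b) = a * f j b + b * f i a) :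
    Derivation ℂ (HahnSeries ℤ F) (HahnSeries ℤ F) :=
  Derivation.mk'
    { toFun := cf (fun k => f k) (fun k => map_zero (f k))
      map_add' := by
        intro x y
        ext k
        rw [coeff_cf, coeff_add, coeff_add, coeff_cf, coeff_cf, map_add]
      map_smul' := by
        intro c x
        ext k
        rw [coeff_cf, coeff_smul, RingHom.id_apply, coeff_smul, coeff_cf, map_smul] }
    (der_mul f hf)

theorem der_single (f : ℤ → F →ₗ[ℂ] F)
    (hf : ∀ i j a b, f (i + j) (a * b) = a * f j b + b * f i a) (k : ℤ) (a : F) :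
    der f hf (single k a) = single k (f k a) :=
  cf_single (fun k => f k) (fun k => map_zero (f k)) _ _

theorem der_ord (f : ℤ → F →ₗ[ℂ] F)
    (hf : ∀ i j a b, f (i + j) (a * b) = a * f j b + b * f i a) (x : HahnSeries ℤ F) :
    der f hf x = 0 ∨ x.order ≤ (der f hf x).order :=
  cf_ord (fun k => f k) (fun k => map_zero (f k)) x

/-- The constants. -/
def emb : F →ₐ[ℂ] HahnSeries ℤ F :=
  { (C : F →+* HahnSeries ℤ F) with commutes' := fun _ => rfl }

theorem emb_apply (a : F) : (emb a : HahnSeries ℤ F) = single 0 a := rfl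

theorem th_mul (i j : ℤ) (a b : F) : ((fun k : ℤ => (k : ℂ) • (LinearMap.id : F →ₗ[ℂ] F)) (i + j))
    (a * b) = a * ((fun k : ℤ => (k : ℂ) • (LinearMap.id : F →ₗ[ℂ] F)) j) b +
      b * ((fun k : ℤ => (k : ℂ) • (LinearMap.id : F →ₗ[ℂ] F)) i) a := by
  change ((i + j : ℤ) : ℂ) • (a * b) = a * ((j : ℂ) • b) + b * ((i : ℂ) • a)
  rw [Algebra.smul_def, Algebra.smul_def, Algebra.smul_def, map_intCast, map_intCast,
    map_intCast]
  push_cast
  ring

/-- The field of Laurent series. -/
def lf (F : Type) [Field F] [Algebra ℂ F] : LField F where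
  L := HahnSeries ℤ F
  fieldL := inferInstance
  algL := inferInstance
  emb := emb
  ord := fun x => x.order
  ord_zero := order_zero
  s := single 1 1
  s_ne := single_ne_zero one_ne_zero
  ord_s := order_single one_ne_zero
  ord_mul := fun x y hx hy => order_mul hx hy
  ord_add := fun x y _ _ h => min_order_le_order_add h
  ord_emb := fun a _ => order_C
  lead := fun x hx => lead x hx
  complete := complete
  rot := rot
  rot_emb := by
    intro ζ a
    rw [emb_apply, rot_single, zpow_zero, Units.val_one, map_one, one_mul]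
  rot_s := by
    intro ζ
    have h : algebraMap ℂ (HahnSeries ℤ F) ζ = single 0 (algebraMap ℂ F ζ) := rfl
    rw [h, rot_single, single_mul_single, zero_add, zpow_one]
  rot_ord := rot_ord
  θ := der (fun k => (k : ℂ) • LinearMap.id) th_mul
  θ_emb := by
    intro a
    rw [emb_apply, der_single, LinearMap.smul_apply, Int.cast_zero, zero_smul, single_eq_zero]
  θ_s := by
    rw [der_single, LinearMap.smul_apply, Int.cast_one, one_smul, LinearMap.id_apply]
  θ_ord := der_ord _ th_mul
  D := fun d => der (fun _ => d.toLinearMap) (fun _ _ a b => d.leibniz a b)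
  D_emb := by
    intro d a
    rw [emb_apply, emb_apply, der_single]
    rfl
  D_s := by
    intro d
    rw [der_single]
    have h : d.toLinearMap 1 = 0 := d.map_one_eq_zero
    rw [h, single_eq_zero]
  D_ord := fun d => der_ord _ (fun _ _ a b => d.leibniz a b)

end

end LAU

/-- LAU. -/
theorem t_LAU : Stmt_LAU := fun F _ _ => ⟨LAU.lf F⟩

end MldGeo
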