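import Pool.Agent.MldGeo.StmtsQ
import Pool.Agent.MldGeo.Ord

/-!
# LGB: the order of the invariant form
-/

namespace MldGeo

open MldGap MldAcc MldQ

noncomputable section

namespace LGB

variable {n : ℕ} (Q : Setup n)

/-- The index set of the derivations. -/
abbrev Idx : Type := (Unit ⊕ Fin Q.p) ⊕ Fin Q.q

/-- The derivations `θ`, `D(∂/∂t_j)`, `D(∂/∂z_i)`. -/
def del : Idx Q → Derivation ℂ Q.Λ.L Q.Λ.L
  | Sum.inl (Sum.inl _) => Q.Λ.θ
  | Sum.inl (Sum.inr j) => Q.Λ.D (Q.d (Sum.inl j))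
  | Sum.inr i => Q.Λ.D (Q.d (Sum.inr i))

theorem del_ge (a : Idx Q) (x : Q.Λ.L) : Q.Λ.val.Ge (Q.Λ.val.ord x) (del Q a x) := by
  rcases a with (a | j) | i
  · exact Q.Λ.θ_ord x
  · exact Q.Λ.D_ord _ x
  · exact Q.Λ.D_ord _ x

/-- The vectors. -/
def vec : Idx Q → Fin n → ℂ :=
  Sum.elim (Sum.elim (fun _ : Unit => toC Q.U) fun j => toC (Q.ν j)) Q.ε

/-- The diagonal. -/
def dg : Unit ⊕ Fin Q.p → Q.Λ.L := Sum.elim (fun _ => 1) fun j => Q.Λ.emb (Q.x (Sum.inl j))⁻¹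

/-- The matrix of the derivations of the characters in terms of the vectors. -/
def R : Matrix (Idx Q) (Idx Q) Q.Λ.L :=
  Matrix.fromBlocks (Matrix.diagonal (dg Q))
    (Matrix.of (Sum.elim (fun _ i => (Q.a i : Q.Λ.L) *
      (Q.Λ.emb (Q.x (Sum.inr i)) * Q.Λ.s ^ Q.a i)) fun _ _ => 0)) 0
    (Matrix.diagonal fun i => Q.Λ.s ^ Q.a i)

theorem cpair_toC (m y : Fin n → ℤ) : cpair m (toC y) = ((pair m y : ℤ) : ℂ) := by
  unfold cpair toC pair
  push_cast
  rfl

theorem cpair_single (b : Fin n) (y : Fin n → ℂ) : cpair (Pi.single b 1) y = y b := by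
  classical
  unfold cpair
  rw [Finset.sum_eq_single b (fun j _ hj => by simp [Pi.single_eq_of_ne hj])
    (fun h => absurd (Finset.mem_univ b) h)]
  simp

theorem del_E (hCH1 : Stmt_CH1) (a : Idx Q) (m : Fin n → ℤ) :
    del Q a (Q.E m) =
      (∑ c, R Q a c * algebraMap ℂ Q.Λ.L (cpair m (vec Q c))) * Q.E m := by
  obtain ⟨_, _, _, _, h5, h6, h7⟩ := hCH1 Q
  rw [Fintype.sum_sum_type, Fintype.sum_sum_type]
  rcases a with (a | j) | i
  · change Q.Λ.θ (Q.E m) = _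
    rw [h5]
    congr 1
    have h8 : cpair m (vec Q (Sum.inl (Sum.inl ()))) = ((pair m Q.U : ℤ) : ℂ) := cpair_toC m Q.U
    have h9 : (∑ j : Fin Q.p, R Q (Sum.inl (Sum.inl a)) (Sum.inl (Sum.inr j)) *
        algebraMap ℂ Q.Λ.L (cpair m (vec Q (Sum.inl (Sum.inr j))))) = 0 := by
      refine Finset.sum_eq_zero fun j _ => ?_
      have h10 : R Q (Sum.inl (Sum.inl a)) (Sum.inl (Sum.inr j)) = 0 := by
        unfold R
        rw [Matrix.fromBlocks_apply₁₁, Matrix.diagonal_apply_ne _ (by simp)]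
      rw [h10, zero_mul]
    have h10 : (∑ a₁ : Unit, R Q (Sum.inl (Sum.inl a)) (Sum.inl (Sum.inl a₁)) *
        algebraMap ℂ Q.Λ.L (cpair m (vec Q (Sum.inl (Sum.inl a₁))))) = ((pair m Q.U : ℤ) : Q.Λ.L) := by
      have h11 : R Q (Sum.inl (Sum.inl a)) (Sum.inl (Sum.inl ())) = 1 := by
        unfold R
        rw [Matrix.fromBlocks_apply₁₁, Matrix.diagonal_apply_eq]
        rfl
      rw [Fintype.sum_unique]
      change R Q (Sum.inl (Sum.inl a)) (Sum.inl (Sum.inl ())) *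
        algebraMap ℂ Q.Λ.L (cpair m (vec Q (Sum.inl (Sum.inl ())))) = _
      rw [h11, h8, one_mul, map_intCast]
    rw [h9, h10, add_zero]
    congr 1
    · refine Finset.sum_congr rfl fun i _ => ?_
      change _ = (Q.a i : Q.Λ.L) * (Q.Λ.emb (Q.x (Sum.inr i)) * Q.Λ.s ^ Q.a i) *
        algebraMap ℂ Q.Λ.L (cpair m (Q.ε i))
      ring
  · change Q.Λ.D (Q.d (Sum.inl j)) (Q.E m) = _
    rw [h6]
    congr 1
    have h9 : (∑ i : Fin Q.q, R Q (Sum.inl (Sum.inr j)) (Sum.inr i) *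
        algebraMap ℂ Q.Λ.L (cpair m (vec Q (Sum.inr i)))) = 0 := by
      refine Finset.sum_eq_zero fun i _ => ?_
      have h10 : R Q (Sum.inl (Sum.inr j)) (Sum.inr i) = 0 := rfl
      rw [h10, zero_mul]
    have h10 : (∑ a : Unit, R Q (Sum.inl (Sum.inr j)) (Sum.inl (Sum.inl a)) *
        algebraMap ℂ Q.Λ.L (cpair m (vec Q (Sum.inl (Sum.inl a))))) = 0 := by
      refine Finset.sum_eq_zero fun a _ => ?_
      have h11 : R Q (Sum.inl (Sum.inr j)) (Sum.inl (Sum.inl a)) = 0 := by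
        unfold R
        rw [Matrix.fromBlocks_apply₁₁, Matrix.diagonal_apply_ne _ (by simp)]
      rw [h11, zero_mul]
    rw [h9, h10, add_zero, zero_add, Finset.sum_eq_single j]
    · have h11 : R Q (Sum.inl (Sum.inr j)) (Sum.inl (Sum.inr j)) =
          Q.Λ.emb (Q.x (Sum.inl j))⁻¹ := by
        unfold R
        rw [Matrix.fromBlocks_apply₁₁, Matrix.diagonal_apply_eq]
        rfl
      have h12 : cpair m (vec Q (Sum.inl (Sum.inr j))) = ((pair m (Q.ν j) : ℤ) : ℂ) :=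
        cpair_toC m (Q.ν j)
      rw [h11, h12, map_intCast, mul_comm]
    · intro j' _ hj'
      have h11 : R Q (Sum.inl (Sum.inr j)) (Sum.inl (Sum.inr j')) = 0 := by
        unfold R
        rw [Matrix.fromBlocks_apply₁₁, Matrix.diagonal_apply_ne _ (by simpa using hj'.symm)]
      rw [h11, zero_mul]
    · exact fun h => absurd (Finset.mem_univ j) h
  · change Q.Λ.D (Q.d (Sum.inr i)) (Q.E m) = _
    rw [h7]
    congr 1
    have h9 : (∑ a : Unit, R Q (Sum.inr i) (Sum.inl (Sum.inl a)) *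
        algebraMap ℂ Q.Λ.L (cpair m (vec Q (Sum.inl (Sum.inl a))))) = 0 := by
      refine Finset.sum_eq_zero fun a _ => ?_
      have h10 : R Q (Sum.inr i) (Sum.inl (Sum.inl a)) = 0 := rfl
      rw [h10, zero_mul]
    have h10 : (∑ j : Fin Q.p, R Q (Sum.inr i) (Sum.inl (Sum.inr j)) *
        algebraMap ℂ Q.Λ.L (cpair m (vec Q (Sum.inl (Sum.inr j))))) = 0 := by
      refine Finset.sum_eq_zero fun j _ => ?_
      have h11 : R Q (Sum.inr i) (Sum.inl (Sum.inr j)) = 0 := rfl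
      rw [h11, zero_mul]
    rw [h9, h10, add_zero, zero_add, Finset.sum_eq_single i]
    · have h11 : R Q (Sum.inr i) (Sum.inr i) = Q.Λ.s ^ Q.a i := by
        unfold R
        rw [Matrix.fromBlocks_apply₂₂, Matrix.diagonal_apply_eq]
      rw [h11, mul_comm]
      rfl
    · intro i' _ hi'
      have h11 : R Q (Sum.inr i) (Sum.inr i') = 0 := by
        unfold R
        rw [Matrix.fromBlocks_apply₂₂, Matrix.diagonal_apply_ne _ hi'.symm]
      rw [h11, zero_mul]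
    · exact fun h => absurd (Finset.mem_univ i) h

theorem det_R : (R Q).det = (∏ j, Q.Λ.emb (Q.x (Sum.inl j))⁻¹) * ∏ i, Q.Λ.s ^ Q.a i := by
  unfold R
  rw [Matrix.det_fromBlocks_zero₂₁, Matrix.det_diagonal, Matrix.det_diagonal,
    Fintype.prod_sum_type]
  simp [dg]

theorem x_ne (j : Fin Q.p ⊕ Fin Q.q) : Q.x j ≠ 0 := Q.x_ind.ne_zero j

theorem det_R_ne : (R Q).det ≠ 0 := by
  rw [det_R]
  refine mul_ne_zero (Finset.prod_ne_zero_iff.2 fun j _ => ?_)
    (Finset.prod_ne_zero_iff.2 fun i _ => pow_ne_zero _ Q.Λ.s_ne)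
  rw [map_inv₀]
  exact inv_ne_zero fun h => x_ne Q _ ((map_eq_zero _).1 h)

theorem ord_det_R : Q.Λ.val.ord (R Q).det = ∑ i, (Q.a i : ℤ) := by
  have h1 : ∀ j : Fin Q.p, Q.Λ.emb (Q.x (Sum.inl j))⁻¹ ≠ 0 := fun j h =>
    inv_ne_zero (x_ne Q (Sum.inl j)) ((map_eq_zero _).1 h)
  have h2 : ∀ i : Fin Q.q, Q.Λ.s ^ Q.a i ≠ 0 := fun i => pow_ne_zero _ Q.Λ.s_ne
  rw [det_R, Q.Λ.val.ord_mul _ _ (Finset.prod_ne_zero_iff.2 fun j _ => h1 j)
    (Finset.prod_ne_zero_iff.2 fun i _ => h2 i), DivVal.ord_prod _ _ _ fun j _ => h1 j,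
    DivVal.ord_prod _ _ _ fun i _ => h2 i]
  have h3 : ∑ j : Fin Q.p, Q.Λ.val.ord (Q.Λ.emb (Q.x (Sum.inl j))⁻¹) = 0 :=
    Finset.sum_eq_zero fun j _ => Q.Λ.ord_emb _ (inv_ne_zero (x_ne Q _))
  rw [h3, zero_add]
  refine Finset.sum_congr rfl fun i _ => ?_
  rw [DivVal.ord_pow]
  have h4 : Q.Λ.val.ord Q.Λ.s = 1 := Q.Λ.ord_s
  rw [h4, mul_one]

end LGB

open LGB in
theorem t_LGB (hCH1 : Stmt_CH1) (hFRA : Stmt_FRA) (hDDER : Stmt_DDER) (hTBAS : Stmt_TBAS) :
    Stmt_LGB := by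
  classical
  intro n Q K _ _ χ hχ htr ι hι w δ hδ hw
  cases n with
  | zero => exact absurd Q.dim (by omega)
  | succ m =>
  obtain ⟨⟨t, u, hF⟩, -⟩ := hFRA w
  obtain ⟨Δ, -, -, -, h4, h5⟩ := hDDER htr w t u hF
  obtain ⟨ht0, ht1, hu⟩ := id hF
  -- the logarithmic order of the form
  set C : Matrix (Fin (m + 1)) (Fin (m + 1)) K :=
    Matrix.of fun i l => Δ l (χ (Pi.single i 1)) / χ (Pi.single i 1) with hC
  have hCdet : C.det ≠ 0 ∧ w.logOrd (torForm χ) = w.ord C.det :=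
    h5 (fun i => χ (Pi.single i 1)) (fun i => TDC.chi_ne hχ _) (TDC.torForm_ne hTBAS hχ htr)
  obtain ⟨hC0, hC1⟩ := hCdet
  -- the index set
  have hcard : Fintype.card (Idx Q) = Fintype.card (Fin (m + 1)) := by
    have := Q.dim
    simp only [Fintype.card_sum, Fintype.card_unit, Fintype.card_fin]
    omega
  let e : Idx Q ≃ Fin (m + 1) := Fintype.equivOfCardEq hcard
  -- the derivations of the characters
  let H : Matrix (Idx Q) (Idx Q) Q.Λ.L := Matrix.of fun a c =>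
    (Fin.cons (del Q a (ι t) / ι t) (fun j => del Q a (ι (u j))) : Fin (m + 1) → Q.Λ.L) (e c)
  let M : Matrix (Idx Q) (Idx Q) ℂ := Matrix.of fun c b => vec Q c (e b)
  let C' : Matrix (Idx Q) (Idx Q) K := Matrix.of fun b l => C (e b) (e l)
  have hC' : C'.det = C.det := Matrix.det_submatrix_equiv_self e C
  have hιne : ∀ f : K, f ≠ 0 → ι f ≠ 0 := fun f hf h => hf ((map_eq_zero _).1 h)
  have key : H * (C'.map ι).transpose = R Q * M.map (algebraMap ℂ Q.Λ.L) := by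
    ext a b
    rw [Matrix.mul_apply, Matrix.mul_apply]
    have hE0 : Q.E (Pi.single (e b) 1) ≠ 0 := by
      rw [← hι]
      exact hιne _ (TDC.chi_ne hχ _)
    have h6 := h4 ι (fun x => del Q a (ι x)) (fun x y => by rw [map_add, map_add])
      (fun x y => by rw [map_mul, Derivation.leibniz, smul_eq_mul, smul_eq_mul])
      (fun c => by rw [AlgHom.commutes, Derivation.map_algebraMap]) (χ (Pi.single (e b) 1))
    have h7 := del_E Q hCH1 a (Pi.single (e b) 1)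
    rw [← hι] at h7
    have h8 : del Q a (ι (χ (Pi.single (e b) 1))) / ι (χ (Pi.single (e b) 1)) =
        ∑ c, R Q a c * algebraMap ℂ Q.Λ.L (cpair (Pi.single (e b) 1) (vec Q c)) := by
      rw [h7, mul_div_assoc, div_self (hιne _ (TDC.chi_ne hχ _)), mul_one]
    have h9 : ∀ c, cpair (Pi.single (e b) 1) (vec Q c) = M c b := fun c => cpair_single _ _
    simp only [h9] at h8
    have h10 : ∑ c, R Q a c * (M.map (algebraMap ℂ Q.Λ.L)) c b =
        ∑ c, R Q a c * algebraMap ℂ Q.Λ.L (M c b) := rfl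
    rw [h10, ← h8]
    have h11 : del Q a (ι (χ (Pi.single (e b) 1))) = ∑ l, ι (Δ l (χ (Pi.single (e b) 1))) *
        (Fin.cons (del Q a (ι t) / ι t) (fun j => del Q a (ι (u j))) : Fin (m + 1) → Q.Λ.L) l := h6
    rw [h11, Finset.sum_div, ← Equiv.sum_comp e]
    refine Finset.sum_congr rfl fun c _ => ?_
    change _ * ι (Δ (e c) (χ (Pi.single (e b) 1)) / χ (Pi.single (e b) 1)) = _
    rw [map_div₀]
    change (Fin.cons (del Q a (ι t) / ι t) (fun j => del Q a (ι (u j))) : Fin (m + 1) → Q.Λ.L)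
      (e c) * _ = _
    ring
  have hdet : H.det * ι C.det = (R Q).det * algebraMap ℂ Q.Λ.L M.det := by
    have h6 := congrArg Matrix.det key
    rw [Matrix.det_mul, Matrix.det_mul, Matrix.det_transpose] at h6
    have h7 : (C'.map ι).det = ι C'.det := (AlgHom.map_det ι C').symm
    have h8 : (M.map (algebraMap ℂ Q.Λ.L)).det = algebraMap ℂ Q.Λ.L M.det :=
      (RingHom.map_det (algebraMap ℂ Q.Λ.L) M).symm
    rwa [h7, h8, hC'] at h6
  -- the constant determinant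
  have hM : M.det ≠ 0 := by
    have h6 : LinearIndependent ℂ M.row := by
      have h7 := Q.indep.map' (LinearEquiv.funCongrLeft ℂ ℂ e).toLinearMap
        (LinearEquiv.ker _)
      exact h7
    have h7 := Matrix.linearIndependent_rows_iff_isUnit.1 h6
    rw [Matrix.isUnit_iff_isUnit_det] at h7
    exact h7.ne_zero
  have hMne : algebraMap ℂ Q.Λ.L M.det ≠ 0 := fun h => hM ((map_eq_zero _).1 h)
  have hR := det_R_ne Q
  have hprod : H.det * ι C.det ≠ 0 := by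
    rw [hdet]
    exact mul_ne_zero hR hMne
  have hH0 : H.det ≠ 0 := left_ne_zero_of_mul hprod
  have hιC : ι C.det ≠ 0 := hιne _ hC0
  -- orders
  have hord := congrArg Q.Λ.val.ord hdet
  rw [Q.Λ.val.ord_mul _ _ hH0 hιC, Q.Λ.val.ord_mul _ _ hR hMne, ord_det_R, Q.Λ.val.ord_const,
    add_zero] at hord
  have hHge : Q.Λ.val.Ge 0 H.det := by
    refine DivVal.Ge.det fun a c => ?_
    change Q.Λ.val.Ge 0 ((Fin.cons (del Q a (ι t) / ι t) (fun j => del Q a (ι (u j))) :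
      Fin (m + 1) → Q.Λ.L) (e c))
    refine Fin.cases ?_ (fun j => ?_) (e c)
    · rw [Fin.cons_zero]
      have h6 := (del_ge Q a (ι t)).div (ι t)
      rwa [sub_self] at h6
    · rw [Fin.cons_succ]
      have h6 := hu (MvPolynomial.X j) (MvPolynomial.X_ne_zero j)
      rw [MvPolynomial.aeval_X] at h6
      have h7 := hw _ h6.1
      rw [h6.2, mul_zero] at h7
      have h8 := del_ge Q a (ι (u j))
      have h9 : Q.Λ.val.ord (ι (u j)) = 0 := h7.symm
      rwa [h9] at h8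
  have hH1 := hHge.le hH0
  have h6 := hw _ hC0
  have h7 : Q.Λ.val.ord (ι C.det) = Q.Λ.ord (ι C.det) := rfl
  rw [hC1, h6, ← h7]
  omega

end

end MldGeo
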