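import Pool.Agent.MldGeo.Stmts2
import Pool.Agent.MldGap.Quot

/-!
# The minimal log discrepancy of a log quotient

`mld(ℂⁿ / G, B) = inf_g logAge g`: every log discrepancy is at least some `logAge g` and every
`logAge g` is at least some log discrepancy.
-/

namespace MldGeo

noncomputable section

namespace MLQ

/-- There are no ideals: the log discrepancy of the triple is the one of `(X, B)`. -/
theorem disc_eq {n : ℕ} {X : Germ n} (T : Triple X) (hJ : IsEmpty T.J) (v : DivVal n X.K) :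
    T.disc v = T.logDisc v := by
  unfold Triple.disc
  rw [Finset.univ_eq_empty, Finset.sum_empty, sub_zero]

end MLQ

/-- MLQ. -/
theorem t_MLQ (h1 : Stmt_GAL) (h2 : Stmt_LOW) (h3 : Stmt_UPP) : Stmt_MLQ := by
  intro n X G _ T hn hT
  obtain ⟨hJ, φ, hφ, hcr⟩ := hT
  obtain ⟨alg, hQ⟩ := h1 X G φ hφ
  have hCr : CrepantAt T φ := hcr
  have hd : ∀ v, T.disc v = T.logDisc v := MLQ.disc_eq T hJ
  have hlow : ∀ v : DivVal n X.K, X.At v → ∃ g ∈ G, MldGap.logAge g ≤ T.disc v := by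
    intro v hv
    obtain ⟨g, hg, hle⟩ := h2 hQ hn T hCr v hv
    exact ⟨g, hg, hle.trans_eq (hd v).symm⟩
  have hupp : ∀ g ∈ G, ∃ v : DivVal n X.K, X.At v ∧ T.disc v ≤ MldGap.logAge g := by
    intro g hg
    obtain ⟨v, hv, hle⟩ := h3 hQ hn T hCr g hg
    exact ⟨v, hv, (hd v).trans_le hle⟩
  have hbdd : BddBelow {a : ℝ | ∃ v, X.At v ∧ T.disc v = a} := by
    refine ⟨0, ?_⟩
    rintro _ ⟨v, hv, rfl⟩
    obtain ⟨g, _, hle⟩ := hlow v hv
    exact (MldGap.logAge_nonneg g).trans hle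
  have hne : {a : ℝ | ∃ v, X.At v ∧ T.disc v = a}.Nonempty := by
    obtain ⟨v, hv, _⟩ := hupp 1 G.one_mem
    exact ⟨_, v, hv, rfl⟩
  apply le_antisymm
  · refine le_csInf (MldGap.quot_nonempty G) ?_
    rintro _ ⟨g, hg, rfl⟩
    obtain ⟨v, hv, hle⟩ := hupp g hg
    exact (csInf_le hbdd ⟨v, hv, rfl⟩).trans hle
  · refine le_csInf hne ?_
    rintro _ ⟨v, hv, rfl⟩
    obtain ⟨g, hg, hle⟩ := hlow v hv
    exact (csInf_le (MldGap.quot_bddBelow G) ⟨g, hg, rfl⟩).trans hle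

end

end MldGeo
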