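import Pool.Agent.MldGeo.StmtsQ

/-!
# Powers of monomial automorphisms
-/

namespace MldGeo

open MldGap MldAcc MldQ

namespace POW

variable {n : ℕ}

theorem dual_apply (φ : (Fin n → ℤ) →ₗ[ℤ] (Fin n → ℤ)) (y : Fin n → ℝ) (i : Fin n) :
    dual φ y i = form (φ (Pi.single i 1)) y := rfl

/-- The value of a character on a vector, as a homomorphism in the character. -/
def formHom (y : Fin n → ℝ) : (Fin n → ℤ) →+ ℝ :=
  AddMonoidHom.mk' (fun u => form u y) fun a b => by
    rw [TDC.form_apply, TDC.form_apply, TDC.form_apply, ← Finset.sum_add_distrib]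
    refine Finset.sum_congr rfl fun i _ => ?_
    rw [Pi.add_apply]
    push_cast
    ring

theorem formHom_apply (y : Fin n → ℝ) (u : Fin n → ℤ) : formHom y u = form u y := rfl

theorem expand (u : Fin n → ℤ) : u = ∑ i, u i • (Pi.single i 1 : Fin n → ℤ) := by
  funext j
  rw [Finset.sum_apply]
  simp [Pi.single_apply]

theorem form_dual (φ : (Fin n → ℤ) →ₗ[ℤ] (Fin n → ℤ)) (u : Fin n → ℤ) (y : Fin n → ℝ) :
    form u (dual φ y) = form (φ u) y := by
  have h1 : φ u = ∑ i, u i • φ (Pi.single i 1) := by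
    conv_lhs => rw [expand u]
    rw [map_sum]
    exact Finset.sum_congr rfl fun i _ => map_zsmul φ _ _
  rw [h1, ← formHom_apply y, map_sum, TDC.form_apply]
  refine Finset.sum_congr rfl fun i _ => ?_
  rw [map_zsmul, dual_apply, formHom_apply, zsmul_eq_mul]

theorem form_dual_pow (φ : (Fin n → ℤ) →ₗ[ℤ] (Fin n → ℤ)) (i : ℕ) (u : Fin n → ℤ)
    (y : Fin n → ℝ) : form u ((dual φ ^ i) y) = form ((φ ^ i) u) y := by
  induction i generalizing u with
  | zero => rfl
  | succ i ih =>
    have h1 : (dual φ ^ (i + 1)) y = dual φ ((dual φ ^ i) y) := by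
      rw [pow_succ']
      rfl
    have h2 : (φ ^ (i + 1)) u = (φ ^ i) (φ u) := by
      rw [pow_succ]
      rfl
    rw [h1, h2, form_dual, ih]

theorem form_single (y : Fin n → ℝ) (l : Fin n) : form (Pi.single l 1) y = y l := by
  classical
  rw [TDC.form_apply, Finset.sum_eq_single l]
  · rw [Pi.single_eq_same, Int.cast_one, one_mul]
  · intro j _ hj
    rw [Pi.single_eq_of_ne hj, Int.cast_zero, zero_mul]
  · intro h
    exact absurd (Finset.mem_univ l) h

theorem dual_pow (φ : (Fin n → ℤ) →ₗ[ℤ] (Fin n → ℤ)) (i : ℕ) :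
    dual (φ ^ i) = dual φ ^ i := by
  apply LinearMap.ext
  intro y
  funext l
  rw [dual_apply, ← form_dual_pow, form_single]

theorem arg_int {z : ℂ} (hz : z ≠ 0) {x : ℝ}
    (h : z = (‖z‖ : ℂ) * Complex.exp (2 * Real.pi * Complex.I * (x : ℝ))) :
    ∃ k : ℤ, x - z.arg / (2 * Real.pi) = k := by
  have hn : (‖z‖ : ℂ) ≠ 0 := by
    rw [Ne, Complex.ofReal_eq_zero, norm_eq_zero]
    exact hz
  have h1 : (‖z‖ : ℂ) * Complex.exp (z.arg * Complex.I) = z := Complex.norm_mul_exp_arg_mul_I z
  have h2 : Complex.exp (2 * Real.pi * Complex.I * (x : ℝ)) =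
      Complex.exp (z.arg * Complex.I) := mul_left_cancel₀ hn (h.symm.trans h1.symm)
  obtain ⟨k, hk⟩ := Complex.exp_eq_exp_iff_exists_int.1 h2
  refine ⟨k, ?_⟩
  have hpi : (Real.pi : ℂ) ≠ 0 := by
    rw [Ne, Complex.ofReal_eq_zero]
    exact Real.pi_ne_zero
  have h3 : (x : ℂ) = z.arg / (2 * Real.pi) + k := by
    have h4 : (2 * Real.pi * Complex.I) * (x : ℂ) =
        (2 * Real.pi * Complex.I) * (z.arg / (2 * Real.pi) + k) := by
      rw [hk]
      field_simp
    exact mul_left_cancel₀ (mul_ne_zero (mul_ne_zero two_ne_zero hpi) Complex.I_ne_zero) h4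
  have h5 : x = z.arg / (2 * Real.pi) + k := by
    have h6 : ((x : ℝ) : ℂ) = ((z.arg / (2 * Real.pi) + k : ℝ) : ℂ) := by
      rw [h3]
      push_cast
      rfl
    exact Complex.ofReal_injective h6
  rw [h5]
  ring

section coeff

variable (c : (Fin n → ℤ) → ℂ) (hc : ∀ u, c u ≠ 0) (hm : ∀ u w, c (u + w) = c u * c w)

include hc hm in
/-- The argument of `c u`. -/
theorem c_eq (u : Fin n → ℤ) :
    c u = (‖c u‖ : ℂ) * Complex.exp (2 * Real.pi * Complex.I * (form u (argVec c) : ℝ)) := by
  let E : (Fin n → ℤ) → ℂ := fun u =>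
    (‖c u‖ : ℂ) * Complex.exp (2 * Real.pi * Complex.I * (form u (argVec c) : ℝ))
  have hE0 : ∀ u, E u ≠ 0 := by
    intro u
    refine mul_ne_zero ?_ (Complex.exp_ne_zero _)
    rw [Ne, Complex.ofReal_eq_zero, norm_eq_zero]
    exact hc u
  have hEm : ∀ u w, E (u + w) = E u * E w := by
    intro u w
    show (‖c (u + w)‖ : ℂ) *
        Complex.exp (2 * Real.pi * Complex.I * (form (u + w) (argVec c) : ℝ)) = _
    have h1 : form (u + w) (argVec c) = form u (argVec c) + form w (argVec c) :=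
      (formHom (argVec c)).map_add u w
    rw [h1, hm, norm_mul, Complex.ofReal_mul, Complex.ofReal_add, mul_add, Complex.exp_add]
    show _ = ((‖c u‖ : ℂ) * Complex.exp (2 * Real.pi * Complex.I * (form u (argVec c) : ℝ))) *
      ((‖c w‖ : ℂ) * Complex.exp (2 * Real.pi * Complex.I * (form w (argVec c) : ℝ)))
    ring
  let f1 : (Fin n → ℤ) →+ Additive ℂˣ := AddMonoidHom.mk'
    (fun u => Additive.ofMul (Units.mk0 (c u) (hc u))) fun a b => by
      apply Additive.toMul.injective
      exact Units.ext (hm a b)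
  let f2 : (Fin n → ℤ) →+ Additive ℂˣ := AddMonoidHom.mk'
    (fun u => Additive.ofMul (Units.mk0 (E u) (hE0 u))) fun a b => by
      apply Additive.toMul.injective
      exact Units.ext (hEm a b)
  have hbase : ∀ i : Fin n, f1 (Pi.single i 1) = f2 (Pi.single i 1) := by
    intro i
    apply Additive.toMul.injective
    apply Units.ext
    show c (Pi.single i 1) = E (Pi.single i 1)
    show c (Pi.single i 1) = (‖c (Pi.single i 1)‖ : ℂ) *
      Complex.exp (2 * Real.pi * Complex.I * (form (Pi.single i 1) (argVec c) : ℝ))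
    rw [form_single]
    have h1 : (2 * Real.pi * Complex.I * ((argVec c i : ℝ) : ℂ)) =
        ((c (Pi.single i 1)).arg : ℂ) * Complex.I := by
      unfold argVec
      have hpi : (Real.pi : ℂ) ≠ 0 := by
        rw [Ne, Complex.ofReal_eq_zero]
        exact Real.pi_ne_zero
      push_cast
      field_simp
    rw [h1, Complex.norm_mul_exp_arg_mul_I]
  have h12 : f1 u = f2 u := by
    rw [expand u, map_sum, map_sum]
    exact Finset.sum_congr rfl fun i _ => by rw [map_zsmul, map_zsmul, hbase i]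
  have h3 := congrArg (fun x : Additive ℂˣ => ((Additive.toMul x : ℂˣ) : ℂ)) h12
  exact h3

include hc hm in
theorem cpow_eq (φ : (Fin n → ℤ) →ₗ[ℤ] (Fin n → ℤ)) (i : ℕ) (u : Fin n → ℤ) :
    cpow φ c i u = (‖cpow φ c i u‖ : ℂ) * Complex.exp (2 * Real.pi * Complex.I *
      ((∑ j ∈ Finset.range i, form ((φ ^ j) u) (argVec c) : ℝ) : ℂ)) := by
  unfold cpow
  rw [norm_prod]
  push_cast
  rw [Finset.mul_sum, Complex.exp_sum, ← Finset.prod_mul_distrib]
  exact Finset.prod_congr rfl fun j _ => c_eq c hc hm _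

end coeff

theorem cpow_cpow (φ : (Fin n → ℤ) →ₗ[ℤ] (Fin n → ℤ)) (c : (Fin n → ℤ) → ℂ) (i l : ℕ) :
    cpow (φ ^ i) (cpow φ c i) l = cpow φ c (i * l) := by
  funext m
  induction l with
  | zero => simp [cpow]
  | succ l ih =>
    have h1 : cpow (φ ^ i) (cpow φ c i) (l + 1) m =
        cpow (φ ^ i) (cpow φ c i) l m * cpow φ c i (((φ ^ i) ^ l) m) := by
      unfold cpow
      rw [Finset.prod_range_succ]
    have h2 : cpow φ c (i * (l + 1)) m =
        cpow φ c (i * l) m * ∏ r ∈ Finset.range i, c ((φ ^ (i * l + r)) m) := by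
      unfold cpow
      rw [Nat.mul_succ, Finset.prod_range_add]
    rw [h1, h2, ih]
    congr 1
    unfold cpow
    refine Finset.prod_congr rfl fun r _ => ?_
    congr 1
    rw [add_comm (i * l) r, pow_add, pow_mul]
    rfl

theorem cpow_succ (φ : (Fin n → ℤ) →ₗ[ℤ] (Fin n → ℤ)) (c : (Fin n → ℤ) → ℂ) (i : ℕ)
    (u : Fin n → ℤ) : cpow φ c (i + 1) u = c u * cpow φ c i (φ u) := by
  unfold cpow
  rw [Finset.prod_range_succ', mul_comm]
  congr 1

end POW

open POW in
/-- POW. -/
theorem t_POW : Stmt_POW := by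
  intro n φ c hc hm
  refine ⟨dual_pow φ, ?_, cpow_cpow φ c, ?_⟩
  · rintro _ i ⟨z, rfl⟩
    have hcoord : ∀ l : Fin n, ∃ k : ℤ,
        (MldQ.trans (dual φ, argVec c + toR z) i - argVec (cpow φ c i)) l = k := by
      intro l
      have hne : cpow φ c i (Pi.single l 1) ≠ 0 := by
        unfold cpow
        exact Finset.prod_ne_zero_iff.2 fun j _ => hc _
      obtain ⟨k, hk⟩ := arg_int hne (cpow_eq c hc hm φ i (Pi.single l 1))
      refine ⟨k + ∑ j ∈ Finset.range i, pair ((φ ^ j) (Pi.single l 1)) z, ?_⟩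
      have h1 : MldQ.trans (dual φ, argVec c + toR z) i l =
          ∑ j ∈ Finset.range i, (form ((φ ^ j) (Pi.single l 1)) (argVec c) +
            (pair ((φ ^ j) (Pi.single l 1)) z : ℝ)) := by
        unfold MldQ.trans
        rw [Finset.sum_apply]
        refine Finset.sum_congr rfl fun j _ => ?_
        rw [← form_single ((dual φ ^ j) (argVec c + toR z)) l, form_dual_pow, map_add,
          TDC.form_toR]
      rw [Pi.sub_apply, h1, Finset.sum_add_distrib]
      push_cast
      rw [← hk]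
      unfold argVec
      ring
    choose k hk using hcoord
    exact ⟨k, funext hk⟩
  · intro K _ _ χ σ k hM i
    refine ⟨hM.pos, ?_, ?_, ?_, ?_, ?_, ?_⟩
    · intro u
      unfold cpow
      exact Finset.prod_ne_zero_iff.2 fun j _ => hc _
    · intro u w
      unfold cpow
      rw [← Finset.prod_mul_distrib]
      exact Finset.prod_congr rfl fun j _ => by rw [map_add, hm]
    · induction i with
      | zero =>
        intro u
        simp [cpow]
      | succ i ih =>
        intro u
        have h1 : (σ ^ (i + 1)) (χ u) = (σ ^ i) (σ (χ u)) := by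
          rw [pow_succ]
          rfl
        have h2 : (φ ^ (i + 1)) u = (φ ^ i) (φ u) := by
          rw [pow_succ]
          rfl
        rw [h1, h2, hM.eq, map_mul, AlgEquiv.commutes, ih, cpow_succ, map_mul, mul_assoc]
    · rw [← pow_mul, mul_comm, pow_mul, hM.fin, one_pow]
    · rw [← pow_mul, mul_comm, pow_mul, hM.iter, one_pow]
    · intro u
      have h1 : ∀ m, cpow φ c k m = 1 := hM.prod
      show cpow (φ ^ i) (cpow φ c i) k u = 1
      rw [cpow_cpow, mul_comm, ← cpow_cpow]
      unfold cpow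
      exact Finset.prod_eq_one fun j _ => h1 _

end MldGeo
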