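import Pool.Agent.MldGeo.StmtsQ

/-!
# Finite group quotients and divisorial valuations
-/

namespace MldGeo

noncomputable section

namespace QGAL

/-- The group of the quotient is a Galois group. -/
theorem galois {n : ℕ} (X Y : Germ n) (G : Subgroup (X.K ≃ₐ[ℂ] X.K)) (π : Y.K →ₐ[ℂ] X.K)
    (H : IsQuot X Y G π) [Algebra Y.K X.K] (hπ : ∀ b, algebraMap Y.K X.K b = π b) :
    IsGaloisGroup G Y.K X.K where
  faithful := ⟨fun {g g'} h => Subtype.ext (AlgEquiv.ext fun a => h a)⟩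
  commutes := ⟨fun g b a => by
    have h1 : (g : X.K ≃ₐ[ℂ] X.K) (π b) = π b := (H.inv (π b)).1 ⟨b, rfl⟩ g g.2
    rw [Algebra.smul_def, Algebra.smul_def, hπ, Subgroup.smul_def, Subgroup.smul_def,
      AlgEquiv.smul_def, AlgEquiv.smul_def, map_mul, h1]⟩
  isInvariant := ⟨fun a h => by
    obtain ⟨b, hb⟩ := (H.inv a).2 fun g hg => h ⟨g, hg⟩
    exact ⟨b, (hπ b).trans hb⟩⟩

end QGAL

theorem t_QGAL (hEXR : Stmt_EXR) (hEXT : Stmt_EXT) (hINE : Stmt_INE) (hEXF : Stmt_EXF) :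
    Stmt_QGAL := by
  intro n X Y G π hn H
  let : Algebra Y.K X.K := π.toRingHom.toAlgebra
  have : IsScalarTower ℂ Y.K X.K :=
    IsScalarTower.of_algebraMap_eq fun c => (π.commutes c).symm
  have : Finite G := H.finite
  have : IsGaloisGroup G Y.K X.K := QGAL.galois X Y G π H fun b => rfl
  have : FiniteDimensional Y.K X.K := IsGaloisGroup.finiteDimensional G Y.K X.K
  have : IsGalois Y.K X.K := IsGaloisGroup.isGalois G Y.K X.K
  refine ⟨fun w => hEXR w hn, fun v => hEXT v hn, fun w v e h => ?_, fun w v e h g a hg ha hd => ?_⟩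
  · obtain ⟨σ, h1, h2⟩ := hINE w v e h
    refine ⟨σ.restrictScalars ℂ, ?_, h1, h2⟩
    obtain ⟨g, hg⟩ := (IsGaloisGroup.mulEquivAlgEquiv G Y.K X.K).surjective σ
    have h3 : σ.restrictScalars ℂ = (g : X.K ≃ₐ[ℂ] X.K) := by
      apply AlgEquiv.ext
      intro a
      rw [← hg]
      rfl
    rw [h3]
    exact g.2
  · exact hEXF w v e Y.trdeg hn h g a hg ha hd

end

end MldGeo
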