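import Pool.Agent.MldGeo.StmtsQ

/-!
# QLG: the lower bound for the order of the invariant form
-/

namespace MldGeo

open MldGap MldAcc MldQ

noncomputable section

namespace QLG

/-- The root of unity `exp (2 π i r / e)`. -/
def zt (r : ℤ) (e : ℕ) : ℂ := Complex.exp (2 * Real.pi * Complex.I * r / e)

section est

variable {n : ℕ} {K : Type} [Field K] [Algebra ℂ K]

/-- The leading coefficients of a solution of `∑ k, S l k * σ (c' k) = μ * c' l`. -/
theorem leading (w : DivVal n K) (σ : K ≃ₐ[ℂ] K) (e : ℕ) (hord : ∀ a, w.ord (σ a) = w.ord a)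
    (hσ : ∀ a : K, a ≠ 0 → w.Ge (w.ord a + 1) (σ a - algebraMap ℂ K (zt (w.ord a) e) * a))
    {N : ℕ} (S : Fin N → Fin N → K) (hS : ∀ l k, w.Ge 1 (S l k - if l = k then 1 else 0))
    (c : Fin N → K) (hc0 : ∀ k, w.Ge 0 (c k)) (hne : ∃ k, c k ≠ 0) (μ : ℂ)
    (h : ∀ l, ∑ k, S l k * σ (c k) = algebraMap ℂ K μ * c l) :
    ∃ r : ℕ, (∀ k, w.Ge (r : ℤ) (c k)) ∧ μ = zt (r : ℤ) e := by
  classical
  obtain ⟨k0, hk0⟩ := hne
  obtain ⟨l, hl, hmin⟩ := Finset.exists_min_image (Finset.univ.filter fun k => c k ≠ 0)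
    (fun k => w.ord (c k)) ⟨k0, by simp [hk0]⟩
  rw [Finset.mem_filter] at hl
  have hl0 : c l ≠ 0 := hl.2
  have h0 : 0 ≤ w.ord (c l) := (hc0 l).le hl0
  obtain ⟨r, hr⟩ := Int.eq_ofNat_of_zero_le h0
  have hge : ∀ k, w.Ge (r : ℤ) (c k) := by
    intro k
    by_cases hk : c k = 0
    · exact Or.inl hk
    · refine Or.inr ?_
      rw [← hr]
      exact hmin k (by simp [hk])
  refine ⟨r, hge, ?_⟩
  have hσge : ∀ k, w.Ge (r : ℤ) (σ (c k)) := by
    intro k
    rcases hge k with h1 | h1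
    · exact Or.inl (by rw [h1, map_zero])
    · exact Or.inr (by rw [hord]; exact h1)
  -- the leading term
  have h1 : w.Ge ((r : ℤ) + 1) (σ (c l) - algebraMap ℂ K (zt r e) * c l) := by
    have := hσ (c l) hl0
    rwa [hr] at this
  have h2 : w.Ge ((r : ℤ) + 1) (∑ k, S l k * σ (c k) - σ (c l)) := by
    have h3 : ∑ k, S l k * σ (c k) - σ (c l) =
        ∑ k, (S l k - if l = k then 1 else 0) * σ (c k) := by
      simp only [sub_mul, Finset.sum_sub_distrib, ite_mul, one_mul, zero_mul,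
        Finset.sum_ite_eq, Finset.mem_univ, if_true]
    rw [h3]
    refine DivVal.Ge.sum _ _ fun k _ => ?_
    have := (hS l k).mul (hσge k)
    rwa [add_comm] at this
  have h3 : w.Ge ((r : ℤ) + 1) (algebraMap ℂ K (μ - zt r e) * c l) := by
    have h4 := h2.add h1
    rw [h l] at h4
    have h5 : algebraMap ℂ K μ * c l - σ (c l) + (σ (c l) - algebraMap ℂ K (zt r e) * c l) =
        algebraMap ℂ K (μ - zt r e) * c l := by
      rw [map_sub]
      ring
    rwa [h5] at h4
  by_contra hne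
  have h6 : μ - zt r e ≠ 0 := sub_ne_zero.2 hne
  have h7 := h3.le (mul_ne_zero ((map_ne_zero_iff _ (algebraMap ℂ K).injective).2 h6) hl0)
  rw [DivVal.ord_const_mul w h6, hr] at h7
  have h8 : ((r : ℤ) + 1) ≤ (r : ℤ) := h7
  omega

end est

/-- Equality of roots of unity. -/
theorem exp_le {a k r e : ℕ} (hk : 0 < k) (he : 0 < e) (hak : a < k)
    (h : Complex.exp (2 * Real.pi * Complex.I * a / k) = zt (r : ℤ) e) : e * a ≤ k * r := by
  unfold zt at h
  rw [Complex.exp_eq_exp_iff_exists_int] at h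
  obtain ⟨N, hN⟩ := h
  have hpi : (2 * Real.pi * Complex.I : ℂ) ≠ 0 := by
    simp [Real.pi_ne_zero, Complex.I_ne_zero]
  have hkC : (k : ℂ) ≠ 0 := by exact_mod_cast hk.ne'
  have heC : (e : ℂ) ≠ 0 := by exact_mod_cast he.ne'
  have h1 : (2 * Real.pi * Complex.I : ℂ) * ((a : ℂ) * e) =
      (2 * Real.pi * Complex.I : ℂ) * ((r : ℂ) * k + N * (k * e)) := by
    have h2 : 2 * ↑Real.pi * Complex.I * ↑a / ↑k * (↑k * ↑e) =
        (2 * ↑Real.pi * Complex.I * (((r : ℤ) : ℂ)) / ↑e + ↑N * (2 * ↑Real.pi * Complex.I)) *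
          ((k : ℂ) * (e : ℂ)) := congrArg (fun x : ℂ => x * ((k : ℂ) * (e : ℂ))) hN
    have h3 : 2 * ↑Real.pi * Complex.I * ↑a / ↑k * (↑k * ↑e) =
        (2 * Real.pi * Complex.I : ℂ) * ((a : ℂ) * e) := by
      field_simp
    have h4 : (2 * ↑Real.pi * Complex.I * (((r : ℤ) : ℂ)) / ↑e + ↑N * (2 * ↑Real.pi * Complex.I)) *
        (↑k * ↑e) = (2 * Real.pi * Complex.I : ℂ) * ((r : ℂ) * k + N * (k * e)) := by
      push_cast
      field_simp
    rw [h3, h4] at h2
    exact h2
  have h2 := mul_left_cancel₀ hpi h1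
  have h3 : (a : ℤ) * e = r * k + N * (k * e) := by exact_mod_cast h2
  have hN1 : N < 1 := by
    by_contra hcon
    have h4 : (1 : ℤ) ≤ N := by omega
    have h5 : (k : ℤ) * e ≤ N * (k * e) := by
      have : (0 : ℤ) ≤ (k : ℤ) * e := by positivity
      nlinarith
    have h6 : (a : ℤ) * e < k * e := by
      have h7 : (a : ℤ) < k := by exact_mod_cast hak
      have h8 : (0 : ℤ) < e := by exact_mod_cast he
      nlinarith
    have h7 : (0 : ℤ) ≤ r * k := by positivity
    omega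
  have h4 : N * (k * e) ≤ 0 := by
    have : (0 : ℤ) ≤ (k : ℤ) * e := by positivity
    have h5 : N ≤ 0 := by omega
    nlinarith
  have h5 : (a : ℤ) * e ≤ r * k := by omega
  have h6 : a * e ≤ r * k := by exact_mod_cast h5
  calc e * a = a * e := mul_comm _ _
    _ ≤ r * k := h6
    _ = k * r := mul_comm _ _

/-- The logarithmic derivative of a character. -/
theorem logder {n : ℕ} {K : Type} [Field K] [Algebra ℂ K] {χ : (Fin n → ℤ) → K}
    (hχ : TorusField χ) (D : Derivation ℂ K K) (u : Fin n → ℤ) :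
    D (χ u) / χ u = ∑ i, (u i : K) * (D (χ (Pi.single i 1)) / χ (Pi.single i 1)) := by
  classical
  let f : (Fin n → ℤ) →+ K := AddMonoidHom.mk' (fun u => D (χ u) / χ u) fun a b => by
    show D (χ (a + b)) / χ (a + b) = D (χ a) / χ a + D (χ b) / χ b
    have ha := TDC.chi_ne hχ a
    have hb := TDC.chi_ne hχ b
    rw [hχ.add, D.leibniz, smul_eq_mul, smul_eq_mul]
    field_simp
    ring
  have h1 : u = ∑ i, u i • (Pi.single i 1 : Fin n → ℤ) := by
    funext j
    rw [Finset.sum_apply]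
    simp [Pi.single_apply]
  have h2 : f u = ∑ i, u i • f (Pi.single i 1) := by
    conv_lhs => rw [h1]
    rw [map_sum]
    exact Finset.sum_congr rfl fun i _ => map_zsmul f _ _
  have h3 : f u = D (χ u) / χ u := rfl
  rw [← h3, h2]
  refine Finset.sum_congr rfl fun i _ => ?_
  rw [zsmul_eq_mul]
  rfl

/-! ### the matrix of eigenvectors -/

theorem cpair_toC {n : ℕ} (m U : Fin n → ℤ) : cpair m (toC U) = ((pair m U : ℤ) : ℂ) := by
  unfold cpair toC pair
  push_cast
  rfl

theorem cpair_single {n : ℕ} (j : Fin n) (y : Fin n → ℂ) :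
    cpair (Pi.single j 1) y = y j := by
  classical
  unfold cpair
  rw [Finset.sum_eq_single j]
  · simp
  · intro b _ hb
    rw [Pi.single_eq_of_ne hb, Int.cast_zero, zero_mul]
  · intro h
    exact absurd (Finset.mem_univ j) h

theorem eigmat (hEIG : Stmt_EIG) {n k : ℕ} (φ : (Fin n → ℤ) →ₗ[ℤ] (Fin n → ℤ))
    (U : Fin n → ℤ) (hk : 0 < k) (hφ : φ ^ k = 1) (hU : U ≠ 0)
    (hUφ : ∀ m, pair (φ m) U = pair m U) :
    ∃ (R : Matrix (Fin n) (Fin n) ℂ) (a : Fin n → ℕ), R.det ≠ 0 ∧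
      (∀ i r, ∑ j, ((φ (Pi.single j 1) i : ℤ) : ℂ) * R j r =
        Complex.exp (2 * Real.pi * Complex.I * a r / k) * R i r) ∧
      (∀ r, a r < k) ∧ 2 * ∑ r, a r = k * cod φ := by
  classical
  obtain ⟨p, q, ν, ε, a, hpq, hq, hν, ha, hsum, hε, hli⟩ := hEIG φ U hk hφ hU hUφ
  have hcard : Fintype.card ((Unit ⊕ Fin p) ⊕ Fin q) = n := by
    rw [Fintype.card_sum, Fintype.card_sum, Fintype.card_unit, Fintype.card_fin,
      Fintype.card_fin]
    omega
  let g : (Unit ⊕ Fin p) ⊕ Fin q ≃ Fin n := Fintype.equivFinOfCardEq hcard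
  let y : (Unit ⊕ Fin p) ⊕ Fin q → Fin n → ℂ :=
    Sum.elim (Sum.elim (fun _ : Unit => toC U) fun j => toC (ν j)) ε
  let b : (Unit ⊕ Fin p) ⊕ Fin q → ℕ := Sum.elim (fun _ => 0) a
  let P : Matrix (Fin n) (Fin n) ℂ := Matrix.of fun r i => y (g.symm r) i
  have hP : IsUnit P := by
    rw [← Matrix.linearIndependent_rows_iff_isUnit]
    exact hli.comp g.symm g.symm.injective
  have hPdet : IsUnit P.det := (Matrix.isUnit_iff_isUnit_det P).1 hP
  have hy : ∀ (i : (Unit ⊕ Fin p) ⊕ Fin q) (m : Fin n → ℤ), cpair (φ m) (y i) =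
      Complex.exp (2 * Real.pi * Complex.I * b i / k) * cpair m (y i) := by
    rintro ((i | i) | i) m
    · show cpair (φ m) (toC U) = Complex.exp (2 * Real.pi * Complex.I * ((0 : ℕ) : ℂ) / k) *
        cpair m (toC U)
      rw [cpair_toC, cpair_toC, hUφ, Nat.cast_zero, mul_zero, zero_div, Complex.exp_zero,
        one_mul]
    · show cpair (φ m) (toC (ν i)) = Complex.exp (2 * Real.pi * Complex.I * ((0 : ℕ) : ℂ) / k) *
        cpair m (toC (ν i))
      rw [cpair_toC, cpair_toC, hν, Nat.cast_zero, mul_zero, zero_div, Complex.exp_zero,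
        one_mul]
    · exact hε i m
  let Φ : Matrix (Fin n) (Fin n) ℂ := Matrix.of fun i j => ((φ (Pi.single j 1) i : ℤ) : ℂ)
  let D : Matrix (Fin n) (Fin n) ℂ :=
    Matrix.diagonal fun r => Complex.exp (2 * Real.pi * Complex.I * b (g.symm r) / k)
  have hPΦ : P * Φ = D * P := by
    ext r j
    rw [Matrix.mul_apply, Matrix.diagonal_mul]
    have h1 := hy (g.symm r) (Pi.single j 1)
    rw [cpair_single] at h1
    show ∑ i, y (g.symm r) i * ((φ (Pi.single j 1) i : ℤ) : ℂ) =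
      Complex.exp (2 * Real.pi * Complex.I * b (g.symm r) / k) * y (g.symm r) j
    rw [← h1]
    exact Finset.sum_congr rfl fun i _ => mul_comm _ _
  have hΦR : Φ * P⁻¹ = P⁻¹ * D := by
    calc Φ * P⁻¹ = P⁻¹ * (P * Φ) * P⁻¹ := by
          rw [← Matrix.mul_assoc, Matrix.nonsing_inv_mul P hPdet, Matrix.one_mul]
      _ = P⁻¹ * D := by
          rw [hPΦ, Matrix.mul_assoc, Matrix.mul_assoc, Matrix.mul_nonsing_inv P hPdet,
            Matrix.mul_one]
  refine ⟨P⁻¹, fun r => b (g.symm r), ?_, ?_, ?_, ?_⟩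
  · intro h
    have h1 := Matrix.det_nonsing_inv_mul_det P hPdet
    rw [h, zero_mul] at h1
    exact zero_ne_one h1
  · intro i r
    have h1 := congrFun (congrFun hΦR i) r
    rw [Matrix.mul_apply, Matrix.mul_diagonal] at h1
    rw [mul_comm (Complex.exp _), ← h1]
    rfl
  · intro r
    show b (g.symm r) < k
    rcases g.symm r with i | i
    · exact hk
    · exact (ha i).2
  · have h1 : ∑ r, b (g.symm r) = ∑ i, a i := by
      rw [Equiv.sum_comp g.symm b, Fintype.sum_sum_type]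
      have h2 : ∑ x : Unit ⊕ Fin p, b (Sum.inl x) = 0 := Finset.sum_eq_zero fun _ _ => rfl
      rw [h2, zero_add]
      rfl
    rw [h1, hsum, hq]

/-- The matrix of the automorphism in a frame is congruent to the identity. -/
theorem frame_cong {m : ℕ} {K : Type} [Field K] [Algebra ℂ K] (w : DivVal (m + 1) K) (t : K)
    (u : Fin m → K) (hF : Frame w t u) (Δ : Fin (m + 1) → Derivation ℂ K K)
    (h1 : ∀ l, Δ l t = if l = 0 then t else 0)
    (h2 : ∀ l j, Δ l (u j) = if l = j.succ then 1 else 0)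
    (h3 : ∀ l (k : ℤ) a, w.Ge k a → w.Ge k (Δ l a)) (σ : K ≃ₐ[ℂ] K) (e : ℕ)
    (hord : ∀ a, w.ord (σ a) = w.ord a)
    (hσ : ∀ a : K, a ≠ 0 → w.Ge (w.ord a + 1) (σ a - algebraMap ℂ K (zt (w.ord a) e) * a))
    (l k : Fin (m + 1)) :
    w.Ge 1 ((Fin.cons (Δ l (σ t) / σ t) (fun j => Δ l (σ (u j))) : Fin (m + 1) → K) k -
      if l = k then 1 else 0) := by
  classical
  obtain ⟨ht, ht1, hu⟩ := hF
  refine Fin.cases ?_ (fun j => ?_) k
  · rw [Fin.cons_zero]
    have hσt : σ t ≠ 0 := (map_ne_zero_iff σ σ.injective).2 ht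
    have h4 := hσ t ht
    rw [ht1] at h4
    set ζ := algebraMap ℂ K (zt 1 e) with hζ
    have h5 : Δ l (σ t) / σ t - (if l = 0 then 1 else 0) =
        (Δ l (σ t - ζ * t) - if l = 0 then (σ t - ζ * t) else 0) / σ t := by
      have h6 : Δ l (σ t - ζ * t) = Δ l (σ t) - ζ * if l = 0 then t else 0 := by
        rw [map_sub, hζ, ← Algebra.smul_def, Derivation.map_smul, h1, Algebra.smul_def]
      rw [h6]
      by_cases hl : l = 0
      · rw [if_pos hl, if_pos hl, if_pos hl]
        field_simp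
        ring
      · rw [if_neg hl, if_neg hl, if_neg hl]
        field_simp
        ring
    rw [h5]
    have h7 : w.Ge 2 (Δ l (σ t - ζ * t) - if l = 0 then (σ t - ζ * t) else 0) := by
      refine (h3 l 2 _ h4).sub ?_
      split_ifs
      · exact h4
      · exact DivVal.Ge.zero w 2
    have h8 := h7.div (σ t)
    rw [hord, ht1] at h8
    exact h8
  · rw [Fin.cons_succ]
    have hu1 := hu (MvPolynomial.X j) (MvPolynomial.X_ne_zero j)
    rw [MvPolynomial.aeval_X] at hu1
    have h4 := hσ (u j) hu1.1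
    rw [hu1.2] at h4
    have h5 : algebraMap ℂ K (zt 0 e) = 1 := by
      unfold zt
      rw [Int.cast_zero, mul_zero, zero_div, Complex.exp_zero, map_one]
    rw [h5, one_mul, zero_add] at h4
    have h6 : Δ l (σ (u j)) - (if l = j.succ then 1 else 0) = Δ l (σ (u j) - u j) := by
      rw [map_sub, h2]
    rw [h6]
    exact h3 l 1 _ h4

end QLG

open QLG in
theorem t_QLG (hFRA : Stmt_FRA) (hDDER : Stmt_DDER) (hEIG : Stmt_EIG) (hTBAS : Stmt_TBAS) :
    Stmt_QLG := by
  classical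
  intro n K _ _ χ hχ htr hn σ φ c k hM w e he hU hord hσ
  obtain ⟨m, rfl⟩ : ∃ m, n = m + 1 := ⟨n - 1, by omega⟩
  obtain ⟨⟨t, u, hF⟩, -⟩ := hFRA w
  obtain ⟨Δ, h1, h2, h3, h4, h5⟩ := hDDER htr w t u hF
  have hσ' : ∀ a : K, a ≠ 0 → w.Ge (w.ord a + 1) (σ a - algebraMap ℂ K (zt (w.ord a) e) * a) :=
    hσ
  -- the logarithmic derivatives
  let E : Fin (m + 1) → Fin (m + 1) → ℤ := fun j => Pi.single j 1
  have hEne : ∀ j, χ (E j) ≠ 0 := fun j => TDC.chi_ne hχ _
  obtain ⟨hdet, hlog⟩ := h5 (fun j => χ (E j)) hEne (TDC.torForm_ne hTBAS hχ htr)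
  let C : Matrix (Fin (m + 1)) (Fin (m + 1)) K := Matrix.of fun j l => Δ l (χ (E j)) / χ (E j)
  have hC : ∀ j l, w.Ge 0 (C j l) := by
    intro j l
    have h6 := (h3 l _ _ (DivVal.Ge.self w (χ (E j)))).div (χ (E j))
    rwa [sub_self] at h6
  let S : Fin (m + 1) → Fin (m + 1) → K := fun l =>
    Fin.cons (Δ l (σ t) / σ t) (fun j => Δ l (σ (u j)))
  have hS : ∀ l k, w.Ge 1 (S l k - if l = k then 1 else 0) := fun l k =>
    frame_cong w t u hF Δ h1 h2 h3 σ e hord hσ' l k
  -- the equation of the automorphism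
  have hstar : ∀ j l, ∑ i, ((φ (E j) i : ℤ) : K) * C i l = ∑ i, S l i * σ (C j i) := by
    intro j l
    have h6 := h4 (σ : K →ₐ[ℂ] K) (fun a => Δ l (σ a)) (fun a b => by rw [map_add, map_add])
      (fun a b => by
        rw [map_mul, Derivation.leibniz, smul_eq_mul, smul_eq_mul]
        rfl)
      (fun c => by rw [AlgEquiv.commutes, Derivation.map_algebraMap]) (χ (E j))
    have h7 : σ (χ (E j)) ≠ 0 := (map_ne_zero_iff σ σ.injective).2 (hEne j)
    have h8 : Δ l (σ (χ (E j))) / σ (χ (E j)) = ∑ i, ((φ (E j) i : ℤ) : K) * C i l := by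
      rw [hM.eq, ← Algebra.smul_def, Derivation.map_smul, Algebra.smul_def, Algebra.smul_def]
      have h9 : algebraMap ℂ K (c (E j)) ≠ 0 :=
        (map_ne_zero_iff _ (algebraMap ℂ K).injective).2 (hM.ne _)
      rw [mul_div_mul_left _ _ h9]
      exact logder hχ (Δ l) (φ (E j))
    rw [← h8]
    have h10 : Δ l (σ (χ (E j))) = ∑ i, σ (Δ i (χ (E j))) * S l i := h6
    rw [h10, Finset.sum_div]
    refine Finset.sum_congr rfl fun i _ => ?_
    show σ (Δ i (χ (E j))) * S l i / σ (χ (E j)) = S l i * σ (Δ i (χ (E j)) / χ (E j))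
    rw [map_div₀]
    ring
  -- eigenvectors
  have hUφ : ∀ v, pair (φ v) (ordVec χ w) = pair v (ordVec χ w) := by
    intro v
    rw [← TDC.ord_chi hχ, ← TDC.ord_chi hχ, ← hord (χ v), hM.eq,
      DivVal.ord_const_mul w (hM.ne v)]
  obtain ⟨R, a, hR, hRφ, ha, hsum⟩ := eigmat hEIG φ (ordVec χ w) hM.pos hM.iter hU hUφ
  let RK : Matrix (Fin (m + 1)) (Fin (m + 1)) K := R.map (algebraMap ℂ K)
  have hRK : RK.det = algebraMap ℂ K R.det := ((algebraMap ℂ K).map_det R).symm
  let cc : Matrix (Fin (m + 1)) (Fin (m + 1)) K := RK.transpose * C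
  have hcc : ∀ r l, cc r l = ∑ j, algebraMap ℂ K (R j r) * C j l := fun r l => rfl
  have hccdet : cc.det = algebraMap ℂ K R.det * C.det := by
    show (RK.transpose * C).det = _
    rw [Matrix.det_mul, Matrix.det_transpose, hRK]
  have hRne : algebraMap ℂ K R.det ≠ 0 := (map_ne_zero_iff _ (algebraMap ℂ K).injective).2 hR
  have hccne : cc.det ≠ 0 := by
    rw [hccdet]
    exact mul_ne_zero hRne hdet
  have hcc0 : ∀ r l, w.Ge 0 (cc r l) := by
    intro r l
    rw [hcc]
    exact DivVal.Ge.sum _ _ fun j _ => (hC j l).const_mul _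
  have hlead : ∀ r, ∃ κ : ℕ, (∀ l, w.Ge (κ : ℤ) (cc r l)) ∧ e * a r ≤ k * κ := by
    intro r
    have h6 : ∃ l, cc r l ≠ 0 := by
      by_contra hcon
      push Not at hcon
      exact hccne (Matrix.det_eq_zero_of_row_eq_zero r hcon)
    have h7 : ∀ l, ∑ i, S l i * σ (cc r i) =
        algebraMap ℂ K (Complex.exp (2 * Real.pi * Complex.I * a r / k)) * cc r l := by
      intro l
      calc ∑ i, S l i * σ (cc r i)
          = ∑ i, ∑ j, algebraMap ℂ K (R j r) * (S l i * σ (C j i)) := by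
            refine Finset.sum_congr rfl fun i _ => ?_
            rw [hcc, map_sum, Finset.mul_sum]
            refine Finset.sum_congr rfl fun j _ => ?_
            rw [map_mul, AlgEquiv.commutes]
            ring
        _ = ∑ j, algebraMap ℂ K (R j r) * ∑ i, S l i * σ (C j i) := by
            rw [Finset.sum_comm]
            exact Finset.sum_congr rfl fun j _ => (Finset.mul_sum _ _ _).symm
        _ = ∑ j, algebraMap ℂ K (R j r) * ∑ i, ((φ (E j) i : ℤ) : K) * C i l := by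
            exact Finset.sum_congr rfl fun j _ => by rw [hstar]
        _ = ∑ i, (∑ j, algebraMap ℂ K (((φ (E j) i : ℤ) : ℂ) * R j r)) * C i l := by
            simp only [Finset.mul_sum, Finset.sum_mul]
            rw [Finset.sum_comm]
            refine Finset.sum_congr rfl fun i _ => Finset.sum_congr rfl fun j _ => ?_
            rw [map_mul, map_intCast]
            ring
        _ = ∑ i, algebraMap ℂ K (Complex.exp (2 * Real.pi * Complex.I * a r / k) * R i r) *
              C i l := by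
            refine Finset.sum_congr rfl fun i _ => ?_
            rw [← map_sum, hRφ]
        _ = algebraMap ℂ K (Complex.exp (2 * Real.pi * Complex.I * a r / k)) * cc r l := by
            rw [hcc, Finset.mul_sum]
            refine Finset.sum_congr rfl fun i _ => ?_
            rw [map_mul, mul_assoc]
    obtain ⟨κ, hκ1, hκ2⟩ := leading w σ e hord hσ' S hS (cc r) (hcc0 r) h6 _ h7
    exact ⟨κ, hκ1, exp_le hM.pos he (ha r) hκ2⟩
  choose κ hκ1 hκ2 using hlead
  have h6 : w.Ge (∑ r, (κ r : ℤ)) cc.det := by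
    rw [← Matrix.det_transpose]
    exact DivVal.Ge.det_cols (fun r => (κ r : ℤ)) fun i j => hκ1 j i
  have h7 := h6.le hccne
  rw [hccdet, DivVal.ord_const_mul w hR] at h7
  have h8 : w.logOrd (torForm χ) = w.ord C.det := hlog
  rw [h8]
  have h9 : e * ∑ r, a r ≤ k * ∑ r, κ r := by
    rw [Finset.mul_sum, Finset.mul_sum]
    exact Finset.sum_le_sum fun r _ => hκ2 r
  have h10 : k * (e * cod φ) ≤ k * (2 * ∑ r, κ r) := by
    calc k * (e * cod φ) = e * (k * cod φ) := by ring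
      _ = e * (2 * ∑ r, a r) := by rw [hsum]
      _ = 2 * (e * ∑ r, a r) := by ring
      _ ≤ 2 * (k * ∑ r, κ r) := Nat.mul_le_mul_left 2 h9
      _ = k * (2 * ∑ r, κ r) := by ring
  have h11 : e * cod φ ≤ 2 * ∑ r, κ r := Nat.le_of_mul_le_mul_left h10 hM.pos
  have h12 : (e : ℤ) * cod φ ≤ 2 * ∑ r, (κ r : ℤ) := by
    have := (Int.ofNat_le.2 h11)
    push_cast at this
    exact this
  omega

end

end MldGeo
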