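import Pool.Agent.MldGeo.StmtsQ
import Pool.Agent.MldGeo.GAUT

/-!
# Automorphisms which normalise the torus are monomial
-/

namespace MldGeo

open MldGap MldAcc MldQ

noncomputable section

namespace QMON

variable {n : ℕ} {K : Type} [Field K] [Algebra ℂ K] {χ : (Fin n → ℤ) → K}

theorem chi_mul (h : TorusField χ) (u : Fin n → ℤ) : χ u * χ (-u) = 1 := by
  rw [← h.add, add_neg_cancel, h.zero]

theorem chi_ne (h : TorusField χ) (u : Fin n → ℤ) : χ u ≠ 0 := by
  intro h0
  have h1 := chi_mul h u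
  rw [h0, zero_mul] at h1
  exact zero_ne_one h1

theorem chi_neg (h : TorusField χ) (u : Fin n → ℤ) : χ (-u) = (χ u)⁻¹ :=
  eq_inv_of_mul_eq_one_right (chi_mul h u)

theorem lin (h : TorusField χ) : LinearIndependent ℂ χ := GAUT.linInd h.zero h.add h.indep

theorem uniq (h : TorusField χ) {c c' : ℂ} {u u' : Fin n → ℤ} (hc : c ≠ 0)
    (e : algebraMap ℂ K c * χ u = algebraMap ℂ K c' * χ u') : u = u' ∧ c = c' := by
  classical
  have hli := linearIndependent_iff'.1 (lin h)
  have hu : u = u' := by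
    by_contra hne
    have h1 := hli {u, u'} (fun w => if w = u then c else -c') (by
      rw [Finset.sum_pair hne, if_pos rfl, if_neg (Ne.symm hne), Algebra.smul_def,
        Algebra.smul_def, map_neg, e]
      ring) u (Finset.mem_insert_self _ _)
    rw [if_pos rfl] at h1
    exact hc h1
  subst hu
  refine ⟨rfl, ?_⟩
  have h2 := mul_right_cancel₀ (chi_ne h u) e
  exact (algebraMap ℂ K).injective h2

end QMON

/-- MON: automorphisms which normalise the torus are monomial. -/
theorem t_QMON : Stmt_QMON := by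
  classical
  intro n X A χ S hC hG σ hσR hN k hk hσk
  have hT : TorusField χ := hC.toTorusField
  -- the image of a character
  have hgood : ∀ u : Fin n → ℤ, ∃ (c : ℂ) (u' : Fin n → ℤ), c ≠ 0 ∧
      σ (χ u) = algebraMap ℂ X.K c * χ u' := by
    intro u
    have hu : u ∈ AddSubgroup.closure (S : Set (Fin n → ℤ)) := by
      rw [hC.gen]
      exact AddSubgroup.mem_top u
    induction hu using AddSubgroup.closure_induction with
    | mem u hu =>
      have hm : χ u ∈ X.R := (hC.mem_R u).1 hu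
      have ha : (⟨χ u, hm⟩ : X.R) ∈ A.gr u := by
        rw [hG u]
        exact ⟨1, fun _ => hu, by rw [map_one, one_mul]⟩
      obtain ⟨u', hu'⟩ := hN u
      have hb := hu' ⟨χ u, hm⟩ ⟨σ (χ u), hσR _ hm⟩ ha rfl
      rw [hG u'] at hb
      obtain ⟨c, -, hc⟩ := hb
      have hc' : σ (χ u) = algebraMap ℂ X.K c * χ u' := hc
      refine ⟨c, u', ?_, hc'⟩
      rintro rfl
      rw [map_zero, zero_mul] at hc'
      exact QMON.chi_ne hT u ((map_eq_zero σ).1 hc')
    | zero => exact ⟨1, 0, one_ne_zero, by rw [hT.zero, map_one, map_one, mul_one]⟩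
    | add u w _ _ hu hw =>
      obtain ⟨c, u', hc, hu'⟩ := hu
      obtain ⟨d, w', hd, hw'⟩ := hw
      refine ⟨c * d, u' + w', mul_ne_zero hc hd, ?_⟩
      rw [hT.add, map_mul, hu', hw', hT.add, map_mul]
      ring
    | neg u _ hu =>
      obtain ⟨c, u', hc, hu'⟩ := hu
      refine ⟨c⁻¹, -u', inv_ne_zero hc, ?_⟩
      rw [QMON.chi_neg hT, map_inv₀, hu', QMON.chi_neg hT, mul_inv, map_inv₀]
  choose c f hc hf using hgood
  have hadd : ∀ u w, f (u + w) = f u + f w ∧ c (u + w) = c u * c w := by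
    intro u w
    refine QMON.uniq hT (hc _) ?_
    rw [← hf, hT.add, map_mul, hf, hf, hT.add, map_mul]
    ring
  let φ : (Fin n → ℤ) →ₗ[ℤ] (Fin n → ℤ) :=
    (AddMonoidHom.mk' f fun u w => (hadd u w).1).toIntLinearMap
  have hφ : ∀ u, φ u = f u := fun u => rfl
  -- the iterates
  have hiter : ∀ (j : ℕ) (u : Fin n → ℤ), (σ ^ j) (χ u) =
      algebraMap ℂ X.K (∏ i ∈ Finset.range j, c ((φ ^ i) u)) * χ ((φ ^ j) u) := by
    intro j u
    induction j with
    | zero =>
      rw [pow_zero, pow_zero, Finset.range_zero, Finset.prod_empty, map_one, one_mul]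
      rfl
    | succ j ih =>
      rw [pow_succ' σ, AlgEquiv.mul_apply, ih, map_mul, AlgEquiv.commutes, hf,
        Finset.prod_range_succ, map_mul, pow_succ' φ, Module.End.mul_apply, hφ]
      ring
  have hlast : ∀ u, (φ ^ k) u = u ∧ ∏ i ∈ Finset.range k, c ((φ ^ i) u) = 1 := by
    intro u
    have h1 := hiter k u
    rw [hσk, AlgEquiv.one_apply] at h1
    have h0 : algebraMap ℂ X.K 1 * χ u =
        algebraMap ℂ X.K (∏ i ∈ Finset.range k, c ((φ ^ i) u)) * χ ((φ ^ k) u) := by
      rw [map_one, one_mul]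
      exact h1
    have h2 := QMON.uniq hT one_ne_zero h0
    exact ⟨h2.1.symm, h2.2.symm⟩
  have hS : ∀ u, u ∈ S → φ u ∈ S := by
    intro u hu
    have h1 : σ (χ u) ∈ X.R := hσR _ ((hC.mem_R u).1 hu)
    rw [hf] at h1
    rw [hφ, hC.mem_R]
    have h2 : χ (f u) = algebraMap ℂ X.K (c u)⁻¹ * (algebraMap ℂ X.K (c u) * χ (f u)) := by
      rw [← mul_assoc, ← map_mul, inv_mul_cancel₀ (hc u), map_one, one_mul]
    rw [h2]
    exact X.R.mul_mem (X.R.algebraMap_mem _) h1
  have hS' : ∀ (j : ℕ) (u : Fin n → ℤ), u ∈ S → (φ ^ j) u ∈ S := by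
    intro j u hu
    induction j with
    | zero => exact hu
    | succ j ih =>
      rw [pow_succ', Module.End.mul_apply]
      exact hS _ ih
  refine ⟨φ, c, ⟨hk, hc, fun u w => (hadd u w).2, hf, hσk, ?_, fun u => (hlast u).2⟩, ?_⟩
  · exact LinearMap.ext fun u => (hlast u).1
  · intro u
    refine ⟨hS u, fun hu => ?_⟩
    have h1 := hS' (k - 1) _ hu
    have h2 : (φ ^ (k - 1)) (φ u) = u := by
      have h3 : φ ^ k = φ ^ (k - 1) * φ := by
        rw [← pow_succ]
        congr 1
        omega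
      have h4 := (hlast u).1
      rw [h3] at h4
      exact h4
    rwa [h2] at h1

end

end MldGeo
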