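import Pool.Agent.MldGeo.StmtsQ

/-!
# QV: valuations with a given inertia group
-/

namespace MldGeo

open MldGap MldAcc MldQ

noncomputable section

namespace QV

theorem pow_eq_one {n k e : ℕ} {φ : (Fin n → ℤ) →ₗ[ℤ] (Fin n → ℤ)} (h : φ ^ k = 1)
    (hke : k ∣ e) : φ ^ e = 1 := by
  obtain ⟨l, rfl⟩ := hke
  rw [pow_mul, h, one_pow]

theorem emb_mul {F : Type} [Field F] [Algebra ℂ F] (Λ : LField F) (z : ℂ) (y : F) :
    Λ.emb (algebraMap ℂ F z * y) = algebraMap ℂ Λ.L z * Λ.emb y := by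
  rw [map_mul, AlgHom.commutes]

end QV

open QV

theorem t_QV (hEIG : Stmt_EIG) (hCOC : Stmt_COC) (hLAU : Stmt_LAU) (hEXPL : Stmt_EXPL)
    (hRATF : Stmt_RATF) (hCH1 : Stmt_CH1) (hCH2 : Stmt_CH2) (hEMBK : Stmt_EMBK)
    (hRSI : Stmt_RSI) (hLGB : Stmt_LGB) (hDVL : Stmt_DVL) (hROT : Stmt_ROT) : Stmt_QV := by
  intro n K _ _ χ hχ htr σ φ c k hM e U he hke hU hUφ hcU
  have hφe : φ ^ e = 1 := pow_eq_one hM.iter hke
  obtain ⟨p, q, ν, ε, a, hdim, hq, hν, ha, hsum, hε, hind⟩ := hEIG φ U he hφe hU hUφ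
  -- the coboundary
  obtain ⟨κ, hκ⟩ : ∃ κ : (Fin n → ℤ) → ℂ, ∀ m,
      κ m = Complex.exp (2 * Real.pi * Complex.I * (pair m U : ℤ) / e) / c m :=
    ⟨_, fun _ => rfl⟩
  have hκc : ∀ m, c m * κ m = Complex.exp (2 * Real.pi * Complex.I * (pair m U : ℤ) / e) := by
    intro m
    rw [hκ, mul_div_cancel₀ _ (hM.ne m)]
  obtain ⟨b, hb0, hbm, hbφ⟩ := hCOC φ κ
    (fun u => by rw [hκ]; exact div_ne_zero (Complex.exp_ne_zero _) (hM.ne u))
    (fun u w => by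
      rw [hκ, hκ, hκ, hM.mul, div_mul_div_comm, ← Complex.exp_add, TDC.pair_add_left]
      congr 2
      push_cast
      ring)
    (fun m hm => by
      rw [hκ, hcU m hm, div_self (Complex.exp_ne_zero _)])
  obtain ⟨F, fF, aF, x, d, hx, hd⟩ := hRATF (Fin p ⊕ Fin q)
  obtain ⟨Λ⟩ := hLAU F
  obtain ⟨ex⟩ := hEXPL Λ
  let Q : Setup n :=
    { p := p, q := q, dim := hdim, U := U, ν := ν, ε := ε, a := a
      a_pos := fun i => (ha i).1
      indep := hind, b := b, b_ne := hb0, b_mul := hbm, F := F, fieldF := fF, algF := aF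
      x := x, x_ind := hx, d := d, d_x := hd, Λ := Λ, ex := ex }
  obtain ⟨hE0, hEm, hEne, hEord, -⟩ := hCH1 Q
  have hEMB := hEMBK (L := Q.Λ.L) χ hχ Q.E hE0 hEm (hCH2 Q)
  obtain ⟨ι, hι⟩ := hEMB.1
  have hUU : pair U U ≠ 0 := by
    obtain ⟨i, hi⟩ : ∃ i, U i ≠ 0 := by
      by_contra h
      push Not at h
      exact hU (funext h)
    have : 0 < pair U U := by
      unfold pair
      apply Finset.sum_pos' (fun j _ => mul_self_nonneg (U j))
      exact ⟨i, Finset.mem_univ i, mul_self_pos.mpr hi⟩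
    exact this.ne'
  obtain ⟨w, δ, hδ, hw⟩ := hDVL Q ι
    ⟨χ U, TDC.chi_ne hχ U, by rw [hι, hEord]; exact hUU⟩ (hRSI Q χ hχ ι hι)
  refine ⟨w, δ, hδ, ?_, ?_, ?_⟩
  · intro m
    rw [hw _ (TDC.chi_ne hχ m), hι, hEord]
  · have h1 := hLGB Q χ hχ htr ι hι w δ hδ hw
    have h2 : (2 : ℤ) * ∑ i, (a i : ℤ) = e * cod φ := by
      rw [← hq]
      exact_mod_cast hsum
    have h3 : (δ : ℤ) * w.logOrd (torForm χ) ≤ ∑ i, (a i : ℤ) := h1
    linarith
  · intro f hf hσf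
    obtain ⟨ζ, hζ⟩ : ∃ ζ : ℂˣ, (ζ : ℂ) = Complex.exp (2 * Real.pi * Complex.I / e) :=
      ⟨Units.mk0 _ (Complex.exp_ne_zero _), rfl⟩
    obtain ⟨hR1, hR2⟩ := hROT Q e he ζ hζ
    have hcomm : (Q.Λ.rot ζ).comp ι = ι.comp (σ : K →ₐ[ℂ] K) := by
      apply hEMB.2
      intro m
      show Q.Λ.rot ζ (ι (χ m)) = ι (σ (χ m))
      rw [hι, hM.eq, map_mul, AlgHom.commutes, hι, hR2 m]
      unfold Setup.E Setup.Z
      have h1 : pair (φ m) Q.U = pair m Q.U := hUφ m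
      have h2 : ∀ j, pair (φ m) (Q.ν j) = pair m (Q.ν j) := fun j => hν j m
      have h3 : ∀ i, cpair (φ m) (Q.ε i) =
          Complex.exp (2 * Real.pi * Complex.I * Q.a i / e) * cpair m (Q.ε i) :=
        fun i => hε i m
      have h4 : c m * Q.b (φ m) =
          Complex.exp (2 * Real.pi * Complex.I * (pair m Q.U : ℤ) / e) * Q.b m := by
        show c m * b (φ m) = Complex.exp (2 * Real.pi * Complex.I * (pair m U : ℤ) / e) * b m
        rw [hbφ, ← mul_assoc, hκc]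
      have h5 := congrArg (algebraMap ℂ Q.Λ.L) h4
      rw [map_mul, map_mul] at h5
      simp only [h1, h2, h3]
      rw [emb_mul, emb_mul]
      linear_combination (-(Q.Λ.s ^ pair m Q.U *
        Q.Λ.emb (∏ j, Q.x (Sum.inl j) ^ pair m (Q.ν j)) *
        Q.ex.ex (∑ i, algebraMap ℂ Q.Λ.L
          (Complex.exp (2 * Real.pi * Complex.I * Q.a i / e) * cpair m (Q.ε i)) *
          (Q.Λ.emb (Q.x (Sum.inr i)) * Q.Λ.s ^ Q.a i)))) * h5
    have h6 : Q.Λ.rot ζ (ι f) = ι f := by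
      have h7 := DFunLike.congr_fun hcomm f
      have h8 : Q.Λ.rot ζ (ι f) = ι (σ f) := h7
      rw [h8, hσf]
    rw [hw f hf]
    exact hR1 _ ((map_ne_zero ι).mpr hf) h6

end

end MldGeo
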