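import Pool.Agent.MldGeo.StmtsQ

/-!
# RATF: the field of rational functions and its derivations
-/

set_option autoImplicit false

namespace MldGeo

open KaehlerDifferential

theorem t_RATF : Stmt_RATF := by
  intro ι _ _
  classical
  have et : Algebra.FormallyEtale (MvPolynomial ι ℂ) (FractionRing (MvPolynomial ι ℂ)) :=
    Algebra.FormallyEtale.of_isLocalization (nonZeroDivisors _)
  let x : ι → FractionRing (MvPolynomial ι ℂ) := fun i =>
    algebraMap (MvPolynomial ι ℂ) (FractionRing (MvPolynomial ι ℂ)) (MvPolynomial.X i)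
  let b : Module.Basis ι (FractionRing (MvPolynomial ι ℂ))
      (Ω[FractionRing (MvPolynomial ι ℂ)⁄ℂ]) :=
    ((mvPolynomialBasis ℂ ι).baseChange (FractionRing (MvPolynomial ι ℂ))).map
      (tensorKaehlerEquivOfFormallyEtale ℂ (MvPolynomial ι ℂ) (FractionRing (MvPolynomial ι ℂ)))
  have hb : ∀ i, b i = KaehlerDifferential.D ℂ (FractionRing (MvPolynomial ι ℂ)) (x i) := by
    intro i
    have h1 : mvPolynomialBasis ℂ ι i =
        KaehlerDifferential.D ℂ (MvPolynomial ι ℂ) (MvPolynomial.X i) := by
      apply (mvPolynomialBasis ℂ ι).repr.injective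
      rw [mvPolynomialBasis_repr_D_X, Module.Basis.repr_self]
    show (((mvPolynomialBasis ℂ ι).baseChange (FractionRing (MvPolynomial ι ℂ))).map
      (tensorKaehlerEquivOfFormallyEtale ℂ (MvPolynomial ι ℂ)
        (FractionRing (MvPolynomial ι ℂ)))) i = _
    rw [Module.Basis.map_apply, Module.Basis.baseChange_apply, h1,
      ← tensorKaehlerEquivOfFormallyEtale_symm_D_algebraMap, LinearEquiv.apply_symm_apply]
  refine ⟨FractionRing (MvPolynomial ι ℂ), inferInstance, inferInstance, x,
    fun i => (b.coord i).compDer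
      (KaehlerDifferential.D ℂ (FractionRing (MvPolynomial ι ℂ))), ?_, ?_⟩
  · have h := (MvPolynomial.algebraicIndependent_X ι ℂ).map'
      (f := IsScalarTower.toAlgHom ℂ (MvPolynomial ι ℂ) (FractionRing (MvPolynomial ι ℂ)))
      (IsFractionRing.injective (MvPolynomial ι ℂ) (FractionRing (MvPolynomial ι ℂ)))
    exact h
  · intro i j
    have h2 : (b.coord i).compDer (KaehlerDifferential.D ℂ (FractionRing (MvPolynomial ι ℂ)))
        (x j) = b.coord i (b j) := by
      rw [hb j]
      rfl
    rw [h2, Module.Basis.coord_apply, Module.Basis.repr_self, Finsupp.single_apply]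
    by_cases h : i = j
    · rw [if_pos h, if_pos h.symm]
    · rw [if_neg h, if_neg (fun h' => h h'.symm)]

end MldGeo
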