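import Pool.Agent.MldGeo.StmtsQ
import Pool.Agent.MldGeo.Ord

/-!
# Series which are invariant under `s ↦ ζ s`
-/

namespace MldGeo

open MldGap MldAcc MldQ

noncomputable section

namespace ROT

theorem exp_zpow {e : ℕ} (ζ : ℂˣ) (hζ : (ζ : ℂ) = Complex.exp (2 * Real.pi * Complex.I / e))
    (k : ℤ) : (ζ : ℂ) ^ k = Complex.exp (2 * Real.pi * Complex.I * (k : ℤ) / e) := by
  rw [hζ, ← Complex.exp_int_mul]
  congr 1
  ring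

theorem exp_npow {e : ℕ} (ζ : ℂˣ) (hζ : (ζ : ℂ) = Complex.exp (2 * Real.pi * Complex.I / e))
    (k : ℕ) : (ζ : ℂ) ^ k = Complex.exp (2 * Real.pi * Complex.I * k / e) := by
  rw [hζ, ← Complex.exp_nat_mul]
  congr 1
  ring

theorem dvd_of_exp {e : ℕ} (he : 0 < e) (k : ℤ)
    (h : Complex.exp (2 * Real.pi * Complex.I * (k : ℤ) / e) = 1) : (e : ℤ) ∣ k := by
  obtain ⟨m, hm⟩ := Complex.exp_eq_one_iff.1 h
  have he' : (e : ℂ) ≠ 0 := Nat.cast_ne_zero.2 he.ne'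
  have hpi : (2 * Real.pi * Complex.I : ℂ) ≠ 0 := Complex.two_pi_I_ne_zero
  have h1 : (2 * Real.pi * Complex.I : ℂ) * k = (2 * Real.pi * Complex.I) * (m * e) := by
    rw [div_eq_iff he'] at hm
    rw [hm]
    ring
  have h2 : (k : ℂ) = m * e := mul_left_cancel₀ hpi h1
  refine ⟨m, ?_⟩
  have h3 : (k : ℂ) = ((m * e : ℤ) : ℂ) := by rw [h2]; push_cast; ring
  rw [Int.cast_injective h3, mul_comm]

section

variable {F : Type} [Field F] [Algebra ℂ F] (Λ : LField F)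

theorem rot_zpow (ζ : ℂˣ) (k : ℤ) :
    Λ.rot ζ (Λ.s ^ k) = algebraMap ℂ Λ.L ((ζ : ℂ) ^ k) * Λ.s ^ k := by
  rw [map_zpow₀, Λ.rot_s, mul_zpow, map_zpow₀]

theorem rot_npow (ζ : ℂˣ) (k : ℕ) :
    Λ.rot ζ (Λ.s ^ k) = algebraMap ℂ Λ.L ((ζ : ℂ) ^ k) * Λ.s ^ k := by
  rw [map_pow, Λ.rot_s, mul_pow, map_pow]

theorem ge_emb (x : F) : Λ.Ge 0 (Λ.emb x) := by
  by_cases hx : x = 0
  · rw [hx, map_zero]
    exact Or.inl rfl
  · exact Or.inr (Λ.ord_emb x hx).ge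

theorem ge_s : Λ.Ge 1 Λ.s := Or.inr Λ.ord_s.ge

theorem ge_rot (ζ : ℂˣ) {k : ℤ} {x : Λ.L} (h : Λ.Ge k x) : Λ.Ge k (Λ.rot ζ x) := by
  rcases h with h | h
  · left
    rw [h, map_zero]
  · right
    exact h.trans (Λ.rot_ord ζ x).ge

theorem dvd_ord {e : ℕ} (he : 0 < e) (ζ : ℂˣ)
    (hζ : (ζ : ℂ) = Complex.exp (2 * Real.pi * Complex.I / e)) (f : Λ.L) (hf : f ≠ 0)
    (h : Λ.rot ζ f = f) : (e : ℤ) ∣ Λ.ord f := by
  obtain ⟨a, ha, hlead⟩ := Λ.lead f hf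
  set k := Λ.ord f with hk
  set g := f - Λ.emb a * Λ.s ^ k with hg
  have hge : Λ.Ge (k + 1) g := by
    rcases hlead with h0 | h0
    · exact Or.inl h0
    · exact Or.inr (Int.add_one_le_of_lt h0)
  have hf' : f = Λ.emb a * Λ.s ^ k + g := by rw [hg]; ring
  have hrot : Λ.rot ζ f = Λ.emb a * (algebraMap ℂ Λ.L ((ζ : ℂ) ^ k) * Λ.s ^ k) + Λ.rot ζ g := by
    conv_lhs => rw [hf']
    rw [map_add, map_mul, Λ.rot_emb, rot_zpow]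
  have hdiff : algebraMap ℂ Λ.L ((ζ : ℂ) ^ k - 1) * (Λ.emb a * Λ.s ^ k) = g - Λ.rot ζ g := by
    rw [h] at hrot
    have h2 : Λ.emb a * Λ.s ^ k + g =
        Λ.emb a * (algebraMap ℂ Λ.L ((ζ : ℂ) ^ k) * Λ.s ^ k) + Λ.rot ζ g := by
      rw [← hf']
      exact hrot
    rw [map_sub, map_one]
    linear_combination -h2
  have hge2 : Λ.Ge (k + 1) (g - Λ.rot ζ g) := DivVal.Ge.sub hge (ge_rot Λ ζ hge)
  rw [← hdiff] at hge2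
  have hz : (ζ : ℂ) ^ k = 1 := by
    by_contra hne
    have hne' : (ζ : ℂ) ^ k - 1 ≠ 0 := sub_ne_zero.2 hne
    have h1 : Λ.emb a * Λ.s ^ k ≠ 0 :=
      mul_ne_zero ((map_ne_zero _).2 ha) (zpow_ne_zero _ Λ.s_ne)
    have h2 : algebraMap ℂ Λ.L ((ζ : ℂ) ^ k - 1) * (Λ.emb a * Λ.s ^ k) ≠ 0 :=
      mul_ne_zero ((map_ne_zero _).2 hne') h1
    have h3 := DivVal.Ge.le hge2 h2
    have h4 : Λ.val.ord (algebraMap ℂ Λ.L ((ζ : ℂ) ^ k - 1) * (Λ.emb a * Λ.s ^ k)) = k := by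
      rw [DivVal.ord_const_mul Λ.val hne', Λ.val.ord_mul _ _ ((map_ne_zero _).2 ha)
        (zpow_ne_zero _ Λ.s_ne), DivVal.ord_zpow]
      have h5 : Λ.val.ord (Λ.emb a) = 0 := Λ.ord_emb a ha
      have h6 : Λ.val.ord Λ.s = 1 := Λ.ord_s
      rw [h5, h6]
      ring
    rw [h4] at h3
    omega
  rw [exp_zpow ζ hζ] at hz
  exact dvd_of_exp he k hz

end

variable {n : ℕ} (Q : Setup n)

theorem ge_term (m : Fin n → ℤ) (i : Fin Q.q) :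
    Q.Λ.Ge 1 (algebraMap ℂ Q.Λ.L (cpair m (Q.ε i)) *
      (Q.Λ.emb (Q.x (Sum.inr i)) * Q.Λ.s ^ Q.a i)) := by
  refine DivVal.Ge.const_mul ?_ _
  refine DivVal.Ge.mul_left (ge_emb Q.Λ _) ?_
  have h1 := DivVal.Ge.pow (ge_s Q.Λ) (Q.a i)
  refine h1.mono ?_
  have := Q.a_pos i
  rw [mul_one]
  exact_mod_cast this

theorem ge_Z (m : Fin n → ℤ) : Q.Λ.Ge 1 (Q.Z m) :=
  DivVal.Ge.sum _ _ fun i _ => ge_term Q m i

theorem rot_Z {e : ℕ} (ζ : ℂˣ) (hζ : (ζ : ℂ) = Complex.exp (2 * Real.pi * Complex.I / e))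
    (m : Fin n → ℤ) : Q.Λ.rot ζ (Q.Z m) = ∑ i, algebraMap ℂ Q.Λ.L
      (Complex.exp (2 * Real.pi * Complex.I * Q.a i / e) * cpair m (Q.ε i)) *
        (Q.Λ.emb (Q.x (Sum.inr i)) * Q.Λ.s ^ Q.a i) := by
  rw [Setup.Z, map_sum]
  refine Finset.sum_congr rfl fun i _ => ?_
  rw [map_mul, AlgHom.commutes, map_mul, Q.Λ.rot_emb, rot_npow, exp_npow ζ hζ,
    map_mul (algebraMap ℂ Q.Λ.L)]
  ring

end ROT

theorem t_ROT (_hCH1 : Stmt_CH1) : Stmt_ROT := by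
  intro n Q e he ζ hζ
  refine ⟨fun f hf h => ROT.dvd_ord Q.Λ he ζ hζ f hf h, fun m => ?_⟩
  rw [Setup.E, map_mul, map_mul, ROT.rot_zpow, Q.Λ.rot_emb, Q.ex.rot ζ _ (ROT.ge_Z Q m),
    ROT.rot_Z Q ζ hζ, ROT.exp_zpow ζ hζ]
  ring

end

end MldGeo
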