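import Pool.Agent.MldGeo.StmtsQ

/-!
# RSI: the residues
-/

namespace MldGeo

noncomputable section

namespace RSI

/-! ### algebraic independence -/

section Alg

open MvPolynomial

variable {ι : Type} {F : Type} [Field F] [Algebra ℂ F]

theorem resc (c : ι → ℂ) (hc : ∀ k, c k ≠ 0) (P : MvPolynomial ι ℂ) :
    aeval (fun k => C (c k)⁻¹ * X k : ι → MvPolynomial ι ℂ)
      (aeval (fun k => C (c k) * X k : ι → MvPolynomial ι ℂ) P) = P := by
  induction P using MvPolynomial.induction_on with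
  | C a => rw [aeval_C, MvPolynomial.algebraMap_eq, aeval_C, MvPolynomial.algebraMap_eq]
  | add p q hp hq => rw [map_add, map_add, hp, hq]
  | mul_X p i hp =>
    rw [map_mul, map_mul, hp, aeval_X, map_mul, aeval_X, aeval_C, MvPolynomial.algebraMap_eq,
      ← mul_assoc (C (c i)), ← C_mul, mul_inv_cancel₀ (hc i), C_1, one_mul]

theorem comb (x : ι → F) (c : ι → ℂ) (D : ℕ) (P : MvPolynomial ι ℂ) :
    aeval x (MvPolynomial.expand D
      (aeval (fun k => C (c k) * X k : ι → MvPolynomial ι ℂ) P)) =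
      aeval (fun k => algebraMap ℂ F (c k) * x k ^ D) P := by
  induction P using MvPolynomial.induction_on with
  | C a =>
    rw [aeval_C, aeval_C, MvPolynomial.algebraMap_eq, MvPolynomial.expand_C, aeval_C]
  | add p q hp hq => rw [map_add, map_add, map_add, map_add, hp, hq]
  | mul_X p i hp =>
    rw [map_mul, map_mul, map_mul, map_mul, hp, aeval_X, aeval_X, map_mul, MvPolynomial.expand_C,
      MvPolynomial.expand_X, map_mul, aeval_C, map_pow, aeval_X]

/-- Multiples of powers of algebraically independent elements. -/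
theorem aeval_ne {x : ι → F} (hx : AlgebraicIndependent ℂ x) {c : ι → ℂ} (hc : ∀ k, c k ≠ 0)
    {D : ℕ} (hD : 0 < D) {P : MvPolynomial ι ℂ} (hP : P ≠ 0) :
    aeval (fun k => algebraMap ℂ F (c k) * x k ^ D) P ≠ 0 := by
  rw [← comb]
  have h1 : aeval (fun k => C (c k) * X k : ι → MvPolynomial ι ℂ) P ≠ 0 := by
    intro h
    apply hP
    rw [← resc c hc P, h, map_zero]
  have h2 := (MvPolynomial.expand_ne_zero hD).2 h1
  intro h
  exact h2 ((algebraicIndependent_iff.1 hx) _ h)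

end Alg

/-! ### congruences -/

section Cong

variable {F : Type} [Field F] [Algebra ℂ F] (Λ : LField F)

/-- `a` has the residue `r`. -/
def Cg (a : Λ.L) (r : F) : Prop := Λ.Ge 1 (a - Λ.emb r)

variable {Λ}

theorem ge_emb (r : F) : Λ.Ge 0 (Λ.emb r) := by
  by_cases h : r = 0
  · exact Or.inl (by rw [h, map_zero])
  · exact Or.inr (Λ.ord_emb r h).ge

theorem Cg.ge {a : Λ.L} {r : F} (h : Cg Λ a r) : Λ.Ge 0 a := by
  have h1 := DivVal.Ge.add (DivVal.Ge.mono h zero_le_one) (ge_emb (Λ := Λ) r)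
  rwa [sub_add_cancel] at h1

theorem Cg.emb (r : F) : Cg Λ (Λ.emb r) r := by
  unfold Cg
  rw [sub_self]
  exact Or.inl rfl

theorem Cg.mul {a b : Λ.L} {r s : F} (h : Cg Λ a r) (h' : Cg Λ b s) : Cg Λ (a * b) (r * s) := by
  unfold Cg
  have h1 : a * b - Λ.emb (r * s) = a * (b - Λ.emb s) + (a - Λ.emb r) * Λ.emb s := by
    rw [map_mul]
    ring
  rw [h1]
  exact (DivVal.Ge.mul_left h.ge h').add (DivVal.Ge.mul_right h (ge_emb s))

theorem Cg.add {a b : Λ.L} {r s : F} (h : Cg Λ a r) (h' : Cg Λ b s) : Cg Λ (a + b) (r + s) := by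
  unfold Cg
  have h1 : a + b - Λ.emb (r + s) = (a - Λ.emb r) + (b - Λ.emb s) := by
    rw [map_add]
    ring
  rw [h1]
  exact DivVal.Ge.add h h'

theorem Cg.pow {a : Λ.L} {r : F} (h : Cg Λ a r) (m : ℕ) : Cg Λ (a ^ m) (r ^ m) := by
  induction m with
  | zero =>
    rw [pow_zero, pow_zero, ← map_one Λ.emb]
    exact Cg.emb 1
  | succ m ih =>
    rw [pow_succ, pow_succ]
    exact ih.mul h

theorem Cg.ne {a : Λ.L} {r : F} (h : Cg Λ a r) (hr : r ≠ 0) : a ≠ 0 ∧ Λ.ord a = 0 := by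
  have h1 : Λ.val.ord (Λ.emb r) = 0 := Λ.ord_emb r hr
  have h2 : Λ.emb r ≠ 0 := fun h => hr ((map_eq_zero Λ.emb).1 h)
  have h3 := DivVal.ord_add_eq_of_lt (v := Λ.val) (b := a - Λ.emb r) h2 (by
    rw [h1, zero_add]
    exact h)
  rw [add_sub_cancel] at h3
  exact ⟨h3.1, h3.2.trans h1⟩

theorem Cg.inv {a : Λ.L} {r : F} (h : Cg Λ a r) (hr : r ≠ 0) : Cg Λ a⁻¹ r⁻¹ := by
  obtain ⟨ha, ha0⟩ := h.ne hr
  have h2 : Λ.emb r ≠ 0 := fun h => hr ((map_eq_zero Λ.emb).1 h)
  unfold Cg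
  have h1 : a⁻¹ - Λ.emb r⁻¹ = -(a⁻¹ * Λ.emb r⁻¹ * (a - Λ.emb r)) := by
    rw [map_inv₀]
    field_simp
    ring
  rw [h1]
  refine DivVal.Ge.neg (DivVal.Ge.mul_left (DivVal.Ge.mul_left ?_ (ge_emb _)) h)
  exact DivVal.Ge.inv ha ha0

theorem Cg.aeval {ι : Type} {y : ι → Λ.L} {r : ι → F} (h : ∀ i, Cg Λ (y i) (r i))
    (P : MvPolynomial ι ℂ) : Cg Λ (MvPolynomial.aeval y P) (MvPolynomial.aeval r P) := by
  induction P using MvPolynomial.induction_on with
  | C c =>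
    rw [MvPolynomial.aeval_C, MvPolynomial.aeval_C, ← Λ.emb.commutes]
    exact Cg.emb _
  | add p q hp hq =>
    rw [map_add, map_add]
    exact hp.add hq
  | mul_X p i hp =>
    rw [map_mul, map_mul, MvPolynomial.aeval_X, MvPolynomial.aeval_X]
    exact hp.mul (h i)

/-- The exponential function has the residue `1`. -/
theorem cg_ex (ex : LExp Λ) {x : Λ.L} (hx : Λ.Ge 1 x) : Cg Λ (ex.ex x) 1 := by
  have h1 := ex.trunc x hx 1
  simp only [Finset.sum_range_one, pow_zero, Nat.factorial_zero, Nat.cast_one, inv_one, map_one,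
    mul_one] at h1
  unfold Cg
  rw [map_one]
  exact h1

end Cong

/-! ### dual vectors -/

section Lin

theorem toC_combo {n : ℕ} {κ : Type} [Fintype κ] {v : κ → Fin n → ℤ}
    (hv : LinearIndependent ℂ fun k => toC (v k)) :
    LinearIndependent ℚ fun k : κ => (fun i => ((v k i : ℤ) : ℚ) : Fin n → ℚ) := by
  rw [Fintype.linearIndependent_iff] at hv ⊢
  intro g hg k
  have h1 := hv (fun k => (g k : ℂ)) (by
    funext i
    have h2 := congrFun hg i
    rw [Finset.sum_apply, Pi.zero_apply] at h2 ⊢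
    have h3 := congrArg (fun t : ℚ => (t : ℂ)) h2
    simp only [Pi.smul_apply, smul_eq_mul] at h3 ⊢
    push_cast at h3
    exact h3) k
  exact_mod_cast h1

/-- Integral vectors which are dual to linearly independent integral vectors. -/
theorem exists_dual {n : ℕ} {κ : Type} [Fintype κ] [DecidableEq κ] {v : κ → Fin n → ℤ}
    (hv : LinearIndependent ℂ fun k => toC (v k)) :
    ∃ (D : ℕ) (m : κ → Fin n → ℤ), 0 < D ∧ ∀ k l, pair (m k) (v l) = if k = l then (D : ℤ) else 0 := by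
  classical
  have hq := toC_combo hv
  let w : κ → Fin n → ℚ := fun k i => ((v k i : ℤ) : ℚ)
  have hker : LinearMap.ker (Fintype.linearCombination ℚ w) = ⊥ := by
    rw [LinearMap.ker_eq_bot']
    intro g hg
    rw [Fintype.linearCombination_apply] at hg
    funext k
    exact Fintype.linearIndependent_iff.1 hq g hg k
  obtain ⟨g, hg⟩ := LinearMap.exists_leftInverse_of_injective _ hker
  have hgv : ∀ l k, g (w l) k = if k = l then 1 else 0 := by
    intro l k
    have h1 := congrFun (DFunLike.congr_fun hg (Pi.single l 1)) k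
    have h2 : Fintype.linearCombination ℚ w (Pi.single l 1) = w l := by
      rw [Fintype.linearCombination_apply_single, one_smul]
    rw [LinearMap.comp_apply, h2, LinearMap.id_apply, Pi.single_apply] at h1
    exact h1
  let a : κ → Fin n → ℚ := fun k i => g (Pi.single i 1) k
  have hga : ∀ (y : Fin n → ℚ) k, g y k = ∑ i, a k i * y i := by
    intro y k
    have h1 : y = ∑ i, y i • (Pi.single i (1 : ℚ) : Fin n → ℚ) := by
      funext j
      rw [Finset.sum_apply]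
      simp [Pi.single_apply]
    conv_lhs => rw [h1]
    rw [map_sum, Finset.sum_apply]
    refine Finset.sum_congr rfl fun i _ => ?_
    rw [map_smul, Pi.smul_apply, smul_eq_mul, mul_comm]
  let D : ℕ := ∏ k : κ, ∏ i : Fin n, (a k i).den
  have hD : 0 < D := Finset.prod_pos fun k _ => Finset.prod_pos fun i _ => (a k i).den_pos
  have hint : ∀ k i, ∃ z : ℤ, (z : ℚ) = D * a k i := by
    intro k i
    have h1 : (a k i).den ∣ D :=
      (Finset.dvd_prod_of_mem (fun i => (a k i).den) (Finset.mem_univ i)).trans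
        (Finset.dvd_prod_of_mem (fun k => ∏ i : Fin n, (a k i).den) (Finset.mem_univ k))
    obtain ⟨e, he⟩ := h1
    refine ⟨e * (a k i).num, ?_⟩
    rw [he]
    push_cast
    have h2 : (a k i).den * a k i = (a k i).num := Rat.den_mul_eq_num (a k i)
    rw [mul_comm ((a k i).den : ℚ) e, mul_assoc, h2]
  choose m hm using hint
  refine ⟨D, m, hD, fun k l => ?_⟩
  have h1 : ((pair (m k) (v l) : ℤ) : ℚ) = D * g (w l) k := by
    rw [hga, Finset.mul_sum]
    unfold pair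
    push_cast
    refine Finset.sum_congr rfl fun i _ => ?_
    rw [hm, mul_assoc]
  rw [hgv] at h1
  split_ifs with h2
  · rw [if_pos h2, mul_one] at h1
    exact_mod_cast h1
  · rw [if_neg h2, mul_zero] at h1
    exact_mod_cast h1

theorem pair_nsmul_left {n : ℕ} (u y : Fin n → ℤ) (k : ℕ) : pair (k • u) y = k * pair u y := by
  unfold pair
  rw [Finset.mul_sum]
  refine Finset.sum_congr rfl fun i _ => ?_
  rw [Pi.smul_apply, nsmul_eq_mul, mul_assoc]

end Lin

section Main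

variable {n : ℕ} (Q : Setup n)

theorem ge_s (k : ℤ) : Q.Λ.Ge k (Q.Λ.s ^ k) := by
  refine Or.inr ?_
  have h1 : Q.Λ.val.ord (Q.Λ.s ^ k) = k * Q.Λ.val.ord Q.Λ.s := DivVal.ord_zpow _ _ _
  have h2 : Q.Λ.val.ord Q.Λ.s = 1 := Q.Λ.ord_s
  rw [h1, h2, mul_one]

theorem ge_Z (m : Fin n → ℤ) : Q.Λ.Ge 1 (Q.Z m) := by
  unfold Setup.Z
  refine DivVal.Ge.sum _ _ fun i _ => ?_
  refine DivVal.Ge.mul_left (DivVal.Ge.const _ _) (DivVal.Ge.mul_left (ge_emb _) ?_)
  have h1 := ge_s Q (Q.a i : ℤ)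
  rw [zpow_natCast] at h1
  refine DivVal.Ge.mono h1 ?_
  have := Q.a_pos i
  omega

/-- The leading coefficient of `E`. -/
theorem cg_E (m : Fin n → ℤ) : Cg Q.Λ (Q.Λ.s ^ (-pair m Q.U) * Q.E m)
    (algebraMap ℂ Q.F (Q.b m) * ∏ j, Q.x (Sum.inl j) ^ pair m (Q.ν j)) := by
  have h1 : Q.Λ.s ^ (-pair m Q.U) * Q.E m =
      Q.Λ.emb (algebraMap ℂ Q.F (Q.b m) * ∏ j, Q.x (Sum.inl j) ^ pair m (Q.ν j)) *
        Q.ex.ex (Q.Z m) := by
    unfold Setup.E
    rw [← mul_assoc, ← mul_assoc, ← zpow_add₀ Q.Λ.s_ne, neg_add_cancel, zpow_zero, one_mul]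
  rw [h1]
  have h2 := (Cg.emb (Λ := Q.Λ) (algebraMap ℂ Q.F (Q.b m) *
    ∏ j, Q.x (Sum.inl j) ^ pair m (Q.ν j))).mul (cg_ex Q.ex (ge_Z Q m))
  rw [mul_one] at h2
  exact h2

end Main

end RSI

open RSI in
theorem t_RSI (hCH1 : Stmt_CH1) (hFNC : Stmt_FNC) : Stmt_RSI := by
  classical
  intro n Q K _ _ χ hχ ι hι
  -- dual vectors
  let v : Unit ⊕ Fin Q.p → Fin n → ℤ := Sum.elim (fun _ => Q.U) Q.ν
  have hv : LinearIndependent ℂ fun k => toC (v k) := by
    have h1 := Q.indep.comp (Sum.inl : Unit ⊕ Fin Q.p → _) Sum.inl_injective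
    have h2 : (Sum.elim (Sum.elim (fun _ : Unit => toC Q.U) fun j => toC (Q.ν j)) Q.ε ∘
        (Sum.inl : Unit ⊕ Fin Q.p → _)) = fun k => toC (v k) := by
      funext k
      rcases k with k | k <;> rfl
    rw [h2] at h1
    exact h1
  obtain ⟨D, M, hD, hM⟩ := exists_dual hv
  let m0 : Fin n → ℤ := M (Sum.inl ())
  let m : Fin Q.p → Fin n → ℤ := fun l => M (Sum.inr l)
  have h0U : pair m0 Q.U = D := (hM (Sum.inl ()) (Sum.inl ())).trans (if_pos rfl)
  have h0ν : ∀ j, pair m0 (Q.ν j) = 0 := fun j =>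
    (hM (Sum.inl ()) (Sum.inr j)).trans (if_neg Sum.inl_ne_inr)
  have hmU : ∀ l, pair (m l) Q.U = 0 := fun l =>
    (hM (Sum.inr l) (Sum.inl ())).trans (if_neg Sum.inr_ne_inl)
  have hmν : ∀ l j, pair (m l) (Q.ν j) = if l = j then (D : ℤ) else 0 := by
    intro l j
    have h1 := hM (Sum.inr l) (Sum.inr j)
    have h2 : ((Sum.inr l : Unit ⊕ Fin Q.p) = Sum.inr j) ↔ l = j := Sum.inr_injective.eq_iff
    rw [if_congr h2 rfl rfl] at h1
    exact h1
  -- functions with the leading terms `z_i s^{a_i}`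
  have hF : ∀ i : Fin Q.q, ∃ f : K,
      Q.Λ.Ge (Q.a i + 1) (ι f - Q.Λ.emb (Q.x (Sum.inr i)) * Q.Λ.s ^ Q.a i) := by
    intro i
    obtain ⟨f, hf, hf'⟩ := hFNC Q i
    have h1 : Set.range Q.E = ι.toLinearMap '' Set.range χ := by
      ext t
      constructor
      · rintro ⟨u, rfl⟩
        exact ⟨χ u, ⟨u, rfl⟩, hι u⟩
      · rintro ⟨_, ⟨u, rfl⟩, rfl⟩
        exact ⟨u, (hι u).symm⟩
    rw [h1, ← Submodule.map_span] at hf
    obtain ⟨f', _, rfl⟩ := hf
    exact ⟨f', hf'⟩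
  choose f hf using hF
  -- the elements
  let y0 : Fin Q.p ⊕ Fin Q.q → K :=
    Sum.elim (fun l => χ (m l)) fun i => f i ^ D * (χ (Q.a i • m0))⁻¹
  let c : Fin Q.p ⊕ Fin Q.q → ℂ :=
    Sum.elim (fun l => Q.b (m l)) fun i => (Q.b (Q.a i • m0))⁻¹
  have hc : ∀ k, c k ≠ 0 := by
    rintro (l | i)
    · exact Q.b_ne _
    · exact inv_ne_zero (Q.b_ne _)
  have hcg : ∀ k, Cg Q.Λ (ι (y0 k)) (algebraMap ℂ Q.F (c k) * Q.x k ^ D) := by
    rintro (l | i)
    · have h1 := cg_E Q (m l)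
      rw [hmU, neg_zero, zpow_zero, one_mul] at h1
      have h2 : ∏ j, Q.x (Sum.inl j) ^ pair (m l) (Q.ν j) = Q.x (Sum.inl l) ^ D := by
        rw [Finset.prod_eq_single l]
        · rw [hmν, if_pos rfl, zpow_natCast]
        · intro j _ hj
          rw [hmν, if_neg (Ne.symm hj), zpow_zero]
        · intro h
          exact absurd (Finset.mem_univ _) h
      rw [h2, ← hι] at h1
      exact h1
    · have h1 := cg_E Q (Q.a i • m0)
      have h2 : pair (Q.a i • m0) Q.U = ((Q.a i * D : ℕ) : ℤ) := by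
        rw [pair_nsmul_left, h0U, Nat.cast_mul]
      have h3 : ∏ j, Q.x (Sum.inl j) ^ pair (Q.a i • m0) (Q.ν j) = 1 := by
        refine Finset.prod_eq_one fun j _ => ?_
        rw [pair_nsmul_left, h0ν, mul_zero, zpow_zero]
      rw [h2, h3, mul_one, ← hι] at h1
      have hbne : algebraMap ℂ Q.F (Q.b (Q.a i • m0)) ≠ 0 := fun h =>
        Q.b_ne _ ((map_eq_zero _).1 h)
      have h4 := h1.inv hbne
      have h5 : Cg Q.Λ (Q.Λ.s ^ (-(Q.a i : ℤ)) * ι (f i)) (Q.x (Sum.inr i)) := by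
        unfold Cg
        have h6 : Q.Λ.s ^ (-(Q.a i : ℤ)) * ι (f i) - Q.Λ.emb (Q.x (Sum.inr i)) =
            Q.Λ.s ^ (-(Q.a i : ℤ)) *
              (ι (f i) - Q.Λ.emb (Q.x (Sum.inr i)) * Q.Λ.s ^ Q.a i) := by
          rw [mul_sub, mul_left_comm, ← zpow_natCast, ← zpow_add₀ Q.Λ.s_ne, neg_add_cancel,
            zpow_zero, mul_one]
        rw [h6]
        refine DivVal.Ge.mono (DivVal.Ge.mul (ge_s Q _) (hf i)) ?_
        omega
      have h6 := (h5.pow D).mul h4
      have h7 : (Q.Λ.s ^ (-(Q.a i : ℤ)) * ι (f i)) ^ D *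
          (Q.Λ.s ^ (-((Q.a i * D : ℕ) : ℤ)) * ι (χ (Q.a i • m0)))⁻¹ =
            ι (f i ^ D * (χ (Q.a i • m0))⁻¹) := by
        rw [mul_pow, mul_inv, map_mul, map_pow, map_inv₀]
        have h8 : (Q.Λ.s ^ (-(Q.a i : ℤ))) ^ D * (Q.Λ.s ^ (-((Q.a i * D : ℕ) : ℤ)))⁻¹ = 1 := by
          rw [← zpow_natCast, ← zpow_mul, ← zpow_neg, ← zpow_add₀ Q.Λ.s_ne]
          have h9 : -(Q.a i : ℤ) * (D : ℤ) + - -((Q.a i * D : ℕ) : ℤ) = 0 := by
            push_cast
            ring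
          rw [h9, zpow_zero]
        rw [mul_mul_mul_comm, h8, one_mul]
      rw [h7] at h6
      show Cg Q.Λ (ι (f i ^ D * (χ (Q.a i • m0))⁻¹))
        (algebraMap ℂ Q.F (Q.b (Q.a i • m0))⁻¹ * Q.x (Sum.inr i) ^ D)
      rw [map_inv₀ (algebraMap ℂ Q.F), mul_comm (algebraMap ℂ Q.F _)⁻¹]
      exact h6
  have hmain : ∀ P : MvPolynomial (Fin Q.p ⊕ Fin Q.q) ℂ, P ≠ 0 →
      MvPolynomial.aeval y0 P ≠ 0 ∧ Q.Λ.ord (ι (MvPolynomial.aeval y0 P)) = 0 := by
    intro P hP
    have h1 := Cg.aeval hcg P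
    have h2 : MvPolynomial.aeval (fun k => ι (y0 k)) P = ι (MvPolynomial.aeval y0 P) := by
      have h3 : MvPolynomial.aeval (fun k => ι (y0 k)) = ι.comp (MvPolynomial.aeval y0) := by
        refine MvPolynomial.algHom_ext fun k => ?_
        rw [MvPolynomial.aeval_X, AlgHom.comp_apply, MvPolynomial.aeval_X]
      rw [h3, AlgHom.comp_apply]
    rw [h2] at h1
    obtain ⟨h3, h4⟩ := h1.ne (aeval_ne Q.x_ind hc hD hP)
    refine ⟨fun h => h3 ?_, h4⟩
    rw [h, map_zero]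
  have hdim : n - 1 = Q.p + Q.q := by
    have := Q.dim
    omega
  let e : Fin (n - 1) ≃ Fin Q.p ⊕ Fin Q.q := (finCongr hdim).trans finSumFinEquiv.symm
  refine ⟨fun k => y0 (e k), fun P hP => ?_⟩
  have h1 : MvPolynomial.rename e P ≠ 0 := fun h =>
    hP (MvPolynomial.rename_injective e e.injective (by rw [h, map_zero]))
  have h2 := hmain _ h1
  rw [MvPolynomial.aeval_rename] at h2
  exact h2

end

end MldGeo
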