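import Pool.Agent.MldGeo.StmtsQ
import Pool.Agent.MldQ.Shift

/-!
# SHF: the shifts of a monomial automorphism
-/

set_option autoImplicit false

namespace MldGeo

open MldGap MldAcc MldQ

noncomputable section

namespace SHF

open TDC

variable {n : ℕ}

/-- the form as a homomorphism in the integral vector -/
def FL (y : Fin n → ℝ) : (Fin n → ℤ) →ₗ[ℤ] ℝ where
  toFun m := form m y
  map_add' a b := by
    simp only [form_apply, Pi.add_apply, Int.cast_add, add_mul, Finset.sum_add_distrib]
  map_smul' a b := by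
    rw [form_apply, form_apply, RingHom.id_apply, Finset.smul_sum]
    refine Finset.sum_congr rfl fun i _ => ?_
    have h1 : (a • b) i = a * b i := rfl
    rw [h1, Int.cast_mul, mul_assoc, zsmul_eq_mul]

theorem FL_apply (y : Fin n → ℝ) (m : Fin n → ℤ) : FL y m = form m y := rfl

theorem form_single (y : Fin n → ℝ) (i : Fin n) : form (Pi.single i 1) y = y i := by
  classical
  rw [form_apply, Finset.sum_eq_single i (fun j _ hj => by simp [Pi.single_eq_of_ne hj])
    (fun h => absurd (Finset.mem_univ i) h)]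
  simp

/-- homomorphisms which agree on the standard basis -/
theorem lin_ext {f g : (Fin n → ℤ) →ₗ[ℤ] ℝ}
    (h : ∀ i, f (Pi.single i 1) = g (Pi.single i 1)) : f = g :=
  (Pi.basisFun ℤ (Fin n)).ext fun i => by rw [Pi.basisFun_apply]; exact h i

theorem form_dual (φ : (Fin n → ℤ) →ₗ[ℤ] (Fin n → ℤ)) (m : Fin n → ℤ) (y : Fin n → ℝ) :
    form m (dual φ y) = form (φ m) y := by
  have h : FL (dual φ y) = (FL y).comp φ := by
    refine lin_ext fun i => ?_
    rw [FL_apply, form_single, LinearMap.comp_apply, FL_apply]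
    rfl
  exact DFunLike.congr_fun h m

theorem form_dual_pow (φ : (Fin n → ℤ) →ₗ[ℤ] (Fin n → ℤ)) (j : ℕ) (m : Fin n → ℤ)
    (y : Fin n → ℝ) : form m ((dual φ ^ j) y) = form ((φ ^ j) m) y := by
  induction j generalizing m with
  | zero => rfl
  | succ j ih =>
    rw [pow_succ', Module.End.mul_apply, form_dual, ih, pow_succ, Module.End.mul_apply]

theorem eq_of_form {y z : Fin n → ℝ} (h : ∀ m, form m y = form m z) : y = z := by
  funext i
  rw [← form_single y i, ← form_single z i, h]

theorem dual_pow_one {φ : (Fin n → ℤ) →ₗ[ℤ] (Fin n → ℤ)} {k : ℕ} (h : φ ^ k = 1) :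
    dual φ ^ k = 1 := by
  refine LinearMap.ext fun y => eq_of_form fun m => ?_
  rw [form_dual_pow, h]
  rfl

theorem pow_fixed {φ : (Fin n → ℤ) →ₗ[ℤ] (Fin n → ℤ)} {m : Fin n → ℤ} (h : φ m = m) (j : ℕ) :
    (φ ^ j) m = m := by
  induction j with
  | zero => rfl
  | succ j ih => rw [pow_succ, Module.End.mul_apply, h, ih]

/-- the form of an average -/
theorem form_sum (φ : (Fin n → ℤ) →ₗ[ℤ] (Fin n → ℤ)) (k : ℕ) (m : Fin n → ℤ)
    (y : Fin n → ℝ) : form m (∑ j ∈ Finset.range k, (dual φ ^ j) y) =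
      form (∑ j ∈ Finset.range k, (φ ^ j) m) y := by
  rw [map_sum, ← FL_apply y, map_sum]
  exact Finset.sum_congr rfl fun j _ => form_dual_pow φ j m y

theorem form_sum_fixed {φ : (Fin n → ℤ) →ₗ[ℤ] (Fin n → ℤ)} (k : ℕ) {m : Fin n → ℤ}
    (h : φ m = m) (y : Fin n → ℝ) : form m (∑ j ∈ Finset.range k, (dual φ ^ j) y) =
      k * form m y := by
  rw [map_sum, Finset.sum_congr rfl (fun j _ => form_dual_pow φ j m y)]
  simp only [pow_fixed h]
  rw [Finset.sum_const, Finset.card_range, nsmul_eq_mul]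

/-- the sum over a full period is fixed -/
theorem sum_fixed {φ : (Fin n → ℤ) →ₗ[ℤ] (Fin n → ℤ)} {k : ℕ} (h : φ ^ k = 1)
    (m : Fin n → ℤ) : φ (∑ j ∈ Finset.range k, (φ ^ j) m) = ∑ j ∈ Finset.range k, (φ ^ j) m := by
  rw [map_sum]
  have h1 : ∀ j, φ ((φ ^ j) m) = (φ ^ (j + 1)) m := by
    intro j
    rw [pow_succ', Module.End.mul_apply]
  simp only [h1]
  have h2 := Finset.sum_range_succ' (fun j => (φ ^ j) m) k
  have h3 := Finset.sum_range_succ (fun j => (φ ^ j) m) k
  rw [h3, h, pow_zero] at h2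
  exact (add_right_cancel h2).symm

/-- a projection to the fixed vectors -/
theorem exists_proj (φ : (Fin n → ℤ) →ₗ[ℤ] (Fin n → ℤ)) :
    ∃ P : (Fin n → ℤ) →ₗ[ℤ] (Fin n → ℤ), (∀ m, φ (P m) = P m) ∧ ∀ m, φ m = m → P m = m := by
  let D : (Fin n → ℤ) →ₗ[ℤ] (Fin n → ℤ) := φ - 1
  have hfree : Module.Free ℤ (LinearMap.range D) := inferInstance
  have hproj : Module.Projective ℤ (LinearMap.range D) := inferInstance
  obtain ⟨s, hs⟩ := Module.projective_lifting_property D.rangeRestrict LinearMap.id
    D.surjective_rangeRestrict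
  have hs1 : ∀ r : LinearMap.range D, D (s r) = r := by
    intro r
    have := DFunLike.congr_fun hs r
    exact congrArg Subtype.val this
  let P : (Fin n → ℤ) →ₗ[ℤ] (Fin n → ℤ) := LinearMap.id - s.comp D.rangeRestrict
  have hP : ∀ m, P m = m - s (D.rangeRestrict m) := fun m => rfl
  refine ⟨P, ?_, ?_⟩
  · intro m
    have h1 : D (P m) = 0 := by
      rw [hP, map_sub, hs1]
      exact sub_self _
    exact sub_eq_zero.1 h1
  · intro m hm
    have h1 : D.rangeRestrict m = 0 := by
      apply Subtype.ext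
      exact sub_eq_zero.2 hm
    rw [hP, h1, map_zero, sub_zero]

section char

variable {c : (Fin n → ℤ) → ℂ}

/-- the argument of a homomorphism -/
theorem exists_abs (h0 : ∀ u, c u ≠ 0) (h1 : ∀ u w, c (u + w) = c u * c w) (m : Fin n → ℤ) :
    ∃ r : ℝ, 0 < r ∧
      c m = r * Complex.exp (2 * Real.pi * Complex.I * (form m (argVec c) : ℝ)) := by
  classical
  have hz : c 0 = 1 := by
    have := h1 0 0
    rw [add_zero] at this
    exact (mul_eq_left₀ (h0 0)).1 this.symm
  let H : AddSubgroup (Fin n → ℤ) :=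
    { carrier := {m | ∃ r : ℝ, 0 < r ∧
        c m = r * Complex.exp (2 * Real.pi * Complex.I * (form m (argVec c) : ℝ))}
      zero_mem' := by
        refine ⟨1, one_pos, ?_⟩
        have h2 : form (0 : Fin n → ℤ) (argVec c) = 0 := map_zero (FL (argVec c))
        rw [h2, hz]
        simp
      add_mem' := by
        rintro a b ⟨r, hr, hra⟩ ⟨s, hs, hsb⟩
        refine ⟨r * s, mul_pos hr hs, ?_⟩
        have h2 : form (a + b) (argVec c) = form a (argVec c) + form b (argVec c) :=
          map_add (FL (argVec c)) a b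
        rw [h1, hra, hsb, h2]
        push_cast
        rw [mul_add, Complex.exp_add]
        ring
      neg_mem' := by
        rintro a ⟨r, hr, hra⟩
        refine ⟨r⁻¹, inv_pos.2 hr, ?_⟩
        have h2 : form (-a) (argVec c) = -form a (argVec c) := map_neg (FL (argVec c)) a
        have h3 : c (-a) = (c a)⁻¹ := by
          have h4 := h1 (-a) a
          rw [neg_add_cancel, hz] at h4
          exact eq_inv_of_mul_eq_one_left h4.symm
        rw [h3, hra, h2]
        push_cast
        rw [mul_neg, Complex.exp_neg, mul_inv] }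
  have hs : ∀ i, (Pi.single i 1 : Fin n → ℤ) ∈ H := by
    intro i
    refine ⟨‖c (Pi.single i 1)‖, norm_pos_iff.2 (h0 _), ?_⟩
    rw [form_single]
    have h2 : (2 * Real.pi * Complex.I * ((argVec c i : ℝ) : ℂ) : ℂ) =
        ((c (Pi.single i 1)).arg : ℂ) * Complex.I := by
      unfold argVec
      push_cast
      have : (Real.pi : ℂ) ≠ 0 := by exact_mod_cast Real.pi_ne_zero
      field_simp
    rw [h2, Complex.norm_mul_exp_arg_mul_I]
  have hm : m ∈ H := by
    rw [← Finset.univ_sum_single m]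
    refine H.sum_mem fun i _ => ?_
    have h2 : (Pi.single i (m i) : Fin n → ℤ) = m i • Pi.single i 1 := by
      rw [← Pi.single_smul, smul_eq_mul, mul_one]
    rw [h2]
    exact H.zsmul_mem (hs i) _
  exact hm

/-- on fixed vectors the homomorphism has absolute value one -/
theorem eq_exp {φ : (Fin n → ℤ) →ₗ[ℤ] (Fin n → ℤ)} {k : ℕ} (hk : 0 < k) (h0 : ∀ u, c u ≠ 0)
    (h1 : ∀ u w, c (u + w) = c u * c w)
    (h2 : ∀ u, ∏ j ∈ Finset.range k, c ((φ ^ j) u) = 1) {m : Fin n → ℤ} (hm : φ m = m) :
    c m = Complex.exp (2 * Real.pi * Complex.I * (form m (argVec c) : ℝ)) := by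
  obtain ⟨r, hr, hrm⟩ := exists_abs h0 h1 m
  have h3 : c m ^ k = 1 := by
    have := h2 m
    simp only [pow_fixed hm] at this
    rwa [Finset.prod_const, Finset.card_range] at this
  have h4 : ‖c m‖ = 1 := Complex.norm_eq_one_of_pow_eq_one h3 hk.ne'
  have h5 : ‖Complex.exp (2 * Real.pi * Complex.I * (form m (argVec c) : ℝ))‖ = 1 := by
    have : (2 * Real.pi * Complex.I * (form m (argVec c) : ℝ) : ℂ) =
        ((2 * Real.pi * form m (argVec c) : ℝ) : ℂ) * Complex.I := by
      push_cast
      ring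
    rw [this, Complex.norm_exp_ofReal_mul_I]
  have h6 : r = 1 := by
    rw [hrm, norm_mul, h5, mul_one, Complex.norm_real, Real.norm_of_nonneg hr.le] at h4
    exact h4
  rw [hrm, h6]
  simp

end char

/-- exponentials of integral translates -/
theorem exp_eq_iff (a b : ℝ) : Complex.exp (2 * Real.pi * Complex.I * (a : ℝ)) =
    Complex.exp (2 * Real.pi * Complex.I * (b : ℝ)) ↔ ∃ z : ℤ, a = b + z := by
  rw [Complex.exp_eq_exp_iff_exists_int]
  have hpi : (2 * Real.pi * Complex.I : ℂ) ≠ 0 := by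
    simp [Real.pi_ne_zero, Complex.I_ne_zero]
  refine exists_congr fun z => ?_
  constructor
  · intro h
    have h1 : (2 * Real.pi * Complex.I : ℂ) * (a : ℝ) =
        (2 * Real.pi * Complex.I) * ((b + z : ℝ) : ℂ) := by
      rw [h]
      push_cast
      ring
    exact_mod_cast mul_left_cancel₀ hpi h1
  · rintro rfl
    push_cast
    ring

end SHF

open SHF TDC in
/-- SHF: the shifts. -/
theorem t_SHF (hPOW : Stmt_POW) : Stmt_SHF := by
  intro n k φ c hk h0 h1 hφ hprod u
  have _ := hPOW φ c h0 h1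
  have hk0 : (k : ℝ) ≠ 0 := by exact_mod_cast hk.ne'
  constructor
  · rintro ⟨v, ⟨z, rfl⟩, hsh⟩
    refine ⟨hsh.fix, fun m hm => ?_⟩
    obtain ⟨K, hK, -, hKu⟩ := hsh
    have hK0 : (K : ℝ) ≠ 0 := by exact_mod_cast hK.ne'
    have h2 := congrArg (form m) hKu
    have h3 : form m (trans ((dual φ, argVec c + toR z) : Aff n) K) =
        K * form m (argVec c + toR z) := form_sum_fixed K hm _
    rw [h3, map_smul, smul_eq_mul] at h2
    have h4 := mul_left_cancel₀ hK0 h2
    rw [map_add, form_toR] at h4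
    rw [eq_exp hk h0 h1 hprod hm, exp_eq_iff]
    refine ⟨-pair m z, ?_⟩
    rw [h4]
    push_cast
    ring
  · rintro ⟨hfix, hc⟩
    have hd : dual φ ^ k = 1 := dual_pow_one hφ
    -- the average of the argument
    let u0 : Fin n → ℝ := avg k (dual φ) (argVec c)
    have hu0 : dual φ u0 = u0 := avg_mem_fix hd _
    let d : Fin n → ℝ := u - u0
    have hdd : dual φ d = d := by
      show dual φ (u - u0) = u - u0
      rw [map_sub, hfix, hu0]
    have hu0m : ∀ m, φ m = m → form m u0 = form m (argVec c) := by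
      intro m hm
      have h2 : (k : ℝ) • u0 = ∑ j ∈ Finset.range k, (dual φ ^ j) (argVec c) := smul_avg hk _ _
      have h3 := congrArg (form m) h2
      rw [form_sum_fixed k hm, map_smul, smul_eq_mul] at h3
      exact mul_left_cancel₀ hk0 h3
    have hint : ∀ m, φ m = m → ∃ z : ℤ, form m d = z := by
      intro m hm
      have h2 := hc m hm
      rw [eq_exp hk h0 h1 hprod hm, eq_comm, exp_eq_iff] at h2
      obtain ⟨z, hz⟩ := h2
      refine ⟨z, ?_⟩
      show form m (u - u0) = z
      rw [map_sub, hu0m m hm, hz]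
      ring
    obtain ⟨P, hP1, hP2⟩ := exists_proj φ
    choose z hz using fun i => hint (P (Pi.single i 1)) (hP1 _)
    have hv : ∀ m, φ m = m → form m (toR z) = form m d := by
      have h2 : FL (toR z) = (FL d).comp P := by
        refine lin_ext fun i => ?_
        rw [FL_apply, form_single, LinearMap.comp_apply, FL_apply, hz]
        rfl
      intro m hm
      have h3 := DFunLike.congr_fun h2 m
      rw [LinearMap.comp_apply, hP2 m hm] at h3
      exact h3
    have hav : ∑ j ∈ Finset.range k, (dual φ ^ j) (toR z) = (k : ℝ) • d := by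
      refine eq_of_form fun m => ?_
      rw [form_sum, hv _ (sum_fixed hφ m), ← form_sum]
      congr 1
      rw [Finset.sum_congr rfl fun j _ => pow_fix hdd j, Finset.sum_const, Finset.card_range,
        ← Nat.cast_smul_eq_nsmul ℝ]
    refine ⟨toR z, ⟨z, rfl⟩, k, hk, hd, ?_⟩
    show (k : ℝ) • u = ∑ j ∈ Finset.range k, (dual φ ^ j) (argVec c + toR z)
    simp only [map_add, Finset.sum_add_distrib]
    rw [hav, ← smul_avg hk, ← smul_add]
    congr 1
    show u = u0 + (u - u0)
    rw [add_sub_cancel]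

end

end MldGeo
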