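import Pool.Agent.MldGeo.StmtsQ

/-!
# The combinatorial description of the quotient
-/

namespace MldGeo

open MldGap MldAcc MldQ

noncomputable section

namespace TQM

variable {n : ℕ}

theorem form_add (u w : Fin n → ℤ) (y : Fin n → ℝ) : form (u + w) y = form u y + form w y := by
  rw [TDC.form_apply, TDC.form_apply, TDC.form_apply, ← Finset.sum_add_distrib]
  refine Finset.sum_congr rfl fun i _ => ?_
  rw [Pi.add_apply]
  push_cast
  ring

theorem form_zero (y : Fin n → ℝ) : form (0 : Fin n → ℤ) y = 0 := by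
  rw [TDC.form_apply]
  refine Finset.sum_eq_zero fun i _ => ?_
  rw [Pi.zero_apply]
  push_cast
  ring

theorem form_smul (k : ℤ) (w : Fin n → ℤ) (y : Fin n → ℝ) : form (k • w) y = k * form w y := by
  rw [TDC.form_apply, TDC.form_apply, Finset.mul_sum]
  refine Finset.sum_congr rfl fun i _ => ?_
  rw [Pi.smul_apply, smul_eq_mul]
  push_cast
  ring

theorem form_sum {ι : Type} (s : Finset ι) (f : ι → Fin n → ℤ) (y : Fin n → ℝ) :
    form (∑ i ∈ s, f i) y = ∑ i ∈ s, form (f i) y := by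
  classical
  induction s using Finset.induction_on with
  | empty => rw [Finset.sum_empty, Finset.sum_empty, form_zero]
  | insert i s hi ih => rw [Finset.sum_insert hi, Finset.sum_insert hi, form_add, ih]

/-- The dual of a linear map. -/
theorem form_dual (φ : (Fin n → ℤ) →ₗ[ℤ] (Fin n → ℤ)) (u : Fin n → ℤ) (y : Fin n → ℝ) :
    form u (dual φ y) = form (φ u) y := by
  classical
  have h1 : u = ∑ i, u i • (Pi.single i 1 : Fin n → ℤ) := by
    funext j
    rw [Finset.sum_apply, Finset.sum_eq_single j]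
    · simp
    · intro i _ hi
      rw [Pi.smul_apply, Pi.single_eq_of_ne (Ne.symm hi), smul_zero]
    · intro h
      exact absurd (Finset.mem_univ j) h
  have h2 : φ u = ∑ i, u i • φ (Pi.single i 1) := by
    conv_lhs => rw [h1]
    rw [map_sum]
    exact Finset.sum_congr rfl fun i _ => map_smul φ _ _
  rw [h2, form_sum, TDC.form_apply]
  refine Finset.sum_congr rfl fun i _ => ?_
  rw [form_smul]
  rfl

/-- The dual map preserves the lattice. -/
theorem dual_toR (φ : (Fin n → ℤ) →ₗ[ℤ] (Fin n → ℤ)) (z : Fin n → ℤ) :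
    dual φ (toR z) = toR fun i => pair (φ (Pi.single i 1)) z := by
  funext i
  exact TDC.form_toR _ _

theorem cpow_ne (φ : (Fin n → ℤ) →ₗ[ℤ] (Fin n → ℤ)) {c : (Fin n → ℤ) → ℂ} (h : ∀ u, c u ≠ 0)
    (i : ℕ) (u : Fin n → ℤ) : cpow φ c i u ≠ 0 :=
  Finset.prod_ne_zero_iff.2 fun _ _ => h _

theorem cpow_add (φ : (Fin n → ℤ) →ₗ[ℤ] (Fin n → ℤ)) {c : (Fin n → ℤ) → ℂ}
    (h : ∀ u w, c (u + w) = c u * c w) (i : ℕ) (u w : Fin n → ℤ) :
    cpow φ c i (u + w) = cpow φ c i u * cpow φ c i w := by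
  unfold cpow
  rw [← Finset.prod_mul_distrib]
  refine Finset.prod_congr rfl fun j _ => ?_
  rw [map_add, h]

theorem argVec_one {c : (Fin n → ℤ) → ℂ} (h : ∀ u, c u = 1) : argVec c = 0 := by
  funext i
  show (c (Pi.single i 1)).arg / (2 * Real.pi) = 0
  rw [h, Complex.arg_one, zero_div]

/-! ### Extremal rays -/

theorem cone_add {ι : Type} [Fintype ι] {e : ι → Fin n → ℝ} {x y : Fin n → ℝ}
    (hx : x ∈ coneOf e) (hy : y ∈ coneOf e) : x + y ∈ coneOf e := by
  obtain ⟨a, ha, rfl⟩ := hx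
  obtain ⟨b, hb, rfl⟩ := hy
  refine ⟨fun i => a i + b i, fun i => add_nonneg (ha i) (hb i), ?_⟩
  rw [← Finset.sum_add_distrib]
  exact Finset.sum_congr rfl fun i _ => (add_smul _ _ _).symm

theorem cone_smul {ι : Type} [Fintype ι] {e : ι → Fin n → ℝ} {x : Fin n → ℝ}
    (hx : x ∈ coneOf e) {t : ℝ} (ht : 0 ≤ t) : t • x ∈ coneOf e := by
  obtain ⟨a, ha, rfl⟩ := hx
  refine ⟨fun i => t * a i, fun i => mul_nonneg ht (ha i), ?_⟩
  rw [Finset.smul_sum]
  exact Finset.sum_congr rfl fun i _ => smul_smul _ _ _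

theorem cone_zero {ι : Type} [Fintype ι] {e : ι → Fin n → ℝ} : (0 : Fin n → ℝ) ∈ coneOf e :=
  ⟨fun _ => 0, fun _ => le_rfl, by simp⟩

theorem cone_sum {ι κ : Type} [Fintype ι] {e : ι → Fin n → ℝ} (s : Finset κ)
    (x : κ → Fin n → ℝ) (h : ∀ j ∈ s, x j ∈ coneOf e) : ∑ j ∈ s, x j ∈ coneOf e := by
  classical
  induction s using Finset.induction_on with
  | empty =>
    rw [Finset.sum_empty]
    exact cone_zero
  | insert i s hi ih =>
    rw [Finset.sum_insert hi]
    exact cone_add (h i (Finset.mem_insert_self i s))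
      (ih fun j hj => h j (Finset.mem_insert_of_mem hj))

theorem ray_cone (T : ToricGerm n) (i : T.ι) : T.ray i ∈ coneOf T.ray := by
  classical
  refine ⟨fun j => if j = i then 1 else 0, fun j => ?_, ?_⟩
  · show (0 : ℝ) ≤ if j = i then 1 else 0
    split_ifs
    · exact zero_le_one
    · exact le_rfl
  · rw [Finset.sum_eq_single i]
    · show T.ray i = (if i = i then (1 : ℝ) else 0) • T.ray i
      rw [if_pos rfl, one_smul]
    · intro j _ hj
      show (if j = i then (1 : ℝ) else 0) • T.ray j = 0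
      rw [if_neg hj, zero_smul]
    · intro h
      exact absurd (Finset.mem_univ i) h

theorem ray_ne (T : ToricGerm n) (i : T.ι) : T.ray i ≠ 0 := by
  obtain ⟨u, hu⟩ := T.pointed
  intro h
  have h1 := hu i
  rw [h, map_zero] at h1
  exact lt_irrefl _ h1

/-- The summands of a generator of an extremal ray. -/
theorem extremal (T : ToricGerm n) (i : T.ι) {x y : Fin n → ℝ} (hx : x ∈ coneOf T.ray)
    (hy : y ∈ coneOf T.ray) (h : T.ray i = x + y) : ∃ t : ℝ, x = t • T.ray i := by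
  classical
  obtain ⟨a, ha, rfl⟩ := hx
  obtain ⟨b, hb, rfl⟩ := hy
  set d : T.ι → ℝ := fun l => a l + b l with hd
  have hd0 : ∀ l, 0 ≤ d l := fun l => add_nonneg (ha l) (hb l)
  have h1 : T.ray i = ∑ l, d l • T.ray l := by
    rw [h, ← Finset.sum_add_distrib]
    exact Finset.sum_congr rfl fun l _ => (add_smul _ _ _).symm
  have h2 : (1 - d i) • T.ray i = ∑ l ∈ Finset.univ.erase i, d l • T.ray l := by
    rw [sub_smul, one_smul, sub_eq_iff_eq_add, add_comm,
      Finset.add_sum_erase _ (fun l => d l • T.ray l) (Finset.mem_univ i)]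
    exact h1
  have h3 : 1 ≤ d i := by
    by_contra h3
    push Not at h3
    have h4 : 0 < 1 - d i := sub_pos.2 h3
    apply T.ray_extremal i
    refine ⟨fun l => if l = i then 0 else d l / (1 - d i), fun l => ?_, if_pos rfl, ?_⟩
    · show (0 : ℝ) ≤ if l = i then 0 else d l / (1 - d i)
      split_ifs
      · exact le_rfl
      · exact div_nonneg (hd0 l) h4.le
    · have h5 : T.ray i = (1 - d i)⁻¹ • ((1 - d i) • T.ray i) := by
        rw [smul_smul, inv_mul_cancel₀ h4.ne', one_smul]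
      rw [← Finset.add_sum_erase _ _ (Finset.mem_univ i)]
      show T.ray i = (if i = i then (0 : ℝ) else d i / (1 - d i)) • T.ray i + _
      rw [if_pos rfl, zero_smul, zero_add]
      refine h5.trans ?_
      rw [h2, Finset.smul_sum]
      refine Finset.sum_congr rfl fun l hl => ?_
      show _ = (if l = i then (0 : ℝ) else d l / (1 - d i)) • T.ray l
      rw [if_neg (Finset.ne_of_mem_erase hl), smul_smul, div_eq_inv_mul]
  obtain ⟨u, hu⟩ := T.pointed
  have h4 : (1 - d i) * u (T.ray i) = ∑ l ∈ Finset.univ.erase i, d l * u (T.ray l) := by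
    have h5 := congrArg u h2
    rw [map_smul, map_sum, smul_eq_mul] at h5
    rw [h5]
    exact Finset.sum_congr rfl fun l _ => by rw [map_smul, smul_eq_mul]
  have h5 : ∀ l ∈ Finset.univ.erase i, 0 ≤ d l * u (T.ray l) := fun l _ =>
    mul_nonneg (hd0 l) (hu l).le
  have h6 : ∑ l ∈ Finset.univ.erase i, d l * u (T.ray l) = 0 := by
    apply le_antisymm
    · rw [← h4]
      exact mul_nonpos_of_nonpos_of_nonneg (sub_nonpos.2 h3) (hu i).le
    · exact Finset.sum_nonneg h5
  have h7 : ∀ l, l ≠ i → a l = 0 := by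
    intro l hl
    have h8 := (Finset.sum_eq_zero_iff_of_nonneg h5).1 h6 l
      (Finset.mem_erase.2 ⟨hl, Finset.mem_univ l⟩)
    have h9 : d l = 0 := (mul_eq_zero.1 h8).resolve_right (hu l).ne'
    have h10 : a l + b l = 0 := h9
    linarith [ha l, hb l]
  refine ⟨a i, ?_⟩
  rw [Finset.sum_eq_single i]
  · intro l _ hl
    rw [h7 l hl, zero_smul]
  · intro h'
    exact absurd (Finset.mem_univ i) h'

/-- Automorphisms of the cone and of the lattice permute the generators of the rays. -/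
theorem perm_ray (T : ToricGerm n) (D E : (Fin n → ℝ) →ₗ[ℝ] (Fin n → ℝ))
    (hD : ∀ y ∈ coneOf T.ray, D y ∈ coneOf T.ray) (hE : ∀ y ∈ coneOf T.ray, E y ∈ coneOf T.ray)
    (hDN : ∀ y ∈ T.N, D y ∈ T.N) (hEN : ∀ y ∈ T.N, E y ∈ T.N) (hDE : ∀ y, D (E y) = y)
    (hED : ∀ y, E (D y) = y) (i : T.ι) : ∃ j, D (T.ray i) = T.ray j := by
  classical
  obtain ⟨c, hc, hDi⟩ := hD _ (ray_cone T i)
  have h1 : ∃ j, c j ≠ 0 := by
    by_contra h1
    push Not at h1
    apply ray_ne T i
    rw [← hED (T.ray i), hDi, Finset.sum_eq_zero fun j _ => by rw [h1 j, zero_smul], map_zero]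
  obtain ⟨j, hj⟩ := h1
  have hj0 : 0 < c j := lt_of_le_of_ne (hc j) (Ne.symm hj)
  have h2 : T.ray i = c j • E (T.ray j) + ∑ l ∈ Finset.univ.erase j, c l • E (T.ray l) := by
    conv_lhs => rw [← hED (T.ray i), hDi, map_sum]
    rw [← Finset.add_sum_erase _ _ (Finset.mem_univ j), map_smul]
    congr 1
    exact Finset.sum_congr rfl fun l _ => map_smul E _ _
  obtain ⟨t, ht⟩ := extremal T i (cone_smul (hE _ (ray_cone T j)) (hc j))
    (cone_sum _ _ fun l _ => cone_smul (hE _ (ray_cone T l)) (hc l)) h2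
  set s : ℝ := (c j)⁻¹ * t with hs
  have h3 : E (T.ray j) = s • T.ray i := by
    rw [hs, ← smul_smul, ← ht, smul_smul, inv_mul_cancel₀ hj, one_smul]
  have h4 : T.ray j = s • D (T.ray i) := by
    rw [← map_smul, ← h3, hDE]
  obtain ⟨u, hu⟩ := T.pointed
  -- `s` is positive
  have hs0 : 0 < s := by
    have h5 := hu j
    rw [h4, map_smul, smul_eq_mul] at h5
    have h6 : 0 ≤ u (D (T.ray i)) := by
      rw [hDi, map_sum]
      refine Finset.sum_nonneg fun l _ => ?_
      rw [map_smul, smul_eq_mul]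
      exact mul_nonneg (hc l) (hu l).le
    by_contra h7
    push Not at h7
    exact absurd h5 (not_lt.2 (mul_nonpos_of_nonpos_of_nonneg h7 h6))
  have h5 : 1 ≤ s := T.ray_primitive i s hs0 (by
    rw [← h3]
    exact hEN _ (T.ray_mem j))
  have h6 : D (T.ray i) = s⁻¹ • T.ray j := by
    rw [h4, smul_smul, inv_mul_cancel₀ hs0.ne', one_smul]
  have h7 : 1 ≤ s⁻¹ := T.ray_primitive j s⁻¹ (inv_pos.2 hs0) (by
    rw [← h6]
    exact hDN _ (T.ray_mem i))
  have h8 : s = 1 := by
    apply le_antisymm _ h5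
    have h9 := (one_le_inv₀ hs0).1 h7
    exact h9
  refine ⟨j, ?_⟩
  rw [h6, h8, inv_one, one_smul]

end TQM

open TQM in
/-- TQM: the combinatorial description of the quotient. -/
theorem t_TQM (hPOW : Stmt_POW) : Stmt_TQM := by
  intro n k S M φ c hk hN hC hS hc0 hcm hφ hprod hψ
  obtain ⟨hP1, hP2, hP3, -⟩ := hPOW φ c hc0 hcm
  have hlat : ∀ y, y ∈ M.N ↔ y ∈ TDC.lat n := hN
  have hdual1 : dual (1 : (Fin n → ℤ) →ₗ[ℤ] (Fin n → ℤ)) = 1 := by
    have h1 := hP1 0
    rwa [pow_zero, pow_zero] at h1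
  -- the element with index `i`
  have htr : ∀ (g : Aff n) (i : ℕ), g.1 = dual (φ ^ i) →
      g.2 - argVec (cpow φ c i) ∈ TDC.lat n → ∀ l : ℕ, g.1 ^ l = dual (φ ^ (i * l)) ∧
        trans g l - argVec (cpow φ c (i * l)) ∈ TDC.lat n := by
    intro g i hg1 hg2 l
    obtain ⟨hQ1, hQ2, -, -⟩ := hPOW (φ ^ i) (cpow φ c i) (cpow_ne φ hc0 i) (cpow_add φ hcm i)
    constructor
    · rw [hg1, pow_mul]
      exact (hQ1 l).symm
    · have h1 := hQ2 _ l hg2
      rw [hP3] at h1
      have h2 : ((dual (φ ^ i), argVec (cpow φ c i) + (g.2 - argVec (cpow φ c i))) : Aff n) =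
          g := by
        rw [← hg1, add_sub_cancel]
      rw [h2] at h1
      exact h1
  have hck : ∀ i u, cpow φ c (i * k) u = 1 := by
    intro i u
    have h1 := congrFun (hP3 k i) u
    rw [mul_comm] at h1
    rw [← h1]
    exact Finset.prod_eq_one fun j _ => hprod _
  have hDk : dual φ ^ k = 1 := by
    rw [← hP1, hφ, hdual1]
  -- the rays
  have hDC : ∀ y ∈ coneOf M.ray, dual φ y ∈ coneOf M.ray := by
    intro y hy
    rw [hC] at hy ⊢
    intro u hu
    rw [form_dual]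
    exact hy _ ((hS u).1 hu)
  have hDN : ∀ y ∈ M.N, dual φ y ∈ M.N := by
    intro y hy
    obtain ⟨z, rfl⟩ := (hN y).1 hy
    rw [dual_toR]
    exact (hN _).2 ⟨_, rfl⟩
  have hpow : ∀ (l : ℕ), (∀ y ∈ coneOf M.ray, (dual φ ^ l) y ∈ coneOf M.ray) ∧
      ∀ y ∈ M.N, (dual φ ^ l) y ∈ M.N := by
    intro l
    induction l with
    | zero =>
      rw [pow_zero]
      exact ⟨fun y hy => hy, fun y hy => hy⟩
    | succ l ih =>
      rw [pow_succ]
      exact ⟨fun y hy => ih.1 _ (hDC y hy), fun y hy => ih.2 _ (hDN y hy)⟩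
  have hk1 : k - 1 + 1 = k := Nat.sub_add_cancel hk
  have hray1 : ∀ i, ∃ j, dual φ (M.ray i) = M.ray j ∧ M.b j = M.b i := by
    intro i
    obtain ⟨j, hj⟩ := perm_ray M.toToricGerm (dual φ) (dual φ ^ (k - 1)) hDC (hpow (k - 1)).1 hDN
      (hpow (k - 1)).2 (fun y => by
        have h1 : (dual φ * dual φ ^ (k - 1)) y = y := by
          rw [← pow_succ', hk1, hDk]
          rfl
        exact h1) (fun y => by
        have h1 : (dual φ ^ (k - 1) * dual φ) y = y := by
          rw [← pow_succ, hk1, hDk]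
          rfl
        exact h1) i
    refine ⟨j, hj, ?_⟩
    have h1 := hψ (M.ray i)
    rw [hj, M.ψ_ray, M.ψ_ray] at h1
    linarith
  have hray : ∀ (l : ℕ) (i : M.ι), ∃ j, (dual φ ^ l) (M.ray i) = M.ray j ∧ M.b j = M.b i := by
    intro l
    induction l with
    | zero =>
      intro i
      rw [pow_zero]
      exact ⟨i, rfl, rfl⟩
    | succ l ih =>
      intro i
      obtain ⟨j, hj, hj'⟩ := hray1 i
      obtain ⟨j2, hj2, hj2'⟩ := ih j
      refine ⟨j2, ?_, hj2'.trans hj'⟩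
      rw [pow_succ, Module.End.mul_apply, hj, hj2]
  refine ⟨{ toToricTriple := M
            Γ := Set.ofPred fun g => ∃ i : ℕ, g.1 = dual (φ ^ i) ∧
              g.2 - argVec (cpow φ c i) ∈ TDC.lat n
            one_mem := ?_
            add_mem := ?_
            pow_mem := ?_
            finite_order := ?_
            map_lattice := ?_
            map_ray := ?_ }, rfl, fun g => Iff.rfl⟩
  · refine ⟨0, ?_, ?_⟩
    · show (1 : (Fin n → ℝ) →ₗ[ℝ] (Fin n → ℝ)) = dual (φ ^ 0)
      rw [pow_zero, hdual1]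
    · show (0 : Fin n → ℝ) - argVec (cpow φ c 0) ∈ TDC.lat n
      rw [show argVec (cpow φ c 0) = 0 from argVec_one fun u => rfl, sub_zero]
      exact (TDC.lat n).zero_mem
  · rintro g ⟨i, hg1, hg2⟩ v hv
    refine ⟨i, hg1, ?_⟩
    show g.2 + v - argVec (cpow φ c i) ∈ TDC.lat n
    have h1 : g.2 + v - argVec (cpow φ c i) = (g.2 - argVec (cpow φ c i)) + v := by abel
    rw [h1]
    exact (TDC.lat n).add_mem hg2 ((hlat v).1 hv)
  · rintro g ⟨i, hg1, hg2⟩ l
    exact ⟨i * l, htr g i hg1 hg2 l⟩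
  · rintro g ⟨i, hg1, hg2⟩
    obtain ⟨h1, h2⟩ := htr g i hg1 hg2 k
    refine ⟨k, hk, ?_, ?_⟩
    · rw [h1, mul_comm, pow_mul, hφ, one_pow, hdual1]
    · rw [argVec_one (hck i), sub_zero] at h2
      exact (hlat _).2 h2
  · rintro g ⟨i, hg1, -⟩ v hv
    rw [hg1, hP1]
    exact (hpow i).2 v hv
  · rintro g ⟨i, hg1, -⟩ l
    rw [hg1, hP1]
    exact hray i l

end

end MldGeo
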