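import Pool.Agent.MldGeo.Stmts1

/-!
# Divisorial valuations: an `ℝ`-divisor which is zero near `x` has order zero along all divisors
whose centre contains `x` (module MLD_UNQ)
-/

namespace MldGeo

namespace UNQ

variable {n : ℕ} {K : Type} [Field K] [Algebra ℂ K] (v : DivVal n K)

theorem ord_one : v.ord 1 = 0 := by
  have h := v.ord_mul 1 1 one_ne_zero one_ne_zero
  rw [mul_one] at h
  omega

theorem ord_inv {a : K} (ha : a ≠ 0) : v.ord a⁻¹ = -v.ord a := by
  have h := v.ord_mul a a⁻¹ ha (inv_ne_zero ha)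
  rw [mul_inv_cancel₀ ha, ord_one] at h
  omega

theorem ord_pow {a : K} (ha : a ≠ 0) (k : ℕ) : v.ord (a ^ k) = k * v.ord a := by
  induction k with
  | zero => rw [pow_zero, ord_one, Nat.cast_zero, zero_mul]
  | succ k ih =>
    rw [pow_succ, v.ord_mul _ _ (pow_ne_zero k ha) ha, ih]
    push_cast
    ring

theorem ord_zpow {a : K} (ha : a ≠ 0) (k : ℤ) : v.ord (a ^ k) = k * v.ord a := by
  cases k with
  | ofNat k =>
    rw [Int.ofNat_eq_natCast, zpow_natCast, ord_pow v ha]
  | negSucc k =>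
    rw [zpow_negSucc, ord_inv v (pow_ne_zero _ ha), ord_pow v ha, Int.negSucc_eq]
    push_cast
    ring

theorem ord_prod {ι : Type} (s : Finset ι) (f : ι → K) (hf : ∀ i, f i ≠ 0) :
    v.ord (∏ i ∈ s, f i) = ∑ i ∈ s, v.ord (f i) := by
  classical
  induction s using Finset.induction_on with
  | empty => rw [Finset.prod_empty, Finset.sum_empty, ord_one]
  | insert i s hi ih =>
    rw [Finset.prod_insert hi, Finset.sum_insert hi,
      v.ord_mul _ _ (hf i) (Finset.prod_ne_zero_iff.2 fun j _ => hf j), ih]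

/-- A function of order zero along all prime divisors through `x` is a unit at `x`. -/
theorem ord_eq_zero (hLOC : Stmt_LOC) (X : Germ n) {h : X.K} (hh : h ≠ 0)
    (h0 : ∀ (v : DivVal n X.K) (P : Ideal X.R), P ≤ X.m → X.IsOrdAlong v P → v.ord h = 0)
    {v : DivVal n X.K} (hv : X.Through v) : v.ord h = 0 := by
  obtain ⟨r, s, hs, e⟩ := hLOC X h fun v P hP hvP => Or.inr (h0 v P hP hvP).ge
  obtain ⟨r', s', hs', e'⟩ := hLOC X h⁻¹ fun v P hP hvP => Or.inr (by
    rw [ord_inv v hh, h0 v P hP hvP, neg_zero])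
  have e2 : r * r' = s * s' := by
    apply Subtype.ext
    show (r : X.K) * (r' : X.K) = (s : X.K) * (s' : X.K)
    rw [← e, ← e']
    field_simp
  have hr : r ∉ X.m := by
    intro hr
    have h1 : s * s' ∈ X.m := by
      rw [← e2]
      exact X.m.mul_mem_right _ hr
    rcases X.max.isPrime.mem_or_mem h1 with h2 | h2
    · exact hs h2
    · exact hs' h2
  have hs0 : (s : X.K) ≠ 0 := by
    intro h1
    apply hs
    have h2 : s = 0 := Subtype.ext h1
    rw [h2]
    exact X.m.zero_mem
  have h3 := v.ord_mul h s hh hs0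
  rw [e, hv.2 r hr, hv.2 s hs] at h3
  omega

end UNQ

open UNQ in
theorem t_UNQ (hLOC : Stmt_LOC) : Stmt_UNQ := by
  intro n X ι _ f c hf hc v hv
  classical
  -- the group generated by the coefficients is free
  let M : Submodule ℤ ℝ := Submodule.span ℤ (Set.range c)
  have : Module.Finite ℤ M := Module.Finite.span_of_finite ℤ (Set.finite_range c)
  let b := Module.Free.chooseBasis ℤ M
  have hmem : ∀ i, c i ∈ M := fun i => Submodule.subset_span ⟨i, rfl⟩
  let z : ι → Module.Free.ChooseBasisIndex ℤ M → ℤ := fun i k => b.repr ⟨c i, hmem i⟩ k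
  have hcz : ∀ i, c i = ∑ k, (z i k : ℝ) * (b k : ℝ) := by
    intro i
    have h1 := b.sum_repr ⟨c i, hmem i⟩
    have h2 := congrArg (fun x : M => (x : ℝ)) h1
    simp only [Submodule.coe_sum, Submodule.coe_smul, zsmul_eq_mul] at h2
    exact h2.symm
  have hli : ∀ m : Module.Free.ChooseBasisIndex ℤ M → ℤ,
      ∑ k, (b k : ℝ) * (m k : ℝ) = 0 → ∀ k, m k = 0 := by
    intro m hm
    have h1 : ∑ k, m k • b k = 0 := by
      apply Subtype.ext
      simp only [Submodule.coe_sum, Submodule.coe_smul, zsmul_eq_mul, ZeroMemClass.coe_zero]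
      rw [← hm]
      exact Finset.sum_congr rfl fun k _ => mul_comm _ _
    exact fun k => Fintype.linearIndependent_iff.1 b.linearIndependent m h1 k
  have hsum : ∀ w : DivVal n X.K, ∑ i, c i * w.ord (f i) =
      ∑ k, (b k : ℝ) * (w.ord (∏ i, f i ^ z i k) : ℤ) := by
    intro w
    have h1 : ∀ k, (w.ord (∏ i, f i ^ z i k) : ℤ) = ∑ i, z i k * w.ord (f i) := by
      intro k
      rw [ord_prod w _ _ fun i => zpow_ne_zero _ (hf i)]
      exact Finset.sum_congr rfl fun i _ => ord_zpow w (hf i) _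
    simp_rw [h1]
    push_cast
    simp_rw [Finset.mul_sum]
    rw [Finset.sum_comm]
    refine Finset.sum_congr rfl fun i _ => ?_
    conv_lhs => rw [hcz i]
    rw [Finset.sum_mul]
    exact Finset.sum_congr rfl fun k _ => by ring
  rw [hsum v]
  refine Finset.sum_eq_zero fun k _ => ?_
  have h0 : v.ord (∏ i, f i ^ z i k) = 0 :=
    ord_eq_zero hLOC X (Finset.prod_ne_zero_iff.2 fun i _ => zpow_ne_zero _ (hf i))
      (fun w P hP hw => hli (fun k => w.ord (∏ i, f i ^ z i k)) (by
        rw [← hsum w]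
        exact hc w P hP hw) k) hv
  rw [h0]
  simp

end MldGeo
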