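import Pool.Agent.MldGeo.Stmts4
import Pool.Agent.MldGeo.Stmts5
import Pool.Agent.MldAcc.Defs
import Pool.Agent.MldGeo.Stmts7

/-!
# The toric dictionary: statements
-/

namespace MldGeo

open MldGap MldAcc

noncomputable section

/-- The pairing of characters and one parameter subgroups. -/
def pair {n : ℕ} (u y : Fin n → ℤ) : ℤ := ∑ i, u i * y i

/-- A character as a linear form on `ℝ^n`. -/
def form {n : ℕ} (u : Fin n → ℤ) : (Fin n → ℝ) →ₗ[ℝ] ℝ := ∑ i, (u i : ℝ) • LinearMap.proj i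

section Field

variable {n : ℕ} {K : Type} [Field K] [Algebra ℂ K]

/-- `K` is the function field of the torus with the characters `χ`. -/
structure TorusField (χ : (Fin n → ℤ) → K) : Prop where
  zero : χ 0 = 1
  add : ∀ u v, χ (u + v) = χ u * χ v
  indep : AlgebraicIndependent ℂ (fun i : Fin n => χ (Pi.single i 1))
  frac : ∀ a : K, ∃ r ∈ Submodule.span ℂ (Set.range χ), ∃ s ∈ Submodule.span ℂ (Set.range χ),
    s ≠ 0 ∧ a * s = r

/-- The invariant form `dlog χ(e₁) ∧ … ∧ dlog χ(eₙ)`. -/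
def torForm (χ : (Fin n → ℤ) → K) : Forms n K := dlogs fun i => χ (Pi.single i 1)

/-- The orders of the coordinate characters. -/
def ordVec (χ : (Fin n → ℤ) → K) (v : DivVal n K) : Fin n → ℤ := fun i => v.ord (χ (Pi.single i 1))

/-- `v` is the monomial valuation with weights `y`. -/
structure Gauss (χ : (Fin n → ℤ) → K) (y : Fin n → ℤ) (v : DivVal n K) : Prop where
  chi : ∀ u, v.ord (χ u) = pair u y
  le : ∀ (F : Finset (Fin n → ℤ)) (c : (Fin n → ℤ) → ℂ), ∀ u ∈ F, c u ≠ 0 →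
    v.ord (∑ w ∈ F, algebraMap ℂ K (c w) * χ w) ≤ pair u y
  form : v.logOrd (torForm χ) = 0
  res : ∀ w : Fin (n - 1) → Fin n → ℤ, LinearIndependent ℤ w → (∀ j, pair (w j) y = 0) →
    ∀ p : MvPolynomial (Fin (n - 1)) ℂ, p ≠ 0 →
      MvPolynomial.aeval (fun j => χ (w j)) p ≠ 0 ∧
        v.ord (MvPolynomial.aeval (fun j => χ (w j)) p) = 0

end Field

/-- GAV: monomial valuations of the function field of a torus (see GAUT). -/
def Stmt_GAV : Prop :=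
  ∀ {n : ℕ} {K : Type} [Field K] [Algebra ℂ K] (χ : (Fin n → ℤ) → K), TorusField χ →
    Algebra.trdeg ℂ K = (n : Cardinal) → ∀ y : Fin n → ℤ, (∃ u, pair u y = 1) →
    ∃ v : DivVal n K, Gauss χ y v

/-- Toric coordinates on `X`: `R` is spanned by the characters in the monoid `S`. -/
structure ToricCoord {n : ℕ} (X : Germ n) (χ : (Fin n → ℤ) → X.K)
    (S : AddSubmonoid (Fin n → ℤ)) : Prop extends TorusField χ where
  mem_R : ∀ u, u ∈ S ↔ χ u ∈ X.R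
  span_R : ∀ a ∈ X.R, ∃ (F : Finset (Fin n → ℤ)) (c : (Fin n → ℤ) → ℂ), (∀ u ∈ F, u ∈ S) ∧
    a = ∑ u ∈ F, algebraMap ℂ X.K (c u) * χ u
  fg : S.FG
  gen : AddSubgroup.closure (S : Set (Fin n → ℤ)) = ⊤
  sat : ∀ (u : Fin n → ℤ) (k : ℕ), 0 < k → k • u ∈ S → u ∈ S
  pos : ∀ u ∈ S, u ≠ 0 → ∀ h : χ u ∈ X.R, (⟨χ u, h⟩ : X.R) ∈ X.m

/-- The coordinates belong to the action `A`. -/
def GradedBy {n : ℕ} {X : Germ n} (A : TorusAction X n) (χ : (Fin n → ℤ) → X.K)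
    (S : AddSubmonoid (Fin n → ℤ)) : Prop :=
  ∀ (u : Fin n → ℤ) (a : X.R), a ∈ A.gr u ↔
    ∃ c : ℂ, (c ≠ 0 → u ∈ S) ∧ (a : X.K) = algebraMap ℂ X.K c * χ u

/-- The ideal generated by the characters in `B`. -/
def monIdeal {n : ℕ} (X : Germ n) (χ : (Fin n → ℤ) → X.K) (B : Set (Fin n → ℤ)) : Ideal X.R :=
  Ideal.span {a : X.R | ∃ u ∈ B, (a : X.K) = χ u}

/-- KCO: for a torus of full dimension the invariant rational functions are constant. -/
def Stmt_KCO : Prop :=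
  ∀ {n : ℕ} {X : Germ n} (A : TorusAction X n) (h : X.K), A.Hom 0 h →
    ∃ c : ℂ, h = algebraMap ℂ X.K c

/-- TOR: the structure of a variety with an action of a torus of the same dimension. -/
def Stmt_TOR : Prop :=
  ∀ {n : ℕ} (X : Germ n) (A : TorusAction X n),
    ∃ (χ : (Fin n → ℤ) → X.K) (S : AddSubmonoid (Fin n → ℤ)), ToricCoord X χ S ∧ GradedBy A χ S

/-- MOI: invariant ideals are generated by characters. -/
def Stmt_MOI : Prop :=
  ∀ {n : ℕ} (X : Germ n) (A : TorusAction X n) (χ : (Fin n → ℤ) → X.K)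
    (S : AddSubmonoid (Fin n → ℤ)), ToricCoord X χ S → GradedBy A χ S →
      ∀ I : Ideal X.R, A.Inv I → ∃ B : Set (Fin n → ℤ), B ⊆ S ∧ I = monIdeal X χ B

/-- CON: the rays of the dual cone of a monoid of characters. -/
def Stmt_CON : Prop :=
  ∀ {n : ℕ} (S : AddSubmonoid (Fin n → ℤ)), S.FG →
    AddSubgroup.closure (S : Set (Fin n → ℤ)) = ⊤ → (∀ u ∈ S, -u ∈ S → u = 0) →
    ∃ (r : ℕ) (ρ : Fin r → Fin n → ℤ),
      (∀ i, ∃ u, pair u (ρ i) = 1) ∧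
      (∀ i, ∀ u ∈ S, 0 ≤ pair u (ρ i)) ∧
      (∀ i, ∃ w : Fin (n - 1) → Fin n → ℤ, (∀ j, w j ∈ S) ∧ LinearIndependent ℤ w ∧
        ∀ j, pair (w j) (ρ i) = 0) ∧
      coneOf (fun i => toR (ρ i)) = {y | ∀ u ∈ S, 0 ≤ form u y} ∧
      interior (coneOf fun i => toR (ρ i)) = {y | ∀ u ∈ S, u ≠ 0 → 0 < form u y} ∧
      (∀ i, ¬ ∃ c : Fin r → ℝ, (∀ j, 0 ≤ c j) ∧ c i = 0 ∧ toR (ρ i) = ∑ j, c j • toR (ρ j)) ∧
      ∃ y : Fin n → ℤ, ∀ u ∈ S, u ≠ 0 → 0 < pair u y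

/-- TRAY: monomial valuations on a toric variety: their centres. (From HT1.) -/
def Stmt_TRAY : Prop :=
  ∀ {n : ℕ} (X : Germ n) (χ : (Fin n → ℤ) → X.K) (S : AddSubmonoid (Fin n → ℤ)),
    0 < n → ToricCoord X χ S → ∀ (y : Fin n → ℤ) (v : DivVal n X.K), Gauss χ y v →
    (∀ u ∈ S, 0 ≤ pair u y) →
      X.Through v ∧ ((∀ u ∈ S, u ≠ 0 → 0 < pair u y) → X.At v) ∧
      ((∃ w : Fin (n - 1) → Fin n → ℤ, (∀ j, w j ∈ S) ∧ LinearIndependent ℤ w ∧
        ∀ j, pair (w j) y = 0) → ∃ P : Ideal X.R, P ≤ X.m ∧ X.IsOrdAlong v P)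

/-- PSI: the log discrepancies of an invariant triple on a toric variety. -/
def Stmt_PSI : Prop :=
  ∀ {n : ℕ} (X : Germ n) (A : TorusAction X n) (χ : (Fin n → ℤ) → X.K)
    (S : AddSubmonoid (Fin n → ℤ)), 0 < n → ToricCoord X χ S → GradedBy A χ S →
    ∀ T : Triple X, A.InvTriple T → ∃ ψ : (Fin n → ℝ) →ₗ[ℝ] ℝ,
      ∀ v : DivVal n X.K, X.Through v →
        T.logDisc v = v.logOrd (torForm χ) + ψ (toR (ordVec χ v))

/-- `T'` is the combinatorial description of the triple `T` on the toric variety `X`. -/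
structure Model {n : ℕ} (X : Germ n) (χ : (Fin n → ℤ) → X.K) (S : AddSubmonoid (Fin n → ℤ))
    (T : Triple X) (T' : ToricTriple n) : Prop where
  lattice : ∀ y, y ∈ T'.N ↔ ∃ z : Fin n → ℤ, y = toR z
  cone : coneOf T'.ray = {y | ∀ u ∈ S, 0 ≤ form u y}
  int : interior (coneOf T'.ray) = {y | ∀ u ∈ S, u ≠ 0 → 0 < form u y}
  coeff : ∀ i, ∃ P, T.Coeff P (T'.b i)
  psi : ∀ v : DivVal n X.K, X.Through v →
    T.logDisc v = v.logOrd (torForm χ) + T'.ψ (toR (ordVec χ v))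
  ideals : ∃ e : T'.J ≃ T.J, ∀ j, T'.r j = T.r (e j) ∧
    ∀ m, m ∈ T'.A j ↔ ∃ u : Fin n → ℤ, ∃ h : χ u ∈ X.R, (⟨χ u, h⟩ : X.R) ∈ T.a (e j) ∧ m = form u
  ge : ∀ v : DivVal n X.K, X.Through v →
    T.disc v = v.logOrd (torForm χ) + T'.disc (toR (ordVec χ v))
  lc : T'.LC
  mld : T'.mld = T.mld

/-- TDC: the toric dictionary. -/
def Stmt_TDC : Prop :=
  ∀ {n : ℕ} (X : Germ n) (A : TorusAction X n) (χ : (Fin n → ℤ) → X.K)
    (S : AddSubmonoid (Fin n → ℤ)), 0 < n → ToricCoord X χ S → GradedBy A χ S →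
    ∀ (T : Triple X) (D : Set ℝ), A.InvTriple T → T.LC → T.Effective → T.CoeffIn D →
    ∃ T' : ToricTriple n, Model X χ S T T' ∧ T'.CoeffIn (insert 0 D)

end

end MldGeo
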