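import Pool.Agent.MldQ.Defs

/-!
# Toric triples with a set of automorphisms of finite order
-/

namespace MldGeo

open MldGap MldAcc MldQ

noncomputable section

/-- `MldQ.ToricQuotient` without the condition on the ideals (which is not used). -/
structure TQ (n : ℕ) extends ToricTriple n where
  Γ : Set (Aff n)
  one_mem : ((1, 0) : Aff n) ∈ Γ
  add_mem : ∀ g ∈ Γ, ∀ v ∈ N, ((g.1, g.2 + v) : Aff n) ∈ Γ
  pow_mem : ∀ g ∈ Γ, ∀ k : ℕ, ((g.1 ^ k, trans g k) : Aff n) ∈ Γ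
  finite_order : ∀ g ∈ Γ, ∃ k : ℕ, 0 < k ∧ g.1 ^ k = 1 ∧ trans g k ∈ N
  map_lattice : ∀ g ∈ Γ, ∀ v ∈ N, g.1 v ∈ N
  map_ray : ∀ g ∈ Γ, ∀ i, ∃ i', g.1 (ray i) = ray i' ∧ b i' = b i

variable {n : ℕ}

/-- The set of the values whose infimum is the minimal log discrepancy of the quotient. -/
def TQ.values (Q : TQ n) : Set ℝ :=
  {a : ℝ | ∃ g ∈ Q.Γ, ∃ u, IsShift g u ∧ u ∈ interior (coneOf Q.ray) ∧
    (codim g : ℝ) / 2 + Q.disc u = a}

/-- The minimal log discrepancy of the quotient. -/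
def TQ.mldQ (Q : TQ n) : ℝ := sInf Q.values

/-- The minimal log discrepancies of quotients of log canonical triples with coefficients and
exponents in `S`. -/
def tqSet (n : ℕ) (S : Set ℝ) : Set ℝ :=
  {x | ∃ Q : TQ n, Q.LC ∧ Q.CoeffIn S ∧ Q.mldQ = x}

end

end MldGeo
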