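import Pool.Agent.MldGeo.QDefs
import Pool.Agent.MldGeo.TQ
import Pool.Agent.MldGeo.Stmts3
import Pool.Agent.MldGeo.TDC

/-!
# Quotients of toric varieties by finite groups: statements
-/

namespace MldGeo

open MldGap MldAcc MldQ

noncomputable section

/-! ## the quotient map -/

/-- QGAL: finite group quotients and divisorial valuations. -/
def Stmt_QGAL : Prop :=
  ∀ {n : ℕ} (X Y : Germ n) (G : Subgroup (X.K ≃ₐ[ℂ] X.K)) (π : Y.K →ₐ[ℂ] X.K), 0 < n →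
    IsQuot X Y G π →
    (∀ w : DivVal n X.K, ∃ (v : DivVal n Y.K) (e : ℕ), Over π w v e) ∧
    (∀ v : DivVal n Y.K, ∃ (w : DivVal n X.K) (e : ℕ), Over π w v e) ∧
    (∀ (w : DivVal n X.K) (v : DivVal n Y.K) (e : ℕ), Over π w v e →
      ∃ g ∈ G, (∀ a, w.ord (g a) = w.ord a) ∧ ∀ a : X.K, a ≠ 0 → w.Ge (w.ord a + 1)
        (g a - algebraMap ℂ X.K (Complex.exp (2 * Real.pi * Complex.I * w.ord a / e)) * a)) ∧
    ∀ (w : DivVal n X.K) (v : DivVal n Y.K) (e : ℕ), Over π w v e →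
      ∀ (g : Y.K) (a : Fin n → Y.K), g ≠ 0 → (∀ i, a i ≠ 0) → dlogs a ≠ 0 →
        dlogs (fun i => π (a i)) ≠ 0 ∧
        w.logOrd (π g • dlogs fun i => π (a i)) = e * v.logOrd (g • dlogs a)

/-- QAT: the centres of `w` and `v`. -/
def Stmt_QAT : Prop :=
  ∀ {n : ℕ} (X Y : Germ n) (G : Subgroup (X.K ≃ₐ[ℂ] X.K)) (π : Y.K →ₐ[ℂ] X.K),
    IsQuot X Y G π → ∀ (w : DivVal n X.K) (v : DivVal n Y.K) (e : ℕ), Over π w v e →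
      (X.At w ↔ Y.At v)

/-- PUL: log discrepancies and crepant pullbacks. -/
def Stmt_QPUL : Prop :=
  ∀ {n : ℕ} (X Y : Germ n) (G : Subgroup (X.K ≃ₐ[ℂ] X.K)) (π : Y.K →ₐ[ℂ] X.K) (T : Triple X)
    (T' : Triple Y), 0 < n → IsQuot X Y G π → Crepant π T T' →
    ∀ (w : DivVal n X.K) (v : DivVal n Y.K) (e : ℕ), X.Through w → Over π w v e →
      T.logDisc w = e * T'.logDisc v

/-! ## monomial automorphisms -/

/-- `σ` is a monomial automorphism, `σ(χ^u) = c(u) χ^{φ(u)}`, and `σ^k = 1`. -/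
structure MonAut {n : ℕ} {K : Type} [Field K] [Algebra ℂ K] (χ : (Fin n → ℤ) → K)
    (σ : K ≃ₐ[ℂ] K) (φ : (Fin n → ℤ) →ₗ[ℤ] (Fin n → ℤ)) (c : (Fin n → ℤ) → ℂ) (k : ℕ) :
    Prop where
  pos : 0 < k
  ne : ∀ u, c u ≠ 0
  mul : ∀ u w, c (u + w) = c u * c w
  eq : ∀ u, σ (χ u) = algebraMap ℂ K (c u) * χ (φ u)
  fin : σ ^ k = 1
  iter : φ ^ k = 1
  prod : ∀ u, ∏ j ∈ Finset.range k, c ((φ ^ j) u) = 1

/-- MON: automorphisms which normalise the torus are monomial. -/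
def Stmt_QMON : Prop :=
  ∀ {n : ℕ} (X : Germ n) (A : TorusAction X n) (χ : (Fin n → ℤ) → X.K)
    (S : AddSubmonoid (Fin n → ℤ)), ToricCoord X χ S → GradedBy A χ S →
    ∀ σ : X.K ≃ₐ[ℂ] X.K, (∀ a ∈ X.R, σ a ∈ X.R) → A.Normal σ → ∀ k : ℕ, 0 < k → σ ^ k = 1 →
    ∃ (φ : (Fin n → ℤ) →ₗ[ℤ] (Fin n → ℤ)) (c : (Fin n → ℤ) → ℂ), MonAut χ σ φ c k ∧
      ∀ u, u ∈ S ↔ φ u ∈ S

/-- The dual of `φ` on `ℝ^n`: `form u (dual φ y) = form (φ u) y`. -/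
def dual {n : ℕ} (φ : (Fin n → ℤ) →ₗ[ℤ] (Fin n → ℤ)) : (Fin n → ℝ) →ₗ[ℝ] (Fin n → ℝ) :=
  LinearMap.pi fun i => form (φ (Pi.single i 1))

/-- `c(e_i) = |c(e_i)| exp(2 π i (argVec c)_i)` -/
def argVec {n : ℕ} (c : (Fin n → ℤ) → ℂ) : Fin n → ℝ :=
  fun i => (c (Pi.single i 1)).arg / (2 * Real.pi)

/-- The coefficients of the power `σ^i` of `σ(χ^u) = c(u) χ^{φ(u)}`. -/
def cpow {n : ℕ} (φ : (Fin n → ℤ) →ₗ[ℤ] (Fin n → ℤ)) (c : (Fin n → ℤ) → ℂ) (i : ℕ) :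
    (Fin n → ℤ) → ℂ := fun m => ∏ j ∈ Finset.range i, c ((φ ^ j) m)

/-- The rank of `φ - 1`. -/
def cod {n : ℕ} (φ : (Fin n → ℤ) →ₗ[ℤ] (Fin n → ℤ)) : ℕ :=
  Module.finrank ℝ (LinearMap.range (dual φ - 1))

/-- POW: powers. -/
def Stmt_POW : Prop :=
  ∀ {n : ℕ} (φ : (Fin n → ℤ) →ₗ[ℤ] (Fin n → ℤ)) (c : (Fin n → ℤ) → ℂ), (∀ u, c u ≠ 0) →
    (∀ u w, c (u + w) = c u * c w) →
    (∀ i, dual (φ ^ i) = dual φ ^ i) ∧
    (∀ (v : Fin n → ℝ) (i : ℕ), v ∈ TDC.lat n →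
      trans (dual φ, argVec c + v) i - argVec (cpow φ c i) ∈ TDC.lat n) ∧
    (∀ i l, cpow (φ ^ i) (cpow φ c i) l = cpow φ c (i * l)) ∧
    ∀ {K : Type} [Field K] [Algebra ℂ K] (χ : (Fin n → ℤ) → K) (σ : K ≃ₐ[ℂ] K) (k : ℕ),
      MonAut χ σ φ c k → ∀ i, MonAut χ (σ ^ i) (φ ^ i) (cpow φ c i) k

/-- SHF: the shifts. -/
def Stmt_SHF : Prop :=
  ∀ {n k : ℕ} (φ : (Fin n → ℤ) →ₗ[ℤ] (Fin n → ℤ)) (c : (Fin n → ℤ) → ℂ), 0 < k →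
    (∀ u, c u ≠ 0) → (∀ u w, c (u + w) = c u * c w) → φ ^ k = 1 →
    (∀ u, ∏ j ∈ Finset.range k, c ((φ ^ j) u) = 1) →
    ∀ u : Fin n → ℝ, (∃ v ∈ TDC.lat n, IsShift (dual φ, argVec c + v) u) ↔
      dual φ u = u ∧
      ∀ m, φ m = m → c m = Complex.exp (2 * Real.pi * Complex.I * (form m u : ℝ))

/-- INVP: the log discrepancy function is invariant. -/
def Stmt_INVP : Prop :=
  ∀ {n : ℕ} (X Y : Germ n) (G : Subgroup (X.K ≃ₐ[ℂ] X.K)) (π : Y.K →ₐ[ℂ] X.K) (T : Triple X)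
    (T' : Triple Y), 0 < n → IsQuot X Y G π → Crepant π T T' →
    ∀ (χ : (Fin n → ℤ) → X.K) (S : AddSubmonoid (Fin n → ℤ)), ToricCoord X χ S →
    ∀ σ ∈ G, ∀ (φ : (Fin n → ℤ) →ₗ[ℤ] (Fin n → ℤ)) (c : (Fin n → ℤ) → ℂ) (k : ℕ),
    MonAut χ σ φ c k → (∀ u, u ∈ S ↔ φ u ∈ S) → ∀ M : ToricTriple n, Model X χ S T M →
      ∀ y, M.ψ (dual φ y) = M.ψ y

/-- TQM: the combinatorial description of the quotient. -/
def Stmt_TQM : Prop :=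
  ∀ {n k : ℕ} (S : AddSubmonoid (Fin n → ℤ)) (M : ToricTriple n)
    (φ : (Fin n → ℤ) →ₗ[ℤ] (Fin n → ℤ)) (c : (Fin n → ℤ) → ℂ), 0 < k →
    (∀ y, y ∈ M.N ↔ ∃ z : Fin n → ℤ, y = toR z) →
    coneOf M.ray = {y | ∀ u ∈ S, 0 ≤ form u y} →
    (∀ u, u ∈ S ↔ φ u ∈ S) → (∀ u, c u ≠ 0) → (∀ u w, c (u + w) = c u * c w) → φ ^ k = 1 →
    (∀ u, ∏ j ∈ Finset.range k, c ((φ ^ j) u) = 1) → (∀ y, M.ψ (dual φ y) = M.ψ y) →
    ∃ Q : TQ n, Q.toToricTriple = M ∧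
      ∀ g : Aff n, g ∈ Q.Γ ↔ ∃ i : ℕ, g.1 = dual (φ ^ i) ∧ g.2 - argVec (cpow φ c i) ∈ TDC.lat n

/-! ## eigenvectors -/

/-- The pairing with complex vectors. -/
def cpair {n : ℕ} (m : Fin n → ℤ) (y : Fin n → ℂ) : ℂ := ∑ i, (m i : ℂ) * y i

/-- An integral vector as a complex vector. -/
def toC {n : ℕ} (y : Fin n → ℤ) : Fin n → ℂ := fun i => (y i : ℂ)

/-- EIG: a basis of eigenvectors of the dual of `φ` which contains `U`. -/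
def Stmt_EIG : Prop :=
  ∀ {n e : ℕ} (φ : (Fin n → ℤ) →ₗ[ℤ] (Fin n → ℤ)) (U : Fin n → ℤ), 0 < e → φ ^ e = 1 → U ≠ 0 →
    (∀ m, pair (φ m) U = pair m U) →
    ∃ (p q : ℕ) (ν : Fin p → Fin n → ℤ) (ε : Fin q → Fin n → ℂ) (a : Fin q → ℕ),
      p + q + 1 = n ∧ q = cod φ ∧ (∀ j m, pair (φ m) (ν j) = pair m (ν j)) ∧
      (∀ i, 0 < a i ∧ a i < e) ∧ 2 * ∑ i, a i = e * q ∧
      (∀ i m, cpair (φ m) (ε i) = Complex.exp (2 * Real.pi * Complex.I * a i / e) *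
        cpair m (ε i)) ∧
      LinearIndependent ℂ (Sum.elim (Sum.elim (fun _ : Unit => toC U) fun j => toC (ν j)) ε)

/-- DDER: the derivations dual to a frame. -/
def Stmt_DDER : Prop :=
  ∀ {m : ℕ} {K : Type} [Field K] [Algebra ℂ K], Algebra.trdeg ℂ K = ((m + 1 : ℕ) : Cardinal) →
    ∀ (v : DivVal (m + 1) K) (t : K) (u : Fin m → K), Frame v t u →
    ∃ Δ : Fin (m + 1) → Derivation ℂ K K,
      (∀ l, Δ l t = if l = 0 then t else 0) ∧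
      (∀ l j, Δ l (u j) = if l = j.succ then 1 else 0) ∧
      (∀ l (k : ℤ) a, v.Ge k a → v.Ge k (Δ l a)) ∧
      (∀ {L : Type} [Field L] [Algebra ℂ L] (ι : K →ₐ[ℂ] L) (δ : K → L),
        (∀ a b, δ (a + b) = δ a + δ b) → (∀ a b, δ (a * b) = ι a * δ b + ι b * δ a) →
        (∀ c : ℂ, δ (algebraMap ℂ K c) = 0) → ∀ a, δ a =
          ∑ l, ι (Δ l a) * (Fin.cons (δ t / ι t) (fun j => δ (u j)) : Fin (m + 1) → L) l) ∧
      ∀ x : Fin (m + 1) → K, (∀ i, x i ≠ 0) → dlogs x ≠ 0 →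
        (Matrix.of fun i l => Δ l (x i) / x i).det ≠ 0 ∧
        v.logOrd (dlogs x) = v.ord (Matrix.of fun i l => Δ l (x i) / x i).det

/-- QLG: the lower bound for the order of the invariant form. -/
def Stmt_QLG : Prop :=
  ∀ {n : ℕ} {K : Type} [Field K] [Algebra ℂ K] (χ : (Fin n → ℤ) → K), TorusField χ →
    Algebra.trdeg ℂ K = (n : Cardinal) → 0 < n → ∀ (σ : K ≃ₐ[ℂ] K)
    (φ : (Fin n → ℤ) →ₗ[ℤ] (Fin n → ℤ)) (c : (Fin n → ℤ) → ℂ) (k : ℕ), MonAut χ σ φ c k →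
    ∀ (w : DivVal n K) (e : ℕ), 0 < e → ordVec χ w ≠ 0 → (∀ a, w.ord (σ a) = w.ord a) →
    (∀ a : K, a ≠ 0 → w.Ge (w.ord a + 1)
      (σ a - algebraMap ℂ K (Complex.exp (2 * Real.pi * Complex.I * w.ord a / e)) * a)) →
    (e : ℤ) * cod φ ≤ 2 * w.logOrd (torForm χ)

/-- QV: valuations with a given inertia group. -/
def Stmt_QV : Prop :=
  ∀ {n : ℕ} {K : Type} [Field K] [Algebra ℂ K] (χ : (Fin n → ℤ) → K), TorusField χ →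
    Algebra.trdeg ℂ K = (n : Cardinal) → ∀ (σ : K ≃ₐ[ℂ] K)
    (φ : (Fin n → ℤ) →ₗ[ℤ] (Fin n → ℤ)) (c : (Fin n → ℤ) → ℂ) (k : ℕ), MonAut χ σ φ c k →
    ∀ (e : ℕ) (U : Fin n → ℤ), 0 < e → k ∣ e → U ≠ 0 → (∀ m, pair (φ m) U = pair m U) →
    (∀ m, φ m = m → c m = Complex.exp (2 * Real.pi * Complex.I * (pair m U : ℤ) / e)) →
    ∃ (w : DivVal n K) (δ : ℕ), 0 < δ ∧ (∀ m, δ * w.ord (χ m) = pair m U) ∧
      δ * (2 * w.logOrd (torForm χ)) ≤ e * cod φ ∧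
      ∀ f : K, f ≠ 0 → σ f = f → (e : ℤ) ∣ δ * w.ord f

/-- COC: a homomorphism `κ : ℤ^n → ℂ^*` which is trivial on the fixed vectors is a coboundary. -/
def Stmt_COC : Prop :=
  ∀ {n : ℕ} (φ : (Fin n → ℤ) →ₗ[ℤ] (Fin n → ℤ)) (κ : (Fin n → ℤ) → ℂ), (∀ u, κ u ≠ 0) →
    (∀ u w, κ (u + w) = κ u * κ w) → (∀ m, φ m = m → κ m = 1) →
    ∃ b : (Fin n → ℤ) → ℂ, (∀ u, b u ≠ 0) ∧ (∀ u w, b (u + w) = b u * b w) ∧
      ∀ m, b (φ m) = κ m * b m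

/-! ## Laurent series -/

/-- The field `F((s))` with its order, the automorphisms `s ↦ ζ s`, the derivation `s d/ds` and the
derivations of `F` acting on the coefficients. -/
structure LField (F : Type) [Field F] [Algebra ℂ F] where
  L : Type
  fieldL : Field L
  algL : Algebra ℂ L
  emb : F →ₐ[ℂ] L
  ord : L → ℤ
  ord_zero : ord 0 = 0
  s : L
  s_ne : s ≠ 0
  ord_s : ord s = 1
  ord_mul : ∀ x y, x ≠ 0 → y ≠ 0 → ord (x * y) = ord x + ord y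
  ord_add : ∀ x y, x ≠ 0 → y ≠ 0 → x + y ≠ 0 → min (ord x) (ord y) ≤ ord (x + y)
  ord_emb : ∀ a : F, a ≠ 0 → ord (emb a) = 0
  /-- every series has a leading term -/
  lead : ∀ x, x ≠ 0 → ∃ a : F, a ≠ 0 ∧
    (x - emb a * s ^ ord x = 0 ∨ ord x < ord (x - emb a * s ^ ord x))
  complete : ∀ x : ℕ → L, (∀ k, x (k + 1) - x k = 0 ∨ (k : ℤ) ≤ ord (x (k + 1) - x k)) →
    ∃ y, ∀ k, y - x k = 0 ∨ (k : ℤ) ≤ ord (y - x k)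
  /-- the automorphism `s ↦ ζ s` -/
  rot : ℂˣ → L →ₐ[ℂ] L
  rot_emb : ∀ ζ a, rot ζ (emb a) = emb a
  rot_s : ∀ ζ, rot ζ s = algebraMap ℂ L ζ * s
  rot_ord : ∀ ζ x, ord (rot ζ x) = ord x
  /-- the derivation `s d/ds` -/
  θ : Derivation ℂ L L
  θ_emb : ∀ a, θ (emb a) = 0
  θ_s : θ s = s
  θ_ord : ∀ x, θ x = 0 ∨ ord x ≤ ord (θ x)
  /-- a derivation of `F`, on the coefficients -/
  D : Derivation ℂ F F → Derivation ℂ L L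
  D_emb : ∀ d a, D d (emb a) = emb (d a)
  D_s : ∀ d, D d s = 0
  D_ord : ∀ d x, D d x = 0 ∨ ord x ≤ ord (D d x)

attribute [instance] LField.fieldL LField.algL

/-- The order as a divisorial valuation (so that the lemmas of `Ord.lean` are available). -/
def LField.val {F : Type} [Field F] [Algebra ℂ F] (Λ : LField F) : DivVal 1 Λ.L where
  ord := Λ.ord
  ord_zero := Λ.ord_zero
  ord_mul := Λ.ord_mul
  ord_add := Λ.ord_add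
  ord_const c := by
    by_cases hc : c = 0
    · rw [hc, map_zero]
      exact Λ.ord_zero
    · have h1 : algebraMap ℂ Λ.L c = Λ.emb (algebraMap ℂ F c) := (Λ.emb.commutes c).symm
      rw [h1]
      exact Λ.ord_emb _ fun h => hc ((map_eq_zero _).1 h)
  unif := ⟨Λ.s, Λ.s_ne, Λ.ord_s⟩
  res := ⟨fun _ => 0, fun P hP => by
    have : IsEmpty (Fin (1 - 1)) := inferInstanceAs (IsEmpty (Fin 0))
    have h1 : P = MvPolynomial.C (MvPolynomial.coeff 0 P) := MvPolynomial.eq_C_of_isEmpty P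
    have hc : MvPolynomial.coeff 0 P ≠ 0 := fun h => hP (by rw [h1, h, map_zero])
    rw [h1, MvPolynomial.aeval_C]
    have h2 : algebraMap ℂ Λ.L (MvPolynomial.coeff 0 P) =
        Λ.emb (algebraMap ℂ F (MvPolynomial.coeff 0 P)) := (Λ.emb.commutes _).symm
    have h3 : algebraMap ℂ F (MvPolynomial.coeff 0 P) ≠ 0 := fun h => hc ((map_eq_zero _).1 h)
    rw [h2]
    exact ⟨fun h => h3 ((map_eq_zero _).1 h), Λ.ord_emb _ h3⟩⟩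

/-- `x = 0` or `ord x ≥ k`. -/
abbrev LField.Ge {F : Type} [Field F] [Algebra ℂ F] (Λ : LField F) (k : ℤ) (x : Λ.L) : Prop :=
  Λ.val.Ge k x

/-- LAU: Laurent series. -/
def Stmt_LAU : Prop := ∀ (F : Type) [Field F] [Algebra ℂ F], Nonempty (LField F)

/-- The exponential function on the series of positive order. -/
structure LExp {F : Type} [Field F] [Algebra ℂ F] (Λ : LField F) where
  ex : Λ.L → Λ.L
  zero : ex 0 = 1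
  add : ∀ x y, Λ.Ge 1 x → Λ.Ge 1 y → ex (x + y) = ex x * ex y
  trunc : ∀ x, Λ.Ge 1 x → ∀ K : ℕ,
    Λ.Ge K (ex x - ∑ k ∈ Finset.range K, algebraMap ℂ Λ.L ((k.factorial : ℂ)⁻¹) * x ^ k)
  rot : ∀ ζ x, Λ.Ge 1 x → Λ.rot ζ (ex x) = ex (Λ.rot ζ x)
  θ : ∀ x, Λ.Ge 1 x → Λ.θ (ex x) = Λ.θ x * ex x
  D : ∀ d x, Λ.Ge 1 x → Λ.D d (ex x) = Λ.D d x * ex x

/-- EXPL: it exists. -/
def Stmt_EXPL : Prop :=
  ∀ {F : Type} [Field F] [Algebra ℂ F] (Λ : LField F), Nonempty (LExp Λ)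

/-- RATF: the field of rational functions and its partial derivatives. -/
def Stmt_RATF : Prop :=
  ∀ (ι : Type) [Fintype ι] [DecidableEq ι], ∃ (F : Type) (_ : Field F) (_ : Algebra ℂ F)
    (x : ι → F) (d : ι → Derivation ℂ F F), AlgebraicIndependent ℂ x ∧
    ∀ i j, d i (x j) = if i = j then 1 else 0

/-- The data for the construction of a valuation of the function field of a torus. -/
structure Setup (n : ℕ) where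
  p : ℕ
  q : ℕ
  dim : p + q + 1 = n
  U : Fin n → ℤ
  ν : Fin p → Fin n → ℤ
  ε : Fin q → Fin n → ℂ
  a : Fin q → ℕ
  a_pos : ∀ i, 0 < a i
  indep : LinearIndependent ℂ (Sum.elim (Sum.elim (fun _ : Unit => toC U) fun j => toC (ν j)) ε)
  b : (Fin n → ℤ) → ℂ
  b_ne : ∀ u, b u ≠ 0
  b_mul : ∀ u w, b (u + w) = b u * b w
  F : Type
  fieldF : Field F
  algF : Algebra ℂ F
  x : Fin p ⊕ Fin q → F
  x_ind : AlgebraicIndependent ℂ x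
  d : Fin p ⊕ Fin q → Derivation ℂ F F
  d_x : ∀ i j, d i (x j) = if i = j then 1 else 0
  Λ : LField F
  ex : LExp Λ

attribute [instance] Setup.fieldF Setup.algF

/-- The exponent of `Setup.E`. -/
def Setup.Z {n : ℕ} (Q : Setup n) (m : Fin n → ℤ) : Q.Λ.L :=
  ∑ i, algebraMap ℂ Q.Λ.L (cpair m (Q.ε i)) * (Q.Λ.emb (Q.x (Sum.inr i)) * Q.Λ.s ^ Q.a i)

/-- The image of the character `χ^m` in `F((s))`:
`s^{U(m)} b(m) ∏_j t_j^{ν_j(m)} exp(∑_i ε_i(m) z_i s^{a_i})`. -/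
def Setup.E {n : ℕ} (Q : Setup n) (m : Fin n → ℤ) : Q.Λ.L :=
  Q.Λ.s ^ pair m Q.U *
    Q.Λ.emb (algebraMap ℂ Q.F (Q.b m) * ∏ j, Q.x (Sum.inl j) ^ pair m (Q.ν j)) *
    Q.ex.ex (Q.Z m)

/-- CH1: basic properties. -/
def Stmt_CH1 : Prop :=
  ∀ {n : ℕ} (Q : Setup n),
    Q.E 0 = 1 ∧ (∀ m m', Q.E (m + m') = Q.E m * Q.E m') ∧ (∀ m, Q.E m ≠ 0) ∧
    (∀ m, Q.Λ.ord (Q.E m) = pair m Q.U) ∧
    (∀ m, Q.Λ.θ (Q.E m) = ((pair m Q.U : ℤ) + ∑ i, (Q.a i : Q.Λ.L) *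
      (algebraMap ℂ Q.Λ.L (cpair m (Q.ε i)) * (Q.Λ.emb (Q.x (Sum.inr i)) * Q.Λ.s ^ Q.a i))) *
        Q.E m) ∧
    (∀ j m, Q.Λ.D (Q.d (Sum.inl j)) (Q.E m) =
      (pair m (Q.ν j) : ℤ) * Q.Λ.emb (Q.x (Sum.inl j))⁻¹ * Q.E m) ∧
    ∀ i m, Q.Λ.D (Q.d (Sum.inr i)) (Q.E m) =
      algebraMap ℂ Q.Λ.L (cpair m (Q.ε i)) * Q.Λ.s ^ Q.a i * Q.E m

/-- CH2: the images of the characters are linearly independent. -/
def Stmt_CH2 : Prop := ∀ {n : ℕ} (Q : Setup n), LinearIndependent ℂ Q.E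

/-- EMBK: homomorphisms of the function field of a torus. -/
def Stmt_EMBK : Prop :=
  ∀ {n : ℕ} {K L : Type} [Field K] [Algebra ℂ K] [Field L] [Algebra ℂ L]
    (χ : (Fin n → ℤ) → K), TorusField χ → ∀ E : (Fin n → ℤ) → L, E 0 = 1 →
    (∀ m m', E (m + m') = E m * E m') → LinearIndependent ℂ E →
    (∃ ι : K →ₐ[ℂ] L, ∀ m, ι (χ m) = E m) ∧
    ∀ ι ι' : K →ₐ[ℂ] L, (∀ m, ι (χ m) = ι' (χ m)) → ι = ι'

/-- VDM: Vandermonde. -/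
def Stmt_VDM : Prop :=
  ∀ d : ℕ, 1 ≤ d → ∃ β : ℕ → ℂ, ∀ k ≤ d,
    ∑ j ∈ Finset.range (d + 1), β j * (j : ℂ) ^ k = if k = 1 then 1 else 0

/-- FNC: functions whose leading terms are `z_i s^{a_i}`. -/
def Stmt_FNC : Prop :=
  ∀ {n : ℕ} (Q : Setup n) (i : Fin Q.q), ∃ f ∈ Submodule.span ℂ (Set.range Q.E),
    Q.Λ.Ge (Q.a i + 1) (f - Q.Λ.emb (Q.x (Sum.inr i)) * Q.Λ.s ^ Q.a i)

/-- RSI: the residues. -/
def Stmt_RSI : Prop :=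
  ∀ {n : ℕ} (Q : Setup n) {K : Type} [Field K] [Algebra ℂ K] (χ : (Fin n → ℤ) → K),
    TorusField χ → ∀ ι : K →ₐ[ℂ] Q.Λ.L, (∀ m, ι (χ m) = Q.E m) →
    ∃ y : Fin (n - 1) → K, ∀ P : MvPolynomial (Fin (n - 1)) ℂ, P ≠ 0 →
      MvPolynomial.aeval y P ≠ 0 ∧ Q.Λ.ord (ι (MvPolynomial.aeval y P)) = 0

/-- LGB: the order of the invariant form. -/
def Stmt_LGB : Prop :=
  ∀ {n : ℕ} (Q : Setup n) {K : Type} [Field K] [Algebra ℂ K] (χ : (Fin n → ℤ) → K),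
    TorusField χ → Algebra.trdeg ℂ K = (n : Cardinal) → ∀ ι : K →ₐ[ℂ] Q.Λ.L,
    (∀ m, ι (χ m) = Q.E m) → ∀ (w : DivVal n K) (δ : ℕ), 0 < δ →
    (∀ f : K, f ≠ 0 → δ * w.ord f = Q.Λ.ord (ι f)) →
    δ * w.logOrd (torForm χ) ≤ ∑ i, (Q.a i : ℤ)

/-- DVL: the divisorial valuation defined by an embedding in `F((s))`. -/
def Stmt_DVL : Prop :=
  ∀ {n : ℕ} (Q : Setup n) {K : Type} [Field K] [Algebra ℂ K] (ι : K →ₐ[ℂ] Q.Λ.L),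
    (∃ f : K, f ≠ 0 ∧ Q.Λ.ord (ι f) ≠ 0) →
    (∃ y : Fin (n - 1) → K, ∀ P : MvPolynomial (Fin (n - 1)) ℂ, P ≠ 0 →
      MvPolynomial.aeval y P ≠ 0 ∧ Q.Λ.ord (ι (MvPolynomial.aeval y P)) = 0) →
    ∃ (w : DivVal n K) (δ : ℕ), 0 < δ ∧ ∀ f : K, f ≠ 0 → δ * w.ord f = Q.Λ.ord (ι f)

/-- ROT: series which are invariant under `s ↦ ζ s`. -/
def Stmt_ROT : Prop :=
  ∀ {n : ℕ} (Q : Setup n) (e : ℕ), 0 < e → ∀ ζ : ℂˣ,
    (ζ : ℂ) = Complex.exp (2 * Real.pi * Complex.I / e) →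
    (∀ f : Q.Λ.L, f ≠ 0 → Q.Λ.rot ζ f = f → (e : ℤ) ∣ Q.Λ.ord f) ∧
    ∀ m, Q.Λ.rot ζ (Q.E m) = Q.Λ.s ^ pair m Q.U * (algebraMap ℂ Q.Λ.L
      (Complex.exp (2 * Real.pi * Complex.I * (pair m Q.U : ℤ) / e)) *
      Q.Λ.emb (algebraMap ℂ Q.F (Q.b m) * ∏ j, Q.x (Sum.inl j) ^ pair m (Q.ν j)) *
      Q.ex.ex (∑ i, algebraMap ℂ Q.Λ.L
        (Complex.exp (2 * Real.pi * Complex.I * Q.a i / e) * cpair m (Q.ε i)) *
        (Q.Λ.emb (Q.x (Sum.inr i)) * Q.Λ.s ^ Q.a i)))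

end

end MldGeo
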