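import Mathlib
import Pool.Agent.MldGeo.StmtsQ

/-!
# VDM: Vandermonde
-/

set_option autoImplicit false

namespace MldGeo

namespace VDM

theorem exists_beta (d : ℕ) (_hd : 1 ≤ d) : ∃ β : Fin (d + 1) → ℂ, ∀ k : Fin (d + 1),
    ∑ j : Fin (d + 1), β j * ((j : ℕ) : ℂ) ^ (k : ℕ) = if (k : ℕ) = 1 then 1 else 0 := by
  have hdet : (Matrix.vandermonde (fun j : Fin (d + 1) => ((j : ℕ) : ℂ))).det ≠ 0 := by
    rw [Matrix.det_vandermonde_ne_zero_iff]
    intro a b h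
    have h2 : ((a : ℕ) : ℂ) = ((b : ℕ) : ℂ) := h
    exact Fin.ext (by exact_mod_cast h2)
  have hunit : IsUnit (Matrix.vandermonde (fun j : Fin (d + 1) => ((j : ℕ) : ℂ))).det :=
    isUnit_iff_ne_zero.mpr hdet
  refine ⟨Matrix.vecMul (fun k : Fin (d + 1) => if (k : ℕ) = 1 then (1 : ℂ) else 0)
    (Matrix.vandermonde (fun j : Fin (d + 1) => ((j : ℕ) : ℂ)))⁻¹, fun k => ?_⟩
  have h1 := Matrix.vecMul_vecMul (fun k : Fin (d + 1) => if (k : ℕ) = 1 then (1 : ℂ) else 0)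
    (Matrix.vandermonde (fun j : Fin (d + 1) => ((j : ℕ) : ℂ)))⁻¹
    (Matrix.vandermonde (fun j : Fin (d + 1) => ((j : ℕ) : ℂ)))
  rw [Matrix.nonsing_inv_mul _ hunit, Matrix.vecMul_one] at h1
  have h2 := congrFun h1 k
  rw [← h2]
  rfl

end VDM

open Classical in
theorem t_VDM : Stmt_VDM := by
  intro d hd
  obtain ⟨β, hβ⟩ := VDM.exists_beta d hd
  refine ⟨fun j => if h : j < d + 1 then β ⟨j, h⟩ else 0, fun k hk => ?_⟩
  rw [Finset.sum_range]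
  have h := hβ ⟨k, by omega⟩
  simp only [Fin.is_lt, dite_true, Fin.eta] at h ⊢
  exact h

end MldGeo
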