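import Pool.Agent.MldGeo.QFin
import Pool.Agent.MldGeo.FRA
import Pool.Agent.MldGeo.TBAS
import Pool.Agent.MldGeo.LOGD
import Pool.Agent.MldGeo.COE
import Pool.Agent.MldGeo.FRM
import Pool.Agent.MldGeo.FSM
import Pool.Agent.MldGeo.FDL
import Pool.Agent.MldGeo.REG
import Pool.Agent.MldGeo.TXT
import Pool.Agent.MldGeo.EXR
import Pool.Agent.MldGeo.EXT
import Pool.Agent.MldGeo.EXF
import Pool.Agent.MldGeo.INE
import Pool.Agent.MldGeo.DIV
import Pool.Agent.MldGeo.HT1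
import Pool.Agent.MldGeo.LOC
import Pool.Agent.MldGeo.OLC
import Pool.Agent.MldGeo.UNQ
import Pool.Agent.MldGeo.SPL
import Pool.Agent.MldGeo.HLI
import Pool.Agent.MldGeo.HFR
import Pool.Agent.MldGeo.HFK
import Pool.Agent.MldGeo.TRD
import Pool.Agent.MldGeo.TRB
import Pool.Agent.MldGeo.NHP
import Pool.Agent.MldGeo.GHO
import Pool.Agent.MldGeo.RED
import Pool.Agent.MldGeo.GAUT
import Pool.Agent.MldGeo.GAV
import Pool.Agent.MldGeo.KCO
import Pool.Agent.MldGeo.TOR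
import Pool.Agent.MldGeo.MOI
import Pool.Agent.MldGeo.CONE
import Pool.Agent.MldGeo.TRAY
import Pool.Agent.MldGeo.PSI
import Pool.Agent.MldGeo.TDC
import Pool.Agent.MldGeo.QGAL
import Pool.Agent.MldGeo.QAT
import Pool.Agent.MldGeo.PULQ
import Pool.Agent.MldGeo.POW
import Pool.Agent.MldGeo.SHF
import Pool.Agent.MldGeo.QV
import Pool.Agent.MldGeo.QLG
import Pool.Agent.MldGeo.QMON
import Pool.Agent.MldGeo.INVP
import Pool.Agent.MldGeo.TQM
import Pool.Agent.MldGeo.DDER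
import Pool.Agent.MldGeo.COC
import Pool.Agent.MldGeo.LAU
import Pool.Agent.MldGeo.EXPL
import Pool.Agent.MldGeo.RATF
import Pool.Agent.MldGeo.CH1
import Pool.Agent.MldGeo.CH2
import Pool.Agent.MldGeo.EMBK
import Pool.Agent.MldGeo.VDM
import Pool.Agent.MldGeo.FNC
import Pool.Agent.MldGeo.DVL
import Pool.Agent.MldGeo.ROT
import Pool.Agent.MldGeo.EIG
import Pool.Agent.MldGeo.RSI
import Pool.Agent.MldGeo.LGB

/-!
# The ascending chain condition for quotients of toric triples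
-/

namespace MldGeo

/-- ACC for the minimal log discrepancies of crepant quotients of toric triples. -/
theorem quotMld_acc {n : ℕ} {D : Set ℝ} (hD : D.IsWF) (x : ℕ → ℝ) (hx : ∀ k, x k ∈ quotMld n D) :
    ¬ StrictMono x := by
  have FRA : Stmt_FRA := t_FRA
  have TBAS : Stmt_TBAS := t_TBAS
  have LOGD : Stmt_LOGD := t_LOGD FRA
  have COE : Stmt_COE := t_COE FRA LOGD TBAS
  have FRM : Stmt_FRM := t_FRM FRA TBAS COE
  have FSM : Stmt_FSM := t_FSM FRA FRM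
  have FDL : Stmt_FDL := t_FDL FRA FRM
  have REG : Stmt_REG := t_REG FRA LOGD TBAS FRM
  have TXT : Stmt_TXT := t_TXT FRA LOGD TBAS FRM
  have EXF : Stmt_EXF := t_EXF FRA TBAS LOGD FRM FSM
  have LOC : Stmt_LOC := t_LOC t_DIV
  have UNQ : Stmt_UNQ := t_UNQ LOC
  have HFK : Stmt_HFK := t_HFK t_HLI t_HFR
  have TRD : Stmt_TRD := t_TRD t_SPL HFK
  have TRB : Stmt_TRB := t_TRB HFK
  have NHP : Stmt_NHP := t_NHP t_HFR HFK TRD TRB TBAS REG FSM t_OLC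
  have GHO : Stmt_GHO := t_GHO t_HFR t_OLC t_DIV LOC
  have RED : Stmt_RED := t_RED NHP GHO TRB TBAS FSM TXT t_DIV
  have GAV : Stmt_GAV := t_GAV (t_GAUT TBAS FRM)
  have KCO : Stmt_KCO := t_KCO TRD
  have TOR : Stmt_TOR := t_TOR KCO t_SPL t_HLI t_HFR HFK TRB
  have TRAY : Stmt_TRAY := t_TRAY t_HT1
  have PSI : Stmt_PSI := t_PSI KCO RED
  have TDC : Stmt_TDC := t_TDC t_MOI t_CON TRAY PSI GAV t_IDO FDL TBAS
  have QGAL : Stmt_QGAL := t_QGAL t_EXR t_EXT t_INE EXF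
  have QPUL : Stmt_QPUL := t_PULQ QGAL UNQ TXT FSM TBAS
  have SHF : Stmt_SHF := t_SHF t_POW
  have DDER : Stmt_DDER := t_DDER FRA TBAS LOGD FRM
  have FNC : Stmt_FNC := t_FNC t_CH1 t_VDM
  have RSI : Stmt_RSI := t_RSI t_CH1 FNC
  have LGB : Stmt_LGB := t_LGB t_CH1 FRA DDER TBAS
  have QV : Stmt_QV := t_QV t_EIG t_COC t_LAU t_EXPL t_RATF t_CH1 (t_CH2 t_CH1) t_EMBK RSI LGB t_DVL
    (t_ROT t_CH1)
  have QLG : Stmt_QLG := t_QLG FRA DDER t_EIG TBAS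
  have INVP : Stmt_INVP := t_INVP QGAL QPUL GAV TRAY FDL TBAS
  exact acc_quot QGAL t_QAT QPUL t_POW SHF QV QLG TOR TDC t_QMON INVP (t_TQM t_POW) hD x hx

end MldGeo
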