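import Pool.Agent.MldGeo.Defs

/-!
# MP_fa3f7f_ag: quotients by finite groups, crepant pullbacks
-/

namespace MldGeo

noncomputable section

variable {n : ℕ}

/-- `Y = X / G`: `G` is a finite group of automorphisms of `X` which fix `x`, given by their action on
the function field, `π` is the inclusion of the function field of `Y` in the one of `X`, and `y` is the
image of `x`. -/
structure IsQuot (X Y : Germ n) (G : Subgroup (X.K ≃ₐ[ℂ] X.K)) (π : Y.K →ₐ[ℂ] X.K) : Prop where
  /-- `G` is finite -/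
  finite : Finite G
  /-- it acts on `X` -/
  map_R : ∀ g ∈ G, ∀ a ∈ X.R, g a ∈ X.R
  /-- it fixes `x` -/
  map_m : ∀ g ∈ G, ∀ a b : X.R, (b : X.K) = g a → a ∈ X.m → b ∈ X.m
  /-- the functions on `Y` are the invariant functions on `X` -/
  inv : ∀ a : X.K, (∃ b, π b = a) ↔ ∀ g ∈ G, g a = a
  /-- the regular functions on `Y` are the invariant regular functions on `X` -/
  mem_R : ∀ b : Y.K, b ∈ Y.R ↔ π b ∈ X.R
  /-- `y` is the image of `x` -/
  mem_m : ∀ (b : Y.R) (a : X.R), (a : X.K) = π b → (b ∈ Y.m ↔ a ∈ X.m)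

/-- The divisor `w` over `X` lies over the divisor `v` over `Y`, with ramification index `e`. -/
def Over {X Y : Germ n} (π : Y.K →ₐ[ℂ] X.K) (w : DivVal n X.K) (v : DivVal n Y.K) (e : ℕ) : Prop :=
  0 < e ∧ ∀ b : Y.K, w.ord (π b) = e * v.ord b

/-- `(X, B, ∏ 𝔞_j^{r_j})` is the crepant pullback of `(Y, B', ∏ 𝔟_i^{s_i})` near `x`. -/
structure Crepant {X Y : Germ n} (π : Y.K →ₐ[ℂ] X.K) (T : Triple X) (T' : Triple Y) : Prop where
  /-- `K_X + B` is the pullback of `K_Y + B'`: if a prime divisor `Q ∋ x` of `X` has ramification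
  index `e` and coefficient `b` in `B`, and its image has coefficient `b'` in `B'`, then
  `1 - b = e (1 - b')` -/
  div : ∀ (w : DivVal n X.K) (v : DivVal n Y.K) (e : ℕ) (Q : Ideal X.R), Q ≤ X.m →
    X.IsOrdAlong w Q → Over π w v e → T.logDisc w = e * T'.logDisc v
  /-- `∏ 𝔞_j^{r_j}` and the pullback of `∏ 𝔟_i^{s_i}` have the same order along every divisor over `X`
  whose centre contains `x` -/
  ideals : ∀ (w : DivVal n X.K) (v : DivVal n Y.K) (e : ℕ), X.Through w → Over π w v e →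
    ∑ j, T.r j * idealOrd w (T.a j) = e * ∑ i, T'.r i * idealOrd v (T'.a i)

/-- The automorphism `g` of `X` normalises the torus: it maps the functions of weight `u` to functions
of a weight `u'`. -/
def TorusAction.Normal {X : Germ n} {m : ℕ} (A : TorusAction X m) (g : X.K ≃ₐ[ℂ] X.K) : Prop :=
  ∀ u, ∃ u', ∀ a b : X.R, a ∈ A.gr u → (b : X.K) = g a → b ∈ A.gr u'

/-- The minimal log discrepancies of the triples `(y ∈ Y, B', ∏ 𝔟_i^{s_i})` of dimension `n` such that
`Y = X / G`, `G` finite, the crepant pullback `(x ∈ X, B, ∏ 𝔞_j^{r_j})` is log canonical, `B ≥ 0`,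
the coefficients of `B` and the exponents `r_j` belong to `D`, and every element of `G` normalises a
torus of dimension `n` which acts on `X` with `x` as attractive fixed point and leaves the triple
`(X, B, ∏ 𝔞_j^{r_j})` invariant. -/
def quotMld (n : ℕ) (D : Set ℝ) : Set ℝ :=
  {a | ∃ (X Y : Germ n) (G : Subgroup (X.K ≃ₐ[ℂ] X.K)) (π : Y.K →ₐ[ℂ] X.K) (T : Triple X)
    (T' : Triple Y), IsQuot X Y G π ∧ Crepant π T T' ∧ T.LC ∧ T.Effective ∧ T.CoeffIn D ∧
    (∀ g ∈ G, ∃ A : TorusAction X n, A.Normal g ∧ A.InvTriple T) ∧ T'.mld = a}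

end

end MldGeo
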