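import Pool.Agent.MldGeo.TQ
import Pool.Agent.MldQ.Shift
import Pool.Agent.MldQ.Core
import Pool.Agent.MldAcc.Toric

/-!
# The ascending chain condition for quotients of toric triples
-/

namespace MldGeo

namespace TQ

open MldGap MldAcc MldQ Finset Filter

variable {n : ℕ}

theorem span_top (Q : TQ n) : Submodule.span ℝ (Q.N : Set (Fin n → ℝ)) = ⊤ := by
  apply Submodule.eq_top_of_nonempty_interior'
  refine Q.full.mono (interior_mono ?_)
  rintro _ ⟨c, _, rfl⟩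
  exact Submodule.sum_mem _ fun i _ =>
    Submodule.smul_mem _ _ (Submodule.subset_span (Q.ray_mem i))

theorem pow_mexp (Q : TQ n) {g : Aff n} (hg : g ∈ Q.Γ) : g.1 ^ mexp n = 1 := by
  obtain ⟨k, hk, h1, _⟩ := Q.finite_order g hg
  exact lattice_pow Q.N Q.discrete (span_top Q) g.1 (Q.map_lattice g hg) k hk h1

theorem pow_ray (Q : TQ n) {g : Aff n} (hg : g ∈ Q.Γ) (j : ℕ) (i : Q.ι) :
    ∃ i', (g.1 ^ j) (Q.ray i) = Q.ray i' ∧ Q.b i' = Q.b i := by
  induction j with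
  | zero => exact ⟨i, rfl, rfl⟩
  | succ j ih =>
    obtain ⟨i', h1, h2⟩ := ih
    obtain ⟨i'', h3, h4⟩ := Q.map_ray g hg i'
    exact ⟨i'', by rw [pow_succ', Module.End.mul_apply, h1, h3], by rw [h4, h2]⟩

/-! ### cones -/

theorem coneOf_mem {ι : Type} [Fintype ι] [DecidableEq ι] (e : ι → (Fin n → ℝ)) (i : ι) :
    e i ∈ coneOf e := by
  refine ⟨Pi.single i 1, fun j => ?_, ?_⟩
  · by_cases h : j = i
    · subst h; simp
    · rw [Pi.single_eq_of_ne h]
  · rw [Finset.sum_eq_single i]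
    · simp
    · intro j _ hj
      rw [Pi.single_eq_of_ne hj, zero_smul]
    · intro h
      exact absurd (mem_univ i) h

theorem coneOf_sum {ι κ : Type} [Fintype ι] (e : ι → (Fin n → ℝ)) (I : Finset κ)
    (f : κ → (Fin n → ℝ)) (w : κ → ℝ) (hf : ∀ i ∈ I, f i ∈ coneOf e) (hw : ∀ i ∈ I, 0 ≤ w i) :
    ∑ i ∈ I, w i • f i ∈ coneOf e := by
  classical
  induction I using Finset.induction_on with
  | empty => exact ⟨fun _ => 0, fun _ => le_rfl, by simp⟩
  | insert a s ha ih =>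
    rw [sum_insert ha]
    refine coneOf_add (coneOf_smul (hf a (mem_insert_self a s)) (hw a (mem_insert_self a s))) ?_
    exact ih (fun i hi => hf i (mem_insert_of_mem hi)) (fun i hi => hw i (mem_insert_of_mem hi))

theorem interior_of_pos' {ι κ : Type} [Fintype ι] (e : ι → (Fin n → ℝ)) (I : Finset κ)
    (f : κ → (Fin n → ℝ)) (x w : κ → ℝ) (hf : ∀ i ∈ I, f i ∈ coneOf e)
    (hx : ∀ i ∈ I, 0 < x i) (hw : ∀ i ∈ I, 0 < w i)
    (hint : ∑ i ∈ I, x i • f i ∈ interior (coneOf e)) :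
    ∑ i ∈ I, w i • f i ∈ interior (coneOf e) := by
  rcases I.eq_empty_or_nonempty with h | h
  · subst h; simpa using hint
  · obtain ⟨i0, hi0, hmin⟩ := I.exists_min_image (fun i => w i / x i) h
    set t := w i0 / x i0 with ht
    have ht0 : 0 < t := div_pos (hw i0 hi0) (hx i0 hi0)
    have h1 : ∑ i ∈ I, w i • f i = t • ∑ i ∈ I, x i • f i + ∑ i ∈ I, (w i - t * x i) • f i := by
      rw [smul_sum, ← sum_add_distrib]
      refine sum_congr rfl fun i _ => ?_
      rw [smul_smul, ← add_smul]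
      congr 1
      ring
    rw [h1]
    refine interior_add_mem (interior_smul_mem hint ht0) (coneOf_sum e I f _ hf fun i hi => ?_)
    have h2 := hmin i hi
    have h3 : t * x i ≤ w i := by
      rw [← le_div_iff₀ (hx i hi)]
      exact h2
    linarith

theorem avg_ray_mem (Q : TQ n) {g : Aff n} (hg : g ∈ Q.Γ) (o : ℕ) (i : Q.ι) :
    avg o g.1 (Q.ray i) ∈ coneOf Q.ray := by
  classical
  rw [avg_apply, smul_sum]
  refine coneOf_sum Q.ray (range o) (fun j => (g.1 ^ j) (Q.ray i)) (fun _ => (o : ℝ)⁻¹)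
    (fun j _ => ?_) (fun j _ => by positivity)
  obtain ⟨i', h1, _⟩ := pow_ray Q hg j i
  rw [h1]
  exact coneOf_mem Q.ray i'

/-- A fixed vector in the interior of the cone is a positive combination of averages of rays. -/
theorem exists_face (Q : TQ n) {g : Aff n} (hg : g ∈ Q.Γ) {o : ℕ} (ho : 0 < o)
    {u : Fin n → ℝ} (hu : u ∈ interior (coneOf Q.ray)) (hfix : g.1 u = u) :
    ∃ (d : ℕ) (e : Fin d → Q.ι) (x : Fin d → ℝ), d ≤ n ∧ (∀ l, 0 < x l) ∧
      u = ∑ l, x l • avg o g.1 (Q.ray (e l)) ∧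
      ∀ y : Fin d → ℝ, (∀ l, 0 < y l) →
        ∑ l, y l • avg o g.1 (Q.ray (e l)) ∈ interior (coneOf Q.ray) := by
  classical
  have huc : u ∈ coneOf (fun i => avg o g.1 (Q.ray i)) := by
    obtain ⟨c, hc, hcu⟩ := interior_subset hu
    refine ⟨c, hc, ?_⟩
    have h1 := avg_fix ho hfix
    rw [← h1]
    conv_lhs => rw [hcu]
    rw [map_sum]
    exact sum_congr rfl fun i _ => map_smul _ _ _
  obtain ⟨I, x, hx, hvx, hind⟩ := caratheodory (fun i => avg o g.1 (Q.ray i)) u huc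
  have hsum : ∀ w : Q.ι → ℝ, ∑ l : Fin I.card, w (I.equivFin.symm l : Q.ι) •
      avg o g.1 (Q.ray (I.equivFin.symm l : Q.ι)) = ∑ i ∈ I, w i • avg o g.1 (Q.ray i) := by
    intro w
    rw [← Finset.sum_coe_sort I (fun i => w i • avg o g.1 (Q.ray i))]
    exact Equiv.sum_comp I.equivFin.symm (fun i : I => w i • avg o g.1 (Q.ray i))
  refine ⟨I.card, fun l => (I.equivFin.symm l : Q.ι), fun l => x (I.equivFin.symm l : Q.ι), ?_,
    fun l => hx _ (I.equivFin.symm l).2, ?_, ?_⟩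
  · have h1 := hind.fintype_card_le_finrank
    rw [Fintype.card_coe, Module.finrank_fin_fun] at h1
    exact h1
  · rw [hsum x, hvx]
  · intro y hy
    have h1 : ∑ l : Fin I.card, y l • avg o g.1 (Q.ray (I.equivFin.symm l : Q.ι)) =
        ∑ i ∈ I, (if h : i ∈ I then y (I.equivFin ⟨i, h⟩) else 1) • avg o g.1 (Q.ray i) := by
      rw [← hsum]
      refine sum_congr rfl fun l _ => ?_
      rw [dif_pos (I.equivFin.symm l).2]
      simp
    rw [h1]
    refine interior_of_pos' Q.ray I (fun i => avg o g.1 (Q.ray i)) x _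
      (fun i _ => avg_ray_mem Q hg o i) hx (fun i hi => ?_) (by rw [← hvx]; exact hu)
    rw [dif_pos hi]
    exact hy _

/-! ### the log discrepancy function in coordinates -/

/-- The exponents in the coordinates of a simplicial cone in the fixed space, times `o`. -/
def expoQ (Q : TQ n) (g : Aff n) (o : ℕ) {d : ℕ} (e : Fin d → Q.ι)
    (C : Set ((Fin n → ℝ) →ₗ[ℝ] ℝ)) : Set (Fin d → ℕ) :=
  {a | ∃ m ∈ C, ∀ l, (o : ℝ) * m (avg o g.1 (Q.ray (e l))) = a l}

theorem nat_avg (Q : TQ n) {g : Aff n} (hg : g ∈ Q.Γ) {o : ℕ} (ho : 0 < o) (j : Q.J)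
    {m : (Fin n → ℝ) →ₗ[ℝ] ℝ} (hm : m ∈ Q.A j) (i : Q.ι) :
    ∃ a : ℕ, (o : ℝ) * m (avg o g.1 (Q.ray i)) = a := by
  have h1 : ∀ k : ℕ, ∃ a : ℕ, m ((g.1 ^ k) (Q.ray i)) = a := by
    intro k
    obtain ⟨i', h2, _⟩ := pow_ray Q hg k i
    rw [h2]
    exact Q.A_ray j m hm i'
  choose a ha using h1
  refine ⟨∑ k ∈ range o, a k, ?_⟩
  rw [← smul_eq_mul, ← map_smul, smul_avg ho, map_sum]
  push_cast
  exact sum_congr rfl fun k _ => ha k

theorem expoQ_nonempty (Q : TQ n) {g : Aff n} (hg : g ∈ Q.Γ) {o : ℕ} (ho : 0 < o)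
    {d : ℕ} (e : Fin d → Q.ι) (j : Q.J) : (expoQ Q g o e (Q.A j)).Nonempty := by
  obtain ⟨m, hm⟩ := Q.A_nonempty j
  choose a ha using nat_avg Q hg ho j hm
  exact ⟨fun l => a (e l), m, hm, fun l => ha _⟩

theorem ord_eq (Q : TQ n) {g : Aff n} (hg : g ∈ Q.Γ) {o : ℕ} (ho : 0 < o) {d : ℕ}
    (e : Fin d → Q.ι) (j : Q.J) (y : Fin d → ℝ) :
    ord (Q.A j) (∑ l, y l • avg o g.1 (Q.ray (e l))) =
      (o : ℝ)⁻¹ * ordA (expoQ Q g o e (Q.A j)) y := by
  unfold ord ordA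
  have ho' : (o : ℝ) ≠ 0 := by exact_mod_cast ho.ne'
  rw [← smul_eq_mul, ← Real.sInf_smul_of_nonneg (by positivity)]
  congr 1
  ext z
  constructor
  · rintro ⟨m, hm, rfl⟩
    choose a ha using nat_avg Q hg ho j hm
    refine Set.mem_smul_set.2 ⟨∑ l, (a (e l) : ℝ) * y l, ⟨fun l => a (e l), ⟨m, hm, fun l => ha _⟩,
      rfl⟩, ?_⟩
    simp only [map_sum, map_smul, smul_eq_mul, ← ha]
    rw [mul_sum]
    refine sum_congr rfl fun l _ => ?_
    field_simp
  · intro hz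
    obtain ⟨_, ⟨a, ⟨m, hm, hma⟩, rfl⟩, rfl⟩ := Set.mem_smul_set.1 hz
    refine ⟨m, hm, ?_⟩
    simp only [map_sum, map_smul, smul_eq_mul, ← hma]
    rw [mul_sum]
    refine sum_congr rfl fun l _ => ?_
    field_simp

theorem psi_avg (Q : TQ n) {g : Aff n} (hg : g ∈ Q.Γ) {o : ℕ} (ho : 0 < o) (i : Q.ι) :
    Q.ψ (avg o g.1 (Q.ray i)) = 1 - Q.b i := by
  have h1 : ∀ k : ℕ, Q.ψ ((g.1 ^ k) (Q.ray i)) = 1 - Q.b i := by
    intro k
    obtain ⟨i', h2, h3⟩ := pow_ray Q hg k i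
    rw [h2, Q.ψ_ray, h3]
  rw [avg_apply, map_smul, map_sum, sum_congr rfl (fun k _ => h1 k), sum_const, card_range,
    smul_eq_mul, nsmul_eq_mul, ← mul_assoc, inv_mul_cancel₀ (by exact_mod_cast ho.ne'), one_mul]

theorem disc_eq (Q : TQ n) {g : Aff n} (hg : g ∈ Q.Γ) {o : ℕ} (ho : 0 < o) {d : ℕ}
    (e : Fin d → Q.ι) (y : Fin d → ℝ) :
    Q.disc (∑ l, y l • avg o g.1 (Q.ray (e l))) =
      F (fun l => Q.b (e l)) (fun j => Q.r j / o) (fun j => expoQ Q g o e (Q.A j)) y := by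
  unfold ToricTriple.disc F
  congr 1
  · rw [map_sum]
    refine sum_congr rfl fun l _ => ?_
    rw [map_smul, psi_avg Q hg ho, smul_eq_mul, mul_comm]
  · refine sum_congr rfl fun j _ => ?_
    rw [ord_eq Q hg ho]
    show Q.r j * ((o : ℝ)⁻¹ * ordA (expoQ Q g o e (Q.A j)) y) =
      Q.r j / o * ordA (expoQ Q g o e (Q.A j)) y
    rw [div_eq_mul_inv, mul_assoc]

/-! ### the lattice -/

/-- the averages of the lattice vectors, and the multiples of `o u` -/
noncomputable def baseGrp (N : AddSubgroup (Fin n → ℝ)) (g : Aff n) (o : ℕ) (u : Fin n → ℝ) :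
    AddSubgroup (Fin n → ℝ) :=
  N.map (avg o g.1).toAddMonoidHom ⊔ AddSubgroup.zmultiples ((o : ℝ) • u)

/-- The vectors of `u + baseGrp` are shifts of elements with the same linear part. -/
theorem exists_shift (Q : TQ n) {g : Aff n} (hg : g ∈ Q.Γ) {o : ℕ} (ho : 0 < o)
    (hgo : g.1 ^ o = 1) {u : Fin n → ℝ} (hu : IsShift g u) {y : Fin n → ℝ}
    (hy : y - u ∈ baseGrp Q.N g o u) : ∃ h ∈ Q.Γ, h.1 = g.1 ∧ IsShift h y := by
  unfold baseGrp at hy
  rw [AddSubgroup.mem_sup] at hy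
  obtain ⟨_, ⟨v, hv, rfl⟩, _, ⟨j, rfl⟩, hsum⟩ := hy
  obtain ⟨k, hk, hgk, htr⟩ := Q.finite_order g hg
  have hku : (k : ℝ) • u = trans g k := hu.eq hgk
  -- `j + t k ≥ 0`
  obtain ⟨t, m, htm⟩ : ∃ t m : ℕ, j + t * k = m := by
    refine ⟨j.natAbs, (j + j.natAbs * k).toNat, ?_⟩
    rw [Int.toNat_of_nonneg]
    have h1 : (1 : ℤ) ≤ k := by exact_mod_cast hk
    have h2 : -j ≤ |j| := neg_le_abs j
    rw [Int.natCast_natAbs]
    nlinarith [abs_nonneg j]
  -- the lattice vector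
  set v' : Fin n → ℝ := v - ((t * o : ℕ) : ℤ) • trans g k with hv'
  have hv'N : v' ∈ Q.N := Q.N.sub_mem hv (Q.N.zsmul_mem htr _)
  obtain ⟨h1, h2⟩ := shift_pow hu ho hgo m v'
  refine ⟨_, Q.add_mem _ (Q.pow_mem g hg (1 + m * o)) v' hv'N, h1, ?_⟩
  have h3 : y = ((1 + m * o : ℕ) : ℝ) • u + avg o g.1 v' := by
    have h4 : avg o g.1 v' = avg o g.1 v - ((t * o : ℕ) : ℝ) • (k : ℝ) • u := by
      rw [hv', map_sub, ← hku, ← Int.cast_smul_eq_zsmul ℝ, map_smul, map_smul, avg_fix ho hu.fix]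
      push_cast
      rfl
    have h5 : y = u + (avg o g.1 v + j • ((o : ℝ) • u)) := by
      rw [← sub_eq_iff_eq_add']
      exact hsum.symm
    have h6 : (m : ℝ) = (j : ℝ) + t * k := by
      have : ((m : ℤ) : ℝ) = ((j + t * k : ℤ) : ℝ) := by rw [htm]
      push_cast at this
      exact this
    rw [h5, h4, ← Int.cast_smul_eq_zsmul ℝ]
    push_cast
    rw [h6]
    simp only [smul_smul]
    module
  rw [h3]
  exact h2

/-! ### data -/

theorem lc_nonneg (Q : TQ n) (hLC : Q.LC) {v : Fin n → ℝ} (hv : v ∈ Q.N)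
    (hint : v ∈ interior (coneOf Q.ray)) : 0 ≤ Q.disc v := hLC v ⟨hv, hint⟩

/-- The data of a simplicial cone in the fixed space with a bounded number of ideals. -/
theorem exists_datD {S : Set ℝ} {γ : ℝ} (hγ : 0 < γ) (hS : ∀ s ∈ S, 0 < s → γ ≤ s)
    (Q : TQ n) (hQ : Q.CoeffIn S) (hLC : Q.LC) {μ c : ℝ}
    (hup : ∃ g ∈ Q.Γ, ∃ u, IsShift g u ∧ u ∈ interior (coneOf Q.ray) ∧
      (codim g : ℝ) / 2 + Q.disc u < c)
    (hlow : ∀ g ∈ Q.Γ, ∀ u, IsShift g u → u ∈ interior (coneOf Q.ray) →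
      μ ≤ (codim g : ℝ) / 2 + Q.disc u) :
    ∃ d ≤ n, ∃ J ≤ ⌊(n : ℝ) * mexp n / γ⌋₊, ∃ s ≤ n,
      DatD S ((fun x => x / (mexp n : ℝ)) '' S) (mexp n) d J (μ - (s : ℝ) / 2)
        (c - (s : ℝ) / 2) := by
  classical
  obtain ⟨g, hg, u, hu, hui, huc⟩ := hup
  set o := mexp n with ho_def
  have ho : 0 < o := mexp_pos n
  have ho' : (0 : ℝ) < o := by exact_mod_cast ho
  have hgo : g.1 ^ o = 1 := pow_mexp Q hg
  obtain ⟨d, e, x, hdn, hx, hux, hint⟩ := exists_face Q hg ho hui hu.fix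
  set A' : Q.J → Set (Fin d → ℕ) := fun j => expoQ Q g o e (Q.A j) with hA'
  have hA'ne : ∀ j, (A' j).Nonempty := fun j => expoQ_nonempty Q hg ho e j
  set R : Finset Q.J := univ.filter fun j => 0 < Q.r j ∧ (0 : Fin d → ℕ) ∉ A' j with hR
  -- dropping the irrelevant ideals
  have hdrop : ∀ y : Fin d → ℝ, (∀ l, 0 ≤ y l) →
      ∑ j, Q.r j / o * ordA (A' j) y = ∑ j ∈ R, Q.r j / o * ordA (A' j) y := by
    intro y hy
    symm
    apply sum_subset (subset_univ R)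
    intro j _ hj
    rw [hR, mem_filter] at hj
    by_cases h1 : 0 < Q.r j
    · by_cases h2 : (0 : Fin d → ℕ) ∈ A' j
      · rw [ordA_zero h2 hy, mul_zero]
      · exact absurd ⟨mem_univ _, h1, h2⟩ hj
    · have h3 : Q.r j = 0 := le_antisymm (not_lt.1 h1) (Q.r_nonneg j)
      rw [h3, zero_div, zero_mul]
  have hcoord : ∀ y : Fin d → ℝ, (∀ l, 0 ≤ y l) →
      Q.disc (∑ l, y l • avg o g.1 (Q.ray (e l))) =
      F (fun l => Q.b (e l)) (fun j : Fin R.card => Q.r (R.equivFin.symm j) / o)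
        (fun j => A' (R.equivFin.symm j)) y := by
    intro y hy
    rw [disc_eq Q hg ho]
    unfold F
    rw [hdrop y hy]
    congr 1
    rw [← Finset.sum_coe_sort R (fun j => Q.r j / o * ordA (A' j) y)]
    exact (Equiv.sum_comp R.equivFin.symm (fun j : R => Q.r j / o * ordA (A' j) y)).symm
  -- the number of ideals
  have hcard : R.card ≤ ⌊(n : ℝ) * o / γ⌋₊ := by
    apply Nat.le_floor
    rw [le_div_iff₀ hγ]
    have hmem : ∑ l : Fin d, (o : ℝ) • avg o g.1 (Q.ray (e l)) ∈ Q.N := by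
      refine Q.N.sum_mem fun l _ => ?_
      rw [smul_avg ho]
      refine Q.N.sum_mem fun k _ => ?_
      obtain ⟨i', h1, _⟩ := pow_ray Q hg k (e l)
      rw [h1]
      exact Q.ray_mem i'
    have h1 : 0 ≤ Q.disc (∑ l : Fin d, (o : ℝ) • avg o g.1 (Q.ray (e l))) :=
      lc_nonneg Q hLC hmem (hint (fun _ => o) fun l => ho')
    have h2 := disc_eq Q hg ho e (fun _ => (o : ℝ))
    rw [h2] at h1
    unfold F at h1
    have h3 := hdrop (fun _ => (o : ℝ)) (fun _ => ho'.le)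
    have h4 : (R.card : ℝ) * γ ≤ ∑ j ∈ R, Q.r j / o * ordA (A' j) (fun _ => (o : ℝ)) := by
      rw [← nsmul_eq_mul, ← sum_const]
      refine sum_le_sum fun j hj => ?_
      rw [hR, mem_filter] at hj
      have h5 := hS _ (hQ.2 j) hj.2.1
      have h6 : (o : ℝ) ≤ ordA (A' j) (fun _ => (o : ℝ)) := by
        apply le_ordA (hA'ne j)
        intro a ha
        have hne : ∃ l, a l ≠ 0 := by
          by_contra hcon
          push Not at hcon
          apply hj.2.2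
          have : a = 0 := funext hcon
          rwa [this] at ha
        obtain ⟨l, hl⟩ := hne
        have h7 : (o : ℝ) ≤ (a l : ℝ) * o := by
          have : (1 : ℝ) ≤ (a l : ℝ) := by exact_mod_cast Nat.one_le_iff_ne_zero.2 hl
          nlinarith
        exact h7.trans (single_le_sum (f := fun l => (a l : ℝ) * (o : ℝ))
          (fun l _ => mul_nonneg (Nat.cast_nonneg _) ho'.le) (mem_univ l))
      have h8 : Q.r j / o * o = Q.r j := by field_simp
      have h9 : Q.r j / o * o ≤ Q.r j / o * ordA (A' j) (fun _ => (o : ℝ)) :=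
        mul_le_mul_of_nonneg_left h6 (div_nonneg hj.2.1.le ho'.le)
      linarith
    have h5 : ∑ l : Fin d, (1 - Q.b (e l)) * (o : ℝ) ≤ n * o := by
      have h6 : ∑ l : Fin d, (1 - Q.b (e l)) * (o : ℝ) ≤ ∑ l : Fin d, (o : ℝ) := by
        refine sum_le_sum fun l _ => ?_
        nlinarith [Q.b_nonneg (e l)]
      rw [sum_const, card_univ, Fintype.card_fin, nsmul_eq_mul] at h6
      exact h6.trans (mul_le_mul_of_nonneg_right (by exact_mod_cast hdn) ho'.le)
    linarith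
  have hcodim : codim g ≤ n := by
    have h1 := LinearMap.finrank_range_le (g.1 - 1)
    rw [Module.finrank_fin_fun] at h1
    exact h1
  refine ⟨d, hdn, R.card, hcard, codim g, hcodim, ?_⟩
  -- the lattice
  let Λ : (Fin d → ℝ) →+ (Fin n → ℝ) :=
    { toFun := fun y => ∑ l, y l • avg o g.1 (Q.ray (e l))
      map_zero' := by simp
      map_add' := fun y z => by simp [add_smul, sum_add_distrib] }
  have hΛ : ∀ y, Λ y = ∑ l, y l • avg o g.1 (Q.ray (e l)) := fun y => rfl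
  refine ⟨(baseGrp Q.N g o u).comap Λ, x, fun l => Q.b (e l),
    fun j => Q.r (R.equivFin.symm j) / o, fun j => A' (R.equivFin.symm j), ?_, ?_,
    fun i => ⟨hQ.1 _, Q.b_le_one _⟩,
    fun j => ⟨⟨_, hQ.2 _, rfl⟩, div_nonneg (Q.r_nonneg _) ho'.le, hA'ne _⟩, hx, ?_, ?_⟩
  · intro i
    rw [AddSubgroup.mem_comap]
    have h1 : Λ (Pi.single i 1) = avg o g.1 (Q.ray (e i)) := by
      rw [hΛ, Finset.sum_eq_single i]
      · simp
      · intro j _ hj
        rw [Pi.single_eq_of_ne hj, zero_smul]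
      · intro h
        exact absurd (mem_univ i) h
    rw [h1]
    exact AddSubgroup.mem_sup_left ⟨_, Q.ray_mem _, rfl⟩
  · rw [AddSubgroup.mem_comap]
    have h1 : Λ ((o : ℝ) • x) = (o : ℝ) • u := by
      rw [hΛ, hux, smul_sum]
      refine sum_congr rfl fun l _ => ?_
      rw [Pi.smul_apply, smul_eq_mul, smul_smul]
    rw [h1]
    exact AddSubgroup.mem_sup_right (AddSubgroup.mem_zmultiples _)
  · rw [← hcoord x (fun l => (hx l).le), ← hux]
    linarith
  · intro y hy hy0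
    rw [← hcoord y (fun l => (hy0 l).le)]
    rw [AddSubgroup.mem_comap, map_sub] at hy
    have h1 : Λ x = u := by rw [hΛ, ← hux]
    rw [h1] at hy
    obtain ⟨h, hh, hh1, hhs⟩ := exists_shift Q hg ho hgo hu hy
    have h2 := hlow h hh _ hhs (by rw [hΛ]; exact hint y hy0)
    have h3 : codim h = codim g := by
      unfold codim
      rw [hh1]
    rw [h3, hΛ] at h2
    linarith

theorem exists_value (Q : TQ n) : {a : ℝ | ∃ g ∈ Q.Γ, ∃ u, IsShift g u ∧
    u ∈ interior (coneOf Q.ray) ∧ (codim g : ℝ) / 2 + Q.disc u = a}.Nonempty := by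
  obtain ⟨v, hv, hvi⟩ := val_nonempty Q.toToricTriple
  refine ⟨_, _, Q.add_mem _ Q.one_mem v hv, v, ⟨1, one_pos, ?_, ?_⟩, hvi, rfl⟩
  · show (1 : (Fin n → ℝ) →ₗ[ℝ] (Fin n → ℝ)) ^ 1 = 1
    rw [one_pow]
  · simp [MldQ.trans]

/-- All values are nonnegative if the triple is log canonical. -/
theorem value_nonneg (Q : TQ n) (hLC : Q.LC) {g : Aff n} (hg : g ∈ Q.Γ)
    {u : Fin n → ℝ} (hu : IsShift g u) (hui : u ∈ interior (coneOf Q.ray)) :
    0 ≤ (codim g : ℝ) / 2 + Q.disc u := by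
  obtain ⟨k, hk, hgk, htr⟩ := Q.finite_order g hg
  have hku : (k : ℝ) • u = trans g k := hu.eq hgk
  have hk' : (0 : ℝ) < k := by exact_mod_cast hk
  have h1 : 0 ≤ Q.disc ((k : ℝ) • u) := by
    refine lc_nonneg Q hLC ?_ (interior_smul_mem hui hk')
    rw [hku]
    exact htr
  have h2 : Q.disc ((k : ℝ) • u) = k * Q.disc u := by
    have h3 : ∀ A : Set ((Fin n → ℝ) →ₗ[ℝ] ℝ), ord A ((k : ℝ) • u) = k * ord A u := by
      intro A
      unfold ord
      rw [← smul_eq_mul, ← Real.sInf_smul_of_nonneg hk'.le]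
      congr 1
      ext z
      constructor
      · rintro ⟨m, hm, rfl⟩
        exact Set.mem_smul_set.2 ⟨m u, ⟨m, hm, rfl⟩, by simp⟩
      · intro hz
        obtain ⟨_, ⟨m, hm, rfl⟩, rfl⟩ := Set.mem_smul_set.1 hz
        exact ⟨m, hm, by simp⟩
    unfold ToricTriple.disc
    rw [map_smul, smul_eq_mul, mul_sub, mul_sum]
    congr 1
    refine sum_congr rfl fun j _ => ?_
    rw [h3]
    ring
  rw [h2] at h1
  have h3 : 0 ≤ Q.disc u := nonneg_of_mul_nonneg_right h1 hk'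
  positivity

/-- ACC for minimal log discrepancies of quotients of toric triples. -/
theorem acc_mldQ {S : Set ℝ} (hS : S.IsWF) (x : ℕ → ℝ) (hx : ∀ k, x k ∈ tqSet n S) :
    ¬ StrictMono x := by
  intro hmono
  choose Q hLC hQ hmld using hx
  obtain ⟨γ, hγ, hγS⟩ := exists_gamma hS
  have hbdd : ∀ k, BddBelow {a : ℝ | ∃ g ∈ (Q k).Γ, ∃ u, IsShift g u ∧
      u ∈ interior (coneOf (Q k).ray) ∧ (codim g : ℝ) / 2 + (Q k).disc u = a} := by
    intro k
    refine ⟨0, ?_⟩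
    rintro _ ⟨g, hg, u, hu, hui, rfl⟩
    exact value_nonneg (Q k) (hLC k) hg hu hui
  have hS' : ((fun x => x / (mexp n : ℝ)) '' S).IsWF := by
    have h1 : S.IsPWO := hS.isPWO
    have h2 : Monotone fun x : ℝ => x / (mexp n : ℝ) := by
      intro a b hab
      exact div_le_div_of_nonneg_right hab (Nat.cast_nonneg _)
    exact (h1.image_of_monotone h2).isWF
  refine core_bddD hS hS' (n := n) (K := ⌊(n : ℝ) * mexp n / γ⌋₊) (M := n) (mexp_pos n)
    (fun s => (s : ℝ) / 2) x (fun k => x (k + 1)) (fun k i hki => hmono.monotone hki) fun k => ?_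
  refine exists_datD hγ hγS (Q k) (hQ k) (hLC k) ?_ ?_
  · have h1 : sInf {a : ℝ | ∃ g ∈ (Q k).Γ, ∃ u, IsShift g u ∧
        u ∈ interior (coneOf (Q k).ray) ∧ (codim g : ℝ) / 2 + (Q k).disc u = a} < x (k + 1) := by
      have := hmld k
      unfold TQ.mldQ TQ.values at this
      rw [this]
      exact hmono (Nat.lt_succ_self k)
    obtain ⟨_, ⟨g, hg, u, hu, hui, rfl⟩, h2⟩ := exists_lt_of_csInf_lt (exists_value (Q k)) h1
    exact ⟨g, hg, u, hu, hui, h2⟩
  · intro g hg u hu hui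
    rw [← hmld k]
    exact csInf_le (hbdd k) ⟨g, hg, u, hu, hui, rfl⟩

end TQ

end MldGeo
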