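import Pool.Agent.MldGeo.StmtsQ
import Pool.Agent.MldGeo.TQAcc

/-!
# The ascending chain condition for quotients of toric triples: assembly
-/

namespace MldGeo

open MldGap MldAcc MldQ

noncomputable section

namespace QFin

open TDC

variable {n : ℕ}

theorem form_dual (φ : (Fin n → ℤ) →ₗ[ℤ] (Fin n → ℤ)) (u : Fin n → ℤ) (y : Fin n → ℝ) :
    form u (dual φ y) = form (φ u) y := by
  classical
  have h1 : u = ∑ i, u i • (Pi.single i 1 : Fin n → ℤ) := by
    funext j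
    rw [Finset.sum_apply]
    simp [Pi.single_apply]
  have h2 : ∀ a b : Fin n → ℤ, form (a + b) y = form a y + form b y := by
    intro a b
    rw [form_apply, form_apply, form_apply, ← Finset.sum_add_distrib]
    exact Finset.sum_congr rfl fun i _ => by rw [Pi.add_apply]; push_cast; ring
  let F : (Fin n → ℤ) →+ ℝ := AddMonoidHom.mk' (fun a => form a y) h2
  have h3 : form (φ u) y = ∑ i, (u i : ℝ) * form (φ (Pi.single i 1)) y := by
    show F (φ u) = _
    conv_lhs => rw [h1]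
    rw [map_sum, map_sum]
    refine Finset.sum_congr rfl fun i _ => ?_
    rw [map_zsmul, map_zsmul, zsmul_eq_mul]
    rfl
  rw [h3, form_apply]
  rfl

theorem form_smul (u : Fin n → ℤ) (t : ℝ) (y : Fin n → ℝ) : form u (t • y) = t * form u y := by
  rw [map_smul, smul_eq_mul]

theorem form_single (y : Fin n → ℝ) (i : Fin n) : form (Pi.single i 1) y = y i := by
  classical
  rw [form_apply, Finset.sum_eq_single i (fun j _ hj => by simp [Pi.single_eq_of_ne hj])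
    (fun h => absurd (Finset.mem_univ i) h)]
  simp

/-- In dimension zero there are no divisors. -/
theorem no_div (Y : Germ 0) (v : DivVal 0 Y.K) : False := by
  obtain ⟨t, ht, h1⟩ := v.unif
  have htr : Algebra.trdeg ℂ Y.K = 0 := by
    have := Y.trdeg
    simpa using this
  have halg : Algebra.IsAlgebraic ℂ Y.K := _root_.trdeg_eq_zero_iff.1 htr
  obtain ⟨c, hc⟩ := (IsAlgClosed.algebraMap_bijective_of_isIntegral (k := ℂ) (K := Y.K)).2 t
  rw [← hc, v.ord_const] at h1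
  exact zero_ne_one h1

theorem exists_ne {S : AddSubmonoid (Fin n → ℤ)} (hn : 0 < n)
    (hgen : AddSubgroup.closure (S : Set (Fin n → ℤ)) = ⊤) : ∃ w ∈ S, w ≠ 0 := by
  classical
  by_contra hcon
  push Not at hcon
  have h1 : AddSubgroup.closure (S : Set (Fin n → ℤ)) ≤ ⊥ := by
    rw [AddSubgroup.closure_le]
    intro w hw
    exact hcon w hw
  rw [hgen] at h1
  have h2 : (Pi.single ⟨0, hn⟩ 1 : Fin n → ℤ) ∈ (⊥ : AddSubgroup (Fin n → ℤ)) :=
    h1 (AddSubgroup.mem_top _)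
  have h3 := congrFun (AddSubgroup.mem_bot.1 h2) ⟨0, hn⟩
  simp at h3

/-- The centre of a valuation is `x` if the characters have positive order. -/
theorem at_of_pos {X : Germ n} {χ : (Fin n → ℤ) → X.K} {S : AddSubmonoid (Fin n → ℤ)}
    (hT : ToricCoord X χ S) (w : DivVal n X.K) (hw : ∀ u ∈ S, u ≠ 0 → 0 < w.ord (χ u)) :
    X.At w := by
  classical
  have hnn : ∀ u ∈ S, 0 ≤ w.ord (χ u) := by
    intro u hu
    by_cases h : u = 0
    · rw [h, hT.zero, DivVal.ord_one]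
    · exact (hw u hu h).le
  have hge : ∀ a : X.R, w.Ge 0 (a : X.K) := by
    intro a
    obtain ⟨F, c, hF, ha⟩ := hT.span_R a a.2
    rw [ha]
    exact DivVal.Ge.sum F _ fun u hu => DivVal.Ge.const_mul (Or.inr (hnn u (hF u hu))) _
  refine ⟨fun a => ?_, fun a ha hne => ?_⟩
  · rcases hge a with h | h
    · rw [h, w.ord_zero]
    · exact h
  · obtain ⟨F, c, hF, ha2⟩ := hT.span_R a a.2
    -- the other terms lie in the ideal
    have hm : ∀ u ∈ F, u ≠ 0 → ∃ b ∈ X.m, (b : X.K) = algebraMap ℂ X.K (c u) * χ u := by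
      intro u hu hu0
      refine ⟨algebraMap ℂ X.R (c u) * ⟨χ u, (hT.mem_R u).1 (hF u hu)⟩,
        X.m.mul_mem_left _ (hT.pos u (hF u hu) hu0 _), rfl⟩
    have hc0 : 0 ∈ F → c 0 = 0 := by
      intro h0
      by_contra hc
      have h1 : ∃ b ∈ X.m, (b : X.K) = ∑ u ∈ F.erase 0, algebraMap ℂ X.K (c u) * χ u := by
        choose! f hf1 hf2 using hm
        refine ⟨∑ u ∈ F.erase 0, f u, X.m.sum_mem fun u hu =>
          hf1 u (Finset.mem_of_mem_erase hu) (Finset.ne_of_mem_erase hu), ?_⟩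
        rw [AddSubmonoidClass.coe_finsetSum]
        exact Finset.sum_congr rfl fun u hu =>
          hf2 u (Finset.mem_of_mem_erase hu) (Finset.ne_of_mem_erase hu)
      obtain ⟨b, hb, hb2⟩ := h1
      have h2 : (a : X.K) - b = algebraMap ℂ X.K (c 0) := by
        rw [ha2, hb2, ← Finset.add_sum_erase F _ h0, hT.zero]
        ring
      have h3 : algebraMap ℂ X.R (c 0) ∈ X.m := by
        have h4 : algebraMap ℂ X.R (c 0) = a - b := by
          apply Subtype.ext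
          push_cast
          rw [h2]
        rw [h4]
        exact X.m.sub_mem ha hb
      have h5 : (1 : X.R) ∈ X.m := by
        have h6 := X.m.mul_mem_left (algebraMap ℂ X.R (c 0)⁻¹) h3
        rwa [← map_mul, inv_mul_cancel₀ hc, map_one] at h6
      exact X.max.ne_top ((Ideal.eq_top_iff_one _).2 h5)
    have h7 : w.Ge 1 (a : X.K) := by
      rw [ha2]
      refine DivVal.Ge.sum F _ fun u hu => ?_
      by_cases hu0 : u = 0
      · subst hu0
        rw [hc0 hu, map_zero, zero_mul]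
        exact DivVal.Ge.zero w 1
      · exact DivVal.Ge.const_mul (Or.inr (hw u (hF u hu) hu0)) _
    have h8 := h7.le fun h => hne (Subtype.ext h)
    omega


/-- The toric description of an element of the group. -/
structure Pack {X : Germ n} (T : Triple X) (σ : X.K ≃ₐ[ℂ] X.K) (D : Set ℝ) where
  χ : (Fin n → ℤ) → X.K
  S : AddSubmonoid (Fin n → ℤ)
  coord : ToricCoord X χ S
  φ : (Fin n → ℤ) →ₗ[ℤ] (Fin n → ℤ)
  c : (Fin n → ℤ) → ℂ
  k : ℕ
  mon : MonAut χ σ φ c k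
  Q : TQ n
  model : Model X χ S T Q.toToricTriple
  coeff : Q.CoeffIn (insert 0 D)
  gam : ∀ g : Aff n, g ∈ Q.Γ ↔
    ∃ i : ℕ, g.1 = dual (φ ^ i) ∧ g.2 - argVec (cpow φ c i) ∈ TDC.lat n

variable {X Y : Germ n} {G : Subgroup (X.K ≃ₐ[ℂ] X.K)} {π : Y.K →ₐ[ℂ] X.K} {T : Triple X}
  {T' : Triple Y} {D : Set ℝ}

theorem exists_pack (hTOR : Stmt_TOR) (hTDC : Stmt_TDC) (hMON : Stmt_QMON) (hINVP : Stmt_INVP)
    (hTQM : Stmt_TQM) (hn : 0 < n) (hQ : IsQuot X Y G π) (hC : Crepant π T T') (hLC : T.LC)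
    (hE : T.Effective) (hD : T.CoeffIn D) {σ : X.K ≃ₐ[ℂ] X.K} (hσ : σ ∈ G)
    (A : TorusAction X n) (hA : A.Normal σ) (hI : A.InvTriple T) : Nonempty (Pack T σ D) := by
  obtain ⟨χ, S, hS, hG⟩ := hTOR X A
  obtain ⟨M, hM, hMD⟩ := hTDC X A χ S hn hS hG T D hI hLC hE hD
  have : Finite G := hQ.finite
  have hk : ∃ k : ℕ, 0 < k ∧ σ ^ k = 1 := by
    have h1 := isOfFinOrder_of_finite (⟨σ, hσ⟩ : G)
    refine ⟨orderOf (⟨σ, hσ⟩ : G), h1.orderOf_pos, ?_⟩
    have h2 := pow_orderOf_eq_one (⟨σ, hσ⟩ : G)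
    exact congrArg Subtype.val h2
  obtain ⟨k, hk, hσk⟩ := hk
  obtain ⟨φ, c, hmon, hst⟩ := hMON X A χ S hS hG σ (hQ.map_R σ hσ) hA k hk hσk
  have hψ := hINVP X Y G π T T' hn hQ hC χ S hS σ hσ φ c k hmon hst M hM
  obtain ⟨Q, rfl, hΓ⟩ := hTQM S M φ c hk hM.lattice hM.cone hst hmon.ne hmon.mul hmon.iter
    hmon.prod hψ
  exact ⟨⟨χ, S, hS, φ, c, k, hmon, Q, hM, hMD, hΓ⟩⟩

theorem disc_over (hPUL : Stmt_QPUL) (hn : 0 < n) (hQ : IsQuot X Y G π) (hC : Crepant π T T')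
    {w : DivVal n X.K} {v : DivVal n Y.K} {e : ℕ} (hw : X.Through w) (ho : Over π w v e) :
    T.disc w = e * T'.disc v := by
  unfold Triple.disc
  rw [hPUL X Y G π T T' hn hQ hC w v e hw ho, hC.ideals w v e hw ho]
  ring

theorem lower (hPUL : Stmt_QPUL) (hQLG : Stmt_QLG) (hSHF : Stmt_SHF) (hn : 0 < n)
    (hQ : IsQuot X Y G π) (hC : Crepant π T T') {σ : X.K ≃ₐ[ℂ] X.K} (P : Pack T σ D)
    {w : DivVal n X.K} {v : DivVal n Y.K} {e : ℕ} (hw : X.At w) (ho : Over π w v e)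
    (hσ1 : ∀ a, w.ord (σ a) = w.ord a)
    (hσ2 : ∀ a : X.K, a ≠ 0 → w.Ge (w.ord a + 1) (σ a - algebraMap ℂ X.K
      (Complex.exp (2 * Real.pi * Complex.I * w.ord a / e)) * a)) :
    P.Q.mldQ ≤ T'.disc v := by
  have hχ : TorusField P.χ := P.coord.toTorusField
  have he : (0 : ℝ) < e := by exact_mod_cast ho.1
  have hU : ∀ u ∈ P.S, u ≠ 0 → 0 < pair u (ordVec P.χ w) := by
    intro u hu hne
    rw [← ord_chi hχ]
    exact hw.2 _ (P.coord.pos u hu hne ((P.coord.mem_R u).1 hu))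
      fun h => chi_ne hχ u (congrArg Subtype.val h)
  have hU0 : ordVec P.χ w ≠ 0 := by
    intro h
    obtain ⟨s, hs, hs0⟩ := exists_ne hn P.coord.gen
    have := hU s hs hs0
    rw [h] at this
    simp [pair] at this
  have hfix : ∀ m, pair (P.φ m) (ordVec P.χ w) = pair m (ordVec P.χ w) := by
    intro m
    rw [← ord_chi hχ, ← ord_chi hχ, ← hσ1 (P.χ m), P.mon.eq, DivVal.ord_const_mul w (P.mon.ne m)]
  let u : Fin n → ℝ := (e : ℝ)⁻¹ • toR (ordVec P.χ w)
  have hu : toR (ordVec P.χ w) = (e : ℝ) • u := by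
    show _ = (e : ℝ) • ((e : ℝ)⁻¹ • toR (ordVec P.χ w))
    rw [smul_smul, mul_inv_cancel₀ he.ne', one_smul]
  have hform : ∀ m, form m u = (e : ℝ)⁻¹ * (pair m (ordVec P.χ w) : ℝ) := by
    intro m
    show form m ((e : ℝ)⁻¹ • toR (ordVec P.χ w)) = _
    rw [form_smul, form_toR]
  have hdual : dual P.φ u = u := by
    funext i
    rw [← form_single (dual P.φ u) i, ← form_single u i, form_dual, hform, hform, hfix]
  have hc : ∀ m, P.φ m = m →
      P.c m = Complex.exp (2 * Real.pi * Complex.I * (form m u : ℝ)) := by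
    intro m hm
    have h1 := hσ2 (P.χ m) (chi_ne hχ m)
    rw [P.mon.eq, hm, ← sub_mul, ← map_sub] at h1
    have h2 : P.c m = Complex.exp (2 * Real.pi * Complex.I * w.ord (P.χ m) / e) := by
      by_contra hne
      have h3 := h1.le (mul_ne_zero ((map_ne_zero _).2 (sub_ne_zero.2 hne)) (chi_ne hχ m))
      rw [DivVal.ord_const_mul w (sub_ne_zero.2 hne)] at h3
      omega
    rw [h2, hform, ord_chi hχ]
    congr 1
    push_cast
    field_simp
  obtain ⟨v0, hv0, hsh⟩ := (hSHF P.φ P.c P.mon.pos P.mon.ne P.mon.mul P.mon.iter P.mon.prod u).2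
    ⟨hdual, hc⟩
  have hmem : ((dual P.φ, argVec P.c + v0) : Aff n) ∈ P.Q.Γ := by
    rw [P.gam]
    refine ⟨1, by rw [pow_one], ?_⟩
    have h1 : cpow P.φ P.c 1 = P.c := by
      funext m
      unfold cpow
      rw [Finset.prod_range_one, pow_zero]
      rfl
    rw [h1]
    show argVec P.c + v0 - argVec P.c ∈ lat n
    rwa [add_sub_cancel_left]
  have hint : u ∈ interior (coneOf P.Q.ray) := by
    rw [P.model.int]
    intro s hs hs0
    rw [hform]
    have h1 := hU s hs hs0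
    have h2 : (0 : ℝ) < pair s (ordVec P.χ w) := by exact_mod_cast h1
    positivity
  have h1 : P.Q.mldQ ≤ (codim (dual P.φ, argVec P.c + v0) : ℝ) / 2 + P.Q.disc u := by
    refine csInf_le ⟨0, ?_⟩ ⟨_, hmem, u, hsh, hint, rfl⟩
    rintro _ ⟨g, hg, u', hu', hui, rfl⟩
    exact TQ.value_nonneg P.Q P.model.lc hg hu' hui
  have h2 : (codim ((dual P.φ, argVec P.c + v0) : Aff n)) = cod P.φ := rfl
  rw [h2] at h1
  have h3 := hQLG P.χ hχ X.trdeg hn σ P.φ P.c P.k P.mon w e ho.1 hU0 hσ1 hσ2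
  have h3' : (e : ℝ) * cod P.φ ≤ 2 * w.logOrd (torForm P.χ) := by exact_mod_cast h3
  have h4 := P.model.ge w (at_through hw)
  rw [hu, disc_scale _ _ he.le, disc_over hPUL hn hQ hC (at_through hw) ho] at h4
  have h5 : (e : ℝ) * ((cod P.φ : ℝ) / 2 + P.Q.disc u) ≤ e * T'.disc v := by
    rw [h4]
    linarith
  exact h1.trans (le_of_mul_le_mul_left h5 he)

theorem upper (hQGAL : Stmt_QGAL) (hQAT : Stmt_QAT) (hPUL : Stmt_QPUL) (hPOW : Stmt_POW)
    (hSHF : Stmt_SHF) (hQV : Stmt_QV) (hn : 0 < n) (hQ : IsQuot X Y G π)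
    (hC : Crepant π T T') (hLC : T.LC) {σ : X.K ≃ₐ[ℂ] X.K} (hσ : σ ∈ G) (P : Pack T σ D) {a : ℝ}
    (ha : a ∈ P.Q.values) : ∃ v : DivVal n Y.K, Y.At v ∧ T'.disc v ≤ a := by
  have hχ : TorusField P.χ := P.coord.toTorusField
  obtain ⟨g, hg, u, hu, hui, rfl⟩ := ha
  obtain ⟨i, hg1, hg2⟩ := (P.gam g).1 hg
  obtain ⟨-, -, -, hpow⟩ := hPOW P.φ P.c P.mon.ne P.mon.mul
  have hmon := hpow P.χ σ P.k P.mon i
  have hge : g = (dual (P.φ ^ i), argVec (cpow P.φ P.c i) + (g.2 - argVec (cpow P.φ P.c i))) := by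
    refine Prod.ext hg1 ?_
    show g.2 = argVec (cpow P.φ P.c i) + (g.2 - argVec (cpow P.φ P.c i))
    abel
  obtain ⟨hdual, hc⟩ := (hSHF (P.φ ^ i) (cpow P.φ P.c i) hmon.pos hmon.ne hmon.mul hmon.iter
    hmon.prod u).1 ⟨_, hg2, hge ▸ hu⟩
  obtain ⟨k1, hk1, hgk, htr⟩ := P.Q.finite_order g hg
  have hku : (k1 : ℝ) • u = trans g k1 := hu.eq hgk
  obtain ⟨z, hz⟩ := (P.model.lattice _).1 htr
  have hk : 0 < P.k := P.mon.pos
  let e : ℕ := P.k * k1
  have he : 0 < e := Nat.mul_pos hk hk1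
  have heR : (0 : ℝ) < e := by exact_mod_cast he
  let U : Fin n → ℤ := (P.k : ℤ) • z
  have hU : toR U = (e : ℝ) • u := by
    show toR ((P.k : ℤ) • z) = ((P.k * k1 : ℕ) : ℝ) • u
    rw [toR_smul, ← hz, ← hku, smul_smul]
    congr 1
    push_cast
    ring
  have hform : ∀ m, (pair m U : ℝ) = e * form m u := by
    intro m
    rw [← form_toR, hU, form_smul]
  have hUpos : ∀ s ∈ P.S, s ≠ 0 → 0 < pair s U := by
    intro s hs hs0
    rw [P.model.int] at hui
    have h1 := hui s hs hs0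
    have h2 : (0 : ℝ) < pair s U := by
      rw [hform]
      positivity
    exact_mod_cast h2
  have hU0 : U ≠ 0 := by
    intro h
    obtain ⟨s, hs, hs0⟩ := exists_ne hn P.coord.gen
    have := hUpos s hs hs0
    rw [h] at this
    simp [pair] at this
  have hfix : ∀ m, pair ((P.φ ^ i) m) U = pair m U := by
    intro m
    have h1 : (pair ((P.φ ^ i) m) U : ℝ) = pair m U := by
      rw [hform, hform, ← form_dual, hdual]
    exact_mod_cast h1
  have hcU : ∀ m, (P.φ ^ i) m = m → cpow P.φ P.c i m =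
      Complex.exp (2 * Real.pi * Complex.I * (pair m U : ℤ) / e) := by
    intro m hm
    rw [hc m hm]
    congr 1
    have h1 : ((pair m U : ℤ) : ℂ) = (e : ℂ) * (form m u : ℝ) := by exact_mod_cast hform m
    have h2 : (e : ℂ) ≠ 0 := by exact_mod_cast he.ne'
    rw [h1]
    field_simp
  obtain ⟨w, δ, hδ, hw1, hw2, hw3⟩ := hQV P.χ hχ X.trdeg (σ ^ i) (P.φ ^ i) (cpow P.φ P.c i) P.k
    hmon e U he (Dvd.intro _ rfl) hU0 hfix hcU
  have hδR : (0 : ℝ) < δ := by exact_mod_cast hδ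
  have hat : X.At w := by
    refine at_of_pos P.coord w fun s hs hs0 => ?_
    have h1 := hUpos s hs hs0
    rw [← hw1] at h1
    exact (mul_pos_iff_of_pos_left (by exact_mod_cast hδ)).1 h1
  obtain ⟨hq1, -, -, -⟩ := hQGAL X Y G π hn hQ
  obtain ⟨v, ew, ho⟩ := hq1 w
  have hew : (0 : ℝ) < ew := by exact_mod_cast ho.1
  refine ⟨v, (hQAT X Y G π hQ w v ew ho).1 hat, ?_⟩
  have hthr := at_through hat
  have h1 := disc_over hPUL hn hQ hC hthr ho
  have h2 := hLC w hthr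
  have h3 := P.model.ge w hthr
  -- the order vector
  have h4 : toR U = (δ : ℝ) • toR (ordVec P.χ w) := by
    funext j
    have h5 := hw1 (Pi.single j 1)
    rw [pair_single] at h5
    show (U j : ℝ) = (δ : ℝ) * (ordVec P.χ w j : ℝ)
    rw [← h5]
    push_cast
    rfl
  have h5 : (δ : ℝ) * P.Q.disc (toR (ordVec P.χ w)) = e * P.Q.disc u := by
    rw [← disc_scale _ _ hδR.le, ← h4, hU, disc_scale _ _ heR.le]
  have h6 : (δ : ℝ) * (2 * w.logOrd (torForm P.χ)) ≤ e * cod (P.φ ^ i) := by exact_mod_cast hw2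
  have h7 : (codim g : ℝ) = cod (P.φ ^ i) := by
    unfold codim cod
    rw [hg1]
  -- ramification
  have h8 : (e : ℝ) ≤ δ * ew := by
    obtain ⟨b, hb, hb1⟩ := v.unif
    have h9 : π b ≠ 0 := fun h => hb ((map_eq_zero π).1 h)
    have h10 : (σ ^ i) (π b) = π b := (hQ.inv _).1 ⟨b, rfl⟩ _ (G.pow_mem hσ i)
    have h11 := hw3 _ h9 h10
    rw [ho.2, hb1, mul_one] at h11
    have h12 : (e : ℤ) ≤ δ * ew := Int.le_of_dvd (by
      have := ho.1
      positivity) h11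
    exact_mod_cast h12
  have h9 : 0 ≤ T'.disc v := by
    rw [h1] at h2
    exact nonneg_of_mul_nonneg_right h2 hew
  have h10 : (δ : ℝ) * (ew * T'.disc v) ≤ e * ((codim g : ℝ) / 2 + P.Q.disc u) := by
    rw [← h1, h3, h7, mul_add, h5]
    linarith
  have h11 : (e : ℝ) * T'.disc v ≤ e * ((codim g : ℝ) / 2 + P.Q.disc u) := by
    refine le_trans ?_ h10
    rw [← mul_assoc]
    exact mul_le_mul_of_nonneg_right h8 h9
  exact le_of_mul_le_mul_left h11 heR

theorem main (hQGAL : Stmt_QGAL) (hQAT : Stmt_QAT) (hPUL : Stmt_QPUL) (hPOW : Stmt_POW)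
    (hSHF : Stmt_SHF) (hQV : Stmt_QV) (hQLG : Stmt_QLG) (hTOR : Stmt_TOR) (hTDC : Stmt_TDC)
    (hMON : Stmt_QMON) (hINVP : Stmt_INVP) (hTQM : Stmt_TQM) (hn : 0 < n) (hQ : IsQuot X Y G π)
    (hC : Crepant π T T') (hLC : T.LC) (hE : T.Effective) (hD : T.CoeffIn D)
    (hG : ∀ g ∈ G, ∃ A : TorusAction X n, A.Normal g ∧ A.InvTriple T) :
    T'.mld ∈ tqSet n (insert 0 D) := by
  classical
  have : Finite G := hQ.finite
  have hp : ∀ g : G, Nonempty (Pack T (g : X.K ≃ₐ[ℂ] X.K) D) := by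
    rintro ⟨g, hg⟩
    obtain ⟨A, hA, hI⟩ := hG g hg
    exact exists_pack hTOR hTDC hMON hINVP hTQM hn hQ hC hLC hE hD hg A hA hI
  let P : ∀ g : G, Pack T (g : X.K ≃ₐ[ℂ] X.K) D := fun g => (hp g).some
  obtain ⟨g0, hg0⟩ := Finite.exists_min fun g : G => (P g).Q.mldQ
  obtain ⟨hq1, hq2, hq3, -⟩ := hQGAL X Y G π hn hQ
  have hlow : ∀ v : DivVal n Y.K, Y.At v → (P g0).Q.mldQ ≤ T'.disc v := by
    intro v hv
    obtain ⟨w, e, ho⟩ := hq2 v
    have hw := (hQAT X Y G π hQ w v e ho).2 hv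
    obtain ⟨g, hg, h1, h2⟩ := hq3 w v e ho
    exact (hg0 ⟨g, hg⟩).trans (lower hPUL hQLG hSHF hn hQ hC (P ⟨g, hg⟩) hw ho h1 h2)
  have hbdd : BddBelow {a : ℝ | ∃ v, Y.At v ∧ T'.disc v = a} := by
    refine ⟨(P g0).Q.mldQ, ?_⟩
    rintro _ ⟨v, hv, rfl⟩
    exact hlow v hv
  have hup : ∀ a ∈ (P g0).Q.values, T'.mld ≤ a := by
    intro a ha
    obtain ⟨v, hv, hva⟩ := upper hQGAL hQAT hPUL hPOW hSHF hQV hn hQ hC hLC g0.2 (P g0) ha
    exact (csInf_le hbdd ⟨v, hv, rfl⟩).trans hva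
  refine ⟨(P g0).Q, (P g0).model.lc, (P g0).coeff, le_antisymm ?_ ?_⟩
  · refine le_csInf ?_ ?_
    · obtain ⟨a, ha⟩ := TQ.exists_value (P g0).Q
      obtain ⟨v, hv, -⟩ := upper hQGAL hQAT hPUL hPOW hSHF hQV hn hQ hC hLC g0.2 (P g0) ha
      exact ⟨_, v, hv, rfl⟩
    · rintro _ ⟨v, hv, rfl⟩
      exact hlow v hv
  · exact le_csInf (TQ.exists_value (P g0).Q) hup

end QFin

open QFin in
/-- ACC for the minimal log discrepancies of crepant quotients of toric triples. -/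
theorem acc_quot (hQGAL : Stmt_QGAL) (hQAT : Stmt_QAT) (hPUL : Stmt_QPUL) (hPOW : Stmt_POW)
    (hSHF : Stmt_SHF) (hQV : Stmt_QV) (hQLG : Stmt_QLG) (hTOR : Stmt_TOR) (hTDC : Stmt_TDC)
    (hMON : Stmt_QMON) (hINVP : Stmt_INVP) (hTQM : Stmt_TQM) {n : ℕ} {D : Set ℝ} (hD : D.IsWF)
    (x : ℕ → ℝ) (hx : ∀ k, x k ∈ quotMld n D) : ¬ StrictMono x := by
  intro hmono
  rcases Nat.eq_zero_or_pos n with rfl | hn
  · have h1 : ∀ k, x k = 0 := by
      intro k
      obtain ⟨X, Y, G, π, T, T', -, -, -, -, -, -, h⟩ := hx k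
      rw [← h]
      have h2 : {a : ℝ | ∃ v, Y.At v ∧ T'.disc v = a} = ∅ := by
        ext a
        simp only [Set.mem_ofPred_eq, Set.mem_empty_iff_false, iff_false]
        rintro ⟨v, -⟩
        exact no_div Y v
      unfold Triple.mld
      rw [h2, Real.sInf_empty]
    have h3 := hmono (Nat.lt_succ_self 0)
    rw [h1, h1] at h3
    exact lt_irrefl _ h3
  · have hD' : (insert 0 D : Set ℝ).IsWF := by
      rw [Set.insert_eq]
      exact Set.isWF_singleton.union hD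
    refine TQ.acc_mldQ (n := n) hD' x (fun k => ?_) hmono
    obtain ⟨X, Y, G, π, T, T', hQ, hC, hLC, hE, hDi, hG, h⟩ := hx k
    rw [← h]
    exact main hQGAL hQAT hPUL hPOW hSHF hQV hQLG hTOR hTDC hMON hINVP hTQM hn hQ hC hLC hE hDi hG

end

end MldGeo
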