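import Pool.Agent.MldGeo.Defs

/-!
# MP_fa3f7f_ag: quotient singularities

The quotient `ℂⁿ / G` of affine space by a finite group of linear maps, at the image of the origin.
-/

namespace MldGeo

open MvPolynomial

noncomputable section

variable {n : ℕ}

/-- The polynomial `p(g x)`. -/
def linSubst (g : GL (Fin n) ℂ) : MvPolynomial (Fin n) ℂ →ₐ[ℂ] MvPolynomial (Fin n) ℂ :=
  aeval fun i => ∑ j, C ((g : Matrix (Fin n) (Fin n) ℂ) i j) * X j

/-- The ring of the polynomials which are invariant under `G`. -/
def invariants (G : Subgroup (GL (Fin n) ℂ)) : Subalgebra ℂ (MvPolynomial (Fin n) ℂ) where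
  carrier := {p | ∀ g ∈ G, linSubst g p = p}
  mul_mem' := fun ha hb g hg => by rw [map_mul, ha g hg, hb g hg]
  add_mem' := fun ha hb g hg => by rw [map_add, ha g hg, hb g hg]
  algebraMap_mem' := fun c g _ => (linSubst g).commutes c

/-- `X` is the quotient `ℂⁿ / G` and `x` is the image of the origin: the regular functions on `X` are
the invariant polynomials, and the functions which vanish at `x` are those with constant term `0`. -/
def Germ.IsQuotient (X : Germ n) (G : Subgroup (GL (Fin n) ℂ)) : Prop :=
  ∃ φ : X.R ≃ₐ[ℂ] invariants G,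
    ∀ a : X.R, a ∈ X.m ↔ constantCoeff (φ a : MvPolynomial (Fin n) ℂ) = 0

/-- `(X, B)` is the log quotient `(ℂⁿ / G, B)` at the image `x` of the origin, `K_{ℂⁿ}` is the
pullback of `K_X + B`: if the order of the polynomials along the prime divisor `q = 0` through the
origin is `e` times the order along its image in `X` then the coefficient of the image in `B` is
`1 - 1 / e` (its log discrepancy is `1 / e`). There are no ideals. -/
def Triple.IsLogQuotient {X : Germ n} (T : Triple X) (G : Subgroup (GL (Fin n) ℂ)) : Prop :=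
  IsEmpty T.J ∧ ∃ φ : X.R ≃ₐ[ℂ] invariants G,
    (∀ a : X.R, a ∈ X.m ↔ constantCoeff (φ a : MvPolynomial (Fin n) ℂ) = 0) ∧
    ∀ q : MvPolynomial (Fin n) ℂ, Irreducible q → constantCoeff q = 0 →
      ∀ (v : DivVal n X.K) (e : ℕ),
        (∀ a : X.R, a ≠ 0 →
          (multiplicity q (φ a : MvPolynomial (Fin n) ℂ) : ℤ) = e * v.ord a) →
        T.logDisc v * e = 1

end

end MldGeo
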