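import Pool.Agent.MldGeo.Grad

/-!
# Varieties with torus action: statements
-/

namespace MldGeo

open MvPolynomial

noncomputable section

/-- A homogeneous splitting: nonzero homogeneous functions `χ u` of weight `u`, multiplicative
in `u`. -/
structure Splitting {n m : ℕ} {X : Germ n} (A : TorusAction X m) where
  /-- the function of weight `u` -/
  χ : (Fin m → ℤ) → X.K
  zero : χ 0 = 1
  add : ∀ u w, χ (u + w) = χ u * χ w
  hom : ∀ u, A.Hom u (χ u)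

/-- SPL: homogeneous splittings exist. -/
def Stmt_SPL : Prop :=
  ∀ {n m : ℕ} {X : Germ n} (A : TorusAction X m), Nonempty (Splitting A)

/-- HLI: homogeneous functions of different weights are linearly independent. -/
def Stmt_HLI : Prop :=
  ∀ {n m : ℕ} {X : Germ n} (A : TorusAction X m) (s : Finset (Fin m → ℤ))
    (h : (Fin m → ℤ) → X.K), (∀ u ∈ s, A.Hom u (h u)) → ∑ u ∈ s, h u = 0 → ∀ u ∈ s, h u = 0

/-- HFR: regular functions are sums of homogeneous regular functions. -/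
def Stmt_HFR : Prop :=
  ∀ {n m : ℕ} {X : Germ n} (A : TorusAction X m) (r : X.R),
    ∃ (s : Finset (Fin m → ℤ)) (h : (Fin m → ℤ) → X.R), (∀ u, h u ∈ A.gr u) ∧
      (∀ u, u ∉ s → h u = 0) ∧ r = ∑ u ∈ s, h u

/-- HFK: rational functions in terms of a splitting. -/
def Stmt_HFK : Prop :=
  ∀ {n m : ℕ} {X : Germ n} (A : TorusAction X m) (S : Splitting A),
    (∀ (u : Fin m → ℤ) (h : X.K), A.Hom u h → ∃ b : A.K0, h = (b : X.K) * S.χ u) ∧
    (∀ (s : Finset (Fin m → ℤ)) (b : (Fin m → ℤ) → A.K0),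
      ∑ u ∈ s, (b u : X.K) * S.χ u = 0 → ∀ u ∈ s, b u = 0) ∧
    ∀ x : X.K, ∃ (s : Finset (Fin m → ℤ)) (b b' : (Fin m → ℤ) → A.K0),
      ∑ u ∈ s, (b' u : X.K) * S.χ u ≠ 0 ∧
      x * ∑ u ∈ s, (b' u : X.K) * S.χ u = ∑ u ∈ s, (b u : X.K) * S.χ u

/-- TRD: the transcendence degree of the field of invariant functions. -/
def Stmt_TRD : Prop :=
  ∀ {n m : ℕ} {X : Germ n} (A : TorusAction X m),
    Algebra.trdeg ℂ A.K0 + (m : Cardinal) = (n : Cardinal)

/-- TRB: a transcendence basis of the field of invariant functions and a basis of the characters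
give a transcendence basis of the function field. -/
def Stmt_TRB : Prop :=
  ∀ {n m c : ℕ} {X : Germ n} (A : TorusAction X m) (S : Splitting A) (s : Fin c → A.K0),
    AlgebraicIndependent ℂ s →
    AlgebraicIndependent ℂ (Sum.elim (fun j => (s j : X.K)) fun i : Fin m => S.χ (Pi.single i 1))

/-- NHP: along a prime divisor which is not invariant homogeneous functions have order zero, and the
order of the invariant form with respect to logarithmic forms is one. -/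
def Stmt_NHP : Prop :=
  ∀ {n m c : ℕ} {X : Germ n} (A : TorusAction X m) (S : Splitting A) (s : Fin c → A.K0)
    (a : Fin n → X.K) (e : Fin n ≃ Fin c ⊕ Fin m), AlgebraicIndependent ℂ s →
    (∀ i, a i = Sum.elim (fun j => (s j : X.K)) (fun i : Fin m => S.χ (Pi.single i 1)) (e i)) →
    ∀ (P : Ideal X.R) (v : DivVal n X.K), X.IsOrdAlong v P → ¬ A.Inv P →
      (∀ (u : Fin m → ℤ) (h : X.K), A.Hom u h → h ≠ 0 → v.ord h = 0) ∧
      v.logOrd (dlogs a) = 1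

/-- GHO: a function whose divisor near `x` is invariant is, near `x`, a homogeneous function times
an invertible function. -/
def Stmt_GHO : Prop :=
  ∀ {n m : ℕ} {X : Germ n} (A : TorusAction X m) (h : X.K), h ≠ 0 →
    (∀ (P : Ideal X.R) (v : DivVal n X.K), X.IsOrdAlong v P → P ≤ X.m → ¬ A.Inv P →
      v.ord h = 0) →
    ∃ (u : Fin m → ℤ) (H : X.K), A.Hom u H ∧ H ≠ 0 ∧ ∀ v, X.Through v → v.ord h = v.ord H

/-- RED: the log discrepancies of an invariant triple. -/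
def Stmt_RED : Prop :=
  ∀ {n m c : ℕ} {X : Germ n} (A : TorusAction X m) (S : Splitting A) (s : Fin c → A.K0)
    (a : Fin n → X.K) (e : Fin n ≃ Fin c ⊕ Fin m), 0 < n → AlgebraicIndependent ℂ s →
    (∀ i, a i = Sum.elim (fun j => (s j : X.K)) (fun i : Fin m => S.χ (Pi.single i 1)) (e i)) →
    ∀ T : Triple X, A.InvTriple T →
      dlogs a ≠ 0 ∧
      ∃ (q : ℕ) (l : Fin q → ℝ) (u : Fin q → (Fin m → ℤ)) (H : Fin q → X.K),
        (∀ k, A.Hom (u k) (H k) ∧ H k ≠ 0) ∧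
        ∀ v, X.Through v → T.logDisc v = v.logOrd (dlogs a) + ∑ k, l k * v.ord (H k)

/-! ## valuations of Gauss type -/

/-- GAU: monomial valuations. `F` is a subfield of `K`, `K` is the field of fractions of
`F[χ^u : u ∈ ℤ^m]`, `ν` is a valuation of `F` (perhaps trivial) with values in `ℤ`, `w` a
homomorphism `ℤ^m → ℤ`. -/
def Stmt_GAU : Prop :=
  ∀ {n m : ℕ} {K : Type} [Field K] [Algebra ℂ K] (F : IntermediateField ℂ K)
    (χ : (Fin m → ℤ) → K), χ 0 = 1 → (∀ u w, χ (u + w) = χ u * χ w) →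
    (∀ (s : Finset (Fin m → ℤ)) (b : (Fin m → ℤ) → F), ∑ u ∈ s, (b u : K) * χ u = 0 →
      ∀ u ∈ s, b u = 0) →
    (∀ x : K, ∃ (s : Finset (Fin m → ℤ)) (b b' : (Fin m → ℤ) → F), ∑ u ∈ s, (b' u : K) * χ u ≠ 0 ∧
      x * ∑ u ∈ s, (b' u : K) * χ u = ∑ u ∈ s, (b u : K) * χ u) →
    ∀ (ν : F → ℤ) (w : (Fin m → ℤ) →+ ℤ),
    (∀ a b, a ≠ 0 → b ≠ 0 → ν (a * b) = ν a + ν b) →
    (∀ a b, a ≠ 0 → b ≠ 0 → a + b ≠ 0 → min (ν a) (ν b) ≤ ν (a + b)) →
    (∀ c : ℂ, c ≠ 0 → ν (algebraMap ℂ F c) = 0) →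
    (∃ (a : F) (u : Fin m → ℤ), a ≠ 0 ∧ ν a + w u = 1) →
    (∃ y : Fin (n - 1) → K, ∀ p : MvPolynomial (Fin (n - 1)) ℂ, p ≠ 0 →
      ∃ (s : Finset (Fin m → ℤ)) (b : (Fin m → ℤ) → F), aeval y p = ∑ u ∈ s, (b u : K) * χ u ∧
        (∀ u ∈ s, b u ≠ 0 → 0 ≤ ν (b u) + w u) ∧ ∃ u ∈ s, b u ≠ 0 ∧ ν (b u) + w u = 0) →
    ∃ v : DivVal n K, ∀ (s : Finset (Fin m → ℤ)) (b : (Fin m → ℤ) → F), (∃ u ∈ s, b u ≠ 0) →
      IsLeast {k : ℤ | ∃ u ∈ s, b u ≠ 0 ∧ k = ν (b u) + w u} (v.ord (∑ u ∈ s, (b u : K) * χ u))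

end

end MldGeo
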