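import Pool.Agent.MldGeo.Stmts6

/-!
# WRO: the Wronskian
-/

namespace MldGeo

namespace WRO

variable {F : Type} [Field F] [Algebra ℂ F]

/-- The columns of the Wronskian matrix of independent functions are independent. -/
theorem kernel_trivial (D : Derivation ℂ F F)
    (hD : ∀ a : F, D a = 0 → ∃ c : ℂ, a = algebraMap ℂ F c) :
    ∀ (k : ℕ) (f : Fin k → F), LinearIndependent ℂ f → ∀ v : Fin k → F,
      (∀ i < k, ∑ j, v j * (D : F → F)^[i] (f j) = 0) → v = 0 := by
  intro k
  induction k with
  | zero =>
    intro f _ v _
    funext j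
    exact j.elim0
  | succ k ih =>
    intro f hf v hv
    by_contra hne
    obtain ⟨j0, hj0⟩ : ∃ j0, v j0 ≠ 0 := by
      by_contra h
      push Not at h
      exact hne (funext h)
    -- normalise
    set w : Fin (k + 1) → F := fun j => v j / v j0 with hw
    have hw0 : w j0 = 1 := by
      simp only [hw]
      exact div_self hj0
    have hwv : ∀ i < k + 1, ∑ j, w j * (D : F → F)^[i] (f j) = 0 := by
      intro i hi
      have h1 : ∑ j, w j * (D : F → F)^[i] (f j)
          = (v j0)⁻¹ * ∑ j, v j * (D : F → F)^[i] (f j) := by
        rw [Finset.mul_sum]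
        refine Finset.sum_congr rfl fun j _ => ?_
        simp only [hw]
        rw [div_eq_mul_inv]
        ring
      rw [h1, hv i hi, mul_zero]
    have hDw : ∀ i < k, ∑ j, D (w j) * (D : F → F)^[i] (f j) = 0 := by
      intro i hi
      have h1 := congrArg D (hwv i (by omega))
      rw [map_sum, map_zero] at h1
      have h2 : ∀ j, D (w j * (D : F → F)^[i] (f j))
          = w j * (D : F → F)^[i + 1] (f j) + D (w j) * (D : F → F)^[i] (f j) := by
        intro j
        rw [Derivation.leibniz, Function.iterate_succ_apply', smul_eq_mul, smul_eq_mul]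
        ring
      rw [Finset.sum_congr rfl fun j _ => h2 j, Finset.sum_add_distrib, hwv (i + 1) (by omega),
        zero_add] at h1
      exact h1
    have hD0 : D (w j0) = 0 := by
      rw [hw0]
      exact D.map_one_eq_zero
    have hzero : (fun j => D (w (j0.succAbove j))) = 0 := by
      refine ih (fun j => f (j0.succAbove j)) (hf.comp _ (Fin.succAbove_right_injective)) _ ?_
      intro i hi
      have h1 := hDw i hi
      rw [Fin.sum_univ_succAbove _ j0, hD0, zero_mul, zero_add] at h1
      exact h1
    have hconst : ∀ j, ∃ c : ℂ, w j = algebraMap ℂ F c := by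
      intro j
      rcases eq_or_ne j j0 with rfl | hj
      · exact ⟨1, by rw [hw0, map_one]⟩
      · obtain ⟨j', rfl⟩ := Fin.exists_succAbove_eq hj
        exact hD _ (congrFun hzero j')
    choose c hc using hconst
    have hrel : ∑ j, c j • f j = 0 := by
      have h1 := hwv 0 (by omega)
      rw [← h1]
      refine Finset.sum_congr rfl fun j _ => ?_
      rw [Function.iterate_zero, id, hc j, Algebra.smul_def]
    have h3 := Fintype.linearIndependent_iff.mp hf c hrel j0
    have h4 := hc j0
    rw [hw0, h3, map_zero] at h4
    exact one_ne_zero h4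

end WRO

/-- WRO: the Wronskian. -/
theorem t_WRO : Stmt_WRO := by
  intro F _ _ D hD k f hf hdet
  obtain ⟨v, hv, h0⟩ := Matrix.exists_mulVec_eq_zero_iff.mpr hdet
  apply hv
  refine WRO.kernel_trivial D hD k f hf v ?_
  intro i hi
  have h1 := congrFun h0 ⟨i, hi⟩
  simp only [Matrix.mulVec, dotProduct, Matrix.of_apply, Pi.zero_apply] at h1
  rw [← h1]
  exact Finset.sum_congr rfl fun j _ => mul_comm _ _

end MldGeo
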